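import Pool.Agent.Lib.MP_d266db_co.E.SpecG

/-!
# MP_d266db_co, E, AbR: the degrees of an absorber
-/

set_option autoImplicit false

namespace Pool.Agent.MPd266dbE

open Finset Pool.Agent.MPd266db Pool.Agent.MPd266dbH

theorem abr_mem {n mF G e : ℕ} {lv : Fin n → ℕ} {jj : Fin mF → ℕ}
    {σ : Fin mF → Equiv.Perm (Fin n)} {π : Fin G → Equiv.Perm (Fin n)} {q : Fin n × Fin n} :
    q ∈ abA e lv jj σ π ↔ (∃ f, tgp e lv q.1 ≠ jj f ∧ σ f q.1 = q.2) ∨ ∃ g, π g q.1 = q.2 := by
  unfold abA
  rw [mem_union, mem_biUnion, mem_biUnion]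
  constructor
  · rintro (⟨f, -, hf⟩ | ⟨g, -, hg⟩)
    · rw [mem_image] at hf
      obtain ⟨v, hv, rfl⟩ := hf
      rw [mem_filter] at hv
      exact Or.inl ⟨f, hv.2, rfl⟩
    · exact Or.inr ⟨g, mem_arcs.1 hg⟩
  · rintro (⟨f, hf, hq⟩ | ⟨g, hg⟩)
    · refine Or.inl ⟨f, mem_univ _, ?_⟩
      rw [mem_image]
      exact ⟨q.1, by rw [mem_filter]; exact ⟨mem_univ _, hf⟩, Prod.ext rfl hq⟩
    · exact Or.inr ⟨g, mem_univ _, mem_arcs.2 hg⟩

/-- the number of the objects whose gap is not `j` -/
theorem abr_cnt (e s j : ℕ) (hj : j ≤ e) :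
    ((univ : Finset (Fin ((e + 1) * s))).filter (fun f => j ≠ jjf e s f)).card = e * s := by
  have h1 : ((univ : Finset (Fin ((e + 1) * s))).filter (fun f => j ≠ jjf e s f)).card =
      (((univ : Finset (Fin (e + 1))).erase ⟨j, Nat.lt_succ_of_le hj⟩) ×ˢ
        (univ : Finset (Fin s))).card := by
    apply Finset.card_bij (fun f _ => finProdFinEquiv.symm f)
    · intro f hf
      rw [mem_filter] at hf
      rw [mem_product, mem_erase]
      refine ⟨⟨?_, mem_univ _⟩, mem_univ _⟩
      intro h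
      apply hf.2
      unfold jjf
      rw [h]
    · intro f _ f' _ h
      exact finProdFinEquiv.symm.injective h
    · intro b hb
      rw [mem_product, mem_erase] at hb
      refine ⟨finProdFinEquiv b, ?_, Equiv.symm_apply_apply _ _⟩
      rw [mem_filter]
      refine ⟨mem_univ _, ?_⟩
      unfold jjf
      rw [Equiv.symm_apply_apply]
      intro h
      exact hb.1.1 (Fin.ext h.symm)
  rw [h1, card_product, card_erase_of_mem (mem_univ _), card_univ, card_univ, Fintype.card_fin,
    Fintype.card_fin, Nat.add_sub_cancel]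

/-- counting a set which is parametrised by objects with gap different from `j` and partners -/
theorem abr_card {n : ℕ} (e s G j : ℕ) (hj : j ≤ e) (A : Finset (Fin n × Fin n))
    (F : Fin ((e + 1) * s) → Fin n × Fin n) (H : Fin G → Fin n × Fin n)
    (hA : ∀ q, q ∈ A ↔ (∃ f, j ≠ jjf e s f ∧ F f = q) ∨ ∃ g, H g = q)
    (hF : ∀ f f', f ≠ f' → j ≠ jjf e s f → j ≠ jjf e s f' → F f ≠ F f')
    (hH : ∀ g g', g ≠ g' → H g ≠ H g')
    (hFH : ∀ f g, j ≠ jjf e s f → F f ≠ H g) : A.card = e * s + G := by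
  have h1 : A = (((univ : Finset (Fin ((e + 1) * s))).filter
      (fun f => j ≠ jjf e s f)).image F) ∪ (univ : Finset (Fin G)).image H := by
    ext q
    rw [hA, mem_union, mem_image, mem_image]
    simp only [mem_filter, mem_univ, true_and]
  rw [h1, card_union_of_disjoint, card_image_of_injOn, card_image_of_injOn, abr_cnt e s j hj,
    card_univ, Fintype.card_fin]
  · intro g _ g' _ h
    by_contra hne
    exact hH g g' hne h
  · intro f hf f' hf' h
    rw [mem_coe, mem_filter] at hf hf'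
    by_contra hne
    exact hF f f' hne hf.2 hf'.2 h
  · rw [disjoint_left]
    intro q hq hq'
    rw [mem_image] at hq hq'
    obtain ⟨f, hf, rfl⟩ := hq
    obtain ⟨g, -, hg⟩ := hq'
    rw [mem_filter] at hf
    exact hFH f g hf.2 hg.symm

/-- The degrees of an absorber. -/
theorem tAbR : S_AbR := by
  intro n e s G lv S' σ π h hlv
  refine ⟨fun v => ⟨?_, ?_⟩, ?_⟩
  · unfold od
    apply abr_card e s G (tgp e lv v) (tgp_le e lv v) _ (fun f => (v, σ f v)) (fun g => (v, π g v))
    · intro q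
      rw [mem_filter, abr_mem]
      constructor
      · rintro ⟨(⟨f, hf, hq⟩ | ⟨g, hg⟩), rfl⟩
        · exact Or.inl ⟨f, hf, Prod.ext rfl hq⟩
        · exact Or.inr ⟨g, Prod.ext rfl hg⟩
      · rintro (⟨f, hf, rfl⟩ | ⟨g, rfl⟩)
        · exact ⟨Or.inl ⟨f, hf, rfl⟩, rfl⟩
        · exact ⟨Or.inr ⟨g, rfl⟩, rfl⟩
    · intro f f' hne hf hf' heq
      exact h.dF f f' hne v hf hf' (Prod.mk.inj heq).2
    · intro g g' hne heq
      exact h.dG g g' hne v (Prod.mk.inj heq).2
    · intro f g hf heq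
      exact h.dFG f g v hf (Prod.mk.inj heq).2
  · have hgap : ∀ f, tgp e lv ((σ f).symm v) = hgp e lv v := by
      intro f
      have := (h.wd f ((σ f).symm v)).1
      rwa [Equiv.apply_symm_apply] at this
    unfold idg
    apply abr_card e s G (hgp e lv v) (hgp_le (hlv v)) _ (fun f => ((σ f).symm v, v))
      (fun g => ((π g).symm v, v))
    · intro q
      rw [mem_filter, abr_mem]
      constructor
      · rintro ⟨(⟨f, hf, hq⟩ | ⟨g, hg⟩), rfl⟩
        · have hq' : (σ f).symm q.2 = q.1 := by rw [← hq, Equiv.symm_apply_apply]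
          refine Or.inl ⟨f, ?_, Prod.ext hq' rfl⟩
          rw [← hgap f, hq']
          exact hf
        · have hg' : (π g).symm q.2 = q.1 := by rw [← hg, Equiv.symm_apply_apply]
          exact Or.inr ⟨g, Prod.ext hg' rfl⟩
      · rintro (⟨f, hf, rfl⟩ | ⟨g, rfl⟩)
        · refine ⟨Or.inl ⟨f, ?_, Equiv.apply_symm_apply _ _⟩, rfl⟩
          change tgp e lv ((σ f).symm v) ≠ jjf e s f
          rw [hgap f]
          exact hf
        · exact ⟨Or.inr ⟨g, Equiv.apply_symm_apply _ _⟩, rfl⟩
    · intro f f' hne hf hf' heq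
      have h1 : (σ f).symm v = (σ f').symm v := (Prod.mk.inj heq).1
      refine h.dF f f' hne ((σ f).symm v) (by rw [hgap f]; exact hf)
        (by rw [hgap f]; exact hf') ?_
      rw [Equiv.apply_symm_apply, h1, Equiv.apply_symm_apply]
    · intro g g' hne heq
      have h1 : (π g).symm v = (π g').symm v := (Prod.mk.inj heq).1
      refine h.dG g g' hne ((π g).symm v) ?_
      rw [Equiv.apply_symm_apply, h1, Equiv.apply_symm_apply]
    · intro f g hf heq
      have h1 : (σ f).symm v = (π g).symm v := (Prod.mk.inj heq).1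
      refine h.dFG f g ((σ f).symm v) (by rw [hgap f]; exact hf) ?_
      rw [Equiv.apply_symm_apply, h1, Equiv.apply_symm_apply]
  · rintro ⟨u, v⟩ hq
    rw [abr_mem] at hq
    obtain ⟨f, hf, hq⟩ | ⟨g, hg⟩ := hq
    · have := h.aF f u hf
      change σ f u = v at hq
      rwa [hq] at this
    · have := h.aG g u
      change π g u = v at hg
      rwa [hg] at this

end Pool.Agent.MPd266dbE
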