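import Pool.Agent.Lib.MP_d266db_co.E.SpecD

/-!
# MP_d266db_co, E: the absorber, assembly
-/

set_option autoImplicit false

namespace Pool.Agent.MPd266dbE

open Finset Pool.Agent.MPd266db Pool.Agent.MPd266dbH

theorem abx_dg_biU {n m c : ℕ} (A : Fin m → Finset (Fin n × Fin n)) (h : ∀ f, Dg (A f) c) :
    Dg (univ.biUnion A) (c * m) := by
  classical
  intro v
  constructor
  · unfold od
    rw [filter_biUnion]
    calc (univ.biUnion fun f => (A f).filter (fun e => e.1 = v)).card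
        ≤ ∑ f : Fin m, ((A f).filter (fun e => e.1 = v)).card := card_biUnion_le
      _ ≤ ∑ _f : Fin m, c := sum_le_sum (fun f _ => (h f v).1)
      _ = c * m := by simp [mul_comm]
  · unfold idg
    rw [filter_biUnion]
    calc (univ.biUnion fun f => (A f).filter (fun e => e.2 = v)).card
        ≤ ∑ f : Fin m, ((A f).filter (fun e => e.2 = v)).card := card_biUnion_le
      _ ≤ ∑ _f : Fin m, c := sum_le_sum (fun f _ => (h f v).2)
      _ = c * m := by simp [mul_comm]

theorem abx_dg_range {n m c : ℕ} (A : ℕ → Finset (Fin n × Fin n)) (h : ∀ f < m, Dg (A f) c) :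
    Dg ((range m).biUnion A) (c * m) := by
  classical
  intro v
  constructor
  · unfold od
    rw [filter_biUnion]
    calc ((range m).biUnion fun f => (A f).filter (fun e => e.1 = v)).card
        ≤ ∑ f ∈ range m, ((A f).filter (fun e => e.1 = v)).card := card_biUnion_le
      _ ≤ ∑ _f ∈ range m, c := sum_le_sum (fun f hf => (h f (mem_range.mp hf) v).1)
      _ = c * m := by simp [mul_comm]
  · unfold idg
    rw [filter_biUnion]
    calc ((range m).biUnion fun f => (A f).filter (fun e => e.2 = v)).card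
        ≤ ∑ f ∈ range m, ((A f).filter (fun e => e.2 = v)).card := card_biUnion_le
      _ ≤ ∑ _f ∈ range m, c := sum_le_sum (fun f hf => (h f (mem_range.mp hf) v).2)
      _ = c * m := by simp [mul_comm]

theorem abx_dg_pka {n : ℕ} {x x' y₁ y₂ y₃ : Fin n}
    (h : ({x, x', y₁, y₂, y₃} : Finset (Fin n)).card = 5) : Dg (pka x x' y₁ y₂ y₃) 3 := by
  classical
  have hx : x ≠ x' := by
    rintro rfl
    have : ({x, x, y₁, y₂, y₃} : Finset (Fin n)) = {x, y₁, y₂, y₃} := by simp
    rw [this] at h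
    have := card_le_four (a := x) (b := y₁) (c := y₂) (d := y₃)
    omega
  intro v
  constructor
  · have hs : (pka x x' y₁ y₂ y₃).filter (fun e => e.1 = v) ⊆
        {(v, y₁), (v, y₂), (v, y₃)} := by
      intro a ha
      rw [mem_filter, pka] at ha
      obtain ⟨h1, h2⟩ := ha
      simp only [mem_insert, mem_singleton] at h1 ⊢
      rcases h1 with rfl | rfl | rfl | rfl | rfl | rfl <;> subst h2 <;> simp
    exact (card_le_card hs).trans card_le_three
  · have hs : (pka x x' y₁ y₂ y₃).filter (fun e => e.2 = v) ⊆ {(x, v), (x', v)} := by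
      intro a ha
      rw [mem_filter, pka] at ha
      obtain ⟨h1, h2⟩ := ha
      simp only [mem_insert, mem_singleton] at h1 ⊢
      rcases h1 with rfl | rfl | rfl | rfl | rfl | rfl <;> subst h2 <;> simp
    exact (card_le_card hs).trans (card_le_two.trans (by norm_num))

theorem abx_dg_lka {n : ℕ} (q : Fin n × Fin n × Fin n × Fin n) : Dg (lka q) 2 := by
  classical
  intro v
  constructor
  · have hs : (lka q).filter (fun e => e.1 = v) ⊆ {(v, q.2.2.1), (v, q.2.2.2)} := by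
      intro a ha
      rw [mem_filter, lka] at ha
      obtain ⟨h1, h2⟩ := ha
      simp only [mem_insert, mem_singleton] at h1 ⊢
      rcases h1 with rfl | rfl | rfl | rfl <;> subst h2 <;> simp
    exact (card_le_card hs).trans card_le_two
  · have hs : (lka q).filter (fun e => e.2 = v) ⊆ {(q.1, v), (q.2.1, v)} := by
      intro a ha
      rw [mem_filter, lka] at ha
      obtain ⟨h1, h2⟩ := ha
      simp only [mem_insert, mem_singleton] at h1 ⊢
      rcases h1 with rfl | rfl | rfl | rfl <;> subst h2 <;> simp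
    exact (card_le_card hs).trans card_le_two

theorem abx_Vt {n mF q Mx : ℕ} (σ : Fin mF → Equiv.Perm (Fin n))
    (T : Fin mF → Finset (Fin n × Fin n)) (col : Fin mF → Fin n × Fin n → Fin q)
    (h : ∀ f c, ((T f).filter (fun t => col f t = c)).card ≤ Mx) (g : ℕ) :
    (Vt σ T col g).card ≤ 4 * Mx := by
  classical
  unfold Vt
  split_ifs with hg
  · calc ((tq σ T col ⟨g, hg⟩).biUnion qv).card ≤ (tq σ T col ⟨g, hg⟩).card * 4 :=
        card_biUnion_le_card_mul _ _ _ (fun a _ => card_le_four)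
      _ ≤ Mx * 4 := by
        apply Nat.mul_le_mul_right
        unfold tq
        exact card_image_le.trans (h _ _)
      _ = 4 * Mx := by ring
  · simp

theorem abx_qar {n mF q : ℕ} (σ : Fin mF → Equiv.Perm (Fin n))
    (T : Fin mF → Finset (Fin n × Fin n)) (col : Fin mF → Fin n × Fin n → Fin q)
    (lk : ℕ → Fin n × Fin n × Fin n × Fin n) (x x' y₁ y₂ y₃ : Fin n)
    (S Z1 : Finset (Fin n × Fin n)) (B : Finset (Fin n)) (V : ℕ → Finset (Fin n))
    (hL : LkP S Z1 B V (mF * q) lk x x' y₁ y₂ y₃) (g : Fin (mF * q)) (a : Fin n × Fin n)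
    (ha : a ∈ qar (ent σ T col lk x x' y₁ y₂ y₃ g)) :
    (∃ f, ∃ t ∈ T f, a = (t.1, σ f t.2) ∨ a = (t.2, σ f t.1)) ∨ a ∈ S \ Z1 := by
  classical
  have key : ∃ u ∈ ent σ T col lk x x' y₁ y₂ y₃ g, a = (u.1, u.2.2.1) ∨ a = (u.2.1, u.2.2.2) := by
    unfold qar at ha
    rw [mem_union, mem_image, mem_image] at ha
    rcases ha with ⟨u, hu, rfl⟩ | ⟨u, hu, rfl⟩
    · exact ⟨u, hu, Or.inl rfl⟩
    · exact ⟨u, hu, Or.inr rfl⟩
  obtain ⟨u, hu, hau⟩ := key
  have h5 := hL.a5
  unfold ent at hu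
  rw [mem_union, mem_union, mem_union] at hu
  rcases hu with hu | hu | hu | hu
  · left
    unfold tq at hu
    rw [mem_image] at hu
    obtain ⟨t, ht, rfl⟩ := hu
    exact ⟨_, t, (mem_filter.mp ht).1, hau⟩
  · right
    split_ifs at hu with h
    · rw [mem_singleton] at hu
      subst hu
      apply hL.a4 g g.isLt
      unfold lka
      rcases hau with rfl | rfl <;> simp
    · simp at hu
  · right
    split_ifs at hu with h
    · rw [mem_singleton] at hu
      subst hu
      apply hL.a4 (g - 1) (lt_of_le_of_lt (Nat.sub_le _ _) g.isLt)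
      unfold lka
      rcases hau with rfl | rfl <;> simp
    · simp at hu
  · right
    split_ifs at hu with h1 h2 h3
    · rw [mem_singleton] at hu
      subst hu
      apply h5
      unfold pka
      rcases hau with rfl | rfl <;> simp
    · rw [mem_singleton] at hu
      subst hu
      apply h5
      unfold pka
      rcases hau with rfl | rfl <;> simp
    · rw [mem_singleton] at hu
      subst hu
      apply h5
      unfold pka
      rcases hau with rfl | rfl <;> simp
    · simp at hu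

theorem abx_oarc_arc {n : ℕ} {e : ℕ} {lv : Fin n → ℕ} {j : ℕ} (σ : Equiv.Perm (Fin n))
    (T : Finset (Fin n × Fin n)) {v : Fin n} (hv : tgp e lv v ≠ j) :
    (v, σ v) ∈ oarc e lv j σ T := by
  classical
  unfold oarc
  exact mem_union_left _ (mem_image.mpr ⟨v, mem_filter.mpr ⟨mem_univ _, hv⟩, rfl⟩)

theorem abx_oarc_c1 {n : ℕ} (e : ℕ) (lv : Fin n → ℕ) (j : ℕ) (σ : Equiv.Perm (Fin n))
    {T : Finset (Fin n × Fin n)} {t : Fin n × Fin n} (ht : t ∈ T) :
    (t.1, σ t.2) ∈ oarc e lv j σ T := by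
  classical
  unfold oarc
  exact mem_union_right _ (mem_union_left _ (mem_image.mpr ⟨t, ht, rfl⟩))

theorem abx_oarc_c2 {n : ℕ} (e : ℕ) (lv : Fin n → ℕ) (j : ℕ) (σ : Equiv.Perm (Fin n))
    {T : Finset (Fin n × Fin n)} {t : Fin n × Fin n} (ht : t ∈ T) :
    (t.2, σ t.1) ∈ oarc e lv j σ T := by
  classical
  unfold oarc
  exact mem_union_right _ (mem_union_right _ (mem_image.mpr ⟨t, ht, rfl⟩))

theorem abx_fob {n : ℕ} {e : ℕ} {lv : Fin n → ℕ} {S X : Finset (Fin n × Fin n)} {j : ℕ}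
    {σ : Equiv.Perm (Fin n)} {T : Finset (Fin n × Fin n)} (h : FOb e lv S X j σ T) (v : Fin n) :
    (v, σ v) ∈ X ∨ (v, σ v) ∈ S := by
  by_cases hv : v ∈ tls X
  · left
    obtain ⟨q, hq, rfl⟩ := mem_tls.mp hv
    rw [h.ax q hq]
    exact hq
  · exact Or.inr (h.ar v hv)

theorem tAbX (hObj : S_Obj) (hTCl : S_TCl) (hLks : S_Lks) (hEnt : S_Ent) (hPts : S_Pts)
    (hPrM : S_PrM) (hAbp : S_Abp) : S_AbX := by
  classical
  intro n K e mF q p Δ ℓ b z0 z Mx lv S Xe U0 Z0 o i jj gP hOb hHm hCn hK2 hoi hloop hZ0 hz hlv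
    hjj hSX hXne hXD hΔ hXlv hXbal hU0 hUc hG hMx hq hb1 hb2 hgP
  set B : Finset (Fin n) := univ.filter (fun v => lv v = 0 ∨ e ≤ lv v) with hB
  have hwS : wnd e lv S ⊆ S := filter_subset _ _
  -- objects
  obtain ⟨X, σ, T, h1, h2, h3⟩ := hObj n e mF p Δ z0 z lv (wnd e lv S) Xe U0 Z0 jj hOb hZ0
    (by omega) hjj (Disjoint.mono_left hwS hSX) hXne hXD hΔ hU0
    (by
      have : mF * p ≤ (mF + mF * q) * p := Nat.mul_le_mul_right _ (Nat.le_add_right _ _)
      omega)
  have hF : ∀ f, FOb e lv (wnd e lv S \ Z0) (X f) (jj f) (σ f) (T f) := fun f => (h1 f).2.2.2.1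
  -- colours
  have hcol : ∀ f, ∃ col : Fin n × Fin n → Fin q,
      (∀ c, ((T f).filter (fun t => col t = c)).card ≤ Mx) ∧
      ∀ t ∈ T f, ∀ t' ∈ T f, t ≠ t' → col t = col t' →
        t.1 ≠ σ f t'.1 ∧ t.1 ≠ σ f t'.2 ∧ t.2 ≠ σ f t'.1 ∧ t.2 ≠ σ f t'.2 :=
    fun f => hTCl n Mx q (T f) (σ f) (hF f).tne (hF f).td hMx hq
  choose col hc1 hc2 using hcol
  -- links
  have hD1 : Dg (Z0 ∪ oAll e lv jj σ T) (z0 + 2 * mF) :=
    hZ0.union (abx_dg_biU _ (fun f => (h1 f).2.2.2.2))
  obtain ⟨lk, x, x', y₁, y₂, y₃, l1, l2, l3, l4, l5, l6⟩ := hLks n (mF * q) b (z0 + 2 * mF) z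
    (4 * Mx) S (Z0 ∪ oAll e lv jj σ T) B (Vt σ T col) hK2 hloop hD1 (by omega)
    (abx_Vt σ T col hc1) (by omega)
  have hL : LkP S (Z0 ∪ oAll e lv jj σ T) B (Vt σ T col) (mF * q) lk x x' y₁ y₂ y₃ :=
    ⟨l1, l2, l3, fun g hg => (l4 g hg).1, fun g hg => (l4 g hg).2.1, fun g hg => (l4 g hg).2.2.1,
      fun g hg => (l4 g hg).2.2.2, l5, l6⟩
  -- quadruples
  obtain ⟨e1, e2⟩ := hEnt n e mF q Mx lv S Z0 jj X σ T col lk x x' y₁ y₂ y₃ hlv hG hF h3 hc1 hc2 hL
  -- partners
  have hD2 : Dg ((Z0 ∪ oAll e lv jj σ T) ∪ lAll (mF * q) lk x x' y₁ y₂ y₃)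
      (z0 + 2 * mF + (3 + 2 * (mF * q))) :=
    hD1.union ((abx_dg_pka l1).union (abx_dg_range _ (fun g _ => abx_dg_lka (lk g))))
  have hXU : U0 ∪ univ.biUnion X ⊆ Xe := by
    apply union_subset hU0
    intro a ha
    rw [mem_biUnion] at ha
    obtain ⟨f, -, ha⟩ := ha
    exact (mem_sdiff.mp ((h1 f).1 ha)).1
  have hXc : (U0 ∪ univ.biUnion X).card ≤ U0.card + mF * p := by
    refine (card_union_le _ _).trans (Nat.add_le_add_left ?_ _)
    refine card_biUnion_le.trans ?_
    rw [sum_congr rfl (fun f _ => (h1 f).2.2.1)]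
    simp
  obtain ⟨π, p1, p2⟩ := hPts n K (mF * q) p Δ ℓ b (z0 + 2 * mF + (3 + 2 * (mF * q))) z (Mx + 3) S
    Xe (U0 ∪ univ.biUnion X) ((Z0 ∪ oAll e lv jj σ T) ∪ lAll (mF * q) lk x x' y₁ y₂ y₃) o i B
    (ent σ T col lk x x' y₁ y₂ y₃) gP hHm hCn hoi hD2 (by omega) hSX hXne hXD hΔ
    (by
      intro v hv
      rw [hB, mem_filter]
      refine ⟨mem_univ _, ?_⟩
      unfold vts at hv
      rw [mem_union, mem_tls, mem_hds] at hv
      rcases hv with ⟨a, ha, rfl⟩ | ⟨a, ha, rfl⟩
      · exact Or.inr (hXlv a ha).1.ge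
      · exact Or.inl (hXlv a ha).2)
    hXbal hXU
    (by
      have : (mF + mF * q) * p = mF * p + mF * q * p := by ring
      omega)
    (fun g => ⟨(e1 g).1, (e1 g).2.1⟩) hb1 hgP
    (fun g => ⟨(e1 g).2.2.1, (e1 g).2.2.2.1.trans (by
      intro a ha
      rw [mem_inter, mem_union] at ha
      rw [mem_inter, mem_union, mem_union]
      exact ⟨ha.1.elim (fun h => Or.inl (Or.inr h)) Or.inr, ha.2⟩), (e1 g).2.2.2.2⟩) e2
  have hPrt := hPrM n mF q σ T col lk x x' y₁ y₂ y₃ π S (Z0 ∪ oAll e lv jj σ T) B hG hL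
    (fun g => (e1 g).2.2.1) (fun g => (p2 g).1) (fun g => (p2 g).2.2)
  have hab := hAbp n e mF q lv (wnd e lv S \ Z0) jj X σ T col π _ _ hF hlv hjj hG hPrt
  have hwZ : wnd e lv S \ Z0 ⊆ S \ Z0 := sdiff_subset_sdiff hwS (Subset.refl _)
  have hoA : ∀ f, oarc e lv (jj f) (σ f) (T f) ⊆ oAll e lv jj σ T := by
    intro f a ha
    unfold oAll
    exact mem_biUnion.mpr ⟨f, mem_univ _, ha⟩
  refine ⟨σ, π, ⟨?_, ?_, fun f v => (hF f).wn v, ?_, p1, ?_, hab⟩⟩
  · intro f v _
    rw [mem_union]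
    rcases abx_fob (hF f) v with h | h
    · exact Or.inr ((h1 f).1 h)
    · exact Or.inl (hwZ h)
  · intro g v
    rw [mem_union]
    have h := (p2 g).2.1 v
    rw [mem_union, mem_union] at h
    rcases h with h | h | h
    · left
      rcases abx_qar σ T col lk x x' y₁ y₂ y₃ S _ B _ hL g _ h with ⟨f, t, ht, h' | h'⟩ | h'
      · rw [h']
        exact hwZ ((hF f).tc t ht).1
      · rw [h']
        exact hwZ ((hF f).tc t ht).2
      · rw [mem_sdiff, mem_union, not_or] at h'
        exact mem_sdiff.mpr ⟨h'.1, h'.2.1⟩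
    · left
      rw [mem_sdiff, mem_union, mem_union, not_or, not_or] at h
      exact mem_sdiff.mpr ⟨h.1, h.2.1.1⟩
    · right
      rw [mem_sdiff, mem_union, not_or] at h
      exact mem_sdiff.mpr ⟨h.1, h.2.1⟩
  · intro f f' hff v hv hv' heq
    have ha := abx_oarc_arc (σ f) (T f) hv
    have ha' := abx_oarc_arc (σ f') (T f') hv'
    rw [← heq] at ha'
    exact Finset.disjoint_left.mp (h3 f f' hff) ha ha'
  · intro f g v hv heq
    have ha := abx_oarc_arc (σ f) (T f) hv
    have haZ : (v, σ f v) ∈ oAll e lv jj σ T := hoA f ha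
    have h := (p2 g).2.1 v
    rw [← heq, mem_union, mem_union] at h
    have hff : ∀ f', (v, σ f v) ∈ oarc e lv (jj f') (σ f') (T f') → f' = f := by
      intro f' h'
      by_contra hne
      exact Finset.disjoint_left.mp (h3 f' f hne) h' ha
    rcases h with h | h | h
    · rcases abx_qar σ T col lk x x' y₁ y₂ y₃ S _ B _ hL g _ h with ⟨f', t, ht, h' | h'⟩ | h'
      · have h4 := hff f' (by rw [h']; exact abx_oarc_c1 e lv (jj f') (σ f') ht)
        subst h4
        have h5 : v = t.1 := congrArg Prod.fst h'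
        have h6 : σ f' v = σ f' t.2 := congrArg Prod.snd h'
        have h7 := (σ f').injective h6
        exact (hF f').tne t ht (h5.symm.trans h7)
      · have h4 := hff f' (by rw [h']; exact abx_oarc_c2 e lv (jj f') (σ f') ht)
        subst h4
        have h5 : v = t.2 := congrArg Prod.fst h'
        have h6 : σ f' v = σ f' t.1 := congrArg Prod.snd h'
        have h7 := (σ f').injective h6
        exact (hF f').tne t ht (h7.symm.trans h5)
      · rw [mem_sdiff, mem_union, not_or] at h'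
        exact h'.2.2 haZ
    · rw [mem_sdiff, mem_union, mem_union, not_or, not_or] at h
      exact h.2.1.2 haZ
    · rw [mem_sdiff, mem_union, not_or] at h
      rcases abx_fob (hF f) v with h4 | h4
      · exact h.2.2 (mem_biUnion.mpr ⟨f, mem_univ _, h4⟩)
      · exact Finset.disjoint_left.mp hSX (hwS (mem_sdiff.mp h4).1) h.1

end Pool.Agent.MPd266dbE
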