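import Pool.Agent.Lib.MP_d266db_co.E.SpecD

set_option autoImplicit false

namespace Pool.Agent.MPd266dbE

open Finset Pool.Agent.MPd266db Pool.Agent.MPd266dbH

theorem abp_PD_ne {n : ℕ} {t t' : Fin n × Fin n} (h : PD t t') : t ≠ t' := by
  rintro rfl
  exact h.1 rfl

theorem abp_PD_symm {n : ℕ} {t t' : Fin n × Fin n} (h : PD t t') : PD t' t :=
  ⟨fun h1 => h.1 h1.symm, fun h1 => h.2.2.1 h1.symm, fun h1 => h.2.1 h1.symm,
    fun h1 => h.2.2.2 h1.symm⟩

theorem abp_Tog_unique {n : ℕ} {E : Finset (Fin n × Fin n)} {τ τ' : Equiv.Perm (Fin n)}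
    (h : Tog E τ) (h' : Tog E τ') : τ = τ' := by
  refine Equiv.ext fun v => ?_
  by_cases hv : ∀ q ∈ E, v ≠ q.1 ∧ v ≠ q.2
  · rw [h.2 v hv, h'.2 v hv]
  · push Not at hv
    obtain ⟨q, hq, hq'⟩ := hv
    by_cases h1 : v = q.1
    · subst h1
      rw [(h.1 q hq).1, (h'.1 q hq).1]
    · have h2 := hq' h1
      subst h2
      rw [(h.1 q hq).2, (h'.1 q hq).2]

theorem abp_F {n e j : ℕ} {lv : Fin n → ℕ} {μ σ : Equiv.Perm (Fin n)}
    (hμ : ∀ v, Wd e lv v (μ v)) (hσ : ∀ v, Wd e lv v (σ v)) :
    ∃ F : Equiv.Perm (Fin n), ∀ v, F v = if tgp e lv v = j then μ v else σ v := by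
  have inj : Function.Injective (fun v => if tgp e lv v = j then μ v else σ v) := by
    intro v w h
    dsimp only at h
    split_ifs at h with h1 h2 h2
    · exact μ.injective h
    · exfalso
      apply h2
      rw [(hσ w).1, ← h, ← (hμ v).1]
      exact h1
    · exfalso
      apply h1
      rw [(hσ v).1, h, ← (hμ w).1]
      exact h2
    · exact σ.injective h
  exact ⟨Equiv.ofBijective _ (Finite.injective_iff_bijective.1 inj), fun v => rfl⟩

/-- a three-cycle -/
theorem abp_cyc {α : Type} [DecidableEq α] {a b c : α} (hab : a ≠ b) (hbc : b ≠ c) (hac : a ≠ c) :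
    (Equiv.swap a b * Equiv.swap b c) a = b ∧ (Equiv.swap a b * Equiv.swap b c) b = c ∧
      (Equiv.swap a b * Equiv.swap b c) c = a ∧
      ∀ x, x ≠ a → x ≠ b → x ≠ c → (Equiv.swap a b * Equiv.swap b c) x = x := by
  refine ⟨?_, ?_, ?_, ?_⟩
  · rw [Equiv.Perm.mul_apply, Equiv.swap_apply_of_ne_of_ne hab hac, Equiv.swap_apply_left]
  · rw [Equiv.Perm.mul_apply, Equiv.swap_apply_left,
      Equiv.swap_apply_of_ne_of_ne hac.symm hbc.symm]
  · rw [Equiv.Perm.mul_apply, Equiv.swap_apply_right, Equiv.swap_apply_right]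
  · intro x h1 h2 h3
    rw [Equiv.Perm.mul_apply, Equiv.swap_apply_of_ne_of_ne h2 h3,
      Equiv.swap_apply_of_ne_of_ne h1 h2]

/-- the permutations of the switches -/
def abp_rho {n mF q : ℕ} (col : Fin mF → Fin n × Fin n → Fin q) (h3 : 3 ≤ mF * q) :
    (Fin mF × (Fin n × Fin n)) ⊕ (Fin (mF * q) ⊕ Unit) → Equiv.Perm (Fin mF ⊕ Fin (mF * q))
  | .inl p => Equiv.swap (.inl p.1) (.inr (finProdFinEquiv (p.1, col p.1 p.2)))
  | .inr (.inl g) =>
    if h : (g : ℕ) + 1 < mF * q then Equiv.swap (.inr g) (.inr ⟨g + 1, h⟩) else 1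
  | .inr (.inr _) => Equiv.swap (.inr ⟨0, by omega⟩) (.inr ⟨1, by omega⟩) *
      Equiv.swap (.inr ⟨1, by omega⟩) (.inr ⟨2, by omega⟩)

theorem abp_cyc3 {n mF q : ℕ} (col : Fin mF → Fin n × Fin n → Fin q) (h3 : 3 ≤ mF * q) (u : Unit) :
    abp_rho col h3 (.inr (.inr u)) (.inr ⟨0, by omega⟩) = .inr ⟨1, by omega⟩ ∧
    abp_rho col h3 (.inr (.inr u)) (.inr ⟨1, by omega⟩) = .inr ⟨2, by omega⟩ ∧
    abp_rho col h3 (.inr (.inr u)) (.inr ⟨2, by omega⟩) = .inr ⟨0, by omega⟩ ∧
    ∀ x, x ≠ .inr ⟨0, by omega⟩ → x ≠ .inr ⟨1, by omega⟩ → x ≠ .inr ⟨2, by omega⟩ →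
      abp_rho col h3 (.inr (.inr u)) x = x := by
  refine abp_cyc ?_ ?_ ?_
  · intro h
    simp [Fin.ext_iff] at h
  · intro h
    simp [Fin.ext_iff] at h
  · intro h
    simp [Fin.ext_iff] at h

theorem abp_mvl {n mF q : ℕ} (col : Fin mF → Fin n × Fin n → Fin q) (h3 : 3 ≤ mF * q)
    (k : (Fin mF × (Fin n × Fin n)) ⊕ (Fin (mF * q) ⊕ Unit)) (f : Fin mF) :
    abp_rho col h3 k (.inl f) ≠ .inl f ↔ ∃ t, k = .inl (f, t) := by
  rcases k with ⟨f', t⟩ | g | u
  · show Equiv.swap _ _ _ ≠ _ ↔ _
    rw [Equiv.swap_apply_ne_self_iff]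
    constructor
    · rintro ⟨-, h | h⟩
      · cases h
        exact ⟨t, rfl⟩
      · cases h
    · rintro ⟨t', h⟩
      cases h
      exact ⟨by simp, Or.inl rfl⟩
  · constructor
    · intro h
      exfalso
      apply h
      show (if h : (g : ℕ) + 1 < mF * q then Equiv.swap (.inr g) (.inr ⟨g + 1, h⟩) else 1 :
        Equiv.Perm (Fin mF ⊕ Fin (mF * q))) (.inl f) = .inl f
      split_ifs
      · exact Equiv.swap_apply_of_ne_of_ne (by simp) (by simp)
      · rfl
    · rintro ⟨t', h⟩
      cases h
  · constructor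
    · intro h
      exact absurd ((abp_cyc3 col h3 u).2.2.2 (.inl f) (by simp) (by simp) (by simp)) h
    · rintro ⟨t', h⟩
      cases h

theorem abp_mvr {n mF q : ℕ} (col : Fin mF → Fin n × Fin n → Fin q) (h3 : 3 ≤ mF * q)
    (k : (Fin mF × (Fin n × Fin n)) ⊕ (Fin (mF * q) ⊕ Unit)) (g : Fin (mF * q)) :
    abp_rho col h3 k (.inr g) ≠ .inr g ↔
      (∃ f t, k = .inl (f, t) ∧ g = finProdFinEquiv (f, col f t)) ∨
      (∃ g' : Fin (mF * q), k = .inr (.inl g') ∧ (g' : ℕ) + 1 < mF * q ∧
        ((g : ℕ) = g' ∨ (g : ℕ) = g' + 1)) ∨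
      (k = .inr (.inr ()) ∧ (g : ℕ) < 3) := by
  rcases k with ⟨f', t⟩ | g' | u
  · show Equiv.swap _ _ _ ≠ _ ↔ _
    rw [Equiv.swap_apply_ne_self_iff]
    constructor
    · rintro ⟨-, h | h⟩
      · cases h
      · exact Or.inl ⟨f', t, rfl, Sum.inr_injective h⟩
    · rintro (⟨f, t', h, hg⟩ | ⟨g', h, -⟩ | ⟨h, -⟩)
      · cases h
        exact ⟨by simp, Or.inr (by rw [hg])⟩
      · cases h
      · cases h
  · have hr : abp_rho col h3 (.inr (.inl g')) = (if h : (g' : ℕ) + 1 < mF * q then
        Equiv.swap (.inr g') (.inr ⟨g' + 1, h⟩) else 1 : Equiv.Perm (Fin mF ⊕ Fin (mF * q))) := rfl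
    constructor
    · intro h
      rw [hr] at h
      split_ifs at h with h1
      · rw [Equiv.swap_apply_ne_self_iff] at h
        refine Or.inr (Or.inl ⟨g', rfl, h1, ?_⟩)
        rcases h.2 with h2 | h2
        · left
          rw [Sum.inr_injective h2]
        · right
          rw [Sum.inr_injective h2]
      · exact absurd rfl h
    · rintro (⟨f, t', h, hg⟩ | ⟨g'', h, h1, h2⟩ | ⟨h, -⟩)
      · cases h
      · cases h
        rw [hr, dif_pos h1, Equiv.swap_apply_ne_self_iff]
        refine ⟨?_, ?_⟩
        · intro h4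
          have := congrArg Fin.val (Sum.inr_injective h4)
          simp at this
        · rcases h2 with h2 | h2
          · exact Or.inl (congrArg _ (Fin.ext h2))
          · exact Or.inr (congrArg _ (Fin.ext h2))
      · cases h
  · obtain ⟨c1, c2, c3, c4⟩ := abp_cyc3 col h3 u
    constructor
    · intro h
      refine Or.inr (Or.inr ⟨rfl, ?_⟩)
      by_contra h1
      apply h
      apply c4
      · intro h2
        have := congrArg Fin.val (Sum.inr_injective h2)
        simp at this
        omega
      · intro h2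
        have := congrArg Fin.val (Sum.inr_injective h2)
        simp at this
        omega
      · intro h2
        have := congrArg Fin.val (Sum.inr_injective h2)
        simp at this
        omega
    · rintro (⟨f, t', h, hg⟩ | ⟨g'', h, h1, h2⟩ | ⟨-, h⟩)
      · cases h
      · cases h
      · have h5 : (g : ℕ) = 0 ∨ (g : ℕ) = 1 ∨ (g : ℕ) = 2 := by omega
        rcases h5 with h5 | h5 | h5
        · have : g = ⟨0, by omega⟩ := Fin.ext h5
          rw [this, c1]
          intro h6
          have := congrArg Fin.val (Sum.inr_injective h6)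
          simp at this
        · have : g = ⟨1, by omega⟩ := Fin.ext h5
          rw [this, c2]
          intro h6
          have := congrArg Fin.val (Sum.inr_injective h6)
          simp at this
        · have : g = ⟨2, by omega⟩ := Fin.ext h5
          rw [this, c3]
          intro h6
          have := congrArg Fin.val (Sum.inr_injective h6)
          simp at this

/-- the pairs of the switches -/
def abp_pr {n mF q : ℕ} (lp : ℕ → Fin n × Fin n) (pp : Fin n × Fin n) :
    (Fin mF × (Fin n × Fin n)) ⊕ (Fin (mF * q) ⊕ Unit) → Fin n × Fin n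
  | .inl p => p.2
  | .inr (.inl g) => lp g
  | .inr (.inr _) => pp

/-- the switches which are used -/
def abp_in {n mF q : ℕ} (E : Fin mF → Finset (Fin n × Fin n)) (l : ℕ → Bool) (z : Bool) :
    (Fin mF × (Fin n × Fin n)) ⊕ (Fin (mF * q) ⊕ Unit) → Prop
  | .inl p => p.2 ∈ E p.1
  | .inr (.inl g) => (g : ℕ) + 1 < mF * q ∧ l g = true
  | .inr (.inr _) => z = true

theorem tAbp (hTgl : S_Tgl) (hPfx : S_Pfx) (hMcy : S_Mcy) : S_Abp := by
  classical
  intro n e mF q lv S jj X σ T col π lp pp hO hlv hjj h3 hP μ hμ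
  choose F hF using fun f => abp_F (j := jj f) (hμ f) (hO f).wn
  have hFw : ∀ f v, Wd e lv v (F f v) := by
    intro f v
    rw [hF f v]
    split_ifs
    · exact hμ f v
    · exact (hO f).wn v
  choose E hET τ hτ hH using fun f => hMcy n e (jj f) lv S (X f) (T f) (σ f) (F f) (hO f) hlv
    (hFw f) (fun v hv => by rw [hF f v, if_neg hv])
  let P1 : Fin (mF * q) → Finset (Fin n × Fin n) := fun g =>
    (E (finProdFinEquiv.symm g).1).filter
      (fun t => col (finProdFinEquiv.symm g).1 t = (finProdFinEquiv.symm g).2)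
  obtain ⟨z, l, hzl⟩ := hPfx (mF * q)
    (fun g => if h : g < mF * q then (P1 ⟨g, h⟩).card else 0) h3
  let A : Finset ((Fin mF × (Fin n × Fin n)) ⊕ (Fin (mF * q) ⊕ Unit)) :=
    univ.filter (abp_in E l z)
  have hA : ∀ k, k ∈ A ↔ abp_in E l z k := fun k => by simp [A]
  let Φ0 : Fin mF ⊕ Fin (mF * q) → Equiv.Perm (Fin n) := Sum.elim F π
  -- tiles are not in the gap `jj f`
  have hFt : ∀ f, ∀ t ∈ E f, F f t.1 = σ f t.1 ∧ F f t.2 = σ f t.2 := by
    intro f t ht
    have h1 := (hO f).tl t (hET f ht)
    constructor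
    · rw [hF, if_neg]
      unfold tgp
      omega
    · rw [hF, if_neg]
      unfold tgp
      omega
  have hne : ∀ k ∈ A, (abp_pr lp pp k).1 ≠ (abp_pr lp pp k).2 := by
    intro k hk
    rw [hA] at hk
    rcases k with ⟨f, t⟩ | g | u
    · exact (hO f).tne t (hET f hk)
    · exact hP.nl g hk.1
    · exact hP.np
  have hex : ∀ k ∈ A, ∀ c, abp_rho col h3 k c ≠ c →
      Φ0 c (abp_pr lp pp k).2 = Φ0 (abp_rho col h3 k c) (abp_pr lp pp k).1 := by
    intro k hk c hc
    rw [hA] at hk
    rcases k with ⟨f, t⟩ | g | u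
    · have hc' : Equiv.swap (.inl f) (.inr (finProdFinEquiv (f, col f t))) c ≠ c := hc
      rw [Equiv.swap_apply_ne_self_iff] at hc'
      have h1 := hFt f t hk
      have h2 := hP.tl f t (hET f hk)
      show Φ0 c t.2 = Φ0 (Equiv.swap (.inl f) (.inr (finProdFinEquiv (f, col f t))) c) t.1
      rcases hc'.2 with h | h
      · rw [h, Equiv.swap_apply_left]
        show F f t.2 = π _ t.1
        rw [h1.2, h2.1]
      · rw [h, Equiv.swap_apply_right]
        show π _ t.2 = F f t.1
        rw [h1.1, h2.2]
    · have hr : abp_rho col h3 (.inr (.inl g)) =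
        Equiv.swap (.inr g) (.inr ⟨g + 1, hk.1⟩) := dif_pos hk.1
      rw [hr] at hc ⊢
      rw [Equiv.swap_apply_ne_self_iff] at hc
      have h2 := hP.lk g ⟨g + 1, hk.1⟩ rfl
      rcases hc.2 with h | h
      · rw [h, Equiv.swap_apply_left]
        exact h2.1.symm
      · rw [h, Equiv.swap_apply_right]
        exact h2.2
    · obtain ⟨c1, c2, c3, c4⟩ := abp_cyc3 col h3 u
      have h2 := hP.pa ⟨0, by omega⟩ ⟨1, by omega⟩ ⟨2, by omega⟩ rfl rfl rfl
      by_cases h5 : c = .inr ⟨0, by omega⟩
      · rw [h5, c1]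
        exact h2.1.symm
      by_cases h6 : c = .inr ⟨1, by omega⟩
      · rw [h6, c2]
        exact h2.2.1.symm
      by_cases h7 : c = .inr ⟨2, by omega⟩
      · rw [h7, c3]
        exact h2.2.2.symm
      exact absurd (c4 c h5 h6 h7) hc
  have hdj : ∀ k ∈ A, ∀ k' ∈ A, k ≠ k' → ∀ c, abp_rho col h3 k c ≠ c → abp_rho col h3 k' c ≠ c →
      PD (abp_pr lp pp k) (abp_pr lp pp k') := by
    intro k hk k' hk' hkk c hc hc'
    rw [hA] at hk hk'
    rcases c with f | g
    · obtain ⟨t, rfl⟩ := (abp_mvl col h3 k f).1 hc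
      obtain ⟨t', rfl⟩ := (abp_mvl col h3 k' f).1 hc'
      exact (hO f).td t (hET f hk) t' (hET f hk') (fun h => hkk (by rw [h]))
    · rcases (abp_mvr col h3 k g).1 hc with ⟨f, t, rfl, hg⟩ | ⟨g1, rfl, h1, hg⟩ | ⟨rfl, hg⟩
      · rcases (abp_mvr col h3 k' g).1 hc' with ⟨f', t', rfl, hg'⟩ | ⟨g2, rfl, h2, hg'⟩ | ⟨rfl, hg'⟩
        · have : f = f' := by
            have := hg.symm.trans hg'
            exact congrArg Prod.fst (finProdFinEquiv.injective this)
          subst this
          exact (hO f).td t (hET f hk) t' (hET f hk') (fun h => hkk (by rw [h]))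
        · have h6 := hP.dtl f t (hET f hk) g hg
          rcases hg' with hg' | hg'
          · have h7 := h6.1 (by omega)
            rw [hg'] at h7
            exact h7
          · have h7 := h6.2.1 (by omega)
            rw [hg', Nat.add_sub_cancel] at h7
            exact h7
        · exact (hP.dtl f t (hET f hk) g hg).2.2 hg'
      · rcases (abp_mvr col h3 k' g).1 hc' with ⟨f', t', rfl, hg'⟩ | ⟨g2, rfl, h2, hg'⟩ | ⟨rfl, hg'⟩
        · have h6 := hP.dtl f' t' (hET f' hk') g hg'
          rcases hg with hg | hg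
          · have h7 := h6.1 (by omega)
            rw [hg] at h7
            exact abp_PD_symm h7
          · have h7 := h6.2.1 (by omega)
            rw [hg, Nat.add_sub_cancel] at h7
            exact abp_PD_symm h7
        · have h12 : (g1 : ℕ) ≠ g2 := fun h => hkk (by rw [Fin.ext h])
          have h5 : (g2 : ℕ) = g1 + 1 ∨ (g1 : ℕ) = g2 + 1 := by omega
          rcases h5 with h5 | h5
          · have h7 := hP.dll g1 (by omega)
            rw [← h5] at h7
            exact h7
          · have h7 := hP.dll g2 (by omega)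
            rw [← h5] at h7
            exact abp_PD_symm h7
        · exact hP.dlp g1 (by omega) h1
      · rcases (abp_mvr col h3 k' g).1 hc' with ⟨f', t', rfl, hg'⟩ | ⟨g2, rfl, h2, hg'⟩ | ⟨rfl, hg'⟩
        · exact abp_PD_symm ((hP.dtl f' t' (hET f' hk') g hg').2.2 hg)
        · exact abp_PD_symm (hP.dlp g2 (by omega) h2)
        · exact absurd rfl hkk
  obtain ⟨Φ, hΦ1, hΦ2⟩ := hTgl n (Fin mF ⊕ Fin (mF * q))
    ((Fin mF × (Fin n × Fin n)) ⊕ (Fin (mF * q) ⊕ Unit)) A (fun k => (abp_pr lp pp k).1)
    (fun k => (abp_pr lp pp k).2) (abp_rho col h3) Φ0 hne hex hdj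
  refine ⟨Φ, ?_, ?_⟩
  · rintro (f | g)
    · obtain ⟨τ', h1, h2⟩ := hΦ1 (.inl f)
      have h4 : ((A.filter (fun k => abp_rho col h3 k (.inl f) ≠ .inl f)).image
          (fun k => ((abp_pr lp pp k).1, (abp_pr lp pp k).2))) = E f := by
        ext t
        simp only [mem_image, mem_filter, abp_mvl, hA]
        constructor
        · rintro ⟨k, ⟨hk, t', rfl⟩, rfl⟩
          exact hk
        · intro ht
          exact ⟨.inl (f, t), ⟨ht, t, rfl⟩, rfl⟩
      rw [h4] at h2
      rw [h1, abp_Tog_unique h2 (hτ f)]
      exact hH f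
    · obtain ⟨τ', h1, h2⟩ := hΦ1 (.inr g)
      have h4 : ((A.filter (fun k => abp_rho col h3 k (.inr g) ≠ .inr g)).image
          (fun k => ((abp_pr lp pp k).1, (abp_pr lp pp k).2))) =
          P1 g ∪ ((if (g : ℕ) + 1 < mF * q ∧ l g = true then {lp g} else ∅) ∪
            ((if 1 ≤ (g : ℕ) ∧ l (g - 1) = true then {lp (g - 1)} else ∅) ∪
            (if (g : ℕ) < 3 ∧ z = true then {pp} else ∅))) := by
        ext t
        simp only [mem_image, mem_filter, abp_mvr, hA, mem_union, P1]
        constructor
        · rintro ⟨k, ⟨hk, ⟨f, t', rfl, hg⟩ | ⟨g1, rfl, h5, hg⟩ | ⟨rfl, hg⟩⟩, rfl⟩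
          · left
            rw [hg, Equiv.symm_apply_apply]
            exact ⟨hk, rfl⟩
          · right
            rcases hg with hg | hg
            · left
              have h6 : (g : ℕ) + 1 < mF * q ∧ l g = true := by rw [hg]; exact hk
              rw [if_pos h6, hg]
              exact mem_singleton.2 rfl
            · right; left
              have h7 : (g : ℕ) - 1 = g1 := by omega
              have h6 : 1 ≤ (g : ℕ) ∧ l (g - 1) = true := by rw [h7]; exact ⟨by omega, hk.2⟩
              rw [if_pos h6, h7]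
              exact mem_singleton.2 rfl
          · right; right; right
            have h6 : (g : ℕ) < 3 ∧ z = true := ⟨hg, hk⟩
            rw [if_pos h6]
            exact mem_singleton.2 rfl
        · rintro (⟨h5, h6⟩ | h5 | h5 | h5)
          · refine ⟨.inl ((finProdFinEquiv.symm g).1, t), ⟨h5, Or.inl ⟨_, _, rfl, ?_⟩⟩, rfl⟩
            rw [h6]
            exact (Equiv.apply_symm_apply _ _).symm
          · split_ifs at h5 with h6
            · rw [mem_singleton] at h5
              subst h5
              exact ⟨.inr (.inl g), ⟨h6, Or.inr (Or.inl ⟨g, rfl, h6.1, Or.inl rfl⟩)⟩, rfl⟩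
            · simp at h5
          · split_ifs at h5 with h6
            · rw [mem_singleton] at h5
              subst h5
              have h7 : (g : ℕ) - 1 < mF * q := by omega
              refine ⟨.inr (.inl ⟨(g : ℕ) - 1, h7⟩), ⟨⟨?_, h6.2⟩, Or.inr (Or.inl ⟨_, rfl, ?_,
                Or.inr ?_⟩)⟩, rfl⟩
              · have := g.isLt
                show (g : ℕ) - 1 + 1 < mF * q
                omega
              · have := g.isLt
                show (g : ℕ) - 1 + 1 < mF * q
                omega
              · show (g : ℕ) = (g : ℕ) - 1 + 1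
                omega
            · simp at h5
          · split_ifs at h5 with h6
            · rw [mem_singleton] at h5
              subst h5
              exact ⟨.inr (.inr ()), ⟨h6.2, Or.inr (Or.inr ⟨rfl, h6.1⟩)⟩, rfl⟩
            · simp at h5
      rw [h4] at h2
      rw [h1]
      refine hP.ham g _ ?_ ?_ τ' h2
      · unfold PPs
        refine union_subset_union ?_ (union_subset_union ?_ (union_subset_union ?_ ?_))
        · exact filter_subset_filter _ (hET _)
        · split_ifs with h5 h6
          · exact subset_rfl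
          · exact absurd h5.1 h6
          · exact empty_subset _
          · exact empty_subset _
        · split_ifs with h5 h6
          · exact subset_rfl
          · exact absurd h5.1 h6
          · exact empty_subset _
          · exact empty_subset _
        · split_ifs with h5 h6
          · exact subset_rfl
          · exact absurd h5.1 h6
          · exact empty_subset _
          · exact empty_subset _
      · have hgt : ∀ t ∈ P1 g, ((g : ℕ) + 1 < mF * q → PD t (lp g)) ∧
            (1 ≤ (g : ℕ) → PD t (lp (g - 1))) ∧ ((g : ℕ) < 3 → PD t pp) := by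
          intro t ht
          rw [mem_filter] at ht
          refine hP.dtl (finProdFinEquiv.symm g).1 t (hET _ ht.1) g ?_
          rw [ht.2]
          exact (Equiv.apply_symm_apply _ _).symm
        rw [card_union_of_disjoint, card_union_of_disjoint, card_union_of_disjoint]
        · have h5 := hzl g g.isLt
          rw [dif_pos g.isLt] at h5
          have h6 : ∀ (p : Prop) [Decidable p] (t : Fin n × Fin n),
              (if p then ({t} : Finset (Fin n × Fin n)) else ∅).card = if p then 1 else 0 := by
            intro p _ t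
            split_ifs <;> simp
          rw [h6, h6, h6]
          have h7 : ∀ a b c d : ℕ, Even (a + b + c + d) → Even (a + (c + (d + b))) := by
            intro a b c d h
            have : a + (c + (d + b)) = a + b + c + d := by ring
            rwa [this]
          exact h7 _ _ _ _ h5
        · rw [disjoint_left]
          intro t ht ht'
          split_ifs at ht with h5
          · split_ifs at ht' with h6
            · rw [mem_singleton] at ht ht'
              have h7 := hP.dlp (g - 1) (by omega) (by have := g.isLt; omega)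
              exact abp_PD_ne h7 (ht.symm.trans ht')
            · simp at ht'
          · simp at ht
        · rw [disjoint_left]
          intro t ht ht'
          split_ifs at ht with h5
          · rw [mem_singleton] at ht
            rw [mem_union] at ht'
            rcases ht' with ht' | ht'
            · split_ifs at ht' with h6
              · rw [mem_singleton] at ht'
                have h7 := hP.dll (g - 1) (by omega)
                have h8 : (g : ℕ) - 1 + 1 = g := by omega
                rw [h8] at h7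
                exact abp_PD_ne h7 (ht'.symm.trans ht)
              · simp at ht'
            · split_ifs at ht' with h6
              · rw [mem_singleton] at ht'
                have h7 := hP.dlp g (by omega) h5.1
                exact abp_PD_ne h7 (ht.symm.trans ht')
              · simp at ht'
          · simp at ht
        · rw [disjoint_left]
          intro t ht ht'
          have h5 := hgt t ht
          rw [mem_union, mem_union] at ht'
          rcases ht' with ht' | ht' | ht'
          · split_ifs at ht' with h6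
            · rw [mem_singleton] at ht'
              exact abp_PD_ne (h5.1 h6.1) ht'
            · simp at ht'
          · split_ifs at ht' with h6
            · rw [mem_singleton] at ht'
              exact abp_PD_ne (h5.2.1 h6.1) ht'
            · simp at ht'
          · split_ifs at ht' with h6
            · rw [mem_singleton] at ht'
              exact abp_PD_ne (h5.2.2 h6.1) ht'
            · simp at ht'
  · intro v
    obtain ⟨ψ, hψ⟩ := hΦ2 v
    refine ⟨ψ, fun c => ?_⟩
    rw [hψ c]
    rcases ψ c with f | g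
    · exact hF f v
    · rfl

end Pool.Agent.MPd266dbE
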