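import Pool.Agent.Lib.MP_d266db_co.E.SpecE

/-!
# MP_d266db_co, E, Adj: levels of exactly the same composition
-/

set_option autoImplicit false

namespace Pool.Agent.MPd266dbE

open Finset Pool.Agent.MPd266db Pool.Agent.MPd266dbH

theorem adj_sub {n : ℕ} (hLoW : S_LoW) (T : Finset (Fin n)) (w : Fin n → ℕ) (x : ℕ)
    (hx : 4 * x ≤ T.card) (hT : 0 < T.card) :
    ∃ R ⊆ T, R.card = x ∧ 4 * ∑ v ∈ R, w v ≤ ∑ v ∈ T, w v := by
  obtain ⟨R, hR, hc, hw⟩ := hLoW n x T w (by omega)
  refine ⟨R, hR, hc, ?_⟩
  have h1 : T.card * (4 * ∑ v ∈ R, w v) ≤ T.card * ∑ v ∈ T, w v := by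
    calc T.card * (4 * ∑ v ∈ R, w v) = 4 * (T.card * ∑ v ∈ R, w v) := by ring
      _ ≤ 4 * (x * ∑ v ∈ T, w v) := Nat.mul_le_mul_left 4 hw
      _ = (4 * x) * ∑ v ∈ T, w v := by ring
      _ ≤ T.card * ∑ v ∈ T, w v := Nat.mul_le_mul_right _ hx
  exact Nat.le_of_mul_le_mul_left h1 hT

theorem adj_sd {n : ℕ} (M R : Finset (Fin n)) (hR : R ⊆ M) (P : Fin n → Prop)
    [DecidablePred P] :
    ((M \ R).filter P).card + (R.filter P).card = (M.filter P).card := by
  rw [← card_union_of_disjoint]
  · congr 1
    ext v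
    simp only [mem_union, mem_filter, mem_sdiff]
    constructor
    · rintro (h | h)
      · exact ⟨h.1.1, h.2⟩
      · exact ⟨hR h.1, h.2⟩
    · intro h
      by_cases h2 : v ∈ R
      · exact Or.inr ⟨h2, h.2⟩
      · exact Or.inl ⟨⟨h.1, h2⟩, h.2⟩
  · rw [Finset.disjoint_left]
    intro v h1 h2
    rw [mem_filter, mem_sdiff] at h1
    exact h1.1.2 (mem_filter.mp h2).1

/-- the level lemma, one class -/
theorem adj_one {n K t m N : ℕ} (hLoW : S_LoW) (o i : Fin n → Fin K) (a : Fin K) (hK : K = 1)
    (M : Finset (Fin n)) (w : Fin n → ℕ) (ht : 1 ≤ t) (hm : 16 * t ≤ m)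
    (hM : m ≤ M.card) (h1 : M.card ≤ N + t) (h2 : N ≤ M.card + t) :
    ∃ R ⊆ M, R.card ≤ 4 * t ∧ (∀ b, ((M \ R).filter (fun v => o v = b)).card = N - 3 * t) ∧
      (∀ b, ((M \ R).filter (fun v => i v = b)).card = N - 3 * t) ∧
      4 * ∑ v ∈ R, w v ≤ ∑ v ∈ M, w v := by
  subst hK
  obtain ⟨R, hR, hc, hw⟩ := adj_sub hLoW M w (M.card - (N - 3 * t)) (by omega) (by omega)
  have h3 : (M \ R).card = N - 3 * t := by
    rw [card_sdiff_of_subset hR]
    omega
  refine ⟨R, hR, by omega, ?_, ?_, hw⟩
  · intro b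
    rw [filter_true_of_mem]
    · exact h3
    · intro v _
      exact Subsingleton.elim _ _
  · intro b
    rw [filter_true_of_mem]
    · exact h3
    · intro v _
      exact Subsingleton.elim _ _

/-- the level lemma, two classes -/
theorem adj_two {n K t m N A D : ℕ} (hLoW : S_LoW) (o i : Fin n → Fin K) (a b : Fin K)
    (hab : b ≠ a) (hK : ∀ c : Fin K, c = a ∨ c = b)
    (M : Finset (Fin n)) (w : Fin n → ℕ) (ht : 1 ≤ t) (hD : 3 * D ≤ t) (hm : 16 * t ≤ m)
    (haa : m ≤ (M.filter (fun v => o v = a ∧ i v = a)).card)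
    (haB : m ≤ (M.filter (fun v => o v = a ∧ i v = b)).card)
    (hBa : m ≤ (M.filter (fun v => o v = b ∧ i v = a)).card)
    (h1 : M.card ≤ N + D) (h2 : N ≤ M.card + D)
    (h3 : (M.filter (fun v => o v = a)).card ≤ A + D)
    (h4 : A ≤ (M.filter (fun v => o v = a)).card + D)
    (h5 : (M.filter (fun v => i v = a)).card ≤ A + D)
    (h6 : A ≤ (M.filter (fun v => i v = a)).card + D) :
    ∃ R ⊆ M, R.card ≤ 4 * t ∧
      (∀ c, ((M \ R).filter (fun v => o v = c)).card =
        if c = a then A - 2 * t else (N - 3 * t) - (A - 2 * t)) ∧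
      (∀ c, ((M \ R).filter (fun v => i v = c)).card =
        if c = a then A - 2 * t else (N - 3 * t) - (A - 2 * t)) ∧
      4 * ∑ v ∈ R, w v ≤ ∑ v ∈ M, w v := by
  classical
  -- the numbers
  set Taa := M.filter (fun v => o v = a ∧ i v = a) with hTaa
  set Tab := M.filter (fun v => o v = a ∧ i v = b) with hTab
  set Tba := M.filter (fun v => o v = b ∧ i v = a) with hTba
  have hoa : (M.filter (fun v => o v = a)).card = Taa.card + Tab.card := by
    rw [hTaa, hTab, ← card_union_of_disjoint]
    · congr 1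
      ext v
      simp only [mem_filter, mem_union]
      constructor
      · intro h
        rcases hK (i v) with h' | h'
        · exact Or.inl ⟨h.1, h.2, h'⟩
        · exact Or.inr ⟨h.1, h.2, h'⟩
      · rintro (h | h)
        · exact ⟨h.1, h.2.1⟩
        · exact ⟨h.1, h.2.1⟩
    · rw [Finset.disjoint_left]
      intro v h1 h2
      have h1 := (mem_filter.mp h1).2.2
      have h2 := (mem_filter.mp h2).2.2
      exact hab (h2.symm.trans h1)
  have hia : (M.filter (fun v => i v = a)).card = Taa.card + Tba.card := by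
    rw [hTaa, hTba, ← card_union_of_disjoint]
    · congr 1
      ext v
      simp only [mem_filter, mem_union]
      constructor
      · intro h
        rcases hK (o v) with h' | h'
        · exact Or.inl ⟨h.1, h', h.2⟩
        · exact Or.inr ⟨h.1, h', h.2⟩
      · rintro (h | h)
        · exact ⟨h.1, h.2.2⟩
        · exact ⟨h.1, h.2.2⟩
    · rw [Finset.disjoint_left]
      intro v h1 h2
      have h1 := (mem_filter.mp h1).2.1
      have h2 := (mem_filter.mp h2).2.1
      exact hab (h2.symm.trans h1)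
  have hMo : (M.filter (fun v => o v = a)).card + (M.filter (fun v => o v = b)).card = M.card := by
    rw [← card_union_of_disjoint]
    · congr 1
      ext v
      simp only [mem_filter, mem_union]
      constructor
      · rintro (h | h)
        · exact h.1
        · exact h.1
      · intro h
        rcases hK (o v) with h' | h'
        · exact Or.inl ⟨h, h'⟩
        · exact Or.inr ⟨h, h'⟩
    · rw [Finset.disjoint_left]
      intro v h1 h2
      have h1 := (mem_filter.mp h1).2
      have h2 := (mem_filter.mp h2).2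
      exact hab (h2.symm.trans h1)
  have hMi : (M.filter (fun v => i v = a)).card + (M.filter (fun v => i v = b)).card = M.card := by
    rw [← card_union_of_disjoint]
    · congr 1
      ext v
      simp only [mem_filter, mem_union]
      constructor
      · rintro (h | h)
        · exact h.1
        · exact h.1
      · intro h
        rcases hK (i v) with h' | h'
        · exact Or.inl ⟨h, h'⟩
        · exact Or.inr ⟨h, h'⟩
    · rw [Finset.disjoint_left]
      intro v h1 h2
      have h1 := (mem_filter.mp h1).2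
      have h2 := (mem_filter.mp h2).2
      exact hab (h2.symm.trans h1)
  -- the numbers of removed vertices
  obtain ⟨Raa, hRaa, hcaa, hwaa⟩ := adj_sub hLoW Taa w
    ((M.filter (fun v => o v = a)).card + (M.filter (fun v => i v = a)).card + N + t -
      (2 * A + M.card)) (by omega) (by omega)
  obtain ⟨Rab, hRab, hcab, hwab⟩ := adj_sub hLoW Tab w
    (M.card + A + t - (N + (M.filter (fun v => i v = a)).card)) (by omega) (by omega)
  obtain ⟨Rba, hRba, hcba, hwba⟩ := adj_sub hLoW Tba w
    (M.card + A + t - (N + (M.filter (fun v => o v = a)).card)) (by omega) (by omega)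
  have d1 : Disjoint Taa Tab := by
    rw [Finset.disjoint_left]
    intro v h1 h2
    exact hab (((mem_filter.mp h2).2.2).symm.trans ((mem_filter.mp h1).2.2))
  have d2 : Disjoint Taa Tba := by
    rw [Finset.disjoint_left]
    intro v h1 h2
    exact hab (((mem_filter.mp h2).2.1).symm.trans ((mem_filter.mp h1).2.1))
  have d3 : Disjoint Tab Tba := by
    rw [Finset.disjoint_left]
    intro v h1 h2
    exact hab (((mem_filter.mp h2).2.1).symm.trans ((mem_filter.mp h1).2.1))
  have e1 : Disjoint Raa Rab := disjoint_of_subset_left hRaa (disjoint_of_subset_right hRab d1)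
  have e2 : Disjoint Raa Rba := disjoint_of_subset_left hRaa (disjoint_of_subset_right hRba d2)
  have e3 : Disjoint Rab Rba := disjoint_of_subset_left hRab (disjoint_of_subset_right hRba d3)
  have e4 : Disjoint (Raa ∪ Rab) Rba := by
    rw [disjoint_union_left]
    exact ⟨e2, e3⟩
  have d4 : Disjoint (Taa ∪ Tab) Tba := by
    rw [disjoint_union_left]
    exact ⟨d2, d3⟩
  have hsub : Raa ∪ Rab ∪ Rba ⊆ M := by
    intro v hv
    rw [mem_union, mem_union] at hv
    rcases hv with (hv | hv) | hv
    · exact (mem_filter.mp (hRaa hv)).1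
    · exact (mem_filter.mp (hRab hv)).1
    · exact (mem_filter.mp (hRba hv)).1
  have hcR : (Raa ∪ Rab ∪ Rba).card = Raa.card + Rab.card + Rba.card := by
    rw [card_union_of_disjoint e4, card_union_of_disjoint e1]
  -- removed vertices in the classes
  have hRo : ((Raa ∪ Rab ∪ Rba).filter (fun v => o v = a)) = Raa ∪ Rab := by
    ext v
    rw [mem_filter, mem_union, mem_union]
    constructor
    · rintro ⟨h | h, h'⟩
      · exact h
      · exact absurd (((mem_filter.mp (hRba h)).2.1).symm.trans h') hab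
    · intro h
      refine ⟨Or.inl h, ?_⟩
      rcases h with h | h
      · exact (mem_filter.mp (hRaa h)).2.1
      · exact (mem_filter.mp (hRab h)).2.1
  have hRi : ((Raa ∪ Rab ∪ Rba).filter (fun v => i v = a)) = Raa ∪ Rba := by
    ext v
    rw [mem_filter, mem_union, mem_union, mem_union]
    constructor
    · rintro ⟨(h | h) | h, h'⟩
      · exact Or.inl h
      · exact absurd (((mem_filter.mp (hRab h)).2.2).symm.trans h') hab
      · exact Or.inr h
    · intro h
      rcases h with h | h
      · exact ⟨Or.inl (Or.inl h), (mem_filter.mp (hRaa h)).2.2⟩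
      · exact ⟨Or.inr h, (mem_filter.mp (hRba h)).2.2⟩
  have hRo2 : ((Raa ∪ Rab ∪ Rba).filter (fun v => o v = b)) = Rba := by
    ext v
    rw [mem_filter, mem_union, mem_union]
    constructor
    · rintro ⟨(h | h) | h, h'⟩
      · exact absurd (h'.symm.trans (mem_filter.mp (hRaa h)).2.1) hab
      · exact absurd (h'.symm.trans (mem_filter.mp (hRab h)).2.1) hab
      · exact h
    · intro h
      exact ⟨Or.inr h, (mem_filter.mp (hRba h)).2.1⟩
  have hRi2 : ((Raa ∪ Rab ∪ Rba).filter (fun v => i v = b)) = Rab := by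
    ext v
    rw [mem_filter, mem_union, mem_union]
    constructor
    · rintro ⟨(h | h) | h, h'⟩
      · exact absurd (h'.symm.trans (mem_filter.mp (hRaa h)).2.2) hab
      · exact h
      · exact absurd (h'.symm.trans (mem_filter.mp (hRba h)).2.2) hab
    · intro h
      exact ⟨Or.inl (Or.inr h), (mem_filter.mp (hRab h)).2.2⟩
  refine ⟨Raa ∪ Rab ∪ Rba, hsub, by omega, ?_, ?_, ?_⟩
  · intro c
    rcases hK c with h | h
    · rw [h, if_pos rfl]
      have h7 := adj_sd M _ hsub (fun v => o v = a)
      rw [hRo, card_union_of_disjoint e1] at h7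
      omega
    · rw [h, if_neg hab]
      have h7 := adj_sd M _ hsub (fun v => o v = b)
      rw [hRo2] at h7
      omega
  · intro c
    rcases hK c with h | h
    · rw [h, if_pos rfl]
      have h7 := adj_sd M _ hsub (fun v => i v = a)
      rw [hRi, card_union_of_disjoint e2] at h7
      omega
    · rw [h, if_neg hab]
      have h7 := adj_sd M _ hsub (fun v => i v = b)
      rw [hRi2] at h7
      omega
  · rw [sum_union e4, sum_union e1]
    have h7 : ∑ v ∈ Taa ∪ Tab ∪ Tba, w v ≤ ∑ v ∈ M, w v := by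
      apply sum_le_sum_of_subset
      intro v hv
      rw [mem_union, mem_union] at hv
      rcases hv with (hv | hv) | hv
      · exact (mem_filter.mp hv).1
      · exact (mem_filter.mp hv).1
      · exact (mem_filter.mp hv).1
    rw [sum_union d4, sum_union d1] at h7
    omega

/-- the level lemma -/
theorem adj_lev {n K e t m D : ℕ} (hLoW : S_LoW) (o i : Fin n → Fin K) (c : Fin n → Fin (e + 1))
    (a : Fin K) (hK : K ≤ 2) (ht : 1 ≤ t) (hD : 3 * D ≤ t) (hm : 16 * t ≤ m)
    (hTyp : Typ (e + 1) o i (fun v => (c v : ℕ)) m a)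
    (hN : ∀ l, (univ.filter (fun v => c v = l)).card ≤ n / (e + 1) + D ∧
      n / (e + 1) ≤ (univ.filter (fun v => c v = l)).card + D)
    (hO : ∀ l, (univ.filter (fun v => c v = l ∧ o v = a)).card ≤ (Cl o a).card / (e + 1) + D ∧
      (Cl o a).card / (e + 1) ≤ (univ.filter (fun v => c v = l ∧ o v = a)).card + D)
    (hI : ∀ l, (univ.filter (fun v => c v = l ∧ i v = a)).card ≤ (Cl o a).card / (e + 1) + D ∧
      (Cl o a).card / (e + 1) ≤ (univ.filter (fun v => c v = l ∧ i v = a)).card + D) :
    ∃ f : Fin K → ℕ, ∀ (l : Fin (e + 1)) (w : Fin n → ℕ), ∃ R ⊆ univ.filter (fun v => c v = l),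
      R.card ≤ 4 * t ∧
      (∀ b, (((univ.filter (fun v => c v = l)) \ R).filter (fun v => o v = b)).card = f b) ∧
      (∀ b, (((univ.filter (fun v => c v = l)) \ R).filter (fun v => i v = b)).card = f b) ∧
      4 * ∑ v ∈ R, w v ≤ ∑ v ∈ univ.filter (fun v => c v = l), w v := by
  classical
  -- the types in the levels
  have hT : ∀ l : Fin (e + 1), m ≤ ((univ.filter (fun v => c v = l)).filter
      (fun v => o v = a ∧ i v = a)).card ∧ ∀ b, b ≠ a →
      m ≤ ((univ.filter (fun v => c v = l)).filter (fun v => o v = a ∧ i v = b)).card ∧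
      m ≤ ((univ.filter (fun v => c v = l)).filter (fun v => o v = b ∧ i v = a)).card := by
    intro l
    obtain ⟨g1, g2⟩ := hTyp l l.2
    have key : ∀ x y : Fin K, (univ.filter (fun v => (c v : ℕ) = (l : ℕ) ∧ o v = x ∧ i v = y)) =
        ((univ.filter (fun v => c v = l)).filter (fun v => o v = x ∧ i v = y)) := by
      intro x y
      ext v
      simp only [mem_filter, mem_univ, true_and]
      constructor
      · rintro ⟨h1, h2⟩
        exact ⟨Fin.ext h1, h2⟩
      · rintro ⟨h1, h2⟩
        exact ⟨by rw [h1], h2⟩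
    rw [key] at g1
    refine ⟨by exact_mod_cast g1, ?_⟩
    intro b hb
    obtain ⟨g3, g4⟩ := g2 b hb
    rw [key] at g3 g4
    exact ⟨by exact_mod_cast g3, by exact_mod_cast g4⟩
  by_cases hK1 : K = 1
  · refine ⟨fun _ => n / (e + 1) - 3 * t, ?_⟩
    intro l w
    have h1 := (hT l).1
    have h2 := card_le_card (filter_subset (fun v => o v = a ∧ i v = a)
      (univ.filter (fun v => c v = l)))
    have h3 := hN l
    exact adj_one hLoW o i a hK1 _ w ht hm (by omega) (by omega) (by omega)
  · -- two classes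
    have hK2 : K = 2 := by
      have := a.2
      omega
    subst hK2
    obtain ⟨b, hab, hb⟩ : ∃ b : Fin 2, b ≠ a ∧ ∀ c : Fin 2, c = a ∨ c = b := by
      fin_cases a
      · exact ⟨1, by decide, by decide⟩
      · exact ⟨0, by decide, by decide⟩
    refine ⟨fun c => if c = a then (Cl o a).card / (e + 1) - 2 * t else
      (n / (e + 1) - 3 * t) - ((Cl o a).card / (e + 1) - 2 * t), ?_⟩
    intro l w
    have h1 := (hT l).1
    have h2 := (hT l).2 b hab
    have h3 := hN l
    have h4 := hO l
    have h5 := hI l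
    have ko : (univ.filter (fun v => c v = l ∧ o v = a)) =
        ((univ.filter (fun v => c v = l)).filter (fun v => o v = a)) := by
      rw [filter_filter]
    have ki : (univ.filter (fun v => c v = l ∧ i v = a)) =
        ((univ.filter (fun v => c v = l)).filter (fun v => i v = a)) := by
      rw [filter_filter]
    rw [ko] at h4
    rw [ki] at h5
    exact adj_two hLoW o i a b hab hb _ w ht hD hm h1 h2.1 h2.2 h3.1 h3.2 h4.1 h4.2 h5.1 h5.2

theorem tAdj (hLoW : S_LoW) : S_Adj := by
  classical
  intro n K e t m D o i c L a hK he ht hD hm hTyp hN hO hI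
  obtain ⟨f, hf⟩ := adj_lev hLoW o i c a hK ht hD hm hTyp hN hO hI
  -- the arcs and the weights
  set L0 := L.filter (fun q => (c q.1 : ℕ) = e ∧ (c q.2 : ℕ) = 0) with hL0
  have hf' : ∀ l : Fin (e + 1), ∃ R ⊆ univ.filter (fun v => c v = l),
      R.card ≤ 4 * t ∧
      (∀ b, (((univ.filter (fun v => c v = l)) \ R).filter (fun v => o v = b)).card = f b) ∧
      (∀ b, (((univ.filter (fun v => c v = l)) \ R).filter (fun v => i v = b)).card = f b) ∧
      4 * ∑ v ∈ R, (if (l : ℕ) = e then (L0.filter (fun q => q.1 = v)).card else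
        (L0.filter (fun q => q.2 = v)).card) ≤ ∑ v ∈ univ.filter (fun v => c v = l),
        (if (l : ℕ) = e then (L0.filter (fun q => q.1 = v)).card else
        (L0.filter (fun q => q.2 = v)).card) := fun l => hf l _
  choose R hR hRc hRo hRi hRw using hf'
  -- the levels
  have hRl : ∀ l v, v ∈ R l → c v = l := fun l v hv => (mem_filter.mp (hR l hv)).2
  obtain ⟨lv, hlv⟩ : ∃ lv : Fin n → ℕ, ∀ v, lv v = if v ∈ R (c v) then e + 1 else (c v : ℕ) :=
    ⟨_, fun v => rfl⟩
  have hlt : ∀ v, (c v : ℕ) ≤ e := fun v => by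
    have := (c v).2
    omega
  have hle : ∀ v, lv v ≤ e + 1 := by
    intro v
    rw [hlv]
    split_ifs with h
    · exact le_refl _
    · have := hlt v
      omega
  have hset : ∀ (l : ℕ) (hl : l < e + 1) (P : Fin n → Prop) [DecidablePred P],
      (univ.filter (fun v => lv v = l ∧ P v)) =
        ((univ.filter (fun v => c v = (⟨l, hl⟩ : Fin (e + 1)))) \ R ⟨l, hl⟩).filter P := by
    intro l hl P _
    ext v
    rw [mem_filter, mem_filter, mem_sdiff, mem_filter, hlv]
    constructor
    · rintro ⟨_, h1, h2⟩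
      by_cases h3 : v ∈ R (c v)
      · rw [if_pos h3] at h1
        omega
      · rw [if_neg h3] at h1
        have h4 : c v = ⟨l, hl⟩ := Fin.ext h1
        rw [h4] at h3
        exact ⟨⟨⟨mem_univ _, h4⟩, h3⟩, h2⟩
    · rintro ⟨⟨⟨_, h4⟩, h3⟩, h2⟩
      refine ⟨mem_univ _, ?_, h2⟩
      rw [← h4] at h3
      rw [if_neg h3, h4]
  have hty : ∀ (l : ℕ) (hl : l < e + 1) (x y : Fin K),
      (m : ℝ) ≤ (univ.filter (fun v => (c v : ℕ) = l ∧ o v = x ∧ i v = y)).card →
      (m : ℝ) / 2 ≤ (univ.filter (fun v => lv v = l ∧ o v = x ∧ i v = y)).card := by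
    intro l hl x y h1
    have h2 : (univ.filter (fun v => (c v : ℕ) = l ∧ o v = x ∧ i v = y)) ⊆
        (univ.filter (fun v => lv v = l ∧ o v = x ∧ i v = y)) ∪ R ⟨l, hl⟩ := by
      intro v hv
      have hv2 := (mem_filter.mp hv).2
      rw [mem_union]
      by_cases h3 : v ∈ R (c v)
      · right
        have h4 : c v = ⟨l, hl⟩ := Fin.ext hv2.1
        rw [← h4]
        exact h3
      · left
        rw [mem_filter]
        refine ⟨mem_univ _, ?_, hv2.2⟩
        rw [hlv, if_neg h3]
        exact hv2.1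
    have h3 := (card_le_card h2).trans (card_union_le _ _)
    have h4 := hRc ⟨l, hl⟩
    have h5 : (univ.filter (fun v => (c v : ℕ) = l ∧ o v = x ∧ i v = y)).card ≤
        (univ.filter (fun v => lv v = l ∧ o v = x ∧ i v = y)).card + 4 * t := by omega
    have h6 : ((univ.filter (fun v => (c v : ℕ) = l ∧ o v = x ∧ i v = y)).card : ℝ) ≤
        (univ.filter (fun v => lv v = l ∧ o v = x ∧ i v = y)).card + 4 * t := by
      exact_mod_cast h5
    have h7 : (16 : ℝ) * t ≤ m := by exact_mod_cast hm
    have h8 : (0 : ℝ) ≤ t := Nat.cast_nonneg _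
    linarith
  have hTyp' : Typ (e + 1) o i lv ((m : ℝ) / 2) a := by
    intro l hl
    obtain ⟨g1, g2⟩ := hTyp l hl
    refine ⟨hty l hl a a g1, ?_⟩
    intro b hb
    exact ⟨hty l hl a b (g2 b hb).1, hty l hl b a (g2 b hb).2⟩
  refine ⟨lv, ⟨hle, ?_, ?_⟩, ?_, ?_, hTyp', ?_⟩
  · -- bal
    intro l hl l' hl' b
    rw [hset l (by omega) (fun v => o v = b), hset l' (by omega) (fun v => i v = b), hRo, hRi]
  · -- typ
    refine ⟨a, ?_⟩
    intro l hl b
    have hm0 : (0 : ℝ) < (m : ℝ) / 2 := by
      have : 0 < m := by omega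
      have : (0 : ℝ) < m := by exact_mod_cast this
      linarith
    have h1 : (0 : ℝ) < (univ.filter (fun v => lv v = l ∧ o v = a ∧ i v = b)).card := by
      obtain ⟨g1, g2⟩ := hTyp' l (by omega)
      by_cases hb : b = a
      · rw [hb]
        linarith
      · linarith [(g2 b hb).1]
    have h2 : 0 < (univ.filter (fun v => lv v = l ∧ o v = a ∧ i v = b)).card := by
      exact_mod_cast h1
    obtain ⟨v, hv⟩ := card_pos.mp h2
    exact ⟨v, (mem_filter.mp hv).2⟩
  · intro v
    rw [hlv]
    split_ifs with h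
    · exact Or.inr rfl
    · exact Or.inl rfl
  · have h1 : (univ.filter (fun v => lv v = e + 1)) ⊆ univ.biUnion R := by
      intro v hv
      rw [mem_biUnion]
      have h2 := (mem_filter.mp hv).2
      rw [hlv] at h2
      by_cases h3 : v ∈ R (c v)
      · exact ⟨c v, mem_univ _, h3⟩
      · rw [if_neg h3] at h2
        have := hlt v
        omega
    calc (univ.filter (fun v => lv v = e + 1)).card ≤ (univ.biUnion R).card := card_le_card h1
      _ ≤ ∑ l, (R l).card := card_biUnion_le
      _ ≤ ∑ _l : Fin (e + 1), 4 * t := sum_le_sum (fun l _ => hRc l)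
      _ = 4 * t * (e + 1) := by
        rw [sum_const, card_univ, Fintype.card_fin, smul_eq_mul]
        ring
  · -- the arcs
    have hfib1 : ∀ X : Finset (Fin n), ∑ v ∈ X, (L0.filter (fun q => q.1 = v)).card =
        (L0.filter (fun q => q.1 ∈ X)).card := by
      intro X
      have h1 := Finset.card_eq_sum_card_fiberwise (s := L0.filter (fun q => q.1 ∈ X)) (t := X)
        (f := fun q => q.1) (fun q hq => (mem_filter.mp hq).2)
      rw [h1]
      apply sum_congr rfl
      intro v hv
      congr 1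
      ext q
      simp only [mem_filter]
      constructor
      · rintro ⟨h2, h3⟩
        exact ⟨⟨h2, h3 ▸ hv⟩, h3⟩
      · rintro ⟨⟨h2, _⟩, h3⟩
        exact ⟨h2, h3⟩
    have hfib2 : ∀ X : Finset (Fin n), ∑ v ∈ X, (L0.filter (fun q => q.2 = v)).card =
        (L0.filter (fun q => q.2 ∈ X)).card := by
      intro X
      have h1 := Finset.card_eq_sum_card_fiberwise (s := L0.filter (fun q => q.2 ∈ X)) (t := X)
        (f := fun q => q.2) (fun q hq => (mem_filter.mp hq).2)
      rw [h1]
      apply sum_congr rfl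
      intro v hv
      congr 1
      ext q
      simp only [mem_filter]
      constructor
      · rintro ⟨h2, h3⟩
        exact ⟨⟨h2, h3 ▸ hv⟩, h3⟩
      · rintro ⟨⟨h2, _⟩, h3⟩
        exact ⟨h2, h3⟩
    have w1 := hRw ⟨e, by omega⟩
    have w2 := hRw ⟨0, by omega⟩
    simp only [if_true] at w1
    rw [hfib1, hfib1] at w1
    have he0 : ¬ ((0 : ℕ) = e) := by omega
    simp only [he0, if_false] at w2
    rw [hfib2, hfib2] at w2
    have w3 : (L0.filter (fun q => q.1 ∈ univ.filter (fun v => c v = (⟨e, by omega⟩ :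
        Fin (e + 1))))).card ≤ L0.card := card_le_card (filter_subset _ _)
    have w4 : (L0.filter (fun q => q.2 ∈ univ.filter (fun v => c v = (⟨0, by omega⟩ :
        Fin (e + 1))))).card ≤ L0.card := card_le_card (filter_subset _ _)
    have w5 : L0 ⊆ (L.filter (fun q => lv q.1 = e ∧ lv q.2 = 0)) ∪
        (L0.filter (fun q => q.1 ∈ R ⟨e, by omega⟩) ∪ L0.filter (fun q => q.2 ∈ R ⟨0, by omega⟩)) := by
      intro q hq
      have hq2 := mem_filter.mp hq
      rw [mem_union, mem_union]
      by_cases h1 : q.1 ∈ R ⟨e, by omega⟩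
      · exact Or.inr (Or.inl (mem_filter.mpr ⟨hq, h1⟩))
      by_cases h2 : q.2 ∈ R ⟨0, by omega⟩
      · exact Or.inr (Or.inr (mem_filter.mpr ⟨hq, h2⟩))
      refine Or.inl (mem_filter.mpr ⟨hq2.1, ?_, ?_⟩)
      · have h3 : c q.1 = ⟨e, by omega⟩ := Fin.ext hq2.2.1
        rw [hlv, h3, if_neg h1]
      · have h3 : c q.2 = ⟨0, by omega⟩ := Fin.ext hq2.2.2
        rw [hlv, h3, if_neg h2]
    have w6 := (card_le_card w5).trans ((card_union_le _ _).trans
      (Nat.add_le_add_left (card_union_le _ _) _))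
    omega

end Pool.Agent.MPd266dbE
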