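import Pool.Agent.Lib.MP_d266db_co.E.SpecG

/-!
# MP_d266db_co, E, Aex: the absorber exists
-/

set_option autoImplicit false

namespace Pool.Agent.MPd266dbE

open Finset Pool.Agent.MPd266db Pool.Agent.MPd266dbH

theorem aex_big (a C : ℝ) (ha : 0 < a) : ∃ n0 : ℕ, ∀ n : ℕ, n0 ≤ n → C ≤ a * n := by
  obtain ⟨n0, h⟩ := exists_nat_ge (C / a)
  refine ⟨n0, fun n hn => ?_⟩
  have h1 : C / a ≤ n := h.trans (by exact_mod_cast hn)
  rw [div_le_iff₀ ha] at h1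
  linarith [mul_comm a (n : ℝ)]

/-- the constant of the boxes -/
theorem aex_kB (a b : ℝ) (ha : 0 < a) (hb : 0 < b) : ∃ x : ℝ, 0 < x ∧ x ≤ a ∧ x ≤ b :=
  ⟨min a b, lt_min ha hb, min_le_left _ _, min_le_right _ _⟩

/-- a positive number with `c x ≤ a` -/
theorem aex_mul (a c : ℝ) (ha : 0 < a) (hc : 0 ≤ c) :
    ∃ y : ℝ, 0 < y ∧ ∀ x : ℝ, 0 < x → x ≤ y → c * x ≤ a := by
  refine ⟨a / (c + 1), by positivity, fun x hx hxy => ?_⟩
  rw [le_div_iff₀ (by positivity)] at hxy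
  nlinarith

/-- the vertices of the levels `0`, `e`, `e + 1` -/
theorem aex_cnt {n K : ℕ} {R XL : Finset (Fin n × Fin n)} {o i : Fin n → Fin K} {r e : ℕ}
    {lv : Fin n → ℕ} {θ lam g βt νt κB : ℝ}
    (h : LvD R o i r e XL lv θ lam (κB / 8) g βt νt) (hk : 32 ≤ κB * ((e : ℝ) + 1)) :
    ((univ.filter (fun v => lv v = 0 ∨ e ≤ lv v)).card : ℝ) ≤ κB / 4 * n := by
  have hsub : univ.filter (fun v => lv v = 0 ∨ e ≤ lv v) ⊆
      univ.filter (fun v => lv v = 0) ∪ (univ.filter (fun v => lv v = e) ∪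
        univ.filter (fun v => lv v = e + 1)) := by
    intro v hv
    rw [mem_filter] at hv
    rw [mem_union, mem_union, mem_filter, mem_filter, mem_filter]
    have h1 := h.lev.le v
    rcases hv.2 with h2 | h2
    · exact Or.inl ⟨mem_univ _, h2⟩
    · rcases Nat.lt_or_ge (lv v) (e + 1) with h3 | h3
      · exact Or.inr (Or.inl ⟨mem_univ _, by omega⟩)
      · exact Or.inr (Or.inr ⟨mem_univ _, by omega⟩)
  have hc : (univ.filter (fun v => lv v = 0 ∨ e ≤ lv v)).card ≤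
      (univ.filter (fun v => lv v = 0)).card + ((univ.filter (fun v => lv v = e)).card +
        (univ.filter (fun v => lv v = e + 1)).card) :=
    (card_le_card hsub).trans ((card_union_le _ _).trans
      (Nat.add_le_add_left (card_union_le _ _) _))
  have hc' : ((univ.filter (fun v => lv v = 0 ∨ e ≤ lv v)).card : ℝ) ≤
      ((univ.filter (fun v => lv v = 0)).card : ℝ) +
        (((univ.filter (fun v => lv v = e)).card : ℝ) +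
        ((univ.filter (fun v => lv v = e + 1)).card : ℝ)) := by exact_mod_cast hc
  have h0 := (h.sz 0 (Nat.zero_le _)).2
  have h1 := (h.sz e le_rfl).2
  have h2 := h.exc
  have hn : (0 : ℝ) ≤ n := Nat.cast_nonneg _
  have hk0 : (0 : ℝ) < (e : ℝ) + 1 := by positivity
  have key : ∀ a : ℝ, ((e : ℝ) + 1) * a ≤ 2 * n → a ≤ κB / 16 * n := by
    intro a ha
    refine le_of_mul_le_mul_left (?_ : ((e : ℝ) + 1) * a ≤ ((e : ℝ) + 1) * (κB / 16 * n)) hk0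
    nlinarith
  have h3 := key _ h0
  have h4 := key _ h1
  linarith

/-- the arcs which are left for the objects and the partners -/
theorem aex_Xe {n p Δ w s e q : ℕ} {xl xe : ℕ} {ω ζ ξ : ℝ}
    (hω : 16 * ((e : ℝ) + 1) ^ 2 * (1 + ((e : ℝ) + 1) + ((e : ℝ) + 1) * q) * ω ≤ ξ)
    (hζ : 64 * ((e : ℝ) + 1) ^ 2 * ζ ≤ ξ) (hξn : 64 * ((e : ℝ) + 1) ^ 2 ≤ ξ * n)
    (hw : (w : ℝ) ≤ ω * n) (hΔ : (Δ : ℝ) ≤ ζ * n) (hs : s ≤ w)
    (hxe : xl ≤ 4 * (e + 1) ^ 2 * xe) (hxl : ξ * n * p ≤ xl) :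
    w * p + ((e + 1) * s + (e + 1) * s * q) * p + 4 * (max Δ 1) * p ≤ xe := by
  rcases Nat.eq_zero_or_pos p with rfl | hp
  · simp
  have hk0 : (0 : ℝ) < (e : ℝ) + 1 := by positivity
  have hn : (0 : ℝ) ≤ n := Nat.cast_nonneg _
  have hs' : (s : ℝ) ≤ w := by exact_mod_cast hs
  have hq0 : (0 : ℝ) ≤ q := Nat.cast_nonneg _
  have hw0 : (0 : ℝ) ≤ w := Nat.cast_nonneg _
  have hM : ((max Δ 1 : ℕ) : ℝ) ≤ Δ + 1 := by
    have : max Δ 1 ≤ Δ + 1 := by omega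
    exact_mod_cast this
  -- the bound for the degrees
  have h1 : 16 * ((e : ℝ) + 1) ^ 2 * ((1 + ((e : ℝ) + 1) + ((e : ℝ) + 1) * q) * w) ≤ ξ * n := by
    have h2 : (1 + ((e : ℝ) + 1) + ((e : ℝ) + 1) * q) * w ≤
        (1 + ((e : ℝ) + 1) + ((e : ℝ) + 1) * q) * (ω * n) :=
      mul_le_mul_of_nonneg_left hw (by positivity)
    have h3 := mul_le_mul_of_nonneg_left h2 (show (0 : ℝ) ≤ 16 * ((e : ℝ) + 1) ^ 2 by positivity)
    have h4 := mul_le_mul_of_nonneg_right hω hn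
    linarith
  have h2 : 16 * ((e : ℝ) + 1) ^ 2 * (4 * Δ) ≤ ξ * n := by
    have h3 := mul_le_mul_of_nonneg_left hΔ (show (0 : ℝ) ≤ 64 * ((e : ℝ) + 1) ^ 2 by positivity)
    have h4 := mul_le_mul_of_nonneg_right hζ hn
    linarith
  have h3 : (w : ℝ) + (((e : ℝ) + 1) * s + ((e : ℝ) + 1) * s * q) ≤
      (1 + ((e : ℝ) + 1) + ((e : ℝ) + 1) * q) * w := by
    have h4 : ((e : ℝ) + 1) * s ≤ ((e : ℝ) + 1) * w := mul_le_mul_of_nonneg_left hs' hk0.le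
    have h5 := mul_le_mul_of_nonneg_right h4 hq0
    linarith
  have h4 : 4 * ((e : ℝ) + 1) ^ 2 * ((w : ℝ) + (((e : ℝ) + 1) * s + ((e : ℝ) + 1) * s * q) +
      4 * ((max Δ 1 : ℕ) : ℝ)) ≤ ξ * n := by
    have h5 := mul_le_mul_of_nonneg_left h3 (show (0 : ℝ) ≤ 16 * ((e : ℝ) + 1) ^ 2 by positivity)
    have h6 := mul_le_mul_of_nonneg_left hM (show (0 : ℝ) ≤ 64 * ((e : ℝ) + 1) ^ 2 by positivity)
    have h7 : (0 : ℝ) ≤ ((e : ℝ) + 1) ^ 2 := by positivity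
    linarith
  have h5 : 4 * ((e : ℝ) + 1) ^ 2 * (((w : ℝ) + (((e : ℝ) + 1) * s + ((e : ℝ) + 1) * s * q) +
      4 * ((max Δ 1 : ℕ) : ℝ)) * p) ≤ 4 * ((e : ℝ) + 1) ^ 2 * xe := by
    have h6 := mul_le_mul_of_nonneg_right h4 (show (0 : ℝ) ≤ (p : ℝ) from Nat.cast_nonneg _)
    have h7 : (xl : ℝ) ≤ 4 * ((e : ℝ) + 1) ^ 2 * xe := by exact_mod_cast hxe
    linarith
  have h6 := le_of_mul_le_mul_left h5 (show (0 : ℝ) < 4 * ((e : ℝ) + 1) ^ 2 by positivity)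
  have h7 : ((w * p + ((e + 1) * s + (e + 1) * s * q) * p + 4 * (max Δ 1) * p : ℕ) : ℝ) ≤
      (xe : ℝ) := by
    push_cast
    push_cast at h6
    linarith
  exact_mod_cast h7

/-- The absorber exists. -/
theorem tAex (hFbP : S_FbP) (hHmQ : S_HmQ) (hCnQ : S_CnQ) (hK2Q : S_K2Q) (hPXc : S_PXc)
    (hPXb : S_PXb) (hAbX : S_AbX) : S_Aex := by
  intro η θ lam ν βt νt ξ hη hθ hθ1 hlam hν hβt hβθ hνt hξ
  obtain ⟨mt, c, N0, hmt, hc, HFb⟩ := hFbP 2 (θ / 4) νt (by norm_num) (by linarith)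
    (by linarith) hνt
  obtain ⟨gP, κP, γP, nP, hgP, hκP, hγP, HHm⟩ := hHmQ 2 θ lam ν (by norm_num) hθ hθ1 hlam hν
  obtain ⟨ζC, ℓ, hζC, hℓ, HCn⟩ := hCnQ η θ hη hθ hθ1
  obtain ⟨ζK, nK, hζK, HK2⟩ := hK2Q θ hθ
  obtain ⟨κB, hκB, hBC, hBK⟩ := aex_kB ζC ζK hζC hζK
  obtain ⟨e, he, hek⟩ : ∃ e : ℕ, 2 * mt + 3 ≤ e ∧ 32 ≤ κB * ((e : ℝ) + 1) := by
    refine ⟨2 * mt + 3 + ⌈32 / κB⌉₊, Nat.le_add_right _ _, ?_⟩
    have h1 : 32 / κB ≤ (⌈32 / κB⌉₊ : ℝ) := Nat.le_ceil _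
    rw [div_le_iff₀ hκB] at h1
    push_cast
    have h2 : (0 : ℝ) ≤ mt := Nat.cast_nonneg _
    nlinarith
  have hk0 : (0 : ℝ) < (e : ℝ) + 1 := by positivity
  have hℓ0 : (0 : ℝ) ≤ ℓ := Nat.cast_nonneg _
  -- the constant of the tiles
  obtain ⟨κM, hκM, hM1, hM2, hM3⟩ : ∃ κM : ℝ, 0 < κM ∧ 16 * ((ℓ : ℝ) + 2) * κM ≤ κB ∧
      96 * κM ≤ κB ∧ 16 * ((ℓ : ℝ) + 1) * κM ≤ gP := by
    obtain ⟨y1, hy1, hY1⟩ := aex_mul κB (16 * ((ℓ : ℝ) + 2)) hκB (by positivity)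
    obtain ⟨y2, hy2, hY2⟩ := aex_mul κB 96 hκB (by positivity)
    obtain ⟨y3, hy3, hY3⟩ := aex_mul gP (16 * ((ℓ : ℝ) + 1)) hgP (by positivity)
    obtain ⟨y, hy, h1, h2⟩ := aex_kB y1 y2 hy1 hy2
    obtain ⟨x, hx, h3, h4⟩ := aex_kB y y3 hy hy3
    exact ⟨x, hx, hY1 x hx (h3.trans h1), hY2 x hx (h3.trans h2), hY3 x hx h4⟩
  obtain ⟨q, hq6, hqM⟩ : ∃ q : ℕ, 6 ≤ q ∧ 1 / κM + 6 ≤ q := by
    refine ⟨⌈1 / κM⌉₊ + 6, Nat.le_add_left _ _, ?_⟩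
    have h1 : 1 / κM ≤ (⌈1 / κM⌉₊ : ℝ) := Nat.le_ceil _
    push_cast
    linarith
  have hq0 : (0 : ℝ) ≤ q := Nat.cast_nonneg _
  -- the constant of the degrees
  obtain ⟨κz, hκz, hz1, hz2, hz3, hz4, hz5⟩ : ∃ κz : ℝ, 0 < κz ∧ κz ≤ κP ∧ κz ≤ ζC ∧ κz ≤ ζK ∧
      32 * ((e : ℝ) + 1) * κz ≤ νt ∧ 4 * ((e : ℝ) + 1) * κz ≤ θ := by
    obtain ⟨y1, hy1, hY1⟩ := aex_mul νt (32 * ((e : ℝ) + 1)) hνt (by positivity)
    obtain ⟨y2, hy2, hY2⟩ := aex_mul θ (4 * ((e : ℝ) + 1)) hθ (by positivity)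
    obtain ⟨y, hy, h1, h2⟩ := aex_kB y1 y2 hy1 hy2
    obtain ⟨x, hx, h3, h4⟩ := aex_kB y κP hy hκP
    obtain ⟨u, hu, h5, h6⟩ := aex_kB x ζC hx hζC
    obtain ⟨v, hv, h7, h8⟩ := aex_kB u ζK hu hζK
    exact ⟨v, hv, (h7.trans h5).trans h4, h7.trans h6, h8,
      hY1 v hv (((h7.trans h5).trans h3).trans h1), hY2 v hv (((h7.trans h5).trans h3).trans h2)⟩
  obtain ⟨ω, hω, hω1, hω2⟩ : ∃ ω : ℝ, 0 < ω ∧
      2 * (1 + 2 * ((e : ℝ) + 1) + 3 * (((e : ℝ) + 1) * q)) * ω ≤ κz ∧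
      16 * ((e : ℝ) + 1) ^ 2 * (1 + ((e : ℝ) + 1) + ((e : ℝ) + 1) * q) * ω ≤ ξ := by
    obtain ⟨y1, hy1, hY1⟩ := aex_mul κz (2 * (1 + 2 * ((e : ℝ) + 1) + 3 * (((e : ℝ) + 1) * q))) hκz
      (by positivity)
    obtain ⟨y2, hy2, hY2⟩ := aex_mul ξ
      (16 * ((e : ℝ) + 1) ^ 2 * (1 + ((e : ℝ) + 1) + ((e : ℝ) + 1) * q)) hξ (by positivity)
    obtain ⟨y, hy, h1, h2⟩ := aex_kB y1 y2 hy1 hy2
    exact ⟨y, hy, hY1 y hy h1, hY2 y hy h2⟩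
  obtain ⟨γ, hγ, hγ1, hγ2, hγ3, hγ4⟩ : ∃ γ : ℝ, 0 < γ ∧ γ ≤ γP ∧ γ ≤ ζC ∧
      ((e : ℝ) + 1) * γ ≤ c ∧ 2 * γ ≤ gP := by
    obtain ⟨y1, hy1, hY1⟩ := aex_mul c ((e : ℝ) + 1) hc (by positivity)
    obtain ⟨y2, hy2, hY2⟩ := aex_mul gP 2 hgP (by positivity)
    obtain ⟨y, hy, h1, h2⟩ := aex_kB y1 y2 hy1 hy2
    obtain ⟨x, hx, h3, h4⟩ := aex_kB y γP hy hγP
    obtain ⟨u, hu, h5, h6⟩ := aex_kB x ζC hx hζC
    exact ⟨u, hu, h5.trans h4, h6, hY1 u hu ((h5.trans h3).trans h1),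
      hY2 u hu ((h5.trans h3).trans h2)⟩
  obtain ⟨ζ, hζ, hζ1⟩ : ∃ ζ : ℝ, 0 < ζ ∧ 64 * ((e : ℝ) + 1) ^ 2 * ζ ≤ ξ := by
    obtain ⟨y1, hy1, hY1⟩ := aex_mul ξ (64 * ((e : ℝ) + 1) ^ 2) hξ (by positivity)
    exact ⟨y1, hy1, hY1 y1 hy1 le_rfl⟩
  -- large numbers
  obtain ⟨n1, hn1⟩ := aex_big (2 / ((e : ℝ) + 1)) N0 (by positivity)
  obtain ⟨n2, hn2⟩ := aex_big ζC 2 hζC
  obtain ⟨n3, hn3⟩ := aex_big κz 8 hκz
  obtain ⟨n4, hn4⟩ := aex_big ξ (64 * ((e : ℝ) + 1) ^ 2) hξ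
  obtain ⟨n5, hn5⟩ := aex_big κM 2 hκM
  obtain ⟨n6, hn6⟩ := aex_big κB (16 * ((ℓ : ℝ) + 2)) hκB
  obtain ⟨n7, hn7⟩ := aex_big gP (16 * ((ℓ : ℝ) + 1)) hgP
  refine ⟨e, q, ω, νt / 64, κB / 8, γ, ζ,
    (nP + nK + 1) + (n1 + n2 + n3) + (n4 + n5) + (n6 + n7), by omega, by omega, hω,
    by positivity, by positivity, hγ, hζ, ?_⟩
  intro n hn K r p Δ w s R XL o i c0 d0 lv lam' Wo XW HbA hK hOri hReg hcrs hRob hod hid hLin
    hexp hCD hp hLv hXLR hXL hDgX hΔ hξp hw hs1 hsw hDgW hXW hXWc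
  have hN1 := hn1 n (by omega)
  have hN2 := hn2 n (by omega)
  have hN3 := hn3 n (by omega)
  have hN4 := hn4 n (by omega)
  have hN5 := hn5 n (by omega)
  have hN6 := hn6 n (by omega)
  have hN7 := hn7 n (by omega)
  have hnP : nP ≤ n := by omega
  have hnK : nK ≤ n := by omega
  clear hn1 hn2 hn3 hn4 hn5 hn6 hn7 hn
  have hn0 : (0 : ℝ) ≤ n := Nat.cast_nonneg _
  -- z
  obtain ⟨z, hzu, hzl⟩ : ∃ z : ℕ, (z : ℝ) ≤ κz * n ∧ κz * n < z + 1 :=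
    ⟨⌊κz * n⌋₊, Nat.floor_le (by positivity), Nat.lt_floor_add_one _⟩
  obtain ⟨b, hbu, hbl⟩ : ∃ b : ℕ, (b : ℝ) ≤ κB * n ∧ κB * n < b + 1 :=
    ⟨⌊κB * n⌋₊, Nat.floor_le (by positivity), Nat.lt_floor_add_one _⟩
  obtain ⟨Mx, hMu, hMl⟩ : ∃ Mx : ℕ, (Mx : ℝ) ≤ κM * n ∧ κM * n < Mx + 1 :=
    ⟨⌊κM * n⌋₊, Nat.floor_le (by positivity), Nat.lt_floor_add_one _⟩
  have hMx1 : 1 ≤ Mx := by
    by_contra h0
    have : Mx = 0 := by omega
    subst this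
    push_cast at hMl
    linarith
  have hXeR : ∀ a ∈ XeL e lv XL, a ∈ XL ∧ lv a.1 = e ∧ lv a.2 = 0 := by
    intro a ha
    unfold XeL at ha
    rw [mem_filter] at ha
    exact ha
  have hloop : ∀ a ∈ R, a.1 ≠ a.2 := by
    rintro ⟨u, v⟩ ha huv
    change u = v at huv
    subst huv
    exact hOri u u ha ha
  have hownR : own o i R ⊆ R := filter_subset _ _
  have hPX : PX o i p (fun a => if c0 = a then 1 else 0) (fun a => if d0 = a then 1 else 0)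
      (XeL e lv XL) :=
    hPXc n K p o i c0 d0 (XeL e lv XL) hCD (fun a ha => hXL a (hXeR a ha).1)
  -- objects
  have hObj : ObjP e lv (wnd e lv (own o i R)) (XeL e lv XL) p z := by
    refine HFb n K e p z (wnd e lv (own o i R)) (XeL e lv XL) o i _ _ lv (2 * n / (e + 1))
      (r / (e + 1)) (νt / 64) βt hK he hLv.lev ?_ hLv.bx ?_ hβθ ?_ ?_ ?_ hPX
      (fun a ha => (hXeR a ha).2) ?_
    · intro a ha
      unfold wnd at ha
      rw [mem_filter] at ha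
      exact ha.2.2
    · linarith
    · have : 2 / ((e : ℝ) + 1) * n = 2 * n / (e + 1) := by ring
      linarith
    · rw [mul_div_assoc', le_div_iff₀ hk0]
      have h1 := mul_le_mul_of_nonneg_left hzu (show (0 : ℝ) ≤ 64 * ((e : ℝ) + 1) by positivity)
      have h2 := mul_le_mul_of_nonneg_right hz4 hn0
      linarith
    · rw [mul_div_assoc', le_div_iff₀ hk0]
      have h1 := mul_le_mul_of_nonneg_left hzu (show (0 : ℝ) ≤ 2 * ((e : ℝ) + 1) by positivity)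
      have h2 := mul_le_mul_of_nonneg_right hz5 hn0
      linarith
    · rw [mul_div_assoc', le_div_iff₀ hk0]
      have h1 := mul_le_mul_of_nonneg_left hp hk0.le
      have h2 := mul_le_mul_of_nonneg_right hγ3 hn0
      have h3 : 0 ≤ c * n := by positivity
      linarith
  have hHm : HmP (own o i R) o i gP z :=
    HHm n hnP K r z R o i hK hReg
      (hcrs.trans (mul_le_mul_of_nonneg_right hγ1 (by positivity))) hRob hod hid hLin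
      (hzu.trans (mul_le_mul_of_nonneg_right hz1 hn0))
  have hCn : CnP (own o i R) b ℓ z :=
    HCn n K z b R o i (hcrs.trans (mul_le_mul_of_nonneg_right hγ2 (by positivity)))
      (hzu.trans (mul_le_mul_of_nonneg_right hz2 hn0))
      (hbu.trans (mul_le_mul_of_nonneg_right hBC hn0)) hN2 hod hid hexp
  have hK2 : K2P (own o i R) b z :=
    HK2 n hnK z b (own o i R) (fun a ha => hloop a (hownR ha)) hod
      (hzu.trans (mul_le_mul_of_nonneg_right hz3 hn0))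
      (hbu.trans (mul_le_mul_of_nonneg_right hBK hn0))
  have hcnt := aex_cnt hLv hek
  refine hAbX n K e ((e + 1) * s) q p (max Δ 1) ℓ b w z Mx lv (own o i R) (XeL e lv XL) XW
    (Wo ∪ HbA) o i (jjf e s) gP hObj hHm hCn hK2 ?_ (fun a ha => hloop a (hownR ha)) hDgW ?_
    hLv.lev.le ?_ ?_ (fun a ha => hloop a (hXLR (hXeR a ha).1))
    (hDgX.mono (filter_subset _ _) (le_max_left _ _)) (le_max_right _ _)
    (fun a ha => (hXeR a ha).2)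
    (fun X hX hVD hXp => (hPXb n K p o i _ _ (XeL e lv XL) X hPX hX hVD hXp).1) hXW ?_ ?_ hMx1
    ?_ ?_ ?_ ?_
  · intro a ha
    unfold own at ha
    rw [mem_filter] at ha
    exact ha.2
  · -- w + 2 mF + 3 mF q + 3 ≤ z
    have hs' : (s : ℝ) ≤ w := by exact_mod_cast hsw
    have h1 : ((e : ℝ) + 1) * s ≤ ((e : ℝ) + 1) * w := mul_le_mul_of_nonneg_left hs' hk0.le
    have h2 := mul_le_mul_of_nonneg_right h1 hq0
    have h3 := mul_le_mul_of_nonneg_left hw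
      (show (0 : ℝ) ≤ 1 + 2 * ((e : ℝ) + 1) + 3 * (((e : ℝ) + 1) * q) by positivity)
    have h4 := mul_le_mul_of_nonneg_right hω1 hn0
    have h5 : ((w + 2 * ((e + 1) * s) + 3 * ((e + 1) * s * q) + 3 : ℕ) : ℝ) < (z : ℝ) + 1 := by
      push_cast
      linarith
    have h6 : w + 2 * ((e + 1) * s) + 3 * ((e + 1) * s * q) + 3 < z + 1 := by exact_mod_cast h5
    omega
  · intro f
    unfold jjf
    have := (finProdFinEquiv.symm f).1.isLt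
    omega
  · rw [disjoint_left]
    intro a ha ha'
    unfold own at ha
    rw [mem_filter] at ha
    have h1 := hXL a (hXeR a ha').1
    apply h1.2.2
    rw [← h1.1, ← h1.2.1]
    exact ha.2
  · rw [hXWc]
    exact aex_Xe hω2 hζ1 hN4 hw hΔ hsw hLv.xe hξp
  · -- 3 ≤ mF q
    have h1 : 1 ≤ (e + 1) * s := Nat.succ_le_of_lt (Nat.mul_pos (Nat.succ_pos e) hs1)
    calc 3 ≤ 1 * q := by omega
      _ ≤ (e + 1) * s * q := Nat.mul_le_mul_right q h1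
  · -- 4 + n / (2 Mx) < q
    have hMx0 : (0 : ℝ) < Mx := by exact_mod_cast hMx1
    have h1 : ((n / (2 * Mx) : ℕ) : ℝ) ≤ n / ((2 * Mx : ℕ) : ℝ) := Nat.cast_div_le
    have h2 : (n : ℝ) / ((2 * Mx : ℕ) : ℝ) ≤ 1 / κM := by
      push_cast
      rw [div_le_div_iff₀ (by positivity) hκM]
      linarith
    have h3 : ((4 + n / (2 * Mx) : ℕ) : ℝ) < (q : ℝ) := by
      push_cast
      push_cast at h1 h2
      linarith
    exact_mod_cast h3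
  · -- + 2 (Mx + 3)(ℓ + 2) ≤ b
    have h1 := mul_le_mul_of_nonneg_right hMu (show (0 : ℝ) ≤ (ℓ : ℝ) + 2 by positivity)
    have h2 := mul_le_mul_of_nonneg_right hM1 hn0
    have h5 : (((univ.filter (fun v => lv v = 0 ∨ e ≤ lv v)).card +
        2 * (Mx + 3) * (ℓ + 2) : ℕ) : ℝ) < (b : ℝ) + 1 := by
      push_cast
      linarith
    have h6 : (univ.filter (fun v => lv v = 0 ∨ e ≤ lv v)).card + 2 * (Mx + 3) * (ℓ + 2) <
      b + 1 := by exact_mod_cast h5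
    omega
  · have h2 := mul_le_mul_of_nonneg_right hM2 hn0
    have h5 : (((univ.filter (fun v => lv v = 0 ∨ e ≤ lv v)).card +
        3 * (4 * Mx) + 9 : ℕ) : ℝ) < (b : ℝ) + 1 := by
      push_cast
      linarith
    have h6 : (univ.filter (fun v => lv v = 0 ∨ e ≤ lv v)).card + 3 * (4 * Mx) + 9 <
      b + 1 := by exact_mod_cast h5
    omega
  · have h1 := mul_le_mul_of_nonneg_right hMu (show (0 : ℝ) ≤ (ℓ : ℝ) + 1 by positivity)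
    have h2 := mul_le_mul_of_nonneg_right hM3 hn0
    have h3 := mul_le_mul_of_nonneg_right hγ4 hn0
    push_cast
    linarith

end Pool.Agent.MPd266dbE
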