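import Pool.Agent.Lib.MP_d266db_co.E.SpecI

/-!
# MP_d266db_co, E, AvX: the average of two regular digraphs
-/

set_option autoImplicit false

namespace Pool.Agent.MPd266dbE

open Finset Pool.Agent.MPd266db Pool.Agent.MPd266dbH

private theorem avx_card {n : ℕ} (p : Fin n × Fin n → Prop) [DecidablePred p]
    {A B : Finset (Fin n × Fin n)} (h : Disjoint A B) :
    ((A ∪ B).filter p).card = (A.filter p).card + (B.filter p).card := by
  rw [Finset.filter_union, Finset.card_union_of_disjoint]
  exact Finset.disjoint_filter_filter h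

private theorem avx_od {n : ℕ} {A B : Finset (Fin n × Fin n)} (h : Disjoint A B) (v : Fin n) :
    od (A ∪ B) v = od A v + od B v := avx_card _ h

private theorem avx_idg {n : ℕ} {A B : Finset (Fin n × Fin n)} (h : Disjoint A B) (v : Fin n) :
    idg (A ∪ B) v = idg A v + idg B v := avx_card _ h

private theorem avx_eb {n : ℕ} {A B : Finset (Fin n × Fin n)} (h : Disjoint A B)
    (X Y : Finset (Fin n)) : eb (A ∪ B) X Y = eb A X Y + eb B X Y := avx_card _ h

theorem tAvX (hHfX : S_HfX) : S_AvX := by
  intro n r R R' hR hR'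
  have d1 : Disjoint (R ∩ R') (R \ R') := by
    rw [Finset.disjoint_left]
    intro e he he'
    exact (Finset.mem_sdiff.mp he').2 (Finset.mem_inter.mp he).2
  have d2 : Disjoint (R ∩ R') (R' \ R) := by
    rw [Finset.disjoint_left]
    intro e he he'
    exact (Finset.mem_sdiff.mp he').2 (Finset.mem_inter.mp he).1
  have d3 : Disjoint (R \ R') (R' \ R) := by
    rw [Finset.disjoint_left]
    intro e he he'
    exact (Finset.mem_sdiff.mp he').2 (Finset.mem_sdiff.mp he).1
  have u1 : R ∩ R' ∪ R \ R' = R := by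
    ext e
    simp only [mem_union, mem_inter, mem_sdiff]
    tauto
  have u2 : R ∩ R' ∪ R' \ R = R' := by
    ext e
    simp only [mem_union, mem_inter, mem_sdiff]
    tauto
  have o1 : ∀ v, od (R ∩ R') v + od (R \ R') v = r := fun v => by
    rw [← avx_od d1, u1]
    exact (hR v).1
  have o2 : ∀ v, od (R ∩ R') v + od (R' \ R) v = r := fun v => by
    rw [← avx_od d2, u2]
    exact (hR' v).1
  have i1 : ∀ v, idg (R ∩ R') v + idg (R \ R') v = r := fun v => by
    rw [← avx_idg d1, u1]
    exact (hR v).2
  have i2 : ∀ v, idg (R ∩ R') v + idg (R' \ R) v = r := fun v => by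
    rw [← avx_idg d2, u2]
    exact (hR' v).2
  obtain ⟨H₁, hH₁, hdeg, hcut⟩ := hHfX n (R \ R' ∪ R' \ R) (by
    intro v
    rw [avx_od d3, avx_idg d3]
    have a1 := o1 v
    have a2 := o2 v
    have a3 := i1 v
    have a4 := i2 v
    constructor
    · rw [show od (R' \ R) v = od (R \ R') v by omega]
      exact ⟨_, rfl⟩
    · rw [show idg (R' \ R) v = idg (R \ R') v by omega]
      exact ⟨_, rfl⟩)
  have d4 : Disjoint (R ∩ R') H₁ := by
    rw [Finset.disjoint_left]
    intro e he he'
    rcases Finset.mem_union.mp (hH₁ he') with h | h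
    · exact (Finset.disjoint_left.mp d1) he h
    · exact (Finset.disjoint_left.mp d2) he h
  refine ⟨R ∩ R' ∪ H₁, ?_, fun v => ?_, fun X Y => ?_⟩
  · intro e he
    rcases Finset.mem_union.mp he with h | h
    · exact Finset.mem_union_left _ (Finset.mem_inter.mp h).1
    · rcases Finset.mem_union.mp (hH₁ h) with h | h
      · exact Finset.mem_union_left _ (Finset.mem_sdiff.mp h).1
      · exact Finset.mem_union_right _ (Finset.mem_sdiff.mp h).1
  · rw [avx_od d4, avx_idg d4]
    obtain ⟨g1, g2⟩ := hdeg v
    rw [avx_od d3] at g1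
    rw [avx_idg d3] at g2
    have a1 := o1 v
    have a2 := o2 v
    have a3 := i1 v
    have a4 := i2 v
    constructor <;> omega
  · have c := hcut X Y
    rw [avx_eb d3] at c
    have c1 : eb (R ∩ R') X Y + eb (R \ R') X Y = eb R X Y := by
      rw [← avx_eb d1, u1]
    have c2 : eb (R ∩ R') X Y + eb (R' \ R) X Y = eb R' X Y := by
      rw [← avx_eb d2, u2]
    rw [avx_eb d4, ← c1, ← c2]
    push_cast at c ⊢
    linarith

end Pool.Agent.MPd266dbE
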