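import Pool.Agent.Lib.MP_d266db_co.E.SpecC

/-!
# MP_d266db_co, E: removing a set of small degrees from a system with small classes
-/

set_option autoImplicit false

namespace Pool.Agent.MPd266dbE

open Finset Pool.Agent.MPd266db Pool.Agent.MPd266dbH

theorem bsb_card {α : Type} [DecidableEq α] (S Z : Finset α) (p : α → Prop) [DecidablePred p] :
    (S.filter p).card ≤ ((S \ Z).filter p).card + (Z.filter p).card := by
  refine (card_le_card ?_).trans (card_union_le _ _)
  intro e he
  rw [mem_filter] at he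
  rw [mem_union, mem_filter, mem_filter, mem_sdiff]
  by_cases h : e ∈ Z
  · exact Or.inr ⟨h, he.2⟩
  · exact Or.inl ⟨⟨he.1, h⟩, he.2⟩

theorem bsb_sub {α : Type} [DecidableEq α] (S Z : Finset α) (p : α → Prop) [DecidablePred p] :
    ((S \ Z).filter p).card ≤ (S.filter p).card :=
  card_le_card (filter_subset_filter _ sdiff_subset)

theorem bsb_eb {n : ℕ} (Z : Finset (Fin n × Fin n)) (z : ℕ) (hZ : Dg Z z) (X Y : Finset (Fin n)) :
    eb Z X Y ≤ z * X.card := by
  have h1 : eb Z X Y ≤ eb Z X univ := eb_mono (Subset.refl _) (Subset.refl _) (subset_univ _)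
  rw [eb_univ_right] at h1
  refine h1.trans ?_
  have h2 : ∑ v ∈ X, od Z v ≤ ∑ _v ∈ X, z := sum_le_sum fun v _ => (hZ v).1
  rw [sum_const, smul_eq_mul, mul_comm] at h2
  exact h2

theorem tBSb : S_BSb := by
  classical
  intro n K z S Z o i N θ ρ g β ν η h hZ hz hN hη
  have hηN : 0 ≤ η * N := mul_nonneg hη hN
  have o1 : ∀ v, (od S v : ℝ) ≤ od (S \ Z) v + η * N := by
    intro v
    have h1 : od S v ≤ od (S \ Z) v + od Z v := bsb_card S Z _
    have h2 : od Z v ≤ z := (hZ v).1
    have h3 : (od S v : ℝ) ≤ od (S \ Z) v + z := by exact_mod_cast h1.trans (by omega)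
    linarith
  have o2 : ∀ v, (od (S \ Z) v : ℝ) ≤ od S v := by
    intro v
    exact_mod_cast bsb_sub S Z _
  have i1 : ∀ v, (idg S v : ℝ) ≤ idg (S \ Z) v + η * N := by
    intro v
    have h1 : idg S v ≤ idg (S \ Z) v + idg Z v := bsb_card S Z _
    have h2 : idg Z v ≤ z := (hZ v).2
    have h3 : (idg S v : ℝ) ≤ idg (S \ Z) v + z := by exact_mod_cast h1.trans (by omega)
    linarith
  have i2 : ∀ v, (idg (S \ Z) v : ℝ) ≤ idg S v := by
    intro v
    exact_mod_cast bsb_sub S Z _
  refine ⟨fun e he => h.own e (mem_sdiff.1 he).1, ?_, ?_, ?_, ?_, ?_, h.rle, h.szo, h.szi, ?_⟩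
  · intro v
    have := h.odl v
    have := o1 v
    linarith
  · intro v
    have := h.idl v
    have := i1 v
    linarith
  · have h1 : (univ.filter (fun v => (g + η) * N < |(od (S \ Z) v : ℝ) - ρ|)).card ≤
        (univ.filter (fun v => g * N < |(od S v : ℝ) - ρ|)).card := by
      apply card_le_card
      intro v hv
      rw [mem_filter] at hv ⊢
      refine ⟨mem_univ _, ?_⟩
      by_contra hcon
      rw [not_lt, abs_le] at hcon
      have h2 := hv.2
      have h3 := o1 v
      have h4 := o2 v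
      have h5 : |(od (S \ Z) v : ℝ) - ρ| ≤ (g + η) * N := by
        rw [abs_le]
        constructor <;> linarith
      linarith
    have h2 : ((univ.filter (fun v => (g + η) * N < |(od (S \ Z) v : ℝ) - ρ|)).card : ℝ) ≤
        ((univ.filter (fun v => g * N < |(od S v : ℝ) - ρ|)).card : ℝ) := by exact_mod_cast h1
    have := h.nro
    linarith
  · have h1 : (univ.filter (fun v => (g + η) * N < |(idg (S \ Z) v : ℝ) - ρ|)).card ≤
        (univ.filter (fun v => g * N < |(idg S v : ℝ) - ρ|)).card := by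
      apply card_le_card
      intro v hv
      rw [mem_filter] at hv ⊢
      refine ⟨mem_univ _, ?_⟩
      by_contra hcon
      rw [not_lt, abs_le] at hcon
      have h2 := hv.2
      have h3 := i1 v
      have h4 := i2 v
      have h5 : |(idg (S \ Z) v : ℝ) - ρ| ≤ (g + η) * N := by
        rw [abs_le]
        constructor <;> linarith
      linarith
    have h2 : ((univ.filter (fun v => (g + η) * N < |(idg (S \ Z) v : ℝ) - ρ|)).card : ℝ) ≤
        ((univ.filter (fun v => g * N < |(idg S v : ℝ) - ρ|)).card : ℝ) := by exact_mod_cast h1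
    have := h.nri
    linarith
  · have := h.rge
    linarith
  · intro a X Y hX hY h1 h2
    have h3 := h.rob a X Y hX hY h1 h2
    have h4 : eb S X Y ≤ eb (S \ Z) X Y + eb Z X Y := bsb_card S Z _
    have h5 : eb S (Cl o a \ X) (Cl i a \ Y) ≤ eb (S \ Z) (Cl o a \ X) (Cl i a \ Y) +
        eb Z (Cl o a \ X) (Cl i a \ Y) := bsb_card S Z _
    have h6 := bsb_eb Z z hZ X Y
    have h7 := bsb_eb Z z hZ (Cl o a \ X) (Cl i a \ Y)
    have h8 : X.card + (Cl o a \ X).card = (Cl o a).card := by
      have := card_sdiff_add_card_eq_card hX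
      omega
    have h9 : eb Z X Y + eb Z (Cl o a \ X) (Cl i a \ Y) ≤ z * (Cl o a).card := by
      rw [← h8, Nat.mul_add]
      exact Nat.add_le_add h6 h7
    have h10 : (eb Z X Y : ℝ) + eb Z (Cl o a \ X) (Cl i a \ Y) ≤ z * (Cl o a).card := by
      exact_mod_cast h9
    have h11 : (z : ℝ) * (Cl o a).card ≤ (η * N) * N :=
      mul_le_mul hz (h.szo a) (Nat.cast_nonneg _) hηN
    have h12 : (eb S X Y : ℝ) ≤ eb (S \ Z) X Y + eb Z X Y := by exact_mod_cast h4
    have h13 : (eb S (Cl o a \ X) (Cl i a \ Y) : ℝ) ≤ eb (S \ Z) (Cl o a \ X) (Cl i a \ Y) +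
        eb Z (Cl o a \ X) (Cl i a \ Y) := by exact_mod_cast h5
    nlinarith

end Pool.Agent.MPd266dbE
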