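import Pool.Agent.Lib.MP_d266db_co.E.SpecF

/-!
# MP_d266db_co, E: pairing the cross arcs
-/

set_option autoImplicit false

namespace Pool.Agent.MPd266dbE

open Finset Pool.Agent.MPd266db Pool.Agent.MPd266dbH

/-- an involution which exchanges two disjoint sets with the same number of elements -/
private theorem bas_inv {α : Type} [DecidableEq α] (A B : Finset α) (hAB : Disjoint A B)
    (hc : A.card = B.card) : ∃ m : α → α, (∀ q, m (m q) = q) ∧ (∀ q ∈ A, m q ∈ B) ∧
      (∀ q ∈ B, m q ∈ A) ∧ ∀ q, q ∉ A → q ∉ B → m q = q := by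
  classical
  set e : A ≃ B := Finset.equivOfCardEq hc with he
  have hd : ∀ q, q ∈ A → q ∉ B := fun q h => Finset.disjoint_left.1 hAB h
  refine ⟨fun q => if h : q ∈ A then (e ⟨q, h⟩ : α) else if h' : q ∈ B then
    (e.symm ⟨q, h'⟩ : α) else q, fun q => ?_, fun q hq => ?_, fun q hq => ?_, fun q hq hq' => ?_⟩
  · by_cases h : q ∈ A
    · have h1 : (e ⟨q, h⟩ : α) ∈ B := (e ⟨q, h⟩).2
      have h2 : (e ⟨q, h⟩ : α) ∉ A := fun h' => hd _ h' h1
      simp only [dif_pos h, dif_neg h2, dif_pos h1, Subtype.coe_eta, Equiv.symm_apply_apply]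
    · by_cases h' : q ∈ B
      · have h1 : (e.symm ⟨q, h'⟩ : α) ∈ A := (e.symm ⟨q, h'⟩).2
        simp only [dif_neg h, dif_pos h', dif_pos h1, Subtype.coe_eta, Equiv.apply_symm_apply]
      · simp only [dif_neg h, dif_neg h']
  · simp only [dif_pos hq]
    exact (e ⟨q, hq⟩).2
  · have h1 : q ∉ A := fun h => hd q h hq
    simp only [dif_neg h1, dif_pos hq]
    exact (e.symm ⟨q, hq⟩).2
  · simp only [dif_neg hq, dif_neg hq']

private theorem bas_out {n K : ℕ} {D : Finset (Fin n × Fin n)} {d : ℕ} (hD : Reg D d)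
    (o : Fin n → Fin K) (a : Fin K) :
    (D.filter (fun q => o q.1 = a)).card = d * (Cl o a).card := by
  have h := eb_univ_right D (Cl o a)
  rw [sum_congr rfl (fun v _ => (hD v).1), sum_const, smul_eq_mul, mul_comm] at h
  rw [← h]
  unfold eb
  congr 1
  ext q
  simp [Cl]

private theorem bas_in {n K : ℕ} {D : Finset (Fin n × Fin n)} {d : ℕ} (hD : Reg D d)
    (i : Fin n → Fin K) (a : Fin K) :
    (D.filter (fun q => i q.2 = a)).card = d * (Cl i a).card := by
  have h := eb_univ_left D (Cl i a)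
  rw [sum_congr rfl (fun v _ => (hD v).2), sum_const, smul_eq_mul, mul_comm] at h
  rw [← h]
  unfold eb
  congr 1
  ext q
  simp [Cl]

theorem tBas : S_Bas := by
  classical
  intro n K d p D o i c0 d0 hD hC
  have hsc := hC.sc
  have hsd := hC.sd
  by_cases hcd : c0 = d0
  · subst hcd
    have hp : p = 0 := by omega
    subst hp
    have hall : ∀ x y : Fin K, x = y := by
      intro x y
      by_contra hne
      rcases hC.two x y hne with h | h
      · exact hne (h.1.trans h.2.symm)
      · exact hne (h.1.trans h.2.symm)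
    refine ⟨id, fun _ => rfl, fun q hq => hq, fun q _ h => absurd rfl h,
      fun q _ _ h => absurd (hall _ _) h, ?_⟩
    rw [mul_zero, card_eq_zero, filter_eq_empty_iff]
    intro q _ h
    exact h.2 (hall _ _)
  have hx : ∀ x : Fin K, x = c0 ∨ x = d0 := by
    intro x
    by_cases h : x = c0
    · exact Or.inl h
    · rcases hC.two x c0 h with h' | h'
      · exact Or.inl h'.1
      · exact Or.inr h'.1
  set Dp := D.filter (fun q => o q.1 = c0 ∧ i q.2 = d0) with hDp
  set Dm := D.filter (fun q => o q.1 = d0 ∧ i q.2 = c0) with hDm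
  have h1 := bas_out hD o c0
  have h2 := bas_in hD i c0
  have h3 : (D.filter (fun q => o q.1 = c0)).card =
      (D.filter (fun q => o q.1 = c0 ∧ i q.2 = c0)).card + Dp.card := by
    rw [← card_union_of_disjoint]
    · congr 1
      ext q
      simp only [hDp, mem_filter, mem_union]
      have := hx (i q.2)
      tauto
    · rw [disjoint_left]
      intro q hq hq'
      exact hcd ((mem_filter.1 hq).2.2.symm.trans (mem_filter.1 hq').2.2)
  have h4 : (D.filter (fun q => i q.2 = c0)).card =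
      (D.filter (fun q => o q.1 = c0 ∧ i q.2 = c0)).card + Dm.card := by
    rw [← card_union_of_disjoint]
    · congr 1
      ext q
      simp only [hDm, mem_filter, mem_union]
      have := hx (o q.1)
      tauto
    · rw [disjoint_left]
      intro q hq hq'
      exact hcd ((mem_filter.1 hq).2.1.symm.trans (mem_filter.1 hq').2.1)
  have h5 : Dp.card = Dm.card + d * p := by
    have h6 : d * (Cl o c0).card = d * (Cl i c0).card + d * p := by rw [hsc, mul_add]
    omega
  obtain ⟨P, hP, hPc⟩ := exists_subset_card_eq (show Dm.card ≤ Dp.card by omega)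
  have hdis : Disjoint Dm Dp := by
    rw [disjoint_left]
    intro q hq hq'
    exact hcd ((mem_filter.1 hq').2.1.symm.trans (mem_filter.1 hq).2.1)
  obtain ⟨mt, m1, m2, m3, m4⟩ := bas_inv Dm P (hdis.mono_right hP) hPc.symm
  have hDmD : ∀ q ∈ Dm, q ∈ D ∧ o q.1 = d0 ∧ i q.2 = c0 := fun q hq => mem_filter.1 hq
  have hDpD : ∀ q ∈ Dp, q ∈ D ∧ o q.1 = c0 ∧ i q.2 = d0 := fun q hq => mem_filter.1 hq
  have hne1 : ∀ q ∈ Dm, mt q ≠ q := by
    intro q hq h
    have := hP (m2 q hq)
    rw [h] at this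
    exact disjoint_left.1 hdis hq this
  have hne2 : ∀ q ∈ P, mt q ≠ q := by
    intro q hq h
    have := m3 q hq
    rw [h] at this
    exact disjoint_left.1 hdis this (hP hq)
  refine ⟨mt, m1, fun q hq => ?_, fun q hq hne => ?_, fun q hq he hoi => ?_, ?_⟩
  · by_cases ha : q ∈ Dm
    · exact (hDpD _ (hP (m2 q ha))).1
    · by_cases hb : q ∈ P
      · exact (hDmD _ (m3 q hb)).1
      · rw [m4 q ha hb]
        exact hq
  · by_cases ha : q ∈ Dm
    · obtain ⟨-, a1, a2⟩ := hDmD q ha
      obtain ⟨-, b1, b2⟩ := hDpD _ (hP (m2 q ha))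
      exact ⟨by rw [a1, a2]; exact fun h => hcd h.symm, by rw [b1, a2], by rw [b2, a1]⟩
    · by_cases hb : q ∈ P
      · obtain ⟨-, a1, a2⟩ := hDpD q (hP hb)
        obtain ⟨-, b1, b2⟩ := hDmD _ (m3 q hb)
        exact ⟨by rw [a1, a2]; exact hcd, by rw [b1, a2], by rw [b2, a1]⟩
      · exact absurd (m4 q ha hb) hne
  · rcases hC.two _ _ hoi with h | h
    · exact h
    · exact absurd he (hne1 q (mem_filter.2 ⟨hq, h⟩))
  · have h6 : D.filter (fun q => mt q = q ∧ o q.1 ≠ i q.2) = Dp \ P := by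
      ext q
      rw [mem_filter, mem_sdiff]
      constructor
      · rintro ⟨hq, he, hoi⟩
        rcases hC.two _ _ hoi with h | h
        · exact ⟨mem_filter.2 ⟨hq, h⟩, fun h' => hne2 q h' he⟩
        · exact absurd he (hne1 q (mem_filter.2 ⟨hq, h⟩))
      · rintro ⟨hq, hqP⟩
        obtain ⟨a0, a1, a2⟩ := hDpD q hq
        exact ⟨a0, m4 q (fun h => disjoint_left.1 hdis h hq) hqP, by rw [a1, a2]; exact hcd⟩
    rw [h6, card_sdiff_of_subset hP]
    omega

end Pool.Agent.MPd266dbE
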