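import Pool.Agent.Lib.MP_d266db_co.E.SpecE

set_option autoImplicit false

namespace Pool.Agent.MPd266dbE

open Finset Pool.Agent.MPd266db Pool.Agent.MPd266dbH

/-- disjoint boxes -/
theorem bxr_sum_le {n kt kh : ℕ} (S : Finset (Fin n × Fin n)) (T : Fin kt → Finset (Fin n))
    (H : Fin kh → Finset (Fin n)) (dT : ∀ p p', p ≠ p' → Disjoint (T p) (T p'))
    (dH : ∀ q q', q ≠ q' → Disjoint (H q) (H q')) (X Y : Finset (Fin n))
    (Bd : Finset (Fin kt × Fin kh)) :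
    ∑ e ∈ Bd, eb S (X ∩ T e.1) (Y ∩ H e.2) ≤ eb S X Y := by
  classical
  unfold eb
  rw [← card_biUnion]
  · apply card_le_card
    intro f hf
    rw [mem_biUnion] at hf
    obtain ⟨e, -, hf⟩ := hf
    rw [mem_filter] at hf ⊢
    exact ⟨hf.1, (mem_inter.1 hf.2.1).1, (mem_inter.1 hf.2.2).1⟩
  · intro e _ e' _ hne
    rw [Function.onFun, disjoint_left]
    intro f hf hf'
    rw [mem_filter] at hf hf'
    apply hne
    apply Prod.ext
    · by_contra h
      exact disjoint_left.1 (dT _ _ h) (mem_inter.1 hf.2.1).2 (mem_inter.1 hf'.2.1).2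
    · by_contra h
      exact disjoint_left.1 (dH _ _ h) (mem_inter.1 hf.2.2).2 (mem_inter.1 hf'.2.2).2

/-- arcs of `F` and the pairs of clusters -/
theorem bxr_out {n kt kh s : ℕ} (S F : Finset (Fin n × Fin n)) (T : Fin kt → Finset (Fin n))
    (H : Fin kh → Finset (Fin n)) (D Bd : Finset (Fin kt × Fin kh)) (sT : ∀ p, (T p).card = s)
    (sH : ∀ q, (H q).card = s) (τ : ℝ)
    (rest : ∑ e ∈ Dᶜ, (eb S (T e.1) (H e.2) : ℝ) ≤ τ * (n : ℝ) ^ 2) (hF : F ⊆ S)
    (hbad : ∀ e ∈ F, ∀ p q, e.1 ∈ T p → e.2 ∈ H q → (p, q) ∈ D → (p, q) ∈ Bd) :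
    (F.card : ℝ) ≤ (s : ℝ) ^ 2 * Bd.card + τ * (n : ℝ) ^ 2 +
      (F.filter (fun e => e.1 ∉ univ.biUnion T)).card +
      (F.filter (fun e => e.2 ∉ univ.biUnion H)).card := by
  classical
  have h1 : F ⊆ ((Bd.biUnion (fun b => S.filter (fun e => e.1 ∈ T b.1 ∧ e.2 ∈ H b.2)) ∪
      (Dᶜ).biUnion (fun b => S.filter (fun e => e.1 ∈ T b.1 ∧ e.2 ∈ H b.2))) ∪
      F.filter (fun e => e.1 ∉ univ.biUnion T)) ∪ F.filter (fun e => e.2 ∉ univ.biUnion H) := by
    intro e he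
    by_cases h2 : e.2 ∈ univ.biUnion H
    · by_cases h3 : e.1 ∈ univ.biUnion T
      · apply mem_union_left
        apply mem_union_left
        rw [mem_biUnion] at h2 h3
        obtain ⟨q, -, hq⟩ := h2
        obtain ⟨p, -, hp⟩ := h3
        by_cases h4 : (p, q) ∈ D
        · apply mem_union_left
          rw [mem_biUnion]
          exact ⟨(p, q), hbad e he p q hp hq h4, mem_filter.2 ⟨hF he, hp, hq⟩⟩
        · apply mem_union_right
          rw [mem_biUnion]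
          exact ⟨(p, q), mem_compl.2 h4, mem_filter.2 ⟨hF he, hp, hq⟩⟩
      · apply mem_union_left
        apply mem_union_right
        exact mem_filter.2 ⟨he, h3⟩
    · apply mem_union_right
      exact mem_filter.2 ⟨he, h2⟩
  have h2 : (F.card : ℝ) ≤ ∑ b ∈ Bd, (eb S (T b.1) (H b.2) : ℝ) +
      ∑ b ∈ Dᶜ, (eb S (T b.1) (H b.2) : ℝ) + (F.filter (fun e => e.1 ∉ univ.biUnion T)).card +
      (F.filter (fun e => e.2 ∉ univ.biUnion H)).card := by
    have h3 := (card_le_card h1).trans (card_union_le _ _)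
    have h4 := card_union_le (Bd.biUnion (fun b => S.filter (fun e => e.1 ∈ T b.1 ∧ e.2 ∈ H b.2)) ∪
      (Dᶜ).biUnion (fun b => S.filter (fun e => e.1 ∈ T b.1 ∧ e.2 ∈ H b.2)))
      (F.filter (fun e => e.1 ∉ univ.biUnion T))
    have h5 := card_union_le (Bd.biUnion (fun b => S.filter (fun e => e.1 ∈ T b.1 ∧ e.2 ∈ H b.2)))
      ((Dᶜ).biUnion (fun b => S.filter (fun e => e.1 ∈ T b.1 ∧ e.2 ∈ H b.2)))
    have h6 : (Bd.biUnion (fun b => S.filter (fun e => e.1 ∈ T b.1 ∧ e.2 ∈ H b.2))).card ≤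
        ∑ b ∈ Bd, eb S (T b.1) (H b.2) := card_biUnion_le
    have h7 : ((Dᶜ).biUnion (fun b => S.filter (fun e => e.1 ∈ T b.1 ∧ e.2 ∈ H b.2))).card ≤
        ∑ b ∈ Dᶜ, eb S (T b.1) (H b.2) := card_biUnion_le
    have h8 : F.card ≤ ∑ b ∈ Bd, eb S (T b.1) (H b.2) + ∑ b ∈ Dᶜ, eb S (T b.1) (H b.2) +
        (F.filter (fun e => e.1 ∉ univ.biUnion T)).card +
        (F.filter (fun e => e.2 ∉ univ.biUnion H)).card := by omega
    exact_mod_cast h8
  have h3 : ∑ b ∈ Bd, (eb S (T b.1) (H b.2) : ℝ) ≤ ∑ _b ∈ Bd, (s : ℝ) ^ 2 := by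
    apply sum_le_sum
    intro b _
    have h4 : eb S (T b.1) (H b.2) ≤ (T b.1 ×ˢ H b.2).card := by
      apply card_le_card
      intro e he
      rw [mem_filter] at he
      exact mem_product.2 he.2
    rw [card_product, sT, sH] at h4
    have h5 : ((eb S (T b.1) (H b.2) : ℕ) : ℝ) ≤ ((s * s : ℕ) : ℝ) := Nat.cast_le.2 h4
    rw [Nat.cast_mul] at h5
    nlinarith
  rw [sum_const, nsmul_eq_mul] at h3
  nlinarith

theorem bxr_o1 {n kt : ℕ} (F : Finset (Fin n × Fin n)) (T : Fin kt → Finset (Fin n)) (τ : ℝ)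
    (uT : ((univ \ univ.biUnion T).card : ℝ) ≤ τ * n) :
    ((F.filter (fun e => e.1 ∉ univ.biUnion T)).card : ℝ) ≤ τ * (n : ℝ) ^ 2 := by
  classical
  have h1 : (F.filter (fun e => e.1 ∉ univ.biUnion T)).card ≤
      ((univ \ univ.biUnion T) ×ˢ (univ : Finset (Fin n))).card := by
    apply card_le_card
    intro e he
    rw [mem_filter] at he
    exact mem_product.2 ⟨mem_sdiff.2 ⟨mem_univ _, he.2⟩, mem_univ _⟩
  rw [card_product, card_univ, Fintype.card_fin] at h1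
  have h2 : ((F.filter (fun e => e.1 ∉ univ.biUnion T)).card : ℝ) ≤
      ((univ \ univ.biUnion T).card : ℝ) * n := by exact_mod_cast h1
  have h3 : (0 : ℝ) ≤ n := Nat.cast_nonneg _
  nlinarith

theorem bxr_o2 {n kt : ℕ} (F : Finset (Fin n × Fin n)) (T : Fin kt → Finset (Fin n)) (τ : ℝ)
    (uT : ((univ \ univ.biUnion T).card : ℝ) ≤ τ * n) :
    ((F.filter (fun e => e.2 ∉ univ.biUnion T)).card : ℝ) ≤ τ * (n : ℝ) ^ 2 := by
  classical
  have h1 : (F.filter (fun e => e.2 ∉ univ.biUnion T)).card ≤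
      ((univ : Finset (Fin n)) ×ˢ (univ \ univ.biUnion T)).card := by
    apply card_le_card
    intro e he
    rw [mem_filter] at he
    exact mem_product.2 ⟨mem_univ _, mem_sdiff.2 ⟨mem_univ _, he.2⟩⟩
  rw [card_product, card_univ, Fintype.card_fin] at h1
  have h2 : ((F.filter (fun e => e.2 ∉ univ.biUnion T)).card : ℝ) ≤
      n * ((univ \ univ.biUnion T).card : ℝ) := by exact_mod_cast h1
  have h3 : (0 : ℝ) ≤ n := Nat.cast_nonneg _
  nlinarith

/-- the size of a union of clusters -/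
theorem bxr_card {n kt s : ℕ} (T : Fin kt → Finset (Fin n)) (sT : ∀ p, (T p).card = s)
    (dT : ∀ p p', p ≠ p' → Disjoint (T p) (T p')) (G : Finset (Fin kt)) :
    (G.biUnion T).card = G.card * s := by
  classical
  rw [card_biUnion (fun p _ p' _ h => dT p p' h), sum_congr rfl (fun p _ => sT p), sum_const,
    smul_eq_mul]

/-- flexible clusters of tails -/
theorem bxr_f1 {n kt kh s : ℕ} (S : Finset (Fin n × Fin n)) (T : Fin kt → Finset (Fin n))
    (H : Fin kh → Finset (Fin n)) (D Bd : Finset (Fin kt × Fin kh)) (sT : ∀ p, (T p).card = s)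
    (sH : ∀ q, (H q).card = s) (dT : ∀ p p', p ≠ p' → Disjoint (T p) (T p')) (τ θ βt : ℝ)
    (rest : ∑ e ∈ Dᶜ, (eb S (T e.1) (H e.2) : ℝ) ≤ τ * (n : ℝ) ^ 2)
    (uH : ((univ \ univ.biUnion H).card : ℝ) ≤ τ * n) (hθ : 0 < θ) (hod : ∀ v, θ * n ≤ od S v)
    (hτ : 16 * τ ≤ θ * βt) (Φ : Finset (Fin kt)) (hΦ : βt / 4 * n ≤ (Φ.card : ℝ) * s)
    (hbad : ∀ p ∈ Φ, ∀ q, (p, q) ∈ D → (p, q) ∈ Bd) :
    θ * βt / 8 * (n : ℝ) ^ 2 ≤ (s : ℝ) ^ 2 * Bd.card := by
  classical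
  have h1 := bxr_out S (S.filter (fun e => e.1 ∈ Φ.biUnion T ∧ e.2 ∈ univ)) T H D Bd sT sH τ rest
    (filter_subset _ _) (by
      intro e he p q hp hq hpq
      rw [mem_filter, mem_biUnion] at he
      obtain ⟨-, ⟨p', hp', he'⟩, -⟩ := he
      have h2 : p = p' := by
        by_contra h
        exact disjoint_left.1 (dT _ _ h) hp he'
      rw [h2] at hpq ⊢
      exact hbad p' hp' q hpq)
  have h2 : ((S.filter (fun e => e.1 ∈ Φ.biUnion T ∧ e.2 ∈ univ)).filter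
      (fun e => e.1 ∉ univ.biUnion T)) = ∅ := by
    apply filter_eq_empty_iff.2
    intro e he
    rw [mem_filter] at he
    rw [not_not]
    exact biUnion_subset_biUnion_of_subset_left T (subset_univ Φ) he.2.1
  have h3 := bxr_o2 (S.filter (fun e => e.1 ∈ Φ.biUnion T ∧ e.2 ∈ univ)) H τ uH
  rw [h2, card_empty] at h1
  have h4 : ((S.filter (fun e => e.1 ∈ Φ.biUnion T ∧ e.2 ∈ univ)).card : ℝ) =
      ∑ v ∈ Φ.biUnion T, (od S v : ℝ) := by
    rw [← Nat.cast_sum, ← eb_univ_right]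
    rfl
  have h5 : ∑ _v ∈ Φ.biUnion T, θ * n ≤ ∑ v ∈ Φ.biUnion T, (od S v : ℝ) :=
    sum_le_sum fun v _ => hod v
  rw [sum_const, nsmul_eq_mul, bxr_card T sT dT Φ, Nat.cast_mul] at h5
  have h6 : (0 : ℝ) ≤ n := Nat.cast_nonneg _
  have h7 : βt / 4 * n * (θ * n) ≤ (Φ.card : ℝ) * s * (θ * n) :=
    mul_le_mul_of_nonneg_right hΦ (by positivity)
  have h8 : 16 * τ * (n : ℝ) ^ 2 ≤ θ * βt * (n : ℝ) ^ 2 :=
    mul_le_mul_of_nonneg_right hτ (by positivity)
  rw [Nat.cast_zero] at h1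
  nlinarith

/-- flexible clusters of heads -/
theorem bxr_f2 {n kt kh s : ℕ} (S : Finset (Fin n × Fin n)) (T : Fin kt → Finset (Fin n))
    (H : Fin kh → Finset (Fin n)) (D Bd : Finset (Fin kt × Fin kh)) (sT : ∀ p, (T p).card = s)
    (sH : ∀ q, (H q).card = s) (dH : ∀ q q', q ≠ q' → Disjoint (H q) (H q')) (τ θ βt : ℝ)
    (rest : ∑ e ∈ Dᶜ, (eb S (T e.1) (H e.2) : ℝ) ≤ τ * (n : ℝ) ^ 2)
    (uT : ((univ \ univ.biUnion T).card : ℝ) ≤ τ * n) (hθ : 0 < θ) (hid : ∀ v, θ * n ≤ idg S v)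
    (hτ : 16 * τ ≤ θ * βt) (Φ : Finset (Fin kh)) (hΦ : βt / 4 * n ≤ (Φ.card : ℝ) * s)
    (hbad : ∀ q ∈ Φ, ∀ p, (p, q) ∈ D → (p, q) ∈ Bd) :
    θ * βt / 8 * (n : ℝ) ^ 2 ≤ (s : ℝ) ^ 2 * Bd.card := by
  classical
  have h1 := bxr_out S (S.filter (fun e => e.1 ∈ univ ∧ e.2 ∈ Φ.biUnion H)) T H D Bd sT sH τ rest
    (filter_subset _ _) (by
      intro e he p q hp hq hpq
      rw [mem_filter, mem_biUnion] at he
      obtain ⟨-, -, ⟨q', hq', he'⟩⟩ := he
      have h2 : q = q' := by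
        by_contra h
        exact disjoint_left.1 (dH _ _ h) hq he'
      rw [h2] at hpq ⊢
      exact hbad q' hq' p hpq)
  have h2 : ((S.filter (fun e => e.1 ∈ univ ∧ e.2 ∈ Φ.biUnion H)).filter
      (fun e => e.2 ∉ univ.biUnion H)) = ∅ := by
    apply filter_eq_empty_iff.2
    intro e he
    rw [mem_filter] at he
    rw [not_not]
    exact biUnion_subset_biUnion_of_subset_left H (subset_univ Φ) he.2.2
  have h3 := bxr_o1 (S.filter (fun e => e.1 ∈ univ ∧ e.2 ∈ Φ.biUnion H)) T τ uT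
  rw [h2, card_empty] at h1
  have h4 : ((S.filter (fun e => e.1 ∈ univ ∧ e.2 ∈ Φ.biUnion H)).card : ℝ) =
      ∑ v ∈ Φ.biUnion H, (idg S v : ℝ) := by
    rw [← Nat.cast_sum, ← eb_univ_left]
    rfl
  have h5 : ∑ _v ∈ Φ.biUnion H, θ * n ≤ ∑ v ∈ Φ.biUnion H, (idg S v : ℝ) :=
    sum_le_sum fun v _ => hid v
  rw [sum_const, nsmul_eq_mul, bxr_card H sH dH Φ, Nat.cast_mul] at h5
  have h6 : (0 : ℝ) ≤ n := Nat.cast_nonneg _
  have h7 : βt / 4 * n * (θ * n) ≤ (Φ.card : ℝ) * s * (θ * n) :=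
    mul_le_mul_of_nonneg_right hΦ (by positivity)
  have h8 : 16 * τ * (n : ℝ) ^ 2 ≤ θ * βt * (n : ℝ) ^ 2 :=
    mul_le_mul_of_nonneg_right hτ (by positivity)
  rw [Nat.cast_zero] at h1
  nlinarith

/-- there are many flexible clusters -/
theorem bxr_flex {n K kt s k : ℕ} (o : Fin n → Fin K) (T : Fin kt → Finset (Fin n))
    (ct : Fin kt → Fin K) (a : Fin K) (Vt Uo X : Finset (Fin n)) (G : Finset (Fin kt))
    (βt ε δ τ : ℝ) (sT : ∀ p, (T p).card = s) (dT : ∀ p p', p ≠ p' → Disjoint (T p) (T p'))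
    (oT : ∀ p, ∀ v ∈ T p, o v = ct p) (uT : ((univ \ univ.biUnion T).card : ℝ) ≤ τ * n)
    (hT : ∀ p, (1 - ε) * s ≤ k * ((T p ∩ Vt).card : ℝ) ∧ k * ((T p ∩ Vt).card : ℝ) ≤ (1 + ε) * s)
    (hVt : k * (Vt.card : ℝ) ≤ (1 + ε) * n) (hUo : Uo ⊆ Cl o a)
    (hδ : ((Uo \ Vt).card : ℝ) ≤ δ * n) (hX : X ⊆ Uo) (hXc : βt * n ≤ k * (X.card : ℝ))
    (hG : (G.card : ℝ) * s ≤ βt / 16 * n) (hβ1 : βt ≤ 1) (hβ0 : 0 < βt)
    (hε0 : 0 < ε) (hε : 64 * ε ≤ βt) (hτ0 : 0 < τ) (hτ : 64 * τ ≤ βt)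
    (hδk : 64 * (δ * k) ≤ βt) :
    βt / 4 * n ≤ ((univ.filter (fun p => ct p = a ∧ p ∉ G ∧
      βt / 16 * s ≤ k * ((X ∩ Vt ∩ T p).card : ℝ))).card : ℝ) * s := by
  classical
  set Φ := univ.filter (fun p => ct p = a ∧ p ∉ G ∧
      βt / 16 * s ≤ k * ((X ∩ Vt ∩ T p).card : ℝ)) with hΦ
  have hn0 : (0 : ℝ) ≤ n := Nat.cast_nonneg _
  have hs0 : (0 : ℝ) ≤ s := Nat.cast_nonneg _
  have hk0 : (0 : ℝ) ≤ k := Nat.cast_nonneg _
  -- the clusters cover almost everything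
  have e1 : ((univ : Finset (Fin kt)).biUnion T).card = kt * s := by
    rw [bxr_card T sT dT univ, card_univ, Fintype.card_fin]
  have e2 : (kt : ℝ) * s ≤ n := by
    have h := card_le_univ ((univ : Finset (Fin kt)).biUnion T)
    rw [e1, Fintype.card_fin] at h
    exact_mod_cast h
  have e3 : (n : ℝ) - τ * n ≤ kt * s := by
    have h := card_sdiff_add_card_eq_card (subset_univ ((univ : Finset (Fin kt)).biUnion T))
    rw [e1, card_univ, Fintype.card_fin] at h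
    have h' : (((univ \ (univ : Finset (Fin kt)).biUnion T).card : ℝ)) + kt * s = n := by
      exact_mod_cast h
    linarith
  -- the part of Vt outside of the clusters
  have e4 : (k : ℝ) * ((Vt \ (univ : Finset (Fin kt)).biUnion T).card : ℝ) ≤ (2 * ε + τ) * n := by
    have h1 : (Vt ∩ (univ : Finset (Fin kt)).biUnion T).card = ∑ p, (T p ∩ Vt).card := by
      rw [← card_biUnion]
      · congr 1
        ext v
        simp only [mem_inter, mem_biUnion, mem_univ, true_and]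
        constructor
        · rintro ⟨h1, p, h2⟩
          exact ⟨p, h2, h1⟩
        · rintro ⟨p, h2, h1⟩
          exact ⟨h1, p, h2⟩
      · intro p _ p' _ h
        exact (dT p p' h).mono inter_subset_left inter_subset_left
    have h2 := card_sdiff_add_card_inter Vt ((univ : Finset (Fin kt)).biUnion T)
    have h3 : ((Vt \ (univ : Finset (Fin kt)).biUnion T).card : ℝ) +
        ∑ p, ((T p ∩ Vt).card : ℝ) = Vt.card := by
      rw [h1] at h2
      exact_mod_cast h2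
    have h4 : ∑ _p : Fin kt, (1 - ε) * s ≤ ∑ p, (k : ℝ) * ((T p ∩ Vt).card : ℝ) :=
      sum_le_sum fun p _ => (hT p).1
    rw [sum_const, nsmul_eq_mul, card_univ, Fintype.card_fin, ← mul_sum] at h4
    have h5 : (1 - ε) * ((n : ℝ) - τ * n) ≤ (1 - ε) * (kt * s) :=
      mul_le_mul_of_nonneg_left e3 (by linarith)
    have h6 : 0 ≤ ε * τ * n := by positivity
    nlinarith
  -- the cover of X
  have e5 : X ⊆ ((Uo \ Vt) ∪ (Vt \ (univ : Finset (Fin kt)).biUnion T)) ∪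
      (univ.filter (fun p => ct p = a)).biUnion (fun p => X ∩ Vt ∩ T p) := by
    intro v hv
    by_cases h1 : v ∈ Vt
    · by_cases h2 : v ∈ (univ : Finset (Fin kt)).biUnion T
      · apply mem_union_right
        rw [mem_biUnion] at h2 ⊢
        obtain ⟨p, -, hp⟩ := h2
        refine ⟨p, mem_filter.2 ⟨mem_univ _, ?_⟩, mem_inter.2 ⟨mem_inter.2 ⟨hv, h1⟩, hp⟩⟩
        rw [← oT p v hp]
        exact (mem_filter.1 (hUo (hX hv))).2
      · apply mem_union_left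
        apply mem_union_right
        exact mem_sdiff.2 ⟨h1, h2⟩
    · apply mem_union_left
      apply mem_union_left
      exact mem_sdiff.2 ⟨hX hv, h1⟩
  have e6 : (X.card : ℝ) ≤ (Uo \ Vt).card + (Vt \ (univ : Finset (Fin kt)).biUnion T).card +
      ∑ p ∈ univ.filter (fun p => ct p = a), ((X ∩ Vt ∩ T p).card : ℝ) := by
    have h1 := (card_le_card e5).trans (card_union_le _ _)
    have h2 := card_union_le (Uo \ Vt) (Vt \ (univ : Finset (Fin kt)).biUnion T)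
    have h3 : ((univ.filter (fun p => ct p = a)).biUnion (fun p => X ∩ Vt ∩ T p)).card ≤
        ∑ p ∈ univ.filter (fun p => ct p = a), (X ∩ Vt ∩ T p).card := card_biUnion_le
    have h4 : X.card ≤ (Uo \ Vt).card + (Vt \ (univ : Finset (Fin kt)).biUnion T).card +
        ∑ p ∈ univ.filter (fun p => ct p = a), (X ∩ Vt ∩ T p).card := by omega
    exact_mod_cast h4
  have e7 : ∑ p ∈ univ.filter (fun p => ct p = a), (k : ℝ) * ((X ∩ Vt ∩ T p).card : ℝ) ≤
      ∑ p : Fin kt, ((if p ∈ G then 2 * (s : ℝ) else 0) + (if p ∈ Φ then 2 * (s : ℝ) else 0) +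
        βt / 16 * s) := by
    refine (sum_le_sum (fun p hp => ?_)).trans
      (sum_le_sum_of_subset_of_nonneg (subset_univ _) (fun p _ _ => ?_))
    · have h1 : (k : ℝ) * ((X ∩ Vt ∩ T p).card : ℝ) ≤ 2 * s := by
        have h2 : ((X ∩ Vt ∩ T p).card : ℝ) ≤ (T p ∩ Vt).card := by
          apply Nat.cast_le.2
          apply card_le_card
          intro v hv
          rw [mem_inter, mem_inter] at hv
          exact mem_inter.2 ⟨hv.2, hv.1.2⟩
        have h3 := mul_le_mul_of_nonneg_left h2 hk0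
        have h4 := (hT p).2
        nlinarith
      have h5 : 0 ≤ βt / 16 * s := by positivity
      rw [mem_filter] at hp
      by_cases h6 : p ∈ G
      · rw [if_pos h6]
        have h7 : (0 : ℝ) ≤ (if p ∈ Φ then 2 * (s : ℝ) else 0) := by
          split_ifs <;> positivity
        linarith
      · by_cases h7 : p ∈ Φ
        · rw [if_neg h6, if_pos h7]
          linarith
        · rw [if_neg h6, if_neg h7]
          have h8 : ¬ (βt / 16 * s ≤ k * ((X ∩ Vt ∩ T p).card : ℝ)) := by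
            intro h9
            exact h7 (mem_filter.2 ⟨mem_univ _, hp.2, h6, h9⟩)
          linarith
    · have h5 : 0 ≤ βt / 16 * s := by positivity
      have h6 : (0 : ℝ) ≤ (if p ∈ G then 2 * (s : ℝ) else 0) := by
        split_ifs <;> positivity
      have h7 : (0 : ℝ) ≤ (if p ∈ Φ then 2 * (s : ℝ) else 0) := by
        split_ifs <;> positivity
      linarith
  rw [sum_add_distrib, sum_add_distrib, sum_ite_mem, sum_ite_mem, univ_inter, univ_inter,
    sum_const, sum_const, sum_const, nsmul_eq_mul, nsmul_eq_mul, nsmul_eq_mul, card_univ,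
    Fintype.card_fin, ← mul_sum] at e7
  have e8 := mul_le_mul_of_nonneg_left e6 hk0
  have e9 := mul_le_mul_of_nonneg_left hδ hk0
  have e10 : 64 * (δ * k) * n ≤ βt * n := mul_le_mul_of_nonneg_right hδk hn0
  have e11 : 64 * ε * n ≤ βt * n := mul_le_mul_of_nonneg_right hε hn0
  have e12 : 64 * τ * n ≤ βt * n := mul_le_mul_of_nonneg_right hτ hn0
  have e13 : βt / 16 * (kt * s) ≤ βt / 16 * n := mul_le_mul_of_nonneg_left e2 (by positivity)
  have e14 : 0 ≤ βt * n := by positivity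
  nlinarith

theorem bxr_half {n : ℕ} (U X V T : Finset (Fin n)) (_ : X ⊆ U) (h : T ∩ V ⊆ U) :
    ((X ∩ V ∩ T).card : ℝ) + (((U \ X) ∩ V ∩ T).card : ℝ) = (T ∩ V).card := by
  classical
  have h1 : (X ∩ V ∩ T).card + ((U \ X) ∩ V ∩ T).card = (T ∩ V).card := by
    rw [← card_union_of_disjoint]
    · congr 1
      ext v
      simp only [mem_union, mem_inter, mem_sdiff]
      constructor
      · rintro (h2 | h2)
        · exact ⟨h2.2, h2.1.2⟩
        · exact ⟨h2.2, h2.1.2⟩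
      · rintro ⟨h2, h3⟩
        by_cases h4 : v ∈ X
        · exact Or.inl ⟨⟨h4, h3⟩, h2⟩
        · exact Or.inr ⟨⟨⟨h (mem_inter.2 ⟨h2, h3⟩), h4⟩, h3⟩, h2⟩
    · rw [disjoint_left]
      intro v h2 h3
      simp only [mem_inter, mem_sdiff] at h2 h3
      exact h3.1.1.2 h2.1.1
  exact_mod_cast h1

/-- the majority -/
theorem bxr_maj {x x' z k s βt ε : ℝ} (h : x + x' = z) (hz : (1 - ε) * s ≤ k * z) (hs : 0 < s)
    (hk : 0 < k) (hβ1 : βt ≤ 1) (_ : 0 < βt) (hε : 64 * ε ≤ βt) :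
    (x' ≤ x → βt / 16 * s ≤ k * x) ∧ (x ≤ x' → βt / 16 * s ≤ k * x') := by
  have h1 : 2 * (βt / 16) * s ≤ (1 - ε) * s := mul_le_mul_of_nonneg_right (by linarith) hs.le
  rw [← h] at hz
  constructor
  · intro h2
    have h3 := mul_le_mul_of_nonneg_left h2 hk.le
    linarith
  · intro h2
    have h3 := mul_le_mul_of_nonneg_left h2 hk.le
    linarith

/-- bad pairs give arcs -/
theorem bxr_pair {n : ℕ} (S : Finset (Fin n × Fin n)) (A B : Finset (Fin n)) {κ d s k : ℝ}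
    (hd : 0 < d) (hk : 0 < k) (hκ : 0 ≤ κ * s) (hA : κ * s ≤ k * A.card) (hB : κ * s ≤ k * B.card)
    (h : d * A.card * B.card ≤ eb S A B) : d * (κ * s / k) ^ 2 ≤ eb S A B := by
  refine le_trans ?_ h
  have h1 : κ * s / k ≤ A.card := by
    rw [div_le_iff₀ hk]
    linarith
  have h2 : κ * s / k ≤ B.card := by
    rw [div_le_iff₀ hk]
    linarith
  have h3 : 0 ≤ κ * s / k := div_nonneg hκ hk.le
  have h4 : (κ * s / k) * (κ * s / k) ≤ A.card * B.card :=
    mul_le_mul h1 h2 h3 (h3.trans h1)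
  nlinarith

theorem tBxR : S_BxR := by
  classical
  intro n K kt kh s k S o i T H ct ch D β1 d τ θ ν ε δ βt a Vt Vh Uo Ui hC hown hn hs hk hRob hθ hν
    hd hβ0 hβ1 hod hid hT hH hVt hVh hUo1 hUo2 hUo3 hUi1 hUi2 hUi3 hε0 hε hτ hτ0 hτν hτθ hδ0 hδk
    hβ X Y hX hY hXY hXY'
  have hn0 : (0 : ℝ) < n := by exact_mod_cast hn
  have hs0 : (0 : ℝ) < s := by exact_mod_cast hs
  have hk0 : (0 : ℝ) < k := by exact_mod_cast hk
  have hTU : ∀ p, ct p = a → T p ∩ Vt ⊆ Uo := by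
    intro p hp v hv
    rw [mem_inter] at hv
    refine hUo1 (mem_inter.2 ⟨mem_filter.2 ⟨mem_univ _, ?_⟩, hv.2⟩)
    rw [hC.oT p v hv.1, hp]
  have hHU : ∀ q, ch q = a → H q ∩ Vh ⊆ Ui := by
    intro q hq v hv
    rw [mem_inter] at hv
    refine hUi1 (mem_inter.2 ⟨mem_filter.2 ⟨mem_univ _, ?_⟩, hv.2⟩)
    rw [hC.iH q v hv.1, hq]
  obtain ⟨x, hx⟩ : ∃ x : Fin kt → ℝ, ∀ p, x p = ((X ∩ Vt ∩ T p).card : ℝ) := ⟨_, fun _ => rfl⟩
  obtain ⟨x', hx'⟩ : ∃ x' : Fin kt → ℝ, ∀ p, x' p = (((Uo \ X) ∩ Vt ∩ T p).card : ℝ) :=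
    ⟨_, fun _ => rfl⟩
  obtain ⟨y, hy⟩ : ∃ y : Fin kh → ℝ, ∀ q, y q = ((Y ∩ Vh ∩ H q).card : ℝ) := ⟨_, fun _ => rfl⟩
  obtain ⟨y', hy'⟩ : ∃ y' : Fin kh → ℝ, ∀ q, y' q = (((Ui \ Y) ∩ Vh ∩ H q).card : ℝ) :=
    ⟨_, fun _ => rfl⟩
  have mT : ∀ p, ct p = a → (x' p ≤ x p → βt / 16 * s ≤ k * x p) ∧
      (x p ≤ x' p → βt / 16 * s ≤ k * x' p) := by
    intro p hp
    refine bxr_maj (z := ((T p ∩ Vt).card : ℝ)) ?_ (hT p).1 hs0 hk0 hβ1 hβ0 hε
    rw [hx, hx']
    exact bxr_half Uo X Vt (T p) hX (hTU p hp)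
  have mH : ∀ q, ch q = a → (y' q ≤ y q → βt / 16 * s ≤ k * y q) ∧
      (y q ≤ y' q → βt / 16 * s ≤ k * y' q) := by
    intro q hq
    refine bxr_maj (z := ((H q ∩ Vh).card : ℝ)) ?_ (hH q).1 hs0 hk0 hβ1 hβ0 hε
    rw [hy, hy']
    exact bxr_half Ui Y Vh (H q) hY (hHU q hq)
  set Bd : Finset (Fin kt × Fin kh) := D.filter (fun e => ct e.1 = a ∧
    ((βt / 16 * s ≤ k * x e.1 ∧ βt / 16 * s ≤ k * y e.2) ∨
      (βt / 16 * s ≤ k * x' e.1 ∧ βt / 16 * s ≤ k * y' e.2))) with hBd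
  have bT : ∀ p q, (p, q) ∈ D → ct p = a → βt / 16 * s ≤ k * x p → βt / 16 * s ≤ k * x' p →
      (p, q) ∈ Bd := by
    intro p q hpq hp h1 h2
    have hq : ch q = a := by
      rw [← hp]
      exact (hC.cls _ hpq).symm
    refine mem_filter.2 ⟨hpq, hp, ?_⟩
    rcases le_total (y' q) (y q) with h3 | h3
    · exact Or.inl ⟨h1, (mH q hq).1 h3⟩
    · exact Or.inr ⟨h2, (mH q hq).2 h3⟩
  have bH : ∀ p q, (p, q) ∈ D → ch q = a → βt / 16 * s ≤ k * y q → βt / 16 * s ≤ k * y' q →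
      (p, q) ∈ Bd := by
    intro p q hpq hq h1 h2
    have hp : ct p = a := by
      rw [← hq]
      exact hC.cls _ hpq
    refine mem_filter.2 ⟨hpq, hp, ?_⟩
    rcases le_total (x' p) (x p) with h3 | h3
    · exact Or.inl ⟨(mT p hp).1 h3, h1⟩
    · exact Or.inr ⟨(mT p hp).2 h3, h2⟩
  set GT : Finset (Fin kt) := univ.filter (fun p => ct p = a ∧ x' p ≤ x p) with hGT
  set GT' : Finset (Fin kt) := univ.filter (fun p => ct p = a ∧ x p < x' p) with hGT'
  set GH : Finset (Fin kh) := univ.filter (fun q => ch q = a ∧ y' q ≤ y q) with hGH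
  set GH' : Finset (Fin kh) := univ.filter (fun q => ch q = a ∧ y q < y' q) with hGH'
  have uTc : ∀ (p p' : Fin kt) (v : Fin n), v ∈ T p → v ∈ T p' → p = p' := by
    intro p p' v h1 h2
    by_contra h
    exact disjoint_left.1 (hC.dT p p' h) h1 h2
  have uHc : ∀ (q q' : Fin kh) (v : Fin n), v ∈ H q → v ∈ H q' → q = q' := by
    intro q q' v h1 h2
    by_contra h
    exact disjoint_left.1 (hC.dH q q' h) h1 h2
  have sXh : GT.biUnion T ⊆ Cl o a := by
    intro v hv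
    rw [mem_biUnion] at hv
    obtain ⟨p, hp, hv⟩ := hv
    refine mem_filter.2 ⟨mem_univ _, ?_⟩
    rw [hC.oT p v hv]
    exact (mem_filter.1 hp).2.1
  have sYh : GH.biUnion H ⊆ Cl i a := by
    intro v hv
    rw [mem_biUnion] at hv
    obtain ⟨q, hq, hv⟩ := hv
    refine mem_filter.2 ⟨mem_univ _, ?_⟩
    rw [hC.iH q v hv]
    exact (mem_filter.1 hq).2.1
  have sXh' : GT'.biUnion T ⊆ Cl o a \ GT.biUnion T := by
    intro v hv
    rw [mem_biUnion] at hv
    obtain ⟨p, hp, hv⟩ := hv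
    have hp2 := (mem_filter.1 hp).2
    refine mem_sdiff.2 ⟨mem_filter.2 ⟨mem_univ _, ?_⟩, fun h => ?_⟩
    · rw [hC.oT p v hv]
      exact hp2.1
    · rw [mem_biUnion] at h
      obtain ⟨p', hp', hv'⟩ := h
      have h2 := uTc p p' v hv hv'
      rw [← h2] at hp'
      exact absurd (mem_filter.1 hp').2.2 (not_le.2 hp2.2)
  have sYh' : GH'.biUnion H ⊆ Cl i a \ GH.biUnion H := by
    intro v hv
    rw [mem_biUnion] at hv
    obtain ⟨q, hq, hv⟩ := hv
    have hq2 := (mem_filter.1 hq).2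
    refine mem_sdiff.2 ⟨mem_filter.2 ⟨mem_univ _, ?_⟩, fun h => ?_⟩
    · rw [hC.iH q v hv]
      exact hq2.1
    · rw [mem_biUnion] at h
      obtain ⟨q', hq', hv'⟩ := h
      have h2 := uHc q q' v hv hv'
      rw [← h2] at hq'
      exact absurd (mem_filter.1 hq').2.2 (not_le.2 hq2.2)
  have cX : ((GT.biUnion T).card : ℝ) = (GT.card : ℝ) * s := by
    exact_mod_cast bxr_card T hC.sT hC.dT GT
  have cY : ((GH.biUnion H).card : ℝ) = (GH.card : ℝ) * s := by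
    exact_mod_cast bxr_card H hC.sH hC.dH GH
  have cX' : (GT'.card : ℝ) * s ≤ ((Cl o a \ GT.biUnion T).card : ℝ) := by
    have h1 := card_le_card sXh'
    rw [bxr_card T hC.sT hC.dT GT'] at h1
    exact_mod_cast h1
  have cY' : (GH'.card : ℝ) * s ≤ ((Cl i a \ GH.biUnion H).card : ℝ) := by
    have h1 := card_le_card sYh'
    rw [bxr_card H hC.sH hC.dH GH'] at h1
    exact_mod_cast h1
  have hn2 : (0 : ℝ) ≤ (n : ℝ) ^ 2 := by positivity
  -- the number of the bad pairs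
  have key : min (ν / 2) (θ * βt / 8) * (n : ℝ) ^ 2 ≤ (s : ℝ) ^ 2 * Bd.card := by
    have m1 : min (ν / 2) (θ * βt / 8) * (n : ℝ) ^ 2 ≤ ν / 2 * (n : ℝ) ^ 2 :=
      mul_le_mul_of_nonneg_right (min_le_left _ _) hn2
    have m2 : min (ν / 2) (θ * βt / 8) * (n : ℝ) ^ 2 ≤ θ * βt / 8 * (n : ℝ) ^ 2 :=
      mul_le_mul_of_nonneg_right (min_le_right _ _) hn2
    have two : ∀ u w : ℝ, βt * (2 * n / k) ≤ u + w → βt * n ≤ k * u ∨ βt * n ≤ k * w := by
      intro u w h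
      by_contra hcon
      push Not at hcon
      have h1 := mul_le_mul_of_nonneg_left h hk0.le
      have h2 : (k : ℝ) * (βt * (2 * n / k)) = 2 * (βt * n) := by
        field_simp
      rw [h2] at h1
      linarith
    by_cases hA : βt / 16 * n ≤ ((GT.biUnion T).card : ℝ) + (Cl i a \ GH.biUnion H).card
    · by_cases hA' : βt / 16 * n ≤ ((Cl o a \ GT.biUnion T).card : ℝ) + (GH.biUnion H).card
      · refine m1.trans ?_
        have h1 := hRob a (GT.biUnion T) (GH.biUnion H) sXh sYh hA hA'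
        set F1 := S.filter (fun e => e.1 ∈ GT.biUnion T ∧ e.2 ∈ GH.biUnion H) with hF1
        set F2 := S.filter (fun e => e.1 ∈ Cl o a \ GT.biUnion T ∧
          e.2 ∈ Cl i a \ GH.biUnion H) with hF2
        have h2 : Disjoint F1 F2 := by
          rw [disjoint_left]
          intro e h3 h4
          rw [hF1, mem_filter] at h3
          rw [hF2, mem_filter] at h4
          exact (mem_sdiff.1 h4.2.1).2 h3.2.1
        have h3 : ((F1 ∪ F2).card : ℝ) = (eb S (GT.biUnion T) (GH.biUnion H) : ℝ) +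
            eb S (Cl o a \ GT.biUnion T) (Cl i a \ GH.biUnion H) := by
          rw [card_union_of_disjoint h2, Nat.cast_add]
          rfl
        have h4 := bxr_out S (F1 ∪ F2) T H D Bd hC.sT hC.sH τ hC.rest
          (union_subset (filter_subset _ _) (filter_subset _ _)) (by
            intro e he p q hp hq hpq
            rw [mem_union] at he
            rcases he with he | he
            · rw [hF1, mem_filter, mem_biUnion, mem_biUnion] at he
              obtain ⟨-, ⟨p', hp', hep⟩, ⟨q', hq', heq⟩⟩ := he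
              have e1 := uTc p p' _ hp hep
              have e2 := uHc q q' _ hq heq
              rw [← e1] at hp'
              rw [← e2] at hq'
              have hp2 := (mem_filter.1 hp').2
              have hq2 := (mem_filter.1 hq').2
              exact mem_filter.2 ⟨hpq, hp2.1, Or.inl ⟨(mT p hp2.1).1 hp2.2,
                (mH q hq2.1).1 hq2.2⟩⟩
            · rw [hF2, mem_filter, mem_sdiff, mem_sdiff] at he
              obtain ⟨-, ⟨hep, hep'⟩, ⟨heq, heq'⟩⟩ := he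
              have hp1 : ct p = a := by
                rw [← hC.oT p _ hp]
                exact (mem_filter.1 hep).2
              have hq1 : ch q = a := by
                rw [← hC.iH q _ hq]
                exact (mem_filter.1 heq).2
              have hp2 : ¬ (x' p ≤ x p) := fun h => hep' (mem_biUnion.2
                ⟨p, mem_filter.2 ⟨mem_univ _, hp1, h⟩, hp⟩)
              have hq2 : ¬ (y' q ≤ y q) := fun h => heq' (mem_biUnion.2
                ⟨q, mem_filter.2 ⟨mem_univ _, hq1, h⟩, hq⟩)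
              exact mem_filter.2 ⟨hpq, hp1, Or.inr ⟨(mT p hp1).2 (not_le.1 hp2).le,
                (mH q hq1).2 (not_le.1 hq2).le⟩⟩)
        have h5 := bxr_o1 (F1 ∪ F2) T τ hC.uT
        have h6 := bxr_o2 (F1 ∪ F2) H τ hC.uH
        have h7 : 6 * τ * (n : ℝ) ^ 2 ≤ ν * (n : ℝ) ^ 2 := mul_le_mul_of_nonneg_right hτν hn2
        rw [h3] at h4
        linarith
      · push Not at hA'
        refine m2.trans ?_
        have g0 : (0 : ℝ) ≤ (GT'.card : ℝ) * s := by positivity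
        have g1 : (0 : ℝ) ≤ ((GH.biUnion H).card : ℝ) := Nat.cast_nonneg _
        rcases two _ _ hXY' with h1 | h1
        · have h2 := bxr_flex o T ct a Vt Uo (Uo \ X) GT' βt ε δ τ hC.sT hC.dT hC.oT hC.uT hT hVt
            hUo2 hUo3 sdiff_subset h1 (by linarith) hβ1 hβ0 hε0 hε hτ0 hτ hδk
          refine bxr_f1 S T H D Bd hC.sT hC.sH hC.dT τ θ βt hC.rest hC.uH hθ hod hτθ _ h2 ?_
          intro p hp q hpq
          obtain ⟨-, hp1, hp2, hp3⟩ := mem_filter.1 hp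
          have h3 : x' p ≤ x p := by
            by_contra h
            exact hp2 (mem_filter.2 ⟨mem_univ _, hp1, not_le.1 h⟩)
          rw [← hx'] at hp3
          exact bT p q hpq hp1 ((mT p hp1).1 h3) hp3
        · have h2 := bxr_flex i H ch a Vh Ui Y GH βt ε δ τ hC.sH hC.dH hC.iH hC.uH hH hVh
            hUi2 hUi3 hY h1 (by linarith) hβ1 hβ0 hε0 hε hτ0 hτ hδk
          refine bxr_f2 S T H D Bd hC.sT hC.sH hC.dH τ θ βt hC.rest hC.uT hθ hid hτθ _ h2 ?_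
          intro q hq p hpq
          obtain ⟨-, hq1, hq2, hq3⟩ := mem_filter.1 hq
          have h3 : y q ≤ y' q := by
            by_contra h
            exact hq2 (mem_filter.2 ⟨mem_univ _, hq1, (not_le.1 h).le⟩)
          rw [← hy] at hq3
          exact bH p q hpq hq1 hq3 ((mH q hq1).2 h3)
    · push Not at hA
      refine m2.trans ?_
      have g0 : (0 : ℝ) ≤ (GH'.card : ℝ) * s := by positivity
      have g1 : (0 : ℝ) ≤ ((GT.biUnion T).card : ℝ) := Nat.cast_nonneg _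
      rcases two _ _ hXY with h1 | h1
      · have h2 := bxr_flex o T ct a Vt Uo X GT βt ε δ τ hC.sT hC.dT hC.oT hC.uT hT hVt
          hUo2 hUo3 hX h1 (by linarith) hβ1 hβ0 hε0 hε hτ0 hτ hδk
        refine bxr_f1 S T H D Bd hC.sT hC.sH hC.dT τ θ βt hC.rest hC.uH hθ hod hτθ _ h2 ?_
        intro p hp q hpq
        obtain ⟨-, hp1, hp2, hp3⟩ := mem_filter.1 hp
        have h3 : x p ≤ x' p := by
          by_contra h
          exact hp2 (mem_filter.2 ⟨mem_univ _, hp1, (not_le.1 h).le⟩)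
        rw [← hx] at hp3
        exact bT p q hpq hp1 hp3 ((mT p hp1).2 h3)
      · have h2 := bxr_flex i H ch a Vh Ui (Ui \ Y) GH' βt ε δ τ hC.sH hC.dH hC.iH hC.uH hH hVh
          hUi2 hUi3 sdiff_subset h1 (by linarith) hβ1 hβ0 hε0 hε hτ0 hτ hδk
        refine bxr_f2 S T H D Bd hC.sT hC.sH hC.dH τ θ βt hC.rest hC.uT hθ hid hτθ _ h2 ?_
        intro q hq p hpq
        obtain ⟨-, hq1, hq2, hq3⟩ := mem_filter.1 hq
        have h3 : y' q ≤ y q := by
          by_contra h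
          exact hq2 (mem_filter.2 ⟨mem_univ _, hq1, not_le.1 h⟩)
        rw [← hy'] at hq3
        exact bH p q hpq hq1 ((mH q hq1).1 h3) hq3
  -- the arcs in the bad pairs
  have hκ0 : 0 ≤ βt / 16 * s := by positivity
  have hβs : β1 * s ≤ βt / 16 * s / k := by
    rw [le_div_iff₀ hk0]
    have h1 := mul_le_mul_of_nonneg_right hβ hs0.le
    linarith
  have harc : ∀ e ∈ Bd, d * (βt / 16 * s / k) ^ 2 ≤
      (eb S (X ∩ Vt ∩ T e.1) (Y ∩ Vh ∩ H e.2) : ℝ) +
        eb S ((Uo \ X) ∩ Vt ∩ T e.1) ((Ui \ Y) ∩ Vh ∩ H e.2) := by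
    intro e he
    obtain ⟨heD, -, h1⟩ := mem_filter.1 he
    have g0 : (0 : ℝ) ≤ (eb S (X ∩ Vt ∩ T e.1) (Y ∩ Vh ∩ H e.2) : ℝ) := Nat.cast_nonneg _
    have g1 : (0 : ℝ) ≤ (eb S ((Uo \ X) ∩ Vt ∩ T e.1) ((Ui \ Y) ∩ Vh ∩ H e.2) : ℝ) :=
      Nat.cast_nonneg _
    rcases h1 with ⟨h1, h2⟩ | ⟨h1, h2⟩
    · rw [hx] at h1
      rw [hy] at h2
      have h3 := bxr_pair S (X ∩ Vt ∩ T e.1) (Y ∩ Vh ∩ H e.2) hd hk0 hκ0 h1 h2
        (hC.den e heD _ _ inter_subset_right inter_subset_right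
          (hβs.trans (by rw [div_le_iff₀ hk0]; linarith))
          (hβs.trans (by rw [div_le_iff₀ hk0]; linarith)))
      linarith
    · rw [hx'] at h1
      rw [hy'] at h2
      have h3 := bxr_pair S ((Uo \ X) ∩ Vt ∩ T e.1) ((Ui \ Y) ∩ Vh ∩ H e.2) hd hk0 hκ0 h1 h2
        (hC.den e heD _ _ inter_subset_right inter_subset_right
          (hβs.trans (by rw [div_le_iff₀ hk0]; linarith))
          (hβs.trans (by rw [div_le_iff₀ hk0]; linarith)))
      linarith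
  have hsum := sum_le_sum harc
  rw [sum_const, nsmul_eq_mul, sum_add_distrib] at hsum
  have f1 : ∑ e ∈ Bd, (eb S (X ∩ Vt ∩ T e.1) (Y ∩ Vh ∩ H e.2) : ℝ) ≤ eb S (X ∩ Vt) (Y ∩ Vh) := by
    exact_mod_cast bxr_sum_le S T H hC.dT hC.dH (X ∩ Vt) (Y ∩ Vh) Bd
  have f2 : ∑ e ∈ Bd, (eb S ((Uo \ X) ∩ Vt ∩ T e.1) ((Ui \ Y) ∩ Vh ∩ H e.2) : ℝ) ≤
      eb S ((Uo \ X) ∩ Vt) ((Ui \ Y) ∩ Vh) := by
    exact_mod_cast bxr_sum_le S T H hC.dT hC.dH ((Uo \ X) ∩ Vt) ((Ui \ Y) ∩ Vh) Bd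
  refine le_trans ?_ (hsum.trans (add_le_add f1 f2))
  have e1 : (Bd.card : ℝ) * (d * (βt / 16 * s / k) ^ 2) =
      (d * (βt / 16) ^ 2 / (k : ℝ) ^ 2) * ((s : ℝ) ^ 2 * Bd.card) := by
    field_simp
  have e2 : d * (βt / 16) ^ 2 * min (ν / 2) (θ * βt / 8) / 4 * (2 * n / k) ^ 2 =
      (d * (βt / 16) ^ 2 / (k : ℝ) ^ 2) * (min (ν / 2) (θ * βt / 8) * (n : ℝ) ^ 2) := by
    field_simp
    ring
  rw [e1, e2]
  exact mul_le_mul_of_nonneg_left key (by positivity)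

end Pool.Agent.MPd266dbE
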