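import Pool.Agent.Lib.MP_d266db_co.E.SpecE

set_option autoImplicit false

namespace Pool.Agent.MPd266dbE

open Finset Pool.Agent.MPd266db Pool.Agent.MPd266dbH

/-- the next level -/
private def bxh_nx (e l : ℕ) : ℕ := if l = e then 0 else l + 1

private theorem bxh_wd_head {n e : ℕ} {lv : Fin n → ℕ} {v w : Fin n}
    (hw : lv w = bxh_nx e (tgp e lv v)) : Wd e lv v w := by
  have h1 := tgp_le e lv v
  unfold bxh_nx at hw
  refine ⟨?_, ?_⟩
  · unfold hgp
    rcases eq_or_ne (tgp e lv v) e with h | h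
    · rw [if_pos h] at hw
      rw [if_pos hw, h]
    · rw [if_neg h] at hw
      rw [if_neg (by omega), hw]
      rfl
  · rintro ⟨-, h2⟩
    rw [h2] at hw
    split_ifs at hw <;> omega

private theorem bxh_head {n e : ℕ} {lv : Fin n → ℕ} {w : Fin n} {l : ℕ}
    (h : l = hgp e lv w) (hw : lv w ≤ e + 1) :
    lv w = bxh_nx e l ∨ lv w = e + 1 := by
  unfold hgp at h
  unfold bxh_nx
  split_ifs at h ⊢ <;> omega

private theorem bxh_wd_tail {n e : ℕ} {lv : Fin n → ℕ} {v w : Fin n}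
    (hv : lv v ≤ e + 1) (hw : lv w = hgp e lv v) : Wd e lv w v := by
  have h1 := hgp_le (e := e) hv
  refine ⟨?_, ?_⟩
  · unfold tgp
    rw [hw]
    exact min_eq_left h1
  · rintro ⟨h2, -⟩
    omega

private theorem bxh_tail {n e : ℕ} {lv : Fin n → ℕ} {w : Fin n} {l : ℕ}
    (h : tgp e lv w = l) (hw : lv w ≤ e + 1) :
    lv w = l ∨ lv w = e + 1 := by
  unfold tgp at h
  omega

private theorem bxh_od {n e : ℕ} (lv : Fin n → ℕ) (S : Finset (Fin n × Fin n)) (v : Fin n) :
    od (wnd e lv S) v = ((Nout S v).filter (fun w => Wd e lv v w)).card := by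
  classical
  unfold od wnd Nout
  refine card_bij (fun q _ => q.2) ?_ ?_ ?_
  · rintro ⟨a, b⟩ h
    simp only [mem_filter, mem_univ, true_and] at h ⊢
    obtain ⟨⟨h1, h2⟩, rfl⟩ := h
    exact ⟨h1, h2⟩
  · rintro ⟨a, b⟩ h ⟨a', b'⟩ h' hb
    simp only [mem_filter] at h h'
    have hb' : b = b' := hb
    rw [Prod.mk.injEq]
    exact ⟨h.2.trans h'.2.symm, hb'⟩
  · intro w hw
    simp only [mem_filter, mem_univ, true_and] at hw
    exact ⟨(v, w), mem_filter.mpr ⟨mem_filter.mpr ⟨hw.1, hw.2⟩, rfl⟩, rfl⟩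

private theorem bxh_idg {n e : ℕ} (lv : Fin n → ℕ) (S : Finset (Fin n × Fin n)) (v : Fin n) :
    idg (wnd e lv S) v = ((Nin S v).filter (fun w => Wd e lv w v)).card := by
  classical
  unfold idg wnd Nin
  refine card_bij (fun q _ => q.1) ?_ ?_ ?_
  · rintro ⟨a, b⟩ h
    simp only [mem_filter, mem_univ, true_and] at h ⊢
    obtain ⟨⟨h1, h2⟩, rfl⟩ := h
    exact ⟨h1, h2⟩
  · rintro ⟨a, b⟩ h ⟨a', b'⟩ h' hb
    simp only [mem_filter] at h h'
    have hb' : a = a' := hb
    rw [Prod.mk.injEq]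
    exact ⟨hb', h.2.trans h'.2.symm⟩
  · intro w hw
    simp only [mem_filter, mem_univ, true_and] at hw
    exact ⟨(w, v), mem_filter.mpr ⟨mem_filter.mpr ⟨hw.1, hw.2⟩, rfl⟩, rfl⟩

private theorem bxh_Nout {n : ℕ} (S : Finset (Fin n × Fin n)) (v : Fin n) :
    (Nout S v).card = od S v := by
  classical
  unfold od Nout
  symm
  refine card_bij (fun q _ => q.2) ?_ ?_ ?_
  · rintro ⟨a, b⟩ h
    simp only [mem_filter, mem_univ, true_and] at h ⊢
    obtain ⟨h1, rfl⟩ := h
    exact h1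
  · rintro ⟨a, b⟩ h ⟨a', b'⟩ h' hb
    simp only [mem_filter] at h h'
    have hb' : b = b' := hb
    rw [Prod.mk.injEq]
    exact ⟨h.2.trans h'.2.symm, hb'⟩
  · intro w hw
    simp only [mem_filter, mem_univ, true_and] at hw
    exact ⟨(v, w), mem_filter.mpr ⟨hw, rfl⟩, rfl⟩

private theorem bxh_Nin {n : ℕ} (S : Finset (Fin n × Fin n)) (v : Fin n) :
    (Nin S v).card = idg S v := by
  classical
  unfold idg Nin
  symm
  refine card_bij (fun q _ => q.1) ?_ ?_ ?_
  · rintro ⟨a, b⟩ h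
    simp only [mem_filter, mem_univ, true_and] at h ⊢
    obtain ⟨h1, rfl⟩ := h
    exact h1
  · rintro ⟨a, b⟩ h ⟨a', b'⟩ h' hb
    simp only [mem_filter] at h h'
    have hb' : a = a' := hb
    rw [Prod.mk.injEq]
    exact ⟨hb', h.2.trans h'.2.symm⟩
  · intro w hw
    simp only [mem_filter, mem_univ, true_and] at hw
    exact ⟨(w, v), mem_filter.mpr ⟨hw, rfl⟩, rfl⟩

/-- the arithmetic of one degree -/
private theorem bxh_deg {n D d c k x ε δ θ g1 g r : ℝ} (hk : 0 < k) (hn : 0 ≤ n)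
    (h1 : c ≤ D) (h2 : D ≤ c + x) (hx : x ≤ δ * n) (h3 : (1 - ε) * d ≤ k * c)
    (h4 : k * c ≤ (1 + ε) * d) (hd : θ * n ≤ d) (hdn : d ≤ n) (hε : 0 < ε) (hε2 : 2 * ε ≤ 1)
    (hθ : 0 < θ) (hg : g1 + ε + k * δ ≤ 2 * g) :
    θ / 4 * (2 * n / k) ≤ D ∧ (|d - r| ≤ g1 * n → |D - r / k| ≤ g * (2 * n / k)) := by
  have hd0 : 0 ≤ d := le_trans (by positivity) hd
  constructor
  · have e : θ / 4 * (2 * n / k) = θ * n / 2 / k := by ring
    rw [e, div_le_iff₀ hk]
    nlinarith
  · intro h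
    have e : g * (2 * n / k) = 2 * g * n / k := by ring
    rw [e, le_div_iff₀ hk]
    have e2 : |D - r / k| * k = |k * D - r| := by
      have : k * D - r = (D - r / k) * k := by field_simp
      rw [this, abs_mul, abs_of_pos hk]
    rw [e2]
    obtain ⟨h5, h6⟩ := abs_le.mp h
    have h7 : ε * d ≤ ε * n := mul_le_mul_of_nonneg_left hdn hε.le
    have h8 : (g1 + ε + k * δ) * n ≤ 2 * g * n := mul_le_mul_of_nonneg_right hg hn
    have h9 : k * D ≤ k * c + k * (δ * n) := by nlinarith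
    have h10 : k * c ≤ k * D := mul_le_mul_of_nonneg_left h1 hk.le
    have h11 : 0 ≤ k * x := by
      have : 0 ≤ x := by linarith
      positivity
    have h12 : k * x ≤ k * (δ * n) := mul_le_mul_of_nonneg_left hx hk.le
    rw [abs_le]
    constructor <;> nlinarith

theorem tBxh : S_Bxh := by
  classical
  intro n K e r S o i lv θ ε δ g1 g βt νt he hown hn hθ hlv hexc hod hid hrl hrn hno hni hEu hEo hEi
    hε hε2 hδ hg1 hkδ hg hkg hrob
  have hk : (0 : ℝ) < (e : ℝ) + 1 := by positivity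
  have hn0 : (0 : ℝ) ≤ (n : ℝ) := Nat.cast_nonneg n
  have hnx : ∀ l ≤ e, bxh_nx e l ≤ e := by
    intro l hl
    unfold bxh_nx
    split_ifs <;> omega
  have hEv : ∀ {F : Finset (Fin n)}, Evn (e + 1) lv ε F → ∀ l ≤ e,
      (1 - ε) * F.card ≤ ((e : ℝ) + 1) * ((F.filter (fun v => lv v = l)).card : ℝ) ∧
      ((e : ℝ) + 1) * ((F.filter (fun v => lv v = l)).card : ℝ) ≤ (1 + ε) * F.card := by
    intro F hF l hl
    have := hF l (Nat.lt_succ_of_le hl)
    push_cast at this
    exact this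
  -- out-degrees
  have hout : ∀ v, θ / 4 * (2 * n / ((e : ℝ) + 1)) ≤ (od (wnd e lv S) v : ℝ) ∧
      (|(od S v : ℝ) - r| ≤ g1 * n →
        |(od (wnd e lv S) v : ℝ) - r / ((e : ℝ) + 1)| ≤ g * (2 * n / ((e : ℝ) + 1))) := by
    intro v
    set l := bxh_nx e (tgp e lv v) with hl
    have hle : l ≤ e := hnx _ (tgp_le e lv v)
    have hE := hEv (hEo v) l hle
    rw [bxh_Nout] at hE
    refine bxh_deg (c := (((Nout S v).filter (fun w => lv w = l)).card : ℝ))
      (x := ((univ.filter (fun v => lv v = e + 1)).card : ℝ)) hk hn0 ?_ ?_ hexc hE.1 hE.2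
      (hod v) ?_ hε hε2 hθ hg
    · rw [bxh_od]
      refine Nat.cast_le.mpr (card_le_card ?_)
      intro w hw
      rw [mem_filter] at hw ⊢
      exact ⟨hw.1, bxh_wd_head hw.2⟩
    · rw [bxh_od]
      have : (Nout S v).filter (fun w => Wd e lv v w) ⊆
          (Nout S v).filter (fun w => lv w = l) ∪ univ.filter (fun v => lv v = e + 1) := by
        intro w hw
        rw [mem_filter] at hw
        rw [mem_union, mem_filter, mem_filter]
        rcases bxh_head hw.2.1 (hlv w) with h | h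
        · exact Or.inl ⟨hw.1, h⟩
        · exact Or.inr ⟨mem_univ _, h⟩
      exact_mod_cast (card_le_card this).trans (card_union_le _ _)
    · rw [← bxh_Nout]
      have := card_le_univ (Nout S v)
      rw [Fintype.card_fin] at this
      exact_mod_cast this
  have hin : ∀ v, θ / 4 * (2 * n / ((e : ℝ) + 1)) ≤ (idg (wnd e lv S) v : ℝ) ∧
      (|(idg S v : ℝ) - r| ≤ g1 * n →
        |(idg (wnd e lv S) v : ℝ) - r / ((e : ℝ) + 1)| ≤ g * (2 * n / ((e : ℝ) + 1))) := by
    intro v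
    set l := hgp e lv v with hl
    have hle : l ≤ e := hgp_le (hlv v)
    have hE := hEv (hEi v) l hle
    rw [bxh_Nin] at hE
    refine bxh_deg (c := (((Nin S v).filter (fun w => lv w = l)).card : ℝ))
      (x := ((univ.filter (fun v => lv v = e + 1)).card : ℝ)) hk hn0 ?_ ?_ hexc hE.1 hE.2
      (hid v) ?_ hε hε2 hθ hg
    · rw [bxh_idg]
      refine Nat.cast_le.mpr (card_le_card ?_)
      intro w hw
      rw [mem_filter] at hw ⊢
      exact ⟨hw.1, bxh_wd_tail (hlv v) hw.2⟩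
    · rw [bxh_idg]
      have : (Nin S v).filter (fun w => Wd e lv w v) ⊆
          (Nin S v).filter (fun w => lv w = l) ∪ univ.filter (fun v => lv v = e + 1) := by
        intro w hw
        rw [mem_filter] at hw
        rw [mem_union, mem_filter, mem_filter]
        rcases bxh_tail hw.2.1 (hlv w) with h | h
        · exact Or.inl ⟨hw.1, h⟩
        · exact Or.inr ⟨mem_univ _, h⟩
      exact_mod_cast (card_le_card this).trans (card_union_le _ _)
    · rw [← bxh_Nin]
      have := card_le_univ (Nin S v)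
      rw [Fintype.card_fin] at this
      exact_mod_cast this
  have hcnt : g1 * (n : ℝ) ≤ g * (2 * n / ((e : ℝ) + 1)) := by
    have e1 : g * (2 * n / ((e : ℝ) + 1)) = 2 * g * n / ((e : ℝ) + 1) := by ring
    rw [e1, le_div_iff₀ hk]
    nlinarith
  -- sizes
  have hsz : ∀ (F : Finset (Fin n)) (l : ℕ), l ≤ e → (∀ v ∈ F, lv v = l ∨ lv v = e + 1) →
      (F.card : ℝ) ≤ 2 * n / ((e : ℝ) + 1) := by
    intro F l hl hF
    have h1 : F ⊆ univ.filter (fun v => lv v = l) ∪ univ.filter (fun v => lv v = e + 1) := by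
      intro v hv
      rw [mem_union, mem_filter, mem_filter]
      rcases hF v hv with h | h
      · exact Or.inl ⟨mem_univ _, h⟩
      · exact Or.inr ⟨mem_univ _, h⟩
    have h2 : (F.card : ℝ) ≤ ((univ.filter (fun v => lv v = l)).card : ℝ) +
        ((univ.filter (fun v => lv v = e + 1)).card : ℝ) := by
      exact_mod_cast (card_le_card h1).trans (card_union_le _ _)
    have h3 := (hEv hEu l hl).2
    rw [card_univ, Fintype.card_fin] at h3
    rw [le_div_iff₀ hk]
    have h4 : ((e : ℝ) + 1) * ((univ.filter (fun v => lv v = e + 1)).card : ℝ) ≤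
        ((e : ℝ) + 1) * (δ * n) := mul_le_mul_of_nonneg_left hexc hk.le
    have h5 : ((e : ℝ) + 1) * (F.card : ℝ) ≤ ((e : ℝ) + 1) *
        (((univ.filter (fun v => lv v = l)).card : ℝ) +
        ((univ.filter (fun v => lv v = e + 1)).card : ℝ)) := mul_le_mul_of_nonneg_left h2 hk.le
    nlinarith
  -- the boxes
  have hClo : ∀ (l : Fin (e + 1)) (a : Fin K), Cl (bxo e lv o) (finProdFinEquiv (l, a)) =
      univ.filter (fun v => tgp e lv v = l ∧ o v = a) := by
    intro l a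
    unfold Cl bxo
    ext v
    rw [mem_filter, mem_filter, finProdFinEquiv.apply_eq_iff_eq, Prod.mk.injEq, Fin.ext_iff]
    have h1 : ((Fin.ofNat (e + 1) (tgp e lv v) : Fin (e + 1)) : ℕ) = tgp e lv v :=
      Nat.mod_eq_of_lt (Nat.lt_succ_of_le (tgp_le e lv v))
    rw [h1]
  have hCli : ∀ (l : Fin (e + 1)) (a : Fin K), Cl (bxi e lv i) (finProdFinEquiv (l, a)) =
      univ.filter (fun v => hgp e lv v = l ∧ i v = a) := by
    intro l a
    unfold Cl bxi
    ext v
    rw [mem_filter, mem_filter, finProdFinEquiv.apply_eq_iff_eq, Prod.mk.injEq, Fin.ext_iff]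
    have h1 : ((Fin.ofNat (e + 1) (hgp e lv v) : Fin (e + 1)) : ℕ) = hgp e lv v :=
      Nat.mod_eq_of_lt (Nat.lt_succ_of_le (hgp_le (hlv v)))
    rw [h1]
  have heb : ∀ (l : ℕ) (X Y : Finset (Fin n)), l ≤ e →
      eb S (X.filter (fun v => lv v = l)) (Y.filter (fun v => lv v = if l = e then 0 else l + 1)) ≤
        eb (wnd e lv S) X Y := by
    intro l X Y hl
    unfold eb wnd
    refine card_le_card ?_
    intro q hq
    simp only [mem_filter] at hq ⊢
    obtain ⟨hqS, ⟨hX, h1⟩, hY, h2⟩ := hq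
    refine ⟨⟨hqS, bxh_wd_head ?_⟩, hX, hY⟩
    have ht : tgp e lv q.1 = l := by
      unfold tgp
      rw [h1]
      exact min_eq_left hl
    rw [ht, h2]
    rfl
  refine ⟨?_, fun v => (hout v).1, fun v => (hin v).1, ?_, ?_, ?_, ?_, ?_, ?_, ?_⟩
  · intro q hq
    unfold wnd at hq
    rw [mem_filter] at hq
    exact (bxo_eq_bxi (hlv q.2)).mpr ⟨hq.2.1, hown q hq.1⟩
  · refine le_trans ?_ (hno.trans hcnt)
    refine Nat.cast_le.mpr (card_le_card ?_)
    intro v hv
    rw [mem_filter] at hv ⊢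
    refine ⟨mem_univ _, ?_⟩
    by_contra hcon
    exact absurd ((hout v).2 (not_lt.mp hcon)) (not_le.mpr hv.2)
  · refine le_trans ?_ (hni.trans hcnt)
    refine Nat.cast_le.mpr (card_le_card ?_)
    intro v hv
    rw [mem_filter] at hv ⊢
    refine ⟨mem_univ _, ?_⟩
    by_contra hcon
    exact absurd ((hin v).2 (not_lt.mp hcon)) (not_le.mpr hv.2)
  · have e1 : θ / 4 * (2 * n / ((e : ℝ) + 1)) = θ * n / 2 / ((e : ℝ) + 1) := by ring
    rw [e1]
    refine div_le_div_of_nonneg_right ?_ hk.le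
    have : 0 ≤ θ * (n : ℝ) := by positivity
    linarith
  · refine div_le_div_of_nonneg_right ?_ hk.le
    have : (r : ℝ) ≤ n := by exact_mod_cast hrn
    linarith
  · intro a
    obtain ⟨⟨l, c⟩, rfl⟩ := finProdFinEquiv.surjective a
    rw [hClo]
    refine hsz _ (l : ℕ) (Nat.le_of_lt_succ l.2) ?_
    intro v hv
    rw [mem_filter] at hv
    exact bxh_tail hv.2.1 (hlv v)
  · intro a
    obtain ⟨⟨l, c⟩, rfl⟩ := finProdFinEquiv.surjective a
    rw [hCli]
    have hle := Nat.le_of_lt_succ l.2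
    refine hsz _ (bxh_nx e (l : ℕ)) (hnx _ hle) ?_
    intro v hv
    rw [mem_filter] at hv
    exact bxh_head hv.2.1.symm (hlv v)
  · intro a X Y hX hY h1 h2
    obtain ⟨⟨l, c⟩, rfl⟩ := finProdFinEquiv.surjective a
    have hle := Nat.le_of_lt_succ l.2
    rw [hClo] at hX h2 ⊢
    rw [hCli] at hY h1 ⊢
    have h3 := hrob (l : ℕ) hle c X Y hX hY h1 h2
    refine h3.trans ?_
    exact add_le_add (Nat.cast_le.mpr (heb l X Y hle)) (Nat.cast_le.mpr (heb l _ _ hle))

end Pool.Agent.MPd266dbE
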