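import Pool.Agent.Lib.MP_d266db_co.E.SpecC

/-!
# MP_d266db_co, E/Cmp: a permutation which contains given tiles
-/

set_option autoImplicit false

namespace Pool.Agent.MPd266dbE

open Finset Pool.Agent.MPd266db Pool.Agent.MPd266dbH

section

variable {n K : ℕ} {S : Finset (Fin n × Fin n)} {o : Fin n → Fin K} {J : Finset (Fin K)}
  {Q : Finset (Fin n × Fin n × Fin n × Fin n)}

/-- `v → y` is an arc of a tile -/
private def cmp_Tr (Q : Finset (Fin n × Fin n × Fin n × Fin n)) (v y : Fin n) : Prop :=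
  ∃ q ∈ Q, (q.1 = v ∧ q.2.2.1 = y) ∨ (q.2.1 = v ∧ q.2.2.2 = y)

private theorem cmp_fun (h : TS S o J Q) {v y y' : Fin n} (h1 : cmp_Tr Q v y)
    (h2 : cmp_Tr Q v y') : y = y' := by
  obtain ⟨q, hq, h3⟩ := h1
  obtain ⟨q', hq', h4⟩ := h2
  by_cases hqq : q = q'
  · subst hqq
    rcases h3 with ⟨a1, a2⟩ | ⟨a1, a2⟩ <;> rcases h4 with ⟨b1, b2⟩ | ⟨b1, b2⟩
    · exact a2.symm.trans b2
    · exact absurd (a1.trans b1.symm) (h.ne q hq).1
    · exact absurd (b1.trans a1.symm) (h.ne q hq).1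
    · exact a2.symm.trans b2
  · obtain ⟨d1, d2, d3, d4⟩ := h.dt q hq q' hq' hqq
    rcases h3 with ⟨a1, a2⟩ | ⟨a1, a2⟩ <;> rcases h4 with ⟨b1, b2⟩ | ⟨b1, b2⟩
    · exact absurd (a1.trans b1.symm) d1
    · exact absurd (a1.trans b1.symm) d2
    · exact absurd (a1.trans b1.symm) d3
    · exact absurd (a1.trans b1.symm) d4

private theorem cmp_inj (h : TS S o J Q) {v v' y : Fin n} (h1 : cmp_Tr Q v y)
    (h2 : cmp_Tr Q v' y) : v = v' := by
  obtain ⟨q, hq, h3⟩ := h1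
  obtain ⟨q', hq', h4⟩ := h2
  by_cases hqq : q = q'
  · subst hqq
    rcases h3 with ⟨a1, a2⟩ | ⟨a1, a2⟩ <;> rcases h4 with ⟨b1, b2⟩ | ⟨b1, b2⟩
    · exact a1.symm.trans b1
    · exact absurd (a2.trans b2.symm) (h.ne q hq).2
    · exact absurd (b2.trans a2.symm) (h.ne q hq).2
    · exact a1.symm.trans b1
  · obtain ⟨d1, d2, d3, d4⟩ := h.dh q hq q' hq' hqq
    rcases h3 with ⟨a1, a2⟩ | ⟨a1, a2⟩ <;> rcases h4 with ⟨b1, b2⟩ | ⟨b1, b2⟩
    · exact absurd (a2.trans b2.symm) d1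
    · exact absurd (a2.trans b2.symm) d2
    · exact absurd (a2.trans b2.symm) d3
    · exact absurd (a2.trans b2.symm) d4

private theorem cmp_arc (h : TS S o J Q) {v y : Fin n} (h1 : cmp_Tr Q v y) :
    o v ∈ J ∧ (v, y) ∈ S := by
  obtain ⟨q, hq, ⟨rfl, rfl⟩ | ⟨rfl, rfl⟩⟩ := h1
  · exact ⟨(h.cls q hq).2, (h.arc q hq).1⟩
  · exact ⟨(h.cls q hq).1 ▸ (h.cls q hq).2, (h.arc q hq).2.1⟩

/-- the tails of the tiles in the class `a` -/
private def cmp_T (o : Fin n → Fin K) (Q : Finset (Fin n × Fin n × Fin n × Fin n)) (a : Fin K) :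
    Finset (Fin n) :=
  (Q.filter (fun q => o q.1 = a)).image (fun q => q.1) ∪
    (Q.filter (fun q => o q.1 = a)).image (fun q => q.2.1)

/-- their heads -/
private def cmp_H (o : Fin n → Fin K) (Q : Finset (Fin n × Fin n × Fin n × Fin n)) (a : Fin K) :
    Finset (Fin n) :=
  (Q.filter (fun q => o q.1 = a)).image (fun q => q.2.2.1) ∪
    (Q.filter (fun q => o q.1 = a)).image (fun q => q.2.2.2)

private theorem cmp_cT (h : TS S o J Q) (a : Fin K) :
    (cmp_T o Q a).card = 2 * (Q.filter (fun q => o q.1 = a)).card := by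
  unfold cmp_T
  rw [card_union_of_disjoint, card_image_of_injOn, card_image_of_injOn]
  · omega
  · intro q hq q' hq' h1
    by_contra h2
    exact (h.dt q (mem_filter.1 (mem_coe.1 hq)).1 q' (mem_filter.1 (mem_coe.1 hq')).1 h2).2.2.2 h1
  · intro q hq q' hq' h1
    by_contra h2
    exact (h.dt q (mem_filter.1 (mem_coe.1 hq)).1 q' (mem_filter.1 (mem_coe.1 hq')).1 h2).1 h1
  · rw [disjoint_left]
    intro x hx hx'
    rw [mem_image] at hx hx'
    obtain ⟨q, hq, rfl⟩ := hx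
    obtain ⟨q', hq', h1⟩ := hx'
    by_cases h2 : q = q'
    · subst h2
      exact (h.ne q (mem_filter.1 hq).1).1 h1.symm
    · exact (h.dt q (mem_filter.1 hq).1 q' (mem_filter.1 hq').1 h2).2.1 h1.symm

private theorem cmp_cH (h : TS S o J Q) (a : Fin K) :
    (cmp_H o Q a).card = 2 * (Q.filter (fun q => o q.1 = a)).card := by
  unfold cmp_H
  rw [card_union_of_disjoint, card_image_of_injOn, card_image_of_injOn]
  · omega
  · intro q hq q' hq' h1
    by_contra h2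
    exact (h.dh q (mem_filter.1 (mem_coe.1 hq)).1 q' (mem_filter.1 (mem_coe.1 hq')).1 h2).2.2.2 h1
  · intro q hq q' hq' h1
    by_contra h2
    exact (h.dh q (mem_filter.1 (mem_coe.1 hq)).1 q' (mem_filter.1 (mem_coe.1 hq')).1 h2).1 h1
  · rw [disjoint_left]
    intro x hx hx'
    rw [mem_image] at hx hx'
    obtain ⟨q, hq, rfl⟩ := hx
    obtain ⟨q', hq', h1⟩ := hx'
    by_cases h2 : q = q'
    · subst h2
      exact (h.ne q (mem_filter.1 hq).1).2 h1.symm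
    · exact (h.dh q (mem_filter.1 hq).1 q' (mem_filter.1 hq').1 h2).2.1 h1.symm

/-- the tails of the class `a` are the vertices of the class `a` with a tile arc -/
private theorem cmp_mT (h : TS S o J Q) {a : Fin K} {v : Fin n} (hv : o v = a) :
    v ∈ cmp_T o Q a ↔ ∃ y, cmp_Tr Q v y := by
  simp only [cmp_T, mem_union, mem_image, mem_filter]
  constructor
  · rintro (⟨q, ⟨hq, -⟩, rfl⟩ | ⟨q, ⟨hq, -⟩, rfl⟩)
    · exact ⟨_, q, hq, Or.inl ⟨rfl, rfl⟩⟩
    · exact ⟨_, q, hq, Or.inr ⟨rfl, rfl⟩⟩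
  · rintro ⟨y, q, hq, ⟨rfl, -⟩ | ⟨rfl, -⟩⟩
    · exact Or.inl ⟨q, ⟨hq, hv⟩, rfl⟩
    · exact Or.inr ⟨q, ⟨hq, (h.cls q hq).1.trans hv⟩, rfl⟩

/-- heads of tile arcs from the class `a` -/
private theorem cmp_mH (h : TS S o J Q) {a : Fin K} {v y : Fin n} (hv : o v = a)
    (h1 : cmp_Tr Q v y) : y ∈ cmp_H o Q a := by
  simp only [cmp_H, mem_union, mem_image, mem_filter]
  obtain ⟨q, hq, ⟨rfl, rfl⟩ | ⟨rfl, rfl⟩⟩ := h1
  · exact Or.inl ⟨q, ⟨hq, hv⟩, rfl⟩
  · exact Or.inr ⟨q, ⟨hq, (h.cls q hq).1.trans hv⟩, rfl⟩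

end

theorem tCmp (hHBN : S_HBN) : S_Cmp := by
  classical
  intro n K S o i N θ ρ g β ν c J Q σ hB hN hθ hc hcθ hβ hcg hQ hQc hJ hσ
  have mClU : ∀ {o : Fin n → Fin K} {v : Fin n}, v ∈ ClU o J ↔ o v ∈ J := fun {o v} => by
    simp only [ClU, mem_filter, mem_univ, true_and]
  have mCl : ∀ {o : Fin n → Fin K} {a : Fin K} {v : Fin n}, v ∈ Cl o a ↔ o v = a := fun {o a v} => by
    simp only [Cl, mem_filter, mem_univ, true_and]
  have own : ∀ u v, (u, v) ∈ S → o u = i v := fun u v h => hB.own (u, v) h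
  -- the rest of a class
  have key : ∀ a ∈ J, ∃ φ : Fin n → Fin n, (∀ v ∈ Cl o a \ cmp_T o Q a, φ v ∈ Cl i a \ cmp_H o Q a ∧
      (v, φ v) ∈ S) ∧ Set.InjOn φ ↑(Cl o a \ cmp_T o Q a) := by
    intro a ha
    have hT : cmp_T o Q a ⊆ Cl o a := by
      intro v hv
      rw [mCl]
      simp only [cmp_T, mem_union, mem_image, mem_filter] at hv
      rcases hv with ⟨q, ⟨hq, h1⟩, rfl⟩ | ⟨q, ⟨hq, h1⟩, rfl⟩
      · exact h1
      · exact (hQ.cls q hq).1.symm.trans h1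
    have hH : cmp_H o Q a ⊆ Cl i a := by
      intro v hv
      rw [mCl]
      simp only [cmp_H, mem_union, mem_image, mem_filter] at hv
      rcases hv with ⟨q, ⟨hq, h1⟩, rfl⟩ | ⟨q, ⟨hq, h1⟩, rfl⟩
      · exact (own _ _ (hQ.arc q hq).1).symm.trans h1
      · exact (own _ _ (hQ.arc q hq).2.1).symm.trans ((hQ.cls q hq).1.symm.trans h1)
    have hcard : ((2 * (Q.filter (fun q => o q.1 = a)).card : ℕ) : ℝ) ≤ c * N := by
      have h1 : (Q.filter (fun q => o q.1 = a)).card ≤ Q.card := card_filter_le _ _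
      have h2 : ((Q.filter (fun q => o q.1 = a)).card : ℝ) ≤ Q.card := by exact_mod_cast h1
      push_cast
      linarith
    refine hHBN n K S o i N θ ρ g β ν c a _ _ hB hN hθ hc hcθ hβ hcg hT hH ?_ ?_ ?_
    · rw [cmp_cT hQ]
      exact hcard
    · rw [cmp_cH hQ]
      exact hcard
    · rw [card_sdiff_of_subset hT, card_sdiff_of_subset hH, cmp_cT hQ, cmp_cH hQ, hJ a ha]
  have _ : Nonempty (Fin n → Fin n) := ⟨id⟩
  choose! φ hφ using key
  -- outside
  have out : ∀ v, v ∉ ClU o J → i (σ v) ∉ J := by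
    intro v hv hv'
    have h1 : (Cl o (i (σ v))).image σ = Cl i (i (σ v)) := by
      apply eq_of_subset_of_card_le
      · intro w hw
        rw [mem_image] at hw
        obtain ⟨u, hu, rfl⟩ := hw
        rw [mCl] at hu ⊢
        rw [← hσ u (mClU.2 (hu ▸ hv')), hu]
      · rw [card_image_of_injective _ σ.injective, hJ _ hv']
    have h2 : σ v ∈ (Cl o (i (σ v))).image σ := by
      rw [h1, mCl]
    rw [mem_image] at h2
    obtain ⟨u, hu, h3⟩ := h2
    rw [σ.injective h3, mCl] at hu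
    exact hv (mClU.2 (hu ▸ hv'))
  let f : Fin n → Fin n := fun v => if v ∉ ClU o J then σ v else if h : ∃ y, cmp_Tr Q v y then h.choose
    else φ (o v) v
  have f1 : ∀ v, v ∉ ClU o J → f v = σ v := fun v hv => if_pos hv
  have f2 : ∀ v y, cmp_Tr Q v y → f v = y := by
    intro v y h
    have hex : ∃ y, cmp_Tr Q v y := ⟨y, h⟩
    show (if v ∉ ClU o J then σ v else if h : ∃ y, cmp_Tr Q v y then h.choose else φ (o v) v) = y
    rw [if_neg (not_not.2 (mClU.2 (cmp_arc hQ h).1)), dif_pos hex]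
    exact cmp_fun hQ hex.choose_spec h
  have f3 : ∀ v ∈ ClU o J, (¬ ∃ y, cmp_Tr Q v y) → f v = φ (o v) v := by
    intro v hv h
    show (if v ∉ ClU o J then σ v else if h : ∃ y, cmp_Tr Q v y then h.choose else φ (o v) v) = _
    rw [if_neg (not_not.2 hv), dif_neg h]
  have f4 : ∀ v ∈ ClU o J, (¬ ∃ y, cmp_Tr Q v y) → v ∈ Cl o (o v) \ cmp_T o Q (o v) := by
    intro v hv h
    rw [mem_sdiff, mCl]
    exact ⟨rfl, fun h1 => h ((cmp_mT hQ rfl).1 h1)⟩
  have f5 : ∀ v ∈ ClU o J, (v, f v) ∈ S := by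
    intro v hv
    by_cases h : ∃ y, cmp_Tr Q v y
    · obtain ⟨y, hy⟩ := h
      rw [f2 v y hy]
      exact (cmp_arc hQ hy).2
    · rw [f3 v hv h]
      exact ((hφ (o v) (mClU.1 hv)).1 v (f4 v hv h)).2
  have f6 : ∀ v ∈ ClU o J, i (f v) = o v := fun v hv => (own _ _ (f5 v hv)).symm
  have hinj : Function.Injective f := by
    intro v v' hvv
    by_cases h1 : v ∈ ClU o J <;> by_cases h2 : v' ∈ ClU o J
    · have h3 : o v = o v' := by rw [← f6 v h1, ← f6 v' h2, hvv]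
      by_cases h4 : ∃ y, cmp_Tr Q v y <;> by_cases h5 : ∃ y, cmp_Tr Q v' y
      · obtain ⟨y, hy⟩ := h4
        obtain ⟨y', hy'⟩ := h5
        rw [f2 v y hy, f2 v' y' hy'] at hvv
        subst hvv
        exact cmp_inj hQ hy hy'
      · obtain ⟨y, hy⟩ := h4
        exfalso
        rw [f2 v y hy, f3 v' h2 h5] at hvv
        have h6 := ((hφ (o v') (mClU.1 h2)).1 v' (f4 v' h2 h5)).1
        rw [← hvv] at h6
        exact (mem_sdiff.1 h6).2 (cmp_mH hQ h3 hy)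
      · obtain ⟨y, hy⟩ := h5
        exfalso
        rw [f2 v' y hy, f3 v h1 h4] at hvv
        have h6 := ((hφ (o v) (mClU.1 h1)).1 v (f4 v h1 h4)).1
        rw [hvv] at h6
        exact (mem_sdiff.1 h6).2 (cmp_mH hQ h3.symm hy)
      · rw [f3 v h1 h4, f3 v' h2 h5, ← h3] at hvv
        refine (hφ (o v) (mClU.1 h1)).2 (mem_coe.2 (f4 v h1 h4)) ?_ hvv
        have h6 := f4 v' h2 h5
        rw [← h3] at h6
        exact mem_coe.2 h6
    · exfalso
      have h3 := f6 v h1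
      rw [hvv, f1 v' h2] at h3
      exact out v' h2 (h3 ▸ mClU.1 h1)
    · exfalso
      have h3 := f6 v' h2
      rw [← hvv, f1 v h1] at h3
      exact out v h1 (h3 ▸ mClU.1 h2)
    · rw [f1 v h1, f1 v' h2] at hvv
      exact σ.injective hvv
  refine ⟨Equiv.ofBijective f (Finite.injective_iff_bijective.1 hinj), f1, f5, fun q hq => ⟨?_, ?_⟩⟩
  · exact f2 _ _ ⟨q, hq, Or.inl ⟨rfl, rfl⟩⟩
  · exact f2 _ _ ⟨q, hq, Or.inr ⟨rfl, rfl⟩⟩

end Pool.Agent.MPd266dbE
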