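import Pool.Agent.Lib.MP_d266db_co.E.SpecD

/-!
# MP_d266db_co, E: short paths in a regular digraph
-/

set_option autoImplicit false

namespace Pool.Agent.MPd266dbE

open Finset Pool.Agent.MPd266db Pool.Agent.MPd266dbH

theorem cnq_od {n : ℕ} (S Z : Finset (Fin n × Fin n)) (v : Fin n) :
    od S v ≤ od (S \ Z) v + od Z v := by
  classical
  unfold od
  rw [← card_union_of_disjoint]
  · apply card_le_card
    intro a ha
    rw [mem_filter] at ha
    rw [mem_union, mem_filter, mem_filter, mem_sdiff]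
    by_cases h : a ∈ Z
    · exact Or.inr ⟨h, ha.2⟩
    · exact Or.inl ⟨⟨ha.1, h⟩, ha.2⟩
  · rw [Finset.disjoint_left]
    intro a ha hb
    rw [mem_filter, mem_sdiff] at ha
    rw [mem_filter] at hb
    exact ha.1.2 hb.1

theorem cnq_idg {n : ℕ} (S Z : Finset (Fin n × Fin n)) (v : Fin n) :
    idg S v ≤ idg (S \ Z) v + idg Z v := by
  classical
  unfold idg
  rw [← card_union_of_disjoint]
  · apply card_le_card
    intro a ha
    rw [mem_filter] at ha
    rw [mem_union, mem_filter, mem_filter, mem_sdiff]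
    by_cases h : a ∈ Z
    · exact Or.inr ⟨h, ha.2⟩
    · exact Or.inl ⟨⟨ha.1, h⟩, ha.2⟩
  · rw [Finset.disjoint_left]
    intro a ha hb
    rw [mem_filter, mem_sdiff] at ha
    rw [mem_filter] at hb
    exact ha.1.2 hb.1

/-- a set with out-degrees at most `z` has at most `z n` elements -/
theorem cnq_card {n z : ℕ} {Z : Finset (Fin n × Fin n)} (h : Dg Z z) : Z.card ≤ z * n := by
  classical
  have h1 : Z.card = ∑ v : Fin n, od Z v := by
    unfold od
    exact card_eq_sum_card_fiberwise (fun e _ => mem_univ e.1)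
  rw [h1]
  calc ∑ v : Fin n, od Z v ≤ ∑ _v : Fin n, z := sum_le_sum (fun v _ => (h v).1)
    _ = z * n := by simp [mul_comm]

theorem tCnQ (hCon : S_Con) : S_CnQ := by
  intro η θ hη hθ hθ1
  obtain ⟨ζ0, ℓ, hζ0, hℓ, h⟩ := hCon η (θ / 2) hη (by linarith) (by linarith)
  refine ⟨min (ζ0 / 2) (θ / 2), ℓ, lt_min (by linarith) (by linarith), hℓ, ?_⟩
  intro n K z b R o i hc hz hb h2 hod hid hcut Z hZ
  have hn0 : (0 : ℝ) ≤ n := Nat.cast_nonneg n
  have hz1 : (z : ℝ) ≤ θ / 2 * n := hz.trans (mul_le_mul_of_nonneg_right (min_le_right _ _) hn0)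
  have hz2 : (z : ℝ) ≤ ζ0 / 2 * n := hz.trans (mul_le_mul_of_nonneg_right (min_le_left _ _) hn0)
  have hb' : (b : ℝ) ≤ ζ0 / 2 * n := hb.trans (mul_le_mul_of_nonneg_right (min_le_left _ _) hn0)
  have h2' : 2 ≤ ζ0 / 2 * n := h2.trans (mul_le_mul_of_nonneg_right (min_le_left _ _) hn0)
  have hc' : ((crs o i R).card : ℝ) ≤ ζ0 / 2 * (n : ℝ) ^ 2 :=
    hc.trans (mul_le_mul_of_nonneg_right (min_le_left _ _) (by positivity))
  have hζn : 0 ≤ ζ0 / 2 * n := by positivity
  refine h n b R (own o i R \ Z) ?_ ?_ (by linarith) (by linarith) (fun v => ?_) (fun v => ?_) hcut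
  · intro e he
    have h1 := (mem_sdiff.mp he).1
    unfold own at h1
    exact (mem_filter.mp h1).1
  · have h1 : R \ (own o i R \ Z) ⊆ crs o i R ∪ Z := by
      intro e he
      rw [mem_sdiff, mem_sdiff, not_and, not_not] at he
      rw [mem_union]
      by_cases h3 : o e.1 = i e.2
      · right
        apply he.2
        unfold own
        exact mem_filter.mpr ⟨he.1, h3⟩
      · left
        unfold crs
        exact mem_filter.mpr ⟨he.1, h3⟩
    have h4 : (R \ (own o i R \ Z)).card ≤ (crs o i R).card + z * n :=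
      (card_le_card h1).trans ((card_union_le _ _).trans (Nat.add_le_add_left (cnq_card hZ) _))
    have h5 : ((R \ (own o i R \ Z)).card : ℝ) ≤ (crs o i R).card + z * n := by exact_mod_cast h4
    have h6 : (z : ℝ) * n ≤ ζ0 / 2 * n * n := mul_le_mul_of_nonneg_right hz2 hn0
    nlinarith
  · have h1 := cnq_od (own o i R) Z v
    have h2 : ((od (own o i R) v : ℕ) : ℝ) ≤ od (own o i R \ Z) v + od Z v := by exact_mod_cast h1
    have h3 : ((od Z v : ℕ) : ℝ) ≤ z := by exact_mod_cast (hZ v).1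
    have h4 := hod v
    linarith
  · have h1 := cnq_idg (own o i R) Z v
    have h2 : ((idg (own o i R) v : ℕ) : ℝ) ≤ idg (own o i R \ Z) v + idg Z v := by
      exact_mod_cast h1
    have h3 : ((idg Z v : ℕ) : ℝ) ≤ z := by exact_mod_cast (hZ v).2
    have h4 := hid v
    linarith

end Pool.Agent.MPd266dbE
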