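import Pool.Agent.Lib.MP_d266db_co.E.SpecB

/-!
# MP_d266db_co, E: short paths from dense cuts
-/

set_option autoImplicit false

namespace Pool.Agent.MPd266dbE

open Finset Pool.Agent.MPd266db Pool.Agent.MPd266dbH

/-- a walk with inner vertices outside `B` -/
private def con_walk {n : ℕ} (S : Finset (Fin n × Fin n)) (B : Finset (Fin n)) (u v : Fin n)
    (k : ℕ) : Prop :=
  1 ≤ k ∧ ∃ w : ℕ → Fin n, w 0 = u ∧ w k = v ∧ (∀ a, 0 < a → a < k → w a ∉ B) ∧
    ∀ a < k, (w a, w (a + 1)) ∈ S

/-- the shortest walk is a path -/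
private theorem con_short {n : ℕ} {S : Finset (Fin n × Fin n)} {B : Finset (Fin n)} {u v : Fin n}
    (hu : u ∈ B) (hv : v ∈ B) (huv : u ≠ v) {k : ℕ} (h : con_walk S B u v k)
    (hmin : ∀ k' < k, ¬ con_walk S B u v k') :
    ∃ w : ℕ → Fin n, w 0 = u ∧ w k = v ∧ (∀ a ≤ k, ∀ b ≤ k, w a = w b → a = b) ∧
      (∀ a, 0 < a → a < k → w a ∉ B) ∧ ∀ a < k, (w a, w (a + 1)) ∈ S := by
  obtain ⟨hk, w, h0, hkv, hin, harc⟩ := h
  have key : ∀ a b, a < b → b ≤ k → w a ≠ w b := by
    intro a b hab hb he
    rcases Nat.eq_zero_or_pos a with ha | ha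
    · subst ha
      rw [h0] at he
      rcases Nat.lt_or_ge b k with hbk | hbk
      · exact hin b hab hbk (he ▸ hu)
      · have : b = k := by omega
        subst this
        exact huv (he.trans hkv)
    · have ha1 : w a ∉ B := hin a ha (by omega)
      have hbk : b < k := by
        by_contra hcon
        have : b = k := by omega
        subst this
        exact ha1 (he ▸ hkv ▸ hv)
      refine hmin (k - (b - a)) (by omega) ⟨by omega,
        fun t => if t ≤ a then w t else w (t + (b - a)), ?_, ?_, ?_, ?_⟩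
      · show (if 0 ≤ a then w 0 else w (0 + (b - a))) = u
        rw [if_pos (Nat.zero_le a)]
        exact h0
      · show (if k - (b - a) ≤ a then w (k - (b - a)) else w (k - (b - a) + (b - a))) = v
        rw [if_neg (by omega), Nat.sub_add_cancel (by omega)]
        exact hkv
      · intro t ht1 ht2
        show (if t ≤ a then w t else w (t + (b - a))) ∉ B
        split_ifs with h1
        · exact hin t ht1 (by omega)
        · exact hin _ (by omega) (by omega)
      · intro t ht
        show ((if t ≤ a then w t else w (t + (b - a))),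
          (if t + 1 ≤ a then w (t + 1) else w (t + 1 + (b - a)))) ∈ S
        rcases Nat.lt_trichotomy t a with h1 | h1 | h1
        · rw [if_pos (by omega), if_pos (by omega)]
          exact harc t (by omega)
        · rw [if_pos (by omega), if_neg (by omega), h1, he,
            show a + 1 + (b - a) = b + 1 by omega]
          exact harc b hbk
        · rw [if_neg (by omega), if_neg (by omega),
            show t + 1 + (b - a) = t + (b - a) + 1 by omega]
          exact harc _ (by omega)
  refine ⟨w, h0, hkv, ?_, hin, harc⟩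
  intro a ha b hb he
  rcases Nat.lt_trichotomy a b with h1 | h1 | h1
  · exact absurd he (key a b h1 hb)
  · exact h1
  · exact absurd he.symm (key b a h1 ha)

/-- the vertices which can be reached -/
private def con_A {n : ℕ} (S : Finset (Fin n × Fin n)) (B : Finset (Fin n)) (u : Fin n) :
    ℕ → Finset (Fin n)
  | 0 => (univ.filter (fun w => (u, w) ∈ S)) \ B
  | j + 1 => con_A S B u j ∪ ((univ.filter (fun w => ∃ z ∈ con_A S B u j, (z, w) ∈ S)) \ B)

private theorem con_A_B {n : ℕ} (S : Finset (Fin n × Fin n)) (B : Finset (Fin n)) (u : Fin n)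
    (j : ℕ) : ∀ z ∈ con_A S B u j, z ∉ B := by
  induction j with
  | zero =>
    intro z hz
    exact (mem_sdiff.1 hz).2
  | succ j ih =>
    intro z hz
    rcases mem_union.1 hz with h | h
    · exact ih z h
    · exact (mem_sdiff.1 h).2

private theorem con_A_mono {n : ℕ} (S : Finset (Fin n × Fin n)) (B : Finset (Fin n)) (u : Fin n)
    (j : ℕ) : con_A S B u 0 ⊆ con_A S B u j := by
  induction j with
  | zero => exact subset_rfl
  | succ j ih => exact ih.trans subset_union_left

/-- walks to the vertices which can be reached -/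
private theorem con_A_walk {n : ℕ} (S : Finset (Fin n × Fin n)) (B : Finset (Fin n)) (u : Fin n)
    (j : ℕ) : ∀ z ∈ con_A S B u j, ∃ k, 1 ≤ k ∧ k ≤ j + 1 ∧ ∃ w : ℕ → Fin n, w 0 = u ∧ w k = z ∧
      (∀ a, 0 < a → a ≤ k → w a ∉ B) ∧ ∀ a < k, (w a, w (a + 1)) ∈ S := by
  induction j with
  | zero =>
    intro z hz
    obtain ⟨h1, h2⟩ := mem_sdiff.1 hz
    have h3 := (mem_filter.1 h1).2
    refine ⟨1, le_rfl, le_rfl, fun t => if t = 0 then u else z, if_pos rfl, ?_, ?_, ?_⟩
    · show (if 1 = 0 then u else z) = z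
      rw [if_neg one_ne_zero]
    · intro a ha _
      show (if a = 0 then u else z) ∉ B
      rw [if_neg (by omega)]
      exact h2
    · intro a ha
      have : a = 0 := by omega
      subst this
      exact h3
  | succ j ih =>
    intro z hz
    rcases mem_union.1 hz with h | h
    · obtain ⟨k, h1, h2, h3⟩ := ih z h
      exact ⟨k, h1, by omega, h3⟩
    · obtain ⟨h1, h2⟩ := mem_sdiff.1 h
      obtain ⟨y, hy, hyz⟩ := (mem_filter.1 h1).2
      obtain ⟨k, hk1, hk2, w, hw0, hwk, hwB, hwS⟩ := ih y hy
      refine ⟨k + 1, by omega, by omega, fun t => if t ≤ k then w t else z, ?_, ?_, ?_, ?_⟩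
      · show (if 0 ≤ k then w 0 else z) = u
        rw [if_pos (Nat.zero_le _)]
        exact hw0
      · show (if k + 1 ≤ k then w (k + 1) else z) = z
        rw [if_neg (by omega)]
      · intro a ha1 ha2
        show (if a ≤ k then w a else z) ∉ B
        split_ifs with h4
        · exact hwB a ha1 h4
        · exact h2
      · intro a ha
        show ((if a ≤ k then w a else z), (if a + 1 ≤ k then w (a + 1) else z)) ∈ S
        rcases Nat.lt_or_ge a k with h4 | h4
        · rw [if_pos (by omega), if_pos (by omega)]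
          exact hwS a h4
        · have : a = k := by omega
          subst this
          rw [if_pos le_rfl, if_neg (by omega), hwk]
          exact hyz

/-- growth -/
private theorem con_grow {n : ℕ} {R S : Finset (Fin n × Fin n)} {B : Finset (Fin n)}
    (W W' : Finset (Fin n))
    (hW' : ∀ e ∈ S, e.1 ∈ W → e.2 ∉ B → e.2 ∈ W') :
    eb R W Wᶜ ≤ (R \ S).card + B.card * n + (W' \ W).card * n := by
  classical
  have hsub : R.filter (fun e => e.1 ∈ W ∧ e.2 ∈ Wᶜ) ⊆
      ((R \ S) ∪ (univ ×ˢ B)) ∪ (univ ×ˢ (W' \ W)) := by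
    intro e he
    obtain ⟨he1, he2, he3⟩ := mem_filter.1 he
    by_cases h1 : e ∈ S
    · by_cases h2 : e.2 ∈ B
      · exact mem_union_left _ (mem_union_right _ (mem_product.2 ⟨mem_univ _, h2⟩))
      · exact mem_union_right _ (mem_product.2 ⟨mem_univ _, mem_sdiff.2 ⟨hW' e h1 he2 h2,
          mem_compl.1 he3⟩⟩)
    · exact mem_union_left _ (mem_union_left _ (mem_sdiff.2 ⟨he1, h1⟩))
  unfold eb
  refine (card_le_card hsub).trans ((card_union_le _ _).trans ?_)
  have h1 := card_union_le (R \ S) ((univ : Finset (Fin n)) ×ˢ B)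
  rw [card_product, card_univ, Fintype.card_fin] at h1
  rw [card_product, card_univ, Fintype.card_fin, mul_comm n]
  rw [mul_comm n] at h1
  omega

theorem tCon : S_Con := by
  classical
  intro η θ hη hθ hθ1
  obtain ⟨ζ, hζdef⟩ : ∃ ζ, ζ = min (η * θ ^ 2 / 24) (θ / 8) := ⟨_, rfl⟩
  have hζ : 0 < ζ := by
    rw [hζdef]
    exact lt_min (by positivity) (by positivity)
  have hζ1 : 24 * ζ ≤ η * θ ^ 2 := by
    have : ζ ≤ η * θ ^ 2 / 24 := hζdef ▸ min_le_left _ _
    linarith
  have hζ2 : 8 * ζ ≤ θ := by
    have : ζ ≤ θ / 8 := hζdef ▸ min_le_right _ _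
    linarith
  obtain ⟨J, hJdef⟩ : ∃ J, J = ⌊8 / (η * θ ^ 2)⌋₊ + 1 := ⟨_, rfl⟩
  have hηθ : 0 < η * θ ^ 2 := by positivity
  have hJ : 8 < J * (η * θ ^ 2) := by
    have h1 : 8 / (η * θ ^ 2) < (⌊8 / (η * θ ^ 2)⌋₊ : ℝ) + 1 := Nat.lt_floor_add_one _
    rw [div_lt_iff₀ hηθ] at h1
    rw [hJdef]
    push_cast
    exact h1
  refine ⟨ζ, J + 2, hζ, by omega, ?_⟩
  intro n b R S hSR hRS hb hn2 hod hid hcut B u v hB huv
  have hn0 : (0 : ℝ) < n := by
    have h1 : 0 < ζ * n := by linarith
    exact (pos_iff_pos_of_mul_pos h1).1 hζ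
  have hζn : ζ * n ≤ θ / 8 * n := mul_le_mul_of_nonneg_right (by linarith) hn0.le
  -- the large set
  obtain ⟨B', hB'⟩ : ∃ B', B' = insert u (insert v B) := ⟨_, rfl⟩
  have huB : u ∈ B' := by rw [hB']; exact mem_insert_self _ _
  have hvB : v ∈ B' := by rw [hB']; exact mem_insert_of_mem (mem_insert_self _ _)
  have hBB : B ⊆ B' := by
    rw [hB']
    exact (subset_insert _ _).trans (subset_insert _ _)
  have hB'c : (B'.card : ℝ) ≤ 2 * ζ * n := by
    have h1 : B'.card ≤ B.card + 2 := by
      rw [hB']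
      exact (card_insert_le _ _).trans (Nat.succ_le_succ (card_insert_le _ _))
    have h2 : (B'.card : ℝ) ≤ B.card + 2 := by exact_mod_cast h1
    have h3 : (B.card : ℝ) ≤ b := by exact_mod_cast hB
    linarith
  have hodc : (univ.filter (fun w => (u, w) ∈ S)).card = od S u := by
    unfold od
    refine card_bij (fun v _ => (u, v)) (fun v hv => mem_filter.2 ⟨(mem_filter.1 hv).2, rfl⟩)
      (fun v _ w _ hvw => (Prod.ext_iff.1 hvw).2) fun e he => ?_
    rw [mem_filter] at he
    refine ⟨e.2, mem_filter.2 ⟨mem_univ _, ?_⟩, ?_⟩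
    · rw [← he.2]
      exact he.1
    · rw [← he.2]
  have hidc : (univ.filter (fun w => (w, v) ∈ S)).card = idg S v := by
    unfold idg
    refine card_bij (fun u _ => (u, v)) (fun u hu => mem_filter.2 ⟨(mem_filter.1 hu).2, rfl⟩)
      (fun u _ w _ huw => (Prod.ext_iff.1 huw).1) fun e he => ?_
    rw [mem_filter] at he
    refine ⟨e.1, mem_filter.2 ⟨mem_univ _, ?_⟩, ?_⟩
    · rw [← he.2]
      exact he.1
    · rw [← he.2]
  have hA0 : θ / 2 * n ≤ ((con_A S B' u 0).card : ℝ) := by
    have h1 : od S u ≤ (con_A S B' u 0).card + B'.card := by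
      rw [← hodc]
      show _ ≤ ((univ.filter (fun w => (u, w) ∈ S)) \ B').card + B'.card
      rw [card_sdiff_add_card]
      exact card_le_card subset_union_left
    have h2 : (od S u : ℝ) ≤ (con_A S B' u 0).card + B'.card := by exact_mod_cast h1
    have h3 := hod u
    linarith
  obtain ⟨C, hC⟩ : ∃ C, C = (univ.filter (fun w => (w, v) ∈ S)) \ B' := ⟨_, rfl⟩
  have hC0 : θ / 2 * n ≤ (C.card : ℝ) := by
    have h1 : idg S v ≤ C.card + B'.card := by
      rw [← hidc, hC, card_sdiff_add_card]
      exact card_le_card subset_union_left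
    have h2 : (idg S v : ℝ) ≤ C.card + B'.card := by exact_mod_cast h1
    have h3 := hid v
    linarith
  -- the growth of the sets
  have hstep : ∀ j, Disjoint (con_A S B' u j) C →
      ((con_A S B' u j).card : ℝ) + η * θ ^ 2 / 8 * n ≤ (con_A S B' u (j + 1)).card := by
    intro j hj
    have h1 := con_grow (R := R) (S := S) (B := B') (con_A S B' u j)
      (con_A S B' u (j + 1)) (by
        intro e he he1 he2
        exact mem_union_right _ (mem_sdiff.2 ⟨mem_filter.2 ⟨mem_univ _, e.1, he1, he⟩, he2⟩))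
    have h2 : (eb R (con_A S B' u j) (con_A S B' u j)ᶜ : ℝ) ≤ (R \ S).card + B'.card * n +
        (con_A S B' u (j + 1) \ con_A S B' u j).card * n := by exact_mod_cast h1
    have h3 := hcut (con_A S B' u j)
    have h4 : θ / 2 * n ≤ ((con_A S B' u j).card : ℝ) :=
      hA0.trans (by exact_mod_cast card_le_card (con_A_mono S B' u j))
    have h5 : θ / 2 * n ≤ (((con_A S B' u j)ᶜ).card : ℝ) := by
      refine hC0.trans ?_
      have : C ⊆ (con_A S B' u j)ᶜ := fun x hx => mem_compl.2 fun hx' =>
        disjoint_left.1 hj hx' hx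
      exact_mod_cast card_le_card this
    have h6 : η * ((θ / 2 * n) * (θ / 2 * n)) ≤
        η * ((con_A S B' u j).card * ((con_A S B' u j)ᶜ).card) := by
      apply mul_le_mul_of_nonneg_left _ hη.le
      exact mul_le_mul h4 h5 (by positivity) (by positivity)
    have h7 : (con_A S B' u j).card + (con_A S B' u (j + 1) \ con_A S B' u j).card =
        (con_A S B' u (j + 1)).card := by
      rw [add_comm]
      exact card_sdiff_add_card_eq_card subset_union_left
    have h8 : ((con_A S B' u j).card : ℝ) + (con_A S B' u (j + 1) \ con_A S B' u j).card =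
        (con_A S B' u (j + 1)).card := by exact_mod_cast h7
    have h9 : (B'.card : ℝ) * n ≤ 2 * ζ * n * n := mul_le_mul_of_nonneg_right hB'c hn0.le
    have h10 : 24 * ζ * (n * n) ≤ η * θ ^ 2 * (n * n) :=
      mul_le_mul_of_nonneg_right hζ1 (by positivity)
    have h11 : (η * θ ^ 2 / 8 * n) * n ≤
        ((con_A S B' u (j + 1) \ con_A S B' u j).card : ℝ) * n := by
      have e1 : (n : ℝ) ^ 2 = n * n := sq _
      rw [e1] at hRS
      linarith
    have h12 := le_of_mul_le_mul_right h11 hn0
    linarith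
  -- the sets meet
  obtain ⟨j, hj, hjC⟩ : ∃ j < J, ¬ Disjoint (con_A S B' u j) C := by
    by_contra hcon
    push Not at hcon
    have h1 : ∀ j ≤ J, (j : ℝ) * (η * θ ^ 2 / 8 * n) ≤ (con_A S B' u j).card := by
      intro j
      induction j with
      | zero =>
        intro _
        rw [Nat.cast_zero, zero_mul]
        exact Nat.cast_nonneg _
      | succ j ih =>
        intro hj
        have h2 := ih (by omega)
        have h3 := hstep j (hcon j (by omega))
        push_cast
        linarith
    have h2 := h1 J le_rfl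
    have h3 : ((con_A S B' u J).card : ℝ) ≤ n := by
      have : (con_A S B' u J).card ≤ n := (card_le_univ _).trans (by rw [Fintype.card_fin])
      exact_mod_cast this
    have h4 : 8 * (n : ℝ) < J * (η * θ ^ 2) * n := mul_lt_mul_of_pos_right hJ hn0
    linarith
  rw [not_disjoint_iff] at hjC
  obtain ⟨z, hz1, hz2⟩ := hjC
  obtain ⟨k, hk1, hk2, w, hw0, hwk, hwB, hwS⟩ := con_A_walk S B' u j z hz1
  have hwalk : con_walk S B' u v (k + 1) := by
    refine ⟨by omega, fun t => if t ≤ k then w t else v, ?_, ?_, ?_, ?_⟩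
    · show (if 0 ≤ k then w 0 else v) = u
      rw [if_pos (Nat.zero_le _)]
      exact hw0
    · show (if k + 1 ≤ k then w (k + 1) else v) = v
      rw [if_neg (by omega)]
    · intro a ha1 ha2
      show (if a ≤ k then w a else v) ∉ B'
      rw [if_pos (by omega)]
      exact hwB a ha1 (by omega)
    · intro a ha
      show ((if a ≤ k then w a else v), (if a + 1 ≤ k then w (a + 1) else v)) ∈ S
      rcases Nat.lt_or_ge a k with h4 | h4
      · rw [if_pos (by omega), if_pos (by omega)]
        exact hwS a h4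
      · have : a = k := by omega
        subst this
        rw [if_pos le_rfl, if_neg (by omega), hwk]
        rw [hC] at hz2
        exact (mem_filter.1 (mem_sdiff.1 hz2).1).2
  have hex : ∃ k, con_walk S B' u v k := ⟨_, hwalk⟩
  obtain ⟨w', h1, h2, h3, h4, h5⟩ := con_short huB hvB huv (Nat.find_spec hex)
    (fun k' hk' => Nat.find_min hex hk')
  have h6 : Nat.find hex ≤ k + 1 := Nat.find_min' hex hwalk
  exact ⟨Nat.find hex, w', (Nat.find_spec hex).1, by omega, h1, h2, h3,
    fun a ha1 ha2 h => h4 a ha1 ha2 (hBB h), h5⟩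

end Pool.Agent.MPd266dbE
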