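import Pool.Agent.Lib.MP_d266db_co.E.SpecI

/-!
# MP_d266db_co, E, CpD: overlaps
-/

set_option autoImplicit false

namespace Pool.Agent.MPd266dbE

open Finset Pool.Agent.MPd266db Pool.Agent.MPd266dbH

/-- an oriented graph contains at most half of a symmetric set of pairs -/
theorem cpd_half {n : ℕ} {E Q : Finset (Fin n × Fin n)} (hE : Ori E)
    (hQ : ∀ u v, (u, v) ∈ Q → (v, u) ∈ Q) : 2 * (E ∩ Q).card ≤ Q.card := by
  classical
  have h1 : Disjoint (E ∩ Q) (rev (E ∩ Q)) := by
    rw [Finset.disjoint_left]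
    rintro ⟨u, v⟩ h2 h3
    rw [mem_rev, mem_inter] at h3
    rw [mem_inter] at h2
    exact hE u v h2.1 h3.1
  have h2 : (E ∩ Q) ∪ rev (E ∩ Q) ⊆ Q := by
    intro e he
    obtain ⟨u, v⟩ := e
    rw [mem_union] at he
    rcases he with he | he
    · exact (mem_inter.1 he).2
    · rw [mem_rev, mem_inter] at he
      exact hQ v u he.2
  have h3 := card_le_card h2
  rw [card_union_of_disjoint h1] at h3
  have h4 : (rev (E ∩ Q)).card = (E ∩ Q).card := by
    unfold rev
    rw [card_map]
  omega

theorem tCpD : S_CpD := by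
  classical
  intro n E hE O I O' I' hO hI
  have hO' : ∀ x, x ∈ O → x ∈ O' → False := fun x h h' => (Finset.disjoint_left.1 hO) h h'
  have hI' : ∀ x, x ∈ I → x ∈ I' → False := fun x h h' => (Finset.disjoint_left.1 hI) h h'
  -- the set of all pairs
  have hPd : Disjoint (O ×ˢ I) (O' ×ˢ I') := by
    rw [Finset.disjoint_left]
    rintro ⟨u, v⟩ h h'
    rw [mem_product] at h h'
    exact hO' u h.1 h'.1
  obtain ⟨P, hP⟩ : ∃ P : Finset (Fin n × Fin n), P = (O ×ˢ I) ∪ (O' ×ˢ I') := ⟨_, rfl⟩
  have hPc : P.card = O.card * I.card + O'.card * I'.card := by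
    rw [hP, card_union_of_disjoint hPd, card_product, card_product]
  have hEP : (E ∩ P).card = eb E O I + eb E O' I' := by
    unfold eb
    rw [← card_union_of_disjoint]
    · congr 1
      ext e
      simp only [mem_inter, hP, mem_union, mem_product, mem_filter]
      tauto
    · rw [Finset.disjoint_left]
      intro e h h'
      simp only [mem_filter] at h h'
      exact hO' _ h.2.1 h'.2.1
  -- the symmetric part
  obtain ⟨Q, hQ⟩ : ∃ Q : Finset (Fin n × Fin n), Q = (((O ∩ I) ×ˢ (O ∩ I)) ∪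
      ((O' ∩ I') ×ˢ (O' ∩ I'))) ∪ (((O ∩ I') ×ˢ (O' ∩ I)) ∪ ((O' ∩ I) ×ˢ (O ∩ I'))) := ⟨_, rfl⟩
  have hQc : Q.card = ((O ∩ I).card ^ 2 + (O' ∩ I').card ^ 2) +
      ((O ∩ I').card * (O' ∩ I).card + (O' ∩ I).card * (O ∩ I').card) := by
    rw [hQ, card_union_of_disjoint, card_union_of_disjoint, card_union_of_disjoint, card_product,
      card_product, card_product, card_product]
    · ring
    · rw [Finset.disjoint_left]
      rintro ⟨u, v⟩ h h'
      simp only [mem_product, mem_inter] at h h'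
      exact hO' u h.1.1 h'.1.1
    · rw [Finset.disjoint_left]
      rintro ⟨u, v⟩ h h'
      simp only [mem_product, mem_inter] at h h'
      exact hO' u h.1.1 h'.1.1
    · rw [Finset.disjoint_left]
      rintro ⟨u, v⟩ h h'
      simp only [mem_product, mem_inter, mem_union] at h h'
      rcases h with h | h <;> rcases h' with h' | h'
      · exact hI' u h.1.2 h'.1.2
      · exact hO' u h.1.1 h'.1.1
      · exact hO' u h'.1.1 h.1.1
      · exact hI' u h'.1.2 h.1.2
  have hQP : Q ⊆ P := by
    rintro ⟨u, v⟩ h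
    simp only [hQ, hP, mem_product, mem_inter, mem_union] at h ⊢
    tauto
  have hQs : ∀ u v, (u, v) ∈ Q → (v, u) ∈ Q := by
    intro u v h
    simp only [hQ, mem_product, mem_inter, mem_union] at h ⊢
    tauto
  have h1 := cpd_half hE hQs
  have h2 : (E ∩ P).card ≤ (E ∩ Q).card + (P \ Q).card := by
    refine (card_le_card ?_).trans (card_union_le _ _)
    intro e he
    rw [mem_inter] at he
    rw [mem_union, mem_inter, mem_sdiff]
    by_cases h3 : e ∈ Q
    · exact Or.inl ⟨he.1, h3⟩
    · exact Or.inr ⟨he.2, h3⟩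
  have h3 : (P \ Q).card + Q.card = P.card := card_sdiff_add_card_eq_card hQP
  rw [hEP] at h2
  rw [hPc] at h3
  have h4 : (O' ∩ I).card * (O ∩ I').card = (O ∩ I').card * (O' ∩ I).card := Nat.mul_comm _ _
  rw [h4] at hQc
  omega

end Pool.Agent.MPd266dbE
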