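import Pool.Agent.Lib.MP_d266db_co.E.SpecA

/-!
# MP_d266db_co, E: contraction of a linear forest
-/

set_option autoImplicit false

namespace Pool.Agent.MPd266dbE

open Finset Pool.Agent.MPd266db Pool.Agent.MPd266dbH

/-- the end of a walk which increases a rank -/
private theorem ctr_end {n : ℕ} (D : Finset (Fin n)) (f : Fin n → Fin n) (rk : Fin n → ℕ)
    (h1 : ∀ v ∈ D, rk v < rk (f v)) (h2 : ∀ v, v ∉ D → f v = v) :
    ∃ E : Fin n → Fin n, (∀ v, E v ∉ D) ∧ (∀ v, E (f v) = E v) ∧ (∀ v, v ∉ D → E v = v) ∧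
      ∀ v, ∃ j, E v = f^[j] v := by
  obtain ⟨R, hR⟩ : ∃ R, R = univ.sup rk := ⟨_, rfl⟩
  have hRv : ∀ v, rk v ≤ R := fun v => by
    rw [hR]
    exact le_sup (mem_univ v)
  have hstep : ∀ j v, f^[j] v ∈ D → j + 1 ≤ rk (f^[j + 1] v) := by
    intro j
    induction j with
    | zero =>
      intro v hv
      have := h1 _ hv
      rw [Function.iterate_succ_apply']
      omega
    | succ j ih =>
      intro v hv
      have hv' : f^[j] v ∈ D := by
        by_contra hcon
        rw [Function.iterate_succ_apply', h2 _ hcon] at hv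
        exact hcon hv
      have h3 := ih v hv'
      have h4 := h1 _ hv
      rw [Function.iterate_succ_apply' f (j + 1)]
      omega
  have hout : ∀ v, f^[R] v ∉ D := by
    intro v hv
    have h3 := hstep R v hv
    have h4 := hRv (f^[R + 1] v)
    omega
  refine ⟨f^[R], hout, ?_, ?_, fun v => ⟨R, rfl⟩⟩
  · intro v
    rw [← Function.iterate_succ_apply, Function.iterate_succ_apply', h2 _ (hout v)]
  · intro v hv
    exact Function.iterate_fixed (h2 v hv) R

/-- the function which follows the arcs -/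
private theorem ctr_next {n : ℕ} (P : Finset (Fin n × Fin n))
    (h : ∀ e ∈ P, ∀ e' ∈ P, e.1 = e'.1 → e = e') :
    ∃ f : Fin n → Fin n, (∀ e ∈ P, f e.1 = e.2) ∧ ∀ v, v ∉ tls P → f v = v := by
  classical
  refine ⟨fun v => if h : ∃ e ∈ P, e.1 = v then h.choose.2 else v, ?_, ?_⟩
  · intro e he
    have h1 : ∃ e' ∈ P, e'.1 = e.1 := ⟨e, he, rfl⟩
    have h2 : h1.choose = e := h _ h1.choose_spec.1 e he h1.choose_spec.2
    simp only [dif_pos h1, h2]
  · intro v hv
    have h1 : ¬ ∃ e ∈ P, e.1 = v := fun hcon => hv (mem_tls.2 hcon)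
    simp only [dif_neg h1]

private theorem ctr_prev {n : ℕ} (P : Finset (Fin n × Fin n))
    (h : ∀ e ∈ P, ∀ e' ∈ P, e.2 = e'.2 → e = e') :
    ∃ f : Fin n → Fin n, (∀ e ∈ P, f e.2 = e.1) ∧ ∀ v, v ∉ hds P → f v = v := by
  classical
  refine ⟨fun v => if h : ∃ e ∈ P, e.2 = v then h.choose.1 else v, ?_, ?_⟩
  · intro e he
    have h1 : ∃ e' ∈ P, e'.2 = e.2 := ⟨e, he, rfl⟩
    have h2 : h1.choose = e := h _ h1.choose_spec.1 e he h1.choose_spec.2
    simp only [dif_pos h1, h2]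
  · intro v hv
    have h1 : ¬ ∃ e ∈ P, e.2 = v := fun hcon => hv (mem_hds.2 hcon)
    simp only [dif_neg h1]

private theorem ctr_iter {n : ℕ} {τ : Equiv.Perm (Fin n)} {f : Fin n → Fin n}
    (h : ∀ v, τ.SameCycle v (f v)) (v : Fin n) (j : ℕ) : τ.SameCycle v (f^[j] v) := by
  induction j with
  | zero => exact Equiv.Perm.SameCycle.refl _ _
  | succ j ih =>
    rw [Function.iterate_succ_apply']
    exact ih.trans (h _)

theorem tCtr : S_Ctr := by
  classical
  intro n m P hP hm hm1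
  obtain ⟨hT, hH, rk, hrk⟩ := hP
  obtain ⟨nx, hnx1, hnx2⟩ := ctr_next P hT
  obtain ⟨pv, hpv1, hpv2⟩ := ctr_prev P hH
  have hnxpv : ∀ v ∈ tls P, pv (nx v) = v := by
    intro v hv
    obtain ⟨e, he, rfl⟩ := mem_tls.1 hv
    rw [hnx1 e he, hpv1 e he]
  have hpvnx : ∀ v ∈ hds P, nx (pv v) = v := by
    intro v hv
    obtain ⟨e, he, rfl⟩ := mem_hds.1 hv
    rw [hpv1 e he, hnx1 e he]
  have hnxh : ∀ v ∈ tls P, nx v ∈ hds P := by
    intro v hv
    obtain ⟨e, he, rfl⟩ := mem_tls.1 hv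
    rw [hnx1 e he]
    exact mem_hds.2 ⟨e, he, rfl⟩
  obtain ⟨E, hE1, hE2, hE3, hE4⟩ := ctr_end (tls P) nx rk (by
    intro v hv
    obtain ⟨e, he, rfl⟩ := mem_tls.1 hv
    rw [hnx1 e he]
    exact hrk e he) hnx2
  obtain ⟨R, hR⟩ : ∃ R, ∀ v, rk v ≤ R := ⟨univ.sup rk, fun v => le_sup (mem_univ v)⟩
  obtain ⟨B, hB1, hB2, hB3, -⟩ := ctr_end (hds P) pv (fun v => R - rk v) (by
    intro v hv
    obtain ⟨e, he, rfl⟩ := mem_hds.1 hv
    rw [hpv1 e he]
    have h1 := hrk e he
    have h2 := hR e.2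
    show R - rk e.2 < R - rk e.1
    omega) hpv2
  have hBnx : ∀ v, B (nx v) = B v := by
    intro v
    by_cases hv : v ∈ tls P
    · have h1 := hB2 (nx v)
      rw [hnxpv v hv] at h1
      exact h1.symm
    · rw [hnx2 v hv]
  have hEpv : ∀ v, E (pv v) = E v := by
    intro v
    by_cases hv : v ∈ hds P
    · have h1 := hE2 (pv v)
      rw [hpvnx v hv] at h1
      exact h1.symm
    · rw [hpv2 v hv]
  have hBit : ∀ j v, B (nx^[j] v) = B v := by
    intro j
    induction j with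
    | zero => intro v; rfl
    | succ j ih =>
      intro v
      rw [Function.iterate_succ_apply', hBnx, ih]
  have hBE : ∀ v, v ∉ hds P → B (E v) = v := by
    intro v hv
    obtain ⟨j, hj⟩ := hE4 v
    rw [hj, hBit, hB3 v hv]
  obtain ⟨B', hB1', hB2', hB3', hB4'⟩ := ctr_end (hds P) pv (fun v => R - rk v) (by
    intro v hv
    obtain ⟨e, he, rfl⟩ := mem_hds.1 hv
    rw [hpv1 e he]
    have h1 := hrk e he
    have h2 := hR e.2
    show R - rk e.2 < R - rk e.1
    omega) hpv2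
  have hEit : ∀ j v, E (pv^[j] v) = E v := by
    intro j
    induction j with
    | zero => intro v; rfl
    | succ j ih =>
      intro v
      rw [Function.iterate_succ_apply', hEpv, ih]
  have hEB : ∀ v, v ∉ tls P → ∃ w, w ∉ hds P ∧ E w = v := by
    intro v hv
    obtain ⟨j, hj⟩ := hB4' v
    refine ⟨B' v, hB1' v, ?_⟩
    rw [hj, hEit, hE3 v hv]
  -- the enumeration
  have hcard : ((univ : Finset (Fin n)) \ hds P).card = m := by
    have h1 : (hds P).card = P.card := by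
      unfold hds
      exact card_image_of_injOn fun e he e' he' h => hH e he e' he' h
    have h2 := card_sdiff_add_card_eq_card (subset_univ (hds P))
    rw [card_univ, Fintype.card_fin] at h2
    omega
  obtain ⟨b, hb, hbr⟩ : ∃ b : Fin m → Fin n, Function.Injective b ∧
      ∀ v, (∃ x, b x = v) ↔ v ∉ hds P := by
    refine ⟨fun x => (((univ : Finset (Fin n)) \ hds P).equivFinOfCardEq hcard).symm x, ?_, ?_⟩
    · intro x y hxy
      exact (((univ : Finset (Fin n)) \ hds P).equivFinOfCardEq hcard).symm.injective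
        (Subtype.ext hxy)
    · intro v
      constructor
      · rintro ⟨x, rfl⟩
        exact (mem_sdiff.1
          ((((univ : Finset (Fin n)) \ hds P).equivFinOfCardEq hcard).symm x).2).2
      · intro hv
        refine ⟨(((univ : Finset (Fin n)) \ hds P).equivFinOfCardEq hcard)
          ⟨v, mem_sdiff.2 ⟨mem_univ v, hv⟩⟩, ?_⟩
        exact congrArg Subtype.val (Equiv.symm_apply_apply
          (((univ : Finset (Fin n)) \ hds P).equivFinOfCardEq hcard)
          ⟨v, mem_sdiff.2 ⟨mem_univ v, hv⟩⟩)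
  have hbh : ∀ x, b x ∉ hds P := fun x => (hbr _).1 ⟨x, rfl⟩
  have ha : Function.Injective (fun x => E (b x)) := by
    intro x y hxy
    have h1 : B (E (b x)) = B (E (b y)) := congrArg B hxy
    rw [hBE _ (hbh x), hBE _ (hbh y)] at h1
    exact hb h1
  refine ⟨fun x => E (b x), b, ha, hb, ?_, hbr, ?_, ?_⟩
  · intro v
    constructor
    · rintro ⟨x, rfl⟩
      exact hE1 _
    · intro hv
      obtain ⟨w, hw, rfl⟩ := hEB v hv
      obtain ⟨x, rfl⟩ := (hbr w).2 hw
      exact ⟨x, rfl⟩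
  · intro v hv1 hv2
    obtain ⟨x, rfl⟩ := (hbr v).2 hv2
    exact ⟨x, hE3 _ hv1, rfl⟩
  intro τ' hτ'
  have : Nonempty (Fin m) := ⟨⟨0, by omega⟩⟩
  obtain ⟨c, hc⟩ : ∃ c : Fin n → Fin m, ∀ x, c (E (b x)) = x :=
    ⟨Function.invFun (fun x => E (b x)), fun x => Function.leftInverse_invFun ha x⟩
  have hsur : ∀ v, v ∉ tls P → ∃ x, E (b x) = v := by
    intro v hv
    obtain ⟨w, hw, rfl⟩ := hEB v hv
    obtain ⟨x, rfl⟩ := (hbr w).2 hw
    exact ⟨x, rfl⟩
  have hinj : Function.Injective (fun v => if v ∈ tls P then nx v else b (τ' (c v))) := by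
    intro v w hvw
    by_cases hv : v ∈ tls P <;> by_cases hw : w ∈ tls P
    · simp only [if_pos hv, if_pos hw] at hvw
      rw [← hnxpv v hv, hvw, hnxpv w hw]
    · simp only [if_pos hv, if_neg hw] at hvw
      exact absurd (hvw ▸ hnxh v hv) (hbh _)
    · simp only [if_neg hv, if_pos hw] at hvw
      exact absurd (hvw.symm ▸ hnxh w hw) (hbh _)
    · simp only [if_neg hv, if_neg hw] at hvw
      obtain ⟨x, rfl⟩ := hsur v hv
      obtain ⟨y, rfl⟩ := hsur w hw
      rw [hc, hc] at hvw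
      rw [τ'.injective (hb hvw)]
  obtain ⟨τ, hτ⟩ : ∃ τ : Equiv.Perm (Fin n), ∀ v, τ v =
      if v ∈ tls P then nx v else b (τ' (c v)) :=
    ⟨Equiv.ofBijective _ (Finite.injective_iff_bijective.1 hinj), fun v => rfl⟩
  have hτa : ∀ x, τ (E (b x)) = b (τ' x) := by
    intro x
    rw [hτ, if_neg (hE1 _), hc]
  have hsn : ∀ v, τ.SameCycle v (nx v) := by
    intro v
    by_cases hv : v ∈ tls P
    · have h1 : τ v = nx v := by rw [hτ, if_pos hv]
      rw [← h1]
      exact Equiv.Perm.sameCycle_apply_right.2 (Equiv.Perm.SameCycle.refl _ _)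
    · rw [hnx2 v hv]
  have hsE : ∀ v, τ.SameCycle v (E v) := by
    intro v
    obtain ⟨j, hj⟩ := hE4 v
    rw [hj]
    exact ctr_iter hsn v j
  have hsb : ∀ x, τ.SameCycle (b x) (b (τ' x)) := by
    intro x
    refine (hsE (b x)).trans ?_
    rw [← hτa x]
    exact Equiv.Perm.sameCycle_apply_right.2 (Equiv.Perm.SameCycle.refl _ _)
  have hsb' : ∀ x y, τ.SameCycle (b x) (b y) := by
    intro x y
    obtain ⟨j, hj⟩ := (hτ' x y).exists_nat_pow_eq
    have h1 : ∀ j : ℕ, τ.SameCycle (b x) (b ((τ' ^ j) x)) := by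
      intro j
      induction j with
      | zero => exact Equiv.Perm.SameCycle.refl _ _
      | succ j ih =>
        rw [pow_succ', Equiv.Perm.mul_apply]
        exact ih.trans (hsb _)
    rw [← hj]
    exact h1 j
  refine ⟨τ, ?_, ?_, hτa⟩
  · intro v w
    obtain ⟨x, hx⟩ := hsur (E v) (hE1 v)
    obtain ⟨y, hy⟩ := hsur (E w) (hE1 w)
    have h1 : τ.SameCycle v (b x) := (hsE v).trans (by rw [← hx]; exact (hsE (b x)).symm)
    have h2 : τ.SameCycle w (b y) := (hsE w).trans (by rw [← hy]; exact (hsE (b y)).symm)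
    exact h1.trans ((hsb' x y).trans h2.symm)
  · intro e he
    rw [hτ, if_pos (mem_tls.2 ⟨e, he, rfl⟩)]
    exact hnx1 e he

end Pool.Agent.MPd266dbE
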