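import Pool.Agent.Lib.MP_d266db_co.E.SpecG

/-!
# MP_d266db_co, E, CvP: the covering property
-/

set_option autoImplicit false

namespace Pool.Agent.MPd266dbE

open Finset Pool.Agent.MPd266db Pool.Agent.MPd266dbH

theorem cvp_bxo {n K : ℕ} {e : ℕ} {lv : Fin n → ℕ} {o : Fin n → Fin K} {v : Fin n}
    (h : lv v = e) : bxo e lv o v = bxe e (o v) := by
  unfold bxo bxe tgp
  rw [h, min_self]
  congr 2
  ext
  simp only [Fin.ofNat, Fin.val_last]
  exact Nat.mod_eq_of_lt (Nat.lt_succ_self e)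

theorem cvp_bxi {n K : ℕ} {e : ℕ} {lv : Fin n → ℕ} {i : Fin n → Fin K} {v : Fin n}
    (h : lv v = 0) : bxi e lv i v = bxe e (i v) := by
  unfold bxi bxe hgp
  rw [if_pos h]
  congr 2
  ext
  simp only [Fin.ofNat, Fin.val_last]
  exact Nat.mod_eq_of_lt (Nat.lt_succ_self e)

theorem tCvP (hUnt : S_Unt) (hCol : S_Col) (hCvr : S_Cvr) (hSzB : S_SzB) : S_CvP := by
  classical
  intro n K e p w d h s hd Nh Δ1 Δx C0 t0 C2 t2 R XW Wo o i c0 d0 lv H1 H2 gW hOri hCD hLv he1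
    hHub hHsub hHdg hNh hWo hdj hXR hXc hXdg hXq hdeg hHm hsh ht0 htC0 hCg hnum0 hp1 D hDR hDj
    hDreg
  have hOD : Ori D := fun u v huv hvu => hOri u v (hDR huv) (hDR hvu)
  have hS : ∀ q ∈ own o i R, o q.1 = i q.2 ∧ q.1 ≠ q.2 := by
    intro q hq
    rw [own, mem_filter] at hq
    refine ⟨hq.2, fun h12 => ?_⟩
    have h1 : (q.1, q.1) ∈ R := by
      have : (q.1, q.1) = q := Prod.ext rfl h12
      rw [this]; exact hq.1
    exact hOri q.1 q.1 h1 h1
  have hDH : Disjoint D (hbU e H1 H2) := by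
    refine hDj.mono_right ?_
    exact subset_union_right
  have hDWo : Disjoint D Wo := by
    refine hDj.mono_right ?_
    exact subset_union_left.trans subset_union_left
  have hDXW : Disjoint D XW := by
    refine hDj.mono_right ?_
    exact subset_union_right.trans subset_union_left
  have hownX : Disjoint (own o i R) XW := by
    rw [Finset.disjoint_left]
    intro q hq hqX
    obtain ⟨-, -, h3, h4, h5⟩ := hXq q hqX
    rw [own, mem_filter] at hq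
    apply h5
    rw [← h3, ← h4]
    exact hq.2
  obtain ⟨𝓤, b, hU1, hU2, hU3, hU4⟩ := hUnt n K e d p Nh Δ1 D (own o i R) o i c0 d0 lv H1 H2
    hDreg hOD hCD hLv he1 hS hHub hDH hNh
  have hDd : Dg D d := fun v => ⟨(hDreg v).1.le, (hDreg v).2.le⟩
  have hsz := hSzB n K e p o i c0 d0 lv hCD hLv he1
  have hXq' : ∀ q ∈ XW, q.1 ≠ q.2 ∧ bxo e lv o q.1 = bxe e c0 ∧ bxi e lv i q.2 = bxe e d0 := by
    intro q hq
    obtain ⟨h1, h2, h3, h4, h5⟩ := hXq q hq
    refine ⟨?_, ?_, ?_⟩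
    · intro h12
      rw [h12] at h1
      omega
    · rw [cvp_bxo h1, h3]
    · rw [cvp_bxi h2, h4]
  have hdg2 : ∀ v, od D v + od (hbU e H1 H2) v + od XW v + od Wo v = s + h ∧
      idg D v + idg (hbU e H1 H2) v + idg XW v + idg Wo v = s + h := by
    intro v
    have h1 := hdeg v
    have h2 := hDreg v
    omega
  have hd1 : Disjoint (D ∪ hbU e H1 H2) Wo := Finset.disjoint_union_left.mpr ⟨hDWo, hdj⟩
  have hd2 : Disjoint (D ∪ hbU e H1 H2) XW :=
    Finset.disjoint_union_left.mpr ⟨hDXW, hownX.mono_left hHsub⟩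
  have hd3 : Disjoint Wo XW := hownX.mono_left hWo
  rcases Nat.eq_zero_or_pos p with hp0 | hpos
  · have hX0 : XW.card = 0 := by rw [hXc, hp0, mul_zero]
    have hXe : XW = ∅ := Finset.card_eq_zero.mp hX0
    have hXd0 : Dg XW 0 := by
      intro v
      rw [hXe]
      simp [od, idg]
    have hXd1 : Dg XW 1 := by
      intro v
      rw [hXe]
      simp [od, idg]
    obtain ⟨Q, b', hQ1, hQ2, hQ3⟩ := hCol n K e d p hd h 0 C0 t0 0 1 D (hbU e H1 H2) XW o i c0 d0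
      lv 𝓤 b hU1 hU2 hU3 hU4 hDd hHdg hXd0 ht0 htC0 le_rfl (by norm_num)
      (by rw [hX0, mul_zero, Nat.zero_div, add_zero]; exact hnum0)
    exact hCvr n K e h p s 1 C0 0 D (hbU e H1 H2) XW Wo o i c0 d0 lv Q b' gW hHm hsz hXq' hXd1
      le_rfl hQ1 hQ2 hQ3 hDH hd1 hd2 hd3 (by rw [hX0, hp0]; simp) hCg hdg2
  · obtain ⟨hx1, ht2, ht2C, hnum, hnum2⟩ := hp1 hpos
    obtain ⟨Q, b', hQ1, hQ2, hQ3⟩ := hCol n K e d p hd h Δx C0 t0 C2 t2 D (hbU e H1 H2) XW o i c0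
      d0 lv 𝓤 b hU1 hU2 hU3 hU4 hDd hHdg hXdg ht0 htC0 ht2 ht2C hnum
    exact hCvr n K e h p s Δx C0 C2 D (hbU e H1 H2) XW Wo o i c0 d0 lv Q b' gW hHm hsz hXq' hXdg
      hx1 hQ1 hQ2 hQ3 hDH hd1 hd2 hd3 hnum2 hCg hdg2

end Pool.Agent.MPd266dbE
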