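import Pool.Agent.Lib.MP_d266db_co.E.SpecF

/-!
# MP_d266db_co, E, Cvr: the covering
-/

set_option autoImplicit false

namespace Pool.Agent.MPd266dbE

open Finset Pool.Agent.MPd266db Pool.Agent.MPd266dbH

private theorem cvr_odU {n : ℕ} {P P' : Finset (Fin n × Fin n)} (hd : Disjoint P P') (v : Fin n) :
    od (P ∪ P') v = od P v + od P' v := by
  unfold od
  rw [filter_union, card_union_of_disjoint (disjoint_filter_filter hd)]

private theorem cvr_idU {n : ℕ} {P P' : Finset (Fin n × Fin n)} (hd : Disjoint P P') (v : Fin n) :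
    idg (P ∪ P') v = idg P v + idg P' v := by
  unfold idg
  rw [filter_union, card_union_of_disjoint (disjoint_filter_filter hd)]

private theorem cvr_odS {n : ℕ} {G A : Finset (Fin n × Fin n)} (h : A ⊆ G) (v : Fin n) :
    od (G \ A) v + od A v = od G v := by
  rw [← cvr_odU sdiff_disjoint, sdiff_union_of_subset h]

private theorem cvr_idS {n : ℕ} {G A : Finset (Fin n × Fin n)} (h : A ⊆ G) (v : Fin n) :
    idg (G \ A) v + idg A v = idg G v := by
  rw [← cvr_idU sdiff_disjoint, sdiff_union_of_subset h]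

private theorem cvr_disj {n : ℕ} {σ τ : Equiv.Perm (Fin n)} (h : ∀ v, σ v ≠ τ v) :
    Disjoint (arcs σ) (arcs τ) := by
  rw [Finset.disjoint_left]
  intro a ha ha'
  rw [mem_arcs] at ha ha'
  exact h a.1 (ha.trans ha'.symm)

private theorem cvr_odB {n h : ℕ} (C : Fin h → Equiv.Perm (Fin n)) (I : Finset (Fin h))
    (hd : ∀ c ∈ I, ∀ c' ∈ I, c ≠ c' → ∀ v, C c v ≠ C c' v) (v : Fin n) :
    od (I.biUnion (fun c => arcs (C c))) v = I.card ∧
    idg (I.biUnion (fun c => arcs (C c))) v = I.card := by
  constructor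
  · have : od (I.biUnion (fun c => arcs (C c))) v = ∑ c ∈ I, od (arcs (C c)) v := by
      unfold od
      rw [filter_biUnion, card_biUnion]
      intro c hc c' hc' hne
      exact disjoint_filter_filter (cvr_disj (hd c hc c' hc' hne))
    rw [this, sum_congr rfl (fun c _ => od_arcs (C c) v), sum_const, smul_eq_mul, mul_one]
  · have : idg (I.biUnion (fun c => arcs (C c))) v = ∑ c ∈ I, idg (arcs (C c)) v := by
      unfold idg
      rw [filter_biUnion, card_biUnion]
      intro c hc c' hc' hne
      exact disjoint_filter_filter (cvr_disj (hd c hc c' hc' hne))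
    rw [this, sum_congr rfl (fun c _ => idg_arcs (C c) v), sum_const, smul_eq_mul, mul_one]

private theorem cvr_LFX {n : ℕ} {X : Finset (Fin n × Fin n)} (h : VD X) : LF X := by
  refine ⟨?_, ?_, fun v => if v ∈ hds X then 1 else 0, ?_⟩
  · intro a ha a' ha' he
    by_contra hne
    exact (h.1 a ha a' ha' hne).1 he
  · intro a ha a' ha' he
    by_contra hne
    exact (h.1 a ha a' ha' hne).2 he
  · intro a ha
    have h1 : a.1 ∉ hds X := by
      intro hm
      obtain ⟨c, hc, hce⟩ := mem_hds.1 hm
      exact h.2 a ha c hc hce.symm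
    have h2 : a.2 ∈ hds X := mem_hds.2 ⟨a, ha, rfl⟩
    simp only [if_neg h1, if_pos h2]
    exact Nat.zero_lt_one

private theorem cvr_LFP {n : ℕ} (hLFu : S_LFu) {P X : Finset (Fin n × Fin n)} (hP : LF P)
    (hX : LF X) (hd : Disjoint (vts P) (vts X)) : LF (P ∪ X) := by
  have h := hLFu n Bool univ (fun b => if b = true then P else X)
    (by
      intro b _
      cases b
      · exact hX
      · exact hP)
    (by
      intro b _ b' _ hne
      cases b
      · cases b'
        · exact absurd rfl hne
        · exact hd.symm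
      · cases b'
        · exact hd
        · exact absurd rfl hne)
  have e : (univ : Finset Bool).biUnion (fun b => if b = true then P else X) = P ∪ X := by
    ext a
    simp only [mem_biUnion, mem_univ, true_and, mem_union, Bool.exists_bool]
    rw [if_neg (by simp), if_pos trivial]
    exact or_comm
  rw [e] at h
  exact h

/-- tails of a set of arcs with distinct tails in a class -/
private theorem cvr_tl {n M : ℕ} {P : Finset (Fin n × Fin n)} (f : Fin n → Fin M) (A : Fin M)
    (h : ∀ e ∈ P, ∀ e' ∈ P, e.1 = e'.1 → e = e') :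
    (Cl f A \ tls P).card + (P.filter (fun q => f q.1 = A)).card = (Cl f A).card := by
  have e1 : (P.filter (fun q => f q.1 = A)).card = (Cl f A ∩ tls P).card := by
    rw [← card_image_of_injOn (f := Prod.fst) (s := P.filter (fun q => f q.1 = A))]
    · congr 1
      ext v
      simp only [mem_image, mem_filter, mem_inter, Cl, mem_univ, true_and, mem_tls]
      constructor
      · rintro ⟨q, ⟨h1, h2⟩, rfl⟩
        exact ⟨h2, q, h1, rfl⟩
      · rintro ⟨h1, q, h2, rfl⟩
        exact ⟨q, ⟨h2, h1⟩, rfl⟩
    · intro q hq q' hq' he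
      exact h q (mem_filter.1 hq).1 q' (mem_filter.1 hq').1 he
  rw [e1]
  exact card_sdiff_add_card_inter _ _

private theorem cvr_hd {n M : ℕ} {P : Finset (Fin n × Fin n)} (f : Fin n → Fin M) (A : Fin M)
    (h : ∀ e ∈ P, ∀ e' ∈ P, e.2 = e'.2 → e = e') :
    (Cl f A \ hds P).card + (P.filter (fun q => f q.2 = A)).card = (Cl f A).card := by
  have e1 : (P.filter (fun q => f q.2 = A)).card = (Cl f A ∩ hds P).card := by
    rw [← card_image_of_injOn (f := Prod.snd) (s := P.filter (fun q => f q.2 = A))]
    · congr 1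
      ext v
      simp only [mem_image, mem_filter, mem_inter, Cl, mem_univ, true_and, mem_hds]
      constructor
      · rintro ⟨q, ⟨h1, h2⟩, rfl⟩
        exact ⟨h2, q, h1, rfl⟩
      · rintro ⟨h1, q, h2, rfl⟩
        exact ⟨q, ⟨h2, h1⟩, rfl⟩
    · intro q hq q' hq' he
      exact h q (mem_filter.1 hq).1 q' (mem_filter.1 hq').1 he
  rw [e1]
  exact card_sdiff_add_card_inter _ _

private theorem cvr_fX {n M : ℕ} {X : Finset (Fin n × Fin n)} (g : Fin n × Fin n → Fin M)
    (A B : Fin M) (h : ∀ q ∈ X, g q = B) :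
    (X.filter (fun q => g q = A)).card = if A = B then X.card else 0 := by
  by_cases hAB : A = B
  · rw [if_pos hAB, filter_true_of_mem]
    intro q hq
    rw [h q hq, hAB]
  · rw [if_neg hAB, card_eq_zero, filter_eq_empty_iff]
    intro q hq he
    exact hAB (he.symm.trans (h q hq))

theorem tCvr (hXPk : S_XPk) (hLFu : S_LFu) : S_Cvr := by
  intro n K e h p s Δx C0 C2 D Hb XW Wo o i c0 d0 lv Q b' gW hHm hsz hXW hXd hΔ hQd hQU hQ
    hDH hDHW hDHX hWX hbig hgW hreg
  classical
  have hQsub : ∀ c, Q c ⊆ D ∪ Hb := by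
    intro c a ha
    rw [← hQU]
    exact mem_biUnion.2 ⟨c, mem_univ _, ha⟩
  have hQX : ∀ c a, a ∈ Q c → a ∉ XW := fun c a ha =>
    Finset.disjoint_left.1 hDHX (hQsub c ha)
  have hQW : ∀ c a, a ∈ Q c → a ∉ Wo := fun c a ha =>
    Finset.disjoint_left.1 hDHW (hQsub c ha)
  have key : ∀ k, k ≤ h → ∃ C : Fin h → Equiv.Perm (Fin n), ∀ c : Fin h, (c : ℕ) < k →
      (Ham (C c) ∧ (∀ a ∈ Q c, C c a.1 = a.2) ∧
        (∀ v, (v, C c v) ∈ Q c ∨ (v, C c v) ∈ XW ∪ Wo) ∧ (XW ∩ arcs (C c)).card ≤ p) ∧
      ∀ c' : Fin h, (c' : ℕ) < k → c ≠ c' → ∀ v, C c v ≠ C c' v := by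
    intro k
    induction k with
    | zero =>
      intro _
      exact ⟨fun _ => Equiv.refl _, fun c hc => absurd hc (Nat.not_lt_zero _)⟩
    | succ k ih =>
      intro hk
      obtain ⟨C, hC⟩ := ih (by omega)
      obtain ⟨c, hck⟩ : ∃ c : Fin h, (c : ℕ) = k := ⟨⟨k, by omega⟩, rfl⟩
      obtain ⟨q1, q2, q3, q4, q5⟩ := hQ c
      -- the used arcs
      obtain ⟨I, hI⟩ : ∃ I : Finset (Fin h), ∀ c', c' ∈ I ↔ (c' : ℕ) < k :=
        ⟨univ.filter (fun c' => (c' : ℕ) < k), fun c' => by simp⟩
      have hIc : I.card ≤ h := by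
        have := card_le_univ I
        rwa [Fintype.card_fin] at this
      have hZd : Dg (I.biUnion (fun c' => arcs (C c'))) h := by
        intro v
        have := cvr_odB C I (fun c' hc' c'' hc'' hne =>
          (hC c' ((hI c').1 hc')).2 c'' ((hI c'').1 hc'') hne) v
        rw [this.1, this.2]
        exact ⟨hIc, hIc⟩
      have hUX : (XW ∩ I.biUnion (fun c' => arcs (C c'))).card ≤ h * p := by
        have e1 : XW ∩ I.biUnion (fun c' => arcs (C c')) =
            I.biUnion (fun c' => XW ∩ arcs (C c')) := by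
          ext a
          simp only [mem_inter, mem_biUnion]
          constructor
          · rintro ⟨h1, c', h2, h3⟩
            exact ⟨c', h2, h1, h3⟩
          · rintro ⟨c', h2, h1, h3⟩
            exact ⟨h1, c', h2, h3⟩
        rw [e1]
        have e2 := card_biUnion_le_card_mul I (fun c' => XW ∩ arcs (C c')) p
          (fun c' hc' => (hC c' ((hI c').1 hc')).1.2.2.2)
        exact e2.trans (Nat.mul_le_mul_right _ hIc)
      obtain ⟨X, hXs, hXV, hXc, hXv⟩ := hXPk n (p - b' c) Δx XW
        (XW ∩ I.biUnion (fun c' => arcs (C c'))) (vts (Q c)) (fun q hq => (hXW q hq).1) hXd hΔ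
        (by
          have e1 : 4 * Δx * (p - b' c) ≤ 4 * Δx * p := Nat.mul_le_mul_left _ (Nat.sub_le _ _)
          omega)
      have hXW' : ∀ a ∈ X, a ∈ XW := fun a ha => (Finset.mem_sdiff.1 (hXs ha)).1
      have hLF : LF (Q c ∪ X) := by
        refine cvr_LFP hLFu q1 (cvr_LFX hXV) ?_
        rw [Finset.disjoint_left]
        intro v hv hv'
        unfold vts at hv'
        rcases mem_union.1 hv' with hv' | hv'
        · obtain ⟨a, ha, hae⟩ := mem_tls.1 hv'
          exact (hXv a ha).1 (hae ▸ hv)
        · obtain ⟨a, ha, hae⟩ := mem_hds.1 hv'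
          exact (hXv a ha).2 (hae ▸ hv)
      have hQXd : Disjoint (Q c) X := by
        rw [Finset.disjoint_left]
        intro a ha ha'
        exact hQX c a ha (hXW' a ha')
      have hcard : (((Q c ∪ X).card : ℕ) : ℝ) ≤ gW * n := by
        refine le_trans ?_ hgW
        have := card_union_le (Q c) X
        exact_mod_cast (by omega : (Q c ∪ X).card ≤ C0 + p)
      have hBal : Bal (bxo e lv o) (bxi e lv i) (Q c ∪ X) := by
        intro A
        have t1 := cvr_tl (bxo e lv o) A hLF.1
        have t2 := cvr_hd (bxi e lv i) A hLF.2.1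
        rw [filter_union, card_union_of_disjoint (disjoint_filter_filter hQXd),
          cvr_fX (fun q => bxo e lv o q.1) A (bxe e c0) (fun q hq => (hXW q (hXW' q hq)).2.1)] at t1
        rw [filter_union, card_union_of_disjoint (disjoint_filter_filter hQXd),
          cvr_fX (fun q => bxi e lv i q.2) A (bxe e d0) (fun q hq => (hXW q (hXW' q hq)).2.2)] at t2
        have t3 := q5 A
        have t4 := hsz A
        rw [hXc] at t1 t2
        split_ifs at t1 t2 t3 t4 <;> omega
      obtain ⟨τ, τ1, τ2, τ3⟩ := hHm _ hZd (Q c ∪ X) hLF hcard hBal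
      have hclass : ∀ v, (v, τ v) ∈ Q c ∨ (v, τ v) ∈ X ∨
          (v, τ v) ∈ Wo \ I.biUnion (fun c' => arcs (C c')) := by
        intro v
        by_cases hv : v ∈ tls (Q c ∪ X)
        · obtain ⟨a, ha, hae⟩ := mem_tls.1 hv
          have h1 := τ2 a ha
          have h2 : (v, τ v) = a := by
            rw [← hae, h1]
          rw [h2]
          rcases mem_union.1 ha with ha | ha
          · exact Or.inl ha
          · exact Or.inr (Or.inl ha)
        · exact Or.inr (Or.inr (τ3 v hv))
      have hnew : ∀ c' : Fin h, (c' : ℕ) < k → ∀ v, C c' v ≠ τ v := by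
        intro c' hc' v he
        have hcne : c ≠ c' := fun hcc => by
          rw [← hcc] at hc'
          omega
        have hmZ : (v, τ v) ∈ I.biUnion (fun c' => arcs (C c')) :=
          mem_biUnion.2 ⟨c', (hI c').2 hc', mem_arcs.2 he⟩
        rcases hclass v with h1 | h1 | h1
        · rcases (hC c' hc').1.2.2.1 v with h2 | h2
          · rw [he] at h2
            exact Finset.disjoint_left.1 (hQd c c' hcne) h1 h2
          · rw [he] at h2
            rcases mem_union.1 h2 with h2 | h2
            · exact hQX c _ h1 h2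
            · exact hQW c _ h1 h2
        · exact (Finset.mem_sdiff.1 (hXs h1)).2 (mem_inter.2 ⟨hXW' _ h1, hmZ⟩)
        · exact (Finset.mem_sdiff.1 h1).2 hmZ
      have hupd : ∀ c' : Fin h, (c' : ℕ) < k → Function.update C c τ c' = C c' := by
        intro c' hc'
        apply Function.update_of_ne
        intro hcc
        rw [hcc] at hc'
        omega
      have hlt : ∀ c' : Fin h, (c' : ℕ) < k + 1 → c' = c ∨ (c' : ℕ) < k := by
        intro c' hc'
        rcases Nat.lt_or_ge (c' : ℕ) k with h1 | h1
        · exact Or.inr h1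
        · exact Or.inl (Fin.ext (by omega))
      refine ⟨Function.update C c τ, ?_⟩
      intro c1 hc1
      rcases hlt c1 hc1 with hh1 | hh1
      · rw [hh1, Function.update_self]
        refine ⟨⟨τ1, ?_, ?_, ?_⟩, ?_⟩
        · intro a ha
          exact τ2 a (mem_union_left _ ha)
        · intro v
          rcases hclass v with h1 | h1 | h1
          · exact Or.inl h1
          · exact Or.inr (mem_union_left _ (hXW' _ h1))
          · exact Or.inr (mem_union_right _ (Finset.mem_sdiff.1 h1).1)
        · have hsub : XW ∩ arcs τ ⊆ X := by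
            intro a ha
            obtain ⟨ha1, ha2⟩ := mem_inter.1 ha
            rw [mem_arcs] at ha2
            have ha3 : (a.1, τ a.1) = a := by rw [ha2]
            rcases hclass a.1 with h1 | h1 | h1
            · rw [ha3] at h1
              exact absurd ha1 (hQX c a h1)
            · rw [ha3] at h1
              exact h1
            · rw [ha3] at h1
              exact absurd ha1 (Finset.disjoint_left.1 hWX (Finset.mem_sdiff.1 h1).1)
          have := card_le_card hsub
          omega
        · intro c' hc' hne v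
          rcases hlt c' hc' with hh2 | hh2
          · exact absurd hh2.symm hne
          · rw [hupd c' hh2]
            exact fun he => hnew c' hh2 v he.symm
      · rw [hupd c1 hh1]
        refine ⟨(hC c1 hh1).1, ?_⟩
        intro c' hc' hne v
        rcases hlt c' hc' with hh2 | hh2
        · rw [hh2, Function.update_self]
          exact hnew c1 hh1 v
        · rw [hupd c' hh2]
          exact (hC c1 hh1).2 c' hh2 hne v
  obtain ⟨C, hC⟩ := key h le_rfl
  have hne : ∀ c c', c ≠ c' → ∀ v, C c v ≠ C c' v := fun c c' hcc =>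
    (hC c c.2).2 c' c'.2 hcc
  have hGm : ∀ c v, (v, C c v) ∈ D ∪ Hb ∪ (XW ∪ Wo) := by
    intro c v
    rcases (hC c c.2).1.2.2.1 v with h1 | h1
    · exact mem_union_left _ (hQsub c h1)
    · exact mem_union_right _ h1
  have hAsub : (univ : Finset (Fin h)).biUnion (fun c => arcs (C c)) ⊆ D ∪ Hb ∪ (XW ∪ Wo) := by
    intro a ha
    obtain ⟨c, -, hc⟩ := mem_biUnion.1 ha
    rw [mem_arcs] at hc
    have := hGm c a.1
    rw [hc] at this
    exact this
  have hd2 : Disjoint (D ∪ Hb) (XW ∪ Wo) := disjoint_union_right.2 ⟨hDHX, hDHW⟩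
  refine ⟨C, (D ∪ Hb ∪ (XW ∪ Wo)) \ (univ : Finset (Fin h)).biUnion (fun c => arcs (C c)),
    fun c => (hC c c.2).1.1, ?_, ?_, ?_, hne⟩
  · intro a ha
    obtain ⟨h1, h2⟩ := Finset.mem_sdiff.1 ha
    rcases mem_union.1 h1 with h1 | h1
    · exfalso
      apply h2
      rw [← hQU] at h1
      obtain ⟨c, -, hc⟩ := mem_biUnion.1 h1
      exact mem_biUnion.2 ⟨c, mem_univ _, mem_arcs.2 ((hC c c.2).1.2.1 a hc)⟩
    · rw [union_comm]
      exact h1
  · intro v
    have e1 := cvr_odS hAsub v
    have e2 := cvr_idS hAsub v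
    have e3 := cvr_odB C univ (fun c _ c' _ hcc => hne c c' hcc) v
    rw [card_univ, Fintype.card_fin] at e3
    rw [e3.1, cvr_odU hd2, cvr_odU hDH, cvr_odU hWX.symm] at e1
    rw [e3.2, cvr_idU hd2, cvr_idU hDH, cvr_idU hWX.symm] at e2
    have e4 := hreg v
    omega
  · intro c v
    refine ⟨hGm c v, ?_⟩
    intro hm
    exact (Finset.mem_sdiff.1 hm).2 (mem_biUnion.2 ⟨c, mem_univ _, mem_arcs.2 rfl⟩)

end Pool.Agent.MPd266dbE
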