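import Pool.Agent.Lib.MP_d266db_co.E.SpecH

/-!
# MP_d266db_co, E, Dch: low cross arcs or many high roles
-/

set_option autoImplicit false

namespace Pool.Agent.MPd266dbE

open Finset Pool.Agent.MPd266db Pool.Agent.MPd266dbH

private theorem dch_xcd {n K r : ℕ} {R : Finset (Fin n × Fin n)} {o i : Fin n → Fin K}
    {c0 d0 : Fin K} (hR : Reg R r) (hcd : c0 ≠ d0)
    (htwo : ∀ x y : Fin K, x ≠ y → (x = c0 ∧ y = d0) ∨ (x = d0 ∧ y = c0)) :
    (Xcd R o i c0 d0).card + (R.filter (fun q => o q.1 = c0 ∧ i q.2 = c0)).card =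
      r * (Cl o c0).card := by
  have h1 : eb R (Cl o c0) univ = r * (Cl o c0).card := by
    rw [eb_univ_right, Finset.sum_congr rfl (fun v _ => (hR v).1), sum_const, smul_eq_mul,
      mul_comm]
  rw [← h1, Xcd, ← card_union_of_disjoint]
  · unfold eb
    congr 1
    ext q
    simp only [mem_union, mem_filter, Cl, mem_univ, true_and, and_true]
    constructor
    · rintro (⟨h2, h3, _⟩ | ⟨h2, h3, _⟩) <;> exact ⟨h2, h3⟩
    · rintro ⟨h2, h3⟩
      by_cases h4 : i q.2 = c0
      · exact Or.inr ⟨h2, h3, h4⟩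
      · rcases htwo _ _ h4 with ⟨h5, _⟩ | ⟨h5, _⟩
        · exact absurd h5 h4
        · exact Or.inl ⟨h2, h3, h5⟩
  · rw [Finset.disjoint_left]
    intro q hq hq'
    simp only [mem_filter] at hq hq'
    exact hcd (hq'.2.2.symm.trans hq.2.2)

private theorem dch_xdc {n K r : ℕ} {R : Finset (Fin n × Fin n)} {o i : Fin n → Fin K}
    {c0 d0 : Fin K} (hR : Reg R r) (hcd : c0 ≠ d0)
    (htwo : ∀ x y : Fin K, x ≠ y → (x = c0 ∧ y = d0) ∨ (x = d0 ∧ y = c0)) :
    (Xcd R o i d0 c0).card + (R.filter (fun q => o q.1 = c0 ∧ i q.2 = c0)).card =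
      r * (Cl i c0).card := by
  have h1 : eb R univ (Cl i c0) = r * (Cl i c0).card := by
    rw [eb_univ_left, Finset.sum_congr rfl (fun v _ => (hR v).2), sum_const, smul_eq_mul,
      mul_comm]
  rw [← h1, Xcd, ← card_union_of_disjoint]
  · unfold eb
    congr 1
    ext q
    simp only [mem_union, mem_filter, Cl, mem_univ, true_and]
    constructor
    · rintro (⟨h2, _, h3⟩ | ⟨h2, _, h3⟩) <;> exact ⟨h2, h3⟩
    · rintro ⟨h2, h3⟩
      by_cases h4 : o q.1 = c0
      · exact Or.inr ⟨h2, h4, h3⟩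
      · rcases htwo _ _ h4 with ⟨h5, _⟩ | ⟨h5, _⟩
        · exact absurd h5 h4
        · exact Or.inl ⟨h2, h5, h3⟩
  · rw [Finset.disjoint_left]
    intro q hq hq'
    simp only [mem_filter] at hq hq'
    exact hcd (hq'.2.1.symm.trans hq.2.1)

private theorem dch_od {n K r : ℕ} {R : Finset (Fin n × Fin n)} {o i : Fin n → Fin K}
    {c0 d0 : Fin K} (hR : Reg R r) (hcd : c0 ≠ d0) (hod : ∀ v, r ≤ 2 * od (own o i R) v)
    (v : Fin n) : 2 * od (Xcd R o i c0 d0) v ≤ r := by
  have h1 : od (Xcd R o i c0 d0) v + od (own o i R) v ≤ od R v := by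
    unfold od Xcd own
    rw [← card_union_of_disjoint]
    · refine card_le_card fun q hq => ?_
      simp only [mem_union, mem_filter] at hq ⊢
      rcases hq with h | h
      · exact ⟨h.1.1, h.2⟩
      · exact ⟨h.1.1, h.2⟩
    · rw [Finset.disjoint_left]
      intro q hq hq'
      simp only [mem_filter] at hq hq'
      exact hcd (hq.1.2.1.symm.trans (hq'.1.2.trans hq.1.2.2))
  have h2 := hod v
  rw [(hR v).1] at h1
  omega

private theorem dch_id {n K r : ℕ} {R : Finset (Fin n × Fin n)} {o i : Fin n → Fin K}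
    {c0 d0 : Fin K} (hR : Reg R r) (hcd : c0 ≠ d0) (hid : ∀ v, r ≤ 2 * idg (own o i R) v)
    (v : Fin n) : 2 * idg (Xcd R o i c0 d0) v ≤ r := by
  have h1 : idg (Xcd R o i c0 d0) v + idg (own o i R) v ≤ idg R v := by
    unfold idg Xcd own
    rw [← card_union_of_disjoint]
    · refine card_le_card fun q hq => ?_
      simp only [mem_union, mem_filter] at hq ⊢
      rcases hq with h | h
      · exact ⟨h.1.1, h.2⟩
      · exact ⟨h.1.1, h.2⟩
    · rw [Finset.disjoint_left]
      intro q hq hq'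
      simp only [mem_filter] at hq hq'
      exact hcd (hq.1.2.1.symm.trans (hq'.1.2.trans hq.1.2.2))
  have h2 := hid v
  rw [(hR v).2] at h1
  omega

theorem tDch : S_Dch := by
  intro n K r p L R o i c0 d0 hR hCD hcd hod hid
  have e1 := dch_xcd (o := o) (i := i) hR hcd hCD.two
  have e2 := dch_xdc (o := o) (i := i) hR hcd hCD.two
  have hX : r * p ≤ (Xcd R o i c0 d0).card := by
    rw [hCD.sc, mul_add] at e1
    omega
  refine ⟨hX.trans (card_le_card fun q hq => ?_), ?_⟩
  · simp only [Xcd, crs, mem_filter] at hq ⊢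
    refine ⟨hq.1, ?_⟩
    rw [hq.2.1, hq.2.2]
    exact hcd
  · by_cases hlow : r * p ≤ 4 * (XLo R o i c0 d0 L).card
    · exact Or.inl hlow
    · right
      push Not at hlow
      have hT : 2 * eb (Xcd R o i c0 d0) (HiT R o i c0 d0 L) univ ≤
          r * (HiT R o i c0 d0 L).card := by
        rw [eb_univ_right, Finset.mul_sum]
        calc ∑ v ∈ HiT R o i c0 d0 L, 2 * od (Xcd R o i c0 d0) v
            ≤ ∑ v ∈ HiT R o i c0 d0 L, r := sum_le_sum fun v _ => dch_od hR hcd hod v
          _ = r * (HiT R o i c0 d0 L).card := by rw [sum_const, smul_eq_mul, mul_comm]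
      have hH : 2 * eb (Xcd R o i c0 d0) univ (HiH R o i c0 d0 L) ≤
          r * (HiH R o i c0 d0 L).card := by
        rw [eb_univ_left, Finset.mul_sum]
        calc ∑ v ∈ HiH R o i c0 d0 L, 2 * idg (Xcd R o i c0 d0) v
            ≤ ∑ v ∈ HiH R o i c0 d0 L, r := sum_le_sum fun v _ => dch_id hR hcd hid v
          _ = r * (HiH R o i c0 d0 L).card := by rw [sum_const, smul_eq_mul, mul_comm]
      have hcov : (Xcd R o i c0 d0).card ≤ (XLo R o i c0 d0 L).card +
          (eb (Xcd R o i c0 d0) (HiT R o i c0 d0 L) univ +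
            eb (Xcd R o i c0 d0) univ (HiH R o i c0 d0 L)) := by
        have hsub : Xcd R o i c0 d0 ⊆ XLo R o i c0 d0 L ∪
            ((Xcd R o i c0 d0).filter (fun e => e.1 ∈ HiT R o i c0 d0 L ∧ e.2 ∈ (univ : Finset (Fin n))) ∪
              (Xcd R o i c0 d0).filter (fun e => e.1 ∈ (univ : Finset (Fin n)) ∧ e.2 ∈ HiH R o i c0 d0 L)) := by
          intro q hq
          by_cases h1 : L < od (Xcd R o i c0 d0) q.1
          · refine mem_union_right _ (mem_union_left _ ?_)
            rw [mem_filter]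
            exact ⟨hq, by rw [HiT, mem_filter]; exact ⟨mem_univ _, h1⟩, mem_univ _⟩
          · by_cases h2 : L < idg (Xcd R o i c0 d0) q.2
            · refine mem_union_right _ (mem_union_right _ ?_)
              rw [mem_filter]
              exact ⟨hq, mem_univ _, by rw [HiH, mem_filter]; exact ⟨mem_univ _, h2⟩⟩
            · refine mem_union_left _ ?_
              rw [XLo, mem_filter]
              exact ⟨hq, not_lt.mp h1, not_lt.mp h2⟩
        exact (card_le_card hsub).trans ((card_union_le _ _).trans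
          (Nat.add_le_add_left (card_union_le _ _) _))
      have hfin : r * p < r * ((HiT R o i c0 d0 L).card + (HiH R o i c0 d0 L).card) := by
        rw [mul_add r]
        omega
      exact (lt_of_mul_lt_mul_left hfin (Nat.zero_le r)).le

end Pool.Agent.MPd266dbE
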