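import Pool.Agent.Lib.MP_d266db_co.E.SpecD

/-! # MP_d266db_co, E: the properties `Prt` (`tPrM`) (helper99) -/

set_option autoImplicit false

namespace Pool.Agent.MPd266dbE

open Finset Pool.Agent.MPd266db Pool.Agent.MPd266dbH

theorem prm_c5 {n : ℕ} {a b c d e : Fin n} (h : ({a, b, c, d, e} : Finset (Fin n)).card = 5) :
    a ≠ b := by
  rintro rfl
  have h1 : ({a, a, c, d, e} : Finset (Fin n)) ⊆ {a, c, d, e} := by
    intro v hv
    simp only [mem_insert, mem_singleton] at hv ⊢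
    tauto
  have h2 := card_le_card h1
  have h3 : ({a, c, d, e} : Finset (Fin n)).card ≤ 4 := card_le_four
  omega

theorem prm_c4 {n : ℕ} {q : Fin n × Fin n × Fin n × Fin n} (h : (qv q).card = 4) : q.1 ≠ q.2.1 := by
  obtain ⟨a, b, c, d⟩ := q
  simp only [qv] at h
  rintro (rfl : a = b)
  have h1 : ({a, a, c, d} : Finset (Fin n)) ⊆ {a, c, d} := by
    intro v hv
    simp only [mem_insert, mem_singleton] at hv ⊢
    tauto
  have h2 := card_le_card h1
  have h3 : ({a, c, d} : Finset (Fin n)).card ≤ 3 := card_le_three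
  omega

theorem prm_tq {n mF q : ℕ} (σ : Fin mF → Equiv.Perm (Fin n))
    (T : Fin mF → Finset (Fin n × Fin n)) (col : Fin mF → Fin n × Fin n → Fin q) (f : Fin mF)
    (t : Fin n × Fin n) (ht : t ∈ T f) :
    (t.1, t.2, σ f t.2, σ f t.1) ∈ tq σ T col (finProdFinEquiv (f, col f t)) := by
  unfold tq
  rw [mem_image]
  refine ⟨t, ?_, ?_⟩
  · rw [mem_filter, Equiv.symm_apply_apply]
    exact ⟨ht, rfl⟩
  · rw [Equiv.symm_apply_apply]

theorem prm_vt {n mF q : ℕ} (σ : Fin mF → Equiv.Perm (Fin n))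
    (T : Fin mF → Finset (Fin n × Fin n)) (col : Fin mF → Fin n × Fin n → Fin q)
    (g : Fin (mF * q)) (a : Fin n × Fin n × Fin n × Fin n) (ha : a ∈ tq σ T col g) (v : Fin n)
    (hv : v ∈ qv a) : v ∈ Vt σ T col g := by
  unfold Vt
  rw [dif_pos g.2]
  exact mem_biUnion.2 ⟨a, ha, hv⟩

theorem tPrM : S_PrM := by
  classical
  intro n mF q σ T col lk x x' y₁ y₂ y₃ π S Z1 B h3 hL hQD hπ hham
  have m1 : ∀ a : Fin n × Fin n × Fin n × Fin n, a.1 ∈ qv a := fun a => by simp [qv]
  have m2 : ∀ a : Fin n × Fin n × Fin n × Fin n, a.2.1 ∈ qv a := fun a => by simp [qv]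
  have e1 : ∀ g : Fin (mF * q), ∀ a ∈ tq σ T col g, a ∈ ent σ T col lk x x' y₁ y₂ y₃ g :=
    fun g a ha => mem_union_left _ ha
  have e2 : ∀ g : Fin (mF * q), (g : ℕ) + 1 < mF * q →
      lk g ∈ ent σ T col lk x x' y₁ y₂ y₃ g := by
    intro g hg
    refine mem_union_right _ (mem_union_left _ ?_)
    rw [if_pos hg]
    exact mem_singleton_self _
  have e3 : ∀ g : Fin (mF * q), 1 ≤ (g : ℕ) →
      ((lk (g - 1)).1, (lk (g - 1)).2.1, (lk (g - 1)).2.2.2, (lk (g - 1)).2.2.1) ∈
        ent σ T col lk x x' y₁ y₂ y₃ g := by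
    intro g hg
    refine mem_union_right _ (mem_union_right _ (mem_union_left _ ?_))
    rw [if_pos hg]
    exact mem_singleton_self _
  have e4 : ∀ g : Fin (mF * q), (g : ℕ) = 0 → (x, x', y₁, y₂) ∈
      ent σ T col lk x x' y₁ y₂ y₃ g := by
    intro g hg
    refine mem_union_right _ (mem_union_right _ (mem_union_right _ ?_))
    rw [if_pos hg]
    exact mem_singleton_self _
  have e5 : ∀ g : Fin (mF * q), (g : ℕ) = 1 → (x, x', y₂, y₃) ∈
      ent σ T col lk x x' y₁ y₂ y₃ g := by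
    intro g hg
    refine mem_union_right _ (mem_union_right _ (mem_union_right _ ?_))
    rw [if_neg (by omega), if_pos hg]
    exact mem_singleton_self _
  have e6 : ∀ g : Fin (mF * q), (g : ℕ) = 2 → (x, x', y₃, y₁) ∈
      ent σ T col lk x x' y₁ y₂ y₃ g := by
    intro g hg
    refine mem_union_right _ (mem_union_right _ (mem_union_right _ ?_))
    rw [if_neg (by omega), if_neg (by omega), if_pos hg]
    exact mem_singleton_self _
  have hxx : x ≠ x' := prm_c5 hL.c5
  have tv : ∀ f, ∀ t ∈ T f, ∀ g : Fin (mF * q), g = finProdFinEquiv (f, col f t) →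
      t.1 ∈ Vt σ T col g ∧ t.2 ∈ Vt σ T col g := by
    rintro f t ht g rfl
    have h1 := prm_tq σ T col f t ht
    exact ⟨prm_vt σ T col _ _ h1 _ (m1 _), prm_vt σ T col _ _ h1 _ (m2 _)⟩
  refine ⟨?_, ?_, ?_, ?_, ?_, hxx, ?_, ?_, ?_⟩
  · intro f t ht
    exact hπ _ _ (e1 _ _ (prm_tq σ T col f t ht))
  · intro g g' hg
    have h1 := hπ g _ (e2 g (by have := g'.2; omega))
    have h2 := hπ g' _ (e3 g' (by omega))
    have h4 : (g' : ℕ) - 1 = g := by omega
    rw [h4] at h2
    exact ⟨h2.1.trans h1.2.symm, h2.2.trans h1.1.symm⟩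
  · intro g0 g1 g2 hg0 hg1 hg2
    have h0 := hπ g0 _ (e4 g0 hg0)
    have h1 := hπ g1 _ (e5 g1 hg1)
    have h2 := hπ g2 _ (e6 g2 hg2)
    exact ⟨h1.1.trans h0.2.symm, h2.1.trans h1.2.symm, h0.1.trans h2.2.symm⟩
  · intro g E hE
    refine hham g E (hE.trans ?_)
    intro e he
    unfold qpr
    rw [mem_image]
    unfold PPs at he
    rw [mem_union, mem_union, mem_union] at he
    rcases he with he | he | he | he
    · refine ⟨(e.1, e.2, σ (finProdFinEquiv.symm g).1 e.2, σ (finProdFinEquiv.symm g).1 e.1),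
        e1 g _ ?_, rfl⟩
      unfold tq
      rw [mem_image]
      exact ⟨e, he, rfl⟩
    · split_ifs at he with h
      · rw [mem_singleton] at he
        subst he
        exact ⟨lk g, e2 g h, rfl⟩
      · exact absurd he (notMem_empty _)
    · split_ifs at he with h
      · rw [mem_singleton] at he
        subst he
        exact ⟨_, e3 g h, rfl⟩
      · exact absurd he (notMem_empty _)
    · split_ifs at he with h
      · rw [mem_singleton] at he
        subst he
        rcases (show (g : ℕ) = 0 ∨ (g : ℕ) = 1 ∨ (g : ℕ) = 2 by omega) with h' | h' | h'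
        · exact ⟨_, e4 g h', rfl⟩
        · exact ⟨_, e5 g h', rfl⟩
        · exact ⟨_, e6 g h', rfl⟩
      · exact absurd he (notMem_empty _)
  · intro g hg
    exact prm_c4 (hL.c4 g (by omega))
  · intro f t ht g hg
    obtain ⟨t1, t2⟩ := tv f t ht g hg
    refine ⟨fun h => ?_, fun h => ?_, fun h => ?_⟩
    · have k := hL.v4 g (by omega)
      have k1 := (k _ (m1 _)).2.1
      have k2 := (k _ (m2 _)).2.1
      exact ⟨ne_of_mem_of_not_mem t1 k1, ne_of_mem_of_not_mem t1 k2, ne_of_mem_of_not_mem t2 k1,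
        ne_of_mem_of_not_mem t2 k2⟩
    · have k := hL.v4 (g - 1) (by have := g.2; omega)
      have k1 := (k _ (m1 _)).2.2.1
      have k2 := (k _ (m2 _)).2.2.1
      have h4 : (g : ℕ) - 1 + 1 = g := by omega
      rw [h4] at k1 k2
      exact ⟨ne_of_mem_of_not_mem t1 k1, ne_of_mem_of_not_mem t1 k2, ne_of_mem_of_not_mem t2 k1,
        ne_of_mem_of_not_mem t2 k2⟩
    · have k1 : x ∉ Vt σ T col g := by
        have k := hL.v5 x (by simp)
        rcases (show (g : ℕ) = 0 ∨ (g : ℕ) = 1 ∨ (g : ℕ) = 2 by omega) with h' | h' | h' <;> rw [h']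
        · exact k.2.1
        · exact k.2.2.1
        · exact k.2.2.2
      have k2 : x' ∉ Vt σ T col g := by
        have k := hL.v5 x' (by simp)
        rcases (show (g : ℕ) = 0 ∨ (g : ℕ) = 1 ∨ (g : ℕ) = 2 by omega) with h' | h' | h' <;> rw [h']
        · exact k.2.1
        · exact k.2.2.1
        · exact k.2.2.2
      exact ⟨ne_of_mem_of_not_mem t1 k1, ne_of_mem_of_not_mem t1 k2, ne_of_mem_of_not_mem t2 k1,
        ne_of_mem_of_not_mem t2 k2⟩
  · intro g hg
    have k := disjoint_left.1 (hL.vd g (by omega))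
    exact ⟨(ne_of_mem_of_not_mem (m1 (lk (g + 1))) (k (m1 (lk g)))).symm,
      (ne_of_mem_of_not_mem (m2 (lk (g + 1))) (k (m1 (lk g)))).symm,
      (ne_of_mem_of_not_mem (m1 (lk (g + 1))) (k (m2 (lk g)))).symm,
      (ne_of_mem_of_not_mem (m2 (lk (g + 1))) (k (m2 (lk g)))).symm⟩
  · intro g hg hg'
    have k := hL.v4 g (by omega)
    have k1 := (k _ (m1 _)).2.2.2
    have k2 := (k _ (m2 _)).2.2.2
    simp only [mem_insert, mem_singleton, not_or] at k1 k2
    exact ⟨k1.1, k1.2.1, k2.1, k2.2.1⟩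

end Pool.Agent.MPd266dbE
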