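import Pool.Agent.Lib.MP_d266db_co.E.PtF
import Pool.Agent.Lib.MP_d266db_co.E.PrM

/-! # MP_d266db_co, E: the quadruples of the partners (`tEnt`) (helper99) -/

set_option autoImplicit false

namespace Pool.Agent.MPd266dbE

open Finset Pool.Agent.MPd266db Pool.Agent.MPd266dbH

theorem ent_c5 {n : ℕ} {a b c d e : Fin n} (h : ({a, b, c, d, e} : Finset (Fin n)).card = 5) :
    (a ≠ b ∧ a ≠ c ∧ a ≠ d ∧ a ≠ e) ∧ (b ≠ c ∧ b ≠ d ∧ b ≠ e) ∧ (c ≠ d ∧ c ≠ e) ∧ d ≠ e := by
  have key : ∀ w x y z : Fin n, ({a, b, c, d, e} : Finset (Fin n)) ⊆ {w, x, y, z} → False := by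
    intro w x y z hs
    have h1 := card_le_card hs
    have h2 : ({w, x, y, z} : Finset (Fin n)).card ≤ 4 := card_le_four
    omega
  refine ⟨⟨?_, ?_, ?_, ?_⟩, ⟨?_, ?_, ?_⟩, ⟨?_, ?_⟩, ?_⟩ <;> intro h1 <;> subst h1
  · exact key a c d e (by intro v hv; simp only [mem_insert, mem_singleton] at hv ⊢; tauto)
  · exact key a b d e (by intro v hv; simp only [mem_insert, mem_singleton] at hv ⊢; tauto)
  · exact key a b c e (by intro v hv; simp only [mem_insert, mem_singleton] at hv ⊢; tauto)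
  · exact key a b c d (by intro v hv; simp only [mem_insert, mem_singleton] at hv ⊢; tauto)
  · exact key a b d e (by intro v hv; simp only [mem_insert, mem_singleton] at hv ⊢; tauto)
  · exact key a b c e (by intro v hv; simp only [mem_insert, mem_singleton] at hv ⊢; tauto)
  · exact key a b c d (by intro v hv; simp only [mem_insert, mem_singleton] at hv ⊢; tauto)
  · exact key a b c e (by intro v hv; simp only [mem_insert, mem_singleton] at hv ⊢; tauto)
  · exact key a b c d (by intro v hv; simp only [mem_insert, mem_singleton] at hv ⊢; tauto)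
  · exact key a b c d (by intro v hv; simp only [mem_insert, mem_singleton] at hv ⊢; tauto)

theorem ent_four {n : ℕ} {a b c d : Fin n} (h1 : a ≠ b) (h2 : a ≠ c) (h3 : a ≠ d) (h4 : b ≠ c)
    (h5 : b ≠ d) (h6 : c ≠ d) : (qv (a, b, c, d)).card = 4 := by
  show ({a, b, c, d} : Finset (Fin n)).card = 4
  rw [card_insert_of_notMem, card_insert_of_notMem, card_insert_of_notMem, card_singleton]
  · simpa using h6
  · simp only [mem_insert, mem_singleton, not_or]
    exact ⟨h4, h5⟩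
  · simp only [mem_insert, mem_singleton, not_or]
    exact ⟨h1, h2, h3⟩

theorem ent_qar {n : ℕ} {P : Finset (Fin n × Fin n × Fin n × Fin n)} {α : Fin n × Fin n} :
    α ∈ qar P ↔ ∃ a ∈ P, α = (a.1, a.2.2.1) ∨ α = (a.2.1, a.2.2.2) := by
  unfold qar
  rw [mem_union, mem_image, mem_image]
  constructor
  · rintro (⟨a, ha, rfl⟩ | ⟨a, ha, rfl⟩)
    · exact ⟨a, ha, Or.inl rfl⟩
    · exact ⟨a, ha, Or.inr rfl⟩
  · rintro ⟨a, ha, rfl | rfl⟩
    · exact Or.inl ⟨a, ha, rfl⟩
    · exact Or.inr ⟨a, ha, rfl⟩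

theorem ent_tq {n mF q : ℕ} {σ : Fin mF → Equiv.Perm (Fin n)}
    {T : Fin mF → Finset (Fin n × Fin n)} {col : Fin mF → Fin n × Fin n → Fin q}
    {g : Fin (mF * q)} {a : Fin n × Fin n × Fin n × Fin n} (ha : a ∈ tq σ T col g) :
    ∃ f, ∃ t ∈ T f, g = finProdFinEquiv (f, col f t) ∧ a = (t.1, t.2, σ f t.2, σ f t.1) := by
  unfold tq at ha
  rw [mem_image] at ha
  obtain ⟨t, ht, rfl⟩ := ha
  rw [mem_filter] at ht
  refine ⟨(finProdFinEquiv.symm g).1, t, ht.1, ?_, rfl⟩
  rw [ht.2]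
  exact (Equiv.apply_symm_apply finProdFinEquiv g).symm

theorem ent_cases {n mF q : ℕ} {σ : Fin mF → Equiv.Perm (Fin n)}
    {T : Fin mF → Finset (Fin n × Fin n)} {col : Fin mF → Fin n × Fin n → Fin q}
    {lk : ℕ → Fin n × Fin n × Fin n × Fin n} {x x' y₁ y₂ y₃ : Fin n} {g : Fin (mF * q)}
    {a : Fin n × Fin n × Fin n × Fin n} (ha : a ∈ ent σ T col lk x x' y₁ y₂ y₃ g) :
    a ∈ tq σ T col g ∨ ((g : ℕ) + 1 < mF * q ∧ a = lk g) ∨
      (1 ≤ (g : ℕ) ∧ a = ((lk (g - 1)).1, (lk (g - 1)).2.1, (lk (g - 1)).2.2.2,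
        (lk (g - 1)).2.2.1)) ∨
      (((g : ℕ) = 0 ∧ a = (x, x', y₁, y₂)) ∨ ((g : ℕ) = 1 ∧ a = (x, x', y₂, y₃)) ∨
        ((g : ℕ) = 2 ∧ a = (x, x', y₃, y₁))) := by
  unfold ent at ha
  rw [mem_union, mem_union, mem_union] at ha
  rcases ha with ha | ha | ha | ha
  · exact Or.inl ha
  · split_ifs at ha with h
    · exact Or.inr (Or.inl ⟨h, mem_singleton.1 ha⟩)
    · exact absurd ha (notMem_empty _)
  · split_ifs at ha with h
    · exact Or.inr (Or.inr (Or.inl ⟨h, mem_singleton.1 ha⟩))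
    · exact absurd ha (notMem_empty _)
  · split_ifs at ha with h h' h''
    · exact Or.inr (Or.inr (Or.inr (Or.inl ⟨h, mem_singleton.1 ha⟩)))
    · exact Or.inr (Or.inr (Or.inr (Or.inr (Or.inl ⟨h', mem_singleton.1 ha⟩))))
    · exact Or.inr (Or.inr (Or.inr (Or.inr (Or.inr ⟨h'', mem_singleton.1 ha⟩))))
    · exact absurd ha (notMem_empty _)

theorem tEnt : S_Ent := by
  classical
  intro n e mF q Mx lv S Z0 jj X σ T col lk x x' y₁ y₂ y₃ hlv h3 hF hD hM hC hL
  obtain ⟨⟨p1, p2, p3, p4⟩, ⟨p5, p6, p7⟩, ⟨p8, p9⟩, p10⟩ := ent_c5 hL.c5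
  -- levels of a tile
  have lvσ : ∀ f v, 1 ≤ lv v → lv v + 1 < e → lv (σ f v) = lv v + 1 := by
    intro f v h1 h2
    have h4 := ((hF f).wn v).1
    unfold tgp hgp at h4
    rw [min_eq_left (by omega)] at h4
    split_ifs at h4 with h5
    · omega
    · omega
  have tlv : ∀ f, ∀ t ∈ T f, 1 ≤ lv t.1 ∧ lv t.1 + 1 < e ∧ lv t.2 = lv t.1 ∧
      lv (σ f t.1) = lv t.1 + 1 ∧ lv (σ f t.2) = lv t.1 + 1 := by
    intro f t ht
    obtain ⟨h1, h2, h4, -⟩ := (hF f).tl t ht
    refine ⟨h2, h4, h1.symm, lvσ f t.1 h2 h4, ?_⟩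
    rw [lvσ f t.2 (by omega) (by omega)]
    omega
  have hnelv : ∀ u v : Fin n, lv u ≠ lv v → u ≠ v := fun u v h h' => h (by rw [h'])
  -- the vertex sets of the four kinds of quadruples
  have tv : ∀ g : Fin (mF * q), ∀ a ∈ tq σ T col g, ∀ v ∈ qv a, v ∈ Vt σ T col g :=
    fun g a ha v hv => prm_vt σ T col g a ha v hv
  have s3 : ∀ a : Fin n × Fin n × Fin n × Fin n, ∀ v, v ∈ qv (a.1, a.2.1, a.2.2.2, a.2.2.1) →
      v ∈ qv a := by
    intro a v hv
    simp only [qv, mem_insert, mem_singleton] at hv ⊢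
    tauto
  have s5 : ∀ g : ℕ, ∀ a : Fin n × Fin n × Fin n × Fin n, ((g = 0 ∧ a = (x, x', y₁, y₂)) ∨
      (g = 1 ∧ a = (x, x', y₂, y₃)) ∨ (g = 2 ∧ a = (x, x', y₃, y₁))) → g < 3 ∧
        ∀ v ∈ qv a, v ∈ ({x, x', y₁, y₂, y₃} : Finset (Fin n)) := by
    intro g a ha
    rcases ha with ⟨h1, rfl⟩ | ⟨h1, rfl⟩ | ⟨h1, rfl⟩ <;> refine ⟨by omega, fun v hv => ?_⟩ <;>
      simp only [qv, mem_insert, mem_singleton] at hv ⊢ <;> tauto
  have v5V : ∀ g < 3, ∀ v ∈ ({x, x', y₁, y₂, y₃} : Finset (Fin n)), v ∉ Vt σ T col g := by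
    intro g hg v hv
    have h1 := hL.v5 v hv
    rcases (show g = 0 ∨ g = 1 ∨ g = 2 by omega) with rfl | rfl | rfl
    · exact h1.2.1
    · exact h1.2.2.1
    · exact h1.2.2.2
  have q4V : ∀ g : Fin (mF * q), 1 ≤ (g : ℕ) → ∀ v ∈ qv (lk (g - 1)), v ∉ Vt σ T col g := by
    intro g hg v hv
    have h1 := (hL.v4 (g - 1) (by have := g.2; omega) v hv).2.2.1
    have h2 : (g : ℕ) - 1 + 1 = g := by omega
    rwa [h2] at h1
  have q44 : ∀ g : Fin (mF * q), 1 ≤ (g : ℕ) → ∀ v ∈ qv (lk (g - 1)), v ∉ qv (lk g) := by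
    intro g hg v hv
    have h1 := hL.vd (g - 1) (by have := g.2; omega)
    have h2 : (g : ℕ) - 1 + 1 = g := by omega
    rw [h2] at h1
    exact disjoint_left.1 h1 hv
  -- the arcs of a quadruple
  have oA : ∀ f, ∀ t ∈ T f, (t.1, σ f t.2) ∈ oarc e lv (jj f) (σ f) (T f) ∧
      (t.2, σ f t.1) ∈ oarc e lv (jj f) (σ f) (T f) := fun f t ht =>
    ⟨mem_union_right _ (mem_union_left _ (mem_image_of_mem _ ht)),
      mem_union_right _ (mem_union_right _ (mem_image_of_mem (fun q => (q.2, σ f q.1)) ht))⟩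
  have oAll' : ∀ f, ∀ α ∈ oarc e lv (jj f) (σ f) (T f), α ∈ oAll e lv jj σ T :=
    fun f α hα => mem_biUnion.2 ⟨f, mem_univ _, hα⟩
  have lA : ∀ g < mF * q, ∀ α ∈ lka (lk g), α ∈ lAll (mF * q) lk x x' y₁ y₂ y₃ :=
    fun g hg α hα => mem_union_right _ (mem_biUnion.2 ⟨g, mem_range.2 hg, hα⟩)
  have pA : ∀ α ∈ pka x x' y₁ y₂ y₃, α ∈ lAll (mF * q) lk x x' y₁ y₂ y₃ :=
    fun α hα => mem_union_left _ hα
  have arcs' : ∀ (g : Fin (mF * q)) (α : Fin n × Fin n),
      α ∈ qar (ent σ T col lk x x' y₁ y₂ y₃ g) →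
      (∃ f, ∃ t ∈ T f, g = finProdFinEquiv (f, col f t) ∧
        (α = (t.1, σ f t.2) ∨ α = (t.2, σ f t.1))) ∨
      ((g : ℕ) + 1 < mF * q ∧ (α = ((lk g).1, (lk g).2.2.1) ∨ α = ((lk g).2.1, (lk g).2.2.2))) ∨
      (1 ≤ (g : ℕ) ∧ (α = ((lk (g - 1)).1, (lk (g - 1)).2.2.2) ∨
        α = ((lk (g - 1)).2.1, (lk (g - 1)).2.2.1))) ∨
      (((g : ℕ) = 0 ∧ (α = (x, y₁) ∨ α = (x', y₂))) ∨ ((g : ℕ) = 1 ∧ (α = (x, y₂) ∨ α = (x', y₃))) ∨
        ((g : ℕ) = 2 ∧ (α = (x, y₃) ∨ α = (x', y₁)))) := by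
    intro g α hα
    obtain ⟨a, ha, hαa⟩ := ent_qar.1 hα
    rcases ent_cases ha with h | ⟨h, rfl⟩ | ⟨h, rfl⟩ | ⟨h, rfl⟩ | ⟨h, rfl⟩ | ⟨h, rfl⟩
    · obtain ⟨f, t, ht, hg, rfl⟩ := ent_tq h
      exact Or.inl ⟨f, t, ht, hg, hαa⟩
    · exact Or.inr (Or.inl ⟨h, hαa⟩)
    · exact Or.inr (Or.inr (Or.inl ⟨h, hαa⟩))
    · exact Or.inr (Or.inr (Or.inr (Or.inl ⟨h, hαa⟩)))
    · exact Or.inr (Or.inr (Or.inr (Or.inr (Or.inl ⟨h, hαa⟩))))
    · exact Or.inr (Or.inr (Or.inr (Or.inr (Or.inr ⟨h, hαa⟩))))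
  have lkm : ∀ a : Fin n × Fin n × Fin n × Fin n, ∀ α : Fin n × Fin n,
      (α = (a.1, a.2.2.1) ∨ α = (a.2.1, a.2.2.2)) ∨ (α = (a.1, a.2.2.2) ∨ α = (a.2.1, a.2.2.1)) →
      α ∈ lka a := by
    rintro a α ((rfl | rfl) | (rfl | rfl)) <;> simp [lka]
  have pkm : ∀ g : ℕ, ∀ α : Fin n × Fin n, ((g = 0 ∧ (α = (x, y₁) ∨ α = (x', y₂))) ∨
      (g = 1 ∧ (α = (x, y₂) ∨ α = (x', y₃))) ∨ (g = 2 ∧ (α = (x, y₃) ∨ α = (x', y₁)))) →
      α ∈ pka x x' y₁ y₂ y₃ := by
    rintro g α (⟨_, rfl | rfl⟩ | ⟨_, rfl | rfl⟩ | ⟨_, rfl | rfl⟩) <;> simp [pka]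
  refine ⟨?_, ?_⟩
  · intro g
    refine ⟨?_, ?_, ⟨?_, ?_⟩, ?_, ?_⟩
    · -- at least one
      rw [Nat.succ_le_iff, card_pos]
      by_cases hg : (g : ℕ) + 1 < mF * q
      · refine ⟨lk g, mem_union_right _ (mem_union_left _ ?_)⟩
        rw [if_pos hg]
        exact mem_singleton_self _
      · refine ⟨((lk (g - 1)).1, (lk (g - 1)).2.1, (lk (g - 1)).2.2.2, (lk (g - 1)).2.2.1),
          mem_union_right _ (mem_union_right _ (mem_union_left _ ?_))⟩
        rw [if_pos (by omega)]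
        exact mem_singleton_self _
    · -- at most `Mx + 3`
      have c1 : (tq σ T col g).card ≤ Mx := card_image_le.trans (hM _ _)
      have cs : ∀ (p : Prop) [Decidable p] (a : Fin n × Fin n × Fin n × Fin n),
          (if p then {a} else ∅ : Finset (Fin n × Fin n × Fin n × Fin n)).card ≤ 1 := by
        intro p _ a
        split_ifs
        · exact (card_singleton _).le
        · exact (card_empty).le.trans (by omega)
      unfold ent
      refine (card_union_le _ _).trans ?_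
      have c2 := card_union_le (if (g : ℕ) + 1 < mF * q then {lk g} else ∅)
        ((if 1 ≤ (g : ℕ) then
          {((lk (g - 1)).1, (lk (g - 1)).2.1, (lk (g - 1)).2.2.2, (lk (g - 1)).2.2.1)} else ∅) ∪
        (if (g : ℕ) = 0 then {(x, x', y₁, y₂)} else if (g : ℕ) = 1 then {(x, x', y₂, y₃)} else
          if (g : ℕ) = 2 then {(x, x', y₃, y₁)} else ∅))
      have c3 := card_union_le (if 1 ≤ (g : ℕ) then
          {((lk (g - 1)).1, (lk (g - 1)).2.1, (lk (g - 1)).2.2.2, (lk (g - 1)).2.2.1)} else ∅)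
        (if (g : ℕ) = 0 then {(x, x', y₁, y₂)} else if (g : ℕ) = 1 then {(x, x', y₂, y₃)} else
          if (g : ℕ) = 2 then {(x, x', y₃, y₁)} else ∅)
      have c4 := cs ((g : ℕ) + 1 < mF * q) (lk g)
      have c5 := cs (1 ≤ (g : ℕ))
        ((lk (g - 1)).1, (lk (g - 1)).2.1, (lk (g - 1)).2.2.2, (lk (g - 1)).2.2.1)
      have c6 : (if (g : ℕ) = 0 then {(x, x', y₁, y₂)} else if (g : ℕ) = 1 then {(x, x', y₂, y₃)}
          else if (g : ℕ) = 2 then {(x, x', y₃, y₁)} else ∅ :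
            Finset (Fin n × Fin n × Fin n × Fin n)).card ≤ 1 := by
        split_ifs
        · exact (card_singleton _).le
        · exact (card_singleton _).le
        · exact (card_singleton _).le
        · exact (card_empty).le.trans (by omega)
      omega
    · -- four vertices
      intro a ha
      rcases ent_cases ha with h | ⟨h, rfl⟩ | ⟨h, rfl⟩ | ⟨h, rfl⟩ | ⟨h, rfl⟩ | ⟨h, rfl⟩
      · obtain ⟨f, t, ht, -, rfl⟩ := ent_tq h
        obtain ⟨h1, h2, h4, h5, h6⟩ := tlv f t ht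
        refine ent_four ((hF f).tne t ht) (hnelv _ _ ?_) (hnelv _ _ ?_) (hnelv _ _ ?_) (hnelv _ _ ?_)
          fun h7 => (hF f).tne t ht ((σ f).injective h7).symm
        · omega
        · omega
        · omega
        · omega
      · exact hL.c4 g g.2
      · obtain ⟨k1, k2, k3, k4, k5, k6⟩ := ptf_ne (hL.c4 (g - 1) (by have := g.2; omega))
        exact ent_four k1 k3 k2 k5 k4 k6.symm
      · exact ent_four p1 p2 p3 p5 p6 p8
      · exact ent_four p1 p3 p4 p6 p7 p10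
      · exact ent_four p1 p4 p2 p7 p5 p9.symm
    · -- disjoint
      intro a ha b hb hab
      rw [disjoint_left]
      intro v hva hvb
      rcases ent_cases ha with h | ⟨h, rfl⟩ | ⟨h, rfl⟩ | h
      · rcases ent_cases hb with h' | ⟨h', rfl⟩ | ⟨h', rfl⟩ | h'
        · obtain ⟨f, t, ht, hg, rfl⟩ := ent_tq h
          obtain ⟨f', t', ht', hg', rfl⟩ := ent_tq h'
          have h6 := finProdFinEquiv.injective (hg.symm.trans hg')
          have h7 : f = f' := congrArg Prod.fst h6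
          subst h7
          have h8 : col f t = col f t' := congrArg Prod.snd h6
          have htt : t ≠ t' := by
            rintro rfl
            exact hab rfl
          obtain ⟨d1, d2, d3, d4⟩ := (hF f).td t ht t' ht' htt
          obtain ⟨c1, c2, c3, c4⟩ := hC f t ht t' ht' htt h8
          obtain ⟨c1', c2', c3', c4'⟩ := hC f t' ht' t ht htt.symm h8.symm
          simp only [qv, mem_insert, mem_singleton] at hva hvb
          rcases hva with rfl | rfl | rfl | rfl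
          · rcases hvb with hb' | hb' | hb' | hb'
            · exact d1 hb'
            · exact d2 hb'
            · exact c2 hb'
            · exact c1 hb'
          · rcases hvb with hb' | hb' | hb' | hb'
            · exact d3 hb'
            · exact d4 hb'
            · exact c4 hb'
            · exact c3 hb'
          · rcases hvb with hb' | hb' | hb' | hb'
            · exact c2' hb'.symm
            · exact c4' hb'.symm
            · exact d4 ((σ f).injective hb')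
            · exact d3 ((σ f).injective hb')
          · rcases hvb with hb' | hb' | hb' | hb'
            · exact c1' hb'.symm
            · exact c3' hb'.symm
            · exact d2 ((σ f).injective hb')
            · exact d1 ((σ f).injective hb')
        · exact (hL.v4 g g.2 v hvb).2.1 (tv g _ h v hva)
        · exact q4V g h' v (s3 _ v hvb) (tv g _ h v hva)
        · exact v5V g (s5 g _ h').1 v ((s5 g _ h').2 v hvb) (tv g _ h v hva)
      · rcases ent_cases hb with h' | ⟨h', rfl⟩ | ⟨h', rfl⟩ | h'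
        · exact (hL.v4 g g.2 v hva).2.1 (tv g _ h' v hvb)
        · exact hab rfl
        · exact q44 g h' v (s3 _ v hvb) hva
        · exact (hL.v4 g g.2 v hva).2.2.2 ((s5 g _ h').2 v hvb)
      · have hva' := s3 _ v hva
        rcases ent_cases hb with h' | ⟨h', rfl⟩ | ⟨h', rfl⟩ | h'
        · exact q4V g h v hva' (tv g _ h' v hvb)
        · exact q44 g h v hva' hvb
        · exact hab rfl
        · exact (hL.v4 (g - 1) (by have := g.2; omega) v hva').2.2.2 ((s5 g _ h').2 v hvb)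
      · have hva' := (s5 g _ h).2 v hva
        rcases ent_cases hb with h' | ⟨h', rfl⟩ | ⟨h', rfl⟩ | h'
        · exact v5V g (s5 g _ h).1 v hva' (tv g _ h' v hvb)
        · exact (hL.v4 g g.2 v hvb).2.2.2 hva'
        · exact (hL.v4 (g - 1) (by have := g.2; omega) v (s3 _ v hvb)).2.2.2 hva'
        · apply hab
          rcases h with ⟨h1, h2⟩ | ⟨h1, h2⟩ | ⟨h1, h2⟩ <;>
            rcases h' with ⟨h1', h2'⟩ | ⟨h1', h2'⟩ | ⟨h1', h2'⟩ <;>
            first | exact h2.trans h2'.symm | omega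
    · -- the arcs
      intro α hα
      rw [mem_inter, mem_union]
      rcases arcs' g α hα with ⟨f, t, ht, -, h⟩ | ⟨h1, h⟩ | ⟨h1, h⟩ | h
      · obtain ⟨o1, o2⟩ := oA f t ht
        obtain ⟨w1, w2⟩ := (hF f).tc t ht
        rcases h with rfl | rfl
        · exact ⟨Or.inl (oAll' f _ o1), (mem_filter.1 (mem_sdiff.1 w1).1).1⟩
        · exact ⟨Or.inl (oAll' f _ o2), (mem_filter.1 (mem_sdiff.1 w2).1).1⟩
      · have h2 := lkm (lk g) α (Or.inl h)
        exact ⟨Or.inr (lA g g.2 α h2), (mem_sdiff.1 (hL.a4 g g.2 h2)).1⟩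
      · have h2 := lkm (lk (g - 1)) α (Or.inr h)
        have h4 : (g : ℕ) - 1 < mF * q := by have := g.2; omega
        exact ⟨Or.inr (lA _ h4 α h2), (mem_sdiff.1 (hL.a4 _ h4 h2)).1⟩
      · have h2 := pkm g α h
        exact ⟨Or.inr (pA α h2), (mem_sdiff.1 (hL.a5 h2)).1⟩
    · -- outside of `B`
      intro a ha
      rw [disjoint_left]
      intro v hv
      rcases ent_cases ha with h | ⟨h, rfl⟩ | ⟨h, rfl⟩ | h
      · obtain ⟨f, t, ht, -, rfl⟩ := ent_tq h
        obtain ⟨h1, h2, h4, h5, h6⟩ := tlv f t ht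
        rw [mem_filter]
        rintro ⟨-, h7⟩
        simp only [qv, mem_insert, mem_singleton] at hv
        rcases hv with rfl | rfl | rfl | rfl <;> omega
      · exact (hL.v4 g g.2 v hv).1
      · exact (hL.v4 (g - 1) (by have := g.2; omega) v (s3 _ v hv)).1
      · exact (hL.v5 v ((s5 g _ h).2 v hv)).1
  · -- the arcs of different partners
    intro g g' hgg
    rw [disjoint_left]
    intro α hα hα'
    have nat : (g : ℕ) ≠ g' := fun h => hgg (Fin.ext h)
    -- arcs of links are not in `oAll`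
    have nl : ∀ g < mF * q, ∀ α ∈ lka (lk g), α ∉ oAll e lv jj σ T := fun g hg α hα h =>
      (mem_sdiff.1 (hL.a4 g hg hα)).2 (mem_union_right _ h)
    have np : ∀ α ∈ pka x x' y₁ y₂ y₃, α ∉ oAll e lv jj σ T := fun α hα h =>
      (mem_sdiff.1 (hL.a5 hα)).2 (mem_union_right _ h)
    have hg1 : (g : ℕ) - 1 < mF * q := by have := g.2; omega
    have hg1' : (g' : ℕ) - 1 < mF * q := by have := g'.2; omega
    have inO : ∀ f, ∀ t ∈ T f, (α = (t.1, σ f t.2) ∨ α = (t.2, σ f t.1)) →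
        α ∈ oarc e lv (jj f) (σ f) (T f) := by
      intro f t ht h
      rcases h with rfl | rfl
      · exact (oA f t ht).1
      · exact (oA f t ht).2
    -- the same link
    have same : ∀ i < mF * q, ∀ j < mF * q, α ∈ lka (lk i) → α ∈ lka (lk j) → i = j := by
      intro i hi j hj h1 h2
      by_contra h
      exact disjoint_left.1 (hL.ad i hi j hj h) h1 h2
    have cross : ∀ a : Fin n × Fin n × Fin n × Fin n, (qv a).card = 4 →
        (α = (a.1, a.2.2.1) ∨ α = (a.2.1, a.2.2.2)) → (α = (a.1, a.2.2.2) ∨ α = (a.2.1, a.2.2.1)) →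
        False := by
      intro a ha h1 h2
      obtain ⟨k1, -, -, -, -, k6⟩ := ptf_ne ha
      rcases h1 with h1 | h1 <;> rcases h2 with h2 | h2
      · exact k6 (congrArg Prod.snd (h1.symm.trans h2))
      · exact k1 (congrArg Prod.fst (h1.symm.trans h2))
      · exact k1 (congrArg Prod.fst (h1.symm.trans h2)).symm
      · exact k6 (congrArg Prod.snd (h1.symm.trans h2)).symm
    have fs : ∀ a b c d : Fin n, α = (a, b) → α = (c, d) → a = c ∧ b = d := by
      intro a b c d h1 h2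
      have h4 := h1.symm.trans h2
      exact ⟨congrArg Prod.fst h4, congrArg Prod.snd h4⟩
    rcases arcs' g α hα with ⟨f, t, ht, hg, h⟩ | ⟨h1, h⟩ | ⟨h1, h⟩ | h
    · have hO := inO f t ht h
      have hOA := oAll' f α hO
      rcases arcs' g' α hα' with ⟨f', t', ht', hg', h'⟩ | ⟨h1', h'⟩ | ⟨h1', h'⟩ | h'
      · have hO' := inO f' t' ht' h'
        by_cases hff : f = f'
        · subst hff
          by_cases htt : t = t'
          · subst htt
            exact hgg (hg.trans hg'.symm)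
          · obtain ⟨d1, d2, d3, d4⟩ := (hF f).td t ht t' ht' htt
            rcases h with h | h <;> rcases h' with h' | h'
            · exact d1 (fs _ _ _ _ h h').1
            · exact d2 (fs _ _ _ _ h h').1
            · exact d3 (fs _ _ _ _ h h').1
            · exact d4 (fs _ _ _ _ h h').1
        · exact disjoint_left.1 (hD f f' hff) hO hO'
      · exact nl g' g'.2 α (lkm _ α (Or.inl h')) hOA
      · exact nl _ hg1' α (lkm _ α (Or.inr h')) hOA
      · exact np α (pkm g' α h') hOA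
    · have hl := lkm _ α (Or.inl h)
      rcases arcs' g' α hα' with ⟨f', t', ht', hg', h'⟩ | ⟨h1', h'⟩ | ⟨h1', h'⟩ | h'
      · exact nl g g.2 α hl (oAll' f' α (inO f' t' ht' h'))
      · exact nat (same g g.2 g' g'.2 hl (lkm _ α (Or.inl h')))
      · have h2 := same g g.2 _ hg1' hl (lkm _ α (Or.inr h'))
        rw [← h2] at h'
        exact cross (lk g) (hL.c4 g g.2) h h'
      · exact disjoint_left.1 (hL.ap g g.2) hl (pkm g' α h')
    · have hl := lkm _ α (Or.inr h)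
      rcases arcs' g' α hα' with ⟨f', t', ht', hg', h'⟩ | ⟨h1', h'⟩ | ⟨h1', h'⟩ | h'
      · exact nl _ hg1 α hl (oAll' f' α (inO f' t' ht' h'))
      · have h2 := same _ hg1 g' g'.2 hl (lkm _ α (Or.inl h'))
        rw [h2] at h
        exact cross (lk g') (hL.c4 g' g'.2) h' h
      · have h2 := same _ hg1 _ hg1' hl (lkm _ α (Or.inr h'))
        omega
      · exact disjoint_left.1 (hL.ap _ hg1) hl (pkm g' α h')
    · have hp := pkm g α h
      rcases arcs' g' α hα' with ⟨f', t', ht', hg', h'⟩ | ⟨h1', h'⟩ | ⟨h1', h'⟩ | h'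
      · exact np α hp (oAll' f' α (inO f' t' ht' h'))
      · exact disjoint_left.1 (hL.ap g' g'.2) (lkm _ α (Or.inl h')) hp
      · exact disjoint_left.1 (hL.ap _ hg1') (lkm _ α (Or.inr h')) hp
      · rcases h with ⟨h1, h | h⟩ | ⟨h1, h | h⟩ | ⟨h1, h | h⟩ <;>
          rcases h' with ⟨h1', h' | h'⟩ | ⟨h1', h' | h'⟩ | ⟨h1', h' | h'⟩ <;>
          first
            | omega
            | exact p1 (fs _ _ _ _ h h').1
            | exact p1 (fs _ _ _ _ h h').1.symm
            | exact p8 (fs _ _ _ _ h h').2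
            | exact p8 (fs _ _ _ _ h h').2.symm
            | exact p9 (fs _ _ _ _ h h').2
            | exact p9 (fs _ _ _ _ h h').2.symm
            | exact p10 (fs _ _ _ _ h h').2
            | exact p10 (fs _ _ _ _ h h').2.symm

end Pool.Agent.MPd266dbE
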