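import Pool.Agent.Lib.MP_d266db_co.E.SpecG

/-!
# MP_d266db_co, E, Ex: the main theorem, constants and assembly
-/

set_option autoImplicit false

namespace Pool.Agent.MPd266dbE

open Finset Pool.Agent.MPd266db Pool.Agent.MPd266dbH

theorem ex_od_union {n : ℕ} {A B : Finset (Fin n × Fin n)} (h : Disjoint A B) (v : Fin n) :
    od (A ∪ B) v = od A v + od B v := by
  classical
  unfold od
  rw [filter_union, card_union_of_disjoint]
  exact h.mono (filter_subset _ _) (filter_subset _ _)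

theorem ex_idg_union {n : ℕ} {A B : Finset (Fin n × Fin n)} (h : Disjoint A B) (v : Fin n) :
    idg (A ∪ B) v = idg A v + idg B v := by
  classical
  unfold idg
  rw [filter_union, card_union_of_disjoint]
  exact h.mono (filter_subset _ _) (filter_subset _ _)

theorem ex_reg_union {n a b : ℕ} {A B : Finset (Fin n × Fin n)} (h : Disjoint A B) (hA : Reg A a)
    (hB : Reg B b) : Reg (A ∪ B) (a + b) := by
  intro v
  rw [ex_od_union h, ex_idg_union h, (hA v).1, (hA v).2, (hB v).1, (hB v).2]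
  exact ⟨rfl, rfl⟩

theorem ex_reg_sdiff {n r z : ℕ} {R Z : Finset (Fin n × Fin n)} (h : Z ⊆ R) (hR : Reg R r)
    (hZ : Reg Z z) : Reg (R \ Z) (r - z) := by
  classical
  intro v
  have h1 : od ((R \ Z) ∪ Z) v = od (R \ Z) v + od Z v := ex_od_union sdiff_disjoint v
  have h2 : idg ((R \ Z) ∪ Z) v = idg (R \ Z) v + idg Z v := ex_idg_union sdiff_disjoint v
  rw [sdiff_union_of_subset h] at h1 h2
  rw [(hR v).1, (hZ v).1] at h1
  rw [(hR v).2, (hZ v).2] at h2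
  omega

theorem ex_eb_sdiff {n : ℕ} {R Z : Finset (Fin n × Fin n)} (h : Z ⊆ R) (X Y : Finset (Fin n)) :
    eb (R \ Z) X Y + eb Z X Y = eb R X Y := by
  classical
  unfold eb
  rw [← card_union_of_disjoint, ← filter_union, sdiff_union_of_subset h]
  exact sdiff_disjoint.mono (filter_subset _ _) (filter_subset _ _)

theorem ex_cut {n z : ℕ} {R Z : Finset (Fin n × Fin n)} {η : ℝ} (h : Z ⊆ R) (hZ : Reg Z z)
    (hη : 0 < η) (hz : (z : ℝ) ≤ η / 8 * n)
    (hc : ∀ W : Finset (Fin n), η * W.card * Wᶜ.card ≤ eb R W Wᶜ) (W : Finset (Fin n)) :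
    η / 2 * W.card * Wᶜ.card ≤ (eb (R \ Z) W Wᶜ : ℝ) := by
  have h1 := ex_eb_sdiff h W Wᶜ
  have h2 := Reg.out W W hZ
  have h3 := Reg.in W Wᶜ hZ
  have h4 := hc W
  have h5 : W.card + Wᶜ.card = n := by rw [card_add_card_compl, Fintype.card_fin]
  have h1' : (eb (R \ Z) W Wᶜ : ℝ) + eb Z W Wᶜ = eb R W Wᶜ := by exact_mod_cast h1
  have h2' : (eb Z W Wᶜ : ℝ) ≤ z * W.card := by
    have h6 : eb Z W Wᶜ ≤ z * W.card := by omega
    exact_mod_cast h6
  have h3' : (eb Z W Wᶜ : ℝ) ≤ z * Wᶜ.card := by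
    have h6 : eb Z W Wᶜ ≤ z * Wᶜ.card := by omega
    exact_mod_cast h6
  have h5' : (W.card : ℝ) + Wᶜ.card = n := by exact_mod_cast h5
  have ha : (0 : ℝ) ≤ W.card := Nat.cast_nonneg _
  have hb : (0 : ℝ) ≤ Wᶜ.card := Nat.cast_nonneg _
  rw [← h5'] at hz
  generalize (W.card : ℝ) = a at *
  generalize (Wᶜ.card : ℝ) = b at *
  have hab0 : 0 ≤ η * (a * b) := mul_nonneg hη.le (mul_nonneg ha hb)
  rcases le_total a b with hab | hab
  · have h7 : (z : ℝ) ≤ η / 4 * b := by nlinarith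
    have h8 : (z : ℝ) * a ≤ η / 4 * b * a := mul_le_mul_of_nonneg_right h7 ha
    nlinarith
  · have h7 : (z : ℝ) ≤ η / 4 * a := by nlinarith
    have h8 : (z : ℝ) * b ≤ η / 4 * a * b := mul_le_mul_of_nonneg_right h7 hb
    nlinarith

theorem ex_regT {n t : ℕ} (τ : Fin t → Equiv.Perm (Fin n))
    (hd : ∀ j j', j ≠ j' → ∀ v, τ j v ≠ τ j' v) :
    Reg (univ.biUnion (fun j => arcs (τ j))) t := by
  classical
  have hdis : ∀ j j', j ≠ j' → Disjoint (arcs (τ j)) (arcs (τ j')) := by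
    intro j j' hjj
    rw [disjoint_left]
    intro a ha ha'
    rw [mem_arcs] at ha ha'
    exact hd j j' hjj a.1 (ha.trans ha'.symm)
  intro v
  constructor
  · unfold od
    rw [filter_biUnion, card_biUnion]
    · calc _ = ∑ j : Fin t, 1 := sum_congr rfl (fun j _ => od_arcs (τ j) v)
        _ = t := by simp
    · intro j _ j' _ hjj
      exact (hdis j j' hjj).mono (filter_subset _ _) (filter_subset _ _)
  · unfold idg
    rw [filter_biUnion, card_biUnion]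
    · calc _ = ∑ j : Fin t, 1 := sum_congr rfl (fun j _ => idg_arcs (τ j) v)
        _ = t := by simp
    · intro j _ j' _ hjj
      exact (hdis j j' hjj).mono (filter_subset _ _) (filter_subset _ _)

theorem ex_core (hAbR : S_AbR) (hFin : S_Fin) {n K e q s w d h r p : ℕ}
    {R XL Wo XW HbA : Finset (Fin n × Fin n)} {o i : Fin n → Fin K} {lv : Fin n → ℕ}
    {α η κ : ℝ} (hα : 0 < α) (hη : 0 < η) (hκ : 0 < κ) (hR : Ori R) (hr : Reg R r)
    (hαr : α * n ≤ r) (hrn : r ≤ n)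
    (hcut : ∀ W : Finset (Fin n), η * W.card * Wᶜ.card ≤ eb R W Wᶜ)
    (hlv : ∀ v, lv v ≤ e + 1) (hXL : XL ⊆ R) (hcr : ∀ a ∈ XL, o a.1 ≠ i a.2)
    (hW : WC R o i e lv (XeL e lv XL) p w d h s Wo XW HbA)
    (hw : (w : ℝ) * ((e + 1) * (q + 2)) ≤ min (α / 4) (η / 8) * n) (hd : κ * n ≤ d)
    {G : ℕ} (hG : G = (e + 1) * s * q)
    {σ : Fin ((e + 1) * s) → Equiv.Perm (Fin n)}
    {π : Fin G → Equiv.Perm (Fin n)}
    (hab : Abs e lv ((e + 1) * s) G (jjf e s)
      ((own o i R \ (Wo ∪ HbA)) ∪ (XeL e lv XL \ XW)) σ π)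
    (hThm : ∀ (r : ℕ) (R : Finset (Fin n × Fin n)), (∀ e ∈ R, e.1 ≠ e.2) → Reg R r →
      α / 2 * n ≤ r → (∀ W : Finset (Fin n), η / 2 * W.card * Wᶜ.card ≤ eb R W Wᶜ) →
      ∃ (t : ℕ) (τ : Fin t → Equiv.Perm (Fin n)), (1 - κ / 2) * r ≤ t ∧
        (∀ j v, (v, τ j v) ∈ R) ∧ (∀ j v w, (τ j).SameCycle v w) ∧
        ∀ j j', j ≠ j' → ∀ v, τ j v ≠ τ j' v) : Dcm R r := by
  classical
  set S' := (own o i R \ (Wo ∪ HbA)) ∪ (XeL e lv XL \ XW) with hS'
  obtain ⟨hAr, hAs⟩ := hAbR n e s G lv S' σ π hab hlv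
  set A := abA e lv (jjf e s) σ π with hA
  -- membership facts
  have hownR : own o i R ⊆ R := filter_subset _ _
  have hXeR : XeL e lv XL ⊆ R := (filter_subset _ _).trans hXL
  have hown : ∀ a ∈ own o i R, o a.1 = i a.2 := fun a ha => (mem_filter.1 ha).2
  have hXe : ∀ a ∈ XeL e lv XL, o a.1 ≠ i a.2 := fun a ha => hcr a (mem_filter.1 ha).1
  have hWoO : Wo ⊆ own o i R := hW.wo.trans (filter_subset _ _)
  have hWR : Wo ∪ XW ∪ HbA ⊆ R :=
    union_subset (union_subset (hWoO.trans hownR) (hW.xw.trans hXeR)) (hW.hb.trans hownR)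
  have hS'R : S' ⊆ R := by
    intro a ha
    rw [hS', mem_union, mem_sdiff, mem_sdiff] at ha
    rcases ha with ha | ha
    · exact hownR ha.1
    · exact hXeR ha.1
  have hS'W : Disjoint S' (Wo ∪ XW ∪ HbA) := by
    rw [disjoint_left]
    intro a ha hb
    rw [hS', mem_union, mem_sdiff, mem_sdiff, mem_union] at ha
    rw [mem_union, mem_union] at hb
    rcases ha with ⟨h1, h2⟩ | ⟨h1, h2⟩
    · rcases hb with (hb | hb) | hb
      · exact h2 (Or.inl hb)
      · exact hXe a (hW.xw hb) (hown a h1)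
      · exact h2 (Or.inr hb)
    · rcases hb with (hb | hb) | hb
      · exact hXe a h1 (hown a (hWoO hb))
      · exact h2 hb
      · exact hXe a h1 (hown a (hW.hb hb))
  have hWX : Disjoint Wo XW := by
    rw [disjoint_left]
    intro a ha hb
    exact hXe a (hW.xw hb) (hown a (hWoO ha))
  have hWXH : Disjoint (Wo ∪ XW) HbA := by
    rw [disjoint_left]
    intro a ha hb
    rw [mem_union] at ha
    rcases ha with ha | ha
    · exact (disjoint_left.1 hW.dj) hb ha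
    · exact hXe a (hW.xw ha) (hown a (hW.hb hb))
  have hWreg : Reg (Wo ∪ XW ∪ HbA) w := by
    intro v
    rw [ex_od_union hWXH, ex_od_union hWX, ex_idg_union hWXH, ex_idg_union hWX]
    have h1 := hW.dg v
    omega
  -- the rest
  have hAW : Disjoint A (Wo ∪ XW ∪ HbA) := hS'W.mono_left hAs
  have hZR : A ∪ (Wo ∪ XW ∪ HbA) ⊆ R := union_subset (hAs.trans hS'R) hWR
  have hZreg : Reg (A ∪ (Wo ∪ XW ∪ HbA)) (e * s + G + w) := ex_reg_union hAW hAr hWreg
  have hR'reg := ex_reg_sdiff hZR hr hZreg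
  set R' := R \ (A ∪ (Wo ∪ XW ∪ HbA)) with hR'
  have hn0 : (0 : ℝ) ≤ n := Nat.cast_nonneg _
  have hw0 : (0 : ℝ) ≤ w := Nat.cast_nonneg _
  have hzN : e * s + G + w ≤ w * ((e + 1) * (q + 2)) := by
    rw [hG]
    have h1 := hW.sw
    have h2 : e * s ≤ e * w := Nat.mul_le_mul_left _ h1
    have h3 : (e + 1) * s * q ≤ (e + 1) * w * q :=
      Nat.mul_le_mul_right _ (Nat.mul_le_mul_left _ h1)
    have h4 : w * ((e + 1) * (q + 2)) = e * w + (e + 1) * w * q + w + (e * w + w) := by ring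
    omega
  have hz : ((e * s + G + w : ℕ) : ℝ) ≤ min (α / 4) (η / 8) * n := by
    refine le_trans ?_ hw
    have h1 : ((e * s + G + w : ℕ) : ℝ) ≤ ((w * ((e + 1) * (q + 2)) : ℕ) : ℝ) := by
      exact_mod_cast hzN
    refine h1.trans (le_of_eq ?_)
    push_cast
    ring
  have hzα : ((e * s + G + w : ℕ) : ℝ) ≤ α / 4 * n :=
    hz.trans (mul_le_mul_of_nonneg_right (min_le_left _ _) hn0)
  have hzη : ((e * s + G + w : ℕ) : ℝ) ≤ η / 8 * n :=
    hz.trans (mul_le_mul_of_nonneg_right (min_le_right _ _) hn0)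
  have hαn : 0 ≤ α * n := mul_nonneg hα.le hn0
  have hzr : e * s + G + w ≤ r := by
    have h1 : ((e * s + G + w : ℕ) : ℝ) ≤ (r : ℝ) := by linarith
    exact_mod_cast h1
  have hr' : ((r - (e * s + G + w) : ℕ) : ℝ) = (r : ℝ) - ((e * s + G + w : ℕ) : ℝ) :=
    Nat.cast_sub hzr
  have hcut' := ex_cut hZR hZreg hη hzη hcut
  have hloop : ∀ a ∈ R', a.1 ≠ a.2 := by
    intro a ha h1
    have h2 : a ∈ R := (mem_sdiff.1 ha).1
    have h3 : (a.1, a.2) ∈ R := h2
    have h4 := hR a.1 a.2 h3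
    rw [h1] at h3 h4
    exact h4 h3
  obtain ⟨t0, τ, ht0, hτR, hτH, hτd⟩ := hThm (r - (e * s + G + w)) R' hloop hR'reg
    (by rw [hr']; linarith) hcut'
  set r' := r - (e * s + G + w) with hr'def
  have hdw : (d : ℝ) ≤ w := by exact_mod_cast hW.dw
  have hwz : (w : ℝ) ≤ ((e * s + G + w : ℕ) : ℝ) := by
    have h1 : w ≤ e * s + G + w := Nat.le_add_left _ _
    exact_mod_cast h1
  have hdr' : d ≤ r' := by
    have h1 : (d : ℝ) ≤ (r' : ℝ) := by rw [hr']; linarith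
    exact_mod_cast h1
  have hr'n : (r' : ℝ) ≤ n := by
    rw [hr']
    have h1 : (r : ℝ) ≤ n := by exact_mod_cast hrn
    have h2 : (0 : ℝ) ≤ ((e * s + G + w : ℕ) : ℝ) := Nat.cast_nonneg _
    linarith
  have ht : r' - d ≤ t0 := by
    have h1 : ((r' - d : ℕ) : ℝ) ≤ (t0 : ℝ) := by
      rw [Nat.cast_sub hdr']
      have h2 : κ * r' ≤ κ * n := mul_le_mul_of_nonneg_left hr'n hκ.le
      have h3 : 0 ≤ κ * r' := mul_nonneg hκ.le (Nat.cast_nonneg _)
      nlinarith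
    exact_mod_cast h1
  obtain ⟨t, htd⟩ : ∃ t, t = r' - d := ⟨_, rfl⟩
  rw [← htd] at ht
  let τ' : Fin t → Equiv.Perm (Fin n) := fun j => τ (Fin.castLE ht j)
  have hτ'd : ∀ j j', j ≠ j' → ∀ v, τ' j v ≠ τ' j' v := by
    intro j j' hjj v
    refine hτd _ _ ?_ v
    intro h1
    exact hjj (Fin.castLE_injective ht h1)
  have hTreg := ex_regT τ' hτ'd
  set T := univ.biUnion (fun j => arcs (τ' j)) with hT
  have hTR' : T ⊆ R' := by
    intro a ha
    rw [hT, mem_biUnion] at ha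
    obtain ⟨j, -, hj⟩ := ha
    rw [mem_arcs] at hj
    have h1 := hτR (Fin.castLE ht j) a.1
    have h2 : (a.1, a.2) ∈ R' := by
      rw [← hj]
      exact h1
    exact h2
  have hDreg : Reg (R' \ T) d := by
    have h1 := ex_reg_sdiff hTR' hR'reg hTreg
    have h2 : r' - t = d := by omega
    rw [h2] at h1
    exact h1
  have hDR' : R' \ T ⊆ R' := sdiff_subset
  have hR'R : R' ⊆ R := sdiff_subset
  have hR'Z : Disjoint R' (A ∪ (Wo ∪ XW ∪ HbA)) := sdiff_disjoint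
  have hDW : Disjoint (R' \ T) (Wo ∪ XW ∪ HbA) :=
    (hR'Z.mono_left hDR').mono_right subset_union_right
  have hDA : Disjoint (R' \ T) A := (hR'Z.mono_left hDR').mono_right subset_union_left
  obtain ⟨C, L, hCH, hLW, hLreg, hCm, hCd⟩ := hW.cv (R' \ T) (hDR'.trans hR'R) hDW hDreg
  refine hFin n e s G t h r lv R (Wo ∪ XW ∪ HbA) (R' \ T) L S' σ π τ' C hab hlv hS'R hWR
    (hDR'.trans hR'R) hS'W (fun j => hτH _) (fun j v => hR'R (hτR _ v)) ?_ hτ'd hDA hCH ?_ hCd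
    (hLW.trans subset_union_left) hLreg ?_ ?_
  · intro j v
    have h1 : (v, τ' j v) ∈ R' := hτR _ v
    refine ⟨fun h2 => (disjoint_left.1 hR'Z) h1 (mem_union_left _ h2),
      fun h2 => (disjoint_left.1 hR'Z) h1 (mem_union_right _ h2), fun h2 => ?_⟩
    refine (mem_sdiff.1 h2).2 ?_
    rw [hT, mem_biUnion]
    exact ⟨j, mem_univ _, mem_arcs.2 rfl⟩
  · intro c v
    refine ⟨?_, (hCm c v).2⟩
    have h1 := (hCm c v).1
    simp only [mem_union] at h1 ⊢
    tauto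
  · intro a ha
    have h1 := hLW ha
    rw [mem_union] at h1
    rcases h1 with h1 | h1
    · exact (mem_filter.1 (hW.wo h1)).2
    · have h2 := (mem_filter.1 (hW.xw h1)).2
      refine ⟨?_, fun h3 => ?_⟩
      · unfold tgp hgp
        rw [h2.1, h2.2]
        simp
      · omega
  · have h1 := hW.nm
    have h2 : (e + 1) * s = e * s + s := by ring
    omega

theorem ex_LvD_mono {n K : ℕ} {R : Finset (Fin n × Fin n)} {o i : Fin n → Fin K} {r e : ℕ}
    {XL : Finset (Fin n × Fin n)} {lv : Fin n → ℕ} {θ lam δ g g' βt νt : ℝ}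
    (h : LvD R o i r e XL lv θ lam δ g βt νt) (hg : g ≤ g') :
    LvD R o i r e XL lv θ lam δ g' βt νt := by
  have hN : (0 : ℝ) ≤ 2 * n / (e + 1) := by positivity
  have hgN : g * (2 * n / (e + 1)) ≤ g' * (2 * n / (e + 1)) := mul_le_mul_of_nonneg_right hg hN
  refine ⟨h.lev, h.exc, ?_, h.sz, h.xe, h.typ, h.deg⟩
  refine ⟨h.bx.own, h.bx.odl, h.bx.idl, ?_, ?_, h.bx.rge, h.bx.rle, h.bx.szo, h.bx.szi, h.bx.rob⟩
  · refine le_trans ?_ (h.bx.nro.trans hgN)
    exact_mod_cast card_le_card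
      (fun v hv => mem_filter.2 ⟨mem_univ _, lt_of_le_of_lt hgN (mem_filter.1 hv).2⟩)
  · refine le_trans ?_ (h.bx.nri.trans hgN)
    exact_mod_cast card_le_card
      (fun v hv => mem_filter.2 ⟨mem_univ _, lt_of_le_of_lt hgN (mem_filter.1 hv).2⟩)

theorem ex_rob_mono {n K : ℕ} {R : Finset (Fin n × Fin n)} {o i : Fin n → Fin K} {β β' ν : ℝ}
    (h : Rob o i R β ν) (hb : β ≤ β') : Rob o i R β' ν := by
  have h1 : β * n ≤ β' * n := mul_le_mul_of_nonneg_right hb (Nat.cast_nonneg _)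
  intro a X Y hX hY h2 h3
  exact h a X Y hX hY (h1.trans h2) (h1.trans h3)

theorem ex_rle {n r : ℕ} {R : Finset (Fin n × Fin n)} (hr : Reg R r) (hn : 1 ≤ n) : r ≤ n := by
  have h1 := (hr ⟨0, hn⟩).1
  rw [← h1]
  unfold od
  calc _ ≤ (univ : Finset (Fin n)).card := by
        refine card_le_card_of_injOn Prod.snd (fun _ _ => mem_coe.2 (mem_univ _)) ?_
        intro a ha b hb hab
        have h2 := (mem_filter.1 (mem_coe.1 ha)).2
        have h3 := (mem_filter.1 (mem_coe.1 hb)).2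
        exact Prod.ext (h2.trans h3.symm) hab
    _ = n := by rw [card_univ, Fintype.card_fin]

theorem tEx (hLev : S_Lev) (hWCx : S_WCx) (hAex : S_Aex) (hAbR : S_AbR) (hFin : S_Fin)
    (hLnQ : S_LnQ) (hThm : S_Thm) : S_Ex := by
  intro α η lam θ ξ hα hη hlam hlam1 hθ hθ1 hξ
  obtain ⟨α', hα'⟩ : ∃ x, x = min α 1 := ⟨_, rfl⟩
  have hα'0 : 0 < α' := by rw [hα']; exact lt_min hα one_pos
  have hα'1 : α' ≤ 1 := by rw [hα']; exact min_le_right _ _
  have hα'α : α' ≤ α := by rw [hα']; exact min_le_left _ _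
  obtain ⟨βt, hβt⟩ : ∃ x, x = min (min (θ ^ 2 / 128) (α' / 16)) 1 := ⟨_, rfl⟩
  have hβ0 : 0 < βt := by
    rw [hβt]; exact lt_min (lt_min (by positivity) (by positivity)) one_pos
  have hβ1 : βt ≤ 1 := by rw [hβt]; exact min_le_right _ _
  have hβ2 : βt ≤ θ ^ 2 / 128 := by
    rw [hβt]; exact (min_le_left _ _).trans (min_le_left _ _)
  have hβ3 : βt ≤ α' / 16 := by
    rw [hβt]; exact (min_le_left _ _).trans (min_le_right _ _)
  have hβθ : 8 * βt ≤ (θ / 4) ^ 2 := by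
    have h1 : (θ / 4) ^ 2 = 8 * (θ ^ 2 / 128) := by ring
    rw [h1]; linarith
  have hβα : 16 * βt ≤ α' := by linarith
  refine ⟨min (βt / 16) (θ / 256), lt_min (by positivity) (by positivity), ?_⟩
  intro ν hν
  obtain ⟨νt, hνt, hLev1⟩ := hLev θ lam βt ν hθ hθ1 hlam hlam1 hβ0 hβ1 hν
  obtain ⟨e, q, ωA, gA, δA, γA, ζA, nA, he, hq, hωA, hgA, hδA, hγA, hζA, hA⟩ :=
    hAex η θ lam ν βt νt ξ hη hθ hθ1 hlam hν hβ0 hβθ hνt hξ
  have hden : (0 : ℝ) < ((e : ℝ) + 1) * (q + 2) := by positivity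
  obtain ⟨ω, hω⟩ : ∃ x, x = min ωA (min (α' / 4) (η / 8) / (((e : ℝ) + 1) * (q + 2))) := ⟨_, rfl⟩
  have hω0 : 0 < ω := by
    rw [hω]
    exact lt_min hωA (div_pos (lt_min (by positivity) (by positivity)) hden)
  have hω1 : ω ≤ ωA := by rw [hω]; exact min_le_left _ _
  have hω2 : ω * (((e : ℝ) + 1) * (q + 2)) ≤ min (α' / 4) (η / 8) := by
    have h1 : ω ≤ min (α' / 4) (η / 8) / (((e : ℝ) + 1) * (q + 2)) := by
      rw [hω]; exact min_le_right _ _
    rwa [le_div_iff₀ hden] at h1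
  obtain ⟨κ, gW, γW, ζW, nW, hκ, hgW, hγW, hζW, hWc⟩ :=
    hWCx α' θ (lam / 2) βt νt ξ ω e hα'0 hα'1 hθ hθ1 (by positivity) (by linarith) hβ0 hβα hνt hξ
      hω0 he
  obtain ⟨γL, nL, hγL, hL⟩ := hLev1 e (min gA gW) δA he (lt_min hgA hgW) hδA
  obtain ⟨nT, hT⟩ := hThm (α' / 2) (η / 2) (κ / 2) (by positivity) (by positivity) (by positivity)
  refine ⟨min (min ζA ζW) (ξ / (64 * ((e : ℝ) + 1) ^ 4)), min (min γA γW) γL,
    max (max nA nW) (max (max nL nT) 1), lt_min (lt_min hζA hζW) (by positivity),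
    lt_min (lt_min hγA hγW) hγL, ?_⟩
  intro n hn K r p Δ R XL o i a c0 d0 hK hR hr hαr hcut hcrs hRob hod hid hla hlb hCD hp hXL hXc
    hDg hΔ hξp
  have hnA : nA ≤ n := le_trans (le_trans (le_max_left _ _) (le_max_left _ _)) hn
  have hnW : nW ≤ n := le_trans (le_trans (le_max_right _ _) (le_max_left _ _)) hn
  have hnL : nL ≤ n :=
    le_trans (le_trans (le_trans (le_max_left _ _) (le_max_left _ _)) (le_max_right _ _)) hn
  have hnT : nT ≤ n :=
    le_trans (le_trans (le_trans (le_max_right _ _) (le_max_left _ _)) (le_max_right _ _)) hn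
  have hn1 : 1 ≤ n := le_trans (le_trans (le_max_right _ _) (le_max_right _ _)) hn
  have hn0 : (0 : ℝ) ≤ n := Nat.cast_nonneg _
  have hn1' : (1 : ℝ) ≤ n := by exact_mod_cast hn1
  have hα'r : α' * n ≤ r := (mul_le_mul_of_nonneg_right hα'α hn0).trans hαr
  have hγA' : min (min γA γW) γL ≤ γA := (min_le_left _ _).trans (min_le_left _ _)
  have hγW' : min (min γA γW) γL ≤ γW := (min_le_left _ _).trans (min_le_right _ _)
  have hγL' : min (min γA γW) γL ≤ γL := min_le_right _ _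
  have hζA' : min (min ζA ζW) (ξ / (64 * ((e : ℝ) + 1) ^ 4)) ≤ ζA :=
    (min_le_left _ _).trans (min_le_left _ _)
  have hζW' : min (min ζA ζW) (ξ / (64 * ((e : ℝ) + 1) ^ 4)) ≤ ζW :=
    (min_le_left _ _).trans (min_le_right _ _)
  have hζξ : min (min ζA ζW) (ξ / (64 * ((e : ℝ) + 1) ^ 4)) ≤ ξ / (64 * ((e : ℝ) + 1) ^ 4) :=
    min_le_right _ _
  generalize min (min γA γW) γL = γ at *
  generalize min (min ζA ζW) (ξ / (64 * ((e : ℝ) + 1) ^ 4)) = ζ at *
  have hn2 : (0 : ℝ) ≤ (n : ℝ) ^ 2 := by positivity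
  have main : ∀ (XL : Finset (Fin n × Fin n)) (Δ : ℕ), XL ⊆ R →
      (∀ q ∈ XL, o q.1 = c0 ∧ i q.2 = d0 ∧ c0 ≠ d0) → Dg XL Δ → (Δ : ℝ) ≤ ζ * n →
      ξ * n * p ≤ XL.card → 64 * (e + 1) ^ 4 * Δ ≤ XL.card → Dcm R r := by
    intro XL Δ hXL hXc hDg hΔ hξp hΔ4
    have hcl : ∀ c, (Cl o c).card ≤ (Cl i c).card + p ∧ (Cl i c).card ≤ (Cl o c).card + p := by
      intro c
      have h1 := hCD.sc
      have h2 := hCD.sd
      rcases eq_or_ne c c0 with hc | hc
      · rw [hc]; omega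
      · rcases hCD.two c c0 hc with h3 | h3
        · exact absurd h3.1 hc
        · rw [h3.1]; omega
    obtain ⟨lv, hlv⟩ := hL n hnL K r p Δ R XL o i a hK hr
      (hcrs.trans (mul_le_mul_of_nonneg_right hγL' hn2))
      (ex_rob_mono hRob (min_le_left _ _)) hod hid hla hlb
      (hp.trans (mul_le_mul_of_nonneg_right hγL' hn0)) hcl
      (by
        intro b hb h1
        have h2 : (b.1, b.2) ∈ R := hXL hb
        have h3 := hR b.1 b.2 h2
        rw [h1] at h2 h3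
        exact h3 h2) hDg hΔ4
    have hlvW := ex_LvD_mono hlv (min_le_right gA gW)
    have hlvA := ex_LvD_mono hlv (min_le_left gA gW)
    obtain ⟨w, d, h, s, Wo, XW, HbA, hW, hwω, hκs, hκd⟩ := hWc n hnW K r p Δ R XL o i c0 d0 lv δA
      hK hR hr hα'r hCD (hp.trans (mul_le_mul_of_nonneg_right hγW' hn0)) hlvW hXL hXc hDg
      (hΔ.trans (mul_le_mul_of_nonneg_right hζW' hn0)) hξp
    have hDgW : Dg (Wo ∪ HbA) w := by
      intro v
      have h1 := hW.dg v
      have h2 := od_union_le Wo HbA v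
      have h3 := idg_union_le Wo HbA v
      omega
    obtain ⟨σ, π, hab⟩ := hA n hnA K r p Δ w s R XL o i c0 d0 lv (lam / 2) Wo XW HbA hK hR hr
      (hcrs.trans (mul_le_mul_of_nonneg_right hγA' hn2)) (ex_rob_mono hRob (min_le_right _ _))
      hod hid (hLnQ n K o i a lam hK hlb) hcut hCD
      (hp.trans (mul_le_mul_of_nonneg_right hγA' hn0)) hlvA hXL hXc hDg
      (hΔ.trans (mul_le_mul_of_nonneg_right hζA' hn0)) hξp
      (hwω.trans (mul_le_mul_of_nonneg_right hω1 hn0)) hW.s1 hW.sw hDgW hW.xw hW.xc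
    refine ex_core hAbR hFin hα'0 hη hκ hR hr hα'r (ex_rle hr hn1) hcut hlv.lev.le hXL ?_ hW ?_
      hκd rfl hab (hT n hnT)
    · intro b hb h1
      have h2 := hXc b hb
      rw [h2.1, h2.2.1] at h1
      exact h2.2.2 h1
    · calc (w : ℝ) * (((e : ℝ) + 1) * (q + 2)) ≤ ω * n * (((e : ℝ) + 1) * (q + 2)) :=
            mul_le_mul_of_nonneg_right hwω hden.le
        _ = ω * (((e : ℝ) + 1) * (q + 2)) * n := by ring
        _ ≤ min (α' / 4) (η / 8) * n := mul_le_mul_of_nonneg_right hω2 hn0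
  have hζ0 : 0 ≤ ζ * n := le_trans (Nat.cast_nonneg _) hΔ
  rcases Nat.eq_zero_or_pos p with hp0 | hp0
  · refine main ∅ 0 (empty_subset _) ?_ ?_ ?_ ?_ ?_
    · intro b hb
      exact absurd hb (notMem_empty _)
    · intro v
      simp [od, idg]
    · rw [Nat.cast_zero]; exact hζ0
    · rw [hp0]; simp
    · simp
  · refine main XL Δ hXL hXc hDg hΔ hξp ?_
    have h1 : (Δ : ℝ) ≤ ξ / (64 * ((e : ℝ) + 1) ^ 4) * n :=
      hΔ.trans (mul_le_mul_of_nonneg_right hζξ hn0)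
    have h2 : (0 : ℝ) < 64 * ((e : ℝ) + 1) ^ 4 := by positivity
    have h3 : 64 * ((e : ℝ) + 1) ^ 4 * Δ ≤ ξ * n := by
      have h4 : 64 * ((e : ℝ) + 1) ^ 4 * Δ ≤
          64 * ((e : ℝ) + 1) ^ 4 * (ξ / (64 * ((e : ℝ) + 1) ^ 4) * n) :=
        mul_le_mul_of_nonneg_left h1 h2.le
      refine h4.trans (le_of_eq ?_)
      field_simp
    have h5 : ξ * n ≤ ξ * n * p := by
      have h6 : (1 : ℝ) ≤ p := by exact_mod_cast hp0
      have h7 : 0 ≤ ξ * n := mul_nonneg hξ.le hn0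
      exact le_mul_of_one_le_right h7 h6
    have h8 : ((64 * (e + 1) ^ 4 * Δ : ℕ) : ℝ) ≤ ((XL.card : ℕ) : ℝ) := by
      push_cast
      exact h3.trans (h5.trans hξp)
    exact_mod_cast h8

end Pool.Agent.MPd266dbE
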