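import Pool.Agent.Lib.MP_d266db_co.E.SpecD

/-!
# MP_d266db_co, E: the objects of a system
-/

set_option autoImplicit false

namespace Pool.Agent.MPd266dbE

open Finset Pool.Agent.MPd266db Pool.Agent.MPd266dbH

theorem fbp_mono {n K : ℕ} {S : Finset (Fin n × Fin n)} {o i : Fin n → Fin K}
    {N θ ρ g β ν θ' ν' : ℝ} (h : BHyp S o i N θ ρ g β ν) (hN : 0 ≤ N) (hθ : θ' ≤ θ)
    (hν : ν' ≤ ν) : BHyp S o i N θ' ρ g β ν' where
  own := h.own
  odl := fun v => (mul_le_mul_of_nonneg_right hθ hN).trans (h.odl v)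
  idl := fun v => (mul_le_mul_of_nonneg_right hθ hN).trans (h.idl v)
  nro := h.nro
  nri := h.nri
  rge := (mul_le_mul_of_nonneg_right hθ hN).trans h.rge
  rle := h.rle
  szo := h.szo
  szi := h.szi
  rob := fun a X Y hX hY h1 h2 =>
    (mul_le_mul_of_nonneg_right hν (sq_nonneg N)).trans (h.rob a X Y hX hY h1 h2)

theorem tFbP (hBSb : S_BSb) (hFob : S_Fob) (hPXb : S_PXb) : S_FbP := by
  classical
  intro K0 θ ν hK0 hθ hθ1 hν
  obtain ⟨mt, c, N0, hmt, hc, hF⟩ := hFob K0 (θ / 2) (ν / 2) hK0 (by positivity) (by linarith)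
    (by positivity)
  refine ⟨mt, c, max N0 1, hmt, hc, ?_⟩
  intro n K e p z S Xe o i χo χi lv N ρ g β hK he hLv hS hB hg hβ hN hz1 hz2 hPX hXe hp Z hZ j hj
    X hX hVD hXc
  have hN0 : N0 ≤ N := (le_max_left _ _).trans hN
  have hN1 : 1 ≤ N := (le_max_right _ _).trans hN
  have hNp : 0 < N := by linarith
  have hη : (z : ℝ) ≤ (z : ℝ) / N * N := by rw [div_mul_cancel₀ _ hNp.ne']
  have hη0 : 0 ≤ (z : ℝ) / N := by positivity
  have hη1 : 64 * ((z : ℝ) / N) ≤ ν := by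
    rw [← mul_div_assoc, div_le_iff₀ hNp]
    exact hz1
  have hη2 : 2 * ((z : ℝ) / N) ≤ θ := by
    rw [← mul_div_assoc, div_le_iff₀ hNp]
    exact hz2
  have hB' := hBSb n ((e + 1) * K) z S Z (bxo e lv o) (bxi e lv i) N θ ρ g β ν ((z : ℝ) / N) hB hZ
    hη hNp.le hη0
  have hB'' : BHyp (S \ Z) (bxo e lv o) (bxi e lv i) N (θ / 2) ρ (g + (z : ℝ) / N) β (ν / 2) :=
    fbp_mono hB' hNp.le (by linarith) (by linarith)
  have hXl : ∀ q ∈ X, lv q.1 = e ∧ lv q.2 = 0 := fun q hq => hXe q (hX hq)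
  refine hF n K e j (S \ Z) X o i lv N ρ (g + (z : ℝ) / N) β hK he hj hLv
    (fun q hq => hS q (mem_sdiff.1 hq).1) hB'' (by linarith) (by nlinarith) hN0 hVD ?_ ?_ ?_
  · intro q hq
    obtain ⟨h1, h2⟩ := hXl q hq
    have h3 : tgp e lv q.1 = e := by
      unfold tgp
      omega
    refine ⟨⟨?_, ?_⟩, h3⟩
    · rw [h3]
      unfold hgp
      rw [if_pos h2]
    · omega
  · exact (hPXb n K p o i χo χi Xe X hPX hX hVD hXc).2 e lv hLv (by omega) hXl
  · rw [hXc]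
    exact hp

end Pool.Agent.MPd266dbE
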