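import Pool.Agent.Lib.MP_d266db_co.E.SpecG

/-!
# MP_d266db_co, E, Fin: the decomposition (helper8)
-/

set_option autoImplicit false

namespace Pool.Agent.MPd266dbE

open Finset Pool.Agent.MPd266db Pool.Agent.MPd266dbH

theorem fin_sub {n mF G e : ℕ} {lv : Fin n → ℕ} {jj : Fin mF → ℕ} {S' : Finset (Fin n × Fin n)}
    {σ : Fin mF → Equiv.Perm (Fin n)} {π : Fin G → Equiv.Perm (Fin n)}
    (h : Abs e lv mF G jj S' σ π) : abA e lv jj σ π ⊆ S' := by
  intro q hq
  unfold abA at hq
  rw [mem_union, mem_biUnion, mem_biUnion] at hq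
  rcases hq with ⟨f, -, hf⟩ | ⟨g, -, hg⟩
  · rw [mem_image] at hf
    obtain ⟨v, hv, rfl⟩ := hf
    rw [mem_filter] at hv
    exact h.aF f v hv.2
  · have hg' := mem_arcs.1 hg
    have := h.aG g q.1
    rw [hg'] at this
    exact this

theorem fin_memF {n mF G e : ℕ} {lv : Fin n → ℕ} {jj : Fin mF → ℕ}
    {σ : Fin mF → Equiv.Perm (Fin n)} {π : Fin G → Equiv.Perm (Fin n)} {f : Fin mF} {v : Fin n}
    (h : tgp e lv v ≠ jj f) : (v, σ f v) ∈ abA e lv jj σ π := by
  unfold abA
  rw [mem_union, mem_biUnion]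
  left
  refine ⟨f, mem_univ _, ?_⟩
  rw [mem_image]
  exact ⟨v, by rw [mem_filter]; exact ⟨mem_univ _, h⟩, rfl⟩

theorem fin_memG {n mF G e : ℕ} {lv : Fin n → ℕ} {jj : Fin mF → ℕ}
    {σ : Fin mF → Equiv.Perm (Fin n)} {π : Fin G → Equiv.Perm (Fin n)} (g : Fin G) (v : Fin n) :
    (v, π g v) ∈ abA e lv jj σ π := by
  unfold abA
  rw [mem_union, mem_biUnion, mem_biUnion]
  right
  exact ⟨g, mem_univ _, mem_arcs.2 rfl⟩

theorem tFin (hDec1 : S_Dec1) : S_Fin := by
  classical
  intro n e s G t h r lv R W D L S' σ π τ C hAbs hlv hS'R hWR hDR hS'W hτH hτR hτn hτd hDA hCH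
    hCm hCd hLW hLs hLWd hr
  obtain ⟨μ', hμ'L, hμ'd⟩ := hDec1 n s L hLs
  have hAS : abA e lv (jjf e s) σ π ⊆ S' := fin_sub hAbs
  have hAW : Disjoint (abA e lv (jjf e s) σ π) W := Disjoint.mono_left hAS hS'W
  have hAL : Disjoint (abA e lv (jjf e s) σ π) L := Disjoint.mono_right hLW hAW
  obtain ⟨μ, hμ⟩ : ∃ μ : Fin ((e + 1) * s) → Equiv.Perm (Fin n),
      ∀ f, μ f = μ' (finProdFinEquiv.symm f).2 := ⟨_, fun f => rfl⟩
  have hμL : ∀ f v, (v, μ f v) ∈ L := fun f v => by rw [hμ]; exact hμ'L _ v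
  obtain ⟨Φ, hΦH, hΦ⟩ := hAbs.ab μ (fun f v => hLWd _ (hμL f v))
  -- the values of `Φ` at a vertex
  have hM : ∀ v (y : Fin ((e + 1) * s) ⊕ Fin G), (v, Sum.elim (fun f => if tgp e lv v = jjf e s f
      then μ f v else σ f v) (fun g => π g v) y) ∈ L ∨ (v, Sum.elim (fun f => if tgp e lv v =
      jjf e s f then μ f v else σ f v) (fun g => π g v) y) ∈ abA e lv (jjf e s) σ π := by
    intro v y
    rcases y with f | g
    · by_cases hf : tgp e lv v = jjf e s f
      · left
        simp only [Sum.elim_inl, hf, if_true]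
        exact hμL f v
      · right
        simp only [Sum.elim_inl, hf, if_false]
        exact fin_memF hf
    · right
      simp only [Sum.elim_inr]
      exact fin_memG g v
  have hAL' : ∀ q, q ∈ abA e lv (jjf e s) σ π → q ∈ L → False := fun q h1 h2 =>
    (Finset.disjoint_left.1 hAL) h1 h2
  have hinj : ∀ v, Function.Injective (Sum.elim (fun f => if tgp e lv v = jjf e s f
      then μ f v else σ f v) (fun g => π g v)) := by
    intro v y y' hyy
    rcases y with f | g <;> rcases y' with f' | g'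
    · simp only [Sum.elim_inl] at hyy
      by_cases hf : tgp e lv v = jjf e s f <;> by_cases hf' : tgp e lv v = jjf e s f'
      · rw [if_pos hf, if_pos hf', hμ, hμ] at hyy
        have h2 : (finProdFinEquiv.symm f).2 = (finProdFinEquiv.symm f').2 := by
          by_contra hne
          exact hμ'd _ _ hne v hyy
        have h1 : (finProdFinEquiv.symm f).1 = (finProdFinEquiv.symm f').1 := by
          have : jjf e s f = jjf e s f' := by rw [← hf, ← hf']
          exact Fin.ext this
        have h3 : finProdFinEquiv.symm f = finProdFinEquiv.symm f' := Prod.ext h1 h2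
        rw [finProdFinEquiv.symm.injective h3]
      · rw [if_pos hf, if_neg hf'] at hyy
        have h1 := hμL f v
        rw [hyy] at h1
        exact (hAL' _ (fin_memF hf') h1).elim
      · rw [if_neg hf, if_pos hf'] at hyy
        have h1 := hμL f' v
        rw [← hyy] at h1
        exact (hAL' _ (fin_memF hf) h1).elim
      · rw [if_neg hf, if_neg hf'] at hyy
        by_contra hne
        exact hAbs.dF f f' (fun hh => hne (by rw [hh])) v hf hf' hyy
    · simp only [Sum.elim_inl, Sum.elim_inr] at hyy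
      by_cases hf : tgp e lv v = jjf e s f
      · rw [if_pos hf] at hyy
        have h1 := hμL f v
        rw [hyy] at h1
        exact (hAL' _ (fin_memG g' v) h1).elim
      · rw [if_neg hf] at hyy
        exact (hAbs.dFG f g' v hf hyy).elim
    · simp only [Sum.elim_inl, Sum.elim_inr] at hyy
      by_cases hf : tgp e lv v = jjf e s f'
      · rw [if_pos hf] at hyy
        have h1 := hμL f' v
        rw [← hyy] at h1
        exact (hAL' _ (fin_memG g v) h1).elim
      · rw [if_neg hf] at hyy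
        exact (hAbs.dFG f' g v hf hyy.symm).elim
    · simp only [Sum.elim_inr] at hyy
      by_contra hne
      exact hAbs.dG g g' (fun hh => hne (by rw [hh])) v hyy
  have hΦm : ∀ c v, (v, Φ c v) ∈ L ∨ (v, Φ c v) ∈ abA e lv (jjf e s) σ π := by
    intro c v
    obtain ⟨ψ, hψ⟩ := hΦ v
    rw [hψ c]
    exact hM v (ψ c)
  have hΦd : ∀ c c', c ≠ c' → ∀ v, Φ c v ≠ Φ c' v := by
    intro c c' hcc v hh
    obtain ⟨ψ, hψ⟩ := hΦ v
    rw [hψ c, hψ c'] at hh
    exact hcc (ψ.injective (hinj v hh))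
  -- the family
  obtain ⟨Θ, hΘ⟩ : ∃ Θ : Fin t ⊕ (Fin h ⊕ (Fin ((e + 1) * s) ⊕ Fin G)) → Equiv.Perm (Fin n),
      Θ = Sum.elim τ (Sum.elim C Φ) := ⟨_, rfl⟩
  have hΘH : ∀ x, Ham (Θ x) := by
    intro x
    rw [hΘ]
    rcases x with j | c | y
    · exact hτH j
    · exact hCH c
    · exact hΦH y
  have hΘR : ∀ x v, (v, Θ x v) ∈ R := by
    intro x v
    rw [hΘ]
    rcases x with j | c | y
    · exact hτR j v
    · rcases mem_union.1 (hCm c v).1 with hh | hh
      · exact hDR hh
      · exact hWR hh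
    · rcases hΦm y v with hh | hh
      · exact hWR (hLW hh)
      · exact hS'R (hAS hh)
  have hτC : ∀ j c v, τ j v ≠ C c v := by
    intro j c v hh
    have h1 := (hCm c v).1
    rw [← hh] at h1
    rcases mem_union.1 h1 with h2 | h2
    · exact (hτn j v).2.2 h2
    · exact (hτn j v).2.1 h2
  have hτΦ : ∀ j y v, τ j v ≠ Φ y v := by
    intro j y v hh
    rcases hΦm y v with h1 | h1
    · rw [← hh] at h1
      exact (hτn j v).2.1 (hLW h1)
    · rw [← hh] at h1
      exact (hτn j v).1 h1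
  have hCΦ : ∀ c y v, C c v ≠ Φ y v := by
    intro c y v hh
    rcases hΦm y v with h1 | h1
    · rw [← hh] at h1
      exact (hCm c v).2 h1
    · rw [← hh] at h1
      rcases mem_union.1 (hCm c v).1 with h2 | h2
      · exact (Finset.disjoint_left.1 hDA) h2 h1
      · exact (Finset.disjoint_left.1 hAW) h1 h2
  have hΘd : ∀ x x', x ≠ x' → ∀ v, Θ x v ≠ Θ x' v := by
    intro x x' hxx v
    rw [hΘ]
    rcases x with j | c | y <;> rcases x' with j' | c' | y'
    · exact hτd j j' (fun hh => hxx (by rw [hh])) v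
    · exact hτC j c' v
    · exact hτΦ j y' v
    · exact (hτC j' c v).symm
    · exact hCd c c' (fun hh => hxx (by rw [hh])) v
    · exact hCΦ c y' v
    · exact (hτΦ j' y v).symm
    · exact (hCΦ c' y v).symm
    · exact hΦd y y' (fun hh => hxx (by rw [hh])) v
  have hcard : Fintype.card (Fin t ⊕ (Fin h ⊕ (Fin ((e + 1) * s) ⊕ Fin G))) = r := by
    simp only [Fintype.card_sum, Fintype.card_fin]
    omega
  let E := Fintype.equivFinOfCardEq hcard
  refine ⟨fun j => Θ (E.symm j), fun j => hΘH _, fun j v => hΘR _ v, ?_⟩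
  intro j j' hj v
  exact hΘd _ _ (fun hh => hj (E.symm.injective hh)) v

end Pool.Agent.MPd266dbE
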