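import Pool.Agent.Lib.MP_d266db_co.E.SpecC

/-!
# MP_d266db_co, E: going around
-/

set_option autoImplicit false

namespace Pool.Agent.MPd266dbE

open Finset Pool.Agent.MPd266db Pool.Agent.MPd266dbH

/-- the level with position `p` -/
def foc_lev (e j p : ℕ) : ℕ := if p + (j + 1) ≤ e then p + (j + 1) else p + j - e

theorem foc_fwd {n : ℕ} (e j : ℕ) (lv : Fin n → ℕ) (σ : Equiv.Perm (Fin n)) (w : Fin n → Prop)
    (hlv : ∀ v, lv v ≤ e + 1) (hwd : ∀ v, Wd e lv v (σ v))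
    (hw : ∀ v, tgp e lv v ≠ j → (w v ↔ w (σ v))) (v : Fin n) (hv : lv v ≤ e) (hj : lv v ≠ j) :
    ∃ x, lv x = (if lv v = e then 0 else lv v + 1) ∧ (w v ↔ w x) := by
  have h1 : w v ↔ w (σ v) := hw v (by unfold tgp; omega)
  have h2 := (hwd v).1
  have h3 := hlv (σ v)
  unfold tgp hgp at h2
  rw [min_eq_left hv] at h2
  by_cases hve : lv v = e
  · rw [if_pos hve]
    by_cases h0 : lv (σ v) = 0
    · exact ⟨σ v, h0, h1⟩
    · rw [if_neg h0] at h2
      have h4 : lv (σ v) = e + 1 := by omega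
      have h5 : w (σ v) ↔ w (σ (σ v)) := hw (σ v) (by unfold tgp; omega)
      refine ⟨σ (σ v), ?_, h1.trans h5⟩
      obtain ⟨h6, h7⟩ := hwd (σ v)
      unfold tgp hgp at h6
      have h8 := hlv (σ (σ v))
      by_contra hcon
      rw [if_neg hcon] at h6
      exact h7 ⟨h4, by omega⟩
  · rw [if_neg hve]
    refine ⟨σ v, ?_, h1⟩
    by_cases h0 : lv (σ v) = 0
    · rw [if_pos h0] at h2
      omega
    · rw [if_neg h0] at h2
      omega

theorem foc_bwd {n : ℕ} (e j : ℕ) (lv : Fin n → ℕ) (σ : Equiv.Perm (Fin n)) (w : Fin n → Prop)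
    (hlv : ∀ v, lv v ≤ e + 1) (hwd : ∀ v, Wd e lv v (σ v))
    (hw : ∀ v, tgp e lv v ≠ j → (w v ↔ w (σ v))) (v : Fin n) (hv : lv v ≤ e)
    (hj : (if lv v = 0 then e else lv v - 1) ≠ j) :
    ∃ x, lv x = (if lv v = 0 then e else lv v - 1) ∧ (w v ↔ w x) := by
  obtain ⟨u, hu⟩ : ∃ u, σ u = v := ⟨σ.symm v, Equiv.apply_symm_apply _ _⟩
  obtain ⟨h1, h2⟩ := hwd u
  rw [hu] at h1 h2
  have h3 : w v ↔ w u := by
    have := hw u (by rw [h1]; exact hj)
    rw [hu] at this
    exact this.symm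
  have h4 := hlv u
  have h5 : tgp e lv u = (if lv v = 0 then e else lv v - 1) := h1
  unfold tgp at h5
  by_cases hue : lv u ≤ e
  · exact ⟨u, by rw [← h5]; omega, h3⟩
  · have hu1 : lv u = e + 1 := by omega
    obtain ⟨u', hu'⟩ : ∃ u', σ u' = u := ⟨σ.symm u, Equiv.apply_symm_apply _ _⟩
    obtain ⟨k1, k2⟩ := hwd u'
    rw [hu'] at k1 k2
    unfold hgp at k1
    rw [if_neg (by omega)] at k1
    have k3 : (if lv v = 0 then e else lv v - 1) = e := by rw [← h5]; omega
    have k4 : w u ↔ w u' := by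
      have := hw u' (by rw [k1]; omega)
      rw [hu'] at this
      exact this.symm
    refine ⟨u', ?_, h3.trans k4⟩
    rw [k3]
    unfold tgp at k1
    have k5 := hlv u'
    by_contra hcon
    exact k2 ⟨by omega, hu1⟩

theorem tFoC : S_FoC := by
  intro n e j s lv σ w hlv hwd hj hs hw hsame
  -- connections between positions
  have step : ∀ p, p < e → (∀ v, lv v = foc_lev e j p → ∃ x, lv x = foc_lev e j (p + 1) ∧ (w v ↔ w x)) ∧
      (∀ v, lv v = foc_lev e j (p + 1) → ∃ x, lv x = foc_lev e j p ∧ (w v ↔ w x)) := by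
    intro p hp
    have l1 : foc_lev e j p ≤ e := by unfold foc_lev; split_ifs <;> omega
    have l2 : foc_lev e j (p + 1) ≤ e := by unfold foc_lev; split_ifs <;> omega
    have l3 : foc_lev e j p ≠ j := by unfold foc_lev; split_ifs <;> omega
    have d1 : foc_lev e j p = if p + (j + 1) ≤ e then p + (j + 1) else p + j - e := rfl
    have d2 : foc_lev e j (p + 1) =
      if p + 1 + (j + 1) ≤ e then p + 1 + (j + 1) else p + 1 + j - e := rfl
    have l4 : foc_lev e j (p + 1) = (if foc_lev e j p = e then 0 else foc_lev e j p + 1) := by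
      split_ifs at d1 d2 ⊢ <;> omega
    have l5 : (if foc_lev e j (p + 1) = 0 then e else foc_lev e j (p + 1) - 1) = foc_lev e j p := by
      split_ifs at d1 d2 ⊢ <;> omega
    constructor
    · intro v hv
      obtain ⟨x, hx1, hx2⟩ := foc_fwd e j lv σ w hlv hwd hw v (by omega) (by rw [hv]; exact l3)
      exact ⟨x, by rw [hx1, hv, l4], hx2⟩
    · intro v hv
      obtain ⟨x, hx1, hx2⟩ := foc_bwd e j lv σ w hlv hwd hw v (by omega)
        (by rw [hv, l5]; exact l3)
      exact ⟨x, by rw [hx1, hv, l5], hx2⟩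
  have conn : ∀ p q, p ≤ q → q ≤ e →
      (∀ v, lv v = foc_lev e j p → ∃ x, lv x = foc_lev e j q ∧ (w v ↔ w x)) ∧
      (∀ v, lv v = foc_lev e j q → ∃ x, lv x = foc_lev e j p ∧ (w v ↔ w x)) := by
    intro p q hpq
    induction q, hpq using Nat.le_induction with
    | base => exact fun _ => ⟨fun v hv => ⟨v, hv, Iff.rfl⟩, fun v hv => ⟨v, hv, Iff.rfl⟩⟩
    | succ q hpq ih =>
      intro hq
      obtain ⟨i1, i2⟩ := ih (by omega)
      obtain ⟨s1, s2⟩ := step q (by omega)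
      constructor
      · intro v hv
        obtain ⟨x, hx1, hx2⟩ := i1 v hv
        obtain ⟨y, hy1, hy2⟩ := s1 x hx1
        exact ⟨y, hy1, hx2.trans hy2⟩
      · intro v hv
        obtain ⟨x, hx1, hx2⟩ := s2 v hv
        obtain ⟨y, hy1, hy2⟩ := i2 x hx1
        exact ⟨y, hy1, hx2.trans hy2⟩
  -- every level has a position
  have pos : ∀ l, l ≤ e → ∃ p, p ≤ e ∧ foc_lev e j p = l := by
    intro l hl
    refine ⟨if l ≤ j then l + (e - j) else l - (j + 1), ?_, ?_⟩
    · split_ifs <;> omega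
    · unfold foc_lev
      split_ifs <;> omega
  have key : ∀ v, lv v ≤ e → ∃ x, lv x = s ∧ (w v ↔ w x) := by
    intro v hv
    obtain ⟨p, hp1, hp2⟩ := pos (lv v) hv
    obtain ⟨q, hq1, hq2⟩ := pos s hs
    rcases le_total p q with hpq | hpq
    · obtain ⟨x, hx1, hx2⟩ := (conn p q hpq hq1).1 v hp2.symm
      exact ⟨x, hx1.trans hq2, hx2⟩
    · obtain ⟨x, hx1, hx2⟩ := (conn q p hpq hp1).2 v hp2.symm
      exact ⟨x, hx1.trans hq2, hx2⟩
  intro v v' hv hv'
  obtain ⟨x, hx1, hx2⟩ := key v hv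
  obtain ⟨x', hx1', hx2'⟩ := key v' hv'
  exact (hx2.trans (hsame x x' hx1 hx1')).trans hx2'.symm

end Pool.Agent.MPd266dbE
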