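import Pool.Agent.Lib.MP_d266db_co.E.SpecC

/-!
# MP_d266db_co, E, Fob: objects exist
-/

set_option autoImplicit false

namespace Pool.Agent.MPd266dbE

open Finset Pool.Agent.MPd266db Pool.Agent.MPd266dbH

/-- the box with gap `m` and class `a` -/
def fob_bx (e K m : ℕ) (a : Fin K) : Fin ((e + 1) * K) := finProdFinEquiv (Fin.ofNat (e + 1) m, a)

theorem fob_bx_inj {e K m m' : ℕ} {a a' : Fin K} (hm : m ≤ e) (hm' : m' ≤ e) :
    fob_bx e K m a = fob_bx e K m' a' ↔ m = m' ∧ a = a' := by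
  unfold fob_bx
  rw [finProdFinEquiv.apply_eq_iff_eq, Prod.mk.injEq, Fin.ext_iff]
  simp only [Fin.ofNat]
  rw [Nat.mod_eq_of_lt (Nat.lt_succ_of_le hm), Nat.mod_eq_of_lt (Nat.lt_succ_of_le hm')]

theorem fob_o {n K e m : ℕ} {lv : Fin n → ℕ} {o : Fin n → Fin K} {v : Fin n} {a : Fin K}
    (hm : m ≤ e) : bxo e lv o v = fob_bx e K m a ↔ tgp e lv v = m ∧ o v = a :=
  fob_bx_inj (tgp_le e lv v) hm

theorem fob_i {n K e m : ℕ} {lv : Fin n → ℕ} {i : Fin n → Fin K} {v : Fin n} {a : Fin K}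
    (hm : m ≤ e) (hv : lv v ≤ e + 1) :
    bxi e lv i v = fob_bx e K m a ↔ hgp e lv v = m ∧ i v = a :=
  fob_bx_inj (hgp_le hv) hm

/-- the boxes of a gap -/
def fob_J (e K m : ℕ) : Finset (Fin ((e + 1) * K)) := univ.image (fob_bx e K m)

theorem fob_mem_o {n K e m : ℕ} {lv : Fin n → ℕ} {o : Fin n → Fin K} {v : Fin n}
    (hm : m ≤ e) : v ∈ ClU (bxo e lv o) (fob_J e K m) ↔ tgp e lv v = m := by
  simp only [ClU, mem_filter, mem_univ, true_and, fob_J, mem_image]
  constructor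
  · rintro ⟨a, ha⟩
    exact ((fob_o hm).1 ha.symm).1
  · intro h
    exact ⟨o v, ((fob_o hm).2 ⟨h, rfl⟩).symm⟩

theorem fob_mem_i {n K e m : ℕ} {lv : Fin n → ℕ} {i : Fin n → Fin K} {v : Fin n}
    (hm : m ≤ e) (hv : lv v ≤ e + 1) :
    v ∈ ClU (bxi e lv i) (fob_J e K m) ↔ hgp e lv v = m := by
  simp only [ClU, mem_filter, mem_univ, true_and, fob_J, mem_image]
  constructor
  · rintro ⟨a, ha⟩
    exact ((fob_i hm hv).1 ha.symm).1
  · intro h
    exact ⟨i v, ((fob_i hm hv).2 ⟨h, rfl⟩).symm⟩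

theorem fob_tgp {n e m : ℕ} {lv : Fin n → ℕ} {v : Fin n} (hm : m < e) :
    tgp e lv v = m ↔ lv v = m := by
  unfold tgp
  omega

theorem fob_hgp {n e m : ℕ} {lv : Fin n → ℕ} {v : Fin n} (hm : m < e) :
    hgp e lv v = m ↔ lv v = m + 1 := by
  unfold hgp
  split_ifs <;> omega

theorem tFob (hGcm : S_Gcm) (hRun : S_Run) (hFoC : S_FoC) : S_Fob := by
  intro K0 θ ν hK0 hθ hθ1 hν
  obtain ⟨mt, N1, hmt, hrun⟩ := hRun K0 θ ν hK0 hθ hθ1 hν
  refine ⟨mt, min (ν / 8) (θ / 8), max N1 1, hmt, lt_min (by linarith) (by linarith), ?_⟩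
  intro n K e j S X o i lv N ρ g β hK he hj hLv hS hB hg hβ hN hVD hX hBal hXc
  have hN1 : N1 ≤ N := (le_max_left _ _).trans hN
  have hNp : 0 < N := lt_of_lt_of_le one_pos ((le_max_right _ _).trans hN)
  set c : ℝ := min (ν / 8) (θ / 8) with hc
  have hc1 : c ≤ ν / 8 := min_le_left _ _
  have hc2 : c ≤ θ / 8 := min_le_right _ _
  have hc0 : 0 < c := lt_min (by linarith) (by linarith)
  have hθ2 : θ ^ 2 ≤ θ := by nlinarith
  -- the permutation `σ0`
  obtain ⟨σ0, hσX, hσS⟩ := hGcm n ((e + 1) * K) S X (bxo e lv o) (bxi e lv i) N θ ρ g β ν c hB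
    hNp hθ hc0.le (by linarith) (by linarith) (by linarith)
    (fun p hp p' hp' hpp => by
      by_contra hne
      exact (hVD.1 p hp p' hp' hne).1 hpp)
    (fun p hp p' hp' hpp => by
      by_contra hne
      exact (hVD.1 p hp p' hp' hne).2 hpp) hBal hXc
  have hwS : ∀ u v, (u, v) ∈ S → Wd e lv u v := by
    intro u v huv
    exact ⟨((bxo_eq_bxi (hLv.le v)).1 (hB.own _ huv)).1, hS _ huv⟩
  -- the level `s`
  obtain ⟨s, hs1, hs2, hs3⟩ : ∃ s : ℕ, 1 ≤ s ∧ s + mt < e ∧ ∀ l < mt, s + l ≠ j := by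
    by_cases h : 1 ≤ j ∧ j ≤ mt
    · exact ⟨mt + 2, by omega, by omega, fun l hl => by omega⟩
    · exact ⟨1, le_rfl, by omega, fun l hl => by omega⟩
  have hOm : ∀ l ≤ mt, ∀ v, v ∈ ClU (bxo e lv o) (fob_J e K (s + l)) ↔ lv v = s + l := by
    intro l hl v
    rw [fob_mem_o (by omega), fob_tgp (by omega)]
  have hIm : ∀ l < mt, ∀ v, v ∈ ClU (bxi e lv i) (fob_J e K (s + l)) ↔ lv v = s + l + 1 := by
    intro l hl v
    rw [fob_mem_i (by omega) (hLv.le v), fob_hgp (by omega)]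
  have hXg : ∀ l < mt, ∀ v, lv v = s + l → v ∉ tls X := by
    intro l hl v hv hvX
    obtain ⟨q, hq, rfl⟩ := mem_tls.1 hvX
    have h1 := (hX q hq).2
    unfold tgp at h1
    omega
  obtain ⟨a0, ha0⟩ := hLv.typ
  obtain ⟨σ, T, hσ1, hσ2, hT1, hT2, hcon⟩ := hrun n ((e + 1) * K) S (bxo e lv o) (bxi e lv i) N ρ g β
    (fun l => fob_J e K (s + l)) σ0 hB hg hβ hN1
    (fun l _ => card_image_le.trans (by rw [card_univ, Fintype.card_fin]; exact hK))
    (fun l hl => by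
      ext v
      rw [hIm l hl v, hOm (l + 1) hl v]
      omega)
    (fun l hl l' hl' hne => by
      rw [Finset.disjoint_left]
      intro x hx hx'
      obtain ⟨a, -, rfl⟩ := mem_image.1 hx
      obtain ⟨a', -, ha'⟩ := mem_image.1 hx'
      have h1 := ((fob_bx_inj (by omega) (by omega)).1 ha').1
      omega)
    (fun l hl b hb => by
      obtain ⟨a, -, rfl⟩ := mem_image.1 hb
      have h1 : Cl (bxo e lv o) (fob_bx e K (s + l) a) =
          univ.filter (fun v => lv v = s + l ∧ o v = a) := by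
        ext v
        simp only [Cl, mem_filter, mem_univ, true_and]
        rw [fob_o (by omega), fob_tgp (by omega)]
      have h2 : Cl (bxi e lv i) (fob_bx e K (s + l) a) =
          univ.filter (fun v => lv v = s + l + 1 ∧ i v = a) := by
        ext v
        simp only [Cl, mem_filter, mem_univ, true_and]
        rw [fob_i (by omega) (hLv.le v), fob_hgp (by omega)]
      rw [h1, h2]
      exact hLv.bal _ (by omega) _ (by omega) a)
    (fun l hl => by
      refine ⟨fob_bx e K (s + (l + 1)) a0, mem_image_of_mem _ (mem_univ _), ?_⟩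
      intro b hb
      obtain ⟨b', -, rfl⟩ := mem_image.1 hb
      obtain ⟨v, hv1, hv2, hv3⟩ := ha0 (s + (l + 1)) (by omega) b'
      refine ⟨v, ?_⟩
      simp only [Cl, mem_inter, mem_filter, mem_univ, true_and]
      refine ⟨(fob_o (by omega)).2 ⟨?_, hv2⟩, (fob_i (by omega) (hLv.le v)).2 ⟨?_, hv3⟩⟩
      · rw [fob_tgp (by omega)]
        exact hv1
      · rw [fob_hgp (by omega)]
        omega)
    (fun l hl v hv => by
      rw [hOm l hl.le v] at hv
      exact hB.own _ (hσS v (hXg l hl v hv)))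
  -- arcs
  have hsX : ∀ q ∈ X, σ q.1 = q.2 := by
    intro q hq
    rw [hσ1 q.1, hσX q hq]
    intro l hl hv
    exact hXg l hl q.1 ((hOm l hl.le q.1).1 hv) (mem_tls.2 ⟨q, hq, rfl⟩)
  have hsS : ∀ v, v ∉ tls X → (v, σ v) ∈ S := by
    intro v hv
    by_cases h : ∃ l < mt, v ∈ ClU (bxo e lv o) (fob_J e K (s + l))
    · obtain ⟨l, hl, hvl⟩ := h
      exact hσ2 l hl v hvl
    · push Not at h
      rw [hσ1 v h]
      exact hσS v hv
  have hwn : ∀ v, Wd e lv v (σ v) := by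
    intro v
    by_cases hv : v ∈ tls X
    · obtain ⟨q, hq, rfl⟩ := mem_tls.1 hv
      rw [hsX q hq]
      exact (hX q hq).1
    · exact hwS _ _ (hsS v hv)
  refine ⟨σ, T, hwn, hsX, hsS, fun q hq => (hT1 q hq).1, fun q hq => (hT1 q hq).2.2, ?_, hT2, ?_⟩
  · intro q hq
    obtain ⟨l, hl, h1, h2⟩ := (hT1 q hq).2.1
    rw [hOm l hl.le] at h1 h2
    have h3 := hs3 l hl
    refine ⟨?_, ?_, ?_, ?_⟩ <;> omega
  · intro w hw hwT
    have h1 : ∀ x x', lv x = s + mt → lv x' = s + mt → (w x ↔ w x') := by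
      intro x x' hx hx'
      refine hcon w ?_ hwT x ((hOm mt le_rfl x).2 hx) x' ((hOm mt le_rfl x').2 hx')
      intro l hl v hv
      apply hw
      rw [fob_mem_o (by omega)] at hv
      rw [hv]
      exact hs3 l hl
    exact hFoC n e j (s + mt) lv σ w hLv.le hwn hj (by omega) hw h1

end Pool.Agent.MPd266dbE
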