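import Pool.Agent.Lib.MP_d266db_co.E.SpecH

/-!
# MP_d266db_co, E/Frz: the frozen form (helper8)
-/

set_option autoImplicit false

namespace Pool.Agent.MPd266dbE

open Finset Pool.Agent.MPd266db Pool.Agent.MPd266dbH

theorem frz_ne {n : ℕ} (hn : 2 ≤ n) {σ : Equiv.Perm (Fin n)} (h : Ham σ) (v : Fin n) : σ v ≠ v := by
  intro hv
  obtain ⟨w, hw⟩ : ∃ w : Fin n, w ≠ v := by
    have : 1 < Fintype.card (Fin n) := by rw [Fintype.card_fin]; omega
    exact Fintype.exists_ne_of_one_lt_card this v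
  have h1 : σ.SameCycle v w := h v w
  have h2 := (Equiv.Perm.SameCycle.apply_eq_self_iff h1).1 hv
  obtain ⟨k, hk⟩ := h1
  rw [Equiv.Perm.zpow_apply_eq_self_of_apply_eq_self hv] at hk
  exact hw hk.symm

theorem tFrz (hFnl : S_Fnl) : S_Frz := by
  obtain ⟨n0, h0⟩ := hFnl
  refine ⟨max n0 2, ?_⟩
  intro n hn E hO hS r hr
  have hn2 : 2 ≤ n := (le_max_right _ _).trans hn
  obtain ⟨σ, h1, h2, h3⟩ := h0 n ((le_max_left _ _).trans hn) E hO hS r hr
  refine ⟨σ, ?_, h3⟩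
  intro i
  have hne := frz_ne hn2 (h1 i)
  refine ⟨?_, ?_, h2 i⟩
  · exact ⟨⟨0, by omega⟩, hne _, fun y _ => h1 i _ _⟩
  · ext v
    simp only [mem_univ, iff_true, Equiv.Perm.mem_support]
    exact hne v

end Pool.Agent.MPd266dbE
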