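import Pool.Agent.Lib.MP_d266db_co.E.SpecC

/-!
# MP_d266db_co, E/Gcm: completing a balanced partial matching (helper82)
-/

set_option autoImplicit false

namespace Pool.Agent.MPd266dbE

open Finset Pool.Agent.MPd266db Pool.Agent.MPd266dbH

/-- **Gcm.** -/
theorem tGcm (hHBN : S_HBN) : S_Gcm := by
  classical
  intro n K S X o i N θ ρ g β ν c hS hN hθ hc hcθ hβ hν hX1 hX2 hbal hXc
  have hex : ∀ a : Fin K, ∃ φ : Fin n → Fin n,
      (∀ v ∈ Cl o a \ tls X, φ v ∈ Cl i a \ hds X ∧ (v, φ v) ∈ S) ∧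
      Set.InjOn φ ↑(Cl o a \ tls X) := by
    intro a
    have e1 : Cl o a \ (Cl o a ∩ tls X) = Cl o a \ tls X := sdiff_inter_self_left _ _
    have e2 : Cl i a \ (Cl i a ∩ hds X) = Cl i a \ hds X := sdiff_inter_self_left _ _
    have h1 : ((Cl o a ∩ tls X).card : ℝ) ≤ c * N := by
      refine le_trans ?_ hXc
      exact_mod_cast (card_le_card inter_subset_right).trans card_image_le
    have h2 : ((Cl i a ∩ hds X).card : ℝ) ≤ c * N := by
      refine le_trans ?_ hXc
      exact_mod_cast (card_le_card inter_subset_right).trans card_image_le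
    have h3 := hHBN n K S o i N θ ρ g β ν c a (Cl o a ∩ tls X) (Cl i a ∩ hds X) hS hN hθ hc hcθ hβ
      hν inter_subset_left inter_subset_left h1 h2 (by rw [e1, e2]; exact hbal a)
    rw [e1, e2] at h3
    exact h3
  choose φ hφ1 hφ2 using hex
  have hcl : ∀ (o : Fin n → Fin K) (v : Fin n) (a : Fin K), v ∈ Cl o a ↔ o v = a :=
    fun o v a => by simp [Cl]
  obtain ⟨f, hf1, hf2⟩ : ∃ f : Fin n → Fin n, (∀ e ∈ X, f e.1 = e.2) ∧
      ∀ v, v ∉ tls X → f v = φ (o v) v := by
    refine ⟨fun v => if h : v ∈ tls X then (Classical.choose (mem_tls.1 h)).2 else φ (o v) v,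
      ?_, ?_⟩
    · intro e he
      have h : e.1 ∈ tls X := mem_tls.2 ⟨e, he, rfl⟩
      beta_reduce
      rw [dif_pos h]
      have h1 := Classical.choose_spec (mem_tls.1 h)
      rw [hX1 _ h1.1 e he h1.2]
    · intro v hv
      beta_reduce
      rw [dif_neg hv]
  have hmem : ∀ v, v ∉ tls X → v ∈ Cl o (o v) \ tls X := fun v hv =>
    mem_sdiff.2 ⟨(hcl o v _).2 rfl, hv⟩
  have hinj : Function.Injective f := by
    intro v w hvw
    by_cases hv : v ∈ tls X
    · obtain ⟨e, he, rfl⟩ := mem_tls.1 hv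
      by_cases hw : w ∈ tls X
      · obtain ⟨e', he', rfl⟩ := mem_tls.1 hw
        rw [hf1 e he, hf1 e' he'] at hvw
        rw [hX2 e he e' he' hvw]
      · exfalso
        rw [hf1 e he, hf2 w hw] at hvw
        have h1 := (hφ1 (o w) w (hmem w hw)).1
        rw [← hvw] at h1
        exact (mem_sdiff.1 h1).2 (mem_hds.2 ⟨e, he, rfl⟩)
    · by_cases hw : w ∈ tls X
      · exfalso
        obtain ⟨e, he, rfl⟩ := mem_tls.1 hw
        rw [hf1 e he, hf2 v hv] at hvw
        have h1 := (hφ1 (o v) v (hmem v hv)).1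
        rw [hvw] at h1
        exact (mem_sdiff.1 h1).2 (mem_hds.2 ⟨e, he, rfl⟩)
      · rw [hf2 v hv, hf2 w hw] at hvw
        have h1 := (hcl i _ _).1 (mem_sdiff.1 (hφ1 (o v) v (hmem v hv)).1).1
        have h2 := (hcl i _ _).1 (mem_sdiff.1 (hφ1 (o w) w (hmem w hw)).1).1
        have h3 : o v = o w := by rw [← h1, ← h2, hvw]
        have h4 := hmem w hw
        rw [← h3] at h4 hvw
        exact hφ2 (o v) (mem_coe.2 (hmem v hv)) (mem_coe.2 h4) hvw
  refine ⟨Equiv.ofBijective f (Finite.injective_iff_bijective.1 hinj), ?_, ?_⟩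
  · intro e he
    exact hf1 e he
  · intro v hv
    show (v, f v) ∈ S
    rw [hf2 v hv]
    exact (hφ1 (o v) v (hmem v hv)).2

end Pool.Agent.MPd266dbE
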