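import Pool.Agent.Lib.MP_d266db_co.E.SpecD

/-!
# MP_d266db_co, E: greedy colouring with conflicts and loads
-/

set_option autoImplicit false

namespace Pool.Agent.MPd266dbE

open Finset Pool.Agent.MPd266db Pool.Agent.MPd266dbH

/-- few colours have a large load -/
theorem gdy_load {α : Type} [DecidableEq α] (s : Finset α) (h : ℕ) (w : α → ℕ) (t tot : ℕ)
    (ht : 1 ≤ t) (hs : ∑ u ∈ s, w u ≤ tot) (col : α → Fin h) :
    (univ.filter fun c' : Fin h => t ≤ ∑ u ∈ s.filter (fun u => col u = c'), w u).card ≤
      tot / t := by
  classical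
  rw [Nat.le_div_iff_mul_le (by omega)]
  have h1 : (univ.filter fun c' : Fin h => t ≤ ∑ u ∈ s.filter (fun u => col u = c'), w u).card * t ≤
      ∑ c' ∈ univ.filter fun c' : Fin h => t ≤ ∑ u ∈ s.filter (fun u => col u = c'), w u,
        ∑ u ∈ s.filter (fun u => col u = c'), w u := by
    rw [← smul_eq_mul]
    refine card_nsmul_le_sum _ _ _ fun c' hc' => ?_
    exact (mem_filter.1 hc').2
  have h2 : ∑ c' ∈ univ.filter fun c' : Fin h => t ≤ ∑ u ∈ s.filter (fun u => col u = c'), w u,
        ∑ u ∈ s.filter (fun u => col u = c'), w u ≤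
      ∑ c' : Fin h, ∑ u ∈ s.filter (fun u => col u = c'), w u :=
    sum_le_sum_of_subset (filter_subset _ _)
  have h3 : ∑ c' : Fin h, ∑ u ∈ s.filter (fun u => col u = c'), w u = ∑ u ∈ s, w u :=
    sum_fiberwise s col w
  omega

theorem tGdy : S_Gdy := by
  classical
  intro α _ U Cf _ D h c w C t tot hsym hD ht hC htot hh
  induction U using Finset.induction_on with
  | empty =>
    refine ⟨fun _ => ⟨0, by omega⟩, fun u hu => absurd hu (notMem_empty _), ?_⟩
    intro s c'
    simp
  | insert a s ha ih =>
    obtain ⟨col, hc1, hc2⟩ := ih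
      (fun u hu => (card_le_card (filter_subset_filter _ (subset_insert a s))).trans
        (hD u (mem_insert_of_mem hu)))
      (fun s' u hu => hC s' u (mem_insert_of_mem hu))
      (fun s' => (sum_le_sum_of_subset (subset_insert a s)).trans (htot s'))
    have htot' : ∀ s', ∑ u ∈ s, w s' u ≤ tot s' := fun s' =>
      (sum_le_sum_of_subset (subset_insert a s)).trans (htot s')
    -- blocked colours
    have hB1 : (((insert a s).filter fun u' => Cf a u').image col).card ≤ D :=
      card_image_le.trans (hD a (mem_insert_self a s))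
    have hB2 : (univ.biUnion fun s' : Fin c => univ.filter fun c' : Fin h =>
        t s' ≤ ∑ u ∈ s.filter (fun u => col u = c'), w s' u).card ≤ ∑ s', tot s' / t s' :=
      card_biUnion_le.trans (sum_le_sum fun s' _ => gdy_load s h (w s') (t s') (tot s') (ht s')
        (htot' s') col)
    have hB : ((((insert a s).filter fun u' => Cf a u').image col) ∪
        (univ.biUnion fun s' : Fin c => univ.filter fun c' : Fin h =>
        t s' ≤ ∑ u ∈ s.filter (fun u => col u = c'), w s' u)).card <
          (univ : Finset (Fin h)).card := by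
      rw [card_univ, Fintype.card_fin]
      exact (card_union_le _ _).trans_lt ((Nat.add_le_add hB1 hB2).trans_lt hh)
    obtain ⟨c0, -, hc0⟩ := exists_mem_notMem_of_card_lt_card hB
    rw [mem_union, not_or] at hc0
    obtain ⟨hc01, hc02⟩ := hc0
    have hn1 : ∀ u' ∈ s, Cf a u' → col u' ≠ c0 := by
      intro u' hu' hcf heq
      exact hc01 (mem_image.2 ⟨u', mem_filter.2 ⟨mem_insert_of_mem hu', hcf⟩, heq⟩)
    have hn2 : ∀ s', ∑ u ∈ s.filter (fun u => col u = c0), w s' u < t s' := by
      intro s'
      by_contra hcon
      exact hc02 (mem_biUnion.2 ⟨s', mem_univ _, mem_filter.2 ⟨mem_univ _, not_lt.1 hcon⟩⟩)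
    have hca : Function.update col a c0 a = c0 := Function.update_self _ _ _
    have hcs : ∀ u ∈ s, Function.update col a c0 u = col u := by
      intro u hu
      apply Function.update_of_ne
      rintro rfl
      exact ha hu
    refine ⟨Function.update col a c0, ?_, ?_⟩
    · intro u hu u' hu' hne hcf
      rcases mem_insert.1 hu with h1 | h1 <;> rcases mem_insert.1 hu' with h2 | h2
      · exact absurd (h1.trans h2.symm) hne
      · rw [h1, hca, hcs u' h2]
        rw [h1] at hcf
        exact (hn1 u' h2 hcf).symm
      · rw [h2, hca, hcs u h1]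
        rw [h2] at hcf
        exact hn1 u h1 (hsym _ _ hcf)
      · rw [hcs u h1, hcs u' h2]
        exact hc1 u h1 u' h2 hne hcf
    · intro s' c'
      have hf : s.filter (fun u => Function.update col a c0 u = c') =
          s.filter (fun u => col u = c') := by
        apply filter_congr
        intro u hu
        rw [hcs u hu]
      rw [filter_insert, hca]
      by_cases hcc : c0 = c'
      · rw [if_pos hcc, sum_insert (fun h => ha (mem_filter.1 h).1), hf, ← hcc]
        have h1 := hn2 s'
        have h2 := hC s' a (mem_insert_self a s)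
        omega
      · rw [if_neg hcc, hf]
        exact hc2 s' c'

end Pool.Agent.MPd266dbE
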