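import Pool.Agent.Lib.MP_d266db_co.E.SpecF

/-!
# MP_d266db_co, E: bounded degrees, exact size
-/

set_option autoImplicit false

namespace Pool.Agent.MPd266dbE

open Finset Pool.Agent.MPd266db Pool.Agent.MPd266dbH

private theorem grd_sum {n : ℕ} (P : Finset (Fin n × Fin n)) (f : Fin n × Fin n → Fin n)
    (T : Finset (Fin n)) (Δ : ℕ) (h : ∀ v ∈ T, Δ ≤ (P.filter (fun q => f q = v)).card) :
    T.card * Δ ≤ P.card := by
  have h1 : T.card * Δ ≤ ∑ v ∈ T, (P.filter (fun q => f q = v)).card := by
    rw [← smul_eq_mul]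
    exact Finset.card_nsmul_le_sum _ _ _ h
  refine h1.trans ?_
  rw [← Finset.card_biUnion]
  · exact Finset.card_le_card (by
      intro q hq
      obtain ⟨v, -, hv⟩ := mem_biUnion.1 hq
      exact (mem_filter.1 hv).1)
  · intro a _ b _ hab
    rw [Function.onFun, Finset.disjoint_left]
    intro q hq hq'
    exact hab ((mem_filter.1 hq).2.symm.trans (mem_filter.1 hq').2)

theorem tGrd : S_Grd := by
  classical
  intro n m Δ Δ0 X hX hΔ hm
  -- a maximal set
  set F := X.powerset.filter (fun P => Dg P Δ ∧ P.card ≤ m) with hF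
  have hne : F.Nonempty := by
    refine ⟨∅, ?_⟩
    rw [hF, mem_filter, mem_powerset]
    refine ⟨empty_subset _, fun v => ?_, by simp⟩
    simp [od, idg]
  obtain ⟨P, hP, hmax⟩ := Finset.exists_max_image F Finset.card hne
  rw [hF, mem_filter, mem_powerset] at hP
  obtain ⟨hPX, hPD, hPm⟩ := hP
  rcases Nat.lt_or_ge P.card m with hlt | hge
  swap
  · exact ⟨P, hPX, le_antisymm hPm hge, hPD⟩
  exfalso
  set T1 := univ.filter (fun v => Δ ≤ od P v) with hT1
  set T2 := univ.filter (fun v => Δ ≤ idg P v) with hT2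
  have h1 : T1.card * Δ ≤ P.card := grd_sum P Prod.fst T1 Δ fun v hv => (mem_filter.1 hv).2
  have h2 : T2.card * Δ ≤ P.card := grd_sum P Prod.snd T2 Δ fun v hv => (mem_filter.1 hv).2
  have hcov : X \ P ⊆ T1.biUnion (fun v => X.filter (fun q => q.1 = v)) ∪
      T2.biUnion (fun v => X.filter (fun q => q.2 = v)) := by
    intro q hq
    obtain ⟨hqX, hqP⟩ := mem_sdiff.1 hq
    by_contra hnot
    rw [mem_union, not_or] at hnot
    have h3 : q.1 ∉ T1 := fun h => hnot.1 (mem_biUnion.2 ⟨q.1, h, mem_filter.2 ⟨hqX, rfl⟩⟩)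
    have h4 : q.2 ∉ T2 := fun h => hnot.2 (mem_biUnion.2 ⟨q.2, h, mem_filter.2 ⟨hqX, rfl⟩⟩)
    rw [hT1, mem_filter] at h3
    rw [hT2, mem_filter] at h4
    have h3' : od P q.1 < Δ := by
      by_contra h
      exact h3 ⟨mem_univ _, not_lt.1 h⟩
    have h4' : idg P q.2 < Δ := by
      by_contra h
      exact h4 ⟨mem_univ _, not_lt.1 h⟩
    have hin : insert q P ∈ F := by
      rw [hF, mem_filter, mem_powerset]
      refine ⟨insert_subset hqX hPX, fun v => ⟨?_, ?_⟩, ?_⟩
      · unfold od
        rw [filter_insert]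
        split_ifs with h
        · refine (card_insert_le _ _).trans ?_
          subst h
          exact h3'
        · exact (hPD v).1
      · unfold idg
        rw [filter_insert]
        split_ifs with h
        · refine (card_insert_le _ _).trans ?_
          subst h
          exact h4'
        · exact (hPD v).2
      · rw [card_insert_of_notMem hqP]
        exact hlt
    have := hmax _ hin
    rw [card_insert_of_notMem hqP] at this
    omega
  have h5 : (X \ P).card ≤ T1.card * Δ0 + T2.card * Δ0 := by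
    refine (card_le_card hcov).trans ((card_union_le _ _).trans (add_le_add ?_ ?_))
    · exact card_biUnion_le_card_mul _ _ _ fun v _ => (hX v).1
    · exact card_biUnion_le_card_mul _ _ _ fun v _ => (hX v).2
  have h6 : (X \ P).card + P.card = X.card := card_sdiff_add_card_eq_card hPX
  have h7 : Δ * (X \ P).card ≤ 2 * (P.card * Δ0) := by
    calc Δ * (X \ P).card ≤ Δ * (T1.card * Δ0 + T2.card * Δ0) := Nat.mul_le_mul_left _ h5
      _ = (T1.card * Δ) * Δ0 + (T2.card * Δ) * Δ0 := by ring
      _ ≤ P.card * Δ0 + P.card * Δ0 :=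
        add_le_add (Nat.mul_le_mul_right _ h1) (Nat.mul_le_mul_right _ h2)
      _ = 2 * (P.card * Δ0) := by ring
  have h8 : Δ * X.card ≤ 2 * (P.card * Δ0) + Δ * P.card := by
    rw [← h6, mul_add]
    exact Nat.add_le_add_right h7 _
  have h9 : P.card * Δ0 ≤ m * Δ0 := Nat.mul_le_mul_right _ hPm
  have h10 : Δ * P.card < m * Δ := by
    rw [mul_comm]
    exact Nat.mul_lt_mul_of_pos_right hlt hΔ
  nlinarith

end Pool.Agent.MPd266dbE
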