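import Pool.Agent.Lib.MP_d266db_co.E.SpecA

/-!
# MP_d266db_co, E: Hamilton cycles which contain a linear forest
-/

set_option autoImplicit false

namespace Pool.Agent.MPd266dbE

open Finset Pool.Agent.MPd266db Pool.Agent.MPd266dbH

private theorem ham_card {n m : ℕ} {a : Fin m → Fin n} (ha : Function.Injective a)
    {D : Finset (Fin n)} (hr : ∀ v, (∃ x, a x = v) ↔ v ∉ D) (q : Fin n → Prop)
    [DecidablePred q] :
    (univ.filter (fun x => q (a x))).card = ((univ.filter q) \ D).card := by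
  classical
  rw [← card_image_of_injective _ ha]
  congr 1
  ext v
  rw [mem_image, mem_sdiff, mem_filter]
  constructor
  · rintro ⟨x, hx, rfl⟩
    exact ⟨⟨mem_univ _, (mem_filter.1 hx).2⟩, (hr _).1 ⟨x, rfl⟩⟩
  · rintro ⟨h1, h2⟩
    obtain ⟨x, rfl⟩ := (hr v).2 h2
    exact ⟨x, mem_filter.2 ⟨mem_univ _, h1.2⟩, rfl⟩

private theorem ham_sd {n : ℕ} (A D : Finset (Fin n)) :
    A.card ≤ (A \ D).card + D.card ∧ (A \ D).card ≤ A.card := by
  refine ⟨?_, card_le_card sdiff_subset⟩
  rw [card_sdiff_add_card]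
  exact card_le_card subset_union_left

/-- out-degrees as filters -/
private theorem ham_od {n : ℕ} (S : Finset (Fin n × Fin n)) (u : Fin n) :
    od S u = (univ.filter (fun w => (u, w) ∈ S)).card := by
  symm
  unfold od
  refine card_bij (fun v _ => (u, v)) (fun v hv => mem_filter.2 ⟨(mem_filter.1 hv).2, rfl⟩)
    (fun v _ w _ hvw => (Prod.ext_iff.1 hvw).2) fun e he => ?_
  rw [mem_filter] at he
  refine ⟨e.2, mem_filter.2 ⟨mem_univ _, ?_⟩, ?_⟩
  · rw [← he.2]
    exact he.1
  · rw [← he.2]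

/-- in-degrees as filters -/
private theorem ham_id {n : ℕ} (S : Finset (Fin n × Fin n)) (w : Fin n) :
    idg S w = (univ.filter (fun v => (v, w) ∈ S)).card := by
  symm
  unfold idg
  refine card_bij (fun v _ => (v, w)) (fun v hv => mem_filter.2 ⟨(mem_filter.1 hv).2, rfl⟩)
    (fun v _ v' _ hvw => (Prod.ext_iff.1 hvw).1) fun e he => ?_
  rw [mem_filter] at he
  refine ⟨e.1, mem_filter.2 ⟨mem_univ _, ?_⟩, ?_⟩
  · rw [← he.2]
    exact he.1
  · rw [← he.2]

private theorem ham_tls {n : ℕ} (P : Finset (Fin n × Fin n)) : (tls P).card ≤ P.card :=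
  card_image_le

private theorem ham_hds {n : ℕ} (P : Finset (Fin n × Fin n)) : (hds P).card ≤ P.card :=
  card_image_le

/-- the contracted system -/
private theorem ham_sys {n m K : ℕ} {S P : Finset (Fin n × Fin n)} {o i : Fin n → Fin K}
    {a b : Fin m → Fin n} (ha : Function.Injective a) (hb : Function.Injective b)
    (har : ∀ v, (∃ x, a x = v) ↔ v ∉ tls P) (hbr : ∀ v, (∃ x, b x = v) ↔ v ∉ hds P)
    {S' : Finset (Fin m × Fin m)} (hS' : ∀ e, e ∈ S' ↔ (a e.1, b e.2) ∈ S) :
    (∀ x, od S (a x) ≤ od S' x + P.card ∧ od S' x ≤ od S (a x)) ∧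
    (∀ y, idg S (b y) ≤ idg S' y + P.card ∧ idg S' y ≤ idg S (b y)) ∧
    ∀ (c : Fin K) (X Y : Finset (Fin m)),
      eb S (X.image a) (Y.image b) ≤ eb S' X Y ∧
      eb S (Cl o c \ X.image a) (Cl i c \ Y.image b) ≤
        eb S' (Cl (o ∘ a) c \ X) (Cl (i ∘ b) c \ Y) + 2 * (P.card * n) := by
  classical
  refine ⟨?_, ?_, ?_⟩
  · intro x
    have h1 : od S' x = ((univ.filter (fun w => (a x, w) ∈ S)) \ hds P).card := by
      rw [ham_od, ← ham_card hb hbr (fun w => (a x, w) ∈ S)]
      congr 1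
      ext y
      simp only [mem_filter, mem_univ, true_and, hS']
    have h2 := ham_sd (univ.filter (fun w => (a x, w) ∈ S)) (hds P)
    rw [← h1, ← ham_od] at h2
    have h3 := ham_hds P
    exact ⟨by omega, h2.2⟩
  · intro y
    have h1 : idg S' y = ((univ.filter (fun v => (v, b y) ∈ S)) \ tls P).card := by
      rw [ham_id, ← ham_card ha har (fun v => (v, b y) ∈ S)]
      congr 1
      ext x
      simp only [mem_filter, mem_univ, true_and, hS']
    have h2 := ham_sd (univ.filter (fun v => (v, b y) ∈ S)) (tls P)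
    rw [← h1, ← ham_id] at h2
    have h3 := ham_tls P
    exact ⟨by omega, h2.2⟩
  · intro c X Y
    constructor
    · unfold eb
      rw [← card_image_of_injective (S'.filter (fun e => e.1 ∈ X ∧ e.2 ∈ Y))
        (f := fun e : Fin m × Fin m => (a e.1, b e.2)) (fun e e' h => by
          obtain ⟨h1, h2⟩ := Prod.ext_iff.1 h
          exact Prod.ext (ha h1) (hb h2))]
      apply card_le_card
      intro e he
      obtain ⟨he1, he2, he3⟩ := mem_filter.1 he
      obtain ⟨x, hx, hxe⟩ := mem_image.1 he2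
      obtain ⟨y, hy, hye⟩ := mem_image.1 he3
      refine mem_image.2 ⟨(x, y), mem_filter.2 ⟨(hS' _).2 ?_, hx, hy⟩, Prod.ext hxe hye⟩
      show (a x, b y) ∈ S
      rw [hxe, hye]
      exact he1
    · have hsub : S.filter (fun e => e.1 ∈ Cl o c \ X.image a ∧ e.2 ∈ Cl i c \ Y.image b) ⊆
          ((S'.filter (fun e => e.1 ∈ Cl (o ∘ a) c \ X ∧ e.2 ∈ Cl (i ∘ b) c \ Y)).image
            (fun e : Fin m × Fin m => (a e.1, b e.2)) ∪ (tls P ×ˢ univ)) ∪ (univ ×ˢ hds P) := by
        intro e he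
        obtain ⟨he1, he2, he3⟩ := mem_filter.1 he
        by_cases h1 : e.1 ∈ tls P
        · exact mem_union_left _ (mem_union_right _ (mem_product.2 ⟨h1, mem_univ _⟩))
        by_cases h2 : e.2 ∈ hds P
        · exact mem_union_right _ (mem_product.2 ⟨mem_univ _, h2⟩)
        obtain ⟨x, hx⟩ := (har e.1).2 h1
        obtain ⟨y, hy⟩ := (hbr e.2).2 h2
        refine mem_union_left _ (mem_union_left _ (mem_image.2 ⟨(x, y),
          mem_filter.2 ⟨(hS' _).2 ?_, ?_, ?_⟩, Prod.ext hx hy⟩))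
        · show (a x, b y) ∈ S
          rw [hx, hy]
          exact he1
        · rw [mem_sdiff] at he2 ⊢
          refine ⟨mem_filter.2 ⟨mem_univ _, ?_⟩, fun h => he2.2 (mem_image.2 ⟨x, h, hx⟩)⟩
          show o (a x) = c
          rw [hx]
          exact (mem_filter.1 he2.1).2
        · rw [mem_sdiff] at he3 ⊢
          refine ⟨mem_filter.2 ⟨mem_univ _, ?_⟩, fun h => he3.2 (mem_image.2 ⟨y, h, hy⟩)⟩
          show i (b y) = c
          rw [hy]
          exact (mem_filter.1 he3.1).2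
      unfold eb
      refine (card_le_card hsub).trans ((card_union_le _ _).trans ?_)
      have h1 := card_union_le ((S'.filter (fun e => e.1 ∈ Cl (o ∘ a) c \ X ∧
        e.2 ∈ Cl (i ∘ b) c \ Y)).image (fun e : Fin m × Fin m => (a e.1, b e.2)))
        (tls P ×ˢ (univ : Finset (Fin n)))
      have h2 := card_image_le (s := S'.filter (fun e => e.1 ∈ Cl (o ∘ a) c \ X ∧
        e.2 ∈ Cl (i ∘ b) c \ Y)) (f := fun e : Fin m × Fin m => (a e.1, b e.2))
      have h3 : (tls P ×ˢ (univ : Finset (Fin n))).card ≤ P.card * n := by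
        rw [card_product, card_univ, Fintype.card_fin]
        exact Nat.mul_le_mul_right _ (ham_tls P)
      have h4 : ((univ : Finset (Fin n)) ×ˢ hds P).card ≤ P.card * n := by
        rw [card_product, card_univ, Fintype.card_fin, mul_comm]
        exact Nat.mul_le_mul_right _ (ham_hds P)
      omega

/-- degrees after the contraction -/
private theorem ham_deg {n m p : ℝ} {D D' ρ g g0 : ℝ} (h1 : D ≤ D' + p) (h2 : D' ≤ D)
    (h3 : |D - ρ| ≤ g * n) (hp : p ≤ g * n) (hnm : n = m + p) (hn2 : n ≤ 2 * m)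
    (hρ : ρ ≤ n) (hg : 8 * g ≤ g0) (hg0 : 0 ≤ g) (hm : 0 ≤ m) : |D' - min ρ m| ≤ g0 * m := by
  obtain ⟨h4, h5⟩ := abs_le.1 h3
  have h6 : 3 * (g * n) ≤ g0 * m := by
    have e1 := mul_le_mul_of_nonneg_left hn2 hg0
    have e2 := mul_le_mul_of_nonneg_right hg hm
    have e3 := mul_nonneg hg0 hm
    linarith
  rcases le_total ρ m with h | h
  · rw [min_eq_left h]
    exact abs_le.2 ⟨by linarith, by linarith⟩
  · rw [min_eq_right h]
    exact abs_le.2 ⟨by linarith, by linarith⟩

theorem tHAM (hHAM0 : S_HAM0) (hCtr : S_Ctr) : S_HAM := by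
  classical
  intro K0 θ lam ν hK0 hθ hθ1 hlam hν
  obtain ⟨g0, n1, hg0, hH⟩ := hHAM0 K0 (θ / 2) (lam / 2) (ν / 2) hK0 (by linarith) (by linarith)
    (by linarith) (by linarith)
  obtain ⟨g, hgdef⟩ : ∃ g : ℝ, g = min (min (g0 / 8) (θ / 4)) (min (lam / 8)
    (min (ν / 8) (1 / 4))) := ⟨_, rfl⟩
  have hg : 0 < g := by
    rw [hgdef]
    exact lt_min (lt_min (by linarith) (by linarith)) (lt_min (by linarith)
      (lt_min (by linarith) (by norm_num)))
  have hga : 8 * g ≤ g0 := by
    have : g ≤ g0 / 8 := hgdef ▸ (min_le_left _ _).trans (min_le_left _ _)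
    linarith
  have hgb : 4 * g ≤ θ := by
    have : g ≤ θ / 4 := hgdef ▸ (min_le_left _ _).trans (min_le_right _ _)
    linarith
  have hgc : 8 * g ≤ lam := by
    have : g ≤ lam / 8 := hgdef ▸ (min_le_right _ _).trans (min_le_left _ _)
    linarith
  have hgd : 8 * g ≤ ν := by
    have : g ≤ ν / 8 := hgdef ▸ (min_le_right _ _).trans ((min_le_right _ _).trans (min_le_left _ _))
    linarith
  have hge : 4 * g ≤ 1 := by
    have : g ≤ 1 / 4 :=
      hgdef ▸ (min_le_right _ _).trans ((min_le_right _ _).trans (min_le_right _ _))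
    linarith
  refine ⟨g, max (2 * n1) 2, hg, ?_⟩
  intro n hn K S o i ρ hK hM hLin P hP hPc hBal
  have hn1 : 2 * n1 ≤ n := (le_max_left _ _).trans hn
  have hn2 : 2 ≤ n := (le_max_right _ _).trans hn
  have hnR : (2 : ℝ) ≤ n := by exact_mod_cast hn2
  have hP4 : 4 * (P.card : ℝ) ≤ n := by
    have h1 : 4 * g * n ≤ 1 * n := mul_le_mul_of_nonneg_right hge (by linarith)
    linarith
  have hP4' : 4 * P.card ≤ n := by exact_mod_cast hP4
  obtain ⟨m, hm⟩ : ∃ m, m + P.card = n := ⟨n - P.card, by omega⟩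
  have hm1 : 1 ≤ m := by omega
  have hmn : n ≤ 2 * m := by omega
  have hmR : (m : ℝ) + P.card = n := by exact_mod_cast hm
  have hmnR : (n : ℝ) ≤ 2 * m := by exact_mod_cast hmn
  have hm0 : (0 : ℝ) ≤ m := Nat.cast_nonneg _
  have hP0 : (0 : ℝ) ≤ P.card := Nat.cast_nonneg _
  have hmle : (m : ℝ) ≤ n := by linarith
  obtain ⟨a, b, ha, hb, har, hbr, hab, hτ⟩ := hCtr n m P hP hm hm1
  obtain ⟨S', hS'⟩ : ∃ S' : Finset (Fin m × Fin m), ∀ e, e ∈ S' ↔ (a e.1, b e.2) ∈ S :=
    ⟨univ.filter (fun e => (a e.1, b e.2) ∈ S), fun e => by simp⟩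
  obtain ⟨hod, hid, heb⟩ := ham_sys (o := o) (i := i) ha hb har hbr hS'
  have hgn : g * n ≤ g0 * m := by
    have e1 := mul_le_mul_of_nonneg_left hmnR hg.le
    have e2 := mul_le_mul_of_nonneg_right hga hm0
    have e3 := mul_nonneg hg.le hm0
    linarith
  have hθn : θ / 2 * m ≤ θ * n - P.card := by
    have e1 := mul_le_mul_of_nonneg_right hgb (by linarith : (0 : ℝ) ≤ n)
    have e2 := mul_le_mul_of_nonneg_left hmle hθ.le
    have e3 := mul_nonneg hθ.le (by linarith : (0 : ℝ) ≤ n)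
    linarith
  have hM' : MHyp S' (o ∘ a) (i ∘ b) (θ / 2) (min ρ m) g0 (θ / 2 / 32) (ν / 2) := by
    refine ⟨?_, ?_, ?_, ⟨?_, ?_⟩, ?_, min_le_right _ _, ?_⟩
    · intro e he
      exact hM.own _ ((hS' e).1 he)
    · intro x
      have h1 : (od S (a x) : ℝ) ≤ od S' x + P.card := by exact_mod_cast (hod x).1
      have h2 := hM.odl (a x)
      linarith
    · intro y
      have h1 : (idg S (b y) : ℝ) ≤ idg S' y + P.card := by exact_mod_cast (hid y).1
      have h2 := hM.idl (b y)
      linarith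
    · refine le_trans ?_ (hM.nr.1.trans hgn)
      rw [Nat.cast_le]
      refine card_le_card_of_injOn a (fun x hx => ?_) ha.injOn
      have hx' := (mem_filter.1 (mem_coe.1 hx)).2
      refine mem_coe.2 (mem_filter.2 ⟨mem_univ _, ?_⟩)
      by_contra hcon
      have h1 : (od S (a x) : ℝ) ≤ od S' x + P.card := by exact_mod_cast (hod x).1
      have h2 : (od S' x : ℝ) ≤ od S (a x) := by exact_mod_cast (hod x).2
      have h3 := ham_deg h1 h2 (not_lt.1 hcon) hPc hmR.symm hmnR hM.rle hga hg.le hm0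
      linarith
    · refine le_trans ?_ (hM.nr.2.trans hgn)
      rw [Nat.cast_le]
      refine card_le_card_of_injOn b (fun x hx => ?_) hb.injOn
      have hx' := (mem_filter.1 (mem_coe.1 hx)).2
      refine mem_coe.2 (mem_filter.2 ⟨mem_univ _, ?_⟩)
      by_contra hcon
      have h1 : (idg S (b x) : ℝ) ≤ idg S' x + P.card := by exact_mod_cast (hid x).1
      have h2 : (idg S' x : ℝ) ≤ idg S (b x) := by exact_mod_cast (hid x).2
      have h3 := ham_deg h1 h2 (not_lt.1 hcon) hPc hmR.symm hmnR hM.rle hga hg.le hm0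
      linarith
    · refine le_min ?_ ?_
      · have h1 := hM.rge
        linarith
      · have e1 := mul_le_mul_of_nonneg_right hθ1 hm0
        linarith
    · intro c X' Y' hX' hY' h1 h2
      obtain ⟨e1, e2⟩ := heb c X' Y'
      have hXs : X'.image a ⊆ Cl o c := by
        intro v hv
        obtain ⟨x, hx, rfl⟩ := mem_image.1 hv
        exact mem_filter.2 ⟨mem_univ _, (mem_filter.1 (hX' hx)).2⟩
      have hYs : Y'.image b ⊆ Cl i c := by
        intro v hv
        obtain ⟨x, hx, rfl⟩ := mem_image.1 hv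
        exact mem_filter.2 ⟨mem_univ _, (mem_filter.1 (hY' hx)).2⟩
      have hc1 : (Cl (i ∘ b) c \ Y').card ≤ (Cl i c \ Y'.image b).card := by
        refine card_le_card_of_injOn b (fun x hx => ?_) hb.injOn
        have hx' := mem_sdiff.1 (mem_coe.1 hx)
        refine mem_coe.2 (mem_sdiff.2 ⟨mem_filter.2 ⟨mem_univ _, (mem_filter.1 hx'.1).2⟩,
          fun h => ?_⟩)
        obtain ⟨y, hy, hyx⟩ := mem_image.1 h
        exact hx'.2 (hb hyx ▸ hy)
      have hc2 : (Cl (o ∘ a) c \ X').card ≤ (Cl o c \ X'.image a).card := by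
        refine card_le_card_of_injOn a (fun x hx => ?_) ha.injOn
        have hx' := mem_sdiff.1 (mem_coe.1 hx)
        refine mem_coe.2 (mem_sdiff.2 ⟨mem_filter.2 ⟨mem_univ _, (mem_filter.1 hx'.1).2⟩,
          fun h => ?_⟩)
        obtain ⟨y, hy, hyx⟩ := mem_image.1 h
        exact hx'.2 (ha hyx ▸ hy)
      have hc1R : ((Cl (i ∘ b) c \ Y').card : ℝ) ≤ (Cl i c \ Y'.image b).card := by
        exact_mod_cast hc1
      have hc2R : ((Cl (o ∘ a) c \ X').card : ℝ) ≤ (Cl o c \ X'.image a).card := by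
        exact_mod_cast hc2
      have e3 := mul_le_mul_of_nonneg_left hmnR hθ.le
      have hrob := hM.rob c (X'.image a) (Y'.image b) hXs hYs
        (by
          rw [card_image_of_injective _ ha]
          linarith)
        (by
          rw [card_image_of_injective _ hb]
          linarith)
      have e1R : (eb S (X'.image a) (Y'.image b) : ℝ) ≤ eb S' X' Y' := by exact_mod_cast e1
      have e2R : (eb S (Cl o c \ X'.image a) (Cl i c \ Y'.image b) : ℝ) ≤
        eb S' (Cl (o ∘ a) c \ X') (Cl (i ∘ b) c \ Y') + 2 * (P.card * n) := by exact_mod_cast e2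
      have e4 : (P.card : ℝ) * n ≤ g * n * n := mul_le_mul_of_nonneg_right hPc (by linarith)
      have e5 : 8 * g * ((n : ℝ) * n) ≤ ν * (n * n) :=
        mul_le_mul_of_nonneg_right hgd (mul_nonneg (by linarith) (by linarith))
      have e6 : ν * ((m : ℝ) * m) ≤ ν * (n * n) :=
        mul_le_mul_of_nonneg_left (mul_le_mul hmle hmle hm0 (by linarith)) hν.le
      have e7 : 0 ≤ ν * ((n : ℝ) * n) := mul_nonneg hν.le (mul_nonneg (by linarith) (by linarith))
      rw [sq] at hrob ⊢
      linarith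
  have hLin' : Lin (o ∘ a) (i ∘ b) (lam / 2) := by
    intro J hJ hJ'
    obtain ⟨a0, ha0, b0, hb0, h1⟩ := hLin J hJ hJ'
    refine ⟨a0, ha0, b0, hb0, ?_⟩
    have h2 : (Cl o b0 ∩ Cl i a0).card ≤
        (Cl (o ∘ a) b0 ∩ Cl (i ∘ b) a0).card + (P.card + P.card) := by
      have h3 : Cl o b0 ∩ Cl i a0 ⊆
          (Cl (o ∘ a) b0 ∩ Cl (i ∘ b) a0).image a ∪ (tls P ∪ hds P) := by
        intro v hv
        by_cases hv1 : v ∈ tls P
        · exact mem_union_right _ (mem_union_left _ hv1)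
        by_cases hv2 : v ∈ hds P
        · exact mem_union_right _ (mem_union_right _ hv2)
        obtain ⟨x, hx1, hx2⟩ := hab v hv1 hv2
        obtain ⟨hv3, hv4⟩ := mem_inter.1 hv
        refine mem_union_left _ (mem_image.2 ⟨x, mem_inter.2 ⟨mem_filter.2 ⟨mem_univ _, ?_⟩,
          mem_filter.2 ⟨mem_univ _, ?_⟩⟩, hx1⟩)
        · show o (a x) = b0
          rw [hx1]
          exact (mem_filter.1 hv3).2
        · show i (b x) = a0
          rw [hx2]
          exact (mem_filter.1 hv4).2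
      refine (card_le_card h3).trans ((card_union_le _ _).trans ?_)
      have h4 := card_union_le (tls P) (hds P)
      have h5 := ham_tls P
      have h6 := ham_hds P
      have h7 := card_image_le (s := Cl (o ∘ a) b0 ∩ Cl (i ∘ b) a0) (f := a)
      omega
    have h2R : ((Cl o b0 ∩ Cl i a0).card : ℝ) ≤
        (Cl (o ∘ a) b0 ∩ Cl (i ∘ b) a0).card + (P.card + P.card) := by exact_mod_cast h2
    have e1 : 8 * g * n ≤ lam * n := mul_le_mul_of_nonneg_right hgc (by linarith)
    have e2 : lam * m ≤ lam * n := mul_le_mul_of_nonneg_left hmle hlam.le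
    have e3 : 0 ≤ lam * n := mul_nonneg hlam.le (by linarith)
    linarith
  have hbal' : ∀ c, (Cl (o ∘ a) c).card = (Cl (i ∘ b) c).card := by
    intro c
    have h1 : (Cl (o ∘ a) c).card = (Cl o c \ tls P).card := ham_card ha har (fun v => o v = c)
    have h2 : (Cl (i ∘ b) c).card = (Cl i c \ hds P).card := ham_card hb hbr (fun v => i v = c)
    rw [h1, h2]
    exact hBal c
  obtain ⟨τ', hτ', hτS⟩ := hH m (by omega) K S' (o ∘ a) (i ∘ b) (min ρ m) hK hM' hLin' hbal'
  obtain ⟨τ, h1, h2, h3⟩ := hτ τ' hτ'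
  refine ⟨τ, h1, h2, fun v hv => ?_⟩
  obtain ⟨x, rfl⟩ := (har v).2 hv
  rw [h3 x]
  exact (hS' _).1 (hτS x)

end Pool.Agent.MPd266dbE
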