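import Pool.Agent.Lib.MP_d266db_co.E.SpecA
import Pool.Agent.Lib.MP_d266db_co.H.Mrg

/-!
# MP_d266db_co, E: Hamilton cycles in a balanced system
-/

set_option autoImplicit false

namespace Pool.Agent.MPd266dbE

open Finset Pool.Agent.MPd266db Pool.Agent.MPd266dbH

theorem tHAM0 (hRP : S_RP) (hXM0 : S_XM0) (hSys : S_Sys) (hRmt0 : S_Rmt0) (hXSy : S_XSy)
    (hNuX : S_NuX) (hLnk : S_Lnk) (hHal : S_Hal) : S_HAM0 := by
  classical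
  intro K0 θ lam ν hK0 hθ hθ1 hlam hν
  obtain ⟨ν4, hν4⟩ : ∃ ν4 : ℝ, ν4 = min (ν / 4) (θ / 16) := ⟨_, rfl⟩
  have hν4pos : 0 < ν4 := by rw [hν4]; exact lt_min (by positivity) (by positivity)
  have hν4a : ν4 ≤ ν / 4 := by rw [hν4]; exact min_le_left _ _
  have hν4b : ν4 ≤ θ / 16 := by rw [hν4]; exact min_le_right _ _
  obtain ⟨ℓ, hℓ⟩ : ∃ ℓ : ℕ, RPp (ν4 / 2) ℓ := hRP (ν4 / 2) (by positivity)
  have hℓ0 : (0 : ℝ) ≤ ℓ := Nat.cast_nonneg ℓ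
  obtain ⟨ε, hεdef⟩ : ∃ ε : ℝ, ε = ν4 * θ ^ 2 / (100000 * (4 * ℓ + 6) ^ 2) := ⟨_, rfl⟩
  have hden : (0 : ℝ) < 100000 * (4 * ℓ + 6) ^ 2 := by positivity
  have hε : 0 < ε := by rw [hεdef]; positivity
  have hεeq : 100000 * (4 * (ℓ : ℝ) + 6) ^ 2 * ε ≤ ν4 * θ ^ 2 := by
    rw [hεdef, mul_div_cancel₀ _ hden.ne']
  have hεθ : 4 * ε ≤ θ := by
    have h1 : (6 : ℝ) ^ 2 ≤ (4 * ℓ + 6) ^ 2 := pow_le_pow_left₀ (by norm_num) (by linarith) 2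
    have h2 : 4 * ε ≤ 100000 * (4 * (ℓ : ℝ) + 6) ^ 2 * ε :=
      mul_le_mul_of_nonneg_right (by linarith) hε.le
    have h3 : ν4 * θ ^ 2 ≤ 1 * θ ^ 2 := mul_le_mul_of_nonneg_right (by linarith) (by positivity)
    have h4 : θ * θ ≤ 1 * θ := mul_le_mul_of_nonneg_right hθ1 hθ.le
    linarith
  obtain ⟨d, hd, hd1, hSys1⟩ := hSys K0 θ ν (ε / 8) hK0 hθ hθ1 hν (by positivity) (by linarith)
  obtain ⟨β1, hβdef⟩ : ∃ β1 : ℝ, β1 = min (ε / 16) (min (d ^ 2 / 200)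
      (θ / (4000 * (ℓ + 1)))) := ⟨_, rfl⟩
  have hβ : 0 < β1 := by
    rw [hβdef]; exact lt_min (by positivity) (lt_min (by positivity) (by positivity))
  have hβa : 16 * β1 ≤ ε := by
    have : β1 ≤ ε / 16 := by rw [hβdef]; exact min_le_left _ _
    linarith
  have hβb : 200 * ((1 : ℕ) : ℝ) * β1 ≤ d ^ 2 := by
    have : β1 ≤ d ^ 2 / 200 := by
      rw [hβdef]; exact (min_le_right _ _).trans (min_le_left _ _)
    rw [Nat.cast_one]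
    linarith
  have hβc : 4000 * (ℓ + 1) * ((1 : ℕ) : ℝ) * β1 ≤ θ := by
    have : β1 ≤ θ / (4000 * (ℓ + 1)) := by
      rw [hβdef]; exact (min_le_right _ _).trans (min_le_right _ _)
    rw [le_div_iff₀ (by positivity)] at this
    rw [Nat.cast_one]
    linarith
  have hβ1 : β1 ≤ 1 := by linarith
  obtain ⟨g1, kmax, n1, hg1, hSys2⟩ := hSys1 β1 hβ hβ1
  obtain ⟨g, hgdef⟩ : ∃ g : ℝ, g = min g1 (ν / 8) := ⟨_, rfl⟩
  have hg : 0 < g := by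
    rw [hgdef]; exact lt_min hg1 (by positivity)
  have hga : g ≤ g1 := by rw [hgdef]; exact min_le_left _ _
  have hgb : 4 * g ≤ ν := by
    have : g ≤ ν / 8 := by rw [hgdef]; exact min_le_right _ _
    linarith
  obtain ⟨s0, hs0⟩ : ∃ s0 : ℕ, s0 = ⌈2000 * ((ℓ : ℝ) + 1) / θ⌉₊ + ⌈100 / d ^ 2⌉₊ + ⌈16 / ε⌉₊ :=
    ⟨_, rfl⟩
  refine ⟨g, max n1 (max (max 1 ⌈20 * (kmax : ℝ) / ε⌉₊) (max ⌈1 / ε⌉₊ (kmax * s0))), hg, ?_⟩
  intro n hn K S o i ρ hKK0 hM hLin hbal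
  have hnn1 : n1 ≤ n := (le_max_left _ _).trans hn
  have hn1 : 1 ≤ n :=
    (((le_max_left _ _).trans (le_max_left _ _)).trans (le_max_right _ _)).trans hn
  have hnk : ⌈20 * (kmax : ℝ) / ε⌉₊ ≤ n :=
    (((le_max_right _ _).trans (le_max_left _ _)).trans (le_max_right _ _)).trans hn
  have hnε : ⌈1 / ε⌉₊ ≤ n :=
    (((le_max_left _ _).trans (le_max_right _ _)).trans (le_max_right _ _)).trans hn
  have hns : kmax * s0 ≤ n :=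
    (((le_max_right _ _).trans (le_max_right _ _)).trans (le_max_right _ _)).trans hn
  have hnR : (1 : ℝ) ≤ n := by exact_mod_cast hn1
  obtain ⟨s, k, cl, T, H, Γ, hs, hk, hkk, hnks, hRS⟩ :=
    hSys2 n hnn1 K S o i ρ hKK0 (mrg_mhyp hM hga)
  have hkmax : 1 ≤ kmax := hk.trans hkk
  have hss0 : s0 ≤ s := Nat.le_of_mul_le_mul_left (hns.trans hnks) (by omega)
  obtain ⟨σ, hσ⟩ := hHal n K S o i θ ρ g (θ / 32) ν hn1 hM hθ (by linarith) hgb hbal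
  have hσo : ∀ v, o v = i (σ v) := fun v => hM.own _ (hσ v)
  -- the numbers
  have hsR : (s0 : ℝ) ≤ s := by exact_mod_cast hss0
  have hceil : ∀ t : ℝ, ((⌈t⌉₊ : ℕ) : ℝ) ≤ s0 → t ≤ s := fun t ht =>
    ((Nat.le_ceil t).trans ht).trans hsR
  have hs1 : 2000 * (ℓ + 1) * ((1 : ℕ) : ℝ) ≤ θ * s := by
    have h3 := hceil (2000 * ((ℓ : ℝ) + 1) / θ) (by
      rw [hs0]; exact_mod_cast (by omega :
        ⌈2000 * ((ℓ : ℝ) + 1) / θ⌉₊ ≤ ⌈2000 * ((ℓ : ℝ) + 1) / θ⌉₊ + ⌈100 / d ^ 2⌉₊ + ⌈16 / ε⌉₊))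
    rw [div_le_iff₀ hθ] at h3
    rw [Nat.cast_one]
    linarith
  have hs2 : 100 * ((1 : ℕ) : ℝ) ≤ d ^ 2 * s := by
    have h3 := hceil (100 / d ^ 2) (by
      rw [hs0]; exact_mod_cast (by omega :
        ⌈100 / d ^ 2⌉₊ ≤ ⌈2000 * ((ℓ : ℝ) + 1) / θ⌉₊ + ⌈100 / d ^ 2⌉₊ + ⌈16 / ε⌉₊))
    rw [div_le_iff₀ (by positivity)] at h3
    rw [Nat.cast_one]
    linarith
  have hs3 : 16 ≤ ε * s := by
    have h3 := hceil (16 / ε) (by
      rw [hs0]; exact_mod_cast (by omega :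
        ⌈16 / ε⌉₊ ≤ ⌈2000 * ((ℓ : ℝ) + 1) / θ⌉₊ + ⌈100 / d ^ 2⌉₊ + ⌈16 / ε⌉₊))
    rw [div_le_iff₀ hε] at h3
    linarith
  obtain ⟨V, X, Y, ρ0, hXY, hInv, hV, hVn, hdo, hdi⟩ :=
    hRmt0 n K k s S o i cl T H Γ β1 d (θ / 16) (ν / 4) ε θ σ hRS hε hεθ hθ1 hβ hβa hs3 hd
      hM.odl hM.idl hσo
  obtain ⟨h, x, y, hh, hh1, hh2, hx1, hx2, hy0, hy1, hy2, hyx, hhx, hly⟩ :=
    mrg_num 1 ℓ s θ d β1 le_rfl hθ hθ1 hβ hβb hβc hs1 hs2
  have hXS : XSys S o i cl X Y Γ h x y d (θ / 16) ν4 :=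
    hXSy n K k s 1 S o i cl T H X Y Γ β1 d (ν / 4) ν4 (ε / 8) θ ε h x y hRS hM.own hθ hθ1 hε
      (by linarith) le_rfl (fun p => by
        obtain ⟨a1, a2, a3, a4, a5⟩ := hXY p
        rw [Nat.cast_one, one_mul]
        exact ⟨a1, a2, a3, a4, a5⟩) (fun v => by
        rw [Nat.cast_one, mul_one]
        exact hdo v) (fun w => by
        rw [Nat.cast_one, mul_one]
        exact hdi w) hh1 hx1 hx2 hy0 hy1 hν4a
  -- k s ≤ n ≤ 2 k s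
  have hks : k * s ≤ n := by
    have h1 : (univ.biUnion T).card = k * s := by
      rw [card_biUnion (fun p _ p' _ hpp => hRS.dT p p' hpp), sum_congr rfl (fun p _ => hRS.sT p),
        sum_const, card_univ, Fintype.card_fin, smul_eq_mul]
    have h2 : (univ.biUnion T).card ≤ Fintype.card (Fin n) := card_le_univ _
    rw [Fintype.card_fin] at h2
    omega
  have hnks2 : n ≤ 2 * (k * s) := by
    have h1 := hRS.cov
    have h2 : ((n : ℕ) : ℝ) ≤ ((2 * (k * s) : ℕ) : ℝ) := by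
      push_cast
      have h3 : ε * n ≤ 1 * n := mul_le_mul_of_nonneg_right (by linarith) (by positivity)
      linarith
    exact_mod_cast h2
  have hkR : (k : ℝ) ≤ kmax := by exact_mod_cast hkk
  have hQk : 20 * ((1 : ℕ) : ℝ) * (k : ℝ) ≤ ε * n := by
    have h1 : 20 * (kmax : ℝ) / ε ≤ (⌈20 * (kmax : ℝ) / ε⌉₊ : ℝ) := Nat.le_ceil _
    have h2 : (⌈20 * (kmax : ℝ) / ε⌉₊ : ℝ) ≤ n := by exact_mod_cast hnk
    have h3 := h1.trans h2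
    rw [div_le_iff₀ hε] at h3
    rw [Nat.cast_one]
    linarith
  have hcy : ((1 : ℕ) : ℝ) * ((1 : ℕ) : ℝ) ≤ ε * n := by
    have h1 : 1 / ε ≤ (⌈1 / ε⌉₊ : ℝ) := Nat.le_ceil _
    have h2 : (⌈1 / ε⌉₊ : ℝ) ≤ n := by exact_mod_cast hnε
    have h3 := h1.trans h2
    rw [div_le_iff₀ hε] at h3
    rw [Nat.cast_one]
    linarith
  have hnum := hNuX n k s 1 h x y ℓ V.card 1 θ ν4 ε β1 hn1 hs le_rfl hθ hθ1 hν4pos hε
    hεeq hh2 (by rw [Nat.cast_one]; linarith) hx2 hy2 (by rw [Nat.cast_one, one_mul]; exact hVn)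
    hcy hnks2 hks hQk
  obtain ⟨τ, harc, hsame⟩ := hXM0 n K k S o i cl X Y Γ h x y ℓ d (θ / 16) ν4 hXS
    hd hd1 hν4pos hν4b hℓ hk hh hhx hly hyx σ ρ0 V hσo hInv
    (by rw [← hV]; rw [Nat.cast_one] at hnum; exact hnum)
  have hτ : ∀ v, (v, τ v) ∈ S := by
    intro v
    rcases harc v with h1 | h1
    · rw [h1]
      exact hσ v
    · exact h1
  have hτo : ∀ v, o v = i (τ v) := fun v => hM.own _ (hτ v)
  refine ⟨τ, ?_, hτ⟩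
  refine hLnk n K o i τ 0 hsame (fun v => ⟨v, Equiv.Perm.SameCycle.refl _ _, hτo v⟩) ?_ ?_
  · rw [Nat.le_zero, card_eq_zero, filter_eq_empty_iff]
    intro v _ hv
    exact hv (hτo v)
  · intro J hJ hJ'
    obtain ⟨a, ha, b, hb, hab⟩ := hLin J hJ hJ'
    refine ⟨a, ha, b, hb, Or.inr ?_⟩
    have h1 : (0 : ℝ) < (Cl o b ∩ Cl i a).card := lt_of_lt_of_le (by positivity) hab
    have h2 : 0 < (Cl o b ∩ Cl i a).card := by exact_mod_cast h1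
    omega

end Pool.Agent.MPd266dbE
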