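import Pool.Agent.Lib.MP_d266db_co.E.SpecC

/-!
# MP_d266db_co, E/HBN: completing a partial matching in one class (helper82)
-/

set_option autoImplicit false

namespace Pool.Agent.MPd266dbE

open Finset Pool.Agent.MPd266db Pool.Agent.MPd266dbH

theorem hbn_od_le {n : ℕ} (S : Finset (Fin n × Fin n)) (v : Fin n) (Z : Finset (Fin n))
    (h : ∀ w, (v, w) ∈ S → w ∈ Z) : od S v ≤ Z.card := by
  unfold od
  apply card_le_card_of_injOn Prod.snd
  · intro e he
    have he' := mem_filter.1 he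
    exact h e.2 (by rw [← he'.2]; exact he'.1)
  · intro e he e' he' hh
    have h1 := (mem_filter.1 he).2
    have h2 := (mem_filter.1 he').2
    exact Prod.ext (h1.trans h2.symm) hh

theorem hbn_idg_le {n : ℕ} (S : Finset (Fin n × Fin n)) (w : Fin n) (Z : Finset (Fin n))
    (h : ∀ v, (v, w) ∈ S → v ∈ Z) : idg S w ≤ Z.card := by
  unfold idg
  apply card_le_card_of_injOn Prod.fst
  · intro e he
    have he' := mem_filter.1 he
    exact h e.1 (by rw [← he'.2]; exact he'.1)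
  · intro e he e' he' hh
    have h1 := (mem_filter.1 he).2
    have h2 := (mem_filter.1 he').2
    exact Prod.ext hh (h1.trans h2.symm)

theorem hbn_ind {n : ℕ} (X B : Finset (Fin n)) :
    (∑ v ∈ X, (if v ∈ B then (1 : ℝ) else 0)) ≤ (B.card : ℝ) := by
  rw [← sum_filter, sum_const, nsmul_eq_mul, mul_one]
  have : (X.filter (fun v => v ∈ B)).card ≤ B.card := by
    apply card_le_card
    intro v hv
    exact (mem_filter.1 hv).2
  exact_mod_cast this

theorem hbn_low {n : ℕ} (f : Fin n → ℕ) (ρ δ N : ℝ) (X B : Finset (Fin n))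
    (hB : ∀ v, v ∉ B → |(f v : ℝ) - ρ| ≤ δ) (hN : 0 ≤ N) (hρ : ρ - δ ≤ N) :
    (X.card : ℝ) * (ρ - δ) - N * (B.card : ℝ) ≤ ∑ v ∈ X, (f v : ℝ) := by
  have h1 : ∀ v ∈ X, (ρ - δ) - N * (if v ∈ B then (1 : ℝ) else 0) ≤ (f v : ℝ) := by
    intro v _
    by_cases h : v ∈ B
    · rw [if_pos h]
      have : (0 : ℝ) ≤ (f v : ℝ) := Nat.cast_nonneg _
      linarith
    · rw [if_neg h]
      have := abs_le.1 (hB v h)
      linarith [this.1]
  have h2 := sum_le_sum h1
  rw [sum_sub_distrib, sum_const, nsmul_eq_mul, ← mul_sum] at h2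
  have h3 := mul_le_mul_of_nonneg_left (hbn_ind X B) hN
  linarith

theorem hbn_up {n : ℕ} (f : Fin n → ℕ) (ρ δ N : ℝ) (X B : Finset (Fin n))
    (hB : ∀ v, v ∉ B → |(f v : ℝ) - ρ| ≤ δ) (hN : 0 ≤ N) (hρ : 0 ≤ ρ + δ)
    (hf : ∀ v ∈ X, (f v : ℝ) ≤ N) :
    ∑ v ∈ X, (f v : ℝ) ≤ (X.card : ℝ) * (ρ + δ) + N * (B.card : ℝ) := by
  have h1 : ∀ v ∈ X, (f v : ℝ) ≤ (ρ + δ) + N * (if v ∈ B then (1 : ℝ) else 0) := by
    intro v hv
    by_cases h : v ∈ B
    · rw [if_pos h]
      have := hf v hv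
      linarith
    · rw [if_neg h]
      have := abs_le.1 (hB v h)
      linarith [this.2]
  have h2 := sum_le_sum h1
  rw [sum_add_distrib, sum_const, nsmul_eq_mul, ← mul_sum] at h2
  have h3 := mul_le_mul_of_nonneg_left (hbn_ind X B) hN
  linarith

/-- Hall's condition. -/
theorem hbn_key {n K : ℕ} (S : Finset (Fin n × Fin n)) (o i : Fin n → Fin K)
    (N θ ρ g β ν c : ℝ) (a : Fin K) (T H : Finset (Fin n)) (hS : BHyp S o i N θ ρ g β ν)
    (hN : 0 < N) (hθ : 0 < θ) (hcθ : 4 * c ≤ θ) (hβ : 4 * β ≤ 3 * θ)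
    (hν : 2 * c + 4 * g ≤ ν)
    (hHc : (H.card : ℝ) ≤ c * N) (hTH : (Cl o a \ T).card = (Cl i a \ H).card)
    (X M : Finset (Fin n)) (hX : X ⊆ Cl o a \ T) (hM : M ⊆ Cl i a \ H)
    (hXM : ∀ v ∈ X, ∀ w ∈ Cl i a \ H, (v, w) ∈ S → w ∈ M) : X.card ≤ M.card := by
  classical
  by_contra hcon
  push Not at hcon
  have hV : ∀ v, v ∈ Cl o a ↔ o v = a := fun v => by simp [Cl]
  have hW : ∀ v, v ∈ Cl i a ↔ i v = a := fun v => by simp [Cl]
  have hXV : X ⊆ Cl o a := hX.trans sdiff_subset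
  have hMW : M ⊆ Cl i a := hM.trans sdiff_subset
  have hXout : ∀ v ∈ X, ∀ w, (v, w) ∈ S → w ∈ M ∪ H := by
    intro v hv w hvw
    rw [mem_union]
    by_cases hwH : w ∈ H
    · exact Or.inr hwH
    · left
      refine hXM v hv w ?_ hvw
      rw [mem_sdiff]
      refine ⟨?_, hwH⟩
      rw [hW, ← hS.own _ hvw]
      exact (hV v).1 (hXV hv)
  -- the sizes
  obtain ⟨v₀, hv₀⟩ : X.Nonempty := card_pos.1 (by omega)
  have hM1 : θ * N ≤ (M.card : ℝ) + c * N := by
    have h1 := hS.odl v₀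
    have h2 := hbn_od_le S v₀ (M ∪ H) (hXout v₀ hv₀)
    have h3 : (od S v₀ : ℝ) ≤ (M.card : ℝ) + (H.card : ℝ) := by
      exact_mod_cast h2.trans (card_union_le _ _)
    linarith
  have hcN : 4 * (c * N) ≤ θ * N := by nlinarith
  have hXM2 : (M.card : ℝ) + 1 ≤ (X.card : ℝ) := by exact_mod_cast hcon
  have hY1 : ((Cl i a \ H) \ M).Nonempty := by
    rw [← card_pos, card_sdiff_of_subset hM]
    have := card_le_card hX
    omega
  obtain ⟨w₀, hw₀⟩ := hY1
  have hVX : θ * N ≤ ((Cl o a \ X).card : ℝ) := by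
    have h1 := hS.idl w₀
    have h2 := hbn_idg_le S w₀ (Cl o a \ X) (by
      intro v hv
      rw [mem_sdiff] at hw₀
      rw [mem_sdiff]
      refine ⟨?_, fun hvX => hw₀.2 (hXM v hvX w₀ hw₀.1 hv)⟩
      rw [hV, hS.own _ hv]
      exact (hW w₀).1 (mem_sdiff.1 hw₀.1).1)
    have h3 : (idg S w₀ : ℝ) ≤ ((Cl o a \ X).card : ℝ) := by exact_mod_cast h2
    linarith
  have hβN : β * N ≤ 3 / 4 * (θ * N) := by nlinarith
  have hθN : 0 < θ * N := mul_pos hθ hN
  have hrob := hS.rob a X ((Cl i a \ H) \ M) hXV (sdiff_subset.trans sdiff_subset)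
    (by
      have : (0 : ℝ) ≤ ((Cl i a \ ((Cl i a \ H) \ M)).card : ℝ) := Nat.cast_nonneg _
      linarith)
    (by
      have : (0 : ℝ) ≤ (((Cl i a \ H) \ M).card : ℝ) := Nat.cast_nonneg _
      linarith)
  have e1 : eb S X ((Cl i a \ H) \ M) = 0 := by
    unfold eb
    rw [card_eq_zero, filter_eq_empty_iff]
    rintro e he ⟨h1, h2⟩
    rw [mem_sdiff] at h2
    exact h2.2 (hXM e.1 h1 e.2 h2.1 he)
  have e2 : Cl i a \ ((Cl i a \ H) \ M) ⊆ M ∪ H := by
    intro w hw
    rw [mem_sdiff, mem_sdiff, mem_sdiff] at hw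
    rw [mem_union]
    tauto
  have e3 : ∀ Z : Finset (Fin n), eb S Z (M ∪ H) ≤ eb S Z M + eb S Z H := by
    intro Z
    unfold eb
    refine le_trans (card_le_card ?_) (card_union_le _ _)
    intro e he
    rw [mem_filter, mem_union] at he
    rw [mem_union, mem_filter, mem_filter]
    tauto
  have hVN := hS.szo a
  have hWN := hS.szi a
  have hXN : (X.card : ℝ) ≤ N := le_trans (by exact_mod_cast card_le_card hXV) hVN
  have hMN : (M.card : ℝ) ≤ N := le_trans (by exact_mod_cast card_le_card hMW) hWN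
  have hVXN : ((Cl o a \ X).card : ℝ) ≤ N :=
    le_trans (by exact_mod_cast card_le_card sdiff_subset) hVN
  have hc0 : 0 ≤ c * N := (Nat.cast_nonneg _).trans hHc
  have hHb : ∀ Z : Finset (Fin n), (Z.card : ℝ) ≤ N → (eb S Z H : ℝ) ≤ c * N ^ 2 := by
    intro Z hZ
    have h1 : (eb S Z H : ℝ) ≤ (Z.card : ℝ) * (H.card : ℝ) := by
      exact_mod_cast eb_le_card_mul S Z H
    have h2 : (Z.card : ℝ) * (H.card : ℝ) ≤ N * (c * N) :=
      mul_le_mul hZ hHc (Nat.cast_nonneg _) hN.le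
    nlinarith
  have f1 : ν * N ^ 2 ≤ (eb S (Cl o a \ X) M : ℝ) + c * N ^ 2 := by
    rw [e1, Nat.cast_zero, zero_add] at hrob
    have h1 : eb S (Cl o a \ X) (Cl i a \ ((Cl i a \ H) \ M)) ≤
        eb S (Cl o a \ X) M + eb S (Cl o a \ X) H :=
      (eb_mono (Finset.Subset.refl _) (Finset.Subset.refl _) e2).trans (e3 _)
    have h2 : (eb S (Cl o a \ X) (Cl i a \ ((Cl i a \ H) \ M)) : ℝ) ≤
        (eb S (Cl o a \ X) M : ℝ) + (eb S (Cl o a \ X) H : ℝ) := by exact_mod_cast h1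
    have h3 := hHb _ hVXN
    linarith
  have hg : 0 ≤ g * N := (Nat.cast_nonneg _).trans hS.nro
  have hg2 : 0 ≤ g := by
    by_contra hcc
    push Not at hcc
    nlinarith
  -- out-degrees of X
  have f2 : (X.card : ℝ) * (ρ - g * N) - N * (g * N) ≤ (eb S X M : ℝ) + c * N ^ 2 := by
    have h1 := hbn_low (fun v => od S v) ρ (g * N) N X
      (univ.filter (fun v => g * N < |(od S v : ℝ) - ρ|)) (by
        intro v hv
        rw [mem_filter, not_and, not_lt] at hv
        exact hv (mem_univ _)) hN.le (by linarith [hS.rle])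
    have h2 : (∑ v ∈ X, (od S v : ℝ)) ≤ (eb S X M : ℝ) + (eb S X H : ℝ) := by
      have h3 : ∑ v ∈ X, od S v ≤ eb S X M + eb S X H := by
        rw [← eb_univ_right]
        refine le_trans ?_ (e3 X)
        unfold eb
        apply card_le_card
        intro e he
        rw [mem_filter] at he ⊢
        exact ⟨he.1, he.2.1, hXout e.1 he.2.1 e.2 he.1⟩
      exact_mod_cast h3
    have h4 := hHb X hXN
    have h5 := mul_le_mul_of_nonneg_left hS.nro hN.le
    linarith
  -- in-degrees of M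
  have f3 : (eb S X M : ℝ) + (eb S (Cl o a \ X) M : ℝ) ≤
      (M.card : ℝ) * (ρ + g * N) + N * (g * N) := by
    have h1 := hbn_up (fun v => idg S v) ρ (g * N) N M
      (univ.filter (fun v => g * N < |(idg S v : ℝ) - ρ|)) (by
        intro v hv
        rw [mem_filter, not_and, not_lt] at hv
        exact hv (mem_univ _)) hN.le (by linarith [hS.rge]) (by
        intro w hw
        have h2 := hbn_idg_le S w (Cl o a) (by
          intro v hv
          rw [hV, hS.own _ hv]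
          exact (hW w).1 (hMW hw))
        exact le_trans (by exact_mod_cast h2) hVN)
    have h2 : (eb S X M : ℝ) + (eb S (Cl o a \ X) M : ℝ) ≤ ∑ v ∈ M, (idg S v : ℝ) := by
      have h3 : eb S X M + eb S (Cl o a \ X) M ≤ ∑ v ∈ M, idg S v := by
        rw [← eb_univ_left, ← eb_union_left S M disjoint_sdiff]
        exact eb_mono (Finset.Subset.refl _) (subset_univ _) (Finset.Subset.refl _)
      exact_mod_cast h3
    have h5 := mul_le_mul_of_nonneg_left hS.nri hN.le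
    linarith
  have f4 : (X.card : ℝ) * (g * N) ≤ N * (g * N) := mul_le_mul_of_nonneg_right hXN hg
  have f5 : (M.card : ℝ) * (g * N) ≤ N * (g * N) := mul_le_mul_of_nonneg_right hMN hg
  have hρ : 0 < ρ := lt_of_lt_of_le hθN hS.rge
  have f6 : (M.card : ℝ) * ρ + ρ ≤ (X.card : ℝ) * ρ := by nlinarith
  have f7 : (2 * c + 4 * g) * N ^ 2 ≤ ν * N ^ 2 := mul_le_mul_of_nonneg_right hν (sq_nonneg _)
  nlinarith

/-- **HBN.** -/
theorem tHBN : S_HBN := by
  classical
  intro n K S o i N θ ρ g β ν c a T H hS hN hθ _ hcθ hβ hν _ _ _ hHc hTH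
  have hall : ∀ s : Finset {v // v ∈ Cl o a \ T},
      s.card ≤ (s.biUnion (fun v => (Cl i a \ H).filter (fun w => (v.1, w) ∈ S))).card := by
    intro s
    have h1 := hbn_key S o i N θ ρ g β ν c a T H hS hN hθ hcθ hβ hν hHc hTH
      (s.map (Function.Embedding.subtype _))
      (s.biUnion (fun v => (Cl i a \ H).filter (fun w => (v.1, w) ∈ S)))
      (by
        intro v hv
        obtain ⟨x, _, rfl⟩ := mem_map.1 hv
        exact x.2)
      (by
        intro w hw
        obtain ⟨x, _, hx⟩ := mem_biUnion.1 hw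
        exact (mem_filter.1 hx).1)
      (by
        intro v hv w hw hvw
        obtain ⟨x, hx, rfl⟩ := mem_map.1 hv
        exact mem_biUnion.2 ⟨x, hx, mem_filter.2 ⟨hw, hvw⟩⟩)
    rwa [card_map] at h1
  obtain ⟨f, hf1, hf2⟩ := (Finset.all_card_le_biUnion_card_iff_exists_injective _).1 hall
  refine ⟨fun v => if h : v ∈ Cl o a \ T then f ⟨v, h⟩ else v, ?_, ?_⟩
  · intro v hv
    beta_reduce
    rw [dif_pos hv]
    have h1 := mem_filter.1 (hf2 ⟨v, hv⟩)
    exact ⟨h1.1, h1.2⟩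
  · intro v hv w hw h
    have hv' : v ∈ Cl o a \ T := hv
    have hw' : w ∈ Cl o a \ T := hw
    dsimp only at h
    rw [dif_pos hv', dif_pos hw'] at h
    exact congrArg Subtype.val (hf1 h)

end Pool.Agent.MPd266dbE
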