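import Pool.Agent.Lib.MP_d266db_co.E.SpecA

/-!
# MP_d266db_co, E: a permutation inside the classes
-/

set_option autoImplicit false

namespace Pool.Agent.MPd266dbE

open Finset Pool.Agent.MPd266db Pool.Agent.MPd266dbH

/-- the Hall condition inside one class -/
private theorem hal_one (hNrS : S_NrS) {n K : ℕ} {S : Finset (Fin n × Fin n)}
    {o i : Fin n → Fin K} {θ ρ g β ν : ℝ} (hn : 1 ≤ n) (hM : MHyp S o i θ ρ g β ν) (hθ : 0 < θ)
    (hβ : β ≤ θ) (hg : 4 * g ≤ ν) {a : Fin K} (hbal : (Cl o a).card = (Cl i a).card)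
    (X N : Finset (Fin n)) (hX : X ⊆ Cl o a) (hN : N ⊆ Cl i a)
    (hXN : ∀ e ∈ S, e.1 ∈ X → e.2 ∈ N) : X.card ≤ N.card := by
  classical
  by_contra hcon
  have hlt : N.card < X.card := not_le.1 hcon
  have hnR : (1 : ℝ) ≤ n := by exact_mod_cast hn
  have hθn : 0 < θ * n := mul_pos hθ (by linarith)
  have hβn : β * n ≤ θ * n := mul_le_mul_of_nonneg_right hβ (by linarith)
  have hg0 : 0 ≤ g := by
    have h1 := hM.nr.1
    have h2 : (0 : ℝ) ≤ ((univ.filter (fun v => g * n < |(od S v : ℝ) - ρ|)).card : ℝ) :=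
      Nat.cast_nonneg _
    have h3 : 0 ≤ g * n := h2.trans h1
    by_contra hneg
    have h4 : g * n < 0 := mul_neg_of_neg_of_pos (not_le.1 hneg) (by linarith)
    linarith
  have hρ0 : 0 < ρ := hθn.trans_le hM.rge
  -- `N` is large
  obtain ⟨v, hv⟩ : X.Nonempty := card_pos.1 (by omega)
  have hN1 : θ * n ≤ N.card := by
    have h1 : od S v ≤ N.card := by
      unfold od
      refine card_le_card_of_injOn Prod.snd (fun e he => ?_) (fun e he e' he' h => ?_)
      · have he1 := mem_filter.1 (mem_coe.1 he)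
        exact hXN e he1.1 (he1.2 ▸ hv)
      · have he1 := mem_filter.1 (mem_coe.1 he)
        have he2 := mem_filter.1 (mem_coe.1 he')
        exact Prod.ext (he1.2.trans he2.2.symm) h
    exact (hM.odl v).trans (by exact_mod_cast h1)
  -- the complement
  obtain ⟨y, hy⟩ : (Cl i a \ N).Nonempty := by
    rw [sdiff_nonempty]
    intro hsub
    have h1 := card_le_card hsub
    have h2 := card_le_card hX
    omega
  have hy1 := mem_sdiff.1 hy
  have hO : θ * n ≤ (Cl o a \ X).card := by
    have h1 : idg S y ≤ (Cl o a \ X).card := by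
      unfold idg
      refine card_le_card_of_injOn Prod.fst (fun e he => ?_) (fun e he e' he' h => ?_)
      · have he1 := mem_filter.1 (mem_coe.1 he)
        refine mem_coe.2 (mem_sdiff.2 ⟨?_, fun hx => hy1.2 (he1.2 ▸ hXN e he1.1 hx)⟩)
        have h2 := hM.own e he1.1
        rw [he1.2] at h2
        have h3 : i y = a := (mem_filter.1 hy1.1).2
        exact mem_filter.2 ⟨mem_univ _, h2.trans h3⟩
      · have he1 := mem_filter.1 (mem_coe.1 he)
        have he2 := mem_filter.1 (mem_coe.1 he')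
        exact Prod.ext h (he1.2.trans he2.2.symm)
    exact (hM.idl y).trans (by exact_mod_cast h1)
  have hNN : Cl i a \ (Cl i a \ N) = N := by
    rw [sdiff_sdiff_right_self]
    exact inf_eq_right.2 hN
  have hXR : (N.card : ℝ) < X.card := by exact_mod_cast hlt
  have hrob := hM.rob a X (Cl i a \ N) hX sdiff_subset
    (by
      rw [hNN]
      have : (0 : ℝ) ≤ N.card := Nat.cast_nonneg _
      linarith)
    (by
      have : (0 : ℝ) ≤ (Cl i a \ N).card := Nat.cast_nonneg _
      linarith)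
  rw [hNN] at hrob
  have he0 : eb S X (Cl i a \ N) = 0 := by
    unfold eb
    rw [card_eq_zero, filter_eq_empty_iff]
    intro e he h
    exact (mem_sdiff.1 h.2).2 (hXN e he h.1)
  rw [he0, Nat.cast_zero, zero_add] at hrob
  -- counting
  have he1 : eb S X N = ∑ v ∈ X, od S v := by
    have h1 := eb_compl_right S X N
    have h2 : eb S X Nᶜ = 0 := by
      unfold eb
      rw [card_eq_zero, filter_eq_empty_iff]
      intro e he h
      exact (mem_compl.1 h.2) (hXN e he h.1)
    omega
  have he2 : eb S X N + eb S (Cl o a \ X) N ≤ ∑ w ∈ N, idg S w := by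
    rw [← eb_union_left S N disjoint_sdiff, ← eb_univ_left]
    exact eb_mono subset_rfl (subset_univ _) subset_rfl
  have h1 := (hNrS n S ρ g hρ0.le hM.rle hg0 hM.nr X).1
  have h2 := (hNrS n S ρ g hρ0.le hM.rle hg0 hM.nr N).2
  have h3 := (abs_le.1 h1).1
  have h4 := (abs_le.1 h2).2
  have he1R : (eb S X N : ℝ) = ∑ v ∈ X, (od S v : ℝ) := by exact_mod_cast he1
  have he2R : (eb S X N : ℝ) + eb S (Cl o a \ X) N ≤ ∑ w ∈ N, (idg S w : ℝ) := by
    exact_mod_cast he2
  have h5 : ρ * N.card < ρ * X.card := mul_lt_mul_of_pos_left hXR hρ0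
  have h6 : 4 * g * (n : ℝ) ^ 2 ≤ ν * (n : ℝ) ^ 2 := mul_le_mul_of_nonneg_right hg (by positivity)
  linarith

theorem tHal (hNrS : S_NrS) : S_Hal := by
  classical
  intro n K S o i θ ρ g β ν hn hM hθ hβ hg hbal
  have hall : ∀ W : Finset (Fin n), W.card ≤
      (W.biUnion (fun v => univ.filter (fun w => (v, w) ∈ S))).card := by
    intro W
    rw [card_eq_sum_card_fiberwise (f := o) (t := univ) (fun v _ => mem_coe.2 (mem_univ _)),
      card_eq_sum_card_fiberwise (s := W.biUnion (fun v => univ.filter (fun w => (v, w) ∈ S)))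
        (f := i) (t := univ) (fun v _ => mem_coe.2 (mem_univ _))]
    refine sum_le_sum fun a _ => ?_
    refine hal_one hNrS hn hM hθ hβ hg (hbal a) _ _ ?_ ?_ ?_
    · intro v hv
      exact mem_filter.2 ⟨mem_univ _, (mem_filter.1 hv).2⟩
    · intro v hv
      exact mem_filter.2 ⟨mem_univ _, (mem_filter.1 hv).2⟩
    · intro e he h
      have h1 := mem_filter.1 h
      refine mem_filter.2 ⟨mem_biUnion.2 ⟨e.1, h1.1, mem_filter.2 ⟨mem_univ _, he⟩⟩, ?_⟩
      rw [← hM.own e he]
      exact h1.2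
  obtain ⟨f, hf, hfS⟩ := (all_card_le_biUnion_card_iff_exists_injective
    (fun v : Fin n => univ.filter (fun w => (v, w) ∈ S))).1 hall
  refine ⟨Equiv.ofBijective f (Finite.injective_iff_bijective.1 hf), fun v => ?_⟩
  exact (mem_filter.1 (hfS v)).2

end Pool.Agent.MPd266dbE
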