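import Pool.Agent.Lib.MP_d266db_co.E.SpecI

/-!
# MP_d266db_co, E: halving with control of all pairs (`S_HfX`)
-/

set_option autoImplicit false

namespace Pool.Agent.MPd266dbE

open Finset Pool.Agent.MPd266db Pool.Agent.MPd266dbH

/-- counting in a disjoint union -/
theorem hfx_card_biUnion {n k : ℕ} (P : Fin k → Finset (Fin n × Fin n))
    (hd : ∀ i j, i ≠ j → Disjoint (P i) (P j)) (H₀ : Finset (Fin n × Fin n))
    (h0 : ∀ i, Disjoint H₀ (P i)) (p : Fin n × Fin n → Prop) [DecidablePred p] :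
    ((H₀ ∪ univ.biUnion P).filter p).card = (H₀.filter p).card + ∑ i, ((P i).filter p).card := by
  classical
  rw [filter_union, card_union_of_disjoint, filter_biUnion, card_biUnion]
  · intro i _ j _ hij
    exact disjoint_filter_filter (hd i j hij)
  · refine disjoint_filter_filter ?_
    rw [disjoint_biUnion_right]
    intro i _
    exact h0 i

theorem hfx_qab_disj {n : ℕ} {q : Fin n × Fin n × Fin n × Fin n}
    (h : q.1 ≠ q.2.1 ∧ q.2.2.1 ≠ q.2.2.2) : Disjoint (qa q) (qb q) := by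
  obtain ⟨h1, h2⟩ := h
  rw [disjoint_left]
  intro e he he'
  simp only [qa, qb, mem_insert, mem_singleton] at he he'
  rcases he with rfl | rfl
  · rcases he' with h | h
    · exact h2 (Prod.ext_iff.mp h).2
    · exact h1 (Prod.ext_iff.mp h).1
  · rcases he' with h | h
    · exact h1 (Prod.ext_iff.mp h).1.symm
    · exact h2 (Prod.ext_iff.mp h).2.symm

theorem hfx_qa_card {n : ℕ} {q : Fin n × Fin n × Fin n × Fin n}
    (h : q.1 ≠ q.2.1 ∧ q.2.2.1 ≠ q.2.2.2) : (qa q).card = 2 := by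
  unfold qa
  rw [card_pair]
  intro h'
  exact h.1 (Prod.ext_iff.mp h').1

theorem hfx_qb_card {n : ℕ} {q : Fin n × Fin n × Fin n × Fin n}
    (h : q.1 ≠ q.2.1 ∧ q.2.2.1 ≠ q.2.2.2) : (qb q).card = 2 := by
  unfold qb
  rw [card_pair]
  intro h'
  exact h.1 (Prod.ext_iff.mp h').1

/-- the degrees of a pair of arcs -/
theorem hfx_pair_filter {n : ℕ} (e f : Fin n × Fin n) (hef : e ≠ f) (p : Fin n × Fin n → Prop)
    [DecidablePred p] : (({e, f} : Finset (Fin n × Fin n)).filter p).card =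
      (if p e then 1 else 0) + (if p f then 1 else 0) := by
  rw [filter_insert, filter_singleton]
  by_cases h1 : p e <;> by_cases h2 : p f <;> simp [h1, h2, hef]

theorem hfx_od {n : ℕ} {q : Fin n × Fin n × Fin n × Fin n}
    (h : q.1 ≠ q.2.1 ∧ q.2.2.1 ≠ q.2.2.2) (v : Fin n) : od (qb q) v = od (qa q) v := by
  have e1 : ((q.1, q.2.2.1) : Fin n × Fin n) ≠ (q.2.1, q.2.2.2) := fun h' =>
    h.1 (Prod.ext_iff.mp h').1
  have e2 : ((q.1, q.2.2.2) : Fin n × Fin n) ≠ (q.2.1, q.2.2.1) := fun h' =>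
    h.1 (Prod.ext_iff.mp h').1
  unfold od qa qb
  rw [hfx_pair_filter _ _ e1, hfx_pair_filter _ _ e2]

theorem hfx_idg {n : ℕ} {q : Fin n × Fin n × Fin n × Fin n}
    (h : q.1 ≠ q.2.1 ∧ q.2.2.1 ≠ q.2.2.2) (v : Fin n) : idg (qb q) v = idg (qa q) v := by
  have e1 : ((q.1, q.2.2.1) : Fin n × Fin n) ≠ (q.2.1, q.2.2.2) := fun h' =>
    h.1 (Prod.ext_iff.mp h').1
  have e2 : ((q.1, q.2.2.2) : Fin n × Fin n) ≠ (q.2.1, q.2.2.1) := fun h' =>
    h.1 (Prod.ext_iff.mp h').1
  unfold idg qa qb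
  rw [hfx_pair_filter _ _ e1, hfx_pair_filter _ _ e2, add_comm]

theorem hfx_union_filter {n : ℕ} {A B : Finset (Fin n × Fin n)} (h : Disjoint A B)
    (p : Fin n × Fin n → Prop) [DecidablePred p] :
    ((A ∪ B).filter p).card = (A.filter p).card + (B.filter p).card := by
  rw [filter_union, card_union_of_disjoint (disjoint_filter_filter h)]

/-- the numerical estimate -/
theorem hfx_num (n k : ℕ) (x : ℝ) (hk : 4 * k ≤ n ^ 2) (hx : x ≤ n * Real.sqrt n + n) :
    x + 4 * Real.sqrt (k * (((n + n : ℕ) : ℝ) + 1)) ≤ 8 * (n * Real.sqrt n) := by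
  rcases Nat.eq_zero_or_pos n with h0 | h0
  · subst h0
    have : k = 0 := by
      simp at hk
      exact hk
    subst this
    simp at hx ⊢
    exact hx
  · have hn : (1 : ℝ) ≤ n := by exact_mod_cast h0
    have hs : 1 ≤ Real.sqrt n := by
      rw [Real.one_le_sqrt]
      exact hn
    have h1 : (n : ℝ) ≤ n * Real.sqrt n := by
      calc (n : ℝ) = n * 1 := by ring
        _ ≤ n * Real.sqrt n := by gcongr
    have h2 : Real.sqrt (k * (((n + n : ℕ) : ℝ) + 1)) ≤ n * Real.sqrt n := by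
      rw [Real.sqrt_le_iff]
      refine ⟨by positivity, ?_⟩
      have h3 : ((n : ℝ) * Real.sqrt n) ^ 2 = (n : ℝ) ^ 2 * n := by
        rw [mul_pow, Real.sq_sqrt (by positivity)]
      rw [h3]
      have h4 : (4 : ℝ) * k ≤ n ^ 2 := by exact_mod_cast hk
      have h5 : (k : ℝ) ≤ (n : ℝ) ^ 2 / 4 := by linarith
      push_cast
      calc (k : ℝ) * ((n : ℝ) + n + 1) ≤ (n : ℝ) ^ 2 / 4 * ((n : ℝ) + n + 1) := by gcongr
        _ = (n : ℝ) ^ 2 * (((n : ℝ) + n + 1) / 4) := by ring
        _ ≤ (n : ℝ) ^ 2 * n := by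
          gcongr
          linarith
    linarith

/-- the tails of a subset of `Fin (n + n)` -/
def hfx_X {n : ℕ} (W : Finset (Fin (n + n))) : Finset (Fin n) :=
  univ.filter (fun v => Fin.castAdd n v ∈ W)

/-- the heads of a subset of `Fin (n + n)` -/
def hfx_Y {n : ℕ} (W : Finset (Fin (n + n))) : Finset (Fin n) :=
  univ.filter (fun v => Fin.natAdd n v ∈ W)

theorem hfx_ex {n : ℕ} (X Y : Finset (Fin n)) : ∃ W : Finset (Fin (n + n)), hfx_X W = X ∧
    hfx_Y W = Y := by
  classical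
  refine ⟨X.image (Fin.castAdd n) ∪ Y.image (Fin.natAdd n), ?_, ?_⟩
  · ext v
    simp only [hfx_X, mem_filter, mem_univ, true_and, mem_union, mem_image]
    constructor
    · rintro (⟨a, ha, h⟩ | ⟨a, ha, h⟩)
      · rwa [← Fin.castAdd_injective n n h]
      · have h1 := congrArg Fin.val h
        simp only [Fin.val_natAdd, Fin.val_castAdd] at h1
        have h2 := v.2
        omega
    · intro h
      exact Or.inl ⟨v, h, rfl⟩
  · ext v
    simp only [hfx_Y, mem_filter, mem_univ, true_and, mem_union, mem_image]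
    constructor
    · rintro (⟨a, ha, h⟩ | ⟨a, ha, h⟩)
      · have h1 := congrArg Fin.val h
        simp only [Fin.val_natAdd, Fin.val_castAdd] at h1
        have h2 := a.2
        omega
      · rwa [← Fin.natAdd_injective n n h]
    · intro h
      exact Or.inr ⟨v, h, rfl⟩

/-- **HfX.** -/
theorem tHfX (hKST : S_KST) (hCyc : S_Cyc) (hRand : S_Rand) (hHalfE : S_HalfE) : S_HfX := by
  classical
  intro n H hev
  obtain ⟨k, q, H₀, hne, hsub, hdis, hdis0, hH, hNo⟩ := hCyc n H
  set P : Fin k → Finset (Fin n × Fin n) := fun i => qa (q i) ∪ qb (q i) with hP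
  have hab : ∀ i, Disjoint (qa (q i)) (qb (q i)) := fun i => hfx_qab_disj (hne i)
  -- counting in `H`
  have hcH : ∀ (p : Fin n × Fin n → Prop) [DecidablePred p], (H.filter p).card =
      (H₀.filter p).card + ∑ i, ((P i).filter p).card := by
    intro p _
    have := hfx_card_biUnion P hdis H₀ hdis0 p
    rw [← hH] at this
    exact this
  have hcP : ∀ (i : Fin k) (p : Fin n × Fin n → Prop) [DecidablePred p], ((P i).filter p).card =
      ((qa (q i)).filter p).card + ((qb (q i)).filter p).card := fun i p _ =>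
    hfx_union_filter (hab i) p
  have hodP : ∀ i v, od (P i) v = 2 * od (qa (q i)) v := by
    intro i v
    have h1 : od (P i) v = od (qa (q i)) v + od (qb (q i)) v := hcP i _
    rw [h1, hfx_od (hne i)]
    ring
  have hidP : ∀ i v, idg (P i) v = 2 * idg (qa (q i)) v := by
    intro i v
    have h1 : idg (P i) v = idg (qa (q i)) v + idg (qb (q i)) v := hcP i _
    rw [h1, hfx_idg (hne i)]
    ring
  have hodH : ∀ v, od H v = od H₀ v + 2 * ∑ i, od (qa (q i)) v := by
    intro v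
    have h1 : od H v = od H₀ v + ∑ i, od (P i) v := hcH _
    rw [h1, sum_congr rfl (fun i _ => hodP i v), mul_sum]
  have hidH : ∀ v, idg H v = idg H₀ v + 2 * ∑ i, idg (qa (q i)) v := by
    intro v
    have h1 : idg H v = idg H₀ v + ∑ i, idg (P i) v := hcH _
    rw [h1, sum_congr rfl (fun i _ => hidP i v), mul_sum]
  -- the half of `H₀`
  obtain ⟨H₀₁, hH₀₁, hdeg0⟩ := hHalfE n H₀ (by
    intro v
    obtain ⟨h1, h2⟩ := hev v
    rw [hodH, Nat.even_add] at h1
    rw [hidH, Nat.even_add] at h2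
    exact ⟨h1.mpr (even_two_mul _), h2.mpr (even_two_mul _)⟩)
  -- the signs
  set c : Fin k → Finset (Fin (n + n)) → ℝ := fun i W =>
    (eb (qa (q i)) (hfx_X W) (hfx_Y W) : ℝ) - eb (qb (q i)) (hfx_X W) (hfx_Y W) with hc
  have hc2 : ∀ i W, |c i W| ≤ 2 := by
    intro i W
    have h1 : (eb (qa (q i)) (hfx_X W) (hfx_Y W) : ℝ) ≤ 2 := by
      have : eb (qa (q i)) (hfx_X W) (hfx_Y W) ≤ 2 := by
        rw [← hfx_qa_card (hne i)]
        exact card_filter_le _ _
      exact_mod_cast this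
    have h2 : (eb (qb (q i)) (hfx_X W) (hfx_Y W) : ℝ) ≤ 2 := by
      have : eb (qb (q i)) (hfx_X W) (hfx_Y W) ≤ 2 := by
        rw [← hfx_qb_card (hne i)]
        exact card_filter_le _ _
      exact_mod_cast this
    have h3 : (0 : ℝ) ≤ eb (qa (q i)) (hfx_X W) (hfx_Y W) := Nat.cast_nonneg _
    have h4 : (0 : ℝ) ≤ eb (qb (q i)) (hfx_X W) (hfx_Y W) := Nat.cast_nonneg _
    rw [abs_le]
    constructor <;> simp only [hc] <;> linarith
  obtain ⟨s, hs⟩ := hRand (n + n) k c hc2
  set B : Fin k → Finset (Fin n × Fin n) := fun i => if s i then qa (q i) else qb (q i) with hB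
  have hBP : ∀ i, B i ⊆ P i := by
    intro i
    simp only [hB, hP]
    split_ifs
    · exact subset_union_left
    · exact subset_union_right
  have hBd : ∀ i j, i ≠ j → Disjoint (B i) (B j) := fun i j hij =>
    disjoint_of_subset_left (hBP i) (disjoint_of_subset_right (hBP j) (hdis i j hij))
  have hBd0 : ∀ i, Disjoint H₀₁ (B i) := fun i =>
    disjoint_of_subset_left hH₀₁ (disjoint_of_subset_right (hBP i) (hdis0 i))
  have hodB : ∀ i v, od (B i) v = od (qa (q i)) v := by
    intro i v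
    simp only [hB]
    split_ifs
    · rfl
    · exact hfx_od (hne i) v
  have hidB : ∀ i v, idg (B i) v = idg (qa (q i)) v := by
    intro i v
    simp only [hB]
    split_ifs
    · rfl
    · exact hfx_idg (hne i) v
  have hc1 : ∀ (p : Fin n × Fin n → Prop) [DecidablePred p],
      ((H₀₁ ∪ univ.biUnion B).filter p).card = (H₀₁.filter p).card + ∑ i, ((B i).filter p).card :=
    fun p _ => hfx_card_biUnion B hBd H₀₁ hBd0 p
  refine ⟨H₀₁ ∪ univ.biUnion B, ?_, ?_, ?_⟩
  · rw [hH]
    refine union_subset_union hH₀₁ ?_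
    intro e he
    rw [mem_biUnion] at he ⊢
    obtain ⟨i, hi, he⟩ := he
    exact ⟨i, hi, hBP i he⟩
  · intro v
    have h1 : od (H₀₁ ∪ univ.biUnion B) v = od H₀₁ v + ∑ i, od (B i) v := hc1 _
    have h2 : idg (H₀₁ ∪ univ.biUnion B) v = idg H₀₁ v + ∑ i, idg (B i) v := hc1 _
    rw [h1, h2, hodH, hidH, sum_congr rfl (fun i _ => hodB i v),
      sum_congr rfl (fun i _ => hidB i v), ← (hdeg0 v).1, ← (hdeg0 v).2]
    constructor <;> ring
  · intro X Y
    obtain ⟨W, hWX, hWY⟩ := hfx_ex X Y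
    subst hWX
    subst hWY
    have h1 : eb (H₀₁ ∪ univ.biUnion B) (hfx_X W) (hfx_Y W) = eb H₀₁ (hfx_X W) (hfx_Y W) + ∑ i, eb (B i) (hfx_X W) (hfx_Y W) := hc1 _
    have h2 : eb H (hfx_X W) (hfx_Y W) = eb H₀ (hfx_X W) (hfx_Y W) + ∑ i, eb (P i) (hfx_X W) (hfx_Y W) := hcH _
    have h3 : ∀ i, (2 : ℝ) * eb (B i) (hfx_X W) (hfx_Y W) =
        (eb (P i) (hfx_X W) (hfx_Y W) : ℝ) + (if s i then c i W else - c i W) := by
      intro i
      have h4 : eb (P i) (hfx_X W) (hfx_Y W) = eb (qa (q i)) (hfx_X W) (hfx_Y W) + eb (qb (q i)) (hfx_X W) (hfx_Y W) := hcP i _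
      rw [h4]
      simp only [hB, hc]
      push_cast
      split_ifs <;> ring
    have h5 : (2 : ℝ) * ∑ i, (eb (B i) (hfx_X W) (hfx_Y W) : ℝ) =
        ∑ i, (eb (P i) (hfx_X W) (hfx_Y W) : ℝ) + ∑ i, (if s i then c i W else - c i W) := by
      rw [mul_sum, ← sum_add_distrib]
      exact sum_congr rfl fun i _ => h3 i
    have h6 := hs W
    have h7 : (eb H₀ (hfx_X W) (hfx_Y W) : ℝ) ≤ H₀.card := by
      have : eb H₀ (hfx_X W) (hfx_Y W) ≤ H₀.card := card_filter_le _ _
      exact_mod_cast this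
    have h8 := hKST n H₀ hNo
    have hk4 : 4 * k ≤ n ^ 2 := by
      have e1 : H.card = H₀.card + ∑ i, (P i).card := by
        have := hcH (fun _ => True)
        simpa using this
      have e2 : ∀ i, (P i).card = 4 := by
        intro i
        simp only [hP]
        rw [card_union_of_disjoint (hab i), hfx_qa_card (hne i), hfx_qb_card (hne i)]
      rw [sum_congr rfl (fun i _ => e2 i)] at e1
      simp only [sum_const, card_univ, Fintype.card_fin, smul_eq_mul] at e1
      have e3 : H.card ≤ n * n := by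
        calc H.card ≤ (univ : Finset (Fin n × Fin n)).card := card_le_univ _
          _ = n * n := by simp
      rw [pow_two]
      omega
    have h9 := hfx_num n k (eb H₀ (hfx_X W) (hfx_Y W) : ℝ) hk4 (h7.trans h8)
    have h10 : (0 : ℝ) ≤ eb H₀₁ (hfx_X W) (hfx_Y W) := Nat.cast_nonneg _
    rw [h1, h2]
    push_cast
    linarith

end Pool.Agent.MPd266dbE
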