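import Pool.Agent.Lib.MP_d266db_co.E.SpecI

/-!
# MP_d266db_co, E, HiL: the highest level

The statement follows from the one on the lowest level for the reversed digraph.
-/

set_option autoImplicit false

namespace Pool.Agent.MPd266dbE

open Finset Pool.Agent.MPd266db Pool.Agent.MPd266dbH

theorem hil_crs {n K : ℕ} (R : Finset (Fin n × Fin n)) (o i : Fin n → Fin K) :
    crs i o (rev R) = rev (crs o i R) := by
  ext ⟨u, v⟩
  rw [mem_rev]
  simp only [crs, mem_filter]
  rw [mem_rev]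
  constructor
  · rintro ⟨h1, h2⟩
    exact ⟨h1, fun h => h2 h.symm⟩
  · rintro ⟨h1, h2⟩
    exact ⟨h1, fun h => h2 h.symm⟩

theorem hil_XT {n K : ℕ} (R : Finset (Fin n × Fin n)) (o i : Fin n → Fin K) :
    XT (rev R) i o = XH R o i := by
  unfold XT XH
  rw [hil_crs]
  simp only [od_rev]

theorem hil_XH {n K : ℕ} (R : Finset (Fin n × Fin n)) (o i : Fin n → Fin K) :
    XH (rev R) i o = XT R o i := by
  unfold XT XH
  rw [hil_crs]
  simp only [idg_rev]

theorem hil_LO {n K : ℕ} (R : Finset (Fin n × Fin n)) (o i : Fin n → Fin K) (mu : Fin n → ℕ)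
    (M t : ℕ) (hM : ∀ v, mu v ≤ M) (ht : t ≤ M) (a : Fin K) :
    LO (rev R) i o (fun v => M - mu v) t a = LI R o i mu (M - t) a := by
  ext v
  simp only [LO, LI, mem_filter, mem_univ, true_and, hil_XT]
  have := hM v
  constructor
  · rintro ⟨h1, h2, h3⟩
    exact ⟨h1, by omega, h3⟩
  · rintro ⟨h1, h2, h3⟩
    exact ⟨h1, by omega, h3⟩

theorem hil_LI {n K : ℕ} (R : Finset (Fin n × Fin n)) (o i : Fin n → Fin K) (lam : Fin n → ℕ)
    (M t : ℕ) (hM : ∀ v, lam v ≤ M) (ht : t ≤ M) (a : Fin K) :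
    LI (rev R) i o (fun v => M - lam v) t a = LO R o i lam (M - t) a := by
  ext v
  simp only [LO, LI, mem_filter, mem_univ, true_and, hil_XH]
  have := hM v
  constructor
  · rintro ⟨h1, h2, h3⟩
    exact ⟨h1, by omega, h3⟩
  · rintro ⟨h1, h2, h3⟩
    exact ⟨h1, by omega, h3⟩

theorem tHiL (hLwL : S_LwL) : S_HiL := by
  classical
  intro n r K E R o i lam mu hn hE hr hRE hR hP hc
  obtain ⟨M, hM⟩ : ∃ M : ℕ, M = (∑ u, lam u) + ∑ v, mu v := ⟨_, rfl⟩
  have hl : ∀ u, lam u ≤ M := by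
    intro u
    have := Finset.single_le_sum (f := lam) (fun _ _ => Nat.zero_le _) (mem_univ u)
    omega
  have hm : ∀ u, mu u ≤ M := by
    intro u
    have := Finset.single_le_sum (f := mu) (fun _ _ => Nat.zero_le _) (mem_univ u)
    omega
  have hRE' : rev R ⊆ rev E := by
    intro e he
    obtain ⟨u, v⟩ := e
    rw [mem_rev] at he ⊢
    exact hRE he
  have hR' : Reg (rev R) r := by
    intro v
    rw [od_rev, idg_rev]
    exact ⟨(hR v).2, (hR v).1⟩
  have hP' : Pt (rev E) (rev R) i o (fun v => M - mu v) (fun u => M - lam u) := by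
    constructor
    · intro u v h1 h2
      rw [mem_rev] at h1 h2
      obtain ⟨h3, h4⟩ := hP.1 v u h1 h2
      have h5 := hl v
      refine ⟨by simp only; omega, ?_⟩
      intro h6
      have h7 := h4 (fun h => h6 h.symm)
      simp only
      omega
    · intro u v h1 h2
      rw [mem_rev] at h1
      have h3 := hP.2 v u h1 h2.symm
      simp only
      omega
  have hc' : 10000000000 * (crs i o (rev R)).card < n ^ 2 := by
    rw [hil_crs]
    unfold rev
    rw [Finset.card_map]
    exact hc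
  obtain ⟨t, h1, h2, ⟨u, hu1, hu2⟩, h4⟩ := hLwL n r K (rev E) (rev R) i o _ _ hn hE.rev hr hRE'
    hR' hP' hc'
  rw [hil_XT] at h1 hu1
  rw [hil_XH] at h2
  have htM : t ≤ M := by omega
  refine ⟨M - t, ?_, ?_, ⟨u, hu1, ?_⟩, ?_⟩
  · intro v hv
    have h5 := h1 v hv
    have h6 := hm v
    omega
  · intro v hv
    have h5 := h2 v hv
    have h6 := hl v
    omega
  · have h6 := hm u
    omega
  intro b
  obtain ⟨h5, h6, h7⟩ := h4 b
  rw [hil_LO R o i mu M t hm htM, hil_LI R o i lam M t hl htM] at h5 h6 h7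
  refine ⟨?_, h6, ?_⟩
  · intro v hv
    obtain ⟨h8, h9⟩ := h5 v hv
    refine ⟨?_, h9⟩
    have h10 : ((LO R o i lam (M - t) b).filter (fun w => (v, w) ∈ rev E ∧ (v, w) ∉ rev R)) =
        ((LO R o i lam (M - t) b).filter (fun w => (w, v) ∈ E ∧ (w, v) ∉ R)) := by
      apply Finset.filter_congr
      intro w _
      rw [mem_rev, mem_rev]
    rw [h10] at h8
    exact h8
  · rw [eb_rev] at h7
    exact h7

end Pool.Agent.MPd266dbE
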