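import Pool.Agent.Lib.MP_d266db_co.E.Defs

/-!
# MP_d266db_co, E, SpecC: systems with small classes, tiles, winding permutations

Every `S_...` is a statement to be proved in its own file `Pool/Agent/Lib/MP_d266db_co/E/....lean`;
the docstring contains the complete proof.
-/

set_option autoImplicit false

namespace Pool.Agent.MPd266dbE

open Finset Pool.Agent.MPd266db Pool.Agent.MPd266dbH

/-! ## Systems with small classes -/

/-- (about 80 lines) **Removing a set of small degrees.**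

Proof.  `od (S \ Z) v ≥ od S v - z` and `≤ od S v`; the same for in-degrees.  If
`|od S v - ρ| ≤ g N` then `|od (S \ Z) v - ρ| ≤ (g + η) N`.  Robustness: `eb Z X Y ≤ z |X|` and
`eb Z (Cl o a \ X) (Cl i a \ Y) ≤ z |Cl o a \ X|`, together at most `z |Cl o a| ≤ η N · N`. -/
def S_BSb : Prop :=
  ∀ (n K z : ℕ) (S Z : Finset (Fin n × Fin n)) (o i : Fin n → Fin K) (N θ ρ g β ν η : ℝ),
    BHyp S o i N θ ρ g β ν → Dg Z z → (z : ℝ) ≤ η * N → 0 ≤ N → 0 ≤ η →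
    BHyp (S \ Z) o i N (θ - η) ρ (g + η) β (ν - η)

/-- (about 150 lines) **Completing a partial matching in one class.**

Proof.  Hall's theorem (`Finset.all_card_le_biUnion_card_iff_exists_injective`) for the index set
`Cl o a \ T` (subtype) and the sets `{w ∈ Cl i a \ H : (v, w) ∈ S}`.  Let `X ⊆ Cl o a \ T` and let `M` be
the union of these sets for `v ∈ X`; suppose `|M| < |X|`.  `X` is nonempty, so
`|M| ≥ θ N - c N ≥ (3/4) θ N`, and `|X| ≥ (3/4) θ N`.  Let `Y = (Cl i a \ H) \ M`, nonempty because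
`|M| < |X| ≤ |Cl i a \ H|`.  There is no arc from `X` to `Y`.  All in-neighbours of an element of `Y`
are in `Cl o a \ X`, so `|Cl o a \ X| ≥ θ N`.  `Cl i a \ Y = M ∪ H`.  By robustness (`β N ≤ (3/4) θ N`)
`ν N² ≤ eb S X Y + eb S (Cl o a \ X) (M ∪ H) ≤ eb S (Cl o a \ X) M + c N²` (in-degrees are at most
`|Cl o a| ≤ N`).  The out-neighbours of `X` are in `M ∪ H`, so
`eb S X M ≥ ∑_{v ∈ X} od v - c N² ≥ ρ |X| - 2 g N² - c N²` (all but `g N` of the `v ∈ X` have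
`od v ≥ ρ - g N`, the others `od v ≥ 0 ≥ ρ - N`, `|X| ≤ N`), and
`eb S X M + eb S (Cl o a \ X) M = ∑_{w ∈ M} idg w ≤ ρ |M| + 2 g N²`.  Together
`(ν - 2c - 4g) N² ≤ ρ (|M| - |X|) < 0`, a contradiction (`ρ ≥ θ N > 0`). -/
def S_HBN : Prop :=
  ∀ (n K : ℕ) (S : Finset (Fin n × Fin n)) (o i : Fin n → Fin K) (N θ ρ g β ν c : ℝ) (a : Fin K)
    (T H : Finset (Fin n)), BHyp S o i N θ ρ g β ν → 0 < N → 0 < θ → 0 ≤ c → 4 * c ≤ θ →
    4 * β ≤ 3 * θ → 2 * c + 4 * g ≤ ν → T ⊆ Cl o a → H ⊆ Cl i a → (T.card : ℝ) ≤ c * N →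
    (H.card : ℝ) ≤ c * N → (Cl o a \ T).card = (Cl i a \ H).card →
    ∃ φ : Fin n → Fin n, (∀ v ∈ Cl o a \ T, φ v ∈ Cl i a \ H ∧ (v, φ v) ∈ S) ∧
      Set.InjOn φ ↑(Cl o a \ T)

/-- (about 100 lines; uses `S_HBN`) **Completing a balanced partial matching.**

Proof.  For every class `a` apply `S_HBN` with `T = Cl o a ∩ tls X`, `H = Cl i a ∩ hds X`; these have at
most `|X| ≤ c N` elements.  Define `σ v` by the arc of `X` with tail `v` if `v ∈ tls X` and by `φ_(o v) v`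
otherwise.  It is injective: values of the first kind are in `hds X`, of the second kind not; two values
of the second kind in different classes `a` are different because they are in different `Cl i a`. -/
def S_Gcm : Prop :=
  ∀ (n K : ℕ) (S X : Finset (Fin n × Fin n)) (o i : Fin n → Fin K) (N θ ρ g β ν c : ℝ),
    BHyp S o i N θ ρ g β ν → 0 < N → 0 < θ → 0 ≤ c → 4 * c ≤ θ → 4 * β ≤ 3 * θ →
    2 * c + 4 * g ≤ ν → (∀ e ∈ X, ∀ e' ∈ X, e.1 = e'.1 → e = e') →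
    (∀ e ∈ X, ∀ e' ∈ X, e.2 = e'.2 → e = e') → Bal o i X → (X.card : ℝ) ≤ c * N →
    ∃ σ : Equiv.Perm (Fin n), (∀ e ∈ X, σ e.1 = e.2) ∧ ∀ v, v ∉ tls X → (v, σ v) ∈ S

/-! ## Tiles -/

/-- among more than `M0` tails (in at most `K0` classes) there are two which have two common
out-neighbours outside a given set `B` of at most `b` vertices -/
def TRc {n K : ℕ} (S : Finset (Fin n × Fin n)) (o : Fin n → Fin K) (M0 K0 : ℕ) (b : ℝ) : Prop :=
  ∀ T B : Finset (Fin n), (T.image o).card ≤ K0 → M0 < T.card → (B.card : ℝ) ≤ b →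
    ∃ x ∈ T, ∃ x' ∈ T, x ≠ x' ∧ o x = o x' ∧ ∃ y y', y ≠ y' ∧ y ∉ B ∧ y' ∉ B ∧
      (x, y) ∈ S ∧ (x, y') ∈ S ∧ (x', y) ∈ S ∧ (x', y') ∈ S

/-- if the tails of a class are divided into two nonempty parts then there are a tail in the first and
a tail in the second part with two common out-neighbours -/
def TEc {n K : ℕ} (S : Finset (Fin n × Fin n)) (o : Fin n → Fin K) : Prop :=
  ∀ (a : Fin K) (T₁ T₂ : Finset (Fin n)), T₁ ∪ T₂ = Cl o a → Disjoint T₁ T₂ → T₁.Nonempty →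
    T₂.Nonempty → ∃ x ∈ T₁, ∃ x' ∈ T₂, ∃ y y', y ≠ y' ∧
      (x, y) ∈ S ∧ (x, y') ∈ S ∧ (x', y) ∈ S ∧ (x', y') ∈ S

/-- (about 100 lines) Proof.  `m = ⌈4/θ⌉₊`, `M0 = K0 m`, `N0 = 2 m³ + 1`.  By the pigeonhole principle
there are `m` different elements `x_1, ..., x_m` of `T` in one class `a`.  Let `A_j` be the set of the
out-neighbours of `x_j` outside `B`, a subset of `Cl i a` with at least `θ N - (θ/2) N` elements;
`∑ |A_j| ≥ 2 N`.  For `y ∈ Cl i a` let `t(y) ≤ m` be the number of the `j` with `y ∈ A_j`;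
`2N ≤ ∑ t(y) ≤ |Cl i a| + m · #{y : t(y) ≥ 2}`, so `#{y : t(y) ≥ 2} ≥ N/m`.  Each of these `y` is in
`A_j ∩ A_j'` for some `j < j'`; some pair occurs for at least `N/m³ > 1` of the `y`, hence for two. -/
def S_TRp : Prop :=
  ∀ (K0 : ℕ) (θ : ℝ), 1 ≤ K0 → 0 < θ → ∃ (M0 : ℕ) (N0 : ℝ), ∀ (n K : ℕ)
    (S : Finset (Fin n × Fin n)) (o i : Fin n → Fin K) (N ρ g β ν : ℝ),
    BHyp S o i N θ ρ g β ν → N0 ≤ N → TRc S o M0 K0 (θ / 2 * N)

/-- (about 150 lines) Proof.  `N0 = max (2/θ²) (2/(θ ν)) + 1`.  Suppose that no `x ∈ T₁`, `x' ∈ T₂` have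
two common out-neighbours.  (1) `|T₁| ≥ θ² N/2`: let `x' ∈ T₂`... precisely, to bound `|T₂|` take `x ∈ T₁`
and `U` its set of out-neighbours, `U ⊆ Cl i a`, `|U| ≥ θ N`.  The number of arcs from `Cl o a` to `U` is
`∑_{y ∈ U} idg y ≥ θ N · θ N`.  Every `x' ∈ T₂` has at most one out-neighbour in `U`, every element of
`T₁` at most `N`.  So `θ² N² ≤ |T₁| N + |T₂| ≤ |T₁| N + N`, `|T₁| ≥ θ² N - 1 ≥ θ² N/2`.  In the same way
(exchange the roles) `|T₂| ≥ θ² N/2`.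
(2) For `y ∈ Cl i a` let `d₁(y)`, `d₂(y)` be the numbers of its in-neighbours in `T₁`, `T₂`;
`d₁ + d₂ = idg y ≥ θ N`.  `∑_y d₁ d₂` is the number of the triples `(x, x', y)`, `x ∈ T₁`, `x' ∈ T₂`, `y` a
common out-neighbour, so it is at most `|T₁| |T₂| ≤ N²`.  As `max(d₁, d₂) ≥ θ N/2`,
`∑_y min(d₁, d₂) ≤ 2 N²/(θ N) = 2 N/θ`.  Let `Y = {y ∈ Cl i a : d₁ ≤ d₂}`, `X = T₁`, `Cl o a \ X = T₂`:
`eb S X Y + eb S (Cl o a \ X) (Cl i a \ Y) = ∑_y min(d₁, d₂) ≤ 2 N/θ`.  As `|X|, |T₂| ≥ θ² N/2 ≥ β N`,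
robustness gives `ν N² ≤ 2 N/θ`, a contradiction for `N ≥ N0`. -/
def S_TEx : Prop :=
  ∀ θ ν : ℝ, 0 < θ → θ ≤ 1 → 0 < ν → ∃ N0 : ℝ, ∀ (n K : ℕ) (S : Finset (Fin n × Fin n))
    (o i : Fin n → Fin K) (N ρ g β : ℝ), BHyp S o i N θ ρ g β ν → 2 * β ≤ θ ^ 2 → N0 ≤ N →
    TEc S o

/-- A set of tiles `q = (x, x', y, y')`: `x ≠ x'` tails of one class in `J`, `y ≠ y'`, all four arcs in
`S`; different tiles have different tails and different heads.  The arcs `x → y`, `x' → y'` will be in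
the permutation, the arcs `x → y'`, `x' → y` are the chords. -/
structure TS {n K : ℕ} (S : Finset (Fin n × Fin n)) (o : Fin n → Fin K) (J : Finset (Fin K))
    (Q : Finset (Fin n × Fin n × Fin n × Fin n)) : Prop where
  cls : ∀ q ∈ Q, o q.1 = o q.2.1 ∧ o q.1 ∈ J
  ne : ∀ q ∈ Q, q.1 ≠ q.2.1 ∧ q.2.2.1 ≠ q.2.2.2
  arc : ∀ q ∈ Q, (q.1, q.2.2.1) ∈ S ∧ (q.2.1, q.2.2.2) ∈ S ∧ (q.1, q.2.2.2) ∈ S ∧
    (q.2.1, q.2.2.1) ∈ S
  dt : ∀ q ∈ Q, ∀ q' ∈ Q, q ≠ q' → q.1 ≠ q'.1 ∧ q.1 ≠ q'.2.1 ∧ q.2.1 ≠ q'.1 ∧ q.2.1 ≠ q'.2.1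
  dh : ∀ q ∈ Q, ∀ q' ∈ Q, q ≠ q' → q.2.2.1 ≠ q'.2.2.1 ∧ q.2.2.1 ≠ q'.2.2.2 ∧
    q.2.2.2 ≠ q'.2.2.1 ∧ q.2.2.2 ≠ q'.2.2.2

/-- (about 150 lines; uses `S_HBN`) **A permutation which contains given tiles.**

Proof.  For `a ∈ J`: `σ` maps `Cl o a` injectively into `Cl i a`, so bijectively (same cardinality);
hence `σ` maps the complement of `ClU o J` onto the complement of `ClU i J`.  Let `T` be the set of the
tails `x, x'` of the tiles in `Cl o a` and `H` the set of their heads `y, y'`; the heads of a tile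
are in the class of its tails (`BHyp.own`), so `|T| = |H| ≤ 2 |Q| ≤ c N`.  `S_HBN` gives `φ_a`.  Define
`σ'` by `x ↦ y`, `x' ↦ y'` on the tiles, `φ_a` on the rest of `Cl o a`, `a ∈ J`, and `σ` outside
`ClU o J`; it is injective. -/
def S_Cmp : Prop :=
  ∀ (n K : ℕ) (S : Finset (Fin n × Fin n)) (o i : Fin n → Fin K) (N θ ρ g β ν c : ℝ)
    (J : Finset (Fin K)) (Q : Finset (Fin n × Fin n × Fin n × Fin n)) (σ : Equiv.Perm (Fin n)),
    BHyp S o i N θ ρ g β ν → 0 < N → 0 < θ → 0 ≤ c → 4 * c ≤ θ → 4 * β ≤ 3 * θ →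
    2 * c + 4 * g ≤ ν → TS S o J Q → 2 * (Q.card : ℝ) ≤ c * N →
    (∀ a ∈ J, (Cl o a).card = (Cl i a).card) → (∀ v ∈ ClU o J, o v = i (σ v)) →
    ∃ σ' : Equiv.Perm (Fin n), (∀ v, v ∉ ClU o J → σ' v = σ v) ∧
      (∀ v ∈ ClU o J, (v, σ' v) ∈ S) ∧ ∀ q ∈ Q, σ' q.1 = q.2.2.1 ∧ σ' q.2.1 = q.2.2.2

/-! ## Labels -/

/-- the elements of `A` whose label is the label of no other element of `A` -/
def Sg {n : ℕ} (A : Finset (Fin n)) (L : Fin n → ℕ) : Finset (Fin n) :=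
  A.filter (fun x => ∀ x' ∈ A, L x' = L x → x' = x)

/-- the labels which occur at least twice on `A` -/
def Bg {n : ℕ} (A : Finset (Fin n)) (L : Fin n → ℕ) : Finset ℕ := (A \ Sg A L).image L

/-- `L'` is the labelling of `A` which we get from `L` by identifying the labels of the two tails of each
tile of `Q` -/
structure Mg {n : ℕ} (A : Finset (Fin n)) (L : Fin n → ℕ)
    (Q : Finset (Fin n × Fin n × Fin n × Fin n)) (L' : Fin n → ℕ) : Prop where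
  co : ∀ x ∈ A, ∀ x' ∈ A, L x = L x' → L' x = L' x'
  gen : ∀ w : Fin n → Prop, (∀ x ∈ A, ∀ x' ∈ A, L x = L x' → (w x ↔ w x')) →
    (∀ q ∈ Q, (w q.1 ↔ w q.2.1)) → ∀ x ∈ A, ∀ x' ∈ A, L' x = L' x' → (w x ↔ w x')

/-- (about 150 lines) **Pairing single labels.**

Proof.  Let `A = ClU o J`.  Among all `Q` with `TS S o J Q`, `|Q| ≤ m` and all tails `q.1, q.2.1` in `Sg A L`
choose one with the largest number of elements (`∅` is one).  Let `T = Sg A L \ {q.1, q.2.1 : q ∈ Q}`;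
`|T| = |Sg A L| - 2 |Q|`.  If `|Q| < m` and `|T| > M0` then `TRc` for `T` and the set `B` of the heads of `Q`
(`|B| ≤ 2 m ≤ b`; `T.image o ⊆ J`) gives a tile which can be added to `Q`, a contradiction.  So `|Q| = m` or
`|T| ≤ M0`.  Define `L' x = L q.1` if `x = q.2.1` for some `q ∈ Q` and `L' x = L x` otherwise.  `co`: if
`L x = L x'`, `x ≠ x'` then `x, x'` are not single, so `L' = L` at both.  `gen`: `L' x = L z` with `z = x` or
`z = q.1`, `x = q.2.1`, and `w x ↔ w z` in both cases; if `L' x = L' x'` then `L z = L z'`, `w z ↔ w z'`.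
`Sg A L' = T`: elements of `T` keep their labels and no other element gets their label; `q.1` and
`q.2.1` have the same label; an element which is not single for `L` shares its label with another
element which is not single, and both keep their labels. -/
def S_StA : Prop :=
  ∀ (n K M0 K0 m : ℕ) (S : Finset (Fin n × Fin n)) (o : Fin n → Fin K) (b : ℝ)
    (J : Finset (Fin K)) (L : Fin n → ℕ), TRc S o M0 K0 b → J.card ≤ K0 → 2 * (m : ℝ) ≤ b →
    ∃ (Q : Finset (Fin n × Fin n × Fin n × Fin n)) (L' : Fin n → ℕ), TS S o J Q ∧ Q.card ≤ m ∧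
      Mg (ClU o J) L Q L' ∧ ((Sg (ClU o J) L').card ≤ M0 ∨
        (Sg (ClU o J) L').card + 2 * m ≤ (Sg (ClU o J) L).card)

/-- (about 200 lines) **Merging large labels.**

Proof.  Let `A = ClU o J`.  Claim for `t ≤ m` by induction on `t`: there are `Q, L'` with `TS S o J Q`,
`|Q| ≤ t`, `Mg A L Q L'`, `Sg A L' = Sg A L`, (`|Bg A L'| ≤ M0` or `|Bg A L'| + t ≤ |Bg A L|`), no tail of `Q`
is in `Sg A L`, and for every `c ∈ Bg A L'` at least two elements `x ∈ A` with `L' x = c` are no tails of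
`Q`.  `t = 0`: `Q = ∅`, `L' = L`.  Step: if `|Bg A L'| ≤ M0` keep everything.  Otherwise choose for every
`c ∈ Bg A L'` an element `u_c ∈ A`, `L' u_c = c`, which is no tail of `Q`, and let `T` be the set of the
`u_c`, `|T| = |Bg A L'| > M0`.  `TRc` (with `B` the set of the heads of `Q`, `|B| ≤ 2 m ≤ b`) gives `c ≠ c'` and
a tile `q = (u_c, u_c', y, y')`.  Add it to `Q` and put `L'' x = c` if `L' x = c'` and `L'' x = L' x`
otherwise.  `Bg A L'' = Bg A L' \ {c'}`; the class of `c` now has at least `2 + 2 - 2` elements which are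
no tails; `Sg` does not change (the label of a single element is not `c'`, and the elements with
`L'' x = c` are not single).  `Mg`: a `w` which is constant on the classes of `L` and on the tiles is
constant on the classes of `L'` by induction, and `w u_c ↔ w u_c'`. -/
def S_StB : Prop :=
  ∀ (n K M0 K0 m : ℕ) (S : Finset (Fin n × Fin n)) (o : Fin n → Fin K) (b : ℝ)
    (J : Finset (Fin K)) (L : Fin n → ℕ), TRc S o M0 K0 b → J.card ≤ K0 → 2 * (m : ℝ) ≤ b →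
    ∃ (Q : Finset (Fin n × Fin n × Fin n × Fin n)) (L' : Fin n → ℕ), TS S o J Q ∧ Q.card ≤ m ∧
      Mg (ClU o J) L Q L' ∧ Sg (ClU o J) L' = Sg (ClU o J) L ∧
      ((Bg (ClU o J) L').card ≤ M0 ∨ (Bg (ClU o J) L').card + m ≤ (Bg (ClU o J) L).card)

/-- (about 80 lines) **Merging two labels of one class.**

Proof.  `T₁ = {x ∈ Cl o a : L x = L x₀}`, `T₂ = Cl o a \ T₁`; `TEc` gives `x ∈ T₁`, `x' ∈ T₂`, `y ≠ y'`;
`x ≠ x'`.  `Q = {(x, x', y, y')}`, `L' z = L x` if `L z = L x'` and `L' z = L z` otherwise.  The label `L x'`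
does not occur in `L'` any more, all labels of `L'` occur in `L`. -/
def S_StC : Prop :=
  ∀ (n K : ℕ) (S : Finset (Fin n × Fin n)) (o : Fin n → Fin K) (J : Finset (Fin K))
    (L : Fin n → ℕ) (a : Fin K) (x₀ x₁ : Fin n), TEc S o → a ∈ J → o x₀ = a → o x₁ = a →
    L x₀ ≠ L x₁ →
    ∃ (Q : Finset (Fin n × Fin n × Fin n × Fin n)) (L' : Fin n → ℕ), TS S o J Q ∧ Q.card ≤ 1 ∧
      Mg (ClU o J) L Q L' ∧
      ((ClU o J).image L').card + 1 ≤ ((ClU o J).image L).card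

/-! ## Runs -/

/-- The state after the gaps `J 0, ..., J (l-1)` (sets of classes) have been treated: `σ` is the current
permutation, `T` the set of the pairs of tails of the tiles, `L` a labelling of the tails of the
gap `J l` such that equal labels are connected. -/
structure RSt {n K : ℕ} (S : Finset (Fin n × Fin n)) (o : Fin n → Fin K)
    (J : ℕ → Finset (Fin K)) (σ0 : Equiv.Perm (Fin n)) (l : ℕ) (σ : Equiv.Perm (Fin n))
    (T : Finset (Fin n × Fin n)) (L : Fin n → ℕ) : Prop where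
  off : ∀ v, (∀ j < l, v ∉ ClU o (J j)) → σ v = σ0 v
  arc : ∀ j < l, ∀ v ∈ ClU o (J j), (v, σ v) ∈ S
  til : ∀ q ∈ T, q.1 ≠ q.2 ∧ (∃ j < l, q.1 ∈ ClU o (J j) ∧ q.2 ∈ ClU o (J j)) ∧
    (q.1, σ q.2) ∈ S ∧ (q.2, σ q.1) ∈ S
  dis : ∀ q ∈ T, ∀ q' ∈ T, q ≠ q' → q.1 ≠ q'.1 ∧ q.1 ≠ q'.2 ∧ q.2 ≠ q'.1 ∧ q.2 ≠ q'.2
  inv : ∀ w : Fin n → Prop, (∀ j < l, ∀ v ∈ ClU o (J j), (w v ↔ w (σ v))) →
    (∀ q ∈ T, (w q.1 ↔ w q.2)) →
    ∀ x ∈ ClU o (J l), ∀ x' ∈ ClU o (J l), L x = L x' → (w x ↔ w x')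

/-- (about 200 lines; uses `S_Cmp`) **One gap of a run.**

Proof.  By `off`, `σ = σ0` on `A := ClU o (J l)` (the `J j` are disjoint), so `o v = i (σ v)` there.
`S_Cmp` (for `σ`, `J l`, `Q`) gives `σ'`.  Let `T' = T ∪ {(q.1, q.2.1) : q ∈ Q}` and `L1 v = L' (σ'⁻¹ v)`.
`σ'` is a bijection from `A` to `ClU i (J l) = ClU o (J (l+1))` (own arcs and equal cardinalities of
the classes).  `off`, `arc`: clear (`σ' = σ` outside `A`).  `til`: for the old pairs `σ'` and `σ` agree at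
`q.1`, `q.2` (they are in `ClU o (J j)`, `j < l`); for the new ones `(q.1, σ' q.2.1) = (q.1, q.2.2.2) ∈ S`,
`(q.2.1, σ' q.1) = (q.2.1, q.2.2.1) ∈ S`.  `dis`: old pairs are outside `A`, new ones in `A`; `TS.dt`.
`inv`: let `w` satisfy the hypotheses for `σ'`, `T'`, `l + 1`.  Then it satisfies those for `σ`, `T`, `l`, so
it is constant on the classes of `L` in `A`, and on the new tiles, hence (`Mg.gen`) on the classes of `L'`
in `A`.  If `v = σ' x`, `v' = σ' x'` (`x, x' ∈ A`) have `L1 v = L1 v'` then `L' x = L' x'`, so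
`w v ↔ w x ↔ w x' ↔ w v'`.  The cardinalities: `σ'` is a bijection from `A` to `ClU o (J (l+1))` which
carries `L'` to `L1`.  The last statement is clear: `L1 (σ' x) = L' x`. -/
def S_Rst : Prop :=
  ∀ (n K l : ℕ) (S : Finset (Fin n × Fin n)) (o i : Fin n → Fin K) (N θ ρ g β ν c : ℝ)
    (J : ℕ → Finset (Fin K)) (Q : Finset (Fin n × Fin n × Fin n × Fin n))
    (σ0 σ : Equiv.Perm (Fin n)) (T : Finset (Fin n × Fin n)) (L L' : Fin n → ℕ),
    BHyp S o i N θ ρ g β ν → 0 < N → 0 < θ → 0 ≤ c → 4 * c ≤ θ → 4 * β ≤ 3 * θ →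
    2 * c + 4 * g ≤ ν → TS S o (J l) Q → 2 * (Q.card : ℝ) ≤ c * N →
    (∀ a ∈ J l, (Cl o a).card = (Cl i a).card) → (∀ v ∈ ClU o (J l), o v = i (σ0 v)) →
    ClU i (J l) = ClU o (J (l + 1)) → (∀ j < l, Disjoint (J j) (J l)) →
    RSt S o J σ0 l σ T L → Mg (ClU o (J l)) L Q L' →
    ∃ (σ' : Equiv.Perm (Fin n)) (T' : Finset (Fin n × Fin n)) (L1 : Fin n → ℕ),
      RSt S o J σ0 (l + 1) σ' T' L1 ∧
      (Sg (ClU o (J (l + 1))) L1).card = (Sg (ClU o (J l)) L').card ∧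
      (Bg (ClU o (J (l + 1))) L1).card = (Bg (ClU o (J l)) L').card ∧
      (ClU o (J (l + 1))).image L1 = (ClU o (J l)).image L' ∧
      ∀ x ∈ ClU o (J l), L1 (σ' x) = L' x ∧ i (σ' x) = o x

/-- (about 250 lines; uses `S_TRp`, `S_TEx`, `S_StA`, `S_StB`, `S_StC`, `S_Rst`) **A run connects a level.**

Proof.  `M0, N1` from `S_TRp`, `N2` from `S_TEx`; `c = min (ν/8) (θ/8)`, `nA = ⌈4 K0/c⌉₊`,
`mt = 2 nA + 4 M0 + 1` (`≥ 1`), `N0 = max (max N1 N2) (8/c)`.  For given `N ≥ N0` let `m = ⌊c N/4⌋₊`, so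
`c N/8 ≤ m ≤ c N/4`; `2 m ≤ c N/2 ≤ (θ/2) N`.  The numerical hypotheses of `S_Rst` hold for `c`
(`2c + 4g ≤ ν/4 + ν/4`, `4 β ≤ 2 θ² ≤ 3 θ`, `0 < N`).
Write `A_l = ClU o (J l)`; `|A_l| ≤ K0 N`.  Start with `σ = σ0`, `T = ∅`, `L v = v` (value of `Fin n`).
(a) gaps `0, ..., nA - 1`: `S_StA` and `S_Rst`.  After `t` gaps `|Sg| ≤ M0` or `|Sg| + 2 m t ≤ K0 N` (if
`|Sg A L| ≤ M0` then `|Sg A L'| ≤ |Sg A L|` or `≤ M0`).  As `2 m nA ≥ K0 N`, after `nA` gaps `|Sg| ≤ M0` (if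
`|Sg| + 2 m nA ≤ K0 N` then `|Sg| = 0`).
(b) gaps `nA, ..., 2 nA - 1`: `S_StB` and `S_Rst`.  `|Sg|` does not change; after `t` gaps `|Bg| ≤ M0` or
`|Bg| + m t ≤ |Bg|_start ≤ K0 N/2` (each large label occurs at least twice); `m nA ≥ K0 N/2`, so at the
end `|Bg| ≤ M0`.  So at most `2 M0` labels occur on `A_(2 nA)` (`|A.image L| ≤ |Sg| + |Bg|`).
(c) `2 M0` times two gaps: in two gaps `l, l+1` the number of labels decreases by at least one if it
is at least `2`.  If some class `a ∈ J l` contains tails with different labels, use `S_StC` and `S_Rst` for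
the gap `l` and no tile (`Q = ∅`, `L' = L`) for the gap `l + 1`.  Otherwise every class `b ∈ J l` has only
one label `λ_b` (if it is nonempty); use no tile for the gap `l`; then all `v ∈ Cl i b` have
`L1 v = λ_b`.  Take `a ∈ J (l+1)` such that `Cl o a ∩ Cl i b` is nonempty for all `b ∈ J l`; at least two
different `λ_b` occur, so there are `x₀, x₁ ∈ Cl o a` with different labels; use `S_StC` for the gap `l + 1`.
If there is at most one label use no tiles.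
(d) the last gap: no tile.  At the end at most one label occurs on `A_mt`, so the conclusion follows
from `inv`. -/
def S_Run : Prop :=
  ∀ (K0 : ℕ) (θ ν : ℝ), 1 ≤ K0 → 0 < θ → θ ≤ 1 → 0 < ν → ∃ (mt : ℕ) (N0 : ℝ), 1 ≤ mt ∧
    ∀ (n K : ℕ) (S : Finset (Fin n × Fin n)) (o i : Fin n → Fin K) (N ρ g β : ℝ)
      (J : ℕ → Finset (Fin K)) (σ0 : Equiv.Perm (Fin n)), BHyp S o i N θ ρ g β ν →
      16 * g ≤ ν → 2 * β ≤ θ ^ 2 → N0 ≤ N → (∀ l ≤ mt, (J l).card ≤ K0) →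
      (∀ l < mt, ClU i (J l) = ClU o (J (l + 1))) →
      (∀ l ≤ mt, ∀ l' ≤ mt, l ≠ l' → Disjoint (J l) (J l')) →
      (∀ l < mt, ∀ a ∈ J l, (Cl o a).card = (Cl i a).card) →
      (∀ l < mt, ∃ a ∈ J (l + 1), ∀ b ∈ J l, (Cl o a ∩ Cl i b).Nonempty) →
      (∀ l < mt, ∀ v ∈ ClU o (J l), o v = i (σ0 v)) →
      ∃ (σ : Equiv.Perm (Fin n)) (T : Finset (Fin n × Fin n)),
        (∀ v, (∀ j < mt, v ∉ ClU o (J j)) → σ v = σ0 v) ∧
        (∀ j < mt, ∀ v ∈ ClU o (J j), (v, σ v) ∈ S) ∧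
        (∀ q ∈ T, q.1 ≠ q.2 ∧ (∃ j < mt, q.1 ∈ ClU o (J j) ∧ q.2 ∈ ClU o (J j)) ∧
          (q.1, σ q.2) ∈ S ∧ (q.2, σ q.1) ∈ S) ∧
        (∀ q ∈ T, ∀ q' ∈ T, q ≠ q' → q.1 ≠ q'.1 ∧ q.1 ≠ q'.2 ∧ q.2 ≠ q'.1 ∧ q.2 ≠ q'.2) ∧
        ∀ w : Fin n → Prop, (∀ j < mt, ∀ v ∈ ClU o (J j), (w v ↔ w (σ v))) →
          (∀ q ∈ T, (w q.1 ↔ w q.2)) → ∀ x ∈ ClU o (J mt), ∀ x' ∈ ClU o (J mt), (w x ↔ w x')

/-! ## Levels, winding permutations -/

/-- The levels are `0, ..., e` and the exceptional level `e + 1`.  The gap of a vertex as a tail. -/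
def tgp {n : ℕ} (e : ℕ) (lv : Fin n → ℕ) (v : Fin n) : ℕ := min (lv v) e

/-- the gap of a vertex as a head -/
def hgp {n : ℕ} (e : ℕ) (lv : Fin n → ℕ) (v : Fin n) : ℕ := if lv v = 0 then e else lv v - 1

/-- the pair `(u, v)` is winding: from a level to the next one, from the level `e` to `0` or `e + 1`,
from `e + 1` to `0` -/
def Wd {n : ℕ} (e : ℕ) (lv : Fin n → ℕ) (u v : Fin n) : Prop :=
  tgp e lv u = hgp e lv v ∧ ¬ (lv u = e + 1 ∧ lv v = e + 1)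

/-- the box (gap and class) of a vertex as a tail -/
def bxo {n K : ℕ} (e : ℕ) (lv : Fin n → ℕ) (o : Fin n → Fin K) (v : Fin n) : Fin ((e + 1) * K) :=
  finProdFinEquiv (Fin.ofNat (e + 1) (tgp e lv v), o v)

/-- the box of a vertex as a head -/
def bxi {n K : ℕ} (e : ℕ) (lv : Fin n → ℕ) (i : Fin n → Fin K) (v : Fin n) : Fin ((e + 1) * K) :=
  finProdFinEquiv (Fin.ofNat (e + 1) (hgp e lv v), i v)

theorem tgp_le {n : ℕ} (e : ℕ) (lv : Fin n → ℕ) (v : Fin n) : tgp e lv v ≤ e := min_le_right _ _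

theorem hgp_le {n : ℕ} {e : ℕ} {lv : Fin n → ℕ} {v : Fin n} (h : lv v ≤ e + 1) :
    hgp e lv v ≤ e := by
  unfold hgp
  split_ifs <;> omega

theorem bxo_eq_bxi {n K : ℕ} {e : ℕ} {lv : Fin n → ℕ} {o i : Fin n → Fin K} {u v : Fin n}
    (h : lv v ≤ e + 1) : bxo e lv o u = bxi e lv i v ↔ (tgp e lv u = hgp e lv v ∧ o u = i v) := by
  have h1 := tgp_le e lv u
  have h2 := hgp_le (e := e) (lv := lv) (v := v) h
  unfold bxo bxi
  rw [finProdFinEquiv.apply_eq_iff_eq, Prod.mk.injEq, Fin.ext_iff]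
  simp only [Fin.ofNat]
  rw [Nat.mod_eq_of_lt (Nat.lt_succ_of_le h1), Nat.mod_eq_of_lt (Nat.lt_succ_of_le h2)]

/-- the levels are balanced, and one class `a` of tails meets all classes of heads in every level -/
structure Lv {n K : ℕ} (e : ℕ) (o i : Fin n → Fin K) (lv : Fin n → ℕ) : Prop where
  le : ∀ v, lv v ≤ e + 1
  bal : ∀ l ≤ e, ∀ l' ≤ e, ∀ a, (univ.filter (fun v => lv v = l ∧ o v = a)).card =
    (univ.filter (fun v => lv v = l' ∧ i v = a)).card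
  typ : ∃ a, ∀ l ≤ e, ∀ b, ∃ v, lv v = l ∧ o v = a ∧ i v = b

/-- (about 150 lines) **Going around.**

Proof.  For a level `l ≤ e` let `pos l = (l + (e - j)) % (e + 1)`, so `pos j = e` and `pos (j+1) = 0` if
`j < e`, `pos 0 = 0` if `j = e`.  (Forward) let `lv v = l ≤ e`, `l ≠ j`.  Then there is `v''` with
`w v ↔ w v''`, `lv v'' ≤ e`, `pos (lv v'') = pos l + 1`: `tgp v = l ≠ j`, so `w v ↔ w (σ v)`.  If `l < e` then
`hgp (σ v) = l`, so `lv (σ v) = l + 1`.  If `l = e` then `lv (σ v)` is `0` or `e + 1`; in the second case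
`tgp (σ v) = e ≠ j` and `lv (σ (σ v)) = 0` (`Wd` excludes `e + 1` after `e + 1`), take `v'' = σ (σ v)`.
(Backward) let `lv v = l ≤ e` with `pos l ≠ 0`; let `u = σ⁻¹ v`, `tgp u = hgp v` is `l - 1` (or `e` if `l = 0`)
and this is `≠ j` because `pos l ≠ 0`; so `w u ↔ w v`.  If `lv u = e + 1` then `hgp u = e`; let `u' = σ⁻¹ u`,
`tgp u' = e`, `lv u' ≠ e + 1`, so `lv u' = e`, and `w u' ↔ w u`.  We get a vertex with `pos` smaller by one.
By induction, every `v` with `lv v ≤ e` is connected in this way with some vertex of level `s`. -/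
def S_FoC : Prop :=
  ∀ (n e j s : ℕ) (lv : Fin n → ℕ) (σ : Equiv.Perm (Fin n)) (w : Fin n → Prop),
    (∀ v, lv v ≤ e + 1) → (∀ v, Wd e lv v (σ v)) → j ≤ e → s ≤ e →
    (∀ v, tgp e lv v ≠ j → (w v ↔ w (σ v))) →
    (∀ x x', lv x = s → lv x' = s → (w x ↔ w x')) →
    ∀ v v', lv v ≤ e → lv v' ≤ e → (w v ↔ w v')

/-- An object for the gap `j`: a winding permutation `σ` with arcs in `S` (and `X`), and a set `T` of pairs
of tails of tiles, such that the arcs of `σ` outside the gap `j` together with the tiles connect all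
vertices of the levels `0, ..., e`. -/
structure FOb {n : ℕ} (e : ℕ) (lv : Fin n → ℕ) (S X : Finset (Fin n × Fin n)) (j : ℕ)
    (σ : Equiv.Perm (Fin n)) (T : Finset (Fin n × Fin n)) : Prop where
  wn : ∀ v, Wd e lv v (σ v)
  ax : ∀ q ∈ X, σ q.1 = q.2
  ar : ∀ v, v ∉ tls X → (v, σ v) ∈ S
  tne : ∀ q ∈ T, q.1 ≠ q.2
  tc : ∀ q ∈ T, (q.1, σ q.2) ∈ S ∧ (q.2, σ q.1) ∈ S
  tl : ∀ q ∈ T, lv q.1 = lv q.2 ∧ 1 ≤ lv q.1 ∧ lv q.1 + 1 < e ∧ lv q.1 ≠ j
  td : ∀ q ∈ T, ∀ q' ∈ T, q ≠ q' → q.1 ≠ q'.1 ∧ q.1 ≠ q'.2 ∧ q.2 ≠ q'.1 ∧ q.2 ≠ q'.2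
  con : ∀ w : Fin n → Prop, (∀ v, tgp e lv v ≠ j → (w v ↔ w (σ v))) →
    (∀ q ∈ T, (w q.1 ↔ w q.2)) → ∀ v v', lv v ≤ e → lv v' ≤ e → (w v ↔ w v')

/-- (about 250 lines; uses `S_Gcm`, `S_Run`, `S_FoC`) **Objects exist.**

Proof.  `mt`, `N1` from `S_Run`, `c = min (ν/8) (θ/8)`, `N0 = max N1 1`.  Let `O' = bxo e lv o`,
`I' = bxi e lv i`.  An arc `(u, v) ∈ S` has `O' u = I' v`, so `tgp u = hgp v`, and it does not go from the
level `e + 1` to itself: it is winding.  `S_Gcm` (`|X| ≤ c N`, `Bal O' I' X`) gives `σ0` with `σ0 q.1 = q.2`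
for `q ∈ X` and all other arcs in `S`; all arcs of `σ0` are winding.
Let `s = 1` if `j` is not in `{1, ..., mt}` and `s = mt + 2` otherwise; the gaps `s, ..., s + mt - 1` are
different from `j`, and `s + mt < e` (`2 mt + 3 ≤ e`).  Let `J l` be the set of the boxes
`finProdFinEquiv (s + l, a)`, `a : Fin K` (at most `K ≤ K0` of them).  For `l ≤ mt`: `ClU O' (J l)` is the set
of the `v` with `tgp v = s + l`, i.e. `lv v = s + l` (as `s + l < e`); for `l < mt`, `ClU I' (J l)` is the set of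
the `v` with `hgp v = s + l`, i.e. `lv v = s + l + 1`.  So `ClU I' (J l) = ClU O' (J (l+1))`.  The `J l` are
disjoint.  `|Cl O' (s+l, a)| = #{v : lv v = s + l, o v = a} = #{v : lv v = s + l + 1, i v = a} =
|Cl I' (s+l, a)|` by `Lv.bal`.  The types: `Lv.typ` for the level `s + l + 1`.  For `v ∈ ClU O' (J l)`, `v` is no
tail of `X` (tails of `X` have gap `e`), so `(v, σ0 v) ∈ S` and `O' v = I' (σ0 v)`.
`S_Run` gives `σ`, `T`.  `wn`: arcs in `S` or arcs of `σ0`.  `ax`, `ar`: clear.  `tl`: the tails of a tile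
are in one `ClU O' (J l)`, `l < mt`, so their level is `s + l`, `1 ≤ s + l`, `s + l + 1 ≤ s + mt < e`, `s + l ≠ j`.
`con`: by `S_Run` `w` is constant on the level `s + mt`; use `S_FoC` for the level `s + mt`. -/
def S_Fob : Prop :=
  ∀ (K0 : ℕ) (θ ν : ℝ), 1 ≤ K0 → 0 < θ → θ ≤ 1 → 0 < ν → ∃ (mt : ℕ) (c N0 : ℝ), 1 ≤ mt ∧
    0 < c ∧ ∀ (n K e j : ℕ) (S X : Finset (Fin n × Fin n)) (o i : Fin n → Fin K)
      (lv : Fin n → ℕ) (N ρ g β : ℝ), K ≤ K0 → 2 * mt + 3 ≤ e → j ≤ e → Lv e o i lv →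
      (∀ q ∈ S, ¬ (lv q.1 = e + 1 ∧ lv q.2 = e + 1)) →
      BHyp S (bxo e lv o) (bxi e lv i) N θ ρ g β ν → 16 * g ≤ ν → 2 * β ≤ θ ^ 2 → N0 ≤ N →
      VD X → (∀ q ∈ X, Wd e lv q.1 q.2 ∧ tgp e lv q.1 = e) →
      Bal (bxo e lv o) (bxi e lv i) X → (X.card : ℝ) ≤ c * N →
      ∃ (σ : Equiv.Perm (Fin n)) (T : Finset (Fin n × Fin n)), FOb e lv S X j σ T

end Pool.Agent.MPd266dbE
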