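import Pool.Agent.Lib.MP_d266db_co.E.SpecB
import Pool.Agent.Lib.MP_d266db_co.E.SpecC

/-!
# MP_d266db_co, E, SpecD: the absorber

Every `S_...` is a statement to be proved in its own file `Pool/Agent/Lib/MP_d266db_co/E/....lean`;
the docstring contains the complete proof.
-/

set_option autoImplicit false

namespace Pool.Agent.MPd266dbE

open Finset Pool.Agent.MPd266db Pool.Agent.MPd266dbH

/-! ## Colourings and disjoint arcs -/

/-- (about 120 lines) **Greedy colouring with conflicts and loads.**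

Proof by induction on `U`.  Let `u` be a new element and `col` a colouring of the others.  A colour is
blocked if it is the colour of some `u'` with `Cf u u'` (at most `D` colours) or if for some `s : Fin c`
its load `∑ w s` is at least `t s`; as the sum of the loads of all colours is at most `tot s`, for given
`s` at most `tot s / t s` colours are blocked in this way.  So some colour is not blocked.  Its load was
at most `t s - 1`, the new load is at most `t s - 1 + w s u ≤ C s`. -/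
def S_Gdy : Prop :=
  ∀ (α : Type) [DecidableEq α] (U : Finset α) (Cf : α → α → Prop) [DecidableRel Cf] (D h c : ℕ)
    (w : Fin c → α → ℕ) (C t tot : Fin c → ℕ), (∀ u u', Cf u u' → Cf u' u) →
    (∀ u ∈ U, (U.filter (fun u' => Cf u u')).card ≤ D) → (∀ s, 1 ≤ t s) →
    (∀ s, ∀ u ∈ U, t s + w s u ≤ C s + 1) → (∀ s, ∑ u ∈ U, w s u ≤ tot s) →
    D + ∑ s, tot s / t s < h →
    ∃ col : α → Fin h, (∀ u ∈ U, ∀ u' ∈ U, u ≠ u' → Cf u u' → col u ≠ col u') ∧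
      ∀ s c', ∑ u ∈ U.filter (fun u => col u = c'), w s u ≤ C s

/-- (about 80 lines) **Vertex-disjoint arcs.**

Proof.  Let `X'` be the set of the `q ∈ X \ U` with `q.1 ∉ V`, `q.2 ∉ V`;
`|X'| ≥ |X| - |U| - ∑_{v ∈ V} (od X v + idg X v) ≥ 4 Δ p`.  Claim for `m ≤ p` by induction: there is
`P ⊆ X'` with `VD P`, `|P| = m`.  Step `m < p`: every vertex is in at most `2 Δ` arcs of `X`, `P` has at most
`2 m` vertices, so at most `4 Δ m < 4 Δ p ≤ |X'|` arcs of `X'` have a vertex in common with `P`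
(`1 ≤ Δ`); add another arc (it has no loop). -/
def S_XPk : Prop :=
  ∀ (n p Δ : ℕ) (X U : Finset (Fin n × Fin n)) (V : Finset (Fin n)), (∀ q ∈ X, q.1 ≠ q.2) →
    Dg X Δ → 1 ≤ Δ → U.card + ∑ v ∈ V, (od X v + idg X v) + 4 * Δ * p ≤ X.card →
    ∃ P ⊆ X \ U, VD P ∧ P.card = p ∧ ∀ q ∈ P, q.1 ∉ V ∧ q.2 ∉ V

/-- `XL` is a set of cross arcs of one type; removing the tails and the heads of `p` of them balances the
classes (`χo`, `χi` are the indicator functions of the class of their tails and of their heads).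
If `p = 0` then the classes are balanced; `XL` may be empty. -/
structure PX {n K : ℕ} (o i : Fin n → Fin K) (p : ℕ) (χo χi : Fin K → ℕ)
    (XL : Finset (Fin n × Fin n)) : Prop where
  sz : ∀ a, (Cl o a).card + p * χi a = (Cl i a).card + p * χo a
  tl : ∀ q ∈ XL, ∀ a, (if o q.1 = a then 1 else 0) = χo a
  hd : ∀ q ∈ XL, ∀ a, (if i q.2 = a then 1 else 0) = χi a
  ne : ∀ q ∈ XL, o q.1 ≠ i q.2

/-- (about 100 lines) **Balance.**

Proof.  First statement.  `tls X ∩ Cl o a` has `p χo a` elements (`|tls X| = |X| = p` as the tails are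
different; by `tl` all of them or none are in `Cl o a`), in the same way `hds X ∩ Cl i a` has `p χi a`
elements.  So `|Cl o a \ tls X| = |Cl o a| - p χo a = |Cl i a| - p χi a = |Cl i a \ hds X|` (`sz`; the
subtracted numbers are at most the minuends).
Second statement.  Let the box be `finProdFinEquiv (l, a)`, `l ≤ e` (every element of `Fin ((e+1) K)` is of
this form; `(l : Fin (e+1))`).  If `l < e`: the `v` with `tgp v = l` are those with `lv v = l`, the `v` with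
`hgp v = l` are those with `lv v = l + 1`; no tail of `X` has level `l` and no head of `X` has level
`l + 1`; by `Lv.bal` the numbers are equal.  If `l = e`: the set of the tails is `Cl o a` without the `v` with
`lv v < e`; its number of elements is `|Cl o a| - e c_a`, where `c_a` is the common number in `Lv.bal`; the set
of the heads is `Cl i a` without the `v` with `1 ≤ lv v ≤ e`; it has `|Cl i a| - e c_a` elements.  Removing
the tails resp. heads of `X` (all tails have level `e`, all heads have level `0`) and the first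
statement give the claim. -/
def S_PXb : Prop :=
  ∀ (n K p : ℕ) (o i : Fin n → Fin K) (χo χi : Fin K → ℕ) (XL X : Finset (Fin n × Fin n)),
    PX o i p χo χi XL → X ⊆ XL → VD X → X.card = p → Bal o i X ∧
      ∀ (e : ℕ) (lv : Fin n → ℕ), Lv e o i lv → 1 ≤ e → (∀ q ∈ X, lv q.1 = e ∧ lv q.2 = 0) →
        Bal (bxo e lv o) (bxi e lv i) X

/-! ## Objects -/

instance {n : ℕ} (e : ℕ) (lv : Fin n → ℕ) (u v : Fin n) : Decidable (Wd e lv u v) := by
  unfold Wd; infer_instance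

/-- the winding arcs of `S` -/
def wnd {n : ℕ} (e : ℕ) (lv : Fin n → ℕ) (S : Finset (Fin n × Fin n)) : Finset (Fin n × Fin n) :=
  S.filter (fun q => Wd e lv q.1 q.2)

/-- the reserved arcs of an object of the gap `j`: the arcs of `σ` outside the gap `j` and the chords -/
def oarc {n : ℕ} (e : ℕ) (lv : Fin n → ℕ) (j : ℕ) (σ : Equiv.Perm (Fin n))
    (T : Finset (Fin n × Fin n)) : Finset (Fin n × Fin n) :=
  (univ.filter (fun v => tgp e lv v ≠ j)).image (fun v => (v, σ v)) ∪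
    (T.image (fun q => (q.1, σ q.2)) ∪ T.image (fun q => (q.2, σ q.1)))

/-- objects exist after removing any set of degrees at most `z` -/
def ObjP {n : ℕ} (e : ℕ) (lv : Fin n → ℕ) (S Xe : Finset (Fin n × Fin n)) (p z : ℕ) : Prop :=
  ∀ Z : Finset (Fin n × Fin n), Dg Z z → ∀ j ≤ e, ∀ X ⊆ Xe, VD X → X.card = p →
    ∃ (σ : Equiv.Perm (Fin n)) (T : Finset (Fin n × Fin n)), FOb e lv (S \ Z) X j σ T

/-- (about 100 lines; uses `S_BSb`, `S_Fob`, `S_PXb`) **The objects of a system.**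

Proof.  `mt, c, N0` from `S_Fob` for `K0`, `θ/2`, `ν/2`; take `max N0 1`.  Let `Dg Z z`, `η = z/N`: `η ≤ θ/2`,
`64 η ≤ ν`.  `S_BSb` gives `BHyp` for `S \ Z` with `θ - η ≥ θ/2`, `g + η`, `ν - η ≥ ν/2`, and `BHyp` is monotone
in these numbers.  `16 (g + η) ≤ ν/4 + ν/4 = ν/2`, `2 β ≤ (θ/2)²`.  The arcs of `X` go from the level `e` to
the level `0`: `tgp = e = hgp` and they are winding.  `Bal` is `S_PXb`. -/
def S_FbP : Prop :=
  ∀ (K0 : ℕ) (θ ν : ℝ), 1 ≤ K0 → 0 < θ → θ ≤ 1 → 0 < ν → ∃ (mt : ℕ) (c N0 : ℝ), 1 ≤ mt ∧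
    0 < c ∧ ∀ (n K e p z : ℕ) (S Xe : Finset (Fin n × Fin n)) (o i : Fin n → Fin K)
      (χo χi : Fin K → ℕ) (lv : Fin n → ℕ) (N ρ g β : ℝ), K ≤ K0 → 2 * mt + 3 ≤ e →
      Lv e o i lv → (∀ q ∈ S, ¬ (lv q.1 = e + 1 ∧ lv q.2 = e + 1)) →
      BHyp S (bxo e lv o) (bxi e lv i) N θ ρ g β ν → 64 * g ≤ ν → 8 * β ≤ θ ^ 2 → N0 ≤ N →
      64 * (z : ℝ) ≤ ν * N → 2 * (z : ℝ) ≤ θ * N → PX o i p χo χi Xe →
      (∀ q ∈ Xe, lv q.1 = e ∧ lv q.2 = 0) → (p : ℝ) ≤ c * N → ObjP e lv S Xe p z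

/-- (about 200 lines; uses `S_XPk`) **Many objects.**

Proof by induction on `mF` (use the induction hypothesis for `jj` restricted to the first `mF` indices,
`Fin.castSucc`, and extend by `Fin.snoc` or `Fin.lastCases`).  Let `Z` be the union of `Z0` and of the
`oarc`s of the objects which we have already and `U` the union of `U0` and of their `X f`.  Every `oarc` has
degrees at most `2`: a vertex `v` is the tail of at most one arc `(v, σ v)` and of at most one chord (`v` is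
in at most one tile, and `q.1 ≠ q.2`), and the same holds for the heads (look at `σ⁻¹ w`).  So `Dg Z z`.
`S_XPk` (`V = ∅`) gives `X ⊆ Xe \ U`, and `ObjP` gives `σ, T` with `FOb` for `S \ Z`, hence also for `S \ Z0`.
Disjointness: an arc of the new `oarc` is in `S \ Z` or (if its tail is a tail of `X`, by `ax`) in `X`.  The old
`oarc`s are subsets of `Z`, and their arcs are in `S` or in the old `X f`; `X` is disjoint from `S` and from
the old `X f`. -/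
def S_Obj : Prop :=
  ∀ (n e mF p Δ z0 z : ℕ) (lv : Fin n → ℕ) (S Xe U0 Z0 : Finset (Fin n × Fin n))
    (jj : Fin mF → ℕ), ObjP e lv S Xe p z → Dg Z0 z0 → z0 + 2 * mF ≤ z → (∀ f, jj f ≤ e) →
    Disjoint S Xe → (∀ q ∈ Xe, q.1 ≠ q.2) → Dg Xe Δ → 1 ≤ Δ → U0 ⊆ Xe →
    U0.card + mF * p + 4 * Δ * p ≤ Xe.card →
    ∃ (X : Fin mF → Finset (Fin n × Fin n)) (σ : Fin mF → Equiv.Perm (Fin n))
      (T : Fin mF → Finset (Fin n × Fin n)),
      (∀ f, X f ⊆ Xe \ U0 ∧ VD (X f) ∧ (X f).card = p ∧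
        FOb e lv (S \ Z0) (X f) (jj f) (σ f) (T f) ∧
        Dg (oarc e lv (jj f) (σ f) (T f)) 2) ∧
      (∀ f f', f ≠ f' → Disjoint (X f) (X f')) ∧
      ∀ f f', f ≠ f' → Disjoint (oarc e lv (jj f) (σ f) (T f)) (oarc e lv (jj f') (σ f') (T f'))

/-- (about 80 lines; uses `S_Gdy`) **Colouring the tiles of an object.**

Proof.  `S_Gdy` for `U = T`, `Cf t t'` iff a component of one of `t, t'` is the `σ`-image of a component of the
other (symmetric), `D = 4` (for given `t`: each of `σ⁻¹ t.1`, `σ⁻¹ t.2`, `σ t.1`, `σ t.2` is in at most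
one tile), `c = 1`, `w = 1`, `C = t = Mx`, `tot = |T|`; `2 |T| ≤ n` because all components are different; so
`|T| / Mx ≤ n / (2 Mx)`. -/
def S_TCl : Prop :=
  ∀ (n Mx q : ℕ) (T : Finset (Fin n × Fin n)) (σ : Equiv.Perm (Fin n)), (∀ t ∈ T, t.1 ≠ t.2) →
    (∀ t ∈ T, ∀ t' ∈ T, t ≠ t' → t.1 ≠ t'.1 ∧ t.1 ≠ t'.2 ∧ t.2 ≠ t'.1 ∧ t.2 ≠ t'.2) → 1 ≤ Mx →
    4 + n / (2 * Mx) < q →
    ∃ col : Fin n × Fin n → Fin q, (∀ c, (T.filter (fun t => col t = c)).card ≤ Mx) ∧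
      ∀ t ∈ T, ∀ t' ∈ T, t ≠ t' → col t = col t' →
        t.1 ≠ σ t'.1 ∧ t.1 ≠ σ t'.2 ∧ t.2 ≠ σ t'.1 ∧ t.2 ≠ σ t'.2

/-! ## Switches -/

/-- (about 200 lines) **Switches only exchange arcs.**  The switch `t` exchanges the values at `x t` and
`x' t` of the permutations `Φ0 c` with `ρ t c ≠ c`.

Proof by induction on `A`.  Let `Φ_A`, `τ_c` be given and let `t` be a new switch, `x = x t`, `x' = x' t`,
`ρ = ρ t`.  Put `Φ c = Φ_A c * swap x x'` if `ρ c ≠ c` and `Φ c = Φ_A c` otherwise; `τ' = τ_c * swap x x'` resp.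
`τ_c`.  `Tog`: for `c` with `ρ c ≠ c` the pairs of the other switches `t' ∈ A` with `ρ t' c ≠ c` do not contain
`x`, `x'`; so `τ_c x = x`, `τ_c x' = x'`, and `τ'` exchanges `x` and `x'` and agrees with `τ_c` on all other
vertices.  The second statement: note that `ρ c ≠ c` implies `ρ (ρ c) ≠ ρ c`.  If `v = x` and `ρ c ≠ c` then
`Φ c x = Φ_A c x' = Φ0 c x' = Φ0 (ρ c) x = Φ_A (ρ c) x`; so `Φ c x = Φ_A (ρ c) x` for all `c`, and if `ψ` is
the permutation for `Φ_A` and `x` then `Φ c x = Φ0 (ψ (ρ c)) x`.  If `v = x'` and `ρ c ≠ c`, let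
`c' = ρ⁻¹ c`; `ρ c' ≠ c'` and `Φ c x' = Φ_A c x = Φ0 c x = Φ0 (ρ c') x = Φ0 c' x' = Φ_A c' x'`; so
`Φ c x' = Φ_A (ρ⁻¹ c) x'` for all `c`.  For other `v` nothing changes. -/
def S_Tgl : Prop :=
  ∀ (n : ℕ) (ι κ : Type) [DecidableEq ι] [DecidableEq κ] (A : Finset κ) (x x' : κ → Fin n)
    (ρ : κ → Equiv.Perm ι) (Φ0 : ι → Equiv.Perm (Fin n)), (∀ t ∈ A, x t ≠ x' t) →
    (∀ t ∈ A, ∀ c, ρ t c ≠ c → Φ0 c (x' t) = Φ0 (ρ t c) (x t)) →
    (∀ t ∈ A, ∀ t' ∈ A, t ≠ t' → ∀ c, ρ t c ≠ c → ρ t' c ≠ c →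
      x t ≠ x t' ∧ x t ≠ x' t' ∧ x' t ≠ x t' ∧ x' t ≠ x' t') →
    ∃ Φ : ι → Equiv.Perm (Fin n),
      (∀ c, ∃ τ : Equiv.Perm (Fin n), Φ c = Φ0 c * τ ∧
        Tog ((A.filter (fun t => ρ t c ≠ c)).image (fun t => (x t, x' t))) τ) ∧
      ∀ v, ∃ ψ : Equiv.Perm ι, ∀ c, Φ c v = Φ0 (ψ c) v

/-- (about 60 lines) **Parities.**

Proof.  `z` is true iff `∑_{g < G} a g` is odd; `b g = a g + 1` if `g < 3` and `z`, `b g = a g` otherwise, so
`∑_{g < G} b g` is even (`3 ≤ G`).  `l g` is true iff `∑_{g' ≤ g} b g'` is odd.  For `g + 1 < G` the number is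
`b g + [l g] + [l (g-1)] ≡ b g + ∑_{g' ≤ g} b g' + ∑_{g' < g} b g'`, which is even; for `g + 1 = G` it is
`b g + [l (g-1)] ≡ ∑_{g' < G} b g'`. -/
def S_Pfx : Prop :=
  ∀ (G : ℕ) (a : ℕ → ℕ), 3 ≤ G → ∃ (z : Bool) (l : ℕ → Bool), ∀ g < G,
    Even (a g + (if g < 3 ∧ z = true then 1 else 0) + (if g + 1 < G ∧ l g = true then 1 else 0) +
      (if 1 ≤ g ∧ l (g - 1) = true then 1 else 0))

/-- (about 150 lines; uses `S_Mer`) **Switching the tiles of an object.**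

Proof.  For every `E ⊆ T` there is `τ` with `Tog E τ` (the pairs are disjoint; induction on `E`, product of
transpositions).  Among all `(E, τ)` with `E ⊆ T`, `Tog E τ` choose one with the smallest `cyc (F * τ)`;
let `Ψ = F * τ`.  (1) `Ψ.SameCycle t.1 t.2` for all `t ∈ T`: otherwise `S_Mer` gives
`cyc (Ψ * swap t.1 t.2) < cyc Ψ`, and `τ * swap t.1 t.2` belongs to `insert t E` if `t ∉ E` and to
`E.erase t` if `t ∈ E` (the pairs are disjoint).  (2) Let `v₀` be a vertex with `lv v₀ ≤ e` and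
`w v :⟺ Ψ.SameCycle v₀ v`.  Let `tgp v ≠ j`.  If `v` is in no pair of `E` then `Ψ v = F v = σ v`, so
`w v ↔ w (σ v)`.  If `v = t.1`, `t ∈ E`, then `Ψ t.2 = F t.1 = σ v`, so `w (σ v) ↔ w t.2 ↔ w t.1` by (1); the
same for `v = t.2`.  By `FOb.con` all vertices of level `≤ e` are in the cycle of `v₀`.  (3) A vertex `v` with
`lv v = e + 1` is in no tile (`tl`), so `Ψ v = F v`, and `Wd v (F v)` shows that `lv (F v) = 0`; so `v` is in
the same cycle as a vertex of level `0`.  (If there is no vertex of level `≤ e` then there is no vertex at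
all by the last argument.) -/
def S_Mcy : Prop :=
  ∀ (n e j : ℕ) (lv : Fin n → ℕ) (S X T : Finset (Fin n × Fin n)) (σ F : Equiv.Perm (Fin n)),
    FOb e lv S X j σ T → (∀ v, lv v ≤ e + 1) → (∀ v, Wd e lv v (F v)) →
    (∀ v, tgp e lv v ≠ j → F v = σ v) →
    ∃ E ⊆ T, ∃ τ : Equiv.Perm (Fin n), Tog E τ ∧ Ham (F * τ)

/-- the pairs `t`, `t'` have no common vertex -/
def PD {n : ℕ} (t t' : Fin n × Fin n) : Prop :=
  t.1 ≠ t'.1 ∧ t.1 ≠ t'.2 ∧ t.2 ≠ t'.1 ∧ t.2 ≠ t'.2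

/-- the switches of the partner `g`: the tiles of the object `f` with the colour `c` if
`g = finProdFinEquiv (f, c)`, the links `g` and `g - 1`, and the pair `pp` if `g < 3` -/
def PPs {n mF q : ℕ} (T : Fin mF → Finset (Fin n × Fin n))
    (col : Fin mF → Fin n × Fin n → Fin q) (lp : ℕ → Fin n × Fin n) (pp : Fin n × Fin n)
    (g : Fin (mF * q)) : Finset (Fin n × Fin n) :=
  ((T (finProdFinEquiv.symm g).1).filter
    (fun t => col (finProdFinEquiv.symm g).1 t = (finProdFinEquiv.symm g).2)) ∪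
  ((if (g : ℕ) + 1 < mF * q then {lp g} else ∅) ∪ ((if 1 ≤ (g : ℕ) then {lp (g - 1)} else ∅) ∪
    (if (g : ℕ) < 3 then {pp} else ∅)))

/-- the properties of the partners `π` of the objects `σ`, `T` -/
structure Prt {n mF q : ℕ} (σ : Fin mF → Equiv.Perm (Fin n))
    (T : Fin mF → Finset (Fin n × Fin n)) (col : Fin mF → Fin n × Fin n → Fin q)
    (π : Fin (mF * q) → Equiv.Perm (Fin n)) (lp : ℕ → Fin n × Fin n) (pp : Fin n × Fin n) :
    Prop where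
  tl : ∀ f, ∀ t ∈ T f, π (finProdFinEquiv (f, col f t)) t.1 = σ f t.2 ∧
    π (finProdFinEquiv (f, col f t)) t.2 = σ f t.1
  lk : ∀ g g' : Fin (mF * q), (g' : ℕ) = g + 1 →
    π g' (lp g).1 = π g (lp g).2 ∧ π g' (lp g).2 = π g (lp g).1
  pa : ∀ g0 g1 g2 : Fin (mF * q), (g0 : ℕ) = 0 → (g1 : ℕ) = 1 → (g2 : ℕ) = 2 →
    π g1 pp.1 = π g0 pp.2 ∧ π g2 pp.1 = π g1 pp.2 ∧ π g0 pp.1 = π g2 pp.2
  ham : ∀ g, ∀ E ⊆ PPs T col lp pp g, Even E.card → ∀ τ : Equiv.Perm (Fin n), Tog E τ →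
    Ham (π g * τ)
  nl : ∀ g : ℕ, g + 1 < mF * q → (lp g).1 ≠ (lp g).2
  np : pp.1 ≠ pp.2
  dtl : ∀ f, ∀ t ∈ T f, ∀ g : Fin (mF * q), g = finProdFinEquiv (f, col f t) →
    ((g : ℕ) + 1 < mF * q → PD t (lp g)) ∧ (1 ≤ (g : ℕ) → PD t (lp (g - 1))) ∧
      ((g : ℕ) < 3 → PD t pp)
  dll : ∀ g : ℕ, g + 2 < mF * q → PD (lp g) (lp (g + 1))
  dlp : ∀ g : ℕ, g < 3 → g + 1 < mF * q → PD (lp g) pp

/-- (about 250 lines; uses `S_Tgl`, `S_Pfx`, `S_Mcy`) **Absorption.**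

Proof.  For `f : Fin mF` let `F f v = μ f v` if `tgp v = jj f` and `F f v = σ f v` otherwise.  It is a
permutation: both `μ f` and `σ f` are winding, so they map `{v : tgp v = j}` onto `{v : hgp v = j}`
(injective maps with `tgp v = hgp (image)` for all `v`), and the values are in different sets.  `F f` is
winding.  `S_Mcy` gives `E f ⊆ T f` and `τ_f` with `Ham (F f * τ_f)`.  Let `G = mF * q` and for `g < G`,
`g = finProdFinEquiv (f, c)`, let `a g` be the number of the `t ∈ E f` with `col f t = c`.  `S_Pfx` gives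
`z`, `l`.  Let `ι = Fin mF ⊕ Fin G`, `κ = (Fin mF × Fin n × Fin n) ⊕ (ℕ ⊕ Unit)`, and let `A` be the set of all
`inl (f, t)`, `t ∈ E f`, of all `inr (inl g)` with `g + 1 < G`, `l g = true`, and of `inr (inr ())` if
`z = true`.  For `inl (f, t)`: `(x, x') = t` and `ρ` is the transposition of `inl f` and
`inr (finProdFinEquiv (f, col f t))`.  For `inr (inl g)`: `(x, x') = lp g` and `ρ` is the transposition of `inr g`
and `inr (g + 1)`.  For `inr (inr ())`: `(x, x') = pp` and `ρ` is the cycle `inr 0 → inr 1 → inr 2 → inr 0`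
(product of two transpositions).  `Φ0 (inl f) = F f`, `Φ0 (inr g) = π g`.
The hypotheses of `S_Tgl`: for a tile `t` of `f` and its partner `g`: `F f t.2 = σ f t.2 = π g t.1` and
`π g t.2 = σ f t.1 = F f t.1` (`tgp t.1 = lv t.1 ≠ jj f`, the same for `t.2`, by `FOb.tl`); links: `lk`; `pp`:
`pa`.  Disjointness: if two different switches move the same `c = inl f` they are two tiles of `f`
(`FOb.td`); if they move `c = inr g` then both belong to `PPs g`: two tiles of the same object and colour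
(`td`), or a tile and a link or `pp` (`dtl`), or the links `g - 1`, `g` (`dll`), or a link and `pp` (`dlp`).
`S_Tgl` gives `Φ`.  `Φ (inl f) = F f * τ` with `Tog (E f) τ` (the switches which move `inl f` are the tiles in
`E f`); `τ = τ_f` because both are determined by `E f`; so `Ham`.  `Φ (inr g) = π g * τ`, `Tog E' τ`, where `E'` is
the set of the pairs of the switches of `A` which move `inr g`; `E' ⊆ PPs g` and
`|E'| = a g + [g < 3, z] + [g + 1 < G, l g] + [1 ≤ g, l (g-1)]` (the pairs are different, since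
disjoint) is even; so `Ham` by `Prt.ham`. -/
def S_Abp : Prop :=
  ∀ (n e mF q : ℕ) (lv : Fin n → ℕ) (S : Finset (Fin n × Fin n)) (jj : Fin mF → ℕ)
    (X : Fin mF → Finset (Fin n × Fin n)) (σ : Fin mF → Equiv.Perm (Fin n))
    (T : Fin mF → Finset (Fin n × Fin n)) (col : Fin mF → Fin n × Fin n → Fin q)
    (π : Fin (mF * q) → Equiv.Perm (Fin n)) (lp : ℕ → Fin n × Fin n) (pp : Fin n × Fin n),
    (∀ f, FOb e lv S (X f) (jj f) (σ f) (T f)) → (∀ v, lv v ≤ e + 1) → (∀ f, jj f ≤ e) →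
    3 ≤ mF * q → Prt σ T col π lp pp →
    ∀ μ : Fin mF → Equiv.Perm (Fin n), (∀ f v, Wd e lv v (μ f v)) →
      ∃ Φ : Fin mF ⊕ Fin (mF * q) → Equiv.Perm (Fin n), (∀ c, Ham (Φ c)) ∧
        ∀ v, ∃ ψ : Equiv.Perm (Fin mF ⊕ Fin (mF * q)), ∀ c, Φ c v =
          Sum.elim (fun f => if tgp e lv v = jj f then μ f v else σ f v) (fun g => π g v) (ψ c)

/-! ## Partners -/

/-- the vertices of a quadruple -/
def qv {n : ℕ} (q : Fin n × Fin n × Fin n × Fin n) : Finset (Fin n) :=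
  {q.1, q.2.1, q.2.2.1, q.2.2.2}

/-- vertex-disjoint quadruples -/
def QD {n : ℕ} (P : Finset (Fin n × Fin n × Fin n × Fin n)) : Prop :=
  (∀ q ∈ P, (qv q).card = 4) ∧ ∀ q ∈ P, ∀ q' ∈ P, q ≠ q' → Disjoint (qv q) (qv q')

/-- the arcs `(x, y)`, `(x', y')` of the quadruples `(x, x', y, y')` -/
def qar {n : ℕ} (P : Finset (Fin n × Fin n × Fin n × Fin n)) : Finset (Fin n × Fin n) :=
  P.image (fun q => (q.1, q.2.2.1)) ∪ P.image (fun q => (q.2.1, q.2.2.2))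

/-- the pairs `(x, x')` of the quadruples `(x, x', y, y')` -/
def qpr {n : ℕ} (P : Finset (Fin n × Fin n × Fin n × Fin n)) : Finset (Fin n × Fin n) :=
  P.image (fun q => (q.1, q.2.1))

/-- Hamilton cycles through balanced linear forests exist after removing any set of degrees `≤ z` -/
def HmP {n K : ℕ} (S : Finset (Fin n × Fin n)) (o i : Fin n → Fin K) (g : ℝ) (z : ℕ) : Prop :=
  ∀ Z : Finset (Fin n × Fin n), Dg Z z → HamP (S \ Z) o i g

/-- short paths exist after removing any set of degrees `≤ z` -/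
def CnP {n : ℕ} (S : Finset (Fin n × Fin n)) (b ℓ z : ℕ) : Prop :=
  ∀ Z : Finset (Fin n × Fin n), Dg Z z → Con (S \ Z) b ℓ

/-- a `K_{2,3}` exists after removing any set of degrees `≤ z` and any `b` vertices -/
def K2P {n : ℕ} (S : Finset (Fin n × Fin n)) (b z : ℕ) : Prop :=
  ∀ (Z : Finset (Fin n × Fin n)) (B : Finset (Fin n)), Dg Z z → B.card ≤ b →
    ∃ x x' y₁ y₂ y₃ : Fin n, x ≠ x' ∧ y₁ ≠ y₂ ∧ y₁ ≠ y₃ ∧ y₂ ≠ y₃ ∧ x ∉ B ∧ x' ∉ B ∧ y₁ ∉ B ∧
      y₂ ∉ B ∧ y₃ ∉ B ∧ (x, y₁) ∈ S \ Z ∧ (x, y₂) ∈ S \ Z ∧ (x, y₃) ∈ S \ Z ∧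
      (x', y₁) ∈ S \ Z ∧ (x', y₂) ∈ S \ Z ∧ (x', y₃) ∈ S \ Z

/-- (about 150 lines; uses `S_Ptn`) **Partner cycles, with finite sets.**

Proof.  Let `M = |P|` and let `q_j`, `j < M`, be an enumeration of `P`.  `S_Ptn` with `c j = q_j.1`,
`c (M + j) = q_j.2.1`, `d j = q_j.2.2.1`, `d (M + j) = q_j.2.2.2` (extended arbitrarily).  All these `4 M`
vertices are different by `QD`.  For the last statement: `E ⊆ qpr P` is the set of the pairs of the `q_j`,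
`j ∈ E'`, with `|E'| = |E|` (different `q ∈ P` have different pairs). -/
def S_PtF : Prop :=
  ∀ (n K ℓ b : ℕ) (S X : Finset (Fin n × Fin n)) (o i : Fin n → Fin K) (B : Finset (Fin n))
    (P : Finset (Fin n × Fin n × Fin n × Fin n)) (g : ℝ), 1 ≤ P.card → HamP S o i g →
    Con S b ℓ → (∀ e ∈ S, o e.1 = i e.2) → VD X → vts X ⊆ B → Bal o i X →
    B.card + 2 * P.card * (ℓ + 2) ≤ b →
    ((2 * P.card * (ℓ + 1) + X.card : ℕ) : ℝ) ≤ g * n → QD P → (∀ q ∈ P, Disjoint (qv q) B) →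
    (∀ q ∈ P, o q.1 = i q.2.2.1 ∧ o q.2.1 = i q.2.2.2) →
    ∃ π : Equiv.Perm (Fin n), Ham π ∧ (∀ e ∈ X, π e.1 = e.2) ∧
      (∀ q ∈ P, π q.1 = q.2.2.1 ∧ π q.2.1 = q.2.2.2) ∧
      (∀ v, v ∉ tls X → (∀ q ∈ P, v ≠ q.1 ∧ v ≠ q.2.1) → (v, π v) ∈ S) ∧
      ∀ E ⊆ qpr P, Even E.card → ∀ τ : Equiv.Perm (Fin n), Tog E τ → Ham (π * τ)

/-- (about 200 lines; uses `S_XPk`, `S_PtF`) **All partners.**

Proof.  One after the other, `g' = 0, 1, ...` (induction on `m ≤ G` for the partners `g' < m`).  Let `Z` be the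
union of `Z0` and the arcs of the partners which we have already (`Dg Z z`) and `U` the union of `U0` and of
their sets `X g''` (subsets of `Xe`, disjoint, `p` elements).  `S_XPk` (`V = ∅`) gives `X ⊆ Xe \ U`; `S_PtF` for
`S \ Z`, `X`, `P g'` gives `π`.  An arc `(v, π v)` is in `S \ Z`, in `X` or in `qar (P g')`.  Let `π'` be an
earlier partner, `π v = π' v`; the arc `a = (v, π v)` is in `Z`, so it is not in `S \ Z`.  If `a ∈ X` then
`a ∉ S` (`Disjoint S Xe`), so it is an arc of `X` for `π'`, a contradiction (disjoint).  If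
`a ∈ qar (P g') ⊆ Z0 ∩ S`: as an arc of `π'` it is in `S \ Z0` (no), in `Xe` (no), or in `qar (P g'')` (no,
disjoint). -/
def S_Pts : Prop :=
  ∀ (n K G p Δ ℓ b z0 z Mx : ℕ) (S Xe U0 Z0 : Finset (Fin n × Fin n)) (o i : Fin n → Fin K)
    (B : Finset (Fin n)) (P : Fin G → Finset (Fin n × Fin n × Fin n × Fin n)) (g : ℝ),
    HmP S o i g z → CnP S b ℓ z → (∀ e ∈ S, o e.1 = i e.2) → Dg Z0 z0 → z0 + G ≤ z →
    Disjoint S Xe → (∀ q ∈ Xe, q.1 ≠ q.2) → Dg Xe Δ → 1 ≤ Δ → vts Xe ⊆ B →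
    (∀ X ⊆ Xe, VD X → X.card = p → Bal o i X) → U0 ⊆ Xe →
    U0.card + G * p + 4 * Δ * p ≤ Xe.card → (∀ g', 1 ≤ (P g').card ∧ (P g').card ≤ Mx) →
    B.card + 2 * Mx * (ℓ + 2) ≤ b → ((2 * Mx * (ℓ + 1) + p : ℕ) : ℝ) ≤ g * n →
    (∀ g', QD (P g') ∧ qar (P g') ⊆ Z0 ∩ S ∧ ∀ q ∈ P g', Disjoint (qv q) B) →
    (∀ g' g'', g' ≠ g'' → Disjoint (qar (P g')) (qar (P g''))) →
    ∃ π : Fin G → Equiv.Perm (Fin n), (∀ g' g'', g' ≠ g'' → ∀ v, π g' v ≠ π g'' v) ∧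
      ∀ g', (∀ q ∈ P g', π g' q.1 = q.2.2.1 ∧ π g' q.2.1 = q.2.2.2) ∧
        (∀ v, (v, π g' v) ∈ qar (P g') ∪ ((S \ Z0) ∪ (Xe \ U0))) ∧
        ∀ E ⊆ qpr (P g'), Even E.card → ∀ τ : Equiv.Perm (Fin n), Tog E τ → Ham (π g' * τ)

/-- the four arcs of a quadruple -/
def lka {n : ℕ} (q : Fin n × Fin n × Fin n × Fin n) : Finset (Fin n × Fin n) :=
  {(q.1, q.2.2.1), (q.2.1, q.2.2.2), (q.1, q.2.2.2), (q.2.1, q.2.2.1)}

/-- the six arcs of a `K_{2,3}` -/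
def pka {n : ℕ} (x x' y₁ y₂ y₃ : Fin n) : Finset (Fin n × Fin n) :=
  {(x, y₁), (x, y₂), (x, y₃), (x', y₁), (x', y₂), (x', y₃)}

/-- (about 150 lines) **The links.**

Proof.  First choose the `K_{2,3}` by `K2P` for `Z = Z0` and `B ∪ V 0 ∪ V 1 ∪ V 2`.  Then choose
`lk 0, ..., lk (G-1)` one after the other (induction on `m`): for `lk g` apply `K2P` to the union `Z` of
`Z0`, the six arcs (`Dg 3`) and the arcs `lka (lk g')`, `g' < g` (`Dg 2` each), and to the union of `B`, `V g`,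
`V (g+1)`, the five vertices of the `K_{2,3}` and the four vertices of `lk (g-1)`; take
`lk g = (x, x', y₁, y₂)`.  The four vertices are different because `S` has no loops.  (For `g ≥ G`, `lk g` is
arbitrary.) -/
def S_Lks : Prop :=
  ∀ (n G b z0 z vb : ℕ) (S Z0 : Finset (Fin n × Fin n)) (B : Finset (Fin n))
    (V : ℕ → Finset (Fin n)), K2P S b z → (∀ q ∈ S, q.1 ≠ q.2) → Dg Z0 z0 →
    z0 + 2 * G + 3 ≤ z → (∀ g, (V g).card ≤ vb) → B.card + 3 * vb + 9 ≤ b →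
    ∃ (lk : ℕ → Fin n × Fin n × Fin n × Fin n) (x x' y₁ y₂ y₃ : Fin n),
      ({x, x', y₁, y₂, y₃} : Finset (Fin n)).card = 5 ∧
      (∀ v ∈ ({x, x', y₁, y₂, y₃} : Finset (Fin n)), v ∉ B ∧ v ∉ V 0 ∧ v ∉ V 1 ∧ v ∉ V 2) ∧
      pka x x' y₁ y₂ y₃ ⊆ S \ Z0 ∧
      (∀ g < G, (qv (lk g)).card = 4 ∧ lka (lk g) ⊆ S \ Z0 ∧
        Disjoint (lka (lk g)) (pka x x' y₁ y₂ y₃) ∧
        (∀ v ∈ qv (lk g), v ∉ B ∧ v ∉ V g ∧ v ∉ V (g + 1) ∧
          v ∉ ({x, x', y₁, y₂, y₃} : Finset (Fin n)))) ∧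
      (∀ g, g + 1 < G → Disjoint (qv (lk g)) (qv (lk (g + 1)))) ∧
      ∀ g < G, ∀ g' < G, g ≠ g' → Disjoint (lka (lk g)) (lka (lk g'))

/-- the quadruples of the tiles of the partner `g = finProdFinEquiv (f, c)`: `(x, x', σ x', σ x)` for the
tiles `(x, x')` of the object `f` with the colour `c` -/
def tq {n mF q : ℕ} (σ : Fin mF → Equiv.Perm (Fin n)) (T : Fin mF → Finset (Fin n × Fin n))
    (col : Fin mF → Fin n × Fin n → Fin q) (g : Fin (mF * q)) :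
    Finset (Fin n × Fin n × Fin n × Fin n) :=
  ((T (finProdFinEquiv.symm g).1).filter
    (fun t => col (finProdFinEquiv.symm g).1 t = (finProdFinEquiv.symm g).2)).image
    (fun t => (t.1, t.2, σ (finProdFinEquiv.symm g).1 t.2, σ (finProdFinEquiv.symm g).1 t.1))

/-- the vertices of these quadruples -/
def Vt {n mF q : ℕ} (σ : Fin mF → Equiv.Perm (Fin n)) (T : Fin mF → Finset (Fin n × Fin n))
    (col : Fin mF → Fin n × Fin n → Fin q) (g : ℕ) : Finset (Fin n) :=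
  if h : g < mF * q then (tq σ T col ⟨g, h⟩).biUnion qv else ∅

/-- all quadruples of the partner `g` -/
def ent {n mF q : ℕ} (σ : Fin mF → Equiv.Perm (Fin n)) (T : Fin mF → Finset (Fin n × Fin n))
    (col : Fin mF → Fin n × Fin n → Fin q) (lk : ℕ → Fin n × Fin n × Fin n × Fin n)
    (x x' y₁ y₂ y₃ : Fin n) (g : Fin (mF * q)) : Finset (Fin n × Fin n × Fin n × Fin n) :=
  tq σ T col g ∪ ((if (g : ℕ) + 1 < mF * q then {lk g} else ∅) ∪
    ((if 1 ≤ (g : ℕ) then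
      {((lk (g - 1)).1, (lk (g - 1)).2.1, (lk (g - 1)).2.2.2, (lk (g - 1)).2.2.1)} else ∅) ∪
    (if (g : ℕ) = 0 then {(x, x', y₁, y₂)} else if (g : ℕ) = 1 then {(x, x', y₂, y₃)} else
      if (g : ℕ) = 2 then {(x, x', y₃, y₁)} else ∅)))

/-- the properties of the links (see `S_Lks`) -/
structure LkP {n : ℕ} (S Z1 : Finset (Fin n × Fin n)) (B : Finset (Fin n))
    (V : ℕ → Finset (Fin n)) (G : ℕ) (lk : ℕ → Fin n × Fin n × Fin n × Fin n)
    (x x' y₁ y₂ y₃ : Fin n) : Prop where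
  c5 : ({x, x', y₁, y₂, y₃} : Finset (Fin n)).card = 5
  v5 : ∀ v ∈ ({x, x', y₁, y₂, y₃} : Finset (Fin n)), v ∉ B ∧ v ∉ V 0 ∧ v ∉ V 1 ∧ v ∉ V 2
  a5 : pka x x' y₁ y₂ y₃ ⊆ S \ Z1
  c4 : ∀ g < G, (qv (lk g)).card = 4
  a4 : ∀ g < G, lka (lk g) ⊆ S \ Z1
  ap : ∀ g < G, Disjoint (lka (lk g)) (pka x x' y₁ y₂ y₃)
  v4 : ∀ g < G, ∀ v ∈ qv (lk g), v ∉ B ∧ v ∉ V g ∧ v ∉ V (g + 1) ∧
    v ∉ ({x, x', y₁, y₂, y₃} : Finset (Fin n))
  vd : ∀ g, g + 1 < G → Disjoint (qv (lk g)) (qv (lk (g + 1)))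
  ad : ∀ g < G, ∀ g' < G, g ≠ g' → Disjoint (lka (lk g)) (lka (lk g'))

/-- all arcs of the objects -/
def oAll {n mF : ℕ} (e : ℕ) (lv : Fin n → ℕ) (jj : Fin mF → ℕ) (σ : Fin mF → Equiv.Perm (Fin n))
    (T : Fin mF → Finset (Fin n × Fin n)) : Finset (Fin n × Fin n) :=
  univ.biUnion (fun f => oarc e lv (jj f) (σ f) (T f))

/-- all arcs of the links -/
def lAll {n : ℕ} (G : ℕ) (lk : ℕ → Fin n × Fin n × Fin n × Fin n) (x x' y₁ y₂ y₃ : Fin n) :
    Finset (Fin n × Fin n) :=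
  pka x x' y₁ y₂ y₃ ∪ (range G).biUnion (fun g => lka (lk g))

/-- (about 250 lines) **The quadruples of the partners.**

Proof.  The tiles `t` of the object `f` have their components at levels `l` with `1 ≤ l`, `l + 1 < e`
(`FOb.tl`), and `σ f t.1`, `σ f t.2` have level `l + 1` (`FOb.wn`: `hgp (σ t.1) = l`, `l < e`); so the four
vertices are not in `B`, a tail and a head of the same tile are different, `t.1 ≠ t.2`, and
`σ t.1 ≠ σ t.2`: `(qv q).card = 4`.  Different tiles of one colour: the tails are different by `FOb.td`, the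
heads because `σ f` is injective, a tail and a head by the hypothesis on the colouring.  The links and
the `K_{2,3}`: `LkP`.  At most three quadruples are not in `tq`; at least one exists (`3 ≤ mF q`: the link
`g` or the link `g - 1`).  Arcs: the arcs of `tq` are chords, i.e. in `oAll` (`FOb.tc` shows that they are in
`S`), those of the links in `lAll`.  Disjointness of `qar` for different partners `g ≠ g'`: two chords of
different objects are in disjoint `oarc`s; two chords of different tiles of the same object have different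
tails (`FOb.td`); chords are in `oAll`, the arcs of links are not (`a4`, `a5`); the arcs of different links
are different (`ad`, `ap`); the link `g` occurs for `g` with the arcs `(x, y)`, `(x', y')` and for `g + 1` with
the arcs `(x, y')`, `(x', y)`; the `K_{2,3}` occurs for `0, 1, 2` with six different arcs. -/
def S_Ent : Prop :=
  ∀ (n e mF q Mx : ℕ) (lv : Fin n → ℕ) (S Z0 : Finset (Fin n × Fin n)) (jj : Fin mF → ℕ)
    (X : Fin mF → Finset (Fin n × Fin n)) (σ : Fin mF → Equiv.Perm (Fin n))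
    (T : Fin mF → Finset (Fin n × Fin n)) (col : Fin mF → Fin n × Fin n → Fin q)
    (lk : ℕ → Fin n × Fin n × Fin n × Fin n) (x x' y₁ y₂ y₃ : Fin n), (∀ v, lv v ≤ e + 1) →
    3 ≤ mF * q → (∀ f, FOb e lv (wnd e lv S \ Z0) (X f) (jj f) (σ f) (T f)) →
    (∀ f f', f ≠ f' →
      Disjoint (oarc e lv (jj f) (σ f) (T f)) (oarc e lv (jj f') (σ f') (T f'))) →
    (∀ f c, ((T f).filter (fun t => col f t = c)).card ≤ Mx) →
    (∀ f, ∀ t ∈ T f, ∀ t' ∈ T f, t ≠ t' → col f t = col f t' →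
      t.1 ≠ σ f t'.1 ∧ t.1 ≠ σ f t'.2 ∧ t.2 ≠ σ f t'.1 ∧ t.2 ≠ σ f t'.2) →
    LkP S (Z0 ∪ oAll e lv jj σ T) (univ.filter (fun v => lv v = 0 ∨ e ≤ lv v)) (Vt σ T col)
      (mF * q) lk x x' y₁ y₂ y₃ →
    (∀ g, 1 ≤ (ent σ T col lk x x' y₁ y₂ y₃ g).card ∧
      (ent σ T col lk x x' y₁ y₂ y₃ g).card ≤ Mx + 3 ∧
      QD (ent σ T col lk x x' y₁ y₂ y₃ g) ∧
      qar (ent σ T col lk x x' y₁ y₂ y₃ g) ⊆
        (oAll e lv jj σ T ∪ lAll (mF * q) lk x x' y₁ y₂ y₃) ∩ S ∧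
      ∀ a ∈ ent σ T col lk x x' y₁ y₂ y₃ g,
        Disjoint (qv a) (univ.filter (fun v => lv v = 0 ∨ e ≤ lv v))) ∧
    ∀ g g', g ≠ g' → Disjoint (qar (ent σ T col lk x x' y₁ y₂ y₃ g))
      (qar (ent σ T col lk x x' y₁ y₂ y₃ g'))

/-- (about 150 lines) **The properties `Prt`.**

Proof.  With `lp g = ((lk g).1, (lk g).2.1)` and `pp = (x, x')` we have `PPs T col lp pp g = qpr (ent ... g)`
(both are unions of four sets of pairs), which gives `ham`.  `tl`: the tile `t` of `f` gives the element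
`(t.1, t.2, σ f t.2, σ f t.1)` of `ent g`, `g = finProdFinEquiv (f, col f t)`.  `lk`: `lk g ∈ ent g` and
`(x, x', y', y) ∈ ent (g + 1)` for `lk g = (x, x', y, y')`.  `pa`: the three quadruples of the `K_{2,3}`.
`nl`: `c4`, `np`: `c5`.  `dtl`: the components of `t`
are in `Vt g`, those of `lp g`, `lp (g - 1)` and `pp` are not, by `v4` (for `g` and for `g - 1`) and `v5`.  `dll`:
`vd`.  `dlp`: `v4`. -/
def S_PrM : Prop :=
  ∀ (n mF q : ℕ) (σ : Fin mF → Equiv.Perm (Fin n)) (T : Fin mF → Finset (Fin n × Fin n))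
    (col : Fin mF → Fin n × Fin n → Fin q) (lk : ℕ → Fin n × Fin n × Fin n × Fin n)
    (x x' y₁ y₂ y₃ : Fin n) (π : Fin (mF * q) → Equiv.Perm (Fin n)) (S Z1 : Finset (Fin n × Fin n))
    (B : Finset (Fin n)), 3 ≤ mF * q →
    LkP S Z1 B (Vt σ T col) (mF * q) lk x x' y₁ y₂ y₃ →
    (∀ g, QD (ent σ T col lk x x' y₁ y₂ y₃ g)) →
    (∀ g, ∀ a ∈ ent σ T col lk x x' y₁ y₂ y₃ g, π g a.1 = a.2.2.1 ∧ π g a.2.1 = a.2.2.2) →
    (∀ g, ∀ E ⊆ qpr (ent σ T col lk x x' y₁ y₂ y₃ g), Even E.card →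
      ∀ τ : Equiv.Perm (Fin n), Tog E τ → Ham (π g * τ)) →
    Prt σ T col π (fun g => ((lk g).1, (lk g).2.1)) (x, x')

/-- An absorber: `σ f` are the objects (used outside of the gap `jj f`), `π g` the partners. -/
structure Abs {n : ℕ} (e : ℕ) (lv : Fin n → ℕ) (mF G : ℕ) (jj : Fin mF → ℕ)
    (S' : Finset (Fin n × Fin n)) (σ : Fin mF → Equiv.Perm (Fin n))
    (π : Fin G → Equiv.Perm (Fin n)) : Prop where
  aF : ∀ f v, tgp e lv v ≠ jj f → (v, σ f v) ∈ S'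
  aG : ∀ g v, (v, π g v) ∈ S'
  wd : ∀ f v, Wd e lv v (σ f v)
  dF : ∀ f f', f ≠ f' → ∀ v, tgp e lv v ≠ jj f → tgp e lv v ≠ jj f' → σ f v ≠ σ f' v
  dG : ∀ g g', g ≠ g' → ∀ v, π g v ≠ π g' v
  dFG : ∀ f g v, tgp e lv v ≠ jj f → σ f v ≠ π g v
  ab : ∀ μ : Fin mF → Equiv.Perm (Fin n), (∀ f v, Wd e lv v (μ f v)) →
    ∃ Φ : Fin mF ⊕ Fin G → Equiv.Perm (Fin n), (∀ c, Ham (Φ c)) ∧
      ∀ v, ∃ ψ : Equiv.Perm (Fin mF ⊕ Fin G), ∀ c, Φ c v =
        Sum.elim (fun f => if tgp e lv v = jj f then μ f v else σ f v) (fun g => π g v) (ψ c)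

/-- (about 300 lines; uses `S_Obj`, `S_TCl`, `S_Lks`, `S_Ent`, `S_Pts`, `S_PrM`, `S_Abp`) **The
absorber.**

Proof.  `S_Obj` for `wnd e lv S` (disjoint from `Xe`) gives `X, σ, T`; `S_TCl` gives colourings `col f` (`Mx`).
Let `Z1 = Z0 ∪ oAll`, `Dg Z1 (z0 + 2 mF)`, `G = mF q`.  Every `Vt g` has at most `4 Mx` elements.  `S_Lks` for
`Z1`, `B = {v : lv v = 0 ∨ e ≤ lv v}`, `V = Vt`, `vb = 4 Mx` gives `LkP`.  Let `Z2 = Z1 ∪ lAll`,
`Dg Z2 (z0 + 2 mF + 3 + 2 G)`.  `S_Ent` gives the properties of `P g = ent ... g`; `qar (P g) ⊆ Z2 ∩ S`.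
`S_Pts` for `S`, `Z2`, `B`, `U0 ∪ ⋃ X f` (`|U0| + mF p` elements), `Mx + 3` gives `π` (`vts Xe ⊆ B`).  `S_PrM` and
`S_Abp` (`FOb` for `S \ Z0`, or use `S := wnd e lv S \ Z0` in `S_Abp`) give `ab`.
`aF`: `(v, σ f v)` is in `wnd e lv S \ Z0` or, if `v` is a tail of `X f`, in `X f ⊆ Xe \ U0`.  `aG`: the arcs of
`π g` are in `qar (P g)`, `S \ Z2` or `Xe \ U0`; `qar (P g)` is disjoint from `Z0`: chords are in
`wnd e lv S \ Z0` by `FOb.tc`, the arcs of links are not in `Z1`.  `dF`: the `oarc`s are disjoint.  `dG`: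
`S_Pts`.  `dFG`: let `a = (v, σ f v)`, `tgp v ≠ jj f`, so `a ∈ oAll ⊆ Z2`, and `a ∈ S` or `a ∈ X f`.  If
`a = (v, π g v)`: it is not in `S \ Z2`; if it is in `Xe \ (U0 ∪ ⋃ X f)` it is not in `S` and not in `X f`; if
`a ∈ qar (P g)` then it is in `S`; it is no arc of a link (they are not in `Z1`), so a chord
`(t.1, σ f' t.2)` (or `(t.2, σ f' t.1)`) of an object `f'`; as `oarc`s are disjoint `f' = f`, and then `v = t.1`,
`σ f t.1 = σ f t.2`, a contradiction. -/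
def S_AbX : Prop :=
  ∀ (n K e mF q p Δ ℓ b z0 z Mx : ℕ) (lv : Fin n → ℕ) (S Xe U0 Z0 : Finset (Fin n × Fin n))
    (o i : Fin n → Fin K) (jj : Fin mF → ℕ) (gP : ℝ), ObjP e lv (wnd e lv S) Xe p z →
    HmP S o i gP z → CnP S b ℓ z → K2P S b z → (∀ a ∈ S, o a.1 = i a.2) →
    (∀ a ∈ S, a.1 ≠ a.2) → Dg Z0 z0 → z0 + 2 * mF + 3 * (mF * q) + 3 ≤ z →
    (∀ v, lv v ≤ e + 1) → (∀ f, jj f ≤ e) → Disjoint S Xe → (∀ a ∈ Xe, a.1 ≠ a.2) → Dg Xe Δ →
    1 ≤ Δ → (∀ a ∈ Xe, lv a.1 = e ∧ lv a.2 = 0) → (∀ X ⊆ Xe, VD X → X.card = p → Bal o i X) →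
    U0 ⊆ Xe → U0.card + (mF + mF * q) * p + 4 * Δ * p ≤ Xe.card → 3 ≤ mF * q → 1 ≤ Mx →
    4 + n / (2 * Mx) < q →
    (univ.filter (fun v => lv v = 0 ∨ e ≤ lv v)).card + 2 * (Mx + 3) * (ℓ + 2) ≤ b →
    (univ.filter (fun v => lv v = 0 ∨ e ≤ lv v)).card + 3 * (4 * Mx) + 9 ≤ b →
    ((2 * (Mx + 3) * (ℓ + 1) + p : ℕ) : ℝ) ≤ gP * n →
    ∃ (σ : Fin mF → Equiv.Perm (Fin n)) (π : Fin (mF * q) → Equiv.Perm (Fin n)),
      Abs e lv mF (mF * q) jj ((S \ Z0) ∪ (Xe \ U0)) σ π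

/-! ## Supply from the classes -/

/-- (about 150 lines; uses `S_HAM`) **Hamilton cycles through linear forests in a regular digraph.**

Proof.  `g, n0` from `S_HAM` for `K0, θ/2, lam, ν/2`; `κ = min (θ/2) (min (g/2) (ν/2))`, `γ = g²/2`.  Let
`Dg Z z`, `S = own o i R \ Z`.  `MHyp S o i (θ/2) r g (θ/2/128) (ν/2)`: `odl`: `θ n - z ≥ (θ/2) n`; the same for
`idl`.  `nr`: `r - od S v ≤ od (crs o i R) v + z` and `od S v ≤ r`; as `z ≤ (g/2) n`, if the difference is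
`> g n` then `od (crs o i R) v > (g/2) n`; as `∑ od (crs) ≤ γ n²` there are at most `2 γ n/g = g n` such `v`; the
same for in-degrees.  `rge`: `θ n ≤ od (own) v ≤ r` (for `n = 0` trivial); `rle`: `r ≤ n`.  `rob`: for
`X ⊆ Cl o a`, `Y ⊆ Cl i a` all arcs of `R` from `X` to `Y` are own; at most `|Z| ≤ z n ≤ (ν/2) n²` of the arcs
counted by `Rob` are in `Z`. -/
def S_HmQ : Prop :=
  ∀ (K0 : ℕ) (θ lam ν : ℝ), 1 ≤ K0 → 0 < θ → θ ≤ 1 → 0 < lam → 0 < ν →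
    ∃ (g κ γ : ℝ) (n0 : ℕ), 0 < g ∧ 0 < κ ∧ 0 < γ ∧ ∀ n, n0 ≤ n → ∀ (K r z : ℕ)
      (R : Finset (Fin n × Fin n)) (o i : Fin n → Fin K), K ≤ K0 → Reg R r →
      ((crs o i R).card : ℝ) ≤ γ * (n : ℝ) ^ 2 → Rob o i R (θ / 256) ν →
      (∀ v, θ * n ≤ od (own o i R) v) → (∀ v, θ * n ≤ idg (own o i R) v) → Lin o i lam →
      (z : ℝ) ≤ κ * n → HmP (own o i R) o i g z

/-- (about 80 lines; uses `S_Con`) **Short paths in a regular digraph.**

Proof.  `ζ0, ℓ` from `S_Con` for `η, θ/2`; `ζ = min (ζ0/2) (θ/2)`.  For `Dg Z z`, `S = own o i R \ Z`: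
`|R \ S| ≤ |crs| + |Z| ≤ ζ n² + z n ≤ ζ0 n²`, degrees at least `θ n - z ≥ (θ/2) n`; `Con S b ℓ` by `S_Con`
(`b ≤ ζ n ≤ ζ0 n`). -/
def S_CnQ : Prop :=
  ∀ η θ : ℝ, 0 < η → 0 < θ → θ ≤ 1 → ∃ (ζ : ℝ) (ℓ : ℕ), 0 < ζ ∧ 1 ≤ ℓ ∧
    ∀ (n K z b : ℕ) (R : Finset (Fin n × Fin n)) (o i : Fin n → Fin K),
      ((crs o i R).card : ℝ) ≤ ζ * (n : ℝ) ^ 2 → (z : ℝ) ≤ ζ * n → (b : ℝ) ≤ ζ * n →
      2 ≤ ζ * n → (∀ v, θ * n ≤ od (own o i R) v) → (∀ v, θ * n ≤ idg (own o i R) v) →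
      (∀ W : Finset (Fin n), η * W.card * Wᶜ.card ≤ eb R W Wᶜ) → CnP (own o i R) b ℓ z

/-- (about 40 lines; uses `S_K23`) Proof.  `ζ0, n0` from `S_K23` for `θ/2`, `ζ = min ζ0 (θ/2)`; for `Dg Z z` the
out-degrees of `S \ Z` are at least `θ n - z ≥ (θ/2) n`. -/
def S_K2Q : Prop :=
  ∀ θ : ℝ, 0 < θ → ∃ (ζ : ℝ) (n0 : ℕ), 0 < ζ ∧ ∀ n, n0 ≤ n → ∀ (z b : ℕ)
    (S : Finset (Fin n × Fin n)), (∀ a ∈ S, a.1 ≠ a.2) → (∀ v, θ * n ≤ od S v) →
    (z : ℝ) ≤ ζ * n → (b : ℝ) ≤ ζ * n → K2P S b z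

end Pool.Agent.MPd266dbE
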