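import Pool.Agent.Lib.MP_d266db_co.E.SpecA
import Pool.Agent.Lib.MP_d266db_co.E.SpecD

/-!
# MP_d266db_co, E: Hamilton cycles through linear forests in a regular digraph
-/

set_option autoImplicit false

namespace Pool.Agent.MPd266dbE

open Finset Pool.Agent.MPd266db Pool.Agent.MPd266dbH

theorem hmq_od {n : ℕ} (S Z : Finset (Fin n × Fin n)) (v : Fin n) :
    od S v ≤ od (S \ Z) v + od Z v := by
  classical
  unfold od
  rw [← card_union_of_disjoint]
  · apply card_le_card
    intro a ha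
    rw [mem_filter] at ha
    rw [mem_union, mem_filter, mem_filter, mem_sdiff]
    by_cases h : a ∈ Z
    · exact Or.inr ⟨h, ha.2⟩
    · exact Or.inl ⟨⟨ha.1, h⟩, ha.2⟩
  · rw [Finset.disjoint_left]
    intro a ha hb
    rw [mem_filter, mem_sdiff] at ha
    rw [mem_filter] at hb
    exact ha.1.2 hb.1

theorem hmq_idg {n : ℕ} (S Z : Finset (Fin n × Fin n)) (v : Fin n) :
    idg S v ≤ idg (S \ Z) v + idg Z v := by
  classical
  unfold idg
  rw [← card_union_of_disjoint]
  · apply card_le_card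
    intro a ha
    rw [mem_filter] at ha
    rw [mem_union, mem_filter, mem_filter, mem_sdiff]
    by_cases h : a ∈ Z
    · exact Or.inr ⟨h, ha.2⟩
    · exact Or.inl ⟨⟨ha.1, h⟩, ha.2⟩
  · rw [Finset.disjoint_left]
    intro a ha hb
    rw [mem_filter, mem_sdiff] at ha
    rw [mem_filter] at hb
    exact ha.1.2 hb.1

theorem hmq_od_oc {n K : ℕ} (o i : Fin n → Fin K) (R : Finset (Fin n × Fin n)) (v : Fin n) :
    od R v ≤ od (own o i R) v + od (crs o i R) v := by
  classical
  unfold od
  rw [← card_union_of_disjoint]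
  · apply card_le_card
    intro a ha
    rw [mem_filter] at ha
    rw [mem_union, mem_filter, mem_filter, own, crs, mem_filter, mem_filter]
    by_cases h : o a.1 = i a.2
    · exact Or.inl ⟨⟨ha.1, h⟩, ha.2⟩
    · exact Or.inr ⟨⟨ha.1, h⟩, ha.2⟩
  · rw [Finset.disjoint_left]
    intro a ha hb
    rw [mem_filter, own, mem_filter] at ha
    rw [mem_filter, crs, mem_filter] at hb
    exact hb.1.2 ha.1.2

theorem hmq_idg_oc {n K : ℕ} (o i : Fin n → Fin K) (R : Finset (Fin n × Fin n)) (v : Fin n) :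
    idg R v ≤ idg (own o i R) v + idg (crs o i R) v := by
  classical
  unfold idg
  rw [← card_union_of_disjoint]
  · apply card_le_card
    intro a ha
    rw [mem_filter] at ha
    rw [mem_union, mem_filter, mem_filter, own, crs, mem_filter, mem_filter]
    by_cases h : o a.1 = i a.2
    · exact Or.inl ⟨⟨ha.1, h⟩, ha.2⟩
    · exact Or.inr ⟨⟨ha.1, h⟩, ha.2⟩
  · rw [Finset.disjoint_left]
    intro a ha hb
    rw [mem_filter, own, mem_filter] at ha
    rw [mem_filter, crs, mem_filter] at hb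
    exact hb.1.2 ha.1.2

theorem hmq_sum_od {n : ℕ} (Z : Finset (Fin n × Fin n)) : ∑ v : Fin n, od Z v = Z.card := by
  classical
  unfold od
  exact (card_eq_sum_card_fiberwise (fun e _ => mem_univ e.1)).symm

theorem hmq_sum_idg {n : ℕ} (Z : Finset (Fin n × Fin n)) : ∑ v : Fin n, idg Z v = Z.card := by
  classical
  unfold idg
  exact (card_eq_sum_card_fiberwise (fun e _ => mem_univ e.2)).symm

theorem hmq_card {n z : ℕ} {Z : Finset (Fin n × Fin n)} (h : Dg Z z) : Z.card ≤ z * n := by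
  rw [← hmq_sum_od]
  calc ∑ v : Fin n, od Z v ≤ ∑ _v : Fin n, z := sum_le_sum (fun v _ => (h v).1)
    _ = z * n := by simp [mul_comm]

theorem hmq_od_le {n : ℕ} (Z : Finset (Fin n × Fin n)) (v : Fin n) : od Z v ≤ n := by
  classical
  unfold od
  calc (Z.filter (fun e => e.1 = v)).card ≤ (univ : Finset (Fin n)).card := by
        apply card_le_card_of_injOn (fun e => e.2) (fun _ _ => mem_univ _)
        intro e he e' he' h
        rw [mem_coe, mem_filter] at he he'
        exact Prod.ext (he.2.trans he'.2.symm) h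
    _ = n := by simp

/-- counting large values -/
theorem hmq_cnt {n : ℕ} (f : Fin n → ℕ) (c : ℕ) (g : ℝ) (hg : 0 < g) (P : Fin n → Prop)
    [DecidablePred P] (hs : ∑ v, f v = c) (hc : (c : ℝ) ≤ g ^ 2 / 2 * (n : ℝ) ^ 2)
    (hP : ∀ v, P v → g / 2 * n < f v) : ((univ.filter P).card : ℝ) ≤ g * n := by
  rcases Nat.eq_zero_or_pos n with hn | hn
  · subst hn
    simp
  have hn' : (0 : ℝ) < n := by exact_mod_cast hn
  have h1 : ((univ.filter P).card : ℝ) * (g / 2 * n) ≤ c := by
    have h2 : (∑ v ∈ univ.filter P, (g / 2 * n : ℝ)) ≤ ∑ v ∈ univ.filter P, (f v : ℝ) :=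
      sum_le_sum (fun v hv => (hP v (mem_filter.mp hv).2).le)
    have h3 : (∑ v ∈ univ.filter P, (f v : ℝ)) ≤ ∑ v, (f v : ℝ) :=
      sum_le_sum_of_subset_of_nonneg (filter_subset _ _) (fun _ _ _ => Nat.cast_nonneg _)
    have h4 : (∑ v, (f v : ℝ)) = c := by
      rw [← hs]
      push_cast
      rfl
    rw [sum_const, nsmul_eq_mul] at h2
    linarith
  have h5 : ((univ.filter P).card : ℝ) * (g / 2 * n) ≤ (g * n) * (g / 2 * n) := by nlinarith
  exact le_of_mul_le_mul_right h5 (by positivity)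

theorem tHmQ (hHAM : S_HAM) : S_HmQ := by
  intro K0 θ lam ν hK0 hθ hθ1 hlam hν
  obtain ⟨g, n0, hg, h⟩ := hHAM K0 (θ / 2) lam (ν / 2) hK0 (by linarith) (by linarith) hlam
    (by linarith)
  refine ⟨g, min (θ / 2) (min (g / 2) (ν / 2)), g ^ 2 / 2, n0, hg,
    lt_min (by linarith) (lt_min (by linarith) (by linarith)), by positivity, ?_⟩
  intro n hn K r z R o i hK hR hc hrob hod hid hlin hz Z hZ
  rcases Nat.eq_zero_or_pos n with hnn | hnn
  · subst hnn
    intro P _ _ _
    exact ⟨1, fun v => v.elim0, fun e => e.1.elim0, fun v => v.elim0⟩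
  have hn0 : (0 : ℝ) ≤ n := Nat.cast_nonneg n
  have hz1 : (z : ℝ) ≤ θ / 2 * n := hz.trans (mul_le_mul_of_nonneg_right (min_le_left _ _) hn0)
  have hz2 : (z : ℝ) ≤ g / 2 * n := hz.trans (mul_le_mul_of_nonneg_right
    ((min_le_right _ _).trans (min_le_left _ _)) hn0)
  have hz3 : (z : ℝ) ≤ ν / 2 * n := hz.trans (mul_le_mul_of_nonneg_right
    ((min_le_right _ _).trans (min_le_right _ _)) hn0)
  have hown : own o i R ⊆ R := filter_subset _ _
  have hodS : ∀ v, ((od (own o i R) v : ℕ) : ℝ) ≤ od (own o i R \ Z) v + z := by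
    intro v
    have h1 := hmq_od (own o i R) Z v
    have h2 : ((od (own o i R) v : ℕ) : ℝ) ≤ od (own o i R \ Z) v + od Z v := by exact_mod_cast h1
    have h3 : ((od Z v : ℕ) : ℝ) ≤ z := by exact_mod_cast (hZ v).1
    linarith
  have hidS : ∀ v, ((idg (own o i R) v : ℕ) : ℝ) ≤ idg (own o i R \ Z) v + z := by
    intro v
    have h1 := hmq_idg (own o i R) Z v
    have h2 : ((idg (own o i R) v : ℕ) : ℝ) ≤ idg (own o i R \ Z) v + idg Z v := by
      exact_mod_cast h1
    have h3 : ((idg Z v : ℕ) : ℝ) ≤ z := by exact_mod_cast (hZ v).2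
    linarith
  have hodR : ∀ v, ((od (own o i R \ Z) v : ℕ) : ℝ) ≤ r := by
    intro v
    have h1 : od (own o i R \ Z) v ≤ od R v :=
      card_le_card (filter_subset_filter _ (sdiff_subset.trans hown))
    rw [(hR v).1] at h1
    exact_mod_cast h1
  have hidR : ∀ v, ((idg (own o i R \ Z) v : ℕ) : ℝ) ≤ r := by
    intro v
    have h1 : idg (own o i R \ Z) v ≤ idg R v :=
      card_le_card (filter_subset_filter _ (sdiff_subset.trans hown))
    rw [(hR v).2] at h1
    exact_mod_cast h1
  refine h n hn K (own o i R \ Z) o i (r : ℝ) hK ⟨?_, ?_, ?_, ⟨?_, ?_⟩, ?_, ?_, ?_⟩ hlin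
  · intro e he
    have h1 := (mem_sdiff.mp he).1
    unfold own at h1
    exact (mem_filter.mp h1).2
  · intro v
    have := hodS v
    have := hod v
    linarith
  · intro v
    have := hidS v
    have := hid v
    linarith
  · refine hmq_cnt (fun v => od (crs o i R) v) (crs o i R).card g hg _ (hmq_sum_od _) hc ?_
    intro v hv
    have h1 := hmq_od_oc o i R v
    rw [(hR v).1] at h1
    have h2 : (r : ℝ) ≤ od (own o i R) v + od (crs o i R) v := by exact_mod_cast h1
    have h3 := hodS v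
    have h4 := hodR v
    rw [abs_sub_comm, abs_of_nonneg (by linarith)] at hv
    linarith
  · refine hmq_cnt (fun v => idg (crs o i R) v) (crs o i R).card g hg _ (hmq_sum_idg _) hc ?_
    intro v hv
    have h1 := hmq_idg_oc o i R v
    rw [(hR v).2] at h1
    have h2 : (r : ℝ) ≤ idg (own o i R) v + idg (crs o i R) v := by exact_mod_cast h1
    have h3 := hidS v
    have h4 := hidR v
    rw [abs_sub_comm, abs_of_nonneg (by linarith)] at hv
    linarith
  · have h1 := hodR ⟨0, hnn⟩
    have h2 := hodS ⟨0, hnn⟩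
    have h3 := hod ⟨0, hnn⟩
    linarith
  · have h1 := hmq_od_le R ⟨0, hnn⟩
    rw [(hR _).1] at h1
    exact_mod_cast h1
  · intro a X Y hX hY h1 h2
    have e1 : θ / 2 / 128 = θ / 256 := by ring
    rw [e1] at h1 h2
    have h3 := hrob a X Y hX hY h1 h2
    have h4 : eb R X Y + eb R (Cl o a \ X) (Cl i a \ Y) ≤
        eb (own o i R \ Z) X Y + eb (own o i R \ Z) (Cl o a \ X) (Cl i a \ Y) + z * n := by
      classical
      have hd : ∀ e, ¬ ((e ∈ R.filter (fun e => e.1 ∈ X ∧ e.2 ∈ Y)) ∧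
          (e ∈ R.filter (fun e => e.1 ∈ Cl o a \ X ∧ e.2 ∈ Cl i a \ Y))) := by
        intro e he
        have h5 := (mem_filter.mp he.1).2.1
        have h6 := (mem_sdiff.mp (mem_filter.mp he.2).2.1).2
        exact h6 h5
      have h5 : R.filter (fun e => e.1 ∈ X ∧ e.2 ∈ Y) ∪
          R.filter (fun e => e.1 ∈ Cl o a \ X ∧ e.2 ∈ Cl i a \ Y) ⊆
          ((own o i R \ Z).filter (fun e => e.1 ∈ X ∧ e.2 ∈ Y) ∪
          (own o i R \ Z).filter (fun e => e.1 ∈ Cl o a \ X ∧ e.2 ∈ Cl i a \ Y)) ∪ Z := by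
        intro e he
        by_cases hz : e ∈ Z
        · exact mem_union_right _ hz
        apply mem_union_left
        rw [mem_union] at he ⊢
        rcases he with he | he
        · left
          rw [mem_filter] at he ⊢
          refine ⟨mem_sdiff.mpr ⟨?_, hz⟩, he.2⟩
          unfold own
          refine mem_filter.mpr ⟨he.1, ?_⟩
          have h6 := hX he.2.1
          have h7 := hY he.2.2
          rw [Cl, mem_filter] at h6 h7
          rw [h6.2, h7.2]
        · right
          rw [mem_filter] at he ⊢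
          refine ⟨mem_sdiff.mpr ⟨?_, hz⟩, he.2⟩
          unfold own
          refine mem_filter.mpr ⟨he.1, ?_⟩
          have h6 := (mem_sdiff.mp he.2.1).1
          have h7 := (mem_sdiff.mp he.2.2).1
          rw [Cl, mem_filter] at h6 h7
          rw [h6.2, h7.2]
      have h6 := card_le_card h5
      rw [card_union_of_disjoint (Finset.disjoint_left.mpr (fun e he he' => hd e ⟨he, he'⟩))] at h6
      have h7 := card_union_le ((own o i R \ Z).filter (fun e => e.1 ∈ X ∧ e.2 ∈ Y) ∪
          (own o i R \ Z).filter (fun e => e.1 ∈ Cl o a \ X ∧ e.2 ∈ Cl i a \ Y)) Z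
      have h8 := card_union_le ((own o i R \ Z).filter (fun e => e.1 ∈ X ∧ e.2 ∈ Y))
          ((own o i R \ Z).filter (fun e => e.1 ∈ Cl o a \ X ∧ e.2 ∈ Cl i a \ Y))
      have h9 := hmq_card hZ
      unfold eb
      omega
    have h5 : ((eb R X Y : ℕ) : ℝ) + eb R (Cl o a \ X) (Cl i a \ Y) ≤
        eb (own o i R \ Z) X Y + eb (own o i R \ Z) (Cl o a \ X) (Cl i a \ Y) + z * n := by
      exact_mod_cast h4
    have h6 : (z : ℝ) * n ≤ ν / 2 * n * n := mul_le_mul_of_nonneg_right hz3 hn0
    nlinarith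

end Pool.Agent.MPd266dbE
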