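import Pool.Agent.Lib.MP_d266db_co.E.Defs
import Pool.Agent.Lib.MP_d266db_co.Spec

/-!
# MP_d266db_co, E, SpecI: at most two classes, at semidegree `3n/8`

Every `S_...` is a statement to be proved in its own file `Pool/Agent/Lib/MP_d266db_co/E/....lean`;
the docstring contains the complete proof.  Notation: `O_a = Cl o a`, `I_a = Cl i a`.
-/

set_option autoImplicit false

namespace Pool.Agent.MPd266dbE

open Finset Pool.Agent.MPd266db Pool.Agent.MPd266dbH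

/-! ## Averages with control of all pairs of sets -/

/-- (about 150 lines; uses `S_KST`, `S_Cyc`, `S_Rand`, `S_HalfE`; see `../Half.lean`) **Halving with control of
all pairs `(X, Y)`.**

Proof.  `n = 0` is trivial.  Decompose `H` by `S_Cyc` into `H₀` and `k` four-cycles; `4k ≤ |H| ≤ n²`.
`S_HalfE` gives `H₀₁ ⊆ H₀`.  For a sign vector `s` let
`H₁ = H₀₁ ∪ ⋃ (qa (q i) if s i else qb (q i))`; all degrees of `H₁` are half of those of `H`.  For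
`W ⊆ Fin (2 n)` (or `Fin (n + n)`) let `X_W = {v : castAdd n v ∈ W}`, `Y_W = {v : natAdd n v ∈ W}` and
`c i W = e_{qa (q i)}(X_W, Y_W) - e_{qb (q i)}(X_W, Y_W)`, `|c i W| ≤ 2`.  `S_Rand` for `2 n` gives `s` with
`∑ ± c i W ≥ - 4 √(k (2n+1))` for all `W`.  Every pair `(X, Y)` is `(X_W, Y_W)` for some `W`.  So
`2 e_{H₁}(X, Y) ≥ ∑_i [e_{qa}(X, Y) + e_{qb}(X, Y)] + ∑_i ± c i W ≥ e_H(X, Y) - |H₀| - 4 √(k (2n+1))`.
Finally `|H₀| ≤ n√n + n ≤ 2 n √n` and `4 √(k(2n+1)) ≤ 2n √(3n) ≤ 4 n √n`. -/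
def S_HfX : Prop :=
  ∀ (n : ℕ) (H : Finset (Fin n × Fin n)), (∀ v, Even (od H v) ∧ Even (idg H v)) →
    ∃ H₁ ⊆ H, (∀ v, 2 * od H₁ v = od H v ∧ 2 * idg H₁ v = idg H v) ∧
      ∀ X Y : Finset (Fin n), (eb H X Y : ℝ) ≤ 2 * eb H₁ X Y + 8 * (n * Real.sqrt n)

/-- (about 100 lines; uses `S_HfX`; see `../Avg.lean`) **The average of two regular digraphs.**

Proof.  `K = R ∩ R'`, `H = (R - R') ∪ (R' - R)`: `od H v = (r - od K v) + (r - od K v)` is even, likewise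
`idg`.  Let `H₁` be the half of `H` and `R'' = K ∪ H₁` (disjoint): `od R'' v = od K v + (r - od K v) = r`.
`e_R + e_{R'} = 2 e_K + e_H ≤ 2 e_K + 2 e_{H₁} + 8 n √n` for the pair `(X, Y)`. -/
def S_AvX : Prop :=
  ∀ (n r : ℕ) (R R' : Finset (Fin n × Fin n)), Reg R r → Reg R' r →
    ∃ R'' ⊆ R ∪ R', Reg R'' r ∧ ∀ X Y : Finset (Fin n),
      (eb R X Y : ℝ) + eb R' X Y ≤ 2 * eb R'' X Y + 8 * (n * Real.sqrt n)

/-! ## Potentials -/

/-- `(O, I)` (a set of tails and a set of heads) is closed: arcs of `E - R` with tail in `O` have their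
head in `I`, and own arcs of `R` with head in `I` have their tail in `O` -/
def Cld {n K : ℕ} (E R : Finset (Fin n × Fin n)) (o i : Fin n → Fin K) (O I : Finset (Fin n)) :
    Prop :=
  (∀ u v, (u, v) ∈ E → (u, v) ∉ R → u ∈ O → v ∈ I) ∧
    ∀ u v, (u, v) ∈ R → o u = i v → v ∈ I → u ∈ O

/-- (about 200 lines; uses `S_Fac`; see `../Sep.lean`, the proof is the same with `F = crs o i R`)
**A maximiser of the number of cross arcs separates.**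

Proof.  Let `F = crs o i R`.  If all `R`-arcs with tail `u` are cross, take `O = {u}^c`, `I = univ`.  If
all `R`-arcs with head `v` are cross, take `O = ∅`, `I = {v}`.  Otherwise put `F₀ = insert (u, v) F`
(`(u,v) ∉ R`), `H = E - F₀`, `f a = r - od F₀ a`, `g b = r - idg F₀ b`; these are true differences:
`od F₀ a ≤ r` for all `a` (for `a ≠ u` because `F ⊆ R`; for `a = u` because `od F u < r`), likewise
`idg F₀ b ≤ r`.  `∑ f = rn - |F₀| = ∑ g`.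
(i) If the condition of `S_Fac` holds we get `H₁ ⊆ H` with these degrees, and `R' = H₁ ∪ F₀` is an
`r`-regular subdigraph of `E` which contains `|F| + 1` cross arcs, a contradiction.
(ii) So there are `X`, `Y` with `∑_X f > e_H(X, Y) + ∑_{I} g`, `I = Y^c`.  Now `∑_X f = r|X| - e_{F₀}(X, V)`,
`∑_I g = r|I| - e_{F₀}(V, I)`, `e_H(X, Y) = e_E(X, Y) - e_{F₀}(X, Y)`.  Hence (in `ℤ`)
`r(|X| - |I|) + e_{F₀}(X^c, I) - e_E(X, Y) > 0`.  By `Reg.out` and `Reg.in`,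
`r(|X| - |I|) = e_R(X, Y) - e_R(X^c, I)`.  So
`[e_E(X, Y) - e_R(X, Y)] + [e_R(X^c, I) - e_{F₀}(X^c, I)] < 0`.  The first bracket is `≥ 0`, the second
is at least `- 1`, and `= e_R(X^c, I) - e_F(X^c, I) - 1` only if `u ∉ X`, `v ∈ I` (otherwise it is
`≥ 0`).  So `u ∉ X`, `v ∈ I`, `e_E(X, Y) = e_R(X, Y)` and `e_R(X^c, I) = e_F(X^c, I)`: all arcs of `E` from
`X` to `Y` are in `R` and all arcs of `R` from `X^c` to `I` are cross.  This says that `(X, I)` is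
closed; take `O = X`. -/
def S_SpC : Prop :=
  ∀ (n r K : ℕ) (E R : Finset (Fin n × Fin n)) (o i : Fin n → Fin K), R ⊆ E → Reg R r →
    (∀ R' ⊆ E, Reg R' r → (crs o i R').card ≤ (crs o i R).card) →
    ∀ u v, (u, v) ∈ E → (u, v) ∉ R → o u ≠ i v →
      ∃ O I : Finset (Fin n), Cld E R o i O I ∧ v ∈ I ∧ u ∉ O

/-- `lam` (for tails) and `mu` (for heads) are potentials -/
def Pt {n K : ℕ} (E R : Finset (Fin n × Fin n)) (o i : Fin n → Fin K) (lam mu : Fin n → ℕ) : Prop :=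
  (∀ u v, (u, v) ∈ E → (u, v) ∉ R → mu v ≤ lam u ∧ (o u ≠ i v → mu v + 1 ≤ lam u)) ∧
    ∀ u v, (u, v) ∈ R → o u = i v → lam u ≤ mu v

/-- (about 50 lines; uses `S_SpC`) **Potentials.**

Proof.  Let `𝓛` be the finite set of all closed pairs (`classical`), `lam u` the number of the
`(O, I) ∈ 𝓛` with `u ∉ O` and `mu v` the number of those with `v ∉ I`.  If `(u, v) ∈ E - R` then for every
closed pair `v ∉ I` implies `u ∉ O`; so `mu v ≤ lam u`; if moreover `o u ≠ i v` then by `S_SpC` there is a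
closed pair with `v ∈ I` and `u ∉ O`, so the inequality is strict.  If `(u, v) ∈ R` is own then `u ∉ O`
implies `v ∉ I`. -/
def S_Pot : Prop :=
  ∀ (n r K : ℕ) (E R : Finset (Fin n × Fin n)) (o i : Fin n → Fin K), R ⊆ E → Reg R r →
    (∀ R' ⊆ E, Reg R' r → (crs o i R').card ≤ (crs o i R).card) →
    ∃ lam mu : Fin n → ℕ, Pt E R o i lam mu

/-- exceptional tails: more than `n/100000` cross arcs of `R` -/
def XT {n K : ℕ} (R : Finset (Fin n × Fin n)) (o i : Fin n → Fin K) : Finset (Fin n) :=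
  univ.filter (fun u => n < 100000 * od (crs o i R) u)

/-- exceptional heads -/
def XH {n K : ℕ} (R : Finset (Fin n × Fin n)) (o i : Fin n → Fin K) : Finset (Fin n) :=
  univ.filter (fun v => n < 100000 * idg (crs o i R) v)

/-- the nonexceptional tails of class `a` at level `t` -/
def LO {n K : ℕ} (R : Finset (Fin n × Fin n)) (o i : Fin n → Fin K) (lam : Fin n → ℕ) (t : ℕ)
    (a : Fin K) : Finset (Fin n) :=
  univ.filter (fun u => u ∉ XT R o i ∧ lam u = t ∧ o u = a)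

/-- the nonexceptional heads of class `a` at level `t` -/
def LI {n K : ℕ} (R : Finset (Fin n × Fin n)) (o i : Fin n → Fin K) (mu : Fin n → ℕ) (t : ℕ)
    (a : Fin K) : Finset (Fin n) :=
  univ.filter (fun v => v ∉ XH R o i ∧ mu v = t ∧ i v = a)

/-- (about 200 lines) **The lowest level.**

Write `ε = 1/100000`.  Proof.  `|XT| · n/100000 ≤ |crs| < n²/10^10`, so `|XT| ≤ ε n`, in the same way
`|XH| ≤ ε n`.  Let `t` be the minimum of `lam u` for `u ∉ XT` (`XT ≠ univ` as `ε n < n`).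
(ii) Let `v ∉ XH`, suppose `mu v < t`.  At most `ε n` arcs of `R` with head `v` are cross, and at most
`|XT| ≤ ε n` of them have their tail in `XT`.  As `r > 2 ε n` (`3 n < 16 (r + 1)`, `n` large) there is an own
arc `(u, v) ∈ R` with `u ∉ XT`; `t ≤ lam u ≤ mu v < t`, a contradiction.
(iv) Let `u ∈ LO t a`.  An arc `(u, v) ∈ E - R` which is cross has `mu v < t`, so `v ∈ XH` by (ii); if it is
own and `v ∉ XH` then `mu v ≤ t`, so `mu v = t`, `i v = o u = a`, `v ∈ LI t a`.  So all arcs of `E - R` with tail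
`u` have their head in `LI t a ∪ XH`, and there are at least `3n/8 - r` of them.  First statement.  Own
arcs of `E` with tail `u` have their head in `I_a`; cross arcs of `E - R` have their head in `XH` (at most
`ε n`), and at most `ε n` arcs of `R` at `u` are cross (`u ∉ XT`): second statement.  (v) Let
`v ∈ LI t a`.  An own arc `(u, v) ∈ R` with `u ∉ XT` has `lam u ≤ mu v = t`, so `lam u = t`, `o u = i v = a`,
`u ∈ LO t a`.  So all but `2 ε n` of the `r` arcs of `R` with head `v` have their tail in `LO t a`.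
(vi) Sum (iv) (arcs of `E - R`) over `u ∈ LO t a` and (v) (arcs of `R`) over `v ∈ LI t a`. -/
def S_LwL : Prop :=
  ∀ (n r K : ℕ) (E R : Finset (Fin n × Fin n)) (o i : Fin n → Fin K) (lam mu : Fin n → ℕ),
    1000000 ≤ n → Semi E → 3 * n < 16 * (r + 1) → R ⊆ E → Reg R r → Pt E R o i lam mu →
    10000000000 * (crs o i R).card < n ^ 2 →
    ∃ t : ℕ, (∀ u, u ∉ XT R o i → t ≤ lam u) ∧ (∀ v, v ∉ XH R o i → t ≤ mu v) ∧
      (∃ u, u ∉ XT R o i ∧ lam u = t) ∧ ∀ a,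
        (∀ u ∈ LO R o i lam t a, (3 * n / 8 : ℝ) - r - n / 100000 ≤
            (((LI R o i mu t a).filter (fun v => (u, v) ∈ E ∧ (u, v) ∉ R)).card : ℝ) ∧
          (3 * n / 8 : ℝ) - 2 * (n / 100000) ≤ (Cl i a).card) ∧
        (∀ v ∈ LI R o i mu t a, (r : ℝ) - 2 * (n / 100000) ≤ (LO R o i lam t a).card) ∧
        ((3 * n / 8 : ℝ) - r - n / 100000) * (LO R o i lam t a).card +
          ((r : ℝ) - 2 * (n / 100000)) * (LI R o i mu t a).card ≤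
          eb E (LO R o i lam t a) (LI R o i mu t a)

/-- (about 200 lines; may use `S_LwL`) **The highest level.**

Write `ε = 1/100000`.  Proof, directly: let `t` be the maximum of `mu v` for `v ∉ XH`.  (ii) Let `u ∉ XT`,
suppose `lam u > t`; at most `ε n` arcs of `R` with tail `u` are cross and at most `|XH| ≤ ε n` of them have
their head in `XH`, so there is an own arc `(u, v) ∈ R`, `v ∉ XH`, `t < lam u ≤ mu v ≤ t`, a contradiction.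
(iv) Let `v ∈ LI t b`.  An arc `(u, v) ∈ E - R` which is cross has `lam u > t`, so `u ∈ XT`; if it is own and
`u ∉ XT` then `t ≤ lam u ≤ t`, `o u = b`, `u ∈ LO t b`; there are at least `3n/8 - r` arcs of `E - R` with head
`v`.  (v) Let `u ∈ LO t b`; an own arc `(u, v) ∈ R` with `v ∉ XH` has `t ≤ mu v ≤ t`, `v ∈ LI t b`.  The rest
as in `S_LwL`.  Or apply `S_LwL` to `rev E, rev R, i, o` with the potentials `M - mu`, `M - lam`
(`M` an upper bound of `lam` and `mu`). -/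
def S_HiL : Prop :=
  ∀ (n r K : ℕ) (E R : Finset (Fin n × Fin n)) (o i : Fin n → Fin K) (lam mu : Fin n → ℕ),
    1000000 ≤ n → Semi E → 3 * n < 16 * (r + 1) → R ⊆ E → Reg R r → Pt E R o i lam mu →
    10000000000 * (crs o i R).card < n ^ 2 →
    ∃ t : ℕ, (∀ v, v ∉ XH R o i → mu v ≤ t) ∧ (∀ u, u ∉ XT R o i → lam u ≤ t) ∧
      (∃ v, v ∉ XH R o i ∧ mu v = t) ∧ ∀ b,
        (∀ v ∈ LI R o i mu t b, (3 * n / 8 : ℝ) - r - n / 100000 ≤
            (((LO R o i lam t b).filter (fun u => (u, v) ∈ E ∧ (u, v) ∉ R)).card : ℝ) ∧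
          (3 * n / 8 : ℝ) - 2 * (n / 100000) ≤ (Cl o b).card) ∧
        (∀ u ∈ LO R o i lam t b, (r : ℝ) - 2 * (n / 100000) ≤ (LI R o i mu t b).card) ∧
        ((3 * n / 8 : ℝ) - r - n / 100000) * (LI R o i mu t b).card +
          ((r : ℝ) - 2 * (n / 100000)) * (LO R o i lam t b).card ≤
          eb E (LO R o i lam t b) (LI R o i mu t b)

/-! ## At least three classes are impossible -/

/-- (about 80 lines) **Overlaps.**

Proof.  Let `𝒫 = O × I ∪ O' × I'` (disjoint, as `O ∩ O' = ∅`) and `𝒬` the set of the `(u, v) ∈ 𝒫` with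
`(v, u) ∈ 𝒫`.  `𝒬` is the disjoint union of `(O ∩ I) × (O ∩ I)`, `(O' ∩ I') × (O' ∩ I')`,
`(O ∩ I') × (O' ∩ I)` and `(O' ∩ I) × (O ∩ I')` (`(u, v) ∈ O × I`, `(v, u) ∈ O × I`; and so on).  Exchange of the
two components maps `𝒬` to itself, and as `E` is oriented `E ∩ 𝒬` is disjoint from its image, so
`2 |E ∩ 𝒬| ≤ |𝒬|`.  Hence `2 |E ∩ 𝒫| ≤ 2 |𝒫| - |𝒬|`. -/
def S_CpD : Prop :=
  ∀ (n : ℕ) (E : Finset (Fin n × Fin n)), Ori E → ∀ O I O' I' : Finset (Fin n), Disjoint O O' →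
    Disjoint I I' →
    2 * eb E O I + 2 * eb E O' I' + (O ∩ I).card ^ 2 + (O' ∩ I').card ^ 2 +
      2 * ((O ∩ I').card * (O' ∩ I).card) ≤ 2 * (O.card * I.card) + 2 * (O'.card * I'.card)

/-- (about 150 lines, pure inequality) **The numerical contradiction for two different classes.**

Let `ε = 1/10000`.  Proof.  Put `ρ = r (3/8 - r)`, `α₁ = a₁ - r`, `α₂ = a₂ - (3/8 - r)`, `β₂ = b₂ - r`,
`β₁ = b₁ - (3/8 - r)`, `S = α₁ + α₂ + β₁ + β₂ = a₁ + a₂ + b₁ + b₂ - 3/4`, `w = √(ρ - ε)` (`ρ ≥ 3/100`).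
(1) The two product hypotheses say `α₁ α₂ ≥ ρ - ε = w²`, `β₁ β₂ ≥ w²`.  `α₁ ≥ -ε` and `β₂ ≥ -ε`.  If `α₂ < 0`
then `α₂ ≥ -(3/8 - r)` (as `a₂ ≥ 0`) and `α₁ α₂ ≤ ε` (both have absolute value ... `α₁ ≥ 0` gives a product
`≤ 0`, `-ε ≤ α₁ < 0` gives a product `≤ ε · 1`), but `w² > 2ε`; so `α₂ ≥ 0`, hence `α₁ > 0`, `α₂ > 0`; in the
same way `β₁, β₂ > 0`.
(2) Let `z₁ = √(α₁ α₂) ≥ w`, `z₂ = √(β₁ β₂) ≥ w`; `2 z₁ ≤ α₁ + α₂`, `2 z₂ ≤ β₁ + β₂`, so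
`y := z₁ + z₂ ≤ S/2`, `y ≥ 2w`; in particular `S ≥ 4w`.  `α₁α₂ + β₁β₂ - 2w² = y² - 2 z₁ z₂ - 2 w² ≤
y² - 2 w y` (because `(z₁ - w)(z₂ - w) ≥ 0`) `≤ S²/4 - w S` (`y² - 2wy` is increasing for `y ≥ w`).
(3) `F := a₁a₂ + b₁b₂ - (3/8 - r)(a₁ + b₂) - r (a₂ + b₁) = α₁α₂ + β₁β₂ - 2ρ ≤ S²/4 - w S`.
(4) Let `D = max (1 - b₁ - a₂) (1 - a₁ - b₂)`, `T = a₁ + a₂ + b₁ + b₂ - 1 = S - 1/4 > 0`.  Then
`x₁₁²/2 + x₂₂²/2 ≥ (x₁₁ + x₂₂)²/4` and `x₁₂ x₂₁ = ((x₁₂ + x₂₁)² - (x₁₂ - x₂₁)²)/4 ≥ ((x₁₂ + x₂₁)² - D²)/4`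
(as `|x₁₂ - x₂₁| ≤ D`), so the overlap term is at least `(T²/2 - D²)/4` (`(p² + q²) ≥ (p + q)²/2`,
`p + q ≥ T > 0`).
(5) With `P = α₁ + β₂ = a₁ + b₂ - 2r ≤ 1 - 3r + ε`, `Q = α₂ + β₁ = a₂ + b₁ - 3/4 + 2r ≤ 1/4 + r + ε`, `S = P + Q`:
`1 - a₁ - b₂ = 1 - 2r - P = 1 - 2r - S + Q ≤ 5/4 - r - S + ε` and
`1 - b₁ - a₂ = 1/4 + 2r - Q = 1/4 + 2r - S + P ≤ 5/4 - r - S + ε`; so `D ≤ 5/4 - r - S + ε`, and
`D ≥ 0` because `1 - a₁ - b₂ ≥ r - ε > 0`.  Also `S ≤ 5/4 - 2r + 2ε`.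
(6) The main hypothesis says `overlap term ≤ F + ε`.  So `q(S) ≤ 0` for
`q(S) = (S - 1/4)²/8 - (5/4 - r - S + ε)²/4 - S²/4 + w S - ε`.  This is concave in `S` (leading coefficient
`-3/8`), so it is enough to show `q(4w) > 0` and `q(5/4 - 2r + 2ε) > 0` for
`3/16 - ε ≤ r ≤ 1/4 + ε`.  There `4w ≥ L := 0.8775 - 0.687 r` (`L² ≤ 16 ρ - 16 ε = 6r - 16r² - 16ε`: the difference
is concave in `r` and positive at both ends).
(6a) `8 q(4w) = (4w - 1/4)² - 2 (c - 4w)² - 8ε` with `c = 5/4 - r + ε`; this is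
`- (4w)² + (4c - 1/2)(4w) + 1/16 - 2c² - 8ε ≥ (4c - 1/2) L - (6r - 16r² - 16ε) + 1/16 - 2c² - 8ε`, a
quadratic in `r`, at least `0.03` on the interval (values about `0.050` and `0.033` at the ends).
(6b) `q(5/4 - 2r + 2ε) = (1 - 2r + 2ε)²/8 - (r - ε)²/4 - S²/4 + w S - ε` with `S = 5/4 - 2r + 2ε`, `w ≥ L/4`; a
quadratic in `r`, values about `0.0123` and `0.0072` at the ends, at least `0.007` on the interval. -/
def S_InK : Prop :=
  ∀ r a₁ a₂ b₁ b₂ x₁₁ x₂₂ x₁₂ x₂₁ : ℝ, 3 / 16 - 1 / 10000 ≤ r → r ≤ 1 / 4 + 1 / 10000 →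
    0 ≤ a₂ → 0 ≤ b₁ → r - 1 / 10000 ≤ a₁ → r - 1 / 10000 ≤ b₂ → 0 ≤ x₁₁ → 0 ≤ x₂₂ → 0 ≤ x₁₂ →
    0 ≤ x₂₁ → (3 / 8 - r) * a₁ + r * a₂ ≤ a₁ * a₂ + 1 / 10000 →
    (3 / 8 - r) * b₂ + r * b₁ ≤ b₁ * b₂ + 1 / 10000 →
    a₁ + a₂ + b₁ + b₂ - 1 ≤ x₁₁ + x₂₂ + x₁₂ + x₂₁ → x₁₂ - x₂₁ ≤ 1 - b₁ - a₂ →
    x₂₁ - x₁₂ ≤ 1 - a₁ - b₂ → a₁ + b₂ ≤ 1 - r + 1 / 10000 → a₂ + b₁ ≤ 1 - r + 1 / 10000 →
    (3 / 8 - r) * (a₁ + b₂) + r * (a₂ + b₁) + (x₁₁ ^ 2 + x₂₂ ^ 2 + 2 * (x₁₂ * x₂₁)) / 2 ≤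
      a₁ * a₂ + b₁ * b₂ + 1 / 10000 → False

/-- (about 80 lines, pure inequality) **The numerical contradiction for one class.**

Let `ε = 1/10000`.  Proof.  As in `S_InK` (1): `α₁ = a₁ - r`, `α₂ = a₂ - (3/8 - r)` satisfy
`α₁ α₂ ≥ w² := r (3/8 - r) - ε > 2ε` and `α₁ ≥ -ε`, `α₂ ≥ -(3/8 - r)`, so both are positive and
`a₁ + a₂ ≥ 3/8 + 2w`; in the same way `b₁ + b₂ ≥ 3/8 + 2w`.  So `3/4 + 4w ≤ 2 - 4r + ε`, i.e.
`w ≤ 5/16 - r + ε`.  But `w² > (5/16 - r + ε)²` if `5/16 - r + ε ≥ 0`: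
`r (3/8 - r) - (5/16 - r)² = r - 2r² - 25/256 ≥ 0.019` on `[3/16 - ε, 5/16 + ε]` (concave, value `0.0195` at
both ends), and if `5/16 - r + ε < 0` then `w > 0` is a contradiction. -/
def S_InK1 : Prop :=
  ∀ r a₁ a₂ b₁ b₂ : ℝ, 3 / 16 - 1 / 10000 ≤ r → r ≤ 5 / 16 + 1 / 10000 → 0 ≤ a₂ → 0 ≤ b₁ →
    r - 1 / 10000 ≤ a₁ → r - 1 / 10000 ≤ b₂ →
    (3 / 8 - r) * a₁ + r * a₂ ≤ a₁ * a₂ + 1 / 10000 →
    (3 / 8 - r) * b₂ + r * b₁ ≤ b₁ * b₂ + 1 / 10000 →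
    a₁ + a₂ + b₁ + b₂ ≤ 2 - 4 * r + 1 / 10000 → False

/-- (about 250 lines; uses `S_Pot`, `S_LwL`, `S_HiL`, `S_CpD`, `S_InK`, `S_InK1`) **At least three classes.**

Write `ε = 1/100000`, `ε' = 1/10000`, and `ρ = r/n` etc. for the quotients by `n`.  Proof.  Take `lam, mu`
from `S_Pot`, `t` from `S_LwL` and `t'` from `S_HiL`.  `|XT|, |XH| ≤ ε n`.  `r ≤ |O_a| + ε n`, `r ≤ |I_a| + ε n` for all `a`
by hypothesis; `r ≥ 3n/16 - 1`.
(0) `|I_b| ≤ |O_b| + ε n` and `|O_b| ≤ |I_b| + ε n`: the `r |I_b|` arcs of `R` with head in `I_b` have their tail in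
`O_b` or are cross, so `r |I_b| ≤ r |O_b| + n²/10^10` and `r ≥ n/8`.
(1) `t ≤ t'`, because there is `u ∉ XT` with `lam u = t`, and `lam u ≤ t'`.
(2) Suppose `t = t'`.  Then `lam u = t` for all `u ∉ XT`.  Every class `c` contains some `u ∉ XT` with `o u = c`
(`|O_c| ≥ r - ε n > ε n`), so `u ∈ LO t c` and `|I_c| ≥ 3n/8 - 2 ε n`.  As there are at least three classes,
`n ≥ 3 (3n/8 - 2 ε n) > n`, a contradiction.
(3) So `t < t'`.  Let `a = o u` for some `u ∉ XT` with `lam u = t`, and `b = i v` for some `v ∉ XH` with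
`mu v = t'`; `O = LO t a`, `I = LI t a`, `O' = LO t' b`, `I' = LI t' b`.  `O` and `I'` are nonempty,
`|I_a| ≥ 3n/8 - 2εn`, `|O_b| ≥ 3n/8 - 2εn`, `O ∩ O' = ∅` and `I ∩ I' = ∅` (different levels).
(3a) An upper bound for `r`: if `a = b`, two other classes have `|I_c| ≥ r - ε n`, so
`2 (r - εn) ≤ n - |I_a|`, `r ≤ (5/16 + 2ε) n`.  If `a ≠ b` there is a third class `c`, and
`|I_a| + |I_b| + |I_c| ≤ n` with `|I_b| ≥ |O_b| - ε n` gives `r ≤ (1/4 + 6ε) n`.  In both cases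
`3n/8 - r - ε n > 0`, so `I` is nonempty (first statement of `S_LwL` for some `u ∈ O`) and
`|O| ≥ r - 2 ε n`; in the same way `O'` is nonempty and `|I'| ≥ r - 2 ε n`.
(3b) With `a₁ = |O|/n`, `a₂ = |I|/n`, `b₁ = |O'|/n`, `b₂ = |I'|/n`: `eb E O I ≤ |O||I|` and the last statement
of `S_LwL` give `(3/8 - ρ) a₁ + ρ a₂ ≤ a₁ a₂ + 3ε`, and in the same way for `b`.
(4) `a = b`: `O, O' ⊆ O_a` are disjoint, `I, I' ⊆ I_a` are disjoint, and
`|O_a| + |I_a| ≤ 2 n - 4 (r - ε n)` (two other classes); `S_InK1`.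
(5) `a ≠ b`: let `x₁₁ = |O ∩ I|/n`, `x₂₂ = |O' ∩ I'|/n`, `x₁₂ = |O ∩ I'|/n`, `x₂₁ = |O' ∩ I|/n`.  These four sets
are disjoint and their union is `(O ∪ O') ∩ (I ∪ I')`, which has at least
`|O| + |O'| + |I| + |I'| - n` elements.  `O ∩ I'` is disjoint from `O' ∪ I` (`O ∩ O' = ∅`, `I ∩ I' = ∅`), and
`|O' ∪ I| = |O'| + |I| - |O' ∩ I|`; so `x₁₂ + b₁ + a₂ - x₂₁ ≤ 1`; in the same way `x₂₁ + a₁ + b₂ - x₁₂ ≤ 1`.
With a third class `c`: `a₁ + b₂ ≤ (|O_a| + |I_b|)/n ≤ (|O_a| + |O_b|)/n + ε ≤ 1 - |O_c|/n + ε ≤ 1 - ρ + 2ε`, the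
same for `a₂ + b₁`.  The last inequality is `S_CpD` together with the last statements of `S_LwL` and
`S_HiL`.  `S_InK`. -/
def S_K3 : Prop :=
  ∀ (n r K : ℕ) (E R : Finset (Fin n × Fin n)) (o i : Fin n → Fin K), 1000000 ≤ n → Ori E →
    Semi E → 3 * n < 16 * (r + 1) → R ⊆ E → Reg R r → 3 ≤ K →
    (∀ R' ⊆ E, Reg R' r → (crs o i R').card ≤ (crs o i R).card) →
    10000000000 * (crs o i R).card < n ^ 2 →
    (∀ a, (r : ℝ) - n / 100000 ≤ (Cl o a).card ∧ (r : ℝ) - n / 100000 ≤ (Cl i a).card) → False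

/-- (about 200 lines; uses `S_Pot`, `S_LwL`, `S_HiL`) **Two classes: one of the types `(a, a)` is large.**

Write `ε = 1/100000`.  Proof.  Suppose `|O_a ∩ I_a| < ε n` for both `a`.  Let `A = O_0`, so `A^c = O_1`.
(0) `E` has at most `n²/4 + 2 ε n²` own arcs: let `(u, v)` be own, `o u = i v = a`; if `o v = a` then
`v ∈ O_a ∩ I_a`, at most `2 ε n` such heads, at most `2 ε n²` arcs.  Otherwise `o v ≠ o u`, so exactly one of
`u, v` is in `A`; as `E` is oriented, at most one of `(u, v)`, `(v, u)` is an arc, so there are at most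
`|A| |A^c| ≤ n²/4` such arcs.
(1) `R` has at least `r n - n²/10^10` own arcs, so `r ≤ (1/4 + 3ε) n`.
(2) Take `lam, mu, t, t'` as in `S_K3`; `t ≤ t'`.  If `t = t'` then `lam u = t` for all `u ∉ XT` and `mu v ≥ t` for all
`v ∉ XH`, so every cross arc `(u, v)` of `E - R` has `u ∈ XT` or `v ∈ XH` (otherwise `mu v < lam u = t`).  So `E`
has at most `2 ε n² + n²/10^10` cross arcs and `3n²/8 ≤ |E| ≤ n²/4 + 5 ε n²`, a contradiction.
(3) `t < t'`: let `u₀ ∉ XT`, `lam u₀ = t`, `a = o u₀`, `O = LO t a`, `I = LI t a`; `v₀ ∉ XH`, `mu v₀ = t'`,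
`b = i v₀`, `O' = LO t' b`, `I' = LI t' b`.  As `3n/8 - r - ε n > 0` (by (1)), `I` is nonempty and
`|O| ≥ r - 2 ε n`; in the same way `|I'| ≥ r - 2 ε n`.  The arcs of `E - R` from `O` to `I` are own, and
there are at least `(3n/8 - r - ε n) |O|` of them (first statement of `S_LwL`); in the same way there are
at least `(3n/8 - r - ε n) |I'|` arcs of `E - R` from `O'` to `I'` and they are own.  No own arc `(u, v)` of `E - R` has `u ∈ O` and `v ∈ I'` (`t' = mu v ≤ lam u = t`).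
So the number of own arcs of `E` is at least
`r n - n²/10^10 + 2 (3n/8 - r - ε n)(r - 2 ε n)`, and with `ρ = r/n ∈ [3/16 - 1/n, 1/4 + 3ε]`:
`ρ + 2 (3/8 - ρ) ρ - 10 ε ≤ 1/4 + 2ε`; but `ρ + 2 (3/8 - ρ) ρ = 7ρ/4 - 2ρ² ≥ 0.257` (increasing for
`ρ < 7/16`). -/
def S_Per : Prop :=
  ∀ (n r : ℕ) (E R : Finset (Fin n × Fin n)) (o i : Fin n → Fin 2), 1000000 ≤ n → Ori E →
    Semi E → 3 * n < 16 * (r + 1) → R ⊆ E → Reg R r →
    (∀ R' ⊆ E, Reg R' r → (crs o i R').card ≤ (crs o i R).card) →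
    10000000000 * (crs o i R).card < n ^ 2 →
    ∃ a, n ≤ 100000 * (Cl o a ∩ Cl i a).card

/-! ## Reducing the number of classes -/

/-- (about 80 lines; uses `S_K3`, `S_Per`) **A regular subdigraph with many cross arcs.**

Proof.  Let `R'` be an `r`-regular subdigraph of `E` with the maximal number of cross arcs (finitely
many, `R` is one).  Suppose `10^10 |crs o i R'| < n²`.  If `K ≥ 3`, `S_K3` is a contradiction.  If `K = 2`,
`S_Per` gives the class `a` excluded by the hypothesis.  If `K = 1` then for the only class `a`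
`Cl o a ∩ Cl i a = univ`, again excluded. -/
def S_St1 : Prop :=
  ∀ (n r K : ℕ) (E R : Finset (Fin n × Fin n)) (o i : Fin n → Fin K), 1000000 ≤ n → Ori E →
    Semi E → 3 * n < 16 * (r + 1) → R ⊆ E → Reg R r → 1 ≤ K →
    (∀ a, (r : ℝ) - n / 100000 ≤ (Cl o a).card ∧ (r : ℝ) - n / 100000 ≤ (Cl i a).card) →
    ¬ (K ≤ 2 ∧ ∃ a, n ≤ 100000 * (Cl o a ∩ Cl i a).card) →
    ∃ R' ⊆ E, Reg R' r ∧ n ^ 2 ≤ 10000000000 * (crs o i R').card

/-- (about 250 lines) **Coarsening.**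

Proof.  Write `ε2 = (K0² + 2) ε1`, `e_R(X, Y) = eb R X Y`.
(1) `|crs o' i' R| = ∑_{c ≠ c'} e_R(Cl o' c, Cl i' c') ≤ 2 |crs o' i' R''| + K'² ε1 n² ≤ ε2 n²`, the same for `R'`
in the place of `R`.
(2) Let `a` be a class of `(o, i)`, `c` a class of `(o', i')`.  `Rob` for `X = O_a ∩ O'_c`, `Y = I_a \ I'_c`:
the arcs from `X` to `Y` and those from `O_a \ X = O_a \ O'_c` to `I_a \ Y = I_a ∩ I'_c` are all cross for
`(o', i')`, so `e_R(X, Y) + e_R(O_a \ X, I_a \ Y) ≤ ε2 n² < ν n²` (`2 ε2 < ν`).  So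
`|O_a ∩ O'_c| + |I_a ∩ I'_c| < β n` or `|O_a \ O'_c| + |I_a \ I'_c| < β n`.  If the first holds for all `c` then
`|O_a| ≤ K' β n ≤ K0 β n ≤ (α/4) n`, against `|O_a| ≥ α n/2` (`n ≥ 1`, `α > 0`).  So there is `c = φ a` with the
second.
(3) `φ` is surjective: if `c` is not a value of `φ` then for all `a`,
`|O_a ∩ O'_c| ≤ |O_a \ O'_(φ a)| < β n`, so `|O'_c| ≤ K β n ≤ (α/4) n`, a contradiction.  So `K' ≤ K`.
(4) Suppose `K' = K`; then `φ` is injective.  Let `M` be the set of the `v` with `o' v ≠ φ (o v)`.  Let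
`v ∈ M`, `a = o v`.  At least `r/K ≥ α n/K0` arcs `(v, w) ∈ R` have `i w = a`; at most `|I_a \ I'_(φ a)| < β n`
of these `w` are not in `I'_(φ a)`; the others are cross arcs for `(o', i')`.  So
`|M| (α/K0 - β) n ≤ ε2 n²` and, as `β ≤ α/(4 K0)`, `|M| ≤ (2 K0/α) ε2 n`.  In the same way for the set `M'` of
the `v` with `i' v ≠ φ (i v)`.  A cross arc `(u, v)` of `R'` for `(o, i)` with `u ∉ M`, `v ∉ M'` is a cross arc
for `(o', i')`: `o' u = φ (o u) ≠ φ (i v) = i' v`.  So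
`|crs o i R'| ≤ ε2 n² + (|M| + |M'|) n ≤ ε2 n² + (4 K0/α) ε2 n² < z n²`, a contradiction. -/
def S_Phi : Prop :=
  ∀ (n r K K' K0 : ℕ) (R R' R'' : Finset (Fin n × Fin n)) (o i : Fin n → Fin K)
    (o' i' : Fin n → Fin K') (α β ν ε1 z : ℝ), 1 ≤ n → 0 < α → 0 < β → 0 < ε1 →
    4 * K0 * β ≤ α → 2 * ((K0 ^ 2 + 2) * ε1) < ν → (K0 ^ 2 + 2) * ε1 * (α + 4 * K0) < z * α →
    K ≤ K0 → K' ≤ K0 → 1 ≤ K → Reg R r → Reg R' r → Reg R'' r → α * n ≤ r →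
    (∀ X Y : Finset (Fin n), (eb R X Y : ℝ) ≤ 2 * eb R'' X Y + ε1 * (n : ℝ) ^ 2) →
    (∀ X Y : Finset (Fin n), (eb R' X Y : ℝ) ≤ 2 * eb R'' X Y + ε1 * (n : ℝ) ^ 2) →
    Rob o i R β ν → (∀ v, r ≤ K * od (own o i R) v) → (∀ v, r ≤ K * idg (own o i R) v) →
    (∀ a, α * n ≤ 2 * (Cl o a).card ∧ α * n ≤ 2 * (Cl i a).card) →
    ((crs o' i' R'').card : ℝ) ≤ ε1 * (n : ℝ) ^ 2 →
    (∀ c, α * n ≤ 2 * (Cl o' c).card ∧ α * n ≤ 2 * (Cl i' c).card) →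
    z * (n : ℝ) ^ 2 ≤ (crs o i R').card → K' < K

/-- the classes of `R` are as wanted: few cross arcs, robustness, large own degrees, large classes -/
structure StC {n K : ℕ} (R : Finset (Fin n × Fin n)) (r : ℕ) (o i : Fin n → Fin K) (γ β ν : ℝ) :
    Prop where
  few : ((crs o i R).card : ℝ) ≤ γ * (n : ℝ) ^ 2
  rob : Rob o i R β ν
  odo : ∀ v, r ≤ K * od (own o i R) v
  ido : ∀ v, r ≤ K * idg (own o i R) v
  sz : ∀ a, (1 / 8 : ℝ) * n ≤ 2 * (Cl o a).card ∧ (1 / 8 : ℝ) * n ≤ 2 * (Cl i a).card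

/-- (about 200 lines; uses `S_AvX`, `S_Small`, `S_Cls`, `S_Phi`) **One step.**

Proof.  `K0 = 16`, `α = 1/8`, `z = 1/10^10`, `β' = min β (1/1000)`.  Let `m > 0` be the minimum of `V` (`V`
nonempty; otherwise nothing is to be shown) and `c = min (m/1000) (1/10^16)`; this is the `ε1` of
`S_Phi`: `K0² + 2 = 258`, `2 · 258 c < m`, `258 c (1/8 + 64) < 10^(-10)/8`, `4 K0 β' ≤ 1/8`.
Apply `S_Cls` for `α, β'` and `f1 x = min (f x) c`: `νs`; `V' = {νs K : K ≤ 16}`.  Let `R, o, i, ν, R'` be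
given.  `S_AvX` gives `R''` with `eb R X Y ≤ 2 eb R'' X Y + 8 n√n`, the same for `R'`; `8 n √n ≤ c n²` for
`√n ≥ 8/c`.  `R'' ⊆ E`.  Dense cuts of `R''`: let `W` be given, by `Reg.bal` we may assume `|W| ≤ |W^c|`.
If `|W| ≤ n/100` then `S_Small` gives `2 e(W, W^c) ≥ |W| (2r - |W|) ≥ |W| n/4`, so
`e(W, W^c) ≥ |W| n/8 ≥ (η/4) |W| |W^c|` (`η ≤ 1/4`).  Otherwise `|W| |W^c| ≥ n²/200` and
`2 e_(R'')(W, W^c) ≥ η |W||W^c| - 8 n√n ≥ (η/2) |W||W^c|` for `n` large (`√n ≥ 3200/η`).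
`S_Cls` for `R''` gives `K' ≤ 16, o', i'` with `|crs o' i' R''| ≤ f1 (νs K') n²`, etc.  `S_Phi` (with `β'`)
gives `K' < K`. -/
def S_St2 : Prop :=
  ∀ (β η : ℝ) (f : ℝ → ℝ), 0 < β → 0 < η → η ≤ 1 / 4 → (∀ x, 0 < x → 0 < f x) →
    ∀ V : Finset ℝ, (∀ x ∈ V, 0 < x) → ∃ V' : Finset ℝ, (∀ x ∈ V', 0 < x) ∧ ∃ n0 : ℕ,
      ∀ n, n0 ≤ n → ∀ (E R R' : Finset (Fin n × Fin n)) (r K : ℕ) (o i : Fin n → Fin K) (ν : ℝ),
        Ori E → 3 * n < 16 * (r + 1) → R ⊆ E → R' ⊆ E → Reg R r → Reg R' r →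
        (∀ W : Finset (Fin n), η * W.card * Wᶜ.card ≤ eb R W Wᶜ) → K ≤ 16 → 1 ≤ K → ν ∈ V →
        StC R r o i (f ν) (min β (1 / 1000)) ν → n ^ 2 ≤ 10000000000 * (crs o i R').card →
        ∃ R'' ⊆ E, Reg R'' r ∧ (∀ W : Finset (Fin n), η / 4 * W.card * Wᶜ.card ≤ eb R'' W Wᶜ) ∧
          ∃ K' : ℕ, K' < K ∧ 1 ≤ K' ∧ ∃ (o' i' : Fin n → Fin K'), ∃ ν' ∈ V',
            StC R'' r o' i' (f ν') (min β (1 / 1000)) ν'

/-- (about 200 lines; uses `S_CutD`, `S_Cls`, `S_St1`, `S_St2`) **At most two classes.**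

Proof.  Let `β' = min β (1/1000)` and replace `f` by `f x := min (f x) (1/10^7)` (the conclusion gets
stronger).  (a) Sizes: if `StC R r o i γ β' ν` with `γ ≤ 1/10^7`, `r ≥ n/8` then
`r - n/100000 ≤ |O_a|, |I_a|`: `r |I_a| ≤ |O_a| |I_a| + γ n²` and `|I_a| ≥ n/16`, so
`|O_a| ≥ r - 16 γ n ≥ r - n/100000`; the same for `I_a`.
(b) Claim, by induction on `m`: for all `η ∈ (0, 1/4]` and all finite `V` of positive numbers there are
a finite `V'` of positive numbers and `n0` such that for `n ≥ n0`, `Ori E`, `Semi E`, `3n < 16 (r+1)`, `R ⊆ E`,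
`Reg R r`, with `η |W||W^c| ≤ eb R W W^c`, and `K ≤ m` classes with `StC R r o i (f ν) β' ν`, `ν ∈ V`, `1 ≤ K ≤ 16`,
the conclusion of the statement holds with `η / 4^m` in the place of `η0` and some `ν' ∈ V'`.  Proof: if
`K ≤ 2` and `n ≤ 100000 |Cl o a ∩ Cl i a|` for some `a` take `R` itself (`V ⊆ V'`).  Otherwise `S_St1` (sizes by (a))
gives `R'`, and `S_St2` (for `η`, `V`) gives `R''`, `K' < K ≤ m`, so `K' ≤ m - 1`, and `V''`; apply the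
induction hypothesis for `η/4`, `V''`.  (`m = 0` is impossible as `1 ≤ K`.)  `V'` is `V` together with the set
from the induction hypothesis; `η/4/4^(m-1) = η/4^m`.
(c) `η1, N1` from `S_CutD`; `η = min η1 (1/4)`, `η0 = η/4^16`.  `S_Cls` for `α = 1/8`, `β'`, `f` gives `νs`, let
`V = {νs K : K ≤ 16}`; the claim for `m = 16`.  Given `E`, `r`: `S_CutD` gives `R`; `S_Cls` gives `K ≤ 16`
(`K/8 ≤ 2`) classes with `StC R r o i (f (νs K)) β' (νs K)`.  Here `r ≥ n/8` for `n ≥ 16`.  In the conclusion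
`Rob` for `β'` implies `Rob` for `β`. -/
def S_Str : Prop :=
  ∃ η0 : ℝ, 0 < η0 ∧ ∀ (β : ℝ) (f : ℝ → ℝ), 0 < β → (∀ x, 0 < x → 0 < f x) →
    ∃ V : Finset ℝ, (∀ x ∈ V, 0 < x) ∧ ∃ n0 : ℕ, ∀ n, n0 ≤ n → ∀ E : Finset (Fin n × Fin n),
      Ori E → Semi E → ∀ r : ℕ, 3 * n < 16 * (r + 1) → (∃ R ⊆ E, Reg R r) →
        ∃ R ⊆ E, Reg R r ∧ (∀ W : Finset (Fin n), η0 * W.card * Wᶜ.card ≤ eb R W Wᶜ) ∧
          ∃ K : ℕ, 1 ≤ K ∧ K ≤ 2 ∧ ∃ (o i : Fin n → Fin K), ∃ ν ∈ V, StC R r o i (f ν) β ν ∧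
            ∃ a, n ≤ 100000 * (Cl o a ∩ Cl i a).card

end Pool.Agent.MPd266dbE
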