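import Pool.Agent.Lib.MP_d266db_co.E.SpecF
import Pool.Agent.Lib.MP_d266db_co.E.SpecI

/-!
# MP_d266db_co, E: iterated halving
-/

set_option autoImplicit false

namespace Pool.Agent.MPd266dbE

open Finset Pool.Agent.MPd266db Pool.Agent.MPd266dbH

theorem tHvs (hHfX : S_HfX) : S_Hvs := by
  have key : ∀ (n j : ℕ) (H : Finset (Fin n × Fin n)) (f g : Fin n → ℕ),
      (∀ v, od H v = 2 ^ j * f v ∧ idg H v = 2 ^ j * g v) →
      ∃ W ⊆ H, (∀ v, od W v = f v ∧ idg W v = g v) ∧ ∀ X Y : Finset (Fin n),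
        (eb H X Y : ℝ) ≤ 2 ^ j * eb W X Y + (2 ^ j - 1) * (8 * (n * Real.sqrt n)) := by
    intro n j
    induction j with
    | zero =>
      intro H f g hH
      refine ⟨H, Subset.rfl, fun v => by simpa using hH v, fun X Y => by simp⟩
    | succ j ih =>
      intro H f g hH
      obtain ⟨H', hH', hd, he⟩ := hHfX n H (fun v => by
        rw [(hH v).1, (hH v).2]
        constructor
        · exact ⟨2 ^ j * f v, by ring⟩
        · exact ⟨2 ^ j * g v, by ring⟩)
      obtain ⟨W, hW, hWd, hWe⟩ := ih H' f g (fun v => by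
        have h1 := (hd v).1
        have h2 := (hd v).2
        rw [(hH v).1, pow_succ'] at h1
        rw [(hH v).2, pow_succ'] at h2
        constructor
        · have h3 : 2 * od H' v = 2 * (2 ^ j * f v) := by rw [h1]; ring
          exact Nat.eq_of_mul_eq_mul_left (by norm_num) h3
        · have h3 : 2 * idg H' v = 2 * (2 ^ j * g v) := by rw [h2]; ring
          exact Nat.eq_of_mul_eq_mul_left (by norm_num) h3)
      refine ⟨W, hW.trans hH', hWd, fun X Y => ?_⟩
      have h1 := he X Y
      have h2 := hWe X Y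
      rw [pow_succ]
      linarith
  intro n j H f g hH
  obtain ⟨W, hW, hWd, hWe⟩ := key n j H f g hH
  refine ⟨W, hW, hWd, fun X Y => (hWe X Y).trans ?_⟩
  have h1 : (0 : ℝ) ≤ 8 * (n * Real.sqrt n) := by positivity
  linarith

end Pool.Agent.MPd266dbE
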