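import Pool.Agent.Lib.MP_d266db_co.E.SpecH

/-!
# MP_d266db_co, E, Imb: the imbalance of two classes
-/

set_option autoImplicit false

namespace Pool.Agent.MPd266dbE

open Finset Pool.Agent.MPd266db Pool.Agent.MPd266dbH

private theorem imb_sum {n K : ℕ} (f : Fin n → Fin K) : ∑ a, (Cl f a).card = n := by
  have h := card_eq_sum_card_fiberwise (f := f) (s := (univ : Finset (Fin n)))
    (t := (univ : Finset (Fin K))) (fun x _ => mem_univ _)
  rw [card_univ, Fintype.card_fin] at h
  exact h.symm

theorem tImb : S_Imb := by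
  intro n K o i h1 h2
  have hK : K = 1 ∨ K = 2 := by omega
  rcases hK with hK | hK
  · subst hK
    have e1 := imb_sum o
    have e2 := imb_sum i
    rw [Fin.sum_univ_one] at e1 e2
    refine ⟨0, 0, 0, ⟨?_, ?_, ?_⟩, fun h => absurd rfl h⟩
    · intro x y hxy
      exact absurd (Subsingleton.elim x y) hxy
    · omega
    · omega
  · subst hK
    have e1 := imb_sum o
    have e2 := imb_sum i
    rw [Fin.sum_univ_two] at e1 e2
    rcases Nat.le_total (Cl i 0).card (Cl o 0).card with h | h
    · refine ⟨0, 1, (Cl o 0).card - (Cl i 0).card, ⟨?_, ?_, ?_⟩, fun _ => by decide⟩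
      · decide
      · omega
      · omega
    · refine ⟨1, 0, (Cl i 0).card - (Cl o 0).card, ⟨?_, ?_, ?_⟩, fun _ => by decide⟩
      · decide
      · omega
      · omega

end Pool.Agent.MPd266dbE
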