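import Pool.Agent.Lib.MP_d266db_co.E.SpecI

/-!
# MP_d266db_co, E: the numerical contradiction for two different classes (`S_InK`)
-/

set_option autoImplicit false

namespace Pool.Agent.MPd266dbE

/-- both factors are positive -/
theorem ink_pos (r p q : ℝ) (h1 : 3 / 16 - 1 / 10000 ≤ r) (h2 : r ≤ 1 / 4 + 1 / 10000)
    (hp : -(1 / 10000) ≤ p) (hq : -(3 / 8 - r) ≤ q) (h : r * (3 / 8 - r) - 1 / 10000 ≤ p * q) :
    0 < p ∧ 0 < q := by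
  have hw : 19 / 1000 ≤ r * (3 / 8 - r) - 1 / 10000 := by
    have h9 := mul_nonneg (sub_nonneg.2 h1) (sub_nonneg.2 h2)
    nlinarith only [h1, h2, h9]
  have hq0 : 0 < q := by
    by_contra hcon
    push Not at hcon
    by_cases hp0 : 0 ≤ p
    · have h3 := mul_nonneg hp0 (neg_nonneg.2 hcon)
      linarith
    · push Not at hp0
      have h3 : (-p) * (-q) ≤ 1 / 10000 * (3 / 8 - r) :=
        mul_le_mul (by linarith) (by linarith) (by linarith) (by norm_num)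
      linarith
  refine ⟨?_, hq0⟩
  by_contra hcon
  push Not at hcon
  have h3 := mul_nonneg (neg_nonneg.2 hcon) hq0.le
  linarith

/-- the sum of two numbers with a given product -/
theorem ink_sum (p q w : ℝ) (hp : 0 < p) (hq : 0 < q) (hw : 0 ≤ w) (h : w ^ 2 ≤ p * q) :
    2 * w ≤ p + q := by
  have h1 : (2 * w) ^ 2 ≤ (p + q) ^ 2 := by nlinarith [sq_nonneg (p - q)]
  exact (pow_le_pow_iff_left₀ (by linarith) (by linarith) two_ne_zero).1 h1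

/-- the value at `S = 4 w` -/
theorem ink_q0 (r w : ℝ) (h1 : 3 / 16 - 1 / 10000 ≤ r) (h2 : r ≤ 1 / 4 + 1 / 10000)
    (hw : w ^ 2 = r * (3 / 8 - r) - 1 / 10000) (hL : 8775 / 10000 - 687 / 1000 * r ≤ 4 * w) :
    0 < (4 * w - 1 / 4) ^ 2 / 8 - (5 / 4 - r - 4 * w + 1 / 10000) ^ 2 / 4 - (4 * w) ^ 2 / 4 +
      w * (4 * w) - 1 / 10000 := by
  have e : (4 * w - 1 / 4) ^ 2 / 8 - (5 / 4 - r - 4 * w + 1 / 10000) ^ 2 / 4 - (4 * w) ^ 2 / 4 +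
      w * (4 * w) - 1 / 10000 = -2 * w ^ 2 + (4 * (5 / 4 - r + 1 / 10000) - 1 / 2) * (4 * w) / 8 +
      1 / 128 - (5 / 4 - r + 1 / 10000) ^ 2 / 4 - 1 / 10000 := by ring
  rw [e, hw]
  have hc : 0 ≤ 4 * (5 / 4 - r + 1 / 10000) - 1 / 2 := by linarith
  have h3 := mul_le_mul_of_nonneg_left hL hc
  have h4 := mul_nonneg (sub_nonneg.2 h1) (sub_nonneg.2 h2)
  nlinarith only [h1, h2, h3, h4]

/-- the value at `S = 5 / 4 - 2 r + 2 ε` -/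
theorem ink_q1 (r w : ℝ) (h1 : 3 / 16 - 1 / 10000 ≤ r) (h2 : r ≤ 1 / 4 + 1 / 10000)
    (hL : 8775 / 10000 - 687 / 1000 * r ≤ 4 * w) :
    0 < (5 / 4 - 2 * r + 2 / 10000 - 1 / 4) ^ 2 / 8 -
      (5 / 4 - r - (5 / 4 - 2 * r + 2 / 10000) + 1 / 10000) ^ 2 / 4 -
      (5 / 4 - 2 * r + 2 / 10000) ^ 2 / 4 + w * (5 / 4 - 2 * r + 2 / 10000) - 1 / 10000 := by
  have hc : 0 ≤ 5 / 4 - 2 * r + 2 / 10000 := by linarith
  have h3 := mul_le_mul_of_nonneg_left hL hc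
  have h4 := mul_nonneg (sub_nonneg.2 h1) (sub_nonneg.2 h2)
  nlinarith only [h1, h2, h3, h4]

/-- concavity -/
theorem ink_conc (c w e S S0 S1 : ℝ) (h0 : S0 ≤ S) (h1 : S ≤ S1)
    (q0 : 0 < (S0 - 1 / 4) ^ 2 / 8 - (c - S0) ^ 2 / 4 - S0 ^ 2 / 4 + w * S0 - e)
    (q1 : 0 < (S1 - 1 / 4) ^ 2 / 8 - (c - S1) ^ 2 / 4 - S1 ^ 2 / 4 + w * S1 - e) :
    0 < (S - 1 / 4) ^ 2 / 8 - (c - S) ^ 2 / 4 - S ^ 2 / 4 + w * S - e := by
  rcases eq_or_lt_of_le (h0.trans h1) with h | h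
  · have : S = S0 := le_antisymm (by rw [h]; exact h1) h0
    rw [this]
    exact q0
  · have e1 : (S1 - S0) * ((S - 1 / 4) ^ 2 / 8 - (c - S) ^ 2 / 4 - S ^ 2 / 4 + w * S - e) =
        (S1 - S) * ((S0 - 1 / 4) ^ 2 / 8 - (c - S0) ^ 2 / 4 - S0 ^ 2 / 4 + w * S0 - e) +
        (S - S0) * ((S1 - 1 / 4) ^ 2 / 8 - (c - S1) ^ 2 / 4 - S1 ^ 2 / 4 + w * S1 - e) +
        3 / 8 * ((S - S0) * (S1 - S) * (S1 - S0)) := by ring
    have p0 : 0 < S1 - S0 := by linarith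
    have p1 : 0 ≤ S - S0 := by linarith
    have p2 : 0 ≤ S1 - S := by linarith
    have p3 : 0 ≤ (S - S0) * (S1 - S) * (S1 - S0) := by positivity
    have p4 : 0 < (S1 - S0) *
        ((S - 1 / 4) ^ 2 / 8 - (c - S) ^ 2 / 4 - S ^ 2 / 4 + w * S - e) := by
      rw [e1]
      rcases eq_or_lt_of_le p1 with h3 | h3
      · have h4 : 0 < S1 - S := by linarith
        have h5 := mul_pos h4 q0
        have h6 := mul_nonneg p1 q1.le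
        linarith
      · have h5 := mul_nonneg p2 q0.le
        have h6 := mul_pos h3 q1
        linarith
    exact (mul_pos_iff_of_pos_left p0).1 p4

/-- the product hypothesis -/
theorem ink_prod (r x y : ℝ) (h : (3 / 8 - r) * x + r * y ≤ x * y + 1 / 10000) :
    r * (3 / 8 - r) - 1 / 10000 ≤ (x - r) * (y - (3 / 8 - r)) := by
  have e : (x - r) * (y - (3 / 8 - r)) = x * y - ((3 / 8 - r) * x + r * y) + r * (3 / 8 - r) := by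
    ring
  rw [e]
  linarith

/-- the bound for the overlap -/
theorem ink_ovl (x₁₁ x₂₂ x₁₂ x₂₁ T D : ℝ) (hT : T ^ 2 ≤ ((x₁₁ + x₂₂) + (x₁₂ + x₂₁)) ^ 2)
    (hD : (x₁₂ - x₂₁) ^ 2 ≤ D ^ 2) :
    (T ^ 2 / 2 - D ^ 2) / 4 ≤ (x₁₁ ^ 2 + x₂₂ ^ 2 + 2 * (x₁₂ * x₂₁)) / 2 := by
  have e : (x₁₁ ^ 2 + x₂₂ ^ 2 + 2 * (x₁₂ * x₂₁)) / 2 =
      (((x₁₁ + x₂₂) + (x₁₂ + x₂₁)) ^ 2 / 2 - (x₁₂ - x₂₁) ^ 2) / 4 + (x₁₁ - x₂₂) ^ 2 / 4 +
        ((x₁₁ + x₂₂) - (x₁₂ + x₂₁)) ^ 2 / 8 := by ring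
  have h1 := sq_nonneg (x₁₁ - x₂₂)
  have h2 := sq_nonneg ((x₁₁ + x₂₂) - (x₁₂ + x₂₁))
  rw [e]
  linarith

/-- the gain -/
theorem ink_gain (P Q A B ρ w : ℝ) (h1 : P ≤ A ^ 2 / 4) (h2 : Q ≤ B ^ 2 / 4) (hw : w ^ 2 ≤ ρ)
    (h3 : 0 ≤ (A - 2 * w) * (B - 2 * w)) : P + Q - 2 * ρ ≤ (A + B) ^ 2 / 4 - w * (A + B) := by
  have e : (A + B) ^ 2 / 4 - w * (A + B) = A ^ 2 / 4 + B ^ 2 / 4 + (A - 2 * w) * (B - 2 * w) / 2 -
      2 * w ^ 2 := by ring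
  rw [e]
  linarith

/-- arithmetic and geometric mean -/
theorem ink_amgm (p q : ℝ) : p * q ≤ (p + q) ^ 2 / 4 := by
  have e : (p + q) ^ 2 / 4 = p * q + (p - q) ^ 2 / 4 := by ring
  have h1 := sq_nonneg (p - q)
  rw [e]
  linarith

/-- the lower bound for `4 w` -/
theorem ink_L (r w : ℝ) (h1 : 3 / 16 - 1 / 10000 ≤ r) (h2 : r ≤ 1 / 4 + 1 / 10000) (hw0 : 0 ≤ w)
    (hw : w ^ 2 = r * (3 / 8 - r) - 1 / 10000) : 8775 / 10000 - 687 / 1000 * r ≤ 4 * w := by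
  have h9 : (8775 / 10000 - 687 / 1000 * r) ^ 2 ≤ (4 * w) ^ 2 := by
    rw [mul_pow, hw]
    have h3 := mul_nonneg (sub_nonneg.2 h1) (sub_nonneg.2 h2)
    nlinarith only [h1, h2, h3]
  exact (pow_le_pow_iff_left₀ (by linarith) (by linarith) two_ne_zero).1 h9

/-- **InK.** -/
theorem tInK : S_InK := by
  intro r a₁ a₂ b₁ b₂ x₁₁ x₂₂ x₁₂ x₂₁ hr1 hr2 ha₂ hb₁ ha₁ hb₂ hx11 hx22 hx12 hx21 h1 h2 h3 h4 h5
    h6 h7 h8
  have e1 := ink_prod r a₁ a₂ h1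
  have e2 := ink_prod r b₂ b₁ (by linarith [mul_comm b₁ b₂])
  obtain ⟨p1, p2⟩ := ink_pos r _ _ hr1 hr2 (by linarith) (by linarith) e1
  obtain ⟨p3, p4⟩ := ink_pos r _ _ hr1 hr2 (by linarith) (by linarith) e2
  have hpos : 0 ≤ r * (3 / 8 - r) - 1 / 10000 := by
    have h9 := mul_nonneg (sub_nonneg.2 hr1) (sub_nonneg.2 hr2)
    nlinarith only [hr1, hr2, h9]
  obtain ⟨w, hw0, hw⟩ : ∃ w : ℝ, 0 ≤ w ∧ w ^ 2 = r * (3 / 8 - r) - 1 / 10000 :=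
    ⟨Real.sqrt _, Real.sqrt_nonneg _, Real.sq_sqrt hpos⟩
  have s1 := ink_sum _ _ w p1 p2 hw0 (by rw [hw]; exact e1)
  have s2 := ink_sum _ _ w p3 p4 hw0 (by rw [hw]; exact e2)
  have hL := ink_L r w hr1 hr2 hw0 hw
  obtain ⟨S, hS⟩ : ∃ S : ℝ, S = a₁ + a₂ + b₁ + b₂ - 3 / 4 := ⟨_, rfl⟩
  have hS0 : 4 * w ≤ S := by rw [hS]; linarith
  have hS1 : S ≤ 5 / 4 - 2 * r + 2 / 10000 := by rw [hS]; linarith
  -- the difference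
  have d1 : x₁₂ - x₂₁ ≤ 5 / 4 - r + 1 / 10000 - S := by rw [hS]; linarith
  have d2 : x₂₁ - x₁₂ ≤ 5 / 4 - r + 1 / 10000 - S := by rw [hS]; linarith
  have d3 : (x₁₂ - x₂₁) ^ 2 ≤ (5 / 4 - r + 1 / 10000 - S) ^ 2 := by
    refine sq_le_sq' ?_ d1
    linarith
  -- the overlap
  have hT : 0 ≤ S - 1 / 4 := by linarith
  have t1 : S - 1 / 4 ≤ (x₁₁ + x₂₂) + (x₁₂ + x₂₁) := by rw [hS]; linarith
  have t2 : (S - 1 / 4) ^ 2 ≤ ((x₁₁ + x₂₂) + (x₁₂ + x₂₁)) ^ 2 := pow_le_pow_left₀ hT t1 2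
  have t3 := ink_ovl x₁₁ x₂₂ x₁₂ x₂₁ _ _ t2 d3
  -- the gain
  have f1 := ink_amgm (a₁ - r) (a₂ - (3 / 8 - r))
  have f2 := ink_amgm (b₂ - r) (b₁ - (3 / 8 - r))
  have f3 : 0 ≤ (((a₁ - r) + (a₂ - (3 / 8 - r))) - 2 * w) *
      (((b₂ - r) + (b₁ - (3 / 8 - r))) - 2 * w) := mul_nonneg (by linarith) (by linarith)
  have f4 : a₁ * a₂ + b₁ * b₂ - (3 / 8 - r) * (a₁ + b₂) - r * (a₂ + b₁) ≤ S ^ 2 / 4 - w * S := by
    have g1 : a₁ * a₂ + b₁ * b₂ - (3 / 8 - r) * (a₁ + b₂) - r * (a₂ + b₁) =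
        (a₁ - r) * (a₂ - (3 / 8 - r)) + (b₂ - r) * (b₁ - (3 / 8 - r)) -
          2 * (r * (3 / 8 - r)) := by ring
    have g2 : S = ((a₁ - r) + (a₂ - (3 / 8 - r))) + ((b₂ - r) + (b₁ - (3 / 8 - r))) := by
      rw [hS]
      ring
    rw [g1, g2]
    exact ink_gain _ _ _ _ _ w f1 f2 (by rw [hw]; linarith) f3
  have q0 := ink_q0 r w hr1 hr2 hw hL
  have q1 := ink_q1 r w hr1 hr2 hL
  have q := ink_conc (5 / 4 - r + 1 / 10000) w (1 / 10000) S (4 * w)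
    (5 / 4 - 2 * r + 2 / 10000) hS0 hS1 (by
      have : (5 : ℝ) / 4 - r + 1 / 10000 - 4 * w = 5 / 4 - r - 4 * w + 1 / 10000 := by ring
      rw [this]
      exact q0) (by
      have : (5 : ℝ) / 4 - r + 1 / 10000 - (5 / 4 - 2 * r + 2 / 10000) =
        5 / 4 - r - (5 / 4 - 2 * r + 2 / 10000) + 1 / 10000 := by ring
      rw [this]
      exact q1)
  linarith

end Pool.Agent.MPd266dbE
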