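import Pool.Agent.Lib.MP_d266db_co.E.SpecI

/-!
# MP_d266db_co, E: the numerical contradiction for one class (`S_InK1`)
-/

set_option autoImplicit false

namespace Pool.Agent.MPd266dbE

/-- both factors are positive -/
theorem ink1_pos (r p q : ℝ) (h1 : 3 / 16 - 1 / 10000 ≤ r) (h2 : r ≤ 5 / 16 + 1 / 10000)
    (hp : -(1 / 10000) ≤ p) (hq : -(3 / 8 - r) ≤ q) (h : r * (3 / 8 - r) - 1 / 10000 ≤ p * q) :
    0 < p ∧ 0 < q := by
  have hw : 19 / 1000 ≤ r * (3 / 8 - r) - 1 / 10000 := by nlinarith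
  have hq0 : 0 < q := by
    by_contra hcon
    push Not at hcon
    by_cases hp0 : 0 ≤ p
    · nlinarith
    · push Not at hp0
      nlinarith
  refine ⟨?_, hq0⟩
  by_contra hcon
  push Not at hcon
  nlinarith

/-- the sum of two numbers with a given product -/
theorem ink1_sum (p q w : ℝ) (hp : 0 < p) (hq : 0 < q) (hw : 0 ≤ w) (h : w ^ 2 ≤ p * q) :
    2 * w ≤ p + q := by
  have h1 : (2 * w) ^ 2 ≤ (p + q) ^ 2 := by nlinarith [sq_nonneg (p - q)]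
  exact (pow_le_pow_iff_left₀ (by linarith) (by linarith) two_ne_zero).1 h1

/-- **InK1.** -/
theorem tInK1 : S_InK1 := by
  intro r a₁ a₂ b₁ b₂ hr1 hr2 ha₂ hb₁ ha₁ hb₂ h1 h2 h3
  have e1 : r * (3 / 8 - r) - 1 / 10000 ≤ (a₁ - r) * (a₂ - (3 / 8 - r)) := by nlinarith
  have e2 : r * (3 / 8 - r) - 1 / 10000 ≤ (b₂ - r) * (b₁ - (3 / 8 - r)) := by nlinarith
  obtain ⟨p1, p2⟩ := ink1_pos r _ _ hr1 hr2 (by linarith) (by linarith) e1
  obtain ⟨p3, p4⟩ := ink1_pos r _ _ hr1 hr2 (by linarith) (by linarith) e2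
  have hpos : 0 ≤ r * (3 / 8 - r) - 1 / 10000 := by nlinarith
  obtain ⟨w, hw0, hw⟩ : ∃ w : ℝ, 0 ≤ w ∧ w ^ 2 = r * (3 / 8 - r) - 1 / 10000 :=
    ⟨Real.sqrt _, Real.sqrt_nonneg _, Real.sq_sqrt hpos⟩
  have s1 := ink1_sum _ _ w p1 p2 hw0 (by rw [hw]; exact e1)
  have s2 := ink1_sum _ _ w p3 p4 hw0 (by rw [hw]; exact e2)
  have s3 : w ≤ 5 / 16 - r + 1 / 40000 := by linarith
  have s4 : w ^ 2 ≤ (5 / 16 - r + 1 / 40000) ^ 2 := pow_le_pow_left₀ hw0 s3 2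
  rw [hw] at s4
  nlinarith

end Pool.Agent.MPd266dbE
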