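import Pool.Agent.Lib.MP_d266db_co.E.SpecB

/-!
# MP_d266db_co, E: two vertices with three common out-neighbours
-/

set_option autoImplicit false

namespace Pool.Agent.MPd266dbE

open Finset Pool.Agent.MPd266db Pool.Agent.MPd266dbH

/-- sets with small intersections have a large union -/
private theorem k23_union {n : ℕ} (A : Fin n → Finset (Fin n)) (T : Finset (Fin n))
    (h : ∀ x ∈ T, ∀ x' ∈ T, x ≠ x' → (A x ∩ A x').card ≤ 2) :
    ∑ x ∈ T, (A x).card ≤ (T.biUnion A).card + 2 * T.card ^ 2 := by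
  classical
  induction T using Finset.induction_on with
  | empty => simp
  | insert x T hx ih =>
    have h1 := ih fun y hy y' hy' => h y (mem_insert_of_mem hy) y' (mem_insert_of_mem hy')
    rw [sum_insert hx, biUnion_insert, card_insert_of_notMem hx]
    have h2 : (A x ∩ T.biUnion A).card ≤ T.card * 2 := by
      rw [inter_biUnion]
      refine card_biUnion_le_card_mul _ _ _ fun y hy => ?_
      exact h x (mem_insert_self _ _) y (mem_insert_of_mem hy) (fun e => hx (e ▸ hy))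
    have h3 := card_union_add_card_inter (A x) (T.biUnion A)
    have h4 : 2 * (T.card + 1) ^ 2 = 2 * T.card ^ 2 + 4 * T.card + 2 := by ring
    omega

theorem tK23 : S_K23 := by
  classical
  intro θ hθ
  obtain ⟨m, hm⟩ : ∃ m, m = ⌈4 / θ⌉₊ := ⟨_, rfl⟩
  have hmθ : 4 ≤ m * θ := by
    have h1 : 4 / θ ≤ (⌈4 / θ⌉₊ : ℝ) := Nat.le_ceil _
    rw [← hm, div_le_iff₀ hθ] at h1
    exact h1
  refine ⟨θ / 2, 2 * m ^ 2 + 2 * m + 1, by linarith, ?_⟩
  intro n hn S B _ hod hB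
  have hn1 : 1 ≤ n := by omega
  have hnR : (1 : ℝ) ≤ n := by exact_mod_cast hn1
  -- the sets
  obtain ⟨A, hA⟩ : ∃ A : Fin n → Finset (Fin n), ∀ x, A x =
      (univ.filter (fun w => (x, w) ∈ S)) \ B := ⟨_, fun _ => rfl⟩
  have hodc : ∀ x, (univ.filter (fun w => (x, w) ∈ S)).card = od S x := by
    intro u
    unfold od
    refine card_bij (fun v _ => (u, v)) (fun v hv => mem_filter.2 ⟨(mem_filter.1 hv).2, rfl⟩)
      (fun v _ w _ hvw => (Prod.ext_iff.1 hvw).2) fun e he => ?_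
    rw [mem_filter] at he
    refine ⟨e.2, mem_filter.2 ⟨mem_univ _, ?_⟩, ?_⟩
    · rw [← he.2]
      exact he.1
    · rw [← he.2]
  have hA1 : ∀ x, θ / 2 * n ≤ ((A x).card : ℝ) := by
    intro x
    have h1 : od S x ≤ (A x).card + B.card := by
      rw [hA, ← hodc, card_sdiff_add_card]
      exact card_le_card subset_union_left
    have h2 : (od S x : ℝ) ≤ (A x).card + B.card := by exact_mod_cast h1
    have h3 := hod x
    linarith
  have hθ1 : θ * n ≤ n := by
    have h1 := hod ⟨0, by omega⟩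
    have h2 : od S ⟨0, by omega⟩ ≤ n := by
      rw [← hodc]
      exact (card_le_univ _).trans (by rw [Fintype.card_fin])
    have h3 : (od S ⟨0, by omega⟩ : ℝ) ≤ n := by exact_mod_cast h2
    linarith
  have hBn : 2 * B.card ≤ n := by
    have h1 : 2 * (B.card : ℝ) ≤ n := by linarith
    exact_mod_cast h1
  obtain ⟨T, hT, hTc⟩ : ∃ T ⊆ univ \ B, T.card = m := by
    refine exists_subset_card_eq ?_
    have h2 := card_sdiff_add_card_eq_card (subset_univ B)
    rw [card_univ, Fintype.card_fin] at h2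
    omega
  obtain ⟨x, hx, x', hx', hne, h3⟩ : ∃ x ∈ T, ∃ x' ∈ T, x ≠ x' ∧ 2 < (A x ∩ A x').card := by
    by_contra hcon
    push Not at hcon
    have h1 := k23_union A T hcon
    have h2 : (T.biUnion A).card ≤ n := (card_le_univ _).trans (by rw [Fintype.card_fin])
    rw [hTc] at h1
    have h4 : ∑ x ∈ T, (A x).card ≤ n + 2 * m ^ 2 := by omega
    have h5 : (∑ x ∈ T, ((A x).card : ℝ)) ≤ n + 2 * m ^ 2 := by exact_mod_cast h4
    have h6 : ∑ x ∈ T, θ / 2 * (n : ℝ) ≤ ∑ x ∈ T, ((A x).card : ℝ) :=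
      sum_le_sum fun x _ => hA1 x
    rw [sum_const, nsmul_eq_mul, hTc] at h6
    have h7 : (m * θ) / 2 * (n : ℝ) ≤ n + 2 * m ^ 2 := by linarith
    have h8 : 2 * (n : ℝ) ≤ (m * θ) / 2 * n := mul_le_mul_of_nonneg_right (by linarith) (by linarith)
    have h9 : (2 * m ^ 2 + 2 * m + 1 : ℕ) ≤ (n : ℝ) := by exact_mod_cast hn
    push_cast at h9
    have h10 : (0 : ℝ) ≤ m := Nat.cast_nonneg m
    linarith
  obtain ⟨y₁, h4, y₂, h5, y₃, h6, h7, h8, h9⟩ := two_lt_card.1 h3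
  have hmem : ∀ y, y ∈ A x ∩ A x' → y ∉ B ∧ (x, y) ∈ S ∧ (x', y) ∈ S := by
    intro y hy
    rw [mem_inter, hA, hA, mem_sdiff, mem_sdiff, mem_filter, mem_filter] at hy
    exact ⟨hy.1.2, hy.1.1.2, hy.2.1.2⟩
  obtain ⟨a1, a2, a3⟩ := hmem _ h4
  obtain ⟨b1, b2, b3⟩ := hmem _ h5
  obtain ⟨c1, c2, c3⟩ := hmem _ h6
  exact ⟨x, x', y₁, y₂, y₃, hne, h7, h8, h9, (mem_sdiff.1 (hT hx)).2, (mem_sdiff.1 (hT hx')).2,
    a1, b1, c1, a2, b2, c2, a3, b3, c3⟩

end Pool.Agent.MPd266dbE
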