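import Pool.Agent.Lib.MP_d266db_co.E.SpecD

/-!
# MP_d266db_co, E: two vertices with three common out-neighbours, after removing a sparse set
-/

set_option autoImplicit false

namespace Pool.Agent.MPd266dbE

open Finset Pool.Agent.MPd266db Pool.Agent.MPd266dbH

theorem k2q_od {n : ℕ} (S Z : Finset (Fin n × Fin n)) (v : Fin n) :
    od S v ≤ od (S \ Z) v + od Z v := by
  classical
  unfold od
  rw [← card_union_of_disjoint]
  · apply card_le_card
    intro a ha
    rw [mem_filter] at ha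
    rw [mem_union, mem_filter, mem_filter, mem_sdiff]
    by_cases h : a ∈ Z
    · exact Or.inr ⟨h, ha.2⟩
    · exact Or.inl ⟨⟨ha.1, h⟩, ha.2⟩
  · rw [Finset.disjoint_left]
    intro a ha hb
    rw [mem_filter, mem_sdiff] at ha
    rw [mem_filter] at hb
    exact ha.1.2 hb.1

theorem tK2Q (hK23 : S_K23) : S_K2Q := by
  intro θ hθ
  obtain ⟨ζ0, n0, hζ0, h⟩ := hK23 (θ / 2) (by linarith)
  refine ⟨min ζ0 (θ / 2), n0, lt_min hζ0 (by linarith), ?_⟩
  intro n hn z b S hl hod hz hb Z B hZ hB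
  have hn0 : (0 : ℝ) ≤ n := Nat.cast_nonneg n
  have hz' : (z : ℝ) ≤ θ / 2 * n := hz.trans (mul_le_mul_of_nonneg_right (min_le_right _ _) hn0)
  have hb' : (b : ℝ) ≤ ζ0 * n := hb.trans (mul_le_mul_of_nonneg_right (min_le_left _ _) hn0)
  refine h n hn (S \ Z) B (fun e he => hl e (mem_sdiff.mp he).1) (fun v => ?_) ?_
  · have h1 := k2q_od S Z v
    have h2 : ((od S v : ℕ) : ℝ) ≤ od (S \ Z) v + od Z v := by exact_mod_cast h1
    have h3 : ((od Z v : ℕ) : ℝ) ≤ z := by exact_mod_cast (hZ v).1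
    have h4 := hod v
    linarith
  · have : ((B.card : ℕ) : ℝ) ≤ b := by exact_mod_cast hB
    linarith

end Pool.Agent.MPd266dbE
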