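import Pool.Agent.Lib.MP_d266db_co.E.LwL

/-!
# MP_d266db_co, E, K3: at least three classes are impossible
-/

set_option autoImplicit false

namespace Pool.Agent.MPd266dbE

open Finset Pool.Agent.MPd266db Pool.Agent.MPd266dbH

section

variable {n K : ℕ}

private theorem k3_third (hK : 3 ≤ K) (a b : Fin K) : ∃ c, c ≠ a ∧ c ≠ b := by
  classical
  have h1 : ({a, b} : Finset (Fin K)).card < (univ : Finset (Fin K)).card := by
    rw [card_univ, Fintype.card_fin]
    exact lt_of_le_of_lt card_le_two (by omega)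
  obtain ⟨c, -, hc⟩ := exists_mem_notMem_of_card_lt_card h1
  rw [mem_insert, mem_singleton, not_or] at hc
  exact ⟨c, hc.1, hc.2⟩

private theorem k3_mCl {f : Fin n → Fin K} {a : Fin K} {v : Fin n} : v ∈ Cl f a ↔ f v = a := by
  simp only [Cl, mem_filter, mem_univ, true_and]

private theorem k3_le (A : Finset (Fin n)) : A.card ≤ n := by
  have := card_le_univ A
  rwa [Fintype.card_fin] at this

private theorem k3_dj (f : Fin n → Fin K) {a b : Fin K} (hab : a ≠ b) :
    Disjoint (Cl f a) (Cl f b) := by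
  rw [disjoint_left]
  intro v h1 h2
  rw [k3_mCl] at h1 h2
  exact hab (h1.symm.trans h2)

private theorem k3_cl3 (f : Fin n → Fin K) {a b c : Fin K} (hab : a ≠ b) (hac : a ≠ c)
    (hbc : b ≠ c) : (Cl f a).card + (Cl f b).card + (Cl f c).card ≤ n := by
  classical
  rw [← card_union_of_disjoint (k3_dj f hab), ← card_union_of_disjoint]
  · exact k3_le _
  · rw [disjoint_union_left]
    exact ⟨k3_dj f hac, k3_dj f hbc⟩

private theorem k3_bal {R : Finset (Fin n × Fin n)} {r : ℕ} (hR : Reg R r) (o i : Fin n → Fin K)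
    (b : Fin K) : r * (Cl i b).card ≤ r * (Cl o b).card + (crs o i R).card ∧
      r * (Cl o b).card ≤ r * (Cl i b).card + (crs o i R).card := by
  classical
  have h1 := Reg.in (Cl o b) (Cl i b) hR
  have h2 := Reg.out (Cl o b) (Cl i b) hR
  have h3 : eb R (Cl o b)ᶜ (Cl i b) ≤ (crs o i R).card := by
    refine card_le_card fun e he => ?_
    rw [mem_filter, mem_compl, k3_mCl, k3_mCl] at he
    rw [crs, mem_filter]
    exact ⟨he.1, fun h => he.2.1 (h.trans he.2.2)⟩
  have h4 : eb R (Cl o b) (Cl i b)ᶜ ≤ (crs o i R).card := by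
    refine card_le_card fun e he => ?_
    rw [mem_filter, mem_compl, k3_mCl, k3_mCl] at he
    rw [crs, mem_filter]
    exact ⟨he.1, fun h => he.2.2 (h.symm.trans he.2.1)⟩
  omega

private theorem k3_ovl (O I O' I' : Finset (Fin n)) (hO : Disjoint O O') (hI : Disjoint I I') :
    O.card + O'.card + I.card + I'.card ≤
      n + ((O ∩ I).card + (O' ∩ I').card + (O ∩ I').card + (O' ∩ I).card) := by
  classical
  have h1 := card_union_of_disjoint hO
  have h2 := card_union_of_disjoint hI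
  have h3 := card_union_add_card_inter (O ∪ O') (I ∪ I')
  have h4 := k3_le ((O ∪ O') ∪ (I ∪ I'))
  have h5 : ((O ∪ O') ∩ (I ∪ I')).card ≤
      (O ∩ I).card + (O' ∩ I').card + (O ∩ I').card + (O' ∩ I).card := by
    refine (card_le_card ?_).trans ((card_union_le _ _).trans (Nat.add_le_add_right
      ((card_union_le _ _).trans (Nat.add_le_add_right (card_union_le _ _) _)) _))
    intro v hv
    simp only [mem_inter, mem_union] at hv ⊢
    tauto
  omega

private theorem k3_df (O I O' I' : Finset (Fin n)) (hO : Disjoint O O') (hI : Disjoint I I') :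
    (O ∩ I').card + O'.card + I.card ≤ n + (O' ∩ I).card := by
  classical
  have h1 := card_union_add_card_inter O' I
  have h2 : Disjoint (O ∩ I') (O' ∪ I) := by
    rw [disjoint_left] at hO hI ⊢
    intro v hv hv'
    rw [mem_inter] at hv
    rw [mem_union] at hv'
    rcases hv' with hv' | hv'
    · exact hO hv.1 hv'
    · exact hI hv' hv.2
  have h3 := card_union_of_disjoint h2
  have h4 := k3_le (O ∩ I' ∪ (O' ∪ I))
  omega

end

theorem tK3 (hPot : S_Pot) (hLwL : S_LwL) (hHiL : S_HiL) (hCpD : S_CpD) (hInK : S_InK)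
    (hInK1 : S_InK1) : S_K3 := by
  classical
  intro n r K E R o i hn hO hS hr hRE hR hK hmax hc hsz
  obtain ⟨N, hN⟩ : ∃ N : ℝ, N = (n : ℝ) := ⟨_, rfl⟩
  have hN6 : 1000000 ≤ N := by rw [hN]; exact_mod_cast hn
  have hN0 : 0 < N := by linarith
  have hdiv : ∀ m : ℕ, ∃ y : ℝ, (m : ℝ) = y * N := fun m => ⟨m / N, by field_simp⟩
  obtain ⟨x, hx⟩ := hdiv r
  have hx1 : 3 * N < 16 * (x * N + 1) := by rw [← hx, hN]; exact_mod_cast hr
  have hx2 : 3 / 16 - 1 / 100000 ≤ x := by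
    have h1 : (3 / 16 - 1 / 100000) * N ≤ x * N := by linarith
    exact le_of_mul_le_mul_right h1 hN0
  have hcR : 10000000000 * ((crs o i R).card : ℝ) < N ^ 2 := by rw [hN]; exact_mod_cast hc
  simp only [hx, ← hN] at hsz
  -- (0)
  have hbal : ∀ b, ((Cl i b).card : ℝ) ≤ (Cl o b).card + N / 100000 ∧
      ((Cl o b).card : ℝ) ≤ (Cl i b).card + N / 100000 := by
    intro b
    obtain ⟨h1, h2⟩ := k3_bal hR o i b
    have h1' : (x * N) * ((Cl i b).card : ℝ) ≤ (x * N) * (Cl o b).card + (crs o i R).card := by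
      rw [← hx]
      exact_mod_cast h1
    have h2' : (x * N) * ((Cl o b).card : ℝ) ≤ (x * N) * (Cl i b).card + (crs o i R).card := by
      rw [← hx]
      exact_mod_cast h2
    have h3 : 0 < x * N := mul_pos (by linarith) hN0
    have h4 : ((crs o i R).card : ℝ) ≤ (x * N) * (N / 100000) := by
      have h5 : (1 / 8) * (N * N) ≤ x * (N * N) :=
        mul_le_mul_of_nonneg_right (by linarith) (by positivity)
      nlinarith
    constructor
    · refine le_of_mul_le_mul_left ?_ h3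
      rw [mul_add]
      linarith
    · refine le_of_mul_le_mul_left ?_ h3
      rw [mul_add]
      linarith
  -- levels
  obtain ⟨lam, mu, hP⟩ := hPot n r K E R o i hRE hR hmax
  obtain ⟨t, ht1, ht2, ⟨u₀, hu0, hu0t⟩, ht4⟩ := hLwL n r K E R o i lam mu hn hS hr hRE hR hP hc
  obtain ⟨t', hs1, hs2, ⟨v₀, hv0, hv0t⟩, hs4⟩ := hHiL n r K E R o i lam mu hn hS hr hRE hR hP hc
  simp only [hx, ← hN] at ht4 hs4
  have hle : t ≤ t' := by
    have := hs2 u₀ hu0
    omega
  have hXT := lwl_XT R o i (by omega) hc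
  have hXT' : 100000 * ((XT R o i).card : ℝ) ≤ N := by
    rw [hN]
    exact_mod_cast hXT
  have hcl3 : ∀ (f : Fin n → Fin K) (a b c : Fin K), a ≠ b → a ≠ c → b ≠ c →
      ((Cl f a).card : ℝ) + (Cl f b).card + (Cl f c).card ≤ N := by
    intro f a b c h1 h2 h3
    rw [hN]
    exact_mod_cast k3_cl3 f h1 h2 h3
  rcases hle.eq_or_lt with heq | hlt
  · -- (2)
    have h1 : ∀ c, 3 * N / 8 - 2 * (N / 100000) ≤ (Cl i c).card := by
      intro c
      have h2 : (XT R o i).card < (Cl o c).card := by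
        have h3 := (hsz c).1
        have h4 : (3 / 16 - 1 / 100000) * N ≤ x * N := mul_le_mul_of_nonneg_right hx2 hN0.le
        have h5 : ((XT R o i).card : ℝ) < (Cl o c).card := by linarith
        exact_mod_cast h5
      obtain ⟨u, hu1, hu2⟩ := exists_mem_notMem_of_card_lt_card h2
      have h3 : u ∈ LO R o i lam t c := by
        simp only [LO, mem_filter, mem_univ, true_and]
        refine ⟨hu2, ?_, k3_mCl.1 hu1⟩
        have h4 := ht1 u hu2
        have h5 := hs2 u hu2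
        omega
      exact ((ht4 c).1 u h3).2
    obtain ⟨b, hb, -⟩ := k3_third hK (o u₀) (o u₀)
    obtain ⟨c, hc1, hc2⟩ := k3_third hK (o u₀) b
    have h2 := hcl3 i (o u₀) b c hb.symm hc1.symm hc2.symm
    have h3 := h1 (o u₀)
    have h4 := h1 b
    have h5 := h1 c
    linarith
  -- (3)
  obtain ⟨h1a, h1b, h1c⟩ := ht4 (o u₀)
  obtain ⟨h2a, h2b, h2c⟩ := hs4 (i v₀)
  obtain ⟨O, hOd⟩ : ∃ O, O = LO R o i lam t (o u₀) := ⟨_, rfl⟩
  obtain ⟨I, hId⟩ : ∃ I, I = LI R o i mu t (o u₀) := ⟨_, rfl⟩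
  obtain ⟨O', hOd'⟩ : ∃ O', O' = LO R o i lam t' (i v₀) := ⟨_, rfl⟩
  obtain ⟨I', hId'⟩ : ∃ I', I' = LI R o i mu t' (i v₀) := ⟨_, rfl⟩
  rw [← hOd, ← hId] at h1a h1b h1c
  rw [← hOd', ← hId'] at h2a h2b h2c
  have mO : ∀ u ∈ O, lam u = t ∧ o u = o u₀ := by
    intro u hu
    rw [hOd] at hu
    simp only [LO, mem_filter, mem_univ, true_and] at hu
    exact hu.2
  have mI : ∀ u ∈ I, mu u = t ∧ i u = o u₀ := by
    intro u hu
    rw [hId] at hu
    simp only [LI, mem_filter, mem_univ, true_and] at hu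
    exact hu.2
  have mO' : ∀ u ∈ O', lam u = t' ∧ o u = i v₀ := by
    intro u hu
    rw [hOd'] at hu
    simp only [LO, mem_filter, mem_univ, true_and] at hu
    exact hu.2
  have mI' : ∀ u ∈ I', mu u = t' ∧ i u = i v₀ := by
    intro u hu
    rw [hId'] at hu
    simp only [LI, mem_filter, mem_univ, true_and] at hu
    exact hu.2
  have hu0O : u₀ ∈ O := by
    rw [hOd]
    simp only [LO, mem_filter, mem_univ, true_and]
    exact ⟨hu0, hu0t, trivial⟩
  have hv0I : v₀ ∈ I' := by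
    rw [hId']
    simp only [LI, mem_filter, mem_univ, true_and]
    exact ⟨hv0, hv0t, trivial⟩
  have dO : Disjoint O O' := by
    rw [disjoint_left]
    intro v h1 h2
    have h3 := (mO v h1).1
    have h4 := (mO' v h2).1
    omega
  have dI : Disjoint I I' := by
    rw [disjoint_left]
    intro v h1 h2
    have h3 := (mI v h1).1
    have h4 := (mI' v h2).1
    omega
  have cIa := (h1a u₀ hu0O).2
  have cOb := (h2a v₀ hv0I).2
  obtain ⟨a, ha⟩ : ∃ a, a = o u₀ := ⟨_, rfl⟩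
  obtain ⟨b, hb⟩ : ∃ b, b = i v₀ := ⟨_, rfl⟩
  rw [← ha] at cIa mO mI
  rw [← hb] at cOb mO' mI'
  have sO : O ⊆ Cl o a := fun v hv => k3_mCl.2 (mO v hv).2
  have sI : I ⊆ Cl i a := fun v hv => k3_mCl.2 (mI v hv).2
  have sO' : O' ⊆ Cl o b := fun v hv => k3_mCl.2 (mO' v hv).2
  have sI' : I' ⊆ Cl i b := fun v hv => k3_mCl.2 (mI' v hv).2
  -- (3a)
  have hup : x ≤ 5 / 16 + 2 / 100000 ∧ (a ≠ b → x ≤ 1 / 4 + 6 / 100000) := by
    by_cases hab : a = b
    · refine ⟨?_, fun h => absurd hab h⟩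
      obtain ⟨c, hc1, -⟩ := k3_third hK a a
      obtain ⟨d, hd1, hd2⟩ := k3_third hK a c
      have h3 := hcl3 i a c d hc1.symm hd1.symm hd2.symm
      have h4 := (hsz c).2
      have h5 := (hsz d).2
      have h6 : x * N ≤ (5 / 16 + 2 / 100000) * N := by linarith
      exact le_of_mul_le_mul_right h6 hN0
    · obtain ⟨c, hc1, hc2⟩ := k3_third hK a b
      have h3 := hcl3 i a b c hab hc1.symm hc2.symm
      have h4 := (hsz c).2
      have h5 := (hbal b).2
      have h6 : x * N ≤ (1 / 4 + 6 / 100000) * N := by linarith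
      have h7 := le_of_mul_le_mul_right h6 hN0
      exact ⟨by linarith, fun _ => h7⟩
  have hpos : 0 < 3 * N / 8 - x * N - N / 100000 := by
    have h3 : x * N ≤ (5 / 16 + 2 / 100000) * N := mul_le_mul_of_nonneg_right hup.1 hN0.le
    linarith
  have hOc : x * N - 2 * (N / 100000) ≤ O.card := by
    have h3 := (h1a u₀ hu0O).1
    have h4 : 0 < (I.filter (fun v => (u₀, v) ∈ E ∧ (u₀, v) ∉ R)).card := by
      have : (0 : ℝ) < ((I.filter (fun v => (u₀, v) ∈ E ∧ (u₀, v) ∉ R)).card : ℝ) := by linarith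
      exact_mod_cast this
    obtain ⟨v, hv⟩ := card_pos.1 h4
    exact h1b v (mem_filter.1 hv).1
  have hIc : x * N - 2 * (N / 100000) ≤ I'.card := by
    have h3 := (h2a v₀ hv0I).1
    have h4 : 0 < (O'.filter (fun u => (u, v₀) ∈ E ∧ (u, v₀) ∉ R)).card := by
      have : (0 : ℝ) < ((O'.filter (fun u => (u, v₀) ∈ E ∧ (u, v₀) ∉ R)).card : ℝ) := by linarith
      exact_mod_cast this
    obtain ⟨v, hv⟩ := card_pos.1 h4
    exact h2b v (mem_filter.1 hv).1
  -- quotients
  obtain ⟨a₁, e1⟩ := hdiv O.card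
  obtain ⟨a₂, e2⟩ := hdiv I.card
  obtain ⟨b₁, e3⟩ := hdiv O'.card
  obtain ⟨b₂, e4⟩ := hdiv I'.card
  have hnn : ∀ (m : ℕ) (y : ℝ), (m : ℝ) = y * N → 0 ≤ y := by
    intro m y h3
    have h4 : 0 * N ≤ y * N := by
      rw [← h3, zero_mul]
      positivity
    exact le_of_mul_le_mul_right h4 hN0
  have hle1 : ∀ (A : Finset (Fin n)) (y : ℝ), (A.card : ℝ) = y * N → y ≤ 1 := by
    intro A y h3
    have h4 : y * N ≤ 1 * N := by
      rw [← h3, one_mul, hN]
      exact_mod_cast k3_le A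
    exact le_of_mul_le_mul_right h4 hN0
  have na₁ := hnn _ _ e1
  have na₂ := hnn _ _ e2
  have nb₁ := hnn _ _ e3
  have nb₂ := hnn _ _ e4
  have la₁ := hle1 _ _ e1
  have la₂ := hle1 _ _ e2
  have lb₁ := hle1 _ _ e3
  have lb₂ := hle1 _ _ e4
  have ga₁ : x - 1 / 10000 ≤ a₁ := by
    have h3 : (x - 2 / 100000) * N ≤ a₁ * N := by linarith
    have h4 := le_of_mul_le_mul_right h3 hN0
    linarith
  have gb₂ : x - 1 / 10000 ≤ b₂ := by
    have h3 : (x - 2 / 100000) * N ≤ b₂ * N := by linarith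
    have h4 := le_of_mul_le_mul_right h3 hN0
    linarith
  have hNN : 0 < N * N := by positivity
  -- (3b)
  have q1 : ((3 / 8 - x - 1 / 100000) * a₁ + (x - 2 / 100000) * a₂) * (N * N) ≤ eb E O I := by
    refine le_trans (le_of_eq ?_) h1c
    rw [e1, e2]
    ring
  have q2 : ((3 / 8 - x - 1 / 100000) * b₂ + (x - 2 / 100000) * b₁) * (N * N) ≤ eb E O' I' := by
    refine le_trans (le_of_eq ?_) h2c
    rw [e3, e4]
    ring
  have p1 : (3 / 8 - x) * a₁ + x * a₂ ≤ a₁ * a₂ + 1 / 10000 := by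
    have h3 : (eb E O I : ℝ) ≤ (a₁ * a₂) * (N * N) := by
      have h4 : (eb E O I : ℝ) ≤ (O.card * I.card : ℕ) := by exact_mod_cast eb_le_card_mul E O I
      rw [Nat.cast_mul, e1, e2] at h4
      linarith
    have h4 := le_of_mul_le_mul_right (q1.trans h3) hNN
    linarith
  have p2 : (3 / 8 - x) * b₂ + x * b₁ ≤ b₁ * b₂ + 1 / 10000 := by
    have h3 : (eb E O' I' : ℝ) ≤ (b₁ * b₂) * (N * N) := by
      have h4 : (eb E O' I' : ℝ) ≤ (O'.card * I'.card : ℕ) := by
        exact_mod_cast eb_le_card_mul E O' I'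
      rw [Nat.cast_mul, e3, e4] at h4
      linarith
    have h4 := le_of_mul_le_mul_right (q2.trans h3) hNN
    linarith
  by_cases hab : a = b
  · -- (4)
    subst hab
    obtain ⟨c, hc1, -⟩ := k3_third hK a a
    obtain ⟨d, hd1, hd2⟩ := k3_third hK a c
    have h3 := hcl3 i a c d hc1.symm hd1.symm hd2.symm
    have h4 := hcl3 o a c d hc1.symm hd1.symm hd2.symm
    have h5 : (O.card : ℝ) + O'.card ≤ (Cl o a).card := by
      have h6 := card_le_card (union_subset sO sO')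
      rw [card_union_of_disjoint dO] at h6
      exact_mod_cast h6
    have h6 : (I.card : ℝ) + I'.card ≤ (Cl i a).card := by
      have h6 := card_le_card (union_subset sI sI')
      rw [card_union_of_disjoint dI] at h6
      exact_mod_cast h6
    have c1 := hsz c
    have d1 := hsz d
    refine hInK1 x a₁ a₂ b₁ b₂ (by linarith) (by linarith [hup.1]) na₂ nb₁ ga₁ gb₂ p1 p2 ?_
    have h7 : (a₁ + a₂ + b₁ + b₂) * N ≤ (2 - 4 * x + 1 / 10000) * N := by
      linarith [c1.1, c1.2, d1.1, d1.2]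
    exact le_of_mul_le_mul_right h7 hN0
  · -- (5)
    obtain ⟨c, hc1, hc2⟩ := k3_third hK a b
    obtain ⟨x₁₁, f1⟩ := hdiv (O ∩ I).card
    obtain ⟨x₂₂, f2⟩ := hdiv (O' ∩ I').card
    obtain ⟨x₁₂, f3⟩ := hdiv (O ∩ I').card
    obtain ⟨x₂₁, f4⟩ := hdiv (O' ∩ I).card
    have c1 := hsz c
    have h3 := hcl3 i a b c hab hc1.symm hc2.symm
    have h4 := hcl3 o a b c hab hc1.symm hc2.symm
    have h5 := hbal b
    have kO : (O.card : ℝ) ≤ (Cl o a).card := by exact_mod_cast card_le_card sO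
    have kI : (I.card : ℝ) ≤ (Cl i a).card := by exact_mod_cast card_le_card sI
    have kO' : (O'.card : ℝ) ≤ (Cl o b).card := by exact_mod_cast card_le_card sO'
    have kI' : (I'.card : ℝ) ≤ (Cl i b).card := by exact_mod_cast card_le_card sI'
    have g1 : a₁ + a₂ + b₁ + b₂ - 1 ≤ x₁₁ + x₂₂ + x₁₂ + x₂₁ := by
      have h6 : (O.card : ℝ) + O'.card + I.card + I'.card ≤ N + ((O ∩ I).card + (O' ∩ I').card +
          (O ∩ I').card + (O' ∩ I).card) := by
        rw [hN]
        exact_mod_cast k3_ovl O I O' I' dO dI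
      rw [e1, e2, e3, e4, f1, f2, f3, f4] at h6
      have h7 : (a₁ + a₂ + b₁ + b₂ - 1) * N ≤ (x₁₁ + x₂₂ + x₁₂ + x₂₁) * N := by linarith
      exact le_of_mul_le_mul_right h7 hN0
    have g2 : x₁₂ - x₂₁ ≤ 1 - b₁ - a₂ := by
      have h6 : ((O ∩ I').card : ℝ) + O'.card + I.card ≤ N + (O' ∩ I).card := by
        rw [hN]
        exact_mod_cast k3_df O I O' I' dO dI
      rw [e2, e3, f3, f4] at h6
      have h7 : (x₁₂ - x₂₁) * N ≤ (1 - b₁ - a₂) * N := by linarith
      exact le_of_mul_le_mul_right h7 hN0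
    have g3 : x₂₁ - x₁₂ ≤ 1 - a₁ - b₂ := by
      have h6 : ((O' ∩ I).card : ℝ) + O.card + I'.card ≤ N + (O ∩ I').card := by
        rw [hN]
        exact_mod_cast k3_df O' I' O I dO.symm dI.symm
      rw [e1, e4, f3, f4] at h6
      have h7 : (x₂₁ - x₁₂) * N ≤ (1 - a₁ - b₂) * N := by linarith
      exact le_of_mul_le_mul_right h7 hN0
    have g4 : a₁ + b₂ ≤ 1 - x + 1 / 10000 := by
      have h7 : (a₁ + b₂) * N ≤ (1 - x + 1 / 10000) * N := by
        linarith [c1.1, c1.2, h5.1, h5.2]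
      exact le_of_mul_le_mul_right h7 hN0
    have g5 : a₂ + b₁ ≤ 1 - x + 1 / 10000 := by
      have h7 : (a₂ + b₁) * N ≤ (1 - x + 1 / 10000) * N := by
        linarith [c1.1, c1.2, h5.1, h5.2]
      exact le_of_mul_le_mul_right h7 hN0
    have g6 : (3 / 8 - x) * (a₁ + b₂) + x * (a₂ + b₁) + (x₁₁ ^ 2 + x₂₂ ^ 2 + 2 * (x₁₂ * x₂₁)) / 2 ≤
        a₁ * a₂ + b₁ * b₂ + 1 / 10000 := by
      have h6 : 2 * (eb E O I : ℝ) + 2 * eb E O' I' + ((O ∩ I).card : ℝ) ^ 2 +
          ((O' ∩ I').card : ℝ) ^ 2 + 2 * (((O ∩ I').card : ℝ) * (O' ∩ I).card) ≤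
          2 * ((O.card : ℝ) * I.card) + 2 * ((O'.card : ℝ) * I'.card) := by
        exact_mod_cast hCpD n E hO O I O' I' dO dI
      rw [e1, e2, e3, e4, f1, f2, f3, f4] at h6
      have h7 : (((3 / 8 - x - 1 / 100000) * a₁ + (x - 2 / 100000) * a₂) +
          ((3 / 8 - x - 1 / 100000) * b₂ + (x - 2 / 100000) * b₁) +
          (x₁₁ ^ 2 + x₂₂ ^ 2 + 2 * (x₁₂ * x₂₁)) / 2) * (N * N) ≤
          (a₁ * a₂ + b₁ * b₂) * (N * N) := by linarith
      have h8 := le_of_mul_le_mul_right h7 hNN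
      linarith
    exact hInK x a₁ a₂ b₁ b₂ x₁₁ x₂₂ x₁₂ x₂₁ (by linarith) (by linarith [hup.2 hab]) na₂ nb₁ ga₁ gb₂
      (hnn _ _ f1) (hnn _ _ f2) (hnn _ _ f3) (hnn _ _ f4) p1 p2 g1 g2 g3 g4 g5 g6

end Pool.Agent.MPd266dbE
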