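import Pool.Agent.Lib.MP_d266db_co.E.SpecE

/-!
# MP_d266db_co, E, Lev: the level structure
-/

set_option autoImplicit false

namespace Pool.Agent.MPd266dbE

open Finset Pool.Agent.MPd266db Pool.Agent.MPd266dbH

theorem lev_nout {n : ℕ} (S : Finset (Fin n × Fin n)) (v : Fin n) :
    (Nout S v).card = od S v := by
  unfold Nout od
  refine card_bij (fun w _ => (v, w)) ?_ ?_ ?_
  · intro w hw
    rw [mem_filter] at hw ⊢
    exact ⟨hw.2, rfl⟩
  · intro w _ w' _ h
    exact (Prod.mk.inj h).2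
  · rintro ⟨x, w⟩ hq
    rw [mem_filter] at hq
    obtain ⟨h1, h2⟩ := hq
    have h3 : x = v := h2
    subst h3
    exact ⟨w, by rw [mem_filter]; exact ⟨mem_univ _, h1⟩, rfl⟩

theorem lev_nin {n : ℕ} (S : Finset (Fin n × Fin n)) (v : Fin n) :
    (Nin S v).card = idg S v := by
  unfold Nin idg
  refine card_bij (fun w _ => (w, v)) ?_ ?_ ?_
  · intro w hw
    rw [mem_filter] at hw ⊢
    exact ⟨hw.2, rfl⟩
  · intro w _ w' _ h
    exact (Prod.mk.inj h).1
  · rintro ⟨w, x⟩ hq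
    rw [mem_filter] at hq
    obtain ⟨h1, h2⟩ := hq
    have h3 : x = v := h2
    subst h3
    exact ⟨w, by rw [mem_filter]; exact ⟨mem_univ _, h1⟩, rfl⟩

theorem lev_evn {n e : ℕ} {c : Fin n → Fin (e + 1)} {lv : Fin n → ℕ}
    (hlv : ∀ v, lv v = c v ∨ lv v = e + 1) {δ ε1 ε3 θ1 : ℝ}
    (hexc : ((univ.filter (fun v => lv v = e + 1)).card : ℝ) ≤ δ * n) (h1 : ε1 ≤ ε3 / 2)
    (h2 : ((e + 1 : ℕ) : ℝ) * δ ≤ ε3 * θ1 / 2) (hε3 : 0 ≤ ε3)
    {F : Finset (Fin n)} (hF : θ1 * n ≤ F.card)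
    (hc : ∀ j : Fin (e + 1), (1 - ε1) * F.card ≤
        ((e + 1 : ℕ) : ℝ) * ((F.filter (fun v => c v = j)).card : ℝ) ∧
      ((e + 1 : ℕ) : ℝ) * ((F.filter (fun v => c v = j)).card : ℝ) ≤ (1 + ε1) * F.card) :
    Evn (e + 1) lv ε3 F := by
  intro l hl
  obtain ⟨hj1, hj2⟩ := hc ⟨l, hl⟩
  have hAC : (F.filter (fun v => lv v = l)).card ≤
      (F.filter (fun v => c v = (⟨l, hl⟩ : Fin (e + 1)))).card := by
    refine card_le_card ?_
    intro v hv
    rw [mem_filter] at hv ⊢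
    refine ⟨hv.1, Fin.ext ?_⟩
    rcases hlv v with h | h
    · rw [← h, hv.2]
    · have := hv.2
      omega
  have hCA : (F.filter (fun v => c v = (⟨l, hl⟩ : Fin (e + 1)))).card ≤
      (F.filter (fun v => lv v = l)).card + (univ.filter (fun v => lv v = e + 1)).card := by
    refine le_trans (card_le_card ?_) (card_union_le _ _)
    intro v hv
    rw [mem_filter] at hv
    rw [mem_union, mem_filter, mem_filter]
    rcases hlv v with h | h
    · left
      refine ⟨hv.1, ?_⟩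
      rw [h, hv.2]
    · exact Or.inr ⟨mem_univ _, h⟩
  have hAC' : ((F.filter (fun v => lv v = l)).card : ℝ) ≤
      (F.filter (fun v => c v = (⟨l, hl⟩ : Fin (e + 1)))).card := by exact_mod_cast hAC
  have hCA' : ((F.filter (fun v => c v = (⟨l, hl⟩ : Fin (e + 1)))).card : ℝ) ≤
      (F.filter (fun v => lv v = l)).card + (univ.filter (fun v => lv v = e + 1)).card := by
    exact_mod_cast hCA
  have hk : (0 : ℝ) ≤ ((e + 1 : ℕ) : ℝ) := Nat.cast_nonneg _
  have hn : (0 : ℝ) ≤ n := Nat.cast_nonneg _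
  have hFc : (0 : ℝ) ≤ F.card := Nat.cast_nonneg _
  have h3 : ((e + 1 : ℕ) : ℝ) * ((univ.filter (fun v => lv v = e + 1)).card : ℝ) ≤
      ε3 / 2 * F.card := by
    calc ((e + 1 : ℕ) : ℝ) * ((univ.filter (fun v => lv v = e + 1)).card : ℝ)
        ≤ ((e + 1 : ℕ) : ℝ) * (δ * n) := mul_le_mul_of_nonneg_left hexc hk
      _ = (((e + 1 : ℕ) : ℝ) * δ) * n := by ring
      _ ≤ (ε3 * θ1 / 2) * n := mul_le_mul_of_nonneg_right h2 hn
      _ = ε3 / 2 * (θ1 * n) := by ring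
      _ ≤ ε3 / 2 * F.card := mul_le_mul_of_nonneg_left hF (by linarith)
  have h4 := mul_le_mul_of_nonneg_left hAC' hk
  have h5 := mul_le_mul_of_nonneg_left hCA' hk
  rw [mul_add] at h5
  have h6 : ε1 * F.card ≤ ε3 / 2 * F.card := mul_le_mul_of_nonneg_right h1 hFc
  have h7 : (0 : ℝ) ≤ ε3 / 2 * F.card := mul_nonneg (by linarith) hFc
  constructor
  · linarith
  · linarith

theorem lev_rob {n K : ℕ} {o i : Fin n → Fin K} {R : Finset (Fin n × Fin n)} {β ν : ℝ}
    (h : Rob o i R β ν) : Rob o i (own o i R) β ν := by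
  intro a X Y hX hY h1 h2
  have key : ∀ X Y : Finset (Fin n), X ⊆ Cl o a → Y ⊆ Cl i a →
      eb (own o i R) X Y = eb R X Y := by
    intro X Y hX hY
    unfold eb own
    congr 1
    ext q
    simp only [mem_filter]
    constructor
    · rintro ⟨⟨h1, -⟩, h3⟩
      exact ⟨h1, h3⟩
    · rintro ⟨h1, h3⟩
      refine ⟨⟨h1, ?_⟩, h3⟩
      have hx := hX h3.1
      have hy := hY h3.2
      unfold Cl at hx hy
      rw [mem_filter] at hx hy
      rw [hx.2, hy.2]
  rw [key X Y hX hY, key _ _ sdiff_subset sdiff_subset]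
  exact h a X Y hX hY h1 h2

theorem lev_od_add {n K : ℕ} (o i : Fin n → Fin K) (R : Finset (Fin n × Fin n)) (v : Fin n) :
    od R v = od (own o i R) v + od (crs o i R) v := by
  unfold od own crs
  rw [← card_union_of_disjoint]
  · congr 1
    ext q
    simp only [mem_filter, mem_union]
    tauto
  · rw [Finset.disjoint_left]
    intro q h1 h2
    simp only [mem_filter] at h1 h2
    exact h2.1.2 h1.1.2

theorem lev_idg_add {n K : ℕ} (o i : Fin n → Fin K) (R : Finset (Fin n × Fin n)) (v : Fin n) :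
    idg R v = idg (own o i R) v + idg (crs o i R) v := by
  unfold idg own crs
  rw [← card_union_of_disjoint]
  · congr 1
    ext q
    simp only [mem_filter, mem_union]
    tauto
  · rw [Finset.disjoint_left]
    intro q h1 h2
    simp only [mem_filter] at h1 h2
    exact h2.1.2 h1.1.2

theorem lev_markov {n : ℕ} {f : Fin n → ℕ} {M : ℕ} (hM : ∑ v, f v = M) {γ g1 : ℝ} (hg : 0 < g1)
    (hγ : γ ≤ g1 ^ 2) (hc : (M : ℝ) ≤ γ * (n : ℝ) ^ 2) (hn : 1 ≤ n) :
    ((univ.filter (fun v => g1 * n < (f v : ℝ))).card : ℝ) ≤ g1 * n := by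
  have hn' : (0 : ℝ) < n := by exact_mod_cast hn
  have hpos : 0 < g1 * n := mul_pos hg hn'
  have h1 : ((univ.filter (fun v => g1 * n < (f v : ℝ))).card : ℝ) * (g1 * n) ≤ M := by
    rw [← nsmul_eq_mul]
    calc (univ.filter (fun v => g1 * n < (f v : ℝ))).card • (g1 * (n : ℝ))
        = ∑ v ∈ univ.filter (fun v => g1 * n < (f v : ℝ)), (g1 * (n : ℝ)) := by
          rw [sum_const]
      _ ≤ ∑ v ∈ univ.filter (fun v => g1 * n < (f v : ℝ)), (f v : ℝ) := by
          refine sum_le_sum fun v hv => ?_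
          rw [mem_filter] at hv
          exact hv.2.le
      _ ≤ ∑ v, (f v : ℝ) := by
          refine sum_le_sum_of_subset_of_nonneg (filter_subset _ _) fun v _ _ => ?_
          exact Nat.cast_nonneg _
      _ = M := by
          rw [← hM]
          push_cast
          rfl
  have h2 : (M : ℝ) ≤ (g1 * n) * (g1 * n) := by
    refine hc.trans ?_
    calc γ * (n : ℝ) ^ 2 ≤ g1 ^ 2 * (n : ℝ) ^ 2 :=
          mul_le_mul_of_nonneg_right hγ (by positivity)
      _ = (g1 * n) * (g1 * n) := by ring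
  exact le_of_mul_le_mul_right (h1.trans h2) hpos

theorem lev_near {n K : ℕ} {o i : Fin n → Fin K} {R : Finset (Fin n × Fin n)} {r : ℕ}
    (hR : Reg R r) {γ g1 : ℝ} (hg : 0 < g1) (hγ : γ ≤ g1 ^ 2)
    (hc : ((crs o i R).card : ℝ) ≤ γ * (n : ℝ) ^ 2) (hn : 1 ≤ n) :
    ((univ.filter (fun v => g1 * n < |(od (own o i R) v : ℝ) - r|)).card : ℝ) ≤ g1 * n ∧
    ((univ.filter (fun v => g1 * n < |(idg (own o i R) v : ℝ) - r|)).card : ℝ) ≤ g1 * n := by
  constructor
  · have hM : ∑ v, od (crs o i R) v = (crs o i R).card := by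
      rw [← eb_univ_right]
      unfold eb
      congr 1
      rw [filter_true_of_mem]
      intro q _
      exact ⟨mem_univ _, mem_univ _⟩
    have h := lev_markov hM hg hγ hc hn
    refine le_trans (le_of_eq ?_) h
    congr 2
    ext v
    rw [mem_filter, mem_filter]
    have h1 : (r : ℝ) = od (own o i R) v + od (crs o i R) v := by
      rw [← (hR v).1, lev_od_add o i R v]
      push_cast
      rfl
    have h2 : |(od (own o i R) v : ℝ) - r| = od (crs o i R) v := by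
      rw [h1]
      rw [show (od (own o i R) v : ℝ) - (od (own o i R) v + od (crs o i R) v) =
        -(od (crs o i R) v : ℝ) by ring, abs_neg, abs_of_nonneg (Nat.cast_nonneg _)]
    rw [h2]
  · have hM : ∑ v, idg (crs o i R) v = (crs o i R).card := by
      rw [← eb_univ_left]
      unfold eb
      congr 1
      rw [filter_true_of_mem]
      intro q _
      exact ⟨mem_univ _, mem_univ _⟩
    have h := lev_markov hM hg hγ hc hn
    refine le_trans (le_of_eq ?_) h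
    congr 2
    ext v
    rw [mem_filter, mem_filter]
    have h1 : (r : ℝ) = idg (own o i R) v + idg (crs o i R) v := by
      rw [← (hR v).2, lev_idg_add o i R v]
      push_cast
      rfl
    have h2 : |(idg (own o i R) v : ℝ) - r| = idg (crs o i R) v := by
      rw [h1]
      rw [show (idg (own o i R) v : ℝ) - (idg (own o i R) v + idg (crs o i R) v) =
        -(idg (crs o i R) v : ℝ) by ring, abs_neg, abs_of_nonneg (Nat.cast_nonneg _)]
    rw [h2]

theorem lev_kt {n kt s kmax : ℕ} {T : Fin kt → Finset (Fin n)} (hs : ∀ p, (T p).card = s)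
    (hd : ∀ p p', p ≠ p' → Disjoint (T p) (T p')) (h1 : 1 ≤ s) (h2 : n ≤ kmax * s) :
    kt ≤ kmax := by
  have h3 : (univ.biUnion T).card = kt * s := by
    rw [card_biUnion fun p _ p' _ h => hd p p' h, sum_congr rfl fun p _ => hs p, sum_const,
      card_univ, Fintype.card_fin, smul_eq_mul]
  have h4 : (univ.biUnion T).card ≤ n := by
    have := card_le_univ (univ.biUnion T)
    rwa [Fintype.card_fin] at this
  rw [h3] at h4
  exact Nat.le_of_mul_le_mul_right (h4.trans h2) h1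

theorem lev_dev {e n C F A0 D : ℕ} {ε1 γ : ℝ} (hF : F ≤ n) (hε : 0 ≤ ε1)
    (h1 : (1 - ε1) * F ≤ ((e + 1 : ℕ) : ℝ) * C) (h2 : ((e + 1 : ℕ) : ℝ) * C ≤ (1 + ε1) * F)
    (h3 : (F : ℝ) ≤ A0 + γ * n) (h4 : (A0 : ℝ) ≤ F + γ * n)
    (hD : (ε1 + γ) * n + ((e + 1 : ℕ) : ℝ) ≤ ((e + 1 : ℕ) : ℝ) * D) :
    C ≤ A0 / (e + 1) + D ∧ A0 / (e + 1) ≤ C + D := by
  have hF' : ε1 * (F : ℝ) ≤ ε1 * n := mul_le_mul_of_nonneg_left (by exact_mod_cast hF) hε
  have hdm : (e + 1) * (A0 / (e + 1)) + A0 % (e + 1) = A0 := Nat.div_add_mod A0 (e + 1)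
  have hml : A0 % (e + 1) < e + 1 := Nat.mod_lt _ (Nat.succ_pos e)
  have hA1 : (A0 : ℝ) ≤ ((e + 1 : ℕ) : ℝ) * ((A0 / (e + 1) : ℕ) : ℝ) + ((e + 1 : ℕ) : ℝ) := by
    have : A0 ≤ (e + 1) * (A0 / (e + 1)) + (e + 1) := by omega
    exact_mod_cast this
  have hA2 : ((e + 1 : ℕ) : ℝ) * ((A0 / (e + 1) : ℕ) : ℝ) ≤ A0 := by
    have : (e + 1) * (A0 / (e + 1)) ≤ A0 := by omega
    exact_mod_cast this
  constructor
  · refine Nat.le_of_mul_le_mul_left ?_ (Nat.succ_pos e)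
    have h5 : ((e + 1 : ℕ) : ℝ) * C ≤
        ((e + 1 : ℕ) : ℝ) * (((A0 / (e + 1) : ℕ) : ℝ) + D) := by
      rw [mul_add]
      nlinarith
    exact_mod_cast h5
  · refine Nat.le_of_mul_le_mul_left ?_ (Nat.succ_pos e)
    have hk1 : (0 : ℝ) ≤ ((e + 1 : ℕ) : ℝ) := Nat.cast_nonneg _
    have h5 : ((e + 1 : ℕ) : ℝ) * ((A0 / (e + 1) : ℕ) : ℝ) ≤
        ((e + 1 : ℕ) : ℝ) * ((C : ℝ) + D) := by
      rw [mul_add]
      nlinarith
    exact_mod_cast h5

/-- the boxes and the levels -/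
theorem lev_box {n K e : ℕ} (o i : Fin n → Fin K) {lv : Fin n → ℕ} (hle : ∀ v, lv v ≤ e + 1)
    {l : ℕ} (hl : l ≤ e) (a : Fin K) :
    (Cl o a ∩ univ.filter (fun v => lv v = l) ⊆
      univ.filter (fun v => tgp e lv v = l ∧ o v = a)) ∧
    (univ.filter (fun v => tgp e lv v = l ∧ o v = a) ⊆ Cl o a) ∧
    (univ.filter (fun v => tgp e lv v = l ∧ o v = a) \ univ.filter (fun v => lv v = l) ⊆
      univ.filter (fun v => lv v = e + 1)) ∧
    (Cl i a ∩ univ.filter (fun v => lv v = if l = e then 0 else l + 1) ⊆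
      univ.filter (fun v => hgp e lv v = l ∧ i v = a)) ∧
    (univ.filter (fun v => hgp e lv v = l ∧ i v = a) ⊆ Cl i a) ∧
    (univ.filter (fun v => hgp e lv v = l ∧ i v = a) \
        univ.filter (fun v => lv v = if l = e then 0 else l + 1) ⊆
      univ.filter (fun v => lv v = e + 1)) := by
  unfold Cl tgp hgp
  refine ⟨?_, ?_, ?_, ?_, ?_, ?_⟩
  · intro v hv
    simp only [mem_inter, mem_filter, mem_univ, true_and] at hv ⊢
    refine ⟨?_, hv.1⟩
    rw [hv.2]
    exact min_eq_left hl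
  · intro v hv
    simp only [mem_filter, mem_univ, true_and] at hv ⊢
    exact hv.2
  · intro v hv
    simp only [mem_sdiff, mem_filter, mem_univ, true_and] at hv ⊢
    have := hle v
    omega
  · intro v hv
    simp only [mem_inter, mem_filter, mem_univ, true_and] at hv ⊢
    refine ⟨?_, hv.1⟩
    by_cases hle' : l = e
    · rw [if_pos hle'] at hv
      rw [if_pos hv.2]
      exact hle'.symm
    · rw [if_neg hle'] at hv
      rw [if_neg (by omega)]
      omega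
  · intro v hv
    simp only [mem_filter, mem_univ, true_and] at hv ⊢
    exact hv.2
  · intro v hv
    simp only [mem_sdiff, mem_filter, mem_univ, true_and] at hv ⊢
    have := hle v
    obtain ⟨⟨h1, -⟩, h2⟩ := hv
    by_cases h0 : lv v = 0
    · rw [if_pos h0] at h1
      rw [if_pos h1.symm] at h2
      exact absurd h0 h2
    · rw [if_neg h0] at h1
      by_cases hle' : l = e
      · omega
      · rw [if_neg hle'] at h2
        omega

/-- the family of sets -/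
noncomputable def lev_fam {n K kt kh : ℕ} (S : Finset (Fin n × Fin n)) (o i : Fin n → Fin K)
    (a : Fin K) (T : Fin kt → Finset (Fin n)) (H : Fin kh → Finset (Fin n)) :
    Finset (Finset (Fin n)) :=
  {univ, Cl o a, Cl i a} ∪
    (univ.image (fun x : Fin K × Fin K => univ.filter (fun v => o v = x.1 ∧ i v = x.2)) ∪
      (univ.image (Nout S) ∪ (univ.image (Nin S) ∪ (univ.image T ∪ univ.image H))))

theorem lev_fam_card {n K kt kh : ℕ} (S : Finset (Fin n × Fin n)) (o i : Fin n → Fin K)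
    (a : Fin K) (T : Fin kt → Finset (Fin n)) (H : Fin kh → Finset (Fin n)) :
    (lev_fam S o i a T H).card ≤ 3 + (K * K + (n + (n + (kt + kh)))) := by
  unfold lev_fam
  refine (card_union_le _ _).trans (add_le_add card_le_three ?_)
  refine (card_union_le _ _).trans (add_le_add ?_ ?_)
  · refine card_image_le.trans ?_
    rw [card_univ, Fintype.card_prod, Fintype.card_fin]
  refine (card_union_le _ _).trans (add_le_add ?_ ?_)
  · refine card_image_le.trans ?_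
    rw [card_univ, Fintype.card_fin]
  refine (card_union_le _ _).trans (add_le_add ?_ ?_)
  · refine card_image_le.trans ?_
    rw [card_univ, Fintype.card_fin]
  refine (card_union_le _ _).trans (add_le_add ?_ ?_)
  · refine card_image_le.trans ?_
    rw [card_univ, Fintype.card_fin]
  · refine card_image_le.trans ?_
    rw [card_univ, Fintype.card_fin]

theorem lev_fam_mem {n K kt kh : ℕ} (S : Finset (Fin n × Fin n)) (o i : Fin n → Fin K)
    (a : Fin K) (T : Fin kt → Finset (Fin n)) (H : Fin kh → Finset (Fin n)) :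
    univ ∈ lev_fam S o i a T H ∧ Cl o a ∈ lev_fam S o i a T H ∧ Cl i a ∈ lev_fam S o i a T H ∧
    (∀ x y, univ.filter (fun v => o v = x ∧ i v = y) ∈ lev_fam S o i a T H) ∧
    (∀ v, Nout S v ∈ lev_fam S o i a T H) ∧ (∀ v, Nin S v ∈ lev_fam S o i a T H) ∧
    (∀ p, T p ∈ lev_fam S o i a T H) ∧ ∀ q, H q ∈ lev_fam S o i a T H := by
  unfold lev_fam
  refine ⟨?_, ?_, ?_, fun x y => ?_, fun v => ?_, fun v => ?_, fun p => ?_, fun q => ?_⟩
  · exact mem_union_left _ (by simp)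
  · exact mem_union_left _ (by simp)
  · exact mem_union_left _ (by simp)
  · exact mem_union_right _ (mem_union_left _ (mem_image.2 ⟨(x, y), mem_univ _, rfl⟩))
  · exact mem_union_right _ (mem_union_right _ (mem_union_left _ (mem_image_of_mem _ (mem_univ v))))
  · exact mem_union_right _ (mem_union_right _ (mem_union_right _
      (mem_union_left _ (mem_image_of_mem _ (mem_univ v)))))
  · exact mem_union_right _ (mem_union_right _ (mem_union_right _
      (mem_union_right _ (mem_union_left _ (mem_image_of_mem _ (mem_univ p))))))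
  · exact mem_union_right _ (mem_union_right _ (mem_union_right _
      (mem_union_right _ (mem_union_right _ (mem_image_of_mem _ (mem_univ q))))))

theorem lev_typc {n K e : ℕ} {o i : Fin n → Fin K} {c : Fin n → Fin (e + 1)} {ε1 θ1 lam : ℝ}
    {m : ℕ} (hε : ε1 ≤ 1 / 2) (hθ : θ1 ≤ lam)
    (hm : ((e + 1 : ℕ) : ℝ) * m ≤ lam * n / 2) (x y : Fin K)
    (hF : lam * n ≤ (Cl o x ∩ Cl i y).card)
    (hc : θ1 * n ≤ (univ.filter (fun v => o v = x ∧ i v = y)).card → ∀ j : Fin (e + 1),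
      (1 - ε1) * (univ.filter (fun v => o v = x ∧ i v = y)).card ≤
        ((e + 1 : ℕ) : ℝ) *
          (((univ.filter (fun v => o v = x ∧ i v = y)).filter (fun v => c v = j)).card : ℝ))
    (l : ℕ) (hl : l < e + 1) :
    (m : ℝ) ≤ (univ.filter (fun v => (c v : ℕ) = l ∧ o v = x ∧ i v = y)).card := by
  have hn : (0 : ℝ) ≤ n := Nat.cast_nonneg _
  have hset : Cl o x ∩ Cl i y = univ.filter (fun v => o v = x ∧ i v = y) := by
    ext v
    unfold Cl
    simp only [mem_inter, mem_filter, mem_univ, true_and]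
  rw [hset] at hF
  have h1 := hc ((mul_le_mul_of_nonneg_right hθ hn).trans hF) ⟨l, hl⟩
  have h2 : (univ.filter (fun v => o v = x ∧ i v = y)).filter
      (fun v => c v = (⟨l, hl⟩ : Fin (e + 1))) =
      univ.filter (fun v => (c v : ℕ) = l ∧ o v = x ∧ i v = y) := by
    ext v
    simp only [mem_filter, mem_univ, true_and, Fin.ext_iff]
    tauto
  rw [h2] at h1
  have h3 : lam * n / 2 ≤ (1 - ε1) * (univ.filter (fun v => o v = x ∧ i v = y)).card := by
    have h4 : (0 : ℝ) ≤ (univ.filter (fun v => o v = x ∧ i v = y)).card := Nat.cast_nonneg _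
    nlinarith
  have hk : (0 : ℝ) < ((e + 1 : ℕ) : ℝ) := by exact_mod_cast Nat.succ_pos e
  exact le_of_mul_le_mul_left (hm.trans (h3.trans h1)) hk

/-- the box system -/
theorem lev_bx (hBxR : S_BxR) (hBxh : S_Bxh) {θ βt ν τ d : ℝ} (hθ : 0 < θ) (hβ : 0 < βt)
    (hβ1 : βt ≤ 1) (hν : 0 < ν) (hd0 : 0 < d) (hτ0 : 0 < τ) (hτ1 : 64 * τ ≤ βt)
    (hτ2 : 6 * τ ≤ ν) (hτ3 : 16 * τ ≤ θ * βt) {e : ℕ} (he : 1 ≤ e) {g δ ε g1 γ : ℝ}
    (hg10 : 0 < g1) (hg1k : ((e : ℝ) + 1) * g1 = g) (hg1g : g1 ≤ g / 2) (hε0 : 0 < ε)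
    (hεβ : 64 * ε ≤ βt) (hεg : ε ≤ g / 2) (hδ0 : 0 < δ) (hδ2 : ((e : ℝ) + 1) * δ ≤ g / 2)
    (hδ3 : 2 * (((e : ℝ) + 1) * δ) ≤ 1) (hδ4 : 64 * (((e : ℝ) + 1) * δ) ≤ βt)
    (hγ1 : γ ≤ g1 ^ 2) {n K r : ℕ} {R : Finset (Fin n × Fin n)} {o i : Fin n → Fin K}
    (hn1 : 1 ≤ n) (hR : Reg R r) (hcrs : ((crs o i R).card : ℝ) ≤ γ * (n : ℝ) ^ 2)
    (hRob : Rob o i R (βt / 16) ν) (hod : ∀ v, θ * n ≤ od (own o i R) v)
    (hid : ∀ v, θ * n ≤ idg (own o i R) v) {s kt kh : ℕ} {T : Fin kt → Finset (Fin n)}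
    {H : Fin kh → Finset (Fin n)} {ct : Fin kt → Fin K} {ch : Fin kh → Fin K}
    {D : Finset (Fin kt × Fin kh)} (hs1 : 1 ≤ s)
    (hC : CSys (own o i R) o i T H ct ch D s (βt / (16 * ((e : ℝ) + 1))) d τ)
    {lv : Fin n → ℕ} (hle : ∀ v, lv v ≤ e + 1)
    (hexc : ((univ.filter (fun v => lv v = e + 1)).card : ℝ) ≤ δ * n)
    (hEu : Evn (e + 1) lv ε univ) (hEo : ∀ v, Evn (e + 1) lv ε (Nout (own o i R) v))
    (hEi : ∀ v, Evn (e + 1) lv ε (Nin (own o i R) v)) (hET : ∀ p, Evn (e + 1) lv ε (T p))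
    (hEH : ∀ q, Evn (e + 1) lv ε (H q)) :
    BHyp (wnd e lv (own o i R)) (bxo e lv o) (bxi e lv i) (2 * n / (e + 1)) (θ / 4)
      (r / (e + 1)) g βt (d * (βt / 16) ^ 2 * min (ν / 2) (θ * βt / 8) / 4) := by
  have hSown : ∀ q ∈ own o i R, o q.1 = i q.2 := fun q hq => (mem_filter.1 hq).2
  have hcast : ((e + 1 : ℕ) : ℝ) = (e : ℝ) + 1 := by push_cast; rfl
  have hk0 : (0 : ℝ) < (e : ℝ) + 1 := by positivity
  have hnear := lev_near hR hg10 hγ1 hcrs hn1
  have hr1 : θ * n ≤ r := by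
    have h1 := hod ⟨0, hn1⟩
    have h2 : od (own o i R) ⟨0, hn1⟩ ≤ r := by
      rw [← (hR ⟨0, hn1⟩).1, lev_od_add o i R]
      exact Nat.le_add_right _ _
    exact h1.trans (by exact_mod_cast h2)
  have hr2 : r ≤ n := by
    rw [← (hR ⟨0, hn1⟩).1, ← lev_nout]
    have := card_le_univ (Nout R ⟨0, hn1⟩)
    rwa [Fintype.card_fin] at this
  refine hBxh n K e r (own o i R) o i lv θ ε δ g1 g βt _ he hSown hn1 hθ hle hexc hod hid hr1
    (by exact_mod_cast hr2) hnear.1 hnear.2 hEu hEo hEi hε0 (by linarith) hδ0.le hg10.le hδ3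
    (by linarith) (by linarith) ?_
  intro l hl a X Y hX hY h1 h2
  obtain ⟨b1, b2, b3, b4, b5, b6⟩ := lev_box o i hle hl a
  have hl' : (if l = e then 0 else l + 1) < e + 1 := by
    split_ifs
    · exact Nat.succ_pos e
    · omega
  have hx1 : ∀ F : Finset (Fin n), F.filter (fun v => lv v = l) =
      F ∩ univ.filter (fun v => lv v = l) := by
    intro F
    ext v
    simp only [mem_filter, mem_inter, mem_univ, true_and]
  have hx2 : ∀ F : Finset (Fin n), F.filter (fun v => lv v = if l = e then 0 else l + 1) =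
      F ∩ univ.filter (fun v => lv v = if l = e then 0 else l + 1) := by
    intro F
    ext v
    simp only [mem_filter, mem_inter, mem_univ, true_and]
  have hVt := (hEu l (by omega)).2
  have hVh := (hEu _ hl').2
  rw [card_univ, Fintype.card_fin] at hVt hVh
  have key := hBxR n K kt kh s (e + 1) (own o i R) o i T H ct ch D
    (βt / (16 * ((e : ℝ) + 1))) d τ θ ν ε δ βt a (univ.filter (fun v => lv v = l))
    (univ.filter (fun v => lv v = if l = e then 0 else l + 1))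
    (univ.filter (fun v => tgp e lv v = l ∧ o v = a))
    (univ.filter (fun v => hgp e lv v = l ∧ i v = a)) hC hSown hn1 hs1 (Nat.succ_pos e)
    (lev_rob hRob) hθ hν hd0 hβ hβ1 hod hid
    (by
      intro p
      have h3 := hET p l (by omega)
      rw [hx1, hC.sT p] at h3
      exact h3)
    (by
      intro q
      have h3 := hEH q _ hl'
      rw [hx2, hC.sH q] at h3
      exact h3)
    hVt hVh b1 b2 (le_trans (by exact_mod_cast card_le_card b3) hexc) b4 b5
    (le_trans (by exact_mod_cast card_le_card b6) hexc) hε0 hεβ hτ1 hτ0 hτ2 hτ3 hδ0.le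
    (by rw [hcast]; linarith)
    (by
      rw [hcast]
      have h3 : 16 * (((e : ℝ) + 1) * (βt / (16 * ((e : ℝ) + 1)))) = βt := by
        field_simp
      exact h3.le)
    X Y hX hY (by rw [hcast]; exact h1) (by rw [hcast]; exact h2)
  rw [hcast] at key
  rw [hx1 X, hx2 Y, hx1 (univ.filter (fun v => tgp e lv v = l ∧ o v = a) \ X),
    hx2 (univ.filter (fun v => hgp e lv v = l ∧ i v = a) \ Y)]
  exact key

/-- the choice of the levels -/
theorem lev_lv (hAdj : S_Adj) {lam δ ε1 ε3 θ1 γ : ℝ} {n K e : ℕ} {k : ℝ}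
    (hk : k = ((e + 1 : ℕ) : ℝ)) (hK : K ≤ 2) (he : 1 ≤ e) (hnr : 100 * k ≤ δ * n)
    (hδ5 : 16 * δ ≤ lam) (hε10 : 0 ≤ ε1) (hε1h : ε1 ≤ 1 / 2) (hε12 : ε1 ≤ δ / 100)
    (hγ0 : 0 ≤ γ) (hγ2 : γ ≤ δ / 100) (hε11 : ε1 ≤ ε3 / 2) (hε30 : 0 ≤ ε3)
    (hδ6 : k * δ ≤ ε3 * θ1 / 2) (hθ1l : θ1 ≤ lam) (hθ11 : θ1 ≤ 1)
    {o i : Fin n → Fin K} {a : Fin K} {𝓕 : Finset (Finset (Fin n))} (m1 : univ ∈ 𝓕)
    (m2 : Cl o a ∈ 𝓕) (m3 : Cl i a ∈ 𝓕)
    (m4 : ∀ x y, univ.filter (fun v => o v = x ∧ i v = y) ∈ 𝓕)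
    (haa : lam * n ≤ (Cl o a ∩ Cl i a).card)
    (hab : ∀ b, b ≠ a → lam * n ≤ (Cl o a ∩ Cl i b).card ∧ lam * n ≤ (Cl o b ∩ Cl i a).card)
    (hcl1 : ((Cl o a).card : ℝ) ≤ (Cl i a).card + γ * n)
    (hcl2 : ((Cl i a).card : ℝ) ≤ (Cl o a).card + γ * n) {c : Fin n → Fin (e + 1)}
    (hcF : ∀ F ∈ 𝓕, θ1 * n ≤ F.card → ∀ j,
      (1 - ε1) * F.card ≤ k * ((F.filter (fun v => c v = j)).card : ℝ) ∧
      k * ((F.filter (fun v => c v = j)).card : ℝ) ≤ (1 + ε1) * F.card)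
    (XL : Finset (Fin n × Fin n)) :
    ∃ lv : Fin n → ℕ, Lv e o i lv ∧
      ((univ.filter (fun v => lv v = e + 1)).card : ℝ) ≤ δ * n ∧
      Typ (e + 1) o i lv (lam / 2 / (4 * (e + 1)) * n) a ∧
      (XL.filter (fun q => (c q.1 : ℕ) = e ∧ (c q.2 : ℕ) = 0)).card ≤
        2 * (XL.filter (fun q => lv q.1 = e ∧ lv q.2 = 0)).card ∧
      ∀ F ∈ 𝓕, θ1 * n ≤ F.card → Evn (e + 1) lv ε3 F := by
  have hn0 : (0 : ℝ) ≤ n := Nat.cast_nonneg _
  have hk0 : 0 < k := by rw [hk]; exact_mod_cast Nat.succ_pos e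
  -- the numbers `t`, `D`, `m`
  obtain ⟨x, hx⟩ : ∃ x : ℝ, x = δ * n / k := ⟨_, rfl⟩
  have hxk : k * x = δ * n := by rw [hx]; field_simp
  have hx100 : 100 ≤ x := by
    rw [hx, le_div_iff₀ hk0]
    exact hnr
  obtain ⟨y, hy⟩ : ∃ y : ℝ, y = lam * n / k := ⟨_, rfl⟩
  have hyk : k * y = lam * n := by rw [hy]; field_simp
  have hxy : 16 * x ≤ y := by
    rw [hx, hy, ← mul_div_assoc]
    refine div_le_div_of_nonneg_right ?_ hk0.le
    have := mul_le_mul_of_nonneg_right hδ5 hn0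
    linarith only [this]
  obtain ⟨t, ht⟩ : ∃ t : ℕ, t = ⌊x / 4⌋₊ := ⟨_, rfl⟩
  have ht1 : (t : ℝ) ≤ x / 4 := by rw [ht]; exact Nat.floor_le (by linarith only [hx100])
  have ht2 : x / 4 < t + 1 := by rw [ht]; exact Nat.lt_floor_add_one _
  obtain ⟨m, hm⟩ : ∃ m : ℕ, m = ⌊y / 2⌋₊ := ⟨_, rfl⟩
  have hm1 : (m : ℝ) ≤ y / 2 := by
    rw [hm]; exact Nat.floor_le (by linarith only [hx100, hxy])
  have hm2 : y / 2 < m + 1 := by rw [hm]; exact Nat.lt_floor_add_one _
  have ht3 : 1 ≤ t := by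
    have h1 : (24 : ℝ) ≤ t := by linarith only [hx100, ht2]
    have h2 : 24 ≤ t := by exact_mod_cast h1
    omega
  have htm : 16 * t ≤ m := by
    have h1 : ((16 * t : ℕ) : ℝ) ≤ m := by
      push_cast
      linarith only [hx100, hxy, ht1, hm2]
    exact_mod_cast h1
  have hD1 : ((t : ℝ) - 2) / 3 ≤ ((t / 3 : ℕ) : ℝ) := by
    have h1 : t ≤ 3 * (t / 3) + 2 := by omega
    have h2 : (t : ℝ) ≤ 3 * ((t / 3 : ℕ) : ℝ) + 2 := by exact_mod_cast h1
    linarith only [h2]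
  have hD2 : (ε1 + γ) * n + k ≤ k * ((t / 3 : ℕ) : ℝ) := by
    have h1 : (ε1 + γ) * n ≤ δ * n / 50 := by
      have := mul_le_mul_of_nonneg_right (add_le_add hε12 hγ2) hn0
      linarith only [this]
    have h2 : k * ((x / 4 - 3) / 3) ≤ k * ((t / 3 : ℕ) : ℝ) :=
      mul_le_mul_of_nonneg_left (by linarith only [hD1, ht2]) hk0.le
    have h3 : k * ((x / 4 - 3) / 3) = (k * x) / 12 - k := by ring
    rw [h3, hxk] at h2
    linarith only [h1, h2, hnr, hk0]
  have hD3 : (ε1 + 0) * n + k ≤ k * ((t / 3 : ℕ) : ℝ) := by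
    refine le_trans ?_ hD2
    have := mul_nonneg hγ0 hn0
    linarith only [this]
  -- the sets `Cl o a`, `Cl i a`
  have hClo : lam * n ≤ (Cl o a).card :=
    haa.trans (by exact_mod_cast card_le_card inter_subset_left)
  have hCli : lam * n ≤ (Cl i a).card :=
    haa.trans (by exact_mod_cast card_le_card inter_subset_right)
  have hθl : θ1 * n ≤ lam * n := mul_le_mul_of_nonneg_right hθ1l hn0
  have hle_n : ∀ F : Finset (Fin n), F.card ≤ n := by
    intro F
    have := card_le_univ F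
    rwa [Fintype.card_fin] at this
  have huniv : θ1 * n ≤ (univ : Finset (Fin n)).card := by
    rw [card_univ, Fintype.card_fin]
    have := mul_le_mul_of_nonneg_right hθ11 hn0
    linarith only [this]
  -- `S_Adj`
  have hmk : ((e + 1 : ℕ) : ℝ) * m ≤ lam * n / 2 := by
    rw [← hk]
    have := mul_le_mul_of_nonneg_left hm1 hk0.le
    linarith only [this, hyk]
  have htypc : Typ (e + 1) o i (fun v => (c v : ℕ)) m a := by
    have hty : ∀ x y, lam * n ≤ (Cl o x ∩ Cl i y).card → ∀ l < e + 1,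
        (m : ℝ) ≤ (univ.filter (fun v => (c v : ℕ) = l ∧ o v = x ∧ i v = y)).card := by
      intro x y hxy l hl
      refine lev_typc (ε1 := ε1) hε1h hθ1l hmk x y hxy ?_ l hl
      intro h1 j
      rw [← hk]
      exact (hcF _ (m4 x y) h1 j).1
    intro l hl
    refine ⟨hty a a haa l hl, fun b hb => ⟨hty a b (hab b hb).1 l hl, hty b a (hab b hb).2 l hl⟩⟩
  obtain ⟨lv, a1, a2, a3, a4, a5⟩ := hAdj n K e t m (t / 3) o i c XL a hK he ht3
    (Nat.mul_div_le t 3) htm htypc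
    (by
      intro l
      have h1 := hcF _ m1 huniv l
      rw [hk, card_univ, Fintype.card_fin] at h1
      rw [hk] at hD3
      exact lev_dev le_rfl hε10 h1.1 h1.2 (by rw [zero_mul, add_zero])
        (by rw [zero_mul, add_zero]) hD3)
    (by
      intro l
      have h1 := hcF _ m2 (hθl.trans hClo) l
      have h2 : (Cl o a).filter (fun v => c v = l) =
          univ.filter (fun v => c v = l ∧ o v = a) := by
        ext v
        unfold Cl
        simp only [mem_filter, mem_univ, true_and]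
        tauto
      rw [hk, h2] at h1
      rw [hk] at hD3
      exact lev_dev (hle_n _) hε10 h1.1 h1.2 (by rw [zero_mul, add_zero])
        (by rw [zero_mul, add_zero]) hD3)
    (by
      intro l
      have h1 := hcF _ m3 (hθl.trans hCli) l
      have h2 : (Cl i a).filter (fun v => c v = l) =
          univ.filter (fun v => c v = l ∧ i v = a) := by
        ext v
        unfold Cl
        simp only [mem_filter, mem_univ, true_and]
        tauto
      rw [hk, h2] at h1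
      rw [hk] at hD2
      exact lev_dev (hle_n _) hε10 h1.1 h1.2 hcl2 hcl1 hD2)
  have hexc : ((univ.filter (fun v => lv v = e + 1)).card : ℝ) ≤ δ * n := by
    have h1 : ((univ.filter (fun v => lv v = e + 1)).card : ℝ) ≤ 4 * t * ((e + 1 : ℕ) : ℝ) := by
      exact_mod_cast a3
    rw [← hk] at h1
    have h2 : (t : ℝ) * k ≤ x / 4 * k := mul_le_mul_of_nonneg_right ht1 hk0.le
    linarith only [h1, h2, hxk]
  have hevn : ∀ F ∈ 𝓕, θ1 * n ≤ F.card → Evn (e + 1) lv ε3 F := by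
    intro F hF hF'
    have h1 := hcF F hF hF'
    rw [hk] at h1
    refine lev_evn a2 hexc hε11 ?_ hε30 hF' h1
    rw [← hk]
    exact hδ6
  have htyp : Typ (e + 1) o i lv (lam / 2 / (4 * (e + 1)) * n) a := by
    have h0 : lam / 2 / (4 * ((e : ℝ) + 1)) * n ≤ (m : ℝ) / 2 := by
      have h1 : lam / 2 / (4 * ((e : ℝ) + 1)) * n = y / 8 := by
        have h2 : (e : ℝ) + 1 = k := by rw [hk]; push_cast; rfl
        rw [h2, hy]
        field_simp
        ring
      rw [h1]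
      linarith only [hm2, hx100, hxy]
    intro l hl
    obtain ⟨h1, h2⟩ := a4 l hl
    exact ⟨h0.trans h1, fun b hb => ⟨h0.trans (h2 b hb).1, h0.trans (h2 b hb).2⟩⟩
  exact ⟨lv, a1, hexc, htyp, a5, hevn⟩

theorem tLev (hClu : S_Clu) (hRnd : S_Rnd) (hAdj : S_Adj) (hBxR : S_BxR) (hBxh : S_Bxh) :
    S_Lev := by
  intro θ lam βt ν hθ hθ1 hlam hlam1 hβ hβ1 hν
  have hθβ : 0 < θ * βt := mul_pos hθ hβ
  obtain ⟨τ, hτ⟩ : ∃ τ : ℝ, τ = min (βt / 64) (min (ν / 8) (θ * βt / 16)) := ⟨_, rfl⟩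
  have hτ0 : 0 < τ := by
    rw [hτ]
    exact lt_min (by positivity) (lt_min (by positivity) (by positivity))
  have hτ1 : τ ≤ βt / 64 := by rw [hτ]; exact min_le_left _ _
  have hτ2 : τ ≤ ν / 8 := by
    rw [hτ]; exact (min_le_right _ _).trans (min_le_left _ _)
  have hτ3 : τ ≤ θ * βt / 16 := by
    rw [hτ]; exact (min_le_right _ _).trans (min_le_right _ _)
  obtain ⟨d, hd0, hd1, hClu'⟩ := hClu 2 τ (by norm_num) hτ0 (by linarith only [hτ1, hβ1])
  have hmin : 0 < min (ν / 2) (θ * βt / 8) := lt_min (by positivity) (by positivity)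
  refine ⟨d * (βt / 16) ^ 2 * min (ν / 2) (θ * βt / 8) / 4, by positivity, ?_⟩
  intro e g δ he hg hδ
  have hk2 : (2 : ℝ) ≤ ((e + 1 : ℕ) : ℝ) := by exact_mod_cast (by omega : 2 ≤ e + 1)
  obtain ⟨k, hk⟩ : ∃ k : ℝ, k = ((e + 1 : ℕ) : ℝ) := ⟨_, rfl⟩
  have hkk : k = (e : ℝ) + 1 := by rw [hk]; push_cast; rfl
  rw [← hk] at hk2
  have hk0 : 0 < k := by linarith only [hk2]
  have h2k : 0 < 2 * k := by linarith only [hk2]
  obtain ⟨kmax, n1, hClu2⟩ := hClu' (βt / (16 * k)) (by positivity) (by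
    rw [div_le_one (by positivity)]; linarith only [hk2, hβ1])
  -- the constants
  obtain ⟨θ1, hθ1d⟩ : ∃ θ1 : ℝ, θ1 = min (min θ lam) (1 / ((kmax : ℝ) + 1)) := ⟨_, rfl⟩
  have hkm : (0 : ℝ) < (kmax : ℝ) + 1 := by positivity
  have hθ10 : 0 < θ1 := by
    rw [hθ1d]
    exact lt_min (lt_min hθ hlam) (by positivity)
  have hθ1θ : θ1 ≤ θ := by rw [hθ1d]; exact (min_le_left _ _).trans (min_le_left _ _)
  have hθ1l : θ1 ≤ lam := by rw [hθ1d]; exact (min_le_left _ _).trans (min_le_right _ _)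
  have hθ1k : θ1 * ((kmax : ℝ) + 1) ≤ 1 := by
    have h1 : θ1 ≤ 1 / ((kmax : ℝ) + 1) := by rw [hθ1d]; exact min_le_right _ _
    rwa [le_div_iff₀ hkm] at h1
  obtain ⟨ε3, hε3d⟩ : ∃ ε3 : ℝ, ε3 = min (βt / 64) (g / 2) := ⟨_, rfl⟩
  have hε30 : 0 < ε3 := by rw [hε3d]; exact lt_min (by positivity) (by positivity)
  have hε3β : ε3 ≤ βt / 64 := by rw [hε3d]; exact min_le_left _ _
  have hε3g : ε3 ≤ g / 2 := by rw [hε3d]; exact min_le_right _ _
  obtain ⟨g1, hg1d⟩ : ∃ g1 : ℝ, g1 = g / k := ⟨_, rfl⟩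
  have hg10 : 0 < g1 := by rw [hg1d]; positivity
  have hg1k : k * g1 = g := by rw [hg1d]; field_simp
  have hg1g : g1 ≤ g / 2 := by
    have := mul_le_mul_of_nonneg_right hk2 hg10.le
    linarith only [this, hg1k]
  obtain ⟨δ', hδ'd⟩ : ∃ δ' : ℝ, δ' = min (min δ (min (g / (2 * k)) (1 / (2 * k))))
    (min (βt / (64 * k)) (min (lam / 16) (ε3 * θ1 / (2 * k)))) := ⟨_, rfl⟩
  have hδ'0 : 0 < δ' := by
    rw [hδ'd]
    refine lt_min (lt_min hδ (lt_min ?_ ?_)) (lt_min ?_ (lt_min ?_ ?_)) <;> positivity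
  have hδ'1 : δ' ≤ δ := by rw [hδ'd]; exact (min_le_left _ _).trans (min_le_left _ _)
  have hδ'2 : δ' * (2 * k) ≤ g := by
    rw [← le_div_iff₀ h2k, hδ'd]
    exact (min_le_left _ _).trans ((min_le_right _ _).trans (min_le_left _ _))
  have hδ'3 : δ' * (2 * k) ≤ 1 := by
    rw [← le_div_iff₀ h2k, hδ'd]
    exact (min_le_left _ _).trans ((min_le_right _ _).trans (min_le_right _ _))
  have hδ'4 : δ' * (64 * k) ≤ βt := by
    rw [← le_div_iff₀ (by positivity), hδ'd]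
    exact (min_le_right _ _).trans (min_le_left _ _)
  have hδ'5 : δ' ≤ lam / 16 := by
    rw [hδ'd]
    exact (min_le_right _ _).trans ((min_le_right _ _).trans (min_le_left _ _))
  have hδ'6 : δ' * (2 * k) ≤ ε3 * θ1 := by
    rw [← le_div_iff₀ h2k, hδ'd]
    exact (min_le_right _ _).trans ((min_le_right _ _).trans (min_le_right _ _))
  obtain ⟨ε1, hε1d⟩ : ∃ ε1 : ℝ, ε1 = min (ε3 / 2) (δ' / 100) := ⟨_, rfl⟩
  have hε10 : 0 < ε1 := by rw [hε1d]; exact lt_min (by positivity) (by positivity)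
  have hε11 : ε1 ≤ ε3 / 2 := by rw [hε1d]; exact min_le_left _ _
  have hε12 : ε1 ≤ δ' / 100 := by rw [hε1d]; exact min_le_right _ _
  obtain ⟨γ, hγd⟩ : ∃ γ : ℝ, γ = min (g1 ^ 2) (δ' / 100) := ⟨_, rfl⟩
  have hγ0 : 0 < γ := by rw [hγd]; exact lt_min (by positivity) (by positivity)
  have hγ1 : γ ≤ g1 ^ 2 := by rw [hγd]; exact min_le_left _ _
  have hγ2 : γ ≤ δ' / 100 := by rw [hγd]; exact min_le_right _ _
  have hε1h : ε1 ≤ 1 / 2 := by linarith only [hε11, hε3β, hβ1]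
  obtain ⟨n2, hRnd2⟩ := hRnd (e + 1) ε1 θ1 (by omega) hε10 (by linarith only [hε1h]) hθ10
  refine ⟨γ, n1 + n2 + 12 + 2 * kmax + ⌈100 * k / δ'⌉₊, hγ0, ?_⟩
  intro n hn K r p Δ R XL o i a hK hR hcrs hRob hod hid haa hab hp hcl hXL hDg hbig
  -- size of `n`
  have hnr : 100 * k ≤ δ' * n := by
    have h1 : 100 * k / δ' ≤ n := (Nat.le_ceil _).trans (by exact_mod_cast (by omega))
    rw [div_le_iff₀ hδ'0] at h1
    linarith only [h1]
  have hn0 : (0 : ℝ) ≤ n := Nat.cast_nonneg _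
  have hSown : ∀ q ∈ own o i R, o q.1 = i q.2 := fun q hq => (mem_filter.1 hq).2
  obtain ⟨s, kt, kh, T, H, ct, ch, D0, hn1, hs1, hks, hC⟩ :=
    hClu2 n (by omega) K (own o i R) o i hK hSown
  have hkt : kt ≤ kmax := lev_kt hC.sT hC.dT hs1 hks
  have hkh : kh ≤ kmax := lev_kt hC.sH hC.dH hs1 hks
  obtain ⟨m1, m2, m3, m4, m5, m6, m7, m8⟩ := lev_fam_mem (own o i R) o i a T H
  have hfam : (lev_fam (own o i R) o i a T H).card ≤ n ^ 2 := by
    refine (lev_fam_card (own o i R) o i a T H).trans ?_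
    have h1 : K * K ≤ 4 := Nat.mul_le_mul hK hK
    have h2 : 12 + 2 * kmax ≤ n := by omega
    have h3 : (12 + 2 * kmax) * n ≤ n * n := Nat.mul_le_mul_right n h2
    have h4 : 2 * kmax ≤ 2 * kmax * n := Nat.le_mul_of_pos_right _ hn1
    have h5 : (12 + 2 * kmax) * n = 12 * n + 2 * kmax * n := by ring
    rw [pow_two]
    omega
  obtain ⟨c, hc1, hc2⟩ := hRnd2 n (by omega) (lev_fam (own o i R) o i a T H) XL Δ (Fin.last e) 0
    hfam hXL hDg hbig
  rw [← hk] at hc1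
  have hcl1 : ((Cl o a).card : ℝ) ≤ (Cl i a).card + γ * n := by
    have h1 : ((Cl o a).card : ℝ) ≤ (Cl i a).card + p := by exact_mod_cast (hcl a).1
    linarith only [h1, hp]
  have hcl2 : ((Cl i a).card : ℝ) ≤ (Cl o a).card + γ * n := by
    have h1 : ((Cl i a).card : ℝ) ≤ (Cl o a).card + p := by exact_mod_cast (hcl a).2
    linarith only [h1, hp]
  obtain ⟨lv, a1, hexc, htyp, a5, hevn⟩ := lev_lv hAdj hk hK he hnr (by linarith only [hδ'5])
    hε10.le hε1h hε12 hγ0.le hγ2 hε11 hε30.le (by linarith only [hδ'6]) hθ1l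
    (hθ1θ.trans hθ1) m1 m2 m3 m4 haa hab hcl1 hcl2 hc1 XL
  have hθθ : θ1 * n ≤ θ * n := mul_le_mul_of_nonneg_right hθ1θ hn0
  have huniv : θ1 * n ≤ (univ : Finset (Fin n)).card := by
    rw [card_univ, Fintype.card_fin]
    have := mul_le_mul_of_nonneg_right (hθ1θ.trans hθ1) hn0
    linarith only [this]
  have hEu := hevn _ m1 huniv
  have hEo : ∀ v, Evn (e + 1) lv ε3 (Nout (own o i R) v) := by
    intro v
    refine hevn _ (m5 v) ?_
    rw [lev_nout]
    exact hθθ.trans (hod v)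
  have hEi : ∀ v, Evn (e + 1) lv ε3 (Nin (own o i R) v) := by
    intro v
    refine hevn _ (m6 v) ?_
    rw [lev_nin]
    exact hθθ.trans (hid v)
  have hsθ : θ1 * n ≤ s := by
    have h1 : (n : ℝ) ≤ ((kmax : ℝ) + 1) * s := by
      have h2 : (n : ℝ) ≤ (kmax : ℝ) * s := by exact_mod_cast hks
      have h3 : (0 : ℝ) ≤ s := Nat.cast_nonneg _
      linarith only [h2, h3]
    calc θ1 * (n : ℝ) ≤ θ1 * (((kmax : ℝ) + 1) * s) := mul_le_mul_of_nonneg_left h1 hθ10.le
      _ = (θ1 * ((kmax : ℝ) + 1)) * s := by ring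
      _ ≤ 1 * s := mul_le_mul_of_nonneg_right hθ1k (Nat.cast_nonneg _)
      _ = s := one_mul _
  have hET : ∀ p, Evn (e + 1) lv ε3 (T p) := by
    intro p
    refine hevn _ (m7 p) ?_
    rw [hC.sT p]
    exact hsθ
  have hEH : ∀ q, Evn (e + 1) lv ε3 (H q) := by
    intro q
    refine hevn _ (m8 q) ?_
    rw [hC.sH q]
    exact hsθ
  rw [hkk] at hC hg1k hδ'2 hδ'3 hδ'4
  refine ⟨lv, a1, hexc.trans (mul_le_mul_of_nonneg_right hδ'1 hn0), ?_, ?_, ?_, ⟨a, htyp⟩, ?_⟩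
  · exact lev_bx hBxR hBxh hθ hβ hβ1 hν hd0 hτ0 (by linarith only [hτ1])
      (by linarith only [hτ2, hν]) (by linarith only [hτ3]) he hg10 hg1k hg1g hε30
      (by linarith only [hε3β]) hε3g hδ'0 (by linarith only [hδ'2]) (by linarith only [hδ'3])
      (by linarith only [hδ'4]) hγ1 hn1 hR hcrs hRob hod hid hs1 hC a1.le hexc hEu hEo hEi hET hEH
  · intro l hl
    have h1 := hEu l (by omega)
    rw [card_univ, Fintype.card_fin, ← hk, hkk] at h1
    have h2 : ε3 * (n : ℝ) ≤ 1 / 2 * n :=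
      mul_le_mul_of_nonneg_right (by linarith only [hε3β, hβ1]) hn0
    constructor
    · linarith only [h1.1, h2]
    · linarith only [h1.2, h2, hn0]
  · have h1 : (XL.filter (fun q => c q.1 = Fin.last e ∧ c q.2 = 0)).card ≤
        (XL.filter (fun q => (c q.1 : ℕ) = e ∧ (c q.2 : ℕ) = 0)).card := by
      refine card_le_card ?_
      intro q hq
      rw [mem_filter] at hq ⊢
      refine ⟨hq.1, ?_, ?_⟩
      · rw [hq.2.1]; rfl
      · rw [hq.2.2]; rfl
    calc XL.card ≤ 2 * (e + 1) ^ 2 *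
          (XL.filter (fun q => c q.1 = Fin.last e ∧ c q.2 = 0)).card := hc2
      _ ≤ 2 * (e + 1) ^ 2 * (2 * (XL.filter (fun q => lv q.1 = e ∧ lv q.2 = 0)).card) :=
          Nat.mul_le_mul_left _ (h1.trans a5)
      _ = 4 * (e + 1) ^ 2 * (XL.filter (fun q => lv q.1 = e ∧ lv q.2 = 0)).card := by ring
  · intro v l hl
    have h1 := (hEo v l (by omega)).1
    have h2 := (hEi v l (by omega)).1
    rw [← hk, hkk] at h1 h2
    rw [lev_nout] at h1
    rw [lev_nin] at h2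
    have h3 : ε3 ≤ 1 / 2 := by linarith only [hε3β, hβ1]
    have h4 : ε3 * (od (own o i R) v : ℝ) ≤ 1 / 2 * (od (own o i R) v : ℝ) :=
      mul_le_mul_of_nonneg_right h3 (Nat.cast_nonneg _)
    have h5 : ε3 * (idg (own o i R) v : ℝ) ≤ 1 / 2 * (idg (own o i R) v : ℝ) :=
      mul_le_mul_of_nonneg_right h3 (Nat.cast_nonneg _)
    have h6 := hod v
    have h7 := hid v
    constructor
    · linarith only [h1, h4, h6]
    · linarith only [h2, h5, h7]

end Pool.Agent.MPd266dbE
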