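import Pool.Agent.Lib.MP_d266db_co.E.SpecD

/-! # MP_d266db_co, E: the links (`tLks`) (helper99) -/

set_option autoImplicit false

namespace Pool.Agent.MPd266dbE

open Finset Pool.Agent.MPd266db Pool.Agent.MPd266dbH

theorem lks_pka {n : ℕ} (x x' y₁ y₂ y₃ : Fin n) : Dg (pka x x' y₁ y₂ y₃) 3 := by
  classical
  intro v
  constructor
  · have h1 : (pka x x' y₁ y₂ y₃).filter (fun e => e.1 = v) ⊆ {(v, y₁), (v, y₂), (v, y₃)} := by
      intro e he
      rw [mem_filter] at he
      obtain ⟨h1, h2⟩ := he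
      simp only [pka, mem_insert, mem_singleton] at h1 ⊢
      rcases h1 with rfl | rfl | rfl | rfl | rfl | rfl <;> simp only at h2 <;> subst h2 <;> simp
    exact (card_le_card h1).trans card_le_three
  · have h1 : (pka x x' y₁ y₂ y₃).filter (fun e => e.2 = v) ⊆ {(x, v), (x', v)} := by
      intro e he
      rw [mem_filter] at he
      obtain ⟨h1, h2⟩ := he
      simp only [pka, mem_insert, mem_singleton] at h1 ⊢
      rcases h1 with rfl | rfl | rfl | rfl | rfl | rfl <;> simp only at h2 <;> subst h2 <;> simp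
    exact (card_le_card h1).trans (card_le_two.trans (by omega))

theorem lks_lka {n : ℕ} (q : Fin n × Fin n × Fin n × Fin n) : Dg (lka q) 2 := by
  classical
  intro v
  constructor
  · have h1 : (lka q).filter (fun e => e.1 = v) ⊆ {(v, q.2.2.1), (v, q.2.2.2)} := by
      intro e he
      rw [mem_filter] at he
      obtain ⟨h1, h2⟩ := he
      simp only [lka, mem_insert, mem_singleton] at h1 ⊢
      rcases h1 with rfl | rfl | rfl | rfl <;> simp only at h2 <;> subst h2 <;> simp
    exact (card_le_card h1).trans card_le_two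
  · have h1 : (lka q).filter (fun e => e.2 = v) ⊆ {(q.1, v), (q.2.1, v)} := by
      intro e he
      rw [mem_filter] at he
      obtain ⟨h1, h2⟩ := he
      simp only [lka, mem_insert, mem_singleton] at h1 ⊢
      rcases h1 with rfl | rfl | rfl | rfl <;> simp only at h2 <;> subst h2 <;> simp
    exact (card_le_card h1).trans card_le_two

theorem lks_bU {n : ℕ} (f : ℕ → Finset (Fin n × Fin n)) (m : ℕ) (h : ∀ g, Dg (f g) 2) :
    Dg ((range m).biUnion f) (2 * m) := by
  classical
  induction m with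
  | zero =>
    intro v
    simp [od, idg]
  | succ m ih =>
    rw [range_add_one, biUnion_insert]
    exact ((h m).union ih).mono (Subset.refl _) (by omega)

theorem lks_four {n : ℕ} {a b c d : Fin n} (h1 : a ≠ b) (h2 : a ≠ c) (h3 : a ≠ d) (h4 : b ≠ c)
    (h5 : b ≠ d) (h6 : c ≠ d) : ({a, b, c, d} : Finset (Fin n)).card = 4 := by
  rw [card_insert_of_notMem, card_insert_of_notMem, card_insert_of_notMem, card_singleton]
  · simpa using h6
  · simp only [mem_insert, mem_singleton, not_or]
    exact ⟨h4, h5⟩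
  · simp only [mem_insert, mem_singleton, not_or]
    exact ⟨h1, h2, h3⟩

theorem tLks : S_Lks := by
  classical
  intro n G b z0 z vb S Z0 B V hK hS hZ hz hV hB
  have c2 : ∀ A A' : Finset (Fin n), (A ∪ A').card ≤ A.card + A'.card := card_union_le
  -- the `K_{2,3}`
  obtain ⟨x, x', y₁, y₂, y₃, n1, n2, n3, n4, bx, bx', b1, b2, b3, a1, a2, a3, a4, a5, a6⟩ :=
    hK Z0 (B ∪ (V 0 ∪ (V 1 ∪ V 2))) (hZ.mono (Subset.refl _) (by omega)) (by
      have h1 := c2 B (V 0 ∪ (V 1 ∪ V 2))
      have h2 := c2 (V 0) (V 1 ∪ V 2)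
      have h3 := c2 (V 1) (V 2)
      have h4 := hV 0
      have h5 := hV 1
      have h6 := hV 2
      omega)
  have l1 : x ≠ y₁ := hS _ (mem_sdiff.1 a1).1
  have l2 : x ≠ y₂ := hS _ (mem_sdiff.1 a2).1
  have l3 : x ≠ y₃ := hS _ (mem_sdiff.1 a3).1
  have l4 : x' ≠ y₁ := hS _ (mem_sdiff.1 a4).1
  have l5 : x' ≠ y₂ := hS _ (mem_sdiff.1 a5).1
  have l6 : x' ≠ y₃ := hS _ (mem_sdiff.1 a6).1
  have hc5 : ({x, x', y₁, y₂, y₃} : Finset (Fin n)).card = 5 := by
    rw [card_insert_of_notMem, lks_four l4 l5 l6 n2 n3 n4]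
    simp only [mem_insert, mem_singleton, not_or]
    exact ⟨n1, l1, l2, l3⟩
  have hv5 : ∀ v ∈ ({x, x', y₁, y₂, y₃} : Finset (Fin n)), v ∉ B ∪ (V 0 ∪ (V 1 ∪ V 2)) := by
    intro v hv
    simp only [mem_insert, mem_singleton] at hv
    rcases hv with rfl | rfl | rfl | rfl | rfl <;> assumption
  have hp5 : pka x x' y₁ y₂ y₃ ⊆ S \ Z0 := by
    intro e he
    simp only [pka, mem_insert, mem_singleton] at he
    rcases he with rfl | rfl | rfl | rfl | rfl | rfl <;> assumption
  -- the links, one after the other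
  have key : ∀ m, m ≤ G → ∃ lk : ℕ → Fin n × Fin n × Fin n × Fin n,
      (∀ g < m, (qv (lk g)).card = 4 ∧ lka (lk g) ⊆ S \ Z0 ∧
        Disjoint (lka (lk g)) (pka x x' y₁ y₂ y₃) ∧
        (∀ v ∈ qv (lk g), v ∉ B ∧ v ∉ V g ∧ v ∉ V (g + 1) ∧
          v ∉ ({x, x', y₁, y₂, y₃} : Finset (Fin n)))) ∧
      (∀ g, g + 1 < m → Disjoint (qv (lk g)) (qv (lk (g + 1)))) ∧
      ∀ g < m, ∀ g' < m, g ≠ g' → Disjoint (lka (lk g)) (lka (lk g')) := by
    intro m
    induction m with
    | zero =>
      intro _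
      exact ⟨fun _ => (x, x, x, x), fun g hg => absurd hg (by omega), fun g hg => absurd hg (by omega),
        fun g hg => absurd hg (by omega)⟩
    | succ m ih =>
      intro hm
      obtain ⟨lk, p1, p2, p3⟩ := ih (by omega)
      let Z : Finset (Fin n × Fin n) := Z0 ∪ (pka x x' y₁ y₂ y₃ ∪
        (range m).biUnion (fun g => lka (lk g)))
      have hZg : Dg Z z := by
        have h1 := hZ.union ((lks_pka x x' y₁ y₂ y₃).union
          (lks_bU (fun g => lka (lk g)) m (fun g => lks_lka _)))
        exact h1.mono (Subset.refl _) (by omega)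
      let B' : Finset (Fin n) := B ∪ (V m ∪ (V (m + 1) ∪ ({x, x', y₁, y₂, y₃} ∪ qv (lk (m - 1)))))
      have hB' : B'.card ≤ b := by
        have h1 := c2 B (V m ∪ (V (m + 1) ∪ ({x, x', y₁, y₂, y₃} ∪ qv (lk (m - 1)))))
        have h2 := c2 (V m) (V (m + 1) ∪ ({x, x', y₁, y₂, y₃} ∪ qv (lk (m - 1))))
        have h3 := c2 (V (m + 1)) ({x, x', y₁, y₂, y₃} ∪ qv (lk (m - 1)))
        have h4 := c2 {x, x', y₁, y₂, y₃} (qv (lk (m - 1)))
        have h5 := hV m
        have h6 := hV (m + 1)
        have h7 : (qv (lk (m - 1))).card ≤ 4 := card_le_four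
        show (B ∪ (V m ∪ (V (m + 1) ∪ ({x, x', y₁, y₂, y₃} ∪ qv (lk (m - 1)))))).card ≤ b
        omega
      obtain ⟨u, u', w₁, w₂, w₃, m1, m2, -, -, bu, bu', c1, c3, -, e1, e2, -, e4, e5, -⟩ :=
        hK Z B' hZg hB'
      have k1 : u ≠ w₁ := hS _ (mem_sdiff.1 e1).1
      have k2 : u ≠ w₂ := hS _ (mem_sdiff.1 e2).1
      have k4 : u' ≠ w₁ := hS _ (mem_sdiff.1 e4).1
      have k5 : u' ≠ w₂ := hS _ (mem_sdiff.1 e5).1
      let t : Fin n × Fin n × Fin n × Fin n := (u, u', w₁, w₂)
      have ht4 : (qv t).card = 4 := lks_four m1 k1 k2 k4 k5 m2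
      have htv : ∀ v ∈ qv t, v ∉ B' := by
        intro v hv
        simp only [t, qv, mem_insert, mem_singleton] at hv
        rcases hv with rfl | rfl | rfl | rfl <;> assumption
      have hta : ∀ e ∈ lka t, e ∈ S \ Z := by
        intro e he
        simp only [t, lka, mem_insert, mem_singleton] at he
        rcases he with rfl | rfl | rfl | rfl <;> assumption
      have htZ : ∀ e ∈ lka t, e ∈ S ∧ e ∉ Z0 ∧ e ∉ pka x x' y₁ y₂ y₃ ∧ ∀ g < m, e ∉ lka (lk g) := by
        intro e he
        obtain ⟨h1, h2⟩ := mem_sdiff.1 (hta e he)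
        refine ⟨h1, fun h => h2 (mem_union_left _ h),
          fun h => h2 (mem_union_right _ (mem_union_left _ h)), fun g hg h => h2 ?_⟩
        exact mem_union_right _ (mem_union_right _ (mem_biUnion.2 ⟨g, mem_range.2 hg, h⟩))
      have hB'' : ∀ v, v ∉ B' → v ∉ B ∧ v ∉ V m ∧ v ∉ V (m + 1) ∧
          v ∉ ({x, x', y₁, y₂, y₃} : Finset (Fin n)) ∧ v ∉ qv (lk (m - 1)) := by
        intro v hv
        refine ⟨fun h => hv (mem_union_left _ h), fun h => hv (mem_union_right _ (mem_union_left _ h)),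
          fun h => hv (mem_union_right _ (mem_union_right _ (mem_union_left _ h))),
          fun h => hv (mem_union_right _ (mem_union_right _ (mem_union_right _ (mem_union_left _ h)))),
          fun h => hv (mem_union_right _ (mem_union_right _ (mem_union_right _
            (mem_union_right _ h))))⟩
      have ua : Function.update lk m t m = t := Function.update_self ..
      have ub : ∀ g, g < m → Function.update lk m t g = lk g := fun g hg =>
        Function.update_of_ne (by omega) _ _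
      refine ⟨Function.update lk m t, ?_, ?_, ?_⟩
      · intro g hg
        rcases Nat.lt_succ_iff_lt_or_eq.1 hg with h | rfl
        · rw [ub g h]
          exact p1 g h
        · rw [ua]
          refine ⟨ht4, fun e he => mem_sdiff.2 ⟨(htZ e he).1, (htZ e he).2.1⟩,
            disjoint_left.2 fun e he => (htZ e he).2.2.1, fun v hv => ?_⟩
          have h1 := hB'' v (htv v hv)
          exact ⟨h1.1, h1.2.1, h1.2.2.1, h1.2.2.2.1⟩
      · intro g hg
        rcases Nat.lt_succ_iff_lt_or_eq.1 hg with h | h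
        · rw [ub g (by omega), ub (g + 1) h]
          exact p2 g h
        · rw [h, ua, ub g (by omega), disjoint_comm, disjoint_left]
          intro v hv
          have h1 := (hB'' v (htv v hv)).2.2.2.2
          have h2 : m - 1 = g := by omega
          rwa [h2] at h1
      · intro g hg g' hg' hgg
        rcases Nat.lt_succ_iff_lt_or_eq.1 hg with h | rfl
        · rcases Nat.lt_succ_iff_lt_or_eq.1 hg' with h' | rfl
          · rw [ub g h, ub g' h']
            exact p3 g h g' h' hgg
          · rw [ua, ub g h, disjoint_comm, disjoint_left]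
            exact fun e he => (htZ e he).2.2.2 g h
        · rcases Nat.lt_succ_iff_lt_or_eq.1 hg' with h' | rfl
          · rw [ua, ub g' h', disjoint_left]
            exact fun e he => (htZ e he).2.2.2 g' h'
          · exact absurd rfl hgg
  obtain ⟨lk, p1, p2, p3⟩ := key G le_rfl
  refine ⟨lk, x, x', y₁, y₂, y₃, hc5, ?_, hp5, p1, p2, p3⟩
  intro v hv
  have h1 := hv5 v hv
  simp only [mem_union, not_or] at h1
  exact ⟨h1.1, h1.2.1, h1.2.2.1, h1.2.2.2⟩

end Pool.Agent.MPd266dbE
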