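import Pool.Agent.Lib.MP_d266db_co.E.SpecE

set_option autoImplicit false

namespace Pool.Agent.MPd266dbE

open Finset Pool.Agent.MPd266db Pool.Agent.MPd266dbH

/-- the box with level `l` and class `c` -/
private def lnb_B {K : ℕ} (e l : ℕ) (c : Fin K) : Fin ((e + 1) * K) :=
  finProdFinEquiv (Fin.ofNat (e + 1) l, c)

private theorem lnb_step {n K e : ℕ} {o i : Fin n → Fin K} {lv : Fin n → ℕ} {m : ℝ}
    {J : Finset (Fin ((e + 1) * K))}
    (hJ : ∀ x ∈ J, ∀ y, y ∉ J → ((Cl (bxo e lv o) y ∩ Cl (bxi e lv i) x).card : ℝ) < m)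
    {l l' : ℕ} (hl : l ≤ e) (hl' : l' = if l = 0 then e else l - 1) {x y : Fin K}
    (hm : m ≤ (univ.filter (fun v => lv v = l ∧ o v = y ∧ i v = x)).card)
    (hx : lnb_B e l' x ∈ J) : lnb_B e l y ∈ J := by
  by_contra hy
  have h1 := hJ _ hx _ hy
  have h2 : univ.filter (fun v => lv v = l ∧ o v = y ∧ i v = x) ⊆
      Cl (bxo e lv o) (lnb_B e l y) ∩ Cl (bxi e lv i) (lnb_B e l' x) := by
    intro v hv
    rw [mem_filter] at hv
    obtain ⟨-, hv1, hv2, hv3⟩ := hv
    have ht : tgp e lv v = l := by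
      unfold tgp
      rw [hv1]
      exact min_eq_left hl
    have hh : hgp e lv v = l' := by
      unfold hgp
      rw [hv1, hl']
    rw [mem_inter, Cl, Cl, mem_filter, mem_filter]
    refine ⟨⟨mem_univ _, ?_⟩, mem_univ _, ?_⟩
    · unfold bxo lnb_B
      rw [ht, hv2]
    · unfold bxi lnb_B
      rw [hh, hv3]
  have h3 : ((univ.filter (fun v => lv v = l ∧ o v = y ∧ i v = x)).card : ℝ) ≤
      ((Cl (bxo e lv o) (lnb_B e l y) ∩ Cl (bxi e lv i) (lnb_B e l' x)).card : ℝ) := by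
    exact_mod_cast card_le_card h2
  linarith

theorem tLnB : S_LnB := by
  intro n K e o i lv lam a _ _ hT J hJne hJu
  by_contra hcon
  push Not at hcon
  -- steps
  have hs1 : ∀ l ≤ e, ∀ l', l' = (if l = 0 then e else l - 1) → ∀ x, lnb_B e l' x ∈ J →
      lnb_B e l a ∈ J := by
    intro l hl l' hl' x hx
    have h1 := hT l (Nat.lt_succ_of_le hl)
    rcases eq_or_ne x a with h | h
    · subst h
      exact lnb_step hcon hl hl' h1.1 hx
    · exact lnb_step hcon hl hl' (h1.2 x h).1 hx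
  have hs2 : ∀ l ≤ e, ∀ l', l' = (if l = 0 then e else l - 1) → lnb_B e l' a ∈ J →
      ∀ b, lnb_B e l b ∈ J := by
    intro l hl l' hl' hx b
    have h1 := hT l (Nat.lt_succ_of_le hl)
    rcases eq_or_ne b a with h | h
    · subst h
      exact lnb_step hcon hl hl' h1.1 hx
    · exact lnb_step hcon hl hl' (h1.2 b h).2 hx
  have hup : ∀ l, l + 1 ≤ e → ∀ x, lnb_B e l x ∈ J → lnb_B e (l + 1) a ∈ J := by
    intro l hl x hx
    exact hs1 (l + 1) hl l (by rw [if_neg (Nat.succ_ne_zero l)]; rfl) x hx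
  have hz : ∀ x, lnb_B e e x ∈ J → lnb_B e 0 a ∈ J := by
    intro x hx
    exact hs1 0 (Nat.zero_le e) e (by rw [if_pos rfl]) x hx
  -- start
  obtain ⟨z, hzJ⟩ := hJne
  obtain ⟨⟨l0, x0⟩, hlx⟩ := finProdFinEquiv.surjective z
  have hl0 : (l0 : ℕ) ≤ e := Nat.le_of_lt_succ l0.2
  have hz0 : lnb_B e (l0 : ℕ) x0 ∈ J := by
    have : lnb_B e (l0 : ℕ) x0 = z := by
      rw [← hlx]
      unfold lnb_B
      congr 2
      apply Fin.ext
      change (l0 : ℕ) % (e + 1) = l0
      exact Nat.mod_eq_of_lt l0.2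
    rw [this]; exact hzJ
  have hk : ∀ k, (l0 : ℕ) + k ≤ e → ∃ x, lnb_B e ((l0 : ℕ) + k) x ∈ J := by
    intro k
    induction k with
    | zero => intro _; exact ⟨x0, hz0⟩
    | succ k ih =>
      intro hk
      obtain ⟨x, hx⟩ := ih (by omega)
      exact ⟨a, hup ((l0 : ℕ) + k) (by omega) x hx⟩
  obtain ⟨xe, hxe⟩ := hk (e - l0) (by omega)
  have hle : (l0 : ℕ) + (e - l0) = e := by omega
  rw [hle] at hxe
  have h0 := hz xe hxe
  have hall : ∀ l ≤ e, lnb_B e l a ∈ J := by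
    intro l
    induction l with
    | zero => intro _; exact h0
    | succ l ih =>
      intro hl
      exact hup l hl a (ih (by omega))
  have hall2 : ∀ l ≤ e, ∀ b, lnb_B e l b ∈ J := by
    intro l hl b
    refine hs2 l hl _ rfl (hall _ ?_) b
    split_ifs <;> omega
  apply hJu
  rw [eq_univ_iff_forall]
  intro y
  obtain ⟨⟨l, b⟩, hlb⟩ := finProdFinEquiv.surjective y
  have hl : (l : ℕ) ≤ e := Nat.le_of_lt_succ l.2
  have : lnb_B e (l : ℕ) b = y := by
    rw [← hlb]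
    unfold lnb_B
    congr 2
    apply Fin.ext
    change (l : ℕ) % (e + 1) = l
    exact Nat.mod_eq_of_lt l.2
  rw [← this]
  exact hall2 _ hl b

end Pool.Agent.MPd266dbE
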