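import Pool.Agent.Lib.MP_d266db_co.E.SpecG

/-!
# MP_d266db_co, E, LnQ: two classes are linked
-/

set_option autoImplicit false

namespace Pool.Agent.MPd266dbE

open Finset Pool.Agent.MPd266db Pool.Agent.MPd266dbH

/-- Two classes are linked. -/
theorem tLnQ : S_LnQ := by
  intro n K o i a lam _ h J hJ hJu
  obtain ⟨x, hx⟩ := hJ
  have hy : ∃ y, y ∉ J := by
    by_contra hc
    push Not at hc
    exact hJu (Finset.eq_univ_iff_forall.2 hc)
  obtain ⟨y, hy⟩ := hy
  by_cases ha : a ∈ J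
  · refine ⟨a, ha, y, hy, (h y ?_).2⟩
    rintro rfl
    exact hy ha
  · refine ⟨x, hx, a, ha, (h x ?_).1⟩
    rintro rfl
    exact ha hx

end Pool.Agent.MPd266dbE
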