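import Pool.Agent.Lib.MP_d266db_co.E.SpecE

set_option autoImplicit false

namespace Pool.Agent.MPd266dbE

open Finset Pool.Agent.MPd266db Pool.Agent.MPd266dbH

theorem low_aux (n : ℕ) (M : Finset (Fin n)) (w : Fin n → ℕ) :
    ∀ d x : ℕ, M.card = x + d →
      ∃ R ⊆ M, R.card = x ∧ M.card * ∑ v ∈ R, w v ≤ x * ∑ v ∈ M, w v := by
  intro d
  induction d with
  | zero =>
    intro x hx
    exact ⟨M, Subset.refl _, by omega, by rw [hx, add_zero]⟩
  | succ d ih =>
    intro x hx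
    obtain ⟨R', hR', hc, hs⟩ := ih (x + 1) (by omega)
    have hne : R'.Nonempty := by
      rw [← card_pos]
      omega
    obtain ⟨v, hv, hmax⟩ := exists_max_image R' w hne
    have h1 : ∑ u ∈ R', w u ≤ (x + 1) * w v := by
      have h := sum_le_card_nsmul R' w (w v) hmax
      rwa [hc, smul_eq_mul] at h
    have h2 : ∑ u ∈ R'.erase v, w u + w v = ∑ u ∈ R', w u := sum_erase_add _ _ hv
    refine ⟨R'.erase v, (erase_subset _ _).trans hR', by rw [card_erase_of_mem hv, hc]; rfl, ?_⟩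
    have h3 : (x + 1) * ∑ u ∈ R'.erase v, w u ≤ x * ∑ u ∈ R', w u := by
      have h4 : (x + 1) * ∑ u ∈ R'.erase v, w u + (x + 1) * w v = (x + 1) * ∑ u ∈ R', w u := by
        rw [← h2]
        ring
      have h5 : (x + 1) * ∑ u ∈ R', w u = x * ∑ u ∈ R', w u + ∑ u ∈ R', w u := by ring
      omega
    have h6 : (x + 1) * (M.card * ∑ u ∈ R'.erase v, w u) ≤ (x + 1) * (x * ∑ u ∈ M, w u) := by
      calc (x + 1) * (M.card * ∑ u ∈ R'.erase v, w u)
          = M.card * ((x + 1) * ∑ u ∈ R'.erase v, w u) := by ring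
        _ ≤ M.card * (x * ∑ u ∈ R', w u) := Nat.mul_le_mul_left _ h3
        _ = x * (M.card * ∑ u ∈ R', w u) := by ring
        _ ≤ x * ((x + 1) * ∑ u ∈ M, w u) := Nat.mul_le_mul_left _ hs
        _ = (x + 1) * (x * ∑ u ∈ M, w u) := by ring
    exact Nat.le_of_mul_le_mul_left h6 (by omega)

/-- **LoW** -/
theorem tLoW : S_LoW := by
  intro n x M w hx
  exact low_aux n M w (M.card - x) x (by omega)

end Pool.Agent.MPd266dbE
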