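import Pool.Agent.Lib.MP_d266db_co.E.SpecI

/-!
# MP_d266db_co, E, LwL: the lowest level
-/

set_option autoImplicit false

namespace Pool.Agent.MPd266dbE

open Finset Pool.Agent.MPd266db Pool.Agent.MPd266dbH

theorem lwl_od {n : ℕ} (H : Finset (Fin n × Fin n)) (u : Fin n) :
    od H u = (univ.filter (fun v => (u, v) ∈ H)).card := by
  unfold od
  apply Finset.card_nbij' (fun e => e.2) (fun v => (u, v))
  · intro e he
    simp only [coe_filter, Set.mem_ofPred_eq] at he
    simp only [coe_filter, Set.mem_ofPred_eq, mem_univ, true_and]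
    obtain ⟨h1, h2⟩ := he
    subst h2
    exact h1
  · intro v hv
    simp only [coe_filter, Set.mem_ofPred_eq, mem_univ, true_and] at hv
    simp only [coe_filter, Set.mem_ofPred_eq]
    exact ⟨hv, trivial⟩
  · intro e he
    simp only [coe_filter, Set.mem_ofPred_eq] at he
    exact Prod.ext he.2.symm rfl
  · intro v _
    rfl

theorem lwl_idg {n : ℕ} (H : Finset (Fin n × Fin n)) (v : Fin n) :
    idg H v = (univ.filter (fun u => (u, v) ∈ H)).card := by
  unfold idg
  apply Finset.card_nbij' (fun e => e.1) (fun u => (u, v))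
  · intro e he
    simp only [coe_filter, Set.mem_ofPred_eq] at he
    simp only [coe_filter, Set.mem_ofPred_eq, mem_univ, true_and]
    obtain ⟨h1, h2⟩ := he
    subst h2
    exact h1
  · intro u hu
    simp only [coe_filter, Set.mem_ofPred_eq, mem_univ, true_and] at hu
    simp only [coe_filter, Set.mem_ofPred_eq]
    exact ⟨hu, trivial⟩
  · intro e he
    simp only [coe_filter, Set.mem_ofPred_eq] at he
    exact Prod.ext rfl he.2.symm
  · intro v _
    rfl

theorem lwl_eb_out {n : ℕ} (H : Finset (Fin n × Fin n)) (X Y : Finset (Fin n)) :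
    eb H X Y = ∑ u ∈ X, (Y.filter (fun v => (u, v) ∈ H)).card := by
  classical
  unfold eb
  rw [Finset.card_eq_sum_card_fiberwise (f := Prod.fst) (t := X)]
  · apply Finset.sum_congr rfl
    intro u hu
    apply Finset.card_nbij' (fun e => e.2) (fun v => (u, v))
    · intro e he
      simp only [coe_filter, Set.mem_ofPred_eq, mem_filter] at he ⊢
      obtain ⟨⟨h1, h2, h3⟩, h4⟩ := he
      subst h4
      exact ⟨h3, h1⟩
    · intro v hv
      simp only [coe_filter, Set.mem_ofPred_eq, mem_filter] at hv ⊢
      exact ⟨⟨hv.2, hu, hv.1⟩, trivial⟩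
    · intro e he
      simp only [coe_filter, Set.mem_ofPred_eq, mem_filter] at he
      exact Prod.ext he.2.symm rfl
    · intro v _
      rfl
  · intro e he
    simp only [coe_filter, Set.mem_ofPred_eq] at he
    exact he.2.1

theorem lwl_eb_in {n : ℕ} (H : Finset (Fin n × Fin n)) (X Y : Finset (Fin n)) :
    eb H X Y = ∑ v ∈ Y, (X.filter (fun u => (u, v) ∈ H)).card := by
  classical
  unfold eb
  rw [Finset.card_eq_sum_card_fiberwise (f := Prod.snd) (t := Y)]
  · apply Finset.sum_congr rfl
    intro v hv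
    apply Finset.card_nbij' (fun e => e.1) (fun u => (u, v))
    · intro e he
      simp only [coe_filter, Set.mem_ofPred_eq, mem_filter] at he ⊢
      obtain ⟨⟨h1, h2, h3⟩, h4⟩ := he
      subst h4
      exact ⟨h2, h1⟩
    · intro u hu
      simp only [coe_filter, Set.mem_ofPred_eq, mem_filter] at hu ⊢
      exact ⟨⟨hu.2, hu.1, hv⟩, trivial⟩
    · intro e he
      simp only [coe_filter, Set.mem_ofPred_eq, mem_filter] at he
      exact Prod.ext rfl he.2.symm
    · intro v _
      rfl
  · intro e he
    simp only [coe_filter, Set.mem_ofPred_eq] at he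
    exact he.2.2

/-- few exceptional tails -/
theorem lwl_XT {n K : ℕ} (R : Finset (Fin n × Fin n)) (o i : Fin n → Fin K) (hn : 1 ≤ n)
    (hc : 10000000000 * (crs o i R).card < n ^ 2) : 100000 * (XT R o i).card ≤ n := by
  classical
  have h1 : ∑ u ∈ XT R o i, od (crs o i R) u ≤ (crs o i R).card := by
    rw [← eb_univ_right]
    exact card_le_card (filter_subset _ _)
  have h2 : n * (XT R o i).card ≤ 100000 * ∑ u ∈ XT R o i, od (crs o i R) u := by
    rw [mul_comm, Finset.mul_sum, ← smul_eq_mul, ← Finset.sum_const]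
    apply Finset.sum_le_sum
    intro u hu
    exact (mem_filter.1 hu).2.le
  have h3 : n * (100000 * (XT R o i).card) < n * n := by
    calc n * (100000 * (XT R o i).card) = 100000 * (n * (XT R o i).card) := by ring
      _ ≤ 100000 * (100000 * ∑ u ∈ XT R o i, od (crs o i R) u) := Nat.mul_le_mul_left _ h2
      _ ≤ 100000 * (100000 * (crs o i R).card) :=
          Nat.mul_le_mul_left _ (Nat.mul_le_mul_left _ h1)
      _ = 10000000000 * (crs o i R).card := by ring
      _ < n ^ 2 := hc
      _ = n * n := by ring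
  exact (Nat.lt_of_mul_lt_mul_left h3).le

/-- few exceptional heads -/
theorem lwl_XH {n K : ℕ} (R : Finset (Fin n × Fin n)) (o i : Fin n → Fin K) (hn : 1 ≤ n)
    (hc : 10000000000 * (crs o i R).card < n ^ 2) : 100000 * (XH R o i).card ≤ n := by
  classical
  have h1 : ∑ u ∈ XH R o i, idg (crs o i R) u ≤ (crs o i R).card := by
    rw [← eb_univ_left]
    exact card_le_card (filter_subset _ _)
  have h2 : n * (XH R o i).card ≤ 100000 * ∑ u ∈ XH R o i, idg (crs o i R) u := by
    rw [mul_comm, Finset.mul_sum, ← smul_eq_mul, ← Finset.sum_const]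
    apply Finset.sum_le_sum
    intro u hu
    exact (mem_filter.1 hu).2.le
  have h3 : n * (100000 * (XH R o i).card) < n * n := by
    calc n * (100000 * (XH R o i).card) = 100000 * (n * (XH R o i).card) := by ring
      _ ≤ 100000 * (100000 * ∑ u ∈ XH R o i, idg (crs o i R) u) := Nat.mul_le_mul_left _ h2
      _ ≤ 100000 * (100000 * (crs o i R).card) :=
          Nat.mul_le_mul_left _ (Nat.mul_le_mul_left _ h1)
      _ = 10000000000 * (crs o i R).card := by ring
      _ < n ^ 2 := hc
      _ = n * n := by ring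
  exact (Nat.lt_of_mul_lt_mul_left h3).le

/-- `R`-arcs with a nonexceptional head: all but `2 n / 100000` of them are own with a
nonexceptional tail -/
theorem lwl_in {n K r : ℕ} (R : Finset (Fin n × Fin n)) (o i : Fin n → Fin K) (hn : 1 ≤ n)
    (hc : 10000000000 * (crs o i R).card < n ^ 2) (hR : Reg R r) (v : Fin n)
    (hv : v ∉ XH R o i) : 100000 * r ≤ 100000 *
      (univ.filter (fun u => (u, v) ∈ R ∧ o u = i v ∧ u ∉ XT R o i)).card + 2 * n := by
  classical
  have h0 : r = (univ.filter (fun u => (u, v) ∈ R)).card := by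
    rw [← lwl_idg]; exact (hR v).2.symm
  have h1 : (univ.filter (fun u => (u, v) ∈ R)) ⊆
      (univ.filter (fun u => (u, v) ∈ R ∧ o u = i v ∧ u ∉ XT R o i)) ∪
      ((univ.filter (fun u => (u, v) ∈ crs o i R)) ∪ XT R o i) := by
    intro u hu
    simp only [mem_filter, mem_univ, true_and] at hu
    simp only [mem_union, mem_filter, mem_univ, true_and]
    by_cases hx : u ∈ XT R o i
    · exact Or.inr (Or.inr hx)
    · by_cases ho : o u = i v
      · exact Or.inl ⟨hu, ho, hx⟩
      · exact Or.inr (Or.inl (mem_filter.2 ⟨hu, ho⟩))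
  have h2 := (card_le_card h1).trans ((card_union_le _ _).trans
    (Nat.add_le_add_left (card_union_le _ _) _))
  have h3 : ¬ n < 100000 * idg (crs o i R) v := by
    intro h
    exact hv (mem_filter.2 ⟨mem_univ _, h⟩)
  rw [lwl_idg] at h3
  have h4 := lwl_XT R o i hn hc
  rw [← h0] at h2
  omega

theorem tLwL : S_LwL := by
  classical
  intro n r K E R o i lam mu hn hE hr hRE hR hP hc
  have hn1 : 1 ≤ n := by omega
  have hXT := lwl_XT R o i hn1 hc
  have hXH := lwl_XH R o i hn1 hc
  -- the minimum
  have hne : ((XT R o i)ᶜ).Nonempty := by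
    rw [← Finset.card_pos, Finset.card_compl, Fintype.card_fin]
    omega
  obtain ⟨u0, hu0, hmin⟩ := Finset.exists_min_image _ lam hne
  rw [mem_compl] at hu0
  have hlow : ∀ u, u ∉ XT R o i → lam u0 ≤ lam u := fun u hu => hmin u (mem_compl.2 hu)
  have hlowm : ∀ v, v ∉ XH R o i → lam u0 ≤ mu v := by
    intro v hv
    have h1 := lwl_in R o i hn1 hc hR v hv
    have h2 : 0 < (univ.filter (fun u => (u, v) ∈ R ∧ o u = i v ∧ u ∉ XT R o i)).card := by
      omega
    obtain ⟨u, hu⟩ := Finset.card_pos.1 h2
    simp only [mem_filter, mem_univ, true_and] at hu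
    exact (hlow u hu.2.2).trans (hP.2 u v hu.1 hu.2.1)
  -- the heads of the arcs of `E - R`
  have hout : ∀ a, ∀ u ∈ LO R o i lam (lam u0) a, 3 * n + 0 ≤ 8 * r + 8 *
      (((LI R o i mu (lam u0) a).filter (fun v => (u, v) ∈ E ∧ (u, v) ∉ R)).card) +
        8 * (XH R o i).card := by
    intro a u hu
    simp only [LO, mem_filter, mem_univ, true_and] at hu
    obtain ⟨hux, hul, huo⟩ := hu
    have h1 : 3 * n ≤ 8 * od E u := (hE u).1
    have h2 : od R u = r := (hR u).1
    rw [lwl_od] at h1 h2
    have h3 : (univ.filter (fun v => (u, v) ∈ E)) ⊆ (univ.filter (fun v => (u, v) ∈ R)) ∪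
        (((LI R o i mu (lam u0) a).filter (fun v => (u, v) ∈ E ∧ (u, v) ∉ R)) ∪ XH R o i) := by
      intro v hv
      simp only [mem_filter, mem_univ, true_and] at hv
      simp only [mem_union, mem_filter, mem_univ, true_and, LI]
      by_cases hvR : (u, v) ∈ R
      · exact Or.inl hvR
      by_cases hvX : v ∈ XH R o i
      · exact Or.inr (Or.inr hvX)
      right; left
      obtain ⟨h4, h5⟩ := hP.1 u v hv hvR
      have h6 := hlowm v hvX
      have h7 : o u = i v := by
        by_contra h8
        have := h5 h8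
        omega
      exact ⟨⟨hvX, by omega, by rw [← h7, huo]⟩, hv, hvR⟩
    have h4 := (card_le_card h3).trans ((card_union_le _ _).trans
      (Nat.add_le_add_left (card_union_le _ _) _))
    rw [h2] at h4
    omega
  have hcl : ∀ a, ∀ u ∈ LO R o i lam (lam u0) a, 3 * n * 100000 ≤ 800000 * (Cl i a).card +
      16 * n := by
    intro a u hu
    simp only [LO, mem_filter, mem_univ, true_and] at hu
    obtain ⟨hux, hul, huo⟩ := hu
    have h1 : 3 * n ≤ 8 * od E u := (hE u).1
    have h2 : ¬ n < 100000 * od (crs o i R) u := by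
      intro h
      exact hux (mem_filter.2 ⟨mem_univ _, h⟩)
    rw [lwl_od] at h1 h2
    have h3 : (univ.filter (fun v => (u, v) ∈ E)) ⊆ Cl i a ∪
        ((univ.filter (fun v => (u, v) ∈ crs o i R)) ∪ XH R o i) := by
      intro v hv
      simp only [mem_filter, mem_univ, true_and] at hv
      simp only [mem_union, Cl, mem_filter, mem_univ, true_and]
      by_cases hvo : o u = i v
      · exact Or.inl (by rw [← hvo, huo])
      by_cases hvR : (u, v) ∈ R
      · exact Or.inr (Or.inl (mem_filter.2 ⟨hvR, hvo⟩))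
      by_cases hvX : v ∈ XH R o i
      · exact Or.inr (Or.inr hvX)
      exfalso
      obtain ⟨h4, h5⟩ := hP.1 u v hv hvR
      have h6 := hlowm v hvX
      have := h5 hvo
      omega
    have h4 := (card_le_card h3).trans ((card_union_le _ _).trans
      (Nat.add_le_add_left (card_union_le _ _) _))
    omega
  have hin : ∀ a, ∀ v ∈ LI R o i mu (lam u0) a, 100000 * r ≤ 100000 *
      ((LO R o i lam (lam u0) a).filter (fun u => (u, v) ∈ R)).card + 2 * n := by
    intro a v hv
    simp only [LI, mem_filter, mem_univ, true_and] at hv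
    obtain ⟨hvx, hvm, hvi⟩ := hv
    have h1 := lwl_in R o i hn1 hc hR v hvx
    have h2 : (univ.filter (fun u => (u, v) ∈ R ∧ o u = i v ∧ u ∉ XT R o i)) ⊆
        (LO R o i lam (lam u0) a).filter (fun u => (u, v) ∈ R) := by
      intro u hu
      simp only [mem_filter, mem_univ, true_and] at hu
      simp only [LO, mem_filter, mem_univ, true_and]
      obtain ⟨hu1, hu2, hu3⟩ := hu
      have h3 := hlow u hu3
      have h4 := hP.2 u v hu1 hu2
      exact ⟨⟨hu3, by omega, by rw [hu2, hvi]⟩, hu1⟩
    have h3 := card_le_card h2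
    omega
  have hoR : ∀ a, ∀ u ∈ LO R o i lam (lam u0) a, (3 * n / 8 : ℝ) - r - n / 100000 ≤
            (((LI R o i mu (lam u0) a).filter (fun v => (u, v) ∈ E ∧ (u, v) ∉ R)).card : ℝ) := by
    intro a u hu
    have h1 := hout a u hu
    have h1' : (3 * n : ℝ) + 0 ≤ 8 * r + 8 *
      (((LI R o i mu (lam u0) a).filter (fun v => (u, v) ∈ E ∧ (u, v) ∉ R)).card : ℝ) +
        8 * ((XH R o i).card : ℝ) := by exact_mod_cast h1
    have h2' : (100000 : ℝ) * ((XH R o i).card : ℝ) ≤ n := by exact_mod_cast hXH
    linarith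
  have hiR : ∀ a, ∀ v ∈ LI R o i mu (lam u0) a, (r : ℝ) - 2 * (n / 100000) ≤
      (((LO R o i lam (lam u0) a).filter (fun u => (u, v) ∈ R)).card : ℝ) := by
    intro a v hv
    have h1 := hin a v hv
    have h1' : (100000 : ℝ) * r ≤ 100000 *
      (((LO R o i lam (lam u0) a).filter (fun u => (u, v) ∈ R)).card : ℝ) + 2 * n := by
      exact_mod_cast h1
    linarith
  refine ⟨lam u0, hlow, hlowm, ⟨u0, hu0, rfl⟩, ?_⟩
  intro a
  refine ⟨?_, ?_, ?_⟩
  · intro u hu
    refine ⟨hoR a u hu, ?_⟩
    have h1 := hcl a u hu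
    have h1' : (3 : ℝ) * n * 100000 ≤ 800000 * ((Cl i a).card : ℝ) + 16 * n := by
      exact_mod_cast h1
    linarith
  · intro v hv
    refine (hiR a v hv).trans ?_
    exact_mod_cast card_le_card (filter_subset _ _)
  · have hsplit : eb E (LO R o i lam (lam u0) a) (LI R o i mu (lam u0) a) =
        (∑ u ∈ LO R o i lam (lam u0) a, ((LI R o i mu (lam u0) a).filter
          (fun v => (u, v) ∈ E ∧ (u, v) ∉ R)).card) +
        ∑ v ∈ LI R o i mu (lam u0) a, ((LO R o i lam (lam u0) a).filter
          (fun u => (u, v) ∈ R)).card := by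
      rw [← lwl_eb_in, lwl_eb_out R, lwl_eb_out E, ← Finset.sum_add_distrib]
      apply Finset.sum_congr rfl
      intro u _
      rw [← Finset.card_union_of_disjoint]
      · congr 1
        ext v
        simp only [mem_filter, mem_union]
        constructor
        · rintro ⟨h1, h2⟩
          by_cases h3 : (u, v) ∈ R
          · exact Or.inr ⟨h1, h3⟩
          · exact Or.inl ⟨h1, h2, h3⟩
        · rintro (⟨h1, h2, h3⟩ | ⟨h1, h2⟩)
          · exact ⟨h1, h2⟩
          · exact ⟨h1, hRE h2⟩
      · rw [Finset.disjoint_left]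
        intro v hv hv'
        simp only [mem_filter] at hv hv'
        exact hv.2.2 hv'.2
    rw [hsplit]
    push_cast
    apply add_le_add
    · rw [mul_comm, ← nsmul_eq_mul, ← Finset.sum_const]
      exact Finset.sum_le_sum (fun u hu => hoR a u hu)
    · rw [mul_comm, ← nsmul_eq_mul, ← Finset.sum_const]
      exact Finset.sum_le_sum (fun v hv => hiR a v hv)

end Pool.Agent.MPd266dbE
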