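import Pool.Agent.Lib.MP_d266db_co.E.SpecH

/-!
# MP_d266db_co, E/Mai: maximal degree, from the structure theorem (helper8)
-/

set_option autoImplicit false

namespace Pool.Agent.MPd266dbE

open Finset Pool.Agent.MPd266db Pool.Agent.MPd266dbH

theorem Dcm.mono {n : ℕ} {R E : Finset (Fin n × Fin n)} {r : ℕ} (h : Dcm R r) (hRE : R ⊆ E) :
    Dcm E r := by
  obtain ⟨σ, h1, h2, h3⟩ := h
  exact ⟨σ, h1, fun j v => hRE (h2 j v), h3⟩

theorem tMai (hStr : S_Str) (hPre : S_Pre) : S_Mai := by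
  classical
  obtain ⟨η0, hη0, hStr⟩ := hStr
  obtain ⟨β, hβ, hP⟩ := hPre η0 hη0
  have hP' : ∀ ν : ℝ, ∃ (γ : ℝ) (n0 : ℕ), 0 < γ ∧ (0 < ν → ∀ n, n0 ≤ n →
      ∀ (K r : ℕ) (R : Finset (Fin n × Fin n)) (o i : Fin n → Fin K), 1 ≤ K → K ≤ 2 → Ori R →
        Reg R r → 3 * n < 16 * (r + 1) →
        (∀ W : Finset (Fin n), η0 * W.card * Wᶜ.card ≤ eb R W Wᶜ) → StC R r o i γ β ν →
        (∃ a, n ≤ 100000 * (Cl o a ∩ Cl i a).card) → Dcm R r) := by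
    intro ν
    by_cases hν : 0 < ν
    · obtain ⟨γ, n0, hγ, h⟩ := hP ν hν
      exact ⟨γ, n0, hγ, fun _ => h⟩
    · exact ⟨1, 0, one_pos, fun h => absurd h hν⟩
  choose f n1 hf hn1 using hP'
  obtain ⟨V, hV, n2, hn2⟩ := hStr β f hβ (fun x _ => hf x)
  refine ⟨max n2 (V.sup n1), ?_⟩
  intro n hn E hO hS r hr hex
  obtain ⟨R, hRE, hR, hcut, K, hK1, hK2, o, i, ν, hν, hSt, ha⟩ :=
    hn2 n ((le_max_left _ _).trans hn) E hO hS r hr hex
  have hn' : n1 ν ≤ n := (Finset.le_sup (f := n1) hν).trans ((le_max_right _ _).trans hn)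
  have hOR : Ori R := fun u v huv hvu => hO u v (hRE huv) (hRE hvu)
  exact (hn1 ν (hV ν hν) n hn' K r R o i hK1 hK2 hOR hR hr hcut hSt ha).mono hRE

end Pool.Agent.MPd266dbE
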