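import Pool.Agent.Lib.MP_d266db_co.E.SpecD

/-!
# MP_d266db_co, E: switching the tiles of an object
-/

set_option autoImplicit false

namespace Pool.Agent.MPd266dbE

open Finset Pool.Agent.MPd266db Pool.Agent.MPd266dbH

theorem tMcy (hMer : S_Mer) : S_Mcy := by
  classical
  intro n e j lv S X T σ F hO hlv hF hFσ
  have hex : ∃ k, ∃ E ⊆ T, ∃ τ : Equiv.Perm (Fin n), Tog E τ ∧ cyc (F * τ) = k :=
    ⟨_, ∅, empty_subset _, 1, ⟨fun q hq => absurd hq (notMem_empty _), fun v _ => rfl⟩, rfl⟩
  obtain ⟨E, hE, τ, hτ, hk⟩ := Nat.find_spec hex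
  have hmin : ∀ E' ⊆ T, ∀ τ' : Equiv.Perm (Fin n), Tog E' τ' → cyc (F * τ) ≤ cyc (F * τ') := by
    intro E' hE' τ' hτ'
    rw [hk]
    exact Nat.find_min' hex ⟨E', hE', τ', hτ', rfl⟩
  -- the two tails of a tile are in one cycle
  have h1 : ∀ t ∈ T, (F * τ).SameCycle t.1 t.2 := by
    intro t ht
    by_contra hcon
    have h2 := (hMer n (F * τ) t.1 t.2 hcon).1
    have hfixq : ∀ q ∈ T, q ≠ t → Equiv.swap t.1 t.2 q.1 = q.1 ∧ Equiv.swap t.1 t.2 q.2 = q.2 := by
      intro q hq hne
      obtain ⟨d1, d2, d3, d4⟩ := hO.td q hq t ht hne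
      exact ⟨Equiv.swap_apply_of_ne_of_ne d1 d2, Equiv.swap_apply_of_ne_of_ne d3 d4⟩
    have h3 : ∃ E' ⊆ T, Tog E' (τ * Equiv.swap t.1 t.2) := by
      by_cases htE : t ∈ E
      · refine ⟨E.erase t, (erase_subset _ _).trans hE, ?_, ?_⟩
        · intro q hq
          obtain ⟨hne, hqE⟩ := mem_erase.1 hq
          obtain ⟨g1, g2⟩ := hfixq q (hE hqE) hne
          rw [Equiv.Perm.mul_apply, Equiv.Perm.mul_apply, g1, g2]
          exact hτ.1 q hqE
        · intro v hv
          rw [Equiv.Perm.mul_apply]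
          obtain ⟨g1, g2⟩ := hτ.1 t htE
          by_cases v1 : v = t.1
          · rw [v1, Equiv.swap_apply_left]
            exact g2
          by_cases v2 : v = t.2
          · rw [v2, Equiv.swap_apply_right]
            exact g1
          rw [Equiv.swap_apply_of_ne_of_ne v1 v2]
          apply hτ.2
          intro q hq
          by_cases hqt : q = t
          · rw [hqt]
            exact ⟨v1, v2⟩
          · exact hv q (mem_erase.2 ⟨hqt, hq⟩)
      · have hf1 : τ t.1 = t.1 := by
          apply hτ.2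
          intro q hq
          have hne : t ≠ q := fun h => htE (h ▸ hq)
          obtain ⟨d1, d2, -, -⟩ := hO.td t ht q (hE hq) hne
          exact ⟨d1, d2⟩
        have hf2 : τ t.2 = t.2 := by
          apply hτ.2
          intro q hq
          have hne : t ≠ q := fun h => htE (h ▸ hq)
          obtain ⟨-, -, d3, d4⟩ := hO.td t ht q (hE hq) hne
          exact ⟨d3, d4⟩
        refine ⟨insert t E, insert_subset ht hE, ?_, ?_⟩
        · intro q hq
          rcases mem_insert.1 hq with rfl | hq
          · rw [Equiv.Perm.mul_apply, Equiv.Perm.mul_apply, Equiv.swap_apply_left,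
              Equiv.swap_apply_right]
            exact ⟨hf2, hf1⟩
          · have hne : q ≠ t := fun h => htE (h ▸ hq)
            obtain ⟨g1, g2⟩ := hfixq q (hE hq) hne
            rw [Equiv.Perm.mul_apply, Equiv.Perm.mul_apply, g1, g2]
            exact hτ.1 q hq
        · intro v hv
          obtain ⟨v1, v2⟩ := hv t (mem_insert_self _ _)
          rw [Equiv.Perm.mul_apply, Equiv.swap_apply_of_ne_of_ne v1 v2]
          exact hτ.2 v fun q hq => hv q (mem_insert_of_mem hq)
    obtain ⟨E', hE', hT'⟩ := h3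
    have h4 := hmin E' hE' _ hT'
    rw [← mul_assoc] at h4
    omega
  -- the connections
  have h2 : ∀ v₀ v, lv v₀ ≤ e → lv v ≤ e → (F * τ).SameCycle v₀ v := by
    intro v₀ v hv₀ hv
    have h3 := hO.con (fun v => (F * τ).SameCycle v₀ v) ?_ ?_ v₀ v hv₀ hv
    · exact h3.1 (Equiv.Perm.SameCycle.refl _ _)
    · intro u hu
      have hFu := hFσ u hu
      by_cases hin : ∃ q ∈ E, u = q.1 ∨ u = q.2
      · obtain ⟨q, hq, h4⟩ := hin
        obtain ⟨g1, g2⟩ := hτ.1 q hq
        have h5 := h1 q (hE hq)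
        rcases h4 with rfl | rfl
        · have h6 : (F * τ) q.2 = σ q.1 := by rw [Equiv.Perm.mul_apply, g2, hFu]
          rw [← h6, Equiv.Perm.sameCycle_apply_right]
          exact ⟨fun h => h.trans h5, fun h => h.trans h5.symm⟩
        · have h6 : (F * τ) q.1 = σ q.2 := by rw [Equiv.Perm.mul_apply, g1, hFu]
          rw [← h6, Equiv.Perm.sameCycle_apply_right]
          exact ⟨fun h => h.trans h5.symm, fun h => h.trans h5⟩
      · have h6 : (F * τ) u = σ u := by
          rw [Equiv.Perm.mul_apply, hτ.2 u, hFu]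
          intro q hq
          exact ⟨fun h => hin ⟨q, hq, Or.inl h⟩, fun h => hin ⟨q, hq, Or.inr h⟩⟩
        rw [← h6, Equiv.Perm.sameCycle_apply_right]
    · intro q hq
      have h5 := h1 q hq
      exact ⟨fun h => h.trans h5, fun h => h.trans h5.symm⟩
  -- the exceptional level
  have h3 : ∀ v, ∃ v', lv v' ≤ e ∧ (F * τ).SameCycle v v' := by
    intro v
    by_cases hv : lv v ≤ e
    · exact ⟨v, hv, Equiv.Perm.SameCycle.refl _ _⟩
    · have hv1 : lv v = e + 1 := by
        have := hlv v
        omega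
      have h4 : τ v = v := by
        apply hτ.2
        intro q hq
        obtain ⟨l1, l2, l3, l4⟩ := hO.tl q (hE hq)
        constructor
        · intro h
          rw [h] at hv1
          omega
        · intro h
          rw [h] at hv1
          omega
      obtain ⟨w1, w2⟩ := hF v
      refine ⟨F v, ?_, ?_⟩
      · unfold tgp hgp at w1
        have := hlv (F v)
        by_contra hcon
        have h5 : lv (F v) = e + 1 := by omega
        exact w2 ⟨hv1, h5⟩
      · have h6 : (F * τ) v = F v := by rw [Equiv.Perm.mul_apply, h4]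
        rw [← h6, Equiv.Perm.sameCycle_apply_right]
  refine ⟨E, hE, τ, hτ, ?_⟩
  intro v w
  obtain ⟨v', hv', hvv⟩ := h3 v
  obtain ⟨w', hw', hww⟩ := h3 w
  exact (hvv.trans (h2 v' w' hv' hw')).trans hww.symm

end Pool.Agent.MPd266dbE
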