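import Pool.Agent.Lib.MP_d266db_co.E.SpecH

/-!
# MP_d266db_co, E, Mov: moving high roles to the other class
-/

set_option autoImplicit false

namespace Pool.Agent.MPd266dbE

open Finset Pool.Agent.MPd266db Pool.Agent.MPd266dbH

private theorem mov_od {n : ℕ} (P Q : Finset (Fin n × Fin n)) (B : Finset (Fin n)) (v : Fin n)
    (h : ∀ q ∈ P, q.1 = v → q.2 ∉ B → q ∈ Q) : od P v ≤ od Q v + B.card := by
  have h1 : P.filter (fun q => q.1 = v) ⊆ Q.filter (fun q => q.1 = v) ∪ B.image (fun w => (v, w)) := by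
    intro q hq
    rw [mem_filter] at hq
    by_cases hB : q.2 ∈ B
    · refine mem_union_right _ (mem_image.mpr ⟨q.2, hB, ?_⟩)
      rw [← hq.2]
    · exact mem_union_left _ (mem_filter.mpr ⟨h q hq.1 hq.2 hB, hq.2⟩)
  exact (card_le_card h1).trans ((card_union_le _ _).trans (Nat.add_le_add_left card_image_le _))

private theorem mov_id {n : ℕ} (P Q : Finset (Fin n × Fin n)) (A : Finset (Fin n)) (v : Fin n)
    (h : ∀ q ∈ P, q.2 = v → q.1 ∉ A → q ∈ Q) : idg P v ≤ idg Q v + A.card := by
  have h1 : P.filter (fun q => q.2 = v) ⊆ Q.filter (fun q => q.2 = v) ∪ A.image (fun w => (w, v)) := by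
    intro q hq
    rw [mem_filter] at hq
    by_cases hA : q.1 ∈ A
    · refine mem_union_right _ (mem_image.mpr ⟨q.1, hA, ?_⟩)
      rw [← hq.2]
    · exact mem_union_left _ (mem_filter.mpr ⟨h q hq.1 hq.2 hA, hq.2⟩)
  exact (card_le_card h1).trans ((card_union_le _ _).trans (Nat.add_le_add_left card_image_le _))

private theorem mov_eb {n : ℕ} (R : Finset (Fin n × Fin n)) (U V A B : Finset (Fin n)) :
    eb R (U ∪ A) (V ∪ B) ≤ eb R U V + (A.card * n + n * B.card) := by
  have h1 : R.filter (fun e => e.1 ∈ U ∪ A ∧ e.2 ∈ V ∪ B) ⊆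
      R.filter (fun e => e.1 ∈ U ∧ e.2 ∈ V) ∪ (A ×ˢ (univ : Finset (Fin n)) ∪ univ ×ˢ B) := by
    intro q hq
    simp only [mem_filter, mem_union, mem_product, mem_univ, and_true, true_and] at hq ⊢
    tauto
  refine (card_le_card h1).trans ((card_union_le _ _).trans (Nat.add_le_add_left ?_ _))
  refine (card_union_le _ _).trans ?_
  rw [card_product, card_product, card_univ, Fintype.card_fin]

/-- The robustness after moving at most `|A|` tails and `|B|` heads. -/
private theorem mov_rob {n K p : ℕ} {R : Finset (Fin n × Fin n)} {o i o' i' : Fin n → Fin K}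
    {β ν : ℝ} {A B : Finset (Fin n)} (hR : Rob o i R β ν) (hc : A.card + B.card = p)
    (hp : (p : ℝ) ≤ β * n) (hp2 : 2 * (p : ℝ) ≤ ν * n) (ho : ∀ v, v ∉ A → o' v = o v)
    (hi : ∀ v, v ∉ B → i' v = i v) : Rob o' i' R (2 * β) (ν / 2) := by
  intro a X Y hX hY h1 h2
  have hn0 : (0 : ℝ) ≤ n := Nat.cast_nonneg n
  have s1 : X ⊆ (X ∩ Cl o a) ∪ A := by
    intro v hv
    by_cases hA : v ∈ A
    · exact mem_union_right _ hA
    · refine mem_union_left _ (mem_inter.mpr ⟨hv, ?_⟩)
      have h3 := (mem_filter.mp (hX hv)).2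
      rw [Cl, mem_filter]
      exact ⟨mem_univ _, by rw [← ho v hA]; exact h3⟩
  have s2 : Y ⊆ (Y ∩ Cl i a) ∪ B := by
    intro v hv
    by_cases hB : v ∈ B
    · exact mem_union_right _ hB
    · refine mem_union_left _ (mem_inter.mpr ⟨hv, ?_⟩)
      have h3 := (mem_filter.mp (hY hv)).2
      rw [Cl, mem_filter]
      exact ⟨mem_univ _, by rw [← hi v hB]; exact h3⟩
  have s3 : Cl i' a \ Y ⊆ (Cl i a \ (Y ∩ Cl i a)) ∪ B := by
    intro v hv
    by_cases hB : v ∈ B
    · exact mem_union_right _ hB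
    · rw [mem_sdiff, Cl, mem_filter] at hv
      refine mem_union_left _ (mem_sdiff.mpr ⟨?_, fun h => hv.2 (mem_inter.mp h).1⟩)
      rw [Cl, mem_filter]
      exact ⟨mem_univ _, by rw [← hi v hB]; exact hv.1.2⟩
  have s4 : Cl o' a \ X ⊆ (Cl o a \ (X ∩ Cl o a)) ∪ A := by
    intro v hv
    by_cases hA : v ∈ A
    · exact mem_union_right _ hA
    · rw [mem_sdiff, Cl, mem_filter] at hv
      refine mem_union_left _ (mem_sdiff.mpr ⟨?_, fun h => hv.2 (mem_inter.mp h).1⟩)
      rw [Cl, mem_filter]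
      exact ⟨mem_univ _, by rw [← ho v hA]; exact hv.1.2⟩
  have s5 : Cl i a \ (Y ∩ Cl i a) ⊆ (Cl i' a \ Y) ∪ B := by
    intro v hv
    by_cases hB : v ∈ B
    · exact mem_union_right _ hB
    · rw [mem_sdiff] at hv
      have h3 := (mem_filter.mp hv.1).2
      refine mem_union_left _ (mem_sdiff.mpr ⟨?_, fun h => hv.2 (mem_inter.mpr ⟨h, hv.1⟩)⟩)
      rw [Cl, mem_filter]
      exact ⟨mem_univ _, by rw [hi v hB]; exact h3⟩
  have s6 : Cl o a \ (X ∩ Cl o a) ⊆ (Cl o' a \ X) ∪ A := by
    intro v hv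
    by_cases hA : v ∈ A
    · exact mem_union_right _ hA
    · rw [mem_sdiff] at hv
      have h3 := (mem_filter.mp hv.1).2
      refine mem_union_left _ (mem_sdiff.mpr ⟨?_, fun h => hv.2 (mem_inter.mpr ⟨h, hv.1⟩)⟩)
      rw [Cl, mem_filter]
      exact ⟨mem_univ _, by rw [ho v hA]; exact h3⟩
  have hcR : (A.card : ℝ) + B.card = p := by exact_mod_cast hc
  have r1 : (X.card : ℝ) ≤ (X ∩ Cl o a).card + A.card := by
    exact_mod_cast (card_le_card s1).trans (card_union_le _ _)
  have r2 : (Y.card : ℝ) ≤ (Y ∩ Cl i a).card + B.card := by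
    exact_mod_cast (card_le_card s2).trans (card_union_le _ _)
  have r3 : ((Cl i' a \ Y).card : ℝ) ≤ (Cl i a \ (Y ∩ Cl i a)).card + B.card := by
    exact_mod_cast (card_le_card s3).trans (card_union_le _ _)
  have r4 : ((Cl o' a \ X).card : ℝ) ≤ (Cl o a \ (X ∩ Cl o a)).card + A.card := by
    exact_mod_cast (card_le_card s4).trans (card_union_le _ _)
  have h3 := hR a (X ∩ Cl o a) (Y ∩ Cl i a) inter_subset_right inter_subset_right
    (by linarith) (by linarith)
  have h4 : (eb R (X ∩ Cl o a) (Y ∩ Cl i a) : ℝ) ≤ eb R X Y := by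
    exact_mod_cast eb_mono (Subset.refl R) inter_subset_left inter_subset_left
  have h5 : (eb R (Cl o a \ (X ∩ Cl o a)) (Cl i a \ (Y ∩ Cl i a)) : ℝ) ≤
      eb R (Cl o' a \ X) (Cl i' a \ Y) + (A.card * n + n * B.card) := by
    exact_mod_cast (eb_mono (Subset.refl R) s6 s5).trans (mov_eb R _ _ A B)
  have h6 : (A.card : ℝ) * n + n * B.card = p * n := by rw [← hcR]; ring
  have h7 : (p : ℝ) * n ≤ ν / 2 * (n : ℝ) ^ 2 := by nlinarith
  rw [h6] at h5
  linarith

theorem tMov : S_Mov := by
  intro n K r p L R o i c0 d0 β ν hR hCD hcd hod hid hp hRob hpβ hpν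
  -- the choice of the sets
  obtain ⟨A, hA, B, hB, hAB⟩ : ∃ A, A ⊆ HiT R o i c0 d0 L ∧ ∃ B, B ⊆ HiH R o i c0 d0 L ∧
      A.card + B.card = p := by
    by_cases h : p ≤ (HiT R o i c0 d0 L).card
    · obtain ⟨A, hA, hAc⟩ := exists_subset_card_eq h
      exact ⟨A, hA, ∅, empty_subset _, by rw [card_empty, hAc, add_zero]⟩
    · push Not at h
      obtain ⟨B, hB, hBc⟩ := exists_subset_card_eq
        (s := HiH R o i c0 d0 L) (n := p - (HiT R o i c0 d0 L).card) (by omega)
      exact ⟨_, Subset.refl _, B, hB, by omega⟩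
  have hAo : ∀ v ∈ A, o v = c0 := by
    intro v hv
    have h1 := (mem_filter.mp (hA hv)).2
    have h2 : 0 < od (Xcd R o i c0 d0) v := lt_of_le_of_lt (Nat.zero_le L) h1
    obtain ⟨q, hq⟩ := card_pos.mp h2
    rw [Xcd, mem_filter, mem_filter] at hq
    rw [← hq.2]
    exact hq.1.2.1
  have hBi : ∀ v ∈ B, i v = d0 := by
    intro v hv
    have h1 := (mem_filter.mp (hB hv)).2
    have h2 : 0 < idg (Xcd R o i c0 d0) v := lt_of_le_of_lt (Nat.zero_le L) h1
    obtain ⟨q, hq⟩ := card_pos.mp h2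
    rw [Xcd, mem_filter, mem_filter] at hq
    rw [← hq.2]
    exact hq.1.2.2
  obtain ⟨o', ho1, ho2⟩ : ∃ o' : Fin n → Fin K, (∀ v ∈ A, o' v = d0) ∧ ∀ v, v ∉ A → o' v = o v :=
    ⟨fun v => if v ∈ A then d0 else o v, fun v hv => if_pos hv, fun v hv => if_neg hv⟩
  obtain ⟨i', hi1, hi2⟩ : ∃ i' : Fin n → Fin K, (∀ v ∈ B, i' v = c0) ∧ ∀ v, v ∉ B → i' v = i v :=
    ⟨fun v => if v ∈ B then c0 else i v, fun v hv => if_pos hv, fun v hv => if_neg hv⟩
  -- sizes of the classes
  have c1 : (Cl o' c0).card + A.card = (Cl o c0).card := by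
    rw [← card_union_of_disjoint]
    · congr 1
      ext v
      simp only [mem_union, Cl, mem_filter, mem_univ, true_and]
      by_cases hv : v ∈ A
      · simp [hv, hAo v hv]
      · simp [hv, ho2 v hv]
    · rw [Finset.disjoint_left]
      intro v hv hv'
      have h1 := (mem_filter.mp hv).2
      rw [ho1 v hv'] at h1
      exact hcd h1.symm
  have c2 : (Cl i' c0).card = (Cl i c0).card + B.card := by
    rw [← card_union_of_disjoint]
    · congr 1
      ext v
      simp only [mem_union, Cl, mem_filter, mem_univ, true_and]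
      by_cases hv : v ∈ B
      · simp [hv, hi1 v hv]
      · simp [hv, hi2 v hv]
    · rw [Finset.disjoint_left]
      intro v hv hv'
      have h1 := (mem_filter.mp hv).2
      rw [hBi v hv'] at h1
      exact hcd h1.symm
  have c3 : (Cl i' d0).card + B.card = (Cl i d0).card := by
    rw [← card_union_of_disjoint]
    · congr 1
      ext v
      simp only [mem_union, Cl, mem_filter, mem_univ, true_and]
      by_cases hv : v ∈ B
      · simp [hv, hBi v hv]
      · simp [hv, hi2 v hv]
    · rw [Finset.disjoint_left]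
      intro v hv hv'
      have h1 := (mem_filter.mp hv).2
      rw [hi1 v hv'] at h1
      exact hcd h1
  have c4 : (Cl o' d0).card = (Cl o d0).card + A.card := by
    rw [← card_union_of_disjoint]
    · congr 1
      ext v
      simp only [mem_union, Cl, mem_filter, mem_univ, true_and]
      by_cases hv : v ∈ A
      · simp [hv, ho1 v hv]
      · simp [hv, ho2 v hv]
    · rw [Finset.disjoint_left]
      intro v hv hv'
      have h1 := (mem_filter.mp hv).2
      rw [hAo v hv'] at h1
      exact hcd h1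
  -- degrees
  have t1 : ∀ v, v ∉ A → od (own o i R) v ≤ od (own o' i' R) v + B.card := by
    intro v hv
    refine mov_od _ _ B v fun q hq hq1 hq2 => ?_
    simp only [own, mem_filter] at hq ⊢
    refine ⟨hq.1, ?_⟩
    rw [ho2 q.1 (by rw [hq1]; exact hv), hi2 q.2 hq2]
    exact hq.2
  have t2 : ∀ v ∈ A, od (Xcd R o i c0 d0) v ≤ od (own o' i' R) v + B.card := by
    intro v hv
    refine mov_od _ _ B v fun q hq hq1 hq2 => ?_
    simp only [own, Xcd, mem_filter] at hq ⊢
    refine ⟨hq.1, ?_⟩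
    rw [ho1 q.1 (by rw [hq1]; exact hv), hi2 q.2 hq2]
    exact hq.2.2.symm
  have t3 : ∀ v, v ∉ B → idg (own o i R) v ≤ idg (own o' i' R) v + A.card := by
    intro v hv
    refine mov_id _ _ A v fun q hq hq1 hq2 => ?_
    simp only [own, mem_filter] at hq ⊢
    refine ⟨hq.1, ?_⟩
    rw [hi2 q.2 (by rw [hq1]; exact hv), ho2 q.1 hq2]
    exact hq.2
  have t4 : ∀ v ∈ B, idg (Xcd R o i c0 d0) v ≤ idg (own o' i' R) v + A.card := by
    intro v hv
    refine mov_id _ _ A v fun q hq hq1 hq2 => ?_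
    simp only [own, Xcd, mem_filter] at hq ⊢
    refine ⟨hq.1, ?_⟩
    rw [hi1 q.2 (by rw [hq1]; exact hv), ho2 q.1 hq2]
    exact hq.2.1
  have u1 : ∀ v, v ∉ A → r ≤ 2 * (od (own o' i' R) v + p) := by
    intro v hv
    have h1 := t1 v hv
    have h2 := hod v
    omega
  have u3 : ∀ v, v ∉ B → r ≤ 2 * (idg (own o' i' R) v + p) := by
    intro v hv
    have h1 := t3 v hv
    have h2 := hid v
    omega
  refine ⟨o', i', ⟨hCD.two, ?_, ?_⟩, ?_, mov_rob hRob hAB hpβ hpν ho2 hi2, ?_, ?_, ?_, ?_, ?_⟩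
  · have := hCD.sc
    omega
  · have := hCD.sd
    omega
  · have hT : (R.filter (fun e => e.1 ∈ A ∧ e.2 ∈ (univ : Finset (Fin n)))).card = r * A.card := by
      have h1 := eb_univ_right R A
      rw [Finset.sum_congr rfl (fun v _ => (hR v).1), sum_const, smul_eq_mul, mul_comm] at h1
      exact h1
    have hH : (R.filter (fun e => e.1 ∈ (univ : Finset (Fin n)) ∧ e.2 ∈ B)).card = r * B.card := by
      have h1 := eb_univ_left R B
      rw [Finset.sum_congr rfl (fun v _ => (hR v).2), sum_const, smul_eq_mul, mul_comm] at h1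
      exact h1
    have hsub : crs o' i' R ⊆ crs o i R ∪
        (R.filter (fun e => e.1 ∈ A ∧ e.2 ∈ (univ : Finset (Fin n))) ∪
          R.filter (fun e => e.1 ∈ (univ : Finset (Fin n)) ∧ e.2 ∈ B)) := by
      intro q hq
      simp only [crs, mem_filter, mem_union, mem_univ, and_true, true_and] at hq ⊢
      by_cases h1 : q.1 ∈ A
      · exact Or.inr (Or.inl ⟨hq.1, h1⟩)
      · by_cases h2 : q.2 ∈ B
        · exact Or.inr (Or.inr ⟨hq.1, h2⟩)
        · left
          rw [ho2 _ h1, hi2 _ h2] at hq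
          exact hq
    have h3 := (card_le_card hsub).trans ((card_union_le _ _).trans
      (Nat.add_le_add_left (card_union_le _ _) _))
    rw [hT, hH, ← mul_add, hAB] at h3
    exact h3
  · intro v
    by_cases hv : v ∈ A
    · left
      have h1 := t2 v hv
      have h2 := (mem_filter.mp (hA hv)).2
      omega
    · exact Or.inr (u1 v hv)
  · intro v
    by_cases hv : v ∈ B
    · left
      have h1 := t4 v hv
      have h2 := (mem_filter.mp (hB hv)).2
      omega
    · exact Or.inr (u3 v hv)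
  · refine (card_le_card (t := A) fun v hv => ?_).trans (by omega)
    by_contra h
    have h1 := (mem_filter.mp hv).2
    have h2 := u1 v h
    omega
  · refine (card_le_card (t := B) fun v hv => ?_).trans (by omega)
    by_contra h
    have h1 := (mem_filter.mp hv).2
    have h2 := u3 v h
    omega
  · intro x y
    have hsub : Cl o x ∩ Cl i y ⊆ (Cl o' x ∩ Cl i' y) ∪ (A ∪ B) := by
      intro v hv
      simp only [mem_inter, mem_union, Cl, mem_filter, mem_univ, true_and] at hv ⊢
      by_cases h1 : v ∈ A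
      · exact Or.inr (Or.inl h1)
      · by_cases h2 : v ∈ B
        · exact Or.inr (Or.inr h2)
        · left
          rw [ho2 _ h1, hi2 _ h2]
          exact hv
    have h3 := (card_le_card hsub).trans ((card_union_le _ _).trans
      (Nat.add_le_add_left (card_union_le _ _) _))
    rw [hAB] at h3
    exact h3

end Pool.Agent.MPd266dbE
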