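import Pool.Agent.Lib.MP_d266db_co.E.SpecD

/-!
# MP_d266db_co, E: many objects
-/

set_option autoImplicit false

namespace Pool.Agent.MPd266dbE

open Finset Pool.Agent.MPd266db Pool.Agent.MPd266dbH

theorem obj_dg {n : ℕ} {e : ℕ} {lv : Fin n → ℕ} {S X : Finset (Fin n × Fin n)} {j : ℕ}
    {σ : Equiv.Perm (Fin n)} {T : Finset (Fin n × Fin n)} (h : FOb e lv S X j σ T) :
    Dg (oarc e lv j σ T) 2 := by
  classical
  have h1 : Dg ((univ.filter (fun v => tgp e lv v ≠ j)).image (fun v => (v, σ v))) 1 :=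
    (Dg.arcs σ).mono (image_subset_image (filter_subset _ _)) le_rfl
  have h2 : Dg (T.image (fun q => (q.1, σ q.2)) ∪ T.image (fun q => (q.2, σ q.1))) 1 := by
    intro v
    constructor
    · unfold od
      rw [card_le_one]
      intro a ha b hb
      rw [mem_filter, mem_union, mem_image, mem_image] at ha hb
      obtain ⟨ha, hav⟩ := ha
      obtain ⟨hb, hbv⟩ := hb
      rcases ha with ⟨q, hq, rfl⟩ | ⟨q, hq, rfl⟩ <;> rcases hb with ⟨q', hq', rfl⟩ | ⟨q', hq', rfl⟩ <;>
        dsimp only at hav hbv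
      · by_cases hqq : q = q'
        · rw [hqq]
        · exact absurd (hav.trans hbv.symm) (h.td q hq q' hq' hqq).1
      · by_cases hqq : q = q'
        · subst hqq
          exact absurd (hav.trans hbv.symm) (h.tne q hq)
        · exact absurd (hav.trans hbv.symm) (h.td q hq q' hq' hqq).2.1
      · by_cases hqq : q = q'
        · subst hqq
          exact absurd (hbv.trans hav.symm) (h.tne q hq)
        · exact absurd (hav.trans hbv.symm) (h.td q hq q' hq' hqq).2.2.1
      · by_cases hqq : q = q'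
        · rw [hqq]
        · exact absurd (hav.trans hbv.symm) (h.td q hq q' hq' hqq).2.2.2
    · unfold idg
      rw [card_le_one]
      intro a ha b hb
      rw [mem_filter, mem_union, mem_image, mem_image] at ha hb
      obtain ⟨ha, hav⟩ := ha
      obtain ⟨hb, hbv⟩ := hb
      rcases ha with ⟨q, hq, rfl⟩ | ⟨q, hq, rfl⟩ <;> rcases hb with ⟨q', hq', rfl⟩ | ⟨q', hq', rfl⟩ <;>
        dsimp only at hav hbv <;> have heq := σ.injective (hav.trans hbv.symm)
      · by_cases hqq : q = q'
        · rw [hqq]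
        · exact absurd heq (h.td q hq q' hq' hqq).2.2.2
      · by_cases hqq : q = q'
        · subst hqq
          exact absurd heq.symm (h.tne q hq)
        · exact absurd heq (h.td q hq q' hq' hqq).2.2.1
      · by_cases hqq : q = q'
        · subst hqq
          exact absurd heq (h.tne q hq)
        · exact absurd heq (h.td q hq q' hq' hqq).2.1
      · by_cases hqq : q = q'
        · rw [hqq]
        · exact absurd heq (h.td q hq q' hq' hqq).1
  have h3 := h1.union h2
  exact h3

theorem obj_sub {n : ℕ} {e : ℕ} {lv : Fin n → ℕ} {S X : Finset (Fin n × Fin n)} {j : ℕ}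
    {σ : Equiv.Perm (Fin n)} {T : Finset (Fin n × Fin n)} (h : FOb e lv S X j σ T)
    (a : Fin n × Fin n) (ha : a ∈ oarc e lv j σ T) : a ∈ S ∨ a ∈ X := by
  classical
  unfold oarc at ha
  rw [mem_union, mem_union, mem_image, mem_image, mem_image] at ha
  rcases ha with ⟨v, -, rfl⟩ | ⟨q, hq, rfl⟩ | ⟨q, hq, rfl⟩
  · by_cases hv : v ∈ tls X
    · right
      obtain ⟨q, hq, rfl⟩ := mem_tls.1 hv
      rw [h.ax q hq]
      exact hq
    · exact Or.inl (h.ar v hv)
  · exact Or.inl (h.tc q hq).1
  · exact Or.inl (h.tc q hq).2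

theorem obj_mono {n : ℕ} {e : ℕ} {lv : Fin n → ℕ} {S S' X : Finset (Fin n × Fin n)} {j : ℕ}
    {σ : Equiv.Perm (Fin n)} {T : Finset (Fin n × Fin n)} (h : FOb e lv S X j σ T)
    (hS : S ⊆ S') : FOb e lv S' X j σ T where
  wn := h.wn
  ax := h.ax
  ar := fun v hv => hS (h.ar v hv)
  tne := h.tne
  tc := fun q hq => ⟨hS (h.tc q hq).1, hS (h.tc q hq).2⟩
  tl := h.tl
  td := h.td
  con := h.con

theorem tObj (hXPk : S_XPk) : S_Obj := by
  classical
  intro n e mF p Δ z0 z lv S Xe U0 Z0 jj hO hZ0 hz hjj hSX hXe hΔ hΔ1 hU0 hcard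
  have key : ∀ m, m ≤ mF → ∃ (X : ℕ → Finset (Fin n × Fin n)) (σ : ℕ → Equiv.Perm (Fin n))
      (T : ℕ → Finset (Fin n × Fin n)) (Z U : Finset (Fin n × Fin n)), Z0 ⊆ Z ∧ U0 ⊆ U ∧
      Dg Z (z0 + 2 * m) ∧ U.card ≤ U0.card + m * p ∧
      (∀ f (_ : f < m) (hf : f < mF), X f ⊆ Xe \ U0 ∧ VD (X f) ∧ (X f).card = p ∧
        FOb e lv (S \ Z0) (X f) (jj ⟨f, hf⟩) (σ f) (T f) ∧
        oarc e lv (jj ⟨f, hf⟩) (σ f) (T f) ⊆ Z ∧ X f ⊆ U) ∧
      (∀ f f', f < m → f' < m → f ≠ f' → Disjoint (X f) (X f')) ∧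
      ∀ f f' (_ : f < m) (_ : f' < m) (hf : f < mF) (hf' : f' < mF), f ≠ f' →
        Disjoint (oarc e lv (jj ⟨f, hf⟩) (σ f) (T f)) (oarc e lv (jj ⟨f', hf'⟩) (σ f') (T f')) := by
    intro m
    induction m with
    | zero =>
      intro _
      exact ⟨fun _ => ∅, fun _ => 1, fun _ => ∅, Z0, U0, Subset.refl _, Subset.refl _,
        hZ0.mono (Subset.refl _) (by omega), by omega, fun f hf => absurd hf (Nat.not_lt_zero _),
        fun f _ hf => absurd hf (Nat.not_lt_zero _), fun f _ hf => absurd hf (Nat.not_lt_zero _)⟩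
    | succ m ih =>
      intro hm
      obtain ⟨X, σ, T, Z, U, hZ, hU, hDZ, hUc, h1, h2, h3⟩ := ih (by omega)
      have hmF : m < mF := by omega
      have hc1 : U.card + ∑ v ∈ (∅ : Finset (Fin n)), (od Xe v + idg Xe v) + 4 * Δ * p ≤
          Xe.card := by
        rw [sum_empty]
        have := Nat.mul_le_mul_right p (show m ≤ mF by omega)
        omega
      obtain ⟨P, hP, hVD, hPc, -⟩ := hXPk n p Δ Xe U ∅ hXe hΔ hΔ1 hc1
      have hPX : P ⊆ Xe := fun q hq => (mem_sdiff.1 (hP hq)).1
      obtain ⟨σ1, T1, hF⟩ := hO Z (hDZ.mono (Subset.refl _) (by omega)) (jj ⟨m, hmF⟩)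
        (hjj _) P hPX hVD hPc
      have hF0 : FOb e lv (S \ Z0) P (jj ⟨m, hmF⟩) σ1 T1 :=
        obj_mono hF (sdiff_subset_sdiff (Subset.refl _) hZ)
      have hdX : ∀ f, f < m → Disjoint (X f) P := by
        intro f hf
        rw [disjoint_left]
        intro q hq hq'
        exact (mem_sdiff.1 (hP hq')).2 ((h1 f hf (by omega)).2.2.2.2.2 hq)
      have hdO : ∀ f (_ : f < m) (hf : f < mF), Disjoint (oarc e lv (jj ⟨f, hf⟩) (σ f) (T f))
          (oarc e lv (jj ⟨m, hmF⟩) σ1 T1) := by
        intro f hfm hf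
        rw [disjoint_left]
        intro a ha ha'
        obtain ⟨g1, g2, g3, g4, g5, g6⟩ := h1 f hfm hf
        have haZ : a ∈ Z := g5 ha
        rcases obj_sub hF a ha' with h | h
        · exact (mem_sdiff.1 h).2 haZ
        · rcases obj_sub g4 a ha with h' | h'
          · exact (disjoint_left.1 hSX) (mem_sdiff.1 h').1 (hPX h)
          · exact (mem_sdiff.1 (hP h)).2 (g6 h')
      have em : ∀ {β : Type} (F : ℕ → β) (b : β), (fun f => if f = m then b else F f) m = b := by
        intro β F b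
        simp
      have en : ∀ {β : Type} (F : ℕ → β) (b : β) (f : ℕ), f < m →
          (fun f => if f = m then b else F f) f = F f := by
        intro β F b f hf
        simp [hf.ne]
      refine ⟨fun f => if f = m then P else X f, fun f => if f = m then σ1 else σ f,
        fun f => if f = m then T1 else T f, Z ∪ oarc e lv (jj ⟨m, hmF⟩) σ1 T1, U ∪ P,
        hZ.trans subset_union_left, hU.trans subset_union_left, ?_, ?_, ?_, ?_, ?_⟩
      · have := hDZ.union (obj_dg hF)
        exact this.mono (Subset.refl _) (by omega)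
      · have := card_union_le U P
        rw [Nat.succ_mul]
        omega
      · intro f hf hf'
        rcases Nat.lt_succ_iff_lt_or_eq.1 hf with hlt | heq
        · rw [en X P f hlt, en σ σ1 f hlt, en T T1 f hlt]
          obtain ⟨g1, g2, g3, g4, g5, g6⟩ := h1 f hlt hf'
          exact ⟨g1, g2, g3, g4, g5.trans subset_union_left, g6.trans subset_union_left⟩
        · subst heq
          rw [em X P, em σ σ1, em T T1]
          refine ⟨?_, hVD, hPc, hF0, subset_union_right, subset_union_right⟩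
          intro q hq
          have := mem_sdiff.1 (hP hq)
          exact mem_sdiff.2 ⟨this.1, fun h => this.2 (hU h)⟩
      · intro f f' hf hf' hne
        rcases Nat.lt_succ_iff_lt_or_eq.1 hf with hlt | heq <;>
          rcases Nat.lt_succ_iff_lt_or_eq.1 hf' with hlt' | heq'
        · rw [en X P f hlt, en X P f' hlt']
          exact h2 f f' hlt hlt' hne
        · rw [en X P f hlt, heq', em X P]
          exact hdX f hlt
        · rw [en X P f' hlt', heq, em X P]
          exact (hdX f' hlt').symm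
        · exact absurd (heq.trans heq'.symm) hne
      · intro f f' hf hf' hfm hfm' hne
        rcases Nat.lt_succ_iff_lt_or_eq.1 hf with hlt | heq <;>
          rcases Nat.lt_succ_iff_lt_or_eq.1 hf' with hlt' | heq'
        · rw [en σ σ1 f hlt, en T T1 f hlt, en σ σ1 f' hlt', en T T1 f' hlt']
          exact h3 f f' hlt hlt' hfm hfm' hne
        · subst heq'
          rw [en σ σ1 f hlt, en T T1 f hlt, em σ σ1, em T T1]
          exact hdO f hlt hfm
        · subst heq
          rw [en σ σ1 f' hlt', en T T1 f' hlt', em σ σ1, em T T1]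
          exact (hdO f' hlt' hfm').symm
        · exact absurd (heq.trans heq'.symm) hne
  obtain ⟨X, σ, T, Z, U, hZ, hU, hDZ, hUc, h1, h2, h3⟩ := key mF le_rfl
  refine ⟨fun f => X f, fun f => σ f, fun f => T f, ?_, ?_, ?_⟩
  · intro f
    obtain ⟨g1, g2, g3, g4, -, -⟩ := h1 f f.2 f.2
    exact ⟨g1, g2, g3, g4, obj_dg g4⟩
  · intro f f' hne
    exact h2 f f' f.2 f'.2 fun h => hne (Fin.ext h)
  · intro f f' hne
    exact h3 f f' f.2 f'.2 f.2 f'.2 fun h => hne (Fin.ext h)

end Pool.Agent.MPd266dbE
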