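import Pool.Agent.Lib.MP_d266db_co.E.SpecF

/-!
# MP_d266db_co, E: the two classes
-/

set_option autoImplicit false

namespace Pool.Agent.MPd266dbE

open Finset Pool.Agent.MPd266db Pool.Agent.MPd266dbH

theorem tPXc : S_PXc := by
  intro n K p o i c0 d0 XL hC hX
  have h2 := hC.sc
  have h3 := hC.sd
  refine ⟨fun a => ?_, fun q hq a => ?_, fun q hq a => ?_, fun q hq => ?_⟩
  · by_cases h : c0 = d0
    · subst h
      have hp : p = 0 := by omega
      subst hp
      have ha : a = c0 := by
        by_contra hne
        rcases hC.two a c0 hne with h | h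
        · exact hne h.1
        · exact hne h.1
      subst ha
      simp only [zero_mul]
      omega
    · by_cases ha : a = c0
      · subst ha
        rw [if_pos rfl, if_neg (fun h' => h h'.symm)]
        omega
      · have hd : a = d0 := by
          rcases hC.two a c0 ha with h' | h'
          · exact absurd h'.1 ha
          · exact h'.1
        subst hd
        rw [if_pos rfl, if_neg h]
        omega
  · obtain ⟨h4, -, -⟩ := hX q hq
    rw [h4]
  · obtain ⟨-, h4, -⟩ := hX q hq
    rw [h4]
  · obtain ⟨h4, h5, h6⟩ := hX q hq
    rw [h4, h5]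
    exact h6

end Pool.Agent.MPd266dbE
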