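import Pool.Agent.Lib.MP_d266db_co.E.SpecB

/-!
# MP_d266db_co, E: an even number of crossing switches
-/

set_option autoImplicit false

namespace Pool.Agent.MPd266dbE

open Finset Pool.Agent.MPd266db Pool.Agent.MPd266dbH

private theorem par_ord {n : ℕ} {π : Equiv.Perm (Fin n)} (hn : 2 ≤ n) (h : Ham π) :
    π.IsCycle ∧ (∀ v, π v ≠ v) ∧ orderOf π = n := by
  have hne : ∀ v, π v ≠ v := by
    intro v hv
    have h1 : ∀ w, w = v := by
      intro w
      obtain ⟨i, hi⟩ := h v w
      rw [← hi]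
      exact Equiv.Perm.zpow_apply_eq_self_of_apply_eq_self hv i
    have h2 := (h1 ⟨0, by omega⟩).trans (h1 ⟨1, by omega⟩).symm
    have h3 := Fin.mk.inj_iff.1 h2
    omega
  have hc : π.IsCycle := ⟨⟨0, by omega⟩, hne _, fun y _ => h _ y⟩
  refine ⟨hc, hne, ?_⟩
  rw [hc.orderOf]
  have h1 : π.support = univ := by
    ext v
    rw [Equiv.Perm.mem_support]
    exact ⟨fun _ => mem_univ _, fun _ => hne v⟩
  rw [h1, card_univ, Fintype.card_fin]

private theorem par_inj {n : ℕ} {π : Equiv.Perm (Fin n)} (hn : 2 ≤ n) (h : Ham π) (v : Fin n)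
    {a b : ℕ} (hab : (π ^ a) v = (π ^ b) v) : a % n = b % n := by
  obtain ⟨hc, hne, ho⟩ := par_ord hn h
  have h1 : π ^ a = π ^ b := hc.pow_eq_pow_iff.2 ⟨v, hne v, hab⟩
  have h2 := pow_eq_pow_iff_modEq.1 h1
  rw [ho] at h2
  exact h2

/-- the sorted elements of a finite set of natural numbers -/
private theorem par_sort (E : Finset ℕ) : ∃ e : ℕ → ℕ, (∀ j < E.card, e j ∈ E) ∧
    (∀ j j', j < j' → j' < E.card → e j < e j') ∧ ∀ x ∈ E, ∃ j < E.card, e j = x := by
  refine ⟨fun j => if h : j < E.card then E.orderEmbOfFin rfl ⟨j, h⟩ else 0, ?_, ?_, ?_⟩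
  · intro j hj
    simp only [dif_pos hj]
    exact E.orderEmbOfFin_mem rfl _
  · intro j j' h1 h2
    simp only [dif_pos h2, dif_pos (h1.trans h2)]
    exact (E.orderEmbOfFin rfl).strictMono (by exact h1)
  · intro x hx
    have h1 : x ∈ Set.range (E.orderEmbOfFin rfl) := by
      rw [E.range_orderEmbOfFin rfl]
      exact hx
    obtain ⟨⟨j, hj⟩, hjx⟩ := h1
    exact ⟨j, hj, by simp only [dif_pos hj]; exact hjx⟩

private theorem par_mod {N r a : ℕ} (hr : r < N) : (N * a + r) % N = r ∧ (N * a + r) / N = a := by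
  have hN : 0 < N := by omega
  refine ⟨?_, ?_⟩
  · rw [Nat.mul_add_mod, Nat.mod_eq_of_lt hr]
  · rw [Nat.mul_add_div hN, Nat.div_eq_of_lt hr, add_zero]

theorem tPar : S_Par := by
  classical
  intro n M π τ v₀ s E hH hsm hsn hEM hEv hτ hτf
  have hn0 : 0 < n := lt_of_le_of_lt (Nat.zero_le _) v₀.2
  rcases Nat.lt_or_ge n 2 with hn | hn
  · have h1 : n = 1 := by omega
    subst h1
    intro v w
    rw [Subsingleton.elim v w]
  obtain ⟨hcyc, hne, hord⟩ := par_ord hn hH
  have hπn : π ^ n = 1 := orderOf_dvd_iff_pow_eq_one.1 (dvd_of_eq hord)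
  obtain ⟨m, hm⟩ : ∃ m, m = E.card := ⟨_, rfl⟩
  rw [← hm] at hEv
  rcases Nat.eq_zero_or_pos m with hm0 | hm0
  · have hE : E = ∅ := by
      rw [← card_eq_zero, ← hm]
      exact hm0
    have hτ1 : τ = 1 := by
      ext v
      rw [hτf v (by
        intro j hj
        rw [hE] at hj
        exact absurd hj (notMem_empty j))]
      rfl
    rw [hτ1, mul_one]
    exact hH
  obtain ⟨e, he1, he2, he3⟩ := par_sort E
  rw [← hm] at he1 he2 he3
  obtain ⟨P, hP⟩ : ∃ P : ℕ → ℕ, ∀ r, P r = if r < m then s (e r) else s (M + e (r - m)) :=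
    ⟨_, fun _ => rfl⟩
  have hP1 : ∀ r, r < m → P r = s (e r) := fun r hr => by rw [hP, if_pos hr]
  have hP2 : ∀ r, P (m + r) = s (M + e r) := fun r => by
    rw [hP, if_neg (by omega), Nat.add_sub_cancel_left]
  have hPmono : ∀ r, r + 1 < 2 * m → P r < P (r + 1) := by
    intro r hr
    rcases Nat.lt_trichotomy (r + 1) m with h1 | h1 | h1
    · rw [hP1 r (by omega), hP1 (r + 1) h1]
      have h2 := hEM _ (he1 (r + 1) h1)
      exact hsm _ _ (he2 r (r + 1) (by omega) h1) (by omega)
    · rw [hP1 r (by omega), h1, show P m = s (M + e 0) from hP2 0]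
      have h2 := hEM _ (he1 r (by omega))
      have h3 := hEM _ (he1 0 hm0)
      exact hsm _ _ (by omega) (by omega)
    · obtain ⟨r', rfl⟩ : ∃ r', r = m + r' := ⟨r - m, by omega⟩
      rw [hP2, show m + r' + 1 = m + (r' + 1) by omega, hP2]
      have h2 := hEM _ (he1 (r' + 1) (by omega))
      have h3 := he2 r' (r' + 1) (by omega) (by omega)
      exact hsm _ _ (by omega) (by omega)
  have hPn : ∀ r, r < 2 * m → P r < n := by
    intro r hr
    rcases Nat.lt_or_ge r m with h1 | h1
    · rw [hP1 r h1]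
      have h2 := hEM _ (he1 r h1)
      exact hsn _ (by omega)
    · obtain ⟨r', rfl⟩ : ∃ r', r = m + r' := ⟨r - m, by omega⟩
      rw [hP2]
      have h2 := hEM _ (he1 r' (by omega))
      exact hsn _ (by omega)
  obtain ⟨N, hN⟩ : ∃ N, N = 2 * m := ⟨_, rfl⟩
  have hN0 : 0 < N := by omega
  obtain ⟨p, hp⟩ : ∃ p : ℕ → ℕ, ∀ j, p j = P (j % N) + n * (j / N) := ⟨_, fun _ => rfl⟩
  have hpr : ∀ a r, r < N → p (N * a + r) = P r + n * a := by
    intro a r hr
    rw [hp, (par_mod hr).1, (par_mod hr).2]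
  have hdec : ∀ j, ∃ a r, r < N ∧ j = N * a + r := fun j =>
    ⟨j / N, j % N, Nat.mod_lt _ hN0, (Nat.div_add_mod j N).symm⟩
  have hpmono : ∀ j, p j < p (j + 1) := by
    intro j
    obtain ⟨a, r, hr, rfl⟩ := hdec j
    rcases Nat.lt_or_ge (r + 1) N with h1 | h1
    · rw [hpr a r hr, show N * a + r + 1 = N * a + (r + 1) by omega, hpr a (r + 1) h1]
      have := hPmono r (by omega)
      omega
    · have h2 : N * a + r + 1 = N * (a + 1) + 0 := by
        rw [Nat.mul_add, mul_one]
        omega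
      rw [h2, hpr a r hr, hpr (a + 1) 0 hN0]
      have h3 := hPn r (by omega)
      have h4 : n * (a + 1) = n * a + n := by ring
      omega
  have hpsm : StrictMono p := strictMono_nat_of_lt_succ hpmono
  obtain ⟨q, hq⟩ : ∃ q : ℕ → Fin n, ∀ j, q j = (π ^ (p j)) v₀ := ⟨_, fun _ => rfl⟩
  have hqr : ∀ a r, r < N → q (N * a + r) = (π ^ (P r)) v₀ := by
    intro a r hr
    rw [hq, hpr a r hr, pow_add, pow_mul, hπn, one_pow, mul_one]
  have hqN : ∀ j, q (j + N) = q j := by
    intro j
    obtain ⟨a, r, hr, rfl⟩ := hdec j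
    rw [show N * a + r + N = N * (a + 1) + r by rw [Nat.mul_add, mul_one]; omega, hqr _ r hr,
      hqr _ r hr]
  -- the switches
  have hτq : ∀ j, τ (q j) = q (j + m) := by
    intro j
    obtain ⟨a, r, hr, rfl⟩ := hdec j
    rcases Nat.lt_or_ge r m with h1 | h1
    · rw [hqr a r hr, show N * a + r + m = N * a + (m + r) by omega, hqr a (m + r) (by omega),
        hP1 r h1, hP2]
      exact (hτ _ (he1 r h1)).1
    · obtain ⟨r', rfl⟩ : ∃ r', r = m + r' := ⟨r - m, by omega⟩
      rw [hqr a _ hr, show N * a + (m + r') + m = N * (a + 1) + r' by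
        rw [Nat.mul_add, mul_one]; omega, hqr (a + 1) r' (by omega), hP2, hP1 r' (by omega)]
      exact (hτ _ (he1 r' (by omega))).2
  have hfree : ∀ t, (∀ j, t ≠ p j) → (π * τ) ((π ^ t) v₀) = (π ^ (t + 1)) v₀ := by
    intro t ht
    have h1 : τ ((π ^ t) v₀) = (π ^ t) v₀ := by
      have h0 : ∀ r, r < N → (π ^ t) v₀ ≠ (π ^ (P r)) v₀ := by
        intro r hr hcon
        have h2 := par_inj hn hH v₀ hcon
        rw [Nat.mod_eq_of_lt (hPn r (by omega))] at h2
        refine ht (N * (t / n) + r) ?_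
        rw [hpr _ r hr, ← h2]
        have := Nat.div_add_mod t n
        omega
      refine hτf _ fun j hj => ?_
      obtain ⟨r, hr, rfl⟩ := he3 j hj
      refine ⟨?_, ?_⟩
      · rw [← hP1 r hr]
        exact h0 r (by omega)
      · rw [← hP2 r]
        exact h0 (m + r) (by omega)
    rw [Equiv.Perm.mul_apply, h1, ← Equiv.Perm.mul_apply, ← pow_succ']
  have hfree' : ∀ t, (∀ j, t ≠ p j) → (π * τ).SameCycle ((π ^ t) v₀) ((π ^ (t + 1)) v₀) := by
    intro t ht
    rw [← hfree t ht]
    exact Equiv.Perm.sameCycle_apply_right.2 (Equiv.Perm.SameCycle.refl _ _)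
  have hseg : ∀ j d t, p j < t → t + d = p (j + 1) →
      (π * τ).SameCycle ((π ^ t) v₀) (q (j + 1)) := by
    intro j d
    induction d with
    | zero =>
      intro t _ h2
      rw [hq, ← h2, add_zero]
    | succ d ih =>
      intro t h1 h2
      refine (hfree' t ?_).trans (ih (t + 1) (by omega) (by omega))
      intro j' hj'
      rw [hj'] at h1 h2
      have h3 : j < j' := hpsm.lt_iff_lt.1 h1
      have h4 : j' < j + 1 := hpsm.lt_iff_lt.1 (by omega)
      omega
  have hstep : ∀ j, (π * τ).SameCycle (q j) (q (j + (m + 1))) := by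
    intro j
    have h1 : (π * τ) (q j) = (π ^ (p (j + m) + 1)) v₀ := by
      rw [Equiv.Perm.mul_apply, hτq, hq, ← Equiv.Perm.mul_apply, ← pow_succ']
    have h2 : (π * τ).SameCycle (q j) ((π ^ (p (j + m) + 1)) v₀) := by
      rw [← h1]
      exact Equiv.Perm.sameCycle_apply_right.2 (Equiv.Perm.SameCycle.refl _ _)
    refine h2.trans ?_
    have h3 := hpmono (j + m)
    exact hseg (j + m) (p (j + m + 1) - (p (j + m) + 1)) _ (by omega) (by omega)
  have hstep2 : ∀ j, (π * τ).SameCycle (q j) (q (j + 2)) := by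
    intro j
    have h1 := (hstep j).trans (hstep (j + (m + 1)))
    rw [show j + (m + 1) + (m + 1) = j + 2 + N by omega, hqN] at h1
    exact h1
  have heven : ∀ i j, (π * τ).SameCycle (q j) (q (j + 2 * i)) := by
    intro i
    induction i with
    | zero => intro j; exact Equiv.Perm.SameCycle.refl _ _
    | succ i ih =>
      intro j
      exact (ih j).trans (by
        rw [show j + 2 * (i + 1) = j + 2 * i + 2 by ring]
        exact hstep2 _)
  obtain ⟨u, hu⟩ := hEv
  have hall : ∀ j, (π * τ).SameCycle (q 0) (q j) := by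
    intro j
    rcases Nat.even_or_odd' j with ⟨c, hc | hc⟩
    · have h1 := heven c 0
      rw [zero_add, ← hc] at h1
      exact h1
    · have h1 := hstep 0
      rw [zero_add] at h1
      have h2 := heven c (m + 1)
      have h3 := heven u j
      rw [show m + 1 + 2 * c = j + 2 * u by omega] at h2
      exact h1.trans (h2.trans h3.symm)
  have hdown : ∀ K d t, t + d = p (N * K) → (π * τ).SameCycle (q 0) ((π ^ t) v₀) := by
    intro K d
    induction d with
    | zero =>
      intro t h2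
      rw [add_zero] at h2
      rw [h2, ← hq]
      exact hall _
    | succ d ih =>
      intro t h2
      by_cases h : ∃ j, t = p j
      · obtain ⟨j, rfl⟩ := h
        rw [← hq]
        exact hall j
      · push Not at h
        exact (ih (t + 1) (by omega)).trans (hfree' t h).symm
  have hv : ∀ v, (π * τ).SameCycle (q 0) v := by
    intro v
    obtain ⟨t, ht⟩ := (hH v₀ v).exists_nat_pow_eq
    rw [← ht]
    have h1 : t ≤ p (N * t) := by
      rw [show N * t = N * t + 0 from rfl, hpr t 0 hN0]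
      have : 1 * t ≤ n * t := Nat.mul_le_mul_right t hn0
      omega
    exact hdown t (p (N * t) - t) t (by omega)
  intro v w
  exact (hv v).symm.trans (hv w)

end Pool.Agent.MPd266dbE
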