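import Pool.Agent.Lib.MP_d266db_co.E.LwL

/-!
# MP_d266db_co, E, Per: two classes, one of the types `(a, a)` is large
-/

set_option autoImplicit false

namespace Pool.Agent.MPd266dbE

open Finset Pool.Agent.MPd266db Pool.Agent.MPd266dbH

section

variable {n : ℕ}

private theorem per_card (R : Finset (Fin n × Fin n)) : R.card = ∑ v, od R v := by
  rw [← eb_univ_right]
  unfold eb
  rw [filter_true_of_mem]
  intro e _
  exact ⟨mem_univ _, mem_univ _⟩

private theorem per_reg {R : Finset (Fin n × Fin n)} {r : ℕ} (h : Reg R r) :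
    R.card = r * n := by
  rw [per_card, sum_congr rfl fun v _ => (h v).1, sum_const, card_univ, Fintype.card_fin,
    smul_eq_mul, mul_comm]

private theorem per_semi {E : Finset (Fin n × Fin n)} (h : Semi E) : 3 * n * n ≤ 8 * E.card := by
  rw [per_card, mul_sum]
  calc 3 * n * n = ∑ _v : Fin n, 3 * n := by
        rw [sum_const, card_univ, Fintype.card_fin, smul_eq_mul, mul_comm]
    _ ≤ _ := sum_le_sum fun v _ => (h v).1

private theorem per_oc {K : ℕ} (o i : Fin n → Fin K) (R : Finset (Fin n × Fin n)) :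
    (own o i R).card + (crs o i R).card = R.card := by
  unfold own crs
  exact card_filter_add_card_filter_not _

private theorem per_ori {E : Finset (Fin n × Fin n)} (hE : Ori E) (A B : Finset (Fin n)) :
    eb E A B + eb E B A ≤ A.card * B.card := by
  classical
  rw [← eb_rev (E := E) (X := A) (Y := B), ← card_product]
  unfold eb
  rw [← card_union_of_disjoint]
  · refine card_le_card fun e he => ?_
    rw [mem_union, mem_filter, mem_filter] at he
    rw [mem_product]
    rcases he with he | he
    · exact he.2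
    · exact he.2
  · rw [disjoint_left]
    rintro ⟨u, v⟩ h1 h2
    rw [mem_filter] at h1 h2
    exact hE u v h1.1 (mem_rev.1 h2.1)

private theorem per_own {E : Finset (Fin n × Fin n)} (hE : Ori E) (o i : Fin n → Fin 2) :
    (own o i E).card ≤ (Cl o 0).card * (Cl o 1).card +
      n * (univ.filter (fun v => o v = i v)).card := by
  classical
  have h0 : ∀ x : Fin 2, x = 0 ∨ x = 1 := by decide
  have h1 : (own o i E).card ≤ eb E (Cl o 0) (Cl o 1) + eb E (Cl o 1) (Cl o 0) +
      eb E univ (univ.filter (fun v => o v = i v)) := by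
    unfold eb
    refine (card_le_card ?_).trans ((card_union_le _ _).trans
      (Nat.add_le_add_right (card_union_le _ _) _))
    intro e he
    simp only [own, Cl, mem_union, mem_filter, mem_univ, true_and] at he ⊢
    obtain ⟨he1, he2⟩ := he
    rcases h0 (o e.1) with h3 | h3 <;> rcases h0 (o e.2) with h4 | h4
    · exact Or.inr ⟨he1, by rw [← he2, h3, h4]⟩
    · exact Or.inl (Or.inl ⟨he1, h3, h4⟩)
    · exact Or.inl (Or.inr ⟨he1, h3, h4⟩)
    · exact Or.inr ⟨he1, by rw [← he2, h3, h4]⟩
  have h2 := per_ori hE (Cl o 0) (Cl o 1)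
  have h3 := eb_le_card_mul E univ (univ.filter (fun v => o v = i v))
  rw [card_univ, Fintype.card_fin] at h3
  omega

private theorem per_dg (o i : Fin n → Fin 2) : (univ.filter (fun v => o v = i v)).card ≤
    (Cl o 0 ∩ Cl i 0).card + (Cl o 1 ∩ Cl i 1).card := by
  classical
  have h0 : ∀ x : Fin 2, x = 0 ∨ x = 1 := by decide
  refine (card_le_card ?_).trans (card_union_le _ _)
  intro v hv
  simp only [Cl, mem_union, mem_inter, mem_filter, mem_univ, true_and] at hv ⊢
  rcases h0 (o v) with h1 | h1
  · exact Or.inl ⟨h1, hv ▸ h1⟩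
  · exact Or.inr ⟨h1, hv ▸ h1⟩

private theorem per_cl (o : Fin n → Fin 2) : (Cl o 0).card + (Cl o 1).card = n := by
  classical
  have h0 : ∀ x : Fin 2, x = 0 ∨ x = 1 := by decide
  have h1 : Cl o 1 = univ.filter (fun v => ¬ o v = 0) := by
    ext v
    simp only [Cl, mem_filter, mem_univ, true_and]
    rcases h0 (o v) with h2 | h2 <;> rw [h2] <;> decide
  rw [h1]
  unfold Cl
  rw [card_filter_add_card_filter_not, card_univ, Fintype.card_fin]

end

theorem tPer (hPot : S_Pot) (hLwL : S_LwL) (hHiL : S_HiL) : S_Per := by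
  classical
  intro n r E R o i hn hO hS hr hRE hR hmax hc
  by_contra hcon
  push Not at hcon
  obtain ⟨N, hN⟩ : ∃ N : ℝ, N = (n : ℝ) := ⟨_, rfl⟩
  obtain ⟨x, hx⟩ : ∃ x : ℝ, x = (r : ℝ) := ⟨_, rfl⟩
  have hN6 : 1000000 ≤ N := by rw [hN]; exact_mod_cast hn
  have hN0 : 0 < N := by linarith
  have hx1 : 3 * N < 16 * (x + 1) := by rw [hN, hx]; exact_mod_cast hr
  have hcR : 10000000000 * ((crs o i R).card : ℝ) < N ^ 2 := by rw [hN]; exact_mod_cast hc
  -- (0)
  have hdR : 100000 * ((univ.filter (fun v => o v = i v)).card : ℝ) ≤ 2 * N := by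
    have h1 := per_dg o i
    have h2 := hcon 0
    have h3 := hcon 1
    rw [hN]
    exact_mod_cast (by omega : 100000 * (univ.filter (fun v => o v = i v)).card ≤ 2 * n)
  have hown : ((own o i E).card : ℝ) ≤ N ^ 2 / 4 + 2 * N ^ 2 / 100000 := by
    have h1 := per_own hO o i
    have h2 := per_cl o
    have h1' : ((own o i E).card : ℝ) ≤ (Cl o 0).card * (Cl o 1).card +
        N * (univ.filter (fun v => o v = i v)).card := by
      rw [hN]
      exact_mod_cast h1
    have h2' : ((Cl o 0).card : ℝ) + (Cl o 1).card = N := by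
      rw [hN]
      exact_mod_cast h2
    have h3 : ((Cl o 0).card : ℝ) * (Cl o 1).card ≤ N ^ 2 / 4 := by
      rw [← h2']
      nlinarith [sq_nonneg (((Cl o 0).card : ℝ) - (Cl o 1).card)]
    have h4 : N * (100000 * ((univ.filter (fun v => o v = i v)).card : ℝ)) ≤ N * (2 * N) :=
      mul_le_mul_of_nonneg_left hdR hN0.le
    nlinarith
  -- (1)
  have hRc : ((own o i R).card : ℝ) + (crs o i R).card = x * N := by
    have h1 := per_oc o i R
    rw [per_reg hR] at h1
    rw [hx, hN]
    exact_mod_cast h1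
  have hmon : ((own o i R).card : ℝ) ≤ (own o i E).card := by
    exact_mod_cast card_le_card (filter_subset_filter _ hRE)
  have hx2 : x ≤ (1 / 4 + 3 / 100000) * N := by
    have h1 : x * N ≤ (1 / 4 + 3 / 100000) * N * N := by nlinarith
    exact le_of_mul_le_mul_right h1 hN0
  -- (2)
  obtain ⟨lam, mu, hP⟩ := hPot n r 2 E R o i hRE hR hmax
  obtain ⟨t, ht1, ht2, ⟨u₀, hu0, hu0t⟩, ht4⟩ := hLwL n r 2 E R o i lam mu hn hS hr hRE hR hP hc
  obtain ⟨t', hs1, hs2, ⟨v₀, hv0, hv0t⟩, hs4⟩ := hHiL n r 2 E R o i lam mu hn hS hr hRE hR hP hc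
  have hle : t ≤ t' := by
    have := hs2 u₀ hu0
    omega
  have hXT := lwl_XT R o i (by omega) hc
  have hXH := lwl_XH R o i (by omega) hc
  rcases hle.eq_or_lt with heq | hlt
  · -- all levels are equal
    have h1 : (crs o i E).card ≤ (crs o i R).card + (eb E (XT R o i) univ + eb E univ (XH R o i)) := by
      unfold eb
      refine (card_le_card ?_).trans ((card_union_le _ _).trans
        (Nat.add_le_add_left (card_union_le _ _) _))
      rintro ⟨u, v⟩ he
      simp only [crs, mem_union, mem_filter, mem_univ, true_and, and_true] at he ⊢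
      by_cases h2 : (u, v) ∈ R
      · exact Or.inl ⟨h2, he.2⟩
      · right
        by_cases h3 : u ∈ XT R o i
        · exact Or.inl ⟨he.1, h3⟩
        · by_cases h4 : v ∈ XH R o i
          · exact Or.inr ⟨he.1, h4⟩
          · exfalso
            have h5 := (hP.1 u v he.1 h2).2 he.2
            have h6 := hs2 u h3
            have h7 := ht2 v h4
            omega
    have h2 := eb_le_card_mul E (XT R o i) univ
    have h3 := eb_le_card_mul E univ (XH R o i)
    rw [card_univ, Fintype.card_fin] at h2 h3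
    have h4 := per_oc o i E
    have h5 := per_semi hS
    have h1' : ((crs o i E).card : ℝ) ≤ (crs o i R).card + ((XT R o i).card * N +
        N * (XH R o i).card) := by
      rw [hN]
      exact_mod_cast h1.trans (Nat.add_le_add_left (Nat.add_le_add h2 h3) _)
    have h4' : ((own o i E).card : ℝ) + (crs o i E).card = E.card := by exact_mod_cast h4
    have h5' : 3 * N * N ≤ 8 * (E.card : ℝ) := by
      rw [hN]
      exact_mod_cast h5
    have h6 : 100000 * ((XT R o i).card : ℝ) ≤ N := by
      rw [hN]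
      exact_mod_cast hXT
    have h7 : 100000 * ((XH R o i).card : ℝ) ≤ N := by
      rw [hN]
      exact_mod_cast hXH
    have h8 : (100000 * ((XT R o i).card : ℝ)) * N ≤ N * N := mul_le_mul_of_nonneg_right h6 hN0.le
    have h9 : N * (100000 * ((XH R o i).card : ℝ)) ≤ N * N := mul_le_mul_of_nonneg_left h7 hN0.le
    have h10 : 0 < N * N := by positivity
    nlinarith
  · -- (3)
    obtain ⟨h1a, h1b, -⟩ := ht4 (o u₀)
    obtain ⟨h2a, h2b, -⟩ := hs4 (i v₀)
    obtain ⟨O, hOd⟩ : ∃ O, O = LO R o i lam t (o u₀) := ⟨_, rfl⟩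
    obtain ⟨I, hId⟩ : ∃ I, I = LI R o i mu t (o u₀) := ⟨_, rfl⟩
    obtain ⟨O', hOd'⟩ : ∃ O', O' = LO R o i lam t' (i v₀) := ⟨_, rfl⟩
    obtain ⟨I', hId'⟩ : ∃ I', I' = LI R o i mu t' (i v₀) := ⟨_, rfl⟩
    rw [← hOd, ← hId] at h1a h1b
    rw [← hOd', ← hId'] at h2a h2b
    have mO : ∀ u ∈ O, lam u = t ∧ o u = o u₀ := by
      intro u hu
      rw [hOd] at hu
      simp only [LO, mem_filter, mem_univ, true_and] at hu
      exact hu.2
    have mI : ∀ u ∈ I, mu u = t ∧ i u = o u₀ := by
      intro u hu
      rw [hId] at hu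
      simp only [LI, mem_filter, mem_univ, true_and] at hu
      exact hu.2
    have mO' : ∀ u ∈ O', lam u = t' ∧ o u = i v₀ := by
      intro u hu
      rw [hOd'] at hu
      simp only [LO, mem_filter, mem_univ, true_and] at hu
      exact hu.2
    have mI' : ∀ u ∈ I', mu u = t' ∧ i u = i v₀ := by
      intro u hu
      rw [hId'] at hu
      simp only [LI, mem_filter, mem_univ, true_and] at hu
      exact hu.2
    have hu0O : u₀ ∈ O := by
      rw [hOd]
      simp only [LO, mem_filter, mem_univ, true_and]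
      exact ⟨hu0, hu0t, trivial⟩
    have hv0I : v₀ ∈ I' := by
      rw [hId']
      simp only [LI, mem_filter, mem_univ, true_and]
      exact ⟨hv0, hv0t, trivial⟩
    have hpos : 0 < 3 * N / 8 - x - N / 100000 := by nlinarith
    rw [← hN, ← hx] at h1a h1b h2a h2b
    have hOc : x - 2 * (N / 100000) ≤ O.card := by
      have h3 := (h1a u₀ hu0O).1
      have h4 : 0 < (I.filter (fun v => (u₀, v) ∈ E ∧ (u₀, v) ∉ R)).card := by
        have : (0 : ℝ) < ((I.filter (fun v => (u₀, v) ∈ E ∧ (u₀, v) ∉ R)).card : ℝ) := by linarith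
        exact_mod_cast this
      obtain ⟨v, hv⟩ := card_pos.1 h4
      exact h1b v (mem_filter.1 hv).1
    have hIc : x - 2 * (N / 100000) ≤ I'.card := by
      have h3 := (h2a v₀ hv0I).1
      have h4 : 0 < (O'.filter (fun u => (u, v₀) ∈ E ∧ (u, v₀) ∉ R)).card := by
        have : (0 : ℝ) < ((O'.filter (fun u => (u, v₀) ∈ E ∧ (u, v₀) ∉ R)).card : ℝ) := by linarith
        exact_mod_cast this
      obtain ⟨v, hv⟩ := card_pos.1 h4
      exact h2b v (mem_filter.1 hv).1
    have hb1 : (3 * N / 8 - x - N / 100000) * O.card ≤ eb (E \ R) O I := by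
      rw [lwl_eb_out]
      push_cast
      rw [mul_comm, ← nsmul_eq_mul, ← sum_const]
      refine sum_le_sum fun u hu => ?_
      refine ((h1a u hu).1).trans (le_of_eq ?_)
      simp only [mem_sdiff]
    have hb2 : (3 * N / 8 - x - N / 100000) * I'.card ≤ eb (E \ R) O' I' := by
      rw [lwl_eb_in]
      push_cast
      rw [mul_comm, ← nsmul_eq_mul, ← sum_const]
      refine sum_le_sum fun u hu => ?_
      refine ((h2a u hu).1).trans (le_of_eq ?_)
      simp only [mem_sdiff]
    have hb3 : (own o i R).card + (eb (E \ R) O I + eb (E \ R) O' I') ≤ (own o i E).card := by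
      unfold eb
      rw [← card_union_of_disjoint, ← card_union_of_disjoint]
      · refine card_le_card fun e he => ?_
        simp only [own, mem_union, mem_filter, mem_sdiff] at he ⊢
        rcases he with he | he | he
        · exact ⟨hRE he.1, he.2⟩
        · exact ⟨he.1.1, by rw [(mO _ he.2.1).2, (mI _ he.2.2).2]⟩
        · exact ⟨he.1.1, by rw [(mO' _ he.2.1).2, (mI' _ he.2.2).2]⟩
      · rw [disjoint_left]
        intro e he he'
        simp only [own, mem_union, mem_filter, mem_sdiff] at he he'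
        rcases he' with he' | he'
        · exact he'.1.2 he.1
        · exact he'.1.2 he.1
      · rw [disjoint_left]
        intro e he he'
        simp only [mem_filter, mem_sdiff] at he he'
        have h3 := (mO _ he.2.1).1
        have h4 := (mO' _ he'.2.1).1
        omega
    have hb3' : ((own o i R).card : ℝ) + (eb (E \ R) O I + eb (E \ R) O' I') ≤ (own o i E).card := by
      exact_mod_cast hb3
    have hb4 : (3 * N / 8 - x - N / 100000) * (x - 2 * (N / 100000)) ≤ eb (E \ R) O I :=
      (mul_le_mul_of_nonneg_left hOc hpos.le).trans hb1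
    have hb5 : (3 * N / 8 - x - N / 100000) * (x - 2 * (N / 100000)) ≤ eb (E \ R) O' I' :=
      (mul_le_mul_of_nonneg_left hIc hpos.le).trans hb2
    have hx3 : (3 / 16 - 1 / 100000) * N ≤ x := by linarith
    have hq : x * N - N ^ 2 / 10000000000 + 2 * ((3 * N / 8 - x - N / 100000) * (x - 2 * (N / 100000))) ≤
        N ^ 2 / 4 + 2 * N ^ 2 / 100000 := by linarith
    have hq1 : 0 ≤ (x - (3 / 16 - 1 / 100000) * N) * ((1 / 4 + 3 / 100000) * N - x) :=
      mul_nonneg (by linarith) (by linarith)
    have hq2 : 0 ≤ (x - (3 / 16 - 1 / 100000) * N) * N := mul_nonneg (by linarith) hN0.le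
    have hq3 : 0 < N * N := by positivity
    nlinarith

end Pool.Agent.MPd266dbE
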