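import Pool.Agent.Lib.MP_d266db_co.E.SpecD

/-!
# MP_d266db_co, E: parities
-/

set_option autoImplicit false

namespace Pool.Agent.MPd266dbE

open Finset Pool.Agent.MPd266db Pool.Agent.MPd266dbH

private lemma pfx_sum (G : ℕ) (hG : 3 ≤ G) (x : ℕ) :
    ∑ g ∈ range G, (if g < 3 then x else 0) = 3 * x := by
  obtain ⟨m, rfl⟩ : ∃ m, G = 3 + m := ⟨G - 3, by omega⟩
  rw [Finset.sum_range_add]
  have h1 : ∑ i ∈ range m, (if 3 + i < 3 then x else 0) = 0 :=
    Finset.sum_eq_zero fun i _ => if_neg (by omega)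
  rw [h1]
  simp [Finset.sum_range_succ]
  ring

theorem tPfx : S_Pfx := by
  intro G a hG
  set z : Bool := decide (Odd (∑ g ∈ range G, a g)) with hz
  set b : ℕ → ℕ := fun g => a g + (if g < 3 ∧ z = true then 1 else 0) with hb
  set B : ℕ → ℕ := fun g => ∑ g' ∈ range g, b g' with hB
  have hBs : ∀ g, B (g + 1) = B g + b g := fun g => Finset.sum_range_succ _ _
  have hB0 : B 0 = 0 := Finset.sum_range_zero _
  have hBG : B G % 2 = 0 := by
    have h1 : B G = ∑ g ∈ range G, a g + 3 * (if z = true then 1 else 0) := by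
      rw [← pfx_sum G hG, ← Finset.sum_add_distrib]
      refine Finset.sum_congr rfl fun g _ => ?_
      simp only [hb]
      congr 1
      by_cases h1 : g < 3 <;> by_cases h2 : z = true <;> simp [h1, h2]
    rw [h1]
    by_cases h2 : z = true
    · rw [if_pos h2]
      have h3 : Odd (∑ g ∈ range G, a g) := by simpa [hz] using h2
      rw [Nat.odd_iff] at h3
      omega
    · rw [if_neg h2]
      have h3 : ¬ Odd (∑ g ∈ range G, a g) := by simpa [hz] using h2
      rw [Nat.odd_iff] at h3
      omega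
  refine ⟨z, fun g => decide (Odd (B (g + 1))), fun g hg => ?_⟩
  rw [Nat.even_iff]
  have h1 : a g + (if g < 3 ∧ z = true then 1 else 0) = b g := rfl
  rw [h1]
  simp only [decide_eq_true_eq, Nat.odd_iff]
  rcases Nat.eq_zero_or_pos g with rfl | hg0
  · have h2 : ¬ (1 ≤ 0 ∧ B (0 - 1 + 1) % 2 = 1) := by simp
    rw [if_neg h2]
    have h3 := hBs 0
    have h4 : 0 + 1 < G := by omega
    split_ifs with h5 <;> omega
  · have h2 : g - 1 + 1 = g := by omega
    rw [h2]
    have h3 := hBs g
    rcases Nat.lt_or_ge (g + 1) G with h4 | h4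
    · split_ifs with h5 h6 h6 <;> omega
    · have h5 : g + 1 = G := by omega
      rw [h5] at h3
      split_ifs with h6 h7 h7 <;> omega

end Pool.Agent.MPd266dbE
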