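import Pool.Agent.Lib.MP_d266db_co.E.SpecI

/-!
# MP_d266db_co, E: proof of `S_Phi` (coarsening)
-/

set_option autoImplicit false

namespace Pool.Agent.MPd266dbE

open Finset Pool.Agent.MPd266db Pool.Agent.MPd266dbH

private theorem phi_memCl {n K : ℕ} {o : Fin n → Fin K} {a : Fin K} {v : Fin n} :
    v ∈ Cl o a ↔ o v = a := by simp [Cl]

private theorem phi_crs {n K : ℕ} (o i : Fin n → Fin K) (R : Finset (Fin n × Fin n)) :
    (crs o i R).card = ∑ c, eb R (Cl o c) (Cl i c)ᶜ := by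
  classical
  rw [card_eq_sum_card_fiberwise (f := fun e : Fin n × Fin n => o e.1) (t := univ)
    (fun e _ => mem_coe.2 (mem_univ _))]
  refine sum_congr rfl fun c _ => ?_
  unfold eb crs
  congr 1
  ext e
  simp only [mem_filter, phi_memCl, mem_compl]
  constructor
  · rintro ⟨⟨h1, h2⟩, h3⟩
    exact ⟨h1, h3, fun h4 => h2 (h3.trans h4.symm)⟩
  · rintro ⟨h1, h2, h3⟩
    exact ⟨⟨h1, fun h4 => h3 (h4.symm.trans h2)⟩, h2⟩

private theorem phi_sum {n K : ℕ} (o : Fin n → Fin K) (S : Finset (Fin n)) :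
    S.card = ∑ c, (S ∩ Cl o c).card := by
  classical
  rw [card_eq_sum_card_fiberwise (f := o) (t := univ) (fun e _ => mem_coe.2 (mem_univ _))]
  refine sum_congr rfl fun c _ => ?_
  congr 1
  ext v
  simp only [mem_filter, mem_inter, phi_memCl]

private theorem phi_sum' {n K : ℕ} (o : Fin n → Fin K) (S : Finset (Fin n)) :
    S.card = ∑ c, (Cl o c ∩ S).card := by
  rw [phi_sum o S]
  refine sum_congr rfl fun c _ => ?_
  rw [inter_comm]

/-- few cross arcs of the average give few cross arcs -/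
private theorem phi_few {n K' K0 : ℕ} {R R'' : Finset (Fin n × Fin n)} {o' i' : Fin n → Fin K'}
    {ε1 : ℝ} (hε : 0 < ε1) (hK' : K' ≤ K0)
    (hX : ∀ X Y : Finset (Fin n), (eb R X Y : ℝ) ≤ 2 * eb R'' X Y + ε1 * (n : ℝ) ^ 2)
    (hcr : ((crs o' i' R'').card : ℝ) ≤ ε1 * (n : ℝ) ^ 2) :
    ((crs o' i' R).card : ℝ) ≤ ((K0 : ℝ) ^ 2 + 2) * ε1 * (n : ℝ) ^ 2 := by
  have h1 : ((crs o' i' R).card : ℝ) ≤ 2 * ((crs o' i' R'').card : ℝ) + K' * (ε1 * (n : ℝ) ^ 2) := by
    rw [phi_crs o' i' R, phi_crs o' i' R'']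
    push_cast
    rw [mul_sum]
    calc ∑ c, (eb R (Cl o' c) (Cl i' c)ᶜ : ℝ)
        ≤ ∑ c, (2 * (eb R'' (Cl o' c) (Cl i' c)ᶜ : ℝ) + ε1 * (n : ℝ) ^ 2) :=
          sum_le_sum fun c _ => hX _ _
      _ = _ := by
          rw [sum_add_distrib, sum_const, card_univ, Fintype.card_fin, nsmul_eq_mul]
  have h2 : (K' : ℝ) ≤ (K0 : ℝ) ^ 2 := by
    have h3 : K' ≤ K0 ^ 2 := by nlinarith
    exact_mod_cast h3
  have h4 : 0 ≤ ε1 * (n : ℝ) ^ 2 := by positivity
  nlinarith

/-- the two ways in which a class `a` can be related to a class `c` -/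
private theorem phi_alt {n K K' : ℕ} {R : Finset (Fin n × Fin n)} {o i : Fin n → Fin K}
    {o' i' : Fin n → Fin K'} {β ν ε2 : ℝ} (hn : 1 ≤ n) (hν : ε2 < ν) (hRob : Rob o i R β ν)
    (hc : ((crs o' i' R).card : ℝ) ≤ ε2 * (n : ℝ) ^ 2) (a : Fin K) (c : Fin K') :
    ((Cl o a ∩ Cl o' c).card : ℝ) < β * n ∨
      (((Cl o a \ Cl o' c).card : ℝ) < β * n ∧ ((Cl i a \ Cl i' c).card : ℝ) < β * n) := by
  classical
  by_contra hcon
  rw [not_or, not_lt, not_and_or, not_lt, not_lt] at hcon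
  obtain ⟨h1, h2⟩ := hcon
  set X := Cl o a ∩ Cl o' c with hX
  set Y := Cl i a \ Cl i' c with hY
  have e1 : Cl o a \ X = Cl o a \ Cl o' c := by
    rw [hX]
    ext v
    simp only [mem_sdiff, mem_inter]
    tauto
  have hr := hRob a X Y inter_subset_left sdiff_subset
    (h1.trans (by have : (0 : ℝ) ≤ (Cl i a \ Y).card := Nat.cast_nonneg _; linarith))
    (by
      rw [e1]
      rcases h2 with h2 | h2
      · have : (0 : ℝ) ≤ (Y.card : ℝ) := Nat.cast_nonneg _
        linarith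
      · have : (0 : ℝ) ≤ ((Cl o a \ Cl o' c).card : ℝ) := Nat.cast_nonneg _
        linarith)
  have h3 : eb R X Y + eb R (Cl o a \ X) (Cl i a \ Y) ≤ (crs o' i' R).card := by
    unfold eb
    rw [← card_union_of_disjoint]
    · apply card_le_card
      intro e he
      rw [mem_union] at he
      unfold crs
      rw [mem_filter]
      rcases he with he | he
      · simp only [mem_filter, hX, hY, mem_inter, mem_sdiff, phi_memCl] at he
        refine ⟨he.1, fun h4 => he.2.2.2 ?_⟩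
        rw [← h4]
        exact he.2.1.2
      · simp only [mem_filter, hX, hY, mem_inter, mem_sdiff, phi_memCl] at he
        refine ⟨he.1, fun h4 => ?_⟩
        have h5 : i' e.2 = c := by
          by_contra h6
          exact he.2.2.2 ⟨he.2.2.1, h6⟩
        exact he.2.1.2 ⟨he.2.1.1, h4.trans h5⟩
    · rw [disjoint_left]
      intro e he he'
      simp only [mem_filter, mem_sdiff] at he he'
      exact he'.2.1.2 he.2.1
  have h4 : ((eb R X Y : ℝ) + eb R (Cl o a \ X) (Cl i a \ Y)) ≤ ε2 * (n : ℝ) ^ 2 := by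
    refine le_trans ?_ hc
    exact_mod_cast h3
  have h5 : (0 : ℝ) < (n : ℝ) ^ 2 := by
    have : (0 : ℝ) < n := by exact_mod_cast hn
    positivity
  nlinarith

/-- vertices in a wrong class are few -/
private theorem phi_M {n r K K' K0 : ℕ} {R : Finset (Fin n × Fin n)} {o i : Fin n → Fin K}
    {o' i' : Fin n → Fin K'} {φ : Fin K → Fin K'} {α β ε2 : ℝ} (hn : 1 ≤ n) (hα : 0 < α)
    (hb : 4 * K0 * β ≤ α) (hK : K ≤ K0) (hr : α * n ≤ r) (hodo : ∀ v, r ≤ K * od (own o i R) v)
    (hd : ∀ a, ((Cl i a \ Cl i' (φ a)).card : ℝ) < β * n)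
    (hc : ((crs o' i' R).card : ℝ) ≤ ε2 * (n : ℝ) ^ 2) :
    α * ((univ.filter (fun v => o' v ≠ φ (o v))).card : ℝ) ≤ 2 * K0 * ε2 * n := by
  classical
  set M := univ.filter (fun v => o' v ≠ φ (o v)) with hM
  have hn0 : (0 : ℝ) < n := by exact_mod_cast hn
  have key : ∀ v ∈ M, α * n ≤ 2 * (K0 * (od (crs o' i' R) v : ℝ)) := by
    intro v hv
    rw [hM, mem_filter] at hv
    have h1 : od (own o i R) v ≤ od (crs o' i' R) v + (Cl i (o v) \ Cl i' (φ (o v))).card := by
      unfold od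
      rw [← card_image_of_injective (Cl i (o v) \ Cl i' (φ (o v)))
        (f := fun w => ((v, w) : Fin n × Fin n)) (fun w w' h => (Prod.mk.inj h).2)]
      refine le_trans (card_le_card ?_) (card_union_le _ _)
      intro e he
      simp only [own, mem_filter] at he
      rw [mem_union]
      by_cases h2 : i' e.2 = φ (o v)
      · left
        simp only [crs, mem_filter]
        refine ⟨⟨he.1.1, fun h3 => hv.2 ?_⟩, he.2⟩
        rw [← he.2, h3, h2, he.2]
      · right
        rw [mem_image]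
        refine ⟨e.2, ?_, ?_⟩
        · simp only [mem_sdiff, phi_memCl]
          refine ⟨?_, h2⟩
          rw [← he.1.2, he.2]
        · rw [← he.2]
    have h2 : (r : ℝ) ≤ K0 * ((od (crs o' i' R) v : ℝ) + β * n) := by
      have h3 : (r : ℝ) ≤ K * (od (own o i R) v : ℝ) := by exact_mod_cast hodo v
      have h4 : (od (own o i R) v : ℝ) ≤ (od (crs o' i' R) v : ℝ) +
          (Cl i (o v) \ Cl i' (φ (o v))).card := by exact_mod_cast h1
      have h5 : (K : ℝ) ≤ K0 := by exact_mod_cast hK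
      have h6 := hd (o v)
      have h7 : (0 : ℝ) ≤ (od (own o i R) v : ℝ) := Nat.cast_nonneg _
      have h8 : (0 : ℝ) ≤ (K0 : ℝ) := Nat.cast_nonneg _
      calc (r : ℝ) ≤ K * (od (own o i R) v : ℝ) := h3
        _ ≤ K0 * (od (own o i R) v : ℝ) := by gcongr
        _ ≤ K0 * ((od (crs o' i' R) v : ℝ) + β * n) := by
            apply mul_le_mul_of_nonneg_left _ h8
            linarith
    have h9 : 4 * K0 * β * n ≤ α * n := mul_le_mul_of_nonneg_right hb hn0.le
    nlinarith
  have h1 : ∑ v ∈ M, (od (crs o' i' R) v : ℝ) ≤ ε2 * (n : ℝ) ^ 2 := by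
    refine le_trans ?_ hc
    have h2 : ∑ v ∈ M, od (crs o' i' R) v ≤ (crs o' i' R).card := by
      rw [← eb_univ_right]
      unfold eb
      exact card_filter_le _ _
    exact_mod_cast h2
  have h2 : (M.card : ℝ) * (α * n) ≤ 2 * (K0 * (ε2 * (n : ℝ) ^ 2)) := by
    calc (M.card : ℝ) * (α * n) = ∑ v ∈ M, α * n := by rw [sum_const, nsmul_eq_mul]
      _ ≤ ∑ v ∈ M, 2 * (K0 * (od (crs o' i' R) v : ℝ)) := sum_le_sum key
      _ = 2 * (K0 * ∑ v ∈ M, (od (crs o' i' R) v : ℝ)) := by rw [← mul_sum, ← mul_sum]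
      _ ≤ 2 * (K0 * (ε2 * (n : ℝ) ^ 2)) := by gcongr
  have h3 : (α * (M.card : ℝ)) * n ≤ (2 * K0 * ε2 * n) * n := by nlinarith
  exact le_of_mul_le_mul_right h3 hn0

private theorem phi_own_rev {n K : ℕ} (o i : Fin n → Fin K) (R : Finset (Fin n × Fin n)) :
    own i o (rev R) = rev (own o i R) := by
  ext ⟨u, v⟩
  rw [mem_rev]
  simp only [own, mem_filter, mem_rev]
  exact ⟨fun h => ⟨h.1, h.2.symm⟩, fun h => ⟨h.1, h.2.symm⟩⟩

private theorem phi_crs_rev {n K : ℕ} (o i : Fin n → Fin K) (R : Finset (Fin n × Fin n)) :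
    (crs i o (rev R)).card = (crs o i R).card := by
  have h : crs i o (rev R) = rev (crs o i R) := by
    ext ⟨u, v⟩
    rw [mem_rev]
    simp only [crs, mem_filter, mem_rev]
    exact ⟨fun h => ⟨h.1, fun h2 => h.2 h2.symm⟩, fun h => ⟨h.1, fun h2 => h.2 h2.symm⟩⟩
  rw [h]
  unfold rev
  rw [card_map]

theorem tPhi : S_Phi := by
  classical
  intro n r K K' K0 R R' R'' o i o' i' α β ν ε1 z hn hα hβ hε hb hν hz hK hK' hK1 hR hR' hR'' hr hX
    hX' hRob hodo hido hsz hcr hsz' hzR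
  have hn0 : (0 : ℝ) < n := by exact_mod_cast hn
  set ε2 : ℝ := ((K0 : ℝ) ^ 2 + 2) * ε1 with hε2
  have hε2pos : 0 < ε2 := by positivity
  have hc1 : ((crs o' i' R).card : ℝ) ≤ ε2 * (n : ℝ) ^ 2 := phi_few hε hK' hX hcr
  have hc2 : ((crs o' i' R').card : ℝ) ≤ ε2 * (n : ℝ) ^ 2 := phi_few hε hK' hX' hcr
  have hbn : ∀ k : ℕ, k ≤ K0 → (k : ℝ) * (β * n) ≤ α * n / 4 := by
    intro k hk
    have h1 : (k : ℝ) ≤ K0 := by exact_mod_cast hk
    have h2 : (k : ℝ) * (β * n) ≤ K0 * (β * n) := mul_le_mul_of_nonneg_right h1 (by positivity)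
    have h3 : 4 * K0 * β * n ≤ α * n := mul_le_mul_of_nonneg_right hb hn0.le
    nlinarith
  have hαn : 0 < α * n := by positivity
  -- the map
  have hφ : ∀ a : Fin K, ∃ c : Fin K', ((Cl o a \ Cl o' c).card : ℝ) < β * n ∧
      ((Cl i a \ Cl i' c).card : ℝ) < β * n := by
    intro a
    by_contra hcon
    push Not at hcon
    have h1 : ∀ c : Fin K', ((Cl o a ∩ Cl o' c).card : ℝ) ≤ β * n := by
      intro c
      rcases phi_alt (ε2 := ε2) hn (by linarith) hRob hc1 a c with h2 | h2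
      · exact h2.le
      · exact absurd h2.2 (not_lt.2 (hcon c h2.1))
    have h2 : ((Cl o a).card : ℝ) ≤ K' * (β * n) := by
      rw [phi_sum o' (Cl o a)]
      push_cast
      calc ∑ c, ((Cl o a ∩ Cl o' c).card : ℝ) ≤ ∑ c : Fin K', β * n := sum_le_sum fun c _ => h1 c
        _ = _ := by rw [sum_const, card_univ, Fintype.card_fin, nsmul_eq_mul]
    have h3 := hbn K' hK'
    have h4 := (hsz a).1
    linarith
  choose φ hφ1 hφ2 using hφ
  have hsurj : Function.Surjective φ := by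
    intro c
    by_contra hcon
    push Not at hcon
    have h1 : ∀ a : Fin K, ((Cl o a ∩ Cl o' c).card : ℝ) ≤ β * n := by
      intro a
      refine le_trans ?_ (hφ1 a).le
      have h2 : Cl o a ∩ Cl o' c ⊆ Cl o a \ Cl o' (φ a) := by
        intro v hv
        simp only [mem_inter, mem_sdiff, phi_memCl] at hv ⊢
        exact ⟨hv.1, fun h3 => hcon a (h3.symm.trans hv.2)⟩
      exact_mod_cast card_le_card h2
    have h2 : ((Cl o' c).card : ℝ) ≤ K * (β * n) := by
      rw [phi_sum' o (Cl o' c)]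
      push_cast
      calc ∑ a, ((Cl o a ∩ Cl o' c).card : ℝ) ≤ ∑ a : Fin K, β * n := sum_le_sum fun a _ => h1 a
        _ = _ := by rw [sum_const, card_univ, Fintype.card_fin, nsmul_eq_mul]
    have h3 := hbn K hK
    have h4 := (hsz' c).1
    linarith
  have hle : K' ≤ K := by
    have := Fintype.card_le_of_surjective φ hsurj
    rwa [Fintype.card_fin, Fintype.card_fin] at this
  by_contra hlt
  have hKK : K' = K := by omega
  have hinj : Function.Injective φ := by
    have := (Fintype.bijective_iff_surjective_and_card φ).2 ⟨hsurj, by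
      rw [Fintype.card_fin, Fintype.card_fin, hKK]⟩
    exact this.1
  have hM := phi_M (φ := φ) hn hα hb hK hr hodo hφ2 hc1
  have hM' := phi_M (φ := φ) (R := rev R) (o := i) (i := o) (o' := i') (i' := o') (ε2 := ε2) hn hα hb
    hK hr (fun v => by rw [phi_own_rev, od_rev]; exact hido v) hφ1 (by rw [phi_crs_rev]; exact hc1)
  set M := univ.filter (fun v => o' v ≠ φ (o v)) with hMd
  set M' := univ.filter (fun v => i' v ≠ φ (i v)) with hMd'
  have hrn : r ≤ n := by
    have h1 := (hR' ⟨0, hn⟩).1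
    rw [← h1]
    unfold od
    calc (R'.filter (fun e => e.1 = ⟨0, hn⟩)).card
        ≤ ((univ : Finset (Fin n)).image (fun w => ((⟨0, hn⟩, w) : Fin n × Fin n))).card := by
          apply card_le_card
          intro e he
          rw [mem_filter] at he
          rw [mem_image]
          exact ⟨e.2, mem_univ _, by rw [← he.2]⟩
      _ ≤ (univ : Finset (Fin n)).card := card_image_le
      _ = n := by rw [card_univ, Fintype.card_fin]
  have hcov : (crs o i R').card ≤ (crs o' i' R').card + (M.card * r + M'.card * r) := by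
    have h1 : crs o i R' ⊆ crs o' i' R' ∪ (R'.filter (fun e => e.1 ∈ M ∧ e.2 ∈ univ) ∪
        R'.filter (fun e => e.1 ∈ univ ∧ e.2 ∈ M')) := by
      intro e he
      simp only [crs, mem_filter] at he
      rw [mem_union, mem_union]
      by_cases h2 : e.1 ∈ M
      · exact Or.inr (Or.inl (mem_filter.2 ⟨he.1, h2, mem_univ _⟩))
      · by_cases h3 : e.2 ∈ M'
        · exact Or.inr (Or.inr (mem_filter.2 ⟨he.1, mem_univ _, h3⟩))
        · left
          simp only [crs, mem_filter]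
          refine ⟨he.1, fun h4 => he.2 (hinj ?_)⟩
          have h5 : o' e.1 = φ (o e.1) := by
            by_contra h6
            exact h2 (mem_filter.2 ⟨mem_univ _, h6⟩)
          have h7 : i' e.2 = φ (i e.2) := by
            by_contra h6
            exact h3 (mem_filter.2 ⟨mem_univ _, h6⟩)
          rw [← h5, ← h7, h4]
    refine (card_le_card h1).trans ((card_union_le _ _).trans ?_)
    refine Nat.add_le_add_left ((card_union_le _ _).trans ?_) _
    have h2 : (R'.filter (fun e => e.1 ∈ M ∧ e.2 ∈ univ)).card = M.card * r := by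
      have h3 := eb_univ_right R' M
      unfold eb at h3
      rw [h3, sum_congr rfl (fun v _ => (hR' v).1), sum_const, smul_eq_mul]
    have h4 : (R'.filter (fun e => e.1 ∈ univ ∧ e.2 ∈ M')).card = M'.card * r := by
      have h3 := eb_univ_left R' M'
      unfold eb at h3
      rw [h3, sum_congr rfl (fun v _ => (hR' v).2), sum_const, smul_eq_mul]
    rw [h2, h4]
  have hcovR : ((crs o i R').card : ℝ) ≤ ε2 * (n : ℝ) ^ 2 + ((M.card : ℝ) * n + (M'.card : ℝ) * n) := by
    have h1 : ((crs o i R').card : ℝ) ≤ ((crs o' i' R').card : ℝ) +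
        ((M.card : ℝ) * r + (M'.card : ℝ) * r) := by exact_mod_cast hcov
    have h2 : (r : ℝ) ≤ n := by exact_mod_cast hrn
    have h3 : (M.card : ℝ) * r ≤ (M.card : ℝ) * n := mul_le_mul_of_nonneg_left h2 (Nat.cast_nonneg _)
    have h4 : (M'.card : ℝ) * r ≤ (M'.card : ℝ) * n :=
      mul_le_mul_of_nonneg_left h2 (Nat.cast_nonneg _)
    linarith
  have e1 : α * ((crs o i R').card : ℝ) ≤ ε2 * (α + 4 * K0) * (n : ℝ) ^ 2 := by
    have h1 : α * ((crs o i R').card : ℝ) ≤
        α * (ε2 * (n : ℝ) ^ 2 + ((M.card : ℝ) * n + (M'.card : ℝ) * n)) :=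
      mul_le_mul_of_nonneg_left hcovR hα.le
    have h2 : α * (M.card : ℝ) * n ≤ 2 * K0 * ε2 * n * n := mul_le_mul_of_nonneg_right hM hn0.le
    have h3 : α * (M'.card : ℝ) * n ≤ 2 * K0 * ε2 * n * n := mul_le_mul_of_nonneg_right hM' hn0.le
    nlinarith
  have e2 : z * α * (n : ℝ) ^ 2 ≤ α * ((crs o i R').card : ℝ) := by
    have := mul_le_mul_of_nonneg_left hzR hα.le
    nlinarith
  have e3 : ε2 * (α + 4 * K0) * (n : ℝ) ^ 2 < z * α * (n : ℝ) ^ 2 :=
    mul_lt_mul_of_pos_right hz (by positivity)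
  linarith

end Pool.Agent.MPd266dbE
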