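import Pool.Agent.Lib.MP_d266db_co.E.SpecI

/-!
# MP_d266db_co, E: potentials (`S_Pot`)
-/

set_option autoImplicit false

namespace Pool.Agent.MPd266dbE

open Finset Pool.Agent.MPd266db Pool.Agent.MPd266dbH

/-- **Pot.** -/
theorem tPot (hSpC : S_SpC) : S_Pot := by
  classical
  intro n r K E R o i hRE hReg hmax
  set L : Finset (Finset (Fin n) × Finset (Fin n)) :=
    univ.filter (fun p => Cld E R o i p.1 p.2) with hL
  have hmem : ∀ p, p ∈ L ↔ Cld E R o i p.1 p.2 := by
    intro p
    rw [hL, mem_filter]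
    exact and_iff_right (mem_univ p)
  refine ⟨fun u => (L.filter (fun p => u ∉ p.1)).card, fun v => (L.filter (fun p => v ∉ p.2)).card,
    ?_, ?_⟩
  · intro u v huE huR
    have hsub : L.filter (fun p => v ∉ p.2) ⊆ L.filter (fun p => u ∉ p.1) := by
      intro p hp
      rw [mem_filter] at hp ⊢
      refine ⟨hp.1, fun hu => hp.2 ?_⟩
      exact ((hmem p).1 hp.1).1 u v huE huR hu
    refine ⟨card_le_card hsub, fun hne => ?_⟩
    obtain ⟨O, I, hOI, hv, hu⟩ := hSpC n r K E R o i hRE hReg hmax u v huE huR hne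
    refine card_lt_card ?_
    rw [ssubset_iff_of_subset hsub]
    refine ⟨(O, I), ?_, ?_⟩
    · rw [mem_filter]
      exact ⟨(hmem _).2 hOI, hu⟩
    · rw [mem_filter]
      rintro ⟨_, h⟩
      exact h hv
  · intro u v huR hown
    refine card_le_card ?_
    intro p hp
    rw [mem_filter] at hp ⊢
    refine ⟨hp.1, fun hv => hp.2 ?_⟩
    exact ((hmem p).1 hp.1).2 u v huR hown hv

end Pool.Agent.MPd266dbE
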