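import Pool.Agent.Lib.MP_d266db_co.E.SpecH

/-!
# MP_d266db_co, E/Pre: the decomposition of a graph with at most two classes (helper8)
-/

set_option autoImplicit false

namespace Pool.Agent.MPd266dbE

open Finset Pool.Agent.MPd266db Pool.Agent.MPd266dbH

theorem pre_fin {K : ℕ} (hK : K ≤ 2) {a b c : Fin K} (h1 : b ≠ a) (h2 : c ≠ a) : c = b := by
  rcases a with ⟨a, ha⟩
  rcases b with ⟨b, hb⟩
  rcases c with ⟨c, hc⟩
  simp only [ne_eq, Fin.mk.injEq] at *
  omega

theorem pre_typ (hLnC : S_LnC) {n K : ℕ} {R : Finset (Fin n × Fin n)} {o i : Fin n → Fin K}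
    {η γ lam : ℝ} (hη : 0 < η) (hγ : 0 ≤ γ) (hlam : 0 ≤ lam) (hK : K ≤ 2)
    (hnum : 4 * lam + γ < η / 256)
    (hcut : ∀ W : Finset (Fin n), η * W.card * Wᶜ.card ≤ eb R W Wᶜ)
    (hfew : ((crs o i R).card : ℝ) ≤ γ * (n : ℝ) ^ 2)
    (hsz : ∀ a, (1 / 8 : ℝ) * n ≤ 2 * (Cl o a).card) (a : Fin K) :
    ∀ b, b ≠ a → lam * n ≤ (Cl o a ∩ Cl i b).card ∧ lam * n ≤ (Cl o b ∩ Cl i a).card := by
  classical
  intro b hb
  have hK' : (K : ℝ) ≤ 2 := by exact_mod_cast hK
  have hK0 : (0 : ℝ) ≤ K := Nat.cast_nonneg K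
  have hKK : (K : ℝ) ^ 2 * lam ≤ 4 * lam := by
    apply mul_le_mul_of_nonneg_right _ hlam
    nlinarith
  have hL := hLnC n K R o i (1 / 8) η γ lam (by norm_num) hη hγ hlam
    (by
      have : η * (1 / 8 : ℝ) ^ 2 / 4 = η / 256 := by ring
      rw [this]; linarith) hcut hfew hsz
  constructor
  · obtain ⟨x, hx, y, hy, h⟩ := hL {b} (singleton_nonempty b) (by
      intro hu
      have : a ∈ ({b} : Finset (Fin K)) := by rw [hu]; exact mem_univ _
      exact hb (mem_singleton.1 this).symm)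
    rw [mem_singleton] at hx
    subst hx
    have hya : y ≠ x := fun hh => hy (by rw [hh]; exact mem_singleton_self _)
    have : y = a := pre_fin hK (Ne.symm hb) hya
    subst this
    exact h
  · obtain ⟨x, hx, y, hy, h⟩ := hL {a} (singleton_nonempty a) (by
      intro hu
      have : b ∈ ({a} : Finset (Fin K)) := by rw [hu]; exact mem_univ _
      exact hb (mem_singleton.1 this))
    rw [mem_singleton] at hx
    subst hx
    have hya : y ≠ x := fun hh => hy (by rw [hh]; exact mem_singleton_self _)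
    have : y = b := pre_fin hK hb hya
    subst this
    exact h

theorem pre_dg0 {n : ℕ} : Dg (∅ : Finset (Fin n × Fin n)) 0 := by
  intro v
  simp [od, idg]

theorem pre_rob {n K : ℕ} {o i : Fin n → Fin K} {R : Finset (Fin n × Fin n)} {β β' ν : ℝ}
    (h : Rob o i R β ν) (hb : β ≤ β') : Rob o i R β' ν := by
  intro a X Y hX hY h1 h2
  have hn : (0 : ℝ) ≤ n := Nat.cast_nonneg n
  have : β * n ≤ β' * n := mul_le_mul_of_nonneg_right hb hn
  exact h a X Y hX hY (by linarith) (by linarith)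

theorem pre_xlo {n K : ℕ} (R : Finset (Fin n × Fin n)) (o i : Fin n → Fin K) (c0 d0 : Fin K)
    (L : ℕ) : Dg (XLo R o i c0 d0 L) L := by
  classical
  intro v
  constructor
  · by_cases h : ((XLo R o i c0 d0 L).filter (fun e => e.1 = v)).Nonempty
    · obtain ⟨q, hq⟩ := h
      rw [mem_filter] at hq
      obtain ⟨hq1, rfl⟩ := hq
      have h2 := (mem_filter.1 hq1).2.1
      exact (card_le_card (filter_subset_filter _ (filter_subset _ _))).trans h2
    · rw [not_nonempty_iff_eq_empty] at h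
      unfold od
      rw [h]; simp
  · by_cases h : ((XLo R o i c0 d0 L).filter (fun e => e.2 = v)).Nonempty
    · obtain ⟨q, hq⟩ := h
      rw [mem_filter] at hq
      obtain ⟨hq1, rfl⟩ := hq
      have h2 := (mem_filter.1 hq1).2.2
      exact (card_le_card (filter_subset_filter _ (filter_subset _ _))).trans h2
    · rw [not_nonempty_iff_eq_empty] at h
      unfold idg
      rw [h]; simp

theorem tPre (hEx : S_Ex) (hLnC : S_LnC) (hRbS : S_RbS) (hImb : S_Imb) (hDch : S_Dch)
    (hMov : S_Mov) : S_Pre := by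
  classical
  intro η hη
  obtain ⟨lam, hlam0, hlam1, hlam2⟩ : ∃ lam : ℝ, 0 < lam ∧ lam ≤ η / 2048 ∧ lam ≤ 1 / 100000 :=
    ⟨min (η / 2048) (1 / 100000), lt_min (by positivity) (by norm_num), min_le_left _ _,
      min_le_right _ _⟩
  obtain ⟨β1, hβ1, hE1⟩ := hEx (1 / 8) η lam (1 / 16) (1 / 32) (by norm_num) hη hlam0
    (by linarith) (by norm_num) (by norm_num) (by norm_num)
  refine ⟨min β1 (1 / 128), lt_min hβ1 (by norm_num), ?_⟩
  obtain ⟨β, hβeq⟩ : ∃ β, β = min β1 (1 / 128) := ⟨_, rfl⟩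
  have hβ0 : 0 < β := by rw [hβeq]; exact lt_min hβ1 (by norm_num)
  have hββ1 : β ≤ β1 := by rw [hβeq]; exact min_le_left _ _
  have hβ128 : β ≤ 1 / 128 := by rw [hβeq]; exact min_le_right _ _
  rw [← hβeq]
  intro ν hν
  obtain ⟨ζ1, γ1, n1, hζ1, hγ1, hE1⟩ := hE1 ν hν
  obtain ⟨ζ, hζ0, hζ2, hζ3⟩ : ∃ ζ : ℝ, 0 < ζ ∧ ζ ≤ ζ1 ∧ ζ ≤ 1 / 16 :=
    ⟨min ζ1 (1 / 16), lt_min hζ1 (by norm_num), min_le_left _ _, min_le_right _ _⟩
  obtain ⟨β2, hβ2, hE2⟩ := hEx (1 / 8) η (lam / 2) (ζ / 2) 1 (by norm_num) hη (by positivity)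
    (by linarith) (by positivity) (by linarith) (by norm_num)
  obtain ⟨ζ2, γ2, n2, hζ2', hγ2, hE2⟩ := hE2 (min (ν / 2) (1 / 32 * β2 / 4))
    (lt_min (by positivity) (by positivity))
  obtain ⟨γ, hγ, hg1, hg2, hgζ, hglam, hgβ, hgν, hgβ2, hgo⟩ : ∃ γ : ℝ, 0 < γ ∧ 1000 * γ ≤ γ1 ∧
      1000 * γ ≤ γ2 ∧ 1000 * γ ≤ ζ ∧ 1000 * γ ≤ lam ∧ 1000 * γ ≤ β ∧ 1000 * γ ≤ ν ∧
      1000 * γ ≤ β2 ∧ 1000 * γ ≤ 1 := by
    refine ⟨(min (min (min γ1 γ2) (min ζ lam)) (min (min β ν) (min β2 1))) / 1000, ?_, ?_⟩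
    · have : 0 < min (min (min γ1 γ2) (min ζ lam)) (min (min β ν) (min β2 1)) :=
        lt_min (lt_min (lt_min hγ1 hγ2) (lt_min hζ0 hlam0))
          (lt_min (lt_min hβ0 hν) (lt_min hβ2 one_pos))
      positivity
    · have e : 1000 * ((min (min (min γ1 γ2) (min ζ lam)) (min (min β ν) (min β2 1))) / 1000) =
          min (min (min γ1 γ2) (min ζ lam)) (min (min β ν) (min β2 1)) := by ring
      rw [e]
      refine ⟨?_, ?_, ?_, ?_, ?_, ?_, ?_, ?_⟩
      · exact (min_le_left _ _).trans ((min_le_left _ _).trans (min_le_left _ _))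
      · exact (min_le_left _ _).trans ((min_le_left _ _).trans (min_le_right _ _))
      · exact (min_le_left _ _).trans ((min_le_right _ _).trans (min_le_left _ _))
      · exact (min_le_left _ _).trans ((min_le_right _ _).trans (min_le_right _ _))
      · exact (min_le_right _ _).trans ((min_le_left _ _).trans (min_le_left _ _))
      · exact (min_le_right _ _).trans ((min_le_left _ _).trans (min_le_right _ _))
      · exact (min_le_right _ _).trans ((min_le_right _ _).trans (min_le_left _ _))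
      · exact (min_le_right _ _).trans ((min_le_right _ _).trans (min_le_right _ _))
  refine ⟨γ, max (max n1 n2) 16, hγ, ?_⟩
  intro n hn K r R o i hK1 hK2 hO hR hr hcut hSt ⟨a, ha⟩
  have hn1 : n1 ≤ n := by omega
  have hn2 : n2 ≤ n := by omega
  have hn16 : 16 ≤ n := by omega
  have hnR : (16 : ℝ) ≤ n := by exact_mod_cast hn16
  have hrn : (n : ℝ) / 8 ≤ r := by
    have : n ≤ 8 * r := by omega
    have : (n : ℝ) ≤ 8 * r := by exact_mod_cast this
    linarith
  have hrn' : (r : ℝ) ≤ n := by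
    have h1 : od R ⟨0, by omega⟩ = r := (hR _).1
    have h2 : od R ⟨0, by omega⟩ ≤ n := by
      unfold od
      calc (R.filter (fun e => e.1 = (⟨0, by omega⟩ : Fin n))).card
          ≤ ((univ : Finset (Fin n)).image (fun w => ((⟨0, by omega⟩ : Fin n), w))).card := by
            apply card_le_card
            intro e he
            rw [mem_filter] at he
            rw [mem_image]
            exact ⟨e.2, mem_univ _, Prod.ext he.2.symm rfl⟩
        _ ≤ (univ : Finset (Fin n)).card := card_image_le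
        _ = n := by simp
    have h3 : r ≤ n := by omega
    exact_mod_cast h3
  have hod : ∀ v, r ≤ 2 * od (own o i R) v := fun v =>
    (hSt.odo v).trans (Nat.mul_le_mul_right _ hK2)
  have hid : ∀ v, r ≤ 2 * idg (own o i R) v := fun v =>
    (hSt.ido v).trans (Nat.mul_le_mul_right _ hK2)
  have hodR : ∀ v, (r : ℝ) ≤ 2 * od (own o i R) v := fun v => by exact_mod_cast hod v
  have hidR : ∀ v, (r : ℝ) ≤ 2 * idg (own o i R) v := fun v => by exact_mod_cast hid v
  have haR : (n : ℝ) ≤ 100000 * (Cl o a ∩ Cl i a).card := by exact_mod_cast ha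
  have htyp := pre_typ hLnC hη hγ.le hlam0.le hK2 (by linarith) hcut hSt.few
    (fun x => (hSt.sz x).1) a
  have hlaa : lam * n ≤ (Cl o a ∩ Cl i a).card := by
    have : lam * n ≤ 1 / 100000 * n := mul_le_mul_of_nonneg_right hlam2 (by linarith)
    linarith
  have hn2sq : (0 : ℝ) ≤ (n : ℝ) ^ 2 := by positivity
  obtain ⟨c0, d0, p, hCD, hp⟩ := hImb n K o i hK1 hK2
  have hfew1 : ((crs o i R).card : ℝ) ≤ γ1 * (n : ℝ) ^ 2 := by
    have h1 := hSt.few
    have h2 : γ * (n : ℝ) ^ 2 ≤ γ1 * (n : ℝ) ^ 2 :=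
      mul_le_mul_of_nonneg_right (by linarith) hn2sq
    linarith
  have hR1 : Rob o i R β1 ν := pre_rob hSt.rob hββ1
  rcases Nat.eq_zero_or_pos p with hp0 | hp1
  · subst hp0
    refine hE1 n hn1 K r 0 0 R ∅ o i a c0 d0 hK2 hO hR (by linarith) hcut hfew1 hR1
      (fun v => by have := hodR v; linarith) (fun v => by have := hidR v; linarith) hlaa htyp
      hCD ?_ (empty_subset _) (fun q hq => absurd hq (notMem_empty q)) pre_dg0 ?_ ?_
    · push_cast; positivity
    · push_cast; positivity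
    · simp
  · have hcd : c0 ≠ d0 := hp (by omega)
    obtain ⟨L, hLdef⟩ : ∃ L, L = ⌊ζ * n⌋₊ := ⟨_, rfl⟩
    have hL1 : (L : ℝ) ≤ ζ * n := by rw [hLdef]; exact Nat.floor_le (by positivity)
    have hL2 : ζ * n < (L : ℝ) + 1 := by rw [hLdef]; exact Nat.lt_floor_add_one _
    obtain ⟨hrp, hdis⟩ := hDch n K r p L R o i c0 d0 hR hCD hcd hod hid
    have hrpR : (r : ℝ) * p ≤ (crs o i R).card := by exact_mod_cast hrp
    have hpR : (0 : ℝ) ≤ p := Nat.cast_nonneg p
    have hp8 : (p : ℝ) ≤ 8 * γ * n := by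
      have h1 : (n : ℝ) / 8 * p ≤ γ * (n : ℝ) ^ 2 := by
        have : (n : ℝ) / 8 * p ≤ r * p := mul_le_mul_of_nonneg_right hrn hpR
        linarith [hSt.few]
      have h2 : (n : ℝ) * p ≤ n * (8 * γ * n) := by nlinarith
      exact le_of_mul_le_mul_left h2 (by linarith)
    have hγn : 0 ≤ γ * n := by positivity
    rcases hdis with hA | hB
    · refine hE1 n hn1 K r p L R (XLo R o i c0 d0 L) o i a c0 d0 hK2 hO hR (by linarith) hcut
        hfew1 hR1 (fun v => by have := hodR v; linarith) (fun v => by have := hidR v; linarith)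
        hlaa htyp hCD ?_ ?_ ?_ (pre_xlo R o i c0 d0 L) ?_ ?_
      · have : 1000 * γ * n ≤ γ1 * n := mul_le_mul_of_nonneg_right hg1 (by linarith)
        linarith
      · exact (filter_subset _ _).trans (filter_subset _ _)
      · intro q hq
        have h1 := (mem_filter.1 (mem_filter.1 hq).1).2
        exact ⟨h1.1, h1.2, hcd⟩
      · have : ζ * n ≤ ζ1 * n := mul_le_mul_of_nonneg_right hζ2 (by linarith)
        linarith
      · have hA' : (r : ℝ) * p ≤ 4 * (XLo R o i c0 d0 L).card := by exact_mod_cast hA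
        have : (n : ℝ) / 8 * p ≤ r * p := mul_le_mul_of_nonneg_right hrn hpR
        linarith
    · have hβn : 1000 * γ * n ≤ β * n := mul_le_mul_of_nonneg_right hgβ (by linarith)
      have hνn : 1000 * γ * n ≤ ν * n := mul_le_mul_of_nonneg_right hgν (by linarith)
      have hζn : 1000 * γ * n ≤ ζ * n := mul_le_mul_of_nonneg_right hgζ (by linarith)
      have hlamn : 1000 * γ * n ≤ lam * n := mul_le_mul_of_nonneg_right hglam (by linarith)
      have hβ2n : 1000 * γ * n ≤ β2 * n := mul_le_mul_of_nonneg_right hgβ2 (by linarith)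
      have hon : 1000 * γ * n ≤ 1 * n := mul_le_mul_of_nonneg_right hgo (by linarith)
      have hζ16 : ζ * n ≤ 1 / 16 * n := mul_le_mul_of_nonneg_right hζ3 (by linarith)
      obtain ⟨o', i', hCD', hcrs', hRob', hod', hid', hoe, hie, hty⟩ :=
        hMov n K r p L R o i c0 d0 β ν hR hCD hcd hod hid hB hSt.rob (by linarith) (by linarith)
      have hoe' : (univ.filter (fun v => (od (own o' i' R) v : ℝ) < 1 / 32 * n)).card ≤ p := by
        refine (card_le_card ?_).trans hoe
        intro v hv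
        rw [mem_filter] at hv ⊢
        refine ⟨mem_univ _, ?_⟩
        have h1 := hv.2
        have h2 : (2 : ℝ) * (od (own o' i' R) v + p) < r := by linarith
        exact_mod_cast h2
      have hie' : (univ.filter (fun v => (idg (own o' i' R) v : ℝ) < 1 / 32 * n)).card ≤ p := by
        refine (card_le_card ?_).trans hie
        intro v hv
        rw [mem_filter] at hv ⊢
        refine ⟨mem_univ _, ?_⟩
        have h1 := hv.2
        have h2 : (2 : ℝ) * (idg (own o' i' R) v + p) < r := by linarith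
        exact_mod_cast h2
      have hRob2 := hRbS n K p R o' i' (2 * β) (ν / 2) (1 / 32) β2 hRob' (by norm_num) hβ2
        (by linarith) (by linarith) hoe' hie'
      refine hE2 n hn2 K r 0 0 R ∅ o' i' a c0 d0 hK2 hO hR (by linarith) hcut ?_ hRob2 ?_ ?_ ?_ ?_
        hCD' ?_ (empty_subset _) (fun q hq => absurd hq (notMem_empty q)) pre_dg0 ?_ ?_
      · have h1 : ((crs o' i' R).card : ℝ) ≤ (crs o i R).card + r * p := by exact_mod_cast hcrs'
        have h2 := hSt.few
        have h3 : 1000 * γ * (n : ℝ) ^ 2 ≤ γ2 * (n : ℝ) ^ 2 :=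
          mul_le_mul_of_nonneg_right hg2 hn2sq
        have h4 : 0 ≤ γ * (n : ℝ) ^ 2 := by positivity
        linarith
      · intro v
        rcases hod' v with h | h
        · have h' : ((L : ℝ) + 1) ≤ od (own o' i' R) v + p := by exact_mod_cast h
          linarith
        · have h' : (r : ℝ) ≤ 2 * (od (own o' i' R) v + p) := by exact_mod_cast h
          linarith
      · intro v
        rcases hid' v with h | h
        · have h' : ((L : ℝ) + 1) ≤ idg (own o' i' R) v + p := by exact_mod_cast h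
          linarith
        · have h' : (r : ℝ) ≤ 2 * (idg (own o' i' R) v + p) := by exact_mod_cast h
          linarith
      · have h' : ((Cl o a ∩ Cl i a).card : ℝ) ≤ (Cl o' a ∩ Cl i' a).card + p := by
          exact_mod_cast hty a a
        linarith
      · intro b hb
        have h1' : ((Cl o a ∩ Cl i b).card : ℝ) ≤ (Cl o' a ∩ Cl i' b).card + p := by
          exact_mod_cast hty a b
        have h2' : ((Cl o b ∩ Cl i a).card : ℝ) ≤ (Cl o' b ∩ Cl i' a).card + p := by
          exact_mod_cast hty b a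
        have h3 := htyp b hb
        constructor
        · linarith [h3.1]
        · linarith [h3.2]
      · push_cast; positivity
      · push_cast; positivity
      · simp

end Pool.Agent.MPd266dbE
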