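import Pool.Agent.Lib.MP_d266db_co.E.SpecD

/-! # MP_d266db_co, E: partner cycles with finite sets (`tPtF`) (helper99) -/

set_option autoImplicit false

namespace Pool.Agent.MPd266dbE

open Finset Pool.Agent.MPd266db Pool.Agent.MPd266dbH

theorem ptf_ne {n : ℕ} {q : Fin n × Fin n × Fin n × Fin n} (h : (qv q).card = 4) :
    q.1 ≠ q.2.1 ∧ q.1 ≠ q.2.2.1 ∧ q.1 ≠ q.2.2.2 ∧ q.2.1 ≠ q.2.2.1 ∧ q.2.1 ≠ q.2.2.2 ∧
      q.2.2.1 ≠ q.2.2.2 := by
  obtain ⟨a, b, c, d⟩ := q
  simp only [qv] at h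
  have key : ∀ x y z : Fin n, ({a, b, c, d} : Finset (Fin n)) ⊆ {x, y, z} → False := by
    intro x y z hs
    have h1 := card_le_card hs
    have h2 : ({x, y, z} : Finset (Fin n)).card ≤ 3 := card_le_three
    omega
  refine ⟨?_, ?_, ?_, ?_, ?_, ?_⟩
  · rintro (rfl : a = b)
    refine key a c d ?_
    intro v hv
    simp only [mem_insert, mem_singleton] at hv ⊢
    tauto
  · rintro (rfl : a = c)
    refine key a b d ?_
    intro v hv
    simp only [mem_insert, mem_singleton] at hv ⊢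
    tauto
  · rintro (rfl : a = d)
    refine key a b c ?_
    intro v hv
    simp only [mem_insert, mem_singleton] at hv ⊢
    tauto
  · rintro (rfl : b = c)
    refine key a b d ?_
    intro v hv
    simp only [mem_insert, mem_singleton] at hv ⊢
    tauto
  · rintro (rfl : b = d)
    refine key a b c ?_
    intro v hv
    simp only [mem_insert, mem_singleton] at hv ⊢
    tauto
  · rintro (rfl : c = d)
    refine key a b c ?_
    intro v hv
    simp only [mem_insert, mem_singleton] at hv ⊢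
    tauto

theorem ptf_mem {n : ℕ} (q : Fin n × Fin n × Fin n × Fin n) :
    q.1 ∈ qv q ∧ q.2.1 ∈ qv q ∧ q.2.2.1 ∈ qv q ∧ q.2.2.2 ∈ qv q := by
  simp [qv]

theorem ptf_enum {α : Type} [DecidableEq α] (P : Finset α) (h : 1 ≤ P.card) :
    ∃ Q : ℕ → α, (∀ j < P.card, Q j ∈ P) ∧ (∀ j < P.card, ∀ j' < P.card, Q j = Q j' → j = j') ∧
      ∀ q ∈ P, ∃ j < P.card, Q j = q := by
  classical
  obtain ⟨q0, hq0⟩ := card_pos.1 (show 0 < P.card by omega)
  let Q : ℕ → α := fun j => if hj : j < P.card then (P.equivFin.symm ⟨j, hj⟩).1 else q0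
  have hQ : ∀ j (hj : j < P.card), Q j = (P.equivFin.symm ⟨j, hj⟩).1 := fun j hj => dif_pos hj
  refine ⟨Q, ?_, ?_, ?_⟩
  · intro j hj
    rw [hQ j hj]
    exact (P.equivFin.symm ⟨j, hj⟩).2
  · intro j hj j' hj' h1
    rw [hQ j hj, hQ j' hj'] at h1
    have h2 := P.equivFin.symm.injective (Subtype.ext h1)
    exact congrArg Fin.val h2
  · intro q hq
    refine ⟨(P.equivFin ⟨q, hq⟩).1, (P.equivFin ⟨q, hq⟩).2, ?_⟩
    rw [hQ _ (P.equivFin ⟨q, hq⟩).2]
    have h1 : (⟨(P.equivFin ⟨q, hq⟩).1, (P.equivFin ⟨q, hq⟩).2⟩ : Fin P.card) =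
        P.equivFin ⟨q, hq⟩ := rfl
    rw [h1, Equiv.symm_apply_apply]

theorem tPtF (hPtn : S_Ptn) : S_PtF := by
  classical
  intro n K ℓ b S X o i B P g hP hHam hCon hown hVD hXB hBal hb hg hQD hPB hPo
  obtain ⟨Q, hQP, hQi, hQs⟩ := ptf_enum P hP
  have hne := fun j (hj : j < P.card) => ptf_ne (hQD.1 _ (hQP j hj))
  have hdis : ∀ j < P.card, ∀ j' < P.card, j ≠ j' → Disjoint (qv (Q j)) (qv (Q j')) :=
    fun j hj j' hj' hjj => hQD.2 _ (hQP j hj) _ (hQP j' hj') fun h => hjj (hQi j hj j' hj' h)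
  have hdv : ∀ j < P.card, ∀ j' < P.card, j ≠ j' → ∀ v ∈ qv (Q j), ∀ v' ∈ qv (Q j'), v ≠ v' :=
    fun j hj j' hj' hjj v hv v' hv' h => disjoint_left.1 (hdis j hj j' hj' hjj) hv (h ▸ hv')
  let c : ℕ → Fin n := fun j => if j < P.card then (Q j).1 else (Q (j - P.card)).2.1
  let d : ℕ → Fin n := fun j => if j < P.card then (Q j).2.2.1 else (Q (j - P.card)).2.2.2
  have c1 : ∀ j, j < P.card → c j = (Q j).1 := fun j hj => if_pos hj
  have d1 : ∀ j, j < P.card → d j = (Q j).2.2.1 := fun j hj => if_pos hj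
  have c2 : ∀ j, c (P.card + j) = (Q j).2.1 := by
    intro j
    have h1 : c (P.card + j) = (Q (P.card + j - P.card)).2.1 := if_neg (by omega)
    rw [h1, Nat.add_sub_cancel_left]
  have d2 : ∀ j, d (P.card + j) = (Q j).2.2.2 := by
    intro j
    have h1 : d (P.card + j) = (Q (P.card + j - P.card)).2.2.2 := if_neg (by omega)
    rw [h1, Nat.add_sub_cancel_left]
  -- every index below `2 M` is `j` or `M + j`
  have split : ∀ j < 2 * P.card, (j < P.card) ∨ ∃ l < P.card, j = P.card + l := by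
    intro j hj
    by_cases h : j < P.card
    · exact Or.inl h
    · exact Or.inr ⟨j - P.card, by omega, by omega⟩
  obtain ⟨π, h1, h2, h3, h4, h5⟩ := hPtn n K P.card ℓ b S X o i B c d g hP hHam hCon hown hVD hXB
    hBal hb hg (by
      intro j hj j' hj'
      rcases split j hj with hjl | ⟨l, hl, rfl⟩ <;> rcases split j' hj' with hjl' | ⟨l', hl', rfl⟩
      · rw [c1 j hjl, d1 j' hjl']
        by_cases h : j = j'
        · subst h
          exact (hne j hjl).2.1
        · exact hdv j hjl j' hjl' h _ (ptf_mem _).1 _ (ptf_mem _).2.2.1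
      · rw [c1 j hjl, d2 l']
        by_cases h : j = l'
        · subst h
          exact (hne j hjl).2.2.1
        · exact hdv j hjl l' hl' h _ (ptf_mem _).1 _ (ptf_mem _).2.2.2
      · rw [c2 l, d1 j' hjl']
        by_cases h : l = j'
        · subst h
          exact (hne l hl).2.2.2.1
        · exact hdv l hl j' hjl' h _ (ptf_mem _).2.1 _ (ptf_mem _).2.2.1
      · rw [c2 l, d2 l']
        by_cases h : l = l'
        · subst h
          exact (hne l hl).2.2.2.2.1
        · exact hdv l hl l' hl' h _ (ptf_mem _).2.1 _ (ptf_mem _).2.2.2) (by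
      intro j hj j' hj' hjj
      rcases split j hj with hjl | ⟨l, hl, rfl⟩ <;> rcases split j' hj' with hjl' | ⟨l', hl', rfl⟩
      · rw [c1 j hjl, d1 j hjl, c1 j' hjl', d1 j' hjl']
        exact ⟨hdv j hjl j' hjl' hjj _ (ptf_mem _).1 _ (ptf_mem _).1,
          hdv j hjl j' hjl' hjj _ (ptf_mem _).2.2.1 _ (ptf_mem _).2.2.1⟩
      · rw [c1 j hjl, d1 j hjl, c2 l', d2 l']
        by_cases h : j = l'
        · subst h
          exact ⟨(hne j hjl).1, (hne j hjl).2.2.2.2.2⟩
        · exact ⟨hdv j hjl l' hl' h _ (ptf_mem _).1 _ (ptf_mem _).2.1,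
            hdv j hjl l' hl' h _ (ptf_mem _).2.2.1 _ (ptf_mem _).2.2.2⟩
      · rw [c2 l, d2 l, c1 j' hjl', d1 j' hjl']
        by_cases h : l = j'
        · subst h
          exact ⟨(hne l hl).1.symm, (hne l hl).2.2.2.2.2.symm⟩
        · exact ⟨hdv l hl j' hjl' h _ (ptf_mem _).2.1 _ (ptf_mem _).1,
            hdv l hl j' hjl' h _ (ptf_mem _).2.2.2 _ (ptf_mem _).2.2.1⟩
      · have h : l ≠ l' := fun h => hjj (by rw [h])
        rw [c2 l, d2 l, c2 l', d2 l']
        exact ⟨hdv l hl l' hl' h _ (ptf_mem _).2.1 _ (ptf_mem _).2.1,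
          hdv l hl l' hl' h _ (ptf_mem _).2.2.2 _ (ptf_mem _).2.2.2⟩) (by
      intro j hj
      rcases split j hj with hjl | ⟨l, hl, rfl⟩
      · rw [c1 j hjl, d1 j hjl]
        have hB := disjoint_left.1 (hPB _ (hQP j hjl))
        exact ⟨hB (ptf_mem _).1, hB (ptf_mem _).2.2.1, (hPo _ (hQP j hjl)).1⟩
      · rw [c2 l, d2 l]
        have hB := disjoint_left.1 (hPB _ (hQP l hl))
        exact ⟨hB (ptf_mem _).2.1, hB (ptf_mem _).2.2.2, (hPo _ (hQP l hl)).2⟩)
  refine ⟨π, h1, h2, ?_, ?_, ?_⟩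
  · intro q hq
    obtain ⟨j, hj, rfl⟩ := hQs q hq
    have e1 := h3 j (by omega)
    have e2 := h3 (P.card + j) (by omega)
    rw [c1 j hj, d1 j hj] at e1
    rw [c2 j, d2 j] at e2
    exact ⟨e1, e2⟩
  · intro v hv hvP
    refine h4 v hv ?_
    intro j hj
    rcases split j hj with hjl | ⟨l, hl, rfl⟩
    · rw [c1 j hjl]
      exact (hvP _ (hQP j hjl)).1
    · rw [c2 l]
      exact (hvP _ (hQP l hl)).2
  · intro E hE hEv τ hτ
    let E' : Finset ℕ := (range P.card).filter (fun j => (c j, c (P.card + j)) ∈ E)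
    have hinj : Set.InjOn (fun j => (c j, c (P.card + j))) (E' : Set ℕ) := by
      intro j hj j' hj' h
      have hjl := mem_range.1 (mem_filter.1 (mem_coe.1 hj)).1
      have hjl' := mem_range.1 (mem_filter.1 (mem_coe.1 hj')).1
      by_contra hjj
      have h6 : c j = c j' := congrArg Prod.fst h
      rw [c1 j hjl, c1 j' hjl'] at h6
      exact hdv j hjl j' hjl' hjj _ (ptf_mem _).1 _ (ptf_mem _).1 h6
    have himg : E'.image (fun j => (c j, c (P.card + j))) = E := by
      ext e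
      rw [mem_image]
      constructor
      · rintro ⟨j, hj, rfl⟩
        exact (mem_filter.1 hj).2
      · intro he
        have h6 := hE he
        rw [qpr, mem_image] at h6
        obtain ⟨q, hq, rfl⟩ := h6
        obtain ⟨j, hj, rfl⟩ := hQs q hq
        have h7 : (c j, c (P.card + j)) = ((Q j).1, (Q j).2.1) := by rw [c1 j hj, c2 j]
        refine ⟨j, mem_filter.2 ⟨mem_range.2 hj, ?_⟩, h7⟩
        rw [h7]
        exact he
    have hcard : E'.card = E.card := by
      rw [← himg, card_image_of_injOn hinj]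
    refine h5 E' τ (fun j hj => mem_range.1 (mem_filter.1 hj).1) (by rw [hcard]; exact hEv) ?_
    rw [himg]
    exact hτ

end Pool.Agent.MPd266dbE
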