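import Pool.Agent.Lib.MP_d266db_co.E.SpecB

/-!
# MP_d266db_co, E: a path through given arcs
-/

set_option autoImplicit false

namespace Pool.Agent.MPd266dbE

open Finset Pool.Agent.MPd266db Pool.Agent.MPd266dbH

/-- appending a path -/
private theorem pth_glue {n : ℕ} {w w' : ℕ → Fin n} {L k : ℕ} (h0 : w L = w' 0)
    (h1 : ∀ x ≤ L, ∀ y ≤ L, w x = w y → x = y) (h2 : ∀ x ≤ k, ∀ y ≤ k, w' x = w' y → x = y)
    (h3 : ∀ x ≤ L, ∀ y, 0 < y → y ≤ k → w x ≠ w' y) :
    ∃ w'' : ℕ → Fin n, (∀ x ≤ L, w'' x = w x) ∧ (∀ y, w'' (L + y) = w' y) ∧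
      ∀ x ≤ L + k, ∀ y ≤ L + k, w'' x = w'' y → x = y := by
  obtain ⟨w'', hw1, hw2⟩ : ∃ w'' : ℕ → Fin n, (∀ x ≤ L, w'' x = w x) ∧
      (∀ y, w'' (L + y) = w' y) := by
    refine ⟨fun x => if x ≤ L then w x else w' (x - L), fun x hx => if_pos hx, fun y => ?_⟩
    show (if L + y ≤ L then w (L + y) else w' (L + y - L)) = w' y
    rcases Nat.eq_zero_or_pos y with hy | hy
    · subst hy
      rw [add_zero, if_pos le_rfl, h0]
    · rw [if_neg (by omega), Nat.add_sub_cancel_left]
  refine ⟨w'', hw1, hw2, ?_⟩
  intro x hx y hy he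
  rcases Nat.lt_or_ge L x with hx1 | hx1 <;> rcases Nat.lt_or_ge L y with hy1 | hy1
  · obtain ⟨x', rfl⟩ : ∃ x', x = L + x' := ⟨x - L, by omega⟩
    obtain ⟨y', rfl⟩ : ∃ y', y = L + y' := ⟨y - L, by omega⟩
    rw [hw2, hw2] at he
    have := h2 x' (by omega) y' (by omega) he
    omega
  · obtain ⟨x', rfl⟩ : ∃ x', x = L + x' := ⟨x - L, by omega⟩
    rw [hw2, hw1 y hy1] at he
    exact absurd he.symm (h3 y hy1 x' (by omega) (by omega))
  · obtain ⟨y', rfl⟩ : ∃ y', y = L + y' := ⟨y - L, by omega⟩
    rw [hw2, hw1 x hx1] at he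
    exact absurd he (h3 x hx1 y' (by omega) (by omega))
  · rw [hw1 x hx1, hw1 y hy1] at he
    exact h1 x hx1 y hy1 he

theorem tPth : S_Pth := by
  classical
  intro n m ℓ b S B c d hm hCon hb hcd hdis hB
  have key : ∀ p, 1 ≤ p → p ≤ m → ∃ (L : ℕ) (w : ℕ → Fin n) (s : ℕ → ℕ), L ≤ p * (ℓ + 1) ∧
      (∀ x ≤ L, ∀ y ≤ L, w x = w y → x = y) ∧
      (∀ j < p, s j + 1 ≤ L ∧ w (s j) = c j ∧ w (s j + 1) = d j) ∧
      (∀ j j', j < j' → j' < p → s j < s j') ∧ (∀ x ≤ L, w x ∉ B) ∧
      (∀ x < L, (∃ j < p, x = s j) ∨ (w x, w (x + 1)) ∈ S) ∧ w L = d (p - 1) ∧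
      ∀ j, p ≤ j → j < m → ∀ x ≤ L, w x ≠ c j ∧ w x ≠ d j := by
    intro p hp
    induction p, hp using Nat.le_induction with
    | base =>
      intro _
      refine ⟨1, fun x => if x = 0 then c 0 else d 0, fun _ => 0, by omega, ?_, ?_, ?_, ?_, ?_,
        ?_, ?_⟩
      · intro x hx y hy he
        rcases Nat.eq_zero_or_pos x with h1 | h1 <;> rcases Nat.eq_zero_or_pos y with h2 | h2
        · omega
        · exfalso
          have he' : (if x = 0 then c 0 else d 0) = (if y = 0 then c 0 else d 0) := he
          rw [if_pos h1, if_neg (by omega)] at he'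
          exact hcd 0 (by omega) 0 (by omega) he'
        · exfalso
          have he' : (if x = 0 then c 0 else d 0) = (if y = 0 then c 0 else d 0) := he
          rw [if_neg (by omega), if_pos h2] at he'
          exact hcd 0 (by omega) 0 (by omega) he'.symm
        · omega
      · intro j hj
        have : j = 0 := by omega
        subst this
        exact ⟨le_rfl, rfl, rfl⟩
      · intro j j' h1 h2
        omega
      · intro x _
        show (if x = 0 then c 0 else d 0) ∉ B
        split_ifs
        · exact (hB 0 (by omega)).1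
        · exact (hB 0 (by omega)).2
      · intro x hx
        refine Or.inl ⟨0, by omega, ?_⟩
        show x = 0
        omega
      · rfl
      · intro j hj1 hj2 x _
        show (if x = 0 then c 0 else d 0) ≠ c j ∧ (if x = 0 then c 0 else d 0) ≠ d j
        split_ifs
        · exact ⟨(hdis 0 (by omega) j hj2 (by omega)).1, hcd 0 (by omega) j hj2⟩
        · exact ⟨fun h => hcd j hj2 0 (by omega) h.symm, (hdis 0 (by omega) j hj2 (by omega)).2⟩
    | succ p hp ih =>
      intro hpm
      obtain ⟨L, w, s, hL, hinj, hs, hsm, hwB, harc, hwL, hoth⟩ := ih (by omega)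
      -- the forbidden set
      obtain ⟨B', hB'⟩ : ∃ B', B' = ((B ∪ (range (L + 1)).image w) ∪ (Ico p m).image c) ∪
        (Ico p m).image d := ⟨_, rfl⟩
      have hB'c : B'.card ≤ b := by
        have e1 := card_union_le ((B ∪ (range (L + 1)).image w) ∪ (Ico p m).image c)
          ((Ico p m).image d)
        have e2 := card_union_le (B ∪ (range (L + 1)).image w) ((Ico p m).image c)
        have e3 := card_union_le B ((range (L + 1)).image w)
        have e4 := card_image_le (s := Ico p m) (f := d)
        have e5 := card_image_le (s := Ico p m) (f := c)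
        have e6 := card_image_le (s := range (L + 1)) (f := w)
        rw [Nat.card_Ico] at e4 e5
        rw [card_range] at e6
        obtain ⟨q, hq⟩ : ∃ q, m = p + q := ⟨m - p, by omega⟩
        have e7 : m * (ℓ + 2) = p * (ℓ + 1) + p + q * ℓ + 2 * q := by rw [hq]; ring
        have e8 : m - p = q := by omega
        rw [e8] at e4 e5
        rw [hB']
        have e9 : 0 ≤ q * ℓ := Nat.zero_le _
        omega
      have hne : w L ≠ c p := (hoth p le_rfl (by omega) L le_rfl).1
      obtain ⟨k, w', hk1, hk2, hw'0, hw'k, hw'inj, hw'B, hw'S⟩ := hCon B' (w L) (c p) hB'c hne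
      have hinB : ∀ a, 0 < a → a < k → w' a ∉ B ∧ (∀ x ≤ L, w' a ≠ w x) ∧
          ∀ j, p ≤ j → j < m → w' a ≠ c j ∧ w' a ≠ d j := by
        intro a ha1 ha2
        have h1 := hw'B a ha1 ha2
        rw [hB', mem_union, mem_union, mem_union, not_or, not_or, not_or] at h1
        obtain ⟨⟨⟨h2, h3⟩, h4⟩, h5⟩ := h1
        refine ⟨h2, ?_, ?_⟩
        · intro x hx he
          exact h3 (mem_image.2 ⟨x, mem_range.2 (by omega), he.symm⟩)
        · intro j hj1 hj2
          exact ⟨fun he => h4 (mem_image.2 ⟨j, mem_Ico.2 ⟨hj1, hj2⟩, he.symm⟩),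
            fun he => h5 (mem_image.2 ⟨j, mem_Ico.2 ⟨hj1, hj2⟩, he.symm⟩)⟩
      -- the path with one more arc
      obtain ⟨w1, hw1a, hw1b⟩ : ∃ w1 : ℕ → Fin n, (∀ x ≤ k, w1 x = w' x) ∧ w1 (k + 1) = d p :=
        ⟨fun x => if x ≤ k then w' x else d p, fun x hx => if_pos hx, if_neg (by omega)⟩
      have hw1c : ∀ x ≤ k, w1 x ≠ d p := by
        intro x hx
        rw [hw1a x hx]
        rcases Nat.eq_zero_or_pos x with h1 | h1
        · rw [h1, hw'0]
          exact (hoth p le_rfl (by omega) L le_rfl).2
        · rcases Nat.lt_or_ge x k with h2 | h2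
          · exact ((hinB x h1 h2).2.2 p le_rfl (by omega)).2
          · have : x = k := by omega
            rw [this, hw'k]
            exact hcd p (by omega) p (by omega)
      have hw1inj : ∀ x ≤ k + 1, ∀ y ≤ k + 1, w1 x = w1 y → x = y := by
        intro x hx y hy he
        rcases Nat.lt_or_ge k x with h1 | h1 <;> rcases Nat.lt_or_ge k y with h2 | h2
        · omega
        · exfalso
          have : x = k + 1 := by omega
          rw [this, hw1b] at he
          exact hw1c y h2 he.symm
        · exfalso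
          have : y = k + 1 := by omega
          rw [this, hw1b] at he
          exact hw1c x h1 he
        · rw [hw1a x h1, hw1a y h2] at he
          exact hw'inj x h1 y h2 he
      have hw1oth : ∀ y, 0 < y → y ≤ k + 1 → w1 y ∉ B ∧ (∀ x ≤ L, w x ≠ w1 y) ∧
          ∀ j, p + 1 ≤ j → j < m → w1 y ≠ c j ∧ w1 y ≠ d j := by
        intro y hy1 hy2
        rcases Nat.lt_or_ge y k with h1 | h1
        · rw [hw1a y h1.le]
          obtain ⟨a1, a2, a3⟩ := hinB y hy1 h1
          exact ⟨a1, fun x hx he => a2 x hx he.symm, fun j hj1 hj2 => a3 j (by omega) hj2⟩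
        · rcases Nat.lt_or_ge k y with h2 | h2
          · have : y = k + 1 := by omega
            rw [this, hw1b]
            refine ⟨(hB p (by omega)).2, fun x hx => (hoth p le_rfl (by omega) x hx).2, ?_⟩
            intro j hj1 hj2
            exact ⟨fun h => hcd j hj2 p (by omega) h.symm,
              (hdis p (by omega) j hj2 (by omega)).2⟩
          · have : y = k := by omega
            rw [this, hw1a k le_rfl, hw'k]
            refine ⟨(hB p (by omega)).1, fun x hx => (hoth p le_rfl (by omega) x hx).1, ?_⟩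
            intro j hj1 hj2
            exact ⟨(hdis p (by omega) j hj2 (by omega)).1, hcd p (by omega) j hj2⟩
      obtain ⟨w2, hw2a, hw2b, hw2inj⟩ := pth_glue (w := w) (w' := w1) (L := L) (k := k + 1)
        (by rw [hw1a 0 (Nat.zero_le _), hw'0]) hinj hw1inj
        (fun x hx y hy1 hy2 => (hw1oth y hy1 hy2).2.1 x hx)
      refine ⟨L + (k + 1), w2, fun j => if j < p then s j else L + k, ?_, hw2inj, ?_, ?_, ?_, ?_,
        ?_, ?_⟩
      · rw [Nat.add_mul, one_mul]
        omega
      · intro j hj
        show (if j < p then s j else L + k) + 1 ≤ L + (k + 1) ∧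
          w2 (if j < p then s j else L + k) = c j ∧
          w2 ((if j < p then s j else L + k) + 1) = d j
        rcases Nat.lt_or_ge j p with h1 | h1
        · obtain ⟨a1, a2, a3⟩ := hs j h1
          rw [if_pos h1, hw2a _ (by omega), hw2a _ a1]
          exact ⟨by omega, a2, a3⟩
        · have : j = p := by omega
          subst this
          rw [if_neg (by omega), hw2b, hw1a k le_rfl, hw'k,
            show L + k + 1 = L + (k + 1) by omega, hw2b, hw1b]
          exact ⟨le_rfl, rfl, rfl⟩
      · intro j j' h1 h2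
        show (if j < p then s j else L + k) < (if j' < p then s j' else L + k)
        rcases Nat.lt_or_ge j' p with h3 | h3
        · rw [if_pos (by omega), if_pos h3]
          exact hsm j j' h1 h3
        · rw [if_pos (by omega), if_neg (by omega)]
          have := (hs j (by omega)).1
          omega
      · intro x hx
        rcases Nat.lt_or_ge L x with h1 | h1
        · obtain ⟨y, rfl⟩ : ∃ y, x = L + y := ⟨x - L, by omega⟩
          rw [hw2b]
          exact (hw1oth y (by omega) (by omega)).1
        · rw [hw2a x h1]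
          exact hwB x h1
      · intro x hx
        rcases Nat.lt_or_ge x L with h1 | h1
        · rcases harc x h1 with ⟨j, hj, hxj⟩ | h2
          · refine Or.inl ⟨j, by omega, ?_⟩
            show x = if j < p then s j else L + k
            rw [if_pos hj]
            exact hxj
          · right
            rw [hw2a x h1.le, hw2a (x + 1) h1]
            exact h2
        · obtain ⟨y, rfl⟩ : ∃ y, x = L + y := ⟨x - L, by omega⟩
          rcases Nat.lt_or_ge y k with h2 | h2
          · right
            rw [hw2b, show L + y + 1 = L + (y + 1) by omega, hw2b, hw1a y h2.le, hw1a (y + 1) h2]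
            exact hw'S y h2
          · left
            refine ⟨p, by omega, ?_⟩
            show L + y = if p < p then s p else L + k
            rw [if_neg (by omega)]
            omega
      · rw [hw2b, hw1b, Nat.add_sub_cancel]
      · intro j hj1 hj2 x hx
        rcases Nat.lt_or_ge L x with h1 | h1
        · obtain ⟨y, rfl⟩ : ∃ y, x = L + y := ⟨x - L, by omega⟩
          rw [hw2b]
          exact (hw1oth y (by omega) (by omega)).2.2 j hj1 hj2
        · rw [hw2a x h1]
          exact hoth j (by omega) hj2 x h1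
  obtain ⟨L, w, s, h1, h2, h3, h4, h5, h6, -⟩ := key m hm le_rfl
  exact ⟨L, w, s, h1, h2, h3, h4, h5, h6⟩

end Pool.Agent.MPd266dbE
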