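import Pool.Agent.Lib.MP_d266db_co.E.SpecD

set_option autoImplicit false

namespace Pool.Agent.MPd266dbE

open Finset Pool.Agent.MPd266db Pool.Agent.MPd266dbH

theorem tPts (hXPk : S_XPk) (hPtF : S_PtF) : S_Pts := by
  classical
  intro n K G p Δ ℓ b z0 z Mx S Xe U0 Z0 o i B P g hHm hCn hown hZ0 hz hSX hXn hXd hΔ hXB hBal hU0
    hcard hP1 hb hg hPq hPd
  -- one after the other
  have key : ∀ m ≤ G, ∃ (π : Fin G → Equiv.Perm (Fin n)) (X : Fin G → Finset (Fin n × Fin n))
      (Z U : Finset (Fin n × Fin n)), Z0 ⊆ Z ∧ Dg Z (z0 + m) ∧ U0 ⊆ U ∧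
      U.card ≤ U0.card + m * p ∧
      (∀ g' : Fin G, (g' : ℕ) < m → X g' ⊆ Xe \ U0 ∧ X g' ⊆ U ∧ arcs (π g') ⊆ Z ∧
        (∀ q ∈ P g', π g' q.1 = q.2.2.1 ∧ π g' q.2.1 = q.2.2.2) ∧
        (∀ v, (v, π g' v) ∈ qar (P g') ∪ ((S \ Z0) ∪ X g')) ∧
        ∀ E ⊆ qpr (P g'), Even E.card → ∀ τ : Equiv.Perm (Fin n), Tog E τ → Ham (π g' * τ)) ∧
      ∀ g' g'' : Fin G, (g' : ℕ) < m → (g'' : ℕ) < m → g' ≠ g'' → ∀ v, π g' v ≠ π g'' v := by
    intro m
    induction m with
    | zero =>
      intro _
      exact ⟨fun _ => 1, fun _ => ∅, Z0, U0, subset_rfl, by simpa using hZ0, subset_rfl, by simp,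
        fun g' hg' => absurd hg' (by omega), fun g' g'' hg' => absurd hg' (by omega)⟩
    | succ m ih =>
      intro hm
      obtain ⟨π, X, Z, U, h1, h2, h3, h4, h5, h6⟩ := ih (by omega)
      have hmp : m * p ≤ G * p := Nat.mul_le_mul_right p (by omega)
      obtain ⟨Xn, hXn1, hXn2, hXn3, -⟩ := hXPk n p Δ Xe U ∅ hXn hXd hΔ (by
        rw [sum_empty]
        omega)
      have hXnE : Xn ⊆ Xe := fun a ha => (mem_sdiff.1 (hXn1 ha)).1
      have hZz : Dg Z z := h2.mono subset_rfl (by omega)
      set gm : Fin G := ⟨m, by omega⟩ with hgm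
      have hPc := hP1 gm
      have hmul : 2 * (P gm).card * (ℓ + 2) ≤ 2 * Mx * (ℓ + 2) :=
        Nat.mul_le_mul_right _ (Nat.mul_le_mul_left 2 hPc.2)
      have hmul2 : 2 * (P gm).card * (ℓ + 1) ≤ 2 * Mx * (ℓ + 1) :=
        Nat.mul_le_mul_right _ (Nat.mul_le_mul_left 2 hPc.2)
      obtain ⟨hq1, hq2, hq3⟩ := hPq gm
      obtain ⟨πn, -, hπ1, hπ2, hπ3, hπ4⟩ := hPtF n K ℓ b (S \ Z) Xn o i B (P gm) g hPc.1
        (hHm Z hZz) (hCn Z hZz) (fun e he => hown e (mem_sdiff.1 he).1) hXn2
        (fun v hv => hXB (by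
          unfold vts at hv ⊢
          rw [mem_union, mem_tls, mem_hds] at hv ⊢
          rcases hv with ⟨e, he, rfl⟩ | ⟨e, he, rfl⟩
          · exact Or.inl ⟨e, hXnE he, rfl⟩
          · exact Or.inr ⟨e, hXnE he, rfl⟩))
        (hBal Xn hXnE hXn2 hXn3) (by omega)
        (le_trans (Nat.cast_le.2 (by omega)) hg) hq1 hq3 (fun q hq => by
          constructor
          · exact hown (q.1, q.2.2.1) (mem_inter.1 (hq2 (mem_union_left _
              (mem_image.2 ⟨q, hq, rfl⟩)))).2
          · exact hown (q.2.1, q.2.2.2) (mem_inter.1 (hq2 (mem_union_right _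
              (mem_image.2 ⟨q, hq, rfl⟩)))).2)
      have hc : ∀ v, (v, πn v) ∈ qar (P gm) ∪ ((S \ Z) ∪ Xn) := by
        intro v
        by_cases hv : v ∈ tls Xn
        · obtain ⟨e, he, rfl⟩ := mem_tls.1 hv
          rw [hπ1 e he]
          exact mem_union_right _ (mem_union_right _ he)
        by_cases hv2 : ∀ q ∈ P gm, v ≠ q.1 ∧ v ≠ q.2.1
        · exact mem_union_right _ (mem_union_left _ (hπ3 v hv hv2))
        push Not at hv2
        obtain ⟨q, hq, hv3⟩ := hv2
        by_cases hv4 : v = q.1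
        · subst hv4
          rw [(hπ2 q hq).1]
          exact mem_union_left _ (mem_union_left _ (mem_image.2 ⟨q, hq, rfl⟩))
        · have hv5 := hv3 hv4
          subst hv5
          rw [(hπ2 q hq).2]
          exact mem_union_left _ (mem_union_right _ (mem_image.2 ⟨q, hq, rfl⟩))
      have hdis : ∀ g' : Fin G, (g' : ℕ) < m → ∀ v, πn v ≠ π g' v := by
        intro g' hg' v hv
        obtain ⟨a1, a2, a3, a4, a5, a6⟩ := h5 g' hg'
        have hv1 := hc v
        have hv2 := a5 v
        rw [← hv] at hv2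
        have hv3 : (v, πn v) ∈ Z := a3 (mem_arcs.2 hv.symm)
        have hne : g' ≠ gm := by
          intro h
          rw [h, hgm] at hg'
          exact lt_irrefl _ hg'
        rw [mem_union, mem_union] at hv1 hv2
        rcases hv1 with hv1 | hv1 | hv1
        · have hv4 := mem_inter.1 (hq2 hv1)
          rcases hv2 with hv2 | hv2 | hv2
          · exact disjoint_left.1 (hPd g' gm hne) hv2 hv1
          · exact (mem_sdiff.1 hv2).2 hv4.1
          · exact disjoint_left.1 hSX hv4.2 (mem_sdiff.1 (a1 hv2)).1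
        · exact (mem_sdiff.1 hv1).2 hv3
        · have hv4 := mem_sdiff.1 (hXn1 hv1)
          rcases hv2 with hv2 | hv2 | hv2
          · exact disjoint_left.1 hSX (mem_inter.1 ((hPq g').2.1 hv2)).2 hv4.1
          · exact disjoint_left.1 hSX (mem_sdiff.1 hv2).1 hv4.1
          · exact hv4.2 (a2 hv2)
      refine ⟨Function.update π gm πn, Function.update X gm Xn, Z ∪ arcs πn, U ∪ Xn,
        h1.trans subset_union_left, ?_, h3.trans subset_union_left, ?_, ?_, ?_⟩
      · rw [← add_assoc]
        exact h2.union (Dg.arcs πn)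
      · refine (card_union_le _ _).trans ?_
        rw [hXn3, add_mul, one_mul]
        omega
      · intro g' hg'
        by_cases hgg : g' = gm
        · subst hgg
          rw [Function.update_self, Function.update_self]
          refine ⟨fun a ha => ?_, subset_union_right, subset_union_right, hπ2, fun v => ?_, hπ4⟩
          · have := mem_sdiff.1 (hXn1 ha)
            exact mem_sdiff.2 ⟨this.1, fun h => this.2 (h3 h)⟩
          · have hv := hc v
            rw [mem_union, mem_union] at hv ⊢
            rcases hv with hv | hv | hv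
            · exact Or.inl hv
            · have := mem_sdiff.1 hv
              exact Or.inr (Or.inl (mem_sdiff.2 ⟨this.1, fun h => this.2 (h1 h)⟩))
            · exact Or.inr (Or.inr hv)
        · rw [Function.update_of_ne hgg, Function.update_of_ne hgg]
          have hg'' : (g' : ℕ) < m := by
            have : (g' : ℕ) ≠ m := fun h => hgg (Fin.ext h)
            omega
          obtain ⟨a1, a2, a3, a4, a5, a6⟩ := h5 g' hg''
          exact ⟨a1, a2.trans subset_union_left, a3.trans subset_union_left, a4, a5, a6⟩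
      · intro g' g'' hg' hg'' hne v
        by_cases e1 : g' = gm
        · have e2 : g'' ≠ gm := fun h => hne (e1.trans h.symm)
          rw [e1, Function.update_self, Function.update_of_ne e2]
          refine hdis g'' ?_ v
          have : (g'' : ℕ) ≠ m := fun h => e2 (Fin.ext h)
          omega
        · have h7 : (g' : ℕ) < m := by
            have : (g' : ℕ) ≠ m := fun h => e1 (Fin.ext h)
            omega
          by_cases e2 : g'' = gm
          · rw [e2, Function.update_self, Function.update_of_ne e1]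
            exact (hdis g' h7 v).symm
          · rw [Function.update_of_ne e1, Function.update_of_ne e2]
            refine h6 g' g'' h7 ?_ hne v
            have : (g'' : ℕ) ≠ m := fun h => e2 (Fin.ext h)
            omega
  obtain ⟨π, X, Z, U, -, -, -, -, h5, h6⟩ := key G le_rfl
  refine ⟨π, fun g' g'' hne v => h6 g' g'' g'.isLt g''.isLt hne v, fun g' => ?_⟩
  obtain ⟨a1, a2, a3, a4, a5, a6⟩ := h5 g' g'.isLt
  refine ⟨a4, fun v => ?_, a6⟩
  have hv := a5 v
  rw [mem_union, mem_union] at hv ⊢
  rcases hv with hv | hv | hv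
  · exact Or.inl hv
  · exact Or.inr (Or.inl hv)
  · exact Or.inr (Or.inr (a1 hv))

end Pool.Agent.MPd266dbE
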