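import Pool.Agent.Lib.MP_d266db_co.E.SpecH

/-!
# MP_d266db_co, E, RbS: robustness at a smaller scale
-/

set_option autoImplicit false

namespace Pool.Agent.MPd266dbE

open Finset Pool.Agent.MPd266db Pool.Agent.MPd266dbH

private theorem rbs_cnt {n : ℕ} (E : Finset (Fin n × Fin n)) (S X Y Z : Finset (Fin n)) (t : ℝ)
    (hSX : S ⊆ X) (hq : ∀ q ∈ E, q.1 ∈ S → q.2 ∈ Y ∪ Z)
    (hd : ∀ v ∈ S, t + Z.card ≤ (od E v : ℝ)) : (S.card : ℝ) * t ≤ eb E X Y := by
  have h1 : eb E S univ ≤ eb E S Y + eb E S Z := by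
    unfold eb
    refine (card_le_card fun q hq' => ?_).trans (card_union_le _ _)
    simp only [mem_filter, mem_univ, and_true, mem_union] at hq' ⊢
    rcases mem_union.mp (hq q hq'.1 hq'.2) with h | h
    · exact Or.inl ⟨hq'.1, hq'.2, h⟩
    · exact Or.inr ⟨hq'.1, hq'.2, h⟩
  have h2 : eb E S Y ≤ eb E X Y := eb_mono (Subset.refl _) hSX (Subset.refl _)
  have h3 : eb E S Z ≤ S.card * Z.card := eb_le_card_mul E S Z
  have h4 : (S.card : ℝ) * (t + Z.card) ≤ (eb E S univ : ℝ) := by
    rw [eb_univ_right]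
    push_cast
    calc (S.card : ℝ) * (t + Z.card) = ∑ _v ∈ S, (t + Z.card) := by
          rw [sum_const, nsmul_eq_mul]
      _ ≤ ∑ v ∈ S, (od E v : ℝ) := sum_le_sum hd
  have h5 : (eb E S univ : ℝ) ≤ eb E S Y + eb E S Z := by exact_mod_cast h1
  have h6 : (eb E S Y : ℝ) ≤ eb E X Y := by exact_mod_cast h2
  have h7 : (eb E S Z : ℝ) ≤ S.card * Z.card := by exact_mod_cast h3
  nlinarith

private theorem rbs_one {n K B : ℕ} {R : Finset (Fin n × Fin n)} {o i : Fin n → Fin K}
    {β θ0 β' : ℝ} (hθ : 0 < θ0) (h2β : 2 * β ≤ θ0) (hB : 4 * (B : ℝ) ≤ β' * n)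
    (hod : (univ.filter (fun v => (od (own o i R) v : ℝ) < θ0 * n)).card ≤ B)
    (hid : (univ.filter (fun v => (idg (own o i R) v : ℝ) < θ0 * n)).card ≤ B)
    (a : Fin K) (X Y : Finset (Fin n)) (hX : X ⊆ Cl o a)
    (h1 : β' * n ≤ (X.card : ℝ) + (Cl i a \ Y).card)
    (h2 : (X.card : ℝ) + (Cl i a \ Y).card < β * n) :
    θ0 * β' / 4 * (n : ℝ) ^ 2 ≤ (eb R X Y : ℝ) + eb R (Cl o a \ X) (Cl i a \ Y) := by
  have hn0 : (0 : ℝ) ≤ n := Nat.cast_nonneg n
  have hXc : (0 : ℝ) ≤ X.card := Nat.cast_nonneg _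
  have hYc : (0 : ℝ) ≤ (Cl i a \ Y).card := Nat.cast_nonneg _
  have hsub : own o i R ⊆ R := filter_subset _ _
  -- tails
  have e1 : ((X.card : ℝ) - B) * (θ0 / 2 * n) ≤ eb R X Y := by
    have h3 := rbs_cnt (own o i R) (X.filter fun v => θ0 * n ≤ (od (own o i R) v : ℝ)) X Y
      (Cl i a \ Y) (θ0 / 2 * n) (filter_subset _ _) ?_ ?_
    · have h4 : (X.card : ℝ) ≤ (X.filter fun v => θ0 * n ≤ (od (own o i R) v : ℝ)).card + B := by
        have h5 : X.card ≤ (X.filter fun v => θ0 * n ≤ (od (own o i R) v : ℝ)).card +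
            (univ.filter (fun v => (od (own o i R) v : ℝ) < θ0 * n)).card := by
          rw [← card_filter_add_card_filter_not (s := X)
            (fun v => θ0 * n ≤ (od (own o i R) v : ℝ))]
          refine Nat.add_le_add_left (card_le_card fun v hv => ?_) _
          simp only [mem_filter, mem_univ, true_and, not_le] at hv ⊢
          exact hv.2
        exact_mod_cast h5.trans (Nat.add_le_add_left hod _)
      have h6 : (eb (own o i R) X Y : ℝ) ≤ eb R X Y := by
        exact_mod_cast eb_mono hsub (Subset.refl _) (Subset.refl _)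
      have h7 : 0 ≤ θ0 / 2 * n := by positivity
      nlinarith
    · intro q hq hq1
      simp only [own, mem_filter] at hq
      have h3 : o q.1 = a := (mem_filter.mp (hX (mem_filter.mp hq1).1)).2
      have h4 : q.2 ∈ Cl i a := by
        rw [Cl, mem_filter]
        exact ⟨mem_univ _, by rw [← hq.2, h3]⟩
      by_cases h5 : q.2 ∈ Y
      · exact mem_union_left _ h5
      · exact mem_union_right _ (mem_sdiff.mpr ⟨h4, h5⟩)
    · intro v hv
      have h3 := (mem_filter.mp hv).2
      nlinarith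
  -- heads
  have e2 : (((Cl i a \ Y).card : ℝ) - B) * (θ0 / 2 * n) ≤ eb R (Cl o a \ X) (Cl i a \ Y) := by
    have h3 := rbs_cnt (rev (own o i R))
      ((Cl i a \ Y).filter fun v => θ0 * n ≤ (idg (own o i R) v : ℝ)) (Cl i a \ Y) (Cl o a \ X)
      X (θ0 / 2 * n) (filter_subset _ _) ?_ ?_
    · rw [eb_rev] at h3
      have h4 : ((Cl i a \ Y).card : ℝ) ≤
          ((Cl i a \ Y).filter fun v => θ0 * n ≤ (idg (own o i R) v : ℝ)).card + B := by
        have h5 : (Cl i a \ Y).card ≤
            ((Cl i a \ Y).filter fun v => θ0 * n ≤ (idg (own o i R) v : ℝ)).card +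
            (univ.filter (fun v => (idg (own o i R) v : ℝ) < θ0 * n)).card := by
          rw [← card_filter_add_card_filter_not (s := Cl i a \ Y)
            (fun v => θ0 * n ≤ (idg (own o i R) v : ℝ))]
          refine Nat.add_le_add_left (card_le_card fun v hv => ?_) _
          simp only [mem_filter, mem_univ, true_and, not_le] at hv ⊢
          exact hv.2
        exact_mod_cast h5.trans (Nat.add_le_add_left hid _)
      have h6 : (eb (own o i R) (Cl o a \ X) (Cl i a \ Y) : ℝ) ≤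
          eb R (Cl o a \ X) (Cl i a \ Y) := by
        exact_mod_cast eb_mono hsub (Subset.refl _) (Subset.refl _)
      have h7 : 0 ≤ θ0 / 2 * n := by positivity
      nlinarith
    · rintro ⟨w, v⟩ hq hq1
      rw [mem_rev] at hq
      simp only [own, mem_filter] at hq
      have h3 : i w = a := (mem_filter.mp (mem_sdiff.mp (mem_filter.mp hq1).1).1).2
      have h4 : v ∈ Cl o a := by
        rw [Cl, mem_filter]
        exact ⟨mem_univ _, by rw [hq.2, h3]⟩
      by_cases h5 : v ∈ X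
      · exact mem_union_right _ h5
      · exact mem_union_left _ (mem_sdiff.mpr ⟨h4, h5⟩)
    · intro v hv
      have h3 := (mem_filter.mp hv).2
      rw [od_rev]
      nlinarith
  have h8 : β' * n - 2 * B ≤ ((X.card : ℝ) - B) + (((Cl i a \ Y).card : ℝ) - B) := by linarith
  have h9 : β' * n / 2 ≤ β' * n - 2 * B := by linarith
  have h10 : 0 ≤ θ0 / 2 * n := by positivity
  have h11 : β' * n / 2 * (θ0 / 2 * n) ≤
      (((X.card : ℝ) - B) + (((Cl i a \ Y).card : ℝ) - B)) * (θ0 / 2 * n) :=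
    mul_le_mul_of_nonneg_right (h9.trans h8) h10
  have h12 : θ0 * β' / 4 * (n : ℝ) ^ 2 = β' * n / 2 * (θ0 / 2 * n) := by ring
  rw [h12]
  linarith

theorem tRbS : S_RbS := by
  intro n K B R o i β ν θ0 β' hRob hθ hβ' h2β hB hod hid a X Y hX hY h1 h2
  have hn0 : (0 : ℝ) ≤ (n : ℝ) ^ 2 := by positivity
  by_cases c1 : β * n ≤ (X.card : ℝ) + (Cl i a \ Y).card
  · by_cases c2 : β * n ≤ ((Cl o a \ X).card : ℝ) + Y.card
    · exact (mul_le_mul_of_nonneg_right (min_le_left _ _) hn0).trans (hRob a X Y hX hY c1 c2)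
    · push Not at c2
      have hXX : Cl o a \ (Cl o a \ X) = X := by
        rw [sdiff_sdiff_right_self]
        exact inf_eq_right.mpr hX
      have hYY : Cl i a \ (Cl i a \ Y) = Y := by
        rw [sdiff_sdiff_right_self]
        exact inf_eq_right.mpr hY
      have h3 := rbs_one hθ h2β hB hod hid a (Cl o a \ X) (Cl i a \ Y) sdiff_subset
        (by rw [hYY]; exact h2) (by rw [hYY]; exact c2)
      rw [hXX, hYY] at h3
      refine (mul_le_mul_of_nonneg_right (min_le_right _ _) hn0).trans ?_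
      linarith
  · push Not at c1
    exact (mul_le_mul_of_nonneg_right (min_le_right _ _) hn0).trans
      (rbs_one hθ h2β hB hod hid a X Y hX h1 c1)

end Pool.Agent.MPd266dbE
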