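import Pool.Agent.Lib.MP_d266db_co.E.SpecA

/-!
# MP_d266db_co, E: rematching everything
-/

set_option autoImplicit false

namespace Pool.Agent.MPd266dbE

open Finset Pool.Agent.MPd266db Pool.Agent.MPd266dbH

/-- the matching inside a pair of clusters -/
private theorem rmt0_match (hNPM : S_NPM) {n s h : ℕ} {S : Finset (Fin n × Fin n)} {β1 d : ℝ}
    {T H : Finset (Fin n)}
    (hdens : ∀ A B : Finset (Fin n), A ⊆ T → B ⊆ H → β1 * s ≤ A.card → β1 * s ≤ B.card →
      d * A.card * B.card ≤ eb S A B) (hd : 0 < d) (hh : β1 * s ≤ h) (hh1 : 1 ≤ h) :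
    ∃ (X : Finset (Fin n)) (φ : Fin n → Fin n), X ⊆ T ∧ Set.InjOn φ X ∧
      (∀ v ∈ X, φ v ∈ H ∧ (v, φ v) ∈ S) ∧ (T.card ≤ X.card + h ∨ H.card ≤ X.card + h) := by
  refine hNPM n h S T H fun A' B' hA' hB' h1 h2 => ?_
  have c1 : (h : ℝ) ≤ A'.card := by exact_mod_cast h1
  have c2 : (h : ℝ) ≤ B'.card := by exact_mod_cast h2
  have c3 : (1 : ℝ) ≤ h := by exact_mod_cast hh1
  have e1 := hdens A' B' hA' hB' (hh.trans c1) (hh.trans c2)
  have e2 : 0 < d * A'.card * B'.card :=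
    mul_pos (mul_pos hd (by linarith)) (by linarith)
  have e3 : 0 < eb S A' B' := by exact_mod_cast e2.trans_le e1
  unfold eb at e3
  obtain ⟨e, he⟩ := card_pos.1 e3
  rw [mem_filter] at he
  exact ⟨e.1, he.2.1, e.2, he.2.2, he.1⟩

/-- gluing functions on disjoint sets -/
private theorem rmt0_glue {n k : ℕ} (X : Fin k → Finset (Fin n))
    (hX : ∀ p p', p ≠ p' → Disjoint (X p) (X p')) (φ : Fin k → Fin n → Fin n) :
    ∃ ψ : Fin n → Fin n, ∀ p, ∀ v ∈ X p, ψ v = φ p v := by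
  classical
  refine ⟨fun v => if h : ∃ p, v ∈ X p then φ h.choose v else v, fun p v hv => ?_⟩
  have h : ∃ p, v ∈ X p := ⟨p, hv⟩
  have e : h.choose = p := by
    by_contra hne
    exact disjoint_left.1 (hX _ _ hne) h.choose_spec hv
  simp only [dif_pos h, e]

/-- counting with a partial cover -/
private theorem rmt0_cnt {n k : ℕ} (Y : Fin k → Finset (Fin n)) (D : Finset (Fin n))
    (P : Fin n → Prop) [DecidablePred P] :
    (D.filter P).card ≤ ∑ p, ((Y p).filter P).card + (D \ univ.biUnion Y).card := by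
  have h : D.filter P ⊆ univ.biUnion (fun p => (Y p).filter P) ∪ (D \ univ.biUnion Y) := by
    intro v hv
    rw [mem_filter] at hv
    by_cases h : v ∈ univ.biUnion Y
    · rw [mem_biUnion] at h
      obtain ⟨p, hp, hvp⟩ := h
      exact mem_union_left _ (mem_biUnion.2 ⟨p, hp, mem_filter.2 ⟨hvp, hv.2⟩⟩)
    · exact mem_union_right _ (mem_sdiff.2 ⟨hv.1, h⟩)
  exact (card_le_card h).trans ((card_union_le _ _).trans (Nat.add_le_add_right card_biUnion_le _))

/-- the complement of a union of disjoint sets -/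
private theorem rmt0_cmp {n k : ℕ} (Y : Fin k → Finset (Fin n))
    (hY : ∀ p p', p ≠ p' → Disjoint (Y p) (Y p')) :
    (univ \ univ.biUnion Y).card + ∑ p, (Y p).card = n := by
  have e1 : (univ.biUnion Y).card = ∑ p, (Y p).card :=
    card_biUnion fun p _ p' _ hne => hY p p' hne
  rw [← e1]
  have h2 := card_sdiff_add_card_eq_card (subset_univ (univ.biUnion Y))
  rw [card_univ, Fintype.card_fin] at h2
  exact h2

/-- out-degrees as filters -/
private theorem rmt0_od {n : ℕ} (S : Finset (Fin n × Fin n)) (u : Fin n) :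
    (univ.filter (fun w => (u, w) ∈ S)).card = od S u := by
  unfold od
  refine card_bij (fun v _ => (u, v)) (fun v hv => mem_filter.2 ⟨(mem_filter.1 hv).2, rfl⟩)
    (fun v _ w _ hvw => (Prod.ext_iff.1 hvw).2) fun e he => ?_
  rw [mem_filter] at he
  refine ⟨e.2, mem_filter.2 ⟨mem_univ _, ?_⟩, ?_⟩
  · rw [← he.2]
    exact he.1
  · rw [← he.2]

/-- in-degrees as filters -/
private theorem rmt0_id {n : ℕ} (S : Finset (Fin n × Fin n)) (w : Fin n) :
    (univ.filter (fun v => (v, w) ∈ S)).card = idg S w := by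
  unfold idg
  refine card_bij (fun v _ => (v, w)) (fun v hv => mem_filter.2 ⟨(mem_filter.1 hv).2, rfl⟩)
    (fun v _ v' _ hvw => (Prod.ext_iff.1 hvw).1) fun e he => ?_
  rw [mem_filter] at he
  refine ⟨e.1, mem_filter.2 ⟨mem_univ _, ?_⟩, ?_⟩
  · rw [← he.2]
    exact he.1
  · rw [← he.2]

theorem tRmt0 (hNPM : S_NPM) (hExt : S_Ext) : S_Rmt0 := by
  classical
  intro n K k s S o i cl T H Γ β1 d c ν ε θ σ hR hε hεθ hθ1 hβ0 hβ hs16 hd hod hid hσ
  have hn0 : (0 : ℝ) ≤ n := Nat.cast_nonneg _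
  have hs0 : (0 : ℝ) < s := by
    by_contra hcon
    have h1 : (s : ℝ) ≤ 0 := not_lt.1 hcon
    have h2 := mul_le_mul_of_nonneg_left h1 hε.le
    linarith
  have hε1 : ε ≤ 1 / 4 := by linarith
  have hβs : 0 < β1 * s := mul_pos hβ0 hs0
  have hh1 : 1 ≤ ⌈β1 * s⌉₊ := Nat.one_le_ceil_iff.2 hβs
  have hh2 : (⌈β1 * s⌉₊ : ℝ) < β1 * s + 1 := Nat.ceil_lt_add_one hβs.le
  obtain ⟨h, hh⟩ : ∃ h, h = ⌈β1 * s⌉₊ := ⟨_, rfl⟩
  rw [← hh] at hh1 hh2
  have hhβ : β1 * s ≤ h := by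
    rw [hh]
    exact Nat.le_ceil _
  have hhε : (h : ℝ) ≤ ε / 8 * s := by
    have h2 := mul_le_mul_of_nonneg_right hβ hs0.le
    linarith
  choose X φ hXT hφi hφ hXc using fun p => rmt0_match hNPM (hR.dens p p (hR.loop p)) hd hhβ hh1
  have hφH : ∀ p, ∀ v ∈ X p, φ p v ∈ H p := fun p v hv => (hφ p v hv).1
  have hdX : ∀ p p', p ≠ p' → Disjoint (X p) (X p') := fun p p' hne =>
    (hR.dT p p' hne).mono (hXT p) (hXT p')
  obtain ⟨Y, hY⟩ : ∃ Y : Fin k → Finset (Fin n), ∀ p, Y p = (X p).image (φ p) := ⟨_, fun _ => rfl⟩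
  have hYH : ∀ p, Y p ⊆ H p := by
    intro p w hw
    rw [hY p] at hw
    obtain ⟨v, hv, rfl⟩ := mem_image.1 hw
    exact hφH p v hv
  have hdY : ∀ p p', p ≠ p' → Disjoint (Y p) (Y p') := fun p p' hne =>
    (hR.dH p p' hne).mono (hYH p) (hYH p')
  have hXY : ∀ p, (X p).card = (Y p).card := by
    intro p
    rw [hY p, card_image_of_injOn (hφi p)]
  have hXlow : ∀ p, (1 - ε / 8) * s ≤ ((X p).card : ℝ) := by
    intro p
    have h1 : s ≤ (X p).card + h := by
      rcases hXc p with h1 | h1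
      · rwa [hR.sT p] at h1
      · rwa [hR.sH p] at h1
    have h2 : (s : ℝ) ≤ (X p).card + h := by exact_mod_cast h1
    linarith
  have hXup : ∀ p, ((X p).card : ℝ) ≤ s := by
    intro p
    have h1 := card_le_card (hXT p)
    rw [hR.sT p] at h1
    exact_mod_cast h1
  -- the permutation
  obtain ⟨ψ, hψ⟩ := rmt0_glue X hdX φ
  obtain ⟨ρ0, hρ1, -, hρ3⟩ := hExt n K o i σ univ (univ.biUnion X) ψ (fun v _ => hσ v)
    (subset_univ _) (by
    intro v hv
    obtain ⟨p, _, hvp⟩ := mem_biUnion.1 hv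
    rw [hψ p v hvp]
    exact ⟨mem_image.2 ⟨σ.symm (φ p v), mem_univ _, σ.apply_symm_apply _⟩,
      by rw [hR.iH p _ (hφH p v hvp), hR.oT p _ (hXT p hvp)]⟩) (by
    intro v hv v' hv' e
    obtain ⟨p, _, hvp⟩ := mem_biUnion.1 (mem_coe.1 hv)
    obtain ⟨p', _, hvp'⟩ := mem_biUnion.1 (mem_coe.1 hv')
    rw [hψ p v hvp, hψ p' v' hvp'] at e
    by_cases hpp : p = p'
    · subst hpp
      exact hφi p hvp hvp' e
    · exfalso
      refine disjoint_left.1 (hR.dH p p' hpp) (hφH p v hvp) ?_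
      rw [e]
      exact hφH p' v' hvp')
  -- the numbers
  have hVc : (((univ : Finset (Fin n)) \ univ.biUnion X).card : ℝ) ≤ ε / 4 * n := by
    have h1 := rmt0_cmp X hdX
    have h2 : (((univ : Finset (Fin n)) \ univ.biUnion X).card : ℝ) + ∑ p, ((X p).card : ℝ) = n := by
      exact_mod_cast h1
    have h3 : ∑ _p : Fin k, (1 - ε / 8) * (s : ℝ) ≤ ∑ p, ((X p).card : ℝ) :=
      sum_le_sum fun p _ => hXlow p
    rw [sum_const, card_univ, Fintype.card_fin, nsmul_eq_mul] at h3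
    have h4 := mul_le_mul_of_nonneg_left hR.cov (by linarith : (0 : ℝ) ≤ 1 - ε / 8)
    have h5 := mul_nonneg (sq_nonneg ε) hn0
    have h6 : (k : ℝ) * ((1 - ε / 8) * s) = (1 - ε / 8) * (k * s) := by ring
    have h7 : (1 - ε / 8) * ((1 - ε / 8) * (n : ℝ)) = n - ε / 4 * n + ε ^ 2 * n / 64 := by ring
    linarith
  have hVY : ((univ : Finset (Fin n)) \ univ.biUnion Y).card =
      ((univ : Finset (Fin n)) \ univ.biUnion X).card := by
    have h1 := rmt0_cmp X hdX
    have h2 := rmt0_cmp Y hdY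
    have h3 : ∑ p, (Y p).card = ∑ p, (X p).card := sum_congr rfl fun p _ => (hXY p).symm
    omega
  have hεn : ε * n ≤ θ / 4 * n := mul_le_mul_of_nonneg_right (by linarith) hn0
  have hεn0 : 0 ≤ ε * n := mul_nonneg hε.le hn0
  have hεs0 : 0 ≤ ε * s := mul_nonneg hε.le hs0.le
  refine ⟨univ \ univ.biUnion X, X, Y, ρ0, fun p => ⟨hXT p, hYH p, hXY p, ?_, ?_⟩,
    ⟨?_, ?_, ?_, ?_, ?_⟩, rfl, ?_, ?_, ?_⟩
  · have h1 := hXlow p
    linarith
  · have h1 := hXup p
    linarith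
  · intro p v hv _
    rw [hρ1 v (mem_biUnion.2 ⟨p, mem_univ p, hv⟩), hψ p v hv, hY p]
    exact mem_image_of_mem _ hv
  · intro v hv _
    exact absurd (mem_univ v) hv
  · intro v hv
    have hvZ : v ∈ univ.biUnion X := by
      by_contra hcon
      exact hv (mem_sdiff.2 ⟨mem_univ v, hcon⟩)
    obtain ⟨p, _, hvp⟩ := mem_biUnion.1 hvZ
    rw [hρ1 v hvZ, hψ p v hvp]
    exact Or.inr (hφ p v hvp).2
  · intro v _
    exact (hρ3 v (mem_univ v)).2
  · intro v hv
    exact absurd (hσ v) hv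
  · linarith
  · intro u
    have h1 := rmt0_cnt Y univ (fun w => (u, w) ∈ S)
    rw [rmt0_od, hVY] at h1
    have h2 : (od S u : ℝ) ≤ ∑ p, (((Y p).filter (fun w => (u, w) ∈ S)).card : ℝ) +
        ((univ : Finset (Fin n)) \ univ.biUnion X).card := by exact_mod_cast h1
    have h3 := hod u
    linarith
  · intro w
    have h1 := rmt0_cnt X univ (fun v => (v, w) ∈ S)
    rw [rmt0_id] at h1
    have h2 : (idg S w : ℝ) ≤ ∑ p, (((X p).filter (fun v => (v, w) ∈ S)).card : ℝ) +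
        ((univ : Finset (Fin n)) \ univ.biUnion X).card := by exact_mod_cast h1
    have h3 := hid w
    linarith

end Pool.Agent.MPd266dbE
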