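import Pool.Agent.Lib.MP_d266db_co.E.SpecE

set_option autoImplicit false

namespace Pool.Agent.MPd266dbE

open Finset Pool.Agent.MPd266db Pool.Agent.MPd266dbH

/-- the numbers -/
theorem rnd_lim (b C : ℝ) (hb : 0 < b) (hC : 0 < C) : ∃ n0 : ℕ, ∀ n : ℕ, n0 ≤ n →
    C * (n : ℝ) ^ 2 * Real.exp (-(b * n)) < 1 := by
  have h1 : Filter.Tendsto (fun n : ℕ => (b * (n : ℝ)) ^ 2 * Real.exp (-(b * (n : ℝ))))
      Filter.atTop (nhds 0) :=
    (Real.tendsto_pow_mul_exp_neg_atTop_nhds_zero 2).comp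
      (Filter.Tendsto.const_mul_atTop hb tendsto_natCast_atTop_atTop)
  have h2 : ∀ᶠ n : ℕ in Filter.atTop,
      (b * (n : ℝ)) ^ 2 * Real.exp (-(b * (n : ℝ))) < b ^ 2 / C :=
    h1.eventually_lt_const (by positivity)
  obtain ⟨n0, hn0⟩ := Filter.eventually_atTop.mp h2
  refine ⟨n0, fun n hn => ?_⟩
  have h3 := hn0 n hn
  have hb2 : 0 < b ^ 2 := by positivity
  have h4 : b ^ 2 * (C * (n : ℝ) ^ 2 * Real.exp (-(b * n))) < b ^ 2 * 1 := by
    have h5 : b ^ 2 * (C * (n : ℝ) ^ 2 * Real.exp (-(b * n))) =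
        C * ((b * (n : ℝ)) ^ 2 * Real.exp (-(b * (n : ℝ)))) := by ring
    rw [h5]
    calc C * ((b * (n : ℝ)) ^ 2 * Real.exp (-(b * (n : ℝ)))) < C * (b ^ 2 / C) :=
          mul_lt_mul_of_pos_left h3 hC
      _ = b ^ 2 * 1 := by field_simp
  exact lt_of_mul_lt_mul_left h4 hb2.le

/-- few functions have few arcs from the colour `s0` to the colour `s1` -/
theorem rnd_ch (hChB : S_ChB) {n k : ℕ} (hk : 1 ≤ k) (L : Finset (Fin n × Fin n)) (Δ : ℕ)
    (s0 s1 : Fin k) (hL : ∀ a ∈ L, a.1 ≠ a.2) (hD : Dg L Δ) (hΔ : 64 * k ^ 4 * Δ ≤ L.card) :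
    4 * ((univ.filter (fun c : Fin n → Fin k =>
      2 * k ^ 2 * (L.filter (fun a => c a.1 = s0 ∧ c a.2 = s1)).card < L.card)).card : ℝ) ≤
      (k : ℝ) ^ n := by
  classical
  have hk0 : (0 : ℝ) < k := by exact_mod_cast hk
  by_cases h0 : L.card = 0
  · have h1 : (univ.filter (fun c : Fin n → Fin k =>
        2 * k ^ 2 * (L.filter (fun a => c a.1 = s0 ∧ c a.2 = s1)).card < L.card)) = ∅ := by
      apply filter_eq_empty_iff.2
      intro c _
      rw [h0]
      omega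
    rw [h1, card_empty]
    simp only [Nat.cast_zero, mul_zero]
    positivity
  have hLp : (0 : ℝ) < L.card := by exact_mod_cast Nat.pos_of_ne_zero h0
  set t : ℝ := L.card / (2 * (k : ℝ) ^ 2) with ht
  have ht0 : 0 < t := by positivity
  have h2 := hChB n k Δ {s0} {s1} L t hk ht0 hL hD
  have h3 : (univ.filter (fun c : Fin n → Fin k =>
      2 * k ^ 2 * (L.filter (fun a => c a.1 = s0 ∧ c a.2 = s1)).card < L.card)) ⊆
      (univ.filter (fun c : Fin n → Fin k =>
      t ≤ |((L.filter (fun e => c e.1 ∈ ({s0} : Finset (Fin k)) ∧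
        c e.2 ∈ ({s1} : Finset (Fin k)))).card : ℝ) -
        ((({s0} : Finset (Fin k)).card : ℝ)) * (({s1} : Finset (Fin k)).card) / (k : ℝ) ^ 2 *
          L.card|)) := by
    intro c hc
    rw [mem_filter] at hc ⊢
    refine ⟨mem_univ _, ?_⟩
    simp only [mem_singleton, card_singleton, Nat.cast_one]
    have h4 : (2 * (k : ℝ) ^ 2 * ((L.filter (fun a => c a.1 = s0 ∧ c a.2 = s1)).card : ℝ)) <
        L.card := by exact_mod_cast hc.2
    rw [abs_sub_comm]
    refine le_trans ?_ (le_abs_self _)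
    have h5 : ((L.filter (fun a => c a.1 = s0 ∧ c a.2 = s1)).card : ℝ) ≤ t := by
      rw [ht, le_div_iff₀ (by positivity)]
      linarith
    have h6 : (1 : ℝ) * 1 / (k : ℝ) ^ 2 * L.card = 2 * t := by
      rw [ht]
      field_simp
    rw [h6]
    linarith
  have h4 := (Nat.cast_le (α := ℝ)).2 (card_le_card h3)
  have h5 : (k : ℝ) ^ n * (4 * Δ * L.card) ≤ (k : ℝ) ^ n * (t ^ 2 / 4) := by
    apply mul_le_mul_of_nonneg_left _ (by positivity)
    have h6 : (64 * (k : ℝ) ^ 4 * Δ) ≤ L.card := by exact_mod_cast hΔ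
    rw [ht, div_pow, div_div, le_div_iff₀ (by positivity)]
    nlinarith
  set X : ℝ := ((univ.filter (fun c : Fin n → Fin k =>
      2 * k ^ 2 * (L.filter (fun a => c a.1 = s0 ∧ c a.2 = s1)).card < L.card)).card : ℝ) with hX
  have h6 : X * t ^ 2 ≤ (k : ℝ) ^ n * (t ^ 2 / 4) :=
    (mul_le_mul_of_nonneg_right h4 (by positivity)).trans (h2.trans h5)
  have h7 : t ^ 2 * (4 * X) ≤ t ^ 2 * (k : ℝ) ^ n := by nlinarith
  exact le_of_mul_le_mul_left h7 (by positivity)

/-- **Rnd** -/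
theorem tRnd (hChf : S_Chf) (hChB : S_ChB) : S_Rnd := by
  classical
  intro k ε θ hk hε hε1 hθ
  have hk2 : (2 : ℝ) ≤ k := by exact_mod_cast hk
  have hk0 : (0 : ℝ) < k := by linarith
  have hk1 : (0 : ℝ) < (k : ℝ) - 1 := by linarith
  set b : ℝ := ε ^ 2 * θ / (2 * (k : ℝ) ^ 2) with hb
  have hb0 : 0 < b := by positivity
  obtain ⟨n0, hn0⟩ := rnd_lim b (4 * k) hb0 (by positivity)
  refine ⟨n0, fun n hn 𝓕 L Δ s0 s1 h𝓕 hL hD hΔ => ?_⟩
  by_contra hcon
  push Not at hcon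
  let A1 : Fin k → Fin n → Finset (Fin k) := fun j _ => {j}
  let A2 : Fin k → Fin n → Finset (Fin k) := fun j _ => {j}ᶜ
  let bad : (Fin n → Finset (Fin k)) → ℝ → Finset (Fin n) → Finset (Fin n → Fin k) :=
    fun A δ F => univ.filter (fun c : Fin n → Fin k =>
      ((F.filter (fun e => c e ∈ A e)).card : ℝ) ≤ (1 - δ) * ∑ e ∈ F, ((A e).card : ℝ) / k)
  have hs1 : ∀ (j : Fin k) (F : Finset (Fin n)), ∑ e ∈ F, ((A1 j e).card : ℝ) / k = F.card / k := by
    intro j F
    simp only [A1, Finset.card_singleton, Finset.sum_const, nsmul_eq_mul, Nat.cast_one]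
    ring
  have hs2 : ∀ (j : Fin k) (F : Finset (Fin n)), ∑ e ∈ F, ((A2 j e).card : ℝ) / k =
      F.card * ((k : ℝ) - 1) / k := by
    intro j F
    have h3 : ((({j} : Finset (Fin k))ᶜ).card : ℝ) = (k : ℝ) - 1 := by
      rw [Finset.card_compl, Finset.card_singleton, Fintype.card_fin, Nat.cast_sub (by omega),
        Nat.cast_one]
    simp only [A2, Finset.sum_const, nsmul_eq_mul]
    rw [h3]
    ring
  have hb1 : ∀ (j : Fin k) (F : Finset (Fin n)), θ * n ≤ F.card →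
      ((bad (A1 j) ε F).card : ℝ) ≤ (k : ℝ) ^ n * Real.exp (-(b * n)) := by
    intro j F hF
    refine (hChf (Fin n) k F (A1 j) ε (by omega) hε.le hε1).trans ?_
    rw [Fintype.card_fin, hs1]
    apply mul_le_mul_of_nonneg_left _ (by positivity)
    apply Real.exp_le_exp.mpr
    apply neg_le_neg
    have e1 : b * n = ε ^ 2 * (θ * n) / (2 * (k : ℝ) ^ 2) := by
      rw [hb]
      ring
    have e2 : ε ^ 2 * ((F.card : ℝ) / k) / 2 = ε ^ 2 * (F.card : ℝ) / (2 * k) := by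
      field_simp
    rw [e1, e2]
    apply div_le_div₀ (by positivity) (mul_le_mul_of_nonneg_left hF (by positivity))
      (by positivity)
    nlinarith
  have hδ0 : 0 ≤ ε / ((k : ℝ) - 1) := by positivity
  have hδ1 : ε / ((k : ℝ) - 1) ≤ 1 := by
    rw [div_le_one hk1]
    linarith
  have hb2 : ∀ (j : Fin k) (F : Finset (Fin n)), θ * n ≤ F.card →
      ((bad (A2 j) (ε / ((k : ℝ) - 1)) F).card : ℝ) ≤ (k : ℝ) ^ n * Real.exp (-(b * n)) := by
    intro j F hF
    refine (hChf (Fin n) k F (A2 j) (ε / ((k : ℝ) - 1)) (by omega) hδ0 hδ1).trans ?_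
    rw [Fintype.card_fin, hs2]
    apply mul_le_mul_of_nonneg_left _ (by positivity)
    apply Real.exp_le_exp.mpr
    apply neg_le_neg
    have e1 : b * n = ε ^ 2 * (θ * n) / (2 * (k : ℝ) ^ 2) := by
      rw [hb]
      ring
    have e2 : (ε / ((k : ℝ) - 1)) ^ 2 * ((F.card : ℝ) * ((k : ℝ) - 1) / k) / 2 =
        ε ^ 2 * (F.card : ℝ) / (2 * (((k : ℝ) - 1) * k)) := by
      field_simp
    rw [e1, e2]
    apply div_le_div₀ (by positivity) (mul_le_mul_of_nonneg_left hF (by positivity))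
      (by positivity)
    nlinarith
  let B3 : Finset (Fin n → Fin k) := univ.filter (fun c : Fin n → Fin k =>
      2 * k ^ 2 * (L.filter (fun a => c a.1 = s0 ∧ c a.2 = s1)).card < L.card)
  have hB3 : 4 * (B3.card : ℝ) ≤ (k : ℝ) ^ n :=
    rnd_ch hChB (by omega) L Δ s0 s1 hL hD hΔ
  let FF : Finset (Finset (Fin n) × Fin k) := (𝓕.filter (fun F => θ * n ≤ (F.card : ℝ))) ×ˢ univ
  have hcov : (univ : Finset (Fin n → Fin k)) ⊆ (FF.biUnion
      (fun p => bad (A1 p.2) ε p.1 ∪ bad (A2 p.2) (ε / ((k : ℝ) - 1)) p.1)) ∪ B3 := by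
    intro c _
    rw [Finset.mem_union]
    by_cases hc3 : c ∈ B3
    · exact Or.inr hc3
    left
    have hc4 : ¬ (2 * k ^ 2 * (L.filter (fun a => c a.1 = s0 ∧ c a.2 = s1)).card < L.card) :=
      fun h => hc3 (mem_filter.2 ⟨mem_univ _, h⟩)
    have hc5 := mt (hcon c) hc4
    push Not at hc5
    obtain ⟨F, hF, hFθ, j, hFc⟩ := hc5
    rw [Finset.mem_biUnion]
    refine ⟨(F, j), mem_product.2 ⟨Finset.mem_filter.mpr ⟨hF, hFθ⟩, mem_univ _⟩, ?_⟩
    have hU : F.filter (fun v => c v = j) = F.filter (fun e => c e ∈ A1 j e) := by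
      apply Finset.filter_congr
      intro v _
      simp only [A1, Finset.mem_singleton]
    have hU2 : F.filter (fun e => c e ∈ A2 j e) = F.filter (fun e => ¬ (c e ∈ A1 j e)) := by
      apply Finset.filter_congr
      intro v _
      simp only [A1, A2, Finset.mem_compl]
    have hcard : ((F.filter (fun e => c e ∈ A1 j e)).card : ℝ) +
        ((F.filter (fun e => c e ∈ A2 j e)).card : ℝ) = F.card := by
      rw [hU2]
      exact_mod_cast Finset.card_filter_add_card_filter_not (s := F) (fun e => c e ∈ A1 j e)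
    rw [hU] at hFc
    rw [Finset.mem_union]
    by_cases h3 : (1 - ε) * (F.card : ℝ) ≤ k * ((F.filter (fun e => c e ∈ A1 j e)).card : ℝ)
    · right
      have h4 := hFc h3
      refine Finset.mem_filter.mpr ⟨Finset.mem_univ _, ?_⟩
      show ((F.filter (fun e => c e ∈ A2 j e)).card : ℝ) ≤
        (1 - ε / ((k : ℝ) - 1)) * ∑ e ∈ F, ((A2 j e).card : ℝ) / k
      rw [hs2]
      have e3 : (1 - ε / ((k : ℝ) - 1)) * ((F.card : ℝ) * ((k : ℝ) - 1) / k) =
          ((k : ℝ) - 1 - ε) * F.card / k := by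
        field_simp
      rw [e3, le_div_iff₀ hk0]
      have e4 : ((F.filter (fun e => c e ∈ A2 j e)).card : ℝ) =
          F.card - ((F.filter (fun e => c e ∈ A1 j e)).card : ℝ) := by linarith
      rw [e4]
      nlinarith
    · left
      refine Finset.mem_filter.mpr ⟨Finset.mem_univ _, ?_⟩
      show ((F.filter (fun e => c e ∈ A1 j e)).card : ℝ) ≤
        (1 - ε) * ∑ e ∈ F, ((A1 j e).card : ℝ) / k
      rw [hs1, mul_div_assoc', le_div_iff₀ hk0]
      push Not at h3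
      linarith
  have h5 : ((univ : Finset (Fin n → Fin k)).card : ℝ) ≤
      ∑ p ∈ FF, 2 * ((k : ℝ) ^ n * Real.exp (-(b * n))) + B3.card := by
    refine (Nat.cast_le.mpr (Finset.card_le_card hcov)).trans ?_
    refine (Nat.cast_le.mpr (Finset.card_union_le _ _)).trans ?_
    rw [Nat.cast_add]
    apply add_le_add_left
    refine (Nat.cast_le.mpr Finset.card_biUnion_le).trans ?_
    rw [Nat.cast_sum]
    apply Finset.sum_le_sum
    intro p hp
    have hF2 := (Finset.mem_filter.mp (mem_product.1 hp).1).2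
    have h6 : ((bad (A1 p.2) ε p.1 ∪ bad (A2 p.2) (ε / ((k : ℝ) - 1)) p.1).card : ℝ) ≤
        (bad (A1 p.2) ε p.1).card + (bad (A2 p.2) (ε / ((k : ℝ) - 1)) p.1).card := by
      exact_mod_cast Finset.card_union_le _ _
    have := hb1 p.2 p.1 hF2
    have := hb2 p.2 p.1 hF2
    linarith
  rw [Finset.sum_const, nsmul_eq_mul, Finset.card_univ, Fintype.card_fun, Fintype.card_fin,
    Fintype.card_fin, Nat.cast_pow] at h5
  have h6 : (FF.card : ℝ) ≤ (n : ℝ) ^ 2 * k := by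
    have h6' : FF.card ≤ n ^ 2 * k := by
      show ((𝓕.filter (fun F => θ * n ≤ (F.card : ℝ))) ×ˢ (univ : Finset (Fin k))).card ≤ _
      rw [card_product, Finset.card_univ, Fintype.card_fin]
      exact Nat.mul_le_mul_right _ ((Finset.card_filter_le _ _).trans h𝓕)
    exact_mod_cast h6'
  have hQn : (0 : ℝ) < (k : ℝ) ^ n := by positivity
  have h7 : (k : ℝ) ^ n ≤ (n : ℝ) ^ 2 * k * (2 * ((k : ℝ) ^ n * Real.exp (-(b * n)))) + B3.card :=
    h5.trans (add_le_add_left (mul_le_mul_of_nonneg_right h6 (by positivity)) _)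
  have h8 := hn0 n hn
  have h9 : (n : ℝ) ^ 2 * k * (2 * ((k : ℝ) ^ n * Real.exp (-(b * n)))) =
      (k : ℝ) ^ n * (4 * k * (n : ℝ) ^ 2 * Real.exp (-(b * n))) / 2 := by ring
  rw [h9] at h7
  have h10 := mul_lt_mul_of_pos_left h8 hQn
  linarith

end Pool.Agent.MPd266dbE
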