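import Pool.Agent.Lib.MP_d266db_co.E.SpecC

/-!
# MP_d266db_co, E: one gap of a run
-/

set_option autoImplicit false

namespace Pool.Agent.MPd266dbE

open Finset Pool.Agent.MPd266db Pool.Agent.MPd266dbH

theorem rst_mem_ClU {n K : ℕ} (o : Fin n → Fin K) (J : Finset (Fin K)) (v : Fin n) :
    v ∈ ClU o J ↔ o v ∈ J := by
  unfold ClU
  rw [mem_filter]
  exact ⟨fun h => h.2, fun h => ⟨mem_univ _, h⟩⟩

theorem rst_card_ClU {n K : ℕ} (o : Fin n → Fin K) (J : Finset (Fin K)) :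
    (ClU o J).card = ∑ a ∈ J, (Cl o a).card := by
  classical
  have h : ClU o J = J.biUnion (Cl o) := by
    ext v
    rw [rst_mem_ClU, mem_biUnion]
    constructor
    · intro h
      exact ⟨o v, h, by unfold Cl; rw [mem_filter]; exact ⟨mem_univ _, rfl⟩⟩
    · rintro ⟨a, ha, hv⟩
      unfold Cl at hv
      rw [mem_filter] at hv
      rw [hv.2]
      exact ha
  rw [h, card_biUnion]
  intro a _ b _ hab
  change Disjoint (Cl o a) (Cl o b)
  rw [disjoint_left]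
  intro v hv hv'
  unfold Cl at hv hv'
  rw [mem_filter] at hv hv'
  exact hab (hv.2.symm.trans hv'.2)

theorem rst_mem_Sg {n : ℕ} (A : Finset (Fin n)) (L : Fin n → ℕ) (x : Fin n) :
    x ∈ Sg A L ↔ x ∈ A ∧ ∀ x' ∈ A, L x' = L x → x' = x := by
  unfold Sg
  rw [mem_filter]

/-- transport of single and large labels -/
theorem rst_lab {n : ℕ} (A : Finset (Fin n)) (σ : Equiv.Perm (Fin n)) (L' L1 : Fin n → ℕ)
    (h : ∀ x, L1 (σ x) = L' x) :
    Sg (A.image σ) L1 = (Sg A L').image σ ∧ Bg (A.image σ) L1 = Bg A L' ∧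
      (A.image σ).image L1 = A.image L' := by
  have h1 : Sg (A.image σ) L1 = (Sg A L').image σ := by
    ext y
    rw [rst_mem_Sg, mem_image, mem_image]
    constructor
    · rintro ⟨⟨x, hx, rfl⟩, h2⟩
      refine ⟨x, (rst_mem_Sg _ _ _).2 ⟨hx, fun x' hx' h3 => ?_⟩, rfl⟩
      apply σ.injective
      refine h2 (σ x') (mem_image_of_mem _ hx') ?_
      rw [h, h]
      exact h3
    · rintro ⟨x, hx, rfl⟩
      rw [rst_mem_Sg] at hx
      refine ⟨⟨x, hx.1, rfl⟩, fun y hy h3 => ?_⟩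
      obtain ⟨x', hx', rfl⟩ := mem_image.1 hy
      rw [h, h] at h3
      rw [hx.2 x' hx' h3]
  have h2 : ∀ B : Finset (Fin n), (B.image σ).image L1 = B.image L' := by
    intro B
    rw [image_image]
    refine image_congr fun x _ => ?_
    exact h x
  refine ⟨h1, ?_, h2 A⟩
  unfold Bg
  rw [h1, ← image_sdiff _ _ σ.injective]
  exact h2 _

theorem tRst (hCmp : S_Cmp) : S_Rst := by
  classical
  intro n K l S o i N θ ρ g β ν c J Q σ0 σ T L L' hB hN hθ hc hcθ hβ hcg hTS hQ hcard hσ0 hJ hdisj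
    hR hMg
  have hout : ∀ j < l, ∀ v ∈ ClU o (J j), v ∉ ClU o (J l) := by
    intro j hj v hv hv'
    rw [rst_mem_ClU] at hv hv'
    exact (disjoint_left.1 (hdisj j hj)) hv hv'
  have hσ : ∀ v ∈ ClU o (J l), σ v = σ0 v := by
    intro v hv
    exact hR.off v fun j hj hv' => hout j hj v hv' hv
  obtain ⟨σ', c1, c2, c3⟩ := hCmp n K S o i N θ ρ g β ν c (J l) Q σ hB hN hθ hc hcθ hβ hcg hTS hQ
    hcard (fun v hv => by rw [hσ v hv]; exact hσ0 v hv)
  have hi : ∀ x ∈ ClU o (J l), i (σ' x) = o x := fun x hx => (hB.own _ (c2 x hx)).symm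
  have hA' : ClU o (J (l + 1)) = (ClU o (J l)).image σ' := by
    rw [← hJ]
    symm
    apply eq_of_subset_of_card_le
    · intro y hy
      obtain ⟨x, hx, rfl⟩ := mem_image.1 hy
      rw [rst_mem_ClU, hi x hx]
      exact (rst_mem_ClU _ _ _).1 hx
    · rw [card_image_of_injective _ σ'.injective, rst_card_ClU, rst_card_ClU]
      exact (sum_congr rfl fun a ha => (hcard a ha)).ge
  have hL1 : ∀ x, (fun v => L' (σ'.symm v)) (σ' x) = L' x := by
    intro x
    dsimp only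
    rw [Equiv.symm_apply_apply]
  obtain ⟨s1, s2, s3⟩ := rst_lab (ClU o (J l)) σ' L' (fun v => L' (σ'.symm v)) hL1
  have hQA : ∀ q ∈ Q, q.1 ∈ ClU o (J l) ∧ q.2.1 ∈ ClU o (J l) := by
    intro q hq
    obtain ⟨h1, h2⟩ := hTS.cls q hq
    rw [rst_mem_ClU, rst_mem_ClU, ← h1]
    exact ⟨h2, h2⟩
  have hTA : ∀ q ∈ T, q.1 ∉ ClU o (J l) ∧ q.2 ∉ ClU o (J l) := by
    intro q hq
    obtain ⟨-, ⟨j, hj, h1, h2⟩, -⟩ := hR.til q hq
    exact ⟨hout j hj _ h1, hout j hj _ h2⟩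
  refine ⟨σ', T ∪ Q.image (fun q => (q.1, q.2.1)), fun v => L' (σ'.symm v),
    ⟨?_, ?_, ?_, ?_, ?_⟩, ?_, ?_, ?_, ?_⟩
  · -- off
    intro v hv
    rw [c1 v (hv l (Nat.lt_succ_self l))]
    exact hR.off v fun j hj => hv j (by omega)
  · -- arc
    intro j hj v hv
    rcases Nat.lt_succ_iff_lt_or_eq.1 hj with hj | hj
    · rw [c1 v (hout j hj v hv)]
      exact hR.arc j hj v hv
    · rw [hj] at hv
      exact c2 v hv
  · -- til
    intro q hq
    rcases mem_union.1 hq with hq | hq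
    · obtain ⟨h1, ⟨j, hj, h2, h3⟩, h4, h5⟩ := hR.til q hq
      obtain ⟨h6, h7⟩ := hTA q hq
      rw [c1 _ h6, c1 _ h7]
      exact ⟨h1, ⟨j, by omega, h2, h3⟩, h4, h5⟩
    · obtain ⟨q0, hq0, rfl⟩ := mem_image.1 hq
      obtain ⟨h1, h2⟩ := hQA q0 hq0
      obtain ⟨h3, h4⟩ := c3 q0 hq0
      obtain ⟨h5, h6, h7, h8⟩ := hTS.arc q0 hq0
      refine ⟨(hTS.ne q0 hq0).1, ⟨l, by omega, h1, h2⟩, ?_, ?_⟩
      · dsimp only
        rw [h4]
        exact h7
      · dsimp only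
        rw [h3]
        exact h8
  · -- dis
    intro q hq q' hq' hne
    rcases mem_union.1 hq with hq | hq <;> rcases mem_union.1 hq' with hq' | hq'
    · exact hR.dis q hq q' hq' hne
    · obtain ⟨q0, hq0, rfl⟩ := mem_image.1 hq'
      obtain ⟨h1, h2⟩ := hQA q0 hq0
      obtain ⟨h3, h4⟩ := hTA q hq
      exact ⟨fun h => h3 (h ▸ h1), fun h => h3 (h ▸ h2), fun h => h4 (h ▸ h1), fun h => h4 (h ▸ h2)⟩
    · obtain ⟨q0, hq0, rfl⟩ := mem_image.1 hq
      obtain ⟨h1, h2⟩ := hQA q0 hq0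
      obtain ⟨h3, h4⟩ := hTA q' hq'
      exact ⟨fun h => h3 (h ▸ h1), fun h => h4 (h ▸ h1), fun h => h3 (h ▸ h2), fun h => h4 (h ▸ h2)⟩
    · obtain ⟨q0, hq0, rfl⟩ := mem_image.1 hq
      obtain ⟨q1, hq1, rfl⟩ := mem_image.1 hq'
      exact hTS.dt q0 hq0 q1 hq1 fun h => hne (by rw [h])
  · -- inv
    intro w hw1 hw2
    have hw3 : ∀ x ∈ ClU o (J l), ∀ x' ∈ ClU o (J l), L x = L x' → (w x ↔ w x') := by
      refine hR.inv w ?_ ?_
      · intro j hj v hv
        rw [← c1 v (hout j hj v hv)]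
        exact hw1 j (by omega) v hv
      · intro q hq
        exact hw2 q (mem_union_left _ hq)
    have hw4 : ∀ x ∈ ClU o (J l), ∀ x' ∈ ClU o (J l), L' x = L' x' → (w x ↔ w x') := by
      refine hMg.gen w hw3 ?_
      intro q hq
      exact hw2 (q.1, q.2.1) (mem_union_right _ (mem_image_of_mem (fun q => (q.1, q.2.1)) hq))
    intro y hy y' hy' hyy
    rw [hA'] at hy hy'
    obtain ⟨x, hx, rfl⟩ := mem_image.1 hy
    obtain ⟨x', hx', rfl⟩ := mem_image.1 hy'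
    rw [Equiv.symm_apply_apply, Equiv.symm_apply_apply] at hyy
    have h1 := hw1 l (Nat.lt_succ_self l) x hx
    have h2 := hw1 l (Nat.lt_succ_self l) x' hx'
    exact (h1.symm.trans (hw4 x hx x' hx' hyy)).trans h2
  · rw [hA', s1, card_image_of_injective _ σ'.injective]
  · rw [hA', s2]
  · rw [hA', s3]
  · intro x hx
    exact ⟨hL1 x, hi x hx⟩

end Pool.Agent.MPd266dbE
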