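import Pool.Agent.Lib.MP_d266db_co.E.SpecC

/-!
# MP_d266db_co, E: a run connects a level
-/

set_option autoImplicit false

namespace Pool.Agent.MPd266dbE

open Finset Pool.Agent.MPd266db Pool.Agent.MPd266dbH

theorem run_mem_ClU {n K : ℕ} (o : Fin n → Fin K) (J : Finset (Fin K)) (v : Fin n) :
    v ∈ ClU o J ↔ o v ∈ J := by
  unfold ClU
  rw [mem_filter]
  exact ⟨fun h => h.2, fun h => ⟨mem_univ _, h⟩⟩

theorem run_mem_Cl {n K : ℕ} (o : Fin n → Fin K) (a : Fin K) (v : Fin n) :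
    v ∈ Cl o a ↔ o v = a := by
  unfold Cl
  rw [mem_filter]
  exact ⟨fun h => h.2, fun h => ⟨mem_univ _, h⟩⟩

theorem run_card_ClU {n K : ℕ} (o : Fin n → Fin K) (J : Finset (Fin K)) :
    (ClU o J).card = ∑ a ∈ J, (Cl o a).card := by
  classical
  have h : ClU o J = J.biUnion (Cl o) := by
    ext v
    rw [run_mem_ClU, mem_biUnion]
    constructor
    · intro h
      exact ⟨o v, h, (run_mem_Cl _ _ _).2 rfl⟩
    · rintro ⟨a, ha, hv⟩
      rw [run_mem_Cl] at hv
      rw [hv]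
      exact ha
  rw [h, card_biUnion]
  intro a _ b _ hab
  change Disjoint (Cl o a) (Cl o b)
  rw [disjoint_left]
  intro v hv hv'
  rw [run_mem_Cl] at hv hv'
  exact hab (hv.symm.trans hv')

theorem run_TS0 {n K : ℕ} (S : Finset (Fin n × Fin n)) (o : Fin n → Fin K) (J : Finset (Fin K)) :
    TS S o J ∅ :=
  ⟨fun _ h => absurd h (notMem_empty _), fun _ h => absurd h (notMem_empty _),
    fun _ h => absurd h (notMem_empty _), fun _ h => absurd h (notMem_empty _),
    fun _ h => absurd h (notMem_empty _)⟩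

theorem run_Mg0 {n : ℕ} (A : Finset (Fin n)) (L : Fin n → ℕ) : Mg A L ∅ L :=
  ⟨fun _ _ _ _ h => h, fun _ h _ x hx x' hx' hL => h x hx x' hx' hL⟩

/-- the image of a bijection given by cardinalities -/
theorem run_onto {n K : ℕ} (o i : Fin n → Fin K) (J : Finset (Fin K)) (σ : Equiv.Perm (Fin n))
    (hc : ∀ a ∈ J, (Cl o a).card = (Cl i a).card) (h : ∀ x ∈ ClU o J, i (σ x) = o x)
    (y : Fin n) (hy : i y ∈ J) : ∃ x ∈ ClU o J, σ x = y := by
  classical
  have h1 : (ClU o J).image σ = ClU i J := by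
    apply eq_of_subset_of_card_le
    · intro y hy
      obtain ⟨x, hx, rfl⟩ := mem_image.1 hy
      rw [run_mem_ClU, h x hx]
      exact (run_mem_ClU _ _ _).1 hx
    · rw [card_image_of_injective _ σ.injective, run_card_ClU, run_card_ClU]
      exact (sum_congr rfl fun a ha => (hc a ha)).ge
  have h2 : y ∈ (ClU o J).image σ := by
    rw [h1, run_mem_ClU]
    exact hy
  obtain ⟨x, hx, hxy⟩ := mem_image.1 h2
  exact ⟨x, hx, hxy⟩

theorem run_im {n : ℕ} (A : Finset (Fin n)) (L : Fin n → ℕ) :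
    (A.image L).card ≤ (Sg A L).card + (Bg A L).card := by
  classical
  have h : A.image L ⊆ (Sg A L).image L ∪ Bg A L := by
    intro y hy
    obtain ⟨x, hx, rfl⟩ := mem_image.1 hy
    rw [mem_union]
    by_cases h : x ∈ Sg A L
    · exact Or.inl (mem_image_of_mem _ h)
    · right
      unfold Bg
      exact mem_image_of_mem _ (mem_sdiff.2 ⟨hx, h⟩)
  have h1 := (card_le_card h).trans (card_union_le _ _)
  have h2 : ((Sg A L).image L).card ≤ (Sg A L).card := card_image_le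
  omega

theorem run_Sg_le {n : ℕ} (A : Finset (Fin n)) (L : Fin n → ℕ) : (Sg A L).card ≤ A.card := by
  unfold Sg
  exact card_filter_le _ _

theorem run_Bg_le {n : ℕ} (A : Finset (Fin n)) (L : Fin n → ℕ) : (Bg A L).card ≤ A.card := by
  unfold Bg
  exact card_image_le.trans (card_le_card sdiff_subset)

theorem tRun (hTRp : S_TRp) (hTEx : S_TEx) (hStA : S_StA) (hStB : S_StB) (hStC : S_StC)
    (hRst : S_Rst) : S_Run := by
  classical
  intro K0 θ ν hK0 hθ hθ1 hν
  obtain ⟨M0, N1, hM0⟩ := hTRp K0 θ hK0 hθ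
  obtain ⟨N2, hN2⟩ := hTEx θ ν hθ hθ1 hν
  obtain ⟨c, hc⟩ : ∃ c : ℝ, c = min (ν / 8) (θ / 8) := ⟨_, rfl⟩
  have hc0 : 0 < c := by rw [hc]; exact lt_min (by positivity) (by positivity)
  have hcν : c ≤ ν / 8 := by rw [hc]; exact min_le_left _ _
  have hcθ : c ≤ θ / 8 := by rw [hc]; exact min_le_right _ _
  obtain ⟨nA, hnA⟩ : ∃ nA : ℕ, nA = ⌈4 * (K0 : ℝ) / c⌉₊ + 1 := ⟨_, rfl⟩
  have hnA1 : 4 * (K0 : ℝ) / c ≤ nA := by
    rw [hnA]
    push_cast
    have := Nat.le_ceil (4 * (K0 : ℝ) / c)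
    linarith
  obtain ⟨mt, hmt⟩ : ∃ mt : ℕ, mt = nA + 2 * nA + 2 * (2 * M0) := ⟨_, rfl⟩
  refine ⟨mt, max (max N1 N2) (8 / c), by omega, ?_⟩
  intro n K S o i N ρ g β J σ0 hB hg hβ hN hJc hJs hJd hcard htyp hσ0
  have hNN1 : N1 ≤ N := (le_max_left _ _).trans ((le_max_left _ _).trans hN)
  have hNN2 : N2 ≤ N := (le_max_right _ _).trans ((le_max_left _ _).trans hN)
  have hNc : 8 ≤ c * N := by
    have h1 : 8 / c ≤ N := (le_max_right _ _).trans hN
    rw [div_le_iff₀ hc0] at h1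
    linarith
  have hN0 : 0 < N := by
    by_contra hcon
    have := mul_nonpos_of_nonneg_of_nonpos hc0.le (not_lt.1 hcon)
    linarith
  have hTR : TRc S o M0 K0 (θ / 2 * N) := hM0 n K S o i N ρ g β ν hB hNN1
  have hTE : TEc S o := hN2 n K S o i N ρ g β hB hβ hNN2
  obtain ⟨m, hm⟩ : ∃ m : ℕ, m = ⌊c * N / 4⌋₊ := ⟨_, rfl⟩
  have hm1 : (m : ℝ) ≤ c * N / 4 := by rw [hm]; exact Nat.floor_le (by linarith)
  have hm2 : c * N / 8 ≤ m := by
    have := Nat.lt_floor_add_one (c * N / 4)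
    rw [← hm] at this
    linarith
  have hm3 : 2 * (m : ℝ) ≤ θ / 2 * N := by
    have h1 : c * N ≤ θ / 8 * N := mul_le_mul_of_nonneg_right hcθ hN0.le
    have h2 : 0 < θ * N := mul_pos hθ hN0
    nlinarith
  have hθsq : θ ^ 2 ≤ θ := by nlinarith
  -- the sizes of the levels
  have hsz : ∀ l ≤ mt, (ClU o (J l)).card ≤ 2 * m * nA := by
    intro l hl
    have h1 : ((ClU o (J l)).card : ℝ) ≤ K0 * N := by
      rw [run_card_ClU]
      push_cast
      have h2 : ∑ a ∈ J l, ((Cl o a).card : ℝ) ≤ ∑ _a ∈ J l, N := sum_le_sum fun a _ => hB.szo a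
      rw [sum_const, nsmul_eq_mul] at h2
      have h3 : ((J l).card : ℝ) ≤ K0 := by exact_mod_cast hJc l hl
      have h4 := mul_le_mul_of_nonneg_right h3 hN0.le
      linarith
    have h2 : (K0 : ℝ) * N ≤ 2 * m * nA := by
      have h3 : (c * N / 8) * (4 * (K0 : ℝ) / c) ≤ m * nA :=
        mul_le_mul hm2 hnA1 (by positivity) (Nat.cast_nonneg _)
      have h4 : (c * N / 8) * (4 * (K0 : ℝ) / c) = K0 * N / 2 := by
        field_simp
        ring
      linarith
    exact_mod_cast h1.trans h2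
  -- the step
  have stp : ∀ l < mt, ∀ (σ : Equiv.Perm (Fin n)) (T : Finset (Fin n × Fin n))
      (L L' : Fin n → ℕ) (Q : Finset (Fin n × Fin n × Fin n × Fin n)),
      RSt S o J σ0 l σ T L → TS S o (J l) Q → 2 * (Q.card : ℝ) ≤ c * N →
      Mg (ClU o (J l)) L Q L' → ∃ (σ' : Equiv.Perm (Fin n)) (T' : Finset (Fin n × Fin n))
        (L1 : Fin n → ℕ), RSt S o J σ0 (l + 1) σ' T' L1 ∧
        (Sg (ClU o (J (l + 1))) L1).card = (Sg (ClU o (J l)) L').card ∧
        (Bg (ClU o (J (l + 1))) L1).card = (Bg (ClU o (J l)) L').card ∧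
        (ClU o (J (l + 1))).image L1 = (ClU o (J l)).image L' ∧
        ∀ x ∈ ClU o (J l), L1 (σ' x) = L' x ∧ i (σ' x) = o x := by
    intro l hl σ T L L' Q h1 h2 h3 h4
    exact hRst n K l S o i N θ ρ g β ν c J Q σ0 σ T L L' hB hN0 hθ hc0.le (by linarith)
      (by linarith) (by linarith) h2 h3 (hcard l hl) (hσ0 l hl) (hJs l hl)
      (fun j hj => hJd j (by omega) l (by omega) (by omega)) h1 h4
  -- (a)
  have pa : ∀ t, t ≤ nA → ∃ (σ : Equiv.Perm (Fin n)) (T : Finset (Fin n × Fin n))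
      (L : Fin n → ℕ), RSt S o J σ0 t σ T L ∧ ((Sg (ClU o (J t)) L).card ≤ M0 ∨
        (Sg (ClU o (J t)) L).card + 2 * m * t ≤ (ClU o (J 0)).card) := by
    intro t
    induction t with
    | zero =>
      intro _
      refine ⟨σ0, ∅, fun v => (v : ℕ), ⟨fun _ _ => rfl, fun j hj => absurd hj (Nat.not_lt_zero _),
        fun q hq => absurd hq (notMem_empty _), fun q hq => absurd hq (notMem_empty _), ?_⟩,
        Or.inr ?_⟩
      · intro w _ _ x _ x' _ h
        rw [Fin.ext h]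
      · have := run_Sg_le (ClU o (J 0)) (fun v => (v : ℕ))
        omega
    | succ t ih =>
      intro ht
      obtain ⟨σ, T, L, h1, h2⟩ := ih (by omega)
      obtain ⟨Q, L', q1, q2, q3, q4⟩ := hStA n K M0 K0 m S o (θ / 2 * N) (J t) L hTR
        (hJc t (by omega)) hm3
      have q2' : (Q.card : ℝ) ≤ m := by exact_mod_cast q2
      obtain ⟨σ', T', L1, r1, r2, -, -, -⟩ := stp t (by omega) σ T L L' Q h1 q1 (by linarith) q3
      refine ⟨σ', T', L1, r1, ?_⟩
      rw [r2]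
      have e1 : 2 * m * (t + 1) = 2 * m * t + 2 * m := by ring
      rw [e1]
      rcases q4 with q4 | q4
      · exact Or.inl q4
      · rcases h2 with h2 | h2
        · exact Or.inl (by omega)
        · exact Or.inr (by omega)
  -- (b)
  have pb : ∀ t, t ≤ 2 * nA → ∃ (σ : Equiv.Perm (Fin n)) (T : Finset (Fin n × Fin n))
      (L : Fin n → ℕ), RSt S o J σ0 (nA + t) σ T L ∧ (Sg (ClU o (J (nA + t))) L).card ≤ M0 ∧
        ((Bg (ClU o (J (nA + t))) L).card ≤ M0 ∨
        (Bg (ClU o (J (nA + t))) L).card + m * t ≤ (ClU o (J nA)).card) := by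
    intro t
    induction t with
    | zero =>
      intro _
      obtain ⟨σ, T, L, h1, h2⟩ := pa nA le_rfl
      rw [Nat.add_zero]
      refine ⟨σ, T, L, h1, ?_, Or.inr ?_⟩
      · rcases h2 with h2 | h2
        · exact h2
        · have := hsz 0 (Nat.zero_le _)
          omega
      · have := run_Bg_le (ClU o (J nA)) L
        omega
    | succ t ih =>
      intro ht
      obtain ⟨σ, T, L, h1, h2, h3⟩ := ih (by omega)
      obtain ⟨Q, L', q1, q2, q3, q4, q5⟩ := hStB n K M0 K0 m S o (θ / 2 * N) (J (nA + t)) L hTR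
        (hJc (nA + t) (by omega)) hm3
      have q2' : (Q.card : ℝ) ≤ m := by exact_mod_cast q2
      obtain ⟨σ', T', L1, r1, r2, r3, -, -⟩ := stp (nA + t) (by omega) σ T L L' Q h1 q1
        (by linarith) q3
      have e0 : nA + (t + 1) = nA + t + 1 := rfl
      rw [e0]
      refine ⟨σ', T', L1, r1, ?_, ?_⟩
      · rw [r2, q4]
        exact h2
      · rw [r3]
        have e1 : m * (t + 1) = m * t + m := by ring
        rw [e1]
        rcases q5 with q5 | q5
        · exact Or.inl q5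
        · rcases h3 with h3 | h3
          · exact Or.inl (by omega)
          · exact Or.inr (by omega)
  -- no tile
  have notile : ∀ l < mt, ∀ (σ : Equiv.Perm (Fin n)) (T : Finset (Fin n × Fin n))
      (L : Fin n → ℕ), RSt S o J σ0 l σ T L → ∃ (σ' : Equiv.Perm (Fin n))
        (T' : Finset (Fin n × Fin n)) (L1 : Fin n → ℕ), RSt S o J σ0 (l + 1) σ' T' L1 ∧
        (ClU o (J (l + 1))).image L1 = (ClU o (J l)).image L ∧
        ∀ x ∈ ClU o (J l), L1 (σ' x) = L x ∧ i (σ' x) = o x := by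
    intro l hl σ T L h1
    obtain ⟨σ', T', L1, r1, -, -, r4, r5⟩ := stp l hl σ T L L ∅ h1 (run_TS0 S o (J l))
      (by rw [card_empty, Nat.cast_zero, mul_zero]; linarith) (run_Mg0 _ _)
    exact ⟨σ', T', L1, r1, r4, r5⟩
  -- one tile
  have onetile : ∀ l < mt, ∀ (σ : Equiv.Perm (Fin n)) (T : Finset (Fin n × Fin n))
      (L : Fin n → ℕ), RSt S o J σ0 l σ T L → ∀ (a : Fin K) (x₀ x₁ : Fin n), a ∈ J l → o x₀ = a →
        o x₁ = a → L x₀ ≠ L x₁ → ∃ (σ' : Equiv.Perm (Fin n))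
        (T' : Finset (Fin n × Fin n)) (L1 : Fin n → ℕ), RSt S o J σ0 (l + 1) σ' T' L1 ∧
        ((ClU o (J (l + 1))).image L1).card + 1 ≤ ((ClU o (J l)).image L).card := by
    intro l hl σ T L h1 a x₀ x₁ ha h2 h3 h4
    obtain ⟨Q, L', q1, q2, q3, q4⟩ := hStC n K S o (J l) L a x₀ x₁ hTE ha h2 h3 h4
    have q2' : (Q.card : ℝ) ≤ 1 := by exact_mod_cast q2
    obtain ⟨σ', T', L1, r1, -, -, r4, -⟩ := stp l hl σ T L L' Q h1 q1 (by linarith) q3
    exact ⟨σ', T', L1, r1, by rw [r4]; exact q4⟩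
  -- two gaps
  have two : ∀ l, l + 2 ≤ mt → ∀ (σ : Equiv.Perm (Fin n)) (T : Finset (Fin n × Fin n))
      (L : Fin n → ℕ), RSt S o J σ0 l σ T L → ∃ (σ' : Equiv.Perm (Fin n))
        (T' : Finset (Fin n × Fin n)) (L1 : Fin n → ℕ), RSt S o J σ0 (l + 2) σ' T' L1 ∧
        (((ClU o (J (l + 2))).image L1).card ≤ 1 ∨
          ((ClU o (J (l + 2))).image L1).card + 1 ≤ ((ClU o (J l)).image L).card) := by
    intro l hl σ T L h1
    by_cases hone : ((ClU o (J l)).image L).card ≤ 1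
    · obtain ⟨σ', T', L1, r1, r2, -⟩ := notile l (by omega) σ T L h1
      obtain ⟨σ'', T'', L2, s1, s2, -⟩ := notile (l + 1) (by omega) σ' T' L1 r1
      refine ⟨σ'', T'', L2, s1, Or.inl ?_⟩
      have e : (ClU o (J (l + 2))).image L2 = (ClU o (J (l + 1))).image L1 := s2
      rw [e, r2]
      exact hone
    by_cases hcl : ∃ a ∈ J l, ∃ x₀ x₁, o x₀ = a ∧ o x₁ = a ∧ L x₀ ≠ L x₁
    · obtain ⟨a, ha, x₀, x₁, h2, h3, h4⟩ := hcl
      obtain ⟨σ', T', L1, r1, r2⟩ := onetile l (by omega) σ T L h1 a x₀ x₁ ha h2 h3 h4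
      obtain ⟨σ'', T'', L2, s1, s2, -⟩ := notile (l + 1) (by omega) σ' T' L1 r1
      refine ⟨σ'', T'', L2, s1, Or.inr ?_⟩
      have e : (ClU o (J (l + 2))).image L2 = (ClU o (J (l + 1))).image L1 := s2
      rw [e]
      exact r2
    -- every class has only one label
    have hcl' : ∀ x x', o x ∈ J l → o x' = o x → L x' = L x := by
      intro x x' hx hxx
      by_contra hcon
      exact hcl ⟨o x, hx, x', x, hxx, rfl, hcon⟩
    obtain ⟨y, hy, y', hy', hne⟩ := one_lt_card.1 (not_le.1 hone)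
    obtain ⟨x, hx, rfl⟩ := mem_image.1 hy
    obtain ⟨x', hx', rfl⟩ := mem_image.1 hy'
    rw [run_mem_ClU] at hx hx'
    obtain ⟨σ', T', L1, r1, r2, r3⟩ := notile l (by omega) σ T L h1
    obtain ⟨a, ha, hab⟩ := htyp l (by omega)
    have lab : ∀ z, o z ∈ J l → ∃ u, o u = a ∧ L1 u = L z := by
      intro z hz
      obtain ⟨u, hu⟩ := hab (o z) hz
      rw [mem_inter, run_mem_Cl, run_mem_Cl] at hu
      obtain ⟨p, hp, hpu⟩ := run_onto o i (J l) σ' (hcard l (by omega)) (fun x hx => (r3 x hx).2) u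
        (by rw [hu.2]; exact hz)
      refine ⟨u, hu.1, ?_⟩
      obtain ⟨k1, k2⟩ := r3 p hp
      rw [hpu] at k1 k2
      rw [k1]
      exact hcl' z p hz (by rw [← k2, hu.2])
    obtain ⟨u, hu1, hu2⟩ := lab x hx
    obtain ⟨u', hu1', hu2'⟩ := lab x' hx'
    obtain ⟨σ'', T'', L2, s1, s2⟩ := onetile (l + 1) (by omega) σ' T' L1 r1 a u u' ha hu1 hu1'
      (by rw [hu2, hu2']; exact hne)
    refine ⟨σ'', T'', L2, s1, Or.inr ?_⟩
    rw [← r2]
    exact s2
  -- (c)
  have pc : ∀ t, t ≤ 2 * M0 → ∃ (σ : Equiv.Perm (Fin n)) (T : Finset (Fin n × Fin n))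
      (L : Fin n → ℕ), RSt S o J σ0 (nA + 2 * nA + 2 * t) σ T L ∧
        (((ClU o (J (nA + 2 * nA + 2 * t))).image L).card ≤ 1 ∨
        ((ClU o (J (nA + 2 * nA + 2 * t))).image L).card + t ≤ 2 * M0) := by
    intro t
    induction t with
    | zero =>
      intro _
      obtain ⟨σ, T, L, h1, h2, h3⟩ := pb (2 * nA) le_rfl
      rw [Nat.mul_zero, Nat.add_zero]
      refine ⟨σ, T, L, h1, Or.inr ?_⟩
      have h4 := run_im (ClU o (J (nA + 2 * nA))) L
      have h5 : (Bg (ClU o (J (nA + 2 * nA))) L).card ≤ M0 := by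
        rcases h3 with h3 | h3
        · exact h3
        · have h6 := hsz nA (by omega)
          have h7 : m * (2 * nA) = 2 * m * nA := by ring
          omega
      omega
    | succ t ih =>
      intro ht
      obtain ⟨σ, T, L, h1, h2⟩ := ih (by omega)
      obtain ⟨σ', T', L1, r1, r2⟩ := two (nA + 2 * nA + 2 * t) (by omega) σ T L h1
      have e0 : nA + 2 * nA + 2 * (t + 1) = nA + 2 * nA + 2 * t + 2 := rfl
      rw [e0]
      refine ⟨σ', T', L1, r1, ?_⟩
      rcases r2 with r2 | r2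
      · exact Or.inl r2
      · rcases h2 with h2 | h2
        · exact Or.inl (by omega)
        · exact Or.inr (by omega)
  -- the end
  obtain ⟨σ, T, L, h1, h2⟩ := pc (2 * M0) le_rfl
  rw [← hmt] at h1 h2
  have h3 : ((ClU o (J mt)).image L).card ≤ 1 := by omega
  refine ⟨σ, T, h1.off, h1.arc, h1.til, h1.dis, ?_⟩
  intro w hw1 hw2 x hx x' hx'
  exact h1.inv w hw1 hw2 x hx x' hx'
    (card_le_one.1 h3 _ (mem_image_of_mem _ hx) _ (mem_image_of_mem _ hx'))

end Pool.Agent.MPd266dbE
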