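import Pool.Agent.Lib.MP_d266db_co.E.SpecF

/-!
# MP_d266db_co, E, Slt: choosing hubs for slots
-/

set_option autoImplicit false

namespace Pool.Agent.MPd266dbE

open Finset Pool.Agent.MPd266db Pool.Agent.MPd266dbH

private theorem slt_pick {n : ℕ} (H F : Finset (Fin n × Fin n)) (V : Finset (Fin n)) (Δ : ℕ)
    (hH : Dg H Δ) (hV : V.card ≤ 10) (hc : F.card + 20 * Δ < H.card) :
    ∃ h ∈ H, h ∉ F ∧ h.1 ∉ V ∧ h.2 ∉ V := by
  classical
  by_contra hcon
  have hsub : H ⊆ F ∪ (H.filter (fun q => q.1 ∈ V ∧ q.2 ∈ univ) ∪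
      H.filter (fun q => q.1 ∈ univ ∧ q.2 ∈ V)) := by
    intro h hh
    by_contra hn
    apply hcon
    refine ⟨h, hh, fun h1 => hn (mem_union_left _ h1), fun h1 => hn ?_, fun h1 => hn ?_⟩
    · exact mem_union_right _ (mem_union_left _ (mem_filter.2 ⟨hh, h1, mem_univ _⟩))
    · exact mem_union_right _ (mem_union_right _ (mem_filter.2 ⟨hh, mem_univ _, h1⟩))
  have h1 := card_le_card hsub
  have h2 := card_union_le F (H.filter (fun q => q.1 ∈ V ∧ q.2 ∈ univ) ∪
      H.filter (fun q => q.1 ∈ univ ∧ q.2 ∈ V))
  have h3 := card_union_le (H.filter (fun q => q.1 ∈ V ∧ q.2 ∈ univ))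
      (H.filter (fun q => q.1 ∈ univ ∧ q.2 ∈ V))
  have h4 : (H.filter (fun q => q.1 ∈ V ∧ q.2 ∈ univ)).card ≤ V.card * Δ := by
    have := eb_univ_right H V
    unfold eb at this
    rw [this]
    calc ∑ v ∈ V, od H v ≤ ∑ _v ∈ V, Δ := sum_le_sum (fun v _ => (hH v).1)
      _ = V.card * Δ := by rw [sum_const, smul_eq_mul]
  have h5 : (H.filter (fun q => q.1 ∈ univ ∧ q.2 ∈ V)).card ≤ V.card * Δ := by
    have := eb_univ_left H V
    unfold eb at this
    rw [this]
    calc ∑ v ∈ V, idg H v ≤ ∑ _v ∈ V, Δ := sum_le_sum (fun v _ => (hH v).2)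
      _ = V.card * Δ := by rw [sum_const, smul_eq_mul]
  have h6 : V.card * Δ ≤ 10 * Δ := Nat.mul_le_mul_right _ hV
  omega

theorem tSlt : S_Slt := by
  intro n α τ _ _ A ty Hb nb Fv Δ hn hnb hsym hFv hDg hA
  have key : ∀ B : Finset α, B ⊆ A → ∃ hb : α → Fin n × Fin n,
      (∀ s ∈ B, hb s ∈ Hb (ty s) ∧ (hb s).1 ∉ Fv s ∧ (hb s).2 ∉ Fv s) ∧
      (∀ s ∈ B, ∀ s' ∈ B, s ≠ s' → ty s = ty s' → hb s ≠ hb s') ∧
      ∀ s ∈ B, ∀ s' ∈ B, s ≠ s' → s' ∈ nb s → PD (hb s) (hb s') := by
    intro B
    induction B using Finset.induction_on with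
    | empty =>
      intro _
      exact ⟨fun _ => (⟨0, hn⟩, ⟨0, hn⟩), by simp, by simp, by simp⟩
    | insert a B haB ih =>
      intro hsub
      have haA : a ∈ A := hsub (mem_insert_self _ _)
      obtain ⟨hb, h1, h2, h3⟩ := ih (fun x hx => hsub (mem_insert_of_mem hx))
      obtain ⟨h, hh, hhF, hv1, hv2⟩ := slt_pick (Hb (ty a))
        ((B.filter (fun s' => ty s' = ty a)).image hb)
        (Fv a ∪ (nb a).biUnion (fun s' => {(hb s').1, (hb s').2})) Δ (hDg _)
        (by
          have e1 := card_union_le (Fv a) ((nb a).biUnion (fun s' => {(hb s').1, (hb s').2}))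
          have e2 : ((nb a).biUnion (fun s' => ({(hb s').1, (hb s').2} : Finset (Fin n)))).card ≤
              (nb a).card * 2 := card_biUnion_le_card_mul _ _ _ (fun s' _ => card_le_two)
          have e3 := hnb a
          have e4 := hFv a haA
          omega)
        (by
          have e1 : ((B.filter (fun s' => ty s' = ty a)).image hb).card ≤
            (B.filter (fun s' => ty s' = ty a)).card := card_image_le
          have e2 : (B.filter (fun s' => ty s' = ty a)).card <
              (A.filter (fun s' => ty s' = ty a)).card := by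
            apply card_lt_card
            rw [ssubset_iff_of_subset (filter_subset_filter _
              (fun x hx => hsub (mem_insert_of_mem hx)))]
            exact ⟨a, mem_filter.2 ⟨haA, rfl⟩, fun hx => haB (mem_filter.1 hx).1⟩
          have e3 := hA a haA
          omega)
      have hne : ∀ s ∈ B, s ≠ a := fun s hs he => haB (he ▸ hs)
      have hPD : ∀ s' ∈ nb a, PD h (hb s') := by
        intro s' hs'
        have hm1 : (hb s').1 ∈ Fv a ∪ (nb a).biUnion (fun s' => {(hb s').1, (hb s').2}) :=
          mem_union_right _ (mem_biUnion.2 ⟨s', hs', by simp⟩)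
        have hm2 : (hb s').2 ∈ Fv a ∪ (nb a).biUnion (fun s' => {(hb s').1, (hb s').2}) :=
          mem_union_right _ (mem_biUnion.2 ⟨s', hs', by simp⟩)
        exact ⟨fun e => hv1 (e ▸ hm1), fun e => hv1 (e ▸ hm2), fun e => hv2 (e ▸ hm1),
          fun e => hv2 (e ▸ hm2)⟩
      have hPDs : ∀ t t' : Fin n × Fin n, PD t t' → PD t' t := fun t t' ⟨x1, x2, x3, x4⟩ =>
        ⟨x1.symm, x3.symm, x2.symm, x4.symm⟩
      refine ⟨Function.update hb a h, ?_, ?_, ?_⟩
      · intro s hs
        rcases mem_insert.1 hs with hsa | hsB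
        · subst hsa
          rw [Function.update_self]
          exact ⟨hh, fun hx => hv1 (mem_union_left _ hx), fun hx => hv2 (mem_union_left _ hx)⟩
        · rw [Function.update_of_ne (hne s hsB)]
          exact h1 s hsB
      · intro s hs s' hs' hss hty
        rcases mem_insert.1 hs with hsa | hsB
        · rcases mem_insert.1 hs' with hsa' | hsB'
          · exact absurd (hsa.trans hsa'.symm) hss
          · subst hsa
            rw [Function.update_self, Function.update_of_ne (hne s' hsB')]
            intro he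
            exact hhF (mem_image.2 ⟨s', mem_filter.2 ⟨hsB', hty.symm⟩, he.symm⟩)
        · rcases mem_insert.1 hs' with hsa' | hsB'
          · subst hsa'
            rw [Function.update_self, Function.update_of_ne (hne s hsB)]
            intro he
            exact hhF (mem_image.2 ⟨s, mem_filter.2 ⟨hsB, hty⟩, he⟩)
          · rw [Function.update_of_ne (hne s hsB), Function.update_of_ne (hne s' hsB')]
            exact h2 s hsB s' hsB' hss hty
      · intro s hs s' hs' hss hnn
        rcases mem_insert.1 hs with hsa | hsB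
        · rcases mem_insert.1 hs' with hsa' | hsB'
          · exact absurd (hsa.trans hsa'.symm) hss
          · subst hsa
            rw [Function.update_self, Function.update_of_ne (hne s' hsB')]
            exact hPD s' hnn
        · rcases mem_insert.1 hs' with hsa' | hsB'
          · subst hsa'
            rw [Function.update_self, Function.update_of_ne (hne s hsB)]
            exact hPDs _ _ (hPD s (hsym _ _ hnn))
          · rw [Function.update_of_ne (hne s hsB), Function.update_of_ne (hne s' hsB')]
            exact h3 s hsB s' hsB' hss hnn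
  exact key A (Subset.refl A)

end Pool.Agent.MPd266dbE
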