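import Pool.Agent.Lib.MP_d266db_co.E.SpecF

set_option autoImplicit false

namespace Pool.Agent.MPd266dbE

open Finset Pool.Agent.MPd266db Pool.Agent.MPd266dbH

theorem smb_od {n K : ℕ} (O : Fin n → Fin K) (Z : Finset (Fin n × Fin n)) (A : Fin K) :
    ∑ v ∈ Cl O A, od Z v = (Z.filter (fun q => O q.1 = A)).card := by
  classical
  rw [card_eq_sum_card_fiberwise (f := Prod.fst) (t := Cl O A)]
  · refine sum_congr rfl fun v hv => ?_
    unfold od
    congr 1
    ext q
    rw [mem_filter, mem_filter, mem_filter]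
    have hv' : O v = A := (mem_filter.1 hv).2
    constructor
    · rintro ⟨h1, h2⟩
      exact ⟨⟨h1, by rw [h2]; exact hv'⟩, h2⟩
    · rintro ⟨⟨h1, -⟩, h2⟩
      exact ⟨h1, h2⟩
  · intro q hq
    exact mem_coe.2 (mem_filter.2 ⟨mem_univ _, (mem_filter.1 (mem_coe.1 hq)).2⟩)

theorem smb_idg {n K : ℕ} (O : Fin n → Fin K) (Z : Finset (Fin n × Fin n)) (A : Fin K) :
    ∑ v ∈ Cl O A, idg Z v = (Z.filter (fun q => O q.2 = A)).card := by
  classical
  rw [card_eq_sum_card_fiberwise (f := Prod.snd) (t := Cl O A)]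
  · refine sum_congr rfl fun v hv => ?_
    unfold idg
    congr 1
    ext q
    rw [mem_filter, mem_filter, mem_filter]
    have hv' : O v = A := (mem_filter.1 hv).2
    constructor
    · rintro ⟨h1, h2⟩
      exact ⟨⟨h1, by rw [h2]; exact hv'⟩, h2⟩
    · rintro ⟨⟨h1, -⟩, h2⟩
      exact ⟨h1, h2⟩
  · intro q hq
    exact mem_coe.2 (mem_filter.2 ⟨mem_univ _, (mem_filter.1 (mem_coe.1 hq)).2⟩)

theorem smb_hb {n K : ℕ} {S : Finset (Fin n × Fin n)} {o : Fin n → Fin K} {lv : Fin n → ℕ}
    {e Nh Δ : ℕ} {H1 H2 : ℕ → Fin K → Finset (Fin n × Fin n)} (hH : Hub S o lv e Nh Δ H1 H2)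
    (P : Fin n × Fin n → Prop) [DecidablePred P] :
    ((hbU e H1 H2).filter P).card =
      ∑ m ∈ range e, ∑ a, (((H1 m a).filter P).card + ((H2 m a).filter P).card) := by
  classical
  unfold hbU
  rw [filter_biUnion, card_biUnion]
  · refine sum_congr rfl fun m hm => ?_
    have hm' := mem_range.1 hm
    rw [filter_biUnion, card_biUnion]
    · refine sum_congr rfl fun a _ => ?_
      rw [filter_union, card_union_of_disjoint]
      rw [disjoint_left]
      intro q hq hq'
      have h1 := ((hH.s1 m hm' a).2.2.2 q (mem_filter.1 hq).1).1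
      have h2 := ((hH.s2 m hm' a).2.2.2 q (mem_filter.1 hq').1).1
      omega
    · intro a _ a' _ haa
      refine disjoint_left.2 ?_
      intro q hq hq'
      obtain ⟨hq, -⟩ := mem_filter.1 hq
      obtain ⟨hq', -⟩ := mem_filter.1 hq'
      rcases mem_union.1 hq with hq | hq <;> rcases mem_union.1 hq' with hq' | hq'
      · exact haa (((hH.s1 m hm' a).2.2.2 q hq).2.2.symm.trans ((hH.s1 m hm' a').2.2.2 q hq').2.2)
      · have h1 := ((hH.s1 m hm' a).2.2.2 q hq).1
        have h2 := ((hH.s2 m hm' a').2.2.2 q hq').1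
        omega
      · have h1 := ((hH.s2 m hm' a).2.2.2 q hq).1
        have h2 := ((hH.s1 m hm' a').2.2.2 q hq').1
        omega
      · exact haa (((hH.s2 m hm' a).2.2.2 q hq).2.2.symm.trans ((hH.s2 m hm' a').2.2.2 q hq').2.2)
  · intro m hm m' hm' hmm
    have hm1 := mem_range.1 hm
    have hm2 := mem_range.1 hm'
    refine disjoint_left.2 ?_
    intro q hq hq'
    obtain ⟨hq, -⟩ := mem_filter.1 hq
    obtain ⟨hq', -⟩ := mem_filter.1 hq'
    obtain ⟨a, -, hq⟩ := mem_biUnion.1 hq
    obtain ⟨a', -, hq'⟩ := mem_biUnion.1 hq'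
    rcases mem_union.1 hq with hq | hq <;> rcases mem_union.1 hq' with hq' | hq'
    · have h1 := ((hH.s1 m hm1 a).2.2.2 q hq).2.1
      have h2 := ((hH.s1 m' hm2 a').2.2.2 q hq').2.1
      omega
    · have h1 := ((hH.s1 m hm1 a).2.2.2 q hq).1
      have h2 := ((hH.s2 m' hm2 a').2.2.2 q hq').1
      omega
    · have h1 := ((hH.s2 m hm1 a).2.2.2 q hq).1
      have h2 := ((hH.s1 m' hm2 a').2.2.2 q hq').1
      omega
    · have h1 := ((hH.s2 m hm1 a).2.2.2 q hq).1
      have h2 := ((hH.s2 m' hm2 a').2.2.2 q hq').1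
      omega

/-- all elements of `Z` are in the same box `B` -/
theorem smb_one {n L : ℕ} {Z : Finset (Fin n × Fin n)} {f : Fin n × Fin n → Fin L} {B : Fin L}
    (h : ∀ q ∈ Z, f q = B) (A : Fin L) :
    (Z.filter (fun q => f q = A)).card = if A = B then Z.card else 0 := by
  classical
  split_ifs with hA
  · subst hA
    rw [filter_true_of_mem h]
  · rw [card_eq_zero, filter_eq_empty_iff]
    intro q hq hq'
    exact hA (hq'.symm.trans (h q hq))

theorem tSmB (hSzB : S_SzB) : S_SmB := by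
  classical
  intro n K e p w Nh Δ S XW o i c0 d0 lv H1 H2 hCD hLv he hown hH hXW hXc hw A
  have hsz := hSzB n K e p o i c0 d0 lv hCD hLv he A
  have hlast : (Fin.ofNat (e + 1) e) = Fin.last e := by
    apply Fin.ext
    simp [Fin.ofNat]
  -- the arcs of `XW`
  have x1 : (XW.filter (fun q => bxo e lv o q.1 = A)).card = if A = bxe e c0 then w * p else 0 := by
    rw [smb_one (f := fun q => bxo e lv o q.1) (B := bxe e c0), hXc]
    intro q hq
    obtain ⟨a1, a2, a3, a4⟩ := hXW q hq
    unfold bxo bxe tgp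
    rw [a1, a3, min_self, hlast]
  have x2 : (XW.filter (fun q => bxi e lv i q.2 = A)).card = if A = bxe e d0 then w * p else 0 := by
    rw [smb_one (f := fun q => bxi e lv i q.2) (B := bxe e d0), hXc]
    intro q hq
    obtain ⟨a1, a2, a3, a4⟩ := hXW q hq
    unfold bxi bxe hgp
    rw [a2, a4, if_pos rfl, hlast]
  -- the hubs
  have x3 : ((hbU e H1 H2).filter (fun q => bxo e lv o q.1 = A)).card =
      ((hbU e H1 H2).filter (fun q => bxi e lv i q.2 = A)).card := by
    rw [smb_hb hH, smb_hb hH]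
    refine sum_congr rfl fun m hm => sum_congr rfl fun a _ => ?_
    have hm' := mem_range.1 hm
    obtain ⟨s1, s2, -, s3⟩ := hH.s1 m hm' a
    obtain ⟨t1, t2, -, t3⟩ := hH.s2 m hm' a
    rw [smb_one (Z := H1 m a) (f := fun q => bxo e lv o q.1) (B := bxe e a),
      smb_one (Z := H2 m a) (f := fun q => bxo e lv o q.1)
        (B := finProdFinEquiv (Fin.ofNat (e + 1) m, a)),
      smb_one (Z := H1 m a) (f := fun q => bxi e lv i q.2)
        (B := finProdFinEquiv (Fin.ofNat (e + 1) m, a)),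
      smb_one (Z := H2 m a) (f := fun q => bxi e lv i q.2) (B := bxe e a), s2, t2, add_comm]
    · intro q hq
      obtain ⟨b1, b2, b3⟩ := t3 q hq
      unfold bxi bxe hgp
      rw [b2, if_pos rfl, hlast, ← hown q (t1 hq), b3]
    · intro q hq
      obtain ⟨b1, b2, b3⟩ := s3 q hq
      unfold bxi hgp
      rw [b2, if_neg (by omega), ← hown q (s1 hq), b3, Nat.add_sub_cancel]
    · intro q hq
      obtain ⟨b1, b2, b3⟩ := t3 q hq
      unfold bxo tgp
      rw [b1, b3, min_eq_left hm'.le]
    · intro q hq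
      obtain ⟨b1, b2, b3⟩ := s3 q hq
      unfold bxo bxe tgp
      rw [b1, b3, min_self, hlast]
  have y1 : ∑ v ∈ Cl (bxo e lv o) A, (w - (od XW v + od (hbU e H1 H2) v)) +
      ((XW.filter (fun q => bxo e lv o q.1 = A)).card +
        ((hbU e H1 H2).filter (fun q => bxo e lv o q.1 = A)).card) =
      w * (Cl (bxo e lv o) A).card := by
    rw [← smb_od, ← smb_od, ← sum_add_distrib, ← sum_add_distrib]
    refine (sum_congr rfl fun v _ => Nat.sub_add_cancel (hw v).1).trans ?_
    rw [sum_const, smul_eq_mul, Nat.mul_comm]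
  have y2 : ∑ v ∈ Cl (bxi e lv i) A, (w - (idg XW v + idg (hbU e H1 H2) v)) +
      ((XW.filter (fun q => bxi e lv i q.2 = A)).card +
        ((hbU e H1 H2).filter (fun q => bxi e lv i q.2 = A)).card) =
      w * (Cl (bxi e lv i) A).card := by
    rw [← smb_idg, ← smb_idg, ← sum_add_distrib, ← sum_add_distrib]
    refine (sum_congr rfl fun v _ => Nat.sub_add_cancel (hw v).2).trans ?_
    rw [sum_const, smul_eq_mul, Nat.mul_comm]
  have y3 : w * (Cl (bxo e lv o) A).card + (if A = bxe e d0 then w * p else 0) =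
      w * (Cl (bxi e lv i) A).card + (if A = bxe e c0 then w * p else 0) := by
    have := congrArg (fun x => w * x) hsz
    simp only [mul_add, mul_ite, mul_zero] at this
    exact this
  rw [x1] at y1
  rw [x2] at y2
  omega

end Pool.Agent.MPd266dbE
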