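import Pool.Agent.Lib.MP_d266db_co.E.SpecI

/-!
# MP_d266db_co, E: a maximiser of the number of cross arcs separates (`S_SpC`)
-/

set_option autoImplicit false

namespace Pool.Agent.MPd266dbE

open Finset Pool.Agent.MPd266db Pool.Agent.MPd266dbH

variable {n : ℕ}

/-- degrees of a disjoint union -/
theorem spc_od_union {A B : Finset (Fin n × Fin n)} (h : Disjoint A B) (v : Fin n) :
    od (A ∪ B) v = od A v + od B v := by
  classical
  unfold od
  rw [filter_union, card_union_of_disjoint]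
  exact disjoint_filter_filter h

theorem spc_idg_union {A B : Finset (Fin n × Fin n)} (h : Disjoint A B) (v : Fin n) :
    idg (A ∪ B) v = idg A v + idg B v := by
  classical
  unfold idg
  rw [filter_union, card_union_of_disjoint]
  exact disjoint_filter_filter h

/-- arcs of a disjoint union -/
theorem spc_eb_union {A B : Finset (Fin n × Fin n)} (h : Disjoint A B) (X Y : Finset (Fin n)) :
    eb (A ∪ B) X Y = eb A X Y + eb B X Y := by
  classical
  unfold eb
  rw [filter_union, card_union_of_disjoint]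
  exact disjoint_filter_filter h

theorem spc_eb_sdiff {A B : Finset (Fin n × Fin n)} (h : B ⊆ A) (X Y : Finset (Fin n)) :
    eb (A \ B) X Y + eb B X Y = eb A X Y := by
  classical
  rw [← spc_eb_union sdiff_disjoint, sdiff_union_of_subset h]

theorem spc_mem_crs {K : ℕ} {o i : Fin n → Fin K} {R : Finset (Fin n × Fin n)} {e : Fin n × Fin n} :
    e ∈ crs o i R ↔ e ∈ R ∧ o e.1 ≠ i e.2 := by
  unfold crs
  rw [mem_filter]

theorem spc_sum_od (A : Finset (Fin n × Fin n)) : ∑ v, od A v = A.card := by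
  rw [← eb_univ_right]
  unfold eb
  congr 1
  ext e
  simp

theorem spc_sum_idg (A : Finset (Fin n × Fin n)) : ∑ v, idg A v = A.card := by
  rw [← eb_univ_left]
  unfold eb
  congr 1
  ext e
  simp

/-- **SpC.** -/
theorem tSpC (hFac : S_Fac) : S_SpC := by
  classical
  intro n r K E R o i hRE hReg hmax u v huvE huvR hcr
  -- the two degenerate cases
  by_cases hu1 : ∀ w, (u, w) ∈ R → o u ≠ i w
  · refine ⟨{u}ᶜ, univ, ⟨?_, ?_⟩, mem_univ _, by simp⟩
    · intro _ _ _ _ _
      exact mem_univ _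
    · intro a b hab hU _
      rw [mem_compl, mem_singleton]
      rintro rfl
      exact hu1 b hab hU
  by_cases hv1 : ∀ w, (w, v) ∈ R → o w ≠ i v
  · refine ⟨∅, {v}, ⟨?_, ?_⟩, mem_singleton_self _, notMem_empty _⟩
    · intro _ _ _ _ h
      exact absurd h (notMem_empty _)
    · intro a b hab hU hb
      rw [mem_singleton] at hb
      rw [hb] at hab hU
      exact absurd hU (hv1 a hab)
  push Not at hu1 hv1
  obtain ⟨w1, hw1R, hw1U⟩ := hu1
  obtain ⟨w2, hw2R, hw2U⟩ := hv1
  set F := crs o i R with hF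
  have hFR : F ⊆ R := filter_subset _ _
  have huvF : (u, v) ∉ F := fun h => huvR (hFR h)
  set F₀ := insert (u, v) F with hF₀
  have hF₀E : F₀ ⊆ E := by
    rw [hF₀]
    exact insert_subset huvE (hFR.trans hRE)
  have hF₀eq : F₀ = F ∪ {(u, v)} := by
    rw [hF₀, insert_eq, union_comm]
  have hdisj : Disjoint F {(u, v)} := disjoint_singleton_right.mpr huvF
  -- degrees
  have hodF : ∀ a, od F a ≤ r := by
    intro a
    rw [← (hReg a).1]
    exact card_le_card (filter_subset_filter _ hFR)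
  have hidF : ∀ a, idg F a ≤ r := by
    intro a
    rw [← (hReg a).2]
    exact card_le_card (filter_subset_filter _ hFR)
  have hod1 : ∀ a, od {(u, v)} a = if u = a then 1 else 0 := by
    intro a
    unfold od
    rw [filter_singleton]
    split_ifs <;> simp
  have hid1 : ∀ a, idg {(u, v)} a = if v = a then 1 else 0 := by
    intro a
    unfold idg
    rw [filter_singleton]
    split_ifs <;> simp
  have hodu : od F u < r := by
    rw [← (hReg u).1]
    refine card_lt_card ?_
    rw [ssubset_iff_of_subset (filter_subset_filter _ hFR)]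
    refine ⟨(u, w1), mem_filter.mpr ⟨hw1R, rfl⟩, ?_⟩
    intro h
    have h2 := (mem_filter.mp h).1
    rw [hF, spc_mem_crs] at h2
    exact h2.2 hw1U
  have hidv : idg F v < r := by
    rw [← (hReg v).2]
    refine card_lt_card ?_
    rw [ssubset_iff_of_subset (filter_subset_filter _ hFR)]
    refine ⟨(w2, v), mem_filter.mpr ⟨hw2R, rfl⟩, ?_⟩
    intro h
    have h2 := (mem_filter.mp h).1
    rw [hF, spc_mem_crs] at h2
    exact h2.2 hw2U
  have hod0 : ∀ a, od F₀ a ≤ r := by
    intro a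
    rw [hF₀eq, spc_od_union hdisj, hod1]
    split_ifs with h
    · rw [← h]; exact hodu
    · exact hodF a
  have hid0 : ∀ a, idg F₀ a ≤ r := by
    intro a
    rw [hF₀eq, spc_idg_union hdisj, hid1]
    split_ifs with h
    · rw [← h]; exact hidv
    · exact hidF a
  have hcardF₀ : F₀.card = F.card + 1 := card_insert_of_notMem huvF
  have hsumf : ∀ X : Finset (Fin n), ∑ a ∈ X, (r - od F₀ a) + eb F₀ X univ = r * X.card := by
    intro X
    rw [eb_univ_right, ← sum_add_distrib,
      sum_congr rfl (fun a _ => Nat.sub_add_cancel (hod0 a)), sum_const, smul_eq_mul, mul_comm]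
  have hsumg : ∀ Y : Finset (Fin n), ∑ a ∈ Y, (r - idg F₀ a) + eb F₀ univ Y = r * Y.card := by
    intro Y
    rw [eb_univ_left, ← sum_add_distrib,
      sum_congr rfl (fun a _ => Nat.sub_add_cancel (hid0 a)), sum_const, smul_eq_mul, mul_comm]
  have hsum : ∑ a, (r - od F₀ a) = ∑ a, (r - idg F₀ a) := by
    have h1 := hsumf univ
    have h2 := hsumg univ
    omega
  by_cases hcond : ∀ X Y : Finset (Fin n),
      ∑ a ∈ X, (r - od F₀ a) ≤ eb (E \ F₀) X Y + ∑ a ∈ Yᶜ, (r - idg F₀ a)
  · -- a better regular subdigraph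
    exfalso
    obtain ⟨H₁, hH₁, hdeg⟩ := hFac n (E \ F₀) (fun a => r - od F₀ a) (fun a => r - idg F₀ a)
      hsum hcond
    have hdis : Disjoint H₁ F₀ := disjoint_of_subset_left hH₁ sdiff_disjoint
    have hR'E : H₁ ∪ F₀ ⊆ E := union_subset (hH₁.trans sdiff_subset) hF₀E
    have hR' : Reg (H₁ ∪ F₀) r := by
      intro a
      rw [spc_od_union hdis, spc_idg_union hdis, (hdeg a).1, (hdeg a).2]
      exact ⟨Nat.sub_add_cancel (hod0 a), Nat.sub_add_cancel (hid0 a)⟩
    have h1 := hmax _ hR'E hR'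
    have h3 : F₀ ⊆ crs o i (H₁ ∪ F₀) := by
      intro e he
      rw [spc_mem_crs]
      refine ⟨mem_union_right _ he, ?_⟩
      rw [hF₀, mem_insert] at he
      rcases he with rfl | he
      · exact hcr
      · rw [hF, spc_mem_crs] at he
        exact he.2
    have h4 := card_le_card h3
    omega
  · push Not at hcond
    obtain ⟨X, Y, hXY⟩ := hcond
    -- identities
    have a1 := hsumf X
    have a2 := hsumg Yᶜ
    have a3 := spc_eb_sdiff hF₀E X Y
    have a4 : eb F₀ X Y + eb F₀ X Yᶜ = eb F₀ X univ := by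
      rw [← eb_union_right _ _ disjoint_compl_right, union_compl]
    have a5 : eb F₀ X Yᶜ + eb F₀ Xᶜ Yᶜ = eb F₀ univ Yᶜ := by
      rw [← eb_union_left _ _ disjoint_compl_right, union_compl]
    have a6 := Reg.out X Y hReg
    have a7 := Reg.in X Yᶜ hReg
    have a8 : eb R X Y ≤ eb E X Y := eb_mono hRE (Subset.refl _) (Subset.refl _)
    have a9 : eb F₀ Xᶜ Yᶜ = eb F Xᶜ Yᶜ + eb {(u, v)} Xᶜ Yᶜ := by
      rw [hF₀eq, spc_eb_union hdisj]
    have a10 : eb F Xᶜ Yᶜ ≤ eb R Xᶜ Yᶜ := eb_mono hFR (Subset.refl _) (Subset.refl _)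
    have a11 : eb {(u, v)} Xᶜ Yᶜ = if u ∈ Xᶜ ∧ v ∈ Yᶜ then 1 else 0 := by
      unfold eb
      rw [filter_singleton]
      split_ifs <;> simp
    have huv : u ∈ Xᶜ ∧ v ∈ Yᶜ := by
      by_contra hcon
      rw [if_neg hcon] at a11
      omega
    rw [if_pos huv] at a11
    have b1 : eb E X Y = eb R X Y := by omega
    have b2 : eb R Xᶜ Yᶜ = eb F Xᶜ Yᶜ := by omega
    refine ⟨X, Yᶜ, ⟨?_, ?_⟩, huv.2, mem_compl.mp huv.1⟩
    · intro a b habE habR ha
      by_contra hb
      rw [mem_compl, not_not] at hb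
      have h1 : E.filter (fun e => e.1 ∈ X ∧ e.2 ∈ Y) = R.filter (fun e => e.1 ∈ X ∧ e.2 ∈ Y) :=
        (eq_of_subset_of_card_le (filter_subset_filter _ hRE) b1.le).symm
      have h2 : (a, b) ∈ E.filter (fun e => e.1 ∈ X ∧ e.2 ∈ Y) := mem_filter.mpr ⟨habE, ha, hb⟩
      rw [h1] at h2
      exact habR (mem_filter.mp h2).1
    · intro a b habR hU hb
      by_contra ha
      have h1 : F.filter (fun e => e.1 ∈ Xᶜ ∧ e.2 ∈ Yᶜ) =
          R.filter (fun e => e.1 ∈ Xᶜ ∧ e.2 ∈ Yᶜ) :=
        eq_of_subset_of_card_le (filter_subset_filter _ hFR) b2.le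
      have h2 : (a, b) ∈ R.filter (fun e => e.1 ∈ Xᶜ ∧ e.2 ∈ Yᶜ) :=
        mem_filter.mpr ⟨habR, mem_compl.mpr ha, hb⟩
      rw [← h1] at h2
      have h3 := (mem_filter.mp h2).1
      rw [hF, spc_mem_crs] at h3
      exact h3.2 hU

end Pool.Agent.MPd266dbE
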