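import Pool.Agent.Lib.MP_d266db_co.E.SpecI

/-!
# MP_d266db_co, E, St1: a regular subdigraph with many cross arcs
-/

set_option autoImplicit false

namespace Pool.Agent.MPd266dbE

open Finset Pool.Agent.MPd266db Pool.Agent.MPd266dbH

theorem tSt1 (hK3 : S_K3) (hPer : S_Per) : S_St1 := by
  classical
  intro n r K E R o i hn hO hS hr hRE hR hK hsz hno
  obtain ⟨R', hR', hmax⟩ := Finset.exists_max_image (E.powerset.filter (fun H => Reg H r))
    (fun H => (crs o i H).card) ⟨R, by rw [mem_filter, mem_powerset]; exact ⟨hRE, hR⟩⟩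
  rw [mem_filter, mem_powerset] at hR'
  have hmax' : ∀ H ⊆ E, Reg H r → (crs o i H).card ≤ (crs o i R').card := by
    intro H hH1 hH2
    exact hmax H (by rw [mem_filter, mem_powerset]; exact ⟨hH1, hH2⟩)
  refine ⟨R', hR'.1, hR'.2, ?_⟩
  by_contra hlt
  rw [not_le] at hlt
  rcases Nat.lt_or_ge 2 K with h3 | h2
  · exact hK3 n r K E R' o i hn hO hS hr hR'.1 hR'.2 h3 hmax' hlt hsz
  · apply hno
    refine ⟨h2, ?_⟩
    rcases Nat.lt_or_ge 1 K with h4 | h4
    · obtain rfl : K = 2 := by omega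
      exact hPer n r E R' o i hn hO hS hr hR'.1 hR'.2 hmax' hlt
    · obtain rfl : K = 1 := by omega
      refine ⟨0, ?_⟩
      have h5 : Cl o (0 : Fin 1) ∩ Cl i (0 : Fin 1) = univ := by
        ext v
        simp only [Cl, mem_inter, mem_filter, mem_univ, true_and, iff_true]
        exact ⟨Subsingleton.elim _ _, Subsingleton.elim _ _⟩
      rw [h5, Finset.card_univ, Fintype.card_fin]
      omega

end Pool.Agent.MPd266dbE
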