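import Pool.Agent.Lib.MP_d266db_co.E.SpecC

/-!
# MP_d266db_co, E/StA: pairing single labels
-/

set_option autoImplicit false

namespace Pool.Agent.MPd266dbE

open Finset Pool.Agent.MPd266db Pool.Agent.MPd266dbH

private theorem sta_mem {n : ℕ} {A : Finset (Fin n)} {L : Fin n → ℕ} {x : Fin n} :
    x ∈ Sg A L ↔ x ∈ A ∧ ∀ x' ∈ A, L x' = L x → x' = x := by simp only [Sg, mem_filter]

section

variable {n K : ℕ} {S : Finset (Fin n × Fin n)} {o : Fin n → Fin K} {J : Finset (Fin K)}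
  {Q : Finset (Fin n × Fin n × Fin n × Fin n)}

/-- the tails of tiles -/
private def sta_tl (Q : Finset (Fin n × Fin n × Fin n × Fin n)) : Finset (Fin n) :=
  Q.image (fun q => q.1) ∪ Q.image (fun q => q.2.1)

/-- the heads of tiles -/
private def sta_hd (Q : Finset (Fin n × Fin n × Fin n × Fin n)) : Finset (Fin n) :=
  Q.image (fun q => q.2.2.1) ∪ Q.image (fun q => q.2.2.2)

private theorem sta_mtl {x : Fin n} : x ∈ sta_tl Q ↔ ∃ q ∈ Q, q.1 = x ∨ q.2.1 = x := by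
  simp only [sta_tl, mem_union, mem_image]
  constructor
  · rintro (⟨q, hq, h⟩ | ⟨q, hq, h⟩)
    · exact ⟨q, hq, Or.inl h⟩
    · exact ⟨q, hq, Or.inr h⟩
  · rintro ⟨q, hq, h | h⟩
    · exact Or.inl ⟨q, hq, h⟩
    · exact Or.inr ⟨q, hq, h⟩

private theorem sta_mhd {x : Fin n} : x ∈ sta_hd Q ↔ ∃ q ∈ Q, q.2.2.1 = x ∨ q.2.2.2 = x := by
  simp only [sta_hd, mem_union, mem_image]
  constructor
  · rintro (⟨q, hq, h⟩ | ⟨q, hq, h⟩)
    · exact ⟨q, hq, Or.inl h⟩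
    · exact ⟨q, hq, Or.inr h⟩
  · rintro ⟨q, hq, h | h⟩
    · exact Or.inl ⟨q, hq, h⟩
    · exact Or.inr ⟨q, hq, h⟩

private theorem sta_ctl (h : TS S o J Q) : (sta_tl Q).card = 2 * Q.card := by
  unfold sta_tl
  rw [card_union_of_disjoint, card_image_of_injOn, card_image_of_injOn]
  · omega
  · intro q hq q' hq' h1
    by_contra h2
    exact (h.dt q (mem_coe.1 hq) q' (mem_coe.1 hq') h2).2.2.2 h1
  · intro q hq q' hq' h1
    by_contra h2
    exact (h.dt q (mem_coe.1 hq) q' (mem_coe.1 hq') h2).1 h1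
  · rw [disjoint_left]
    intro x hx hx'
    rw [mem_image] at hx hx'
    obtain ⟨q, hq, rfl⟩ := hx
    obtain ⟨q', hq', h1⟩ := hx'
    by_cases h2 : q = q'
    · subst h2
      exact (h.ne q hq).1 h1.symm
    · exact (h.dt q hq q' hq' h2).2.1 h1.symm

private theorem sta_chd : (sta_hd Q).card ≤ 2 * Q.card := by
  unfold sta_hd
  refine (card_union_le _ _).trans ?_
  have h1 : (Q.image (fun q => q.2.2.1)).card ≤ Q.card := card_image_le
  have h2 : (Q.image (fun q => q.2.2.2)).card ≤ Q.card := card_image_le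
  omega

/-- one more tile -/
private theorem sta_ins (h : TS S o J Q) {x x' y y' : Fin n} (h1 : o x = o x') (h2 : o x ∈ J)
    (h3 : x ≠ x') (h4 : y ≠ y')
    (h5 : (x, y) ∈ S ∧ (x, y') ∈ S ∧ (x', y) ∈ S ∧ (x', y') ∈ S) (h6 : x ∉ sta_tl Q)
    (h7 : x' ∉ sta_tl Q) (h8 : y ∉ sta_hd Q) (h9 : y' ∉ sta_hd Q) :
    TS S o J (insert (x, x', y, y') Q) := by
  have t1 : ∀ q ∈ Q, q.1 ≠ x ∧ q.2.1 ≠ x := fun q hq =>
    ⟨fun h => h6 (sta_mtl.2 ⟨q, hq, Or.inl h⟩), fun h => h6 (sta_mtl.2 ⟨q, hq, Or.inr h⟩)⟩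
  have t2 : ∀ q ∈ Q, q.1 ≠ x' ∧ q.2.1 ≠ x' := fun q hq =>
    ⟨fun h => h7 (sta_mtl.2 ⟨q, hq, Or.inl h⟩), fun h => h7 (sta_mtl.2 ⟨q, hq, Or.inr h⟩)⟩
  have t3 : ∀ q ∈ Q, q.2.2.1 ≠ y ∧ q.2.2.2 ≠ y := fun q hq =>
    ⟨fun h => h8 (sta_mhd.2 ⟨q, hq, Or.inl h⟩), fun h => h8 (sta_mhd.2 ⟨q, hq, Or.inr h⟩)⟩
  have t4 : ∀ q ∈ Q, q.2.2.1 ≠ y' ∧ q.2.2.2 ≠ y' := fun q hq =>
    ⟨fun h => h9 (sta_mhd.2 ⟨q, hq, Or.inl h⟩), fun h => h9 (sta_mhd.2 ⟨q, hq, Or.inr h⟩)⟩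
  refine ⟨fun q hq => ?_, fun q hq => ?_, fun q hq => ?_, fun q hq q' hq' hne => ?_,
    fun q hq q' hq' hne => ?_⟩
  · rcases mem_insert.1 hq with rfl | hq
    · exact ⟨h1, h2⟩
    · exact h.cls q hq
  · rcases mem_insert.1 hq with rfl | hq
    · exact ⟨h3, h4⟩
    · exact h.ne q hq
  · rcases mem_insert.1 hq with rfl | hq
    · exact ⟨h5.1, h5.2.2.2, h5.2.1, h5.2.2.1⟩
    · exact h.arc q hq
  · rcases mem_insert.1 hq with rfl | hq <;> rcases mem_insert.1 hq' with rfl | hq'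
    · exact absurd rfl hne
    · exact ⟨(t1 q' hq').1.symm, (t1 q' hq').2.symm, (t2 q' hq').1.symm, (t2 q' hq').2.symm⟩
    · exact ⟨(t1 q hq).1, (t2 q hq).1, (t1 q hq).2, (t2 q hq).2⟩
    · exact h.dt q hq q' hq' hne
  · rcases mem_insert.1 hq with rfl | hq <;> rcases mem_insert.1 hq' with rfl | hq'
    · exact absurd rfl hne
    · exact ⟨(t3 q' hq').1.symm, (t3 q' hq').2.symm, (t4 q' hq').1.symm, (t4 q' hq').2.symm⟩
    · exact ⟨(t3 q hq).1, (t4 q hq).1, (t3 q hq).2, (t4 q hq).2⟩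
    · exact h.dh q hq q' hq' hne

/-- the labelling -/
private theorem sta_lab {A : Finset (Fin n)} {L : Fin n → ℕ} (h : TS S o J Q)
    (hT : ∀ x ∈ sta_tl Q, x ∈ Sg A L) : ∃ L' : Fin n → ℕ, Mg A L Q L' ∧ Sg A L' = Sg A L \ sta_tl Q := by
  classical
  let L' : Fin n → ℕ := fun x => if h : ∃ q ∈ Q, q.2.1 = x then L h.choose.1 else L x
  have l1 : ∀ q ∈ Q, L' q.2.1 = L q.1 := by
    intro q hq
    have hex : ∃ q' ∈ Q, q'.2.1 = q.2.1 := ⟨q, hq, rfl⟩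
    show (if h : ∃ q' ∈ Q, q'.2.1 = q.2.1 then L h.choose.1 else L q.2.1) = _
    rw [dif_pos hex]
    have h1 := hex.choose_spec
    by_cases h2 : hex.choose = q
    · rw [h2]
    · exact absurd h1.2 (h.dt _ h1.1 _ hq h2).2.2.2
  have l2 : ∀ x, (∀ q ∈ Q, q.2.1 ≠ x) → L' x = L x := by
    intro x hx
    show (if h : ∃ q' ∈ Q, q'.2.1 = x then L h.choose.1 else L x) = _
    rw [dif_neg]
    rintro ⟨q, hq, h1⟩
    exact hx q hq h1
  have l3 : ∀ q ∈ Q, L' q.1 = L q.1 := by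
    intro q hq
    refine l2 _ fun q' hq' h1 => ?_
    by_cases h2 : q' = q
    · subst h2
      exact (h.ne q' hq').1 h1.symm
    · exact (h.dt q' hq' q hq h2).2.2.1 h1
  have l4 : ∀ x, x ∉ sta_tl Q → L' x = L x := fun x hx => l2 x fun q hq h1 =>
    hx (sta_mtl.2 ⟨q, hq, Or.inr h1⟩)
  -- representatives
  have rep : ∀ x ∈ A, ∃ z ∈ A, L' x = L z ∧ (z = x ∨ ∃ q ∈ Q, q.2.1 = x ∧ q.1 = z) := by
    intro x hx
    by_cases h1 : ∃ q ∈ Q, q.2.1 = x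
    · obtain ⟨q, hq, rfl⟩ := h1
      exact ⟨q.1, (sta_mem.1 (hT _ (sta_mtl.2 ⟨q, hq, Or.inl rfl⟩))).1, l1 q hq,
        Or.inr ⟨q, hq, rfl, rfl⟩⟩
    · push Not at h1
      exact ⟨x, hx, l2 x h1, Or.inl rfl⟩
  have co : ∀ x ∈ A, ∀ x' ∈ A, L x = L x' → L' x = L' x' := by
    intro x hx x' hx' hL
    by_cases hxx : x = x'
    · rw [hxx]
    · have n1 : x ∉ sta_tl Q := fun h1 => hxx ((sta_mem.1 (hT _ h1)).2 x' hx' hL.symm).symm
      have n2 : x' ∉ sta_tl Q := fun h1 => hxx ((sta_mem.1 (hT _ h1)).2 x hx hL)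
      rw [l4 x n1, l4 x' n2, hL]
  refine ⟨L', ⟨co, fun w hw hq x hx x' hx' hL => ?_⟩, ?_⟩
  · obtain ⟨z, hz, h1, h2⟩ := rep x hx
    obtain ⟨z', hz', h1', h2'⟩ := rep x' hx'
    have h3 : w x ↔ w z := by
      rcases h2 with rfl | ⟨q, hq', rfl, rfl⟩
      · exact Iff.rfl
      · exact (hq q hq').symm
    have h4 : w x' ↔ w z' := by
      rcases h2' with rfl | ⟨q, hq', rfl, rfl⟩
      · exact Iff.rfl
      · exact (hq q hq').symm
    rw [h3, h4]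
    exact hw z hz z' hz' (by rw [← h1, ← h1', hL])
  · ext x
    rw [mem_sdiff, sta_mem, sta_mem]
    constructor
    · rintro ⟨hx, h1⟩
      refine ⟨⟨hx, fun x' hx' h2 => h1 x' hx' (co x' hx' x hx h2)⟩, fun h2 => ?_⟩
      obtain ⟨q, hq, h3 | h3⟩ := sta_mtl.1 h2
      · have h4 := h1 q.2.1 (sta_mem.1 (hT _ (sta_mtl.2 ⟨q, hq, Or.inr rfl⟩))).1 (by
          rw [l1 q hq, ← h3, l3 q hq])
        exact (h.ne q hq).1 (h3.trans h4.symm)
      · have h4 := h1 q.1 (sta_mem.1 (hT _ (sta_mtl.2 ⟨q, hq, Or.inl rfl⟩))).1 (by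
          rw [l3 q hq, ← h3, l1 q hq])
        exact (h.ne q hq).1 (h4.trans h3.symm)
    · rintro ⟨⟨hx, h1⟩, h2⟩
      refine ⟨hx, fun x' hx' h3 => ?_⟩
      obtain ⟨z', hz', h4, h5⟩ := rep x' hx'
      have h6 : z' = x := h1 z' hz' (by rw [← h4, h3, l4 x h2])
      rcases h5 with h5 | ⟨q, hq, h7, h8⟩
      · rw [← h5, h6]
      · exact absurd (sta_mtl.2 ⟨q, hq, Or.inl (h8.trans h6)⟩) h2

end

theorem tStA : S_StA := by
  intro n K M0 K0 m S o b J L hR hJ hm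
  have step : ∀ t ≤ m, (∃ Q, TS S o J Q ∧ Q.card ≤ m ∧ (∀ x ∈ sta_tl Q, x ∈ Sg (ClU o J) L) ∧
      (Sg (ClU o J) L \ sta_tl Q).card ≤ M0) ∨
      ∃ Q, TS S o J Q ∧ Q.card = t ∧ ∀ x ∈ sta_tl Q, x ∈ Sg (ClU o J) L := by
    intro t
    induction t with
    | zero =>
      intro _
      refine Or.inr ⟨∅, ⟨fun q hq => absurd hq (notMem_empty q), fun q hq => absurd hq (notMem_empty q),
        fun q hq => absurd hq (notMem_empty q), fun q hq => absurd hq (notMem_empty q),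
        fun q hq => absurd hq (notMem_empty q)⟩, rfl, fun x hx => ?_⟩
      obtain ⟨q, hq, -⟩ := sta_mtl.1 hx
      exact absurd hq (notMem_empty q)
    | succ t ih =>
      intro ht
      rcases ih (by omega) with h1 | ⟨Q, hQ, hc, hT⟩
      · exact Or.inl h1
      by_cases hM : (Sg (ClU o J) L \ sta_tl Q).card ≤ M0
      · exact Or.inl ⟨Q, hQ, by omega, hT, hM⟩
      right
      have hsub : ∀ x ∈ Sg (ClU o J) L \ sta_tl Q, o x ∈ J := by
        intro x hx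
        have h2 := (sta_mem.1 (mem_sdiff.1 hx).1).1
        simp only [ClU, mem_filter, mem_univ, true_and] at h2
        exact h2
      obtain ⟨x, hx, x', hx', hne, hoo, y, y', hyy, hyB, hyB', a1, a2, a3, a4⟩ :=
        hR (Sg (ClU o J) L \ sta_tl Q) (sta_hd Q) (le_trans (card_le_card (by
          intro c hc'
          rw [mem_image] at hc'
          obtain ⟨x, hx, rfl⟩ := hc'
          exact hsub x hx)) hJ) (by omega) (by
          have h2 : (sta_hd Q).card ≤ 2 * t := by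
            have := sta_chd (Q := Q)
            omega
          have h3 : ((sta_hd Q).card : ℝ) ≤ 2 * (m : ℝ) := by
            have h4 : (sta_hd Q).card ≤ 2 * m := by omega
            exact_mod_cast h4
          linarith)
      have e1 := (mem_sdiff.1 hx).2
      have e2 := (mem_sdiff.1 hx').2
      refine ⟨insert (x, x', y, y') Q, sta_ins hQ hoo (hsub x hx) hne hyy ⟨a1, a2, a3, a4⟩ e1 e2 hyB
        hyB', ?_, fun z hz => ?_⟩
      · rw [card_insert_of_notMem, hc]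
        intro h2
        exact e1 (sta_mtl.2 ⟨_, h2, Or.inl rfl⟩)
      · obtain ⟨q, hq, h2⟩ := sta_mtl.1 hz
        rcases mem_insert.1 hq with rfl | hq
        · rcases h2 with rfl | rfl
          · exact (mem_sdiff.1 hx).1
          · exact (mem_sdiff.1 hx').1
        · exact hT z (sta_mtl.2 ⟨q, hq, h2⟩)
  rcases step m le_rfl with ⟨Q, hQ, hc, hT, hM⟩ | ⟨Q, hQ, hc, hT⟩
  · obtain ⟨L', h1, h2⟩ := sta_lab hQ hT
    exact ⟨Q, L', hQ, hc, h1, Or.inl (by rw [h2]; exact hM)⟩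
  · obtain ⟨L', h1, h2⟩ := sta_lab hQ hT
    refine ⟨Q, L', hQ, hc.le, h1, Or.inr ?_⟩
    rw [h2, card_sdiff_of_subset hT, sta_ctl hQ, hc]
    have h3 := card_le_card hT
    rw [sta_ctl hQ, hc] at h3
    omega

end Pool.Agent.MPd266dbE
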