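import Pool.Agent.Lib.MP_d266db_co.E.SpecC

/-!
# MP_d266db_co, E/StB: merging large labels
-/

set_option autoImplicit false

namespace Pool.Agent.MPd266dbE

open Finset Pool.Agent.MPd266db Pool.Agent.MPd266dbH

private theorem stb_mem {n : ℕ} {A : Finset (Fin n)} {L : Fin n → ℕ} {x : Fin n} :
    x ∈ Sg A L ↔ x ∈ A ∧ ∀ x' ∈ A, L x' = L x → x' = x := by simp only [Sg, mem_filter]

private theorem stb_Bg {n : ℕ} {A : Finset (Fin n)} {L : Fin n → ℕ} {c : ℕ} :
    c ∈ Bg A L ↔ ∃ x ∈ A, x ∉ Sg A L ∧ L x = c := by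
  simp only [Bg, mem_image, mem_sdiff]
  constructor
  · rintro ⟨x, ⟨h1, h2⟩, h3⟩
    exact ⟨x, h1, h2, h3⟩
  · rintro ⟨x, h1, h2, h3⟩
    exact ⟨x, ⟨h1, h2⟩, h3⟩

section

variable {n K : ℕ} {S : Finset (Fin n × Fin n)} {o : Fin n → Fin K} {J : Finset (Fin K)}
  {Q : Finset (Fin n × Fin n × Fin n × Fin n)}

/-- `x` is a tail of a tile -/
private def stb_tl (Q : Finset (Fin n × Fin n × Fin n × Fin n)) (x : Fin n) : Prop :=
  ∃ q ∈ Q, q.1 = x ∨ q.2.1 = x

/-- the heads of tiles -/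
private def stb_hd (Q : Finset (Fin n × Fin n × Fin n × Fin n)) : Finset (Fin n) :=
  Q.image (fun q => q.2.2.1) ∪ Q.image (fun q => q.2.2.2)

private theorem stb_mhd {x : Fin n} : x ∈ stb_hd Q ↔ ∃ q ∈ Q, q.2.2.1 = x ∨ q.2.2.2 = x := by
  simp only [stb_hd, mem_union, mem_image]
  constructor
  · rintro (⟨q, hq, h⟩ | ⟨q, hq, h⟩)
    · exact ⟨q, hq, Or.inl h⟩
    · exact ⟨q, hq, Or.inr h⟩
  · rintro ⟨q, hq, h | h⟩
    · exact Or.inl ⟨q, hq, h⟩
    · exact Or.inr ⟨q, hq, h⟩

private theorem stb_chd : (stb_hd Q).card ≤ 2 * Q.card := by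
  unfold stb_hd
  refine (card_union_le _ _).trans ?_
  have h1 : (Q.image (fun q => q.2.2.1)).card ≤ Q.card := card_image_le
  have h2 : (Q.image (fun q => q.2.2.2)).card ≤ Q.card := card_image_le
  omega

/-- one more tile -/
private theorem stb_ins (h : TS S o J Q) {x x' y y' : Fin n} (h1 : o x = o x') (h2 : o x ∈ J)
    (h3 : x ≠ x') (h4 : y ≠ y')
    (h5 : (x, y) ∈ S ∧ (x, y') ∈ S ∧ (x', y) ∈ S ∧ (x', y') ∈ S) (h6 : ¬ stb_tl Q x)
    (h7 : ¬ stb_tl Q x') (h8 : y ∉ stb_hd Q) (h9 : y' ∉ stb_hd Q) :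
    TS S o J (insert (x, x', y, y') Q) := by
  have t1 : ∀ q ∈ Q, q.1 ≠ x ∧ q.2.1 ≠ x := fun q hq =>
    ⟨fun h => h6 ⟨q, hq, Or.inl h⟩, fun h => h6 ⟨q, hq, Or.inr h⟩⟩
  have t2 : ∀ q ∈ Q, q.1 ≠ x' ∧ q.2.1 ≠ x' := fun q hq =>
    ⟨fun h => h7 ⟨q, hq, Or.inl h⟩, fun h => h7 ⟨q, hq, Or.inr h⟩⟩
  have t3 : ∀ q ∈ Q, q.2.2.1 ≠ y ∧ q.2.2.2 ≠ y := fun q hq =>
    ⟨fun h => h8 (stb_mhd.2 ⟨q, hq, Or.inl h⟩), fun h => h8 (stb_mhd.2 ⟨q, hq, Or.inr h⟩)⟩
  have t4 : ∀ q ∈ Q, q.2.2.1 ≠ y' ∧ q.2.2.2 ≠ y' := fun q hq =>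
    ⟨fun h => h9 (stb_mhd.2 ⟨q, hq, Or.inl h⟩), fun h => h9 (stb_mhd.2 ⟨q, hq, Or.inr h⟩)⟩
  refine ⟨fun q hq => ?_, fun q hq => ?_, fun q hq => ?_, fun q hq q' hq' hne => ?_,
    fun q hq q' hq' hne => ?_⟩
  · rcases mem_insert.1 hq with rfl | hq
    · exact ⟨h1, h2⟩
    · exact h.cls q hq
  · rcases mem_insert.1 hq with rfl | hq
    · exact ⟨h3, h4⟩
    · exact h.ne q hq
  · rcases mem_insert.1 hq with rfl | hq
    · exact ⟨h5.1, h5.2.2.2, h5.2.1, h5.2.2.1⟩
    · exact h.arc q hq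
  · rcases mem_insert.1 hq with rfl | hq <;> rcases mem_insert.1 hq' with rfl | hq'
    · exact absurd rfl hne
    · exact ⟨(t1 q' hq').1.symm, (t1 q' hq').2.symm, (t2 q' hq').1.symm, (t2 q' hq').2.symm⟩
    · exact ⟨(t1 q hq).1, (t2 q hq).1, (t1 q hq).2, (t2 q hq).2⟩
    · exact h.dt q hq q' hq' hne
  · rcases mem_insert.1 hq with rfl | hq <;> rcases mem_insert.1 hq' with rfl | hq'
    · exact absurd rfl hne
    · exact ⟨(t3 q' hq').1.symm, (t3 q' hq').2.symm, (t4 q' hq').1.symm, (t4 q' hq').2.symm⟩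
    · exact ⟨(t3 q hq).1, (t4 q hq).1, (t3 q hq).2, (t4 q hq).2⟩
    · exact h.dh q hq q' hq' hne

end

theorem tStB : S_StB := by
  classical
  intro n K M0 K0 m S o b J L hR hJ hm
  have step : ∀ t ≤ m, ∃ (Q : Finset (Fin n × Fin n × Fin n × Fin n)) (L' : Fin n → ℕ),
      TS S o J Q ∧ Q.card ≤ t ∧ Mg (ClU o J) L Q L' ∧ Sg (ClU o J) L' = Sg (ClU o J) L ∧
      ((Bg (ClU o J) L').card ≤ M0 ∨ (Bg (ClU o J) L').card + t ≤ (Bg (ClU o J) L).card) ∧
      ∀ c ∈ Bg (ClU o J) L', ∃ x ∈ ClU o J, ∃ x' ∈ ClU o J, x ≠ x' ∧ L' x = c ∧ L' x' = c ∧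
        ¬ stb_tl Q x ∧ ¬ stb_tl Q x' := by
    intro t
    induction t with
    | zero =>
      intro _
      refine ⟨∅, L, ⟨fun q hq => absurd hq (notMem_empty q), fun q hq => absurd hq (notMem_empty q),
        fun q hq => absurd hq (notMem_empty q), fun q hq => absurd hq (notMem_empty q),
        fun q hq => absurd hq (notMem_empty q)⟩, le_rfl, ⟨fun x _ x' _ h => h,
        fun w hw _ x hx x' hx' h => hw x hx x' hx' h⟩, rfl, Or.inr le_rfl, fun c hc => ?_⟩
      obtain ⟨x, hx, h1, h2⟩ := stb_Bg.1 hc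
      have h3 : ∃ x' ∈ ClU o J, L x' = L x ∧ x' ≠ x := by
        by_contra h4
        push Not at h4
        exact h1 (stb_mem.2 ⟨hx, h4⟩)
      obtain ⟨x', hx', h4, h5⟩ := h3
      refine ⟨x, hx, x', hx', h5.symm, h2, h4.trans h2, ?_, ?_⟩
      · rintro ⟨q, hq, -⟩
        exact absurd hq (notMem_empty q)
      · rintro ⟨q, hq, -⟩
        exact absurd hq (notMem_empty q)
    | succ t ih =>
      intro ht
      obtain ⟨Q, L', hQ, hc, hMg, hSg, hBg, htw⟩ := ih (by omega)
      by_cases hM : (Bg (ClU o J) L').card ≤ M0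
      · exact ⟨Q, L', hQ, by omega, hMg, hSg, Or.inl hM, htw⟩
      have htw' : ∀ c, ∃ x x', c ∈ Bg (ClU o J) L' → (x ∈ ClU o J ∧ x' ∈ ClU o J ∧ x ≠ x' ∧ L' x = c ∧
          L' x' = c ∧ ¬ stb_tl Q x ∧ ¬ stb_tl Q x') := by
        intro c
        by_cases h1 : c ∈ Bg (ClU o J) L'
        · obtain ⟨x, hx, x', hx', h2⟩ := htw c h1
          exact ⟨x, x', fun _ => ⟨hx, hx', h2⟩⟩
        · have hne : (Bg (ClU o J) L').Nonempty := by
            rw [← card_pos]
            omega
          obtain ⟨c', hc'⟩ := hne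
          obtain ⟨x, -, -⟩ := htw c' hc'
          exact ⟨x, x, fun h2 => absurd h2 h1⟩
      choose u v huv using htw'
      have hT : ((Bg (ClU o J) L').image u).card = (Bg (ClU o J) L').card := by
        apply card_image_of_injOn
        intro c hc' d hd hcd
        have h1 := (huv c (mem_coe.1 hc')).2.2.2.1
        have h2 := (huv d (mem_coe.1 hd)).2.2.2.1
        rw [← h1, ← h2]
        exact congrArg L' hcd
      obtain ⟨x, hx, x', hx', hne, hoo, y, y', hyy, hyB, hyB', a1, a2, a3, a4⟩ :=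
        hR ((Bg (ClU o J) L').image u) (stb_hd Q) (le_trans (card_le_card (by
          intro c hc'
          rw [mem_image] at hc'
          obtain ⟨x, hx, rfl⟩ := hc'
          rw [mem_image] at hx
          obtain ⟨d, hd, rfl⟩ := hx
          have h2 := (huv d hd).1
          simp only [ClU, mem_filter, mem_univ, true_and] at h2
          exact h2)) hJ) (by omega) (by
          have h3 : ((stb_hd Q).card : ℝ) ≤ 2 * (m : ℝ) := by
            have h4 : (stb_hd Q).card ≤ 2 * m := by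
              have := stb_chd (Q := Q)
              omega
            exact_mod_cast h4
          linarith)
      rw [mem_image] at hx hx'
      obtain ⟨c, hcB, rfl⟩ := hx
      obtain ⟨c', hcB', rfl⟩ := hx'
      have hcc : c ≠ c' := fun h => hne (by rw [h])
      obtain ⟨p1, p2, p3, p4, p5, p6, p7⟩ := huv c hcB
      obtain ⟨r1, r2, r3, r4, r5, r6, r7⟩ := huv c' hcB'
      have hJc : o (u c) ∈ J := by
        simp only [ClU, mem_filter, mem_univ, true_and] at p1
        exact p1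
      let L'' : Fin n → ℕ := fun x => if L' x = c' then c else L' x
      have l1 : ∀ x, L' x = c' → L'' x = c := fun x hx => if_pos hx
      have l2 : ∀ x, L' x ≠ c' → L'' x = L' x := fun x hx => if_neg hx
      have hSg' : Sg (ClU o J) L'' = Sg (ClU o J) L' := by
        ext x
        rw [stb_mem, stb_mem]
        constructor
        · rintro ⟨hx, h1⟩
          refine ⟨hx, fun x' hx' h2 => h1 x' hx' ?_⟩
          show (if L' x' = c' then c else L' x') = (if L' x = c' then c else L' x)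
          rw [h2]
        · rintro ⟨hx, h1⟩
          have n1 : L' x ≠ c := by
            intro h2
            exact p3 ((h1 _ p1 (p4.trans h2.symm)).trans (h1 _ p2 (p5.trans h2.symm)).symm)
          have n2 : L' x ≠ c' := by
            intro h2
            exact r3 ((h1 _ r1 (r4.trans h2.symm)).trans (h1 _ r2 (r5.trans h2.symm)).symm)
          refine ⟨hx, fun x' hx' h2 => ?_⟩
          rw [l2 x n2] at h2
          by_cases h3 : L' x' = c'
          · rw [l1 x' h3] at h2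
            exact absurd h2.symm n1
          · rw [l2 x' h3] at h2
            exact h1 x' hx' h2
      have hBsub : Bg (ClU o J) L'' ⊆ (Bg (ClU o J) L').erase c' := by
        intro d hd
        obtain ⟨x, hx, h1, h2⟩ := stb_Bg.1 hd
        rw [hSg'] at h1
        by_cases h3 : L' x = c'
        · rw [l1 x h3] at h2
          subst h2
          exact mem_erase.2 ⟨hcc, hcB⟩
        · rw [l2 x h3] at h2
          subst h2
          exact mem_erase.2 ⟨h3, stb_Bg.2 ⟨x, hx, h1, rfl⟩⟩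
      have hBc : (Bg (ClU o J) L'').card + 1 ≤ (Bg (ClU o J) L').card := by
        have h1 := card_le_card hBsub
        rw [card_erase_of_mem hcB'] at h1
        have h2 : 0 < (Bg (ClU o J) L').card := card_pos.2 ⟨c', hcB'⟩
        omega
      refine ⟨insert (u c, u c', y, y') Q, L'', stb_ins hQ hoo hJc hne hyy ⟨a1, a2, a3, a4⟩ p6 r6 hyB
        hyB', ?_, ⟨fun x hx x' hx' h => ?_, fun w hw hq x hx x' hx' h => ?_⟩, hSg'.trans hSg, ?_,
        fun d hd => ?_⟩
      · exact (card_insert_le _ _).trans (by omega)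
      · show (if L' x = c' then c else L' x) = (if L' x' = c' then c else L' x')
        rw [hMg.co x hx x' hx' h]
      · have hw' := hMg.gen w hw fun q hq' => hq q (mem_insert_of_mem hq')
        have hcc' : w (u c) ↔ w (u c') := hq _ (mem_insert_self _ _)
        by_cases h1 : L' x = c' <;> by_cases h2 : L' x' = c'
        · exact hw' x hx x' hx' (h1.trans h2.symm)
        · rw [l1 x h1, l2 x' h2] at h
          rw [hw' x hx _ r1 (h1.trans r4.symm), ← hcc', hw' _ p1 x' hx' (p4.trans h)]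
        · rw [l2 x h1, l1 x' h2] at h
          rw [hw' x hx _ p1 (h.trans p4.symm), hcc', hw' _ r1 x' hx' (r4.trans h2.symm)]
        · rw [l2 x h1, l2 x' h2] at h
          exact hw' x hx x' hx' h
      · rcases hBg with h1 | h1
        · exact absurd h1 hM
        · right
          omega
      · have hd' := mem_erase.1 (hBsub hd)
        have ntl : ∀ z, ¬ stb_tl Q z → z ≠ u c → z ≠ u c' →
            ¬ stb_tl (insert (u c, u c', y, y') Q) z := by
          rintro z h1 h2 h3 ⟨q, hq, h4⟩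
          rcases mem_insert.1 hq with rfl | hq
          · rcases h4 with h4 | h4
            · exact h2 h4.symm
            · exact h3 h4.symm
          · exact h1 ⟨q, hq, h4⟩
        by_cases hdc : d = c
        · subst hdc
          refine ⟨v d, p2, v c', r2, fun h => hcc (p5.symm.trans ((congrArg L' h).trans r5)),
            (l2 _ (by rw [p5]; exact hcc)).trans p5, l1 _ r5, ntl _ p7 (Ne.symm p3) ?_,
            ntl _ r7 ?_ (Ne.symm r3)⟩
          · exact fun h => hcc (p5.symm.trans ((congrArg L' h).trans r4))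
          · exact fun h => hcc (p4.symm.trans ((congrArg L' h).symm.trans r5))
        · obtain ⟨s1, s2, s3, s4, s5, s6, s7⟩ := huv d hd'.2
          refine ⟨u d, s1, v d, s2, s3, (l2 _ (by rw [s4]; exact hd'.1)).trans s4,
            (l2 _ (by rw [s5]; exact hd'.1)).trans s5, ntl _ s6 ?_ ?_, ntl _ s7 ?_ ?_⟩
          · exact fun h => hdc (s4.symm.trans ((congrArg L' h).trans p4))
          · exact fun h => hd'.1 (s4.symm.trans ((congrArg L' h).trans r4))
          · exact fun h => hdc (s5.symm.trans ((congrArg L' h).trans p4))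
          · exact fun h => hd'.1 (s5.symm.trans ((congrArg L' h).trans r4))
  obtain ⟨Q, L', hQ, hc, hMg, hSg, hBg, -⟩ := step m le_rfl
  exact ⟨Q, L', hQ, hc, hMg, hSg, hBg⟩

end Pool.Agent.MPd266dbE
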