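import Pool.Agent.Lib.MP_d266db_co.E.SpecC

/-!
# MP_d266db_co, E, StC: merging two labels of one class
-/

set_option autoImplicit false

namespace Pool.Agent.MPd266dbE

open Finset Pool.Agent.MPd266db Pool.Agent.MPd266dbH

theorem stc_mem_cl {n K : ℕ} {o : Fin n → Fin K} {a : Fin K} {v : Fin n} :
    v ∈ Cl o a ↔ o v = a := by simp [Cl]

theorem stc_mem_clu {n K : ℕ} {o : Fin n → Fin K} {J : Finset (Fin K)} {v : Fin n} :
    v ∈ ClU o J ↔ o v ∈ J := by simp [ClU]

theorem tStC : S_StC := by
  classical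
  intro n K S o J L a x₀ x₁ hT haJ h0 h1 hL
  have hx0 : x₀ ∈ (Cl o a).filter (fun x => L x = L x₀) :=
    mem_filter.2 ⟨stc_mem_cl.2 h0, rfl⟩
  have hx1 : x₁ ∈ (Cl o a).filter (fun x => ¬ L x = L x₀) :=
    mem_filter.2 ⟨stc_mem_cl.2 h1, fun h => hL h.symm⟩
  obtain ⟨x, hx, x', hx', y, y', hyy, e1, e2, e3, e4⟩ :=
    hT a ((Cl o a).filter (fun x => L x = L x₀)) ((Cl o a).filter (fun x => ¬ L x = L x₀))
      (filter_union_filter_not_eq _ _) (disjoint_filter_filter_not _ _ _) ⟨x₀, hx0⟩ ⟨x₁, hx1⟩
  rw [mem_filter] at hx hx'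
  have hox : o x = a := stc_mem_cl.1 hx.1
  have hox' : o x' = a := stc_mem_cl.1 hx'.1
  have hLx : L x ≠ L x' := fun h => hx'.2 (h ▸ hx.2)
  have hne : x ≠ x' := fun h => hLx (by rw [h])
  have hxA : x ∈ ClU o J := stc_mem_clu.2 (hox ▸ haJ)
  have hxA' : x' ∈ ClU o J := stc_mem_clu.2 (hox' ▸ haJ)
  refine ⟨{(x, x', y, y')}, fun z => if L z = L x' then L x else L z, ?_, ?_, ?_, ?_⟩
  · refine ⟨?_, ?_, ?_, ?_, ?_⟩
    · intro q hq
      rw [mem_singleton] at hq
      subst hq
      exact ⟨hox.trans hox'.symm, by rw [hox]; exact haJ⟩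
    · intro q hq
      rw [mem_singleton] at hq
      subst hq
      exact ⟨hne, hyy⟩
    · intro q hq
      rw [mem_singleton] at hq
      subst hq
      exact ⟨e1, e4, e2, e3⟩
    · intro q hq q' hq' hqq
      rw [mem_singleton] at hq hq'
      exact absurd (hq.trans hq'.symm) hqq
    · intro q hq q' hq' hqq
      rw [mem_singleton] at hq hq'
      exact absurd (hq.trans hq'.symm) hqq
  · exact (card_singleton _).le
  · constructor
    · intro z _ z' _ h
      simp only [h]
    · intro w hw hq z hz z' hz' h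
      have hwx : w x ↔ w x' := hq (x, x', y, y') (mem_singleton_self _)
      have key : ∀ z ∈ ClU o J, L z = L x' → (w z ↔ w x) := fun z hz h =>
        (hw z hz x' hxA' h).trans hwx.symm
      by_cases c1 : L z = L x'
      · by_cases c2 : L z' = L x'
        · exact hw z hz z' hz' (c1.trans c2.symm)
        · simp only [c1, if_true, c2, if_false] at h
          exact (key z hz c1).trans (hw x hxA z' hz' h)
      · by_cases c2 : L z' = L x'
        · simp only [c1, if_false, c2, if_true] at h
          exact (hw z hz x hxA h).trans (key z' hz' c2).symm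
        · simp only [c1, if_false, c2, if_false] at h
          exact hw z hz z' hz' h
  · have hsub : (ClU o J).image (fun z => if L z = L x' then L x else L z) ⊆
        ((ClU o J).image L).erase (L x') := by
      intro c hc
      rw [mem_image] at hc
      obtain ⟨z, hz, rfl⟩ := hc
      rw [mem_erase]
      by_cases c1 : L z = L x'
      · simp only [c1, if_true]
        exact ⟨hLx, mem_image_of_mem _ hxA⟩
      · simp only [c1, if_false]
        exact ⟨c1, mem_image_of_mem _ hz⟩
    have h2 : L x' ∈ (ClU o J).image L := mem_image_of_mem _ hxA'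
    have h3 := card_le_card hsub
    rw [card_erase_of_mem h2] at h3
    have h4 : 0 < ((ClU o J).image L).card := card_pos.2 ⟨_, h2⟩
    omega

end Pool.Agent.MPd266dbE
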