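import Pool.Agent.Lib.MP_d266db_co.E.SpecI

/-!
# MP_d266db_co, E: proof of `S_Str` (at most two classes)
-/

set_option autoImplicit false

namespace Pool.Agent.MPd266dbE

open Finset Pool.Agent.MPd266db Pool.Agent.MPd266dbH

private theorem str_memCl {n K : ℕ} {o : Fin n → Fin K} {a : Fin K} {v : Fin n} :
    v ∈ Cl o a ↔ o v = a := by simp [Cl]

/-- sizes of the classes -/
private theorem str_size {n r K : ℕ} {R : Finset (Fin n × Fin n)} {o i : Fin n → Fin K} {γ β ν : ℝ}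
    (hn : 1 ≤ n) (hR : Reg R r) (hγ : γ ≤ 1 / 10 ^ 7) (h : StC R r o i γ β ν) (a : Fin K) :
    (r : ℝ) - n / 100000 ≤ (Cl o a).card ∧ (r : ℝ) - n / 100000 ≤ (Cl i a).card := by
  classical
  have hn0 : (0 : ℝ) < n := by exact_mod_cast hn
  have hc : ((crs o i R).card : ℝ) ≤ 1 / 10 ^ 7 * (n : ℝ) ^ 2 :=
    h.few.trans (mul_le_mul_of_nonneg_right hγ (by positivity))
  have h1 : eb R (Cl o a)ᶜ (Cl i a) ≤ (crs o i R).card := by
    unfold eb crs
    apply card_le_card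
    intro e he
    simp only [mem_filter, mem_compl, str_memCl] at he ⊢
    exact ⟨he.1, fun h2 => he.2.1 (h2.trans he.2.2)⟩
  have h2 : eb R (Cl o a) (Cl i a)ᶜ ≤ (crs o i R).card := by
    unfold eb crs
    apply card_le_card
    intro e he
    simp only [mem_filter, mem_compl, str_memCl] at he ⊢
    exact ⟨he.1, fun h2 => he.2.2 (h2.symm.trans he.2.1)⟩
  have h3 := hR.in (Cl o a) (Cl i a)
  have h4 := hR.out (Cl o a) (Cl i a)
  have h5 := eb_le_card_mul R (Cl o a) (Cl i a)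
  have h6 : (r : ℝ) * (Cl i a).card ≤ (Cl o a).card * (Cl i a).card + (crs o i R).card := by
    have : r * (Cl i a).card ≤ (Cl o a).card * (Cl i a).card + (crs o i R).card := by omega
    exact_mod_cast this
  have h7 : (r : ℝ) * (Cl o a).card ≤ (Cl o a).card * (Cl i a).card + (crs o i R).card := by
    have : r * (Cl o a).card ≤ (Cl o a).card * (Cl i a).card + (crs o i R).card := by omega
    exact_mod_cast this
  obtain ⟨h8, h9⟩ := h.sz a
  have hO : (0 : ℝ) < (Cl o a).card := by linarith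
  have hI : (0 : ℝ) < (Cl i a).card := by linarith
  constructor
  · by_contra hcon
    rw [not_le] at hcon
    have h10 : (Cl o a).card * ((Cl i a).card : ℝ) < ((r : ℝ) - n / 100000) * (Cl i a).card :=
      mul_lt_mul_of_pos_right hcon hI
    have h11 : (n : ℝ) / 100000 * (1 / 16 * n) ≤ (n : ℝ) / 100000 * (Cl i a).card :=
      mul_le_mul_of_nonneg_left (by linarith) (by positivity)
    nlinarith
  · by_contra hcon
    rw [not_le] at hcon
    have h10 : (Cl i a).card * ((Cl o a).card : ℝ) < ((r : ℝ) - n / 100000) * (Cl o a).card :=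
      mul_lt_mul_of_pos_right hcon hO
    have h11 : (n : ℝ) / 100000 * (1 / 16 * n) ≤ (n : ℝ) / 100000 * (Cl o a).card :=
      mul_le_mul_of_nonneg_left (by linarith) (by positivity)
    nlinarith

private theorem str_ind (hSt1 : S_St1) (hSt2 : S_St2) (β : ℝ) (f : ℝ → ℝ) (hβ : 0 < β)
    (hf : ∀ x, 0 < x → 0 < f x) (hf7 : ∀ x, f x ≤ 1 / 10 ^ 7) (m : ℕ) :
    ∀ η : ℝ, 0 < η → η ≤ 1 / 4 → ∀ V : Finset ℝ, (∀ x ∈ V, 0 < x) →
      ∃ V' : Finset ℝ, (∀ x ∈ V', 0 < x) ∧ ∃ n0 : ℕ, ∀ n, n0 ≤ n →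
        ∀ (E : Finset (Fin n × Fin n)) (r : ℕ), Ori E → Semi E → 3 * n < 16 * (r + 1) →
        ∀ R ⊆ E, Reg R r → (∀ W : Finset (Fin n), η * W.card * Wᶜ.card ≤ eb R W Wᶜ) →
        ∀ K : ℕ, K ≤ m → 1 ≤ K → K ≤ 16 → ∀ o i : Fin n → Fin K, ∀ ν ∈ V,
          StC R r o i (f ν) (min β (1 / 1000)) ν →
          ∃ R' ⊆ E, Reg R' r ∧ (∀ W : Finset (Fin n), η / 4 ^ m * W.card * Wᶜ.card ≤ eb R' W Wᶜ) ∧
            ∃ K' : ℕ, 1 ≤ K' ∧ K' ≤ 2 ∧ ∃ (o' i' : Fin n → Fin K'), ∃ ν' ∈ V',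
              StC R' r o' i' (f ν') (min β (1 / 1000)) ν' ∧
              ∃ a, n ≤ 100000 * (Cl o' a ∩ Cl i' a).card := by
  induction m with
  | zero =>
    intro η _ _ V _
    refine ⟨∅, fun x hx => absurd hx (notMem_empty _), 0, ?_⟩
    intro n _ E r _ _ _ R _ _ _ K hK hK1
    omega
  | succ m ih =>
    classical
    intro η hη hη4 V hV
    obtain ⟨V1, hV1, n1, hn1⟩ := hSt2 β η f hβ hη hη4 hf V hV
    obtain ⟨V2, hV2, n2, hn2⟩ := ih (η / 4) (by positivity) (by linarith) V1 hV1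
    refine ⟨V ∪ V2, ?_, n1 + n2 + 1000000, ?_⟩
    · intro x hx
      rcases mem_union.1 hx with h | h
      · exact hV x h
      · exact hV2 x h
    intro n hn E r hO hS hr R hRE hR hcut K hKm hK1 hK16 o i ν hν hst
    by_cases hc : K ≤ 2 ∧ ∃ a, n ≤ 100000 * (Cl o a ∩ Cl i a).card
    · refine ⟨R, hRE, hR, ?_, K, hK1, hc.1, o, i, ν, mem_union_left _ hν, hst, hc.2⟩
      intro W
      refine le_trans ?_ (hcut W)
      have h1 : η / 4 ^ (m + 1) ≤ η := by
        apply div_le_self hη.le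
        exact one_le_pow₀ (by norm_num)
      have h2 : (0 : ℝ) ≤ (W.card : ℝ) := Nat.cast_nonneg _
      have h3 : (0 : ℝ) ≤ (Wᶜ.card : ℝ) := Nat.cast_nonneg _
      exact mul_le_mul_of_nonneg_right (mul_le_mul_of_nonneg_right h1 h2) h3
    · obtain ⟨R', hR'E, hR', hR'c⟩ := hSt1 n r K E R o i (by omega) hO hS hr hRE hR hK1
        (fun a => str_size (by omega) hR (hf7 ν) hst a) hc
      obtain ⟨R'', hR''E, hR'', hcut'', K', hK'K, hK'1, o', i', ν', hν', hst'⟩ :=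
        hn1 n (by omega) E R R' r K o i ν hO hr hRE hR'E hR hR' hcut hK16 hK1 hν hst hR'c
      obtain ⟨R3, hR3E, hR3, hcut3, K3, hK31, hK32, o3, i3, ν3, hν3, hst3, ha⟩ :=
        hn2 n (by omega) E r hO hS hr R'' hR''E hR'' hcut'' K' (by omega) hK'1 (by omega) o' i' ν' hν'
          hst'
      refine ⟨R3, hR3E, hR3, ?_, K3, hK31, hK32, o3, i3, ν3, mem_union_right _ hν3, hst3, ha⟩
      intro W
      have h1 := hcut3 W
      have h2 : η / 4 ^ (m + 1) = η / 4 / 4 ^ m := by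
        rw [pow_succ, div_div, mul_comm]
      rw [h2]
      exact h1

theorem tStr (hCutD : S_CutD) (hCls : S_Cls) (hSt1 : S_St1) (hSt2 : S_St2) : S_Str := by
  classical
  obtain ⟨η1, hη1, N1, hN1⟩ := hCutD
  set η : ℝ := min η1 (1 / 4) with hη
  have hη0 : 0 < η := lt_min hη1 (by norm_num)
  have hη4 : η ≤ 1 / 4 := min_le_right _ _
  refine ⟨η / 4 ^ 16, by positivity, ?_⟩
  intro β f hβ hf
  set f' : ℝ → ℝ := fun x => min (f x) (1 / 10 ^ 7) with hf'
  have hf'0 : ∀ x, 0 < x → 0 < f' x := fun x hx => lt_min (hf x hx) (by norm_num)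
  have hβ' : 0 < min β (1 / 1000) := lt_min hβ (by norm_num)
  obtain ⟨νs, hνs, hcls⟩ := hCls (1 / 8) (min β (1 / 1000)) (by norm_num) (by norm_num) hβ' f' hf'0
  obtain ⟨V, hV, n0, hn0⟩ := str_ind hSt1 hSt2 β f' hβ hf'0 (fun x => min_le_right _ _) 16 η hη0 hη4
    ((range 17).image νs) (by
      intro x hx
      rw [mem_image] at hx
      obtain ⟨K, -, rfl⟩ := hx
      exact hνs K)
  refine ⟨V, hV, n0 + N1 + 100, ?_⟩
  intro n hn E hO hS r hr hex
  obtain ⟨R, hRE, hR, hcut⟩ := hN1 n (by omega) E hO hS r hr hex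
  have hnR : (100 : ℝ) ≤ n := by exact_mod_cast (by omega : 100 ≤ n)
  have hrR : 3 * (n : ℝ) < 16 * (r + 1) := by exact_mod_cast hr
  have hαr : (1 / 8 : ℝ) * n ≤ r := by linarith
  obtain ⟨K, hK1, hK2, o, i, hfew, hrob, hodo, hido, hsz⟩ := hcls n r R (by linarith) hR hαr
  have hK16 : K ≤ 16 := by
    have : (K : ℝ) ≤ 16 := by linarith
    exact_mod_cast this
  obtain ⟨R', hR'E, hR', hcut', K', hK'1, hK'2, o', i', ν', hν', hst, ha⟩ :=
    hn0 n (by omega) E r hO hS hr R hRE hR (by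
      intro W
      refine le_trans ?_ (hcut W)
      have h2 : (0 : ℝ) ≤ (W.card : ℝ) := Nat.cast_nonneg _
      have h3 : (0 : ℝ) ≤ (Wᶜ.card : ℝ) := Nat.cast_nonneg _
      exact mul_le_mul_of_nonneg_right (mul_le_mul_of_nonneg_right (min_le_left _ _) h2) h3)
      K hK16 hK1 hK16 o i (νs K) (mem_image.2 ⟨K, mem_range.2 (by omega), rfl⟩)
      ⟨hfew, hrob, hodo, hido, hsz⟩
  refine ⟨R', hR'E, hR', hcut', K', hK'1, hK'2, o', i', ν', hν', ⟨?_, ?_, hst.odo, hst.ido, hst.sz⟩, ha⟩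
  · exact hst.few.trans (mul_le_mul_of_nonneg_right (min_le_left _ _) (by positivity))
  · intro a X Y hX hY h1 h2
    have h3 : min β (1 / 1000) * (n : ℝ) ≤ β * n :=
      mul_le_mul_of_nonneg_right (min_le_left _ _) (Nat.cast_nonneg _)
    exact hst.rob a X Y hX hY (h3.trans h1) (h3.trans h2)

end Pool.Agent.MPd266dbE
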