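import Pool.Agent.Lib.MP_d266db_co.E.SpecF

/-!
# MP_d266db_co, E: sizes of the boxes
-/

set_option autoImplicit false

namespace Pool.Agent.MPd266dbE

open Finset Pool.Agent.MPd266db Pool.Agent.MPd266dbH

private theorem szb_fib {n : ℕ} (A : Finset (Fin n)) (g : Fin n → ℕ) (e : ℕ) (h : ∀ v, g v ≤ e) :
    A.card = ∑ l ∈ range (e + 1), (A.filter (fun v => g v = l)).card :=
  card_eq_sum_card_fiberwise fun v _ => by
    rw [mem_coe, mem_range]
    exact Nat.lt_succ_of_le (h v)

private theorem szb_ofNat {e x : ℕ} (hx : x ≤ e) (l : Fin (e + 1)) :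
    Fin.ofNat (e + 1) x = l ↔ x = (l : ℕ) := by
  rw [Fin.ext_iff, Fin.val_ofNat, Nat.mod_eq_of_lt (Nat.lt_succ_of_le hx)]

private theorem szb_cls {n K p : ℕ} {o i : Fin n → Fin K} {c0 d0 : Fin K} (hC : CD o i c0 d0 p)
    (a : Fin K) : (Cl o a).card + (if a = d0 then p else 0) =
      (Cl i a).card + (if a = c0 then p else 0) := by
  have h2 := hC.sc
  have h3 := hC.sd
  by_cases h : c0 = d0
  · subst h
    have hp : p = 0 := by omega
    subst hp
    have ha : a = c0 := by
      by_contra hne
      rcases hC.two a c0 hne with h | h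
      · exact hne h.1
      · exact hne h.1
    subst ha
    simp only [if_true]
    omega
  · by_cases ha : a = c0
    · subst ha
      rw [if_pos rfl, if_neg h]
      omega
    · have hd : a = d0 := by
        rcases hC.two a c0 ha with h' | h'
        · exact absurd h'.1 ha
        · exact h'.1
      subst hd
      rw [if_pos rfl, if_neg ha]
      omega

theorem tSzB : S_SzB := by
  intro n K e p o i c0 d0 lv hC hL he A
  obtain ⟨⟨l, a⟩, rfl⟩ := finProdFinEquiv.surjective A
  have hg : ∀ v, hgp e lv v ≤ e := fun v => hgp_le (hL.le v)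
  have ho : Cl (bxo e lv o) (finProdFinEquiv (l, a)) =
      (Cl o a).filter (fun v => tgp e lv v = (l : ℕ)) := by
    ext v
    simp only [Cl, mem_filter, mem_univ, true_and, bxo, EmbeddingLike.apply_eq_iff_eq,
      Prod.mk.injEq, szb_ofNat (tgp_le e lv v)]
    tauto
  have hi : Cl (bxi e lv i) (finProdFinEquiv (l, a)) =
      (Cl i a).filter (fun v => hgp e lv v = (l : ℕ)) := by
    ext v
    simp only [Cl, mem_filter, mem_univ, true_and, bxi, EmbeddingLike.apply_eq_iff_eq,
      Prod.mk.injEq, szb_ofNat (hg v)]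
    tauto
  have hlt : ∀ l < e, ((Cl o a).filter (fun v => tgp e lv v = l)).card =
      ((Cl i a).filter (fun v => hgp e lv v = l)).card := by
    intro l hl
    have e1 : (Cl o a).filter (fun v => tgp e lv v = l) =
        univ.filter (fun v => lv v = l ∧ o v = a) := by
      ext v
      simp only [Cl, mem_filter, mem_univ, true_and, tgp]
      constructor
      · rintro ⟨h1, h2⟩
        exact ⟨by omega, h1⟩
      · rintro ⟨h1, h2⟩
        exact ⟨h2, by omega⟩
    have e2 : (Cl i a).filter (fun v => hgp e lv v = l) =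
        univ.filter (fun v => lv v = l + 1 ∧ i v = a) := by
      ext v
      simp only [Cl, mem_filter, mem_univ, true_and, hgp]
      constructor
      · rintro ⟨h1, h2⟩
        refine ⟨?_, h1⟩
        split_ifs at h2 <;> omega
      · rintro ⟨h1, h2⟩
        refine ⟨h2, ?_⟩
        rw [if_neg (by omega)]
        omega
    rw [e1, e2]
    exact hL.bal l hl.le (l + 1) hl a
  have hbx : ∀ b : Fin K, (finProdFinEquiv (l, a) = bxe e b ↔ ((l : ℕ) = e ∧ a = b)) := by
    intro b
    rw [bxe, EmbeddingLike.apply_eq_iff_eq, Prod.mk.injEq, Fin.ext_iff, Fin.val_last]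
  rw [ho, hi]
  simp only [hbx]
  rcases lt_or_eq_of_le (Nat.lt_succ_iff.1 l.2) with h | h
  · rw [if_neg (fun h' => h.ne h'.1), if_neg (fun h' => h.ne h'.1), hlt _ h]
  · simp only [h, true_and]
    have h1 := szb_fib (Cl o a) (tgp e lv) e (tgp_le e lv)
    have h2 := szb_fib (Cl i a) (hgp e lv) e hg
    rw [sum_range_succ] at h1 h2
    have h3 := sum_congr rfl fun l (hl : l ∈ range e) => hlt l (mem_range.1 hl)
    have h4 := szb_cls hC a
    omega

end Pool.Agent.MPd266dbE
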