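import Pool.Agent.Lib.MP_d266db_co.E.SpecD

/-!
# MP_d266db_co, E: colouring the tiles of an object
-/

set_option autoImplicit false

namespace Pool.Agent.MPd266dbE

open Finset Pool.Agent.MPd266db Pool.Agent.MPd266dbH

/-- the conflict relation -/
private def tcl_Cf {n : ℕ} (σ : Equiv.Perm (Fin n)) (t t' : Fin n × Fin n) : Prop :=
  (t.1 = σ t'.1 ∨ t.1 = σ t'.2 ∨ t.2 = σ t'.1 ∨ t.2 = σ t'.2) ∨
    (t'.1 = σ t.1 ∨ t'.1 = σ t.2 ∨ t'.2 = σ t.1 ∨ t'.2 = σ t.2)

private lemma tcl_deg {n : ℕ} (T : Finset (Fin n × Fin n)) (σ : Equiv.Perm (Fin n))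
    (hT : ∀ t ∈ T, ∀ t' ∈ T, t ≠ t' → t.1 ≠ t'.1 ∧ t.1 ≠ t'.2 ∧ t.2 ≠ t'.1 ∧ t.2 ≠ t'.2)
    [DecidableRel (tcl_Cf σ)] (t : Fin n × Fin n) :
    (T.filter (fun t' => tcl_Cf σ t t')).card ≤ 4 := by
  classical
  set S : Finset (Fin n) := {σ.symm t.1, σ.symm t.2, σ t.1, σ t.2} with hS
  have hS4 : S.card ≤ 4 := Finset.card_le_four
  have h1 : T.filter (fun t' => tcl_Cf σ t t') ⊆
      S.biUnion (fun p => T.filter (fun t' => t'.1 = p ∨ t'.2 = p)) := by
    intro t' ht'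
    obtain ⟨h2, h3⟩ := mem_filter.1 ht'
    rw [mem_biUnion]
    simp only [hS, mem_insert, mem_singleton, mem_filter]
    rcases h3 with (h | h | h | h) | (h | h | h | h)
    · exact ⟨σ.symm t.1, by simp, h2, Or.inl (by rw [h, Equiv.symm_apply_apply])⟩
    · exact ⟨σ.symm t.1, by simp, h2, Or.inr (by rw [h, Equiv.symm_apply_apply])⟩
    · exact ⟨σ.symm t.2, by simp, h2, Or.inl (by rw [h, Equiv.symm_apply_apply])⟩
    · exact ⟨σ.symm t.2, by simp, h2, Or.inr (by rw [h, Equiv.symm_apply_apply])⟩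
    · exact ⟨σ t.1, by simp, h2, Or.inl h⟩
    · exact ⟨σ t.2, by simp, h2, Or.inl h⟩
    · exact ⟨σ t.1, by simp, h2, Or.inr h⟩
    · exact ⟨σ t.2, by simp, h2, Or.inr h⟩
  have h4 : (S.biUnion (fun p => T.filter (fun t' => t'.1 = p ∨ t'.2 = p))).card ≤
      S.card * 1 := by
    refine Finset.card_biUnion_le_card_mul _ _ _ fun p _ => ?_
    rw [Finset.card_le_one]
    intro a ha b hb
    by_contra hab
    obtain ⟨ha1, ha2⟩ := mem_filter.1 ha
    obtain ⟨hb1, hb2⟩ := mem_filter.1 hb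
    obtain ⟨c1, c2, c3, c4⟩ := hT a ha1 b hb1 hab
    rcases ha2 with h | h <;> rcases hb2 with h' | h'
    · exact c1 (h.trans h'.symm)
    · exact c2 (h.trans h'.symm)
    · exact c3 (h.trans h'.symm)
    · exact c4 (h.trans h'.symm)
  have h5 := Finset.card_le_card h1
  omega

private lemma tcl_two {n : ℕ} (T : Finset (Fin n × Fin n)) (h0 : ∀ t ∈ T, t.1 ≠ t.2)
    (hT : ∀ t ∈ T, ∀ t' ∈ T, t ≠ t' → t.1 ≠ t'.1 ∧ t.1 ≠ t'.2 ∧ t.2 ≠ t'.1 ∧ t.2 ≠ t'.2) :
    2 * T.card ≤ n := by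
  classical
  have h1 : (T.image Prod.fst).card = T.card := by
    refine Finset.card_image_of_injOn fun a ha b hb hab => ?_
    by_contra hne
    exact (hT a ha b hb hne).1 hab
  have h2 : (T.image Prod.snd).card = T.card := by
    refine Finset.card_image_of_injOn fun a ha b hb hab => ?_
    by_contra hne
    exact (hT a ha b hb hne).2.2.2 hab
  have h3 : Disjoint (T.image Prod.fst) (T.image Prod.snd) := by
    rw [Finset.disjoint_left]
    intro x hx hx'
    obtain ⟨a, ha, rfl⟩ := mem_image.1 hx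
    obtain ⟨b, hb, hab⟩ := mem_image.1 hx'
    by_cases hne : a = b
    · subst hne
      exact h0 a ha hab.symm
    · exact (hT a ha b hb hne).2.1 hab.symm
  have h4 := Finset.card_union_of_disjoint h3
  have h5 := Finset.card_le_univ (T.image Prod.fst ∪ T.image Prod.snd)
  rw [Fintype.card_fin] at h5
  omega

theorem tTCl (hGdy : S_Gdy) : S_TCl := by
  classical
  intro n Mx q T σ h0 hT hMx hq
  have h2 := tcl_two T h0 hT
  have h3 : T.card / Mx ≤ n / (2 * Mx) := by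
    rw [← Nat.div_div_eq_div_mul]
    exact Nat.div_le_div_right (by omega)
  have h5 : 4 + ∑ _s : Fin 1, T.card / Mx < q := by
    simp only [Finset.sum_const, Finset.card_univ, Fintype.card_fin, one_smul]
    omega
  obtain ⟨col, hc1, hc2⟩ := hGdy (Fin n × Fin n) T (tcl_Cf σ) 4 q 1 (fun _ _ => 1)
    (fun _ => Mx) (fun _ => Mx) (fun _ => T.card) (fun u u' h => h.symm)
    (fun u _ => tcl_deg T σ hT u) (fun _ => hMx) (fun _ _ _ => le_rfl)
    (fun _ => by simp) h5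
  refine ⟨col, fun c => ?_, fun t ht t' ht' hne hcol => ?_⟩
  · have := hc2 0 c
    simpa using this
  · have h4 : ¬ tcl_Cf σ t t' := fun h => hc1 t ht t' ht' hne h hcol
    simp only [tcl_Cf, not_or] at h4
    exact ⟨h4.1.1, h4.1.2.1, h4.1.2.2.1, h4.1.2.2.2⟩

end Pool.Agent.MPd266dbE
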