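import Pool.Agent.Lib.MP_d266db_co.E.SpecC

/-!
# MP_d266db_co, E/TEx: tiles between two parts of a class
-/

set_option autoImplicit false

namespace Pool.Agent.MPd266dbE

open Finset Pool.Agent.MPd266db Pool.Agent.MPd266dbH

section

variable {n : ℕ} {S : Finset (Fin n × Fin n)}

private theorem tex_flt (X Y : Finset (Fin n)) : S.filter (fun e => e.1 ∈ X ∧ e.2 ∈ Y) =
    (X ×ˢ Y).filter (fun e => e ∈ S) := by
  ext e
  simp only [mem_filter, mem_product]
  tauto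

private theorem tex_eb (X Y : Finset (Fin n)) :
    eb S X Y = ∑ y ∈ Y, (X.filter (fun x => (x, y) ∈ S)).card := by
  unfold eb
  rw [tex_flt, card_filter, sum_product_right]
  exact sum_congr rfl fun y _ => (card_filter _ _).symm

private theorem tex_eb' (X Y : Finset (Fin n)) :
    eb S X Y = ∑ x ∈ X, (Y.filter (fun y => (x, y) ∈ S)).card := by
  unfold eb
  rw [tex_flt, card_filter, sum_product]
  exact sum_congr rfl fun y _ => (card_filter _ _).symm

private theorem tex_od (x : Fin n) : (univ.filter (fun y => (x, y) ∈ S)).card = od S x := by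
  have h1 := tex_eb' (S := S) {x} univ
  have h2 := eb_univ_right S {x}
  rw [sum_singleton] at h1 h2
  rw [← h1, h2]

private theorem tex_idg (y : Fin n) : (univ.filter (fun x => (x, y) ∈ S)).card = idg S y := by
  have h1 := tex_eb (S := S) univ {y}
  have h2 := eb_univ_left S {y}
  rw [sum_singleton] at h1 h2
  rw [← h1, h2]

private theorem tex_cnt (Y T₁ T₂ : Finset (Fin n))
    (h : ∀ x ∈ T₁, ∀ x' ∈ T₂, (Y.filter (fun y => (x, y) ∈ S ∧ (x', y) ∈ S)).card ≤ 1) :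
    ∑ y ∈ Y, (T₁.filter (fun x => (x, y) ∈ S)).card * (T₂.filter (fun x => (x, y) ∈ S)).card ≤
      T₁.card * T₂.card := by
  have e1 : ∀ y, (T₁.filter (fun x => (x, y) ∈ S)).card * (T₂.filter (fun x => (x, y) ∈ S)).card =
      ∑ x ∈ T₁, ∑ x' ∈ T₂, (if (x, y) ∈ S ∧ (x', y) ∈ S then 1 else 0) := by
    intro y
    rw [card_filter, card_filter, sum_mul_sum]
    refine sum_congr rfl fun x _ => sum_congr rfl fun x' _ => ?_
    by_cases h1 : (x, y) ∈ S <;> by_cases h2 : (x', y) ∈ S <;> simp [h1, h2]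
  rw [sum_congr rfl fun y _ => e1 y, sum_comm]
  have h3 : ∀ x ∈ T₁, ∑ y ∈ Y, ∑ x' ∈ T₂, (if (x, y) ∈ S ∧ (x', y) ∈ S then 1 else 0) ≤ T₂.card := by
    intro x hx
    rw [sum_comm]
    calc ∑ x' ∈ T₂, ∑ y ∈ Y, (if (x, y) ∈ S ∧ (x', y) ∈ S then 1 else 0) ≤ ∑ x' ∈ T₂, 1 :=
          sum_le_sum fun x' hx' => by
            rw [← card_filter]
            exact h x hx x' hx'
      _ = T₂.card := by rw [sum_const, smul_eq_mul, mul_one]
  calc _ ≤ ∑ x ∈ T₁, T₂.card := sum_le_sum h3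
    _ = T₁.card * T₂.card := by rw [sum_const, smul_eq_mul]

variable {K : ℕ} {o i : Fin n → Fin K} {N θ ρ g β ν : ℝ}

private theorem tex_mCl {o : Fin n → Fin K} {a : Fin K} {v : Fin n} : v ∈ Cl o a ↔ o v = a := by
  simp only [Cl, mem_filter, mem_univ, true_and]

private theorem tex_one (hB : BHyp S o i N θ ρ g β ν) (hN : 0 < N) (hθ : 0 < θ) {a : Fin K}
    {T₁ T₂ : Finset (Fin n)} (hU : T₁ ∪ T₂ = Cl o a) (hd : Disjoint T₁ T₂) (hne : T₁.Nonempty)
    (hc : ∀ x ∈ T₁, ∀ x' ∈ T₂, ∀ y y', (x, y) ∈ S → (x, y') ∈ S → (x', y) ∈ S → (x', y') ∈ S →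
      y = y') : θ ^ 2 * N ≤ T₁.card + 1 := by
  obtain ⟨x, hx⟩ := hne
  have hxa : o x = a := tex_mCl.1 (hU ▸ mem_union_left _ hx)
  obtain ⟨U, hUe⟩ : ∃ U : Finset (Fin n), U = univ.filter (fun y => (x, y) ∈ S) := ⟨_, rfl⟩
  have mU : ∀ y, y ∈ U ↔ (x, y) ∈ S := fun y => by
    rw [hUe]
    simp only [mem_filter, mem_univ, true_and]
  have hUc : (U.card : ℝ) = od S x := by rw [hUe, tex_od]
  have hUa : U ⊆ Cl i a := fun y hy => tex_mCl.2 ((hB.own (x, y) ((mU y).1 hy)).symm.trans hxa)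
  have hUN : (U.card : ℝ) ≤ N := by
    have h1 : (U.card : ℝ) ≤ (Cl i a).card := by exact_mod_cast card_le_card hUa
    exact h1.trans (hB.szi a)
  have hT2 : (T₂.card : ℝ) ≤ N := by
    have h1 : (T₂.card : ℝ) ≤ (Cl o a).card := by
      exact_mod_cast card_le_card (hU ▸ subset_union_right)
    exact h1.trans (hB.szo a)
  have h1 : eb S univ U ≤ eb S T₁ U + eb S T₂ U := by
    rw [← eb_union_left S U hd, hU]
    refine card_le_card fun e he => ?_
    rw [mem_filter] at he ⊢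
    refine ⟨he.1, ?_, he.2.2⟩
    rw [tex_mCl, hB.own e he.1]
    exact tex_mCl.1 (hUa he.2.2)
  have h2 : eb S T₁ U ≤ T₁.card * U.card := eb_le_card_mul S T₁ U
  have h3 : eb S T₂ U ≤ T₂.card := by
    rw [tex_eb']
    calc ∑ x' ∈ T₂, (U.filter (fun y => (x', y) ∈ S)).card ≤ ∑ x' ∈ T₂, 1 :=
          sum_le_sum fun x' hx' => by
            rw [card_le_one]
            intro y hy y' hy'
            rw [mem_filter, mU] at hy hy'
            exact hc x hx x' hx' y y' hy.1 hy'.1 hy.2 hy'.2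
      _ = T₂.card := by rw [sum_const, smul_eq_mul, mul_one]
  have h4 : (θ * N) * (θ * N) ≤ (eb S univ U : ℝ) := by
    rw [eb_univ_left]
    push_cast
    have h5 : (U.card : ℝ) * (θ * N) ≤ ∑ y ∈ U, (idg S y : ℝ) := by
      rw [← nsmul_eq_mul, ← sum_const]
      exact sum_le_sum fun y _ => hB.idl y
    refine le_trans ?_ h5
    rw [hUc]
    exact mul_le_mul_of_nonneg_right (hB.odl x) (by positivity)
  have h5 : (eb S univ U : ℝ) ≤ T₁.card * N + N := by
    have h6 : (eb S univ U : ℝ) ≤ (T₁.card * U.card : ℕ) + (T₂.card : ℕ) := by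
      exact_mod_cast h1.trans (add_le_add h2 h3)
    push_cast at h6
    have h7 : (T₁.card : ℝ) * U.card ≤ T₁.card * N := mul_le_mul_of_nonneg_left hUN (by positivity)
    linarith
  have h6 : (θ ^ 2 * N) * N ≤ (T₁.card + 1) * N := by nlinarith
  exact le_of_mul_le_mul_right h6 hN

end

theorem tTEx : S_TEx := by
  intro θ ν hθ hθ1 hν
  refine ⟨max (2 / θ ^ 2) (2 / (θ * ν)) + 1, fun n K S o i N ρ g β hB hβ hN a T₁ T₂ hU hd hne₁ hne₂ =>
    ?_⟩
  by_contra hcon
  have hN1 : 2 / θ ^ 2 < N := by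
    have := le_max_left (2 / θ ^ 2) (2 / (θ * ν))
    linarith
  have hN2 : 2 / (θ * ν) < N := by
    have := le_max_right (2 / θ ^ 2) (2 / (θ * ν))
    linarith
  have hN0 : 0 < N := lt_trans (by positivity) hN1
  have hc : ∀ x ∈ T₁, ∀ x' ∈ T₂, ∀ y y', (x, y) ∈ S → (x, y') ∈ S → (x', y) ∈ S → (x', y') ∈ S →
      y = y' := by
    intro x hx x' hx' y y' h1 h2 h3 h4
    by_contra h5
    exact hcon ⟨x, hx, x', hx', y, y', h5, h1, h2, h3, h4⟩
  have hθN : 2 < θ ^ 2 * N := by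
    rw [div_lt_iff₀ (by positivity)] at hN1
    linarith
  have c1 := tex_one hB hN0 hθ hU hd hne₁ hc
  have c2 := tex_one hB hN0 hθ (by rw [union_comm]; exact hU) hd.symm hne₂
    fun x hx x' hx' y y' h1 h2 h3 h4 => hc x' hx' x hx y y' h3 h4 h1 h2
  have t1 : (T₁.card : ℝ) ≤ N := by
    have h1 : (T₁.card : ℝ) ≤ (Cl o a).card := by
      exact_mod_cast card_le_card (hU ▸ subset_union_left)
    exact h1.trans (hB.szo a)
  have t2 : (T₂.card : ℝ) ≤ N := by
    have h1 : (T₂.card : ℝ) ≤ (Cl o a).card := by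
      exact_mod_cast card_le_card (hU ▸ subset_union_right)
    exact h1.trans (hB.szo a)
  have hdiff : Cl o a \ T₁ = T₂ := by
    rw [← hU, union_sdiff_left, sdiff_eq_self_of_disjoint hd.symm]
  -- the two degrees
  obtain ⟨d₁, hd₁⟩ : ∃ d : Fin n → ℕ, ∀ y, d y = (T₁.filter (fun x => (x, y) ∈ S)).card :=
    ⟨_, fun _ => rfl⟩
  obtain ⟨d₂, hd₂⟩ : ∃ d : Fin n → ℕ, ∀ y, d y = (T₂.filter (fun x => (x, y) ∈ S)).card :=
    ⟨_, fun _ => rfl⟩
  have hsum : ∀ y ∈ Cl i a, d₁ y + d₂ y = idg S y := by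
    intro y hy
    rw [hd₁, hd₂, ← tex_idg, ← card_union_of_disjoint, ← filter_union, hU]
    · congr 1
      ext x
      simp only [mem_filter, mem_univ, true_and, tex_mCl, and_iff_right_iff_imp]
      intro h1
      rw [hB.own (x, y) h1]
      exact tex_mCl.1 hy
    · exact disjoint_filter_filter hd
  have hprod : ∑ y ∈ Cl i a, d₁ y * d₂ y ≤ T₁.card * T₂.card := by
    have h1 := tex_cnt (S := S) (Cl i a) T₁ T₂ fun x hx x' hx' => by
      rw [card_le_one]
      intro y hy y' hy'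
      rw [mem_filter] at hy hy'
      exact hc x hx x' hx' y y' hy.2.1 hy'.2.1 hy.2.2 hy'.2.2
    refine le_trans (le_of_eq (sum_congr rfl fun y _ => ?_)) h1
    rw [hd₁, hd₂]
  have hmin : ∀ y ∈ Cl i a, θ * N / 2 * (min (d₁ y) (d₂ y) : ℕ) ≤ (d₁ y * d₂ y : ℕ) := by
    intro y hy
    have h1 : θ * N ≤ (d₁ y : ℝ) + d₂ y := by
      have h2 := hB.idl y
      rw [← hsum y hy] at h2
      push_cast at h2
      exact h2
    push_cast
    have p1 : (0 : ℝ) ≤ d₁ y := by positivity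
    have p2 : (0 : ℝ) ≤ d₂ y := by positivity
    rcases le_total (d₁ y : ℝ) (d₂ y) with h3 | h3
    · rw [min_eq_left h3]
      nlinarith
    · rw [min_eq_right h3]
      nlinarith
  have hmins : θ * N / 2 * (∑ y ∈ Cl i a, (min (d₁ y) (d₂ y) : ℕ) : ℕ) ≤ N * N := by
    push_cast
    rw [mul_sum]
    calc ∑ y ∈ Cl i a, θ * N / 2 * min (d₁ y : ℝ) (d₂ y) ≤ ∑ y ∈ Cl i a, ((d₁ y * d₂ y : ℕ) : ℝ) :=
          sum_le_sum fun y hy => by
            have := hmin y hy
            push_cast at this ⊢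
            exact this
      _ = ((∑ y ∈ Cl i a, d₁ y * d₂ y : ℕ) : ℝ) := by push_cast; rfl
      _ ≤ ((T₁.card * T₂.card : ℕ) : ℝ) := by exact_mod_cast hprod
      _ ≤ N * N := by
          push_cast
          exact mul_le_mul t1 t2 (by positivity) hN0.le
  obtain ⟨Y, hY⟩ : ∃ Y : Finset (Fin n), Y = (Cl i a).filter (fun y => d₁ y ≤ d₂ y) := ⟨_, rfl⟩
  have hYs : Y ⊆ Cl i a := hY ▸ filter_subset _ _
  have e1 : eb S T₁ Y + eb S (Cl o a \ T₁) (Cl i a \ Y) = ∑ y ∈ Cl i a, min (d₁ y) (d₂ y) := by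
    rw [hdiff, tex_eb, tex_eb, ← sum_sdiff hYs, add_comm]
    congr 1
    · refine sum_congr rfl fun y hy => ?_
      rw [mem_sdiff, hY, mem_filter, not_and] at hy
      have h1 := hy.2 hy.1
      rw [min_eq_right (by omega), hd₂]
    · refine sum_congr rfl fun y hy => ?_
      rw [hY, mem_filter] at hy
      rw [min_eq_left hy.2, hd₁]
  have hr := hB.rob a T₁ Y (hU ▸ subset_union_left) hYs (by
    have h1 : (0 : ℝ) ≤ (Cl i a \ Y).card := by positivity
    nlinarith) (by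
    rw [hdiff]
    have h1 : (0 : ℝ) ≤ Y.card := by positivity
    nlinarith)
  have e2 : (eb S T₁ Y : ℝ) + eb S (Cl o a \ T₁) (Cl i a \ Y) =
      ((∑ y ∈ Cl i a, min (d₁ y) (d₂ y) : ℕ) : ℝ) := by exact_mod_cast e1
  rw [e2] at hr
  have h7 : θ * N / 2 * (ν * N ^ 2) ≤ N * N := (mul_le_mul_of_nonneg_left hr (by positivity)).trans hmins
  have h8 : (θ * ν * N) * (N * N) ≤ 2 * (N * N) := by nlinarith
  have h9 : θ * ν * N ≤ 2 := le_of_mul_le_mul_right h8 (by positivity)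
  rw [div_lt_iff₀ (by positivity)] at hN2
  linarith

end Pool.Agent.MPd266dbE
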