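import Pool.Agent.Lib.MP_d266db_co.E.SpecC

/-!
# MP_d266db_co, E/TRp: tiles exist among many tails (helper25, task 12872)
-/

set_option autoImplicit false

namespace Pool.Agent.MPd266dbE

open Finset Pool.Agent.MPd266db Pool.Agent.MPd266dbH

private theorem trp_bon {α β : Type} [DecidableEq α] [DecidableEq β] (W : Finset α)
    (A : α → Finset β) (h : ∀ x ∈ W, ∀ x' ∈ W, x ≠ x' → (A x ∩ A x').card ≤ 1) :
    ∑ x ∈ W, (A x).card ≤ (W.biUnion A).card + W.card ^ 2 := by
  induction W using Finset.induction_on with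
  | empty => simp
  | insert x W hx ih =>
    have ih' := ih fun y hy z hz => h y (mem_insert_of_mem hy) z (mem_insert_of_mem hz)
    rw [sum_insert hx, biUnion_insert, card_insert_of_notMem hx]
    have h1 := card_union_add_card_inter (A x) (W.biUnion A)
    have h2 : (A x ∩ W.biUnion A).card ≤ W.card := by
      calc (A x ∩ W.biUnion A).card = (W.biUnion fun x' => A x ∩ A x').card := by
            rw [inter_biUnion]
        _ ≤ ∑ x' ∈ W, (A x ∩ A x').card := card_biUnion_le
        _ ≤ ∑ x' ∈ W, 1 := sum_le_sum fun x' hx' =>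
            h x (mem_insert_self _ _) x' (mem_insert_of_mem hx') fun e => hx (e ▸ hx')
        _ = W.card := by simp
    nlinarith

private theorem trp_od {n : ℕ} (S : Finset (Fin n × Fin n)) (x : Fin n) :
    od S x = (univ.filter fun y => (x, y) ∈ S).card := by
  unfold od
  rw [← card_image_of_injective (univ.filter fun y => (x, y) ∈ S) (f := fun y => (x, y))
    fun a b e => (Prod.mk.inj e).2]
  congr 1
  ext ⟨u, v⟩
  simp only [mem_filter, mem_image, mem_univ, true_and, Prod.mk.injEq]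
  constructor
  · rintro ⟨h, rfl⟩
    exact ⟨v, h, rfl, rfl⟩
  · rintro ⟨y, h, rfl, rfl⟩
    exact ⟨h, rfl⟩

theorem tTRp : S_TRp := by
  intro K0 θ hK0 hθ
  set m : ℕ := ⌈4 / θ⌉₊ with hm
  have hmθ : 4 ≤ m * θ := by
    have := Nat.le_ceil (4 / θ)
    rw [← hm] at this
    rwa [div_le_iff₀ hθ] at this
  refine ⟨K0 * m, (m : ℝ) ^ 2 + 1, ?_⟩
  intro n K S o i N ρ g β ν hB hN T B hTo hT hBc
  have hNpos : 0 < N := lt_of_lt_of_le (by positivity) hN
  have hmaps : ∀ x ∈ T, o x ∈ T.image o := fun x hx => mem_image_of_mem o hx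
  obtain ⟨a, -, ha⟩ := exists_lt_card_fiber_of_mul_lt_card_of_maps_to hmaps
    (lt_of_le_of_lt (Nat.mul_le_mul_right m hTo) hT)
  obtain ⟨W, hWs, hWc⟩ := exists_subset_card_eq ha.le
  have hWT : ∀ x ∈ W, x ∈ T ∧ o x = a := fun x hx => mem_filter.1 (hWs hx)
  let A : Fin n → Finset (Fin n) := fun x => (univ.filter fun y => (x, y) ∈ S) \ B
  have hA : ∀ x, θ / 2 * N ≤ ((A x).card : ℝ) := by
    intro x
    have h1 := hB.odl x
    rw [trp_od] at h1
    have h2 : (univ.filter fun y => (x, y) ∈ S).card ≤ (A x).card + B.card := by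
      have := card_le_card_sdiff_add_card (t := B) (s := univ.filter fun y => (x, y) ∈ S)
      exact this
    have h3 : ((univ.filter fun y => (x, y) ∈ S).card : ℝ) ≤ (A x).card + B.card := by
      exact_mod_cast h2
    linarith
  by_cases hex : ∃ x ∈ W, ∃ x' ∈ W, x ≠ x' ∧ 1 < (A x ∩ A x').card
  · obtain ⟨x, hx, x', hx', hne, hc⟩ := hex
    obtain ⟨y, hy, y', hy', hyy⟩ := one_lt_card.1 hc
    simp only [A, mem_inter, mem_sdiff, mem_filter, mem_univ, true_and] at hy hy'
    exact ⟨x, (hWT x hx).1, x', (hWT x' hx').1, hne, (hWT x hx).2.trans (hWT x' hx').2.symm,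
      y, y', hyy, hy.1.2, hy'.1.2, hy.1.1, hy'.1.1, hy.2.1, hy'.2.1⟩
  · exfalso
    push Not at hex
    have h1 := trp_bon W A hex
    have h2 : ((W.biUnion A).card : ℝ) ≤ N := by
      refine le_trans ?_ (hB.szi a)
      have : W.biUnion A ⊆ Cl i a := by
        intro y hy
        obtain ⟨x, hx, hxy⟩ := mem_biUnion.1 hy
        simp only [A, mem_sdiff, mem_filter, mem_univ, true_and] at hxy
        unfold Cl
        rw [mem_filter]
        exact ⟨mem_univ _, (hB.own _ hxy.1).symm.trans (hWT x hx).2⟩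
      exact_mod_cast card_le_card this
    have h3 : (m : ℝ) * (θ / 2 * N) ≤ ∑ x ∈ W, ((A x).card : ℝ) := by
      calc (m : ℝ) * (θ / 2 * N) = ∑ x ∈ W, θ / 2 * N := by
            rw [sum_const, hWc, nsmul_eq_mul]
        _ ≤ _ := sum_le_sum fun x _ => hA x
    have h4 : (∑ x ∈ W, ((A x).card : ℝ)) ≤ (W.biUnion A).card + (m : ℝ) ^ 2 := by
      rw [hWc] at h1
      exact_mod_cast h1
    have h5 : 2 * N ≤ (m : ℝ) * (θ / 2 * N) := by nlinarith
    linarith

end Pool.Agent.MPd266dbE
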