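import Pool.Agent.Lib.MP_d266db_co.E.SpecD

/-!
# MP_d266db_co, E: switches only exchange arcs
-/

set_option autoImplicit false

namespace Pool.Agent.MPd266dbE

open Finset Pool.Agent.MPd266db Pool.Agent.MPd266dbH

theorem tTgl : S_Tgl := by
  classical
  intro n ι κ _ _ A x x' ρ Φ0 hne hΦ hdis
  induction A using Finset.induction_on with
  | empty =>
    refine ⟨Φ0, fun c => ⟨1, by rw [mul_one], ?_, fun v _ => rfl⟩, fun v => ⟨1, fun c => rfl⟩⟩
    intro q hq
    simp at hq
  | insert t A ht ih =>
    obtain ⟨Φ, h1, h2⟩ := ih (fun s hs => hne s (mem_insert_of_mem hs))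
      (fun s hs => hΦ s (mem_insert_of_mem hs))
      (fun s hs s' hs' => hdis s (mem_insert_of_mem hs) s' (mem_insert_of_mem hs'))
    choose τ hτ hTog using h1
    have hax : x t ≠ x' t := hne t (mem_insert_self t A)
    have hd : ∀ s ∈ A, ∀ c, ρ t c ≠ c → ρ s c ≠ c →
        x t ≠ x s ∧ x t ≠ x' s ∧ x' t ≠ x s ∧ x' t ≠ x' s := by
      intro s hs
      exact hdis t (mem_insert_self t A) s (mem_insert_of_mem hs) (fun h => ht (h ▸ hs))
    -- the permutations `τ c` fix `x t` and `x' t`
    have hfix : ∀ c, ρ t c ≠ c → τ c (x t) = x t ∧ τ c (x' t) = x' t := by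
      intro c hc
      constructor
      · apply (hTog c).2
        intro q hq
        obtain ⟨s, hs, rfl⟩ := mem_image.1 hq
        rw [mem_filter] at hs
        obtain ⟨g1, g2, -, -⟩ := hd s hs.1 c hc hs.2
        exact ⟨g1, g2⟩
      · apply (hTog c).2
        intro q hq
        obtain ⟨s, hs, rfl⟩ := mem_image.1 hq
        rw [mem_filter] at hs
        obtain ⟨-, -, g3, g4⟩ := hd s hs.1 c hc hs.2
        exact ⟨g3, g4⟩
    have hΦt : ∀ c, ρ t c ≠ c → Φ0 c (x' t) = Φ0 (ρ t c) (x t) :=
      hΦ t (mem_insert_self t A)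
    obtain ⟨Ψ, hΨ⟩ : ∃ Ψ : ι → Equiv.Perm (Fin n),
        Ψ = fun c => if ρ t c ≠ c then Φ c * Equiv.swap (x t) (x' t) else Φ c := ⟨_, rfl⟩
    have hΨ1 : ∀ c, ρ t c ≠ c → Ψ c = Φ c * Equiv.swap (x t) (x' t) := by
      intro c hc
      rw [hΨ]
      exact if_pos hc
    have hΨ2 : ∀ c, ρ t c = c → Ψ c = Φ c := by
      intro c hc
      rw [hΨ]
      exact if_neg (not_not.2 hc)
    refine ⟨Ψ, ?_, ?_⟩
    · intro c
      by_cases hc : ρ t c = c
      · refine ⟨τ c, by rw [hΨ2 c hc]; exact hτ c, ?_⟩
        have : (insert t A).filter (fun s => ρ s c ≠ c) = A.filter (fun s => ρ s c ≠ c) := by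
          rw [filter_insert, if_neg (not_not.2 hc)]
        rw [this]
        exact hTog c
      · refine ⟨τ c * Equiv.swap (x t) (x' t), by rw [hΨ1 c hc, hτ c, mul_assoc], ?_⟩
        have : ((insert t A).filter (fun s => ρ s c ≠ c)).image (fun s => (x s, x' s)) =
            insert (x t, x' t) ((A.filter (fun s => ρ s c ≠ c)).image (fun s => (x s, x' s))) := by
          rw [filter_insert, if_pos hc, image_insert]
        rw [this]
        obtain ⟨f1, f2⟩ := hfix c hc
        constructor
        · intro q hq
          rcases mem_insert.1 hq with rfl | hq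
          · dsimp only
            rw [Equiv.Perm.mul_apply, Equiv.Perm.mul_apply, Equiv.swap_apply_left,
              Equiv.swap_apply_right]
            exact ⟨f2, f1⟩
          · obtain ⟨g1, g2⟩ := (hTog c).1 q hq
            obtain ⟨s, hs, rfl⟩ := mem_image.1 hq
            rw [mem_filter] at hs
            obtain ⟨d1, d2, d3, d4⟩ := hd s hs.1 c hc hs.2
            dsimp only at g1 g2 ⊢
            rw [Equiv.Perm.mul_apply, Equiv.Perm.mul_apply,
              Equiv.swap_apply_of_ne_of_ne d1.symm d3.symm,
              Equiv.swap_apply_of_ne_of_ne d2.symm d4.symm]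
            exact ⟨g1, g2⟩
        · intro v hv
          obtain ⟨v1, v2⟩ := hv _ (mem_insert_self _ _)
          rw [Equiv.Perm.mul_apply, Equiv.swap_apply_of_ne_of_ne v1 v2]
          exact (hTog c).2 v fun q hq => hv q (mem_insert_of_mem hq)
    · intro v
      obtain ⟨ψ, hψ⟩ := h2 v
      by_cases hv1 : v = x t
      · subst hv1
        have key : ∀ c, Ψ c (x t) = Φ (ρ t c) (x t) := by
          intro c
          by_cases hc : ρ t c = c
          · rw [hΨ2 c hc, hc]
          · have hc' : ρ t (ρ t c) ≠ ρ t c := fun h => hc ((ρ t).injective h)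
            rw [hΨ1 c hc, Equiv.Perm.mul_apply, Equiv.swap_apply_left, hτ c, hτ (ρ t c),
              Equiv.Perm.mul_apply, Equiv.Perm.mul_apply, (hfix c hc).2, (hfix _ hc').1]
            exact hΦt c hc
        refine ⟨ψ * ρ t, fun c => ?_⟩
        rw [key c, hψ, Equiv.Perm.mul_apply]
      · by_cases hv2 : v = x' t
        · subst hv2
          have key : ∀ c, Ψ c (x' t) = Φ ((ρ t).symm c) (x' t) := by
            intro c
            by_cases hc : ρ t c = c
            · have : (ρ t).symm c = c := by
                rw [Equiv.symm_apply_eq]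
                exact hc.symm
              rw [hΨ2 c hc, this]
            · obtain ⟨c', hc'⟩ : ∃ c', c' = (ρ t).symm c := ⟨_, rfl⟩
              have h3 : ρ t c' = c := by rw [hc', Equiv.apply_symm_apply]
              have h4 : ρ t c' ≠ c' := by
                intro h
                rw [h] at h3
                rw [h3] at h
                exact hc h
              rw [← hc', hΨ1 c hc, Equiv.Perm.mul_apply, Equiv.swap_apply_right, hτ c, hτ c',
                Equiv.Perm.mul_apply, Equiv.Perm.mul_apply, (hfix c hc).1, (hfix c' h4).2]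
              have h5 := hΦt c' h4
              rw [h3] at h5
              exact h5.symm
          refine ⟨ψ * (ρ t).symm, fun c => ?_⟩
          rw [key c, hψ, Equiv.Perm.mul_apply]
        · refine ⟨ψ, fun c => ?_⟩
          rw [← hψ c]
          by_cases hc : ρ t c = c
          · rw [hΨ2 c hc]
          · rw [hΨ1 c hc, Equiv.Perm.mul_apply, Equiv.swap_apply_of_ne_of_ne hv1 hv2]

end Pool.Agent.MPd266dbE
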