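import Pool.Agent.Lib.MP_d266db_co.E.SpecF

/-!
# MP_d266db_co, E, Un1: the unit of an arc and its mate
-/

set_option autoImplicit false

namespace Pool.Agent.MPd266dbE

open Finset Pool.Agent.MPd266db Pool.Agent.MPd266dbH

private theorem un1_rk {n : ℕ} (q q' : Fin n × Fin n) (Hs : Finset (Fin n × Fin n))
    (hc : q.2 = q'.1) (h1 : q.1 ≠ q.2) (h2 : q'.1 ≠ q'.2) (h3 : q.1 ≠ q'.2)
    (hb : ∀ a ∈ Hs, a.1 ≠ a.2 ∧ PD a q ∧ PD a q')
    (hbb : ∀ a ∈ Hs, ∀ a' ∈ Hs, a ≠ a' → PD a a') :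
    ∃ rk : Fin n → ℕ, ∀ a ∈ ({q, q'} : Finset (Fin n × Fin n)) ∪ Hs, rk a.1 < rk a.2 := by
  classical
  refine ⟨fun v => if v = q'.2 then 2 else if v = q.2 ∨ v ∈ hds Hs then 1 else 0, ?_⟩
  intro a ha
  rw [mem_union, mem_insert, mem_singleton] at ha
  have hd : ∀ v, v ∈ hds Hs → ∃ a ∈ Hs, a.2 = v := fun v hv => mem_hds.1 hv
  rcases ha with (ha | ha) | ha
  · subst ha
    have e1 : a.1 ∉ hds Hs := by
      intro hv
      obtain ⟨c, hc, hce⟩ := hd _ hv
      exact (hb c hc).2.1.2.2.1 hce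
    have e2 : a.2 ≠ q'.2 := by rw [hc]; exact h2
    have e3 : ¬ (a.1 = a.2 ∨ a.1 ∈ hds Hs) := by
      rintro (h | h)
      · exact h1 h
      · exact e1 h
    simp only [if_neg h3, if_neg e2, if_neg e3, if_true, true_or]
    exact Nat.zero_lt_one
  · subst ha
    have e2 : q.2 ≠ a.2 := by rw [hc]; exact h2
    simp only [← hc, if_neg e2, if_true, true_or]
    exact Nat.one_lt_two
  · obtain ⟨b1, b2, b3⟩ := hb a ha
    have e1 : a.1 ≠ q'.2 := b3.2.1
    have e2 : a.2 ≠ q'.2 := b3.2.2.2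
    have e3 : a.2 = q.2 ∨ a.2 ∈ hds Hs := Or.inr (mem_hds.2 ⟨a, ha, rfl⟩)
    have e4 : ¬ (a.1 = q.2 ∨ a.1 ∈ hds Hs) := by
      rintro (h | h)
      · exact b2.2.1 h
      · obtain ⟨c, hc, hce⟩ := hd _ h
        by_cases hca : a = c
        · subst hca; exact b1 hce.symm
        · exact (hbb a ha c hc hca).2.1 hce.symm
    simp only [if_neg e1, if_neg e2, if_pos e3, if_neg e4]
    exact Nat.zero_lt_one

private theorem un1_rk0 {n : ℕ} (q q' : Fin n × Fin n) (Hs : Finset (Fin n × Fin n))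
    (h1 : q.1 ≠ q.2) (h2 : q'.1 ≠ q'.2) (h3 : q.1 ≠ q'.2) (h4 : q'.1 ≠ q.2)
    (hb : ∀ a ∈ Hs, a.1 ≠ a.2 ∧ PD a q ∧ PD a q')
    (hbb : ∀ a ∈ Hs, ∀ a' ∈ Hs, a ≠ a' → PD a a') :
    ∃ rk : Fin n → ℕ, ∀ a ∈ ({q, q'} : Finset (Fin n × Fin n)) ∪ Hs, rk a.1 < rk a.2 := by
  classical
  refine ⟨fun v => if v = q'.2 ∨ v = q.2 ∨ v ∈ hds Hs then 1 else 0, ?_⟩
  intro a ha
  rw [mem_union, mem_insert, mem_singleton] at ha
  have hd : ∀ v, v ∈ hds Hs → ∃ a ∈ Hs, a.2 = v := fun v hv => mem_hds.1 hv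
  have key : (¬ (a.1 = q'.2 ∨ a.1 = q.2 ∨ a.1 ∈ hds Hs)) ∧
      (a.2 = q'.2 ∨ a.2 = q.2 ∨ a.2 ∈ hds Hs) := by
    rcases ha with (ha | ha) | ha
    · subst ha
      refine ⟨?_, Or.inr (Or.inl rfl)⟩
      rintro (h | h | h)
      · exact h3 h
      · exact h1 h
      · obtain ⟨c, hc, hce⟩ := hd _ h
        exact (hb c hc).2.1.2.2.1 hce
    · subst ha
      refine ⟨?_, Or.inl rfl⟩
      rintro (h | h | h)
      · exact h2 h
      · exact h4 h
      · obtain ⟨c, hc, hce⟩ := hd _ h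
        exact (hb c hc).2.2.2.2.1 hce
    · obtain ⟨b1, b2, b3⟩ := hb a ha
      refine ⟨?_, Or.inr (Or.inr (mem_hds.2 ⟨a, ha, rfl⟩))⟩
      rintro (h | h | h)
      · exact b3.2.1 h
      · exact b2.2.1 h
      · obtain ⟨c, hc, hce⟩ := hd _ h
        by_cases hca : a = c
        · subst hca; exact b1 hce.symm
        · exact (hbb a ha c hc hca).2.1 hce.symm
  simp only [if_neg key.1, if_pos key.2]
  exact Nat.zero_lt_one

private theorem un1_pds {n : ℕ} {t t' : Fin n × Fin n} (h : PD t t') : PD t' t :=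
  ⟨h.1.symm, h.2.2.1.symm, h.2.1.symm, h.2.2.2.symm⟩

private theorem un1_lf {n : ℕ} (q q' : Fin n × Fin n) (Hs : Finset (Fin n × Fin n))
    (h1 : q.1 ≠ q.2) (h2 : q'.1 ≠ q'.2) (h3 : ¬ (q.2 = q'.1 ∧ q'.2 = q.1))
    (h4 : q' ≠ q → q.1 ≠ q'.1 ∧ q.2 ≠ q'.2)
    (hb : ∀ a ∈ Hs, a.1 ≠ a.2 ∧ PD a q ∧ PD a q')
    (hbb : ∀ a ∈ Hs, ∀ a' ∈ Hs, a ≠ a' → PD a a') : LF ({q, q'} ∪ Hs) := by
  refine ⟨?_, ?_, ?_⟩
  · intro a ha a' ha' he
    rw [mem_union, mem_insert, mem_singleton] at ha ha'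
    by_cases hqq : q' = q
    · rcases ha with (ha | ha) | ha
      · rcases ha' with (ha' | ha') | ha'
        · rw [ha, ha']
        · rw [ha, ha', hqq]
        · rw [ha] at he
          exact absurd he.symm (hb a' ha').2.1.1
      · rcases ha' with (ha' | ha') | ha'
        · rw [ha, ha', hqq]
        · rw [ha, ha']
        · rw [ha] at he
          exact absurd he.symm (hb a' ha').2.2.1
      · rcases ha' with (ha' | ha') | ha'
        · rw [ha'] at he
          exact absurd he (hb a ha).2.1.1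
        · rw [ha'] at he
          exact absurd he (hb a ha).2.2.1
        · by_contra hne
          exact (hbb a ha a' ha' hne).1 he
    · have h5 := (h4 hqq).1
      rcases ha with (ha | ha) | ha
      · rcases ha' with (ha' | ha') | ha'
        · rw [ha, ha']
        · rw [ha, ha'] at he
          exact absurd he h5
        · rw [ha] at he
          exact absurd he.symm (hb a' ha').2.1.1
      · rcases ha' with (ha' | ha') | ha'
        · rw [ha, ha'] at he
          exact absurd he.symm h5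
        · rw [ha, ha']
        · rw [ha] at he
          exact absurd he.symm (hb a' ha').2.2.1
      · rcases ha' with (ha' | ha') | ha'
        · rw [ha'] at he
          exact absurd he (hb a ha).2.1.1
        · rw [ha'] at he
          exact absurd he (hb a ha).2.2.1
        · by_contra hne
          exact (hbb a ha a' ha' hne).1 he
  · intro a ha a' ha' he
    rw [mem_union, mem_insert, mem_singleton] at ha ha'
    by_cases hqq : q' = q
    · rcases ha with (ha | ha) | ha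
      · rcases ha' with (ha' | ha') | ha'
        · rw [ha, ha']
        · rw [ha, ha', hqq]
        · rw [ha] at he
          exact absurd he.symm (hb a' ha').2.1.2.2.2
      · rcases ha' with (ha' | ha') | ha'
        · rw [ha, ha', hqq]
        · rw [ha, ha']
        · rw [ha] at he
          exact absurd he.symm (hb a' ha').2.2.2.2.2
      · rcases ha' with (ha' | ha') | ha'
        · rw [ha'] at he
          exact absurd he (hb a ha).2.1.2.2.2
        · rw [ha'] at he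
          exact absurd he (hb a ha).2.2.2.2.2
        · by_contra hne
          exact (hbb a ha a' ha' hne).2.2.2 he
    · have h5 := (h4 hqq).2
      rcases ha with (ha | ha) | ha
      · rcases ha' with (ha' | ha') | ha'
        · rw [ha, ha']
        · rw [ha, ha'] at he
          exact absurd he h5
        · rw [ha] at he
          exact absurd he.symm (hb a' ha').2.1.2.2.2
      · rcases ha' with (ha' | ha') | ha'
        · rw [ha, ha'] at he
          exact absurd he.symm h5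
        · rw [ha, ha']
        · rw [ha] at he
          exact absurd he.symm (hb a' ha').2.2.2.2.2
      · rcases ha' with (ha' | ha') | ha'
        · rw [ha'] at he
          exact absurd he (hb a ha).2.1.2.2.2
        · rw [ha'] at he
          exact absurd he (hb a ha).2.2.2.2.2
        · by_contra hne
          exact (hbb a ha a' ha' hne).2.2.2 he
  · by_cases hc : q.2 = q'.1
    · exact un1_rk q q' Hs hc h1 h2 (fun he => h3 ⟨hc, he.symm⟩) hb hbb
    · by_cases hc' : q'.2 = q.1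
      · have := un1_rk q' q Hs hc' h2 h1 (fun he => h3 ⟨he.symm, hc'⟩)
          (fun a ha => ⟨(hb a ha).1, (hb a ha).2.2, (hb a ha).2.1⟩) hbb
        rw [pair_comm] at this
        exact this
      · exact un1_rk0 q q' Hs h1 h2 (fun he => hc' he.symm) (fun he => hc he.symm) hb hbb

private def un1_T {n K : ℕ} (e : ℕ) (lv : Fin n → ℕ) (o : Fin n → Fin K)
    (P : Finset (Fin n × Fin n)) (A : Fin ((e + 1) * K)) : ℕ :=
  (P.filter (fun q => bxo e lv o q.1 = A)).card

private def un1_H {n K : ℕ} (e : ℕ) (lv : Fin n → ℕ) (i : Fin n → Fin K)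
    (P : Finset (Fin n × Fin n)) (A : Fin ((e + 1) * K)) : ℕ :=
  (P.filter (fun q => bxi e lv i q.2 = A)).card

private theorem un1_Tu {n K : ℕ} (e : ℕ) (lv : Fin n → ℕ) (o : Fin n → Fin K)
    (P P' : Finset (Fin n × Fin n)) (A : Fin ((e + 1) * K)) (hd : Disjoint P P') :
    un1_T e lv o (P ∪ P') A = un1_T e lv o P A + un1_T e lv o P' A := by
  unfold un1_T
  rw [filter_union, card_union_of_disjoint (disjoint_filter_filter hd)]

private theorem un1_Hu {n K : ℕ} (e : ℕ) (lv : Fin n → ℕ) (o : Fin n → Fin K)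
    (P P' : Finset (Fin n × Fin n)) (A : Fin ((e + 1) * K)) (hd : Disjoint P P') :
    un1_H e lv o (P ∪ P') A = un1_H e lv o P A + un1_H e lv o P' A := by
  unfold un1_H
  rw [filter_union, card_union_of_disjoint (disjoint_filter_filter hd)]

private theorem un1_Ts {n K : ℕ} (e : ℕ) (lv : Fin n → ℕ) (o : Fin n → Fin K)
    (a : Fin n × Fin n) (A : Fin ((e + 1) * K)) :
    un1_T e lv o {a} A = if A = bxo e lv o a.1 then 1 else 0 := by
  unfold un1_T
  rw [filter_singleton]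
  by_cases h : A = bxo e lv o a.1
  · rw [if_pos h.symm, if_pos h, card_singleton]
  · rw [if_neg (fun h' => h h'.symm), if_neg h, card_empty]

private theorem un1_Hs {n K : ℕ} (e : ℕ) (lv : Fin n → ℕ) (o : Fin n → Fin K)
    (a : Fin n × Fin n) (A : Fin ((e + 1) * K)) :
    un1_H e lv o {a} A = if A = bxi e lv o a.2 then 1 else 0 := by
  unfold un1_H
  rw [filter_singleton]
  by_cases h : A = bxi e lv o a.2
  · rw [if_pos h.symm, if_pos h, card_singleton]
  · rw [if_neg (fun h' => h h'.symm), if_neg h, card_empty]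

private theorem un1_T0 {n K : ℕ} (e : ℕ) (lv : Fin n → ℕ) (o : Fin n → Fin K)
    (A : Fin ((e + 1) * K)) : un1_T e lv o ∅ A = 0 := by
  unfold un1_T
  rw [filter_empty, card_empty]

private theorem un1_H0 {n K : ℕ} (e : ℕ) (lv : Fin n → ℕ) (o : Fin n → Fin K)
    (A : Fin ((e + 1) * K)) : un1_H e lv o ∅ A = 0 := by
  unfold un1_H
  rw [filter_empty, card_empty]

private theorem un1_last (e : ℕ) : Fin.ofNat (e + 1) e = Fin.last e := by
  rw [Fin.ext_iff]
  simp only [Fin.ofNat, Fin.val_last]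
  exact Nat.mod_eq_of_lt (Nat.lt_succ_self e)

private theorem un1_bxo {n K : ℕ} (e : ℕ) (lv : Fin n → ℕ) (o : Fin n → Fin K) (v : Fin n)
    (h : tgp e lv v = e) : bxo e lv o v = bxe e (o v) := by
  unfold bxo bxe
  rw [h, un1_last]

private theorem un1_bxi {n K : ℕ} (e : ℕ) (lv : Fin n → ℕ) (o : Fin n → Fin K) (v : Fin n)
    (h : hgp e lv v = e) : bxi e lv o v = bxe e (o v) := by
  unfold bxi bxe
  rw [h, un1_last]

private theorem un1_p1 {n K : ℕ} (e : ℕ) (lv : Fin n → ℕ) (o i : Fin n → Fin K)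
    (q : Fin n × Fin n) (h1 : Finset (Fin n × Fin n))
    (c1 : h1.card = (if tgp e lv q.1 < e then 1 else 0))
    (p1 : ∀ a ∈ h1, lv a.1 = e ∧ lv a.2 = tgp e lv q.1 + 1 ∧ o a.1 = o q.1 ∧ i a.2 = o q.1)
    (A : Fin ((e + 1) * K)) :
    un1_T e lv o h1 A + (if A = bxo e lv o q.1 then 1 else 0) =
      un1_H e lv i h1 A + (if A = bxe e (o q.1) then 1 else 0) := by
  by_cases h : tgp e lv q.1 < e
  · rw [if_pos h, card_eq_one] at c1
    obtain ⟨a, rfl⟩ := c1
    obtain ⟨l1, l2, l3, l4⟩ := p1 a (mem_singleton_self _)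
    rw [un1_Ts, un1_Hs]
    have e1 : bxo e lv o a.1 = bxe e (o q.1) := by
      rw [un1_bxo e lv o a.1 (by unfold tgp; rw [l1, min_self]), l3]
    have e2 : bxi e lv i a.2 = bxo e lv o q.1 := by
      unfold bxi bxo
      have : hgp e lv a.2 = tgp e lv q.1 := by
        unfold hgp
        rw [l2, if_neg (Nat.succ_ne_zero _)]
        rfl
      rw [this, l4]
    rw [e1, e2, add_comm]
  · rw [if_neg h, card_eq_zero] at c1
    subst c1
    have h' : tgp e lv q.1 = e := le_antisymm (tgp_le e lv q.1) (not_lt.1 h)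
    rw [un1_T0, un1_H0, un1_bxo e lv o q.1 h']

private theorem un1_p2 {n K : ℕ} (e : ℕ) (lv : Fin n → ℕ) (o i : Fin n → Fin K)
    (q : Fin n × Fin n) (h2 : Finset (Fin n × Fin n)) (hlv : ∀ v, lv v ≤ e + 1)
    (c2 : h2.card = (if hgp e lv q.2 < e then 1 else 0))
    (p2 : ∀ a ∈ h2, lv a.1 = hgp e lv q.2 ∧ lv a.2 = 0 ∧ o a.1 = i q.2 ∧ i a.2 = i q.2)
    (A : Fin ((e + 1) * K)) :
    un1_T e lv o h2 A + (if A = bxe e (i q.2) then 1 else 0) =
      un1_H e lv i h2 A + (if A = bxi e lv i q.2 then 1 else 0) := by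
  by_cases h : hgp e lv q.2 < e
  · rw [if_pos h, card_eq_one] at c2
    obtain ⟨a, rfl⟩ := c2
    obtain ⟨l1, l2, l3, l4⟩ := p2 a (mem_singleton_self _)
    rw [un1_Ts, un1_Hs]
    have e1 : bxi e lv i a.2 = bxe e (i q.2) := by
      rw [un1_bxi e lv i a.2 (by unfold hgp; rw [l2, if_pos rfl]), l4]
    have e2 : bxo e lv o a.1 = bxi e lv i q.2 := by
      unfold bxi bxo
      have : tgp e lv a.1 = hgp e lv q.2 := by
        unfold tgp
        rw [l1]
        exact min_eq_left h.le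
      rw [this, l3]
    rw [e1, e2, add_comm]
  · rw [if_neg h, card_eq_zero] at c2
    subst c2
    have h' : hgp e lv q.2 = e := le_antisymm (hgp_le (hlv q.2)) (not_lt.1 h)
    rw [un1_T0, un1_H0, un1_bxi e lv i q.2 h']

private theorem un1_part {n K : ℕ} (e : ℕ) (lv : Fin n → ℕ) (o i : Fin n → Fin K)
    (q : Fin n × Fin n) (h1 h2 : Finset (Fin n × Fin n)) (hlv : ∀ v, lv v ≤ e + 1)
    (c1 : h1.card = (if tgp e lv q.1 < e then 1 else 0))
    (c2 : h2.card = (if hgp e lv q.2 < e then 1 else 0))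
    (p1 : ∀ a ∈ h1, lv a.1 = e ∧ lv a.2 = tgp e lv q.1 + 1 ∧ o a.1 = o q.1 ∧ i a.2 = o q.1)
    (p2 : ∀ a ∈ h2, lv a.1 = hgp e lv q.2 ∧ lv a.2 = 0 ∧ o a.1 = i q.2 ∧ i a.2 = i q.2)
    (d1 : ∀ a ∈ h1 ∪ h2, PD a q) (d2 : ∀ a ∈ h1, ∀ a' ∈ h2, PD a a')
    (A : Fin ((e + 1) * K)) :
    un1_T e lv o ({q} ∪ (h1 ∪ h2)) A + (if A = bxe e (i q.2) then 1 else 0) =
      un1_H e lv i ({q} ∪ (h1 ∪ h2)) A + (if A = bxe e (o q.1) then 1 else 0) := by
  have D1 : Disjoint {q} (h1 ∪ h2) := by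
    rw [disjoint_singleton_left]
    intro hq
    exact (d1 q hq).1 rfl
  have D2 : Disjoint h1 h2 := by
    rw [Finset.disjoint_left]
    intro a ha ha'
    exact (d2 a ha a ha').1 rfl
  rw [un1_Tu _ _ _ _ _ _ D1, un1_Hu _ _ _ _ _ _ D1, un1_Tu _ _ _ _ _ _ D2,
    un1_Hu _ _ _ _ _ _ D2, un1_Ts, un1_Hs]
  have e1 := un1_p1 e lv o i q h1 c1 p1 A
  have e2 := un1_p2 e lv o i q h2 hlv c2 p2 A
  omega

theorem tUn1 : S_Un1 := by
  intro n K e lv o i c0 d0 q q' h1 h2 h1' h2' hlv he hq hq' h2c hcr hsame hcd c1 c2 c1' c2'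
    p1 p2 p1' p2' hub d12 d12' dd
  have cle1 : h1.card ≤ 1 := by rw [c1]; split_ifs <;> omega
  have cle2 : h2.card ≤ 1 := by rw [c2]; split_ifs <;> omega
  have cle1' : h1'.card ≤ 1 := by rw [c1']; split_ifs <;> omega
  have cle2' : h2'.card ≤ 1 := by rw [c2']; split_ifs <;> omega
  have hbb : ∀ a ∈ h1 ∪ h2 ∪ (h1' ∪ h2'), ∀ a' ∈ h1 ∪ h2 ∪ (h1' ∪ h2'), a ≠ a' → PD a a' := by
    have hs : ∀ a ∈ h1 ∪ h2, ∀ a' ∈ h1 ∪ h2, a ≠ a' → PD a a' := by
      intro a ha a' ha' hne
      rcases mem_union.1 ha with ha | ha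
      · rcases mem_union.1 ha' with ha' | ha'
        · exact absurd (card_le_one.1 cle1 a ha a' ha') hne
        · exact d12 a ha a' ha'
      · rcases mem_union.1 ha' with ha' | ha'
        · exact un1_pds (d12 a' ha' a ha)
        · exact absurd (card_le_one.1 cle2 a ha a' ha') hne
    have hs' : ∀ a ∈ h1' ∪ h2', ∀ a' ∈ h1' ∪ h2', a ≠ a' → PD a a' := by
      intro a ha a' ha' hne
      rcases mem_union.1 ha with ha | ha
      · rcases mem_union.1 ha' with ha' | ha'
        · exact absurd (card_le_one.1 cle1' a ha a' ha') hne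
        · exact d12' a ha a' ha'
      · rcases mem_union.1 ha' with ha' | ha'
        · exact un1_pds (d12' a' ha' a ha)
        · exact absurd (card_le_one.1 cle2' a ha a' ha') hne
    by_cases hqq : q' = q
    · obtain ⟨r1, r2⟩ := hsame hqq
      subst r1 r2
      rw [union_self]
      exact hs
    · intro a ha a' ha' hne
      rcases mem_union.1 ha with ha | ha
      · rcases mem_union.1 ha' with ha' | ha'
        · exact hs a ha a' ha' hne
        · exact dd hqq a ha a' ha'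
      · rcases mem_union.1 ha' with ha' | ha'
        · exact un1_pds (dd hqq a' ha' a ha)
        · exact hs' a ha a' ha' hne
  have d1 : ∀ a ∈ h1 ∪ h2, PD a q := fun a ha => (hub a (mem_union_left _ ha)).2.1
  have d1' : ∀ a ∈ h1' ∪ h2', PD a q' := fun a ha => (hub a (mem_union_right _ ha)).2.2
  refine ⟨⟨q, mem_union_left _ (mem_insert_self _ _)⟩, ?_, ?_, ?_, ?_⟩
  · have e1 := card_union_le ({q, q'} : Finset (Fin n × Fin n)) (h1 ∪ h2 ∪ (h1' ∪ h2'))
    have e2 : ({q, q'} : Finset (Fin n × Fin n)).card ≤ 2 := card_le_two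
    have e3 := card_union_le (h1 ∪ h2) (h1' ∪ h2')
    have e4 := card_union_le h1 h2
    have e5 := card_union_le h1' h2'
    omega
  · refine un1_lf q q' _ hq hq' h2c ?_ hub hbb
    intro hne
    obtain ⟨x1, x2, x3⟩ := hcr hne
    refine ⟨fun h => x1 ?_, fun h => x1 ?_⟩
    · rw [h, x2]
    · rw [h, x3]
  · split_ifs <;> omega
  · intro A
    have P1 := un1_part e lv o i q h1 h2 hlv c1 c2 p1 p2 d1 d12 A
    by_cases hqq : q' = q
    · obtain ⟨r1, r2⟩ := hsame hqq
      have hu : ({q, q'} : Finset (Fin n × Fin n)) ∪ (h1 ∪ h2 ∪ (h1' ∪ h2')) =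
          {q} ∪ (h1 ∪ h2) := by
        rw [hqq, r1, r2, union_self, pair_eq_singleton]
      rw [hu]
      change un1_T e lv o ({q} ∪ (h1 ∪ h2)) A + _ = un1_H e lv i ({q} ∪ (h1 ∪ h2)) A + _
      by_cases ho : o q.1 = i q.2
      · have hn : ¬ (q' = q ∧ o q.1 ≠ i q.2) := fun h => h.2 ho
        rw [if_neg hn]
        rw [ho] at P1
        have := Nat.add_right_cancel P1
        rw [this]
        simp only [ite_self]
      · have hp : q' = q ∧ o q.1 ≠ i q.2 := ⟨hqq, ho⟩
        rw [if_pos hp]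
        obtain ⟨y1, y2⟩ := hcd hqq ho
        rw [y1, y2] at P1
        exact P1
    · have P2 := un1_part e lv o i q' h1' h2' hlv c1' c2' p1' p2' d1' d12' A
      obtain ⟨x1, x2, x3⟩ := hcr hqq
      have hn : ¬ (q' = q ∧ o q.1 ≠ i q.2) := fun h => hqq h.1
      rw [if_neg hn]
      have hu : ({q, q'} : Finset (Fin n × Fin n)) ∪ (h1 ∪ h2 ∪ (h1' ∪ h2')) =
          ({q} ∪ (h1 ∪ h2)) ∪ ({q'} ∪ (h1' ∪ h2')) := by
        ext a
        simp only [mem_union, mem_insert, mem_singleton]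
        tauto
      have hD : Disjoint ({q} ∪ (h1 ∪ h2)) ({q'} ∪ (h1' ∪ h2')) := by
        rw [Finset.disjoint_left]
        intro a ha ha'
        rcases mem_union.1 ha with ha | ha
        · rw [mem_singleton] at ha
          rcases mem_union.1 ha' with ha' | ha'
          · rw [mem_singleton] at ha'
            exact hqq (ha'.symm.trans ha)
          · exact (hub a (mem_union_right _ ha')).2.1.1 (by rw [ha])
        · rcases mem_union.1 ha' with ha' | ha'
          · rw [mem_singleton] at ha'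
            exact (hub a (mem_union_left _ ha)).2.2.1 (by rw [ha'])
          · exact (dd hqq a ha a ha').1 rfl
      rw [hu]
      change un1_T e lv o (({q} ∪ (h1 ∪ h2)) ∪ ({q'} ∪ (h1' ∪ h2'))) A + _ =
        un1_H e lv i (({q} ∪ (h1 ∪ h2)) ∪ ({q'} ∪ (h1' ∪ h2'))) A + _
      rw [un1_Tu _ _ _ _ _ _ hD, un1_Hu _ _ _ _ _ _ hD]
      rw [x2, x3] at P2
      simp only [ite_self]
      omega

end Pool.Agent.MPd266dbE
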