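import Pool.Agent.Lib.MP_d266db_co.E.SpecF

/-!
# MP_d266db_co, E: all units
-/

set_option autoImplicit false

namespace Pool.Agent.MPd266dbE

open Finset Pool.Agent.MPd266db Pool.Agent.MPd266dbH

theorem unt_bij {α : Type} [DecidableEq α] (s t : Finset α) (h : s.card = t.card) :
    ∃ φ : α → α, (∀ x ∈ s, φ x ∈ t) ∧ (∀ x ∈ s, ∀ y ∈ s, φ x = φ y → x = y) ∧
      ∀ y ∈ t, ∃ x ∈ s, φ x = y := by
  have e := Finset.equivOfCardEq h
  refine ⟨fun x => if hx : x ∈ s then (e ⟨x, hx⟩).1 else x, ?_, ?_, ?_⟩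
  · intro x hx
    simp only [hx, dif_pos]
    exact (e ⟨x, hx⟩).2
  · intro x hx y hy hxy
    simp only [hx, hy, dif_pos] at hxy
    have h1 := e.injective (Subtype.ext hxy)
    exact congrArg Subtype.val h1
  · intro y hy
    refine ⟨(e.symm ⟨y, hy⟩).1, (e.symm ⟨y, hy⟩).2, ?_⟩
    simp only [(e.symm ⟨y, hy⟩).2, dif_pos, Subtype.coe_eta, Equiv.apply_symm_apply]

theorem unt_mem_hbU {n K : ℕ} {e : ℕ} {H1 H2 : ℕ → Fin K → Finset (Fin n × Fin n)}
    {z : Fin n × Fin n} : z ∈ hbU e H1 H2 ↔ ∃ m < e, ∃ a, z ∈ H1 m a ∨ z ∈ H2 m a := by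
  unfold hbU
  simp only [mem_biUnion, mem_range, mem_univ, true_and, mem_union]

/-- a pair of complementary hubs is a unit -/
theorem unt_un {n K e m : ℕ} {lv : Fin n → ℕ} {o i : Fin n → Fin K} {c0 d0 a : Fin K}
    {x y : Fin n × Fin n} (he : 1 ≤ e) (hm : m < e) (hx1 : lv x.1 = e) (hx2 : lv x.2 = m + 1)
    (hxo : o x.1 = a) (hxi : i x.2 = a) (hy1 : lv y.1 = m) (hy2 : lv y.2 = 0) (hyo : o y.1 = a)
    (hyi : i y.2 = a) (hxl : x.1 ≠ x.2) (hyl : y.1 ≠ y.2) :
    Un e lv o i c0 d0 ({x, y} : Finset (Fin n × Fin n)) 0 := by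
  classical
  have hxy : x ≠ y := by
    rintro rfl
    omega
  have b1 : bxo e lv o x.1 = bxi e lv i y.2 := by
    unfold bxo bxi tgp hgp
    rw [hxo, hyi, hx1, hy2]
    simp
  have b2 : bxo e lv o y.1 = bxi e lv i x.2 := by
    unfold bxo bxi tgp hgp
    rw [hyo, hxi, hy1, hx2]
    have h1 : min m e = m := by omega
    simp [h1]
  refine ⟨⟨x, by simp⟩, card_le_two.trans (by norm_num), ⟨?_, ?_, fun v => if v = x.2 ∨ v = y.2
    then 1 else 0, ?_⟩, by norm_num, ?_⟩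
  · intro q hq q' hq' h
    rw [mem_insert, mem_singleton] at hq hq'
    rcases hq with rfl | rfl <;> rcases hq' with rfl | rfl
    · rfl
    · have := congrArg lv h
      omega
    · have := congrArg lv h
      omega
    · rfl
  · intro q hq q' hq' h
    rw [mem_insert, mem_singleton] at hq hq'
    rcases hq with rfl | rfl <;> rcases hq' with rfl | rfl
    · rfl
    · have := congrArg lv h
      omega
    · have := congrArg lv h
      omega
    · rfl
  · intro q hq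
    rw [mem_insert, mem_singleton] at hq
    have h1 : x.1 ≠ y.2 := by
      intro h
      have := congrArg lv h
      omega
    have h2 : y.1 ≠ x.2 := by
      intro h
      have := congrArg lv h
      omega
    rcases hq with rfl | rfl
    · simp [hxl, h1]
    · simp [hyl, h2]
  · intro A
    rw [filter_insert, filter_singleton, filter_insert, filter_singleton, b1, b2]
    by_cases h1 : bxi e lv i y.2 = A <;> by_cases h2 : bxi e lv i x.2 = A
    · simp [h1, h2]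
    · simp [h1, h2]
    · simp [h1, h2]
    · simp [h1, h2]

theorem tUnt (hUnD : S_UnD) : S_Unt := by
  classical
  intro n K e d p Nh Δ D S o i c0 d0 lv H1 H2 hR hO hCD hLv he hS hH hDH hNh
  obtain ⟨𝓤, b, U1, U2, u1, u2, u3, u4, u5⟩ := hUnD n K e d p Nh Δ D S o i c0 d0 lv H1 H2 hR hO
    hCD hLv he hS hH hDH hNh
  -- the bijections
  have hcard : ∀ m, m < e → ∀ a, (H1 m a \ U1 m a).card = (H2 m a \ U2 m a).card := by
    intro m hm a
    obtain ⟨v1, v2, v3, v4⟩ := u5 m hm a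
    rw [card_sdiff_of_subset v1, card_sdiff_of_subset v2, (hH.s1 m hm a).2.1, (hH.s2 m hm a).2.1,
      v3, v4, hLv.bal m hm.le (m + 1) hm a]
  have hφ : ∀ (m : ℕ) (a : Fin K), ∃ φ : Fin n × Fin n → Fin n × Fin n, m < e →
      (∀ x ∈ H1 m a \ U1 m a, φ x ∈ H2 m a \ U2 m a) ∧
      (∀ x ∈ H1 m a \ U1 m a, ∀ y ∈ H1 m a \ U1 m a, φ x = φ y → x = y) ∧
      ∀ y ∈ H2 m a \ U2 m a, ∃ x ∈ H1 m a \ U1 m a, φ x = y := by
    intro m a
    by_cases hm : m < e
    · obtain ⟨φ, h⟩ := unt_bij _ _ (hcard m hm a)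
      exact ⟨φ, fun _ => h⟩
    · exact ⟨id, fun h => absurd h hm⟩
  choose φ hφ using hφ
  -- the facts on hubs
  have f1 : ∀ m < e, ∀ a, ∀ x ∈ H1 m a, lv x.1 = e ∧ lv x.2 = m + 1 ∧ o x.1 = a ∧ i x.2 = a ∧
      x.1 ≠ x.2 := by
    intro m hm a x hx
    obtain ⟨h1, -, -, h4⟩ := hH.s1 m hm a
    obtain ⟨h5, h6, h7⟩ := h4 x hx
    obtain ⟨h8, h9⟩ := hS x (h1 hx)
    exact ⟨h5, h6, h7, h8.symm.trans h7, h9⟩
  have f2 : ∀ m < e, ∀ a, ∀ x ∈ H2 m a, lv x.1 = m ∧ lv x.2 = 0 ∧ o x.1 = a ∧ i x.2 = a ∧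
      x.1 ≠ x.2 := by
    intro m hm a x hx
    obtain ⟨h1, -, -, h4⟩ := hH.s2 m hm a
    obtain ⟨h5, h6, h7⟩ := h4 x hx
    obtain ⟨h8, h9⟩ := hS x (h1 hx)
    exact ⟨h5, h6, h7, h8.symm.trans h7, h9⟩
  set 𝓝 : Finset (Finset (Fin n × Fin n)) := (range e).biUnion (fun m => univ.biUnion (fun a =>
    (H1 m a \ U1 m a).image (fun x => {x, φ m a x}))) with h𝓝
  have hN : ∀ u, u ∈ 𝓝 ↔ ∃ m < e, ∃ a, ∃ x ∈ H1 m a \ U1 m a, u = {x, φ m a x} := by
    intro u
    rw [h𝓝]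
    simp only [mem_biUnion, mem_range, mem_univ, true_and, mem_image]
    constructor
    · rintro ⟨m, hm, a, x, hx, rfl⟩
      exact ⟨m, hm, a, x, hx, rfl⟩
    · rintro ⟨m, hm, a, x, hx, rfl⟩
      exact ⟨m, hm, a, x, hx, rfl⟩
  -- new hubs are not in old units
  have g1 : ∀ m < e, ∀ a, ∀ x ∈ H1 m a \ U1 m a, x ∉ D ∪ hbU e U1 U2 := by
    intro m hm a x hx h
    rw [mem_sdiff] at hx
    obtain ⟨a1, a2, a3, -, -⟩ := f1 m hm a x hx.1
    rcases mem_union.mp h with h | h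
    · exact Finset.disjoint_left.mp hDH h (unt_mem_hbU.mpr ⟨m, hm, a, Or.inl hx.1⟩)
    · obtain ⟨m', hm', a', h' | h'⟩ := unt_mem_hbU.mp h
      · obtain ⟨b1, b2, b3, -, -⟩ := f1 m' hm' a' x ((u5 m' hm' a').1 h')
        have e1 : m' = m := by omega
        have e2 : a' = a := b3.symm.trans a3
        subst e1
        subst e2
        exact hx.2 h'
      · obtain ⟨b1, b2, b3, -, -⟩ := f2 m' hm' a' x ((u5 m' hm' a').2.1 h')
        omega
  have g2 : ∀ m < e, ∀ a, ∀ x ∈ H2 m a \ U2 m a, x ∉ D ∪ hbU e U1 U2 := by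
    intro m hm a x hx h
    rw [mem_sdiff] at hx
    obtain ⟨a1, a2, a3, -, -⟩ := f2 m hm a x hx.1
    rcases mem_union.mp h with h | h
    · exact Finset.disjoint_left.mp hDH h (unt_mem_hbU.mpr ⟨m, hm, a, Or.inr hx.1⟩)
    · obtain ⟨m', hm', a', h' | h'⟩ := unt_mem_hbU.mp h
      · obtain ⟨b1, b2, b3, -, -⟩ := f1 m' hm' a' x ((u5 m' hm' a').1 h')
        omega
      · obtain ⟨b1, b2, b3, -, -⟩ := f2 m' hm' a' x ((u5 m' hm' a').2.1 h')
        have e1 : m' = m := by omega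
        have e2 : a' = a := b3.symm.trans a3
        subst e1
        subst e2
        exact hx.2 h'
  have hold : ∀ u ∈ 𝓤, u ⊆ D ∪ hbU e U1 U2 := by
    intro u hu z hz
    rw [← u3]
    exact mem_biUnion.mpr ⟨u, hu, hz⟩
  have hON : ∀ u ∈ 𝓤, ∀ u' ∈ 𝓝, Disjoint u u' := by
    intro u hu u' hu'
    obtain ⟨m, hm, a, x, hx, rfl⟩ := (hN u').mp hu'
    rw [Finset.disjoint_left]
    intro z hz hz'
    rw [mem_insert, mem_singleton] at hz'
    rcases hz' with rfl | rfl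
    · exact g1 m hm a _ hx (hold u hu hz)
    · exact g2 m hm a _ ((hφ m a hm).1 x hx) (hold u hu hz)
  have hNN : ∀ u ∈ 𝓝, ∀ u' ∈ 𝓝, u ≠ u' → Disjoint u u' := by
    intro u hu u' hu' hne
    obtain ⟨m, hm, a, x, hx, rfl⟩ := (hN u).mp hu
    obtain ⟨m', hm', a', x', hx', rfl⟩ := (hN u').mp hu'
    have y1 := (hφ m a hm).1 x hx
    have y2 := (hφ m' a' hm').1 x' hx'
    obtain ⟨a1, a2, a3, -, -⟩ := f1 m hm a x (mem_sdiff.mp hx).1
    obtain ⟨a1', a2', a3', -, -⟩ := f1 m' hm' a' x' (mem_sdiff.mp hx').1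
    obtain ⟨b1, b2, b3, -, -⟩ := f2 m hm a _ (mem_sdiff.mp y1).1
    obtain ⟨b1', b2', b3', -, -⟩ := f2 m' hm' a' _ (mem_sdiff.mp y2).1
    rw [Finset.disjoint_left]
    intro z hz hz'
    rw [mem_insert, mem_singleton] at hz hz'
    rcases hz with h | h <;> rcases hz' with h' | h'
    · have e0 : x = x' := h.symm.trans h'
      subst e0
      have e1 : m = m' := by omega
      have e2 : a = a' := a3.symm.trans a3'
      subst e1
      subst e2
      exact hne rfl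
    · rw [← h, h', b2'] at a2
      omega
    · rw [← h', h, b2] at a2'
      omega
    · have e0 : φ m a x = φ m' a' x' := h.symm.trans h'
      rw [← e0] at b1' b3'
      have e1 : m = m' := b1.symm.trans b1'
      have e2 : a = a' := b3.symm.trans b3'
      subst e1
      subst e2
      have e3 := (hφ m a hm).2.1 x hx x' hx' e0
      subst e3
      exact hne rfl
  have hnot : ∀ u ∈ 𝓝, u ∉ 𝓤 := by
    intro u hu hu'
    have h1 := hON u hu' u hu
    rw [disjoint_self_iff_empty] at h1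
    obtain ⟨z, hz⟩ := (u1 u hu').ne
    rw [h1] at hz
    simp at hz
  refine ⟨𝓤 ∪ 𝓝, fun u => if u ∈ 𝓤 then b u else 0, ?_, ?_, ?_, ?_⟩
  · intro u hu
    beta_reduce
    rcases mem_union.mp hu with hu | hu
    · rw [if_pos hu]
      exact u1 u hu
    · rw [if_neg (hnot u hu)]
      obtain ⟨m, hm, a, x, hx, rfl⟩ := (hN u).mp hu
      have y1 := (hφ m a hm).1 x hx
      obtain ⟨a1, a2, a3, a4, a5⟩ := f1 m hm a x (mem_sdiff.mp hx).1
      obtain ⟨b1, b2, b3, b4, b5⟩ := f2 m hm a _ (mem_sdiff.mp y1).1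
      exact unt_un he hm a1 a2 a3 a4 b1 b2 b3 b4 a5 b5
  · intro u hu u' hu' hne
    rcases mem_union.mp hu with hu | hu <;> rcases mem_union.mp hu' with hu' | hu'
    · exact u2 u hu u' hu' hne
    · exact hON u hu u' hu'
    · exact (hON u' hu' u hu).symm
    · exact hNN u hu u' hu' hne
  · ext z
    rw [mem_biUnion]
    constructor
    · rintro ⟨u, hu, hz⟩
      rw [id] at hz
      rcases mem_union.mp hu with hu | hu
      · rcases mem_union.mp (hold u hu hz) with h | h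
        · exact mem_union_left _ h
        · apply mem_union_right
          obtain ⟨m, hm, a, h' | h'⟩ := unt_mem_hbU.mp h
          · exact unt_mem_hbU.mpr ⟨m, hm, a, Or.inl ((u5 m hm a).1 h')⟩
          · exact unt_mem_hbU.mpr ⟨m, hm, a, Or.inr ((u5 m hm a).2.1 h')⟩
      · apply mem_union_right
        obtain ⟨m, hm, a, x, hx, rfl⟩ := (hN u).mp hu
        rw [mem_insert, mem_singleton] at hz
        rcases hz with rfl | rfl
        · exact unt_mem_hbU.mpr ⟨m, hm, a, Or.inl (mem_sdiff.mp hx).1⟩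
        · exact unt_mem_hbU.mpr ⟨m, hm, a, Or.inr (mem_sdiff.mp ((hφ m a hm).1 x hx)).1⟩
    · intro hz
      have hold' : z ∈ D ∪ hbU e U1 U2 → ∃ u ∈ 𝓤 ∪ 𝓝, z ∈ id u := by
        intro h
        rw [← u3, mem_biUnion] at h
        obtain ⟨u, hu, hzu⟩ := h
        exact ⟨u, mem_union_left _ hu, hzu⟩
      rcases mem_union.mp hz with h | h
      · exact hold' (mem_union_left _ h)
      · obtain ⟨m, hm, a, h' | h'⟩ := unt_mem_hbU.mp h
        · by_cases hU : z ∈ U1 m a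
          · exact hold' (mem_union_right _ (unt_mem_hbU.mpr ⟨m, hm, a, Or.inl hU⟩))
          · refine ⟨{z, φ m a z}, mem_union_right _ ((hN _).mpr ⟨m, hm, a, z,
              mem_sdiff.mpr ⟨h', hU⟩, rfl⟩), ?_⟩
            simp
        · by_cases hU : z ∈ U2 m a
          · exact hold' (mem_union_right _ (unt_mem_hbU.mpr ⟨m, hm, a, Or.inr hU⟩))
          · obtain ⟨x, hx, hxz⟩ := (hφ m a hm).2.2 z (mem_sdiff.mpr ⟨h', hU⟩)
            refine ⟨{x, φ m a x}, mem_union_right _ ((hN _).mpr ⟨m, hm, a, x, hx, rfl⟩), ?_⟩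
            rw [hxz]
            simp
  · have hdis : Disjoint 𝓤 𝓝 := by
      rw [Finset.disjoint_left]
      intro u hu hu'
      exact hnot u hu' hu
    rw [sum_union hdis, ← u4]
    have h1 : ∑ u ∈ 𝓤, (if u ∈ 𝓤 then b u else 0) = ∑ u ∈ 𝓤, b u :=
      sum_congr rfl (fun u hu => if_pos hu)
    have h2 : ∑ u ∈ 𝓝, (if u ∈ 𝓤 then b u else 0) = 0 :=
      sum_eq_zero (fun u hu => if_neg (hnot u hu))
    rw [h1, h2, add_zero]

end Pool.Agent.MPd266dbE
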