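import Pool.Agent.Lib.MP_d266db_co.E.SpecG

/-!
# MP_d266db_co, E, WCx: the set `W` exists
-/

set_option autoImplicit false

namespace Pool.Agent.MPd266dbE

open Finset Pool.Agent.MPd266db Pool.Agent.MPd266dbH

theorem wcx_od_le {n : ℕ} (R : Finset (Fin n × Fin n)) (v : Fin n) : od R v ≤ n := by
  classical
  unfold od
  have h : (R.filter (fun e => e.1 = v)).card ≤ (univ : Finset (Fin n)).card := by
    apply card_le_card_of_injOn Prod.snd (fun _ _ => mem_coe.mpr (mem_univ _))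
    intro a ha b hb hab
    rw [mem_coe, mem_filter] at ha hb
    exact Prod.ext (ha.2.trans hb.2.symm) hab
  simpa using h

theorem wcx_cls {n K e r : ℕ} {R XL : Finset (Fin n × Fin n)} {o i : Fin n → Fin K}
    {lv : Fin n → ℕ} {θ lam δ g βt νt : ℝ} (hL : LvD R o i r e XL lv θ lam δ g βt νt)
    {l : ℕ} (hl : l ≤ e) (a : Fin K) :
    lam / (4 * (e + 1)) * n ≤ (univ.filter (fun v => lv v = l ∧ o v = a)).card := by
  obtain ⟨a', hT⟩ := hL.typ
  have h := hT l (Nat.lt_succ_of_le hl)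
  by_cases ha : a = a'
  · subst ha
    refine h.1.trans ?_
    apply Nat.cast_le.mpr
    apply card_le_card
    intro v hv
    rw [mem_filter] at hv ⊢
    exact ⟨hv.1, hv.2.1, hv.2.2.1⟩
  · refine (h.2 a ha).2.trans ?_
    apply Nat.cast_le.mpr
    apply card_le_card
    intro v hv
    rw [mem_filter] at hv ⊢
    exact ⟨hv.1, hv.2.1, hv.2.2.1⟩

theorem wcx_cnt {n K e r : ℕ} {R XL : Finset (Fin n × Fin n)} {o i : Fin n → Fin K}
    {lv : Fin n → ℕ} {θ lam δ g βt νt : ℝ} (hL : LvD R o i r e XL lv θ lam δ g βt νt)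
    (hθ : 0 < θ) {l l' : ℕ} (hl : l ≤ e) (hl' : l' ≤ e) (a : Fin K) :
    lam * θ * (n : ℝ) ^ 2 / (8 * ((e : ℝ) + 1) ^ 2) ≤
      ((own o i R).filter (fun q => lv q.1 = l ∧ lv q.2 = l' ∧ o q.1 = a)).card := by
  classical
  have h1 : ((own o i R).filter (fun q => lv q.1 = l ∧ lv q.2 = l' ∧ o q.1 = a)).card =
      ∑ v ∈ univ.filter (fun v => lv v = l ∧ o v = a),
        (((own o i R).filter (fun q => lv q.1 = l ∧ lv q.2 = l' ∧ o q.1 = a)).filter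
          (fun q => q.1 = v)).card := by
    apply card_eq_sum_card_fiberwise
    intro q hq
    rw [mem_coe, mem_filter] at hq ⊢
    exact ⟨mem_univ _, hq.2.1, hq.2.2.2⟩
  have h2 : ∀ v ∈ univ.filter (fun v => lv v = l ∧ o v = a),
      ((Nout (own o i R) v).filter (fun w => lv w = l')).card ≤
        (((own o i R).filter (fun q => lv q.1 = l ∧ lv q.2 = l' ∧ o q.1 = a)).filter
          (fun q => q.1 = v)).card := by
    intro v hv
    rw [mem_filter] at hv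
    apply card_le_card_of_injOn (fun w => (v, w))
    · intro w hw
      rw [mem_coe, mem_filter] at hw
      have hw1 := hw.1
      rw [Nout, mem_filter] at hw1
      rw [mem_coe, mem_filter, mem_filter]
      exact ⟨⟨hw1.2, hv.2.1, hw.2, hv.2.2⟩, rfl⟩
    · intro w _ w' _ hww
      exact (Prod.mk.inj hww).2
  have hk : (0 : ℝ) < (e : ℝ) + 1 := by positivity
  have h3 : ∀ v ∈ univ.filter (fun v => lv v = l ∧ o v = a), θ * n / (2 * ((e : ℝ) + 1)) ≤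
      ((((own o i R).filter (fun q => lv q.1 = l ∧ lv q.2 = l' ∧ o q.1 = a)).filter
          (fun q => q.1 = v)).card : ℝ) := by
    intro v hv
    have h4 := (hL.deg v l' hl').1
    have h5 : (((Nout (own o i R) v).filter (fun w => lv w = l')).card : ℝ) ≤
        ((((own o i R).filter (fun q => lv q.1 = l ∧ lv q.2 = l' ∧ o q.1 = a)).filter
          (fun q => q.1 = v)).card : ℝ) := Nat.cast_le.mpr (h2 v hv)
    refine le_trans ?_ h5
    rw [div_le_iff₀ (by positivity)]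
    linarith
  rw [h1]
  push_cast
  have h6 := Finset.sum_le_sum h3
  rw [sum_const, nsmul_eq_mul] at h6
  refine le_trans ?_ h6
  have h7 := wcx_cls hL hl a
  have h8 : 0 ≤ θ * n / (2 * ((e : ℝ) + 1)) := by positivity
  have h9 := mul_le_mul_of_nonneg_right h7 h8
  refine le_trans (le_of_eq ?_) h9
  field_simp
  ring

/-- numbers for the hubs -/
theorem wcx_num1 {k lt n : ℝ} {d C1 M0 : ℝ} (hk : 0 < k) (hn : 0 < n)
    (hd : 0 ≤ d) (hC1 : 128 * k ^ 2 ≤ C1 * lt) (hd1 : 64 * k ^ 2 * d ≤ lt * n)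
    (hM0 : lt * n ^ 2 ≤ 16 * k ^ 2 * M0) (hC0 : 0 ≤ C1) :
    2 * d * n * (C1 * d) + 2 * (2 * d * n) * n ≤ C1 * d * M0 := by
  have hk2 : 0 < k ^ 2 := by positivity
  have h1 : 4 * d * n ≤ M0 := by
    have : 16 * k ^ 2 * (4 * d * n) ≤ 16 * k ^ 2 * M0 := by
      calc 16 * k ^ 2 * (4 * d * n) = 64 * k ^ 2 * d * n := by ring
        _ ≤ lt * n * n := mul_le_mul_of_nonneg_right hd1 hn.le
        _ = lt * n ^ 2 := by ring
        _ ≤ _ := hM0
    exact le_of_mul_le_mul_left this (by positivity)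
  have h2 : 8 * n ^ 2 ≤ C1 * M0 := by
    have : 16 * k ^ 2 * (8 * n ^ 2) ≤ 16 * k ^ 2 * (C1 * M0) := by
      calc 16 * k ^ 2 * (8 * n ^ 2) = 128 * k ^ 2 * n ^ 2 := by ring
        _ ≤ C1 * lt * n ^ 2 := mul_le_mul_of_nonneg_right hC1 (by positivity)
        _ = C1 * (lt * n ^ 2) := by ring
        _ ≤ C1 * (16 * k ^ 2 * M0) := mul_le_mul_of_nonneg_left hM0 hC0
        _ = _ := by ring
    exact le_of_mul_le_mul_left this (by positivity)
  have h3 : C1 * d * (4 * d * n) ≤ C1 * d * M0 :=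
    mul_le_mul_of_nonneg_left h1 (mul_nonneg hC0 hd)
  have h4 : d * (8 * n ^ 2) ≤ d * (C1 * M0) := mul_le_mul_of_nonneg_left h2 hd
  nlinarith

/-- numbers for the cross arcs -/
theorem wcx_num2 {k ξ n w p Δ Δx X : ℝ} (hk : 0 < k) (hp : 0 ≤ p)
    (hΔ : 0 ≤ Δ) (hΔx : 0 ≤ Δx) (hw : 32 * k ^ 2 * w ≤ ξ * n) (hΔn : 51200 * k ^ 2 * Δ ≤ ξ * n)
    (hwx : w ≤ 800 * Δx) (hX : ξ * n * p ≤ 4 * k ^ 2 * X) :
    w * p * Δx + 2 * (w * p) * Δ ≤ Δx * X := by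
  have hk2 : 0 < k ^ 2 := by positivity
  have hpx : 0 ≤ p * Δx := mul_nonneg hp hΔx
  have h1 : p * Δx * (32 * k ^ 2 * w) ≤ p * Δx * (ξ * n) := mul_le_mul_of_nonneg_left hw hpx
  have h2 : p * Δx * (51200 * k ^ 2 * Δ) ≤ p * Δx * (ξ * n) := mul_le_mul_of_nonneg_left hΔn hpx
  have h3 : k ^ 2 * p * Δ * w ≤ k ^ 2 * p * Δ * (800 * Δx) :=
    mul_le_mul_of_nonneg_left hwx (mul_nonneg (mul_nonneg hk2.le hp) hΔ)
  have h4 : Δx * (ξ * n * p) ≤ Δx * (4 * k ^ 2 * X) := mul_le_mul_of_nonneg_left hX hΔx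
  have h6 : 0 ≤ p * Δx * (ξ * n) := le_trans (mul_nonneg hpx (by positivity)) h2
  have h5 : 4 * k ^ 2 * (w * p * Δx + 2 * (w * p) * Δ) ≤ 4 * k ^ 2 * (Δx * X) := by
    linarith
  exact le_of_mul_le_mul_left h5 (by positivity)

theorem wcx_div (m t c : ℕ) (h : m ≤ c * t) : m / t ≤ c := by
  apply Nat.div_le_of_le_mul
  rw [mul_comm]; exact h

theorem tWCx (hWst : S_Wst) (hGrd : S_Grd) (hHbX : S_HbX) (hSmB : S_SmB) (hCvP : S_CvP) :
    S_WCx := by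
  classical
  intro α θ lam βt νt ξ ω e hα hα1 hθ hθ1 hlam hlam1 hβ hβα hν hξ hω he1
  set k : ℝ := (e : ℝ) + 1 with hk
  have hk0 : 0 < k := by positivity
  have heR : (1 : ℝ) ≤ e := by exact_mod_cast he1
  have hlt : 0 < lam * θ := mul_pos hlam hθ
  set ω' : ℝ := min (min ω 1) (ξ / (32 * k ^ 2)) with hω'
  have hω'0 : 0 < ω' := lt_min (lt_min hω one_pos) (by positivity)
  obtain ⟨ω0, gW, x, g, n1, hω0, hgW, hx, hg, hW⟩ := hWst α θ lam βt νt ω' e hα hα1 hθ hθ1 hlam hβ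
    hβα hν hω'0 he1
  obtain ⟨C1, hC1⟩ : ∃ C1 : ℕ, C1 = ⌈128 * k ^ 2 / (lam * θ)⌉₊ + 1 := ⟨_, rfl⟩
  have hC1a : 128 * k ^ 2 ≤ (C1 : ℝ) * (lam * θ) := by
    have h1 : 128 * k ^ 2 / (lam * θ) ≤ (C1 : ℝ) := by
      rw [hC1]; push_cast
      exact (Nat.le_ceil _).trans (le_add_of_nonneg_right zero_le_one)
    rwa [div_le_iff₀ hlt] at h1
  have hC11 : 1 ≤ C1 := by rw [hC1]; exact Nat.le_add_left _ _
  obtain ⟨C3, hC3⟩ : ∃ C3 : ℕ, C3 = 1 + e * C1 := ⟨_, rfl⟩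
  have hC31 : 1 ≤ C3 := by rw [hC3]; exact Nat.le_add_right _ _
  obtain ⟨C4, hC4⟩ : ∃ C4 : ℕ, C4 = ⌈(C3 : ℝ) * (90 + 8 / gW)⌉₊ + 1 := ⟨_, rfl⟩
  have hC4a : (C3 : ℝ) * (90 + 8 / gW) + 1 ≤ (C4 : ℝ) := by
    rw [hC4]; push_cast
    linarith only [Nat.le_ceil ((C3 : ℝ) * (90 + 8 / gW))]
  have hC41 : 1 ≤ C4 := by rw [hC4]; exact Nat.le_add_left _ _
  have hC1R : (1 : ℝ) ≤ C1 := by exact_mod_cast hC11
  have hC3R : (1 : ℝ) ≤ C3 := by exact_mod_cast hC31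
  have hC4R : (1 : ℝ) ≤ C4 := by exact_mod_cast hC41
  have he0 : (0 : ℝ) < e := lt_of_lt_of_le one_pos heR
  obtain ⟨κd, hκd⟩ : ∃ κd : ℝ, κd = min (min (lam * θ / (64 * k ^ 2)) (x / (16 * e)))
    (min (ω0 / (20 * (e * C1))) (min (x / C4) (ω0 / (4 * C4)))) := ⟨_, rfl⟩
  have hκd0 : 0 < κd := by
    rw [hκd]
    refine lt_min (lt_min ?_ ?_) (lt_min ?_ (lt_min ?_ ?_)) <;> positivity
  have hκ1 : κd ≤ lam * θ / (64 * k ^ 2) := by
    rw [hκd]; exact (min_le_left _ _).trans (min_le_left _ _)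
  have hκ2 : κd ≤ x / (16 * e) := by
    rw [hκd]; exact (min_le_left _ _).trans (min_le_right _ _)
  have hκ3 : κd ≤ ω0 / (20 * (e * C1)) := by
    rw [hκd]; exact (min_le_right _ _).trans (min_le_left _ _)
  have hκ4 : κd ≤ x / C4 := by
    rw [hκd]; exact (min_le_right _ _).trans ((min_le_right _ _).trans (min_le_left _ _))
  have hκ5 : κd ≤ ω0 / (4 * C4) := by
    rw [hκd]; exact (min_le_right _ _).trans ((min_le_right _ _).trans (min_le_right _ _))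
  rw [le_div_iff₀ (by positivity)] at hκ1 hκ2 hκ3 hκ4 hκ5
  refine ⟨min (ω0 / 2) (κd / 2), g, min (x / 2) (gW / 4), ξ / (51200 * k ^ 2),
    n1 + ⌈2 / κd⌉₊ + ⌈800 / ω0⌉₊ + ⌈16 * k ^ 2 / (lam * θ)⌉₊ + 20 * C1 + ⌈48 / gW⌉₊ + 1,
    by positivity, hg, by positivity, by positivity, ?_⟩
  intro n hn K r p Δ R XL o i c0 d0 lv δ hK hOri hReg hαr hCD hpγ hLvD hXLR hXLq hXLd hΔζ hXLc
  have hn1 : n1 ≤ n := by omega
  have hnb : (2 / κd) ≤ n := (Nat.le_ceil _).trans (by exact_mod_cast (by omega : ⌈2 / κd⌉₊ ≤ n))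
  have hnc : (800 / ω0) ≤ n := (Nat.le_ceil _).trans (by exact_mod_cast (by omega : ⌈800 / ω0⌉₊ ≤ n))
  have hnd : (16 * k ^ 2 / (lam * θ)) ≤ n :=
    (Nat.le_ceil _).trans (by exact_mod_cast (by omega : ⌈16 * k ^ 2 / (lam * θ)⌉₊ ≤ n))
  have hne : 20 * C1 ≤ n := by omega
  have hnf : (48 / gW) ≤ n := (Nat.le_ceil _).trans (by exact_mod_cast (by omega : ⌈48 / gW⌉₊ ≤ n))
  have hng : 1 ≤ n := by omega
  rw [div_le_iff₀ hκd0] at hnb
  rw [div_le_iff₀ hω0] at hnc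
  rw [div_le_iff₀ hlt] at hnd
  rw [div_le_iff₀ hgW] at hnf
  have hnR : (1 : ℝ) ≤ n := by exact_mod_cast hng
  have hn0R : (0 : ℝ) < n := lt_of_lt_of_le one_pos hnR
  have hrn : r ≤ n := by
    rw [← (hReg ⟨0, hng⟩).1]
    exact wcx_od_le R _
  obtain ⟨w, hw1, hw2, hWo⟩ := hW n hn1 K r R XL o i lv δ hK hαr hrn hLvD
  -- the numbers
  have hwω : (w : ℝ) ≤ ω * n := hw2.trans (mul_le_mul_of_nonneg_right
    ((min_le_left _ _).trans (min_le_left _ _)) hn0R.le)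
  have hwn : (w : ℝ) ≤ n := by
    have h1 := hw2.trans (mul_le_mul_of_nonneg_right
      ((min_le_left _ _).trans (min_le_right _ _) : ω' ≤ 1) hn0R.le)
    rwa [one_mul] at h1
  have hwξ : 32 * k ^ 2 * w ≤ ξ * n := by
    have h1 := hw2.trans (mul_le_mul_of_nonneg_right (min_le_right _ _ : ω' ≤ ξ / (32 * k ^ 2))
      hn0R.le)
    rw [div_mul_eq_mul_div, le_div_iff₀ (by positivity)] at h1
    linarith only [h1]
  have hw800 : 800 ≤ w := by
    have : (800 : ℝ) ≤ w := by linarith only [hnc, hw1]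
    exact_mod_cast this
  obtain ⟨d, hd⟩ : ∃ d : ℕ, d = ⌊κd * n⌋₊ := ⟨_, rfl⟩
  have hdle : (d : ℝ) ≤ κd * n := by rw [hd]; exact Nat.floor_le (by positivity)
  have hdlt : κd * n < d + 1 := by rw [hd]; exact Nat.lt_floor_add_one _
  have hdge : κd * n / 2 ≤ d := by linarith only [hdlt, hnb]
  have hd1 : 1 ≤ d := by
    have : (1 : ℝ) ≤ d := by linarith only [hdge, hnb]
    exact_mod_cast this
  have hd0R : (0 : ℝ) ≤ d := Nat.cast_nonneg _
  have hd1R : (1 : ℝ) ≤ d := by exact_mod_cast hd1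
  have F1 : 64 * k ^ 2 * (d : ℝ) ≤ lam * θ * n := by
    have h1 : 64 * k ^ 2 * (d : ℝ) ≤ 64 * k ^ 2 * (κd * n) :=
      mul_le_mul_of_nonneg_left hdle (by positivity)
    have h2 := mul_le_mul_of_nonneg_right hκ1 hn0R.le
    linarith only [h1, h2]
  have F2 : 16 * (e : ℝ) * d ≤ x * n := by
    have h1 : 16 * (e : ℝ) * (d : ℝ) ≤ 16 * e * (κd * n) :=
      mul_le_mul_of_nonneg_left hdle (by positivity)
    have h2 := mul_le_mul_of_nonneg_right hκ2 hn0R.le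
    linarith only [h1, h2]
  have F3 : 20 * ((e : ℝ) * (C1 * d)) ≤ w := by
    have h1 : 20 * ((e : ℝ) * C1) * (d : ℝ) ≤ 20 * (e * C1) * (κd * n) :=
      mul_le_mul_of_nonneg_left hdle (by positivity)
    have h2 := mul_le_mul_of_nonneg_right hκ3 hn0R.le
    linarith only [h1, h2, hw1]
  have F4 : (C4 : ℝ) * d ≤ x * n := by
    have h1 : (C4 : ℝ) * (d : ℝ) ≤ C4 * (κd * n) :=
      mul_le_mul_of_nonneg_left hdle (by positivity)
    have h2 := mul_le_mul_of_nonneg_right hκ4 hn0R.le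
    linarith only [h1, h2]
  have F5 : 4 * ((C4 : ℝ) * d) ≤ w := by
    have h1 : 4 * (C4 : ℝ) * (d : ℝ) ≤ 4 * C4 * (κd * n) :=
      mul_le_mul_of_nonneg_left hdle (by positivity)
    have h2 := mul_le_mul_of_nonneg_right hκ5 hn0R.le
    linarith only [h1, h2, hw1]
  have F3n : 20 * (e * (C1 * d)) ≤ w := by exact_mod_cast F3
  have F5n : 4 * (C4 * d) ≤ w := by exact_mod_cast F5
  have hdh : d ≤ C4 * d := Nat.le_mul_of_pos_left d hC41
  -- hubs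
  obtain ⟨M0, hM0⟩ : ∃ M0 : ℕ, M0 = ⌊lam * θ * (n : ℝ) ^ 2 / (8 * k ^ 2)⌋₊ := ⟨_, rfl⟩
  have hM0le : (M0 : ℝ) ≤ lam * θ * (n : ℝ) ^ 2 / (8 * k ^ 2) := by
    rw [hM0]; exact Nat.floor_le (by positivity)
  have hM0ge : lam * θ * (n : ℝ) ^ 2 ≤ 16 * k ^ 2 * M0 := by
    have h1 : lam * θ * (n : ℝ) ^ 2 / (8 * k ^ 2) < M0 + 1 := by
      rw [hM0]; exact Nat.lt_floor_add_one _
    rw [div_lt_iff₀ (by positivity)] at h1
    have h2 : 16 * k ^ 2 ≤ lam * θ * (n : ℝ) ^ 2 := by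
      have h3 : lam * θ * n * 1 ≤ lam * θ * n * n :=
        mul_le_mul_of_nonneg_left hnR (by positivity)
      linarith only [h3, hnd]
    linarith only [h1, h2]
  have hH1 : 2 * d * n * (C1 * d) + 2 * (2 * d * n) * n ≤ C1 * d * M0 := by
    have := wcx_num1 hk0 hn0R hd0R hC1a F1 hM0ge (Nat.cast_nonneg _)
    exact_mod_cast this
  have hM0c : ∀ l ≤ e, ∀ l' ≤ e, ∀ a, M0 ≤
      ((own o i R).filter (fun q => lv q.1 = l ∧ lv q.2 = l' ∧ o q.1 = a)).card := by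
    intro l hl l' hl' a
    have h1 := hM0le.trans (wcx_cnt hLvD hθ hl hl' a)
    exact_mod_cast h1
  have hownS : ∀ q ∈ own o i R, o q.1 = i q.2 := by
    intro q hq; rw [own, mem_filter] at hq; exact hq.2
  obtain ⟨H1, H2, hHub, hHsub, hHdg, hHcard, hHdj⟩ := hHbX n K e (2 * d * n) (C1 * d) M0
    (own o i R) o i lv hownS (Nat.mul_pos hC11 hd1) hH1
    (fun m hm a => ⟨hM0c e le_rfl (m + 1) hm a, hM0c m hm.le 0 (Nat.zero_le _) a⟩)
  -- cross arcs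
  obtain ⟨Δx, hΔx⟩ : ∃ Δx : ℕ, Δx = w / 400 := ⟨_, rfl⟩
  have hΔx1 : 1 ≤ Δx := by omega
  have hwΔx : w ≤ 800 * Δx := by omega
  have hΔR : 51200 * k ^ 2 * (Δ : ℝ) ≤ ξ * n := by
    have h1 := hΔζ
    rw [div_mul_eq_mul_div, le_div_iff₀ (by positivity)] at h1
    linarith only [h1]
  have hXe : ξ * n * p ≤ 4 * k ^ 2 * ((XeL e lv XL).card : ℝ) := by
    have h1 : (XL.card : ℝ) ≤ 4 * (e + 1) ^ 2 * ((XeL e lv XL).card : ℝ) := by
      exact_mod_cast hLvD.xe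
    exact hXLc.trans h1
  have hXn : w * p * Δx + 2 * (w * p) * Δ ≤ Δx * (XeL e lv XL).card := by
    have := wcx_num2 (X := ((XeL e lv XL).card : ℝ)) (Δx := (Δx : ℝ)) (p := (p : ℝ)) hk0
      (Nat.cast_nonneg p) (Nat.cast_nonneg Δ) (Nat.cast_nonneg Δx) hwξ hΔR
      (by exact_mod_cast hwΔx) hXe
    exact_mod_cast this
  obtain ⟨XW, hXWs, hXWc, hXWd⟩ := hGrd n (w * p) Δx Δ (XeL e lv XL)
    (hXLd.mono (filter_subset _ _) le_rfl) hΔx1 hXn
  have hXWq : ∀ q ∈ XW, lv q.1 = e ∧ lv q.2 = 0 ∧ o q.1 = c0 ∧ i q.2 = d0 ∧ c0 ≠ d0 := by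
    intro q hq
    have h1 := hXWs hq
    rw [XeL, mem_filter] at h1
    exact ⟨h1.2.1, h1.2.2, hXLq q h1.1⟩
  have hdeg10 : ∀ v, 10 * (od XW v + od (hbU e H1 H2) v) ≤ w ∧
      10 * (idg XW v + idg (hbU e H1 H2) v) ≤ w := by
    intro v
    have h1 := hXWd v
    have h2 := hHdg v
    omega
  have hsum := hSmB n K e p w (2 * d * n) (C1 * d) (own o i R) XW o i c0 d0 lv H1 H2 hCD hLvD.lev
    he1 hownS hHub (fun q hq => ⟨(hXWq q hq).1, (hXWq q hq).2.1, (hXWq q hq).2.2.1,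
      (hXWq q hq).2.2.2.1⟩) hXWc (fun v => by have := hdeg10 v; omega)
  have hsize : (XW.card : ℝ) + (hbU e H1 H2).card ≤ x * (n : ℝ) ^ 2 := by
    have h1 : (XW.card : ℝ) ≤ x / 2 * (n : ℝ) ^ 2 := by
      rw [hXWc]; push_cast
      have h2 : (p : ℝ) ≤ x / 2 * n := hpγ.trans (mul_le_mul_of_nonneg_right (min_le_left _ _)
        hn0R.le)
      have h3 : (w : ℝ) * p ≤ n * (x / 2 * n) := mul_le_mul hwn h2 (Nat.cast_nonneg _) hn0R.le
      calc (w : ℝ) * p ≤ n * (x / 2 * n) := h3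
        _ = _ := by ring
    have h4 : ((hbU e H1 H2).card : ℝ) ≤ x / 2 * (n : ℝ) ^ 2 := by
      have h5 : (hbU e H1 H2).card ≤ 8 * e * d * n := by
        refine hHcard.trans ?_
        calc 2 * e * K * (2 * d * n) ≤ 2 * e * 2 * (2 * d * n) :=
              Nat.mul_le_mul_right _ (Nat.mul_le_mul_left _ hK)
          _ = 8 * e * d * n := by ring
      have h6 : ((hbU e H1 H2).card : ℝ) ≤ 8 * e * d * n := by exact_mod_cast h5
      have h7 := mul_le_mul_of_nonneg_right F2 hn0R.le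
      linarith only [h6, h7]
    linarith only [h1, h4]
  have hhx : ((C4 * d : ℕ) : ℝ) ≤ x * n := by push_cast; exact F4
  obtain ⟨Wo, hWos, hWod, hWoH⟩ := hWo XW (hbU e H1 H2) (C4 * d) hdeg10 hsize hsum hhx
  have hWoown : Wo ⊆ own o i R := hWos.trans (filter_subset _ _)
  have hdjHW : Disjoint (hbU e H1 H2) Wo := hHdj.mono_right hWos
  have hXWR : XW ⊆ R := hXWs.trans ((filter_subset _ _).trans hXLR)
  obtain ⟨s, hs⟩ : ∃ s : ℕ, s = w + d - C4 * d := ⟨_, rfl⟩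
  have hsh : s + C4 * d = w + d := by omega
  -- numbers of the covering
  obtain ⟨t0, ht0⟩ : ∃ t0 : ℕ, t0 = ⌊gW * n / 4⌋₊ := ⟨_, rfl⟩
  obtain ⟨C0, hC0⟩ : ∃ C0 : ℕ, C0 = ⌊gW * n / 2⌋₊ := ⟨_, rfl⟩
  have ht0le : (t0 : ℝ) ≤ gW * n / 4 := by rw [ht0]; exact Nat.floor_le (by positivity)
  have ht0lt : gW * n / 4 < t0 + 1 := by rw [ht0]; exact Nat.lt_floor_add_one _
  have hC0le : (C0 : ℝ) ≤ gW * n / 2 := by rw [hC0]; exact Nat.floor_le (by positivity)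
  have hC0lt : gW * n / 2 < C0 + 1 := by rw [hC0]; exact Nat.lt_floor_add_one _
  have ht0ge : gW * n / 8 ≤ t0 := by linarith only [ht0lt, hnf]
  have ht01 : 1 ≤ t0 := by
    have : (1 : ℝ) ≤ t0 := by linarith only [ht0ge, hnf]
    exact_mod_cast this
  have ht0C : t0 + 6 ≤ C0 + 1 := by
    have : (t0 : ℝ) + 6 ≤ C0 + 1 := by linarith only [ht0le, hC0lt, hnf]
    exact_mod_cast this
  have hCg : ((C0 + p : ℕ) : ℝ) ≤ gW * n := by
    push_cast
    have h2 : (p : ℝ) ≤ gW / 4 * n := hpγ.trans (mul_le_mul_of_nonneg_right (min_le_right _ _)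
        hn0R.le)
    linarith only [h2, hC0le, hnf]
  have hdhd : d + e * (C1 * d) = C3 * d := by rw [hC3]; ring
  have hT : (((n * (C3 * d)) / t0 : ℕ) : ℝ) ≤ 8 / gW * (C3 * d) := by
    have ht0p : (0 : ℝ) < t0 := by exact_mod_cast ht01
    have h1 : (((n * (C3 * d)) / t0 : ℕ) : ℝ) ≤ ((n * (C3 * d) : ℕ) : ℝ) / (t0 : ℝ) :=
      Nat.cast_div_le
    refine h1.trans ?_
    rw [div_le_iff₀ ht0p]
    push_cast
    have h2 : (n : ℝ) ≤ 8 / gW * t0 := by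
      rw [div_mul_eq_mul_div, le_div_iff₀ hgW]
      linarith only [ht0ge]
    calc (n : ℝ) * (C3 * d) ≤ (8 / gW * t0) * (C3 * d) :=
          mul_le_mul_of_nonneg_right h2 (by positivity)
      _ = _ := by ring
  have hnumR : 24 * ((C3 : ℝ) * d) + (((n * (C3 * d)) / t0 : ℕ) : ℝ) + d + 64 * (C3 * d) <
      C4 * d := by
    have h1 := mul_le_mul_of_nonneg_right hC4a hd0R
    have h2 : (1 : ℝ) ≤ C3 * d := one_le_mul_of_one_le_of_one_le hC3R hd1R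
    have h3 : ((C3 : ℝ) * (90 + 8 / gW) + 1) * d = 90 * (C3 * d) + 8 / gW * (C3 * d) + d := by ring
    linarith only [h1, h2, h3, hT]
  have hnumN : 24 * (C3 * d) + (n * (C3 * d)) / t0 + d + 64 * (C3 * d) < C4 * d := by
    exact_mod_cast hnumR
  have hnum0 : 24 * (d + e * (C1 * d)) + (n * (d + e * (C1 * d))) / t0 + d < C4 * d := by
    rw [hdhd]
    omega
  have hnNh : d * n + 20 * (C1 * d) ≤ 2 * d * n := by
    have h1 : 20 * C1 * d ≤ n * d := Nat.mul_le_mul_right _ hne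
    calc d * n + 20 * (C1 * d) = d * n + 20 * C1 * d := by ring
      _ ≤ d * n + n * d := Nat.add_le_add_left h1 _
      _ = 2 * d * n := by ring
  have hp1 : 1 ≤ p → 1 ≤ Δx ∧ 1 ≤ w * p / 8 ∧ w * p / 8 + 24 * Δx ≤ w * p / 4 + 1 ∧
      24 * (d + e * (C1 * d)) + (n * (d + e * (C1 * d))) / t0 + d +
        (4 * (d + e * (C1 * d)) * XW.card) / (w * p / 8) < C4 * d ∧
      C4 * d * p + w * p / 4 + 4 * Δx * p ≤ XW.card := by
    intro hp
    have hwp : w ≤ w * p := Nat.le_mul_of_pos_right w hp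
    refine ⟨hΔx1, by omega, by omega, ?_, ?_⟩
    · rw [hdhd, hXWc]
      have h1 : (4 * (C3 * d) * (w * p)) / (w * p / 8) ≤ 64 * (C3 * d) := by
        apply wcx_div
        have h2 : w * p ≤ 16 * (w * p / 8) := by omega
        calc 4 * (C3 * d) * (w * p) ≤ 4 * (C3 * d) * (16 * (w * p / 8)) :=
              Nat.mul_le_mul_left _ h2
          _ = 64 * (C3 * d) * (w * p / 8) := by ring
      omega
    · rw [hXWc]
      have h1 : 4 * (C4 * d * p) ≤ w * p := by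
        calc 4 * (C4 * d * p) = 4 * (C4 * d) * p := by ring
          _ ≤ w * p := Nat.mul_le_mul_right _ F5n
      have h2 : 400 * (Δx * p) ≤ w * p := by
        have h3 : 400 * Δx ≤ w := by omega
        calc 400 * (Δx * p) = 400 * Δx * p := by ring
          _ ≤ w * p := Nat.mul_le_mul_right _ h3
      have h4 : 4 * Δx * p = 4 * (Δx * p) := by ring
      rw [h4]
      omega
  have hcv := hCvP n K e p w d (C4 * d) s (e * (C1 * d)) (2 * d * n) (C1 * d) Δx C0 t0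
    (w * p / 4) (w * p / 8) R XW Wo o i c0 d0 lv H1 H2 gW hOri hCD hLvD.lev he1 hHub hHsub hHdg
    hnNh hWoown hdjHW hXWR hXWc hXWd hXWq hWod hWoH hsh ht01 ht0C hCg hnum0 hp1
  refine ⟨w, d, C4 * d, s, Wo, XW, hbU e H1 H2, ⟨hWos, hXWs, hXWc, hHsub, hdjHW, hWod, hsh,
    by omega, by omega, by omega, hcv⟩, hwω, ?_, ?_⟩
  · have h1 : min (ω0 / 2) (κd / 2) * n ≤ ω0 / 2 * n :=
      mul_le_mul_of_nonneg_right (min_le_left _ _) hn0R.le
    have h2 : (s : ℝ) + C4 * d = w + d := by exact_mod_cast hsh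
    linarith only [h1, h2, F5, hw1, hd0R]
  · have h1 : min (ω0 / 2) (κd / 2) * n ≤ κd / 2 * n :=
      mul_le_mul_of_nonneg_right (min_le_right _ _) hn0R.le
    linarith only [h1, hdge]

end Pool.Agent.MPd266dbE
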