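import Pool.Agent.Lib.MP_d266db_co.E.SpecF
import Pool.Agent.Lib.MP_d266db_co.Spec

/-!
# MP_d266db_co, E, WFa: a factor with degrees close to a constant
-/

set_option autoImplicit false

namespace Pool.Agent.MPd266dbE

open Finset Pool.Agent.MPd266db Pool.Agent.MPd266dbH

/-- the numerical part of the third case -/
theorem wfa_num {E F N ρ ρ' m ν σ x y : ℝ} (hEF : ν * N ^ 2 ≤ E + F)
    (hd : (ρ - m) * x - (ρ + m) * y ≤ E - F) (hF : 0 ≤ F) (hN : 0 ≤ N) (hxN : x ≤ N)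
    (hyN : y ≤ N) (hρ' : 0 < ρ') (hm : 0 ≤ m) (hσ : 0 ≤ σ) (h2 : ρ ≤ 2 * ρ') (h3 : ρ' < ρ)
    (h4 : 4 * (ρ * (2 * m * N + σ)) ≤ (ρ - ρ') * (ν * N ^ 2))
    (h5 : 4 * (m * N) + 4 * σ ≤ ν * N ^ 2) : ρ' * (x - y) + σ ≤ E := by
  have hmN : 0 ≤ m * N := mul_nonneg hm hN
  have hmx : m * x ≤ m * N := mul_le_mul_of_nonneg_left hxN hm
  have hmy : m * y ≤ m * N := mul_le_mul_of_nonneg_left hyN hm
  have hd2 : ρ * (x - y) - 2 * (m * N) ≤ E - F := by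
    have : (ρ - m) * x - (ρ + m) * y = ρ * (x - y) - (m * x + m * y) := by ring
    linarith
  rcases le_or_gt (x - y) 0 with ht | ht
  · have h6 : (2 * ρ' - ρ) * (x - y) ≤ 0 :=
      mul_nonpos_of_nonneg_of_nonpos (by linarith) ht
    linarith
  · rcases le_or_gt (2 * m * N + σ) ((ρ - ρ') * (x - y)) with h6 | h6
    · linarith
    · have hρ : 0 < ρ := by linarith
      have h7 : (ρ - ρ') * (4 * (ρ * (x - y))) ≤ (ρ - ρ') * (ν * N ^ 2) := by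
        have h8 : ρ * ((ρ - ρ') * (x - y)) ≤ ρ * (2 * m * N + σ) :=
          mul_le_mul_of_nonneg_left h6.le hρ.le
        have h9 : (ρ - ρ') * (4 * (ρ * (x - y))) = 4 * (ρ * ((ρ - ρ') * (x - y))) := by ring
        linarith
      have h8 : 4 * (ρ * (x - y)) ≤ ν * N ^ 2 := le_of_mul_le_mul_left h7 (by linarith)
      have h9 : (2 * ρ' - ρ) * (x - y) ≤ ρ * (x - y) :=
        mul_le_mul_of_nonneg_right (by linarith) ht.le
      linarith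

theorem wfa_od {n K : ℕ} {H : Finset (Fin n × Fin n)} {O I : Fin n → Fin K}
    {Et Eh : Finset (Fin n)} {a : Fin K}
    (h1 : ∀ q ∈ H, O q.1 = I q.2 ∧ q.1 ∉ Et ∧ q.2 ∉ Eh) {X Y : Finset (Fin n)}
    (hX : X ⊆ Cl O a \ Et) (hY : Y ⊆ Cl I a \ Eh) :
    ∑ v ∈ X, od H v = eb H X Y + eb H X ((Cl I a \ Eh) \ Y) := by
  rw [← eb_univ_right, ← eb_union_right _ _ disjoint_sdiff, union_sdiff_of_subset hY]
  unfold eb
  congr 1
  ext q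
  simp only [mem_filter, mem_univ, and_true, mem_sdiff]
  constructor
  · rintro ⟨h2, h3⟩
    have h4 := h1 q h2
    refine ⟨h2, h3, mem_filter.mpr ⟨mem_univ _, ?_⟩, h4.2.2⟩
    rw [← h4.1]
    exact (mem_filter.mp (mem_sdiff.mp (hX h3)).1).2
  · rintro ⟨h2, h3, _⟩
    exact ⟨h2, h3⟩

theorem wfa_id {n K : ℕ} {H : Finset (Fin n × Fin n)} {O I : Fin n → Fin K}
    {Et Eh : Finset (Fin n)} {a : Fin K}
    (h1 : ∀ q ∈ H, O q.1 = I q.2 ∧ q.1 ∉ Et ∧ q.2 ∉ Eh) {X Y : Finset (Fin n)}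
    (hX : X ⊆ Cl O a \ Et) (hY : Y ⊆ Cl I a \ Eh) :
    ∑ v ∈ Y, idg H v = eb H X Y + eb H ((Cl O a \ Et) \ X) Y := by
  rw [← eb_univ_left, ← eb_union_left _ _ disjoint_sdiff, union_sdiff_of_subset hX]
  unfold eb
  congr 1
  ext q
  simp only [mem_filter, mem_univ, true_and, mem_sdiff]
  constructor
  · rintro ⟨h2, h3⟩
    have h4 := h1 q h2
    refine ⟨h2, ⟨mem_filter.mpr ⟨mem_univ _, ?_⟩, h4.2.1⟩, h3⟩
    rw [h4.1]
    exact (mem_filter.mp (mem_sdiff.mp (hY h3)).1).2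
  · rintro ⟨h2, _, h3⟩
    exact ⟨h2, h3⟩

/-- the condition for one class -/
theorem wfa_cls {n K : ℕ} {H : Finset (Fin n × Fin n)} {O I : Fin n → Fin K}
    {Et Eh : Finset (Fin n)} {f g : Fin n → ℕ} {N ρ ρ' m β ν σ : ℝ} {a : Fin K}
    (h1 : ∀ q ∈ H, O q.1 = I q.2 ∧ q.1 ∉ Et ∧ q.2 ∉ Eh)
    (h2 : ∀ v, v ∉ Et → |(od H v : ℝ) - ρ| ≤ m) (h3 : ∀ v, v ∉ Eh → |(idg H v : ℝ) - ρ| ≤ m)
    (h6 : ∀ v, v ∉ Et → ρ' ≤ 2 * f v ∧ (f v : ℝ) ≤ ρ')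
    (h7 : ∀ v, v ∉ Eh → ρ' ≤ 2 * g v ∧ (g v : ℝ) ≤ ρ')
    (h8 : ∑ v ∈ Cl O a \ Et, f v = ∑ v ∈ Cl I a \ Eh, g v)
    (h10 : ∑ v ∈ univ \ Eh, (ρ' - g v) ≤ σ)
    (h11 : ((Cl O a).card : ℝ) ≤ N) (h12 : ((Cl I a).card : ℝ) ≤ N)
    (h13 : ∀ X Y : Finset (Fin n), X ⊆ Cl O a \ Et → Y ⊆ Cl I a \ Eh →
      β * N ≤ (X.card : ℝ) + ((Cl I a \ Eh) \ Y).card →
      β * N ≤ (((Cl O a \ Et) \ X).card : ℝ) + Y.card →
      ν * N ^ 2 ≤ (eb H X Y : ℝ) + eb H ((Cl O a \ Et) \ X) ((Cl I a \ Eh) \ Y))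
    (hρ' : 0 < ρ') (hm : 0 ≤ m) (hσ : 0 ≤ σ) (hr2 : ρ ≤ 2 * ρ') (hrm : ρ' + m ≤ ρ)
    (hr3 : ρ' < ρ) (hβ : 2 * (β * N) ≤ ρ')
    (hr4 : 4 * (ρ * (2 * m * N + σ)) ≤ (ρ - ρ') * (ν * N ^ 2))
    (hr5 : 4 * (m * N) + 4 * σ ≤ ν * N ^ 2) {X Y : Finset (Fin n)}
    (hX : X ⊆ Cl O a \ Et) (hY : Y ⊆ Cl I a \ Eh) :
    (∑ v ∈ X, (f v : ℝ)) ≤ eb H X Y + ∑ v ∈ (Cl I a \ Eh) \ Y, (g v : ℝ) := by
  have hN : 0 ≤ N := le_trans (Nat.cast_nonneg _) h11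
  have hXE : ∀ v ∈ X, v ∉ Et := fun v hv => (mem_sdiff.mp (hX hv)).2
  have hYE : ∀ v ∈ Y, v ∉ Eh := fun v hv => (mem_sdiff.mp (hY hv)).2
  have hBE : ∀ v ∈ (Cl I a \ Eh) \ Y, v ∉ Eh := fun v hv =>
    (mem_sdiff.mp (mem_sdiff.mp hv).1).2
  have hAE : ∀ v ∈ (Cl O a \ Et) \ X, v ∉ Et := fun v hv =>
    (mem_sdiff.mp (mem_sdiff.mp hv).1).2
  have hfX : (∑ v ∈ X, (f v : ℝ)) ≤ ρ' * X.card := by
    calc (∑ v ∈ X, (f v : ℝ)) ≤ ∑ _v ∈ X, ρ' := sum_le_sum (fun v hv => (h6 v (hXE v hv)).2)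
      _ = ρ' * X.card := by rw [sum_const, nsmul_eq_mul]; ring
  have hgY : (∑ v ∈ Y, (g v : ℝ)) ≤ ρ' * Y.card := by
    calc (∑ v ∈ Y, (g v : ℝ)) ≤ ∑ _v ∈ Y, ρ' := sum_le_sum (fun v hv => (h7 v (hYE v hv)).2)
      _ = ρ' * Y.card := by rw [sum_const, nsmul_eq_mul]; ring
  have hgB : ρ' / 2 * (((Cl I a \ Eh) \ Y).card : ℝ) ≤ ∑ v ∈ (Cl I a \ Eh) \ Y, (g v : ℝ) := by
    calc ρ' / 2 * (((Cl I a \ Eh) \ Y).card : ℝ) = ∑ _v ∈ (Cl I a \ Eh) \ Y, ρ' / 2 := by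
          rw [sum_const, nsmul_eq_mul]; ring
      _ ≤ _ := sum_le_sum (fun v hv => by linarith [(h7 v (hBE v hv)).1])
  have hfA : ρ' / 2 * (((Cl O a \ Et) \ X).card : ℝ) ≤ ∑ v ∈ (Cl O a \ Et) \ X, (f v : ℝ) := by
    calc ρ' / 2 * (((Cl O a \ Et) \ X).card : ℝ) = ∑ _v ∈ (Cl O a \ Et) \ X, ρ' / 2 := by
          rw [sum_const, nsmul_eq_mul]; ring
      _ ≤ _ := sum_le_sum (fun v hv => by linarith [(h6 v (hAE v hv)).1])
  have hgB2 : ρ' * (((Cl I a \ Eh) \ Y).card : ℝ) - σ ≤ ∑ v ∈ (Cl I a \ Eh) \ Y, (g v : ℝ) := by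
    have h14 : ∑ v ∈ (Cl I a \ Eh) \ Y, (ρ' - g v) ≤ ∑ v ∈ univ \ Eh, (ρ' - g v) := by
      apply sum_le_sum_of_subset_of_nonneg
      · intro v hv
        exact mem_sdiff.mpr ⟨mem_univ _, hBE v hv⟩
      · intro v hv _
        linarith [(h7 v (mem_sdiff.mp hv).2).2]
    rw [sum_sub_distrib, sum_const, nsmul_eq_mul] at h14
    linarith
  have hodX : (∑ v ∈ X, (od H v : ℝ)) = eb H X Y + eb H X ((Cl I a \ Eh) \ Y) := by
    exact_mod_cast wfa_od h1 hX hY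
  have hidY : (∑ v ∈ Y, (idg H v : ℝ)) = eb H X Y + eb H ((Cl O a \ Et) \ X) Y := by
    exact_mod_cast wfa_id h1 hX hY
  have hidB : (∑ v ∈ (Cl I a \ Eh) \ Y, (idg H v : ℝ)) =
      eb H X ((Cl I a \ Eh) \ Y) + eb H ((Cl O a \ Et) \ X) ((Cl I a \ Eh) \ Y) := by
    exact_mod_cast wfa_id h1 hX (sdiff_subset (s := Cl I a \ Eh) (t := Y))
  have hodX2 : (ρ - m) * X.card ≤ ∑ v ∈ X, (od H v : ℝ) := by
    calc (ρ - m) * X.card = ∑ _v ∈ X, (ρ - m) := by rw [sum_const, nsmul_eq_mul]; ring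
      _ ≤ _ := sum_le_sum (fun v hv => by linarith [(abs_le.mp (h2 v (hXE v hv))).1])
  have hidY2 : (ρ - m) * Y.card ≤ ∑ v ∈ Y, (idg H v : ℝ) := by
    calc (ρ - m) * Y.card = ∑ _v ∈ Y, (ρ - m) := by rw [sum_const, nsmul_eq_mul]; ring
      _ ≤ _ := sum_le_sum (fun v hv => by linarith [(abs_le.mp (h3 v (hYE v hv))).1])
  have hidB2 : (∑ v ∈ (Cl I a \ Eh) \ Y, (idg H v : ℝ)) ≤
      (ρ + m) * (((Cl I a \ Eh) \ Y).card : ℝ) := by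
    calc (∑ v ∈ (Cl I a \ Eh) \ Y, (idg H v : ℝ)) ≤ ∑ _v ∈ (Cl I a \ Eh) \ Y, (ρ + m) :=
          sum_le_sum (fun v hv => by linarith [(abs_le.mp (h3 v (hBE v hv))).2])
      _ = _ := by rw [sum_const, nsmul_eq_mul]; ring
  have hx0 : (0 : ℝ) ≤ X.card := Nat.cast_nonneg _
  have hy0 : (0 : ℝ) ≤ Y.card := Nat.cast_nonneg _
  have hb0 : (0 : ℝ) ≤ (((Cl I a \ Eh) \ Y).card : ℝ) := Nat.cast_nonneg _
  have ha0 : (0 : ℝ) ≤ (((Cl O a \ Et) \ X).card : ℝ) := Nat.cast_nonneg _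
  rcases le_or_gt (2 * (X.card : ℝ)) ρ' with hc1 | hc1
  · -- (i)
    have e1 : (eb H X ((Cl I a \ Eh) \ Y) : ℝ) ≤ X.card * (((Cl I a \ Eh) \ Y).card : ℝ) := by
      exact_mod_cast eb_le_card_mul _ _ _
    have e2 : (X.card : ℝ) * (((Cl I a \ Eh) \ Y).card : ℝ) ≤
        ρ' / 2 * (((Cl I a \ Eh) \ Y).card : ℝ) :=
      mul_le_mul_of_nonneg_right (by linarith) hb0
    have e3 : ρ' * X.card ≤ (ρ - m) * X.card := mul_le_mul_of_nonneg_right (by linarith) hx0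
    linarith
  rcases le_or_gt (2 * (Y.card : ℝ)) ρ' with hc2 | hc2
  · -- (ii)
    have e1 : (eb H ((Cl O a \ Et) \ X) Y : ℝ) ≤ (((Cl O a \ Et) \ X).card : ℝ) * Y.card := by
      exact_mod_cast eb_le_card_mul _ _ _
    have e2 : (((Cl O a \ Et) \ X).card : ℝ) * Y.card ≤
        (((Cl O a \ Et) \ X).card : ℝ) * (ρ' / 2) :=
      mul_le_mul_of_nonneg_left (by linarith) ha0
    have e3 : ρ' * Y.card ≤ (ρ - m) * Y.card := mul_le_mul_of_nonneg_right (by linarith) hy0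
    have e4 : ∑ v ∈ (Cl O a \ Et) \ X, (f v : ℝ) + ∑ v ∈ X, (f v : ℝ) =
        ∑ v ∈ Cl O a \ Et, (f v : ℝ) := sum_sdiff hX
    have e5 : ∑ v ∈ (Cl I a \ Eh) \ Y, (g v : ℝ) + ∑ v ∈ Y, (g v : ℝ) =
        ∑ v ∈ Cl I a \ Eh, (g v : ℝ) := sum_sdiff hY
    have e6 : ∑ v ∈ Cl O a \ Et, (f v : ℝ) = ∑ v ∈ Cl I a \ Eh, (g v : ℝ) := by
      exact_mod_cast h8
    linarith
  · -- (iii)
    have e1 := h13 X Y hX hY (by linarith) (by linarith)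
    have e2 : (X.card : ℝ) ≤ N := le_trans (Nat.cast_le.mpr (card_le_card
      (hX.trans sdiff_subset))) h11
    have e3 : (((Cl I a \ Eh) \ Y).card : ℝ) ≤ N := le_trans (Nat.cast_le.mpr (card_le_card
      (sdiff_subset.trans sdiff_subset))) h12
    have e4 := wfa_num (E := (eb H X Y : ℝ)) (F := (eb H ((Cl O a \ Et) \ X)
      ((Cl I a \ Eh) \ Y) : ℝ)) e1 (x := (X.card : ℝ)) (y := (((Cl I a \ Eh) \ Y).card : ℝ))
      (ρ := ρ) (m := m) (by linarith) (Nat.cast_nonneg _) hN e2 e3 hρ' hm hσ hr2 hr3 hr4 hr5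
    linarith

theorem tWFa (hFac : S_Fac) : S_WFa := by
  classical
  intro n K H O I Et Eh f g N ρ ρ' m β ν σ h1 h2 h3 h4 h5 h6 h7 h8 h9 h10 h11 h12 h13 hρ' hm hσ
    hr2 hrm hr3 hβ hr4 hr5
  have hfE : ∀ (a : Fin K) (X : Finset (Fin n)), ∑ v ∈ X ∩ Cl O a, f v =
      ∑ v ∈ X ∩ (Cl O a \ Et), f v := by
    intro a X
    symm
    apply sum_subset (inter_subset_inter (subset_refl _) sdiff_subset)
    intro v hv hv2
    apply h4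
    by_contra h
    exact hv2 (mem_inter.mpr ⟨(mem_inter.mp hv).1, mem_sdiff.mpr ⟨(mem_inter.mp hv).2, h⟩⟩)
  have hsum8 : ∀ a, ∑ v ∈ Cl O a \ Et, f v = ∑ v ∈ Cl I a \ Eh, g v := by
    intro a
    have e1 : ∑ v ∈ Cl O a \ Et, f v = ∑ v ∈ Cl O a, f v := by
      apply sum_subset sdiff_subset
      intro v hv hv2
      apply h4
      by_contra h
      exact hv2 (mem_sdiff.mpr ⟨hv, h⟩)
    have e2 : ∑ v ∈ Cl I a \ Eh, g v = ∑ v ∈ Cl I a, g v := by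
      apply sum_subset sdiff_subset
      intro v hv hv2
      apply h5
      by_contra h
      exact hv2 (mem_sdiff.mpr ⟨hv, h⟩)
    rw [e1, e2, h8]
  have hspl : ∀ (X : Finset (Fin n)), ∑ v ∈ X, f v = ∑ a, ∑ v ∈ X ∩ Cl O a, f v := by
    intro X
    rw [← sum_fiberwise X O f]
    apply sum_congr rfl
    intro a _
    apply sum_congr ?_ (fun _ _ => rfl)
    ext v
    simp [Cl]
  have hcls : ∀ (a : Fin K) (X Y : Finset (Fin n)), ∑ v ∈ X ∩ (Cl O a \ Et), f v ≤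
      eb H (X ∩ (Cl O a \ Et)) (Y ∩ (Cl I a \ Eh)) +
        ∑ v ∈ (Cl I a \ Eh) \ (Y ∩ (Cl I a \ Eh)), g v := by
    intro a X Y
    have e1 := wfa_cls (a := a) h1 h2 h3 h6 h7 (hsum8 a) h10 (h11 a) (h12 a) (h13 a) hρ' hm hσ hr2
      hrm hr3 hβ hr4 hr5 (X := X ∩ (Cl O a \ Et)) (Y := Y ∩ (Cl I a \ Eh)) inter_subset_right
      inter_subset_right
    exact_mod_cast e1
  apply hFac n H f g
  · rw [← sum_fiberwise univ O f, ← sum_fiberwise univ I g]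
    apply sum_congr rfl
    intro a _
    exact h8 a
  · intro X Y
    rw [hspl X]
    -- the arcs
    have e1 : ∑ a, eb H (X ∩ (Cl O a \ Et)) (Y ∩ (Cl I a \ Eh)) ≤ eb H X Y := by
      unfold eb
      rw [← card_biUnion]
      · apply card_le_card
        intro q hq
        obtain ⟨a, _, hq⟩ := mem_biUnion.mp hq
        obtain ⟨g1, g2, g3⟩ := mem_filter.mp hq
        exact mem_filter.mpr ⟨g1, (mem_inter.mp g2).1, (mem_inter.mp g3).1⟩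
      · intro a _ b _ hab
        rw [Function.onFun, Finset.disjoint_left]
        intro q g1 g2
        have g3 := (mem_filter.mp (mem_sdiff.mp (mem_inter.mp (mem_filter.mp g1).2.1).2).1).2
        have g4 := (mem_filter.mp (mem_sdiff.mp (mem_inter.mp (mem_filter.mp g2).2.1).2).1).2
        exact hab (g3.symm.trans g4)
    have e2 : ∑ a, ∑ v ∈ (Cl I a \ Eh) \ (Y ∩ (Cl I a \ Eh)), g v ≤ ∑ v ∈ Yᶜ, g v := by
      rw [← sum_biUnion]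
      · apply sum_le_sum_of_subset
        intro v hv
        obtain ⟨a, _, hv⟩ := mem_biUnion.mp hv
        rw [mem_compl]
        intro hY
        exact (mem_sdiff.mp hv).2 (mem_inter.mpr ⟨hY, (mem_sdiff.mp hv).1⟩)
      · intro a _ b _ hab
        rw [Function.onFun, Finset.disjoint_left]
        intro v g1 g2
        have g3 := (mem_filter.mp (mem_sdiff.mp (mem_sdiff.mp g1).1).1).2
        have g4 := (mem_filter.mp (mem_sdiff.mp (mem_sdiff.mp g2).1).1).2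
        exact hab (g3.symm.trans g4)
    calc ∑ a, ∑ v ∈ X ∩ Cl O a, f v = ∑ a, ∑ v ∈ X ∩ (Cl O a \ Et), f v :=
          sum_congr rfl (fun a _ => hfE a X)
      _ ≤ ∑ a, (eb H (X ∩ (Cl O a \ Et)) (Y ∩ (Cl I a \ Eh)) +
        ∑ v ∈ (Cl I a \ Eh) \ (Y ∩ (Cl I a \ Eh)), g v) := sum_le_sum (fun a _ => hcls a X Y)
      _ = ∑ a, eb H (X ∩ (Cl O a \ Et)) (Y ∩ (Cl I a \ Eh)) +
        ∑ a, ∑ v ∈ (Cl I a \ Eh) \ (Y ∩ (Cl I a \ Eh)), g v := sum_add_distrib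
      _ ≤ _ := Nat.add_le_add e1 e2

end Pool.Agent.MPd266dbE
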