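import Pool.Agent.Lib.MP_d266db_co.E.Defs

/-!
# MP_d266db_co, E, SpecA: Hamilton cycles which contain a given linear forest

Every `S_...` is a statement to be proved in its own file `Pool/Agent/Lib/MP_d266db_co/E/....lean`;
the docstring contains the complete proof.
-/

set_option autoImplicit false

namespace Pool.Agent.MPd266dbE

open Finset Pool.Agent.MPd266db Pool.Agent.MPd266dbH

/-- (about 120 lines; uses `S_NrS`) **A permutation inside the classes.**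

Proof.  Hall's theorem (`Finset.all_card_le_biUnion_card_iff_exists_injective`) for the sets
`t v = {w : (v, w) ∈ S}`.  Let `X` be a set of vertices and `N(X)` the union of the `t v`, `v ∈ X`.
`t v ⊆ Cl i (o v)`, so `N(X)` is the disjoint union of the sets `N(X ∩ Cl o a) ⊆ Cl i a` and it is enough
to show `|X| ≤ |N(X)|` for `X ⊆ Cl o a`.  Suppose `|N| < |X|` for `N = N(X)`.  `X` is nonempty, so
`|N| ≥ θ n` and `|X| ≥ θ n`.  Let `Y = Cl i a \ N`; it is nonempty as `|N| < |X| ≤ |Cl o a| = |Cl i a|`;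
`eb S X Y = 0`.  An element `y ∈ Y` has all its in-neighbours (at least `θ n`) in `Cl o a \ X`, so
`|Cl o a \ X| ≥ θ n`.  As `Cl i a \ Y = N`, `Rob` gives (`β ≤ θ`)
`ν n² ≤ eb S X Y + eb S (Cl o a \ X) N = eb S (Cl o a \ X) N`.  All out-neighbours of `X` are in `N`, so by
`S_NrS` `eb S X N = ∑_{v ∈ X} od v ≥ ρ |X| - 2 g n²`, and all in-neighbours of `N` are in `Cl o a`, so
`eb S X N + eb S (Cl o a \ X) N = ∑_{w ∈ N} idg w ≤ ρ |N| + 2 g n²`.  Together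
`(ν - 4 g) n² ≤ ρ (|N| - |X|) < 0` (`ρ ≥ θ n > 0`), a contradiction.  So there is an injective
`f : Fin n → Fin n` with `(v, f v) ∈ S`; it is bijective.  (`g ≥ 0` because a cardinality is `≤ g n`.) -/
def S_Hal : Prop :=
  ∀ (n K : ℕ) (S : Finset (Fin n × Fin n)) (o i : Fin n → Fin K) (θ ρ g β ν : ℝ),
    1 ≤ n → MHyp S o i θ ρ g β ν → 0 < θ → β ≤ θ → 4 * g ≤ ν →
    (∀ a, (Cl o a).card = (Cl i a).card) → ∃ σ : Equiv.Perm (Fin n), ∀ v, (v, σ v) ∈ S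

/-- (about 200 lines; uses `S_MinC`, `S_Cnt`, `S_Fix`, `S_VTs`; this is `S_XM` for `U = univ` with `1` in the
place of `cyc σ`; see `H/XM.lean`, whose proof can be copied) **All own tails of a class in one cycle.**

Proof.  Let `ℓ' = 4 ℓ + 6`.  (0) as in `S_XM`: `XInv` is preserved by `S_Fix` and `S_VTs`.
(1) Virtual arcs as in `S_XM`: we get `(ρ1, Q1, ∅)`, `|Q1| ≤ ℓ' |V|`.
(2) `S_MinC` gives `ρ2` with `XInv` and `XTyp`.  Apply `S_Cnt` to `ρ2` with `U = univ` and the permutation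
`finRotate n` in the place of `σ` (the hypothesis `∀ v ∉ univ, ...` is vacuous); all vertices are in one
cycle of `finRotate n`, so `cyc (finRotate n) ≤ 1` (`cyc_le` with a set of at most one element).  So
`cyc ρ2 ≤ t := k + ℓ'|V| + 2hk + |univ \ ⋃ X| + 1 + 8x ℓ'|V| / y`.
(3) As in `S_XM`: induction on `j` with `8 (|Q| + ℓ' j) ≤ ν k y`. -/
def S_XM0 : Prop :=
  ∀ (n K k : ℕ) (S : Finset (Fin n × Fin n)) (o i : Fin n → Fin K) (cl : Fin k → Fin K)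
    (X Y : Fin k → Finset (Fin n)) (Γ : Fin k → Fin k → Prop) (h x y ℓ : ℕ) (d c ν : ℝ),
    XSys S o i cl X Y Γ h x y d c ν → 0 < d → d ≤ 1 → 0 < ν → ν ≤ c → RPp (ν / 2) ℓ → 1 ≤ k →
    1 ≤ h → 32 * (h : ℝ) ≤ d ^ 2 * x → 4 * (ℓ + 1) * (12 * h + 2) ≤ y → y ≤ x →
    ∀ (σ ρ0 : Equiv.Perm (Fin n)) (V : Finset (Fin n)), (∀ v, o v = i (σ v)) →
      XInv S o i X Y σ ρ0 univ ∅ V →
      8 * ((4 * ℓ + 6 : ℝ) * V.card + (4 * ℓ + 6) * (k + (4 * ℓ + 6) * V.card + 2 * h * k +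
        (univ \ univ.biUnion X).card + 1 + 8 * x * ((4 * ℓ + 6) * V.card) / y)) ≤ ν * k * y →
      ∃ ρ : Equiv.Perm (Fin n), (∀ v, ρ v = σ v ∨ (v, ρ v) ∈ S) ∧
        ∀ u v, o u = i (ρ u) → o v = i (ρ v) → o u = o v → ρ.SameCycle u v

/-- (about 150 lines; uses `S_NPM`, `S_Ext`; see `H/Rmt.lean`) **Rematching everything.**

Proof.  `h = ⌈β1 s⌉` (`≥ 1`), `h ≤ β1 s + 1 ≤ ε s/16 + ε s/16 = ε s/8`.  By `dens` for `Γ p p` (`loop`),
`S_NPM` with this `h` applies to `A = T p`, `B = H p` (`eb S A' B' ≥ d |A'| |B'| > 0`): `X p ⊆ T p`, `φ_p` with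
`|X p| ≥ s - h ≥ (1 - ε/8) s` (`|T p| = |H p| = s`).  Let `Y p = φ_p(X p)`.  Let `Z = ⋃ X p`, `φ = φ_p` on `X p`;
the `X p` are disjoint and the `Y p` are disjoint, so `φ` is injective on `Z`, `(v, φ v) ∈ S`,
`i (φ v) = cl p = o v`.  `S_Ext` with `U = univ` gives `ρ0` with `ρ0 = φ` on `Z` and `o v = i (ρ0 v)` for all
`v`.  Let `V = univ \ Z`.  `XInv` (with `U = univ`, `Q = ∅`): `st`: `ρ0 v = φ v ∈ Y p`; `off` is vacuous; `arc`:
`v ∉ V` is in some `X p`; `vir`: `S_Ext`; `cro` is vacuous.  `|V| = n - ∑ |X p| ≤ n - (1 - ε/8) k s ≤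
n - (1 - ε/8)² n ≤ (ε/4) n` by `cov` (`(1 - ε/8) n ≤ k s`).  Out-neighbours of `v`: at least `θ n`, at
most `n - ∑ |Y p| ≤ (ε/4) n` of them are in no `Y p`; so `∑_p |{w ∈ Y p : (v, w) ∈ S}| ≥ θ n - (ε/4) n ≥ θ n / 2`
as `ε ≤ θ/4`.  The same for the in-neighbours. -/
def S_Rmt0 : Prop :=
  ∀ (n K k s : ℕ) (S : Finset (Fin n × Fin n)) (o i : Fin n → Fin K) (cl : Fin k → Fin K)
    (T H : Fin k → Finset (Fin n)) (Γ : Fin k → Fin k → Prop) (β1 d c ν ε θ : ℝ)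
    (σ : Equiv.Perm (Fin n)), RSys S o i cl T H Γ s β1 d c ν (ε / 8) → 0 < ε → 4 * ε ≤ θ →
    θ ≤ 1 → 0 < β1 → 16 * β1 ≤ ε → 16 ≤ ε * s → 0 < d →
    (∀ v, θ * n ≤ od S v) → (∀ v, θ * n ≤ idg S v) → (∀ v, o v = i (σ v)) →
    ∃ (V : Finset (Fin n)) (X Y : Fin k → Finset (Fin n)) (ρ0 : Equiv.Perm (Fin n)),
      (∀ p, X p ⊆ T p ∧ Y p ⊆ H p ∧ (X p).card = (Y p).card ∧
        (1 - ε) * s ≤ ((X p).card : ℝ) ∧ ((X p).card : ℝ) ≤ (1 + ε) * s) ∧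
      XInv S o i X Y σ ρ0 univ ∅ V ∧ V = univ \ univ.biUnion X ∧ (V.card : ℝ) ≤ ε * n ∧
      (∀ v, θ * n ≤ 2 * ∑ p, (((Y p).filter (fun w => (v, w) ∈ S)).card : ℝ)) ∧
      ∀ w, θ * n ≤ 2 * ∑ p, (((X p).filter (fun v => (v, w) ∈ S)).card : ℝ)

/-- (about 250 lines; uses `S_RP`, `S_XM0`, `S_Sys`, `S_Rmt0`, `S_XSy`, `S_NuX`, `S_Lnk`, `S_Hal`; see
`H/Mrg.lean` for the handling of the constants, here `Q = 1`) **Hamilton cycles in a balanced system.**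

Proof.  Let `ν4 = min (ν/4) (θ/16)`, `ℓ` from `S_RP` for `ν4/2` (so `RPp (ν4/2) ℓ`), `L = 4 ℓ + 6`,
`ε = ν4 θ²/(100000 L²)` (`4 ε ≤ θ ≤ 1`), `τ = ε/8`, `d` from `S_Sys` for `K0, θ, ν, τ`,
`β1 = min (ε/16) (min (d²/200) (θ/(4000 (ℓ+1))))` (`≤ 1`), `g1, kmax, n1` from `S_Sys`, and
`g = min g1 (ν/8)`.  Let `n ≥ n0 ≥ n1`, `n0 ≥ 20 kmax/ε`, `n0 ≥ 1`, `n0 ≥ 1/ε` and `n0 ≥ kmax s0`, where `s0` is so
large that the inequalities (*) hold for `s ≥ s0`.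
`MHyp` with `g` implies `MHyp` with `g1`.  `S_Sys` gives `s, k, cl, T, H, Γ` with `s ≥ n/kmax ≥ s0`.  `S_Hal`
(`θ/32 ≤ θ`) gives `σ` with all arcs `(v, σ v)` in `S`, so `o v = i (σ v)`.  `S_Rmt0` gives `V, X, Y, ρ0`
(`16 ≤ ε s` is one of (*)).  Let `h = ⌈β1 s⌉`, `x = ⌈5 s/8⌉`, `y = ⌊θ s/16⌋`.  (*): `1 ≤ h ≤ β1 s + 1`;
`5 s ≤ 8 x`; `4 x ≤ (5/2) s + 4 ≤ 3 s`; `20 y ≥ (5/4) θ s - 20 ≥ θ s`; `1 ≤ y ≤ x`;
`32 h ≤ 32 β1 s + 32 ≤ (4/25) d² s + 32 ≤ (5/8) d² s ≤ d² x`;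
`4 (ℓ+1) (12 h + 2) ≤ 48 (ℓ+1) β1 s + 56 (ℓ+1) ≤ (3/250) θ s + 56 (ℓ+1) ≤ θ s/16 - 1 ≤ y`.
`S_XSy` (with `Q = 1`, `ν' = ν4 ≤ ν/4`) gives the `XSys`.  The numerical hypothesis of `S_XM0` is `S_NuX`
(`Q = 1`, `ν = ν4`, `cy = 1`; `|univ \ ⋃ X| = |V|`; `k s ≤ n` as the `T p` are disjoint; `n ≤ 2 k s` as
`1 - τ ≥ 1/2`).  `S_XM0` gives `ρ`; all arcs of `ρ` are in `S`, so `o v = i (ρ v)` for all `v`.  `S_Lnk` with
`g = 0` shows that `ρ` has only one cycle: for `J` take `a, b` from `Lin`: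
`|Cl o b ∩ Cl i a| ≥ lam n > 0`. -/
def S_HAM0 : Prop :=
  ∀ (K0 : ℕ) (θ lam ν : ℝ), 1 ≤ K0 → 0 < θ → θ ≤ 1 → 0 < lam → 0 < ν →
    ∃ (g : ℝ) (n0 : ℕ), 0 < g ∧ ∀ n : ℕ, n0 ≤ n → ∀ (K : ℕ) (S : Finset (Fin n × Fin n))
      (o i : Fin n → Fin K) (ρ : ℝ), K ≤ K0 → MHyp S o i θ ρ g (θ / 32) ν → Lin o i lam →
      (∀ a, (Cl o a).card = (Cl i a).card) →
      ∃ τ : Equiv.Perm (Fin n), Ham τ ∧ ∀ v, (v, τ v) ∈ S

/-- (about 200 lines) **Contraction of a linear forest.**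

Proof.  Let `next v` be the head of the arc of `P` with tail `v` if `v ∈ tls P` and `next v = v` otherwise.
If `v ∈ tls P` then `rk v < rk (next v)`.  For every `v` some `next^[j] v`, `j ≤ n`, is not in `tls P`:
otherwise `v, next v, ..., next^[n] v` would be `n + 1` vertices of different rank.  So
`end v := next^[n] v` is not in `tls P`.  Let `V' = (hds P)ᶜ` and `V'' = (tls P)ᶜ`; both have `m` elements
(`P` has distinct tails and distinct heads).  Claim: `end` is injective on `V'`.  Let `u, u' ∈ V'`,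
`end u = end u'`, and let `j, j'` be minimal with `next^[j] u, next^[j'] u' ∉ tls P`; both are equal to the
common end (after that `next` is the identity).  Say `j ≤ j'`.  `next` is injective on `tls P`
(distinct heads), so going back `j` steps `u = next^[j'-j] u'`; if `j' > j` then `u` would be a head of
`P`; so `j = j'`, `u = u'`.  Hence `end` is a bijection from `V'` to `V''`.  Let `b : Fin m → Fin n` be an
enumeration of `V'` (`Finset.orderEmbOfFin` or `Finset.equivFinOfCardEq`) and `a x = end (b x)`.  If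
`v ∉ tls P`, `v ∉ hds P` then `v = b x` for some `x` and `a x = end v = v`.
Let `τ'` be a permutation of `Fin m` with one cycle.  Define `τ v = next v` for `v ∈ tls P` and
`τ (a x) = b (τ' x)`.  It is injective: heads of `P` and elements of `V'` are different, `next` is
injective on `tls P`, `b ∘ τ'` is injective.  One cycle: `b x` is in the same `τ`-cycle as `a x`
(`τ = next` on the way), and `τ (a x) = b (τ' x)`; so all `b x` are in one `τ`-cycle.  Every vertex `v` is in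
the cycle of `end v = a x` for some `x`, which is in the cycle of `b x`. -/
def S_Ctr : Prop :=
  ∀ (n m : ℕ) (P : Finset (Fin n × Fin n)), LF P → m + P.card = n → 1 ≤ m →
    ∃ a b : Fin m → Fin n, Function.Injective a ∧ Function.Injective b ∧
      (∀ v, (∃ x, a x = v) ↔ v ∉ tls P) ∧ (∀ v, (∃ x, b x = v) ↔ v ∉ hds P) ∧
      (∀ v, v ∉ tls P → v ∉ hds P → ∃ x, a x = v ∧ b x = v) ∧
      ∀ τ' : Equiv.Perm (Fin m), Ham τ' → ∃ τ : Equiv.Perm (Fin n), Ham τ ∧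
        (∀ e ∈ P, τ e.1 = e.2) ∧ ∀ x, τ (a x) = b (τ' x)

/-- (about 250 lines; uses `S_HAM0`, `S_Ctr`) **Hamilton cycles which contain a linear forest.**

Proof.  Take `g0, n1` from `S_HAM0` for `K0, θ/2, lam/2, ν/2` and
`g = min (min (g0/8) (θ/4)) (min (lam/8) (min (ν/8) (1/4)))`, `n0 = max (2 n1) 2`.  Let `P` be as in `HamP`;
`m = n - |P| ≥ n/2 ≥ n1`, `1 ≤ m` (distinct heads: `|P| ≤ g n ≤ n/4`).  Let `a, b` be from `S_Ctr`,
`S' = {(x, y) : (a x, b y) ∈ S}`, `o' = o ∘ a`, `i' = i ∘ b`, `ρ' = min ρ m`.  We check `MHyp S' o' i' (θ/2) ρ'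
g0 (θ/64) (ν/2)` (with `m` in the place of `n`).  `own` clear.  `od S' x` is the number of the
out-neighbours of `a x` which are not in `hds P`, so `od S (a x) - |P| ≤ od S' x ≤ od S (a x)`; so it is at
least `θ n - g n ≥ (θ/2) m`; the same for in-degrees (`idg S' y` and `b y`).
`nr`: `|ρ' - ρ| ≤ n - m ≤ g n`, so if `|od S (a x) - ρ| ≤ g n` then `|od S' x - ρ'| ≤ 3 g n ≤ g0 m` (`m ≥ n/2`); and
`a` is injective, so there are at most `g n ≤ g0 m` exceptions.  `rge`: `(θ/2) m ≤ ρ` and `(θ/2) m ≤ m`.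
`rob`: let `X' ⊆ Cl o' c`, `Y' ⊆ Cl i' c` satisfy the hypotheses for `θ/64` and `m`; `X = a(X')`,
`Y = b(Y')`; `Cl i c \ Y ⊇ b(Cl i' c \ Y')`, `Cl o c \ X ⊇ a(Cl o' c \ X')` and `(θ/64) m ≥ (θ/128) n`, so `Rob` for
`S` gives `ν n² ≤ eb S X Y + eb S (Cl o c \ X) (Cl i c \ Y)`.  `eb S X Y = eb S' X' Y'`; the arcs of `S` from
`Cl o c \ X` to `Cl i c \ Y` which do not correspond to arcs of `S'` from `Cl o' c \ X'` to
`Cl i' c \ Y'` have their tail in `tls P` or their head in `hds P`, at most `2 |P| n ≤ 2 g n² ≤ (ν/4) n²`.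
`Lin o' i' (lam/2)`: a vertex `v ∈ Cl o b' ∩ Cl i a'` which is not in `tls P ∪ hds P` is `a x = b x` for some `x`,
and `x ∈ Cl o' b' ∩ Cl i' a'`; at least `lam n - 2 g n ≥ (lam/2) m` such `x`.
`|Cl o' c| = |Cl o c \ tls P| = |Cl i c \ hds P| = |Cl i' c|`.
`S_HAM0` gives `τ'`, `S_Ctr` gives `τ`; a vertex `v ∉ tls P` is `a x`, `(a x, τ (a x)) = (a x, b (τ' x)) ∈ S`. -/
def S_HAM : Prop :=
  ∀ (K0 : ℕ) (θ lam ν : ℝ), 1 ≤ K0 → 0 < θ → θ ≤ 1 → 0 < lam → 0 < ν →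
    ∃ (g : ℝ) (n0 : ℕ), 0 < g ∧ ∀ n : ℕ, n0 ≤ n → ∀ (K : ℕ) (S : Finset (Fin n × Fin n))
      (o i : Fin n → Fin K) (ρ : ℝ), K ≤ K0 → MHyp S o i θ ρ g (θ / 128) ν → Lin o i lam →
      HamP S o i g

end Pool.Agent.MPd266dbE
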