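import Pool.Agent.Lib.MP_d266db_co.E.SpecF
import Pool.Agent.Lib.MP_d266db_co.E.SpecA

/-!
# MP_d266db_co, E: Hamilton cycles with arcs of `W`
-/

set_option autoImplicit false

namespace Pool.Agent.MPd266dbE

open Finset Pool.Agent.MPd266db Pool.Agent.MPd266dbH

theorem whm_od {n : ℕ} (S Z : Finset (Fin n × Fin n)) (v : Fin n) :
    od S v ≤ od (S \ Z) v + od Z v := by
  classical
  unfold od
  rw [← card_union_of_disjoint]
  · apply card_le_card
    intro a ha
    rw [mem_filter] at ha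
    rw [mem_union, mem_filter, mem_filter, mem_sdiff]
    by_cases h : a ∈ Z
    · exact Or.inr ⟨h, ha.2⟩
    · exact Or.inl ⟨⟨ha.1, h⟩, ha.2⟩
  · rw [Finset.disjoint_left]
    intro a ha hb
    rw [mem_filter, mem_sdiff] at ha
    rw [mem_filter] at hb
    exact ha.1.2 hb.1

theorem whm_idg {n : ℕ} (S Z : Finset (Fin n × Fin n)) (v : Fin n) :
    idg S v ≤ idg (S \ Z) v + idg Z v := by
  classical
  unfold idg
  rw [← card_union_of_disjoint]
  · apply card_le_card
    intro a ha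
    rw [mem_filter] at ha
    rw [mem_union, mem_filter, mem_filter, mem_sdiff]
    by_cases h : a ∈ Z
    · exact Or.inr ⟨h, ha.2⟩
    · exact Or.inl ⟨⟨ha.1, h⟩, ha.2⟩
  · rw [Finset.disjoint_left]
    intro a ha hb
    rw [mem_filter, mem_sdiff] at ha
    rw [mem_filter] at hb
    exact ha.1.2 hb.1

theorem whm_sum_od {n : ℕ} (Z : Finset (Fin n × Fin n)) : ∑ v : Fin n, od Z v = Z.card := by
  classical
  unfold od
  exact (card_eq_sum_card_fiberwise (fun e _ => mem_univ e.1)).symm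

theorem whm_card {n z : ℕ} {Z : Finset (Fin n × Fin n)} (h : Dg Z z) : Z.card ≤ z * n := by
  rw [← whm_sum_od]
  calc ∑ v : Fin n, od Z v ≤ ∑ _v : Fin n, z := sum_le_sum (fun v _ => (h v).1)
    _ = z * n := by simp [mul_comm]

/-- counting large values -/
theorem whm_cnt {n : ℕ} (f : Fin n → ℝ) (g : ℝ) (hg : 0 < g) (P : Fin n → Prop)
    [DecidablePred P] (h0 : ∀ v, 0 ≤ f v) (hc : 2 * ∑ v, f v ≤ g ^ 2 * (n : ℝ) ^ 2)
    (hP : ∀ v, P v → g / 2 * n < f v) : ((univ.filter P).card : ℝ) ≤ g * n := by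
  rcases Nat.eq_zero_or_pos n with hn | hn
  · subst hn
    simp
  have hn' : (0 : ℝ) < n := by exact_mod_cast hn
  have h1 : ((univ.filter P).card : ℝ) * (g / 2 * n) ≤ ∑ v, f v := by
    have h2 : (∑ v ∈ univ.filter P, (g / 2 * n : ℝ)) ≤ ∑ v ∈ univ.filter P, f v :=
      sum_le_sum (fun v hv => (hP v (mem_filter.mp hv).2).le)
    have h3 : (∑ v ∈ univ.filter P, f v) ≤ ∑ v, f v :=
      sum_le_sum_of_subset_of_nonneg (filter_subset _ _) (fun v _ _ => h0 v)
    rw [sum_const, nsmul_eq_mul] at h2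
    linarith
  have h5 : ((univ.filter P).card : ℝ) * (g / 2 * n) ≤ (g * n) * (g / 2 * n) := by nlinarith
  exact le_of_mul_le_mul_right h5 (by positivity)

theorem tWHm (hHAM : S_HAM) : S_WHm := by
  intro K0 θ lam κ hK0 hθ hθ1 hlam hκ
  obtain ⟨g, n0, hg, h⟩ := hHAM K0 θ lam (κ / 2) hK0 hθ hθ1 hlam (by linarith)
  refine ⟨g, n0, hg, ?_⟩
  intro n hn K w z W O I hK hW hw hod hid hso hsi hz2 hz1 hz3 hlin hrob Z hZ
  rcases Nat.eq_zero_or_pos n with hnn | hnn
  · subst hnn
    intro P _ _ _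
    exact ⟨1, fun v => v.elim0, fun e => e.1.elim0, fun v => v.elim0⟩
  have hn0 : (0 : ℝ) ≤ n := Nat.cast_nonneg n
  have hodS : ∀ v, ((od W v : ℕ) : ℝ) ≤ od (W \ Z) v + z := by
    intro v
    have h1 := whm_od W Z v
    have h2 : ((od W v : ℕ) : ℝ) ≤ od (W \ Z) v + od Z v := by exact_mod_cast h1
    have h3 : ((od Z v : ℕ) : ℝ) ≤ z := by exact_mod_cast (hZ v).1
    linarith
  have hidS : ∀ v, ((idg W v : ℕ) : ℝ) ≤ idg (W \ Z) v + z := by
    intro v
    have h1 := whm_idg W Z v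
    have h2 : ((idg W v : ℕ) : ℝ) ≤ idg (W \ Z) v + idg Z v := by exact_mod_cast h1
    have h3 : ((idg Z v : ℕ) : ℝ) ≤ z := by exact_mod_cast (hZ v).2
    linarith
  have hodw : ∀ v, ((od W v : ℕ) : ℝ) ≤ w := fun v => by exact_mod_cast (hod v).2
  have hidw : ∀ v, ((idg W v : ℕ) : ℝ) ≤ w := fun v => by exact_mod_cast (hid v).2
  have hodR : ∀ v, ((od (W \ Z) v : ℕ) : ℝ) ≤ w := by
    intro v
    have h1 : od (W \ Z) v ≤ od W v := card_le_card (filter_subset_filter _ sdiff_subset)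
    exact le_trans (by exact_mod_cast h1) (hodw v)
  have hidR : ∀ v, ((idg (W \ Z) v : ℕ) : ℝ) ≤ w := by
    intro v
    have h1 : idg (W \ Z) v ≤ idg W v := card_le_card (filter_subset_filter _ sdiff_subset)
    exact le_trans (by exact_mod_cast h1) (hidw v)
  have hθn : 0 ≤ θ * n := by positivity
  refine h n hn K (W \ Z) O I (w : ℝ) hK ⟨?_, ?_, ?_, ⟨?_, ?_⟩, ?_, ?_, ?_⟩ hlin
  · intro e he
    exact hW e (mem_sdiff.mp he).1
  · intro v
    have := hodS v
    have := (hod v).1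
    linarith
  · intro v
    have := hidS v
    have := (hid v).1
    linarith
  · refine whm_cnt (fun v => (w : ℝ) - od W v) g hg _ (fun v => ?_) hso ?_
    · have := hodw v
      linarith
    · intro v hv
      have h3 := hodS v
      have h4 := hodR v
      rw [abs_sub_comm, abs_of_nonneg (by linarith)] at hv
      linarith
  · refine whm_cnt (fun v => (w : ℝ) - idg W v) g hg _ (fun v => ?_) hsi ?_
    · have := hidw v
      linarith
    · intro v hv
      have h3 := hidS v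
      have h4 := hidR v
      rw [abs_sub_comm, abs_of_nonneg (by linarith)] at hv
      linarith
  · have h1 := hodw ⟨0, hnn⟩
    have h3 := (hod ⟨0, hnn⟩).1
    linarith
  · exact_mod_cast hw
  · intro a X Y hX hY h1 h2
    have h3 := hrob a X Y hX hY h1 h2
    have h4 : eb W X Y + eb W (Cl O a \ X) (Cl I a \ Y) ≤
        eb (W \ Z) X Y + eb (W \ Z) (Cl O a \ X) (Cl I a \ Y) + z * n := by
      classical
      have hd : ∀ e, ¬ ((e ∈ W.filter (fun e => e.1 ∈ X ∧ e.2 ∈ Y)) ∧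
          (e ∈ W.filter (fun e => e.1 ∈ Cl O a \ X ∧ e.2 ∈ Cl I a \ Y))) := by
        intro e he
        have h5 := (mem_filter.mp he.1).2.1
        have h6 := (mem_sdiff.mp (mem_filter.mp he.2).2.1).2
        exact h6 h5
      have h5 : W.filter (fun e => e.1 ∈ X ∧ e.2 ∈ Y) ∪
          W.filter (fun e => e.1 ∈ Cl O a \ X ∧ e.2 ∈ Cl I a \ Y) ⊆
          ((W \ Z).filter (fun e => e.1 ∈ X ∧ e.2 ∈ Y) ∪
          (W \ Z).filter (fun e => e.1 ∈ Cl O a \ X ∧ e.2 ∈ Cl I a \ Y)) ∪ Z := by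
        intro e he
        by_cases hz : e ∈ Z
        · exact mem_union_right _ hz
        apply mem_union_left
        rw [mem_union] at he ⊢
        rcases he with he | he
        · left
          rw [mem_filter] at he ⊢
          exact ⟨mem_sdiff.mpr ⟨he.1, hz⟩, he.2⟩
        · right
          rw [mem_filter] at he ⊢
          exact ⟨mem_sdiff.mpr ⟨he.1, hz⟩, he.2⟩
      have h6 := card_le_card h5
      rw [card_union_of_disjoint (Finset.disjoint_left.mpr (fun e he he' => hd e ⟨he, he'⟩))] at h6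
      have h7 := card_union_le ((W \ Z).filter (fun e => e.1 ∈ X ∧ e.2 ∈ Y) ∪
          (W \ Z).filter (fun e => e.1 ∈ Cl O a \ X ∧ e.2 ∈ Cl I a \ Y)) Z
      have h8 := card_union_le ((W \ Z).filter (fun e => e.1 ∈ X ∧ e.2 ∈ Y))
          ((W \ Z).filter (fun e => e.1 ∈ Cl O a \ X ∧ e.2 ∈ Cl I a \ Y))
      have h9 := whm_card hZ
      unfold eb
      omega
    have h5 : ((eb W X Y : ℕ) : ℝ) + eb W (Cl O a \ X) (Cl I a \ Y) ≤
        eb (W \ Z) X Y + eb (W \ Z) (Cl O a \ X) (Cl I a \ Y) + z * n := by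
      exact_mod_cast h4
    have h6 : (z : ℝ) * n ≤ κ / 2 * n * n := mul_le_mul_of_nonneg_right (by linarith) hn0
    nlinarith

end Pool.Agent.MPd266dbE
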