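import Pool.Agent.Lib.MP_d266db_co.E.SpecF

/-!
# MP_d266db_co, E, WOw: the factor `W`
-/

set_option autoImplicit false

namespace Pool.Agent.MPd266dbE

open Finset Pool.Agent.MPd266db Pool.Agent.MPd266dbH

/-! ### Arcs and degrees -/

theorem wow_own {n K : ℕ} {P : Finset (Fin n × Fin n)} {O I : Fin n → Fin K}
    (h : ∀ q ∈ P, O q.1 = I q.2) (a : Fin K) :
    ∑ v ∈ Cl O a, od P v = ∑ v ∈ Cl I a, idg P v := by
  rw [← eb_univ_right, ← eb_univ_left]
  unfold eb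
  congr 1
  ext q
  simp only [mem_filter, mem_univ, and_true, true_and, Cl]
  constructor
  · rintro ⟨h1, h2⟩
    exact ⟨h1, by rw [← h q h1]; exact h2⟩
  · rintro ⟨h1, h2⟩
    exact ⟨h1, by rw [h q h1]; exact h2⟩

theorem wow_od {n K : ℕ} {H : Finset (Fin n × Fin n)} {O I : Fin n → Fin K} {a : Fin K}
    (h1 : ∀ q ∈ H, O q.1 = I q.2) {X Y : Finset (Fin n)}
    (hX : X ⊆ Cl O a) (hY : Y ⊆ Cl I a) :
    ∑ v ∈ X, od H v = eb H X Y + eb H X (Cl I a \ Y) := by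
  rw [← eb_univ_right, ← eb_union_right _ _ disjoint_sdiff, union_sdiff_of_subset hY]
  unfold eb
  congr 1
  ext q
  simp only [mem_filter, mem_univ, and_true]
  constructor
  · rintro ⟨h2, h3⟩
    refine ⟨h2, h3, mem_filter.mpr ⟨mem_univ _, ?_⟩⟩
    rw [← h1 q h2]
    exact (mem_filter.mp (hX h3)).2
  · rintro ⟨h2, h3, _⟩
    exact ⟨h2, h3⟩

theorem wow_id {n K : ℕ} {H : Finset (Fin n × Fin n)} {O I : Fin n → Fin K} {a : Fin K}
    (h1 : ∀ q ∈ H, O q.1 = I q.2) {X Y : Finset (Fin n)}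
    (hX : X ⊆ Cl O a) (hY : Y ⊆ Cl I a) :
    ∑ v ∈ Y, idg H v = eb H X Y + eb H (Cl O a \ X) Y := by
  rw [← eb_univ_left, ← eb_union_left _ _ disjoint_sdiff, union_sdiff_of_subset hX]
  unfold eb
  congr 1
  ext q
  simp only [mem_filter, mem_univ, true_and]
  constructor
  · rintro ⟨h2, h3⟩
    refine ⟨h2, mem_filter.mpr ⟨mem_univ _, ?_⟩, h3⟩
    rw [h1 q h2]
    exact (mem_filter.mp (hY h3)).2
  · rintro ⟨h2, _, h3⟩
    exact ⟨h2, h3⟩

theorem wow_del_o {n : ℕ} {S : Finset (Fin n × Fin n)} {Et Eh : Finset (Fin n)} {v : Fin n}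
    (hv : v ∉ Et) :
    od S v ≤ od (S.filter fun q => q.1 ∉ Et ∧ q.2 ∉ Eh) v + Eh.card := by
  classical
  unfold od
  have h1 : S.filter (fun e => e.1 = v) ⊆
      (S.filter fun q => q.1 ∉ Et ∧ q.2 ∉ Eh).filter (fun e => e.1 = v) ∪
        Eh.image (fun u => (v, u)) := by
    intro q hq
    obtain ⟨h2, h3⟩ := mem_filter.mp hq
    by_cases h4 : q.2 ∈ Eh
    · exact mem_union_right _ (mem_image.mpr ⟨q.2, h4, Prod.ext h3.symm rfl⟩)
    · exact mem_union_left _ (mem_filter.mpr ⟨mem_filter.mpr ⟨h2, by rw [h3]; exact hv, h4⟩, h3⟩)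
  exact (card_le_card h1).trans ((card_union_le _ _).trans (Nat.add_le_add_left card_image_le _))

theorem wow_del_i {n : ℕ} {S : Finset (Fin n × Fin n)} {Et Eh : Finset (Fin n)} {v : Fin n}
    (hv : v ∉ Eh) :
    idg S v ≤ idg (S.filter fun q => q.1 ∉ Et ∧ q.2 ∉ Eh) v + Et.card := by
  classical
  unfold idg
  have h1 : S.filter (fun e => e.2 = v) ⊆
      (S.filter fun q => q.1 ∉ Et ∧ q.2 ∉ Eh).filter (fun e => e.2 = v) ∪
        Et.image (fun u => (u, v)) := by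
    intro q hq
    obtain ⟨h2, h3⟩ := mem_filter.mp hq
    by_cases h4 : q.1 ∈ Et
    · exact mem_union_right _ (mem_image.mpr ⟨q.1, h4, Prod.ext rfl h3.symm⟩)
    · exact mem_union_left _ (mem_filter.mpr ⟨mem_filter.mpr ⟨h2, h4, by rw [h3]; exact hv⟩, h3⟩)
  exact (card_le_card h1).trans ((card_union_le _ _).trans (Nat.add_le_add_left card_image_le _))

theorem wow_sub_od {n : ℕ} {S T : Finset (Fin n × Fin n)} (h : S ⊆ T) (v : Fin n) :
    od S v ≤ od T v := card_le_card (filter_subset_filter _ h)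

theorem wow_sub_id {n : ℕ} {S T : Finset (Fin n × Fin n)} (h : S ⊆ T) (v : Fin n) :
    idg S v ≤ idg T v := card_le_card (filter_subset_filter _ h)

theorem wow_y_o {n : ℕ} {Y : Finset (Fin n × Fin n)} {Et Eh : Finset (Fin n)}
    (h : ∀ q ∈ Y, (q.1 ∈ Et ∧ q.2 ∉ Eh) ∨ (q.1 ∉ Et ∧ q.2 ∈ Eh)) :
    ∑ v ∈ univ \ Et, od Y v ≤ ∑ v ∈ Eh, idg Y v := by
  rw [← eb_univ_right, ← eb_univ_left]
  unfold eb
  apply card_le_card
  intro q hq
  obtain ⟨h1, h2, -⟩ := mem_filter.mp hq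
  have h3 := (mem_sdiff.mp h2).2
  rcases h q h1 with h4 | h4
  · exact absurd h4.1 h3
  · exact mem_filter.mpr ⟨h1, mem_univ _, h4.2⟩

theorem wow_y_i {n : ℕ} {Y : Finset (Fin n × Fin n)} {Et Eh : Finset (Fin n)}
    (h : ∀ q ∈ Y, (q.1 ∈ Et ∧ q.2 ∉ Eh) ∨ (q.1 ∉ Et ∧ q.2 ∈ Eh)) :
    ∑ v ∈ univ \ Eh, idg Y v ≤ ∑ v ∈ Et, od Y v := by
  rw [← eb_univ_right, ← eb_univ_left]
  unfold eb
  apply card_le_card
  intro q hq
  obtain ⟨h1, -, h2⟩ := mem_filter.mp hq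
  have h3 := (mem_sdiff.mp h2).2
  rcases h q h1 with h4 | h4
  · exact mem_filter.mpr ⟨h1, h4.1, mem_univ _⟩
  · exact absurd h4.2 h3

theorem wow_od_le {n K : ℕ} {S : Finset (Fin n × Fin n)} {O I : Fin n → Fin K}
    (h : ∀ q ∈ S, O q.1 = I q.2) (v : Fin n) : od S v ≤ (Cl I (O v)).card := by
  unfold od
  refine card_le_card_of_injOn (fun q => q.2) (fun q hq => ?_) (fun q hq q' hq' hqq => ?_)
  · obtain ⟨h1, h2⟩ := mem_filter.mp hq
    refine mem_filter.mpr ⟨mem_univ _, ?_⟩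
    rw [← h q h1, h2]
  · exact Prod.ext ((mem_filter.mp hq).2.trans (mem_filter.mp hq').2.symm) hqq

theorem wow_sum {n : ℕ} {Et : Finset (Fin n)} {f f2 y : Fin n → ℕ} {w : ℕ} {J σ G N : ℝ}
    (h1 : ∀ v, f2 v + y v = f v) (h2 : ∀ v, f v ≤ w) (h3 : ∑ v, ((w : ℝ) - f v) ≤ σ)
    (h4 : (∑ v ∈ univ \ Et, (y v : ℝ)) ≤ G * w) (h5 : 0 ≤ J) (h6 : J * w ≤ N) (hG : 0 ≤ G) :
    ∑ v ∈ univ \ Et, (J * w - J * f2 v) ≤ J * σ + G * N := by
  have e1 : ∑ v ∈ univ \ Et, (J * w - J * f2 v) =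
      J * ∑ v ∈ univ \ Et, ((w : ℝ) - f v) + J * ∑ v ∈ univ \ Et, (y v : ℝ) := by
    rw [mul_sum, mul_sum, ← sum_add_distrib]
    apply sum_congr rfl
    intro v _
    have e2 : (f v : ℝ) = f2 v + y v := by exact_mod_cast (h1 v).symm
    rw [e2]
    ring
  have e2 : ∑ v ∈ univ \ Et, ((w : ℝ) - f v) ≤ σ := by
    refine le_trans (sum_le_sum_of_subset_of_nonneg (subset_univ _) fun v _ _ => ?_) h3
    have : (f v : ℝ) ≤ w := by exact_mod_cast h2 v
    linarith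
  have e3 : J * ∑ v ∈ univ \ Et, ((w : ℝ) - f v) ≤ J * σ := mul_le_mul_of_nonneg_left e2 h5
  have e4 : J * ∑ v ∈ univ \ Et, (y v : ℝ) ≤ J * (G * w) := mul_le_mul_of_nonneg_left h4 h5
  have e5 : G * (J * w) ≤ G * N := mul_le_mul_of_nonneg_left h6 hG
  have e6 : J * (G * w) = G * (J * w) := by ring
  rw [e1]
  linarith

theorem wow_rob {n K : ℕ} {S : Finset (Fin n × Fin n)} {O I : Fin n → Fin K}
    {Et Eh : Finset (Fin n)} {a : Fin K} {X Y : Finset (Fin n)}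
    (hX : X ⊆ Cl O a \ Et) (hY : Y ⊆ Cl I a \ Eh) :
    eb S X Y + eb S (Cl O a \ X) (Cl I a \ Y) ≤
      eb (S.filter fun q => q.1 ∉ Et ∧ q.2 ∉ Eh) X Y +
        eb (S.filter fun q => q.1 ∉ Et ∧ q.2 ∉ Eh) ((Cl O a \ Et) \ X) ((Cl I a \ Eh) \ Y) +
        (Et.card * (Cl I a).card + (Cl O a).card * Eh.card) := by
  classical
  have h1 : eb S X Y ≤ eb (S.filter fun q => q.1 ∉ Et ∧ q.2 ∉ Eh) X Y := by
    unfold eb
    apply card_le_card
    intro q hq
    obtain ⟨h1, h2, h3⟩ := mem_filter.mp hq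
    exact mem_filter.mpr ⟨mem_filter.mpr ⟨h1, (mem_sdiff.mp (hX h2)).2,
      (mem_sdiff.mp (hY h3)).2⟩, h2, h3⟩
  have h2 : eb S (Cl O a \ X) (Cl I a \ Y) ≤
      eb (S.filter fun q => q.1 ∉ Et ∧ q.2 ∉ Eh) ((Cl O a \ Et) \ X) ((Cl I a \ Eh) \ Y) +
        (eb S Et (Cl I a) + eb S (Cl O a) Eh) := by
    unfold eb
    refine le_trans (card_le_card ?_)
      ((card_union_le _ _).trans (Nat.add_le_add_left (card_union_le _ _) _))
    intro q hq
    obtain ⟨h1, h2, h3⟩ := mem_filter.mp hq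
    obtain ⟨h4, h5⟩ := mem_sdiff.mp h2
    obtain ⟨h6, h7⟩ := mem_sdiff.mp h3
    by_cases h8 : q.1 ∈ Et
    · exact mem_union_right _ (mem_union_left _ (mem_filter.mpr ⟨h1, h8, h6⟩))
    by_cases h9 : q.2 ∈ Eh
    · exact mem_union_right _ (mem_union_right _ (mem_filter.mpr ⟨h1, h4, h9⟩))
    exact mem_union_left _ (mem_filter.mpr ⟨mem_filter.mpr ⟨h1, h8, h9⟩,
      mem_sdiff.mpr ⟨mem_sdiff.mpr ⟨h4, h8⟩, h5⟩, mem_sdiff.mpr ⟨mem_sdiff.mpr ⟨h6, h9⟩, h7⟩⟩)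
  have h3 := eb_le_card_mul S Et (Cl I a)
  have h4 := eb_le_card_mul S (Cl O a) Eh
  omega

/-! ### Robustness of the factor -/

/-- Case 1. -/
theorem wow_c1 {n K : ℕ} {S H : Finset (Fin n × Fin n)} {O I : Fin n → Fin K} {a : Fin K}
    (hHS : H ⊆ S) (h1 : ∀ q ∈ S, O q.1 = I q.2) {X Y : Finset (Fin n)}
    (hX : X ⊆ Cl O a) (hY : Y ⊆ Cl I a) :
    eb S X Y + eb S (Cl O a \ X) (Cl I a \ Y) + ∑ v ∈ Cl O a, od H v ≤
      eb H X Y + eb H (Cl O a \ X) (Cl I a \ Y) + ∑ v ∈ Cl O a, od S v := by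
  have hH : ∀ q ∈ H, O q.1 = I q.2 := fun q hq => h1 q (hHS hq)
  have e1 : ∑ v ∈ Cl O a, od H v = (eb H (Cl O a \ X) Y + eb H (Cl O a \ X) (Cl I a \ Y)) +
      (eb H X Y + eb H X (Cl I a \ Y)) := by
    rw [← sum_sdiff hX, wow_od hH hX hY, wow_od hH sdiff_subset hY]
  have e2 : ∑ v ∈ Cl O a, od S v = (eb S (Cl O a \ X) Y + eb S (Cl O a \ X) (Cl I a \ Y)) +
      (eb S X Y + eb S X (Cl I a \ Y)) := by
    rw [← sum_sdiff hX, wow_od h1 hX hY, wow_od h1 sdiff_subset hY]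
  have e3 := eb_mono hHS (subset_refl (Cl O a \ X)) (subset_refl Y)
  have e4 := eb_mono hHS (subset_refl X) (subset_refl (Cl I a \ Y))
  omega

/-- Case 1, the degrees. -/
theorem wow_c1d {n K : ℕ} {S H : Finset (Fin n × Fin n)} {O I : Fin n → Fin K} {a : Fin K}
    {Et : Finset (Fin n)} {f2 : Fin n → ℕ} {w : ℕ} {J N G ρ T : ℝ}
    (h1 : ∀ q ∈ S, O q.1 = I q.2) (hN : ((Cl O a).card : ℝ) ≤ N)
    (hN2 : ∀ b, ((Cl I b).card : ℝ) ≤ N)
    (hEt : (Et.card : ℝ) ≤ G) (hod : ∀ v, v ∉ Et → (od S v : ℝ) ≤ ρ + G)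
    (hH : ∀ v, v ∉ Et → (od H v : ℝ) = J * f2 v)
    (hf : ∀ v, v ∉ Et → J * (f2 v : ℝ) ≤ J * w)
    (hT : ∑ v ∈ univ \ Et, (J * w - J * f2 v) ≤ T) (hρ : 0 ≤ ρ + G - J * w) :
    (∑ v ∈ Cl O a, (od S v : ℝ)) - (∑ v ∈ Cl O a, (od H v : ℝ)) ≤
      G * N + N * (ρ + G - J * w) + T := by
  classical
  have hN0 : 0 ≤ N := le_trans (Nat.cast_nonneg _) hN
  rw [← sum_sub_distrib, ← sum_inter_add_sum_sdiff (Cl O a) Et]
  have e1 : ∑ v ∈ Cl O a ∩ Et, ((od S v : ℝ) - od H v) ≤ G * N := by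
    calc ∑ v ∈ Cl O a ∩ Et, ((od S v : ℝ) - od H v) ≤ ∑ _v ∈ Cl O a ∩ Et, N := by
          apply sum_le_sum
          intro v _
          have e2 : (od S v : ℝ) ≤ N := le_trans (Nat.cast_le.mpr (wow_od_le h1 v)) (hN2 _)
          have e3 : (0 : ℝ) ≤ od H v := Nat.cast_nonneg _
          linarith
      _ = ((Cl O a ∩ Et).card : ℝ) * N := by rw [sum_const, nsmul_eq_mul]
      _ ≤ G * N := by
          apply mul_le_mul_of_nonneg_right _ hN0
          exact le_trans (Nat.cast_le.mpr (card_le_card inter_subset_right)) hEt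
  have e2 : ∑ v ∈ Cl O a \ Et, ((od S v : ℝ) - od H v) ≤ N * (ρ + G - J * w) + T := by
    calc ∑ v ∈ Cl O a \ Et, ((od S v : ℝ) - od H v) ≤
          ∑ v ∈ Cl O a \ Et, ((ρ + G - J * w) + (J * w - J * f2 v)) := by
          apply sum_le_sum
          intro v hv
          have e3 := hod v (mem_sdiff.mp hv).2
          have e4 := hH v (mem_sdiff.mp hv).2
          linarith
      _ = ((Cl O a \ Et).card : ℝ) * (ρ + G - J * w) +
          ∑ v ∈ Cl O a \ Et, (J * w - J * f2 v) := by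
          rw [sum_add_distrib, sum_const, nsmul_eq_mul]
      _ ≤ _ := by
          apply add_le_add
          · apply mul_le_mul_of_nonneg_right _ hρ
            exact le_trans (Nat.cast_le.mpr (card_le_card sdiff_subset)) hN
          · refine le_trans (sum_le_sum_of_subset_of_nonneg
              (sdiff_subset_sdiff (subset_univ _) (subset_refl _)) fun v hv _ => ?_) hT
            have := hf v (mem_sdiff.mp hv).2
            linarith
  linarith

/-- Case 2. -/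
theorem wow_c2 {n K : ℕ} {H : Finset (Fin n × Fin n)} {O I : Fin n → Fin K} {a : Fin K}
    {Et Eh : Finset (Fin n)} {X Y : Finset (Fin n)} {r : ℝ}
    (h1 : ∀ q ∈ H, O q.1 = I q.2) (hX : X ⊆ Cl O a) (hY : Y ⊆ Cl I a)
    (hod : ∀ v, v ∉ Et → 3 * r ≤ od H v) (hid : ∀ v, v ∉ Eh → 3 * r ≤ idg H v)
    (hs : (X.card : ℝ) + (Cl I a \ Y).card ≤ r) :
    2 * r * ((X.card : ℝ) + (Cl I a \ Y).card - Et.card - Eh.card) ≤
      (eb H X Y : ℝ) + eb H (Cl O a \ X) (Cl I a \ Y) := by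
  classical
  have x0 : (0 : ℝ) ≤ X.card := Nat.cast_nonneg _
  have y0 : (0 : ℝ) ≤ (Cl I a \ Y).card := Nat.cast_nonneg _
  have r0 : 0 ≤ r := by linarith
  have a1 : (X.card : ℝ) ≤ ((X \ Et).card : ℝ) + Et.card := by
    have : X.card ≤ (X \ Et).card + Et.card := by
      have := le_card_sdiff Et X
      omega
    exact_mod_cast this
  have a2 : ((Cl I a \ Y).card : ℝ) ≤ (((Cl I a \ Y) \ Eh).card : ℝ) + Eh.card := by
    have : (Cl I a \ Y).card ≤ ((Cl I a \ Y) \ Eh).card + Eh.card := by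
      have := le_card_sdiff Eh (Cl I a \ Y)
      omega
    exact_mod_cast this
  have b1 : 2 * r * ((X \ Et).card : ℝ) ≤ eb H X Y := by
    have c1 : ((X \ Et).card : ℝ) * (3 * r) ≤ ∑ v ∈ X \ Et, (od H v : ℝ) := by
      rw [← nsmul_eq_mul, ← sum_const]
      exact sum_le_sum fun v hv => hod v (mem_sdiff.mp hv).2
    have c2 : ∑ v ∈ X \ Et, (od H v : ℝ) =
        (eb H (X \ Et) Y : ℝ) + eb H (X \ Et) (Cl I a \ Y) := by
      exact_mod_cast wow_od h1 (sdiff_subset.trans hX) hY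
    have c3 : (eb H (X \ Et) Y : ℝ) ≤ eb H X Y := by
      exact_mod_cast eb_mono (subset_refl H) sdiff_subset (subset_refl Y)
    have c4 : (eb H (X \ Et) (Cl I a \ Y) : ℝ) ≤ ((X \ Et).card : ℝ) * (Cl I a \ Y).card := by
      exact_mod_cast eb_le_card_mul _ _ _
    have c5 : ((X \ Et).card : ℝ) * (Cl I a \ Y).card ≤ ((X \ Et).card : ℝ) * r :=
      mul_le_mul_of_nonneg_left (by linarith) (Nat.cast_nonneg _)
    linarith
  have b2 : 2 * r * (((Cl I a \ Y) \ Eh).card : ℝ) ≤ eb H (Cl O a \ X) (Cl I a \ Y) := by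
    have c1 : (((Cl I a \ Y) \ Eh).card : ℝ) * (3 * r) ≤
        ∑ v ∈ (Cl I a \ Y) \ Eh, (idg H v : ℝ) := by
      rw [← nsmul_eq_mul, ← sum_const]
      exact sum_le_sum fun v hv => hid v (mem_sdiff.mp hv).2
    have c2 : ∑ v ∈ (Cl I a \ Y) \ Eh, (idg H v : ℝ) =
        (eb H X ((Cl I a \ Y) \ Eh) : ℝ) + eb H (Cl O a \ X) ((Cl I a \ Y) \ Eh) := by
      exact_mod_cast wow_id h1 hX (sdiff_subset.trans sdiff_subset)
    have c3 : (eb H (Cl O a \ X) ((Cl I a \ Y) \ Eh) : ℝ) ≤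
        eb H (Cl O a \ X) (Cl I a \ Y) := by
      exact_mod_cast eb_mono (subset_refl H) (subset_refl _) sdiff_subset
    have c4 : (eb H X ((Cl I a \ Y) \ Eh) : ℝ) ≤
        (X.card : ℝ) * ((Cl I a \ Y) \ Eh).card := by
      exact_mod_cast eb_le_card_mul _ _ _
    have c5 : (X.card : ℝ) * ((Cl I a \ Y) \ Eh).card ≤
        r * (((Cl I a \ Y) \ Eh).card : ℝ) :=
      mul_le_mul_of_nonneg_right (by linarith) (Nat.cast_nonneg _)
    linarith
  have c1 : 2 * r * ((X.card : ℝ) + (Cl I a \ Y).card - Et.card - Eh.card) ≤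
      2 * r * (((X \ Et).card : ℝ) + ((Cl I a \ Y) \ Eh).card) :=
    mul_le_mul_of_nonneg_left (by linarith) (by linarith)
  linarith

/-- the value of the factor at a vertex -/
theorem wow_val {n : ℕ} {Et : Finset (Fin n)} {f y : Fin n → ℕ} {w : ℕ} {G : ℝ} {c : ℕ}
    (hw : ∀ v, 9 * w ≤ 10 * f v ∧ f v ≤ w) (hy : ∀ v ∈ Et, y v = f v)
    (hy2 : ∀ v, v ∉ Et → y v ≤ c) (hc : (c : ℝ) ≤ G) (hG : 8 * G ≤ w) :
    ∃ f2 : Fin n → ℕ, (∀ v ∈ Et, f2 v = 0) ∧ (∀ v, f2 v + y v = f v) ∧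
      ∀ v, v ∉ Et → 3 / 4 * (w : ℝ) ≤ f2 v ∧ (f2 v : ℝ) ≤ w := by
  classical
  have h1 : ∀ v, v ∉ Et → y v ≤ f v := by
    intro v hv
    have e1 : (y v : ℝ) ≤ c := by exact_mod_cast hy2 v hv
    have e2 : (9 : ℝ) * w ≤ 10 * f v := by exact_mod_cast (hw v).1
    have e3 : (0 : ℝ) ≤ w := Nat.cast_nonneg _
    have e4 : (y v : ℝ) ≤ f v := by linarith
    exact_mod_cast e4
  refine ⟨fun v => if v ∈ Et then 0 else f v - y v, ?_, ?_, ?_⟩
  · intro v hv
    exact if_pos hv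
  · intro v
    by_cases hv : v ∈ Et
    · simp only [if_pos hv]
      rw [hy v hv, zero_add]
    · simp only [if_neg hv]
      have := h1 v hv
      omega
  · intro v hv
    simp only [if_neg hv]
    rw [Nat.cast_sub (h1 v hv)]
    have e1 : (y v : ℝ) ≤ c := by exact_mod_cast hy2 v hv
    have e2 : (9 : ℝ) * w ≤ 10 * f v := by exact_mod_cast (hw v).1
    have e3 : (f v : ℝ) ≤ w := by exact_mod_cast (hw v).2
    have e4 : (0 : ℝ) ≤ y v := Nat.cast_nonneg _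
    have e5 : (0 : ℝ) ≤ w := Nat.cast_nonneg _
    constructor <;> linarith

theorem tWOw (hWFa : S_WFa) (hHvs : S_Hvs) (hY0 : S_Y0) : S_WOw := by
  classical
  intro n K j w S O I N θ ρ g β ν ε1 σ s0 κ f h hB hN hg hε hε2 hν hJw hw1 hρ2 hρN hβ hθ hgw hgρ
    hgν hσ hσ2 hf hh hfh hfσ hhσ hs0 hκ1 hκ2 hn1 hn2
  have hJ0 : (0 : ℝ) < (2 : ℝ) ^ j := by positivity
  set J : ℝ := (2 : ℝ) ^ j with hJ
  have hw1' : (1 : ℝ) ≤ w := by exact_mod_cast hw1
  have hJw0 : 0 < J * w := by positivity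
  have hρ0 : 0 < ρ := by
    by_contra hc
    have : (1 - ε1) * ρ ≤ 0 := mul_nonpos_of_nonneg_of_nonpos (by linarith) (not_lt.mp hc)
    linarith
  have hJρ : J * w ≤ ρ - ε1 * ρ := by linarith
  have hερ : 0 < ε1 * ρ := mul_pos hε hρ0
  have hG0 : 0 ≤ g * N := mul_nonneg hg hN.le
  have hN2 : 0 < N ^ 2 := by positivity
  have hgN2 : 96 * (g * N ^ 2) ≤ ε1 * ν * N ^ 2 := by
    have := mul_le_mul_of_nonneg_right hgν hN2.le
    linarith
  have hεν : ε1 * ν * N ^ 2 ≤ ν * N ^ 2 / 2 := by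
    have h1 : 0 < ν * N ^ 2 := by positivity
    have h2 : ε1 * (ν * N ^ 2) ≤ 1 / 2 * (ν * N ^ 2) := mul_le_mul_of_nonneg_right hε2 h1.le
    linarith
  have hgN2' : 0 ≤ g * N ^ 2 := by positivity
  have hνN2 : 0 < ν * N ^ 2 := by positivity
  have hJσ : 0 ≤ J * σ := by positivity
  have hεν0 : 0 < ε1 * ν * N ^ 2 := by positivity
  -- the exceptional vertices
  set Et := univ.filter (fun v => g * N < |(od S v : ℝ) - ρ|) with hEt
  set Eh := univ.filter (fun v => g * N < |(idg S v : ℝ) - ρ|) with hEh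
  have cEt : (Et.card : ℝ) ≤ g * N := hB.nro
  have cEh : (Eh.card : ℝ) ≤ g * N := hB.nri
  have dEt : ∀ v, v ∉ Et → |(od S v : ℝ) - ρ| ≤ g * N := by
    intro v hv
    by_contra hc
    exact hv (mem_filter.mpr ⟨mem_univ _, not_le.mp hc⟩)
  have dEh : ∀ v, v ∉ Eh → |(idg S v : ℝ) - ρ| ≤ g * N := by
    intro v hv
    by_contra hc
    exact hv (mem_filter.mpr ⟨mem_univ _, not_le.mp hc⟩)
  obtain ⟨Y, hYS, hYq, hYo, hYi, hYo2, hYi2⟩ := hY0 n S Et Eh f h (by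
      intro v _
      have e1 : (f v : ℝ) ≤ w := by exact_mod_cast (hf v).2
      have e2 : (f v : ℝ) + Eh.card ≤ od S v := by linarith [hB.odl v]
      exact_mod_cast e2) (by
      intro v _
      have e1 : (h v : ℝ) ≤ w := by exact_mod_cast (hh v).2
      have e2 : (h v : ℝ) + Et.card ≤ idg S v := by linarith [hB.idl v]
      exact_mod_cast e2)
  obtain ⟨f2, hf2E, hf2, hf2v⟩ := wow_val hf hYo hYo2 cEh hgw
  obtain ⟨h2, hh2E, hh2, hh2v⟩ := wow_val hh hYi hYi2 cEt hgw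
  have ownY : ∀ q ∈ Y, O q.1 = I q.2 := fun q hq => hB.own q (hYS hq)
  -- sums
  have hsY : (∑ v ∈ univ \ Et, (od Y v : ℝ)) ≤ (g * N) * w := by
    have e1 : (∑ v ∈ univ \ Et, (od Y v : ℝ)) ≤ ∑ v ∈ Eh, (idg Y v : ℝ) := by
      exact_mod_cast wow_y_o hYq
    have e2 : ∑ v ∈ Eh, (idg Y v : ℝ) ≤ (Eh.card : ℝ) * w := by
      rw [← nsmul_eq_mul, ← sum_const]
      apply sum_le_sum
      intro v hv
      rw [hYi v hv]
      exact_mod_cast (hh v).2
    have e3 : (Eh.card : ℝ) * w ≤ g * N * w := mul_le_mul_of_nonneg_right cEh (by linarith)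
    linarith
  have hsY' : (∑ v ∈ univ \ Eh, (idg Y v : ℝ)) ≤ (g * N) * w := by
    have e1 : (∑ v ∈ univ \ Eh, (idg Y v : ℝ)) ≤ ∑ v ∈ Et, (od Y v : ℝ) := by
      exact_mod_cast wow_y_i hYq
    have e2 : ∑ v ∈ Et, (od Y v : ℝ) ≤ (Et.card : ℝ) * w := by
      rw [← nsmul_eq_mul, ← sum_const]
      apply sum_le_sum
      intro v hv
      rw [hYo v hv]
      exact_mod_cast (hf v).2
    have e3 : (Et.card : ℝ) * w ≤ g * N * w := mul_le_mul_of_nonneg_right cEt (by linarith)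
    linarith
  have hJwN : J * w ≤ N := by linarith [hB.rle]
  have hs1 := wow_sum hf2 (fun v => (hf v).2) hfσ hsY hJ0.le hJwN hG0
  have hs2 := wow_sum hh2 (fun v => (hh v).2) hhσ hsY' hJ0.le hJwN hG0
  have hgNN : g * N * N = g * N ^ 2 := by ring
  rw [hgNN] at hs1 hs2
  -- the arcs outside the exceptional vertices
  set H0 := S.filter (fun q => q.1 ∉ Et ∧ q.2 ∉ Eh) with hH0
  have hH0S : H0 ⊆ S := filter_subset _ _
  have hdo : ∀ v, v ∉ Et → |(od H0 v : ℝ) - ρ| ≤ 2 * (g * N) := by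
    intro v hv
    have e1 := abs_le.mp (dEt v hv)
    have e2 : (od S v : ℝ) ≤ od H0 v + Eh.card := by exact_mod_cast wow_del_o hv
    have e3 : (od H0 v : ℝ) ≤ od S v := by exact_mod_cast wow_sub_od hH0S v
    rw [abs_le]
    constructor <;> linarith [e1.1, e1.2]
  have hdi : ∀ v, v ∉ Eh → |(idg H0 v : ℝ) - ρ| ≤ 2 * (g * N) := by
    intro v hv
    have e1 := abs_le.mp (dEh v hv)
    have e2 : (idg S v : ℝ) ≤ idg H0 v + Et.card := by exact_mod_cast wow_del_i hv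
    have e3 : (idg H0 v : ℝ) ≤ idg S v := by exact_mod_cast wow_sub_id hH0S v
    rw [abs_le]
    constructor <;> linarith [e1.1, e1.2]
  have hcl : ∀ a, ∑ v ∈ Cl O a, f2 v = ∑ v ∈ Cl I a, h2 v := by
    intro a
    have e1 : ∑ v ∈ Cl O a, f2 v + ∑ v ∈ Cl O a, od Y v = ∑ v ∈ Cl O a, f v := by
      rw [← sum_add_distrib]
      exact sum_congr rfl fun v _ => hf2 v
    have e2 : ∑ v ∈ Cl I a, h2 v + ∑ v ∈ Cl I a, idg Y v = ∑ v ∈ Cl I a, h v := by
      rw [← sum_add_distrib]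
      exact sum_congr rfl fun v _ => hh2 v
    have e3 := hfh a
    have e4 := wow_own ownY a
    omega
  have hcast : ∀ k : ℕ, (((2 ^ j * k : ℕ)) : ℝ) = J * k := by
    intro k
    push_cast
    rfl
  obtain ⟨H1, hH1, hH1d⟩ := hWFa n K H0 O I Et Eh (fun v => 2 ^ j * f2 v) (fun v => 2 ^ j * h2 v)
    N ρ (J * w) (2 * (g * N)) β (ν / 2) (J * σ + 2 * (g * N ^ 2))
    (fun q hq => ⟨hB.own q (hH0S hq), (mem_filter.mp hq).2⟩) hdo hdi
    (fun v hv => by rw [hf2E v hv, mul_zero]) (fun v hv => by rw [hh2E v hv, mul_zero])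
    (by
      intro v hv
      rw [hcast]
      have e1 := hf2v v hv
      have e2 : J * (3 / 4 * w) ≤ J * f2 v := mul_le_mul_of_nonneg_left e1.1 hJ0.le
      have e3 : J * (f2 v : ℝ) ≤ J * w := mul_le_mul_of_nonneg_left e1.2 hJ0.le
      constructor <;> linarith)
    (by
      intro v hv
      rw [hcast]
      have e1 := hh2v v hv
      have e2 : J * (3 / 4 * w) ≤ J * h2 v := mul_le_mul_of_nonneg_left e1.1 hJ0.le
      have e3 : J * (h2 v : ℝ) ≤ J * w := mul_le_mul_of_nonneg_left e1.2 hJ0.le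
      constructor <;> linarith)
    (by
      intro a
      rw [← mul_sum, ← mul_sum, hcl])
    (by
      simp only [hcast]
      linarith)
    (by
      simp only [hcast]
      linarith)
    hB.szo hB.szi
    (by
      intro a X Y' hX hY' hx1 hx2
      have e1 := hB.rob a X Y' (hX.trans sdiff_subset) (hY'.trans sdiff_subset)
        (hx1.trans (by
          have : ((Cl I a \ Eh) \ Y').card ≤ (Cl I a \ Y').card :=
            card_le_card (sdiff_subset_sdiff sdiff_subset (subset_refl _))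
          have : (((Cl I a \ Eh) \ Y').card : ℝ) ≤ (Cl I a \ Y').card := by exact_mod_cast this
          linarith))
        (hx2.trans (by
          have : ((Cl O a \ Et) \ X).card ≤ (Cl O a \ X).card :=
            card_le_card (sdiff_subset_sdiff sdiff_subset (subset_refl _))
          have : (((Cl O a \ Et) \ X).card : ℝ) ≤ (Cl O a \ X).card := by exact_mod_cast this
          linarith))
      have e2 : (eb S X Y' + eb S (Cl O a \ X) (Cl I a \ Y') : ℝ) ≤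
          eb H0 X Y' + eb H0 ((Cl O a \ Et) \ X) ((Cl I a \ Eh) \ Y') +
            (Et.card * (Cl I a).card + (Cl O a).card * Eh.card) := by
        exact_mod_cast wow_rob hX hY'
      have e3 : (Et.card : ℝ) * (Cl I a).card ≤ (g * N) * N :=
        mul_le_mul cEt (hB.szi a) (Nat.cast_nonneg _) hG0
      have e4 : ((Cl O a).card : ℝ) * Eh.card ≤ N * (g * N) :=
        mul_le_mul (hB.szo a) cEh (Nat.cast_nonneg _) hN.le
      have e5 : N * (g * N) = g * N ^ 2 := by ring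
      have e6 : ν / 2 * N ^ 2 = ν * N ^ 2 / 2 := by ring
      rw [e6]
      linarith)
    hJw0 (by linarith) (by linarith) hρ2 (by linarith) (by linarith) (by linarith)
    (by
      have e1 : 4 * (ρ * (2 * (2 * (g * N)) * N + (J * σ + 2 * (g * N ^ 2)))) =
          ρ * (24 * (g * N ^ 2) + 4 * (J * σ)) := by ring
      have e2 : 24 * (g * N ^ 2) + 4 * (J * σ) ≤ ε1 * ν * N ^ 2 / 2 := by linarith
      have e3 : ρ * (24 * (g * N ^ 2) + 4 * (J * σ)) ≤ ρ * (ε1 * ν * N ^ 2 / 2) :=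
        mul_le_mul_of_nonneg_left e2 hρ0.le
      have e4 : ρ * (ε1 * ν * N ^ 2 / 2) = (ε1 * ρ) * (ν / 2 * N ^ 2) := by ring
      have e5 : (ε1 * ρ) * (ν / 2 * N ^ 2) ≤ (ρ - J * w) * (ν / 2 * N ^ 2) :=
        mul_le_mul_of_nonneg_right (by linarith) (by positivity)
      rw [e1]
      linarith)
    (by
      have e1 : 4 * (2 * (g * N) * N) + 4 * (J * σ + 2 * (g * N ^ 2)) =
          16 * (g * N ^ 2) + 4 * (J * σ) := by ring
      have e6 : ν / 2 * N ^ 2 = ν * N ^ 2 / 2 := by ring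
      rw [e1, e6]
      linarith)
  -- halving
  obtain ⟨W0, hW0, hW0d, hW0r⟩ := hHvs n j H1 f2 h2 hH1d
  have hW0H : W0 ⊆ H0 := hW0.trans hH1
  have hdis : Disjoint W0 Y := by
    rw [disjoint_left]
    intro q hq hq'
    have e1 := (mem_filter.mp (hW0H hq)).2
    rcases hYq q hq' with e2 | e2
    · exact e1.1 e2.1
    · exact e1.2 e2.2
  refine ⟨W0 ∪ Y, union_subset (hW0H.trans hH0S) hYS, ?_, ?_⟩
  · intro v
    constructor
    · rw [← hf2 v, ← (hW0d v).1]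
      unfold od
      rw [filter_union, card_union_of_disjoint (disjoint_filter_filter hdis)]
    · rw [← hh2 v, ← (hW0d v).2]
      unfold idg
      rw [filter_union, card_union_of_disjoint (disjoint_filter_filter hdis)]
  intro a X Y' hX hY' hx1 hx2
  have hH1S : H1 ⊆ S := hH1.trans hH0S
  have ownS := hB.own
  have ownH : ∀ q ∈ H1, O q.1 = I q.2 := fun q hq => hB.own q (hH1S hq)
  have m1 : (eb W0 X Y' : ℝ) ≤ eb (W0 ∪ Y) X Y' := by
    exact_mod_cast eb_mono subset_union_left (subset_refl _) (subset_refl _)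
  have m2 : (eb W0 (Cl O a \ X) (Cl I a \ Y') : ℝ) ≤
      eb (W0 ∪ Y) (Cl O a \ X) (Cl I a \ Y') := by
    exact_mod_cast eb_mono subset_union_left (subset_refl _) (subset_refl _)
  have k1 := hW0r X Y'
  have k2 := hW0r (Cl O a \ X) (Cl I a \ Y')
  rw [← hJ] at k1 k2
  have hodJ : ∀ v, (od H1 v : ℝ) = J * f2 v := fun v => by rw [(hH1d v).1, hcast]
  have hidJ : ∀ v, (idg H1 v : ℝ) = J * h2 v := fun v => by rw [(hH1d v).2, hcast]
  -- it is enough to bound `J` times the number of arcs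
  suffices hmain : J * κ ≤ J * ((eb W0 X Y' : ℝ) + eb W0 (Cl O a \ X) (Cl I a \ Y')) by
    have := le_of_mul_le_mul_left hmain hJ0
    linarith
  have hcase2 : (ρ * s0 / 8 ≤ (eb H1 X Y' : ℝ) + eb H1 (Cl O a \ X) (Cl I a \ Y')) →
      J * κ ≤ J * ((eb W0 X Y' : ℝ) + eb W0 (Cl O a \ X) (Cl I a \ Y')) := by
    intro hc
    have hs00 : 0 ≤ s0 := by linarith
    have e1 : J * w * s0 ≤ ρ * s0 := mul_le_mul_of_nonneg_right (by linarith) hs00
    have e2 : J * (256 * (n * Real.sqrt n)) ≤ J * (w * s0) := mul_le_mul_of_nonneg_left hn1 hJ0.le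
    have e3 : J * κ ≤ J * (w * s0 / 16) := mul_le_mul_of_nonneg_left hκ1 hJ0.le
    linarith
  by_cases c2 : (X.card : ℝ) + (Cl I a \ Y').card < β * N
  · apply hcase2
    have e1 := wow_c2 (Et := Et) (Eh := Eh) (r := ρ / 8) ownH hX hY' (by
        intro v hv
        rw [hodJ]
        have e2 : J * (3 / 4 * w) ≤ J * f2 v := mul_le_mul_of_nonneg_left (hf2v v hv).1 hJ0.le
        linarith) (by
        intro v hv
        rw [hidJ]
        have e2 : J * (3 / 4 * w) ≤ J * h2 v := mul_le_mul_of_nonneg_left (hh2v v hv).1 hJ0.le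
        linarith) (by linarith)
    have e2 : 2 * (ρ / 8) * (s0 / 2) ≤
        2 * (ρ / 8) * ((X.card : ℝ) + (Cl I a \ Y').card - Et.card - Eh.card) :=
      mul_le_mul_of_nonneg_left (by linarith) (by linarith)
    linarith
  by_cases c3 : ((Cl O a \ X).card : ℝ) + Y'.card < β * N
  · apply hcase2
    have e0 : Cl I a \ (Cl I a \ Y') = Y' := Finset.sdiff_sdiff_eq_self hY'
    have e0' : Cl O a \ (Cl O a \ X) = X := Finset.sdiff_sdiff_eq_self hX
    have e1 := wow_c2 (Et := Et) (Eh := Eh) (r := ρ / 8) ownH (X := Cl O a \ X)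
      (Y := Cl I a \ Y') (a := a) sdiff_subset sdiff_subset (by
        intro v hv
        rw [hodJ]
        have e2 : J * (3 / 4 * w) ≤ J * f2 v := mul_le_mul_of_nonneg_left (hf2v v hv).1 hJ0.le
        linarith) (by
        intro v hv
        rw [hidJ]
        have e2 : J * (3 / 4 * w) ≤ J * h2 v := mul_le_mul_of_nonneg_left (hh2v v hv).1 hJ0.le
        linarith) (by rw [e0]; linarith)
    rw [e0, e0'] at e1
    have e2 : 2 * (ρ / 8) * (s0 / 2) ≤
        2 * (ρ / 8) * (((Cl O a \ X).card : ℝ) + Y'.card - Et.card - Eh.card) :=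
      mul_le_mul_of_nonneg_left (by linarith) (by linarith)
    linarith
  · -- the first case
    have e1 := hB.rob a X Y' hX hY' (not_lt.mp c2) (not_lt.mp c3)
    have e2 : (eb S X Y' + eb S (Cl O a \ X) (Cl I a \ Y') + ∑ v ∈ Cl O a, (od H1 v : ℝ) : ℝ) ≤
        eb H1 X Y' + eb H1 (Cl O a \ X) (Cl I a \ Y') + ∑ v ∈ Cl O a, (od S v : ℝ) := by
      exact_mod_cast wow_c1 hH1S ownS hX hY'
    have e3 := wow_c1d (a := a) (Et := Et) (f2 := f2) (w := w) (J := J) (N := N) (G := g * N)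
      (ρ := ρ) (T := J * σ + g * N ^ 2) (H := H1) ownS (hB.szo a) hB.szi cEt
      (fun v hv => by linarith [(abs_le.mp (dEt v hv)).2]) (fun v _ => hodJ v)
      (fun v hv => mul_le_mul_of_nonneg_left (hf2v v hv).2 hJ0.le) hs1 (by linarith)
    have e4 : g * N * N + N * (ρ + g * N - J * w) + (J * σ + g * N ^ 2) =
        N * (ρ - J * w) + 3 * (g * N ^ 2) + J * σ := by ring
    have e5 : N * (ρ - J * w) ≤ N * (ν * N / 8) := mul_le_mul_of_nonneg_left hρN hN.le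
    have e6 : N * (ν * N / 8) = ν * N ^ 2 / 8 := by ring
    have e7 : J * κ ≤ J * (ν * N ^ 2 / (4 * J)) := mul_le_mul_of_nonneg_left hκ2 hJ0.le
    have e8 : J * (ν * N ^ 2 / (4 * J)) = ν * N ^ 2 / 4 := by
      field_simp
    linarith

end Pool.Agent.MPd266dbE
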