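import Pool.Agent.Lib.MP_d266db_co.E.SpecG

/-!
# MP_d266db_co, E: `W` for given hubs and cross arcs (helper91)
-/

set_option autoImplicit false

namespace Pool.Agent.MPd266dbE

open Finset Pool.Agent.MPd266db Pool.Agent.MPd266dbH

theorem wst_sum_od {n : ℕ} (Z : Finset (Fin n × Fin n)) : ∑ v : Fin n, od Z v = Z.card := by
  classical
  unfold od
  exact (card_eq_sum_card_fiberwise (fun e _ => mem_univ e.1)).symm

theorem wst_sum_idg {n : ℕ} (Z : Finset (Fin n × Fin n)) : ∑ v : Fin n, idg Z v = Z.card := by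
  classical
  unfold idg
  exact (card_eq_sum_card_fiberwise (fun e _ => mem_univ e.2)).symm

/-- the numbers which do not depend on the exact form of the constants -/
theorem wst_num {n k m J α θ βt νt ω ε1 ω0 θW κW x g ρ w q : ℝ} (hk : 2 ≤ k) (hm : 0 < m)
    (hn : k * m = n) (hJ : 1 ≤ J) (hα : 0 < α) (hθ : 0 < θ) (hβα : 16 * βt ≤ α) (hνt : 0 < νt)
    (hJω : 1 ≤ k * ω * J) (hJθ : 8 ≤ θ * J) (he1 : 0 < ε1) (he2 : ε1 ≤ νt / 16) (he3 : ε1 ≤ 1 / 4)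
    (hω0 : 0 < ω0) (hω0' : ω0 * (2 * (k * J)) = α) (hθW : 0 < θW) (hκ1 : κW ≤ ω0 * θW / 4096)
    (hκ2 : κW * (k ^ 2 * J) ≤ νt) (hx0 : 0 ≤ x) (hx : x * (4 * J * k ^ 2) ≤ ε1 * νt)
    (hg1 : 16 * g ≤ k * ω0) (hg2 : 4 * g ≤ ε1 * α) (hg4 : 1024 * g ≤ k * θW) (hg5 : 8 * g ≤ θ)
    (hρ1 : α * m ≤ ρ) (hρ2 : ρ ≤ m) (hw1 : J * w ≤ (1 - ε1) * ρ) (hw2 : (1 - ε1) * ρ - J ≤ J * w)
    (hA : 4 * J ≤ α * m) (hB : 8 * J ≤ νt * m) (hq : q ^ 2 = n) (hq0 : 0 < q)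
    (hC : 32768 ≤ ω0 * θW * q) (hD : 16 * (J * k ^ 2) ≤ νt * q) :
    ω0 * n ≤ w ∧ w ≤ ω * n ∧ w ≤ m ∧ ρ ≤ 2 * (J * w) ∧ ρ - J * w ≤ νt * (2 * m) / 8 ∧
      8 * (βt * (2 * m)) ≤ ρ ∧ w + g * (2 * m) ≤ θ / 4 * (2 * m) ∧ 8 * (g * (2 * m)) ≤ w ∧
      2 * (g * (2 * m)) ≤ ε1 * ρ ∧ 16 * (J * (x * n ^ 2)) ≤ ε1 * νt * (2 * m) ^ 2 ∧
      4 * (g * (2 * m)) ≤ θW / 128 * n ∧ κW * n ^ 2 ≤ w * (θW / 128 * n) / 16 ∧
      κW * n ^ 2 ≤ νt * (2 * m) ^ 2 / (4 * J) ∧ 256 * (n * q) ≤ w * (θW / 128 * n) ∧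
      64 * (J * (n * q)) ≤ νt * (2 * m) ^ 2 := by
  have hk0 : 0 < k := by linarith
  have hJ0 : 0 < J := by linarith
  have hn0 : 0 < n := hn ▸ mul_pos hk0 hm
  have hρ0 : 0 < ρ := lt_of_lt_of_le (mul_pos hα hm) hρ1
  -- `ε1 ρ ≤ ρ / 4`
  have e1 : ε1 * ρ ≤ 1 / 4 * ρ := mul_le_mul_of_nonneg_right he3 hρ0.le
  have e2 : ε1 * ρ ≤ νt / 16 * m := mul_le_mul he2 hρ2 hρ0.le (by positivity)
  have e3 : 0 < ε1 * ρ := mul_pos he1 hρ0
  have hw1' : J * w ≤ ρ - ε1 * ρ := by linarith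
  have hw2' : ρ - ε1 * ρ - J ≤ J * w := by linarith
  -- the lower bound for `w`
  have h1 : ω0 * n ≤ w := by
    have h2 : J * (ω0 * n) = α * m / 2 := by
      rw [← hn]
      calc J * (ω0 * (k * m)) = ω0 * (2 * (k * J)) * m / 2 := by ring
        _ = α * m / 2 := by rw [hω0']
    have h3 : J * (ω0 * n) ≤ J * w := by
      rw [h2]
      linarith
    exact le_of_mul_le_mul_left h3 hJ0
  have hw0 : 0 < w := lt_of_lt_of_le (mul_pos hω0 hn0) h1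
  have h4 : J * w ≤ m := by linarith
  have h5 : w ≤ m := by
    calc w = 1 * w := (one_mul w).symm
      _ ≤ J * w := mul_le_mul_of_nonneg_right hJ hw0.le
      _ ≤ m := h4
  have h6 : w ≤ θ * m / 8 := by
    have h7 : J * w ≤ J * (θ * m / 8) := by
      calc J * w ≤ m := h4
        _ = 8 * m / 8 := by ring
        _ ≤ θ * J * m / 8 := by
            have := mul_le_mul_of_nonneg_right hJθ hm.le
            linarith
        _ = J * (θ * m / 8) := by ring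
    exact le_of_mul_le_mul_left h7 hJ0
  refine ⟨h1, ?_, h5, ?_, ?_, ?_, ?_, ?_, ?_, ?_, ?_, ?_, ?_, ?_, ?_⟩
  · -- `w ≤ ω n`
    have h7 : J * w ≤ J * (ω * n) := by
      calc J * w ≤ 1 * m := by rw [one_mul]; exact h4
        _ ≤ k * ω * J * m := mul_le_mul_of_nonneg_right hJω hm.le
        _ = J * (ω * n) := by rw [← hn]; ring
    exact le_of_mul_le_mul_left h7 hJ0
  · -- `ρ ≤ 2 J w`
    linarith
  · linarith
  · have := mul_le_mul_of_nonneg_right hβα hm.le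
    linarith
  · have := mul_le_mul_of_nonneg_right hg5 hm.le
    linarith
  · have h7 := mul_le_mul_of_nonneg_right hg1 hm.le
    have h8 : k * ω0 * m = ω0 * n := by rw [← hn]; ring
    linarith
  · have h7 := mul_le_mul_of_nonneg_right hg2 hm.le
    have h8 := mul_le_mul_of_nonneg_left hρ1 he1.le
    linarith
  · have h7 := mul_le_mul_of_nonneg_right hx (sq_nonneg m)
    calc 16 * (J * (x * n ^ 2)) = x * (4 * J * k ^ 2) * m ^ 2 * 4 := by rw [← hn]; ring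
      _ ≤ ε1 * νt * m ^ 2 * 4 := by linarith
      _ = ε1 * νt * (2 * m) ^ 2 := by ring
  · have h7 := mul_le_mul_of_nonneg_right hg4 hm.le
    have h8 : k * θW * m = θW * n := by rw [← hn]; ring
    linarith
  · have h7 : κW * n ^ 2 ≤ ω0 * θW / 4096 * n ^ 2 := mul_le_mul_of_nonneg_right hκ1 (sq_nonneg n)
    have h8 : ω0 * n * (θW / 128 * n) ≤ w * (θW / 128 * n) :=
      mul_le_mul_of_nonneg_right h1 (by positivity)
    have h9 : 0 ≤ ω0 * θW * n ^ 2 := by positivity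
    calc κW * n ^ 2 ≤ ω0 * θW / 4096 * n ^ 2 := h7
      _ ≤ ω0 * n * (θW / 128 * n) / 16 := by
          have : ω0 * n * (θW / 128 * n) / 16 = ω0 * θW * n ^ 2 / 2048 := by ring
          rw [this]
          linarith
      _ ≤ w * (θW / 128 * n) / 16 := by linarith
  · rw [le_div_iff₀ (by positivity)]
    have h7 := mul_le_mul_of_nonneg_right hκ2 (sq_nonneg m)
    calc κW * n ^ 2 * (4 * J) = κW * (k ^ 2 * J) * m ^ 2 * 4 := by rw [← hn]; ring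
      _ ≤ νt * m ^ 2 * 4 := by linarith
      _ = νt * (2 * m) ^ 2 := by ring
  · have h8 : ω0 * n * (θW / 128 * n) ≤ w * (θW / 128 * n) :=
      mul_le_mul_of_nonneg_right h1 (by positivity)
    have h9 : 32768 * (n * q) ≤ ω0 * θW * q * (n * q) :=
      mul_le_mul_of_nonneg_right hC (by positivity)
    have h10 : ω0 * θW * q * (n * q) = ω0 * n * (θW / 128 * n) * 128 := by
      calc ω0 * θW * q * (n * q) = ω0 * θW * n * q ^ 2 := by ring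
        _ = ω0 * n * (θW / 128 * n) * 128 := by rw [hq]; ring
    linarith
  · have h9 : 16 * (J * k ^ 2) * (m ^ 2 * q) ≤ νt * q * (m ^ 2 * q) :=
      mul_le_mul_of_nonneg_right hD (by positivity)
    -- `64 J n q k² ≤ 4 νt q² n`..
    have h10 : 64 * (J * (n * q)) * n ≤ νt * (2 * m) ^ 2 * n := by
      calc 64 * (J * (n * q)) * n = 4 * (16 * (J * k ^ 2) * (m ^ 2 * q)) := by rw [← hn]; ring
        _ ≤ 4 * (νt * q * (m ^ 2 * q)) := by linarith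
        _ = νt * (2 * m) ^ 2 * q ^ 2 := by ring
        _ = νt * (2 * m) ^ 2 * n := by rw [hq]
    exact le_of_mul_le_mul_right h10 hn0

theorem wst_cast {w a b : ℕ} (h : 10 * (a + b) ≤ w) :
    ((w - (a + b) : ℕ) : ℝ) = w - (a + b) ∧ 9 * w ≤ 10 * (w - (a + b)) ∧ w - (a + b) ≤ w ∧
      w - (a + b) + (a + b) = w := by
  refine ⟨?_, by omega, by omega, by omega⟩
  rw [Nat.cast_sub (by omega)]
  push_cast
  ring

theorem tWst (hWOw : S_WOw) (hWHm : S_WHm) (hLnB : S_LnB) : S_Wst := by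
  intro α θ lam βt νt ω e hα hα1 hθ hθ1 hlam hβt hβα hνt hω he
  have hk : (2 : ℝ) ≤ (e : ℝ) + 1 := by
    have : (1 : ℝ) ≤ e := by exact_mod_cast he
    linarith
  have hk0 : (0 : ℝ) < (e : ℝ) + 1 := by linarith
  have hmin : 0 < min (((e : ℝ) + 1) * ω) (θ / 8) :=
    lt_min (mul_pos hk0 hω) (by linarith)
  obtain ⟨j, hj⟩ := pow_unbounded_of_one_lt (1 / min (((e : ℝ) + 1) * ω) (θ / 8))
    (one_lt_two : (1 : ℝ) < 2)
  rw [div_lt_iff₀ hmin] at hj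
  have hJ : (1 : ℝ) ≤ 2 ^ j := one_le_pow₀ (by norm_num)
  have hJ0 : (0 : ℝ) < 2 ^ j := by positivity
  have hJω : 1 ≤ ((e : ℝ) + 1) * ω * 2 ^ j := by
    have h1 := mul_le_mul_of_nonneg_left (min_le_left (((e : ℝ) + 1) * ω) (θ / 8)) hJ0.le
    linarith
  have hJθ : 8 ≤ θ * 2 ^ j := by
    have h1 := mul_le_mul_of_nonneg_left (min_le_right (((e : ℝ) + 1) * ω) (θ / 8)) hJ0.le
    linarith
  obtain ⟨ε1, he1, he2, he3⟩ : ∃ ε1 : ℝ, 0 < ε1 ∧ ε1 ≤ νt / 16 ∧ ε1 ≤ 1 / 4 :=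
    ⟨min (νt / 16) (1 / 4), lt_min (by linarith) (by norm_num), min_le_left _ _, min_le_right _ _⟩
  obtain ⟨ω0, hω0, hω0'⟩ : ∃ ω0 : ℝ, 0 < ω0 ∧ ω0 * (2 * (((e : ℝ) + 1) * 2 ^ j)) = α :=
    ⟨α / (2 * (((e : ℝ) + 1) * 2 ^ j)), by positivity, div_mul_cancel₀ _ (by positivity)⟩
  have hω01 : ω0 ≤ 1 := by
    have h1 : (2 : ℝ) * 1 ≤ ((e : ℝ) + 1) * 2 ^ j :=
      mul_le_mul hk hJ zero_le_one hk0.le
    have h2 : ω0 * 1 ≤ ω0 * (2 * (((e : ℝ) + 1) * 2 ^ j)) :=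
      mul_le_mul_of_nonneg_left (by linarith) hω0.le
    linarith
  obtain ⟨θW, hθW, hθWe⟩ : ∃ θW : ℝ, 0 < θW ∧ θW = ω0 / 4 := ⟨ω0 / 4, by linarith, rfl⟩
  obtain ⟨κW, hκ0, hκ1, hκ2⟩ : ∃ κW : ℝ, 0 < κW ∧ κW ≤ ω0 * θW / 4096 ∧
      κW * (((e : ℝ) + 1) ^ 2 * 2 ^ j) ≤ νt := by
    refine ⟨min (ω0 * θW / 4096) (νt / (((e : ℝ) + 1) ^ 2 * 2 ^ j)), lt_min (by positivity)
      (by positivity), min_le_left _ _, ?_⟩
    rw [← le_div_iff₀ (by positivity)]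
    exact min_le_right _ _
  obtain ⟨gW, n1, hgW, hn1⟩ := hWHm (2 * (e + 1)) θW (lam / (4 * ((e : ℝ) + 1))) κW (by omega) hθW
    (by linarith) (by positivity) hκ0
  obtain ⟨x, hx0, hx1, hx2, hx3, hx4, hx5⟩ : ∃ x : ℝ, 0 < x ∧ x ≤ gW ^ 2 / 2 ∧ x ≤ gW / 2 ∧
      x ≤ θW ∧ x ≤ κW / 2 ∧ x * (4 * 2 ^ j * ((e : ℝ) + 1) ^ 2) ≤ ε1 * νt := by
    refine ⟨min (min (min (gW ^ 2 / 2) (gW / 2)) (min θW (κW / 2)))
      (ε1 * νt / (4 * 2 ^ j * ((e : ℝ) + 1) ^ 2)), ?_, ?_, ?_, ?_, ?_, ?_⟩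
    · exact lt_min (lt_min (lt_min (by positivity) (by positivity))
        (lt_min hθW (by positivity))) (by positivity)
    · exact (min_le_left _ _).trans ((min_le_left _ _).trans (min_le_left _ _))
    · exact (min_le_left _ _).trans ((min_le_left _ _).trans (min_le_right _ _))
    · exact (min_le_left _ _).trans ((min_le_right _ _).trans (min_le_left _ _))
    · exact (min_le_left _ _).trans ((min_le_right _ _).trans (min_le_right _ _))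
    · rw [← le_div_iff₀ (by positivity)]
      exact min_le_right _ _
  obtain ⟨g, hg0, hg1, hg2, hg3, hg4, hg5⟩ : ∃ g : ℝ, 0 < g ∧ 16 * g ≤ ((e : ℝ) + 1) * ω0 ∧
      4 * g ≤ ε1 * α ∧ 96 * g ≤ ε1 * νt ∧ 1024 * g ≤ ((e : ℝ) + 1) * θW ∧ 8 * g ≤ θ := by
    refine ⟨min (min (((e : ℝ) + 1) * ω0 / 16) (ε1 * α / 4)) (min (ε1 * νt / 96)
      (min (((e : ℝ) + 1) * θW / 1024) (θ / 8))), ?_, ?_, ?_, ?_, ?_, ?_⟩
    · exact lt_min (lt_min (by positivity) (by positivity))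
        (lt_min (by positivity) (lt_min (by positivity) (by positivity)))
    · have := (min_le_left (min (((e : ℝ) + 1) * ω0 / 16) (ε1 * α / 4)) (min (ε1 * νt / 96)
        (min (((e : ℝ) + 1) * θW / 1024) (θ / 8)))).trans (min_le_left _ _)
      linarith
    · have := (min_le_left (min (((e : ℝ) + 1) * ω0 / 16) (ε1 * α / 4)) (min (ε1 * νt / 96)
        (min (((e : ℝ) + 1) * θW / 1024) (θ / 8)))).trans (min_le_right _ _)
      linarith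
    · have := (min_le_right (min (((e : ℝ) + 1) * ω0 / 16) (ε1 * α / 4)) (min (ε1 * νt / 96)
        (min (((e : ℝ) + 1) * θW / 1024) (θ / 8)))).trans (min_le_left _ _)
      linarith
    · have := (min_le_right (min (((e : ℝ) + 1) * ω0 / 16) (ε1 * α / 4)) (min (ε1 * νt / 96)
        (min (((e : ℝ) + 1) * θW / 1024) (θ / 8)))).trans
        ((min_le_right _ _).trans (min_le_left _ _))
      linarith
    · have := (min_le_right (min (((e : ℝ) + 1) * ω0 / 16) (ε1 * α / 4)) (min (ε1 * νt / 96)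
        (min (((e : ℝ) + 1) * θW / 1024) (θ / 8)))).trans
        ((min_le_right _ _).trans (min_le_right _ _))
      linarith
  -- large `n`
  obtain ⟨n2, hn2⟩ := exists_nat_gt (4 * 2 ^ j * ((e : ℝ) + 1) / α +
    8 * 2 ^ j * ((e : ℝ) + 1) / νt + (32768 / (ω0 * θW)) ^ 2 +
    (16 * (2 ^ j * ((e : ℝ) + 1) ^ 2) / νt) ^ 2 + 1)
  refine ⟨ω0, gW, x, g, max n1 n2, hω0, hgW, hx0, hg0, ?_⟩
  intro n hn K r R XL o i lv δ hK hr1 hr2 hL
  have hnn1 : n1 ≤ n := (le_max_left _ _).trans hn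
  have hnn2 : 4 * 2 ^ j * ((e : ℝ) + 1) / α +
      8 * 2 ^ j * ((e : ℝ) + 1) / νt + (32768 / (ω0 * θW)) ^ 2 +
      (16 * (2 ^ j * ((e : ℝ) + 1) ^ 2) / νt) ^ 2 + 1 < n :=
    hn2.trans_le (by exact_mod_cast (le_max_right _ _).trans hn)
  have p1 : 0 ≤ 4 * 2 ^ j * ((e : ℝ) + 1) / α := by positivity
  have p2 : 0 ≤ 8 * 2 ^ j * ((e : ℝ) + 1) / νt := by positivity
  have p3 : 0 ≤ (32768 / (ω0 * θW)) ^ 2 := by positivity
  have p4 : 0 ≤ (16 * (2 ^ j * ((e : ℝ) + 1) ^ 2) / νt) ^ 2 := by positivity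
  have hn0 : (0 : ℝ) < n := by linarith
  have hq0 : 0 < Real.sqrt n := Real.sqrt_pos.2 hn0
  have hq : Real.sqrt n ^ 2 = n := Real.sq_sqrt hn0.le
  obtain ⟨m, hm⟩ : ∃ m : ℝ, ((e : ℝ) + 1) * m = n := ⟨n / ((e : ℝ) + 1), mul_div_cancel₀ _ hk0.ne'⟩
  have hm0 : 0 < m := by
    have : 0 < ((e : ℝ) + 1) * m := by rw [hm]; exact hn0
    exact (mul_pos_iff_of_pos_left hk0).1 this
  have hN : 2 * (n : ℝ) / ((e : ℝ) + 1) = 2 * m := by
    rw [← hm]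
    field_simp
  have hA : 4 * 2 ^ j ≤ α * m := by
    have h1 : 4 * 2 ^ j * ((e : ℝ) + 1) / α ≤ n := by linarith
    rw [div_le_iff₀ hα, ← hm] at h1
    have h2 : (4 * 2 ^ j) * ((e : ℝ) + 1) ≤ (α * m) * ((e : ℝ) + 1) := by linarith
    exact le_of_mul_le_mul_right h2 hk0
  have hB : 8 * 2 ^ j ≤ νt * m := by
    have h1 : 8 * 2 ^ j * ((e : ℝ) + 1) / νt ≤ n := by linarith
    rw [div_le_iff₀ hνt, ← hm] at h1
    have h2 : (8 * 2 ^ j) * ((e : ℝ) + 1) ≤ (νt * m) * ((e : ℝ) + 1) := by linarith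
    exact le_of_mul_le_mul_right h2 hk0
  have hC : 32768 ≤ ω0 * θW * Real.sqrt n := by
    have h1 : 32768 / (ω0 * θW) ≤ Real.sqrt n := Real.le_sqrt_of_sq_le (by linarith)
    rw [div_le_iff₀ (by positivity)] at h1
    linarith
  have hD : 16 * (2 ^ j * ((e : ℝ) + 1) ^ 2) ≤ νt * Real.sqrt n := by
    have h1 : 16 * (2 ^ j * ((e : ℝ) + 1) ^ 2) / νt ≤ Real.sqrt n :=
      Real.le_sqrt_of_sq_le (by linarith)
    rw [div_le_iff₀ hνt] at h1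
    linarith
  obtain ⟨ρ, hρ⟩ : ∃ ρ : ℝ, ρ = (r : ℝ) / ((e : ℝ) + 1) := ⟨_, rfl⟩
  have hρk : ((e : ℝ) + 1) * ρ = r := by
    rw [hρ]
    exact mul_div_cancel₀ _ hk0.ne'
  have hρ1 : α * m ≤ ρ := by
    have h2 : ((e : ℝ) + 1) * (α * m) ≤ ((e : ℝ) + 1) * ρ := by
      rw [hρk]
      calc ((e : ℝ) + 1) * (α * m) = α * (((e : ℝ) + 1) * m) := by ring
        _ = α * n := by rw [hm]
        _ ≤ r := hr1
    exact le_of_mul_le_mul_left h2 hk0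
  have hρ2 : ρ ≤ m := by
    have h2 : ((e : ℝ) + 1) * ρ ≤ ((e : ℝ) + 1) * m := by
      rw [hρk, hm]
      exact_mod_cast hr2
    exact le_of_mul_le_mul_left h2 hk0
  have hρ0 : 0 < ρ := lt_of_lt_of_le (mul_pos hα hm0) hρ1
  obtain ⟨w, hw1, hw2⟩ : ∃ w : ℕ, 2 ^ j * (w : ℝ) ≤ (1 - ε1) * ρ ∧
      (1 - ε1) * ρ - 2 ^ j ≤ 2 ^ j * (w : ℝ) := by
    have h0 : 0 ≤ (1 - ε1) * ρ / 2 ^ j :=
      div_nonneg (mul_nonneg (by linarith) hρ0.le) hJ0.le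
    refine ⟨⌊(1 - ε1) * ρ / 2 ^ j⌋₊, ?_, ?_⟩
    · have h1 := Nat.floor_le h0
      rw [le_div_iff₀ hJ0] at h1
      linarith
    · have h1 := Nat.lt_floor_add_one ((1 - ε1) * ρ / 2 ^ j)
      rw [div_lt_iff₀ hJ0] at h1
      linarith
  obtain ⟨c1, c2, c3, c4, c5, c6, c7, c8, c9, c10, c11, c12, c13, c14, c15⟩ :=
    wst_num hk hm0 hm hJ hα hθ hβα hνt hJω hJθ he1 he2 he3 hω0 hω0' hθW hκ1 hκ2 hx0.le hx5 hg1 hg2
      hg4 hg5 hρ1 hρ2 hw1 hw2 hA hB hq hq0 hC hD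
  have hwr : (0 : ℝ) < w := lt_of_lt_of_le (mul_pos hω0 hn0) c1
  have hwn : (w : ℝ) ≤ n := by
    have : m ≤ n := by
      rw [← hm]
      have := mul_le_mul_of_nonneg_right hk hm0.le
      linarith
    linarith
  refine ⟨w, c1, c2, ?_⟩
  intro XW HbA h hdeg hcard hsum hh
  have hbx := hL.bx
  rw [hN, ← hρ] at hbx
  have hcard' : ∀ (f1 f2 : Fin n → ℕ), (∀ v, 10 * (f1 v + f2 v) ≤ w) → (∑ v, f1 v = XW.card) →
      (∑ v, f2 v = HbA.card) →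
      ∑ v, ((w : ℝ) - ((w - (f1 v + f2 v) : ℕ) : ℝ)) ≤ x * (n : ℝ) ^ 2 := by
    intro f1 f2 h1 h2 h3
    have h4 : ∀ v, (w : ℝ) - ((w - (f1 v + f2 v) : ℕ) : ℝ) = ((f1 v + f2 v : ℕ) : ℝ) := by
      intro v
      rw [(wst_cast (h1 v)).1]
      push_cast
      ring
    rw [sum_congr rfl fun v _ => h4 v, ← Nat.cast_sum, sum_add_distrib, h2, h3]
    push_cast
    exact hcard
  have s1 := hcard' (fun v => od XW v) (fun v => od HbA v) (fun v => (hdeg v).1) (wst_sum_od XW)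
    (wst_sum_od HbA)
  have s2 := hcard' (fun v => idg XW v) (fun v => idg HbA v) (fun v => (hdeg v).2)
    (wst_sum_idg XW) (wst_sum_idg HbA)
  obtain ⟨Wo, hWo, hWd, hWr⟩ := hWOw n ((e + 1) * K) j w (wnd e lv (own o i R)) (bxo e lv o)
    (bxi e lv i) (2 * m) (θ / 4) ρ g βt νt ε1 (x * (n : ℝ) ^ 2) (θW / 128 * n) (κW * (n : ℝ) ^ 2)
    (fun v => w - (od XW v + od HbA v)) (fun v => w - (idg XW v + idg HbA v)) hbx (by linarith)
    hg0.le he1 (by linarith) hνt hw1 (by exact_mod_cast hwr) c4 c5 c6 c7 c8 c9 hg3 (by positivity)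
    c10 (fun v => ⟨(wst_cast (hdeg v).1).2.1, (wst_cast (hdeg v).1).2.2.1⟩)
    (fun v => ⟨(wst_cast (hdeg v).2).2.1, (wst_cast (hdeg v).2).2.2.1⟩) hsum s1 s2 c11 c12 c13 c14
    c15
  refine ⟨Wo, hWo, fun v => ?_, ?_⟩
  · rw [(hWd v).1, (hWd v).2]
    exact ⟨(wst_cast (hdeg v).1).2.2.2, (wst_cast (hdeg v).2).2.2.2⟩
  · have hθn : 2 * θW * n ≤ 9 / 10 * w := by
      have h1 : 2 * θW * n = ω0 * n / 2 := by
        rw [hθWe]
        ring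
      rw [h1]
      linarith
    have hlow : ∀ a : ℕ, 9 * w ≤ 10 * a → 2 * θW * n ≤ (a : ℝ) := by
      intro a ha
      have h1 : (9 : ℝ) * w ≤ 10 * a := by exact_mod_cast ha
      linarith
    obtain ⟨a, ha⟩ := hL.typ
    refine hn1 n hnn1 ((e + 1) * K) w h Wo (bxo e lv o) (bxi e lv i) ?_ ?_ ?_ ?_ ?_ ?_ ?_ ?_ ?_ ?_
      ?_ hWr
    · rw [mul_comm 2 (e + 1)]
      exact Nat.mul_le_mul_left _ hK
    · intro q hq
      exact hbx.own q (hWo hq)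
    · exact_mod_cast hwn
    · intro v
      rw [(hWd v).1]
      exact ⟨hlow _ (wst_cast (hdeg v).1).2.1, (wst_cast (hdeg v).1).2.2.1⟩
    · intro v
      rw [(hWd v).2]
      exact ⟨hlow _ (wst_cast (hdeg v).2).2.1, (wst_cast (hdeg v).2).2.2.1⟩
    · rw [sum_congr rfl fun v _ => by rw [(hWd v).1]]
      have h1 := mul_le_mul_of_nonneg_right hx1 (sq_nonneg (n : ℝ))
      linarith
    · rw [sum_congr rfl fun v _ => by rw [(hWd v).2]]
      have h1 := mul_le_mul_of_nonneg_right hx1 (sq_nonneg (n : ℝ))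
      linarith
    · have h1 := mul_le_mul_of_nonneg_right hx2 hn0.le
      linarith
    · exact hh.trans (mul_le_mul_of_nonneg_right hx3 hn0.le)
    · have h1 := mul_le_mul_of_nonneg_right hx4 hn0.le
      linarith
    · exact hLnB n K e o i lv (lam / (4 * ((e : ℝ) + 1))) a hK hL.lev.le ha

end Pool.Agent.MPd266dbE
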