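import Pool.Agent.Lib.MP_d266db_co.E.SpecD

/-!
# MP_d266db_co, E: vertex-disjoint arcs
-/

set_option autoImplicit false

namespace Pool.Agent.MPd266dbE

open Finset Pool.Agent.MPd266db Pool.Agent.MPd266dbH

theorem xpk_step {n : ℕ} (Δ p m : ℕ) (X X' P : Finset (Fin n × Fin n)) (hX' : X' ⊆ X)
    (hX : ∀ q ∈ X, q.1 ≠ q.2) (hD : Dg X Δ) (hΔ : 1 ≤ Δ) (hc : 4 * Δ * p ≤ X'.card) (hm : m < p)
    (hP : P ⊆ X') (hV : VD P) (hPc : P.card = m) : ∃ P' ⊆ X', VD P' ∧ P'.card = m + 1 := by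
  classical
  have hb : (P.biUnion fun e => ((X.filter fun q => q.1 = e.1) ∪ (X.filter fun q => q.2 = e.1)) ∪
      ((X.filter fun q => q.1 = e.2) ∪ (X.filter fun q => q.2 = e.2))).card ≤ m * (4 * Δ) := by
    refine card_biUnion_le.trans ?_
    rw [← hPc, ← smul_eq_mul]
    refine sum_le_card_nsmul _ _ _ fun e _ => ?_
    have h1 := card_union_le ((X.filter fun q => q.1 = e.1) ∪ (X.filter fun q => q.2 = e.1))
      ((X.filter fun q => q.1 = e.2) ∪ (X.filter fun q => q.2 = e.2))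
    have h2 := card_union_le (X.filter fun q => q.1 = e.1) (X.filter fun q => q.2 = e.1)
    have h3 := card_union_le (X.filter fun q => q.1 = e.2) (X.filter fun q => q.2 = e.2)
    have h4 : (X.filter fun q => q.1 = e.1).card ≤ Δ := (hD e.1).1
    have h5 : (X.filter fun q => q.2 = e.1).card ≤ Δ := (hD e.1).2
    have h6 : (X.filter fun q => q.1 = e.2).card ≤ Δ := (hD e.2).1
    have h7 : (X.filter fun q => q.2 = e.2).card ≤ Δ := (hD e.2).2
    omega
  have hlt : (P.biUnion fun e => ((X.filter fun q => q.1 = e.1) ∪ (X.filter fun q => q.2 = e.1)) ∪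
      ((X.filter fun q => q.1 = e.2) ∪ (X.filter fun q => q.2 = e.2))).card < X'.card := by
    have h1 : m * (4 * Δ) < p * (4 * Δ) := Nat.mul_lt_mul_of_pos_right hm (by omega)
    have h2 : p * (4 * Δ) = 4 * Δ * p := Nat.mul_comm _ _
    omega
  obtain ⟨q, hq, hqn⟩ := exists_mem_notMem_of_card_lt_card hlt
  have hq1 : ∀ e ∈ P, q.1 ≠ e.1 ∧ q.2 ≠ e.1 ∧ q.1 ≠ e.2 ∧ q.2 ≠ e.2 := by
    intro e he
    have h1 : q ∉ ((X.filter fun q => q.1 = e.1) ∪ (X.filter fun q => q.2 = e.1)) ∪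
      ((X.filter fun q => q.1 = e.2) ∪ (X.filter fun q => q.2 = e.2)) := fun h =>
        hqn (mem_biUnion.2 ⟨e, he, h⟩)
    simp only [mem_union, mem_filter, not_or, not_and] at h1
    have h2 := hX' hq
    exact ⟨h1.1.1 h2, h1.1.2 h2, h1.2.1 h2, h1.2.2 h2⟩
  have hqP : q ∉ P := fun h => (hq1 q h).1 rfl
  refine ⟨insert q P, insert_subset hq hP, ⟨?_, ?_⟩, by rw [card_insert_of_notMem hqP, hPc]⟩
  · intro e he e' he' hne
    rcases mem_insert.1 he with h1 | h1 <;> rcases mem_insert.1 he' with h2 | h2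
    · exact absurd (h1.trans h2.symm) hne
    · rw [h1]
      exact ⟨(hq1 e' h2).1, (hq1 e' h2).2.2.2⟩
    · rw [h2]
      exact ⟨(hq1 e h1).1.symm, (hq1 e h1).2.2.2.symm⟩
    · exact hV.1 e h1 e' h2 hne
  · intro e he e' he'
    rcases mem_insert.1 he with h1 | h1 <;> rcases mem_insert.1 he' with h2 | h2
    · rw [h1, h2]
      exact hX q (hX' hq)
    · rw [h1]
      exact (hq1 e' h2).2.2.1
    · rw [h2]
      exact (hq1 e h1).2.1.symm
    · exact hV.2 e h1 e' h2

theorem tXPk : S_XPk := by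
  classical
  intro n p Δ X U V hX hD hΔ hc
  obtain ⟨X', hX'⟩ : ∃ X' : Finset (Fin n × Fin n),
    X' = X.filter fun q => q ∉ U ∧ q.1 ∉ V ∧ q.2 ∉ V := ⟨_, rfl⟩
  have hsub : X' ⊆ X := by rw [hX']; exact filter_subset _ _
  have hcard : 4 * Δ * p ≤ X'.card := by
    have h1 : X ⊆ X' ∪ (U ∪ ((V.biUnion fun v => X.filter fun e => e.1 = v) ∪
        (V.biUnion fun v => X.filter fun e => e.2 = v))) := by
      intro q hq
      simp only [hX', mem_union, mem_filter, mem_biUnion]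
      by_cases a1 : q ∈ U
      · exact Or.inr (Or.inl a1)
      by_cases a2 : q.1 ∈ V
      · exact Or.inr (Or.inr (Or.inl ⟨q.1, a2, hq, rfl⟩))
      by_cases a3 : q.2 ∈ V
      · exact Or.inr (Or.inr (Or.inr ⟨q.2, a3, hq, rfl⟩))
      exact Or.inl ⟨hq, a1, a2, a3⟩
    have h2 := card_le_card h1
    have h3 := card_union_le X' (U ∪ ((V.biUnion fun v => X.filter fun e => e.1 = v) ∪
        (V.biUnion fun v => X.filter fun e => e.2 = v)))
    have h4 := card_union_le U ((V.biUnion fun v => X.filter fun e => e.1 = v) ∪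
        (V.biUnion fun v => X.filter fun e => e.2 = v))
    have h5 := card_union_le (V.biUnion fun v => X.filter fun e => e.1 = v)
        (V.biUnion fun v => X.filter fun e => e.2 = v)
    have h6 : (V.biUnion fun v => X.filter fun e => e.1 = v).card ≤ ∑ v ∈ V, od X v :=
      card_biUnion_le
    have h7 : (V.biUnion fun v => X.filter fun e => e.2 = v).card ≤ ∑ v ∈ V, idg X v :=
      card_biUnion_le
    rw [sum_add_distrib] at hc
    omega
  have key : ∀ m, m ≤ p → ∃ P ⊆ X', VD P ∧ P.card = m := by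
    intro m
    induction m with
    | zero =>
      intro _
      exact ⟨∅, empty_subset _, ⟨fun e he => absurd he (notMem_empty _),
        fun e he => absurd he (notMem_empty _)⟩, card_empty⟩
    | succ m ih =>
      intro hm
      obtain ⟨P, h1, h2, h3⟩ := ih (by omega)
      exact xpk_step Δ p m X X' P hsub hX hD hΔ hcard (by omega) h1 h2 h3
  obtain ⟨P, h1, h2, h3⟩ := key p le_rfl
  refine ⟨P, ?_, h2, h3, ?_⟩
  · intro q hq
    have h4 := h1 hq
    rw [hX', mem_filter] at h4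
    exact mem_sdiff.2 ⟨h4.1, h4.2.1⟩
  · intro q hq
    have h4 := h1 hq
    rw [hX', mem_filter] at h4
    exact h4.2.2

end Pool.Agent.MPd266dbE
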