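import Pool.Agent.Lib.MP_d266db_co.E.SpecF

/-!
# MP_d266db_co, E: the arcs at the exceptional vertices
-/

set_option autoImplicit false

namespace Pool.Agent.MPd266dbE

open Finset Pool.Agent.MPd266db Pool.Agent.MPd266dbH

/-- the arcs of `S` with `f q = v` and `g q` outside `E` -/
private theorem y0_cnt {n : ℕ} (S : Finset (Fin n × Fin n)) (f g : Fin n × Fin n → Fin n)
    (hfg : ∀ q q', f q = f q' → g q = g q' → q = q') (E : Finset (Fin n)) (v : Fin n) (m : ℕ)
    (h : m + E.card ≤ (S.filter (fun q => f q = v)).card) :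
    ∃ P ⊆ S.filter (fun q => f q = v ∧ g q ∉ E), P.card = m := by
  classical
  refine exists_subset_card_eq ?_
  have h1 : (S.filter (fun q => f q = v)).card ≤
      (S.filter (fun q => f q = v ∧ g q ∉ E)).card + E.card := by
    have h2 : (S.filter (fun q => f q = v ∧ g q ∈ E)).card ≤ E.card := by
      refine card_le_card_of_injOn g (fun q hq => ?_) (fun q hq q' hq' hqq => ?_)
      · exact (mem_filter.1 hq).2.2
      · have h3 := (mem_filter.1 hq).2.1
        have h4 := (mem_filter.1 hq').2.1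
        exact hfg q q' (h3.trans h4.symm) hqq
    have h3 : (S.filter (fun q => f q = v)).card =
        (S.filter (fun q => f q = v ∧ g q ∈ E)).card +
          (S.filter (fun q => f q = v ∧ g q ∉ E)).card := by
      rw [← card_union_of_disjoint]
      · congr 1
        ext q
        simp only [mem_filter, mem_union]
        tauto
      · rw [disjoint_left]
        intro q hq hq'
        exact (mem_filter.1 hq').2.2 (mem_filter.1 hq).2.2
    omega
  omega

theorem tY0 : S_Y0 := by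
  classical
  intro n S Et Eh f g hf hg
  have h1 : ∀ v, ∃ P : Finset (Fin n × Fin n), v ∈ Et →
      P ⊆ S.filter (fun q => q.1 = v ∧ q.2 ∉ Eh) ∧ P.card = f v := by
    intro v
    by_cases hv : v ∈ Et
    · obtain ⟨P, hP, hc⟩ := y0_cnt S Prod.fst Prod.snd (fun q q' h h' => Prod.ext h h') Eh v (f v)
        (hf v hv)
      exact ⟨P, fun _ => ⟨hP, hc⟩⟩
    · exact ⟨∅, fun h => absurd h hv⟩
  have h2 : ∀ v, ∃ P : Finset (Fin n × Fin n), v ∈ Eh →
      P ⊆ S.filter (fun q => q.2 = v ∧ q.1 ∉ Et) ∧ P.card = g v := by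
    intro v
    by_cases hv : v ∈ Eh
    · obtain ⟨P, hP, hc⟩ := y0_cnt S Prod.snd Prod.fst (fun q q' h h' => Prod.ext h' h) Et v (g v)
        (hg v hv)
      exact ⟨P, fun _ => ⟨hP, hc⟩⟩
    · exact ⟨∅, fun h => absurd h hv⟩
  choose P hP using h1
  choose R hR using h2
  have hPm : ∀ v ∈ Et, ∀ q ∈ P v, q ∈ S ∧ q.1 = v ∧ q.2 ∉ Eh := fun v hv q hq =>
    mem_filter.1 ((hP v hv).1 hq)
  have hRm : ∀ v ∈ Eh, ∀ q ∈ R v, q ∈ S ∧ q.2 = v ∧ q.1 ∉ Et := fun v hv q hq =>
    mem_filter.1 ((hR v hv).1 hq)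
  refine ⟨Et.biUnion P ∪ Eh.biUnion R, ?_, ?_, ?_, ?_, ?_, ?_⟩
  · intro q hq
    rcases mem_union.1 hq with h | h
    · obtain ⟨v, hv, hq⟩ := mem_biUnion.1 h
      exact (hPm v hv q hq).1
    · obtain ⟨v, hv, hq⟩ := mem_biUnion.1 h
      exact (hRm v hv q hq).1
  · intro q hq
    rcases mem_union.1 hq with h | h
    · obtain ⟨v, hv, hq⟩ := mem_biUnion.1 h
      obtain ⟨-, h3, h4⟩ := hPm v hv q hq
      exact Or.inl ⟨h3 ▸ hv, h4⟩
    · obtain ⟨v, hv, hq⟩ := mem_biUnion.1 h
      obtain ⟨-, h3, h4⟩ := hRm v hv q hq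
      exact Or.inr ⟨h4, h3 ▸ hv⟩
  · intro v hv
    rw [← (hP v hv).2]
    unfold od
    congr 1
    ext q
    simp only [mem_filter, mem_union, mem_biUnion]
    constructor
    · rintro ⟨h | h, hq1⟩
      · obtain ⟨u, hu, hq⟩ := h
        have h3 := (hPm u hu q hq).2.1
        have h4 : u = v := h3.symm.trans hq1
        subst h4
        exact hq
      · obtain ⟨u, hu, hq⟩ := h
        exact absurd (hq1 ▸ hv : q.1 ∈ Et) (hRm u hu q hq).2.2
    · intro hq
      exact ⟨Or.inl ⟨v, hv, hq⟩, (hPm v hv q hq).2.1⟩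
  · intro v hv
    rw [← (hR v hv).2]
    unfold idg
    congr 1
    ext q
    simp only [mem_filter, mem_union, mem_biUnion]
    constructor
    · rintro ⟨h | h, hq1⟩
      · obtain ⟨u, hu, hq⟩ := h
        exact absurd (hq1 ▸ hv : q.2 ∈ Eh) (hPm u hu q hq).2.2
      · obtain ⟨u, hu, hq⟩ := h
        have h3 := (hRm u hu q hq).2.1
        have h4 : u = v := h3.symm.trans hq1
        subst h4
        exact hq
    · intro hq
      exact ⟨Or.inr ⟨v, hv, hq⟩, (hRm v hv q hq).2.1⟩
  · intro v hv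
    unfold od
    refine card_le_card_of_injOn Prod.snd (fun q hq => ?_) (fun q hq q' hq' hqq => ?_)
    · obtain ⟨hq1, hq2⟩ := mem_filter.1 hq
      rcases mem_union.1 hq1 with h | h
      · obtain ⟨u, hu, hq⟩ := mem_biUnion.1 h
        have h3 := (hPm u hu q hq).2.1
        exact absurd ((h3.symm.trans hq2) ▸ hu : v ∈ Et) hv
      · obtain ⟨u, hu, hq⟩ := mem_biUnion.1 h
        have h3 := (hRm u hu q hq).2.1
        show q.2 ∈ Eh
        rw [h3]
        exact hu
    · exact Prod.ext ((mem_filter.1 hq).2.trans (mem_filter.1 hq').2.symm) hqq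
  · intro v hv
    unfold idg
    refine card_le_card_of_injOn Prod.fst (fun q hq => ?_) (fun q hq q' hq' hqq => ?_)
    · obtain ⟨hq1, hq2⟩ := mem_filter.1 hq
      rcases mem_union.1 hq1 with h | h
      · obtain ⟨u, hu, hq⟩ := mem_biUnion.1 h
        have h3 := (hPm u hu q hq).2.1
        show q.1 ∈ Et
        rw [h3]
        exact hu
      · obtain ⟨u, hu, hq⟩ := mem_biUnion.1 h
        have h3 := (hRm u hu q hq).2.1
        exact absurd ((h3.symm.trans hq2) ▸ hu : v ∈ Eh) hv
    · exact Prod.ext hqq ((mem_filter.1 hq).2.trans (mem_filter.1 hq').2.symm)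

end Pool.Agent.MPd266dbE
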