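import Pool.Agent.Lib.MP_d266db_co.Aug
import Pool.Agent.Lib.MP_d266db_co.Avg
import Pool.Agent.Lib.MP_d266db_co.Cap
import Pool.Agent.Lib.MP_d266db_co.CloE
import Pool.Agent.Lib.MP_d266db_co.CntP
import Pool.Agent.Lib.MP_d266db_co.CntR
import Pool.Agent.Lib.MP_d266db_co.CntY
import Pool.Agent.Lib.MP_d266db_co.Cut
import Pool.Agent.Lib.MP_d266db_co.CutD
import Pool.Agent.Lib.MP_d266db_co.Cyc
import Pool.Agent.Lib.MP_d266db_co.E.AbR
import Pool.Agent.Lib.MP_d266db_co.E.AbX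
import Pool.Agent.Lib.MP_d266db_co.E.Abp
import Pool.Agent.Lib.MP_d266db_co.E.Adj
import Pool.Agent.Lib.MP_d266db_co.E.Aex
import Pool.Agent.Lib.MP_d266db_co.E.AvX
import Pool.Agent.Lib.MP_d266db_co.E.BSb
import Pool.Agent.Lib.MP_d266db_co.E.Bas
import Pool.Agent.Lib.MP_d266db_co.E.BxR
import Pool.Agent.Lib.MP_d266db_co.E.Bxh
import Pool.Agent.Lib.MP_d266db_co.E.Cmp
import Pool.Agent.Lib.MP_d266db_co.E.CnQ
import Pool.Agent.Lib.MP_d266db_co.E.Col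
import Pool.Agent.Lib.MP_d266db_co.E.ConP
import Pool.Agent.Lib.MP_d266db_co.E.CpD
import Pool.Agent.Lib.MP_d266db_co.E.Ctr
import Pool.Agent.Lib.MP_d266db_co.E.CvP
import Pool.Agent.Lib.MP_d266db_co.E.Cvr
import Pool.Agent.Lib.MP_d266db_co.E.Dch
import Pool.Agent.Lib.MP_d266db_co.E.Ent
import Pool.Agent.Lib.MP_d266db_co.E.Ex
import Pool.Agent.Lib.MP_d266db_co.E.FbP
import Pool.Agent.Lib.MP_d266db_co.E.Fin
import Pool.Agent.Lib.MP_d266db_co.E.Fnl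
import Pool.Agent.Lib.MP_d266db_co.E.FoC
import Pool.Agent.Lib.MP_d266db_co.E.Fob
import Pool.Agent.Lib.MP_d266db_co.E.Frz
import Pool.Agent.Lib.MP_d266db_co.E.Gcm
import Pool.Agent.Lib.MP_d266db_co.E.Gdy
import Pool.Agent.Lib.MP_d266db_co.E.Grd
import Pool.Agent.Lib.MP_d266db_co.E.HAM
import Pool.Agent.Lib.MP_d266db_co.E.HAM0
import Pool.Agent.Lib.MP_d266db_co.E.HBN
import Pool.Agent.Lib.MP_d266db_co.E.Hal
import Pool.Agent.Lib.MP_d266db_co.E.HbX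
import Pool.Agent.Lib.MP_d266db_co.E.HfX
import Pool.Agent.Lib.MP_d266db_co.E.HiL
import Pool.Agent.Lib.MP_d266db_co.E.HmQ
import Pool.Agent.Lib.MP_d266db_co.E.Hvs
import Pool.Agent.Lib.MP_d266db_co.E.Imb
import Pool.Agent.Lib.MP_d266db_co.E.InK
import Pool.Agent.Lib.MP_d266db_co.E.InK1
import Pool.Agent.Lib.MP_d266db_co.E.K23
import Pool.Agent.Lib.MP_d266db_co.E.K2Q
import Pool.Agent.Lib.MP_d266db_co.E.K3
import Pool.Agent.Lib.MP_d266db_co.E.LFu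
import Pool.Agent.Lib.MP_d266db_co.E.Lev
import Pool.Agent.Lib.MP_d266db_co.E.Lks
import Pool.Agent.Lib.MP_d266db_co.E.LnB
import Pool.Agent.Lib.MP_d266db_co.E.LnQ
import Pool.Agent.Lib.MP_d266db_co.E.LoW
import Pool.Agent.Lib.MP_d266db_co.E.LwL
import Pool.Agent.Lib.MP_d266db_co.E.Mai
import Pool.Agent.Lib.MP_d266db_co.E.Mcy
import Pool.Agent.Lib.MP_d266db_co.E.Mov
import Pool.Agent.Lib.MP_d266db_co.E.Obj
import Pool.Agent.Lib.MP_d266db_co.E.PXb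
import Pool.Agent.Lib.MP_d266db_co.E.PXc
import Pool.Agent.Lib.MP_d266db_co.E.Par
import Pool.Agent.Lib.MP_d266db_co.E.Per
import Pool.Agent.Lib.MP_d266db_co.E.Pfx
import Pool.Agent.Lib.MP_d266db_co.E.Phi
import Pool.Agent.Lib.MP_d266db_co.E.Pot
import Pool.Agent.Lib.MP_d266db_co.E.PrM
import Pool.Agent.Lib.MP_d266db_co.E.Pre
import Pool.Agent.Lib.MP_d266db_co.E.PtF
import Pool.Agent.Lib.MP_d266db_co.E.Pth
import Pool.Agent.Lib.MP_d266db_co.E.Ptn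
import Pool.Agent.Lib.MP_d266db_co.E.Pts
import Pool.Agent.Lib.MP_d266db_co.E.RbS
import Pool.Agent.Lib.MP_d266db_co.E.Rmt0
import Pool.Agent.Lib.MP_d266db_co.E.Rnd
import Pool.Agent.Lib.MP_d266db_co.E.Rst
import Pool.Agent.Lib.MP_d266db_co.E.Run
import Pool.Agent.Lib.MP_d266db_co.E.Slt
import Pool.Agent.Lib.MP_d266db_co.E.SmB
import Pool.Agent.Lib.MP_d266db_co.E.SpC
import Pool.Agent.Lib.MP_d266db_co.E.St1
import Pool.Agent.Lib.MP_d266db_co.E.St2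
import Pool.Agent.Lib.MP_d266db_co.E.StA
import Pool.Agent.Lib.MP_d266db_co.E.StB
import Pool.Agent.Lib.MP_d266db_co.E.StC
import Pool.Agent.Lib.MP_d266db_co.E.Str
import Pool.Agent.Lib.MP_d266db_co.E.SzB
import Pool.Agent.Lib.MP_d266db_co.E.TCl
import Pool.Agent.Lib.MP_d266db_co.E.TEx
import Pool.Agent.Lib.MP_d266db_co.E.TRp
import Pool.Agent.Lib.MP_d266db_co.E.Tgl
import Pool.Agent.Lib.MP_d266db_co.E.Un1
import Pool.Agent.Lib.MP_d266db_co.E.UnD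
import Pool.Agent.Lib.MP_d266db_co.E.Unt
import Pool.Agent.Lib.MP_d266db_co.E.WCx
import Pool.Agent.Lib.MP_d266db_co.E.WFa
import Pool.Agent.Lib.MP_d266db_co.E.WHm
import Pool.Agent.Lib.MP_d266db_co.E.WOw
import Pool.Agent.Lib.MP_d266db_co.E.Wst
import Pool.Agent.Lib.MP_d266db_co.E.XM0
import Pool.Agent.Lib.MP_d266db_co.E.XPk
import Pool.Agent.Lib.MP_d266db_co.E.Y0
import Pool.Agent.Lib.MP_d266db_co.Fac
import Pool.Agent.Lib.MP_d266db_co.Gap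
import Pool.Agent.Lib.MP_d266db_co.H.Bad
import Pool.Agent.Lib.MP_d266db_co.H.Cake
import Pool.Agent.Lib.MP_d266db_co.H.Cel
import Pool.Agent.Lib.MP_d266db_co.H.ChB
import Pool.Agent.Lib.MP_d266db_co.H.ChL
import Pool.Agent.Lib.MP_d266db_co.H.Chf
import Pool.Agent.Lib.MP_d266db_co.H.Chn
import Pool.Agent.Lib.MP_d266db_co.H.Cls
import Pool.Agent.Lib.MP_d266db_co.H.Clu
import Pool.Agent.Lib.MP_d266db_co.H.Cnt
import Pool.Agent.Lib.MP_d266db_co.H.DcA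
import Pool.Agent.Lib.MP_d266db_co.H.Dcp
import Pool.Agent.Lib.MP_d266db_co.H.Dec1
import Pool.Agent.Lib.MP_d266db_co.H.Dis
import Pool.Agent.Lib.MP_d266db_co.H.ExpR
import Pool.Agent.Lib.MP_d266db_co.H.Ext
import Pool.Agent.Lib.MP_d266db_co.H.Fct
import Pool.Agent.Lib.MP_d266db_co.H.Fix
import Pool.Agent.Lib.MP_d266db_co.H.Four
import Pool.Agent.Lib.MP_d266db_co.H.Grp
import Pool.Agent.Lib.MP_d266db_co.H.Had
import Pool.Agent.Lib.MP_d266db_co.H.HlD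
import Pool.Agent.Lib.MP_d266db_co.H.Hlv
import Pool.Agent.Lib.MP_d266db_co.H.Ins
import Pool.Agent.Lib.MP_d266db_co.H.InsB
import Pool.Agent.Lib.MP_d266db_co.H.Itr
import Pool.Agent.Lib.MP_d266db_co.H.Lay
import Pool.Agent.Lib.MP_d266db_co.H.LnC
import Pool.Agent.Lib.MP_d266db_co.H.Lnk
import Pool.Agent.Lib.MP_d266db_co.H.Low
import Pool.Agent.Lib.MP_d266db_co.H.LowF
import Pool.Agent.Lib.MP_d266db_co.H.LowN
import Pool.Agent.Lib.MP_d266db_co.H.Mat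
import Pool.Agent.Lib.MP_d266db_co.H.Mer
import Pool.Agent.Lib.MP_d266db_co.H.MinC
import Pool.Agent.Lib.MP_d266db_co.H.Mrg
import Pool.Agent.Lib.MP_d266db_co.H.NPM
import Pool.Agent.Lib.MP_d266db_co.H.NrR
import Pool.Agent.Lib.MP_d266db_co.H.NrS
import Pool.Agent.Lib.MP_d266db_co.H.NuX
import Pool.Agent.Lib.MP_d266db_co.H.One
import Pool.Agent.Lib.MP_d266db_co.H.Pcs
import Pool.Agent.Lib.MP_d266db_co.H.Pos
import Pool.Agent.Lib.MP_d266db_co.H.PrB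
import Pool.Agent.Lib.MP_d266db_co.H.PrC
import Pool.Agent.Lib.MP_d266db_co.H.PrD
import Pool.Agent.Lib.MP_d266db_co.H.PrNum
import Pool.Agent.Lib.MP_d266db_co.H.PrS
import Pool.Agent.Lib.MP_d266db_co.H.Prt
import Pool.Agent.Lib.MP_d266db_co.H.RP
import Pool.Agent.Lib.MP_d266db_co.H.RR
import Pool.Agent.Lib.MP_d266db_co.H.Rgx
import Pool.Agent.Lib.MP_d266db_co.H.Rmt
import Pool.Agent.Lib.MP_d266db_co.H.Sat
import Pool.Agent.Lib.MP_d266db_co.H.Slc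
import Pool.Agent.Lib.MP_d266db_co.H.Spl
import Pool.Agent.Lib.MP_d266db_co.H.Sw
import Pool.Agent.Lib.MP_d266db_co.H.Sys
import Pool.Agent.Lib.MP_d266db_co.H.Szr
import Pool.Agent.Lib.MP_d266db_co.H.Thm
import Pool.Agent.Lib.MP_d266db_co.H.Typ
import Pool.Agent.Lib.MP_d266db_co.H.VT
import Pool.Agent.Lib.MP_d266db_co.H.VTs
import Pool.Agent.Lib.MP_d266db_co.H.XM
import Pool.Agent.Lib.MP_d266db_co.H.XSy
import Pool.Agent.Lib.MP_d266db_co.Half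
import Pool.Agent.Lib.MP_d266db_co.HalfE
import Pool.Agent.Lib.MP_d266db_co.InqA
import Pool.Agent.Lib.MP_d266db_co.InqB
import Pool.Agent.Lib.MP_d266db_co.KST
import Pool.Agent.Lib.MP_d266db_co.Lip
import Pool.Agent.Lib.MP_d266db_co.Min
import Pool.Agent.Lib.MP_d266db_co.Near
import Pool.Agent.Lib.MP_d266db_co.Rand
import Pool.Agent.Lib.MP_d266db_co.RegA
import Pool.Agent.Lib.MP_d266db_co.Sep
import Pool.Agent.Lib.MP_d266db_co.Small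
import Pool.Agent.Lib.MP_d266db_co.Sub

/-!
# MP_d266db_co, E: assembly of the exact theorem
-/

set_option autoImplicit false

namespace Pool.Agent.MPd266dbE

open Pool.Agent.MPd266db Pool.Agent.MPd266dbH

/-- **The exact theorem** (frozen statement S11623). -/
theorem tAllE : S_Frz := by
  have hSmall : Pool.Agent.MPd266db.S_Small :=
    Pool.Agent.MPd266db.tSmall
  have hFac : Pool.Agent.MPd266db.S_Fac :=
    Pool.Agent.MPd266db.tFac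
  have hSep : Pool.Agent.MPd266db.S_Sep :=
    Pool.Agent.MPd266db.tSep hFac
  have hCloE : Pool.Agent.MPd266db.S_CloE :=
    Pool.Agent.MPd266db.tCloE
  have hCap : Pool.Agent.MPd266db.S_Cap :=
    Pool.Agent.MPd266db.tCap
  have hGap : Pool.Agent.MPd266db.S_Gap :=
    Pool.Agent.MPd266db.tGap hCloE hCap
  have hMin : Pool.Agent.MPd266db.S_Min :=
    Pool.Agent.MPd266db.tMin
  have hInqB : Pool.Agent.MPd266db.S_InqB :=
    Pool.Agent.MPd266db.tInqB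
  have hAug : Pool.Agent.MPd266db.S_Aug :=
    Pool.Agent.MPd266db.tAug hSep hCloE hCap hGap hMin hInqB
  have hKST : Pool.Agent.MPd266db.S_KST :=
    Pool.Agent.MPd266db.tKST
  have hCyc : Pool.Agent.MPd266db.S_Cyc :=
    Pool.Agent.MPd266db.tCyc
  have hRand : Pool.Agent.MPd266db.S_Rand :=
    Pool.Agent.MPd266db.tRand
  have hHalfE : Pool.Agent.MPd266db.S_HalfE :=
    Pool.Agent.MPd266db.tHalfE hFac
  have hHalf : Pool.Agent.MPd266db.S_Half :=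
    Pool.Agent.MPd266db.tHalf hKST hCyc hRand hHalfE
  have hAvg : Pool.Agent.MPd266db.S_Avg :=
    Pool.Agent.MPd266db.tAvg hHalf
  have hSub : Pool.Agent.MPd266db.S_Sub :=
    Pool.Agent.MPd266db.tSub
  have hNear : Pool.Agent.MPd266db.S_Near :=
    Pool.Agent.MPd266db.tNear hSmall hSub
  have hLip : Pool.Agent.MPd266db.S_Lip :=
    Pool.Agent.MPd266db.tLip
  have hCutD : Pool.Agent.MPd266db.S_CutD :=
    Pool.Agent.MPd266db.tCutD hSmall hAug hAvg hNear hLip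
  have hCls : Pool.Agent.MPd266dbH.S_Cls :=
    Pool.Agent.MPd266dbH.tCls
  have hSpC : S_SpC :=
    Pool.Agent.MPd266dbE.tSpC hFac
  have hPot : S_Pot :=
    Pool.Agent.MPd266dbE.tPot hSpC
  have hLwL : S_LwL :=
    Pool.Agent.MPd266dbE.tLwL
  have hHiL : S_HiL :=
    Pool.Agent.MPd266dbE.tHiL hLwL
  have hCpD : S_CpD :=
    Pool.Agent.MPd266dbE.tCpD
  have hInK : S_InK :=
    Pool.Agent.MPd266dbE.tInK
  have hInK1 : S_InK1 :=
    Pool.Agent.MPd266dbE.tInK1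
  have hK3 : S_K3 :=
    Pool.Agent.MPd266dbE.tK3 hPot hLwL hHiL hCpD hInK hInK1
  have hPer : S_Per :=
    Pool.Agent.MPd266dbE.tPer hPot hLwL hHiL
  have hSt1 : S_St1 :=
    Pool.Agent.MPd266dbE.tSt1 hK3 hPer
  have hHfX : S_HfX :=
    Pool.Agent.MPd266dbE.tHfX hKST hCyc hRand hHalfE
  have hAvX : S_AvX :=
    Pool.Agent.MPd266dbE.tAvX hHfX
  have hPhi : S_Phi :=
    Pool.Agent.MPd266dbE.tPhi
  have hSt2 : S_St2 :=
    Pool.Agent.MPd266dbE.tSt2 hAvX hSmall hCls hPhi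
  have hStr : S_Str :=
    Pool.Agent.MPd266dbE.tStr hCutD hCls hSt1 hSt2
  have hSzr : Pool.Agent.MPd266dbH.S_Szr :=
    Pool.Agent.MPd266dbH.tSzr
  have hPcs : Pool.Agent.MPd266dbH.S_Pcs :=
    Pool.Agent.MPd266dbH.tPcs
  have hClu : Pool.Agent.MPd266dbH.S_Clu :=
    Pool.Agent.MPd266dbH.tClu hSzr hPcs
  have hChf : Pool.Agent.MPd266dbH.S_Chf :=
    Pool.Agent.MPd266dbH.tChf
  have hChB : Pool.Agent.MPd266dbH.S_ChB :=
    Pool.Agent.MPd266dbH.tChB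
  have hRnd : S_Rnd :=
    Pool.Agent.MPd266dbE.tRnd hChf hChB
  have hLoW : S_LoW :=
    Pool.Agent.MPd266dbE.tLoW
  have hAdj : S_Adj :=
    Pool.Agent.MPd266dbE.tAdj hLoW
  have hBxR : S_BxR :=
    Pool.Agent.MPd266dbE.tBxR
  have hBxh : S_Bxh :=
    Pool.Agent.MPd266dbE.tBxh
  have hLev : S_Lev :=
    Pool.Agent.MPd266dbE.tLev hClu hRnd hAdj hBxR hBxh
  have hWFa : S_WFa :=
    Pool.Agent.MPd266dbE.tWFa hFac
  have hHvs : S_Hvs :=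
    Pool.Agent.MPd266dbE.tHvs hHfX
  have hY0 : S_Y0 :=
    Pool.Agent.MPd266dbE.tY0
  have hWOw : S_WOw :=
    Pool.Agent.MPd266dbE.tWOw hWFa hHvs hY0
  have hRP : Pool.Agent.MPd266dbH.S_RP :=
    Pool.Agent.MPd266dbH.tRP
  have hMer : Pool.Agent.MPd266dbH.S_Mer :=
    Pool.Agent.MPd266dbH.tMer
  have hSpl : Pool.Agent.MPd266dbH.S_Spl :=
    Pool.Agent.MPd266dbH.tSpl hMer
  have hInsB : Pool.Agent.MPd266dbH.S_InsB :=
    Pool.Agent.MPd266dbH.tInsB hMer hSpl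
  have hIns : Pool.Agent.MPd266dbH.S_Ins :=
    Pool.Agent.MPd266dbH.tIns hMer hSpl
  have hChn : Pool.Agent.MPd266dbH.S_Chn :=
    Pool.Agent.MPd266dbH.tChn hIns
  have hFour : Pool.Agent.MPd266dbH.S_Four :=
    Pool.Agent.MPd266dbH.tFour hMer hInsB hChn
  have hPos : Pool.Agent.MPd266dbH.S_Pos :=
    Pool.Agent.MPd266dbH.tPos
  have hHlv : Pool.Agent.MPd266dbH.S_Hlv :=
    Pool.Agent.MPd266dbH.tHlv
  have hTyp : Pool.Agent.MPd266dbH.S_Typ :=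
    Pool.Agent.MPd266dbH.tTyp hFour hPos hHlv
  have hMinC : Pool.Agent.MPd266dbH.S_MinC :=
    Pool.Agent.MPd266dbH.tMinC hTyp
  have hCnt : Pool.Agent.MPd266dbH.S_Cnt :=
    Pool.Agent.MPd266dbH.tCnt
  have hSat : Pool.Agent.MPd266dbH.S_Sat :=
    Pool.Agent.MPd266dbH.tSat
  have hLay : Pool.Agent.MPd266dbH.S_Lay :=
    Pool.Agent.MPd266dbH.tLay
  have hSw : Pool.Agent.MPd266dbH.S_Sw :=
    Pool.Agent.MPd266dbH.tSw
  have hFix : Pool.Agent.MPd266dbH.S_Fix :=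
    Pool.Agent.MPd266dbH.tFix hSat hLay hSw
  have hCake : Pool.Agent.MPd266dbH.S_Cake :=
    Pool.Agent.MPd266dbH.tCake
  have hVT : Pool.Agent.MPd266dbH.S_VT :=
    Pool.Agent.MPd266dbH.tVT hMer hChn
  have hVTs : Pool.Agent.MPd266dbH.S_VTs :=
    Pool.Agent.MPd266dbH.tVTs hSat hLay hCake hHlv hPos hVT
  have hXM0 : S_XM0 :=
    Pool.Agent.MPd266dbE.tXM0 hMinC hCnt hFix hVTs
  have hNrS : Pool.Agent.MPd266dbH.S_NrS :=
    Pool.Agent.MPd266dbH.tNrS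
  have hHlD : Pool.Agent.MPd266dbH.S_HlD :=
    Pool.Agent.MPd266dbH.tHlD
  have hMat : Pool.Agent.MPd266dbH.S_Mat :=
    Pool.Agent.MPd266dbH.tMat hNrS hHlD
  have hExpR : Pool.Agent.MPd266dbH.S_ExpR :=
    Pool.Agent.MPd266dbH.tExpR hNrS
  have hSys : Pool.Agent.MPd266dbH.S_Sys :=
    Pool.Agent.MPd266dbH.tSys hClu hMat hExpR
  have hNPM : Pool.Agent.MPd266dbH.S_NPM :=
    Pool.Agent.MPd266dbH.tNPM
  have hExt : Pool.Agent.MPd266dbH.S_Ext :=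
    Pool.Agent.MPd266dbH.tExt
  have hRmt0 : S_Rmt0 :=
    Pool.Agent.MPd266dbE.tRmt0 hNPM hExt
  have hXSy : Pool.Agent.MPd266dbH.S_XSy :=
    Pool.Agent.MPd266dbH.tXSy
  have hNuX : Pool.Agent.MPd266dbH.S_NuX :=
    Pool.Agent.MPd266dbH.tNuX
  have hLnk : Pool.Agent.MPd266dbH.S_Lnk :=
    Pool.Agent.MPd266dbH.tLnk
  have hHal : S_Hal :=
    Pool.Agent.MPd266dbE.tHal hNrS
  have hHAM0 : S_HAM0 :=
    Pool.Agent.MPd266dbE.tHAM0 hRP hXM0 hSys hRmt0 hXSy hNuX hLnk hHal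
  have hCtr : S_Ctr :=
    Pool.Agent.MPd266dbE.tCtr
  have hHAM : S_HAM :=
    Pool.Agent.MPd266dbE.tHAM hHAM0 hCtr
  have hWHm : S_WHm :=
    Pool.Agent.MPd266dbE.tWHm hHAM
  have hLnB : S_LnB :=
    Pool.Agent.MPd266dbE.tLnB
  have hWst : S_Wst :=
    Pool.Agent.MPd266dbE.tWst hWOw hWHm hLnB
  have hGrd : S_Grd :=
    Pool.Agent.MPd266dbE.tGrd
  have hHbX : S_HbX :=
    Pool.Agent.MPd266dbE.tHbX hGrd
  have hSzB : S_SzB :=
    Pool.Agent.MPd266dbE.tSzB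
  have hSmB : S_SmB :=
    Pool.Agent.MPd266dbE.tSmB hSzB
  have hSlt : S_Slt :=
    Pool.Agent.MPd266dbE.tSlt
  have hBas : S_Bas :=
    Pool.Agent.MPd266dbE.tBas
  have hUn1 : S_Un1 :=
    Pool.Agent.MPd266dbE.tUn1
  have hUnD : S_UnD :=
    Pool.Agent.MPd266dbE.tUnD hSlt hBas hUn1
  have hUnt : S_Unt :=
    Pool.Agent.MPd266dbE.tUnt hUnD
  have hGdy : S_Gdy :=
    Pool.Agent.MPd266dbE.tGdy
  have hLFu : S_LFu :=
    Pool.Agent.MPd266dbE.tLFu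
  have hCol : S_Col :=
    Pool.Agent.MPd266dbE.tCol hGdy hLFu
  have hXPk : S_XPk :=
    Pool.Agent.MPd266dbE.tXPk
  have hCvr : S_Cvr :=
    Pool.Agent.MPd266dbE.tCvr hXPk hLFu
  have hCvP : S_CvP :=
    Pool.Agent.MPd266dbE.tCvP hUnt hCol hCvr hSzB
  have hWCx : S_WCx :=
    Pool.Agent.MPd266dbE.tWCx hWst hGrd hHbX hSmB hCvP
  have hBSb : S_BSb :=
    Pool.Agent.MPd266dbE.tBSb
  have hHBN : S_HBN :=
    Pool.Agent.MPd266dbE.tHBN
  have hGcm : S_Gcm :=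
    Pool.Agent.MPd266dbE.tGcm hHBN
  have hTRp : S_TRp :=
    Pool.Agent.MPd266dbE.tTRp
  have hTEx : S_TEx :=
    Pool.Agent.MPd266dbE.tTEx
  have hStA : S_StA :=
    Pool.Agent.MPd266dbE.tStA
  have hStB : S_StB :=
    Pool.Agent.MPd266dbE.tStB
  have hStC : S_StC :=
    Pool.Agent.MPd266dbE.tStC
  have hCmp : S_Cmp :=
    Pool.Agent.MPd266dbE.tCmp hHBN
  have hRst : S_Rst :=
    Pool.Agent.MPd266dbE.tRst hCmp
  have hRun : S_Run :=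
    Pool.Agent.MPd266dbE.tRun hTRp hTEx hStA hStB hStC hRst
  have hFoC : S_FoC :=
    Pool.Agent.MPd266dbE.tFoC
  have hFob : S_Fob :=
    Pool.Agent.MPd266dbE.tFob hGcm hRun hFoC
  have hPXb : S_PXb :=
    Pool.Agent.MPd266dbE.tPXb
  have hFbP : S_FbP :=
    Pool.Agent.MPd266dbE.tFbP hBSb hFob hPXb
  have hHmQ : S_HmQ :=
    Pool.Agent.MPd266dbE.tHmQ hHAM
  have hCon : S_Con :=
    Pool.Agent.MPd266dbE.tCon
  have hCnQ : S_CnQ :=
    Pool.Agent.MPd266dbE.tCnQ hCon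
  have hK23 : S_K23 :=
    Pool.Agent.MPd266dbE.tK23
  have hK2Q : S_K2Q :=
    Pool.Agent.MPd266dbE.tK2Q hK23
  have hPXc : S_PXc :=
    Pool.Agent.MPd266dbE.tPXc
  have hObj : S_Obj :=
    Pool.Agent.MPd266dbE.tObj hXPk
  have hTCl : S_TCl :=
    Pool.Agent.MPd266dbE.tTCl hGdy
  have hLks : S_Lks :=
    Pool.Agent.MPd266dbE.tLks
  have hEnt : S_Ent :=
    Pool.Agent.MPd266dbE.tEnt
  have hPth : S_Pth :=
    Pool.Agent.MPd266dbE.tPth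
  have hPar : S_Par :=
    Pool.Agent.MPd266dbE.tPar
  have hPtn : S_Ptn :=
    Pool.Agent.MPd266dbE.tPtn hPth hPar
  have hPtF : S_PtF :=
    Pool.Agent.MPd266dbE.tPtF hPtn
  have hPts : S_Pts :=
    Pool.Agent.MPd266dbE.tPts hXPk hPtF
  have hPrM : S_PrM :=
    Pool.Agent.MPd266dbE.tPrM
  have hTgl : S_Tgl :=
    Pool.Agent.MPd266dbE.tTgl
  have hPfx : S_Pfx :=
    Pool.Agent.MPd266dbE.tPfx
  have hMcy : S_Mcy :=
    Pool.Agent.MPd266dbE.tMcy hMer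
  have hAbp : S_Abp :=
    Pool.Agent.MPd266dbE.tAbp hTgl hPfx hMcy
  have hAbX : S_AbX :=
    Pool.Agent.MPd266dbE.tAbX hObj hTCl hLks hEnt hPts hPrM hAbp
  have hAex : S_Aex :=
    Pool.Agent.MPd266dbE.tAex hFbP hHmQ hCnQ hK2Q hPXc hPXb hAbX
  have hAbR : S_AbR :=
    Pool.Agent.MPd266dbE.tAbR
  have hDec1 : Pool.Agent.MPd266dbH.S_Dec1 :=
    Pool.Agent.MPd266dbH.tDec1
  have hFin : S_Fin :=
    Pool.Agent.MPd266dbE.tFin hDec1
  have hLnQ : S_LnQ :=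
    Pool.Agent.MPd266dbE.tLnQ
  have hLowF : Pool.Agent.MPd266dbH.S_LowF :=
    Pool.Agent.MPd266dbH.tLowF
  have hLowN : Pool.Agent.MPd266dbH.S_LowN :=
    Pool.Agent.MPd266dbH.tLowN
  have hLow : Pool.Agent.MPd266dbH.S_Low :=
    Pool.Agent.MPd266dbH.tLow hLowF hLowN
  have hHad : Pool.Agent.MPd266dbH.S_Had :=
    Pool.Agent.MPd266dbH.tHad
  have hRR : Pool.Agent.MPd266dbH.S_RR :=
    Pool.Agent.MPd266dbH.tRR
  have hChL : Pool.Agent.MPd266dbH.S_ChL :=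
    Pool.Agent.MPd266dbH.tChL
  have hCel : Pool.Agent.MPd266dbH.S_Cel :=
    Pool.Agent.MPd266dbH.tCel hChL hChB
  have hGrp : Pool.Agent.MPd266dbH.S_Grp :=
    Pool.Agent.MPd266dbH.tGrp hHad hRR hCel
  have hPrC : Pool.Agent.MPd266dbH.S_PrC :=
    Pool.Agent.MPd266dbH.tPrC hChf
  have hBad : Pool.Agent.MPd266dbH.S_Bad :=
    Pool.Agent.MPd266dbH.tBad
  have hPrB : Pool.Agent.MPd266dbH.S_PrB :=
    Pool.Agent.MPd266dbH.tPrB hBad
  have hPrS : Pool.Agent.MPd266dbH.S_PrS :=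
    Pool.Agent.MPd266dbH.tPrS hChf
  have hPrD : Pool.Agent.MPd266dbH.S_PrD :=
    Pool.Agent.MPd266dbH.tPrD hChf
  have hPrN : Pool.Agent.MPd266dbH.S_PrN :=
    Pool.Agent.MPd266dbH.tPrN
  have hPrt : Pool.Agent.MPd266dbH.S_Prt :=
    Pool.Agent.MPd266dbH.tPrt hPrC hPrB hPrS hPrD hPrN
  have hLnC : Pool.Agent.MPd266dbH.S_LnC :=
    Pool.Agent.MPd266dbH.tLnC
  have hNrR : Pool.Agent.MPd266dbH.S_NrR :=
    Pool.Agent.MPd266dbH.tNrR
  have hRgx : Pool.Agent.MPd266dbH.S_Rgx :=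
    Pool.Agent.MPd266dbH.tRgx
  have hFct : Pool.Agent.MPd266dbH.S_Fct :=
    Pool.Agent.MPd266dbH.tFct hRgx hDec1
  have hDis : Pool.Agent.MPd266dbH.S_Dis :=
    Pool.Agent.MPd266dbH.tDis
  have hDcA : Pool.Agent.MPd266dbH.S_DcA :=
    Pool.Agent.MPd266dbH.tDcA hLnC hNrR hFct hDis
  have hDcp : Pool.Agent.MPd266dbH.S_Dcp :=
    Pool.Agent.MPd266dbH.tDcp hCls hLow hGrp hPrt hDcA
  have hXM : Pool.Agent.MPd266dbH.S_XM :=
    Pool.Agent.MPd266dbH.tXM hMinC hCnt hFix hVTs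
  have hSlc : Pool.Agent.MPd266dbH.S_Slc :=
    Pool.Agent.MPd266dbH.tSlc hChf
  have hRmt : Pool.Agent.MPd266dbH.S_Rmt :=
    Pool.Agent.MPd266dbH.tRmt hSlc hNPM hExt
  have hOne : Pool.Agent.MPd266dbH.S_One :=
    Pool.Agent.MPd266dbH.tOne hLnk
  have hMrg : Pool.Agent.MPd266dbH.S_Mrg :=
    Pool.Agent.MPd266dbH.tMrg hRP hXM hSys hRmt hXSy hNuX hOne
  have hItr : Pool.Agent.MPd266dbH.S_Itr :=
    Pool.Agent.MPd266dbH.tItr
  have hThm : Pool.Agent.MPd266dbH.S_Thm :=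
    Pool.Agent.MPd266dbH.tThm hDcp hMrg hItr
  have hEx : S_Ex :=
    Pool.Agent.MPd266dbE.tEx hLev hWCx hAex hAbR hFin hLnQ hThm
  have hRbS : S_RbS :=
    Pool.Agent.MPd266dbE.tRbS
  have hImb : S_Imb :=
    Pool.Agent.MPd266dbE.tImb
  have hDch : S_Dch :=
    Pool.Agent.MPd266dbE.tDch
  have hMov : S_Mov :=
    Pool.Agent.MPd266dbE.tMov
  have hPre : S_Pre :=
    Pool.Agent.MPd266dbE.tPre hEx hLnC hRbS hImb hDch hMov
  have hMai : S_Mai :=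
    Pool.Agent.MPd266dbE.tMai hStr hPre
  have hInqA : Pool.Agent.MPd266db.S_InqA :=
    Pool.Agent.MPd266db.tInqA
  have hCntP : Pool.Agent.MPd266db.S_CntP :=
    Pool.Agent.MPd266db.tCntP
  have hCntR : Pool.Agent.MPd266db.S_CntR :=
    Pool.Agent.MPd266db.tCntR
  have hCntY : Pool.Agent.MPd266db.S_CntY :=
    Pool.Agent.MPd266db.tCntY
  have hCut : Pool.Agent.MPd266db.S_Cut :=
    Pool.Agent.MPd266db.tCut hInqA hCntP hCntR hCntY
  have hRegA : Pool.Agent.MPd266db.S_RegA :=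
    Pool.Agent.MPd266db.tRegA hFac hCut
  have hFnl : S_Fnl :=
    Pool.Agent.MPd266dbE.tFnl hMai hRegA
  have hFrz : S_Frz :=
    Pool.Agent.MPd266dbE.tFrz hFnl
  exact hFrz

end Pool.Agent.MPd266dbE
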