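import Pool.Agent.Lib.MP_d266db_co.E.SpecF

/-!
# MP_d266db_co, E, Col: colouring the units
-/

set_option autoImplicit false

namespace Pool.Agent.MPd266dbE

open Finset Pool.Agent.MPd266db Pool.Agent.MPd266dbH

private theorem col_fc {n : ℕ} (𝓤 : Finset (Finset (Fin n × Fin n)))
    (hd : ∀ u ∈ 𝓤, ∀ u' ∈ 𝓤, u ≠ u' → Disjoint u u') (P : Fin n × Fin n → Prop)
    [DecidablePred P] :
    ((𝓤.biUnion id).filter P).card = ∑ u ∈ 𝓤, (u.filter P).card := by
  rw [← card_biUnion]
  · congr 1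
    ext q
    simp only [mem_filter, mem_biUnion, id]
    constructor
    · rintro ⟨⟨u, hu, hq⟩, hP⟩
      exact ⟨u, hu, hq, hP⟩
    · rintro ⟨u, hu, hq, hP⟩
      exact ⟨⟨u, hu, hq⟩, hP⟩
  · intro u hu u' hu' hne
    exact disjoint_filter_filter (hd u hu u' hu' hne)

private theorem col_card {n : ℕ} (𝓤 : Finset (Finset (Fin n × Fin n)))
    (hd : ∀ u ∈ 𝓤, ∀ u' ∈ 𝓤, u ≠ u' → Disjoint u u') :
    (𝓤.biUnion id).card = ∑ u ∈ 𝓤, u.card := by
  rw [card_biUnion]
  · rfl
  · intro u hu u' hu' hne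
    exact hd u hu u' hu' hne

private theorem col_vt {n : ℕ} {u : Finset (Fin n × Fin n)} {v : Fin n} (h : v ∈ vts u) :
    1 ≤ od u v + idg u v := by
  unfold vts at h
  rcases mem_union.1 h with h | h
  · obtain ⟨q, hq, he⟩ := mem_tls.1 h
    have : 1 ≤ od u v := by
      unfold od
      exact card_pos.2 ⟨q, mem_filter.2 ⟨hq, he⟩⟩
    omega
  · obtain ⟨q, hq, he⟩ := mem_hds.1 h
    have : 1 ≤ idg u v := by
      unfold idg
      exact card_pos.2 ⟨q, mem_filter.2 ⟨hq, he⟩⟩
    omega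

private theorem col_cv {n : ℕ} (𝓤 : Finset (Finset (Fin n × Fin n)))
    (hd : ∀ u ∈ 𝓤, ∀ u' ∈ 𝓤, u ≠ u' → Disjoint u u') (v : Fin n) :
    (𝓤.filter (fun u => v ∈ vts u)).card ≤ od (𝓤.biUnion id) v + idg (𝓤.biUnion id) v := by
  have h1 : od (𝓤.biUnion id) v = ∑ u ∈ 𝓤, od u v := col_fc 𝓤 hd (fun q => q.1 = v)
  have h2 : idg (𝓤.biUnion id) v = ∑ u ∈ 𝓤, idg u v := col_fc 𝓤 hd (fun q => q.2 = v)
  rw [h1, h2, ← sum_add_distrib, card_eq_sum_ones, sum_filter]
  apply sum_le_sum
  intro u _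
  by_cases h : v ∈ vts u
  · rw [if_pos h]
    exact col_vt h
  · rw [if_neg h]
    exact Nat.zero_le _

private theorem col_vc {n : ℕ} (u : Finset (Fin n × Fin n)) (h : u.card ≤ 6) :
    (vts u).card ≤ 12 := by
  unfold vts
  have h1 := card_union_le (tls u) (hds u)
  have h2 : (tls u).card ≤ u.card := card_image_le
  have h3 : (hds u).card ≤ u.card := card_image_le
  omega

private theorem col_sod {n : ℕ} (E : Finset (Fin n × Fin n)) : ∑ v, od E v = E.card := by
  rw [← eb_univ_right]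
  unfold eb
  rw [filter_true_of_mem]
  intro q _
  exact ⟨mem_univ _, mem_univ _⟩

private theorem col_sid {n : ℕ} (E : Finset (Fin n × Fin n)) : ∑ v, idg E v = E.card := by
  rw [← eb_univ_left]
  unfold eb
  rw [filter_true_of_mem]
  intro q _
  exact ⟨mem_univ _, mem_univ _⟩

private theorem col_vb {n : ℕ} (A : Finset (Finset (Fin n × Fin n))) :
    vts (A.biUnion id) = A.biUnion vts := by
  ext v
  simp only [vts, tls, hds, mem_union, mem_image, mem_biUnion, id]
  constructor
  · rintro (⟨q, ⟨u, hu, hq⟩, h⟩ | ⟨q, ⟨u, hu, hq⟩, h⟩)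
    · exact ⟨u, hu, Or.inl ⟨q, hq, h⟩⟩
    · exact ⟨u, hu, Or.inr ⟨q, hq, h⟩⟩
  · rintro ⟨u, hu, (⟨q, hq, h⟩ | ⟨q, hq, h⟩)⟩
    · exact Or.inl ⟨q, ⟨u, hu, hq⟩, h⟩
    · exact Or.inr ⟨q, ⟨u, hu, hq⟩, h⟩

theorem tCol (hGdy : S_Gdy) (hLFu : S_LFu) : S_Col := by
  intro n K e d p hd h Δx C0 t0 C2 t2 D Hb XW o i c0 d0 lv 𝓤 b hUn hdis hU hsb hDd hHd hXd
    ht0 hC0 ht2 hC2 hh
  classical
  have hE : Dg (D ∪ Hb) (d + hd) := Dg.union hDd hHd
  have hcv : ∀ v, (𝓤.filter (fun u => v ∈ vts u)).card ≤ 2 * (d + hd) := by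
    intro v
    have h1 := col_cv 𝓤 hdis v
    rw [hU] at h1
    have h2 := hE v
    omega
  -- loads
  have hw2 : ∀ u ∈ 𝓤, ∑ v ∈ vts u, (od XW v + idg XW v) ≤ 24 * Δx := by
    intro u hu
    have h1 : ∑ v ∈ vts u, (od XW v + idg XW v) ≤ ∑ _v ∈ vts u, 2 * Δx := by
      apply sum_le_sum
      intro v _
      have := hXd v
      omega
    rw [sum_const, smul_eq_mul] at h1
    have h2 : (vts u).card * (2 * Δx) ≤ 12 * (2 * Δx) :=
      Nat.mul_le_mul_right _ (col_vc u (hUn u hu).cd)
    omega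
  obtain ⟨col, hcol, hload⟩ := hGdy (Finset (Fin n × Fin n)) 𝓤
    (fun u u' => ¬ Disjoint (vts u) (vts u')) (24 * (d + hd)) h 3
    ![fun u => u.card, fun u => b u, fun u => ∑ v ∈ vts u, (od XW v + idg XW v)]
    ![C0, p, C2] ![t0, max p 1, t2] ![n * (d + hd), d * p, 4 * (d + hd) * XW.card]
    (fun u u' hc hc' => hc hc'.symm)
    (by
      intro u hu
      have h1 : (𝓤.filter (fun u' => ¬ Disjoint (vts u) (vts u'))) ⊆
          (vts u).biUnion (fun v => 𝓤.filter (fun u' => v ∈ vts u')) := by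
        intro u' hu'
        obtain ⟨h2, h3⟩ := mem_filter.1 hu'
        rw [Finset.not_disjoint_iff] at h3
        obtain ⟨v, h4, h5⟩ := h3
        exact mem_biUnion.2 ⟨v, h4, mem_filter.2 ⟨h2, h5⟩⟩
      have h2 := card_le_card h1
      have h3 : ((vts u).biUnion (fun v => 𝓤.filter (fun u' => v ∈ vts u'))).card ≤
          (vts u).card * (2 * (d + hd)) := card_biUnion_le_card_mul _ _ _ (fun v _ => hcv v)
      have h4 : (vts u).card * (2 * (d + hd)) ≤ 12 * (2 * (d + hd)) :=
        Nat.mul_le_mul_right _ (col_vc u (hUn u hu).cd)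
      omega)
    (by
      intro s
      fin_cases s
      · exact ht0
      · exact le_max_right _ _
      · exact ht2)
    (by
      intro s u hu
      fin_cases s
      · have := (hUn u hu).cd
        change t0 + u.card ≤ C0 + 1
        omega
      · change max p 1 + b u ≤ p + 1
        have h1 := (hUn u hu).b1
        rcases Nat.eq_zero_or_pos p with h0 | h0
        · have h2 : b u ≤ ∑ u ∈ 𝓤, b u := single_le_sum (fun _ _ => Nat.zero_le _) hu
          rw [hsb, h0, mul_zero] at h2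
          rw [h0]
          simp only [zero_le, sup_of_le_right]
          omega
        · rw [max_eq_left h0]
          omega
      · change t2 + ∑ v ∈ vts u, (od XW v + idg XW v) ≤ C2 + 1
        have := hw2 u hu
        omega)
    (by
      intro s
      fin_cases s
      · change ∑ u ∈ 𝓤, u.card ≤ n * (d + hd)
        rw [← col_card 𝓤 hdis, hU, ← col_sod]
        calc ∑ v, od (D ∪ Hb) v ≤ ∑ _v : Fin n, (d + hd) := sum_le_sum (fun v _ => (hE v).1)
          _ = n * (d + hd) := by rw [sum_const, card_univ, Fintype.card_fin, smul_eq_mul]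
      · change ∑ u ∈ 𝓤, b u ≤ d * p
        exact hsb.le
      · change ∑ u ∈ 𝓤, ∑ v ∈ vts u, (od XW v + idg XW v) ≤ 4 * (d + hd) * XW.card
        calc ∑ u ∈ 𝓤, ∑ v ∈ vts u, (od XW v + idg XW v)
            = ∑ u ∈ 𝓤, ∑ v, (if v ∈ vts u then (od XW v + idg XW v) else 0) := by
              apply sum_congr rfl
              intro u _
              rw [← sum_filter]
              congr 1
              ext v
              simp only [mem_filter, mem_univ, true_and]
          _ = ∑ v, ∑ u ∈ 𝓤, (if v ∈ vts u then (od XW v + idg XW v) else 0) := sum_comm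
          _ ≤ ∑ v, 2 * (d + hd) * (od XW v + idg XW v) := by
              apply sum_le_sum
              intro v _
              rw [← sum_filter, sum_const, smul_eq_mul]
              exact Nat.mul_le_mul_right _ (hcv v)
          _ = 2 * (d + hd) * (XW.card + XW.card) := by
              rw [← mul_sum, sum_add_distrib, col_sod, col_sid]
          _ = 4 * (d + hd) * XW.card := by ring)
    (by
      have h1 : (d * p) / (max p 1) ≤ d := by
        apply Nat.div_le_of_le_mul
        rw [mul_comm d p]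
        exact Nat.mul_le_mul_right _ (le_max_left _ _)
      have h2 : ∑ s : Fin 3, ((![n * (d + hd), d * p, 4 * (d + hd) * XW.card] : Fin 3 → ℕ) s) /
          ((![t0, max p 1, t2] : Fin 3 → ℕ) s) = n * (d + hd) / t0 + d * p / max p 1 +
            4 * (d + hd) * XW.card / t2 := by
        rw [Fin.sum_univ_three]
        rfl
      rw [h2]
      omega)
  have hdc : ∀ c, ∀ u ∈ 𝓤.filter (fun u => col u = c), ∀ u' ∈ 𝓤.filter (fun u => col u = c),
      u ≠ u' → Disjoint u u' := by
    intro c u hu u' hu' hne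
    exact hdis u (mem_filter.1 hu).1 u' (mem_filter.1 hu').1 hne
  have hdv : ∀ c, ∀ u ∈ 𝓤.filter (fun u => col u = c), ∀ u' ∈ 𝓤.filter (fun u => col u = c),
      u ≠ u' → Disjoint (vts u) (vts u') := by
    intro c u hu u' hu' hne
    by_contra hcf
    obtain ⟨h1, h2⟩ := mem_filter.1 hu
    obtain ⟨h3, h4⟩ := mem_filter.1 hu'
    exact hcol u h1 u' h3 hne hcf (h2.trans h4.symm)
  refine ⟨fun c => (𝓤.filter (fun u => col u = c)).biUnion id,
    fun c => ∑ u ∈ 𝓤.filter (fun u => col u = c), b u, ?_, ?_, ?_⟩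
  · intro c c' hcc
    rw [Finset.disjoint_left]
    intro q hq hq'
    obtain ⟨u, hu, hqu⟩ := mem_biUnion.1 hq
    obtain ⟨u', hu', hqu'⟩ := mem_biUnion.1 hq'
    obtain ⟨h1, h2⟩ := mem_filter.1 hu
    obtain ⟨h3, h4⟩ := mem_filter.1 hu'
    have hne : u ≠ u' := by
      intro he
      apply hcc
      rw [← h2, ← h4, he]
    exact (Finset.disjoint_left.1 (hdis u h1 u' h3 hne) hqu) hqu'
  · rw [← hU]
    ext q
    simp only [mem_biUnion, mem_univ, true_and, mem_filter, id]
    constructor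
    · rintro ⟨c, u, ⟨h1, -⟩, h2⟩
      exact ⟨u, h1, h2⟩
    · rintro ⟨u, h1, h2⟩
      exact ⟨col u, u, ⟨h1, rfl⟩, h2⟩
  · intro c
    refine ⟨?_, ?_, ?_, ?_, ?_⟩
    · exact hLFu n (Finset (Fin n × Fin n)) _ id
        (fun u hu => (hUn u (mem_filter.1 hu).1).lf) (hdv c)
    · simp only
      rw [col_card _ (hdc c)]
      exact hload 0 c
    · exact hload 1 c
    · simp only
      rw [col_vb, sum_biUnion (fun u hu u' hu' hne => hdv c u hu u' hu' hne)]
      exact hload 2 c
    · intro A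
      simp only
      rw [col_fc _ (hdc c), col_fc _ (hdc c)]
      have e1 : ∀ B : Fin ((e + 1) * K), (if A = B then
          ∑ u ∈ 𝓤.filter (fun u => col u = c), b u else 0) =
          ∑ u ∈ 𝓤.filter (fun u => col u = c), (if A = B then b u else 0) := by
        intro B
        by_cases hAB : A = B
        · simp only [if_pos hAB]
        · simp only [if_neg hAB, sum_const_zero]
      rw [e1, e1, ← sum_add_distrib, ← sum_add_distrib]
      apply sum_congr rfl
      intro u hu
      exact (hUn u (mem_filter.1 hu).1).bl A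

end Pool.Agent.MPd266dbE
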