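import Pool.Agent.Lib.MP_d266db_co.H.SpecF

/-!
# MP_d266db_co, E: exact Hamilton decomposition; definitions

Permutations: the arcs of `σ` are the pairs `(v, σ v)`.  A permutation with `∀ v w, σ.SameCycle v w` is
a Hamilton cycle.
-/

set_option autoImplicit false

namespace Pool.Agent.MPd266dbE

open Finset Pool.Agent.MPd266db Pool.Agent.MPd266dbH

/-- `σ` has only one cycle -/
def Ham {n : ℕ} (σ : Equiv.Perm (Fin n)) : Prop := ∀ v w, σ.SameCycle v w

/-- the tails of a set of arcs -/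
def tls {n : ℕ} (P : Finset (Fin n × Fin n)) : Finset (Fin n) := P.image Prod.fst

/-- the heads of a set of arcs -/
def hds {n : ℕ} (P : Finset (Fin n × Fin n)) : Finset (Fin n) := P.image Prod.snd

/-- all vertices of a set of arcs -/
def vts {n : ℕ} (P : Finset (Fin n × Fin n)) : Finset (Fin n) := tls P ∪ hds P

theorem mem_tls {n : ℕ} {P : Finset (Fin n × Fin n)} {v : Fin n} :
    v ∈ tls P ↔ ∃ e ∈ P, e.1 = v := by simp only [tls, mem_image]

theorem mem_hds {n : ℕ} {P : Finset (Fin n × Fin n)} {v : Fin n} :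
    v ∈ hds P ↔ ∃ e ∈ P, e.2 = v := by simp only [hds, mem_image]

/-- a linear forest: distinct tails, distinct heads, no directed cycle -/
def LF {n : ℕ} (P : Finset (Fin n × Fin n)) : Prop :=
  (∀ e ∈ P, ∀ e' ∈ P, e.1 = e'.1 → e = e') ∧ (∀ e ∈ P, ∀ e' ∈ P, e.2 = e'.2 → e = e') ∧
  ∃ rk : Fin n → ℕ, ∀ e ∈ P, rk e.1 < rk e.2

/-- a set of pairwise vertex-disjoint arcs without loops -/
def VD {n : ℕ} (P : Finset (Fin n × Fin n)) : Prop :=
  (∀ e ∈ P, ∀ e' ∈ P, e ≠ e' → e.1 ≠ e'.1 ∧ e.2 ≠ e'.2) ∧ ∀ e ∈ P, ∀ e' ∈ P, e.1 ≠ e'.2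

/-- `P` is balanced with respect to the classes: after removing the tails and the heads of `P` every
class has as many tails as heads -/
def Bal {n K : ℕ} (o i : Fin n → Fin K) (P : Finset (Fin n × Fin n)) : Prop :=
  ∀ a, (Cl o a \ tls P).card = (Cl i a \ hds P).card

/-- Every balanced linear forest with at most `g n` arcs is contained in a Hamilton cycle all of whose
other arcs are in `S`. -/
def HamP {n K : ℕ} (S : Finset (Fin n × Fin n)) (o i : Fin n → Fin K) (g : ℝ) : Prop :=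
  ∀ P : Finset (Fin n × Fin n), LF P → (P.card : ℝ) ≤ g * n → Bal o i P →
    ∃ τ : Equiv.Perm (Fin n), Ham τ ∧ (∀ e ∈ P, τ e.1 = e.2) ∧ ∀ v, v ∉ tls P → (v, τ v) ∈ S

/-- all out- and in-degrees of `Z` are at most `z` -/
def Dg {n : ℕ} (Z : Finset (Fin n × Fin n)) (z : ℕ) : Prop := ∀ v, od Z v ≤ z ∧ idg Z v ≤ z

theorem Dg.mono {n : ℕ} {Z Z' : Finset (Fin n × Fin n)} {z z' : ℕ} (h : Dg Z z) (hZ : Z' ⊆ Z)
    (hz : z ≤ z') : Dg Z' z' := by
  intro v
  exact ⟨(card_le_card (filter_subset_filter _ hZ)).trans ((h v).1.trans hz),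
    (card_le_card (filter_subset_filter _ hZ)).trans ((h v).2.trans hz)⟩

theorem od_union_le {n : ℕ} (Z Z' : Finset (Fin n × Fin n)) (v : Fin n) :
    od (Z ∪ Z') v ≤ od Z v + od Z' v := by
  classical
  unfold od
  rw [filter_union]
  exact card_union_le _ _

theorem idg_union_le {n : ℕ} (Z Z' : Finset (Fin n × Fin n)) (v : Fin n) :
    idg (Z ∪ Z') v ≤ idg Z v + idg Z' v := by
  classical
  unfold idg
  rw [filter_union]
  exact card_union_le _ _

theorem Dg.union {n : ℕ} {Z Z' : Finset (Fin n × Fin n)} {z z' : ℕ} (h : Dg Z z) (h' : Dg Z' z') :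
    Dg (Z ∪ Z') (z + z') := fun v =>
  ⟨(od_union_le Z Z' v).trans (add_le_add (h v).1 (h' v).1),
    (idg_union_le Z Z' v).trans (add_le_add (h v).2 (h' v).2)⟩

/-- the arcs of a permutation -/
def arcs {n : ℕ} (σ : Equiv.Perm (Fin n)) : Finset (Fin n × Fin n) := univ.image (fun v => (v, σ v))

theorem mem_arcs {n : ℕ} {σ : Equiv.Perm (Fin n)} {e : Fin n × Fin n} :
    e ∈ arcs σ ↔ σ e.1 = e.2 := by
  simp only [arcs, mem_image, mem_univ, true_and]
  constructor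
  · rintro ⟨v, rfl⟩; rfl
  · intro h; exact ⟨e.1, by rw [h]⟩

theorem od_arcs {n : ℕ} (σ : Equiv.Perm (Fin n)) (v : Fin n) : od (arcs σ) v = 1 := by
  unfold od
  rw [card_eq_one]
  refine ⟨(v, σ v), ?_⟩
  ext e
  simp only [mem_filter, mem_arcs, mem_singleton]
  constructor
  · rintro ⟨h1, h2⟩; subst h2; exact Prod.ext rfl h1.symm
  · rintro rfl; exact ⟨rfl, rfl⟩

theorem idg_arcs {n : ℕ} (σ : Equiv.Perm (Fin n)) (v : Fin n) : idg (arcs σ) v = 1 := by
  unfold idg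
  rw [card_eq_one]
  refine ⟨(σ.symm v, v), ?_⟩
  ext e
  simp only [mem_filter, mem_arcs, mem_singleton]
  constructor
  · rintro ⟨h1, h2⟩
    subst h2
    exact Prod.ext (by rw [← h1, Equiv.symm_apply_apply]) rfl
  · rintro rfl; exact ⟨Equiv.apply_symm_apply _ _, rfl⟩

theorem Dg.arcs {n : ℕ} (σ : Equiv.Perm (Fin n)) : Dg (arcs σ) 1 := fun v =>
  ⟨(od_arcs σ v).le, (idg_arcs σ v).le⟩

/-- `τ` is the involution which exchanges `q.1` and `q.2` for `q ∈ E` and fixes all other vertices -/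
def Tog {n : ℕ} (E : Finset (Fin n × Fin n)) (τ : Equiv.Perm (Fin n)) : Prop :=
  (∀ q ∈ E, τ q.1 = q.2 ∧ τ q.2 = q.1) ∧ ∀ v, (∀ q ∈ E, v ≠ q.1 ∧ v ≠ q.2) → τ v = v

/-- There is a path from `u` to `v` with arcs in `S`, at most `ℓ` arcs and inner vertices outside `B`. -/
def PathIn {n : ℕ} (S : Finset (Fin n × Fin n)) (B : Finset (Fin n)) (ℓ : ℕ) (u v : Fin n) : Prop :=
  ∃ (k : ℕ) (w : ℕ → Fin n), 1 ≤ k ∧ k ≤ ℓ ∧ w 0 = u ∧ w k = v ∧
    (∀ a ≤ k, ∀ b ≤ k, w a = w b → a = b) ∧ (∀ a, 0 < a → a < k → w a ∉ B) ∧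
    ∀ a < k, (w a, w (a + 1)) ∈ S

/-- any two vertices are connected by short paths which avoid a given set of at most `b` vertices -/
def Con {n : ℕ} (S : Finset (Fin n × Fin n)) (b ℓ : ℕ) : Prop :=
  ∀ (B : Finset (Fin n)) (u v : Fin n), B.card ≤ b → u ≠ v → PathIn S B ℓ u v

/-! ## Bipartite systems with small classes -/

/-- The hypotheses on a system whose classes have at most `N` elements (`N` may be much smaller than
`n`): all degrees at least `θ N`, all but `g N` degrees within `g N` of `ρ`, and robustness inside the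
classes. -/
structure BHyp {n K : ℕ} (S : Finset (Fin n × Fin n)) (o i : Fin n → Fin K) (N θ ρ g β ν : ℝ) :
    Prop where
  own : ∀ e ∈ S, o e.1 = i e.2
  odl : ∀ v, θ * N ≤ od S v
  idl : ∀ v, θ * N ≤ idg S v
  nro : ((univ.filter (fun v => g * N < |(od S v : ℝ) - ρ|)).card : ℝ) ≤ g * N
  nri : ((univ.filter (fun v => g * N < |(idg S v : ℝ) - ρ|)).card : ℝ) ≤ g * N
  rge : θ * N ≤ ρ
  rle : ρ ≤ N
  szo : ∀ a, ((Cl o a).card : ℝ) ≤ N
  szi : ∀ a, ((Cl i a).card : ℝ) ≤ N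
  rob : ∀ (a : Fin K) (X Y : Finset (Fin n)), X ⊆ Cl o a → Y ⊆ Cl i a →
    β * N ≤ (X.card : ℝ) + (Cl i a \ Y).card → β * N ≤ ((Cl o a \ X).card : ℝ) + Y.card →
    ν * N ^ 2 ≤ (eb S X Y : ℝ) + eb S (Cl o a \ X) (Cl i a \ Y)

end Pool.Agent.MPd266dbE
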