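import Pool.Agent.Lib.MP_d266db_co.E.SpecH

/-!
# MP_d266db_co, E/Fnl: the theorem for every degree (helper8)
-/

set_option autoImplicit false

namespace Pool.Agent.MPd266dbE

open Finset Pool.Agent.MPd266db Pool.Agent.MPd266dbH

theorem tFnl (hMai : S_Mai) (hRegA : S_RegA) : S_Fnl := by
  obtain ⟨n0, h0⟩ := hMai
  refine ⟨n0, ?_⟩
  intro n hn E hO hS r hr
  by_cases h : 3 * n < 16 * (r + 1)
  · exact h0 n hn E hO hS r h hr
  · have hr' : r ≤ 3 * n / 16 := by omega
    obtain ⟨σ, h1, h2, h3⟩ := h0 n hn E hO hS (3 * n / 16) (by omega)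
      (hRegA n E hO hS (3 * n / 16) (by omega))
    refine ⟨fun j => σ (Fin.castLE hr' j), fun j => h1 _, fun j v => h2 _ v, ?_⟩
    intro j j' hj v
    exact h3 _ _ (fun hh => hj (Fin.castLE_injective hr' hh)) v

end Pool.Agent.MPd266dbE
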