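import Pool.Agent.Lib.MP_d266db_co.E.SpecF

set_option autoImplicit false

namespace Pool.Agent.MPd266dbE

open Finset Pool.Agent.MPd266db Pool.Agent.MPd266dbH

theorem hbx_od_le {n : ℕ} (Z : Finset (Fin n × Fin n)) (v : Fin n) : od Z v ≤ n := by
  unfold od
  have h : ((Z.filter (fun e => e.1 = v)).image Prod.snd).card = (Z.filter (fun e => e.1 = v)).card := by
    refine card_image_of_injOn ?_
    intro a ha b hb hab
    have h1 := (mem_filter.1 (mem_coe.1 ha)).2
    have h2 := (mem_filter.1 (mem_coe.1 hb)).2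
    exact Prod.ext (h1.trans h2.symm) hab
  rw [← h]
  exact (card_le_univ _).trans (by rw [Fintype.card_fin])

theorem hbx_idg_le {n : ℕ} (Z : Finset (Fin n × Fin n)) (v : Fin n) : idg Z v ≤ n := by
  unfold idg
  have h : ((Z.filter (fun e => e.2 = v)).image Prod.fst).card = (Z.filter (fun e => e.2 = v)).card := by
    refine card_image_of_injOn ?_
    intro a ha b hb hab
    have h1 := (mem_filter.1 (mem_coe.1 ha)).2
    have h2 := (mem_filter.1 (mem_coe.1 hb)).2
    exact Prod.ext hab (h1.trans h2.symm)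
  rw [← h]
  exact (card_le_univ _).trans (by rw [Fintype.card_fin])

theorem hbx_mem {n K : ℕ} {e : ℕ} {H1 H2 : ℕ → Fin K → Finset (Fin n × Fin n)}
    {q : Fin n × Fin n} : q ∈ hbU e H1 H2 ↔ ∃ m < e, ∃ a, q ∈ H1 m a ∨ q ∈ H2 m a := by
  unfold hbU
  simp only [mem_biUnion, mem_range, mem_univ, true_and, mem_union]

theorem tHbX (hGrd : S_Grd) : S_HbX := by
  classical
  intro n K e Nh Δ M0 S o i lv hown hΔ hN hM
  have hDg : ∀ X : Finset (Fin n × Fin n), Dg X n := fun X v => ⟨hbx_od_le X v, hbx_idg_le X v⟩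
  have hex1 : ∀ (m : ℕ) (a : Fin K), ∃ P : Finset (Fin n × Fin n), m < e →
      P ⊆ S.filter (fun q => lv q.1 = e ∧ lv q.2 = m + 1 ∧ o q.1 = a) ∧ P.card = Nh ∧ Dg P Δ := by
    intro m a
    by_cases hm : m < e
    · obtain ⟨P, h1, h2, h3⟩ := hGrd n Nh Δ n _ (hDg (S.filter (fun q => lv q.1 = e ∧
        lv q.2 = m + 1 ∧ o q.1 = a))) hΔ (hN.trans (Nat.mul_le_mul_left Δ (hM m hm a).1))
      exact ⟨P, fun _ => ⟨h1, h2, h3⟩⟩
    · exact ⟨∅, fun h => absurd h hm⟩
  have hex2 : ∀ (m : ℕ) (a : Fin K), ∃ P : Finset (Fin n × Fin n), m < e →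
      P ⊆ S.filter (fun q => lv q.1 = m ∧ lv q.2 = 0 ∧ o q.1 = a) ∧ P.card = Nh ∧ Dg P Δ := by
    intro m a
    by_cases hm : m < e
    · obtain ⟨P, h1, h2, h3⟩ := hGrd n Nh Δ n _ (hDg (S.filter (fun q => lv q.1 = m ∧
        lv q.2 = 0 ∧ o q.1 = a))) hΔ (hN.trans (Nat.mul_le_mul_left Δ (hM m hm a).2))
      exact ⟨P, fun _ => ⟨h1, h2, h3⟩⟩
    · exact ⟨∅, fun h => absurd h hm⟩
  choose H1 h1 using hex1
  choose H2 h2 using hex2
  have m1 : ∀ m < e, ∀ a, ∀ q ∈ H1 m a, q ∈ S ∧ lv q.1 = e ∧ lv q.2 = m + 1 ∧ o q.1 = a := by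
    intro m hm a q hq
    exact mem_filter.1 ((h1 m a hm).1 hq)
  have m2 : ∀ m < e, ∀ a, ∀ q ∈ H2 m a, q ∈ S ∧ lv q.1 = m ∧ lv q.2 = 0 ∧ o q.1 = a := by
    intro m hm a q hq
    exact mem_filter.1 ((h2 m a hm).1 hq)
  refine ⟨H1, H2, ⟨?_, ?_⟩, ?_, ?_, ?_, ?_⟩
  · intro m hm a
    exact ⟨fun q hq => (m1 m hm a q hq).1, (h1 m a hm).2.1, (h1 m a hm).2.2,
      fun q hq => (m1 m hm a q hq).2⟩
  · intro m hm a
    exact ⟨fun q hq => (m2 m hm a q hq).1, (h2 m a hm).2.1, (h2 m a hm).2.2,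
      fun q hq => (m2 m hm a q hq).2⟩
  · intro q hq
    obtain ⟨m, hm, a, hq | hq⟩ := hbx_mem.1 hq
    · exact (m1 m hm a q hq).1
    · exact (m2 m hm a q hq).1
  · intro v
    constructor
    · have hsub : (hbU e H1 H2).filter (fun q => q.1 = v) ⊆ (range e).biUnion (fun m =>
          (if lv v = e then H1 m (o v) else H2 m (o v)).filter (fun q => q.1 = v)) := by
        intro q hq
        obtain ⟨hq, hqv⟩ := mem_filter.1 hq
        obtain ⟨m, hm, a, hq | hq⟩ := hbx_mem.1 hq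
        · obtain ⟨-, b1, b2, b3⟩ := m1 m hm a q hq
          rw [hqv] at b1 b3
          refine mem_biUnion.2 ⟨m, mem_range.2 hm, mem_filter.2 ⟨?_, hqv⟩⟩
          rw [if_pos b1, b3]
          exact hq
        · obtain ⟨-, b1, b2, b3⟩ := m2 m hm a q hq
          rw [hqv] at b1 b3
          refine mem_biUnion.2 ⟨m, mem_range.2 hm, mem_filter.2 ⟨?_, hqv⟩⟩
          rw [if_neg (by omega), b3]
          exact hq
      refine (card_le_card hsub).trans (card_biUnion_le.trans ?_)
      refine (sum_le_card_nsmul (range e) _ Δ fun m hm => ?_).trans (by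
        rw [card_range, smul_eq_mul])
      have hm' := mem_range.1 hm
      split_ifs
      · exact ((h1 m (o v) hm').2.2 v).1
      · exact ((h2 m (o v) hm').2.2 v).1
    · have hsub : (hbU e H1 H2).filter (fun q => q.2 = v) ⊆ (range e).biUnion (fun m =>
          (if lv v = 0 then H2 m (i v) else H1 m (i v)).filter (fun q => q.2 = v)) := by
        intro q hq
        obtain ⟨hq, hqv⟩ := mem_filter.1 hq
        obtain ⟨m, hm, a, hq | hq⟩ := hbx_mem.1 hq
        · obtain ⟨b0, b1, b2, b3⟩ := m1 m hm a q hq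
          rw [hown q b0, hqv] at b3
          rw [hqv] at b2
          refine mem_biUnion.2 ⟨m, mem_range.2 hm, mem_filter.2 ⟨?_, hqv⟩⟩
          rw [if_neg (by omega), b3]
          exact hq
        · obtain ⟨b0, b1, b2, b3⟩ := m2 m hm a q hq
          rw [hown q b0, hqv] at b3
          rw [hqv] at b2
          refine mem_biUnion.2 ⟨m, mem_range.2 hm, mem_filter.2 ⟨?_, hqv⟩⟩
          rw [if_pos b2, b3]
          exact hq
      refine (card_le_card hsub).trans (card_biUnion_le.trans ?_)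
      refine (sum_le_card_nsmul (range e) _ Δ fun m hm => ?_).trans (by
        rw [card_range, smul_eq_mul])
      have hm' := mem_range.1 hm
      split_ifs
      · exact ((h2 m (i v) hm').2.2 v).2
      · exact ((h1 m (i v) hm').2.2 v).2
  · unfold hbU
    refine card_biUnion_le.trans ((sum_le_card_nsmul (range e) _ (K * (2 * Nh)) fun m hm => ?_).trans
      ?_)
    · refine card_biUnion_le.trans ((sum_le_card_nsmul univ _ (2 * Nh) fun a _ => ?_).trans ?_)
      · refine (card_union_le _ _).trans ?_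
        rw [(h1 m a (mem_range.1 hm)).2.1, (h2 m a (mem_range.1 hm)).2.1]
        omega
      · rw [card_univ, Fintype.card_fin, smul_eq_mul]
    · rw [card_range, smul_eq_mul]
      exact le_of_eq (by ring)
  · rw [disjoint_left]
    intro q hq hq'
    have hw : Wd e lv q.1 q.2 := (mem_filter.1 hq').2
    have hw1 := hw.1
    unfold tgp hgp at hw1
    obtain ⟨m, hm, a, hq | hq⟩ := hbx_mem.1 hq
    · obtain ⟨-, b1, b2, b3⟩ := m1 m hm a q hq
      rw [b1, b2, if_neg (by omega)] at hw1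
      omega
    · obtain ⟨-, b1, b2, b3⟩ := m2 m hm a q hq
      rw [b1, b2, if_pos rfl] at hw1
      omega

end Pool.Agent.MPd266dbE
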