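import Pool.Agent.Lib.MP_d266db_co.E.SpecF

/-!
# MP_d266db_co, E: unions of vertex-disjoint linear forests
-/

set_option autoImplicit false

namespace Pool.Agent.MPd266dbE

open Finset Pool.Agent.MPd266db Pool.Agent.MPd266dbH

theorem lfu_t {n : ℕ} {P : Finset (Fin n × Fin n)} {q : Fin n × Fin n} (h : q ∈ P) :
    q.1 ∈ vts P := by
  unfold vts
  exact mem_union_left _ (mem_tls.mpr ⟨q, h, rfl⟩)

theorem lfu_h {n : ℕ} {P : Finset (Fin n × Fin n)} {q : Fin n × Fin n} (h : q ∈ P) :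
    q.2 ∈ vts P := by
  unfold vts
  exact mem_union_right _ (mem_hds.mpr ⟨q, h, rfl⟩)

theorem tLFu : S_LFu := by
  classical
  intro n α _ A Q hLF hd
  have huniq : ∀ u ∈ A, ∀ u' ∈ A, ∀ v, v ∈ vts (Q u) → v ∈ vts (Q u') → u = u' := by
    intro u hu u' hu' v hv hv'
    by_contra hne
    exact Finset.disjoint_left.mp (hd u hu u' hu' hne) hv hv'
  have hrk : ∀ u, ∃ rk : Fin n → ℕ, u ∈ A → ∀ q ∈ Q u, rk q.1 < rk q.2 := by
    intro u
    by_cases hu : u ∈ A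
    · obtain ⟨rk, h⟩ := (hLF u hu).2.2
      exact ⟨rk, fun _ => h⟩
    · exact ⟨fun _ => 0, fun h => absurd h hu⟩
  choose rk hrk using hrk
  refine ⟨?_, ?_, fun v => if h : ∃ u ∈ A, v ∈ vts (Q u) then rk h.choose v else 0, ?_⟩
  · intro q hq q' hq' h
    obtain ⟨u, hu, hqu⟩ := mem_biUnion.mp hq
    obtain ⟨u', hu', hqu'⟩ := mem_biUnion.mp hq'
    have h1 := lfu_t hqu
    rw [h] at h1
    have h2 := huniq u hu u' hu' _ h1 (lfu_t hqu')
    subst h2
    exact (hLF u hu).1 q hqu q' hqu' h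
  · intro q hq q' hq' h
    obtain ⟨u, hu, hqu⟩ := mem_biUnion.mp hq
    obtain ⟨u', hu', hqu'⟩ := mem_biUnion.mp hq'
    have h1 := lfu_h hqu
    rw [h] at h1
    have h2 := huniq u hu u' hu' _ h1 (lfu_h hqu')
    subst h2
    exact (hLF u hu).2.1 q hqu q' hqu' h
  · intro q hq
    obtain ⟨u, hu, hqu⟩ := mem_biUnion.mp hq
    have key : ∀ v, v ∈ vts (Q u) →
        (if h : ∃ u ∈ A, v ∈ vts (Q u) then rk h.choose v else 0) = rk u v := by
      intro v hv
      have hex : ∃ u ∈ A, v ∈ vts (Q u) := ⟨u, hu, hv⟩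
      rw [dif_pos hex]
      have h1 := hex.choose_spec
      rw [huniq _ h1.1 u hu v h1.2 hv]
    beta_reduce
    rw [key _ (lfu_t hqu), key _ (lfu_h hqu)]
    exact hrk u hu q hqu

end Pool.Agent.MPd266dbE
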