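import Pool.Agent.Lib.MP_d266db_co.E.SpecD

/-!
# MP_d266db_co, E, PXb: balance of classes and boxes (helper3)
-/

set_option autoImplicit false

namespace Pool.Agent.MPd266dbE

open Finset Pool.Agent.MPd266db Pool.Agent.MPd266dbH

private theorem pxb_count {n K : ℕ} (X : Finset (Fin n × Fin n)) (f : Fin n × Fin n → Fin n)
    (hf : ∀ q ∈ X, ∀ q' ∈ X, f q = f q' → q = q') (o : Fin n → Fin K) (χ : ℕ) (a : Fin K)
    (h : ∀ q ∈ X, (if o (f q) = a then 1 else 0) = χ) :
    (Cl o a \ X.image f).card + X.card * χ = (Cl o a).card := by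
  rw [← card_sdiff_add_card_inter (Cl o a) (X.image f)]
  congr 1
  have h1 : Cl o a ∩ X.image f = (X.image f).filter (fun v => o v = a) := by
    ext v
    simp only [Cl, mem_inter, mem_filter, mem_univ, true_and]
    tauto
  rw [h1, card_filter, sum_image hf, sum_congr rfl h, sum_const, smul_eq_mul]

private theorem pxb_fib {n : ℕ} (A : Finset (Fin n)) (g : Fin n → ℕ) (e : ℕ) (h : ∀ v, g v ≤ e) :
    A.card = ∑ l ∈ range (e + 1), (A.filter (fun v => g v = l)).card :=
  card_eq_sum_card_fiberwise fun v _ => by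
    rw [mem_coe, mem_range]
    exact Nat.lt_succ_of_le (h v)

private theorem pxb_ofNat {e x : ℕ} (hx : x ≤ e) (l : Fin (e + 1)) :
    Fin.ofNat (e + 1) x = l ↔ x = (l : ℕ) := by
  rw [Fin.ext_iff, Fin.val_ofNat, Nat.mod_eq_of_lt (Nat.lt_succ_of_le hx)]

theorem tPXb : S_PXb := by
  intro n K p o i χo χi XL X hP hX hV hc
  have t1 : ∀ q ∈ X, ∀ q' ∈ X, q.1 = q'.1 → q = q' := by
    intro q hq q' hq' h
    by_contra hne
    exact (hV.1 q hq q' hq' hne).1 h
  have t2 : ∀ q ∈ X, ∀ q' ∈ X, q.2 = q'.2 → q = q' := by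
    intro q hq q' hq' h
    by_contra hne
    exact (hV.1 q hq q' hq' hne).2 h
  have hB : Bal o i X := by
    intro a
    have h1 := pxb_count X Prod.fst t1 o (χo a) a (fun q hq => hP.tl q (hX hq) a)
    have h2 := pxb_count X Prod.snd t2 i (χi a) a (fun q hq => hP.hd q (hX hq) a)
    have h3 := hP.sz a
    rw [hc] at h1 h2
    unfold tls hds
    generalize p * χo a = x at *
    generalize p * χi a = y at *
    omega
  refine ⟨hB, ?_⟩
  intro e lv hL he hX2 b
  obtain ⟨⟨l, a⟩, rfl⟩ := finProdFinEquiv.surjective b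
  have hg : ∀ v, hgp e lv v ≤ e := fun v => hgp_le (hL.le v)
  have ho : Cl (bxo e lv o) (finProdFinEquiv (l, a)) \ tls X =
      (Cl o a \ tls X).filter (fun v => tgp e lv v = (l : ℕ)) := by
    ext v
    simp only [Cl, mem_sdiff, mem_filter, mem_univ, true_and, bxo, EmbeddingLike.apply_eq_iff_eq,
      Prod.mk.injEq, pxb_ofNat (tgp_le e lv v)]
    tauto
  have hi : Cl (bxi e lv i) (finProdFinEquiv (l, a)) \ hds X =
      (Cl i a \ hds X).filter (fun v => hgp e lv v = (l : ℕ)) := by
    ext v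
    simp only [Cl, mem_sdiff, mem_filter, mem_univ, true_and, bxi, EmbeddingLike.apply_eq_iff_eq,
      Prod.mk.injEq, pxb_ofNat (hg v)]
    tauto
  have hlt : ∀ l < e, ((Cl o a \ tls X).filter (fun v => tgp e lv v = l)).card =
      ((Cl i a \ hds X).filter (fun v => hgp e lv v = l)).card := by
    intro l hl
    have e1 : (Cl o a \ tls X).filter (fun v => tgp e lv v = l) =
        univ.filter (fun v => lv v = l ∧ o v = a) := by
      ext v
      simp only [Cl, mem_sdiff, mem_filter, mem_univ, true_and, mem_tls, tgp]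
      constructor
      · rintro ⟨⟨h1, -⟩, h2⟩
        exact ⟨by omega, h1⟩
      · rintro ⟨h1, h2⟩
        refine ⟨⟨h2, ?_⟩, by omega⟩
        rintro ⟨q, hq, rfl⟩
        have := (hX2 q hq).1
        omega
    have e2 : (Cl i a \ hds X).filter (fun v => hgp e lv v = l) =
        univ.filter (fun v => lv v = l + 1 ∧ i v = a) := by
      ext v
      simp only [Cl, mem_sdiff, mem_filter, mem_univ, true_and, mem_hds, hgp]
      constructor
      · rintro ⟨⟨h1, -⟩, h2⟩
        refine ⟨?_, h1⟩
        split_ifs at h2 <;> omega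
      · rintro ⟨h1, h2⟩
        refine ⟨⟨h2, ?_⟩, ?_⟩
        · rintro ⟨q, hq, rfl⟩
          have := (hX2 q hq).2
          omega
        · rw [if_neg (by omega)]
          omega
    rw [e1, e2]
    exact hL.bal l hl.le (l + 1) hl a
  rw [ho, hi]
  rcases lt_or_eq_of_le (Nat.lt_succ_iff.1 l.2) with h | h
  · exact hlt _ h
  · rw [h]
    have h1 := pxb_fib (Cl o a \ tls X) (tgp e lv) e (tgp_le e lv)
    have h2 := pxb_fib (Cl i a \ hds X) (hgp e lv) e hg
    rw [sum_range_succ] at h1 h2
    have h3 := sum_congr rfl fun l (hl : l ∈ range e) => hlt l (mem_range.1 hl)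
    have h4 := hB a
    omega

end Pool.Agent.MPd266dbE
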