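import Pool.Agent.Lib.MP_d266db_co.E.SpecB

/-!
# MP_d266db_co, E: partner cycles
-/

set_option autoImplicit false

namespace Pool.Agent.MPd266dbE

open Finset Pool.Agent.MPd266db Pool.Agent.MPd266dbH

/-- removing two disjoint sets -/
private theorem ptn_sd {n : ℕ} (A T Y : Finset (Fin n)) (h : Disjoint T Y) :
    (A \ (T ∪ Y)).card + (T ∩ A).card = (A \ Y).card := by
  classical
  rw [← card_union_of_disjoint]
  · congr 1
    ext v
    rw [mem_union, mem_sdiff, mem_union, mem_inter, mem_sdiff]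
    constructor
    · rintro (⟨h1, h2⟩ | ⟨h1, h2⟩)
      · exact ⟨h1, fun h3 => h2 (Or.inr h3)⟩
      · exact ⟨h2, fun h3 => disjoint_left.1 h h1 h3⟩
    · rintro ⟨h1, h2⟩
      by_cases h3 : v ∈ T
      · exact Or.inr ⟨h3, h1⟩
      · exact Or.inl ⟨h1, fun h4 => h4.elim h3 h2⟩
  · rw [disjoint_left]
    intro v h1 h2
    exact (mem_sdiff.1 h1).2 (mem_union_left _ (mem_inter.1 h2).1)

/-- the vertices of a path in a class -/
private theorem ptn_cnt {n K L : ℕ} {w : ℕ → Fin n}
    (hw : ∀ x < L, ∀ y < L, w x = w y → x = y) (o : Fin n → Fin K) (a : Fin K) :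
    ((range L).image w ∩ Cl o a).card = ((range L).filter (fun x => o (w x) = a)).card := by
  classical
  have h1 : (range L).image w ∩ Cl o a = ((range L).filter (fun x => o (w x) = a)).image w := by
    ext v
    rw [mem_inter, mem_image, mem_image]
    constructor
    · rintro ⟨⟨x, hx, rfl⟩, hv⟩
      exact ⟨x, mem_filter.2 ⟨hx, (mem_filter.1 hv).2⟩, rfl⟩
    · rintro ⟨x, hx, rfl⟩
      obtain ⟨h1, h2⟩ := mem_filter.1 hx
      exact ⟨⟨x, h1, rfl⟩, mem_filter.2 ⟨mem_univ _, h2⟩⟩
  rw [h1, card_image_of_injOn]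
  intro x hx y hy he
  exact hw x (mem_range.1 (mem_filter.1 (mem_coe.1 hx)).1) y
    (mem_range.1 (mem_filter.1 (mem_coe.1 hy)).1) he

theorem tPtn (hPth : S_Pth) (hPar : S_Par) : S_Ptn := by
  classical
  intro n K M ℓ b S X o i B c d g hM hHam hCon hown hVD hvB hBal hb hg hcd hdis hB
  obtain ⟨L, w, s, hL, hinj, hs, hsm, hwB, harc⟩ := hPth n (2 * M) ℓ b S B c d (by omega) hCon hb
    hcd hdis (fun j hj => ⟨(hB j hj).1, (hB j hj).2.1⟩)
  have hXt : ∀ e ∈ X, e.1 ∈ B := fun e he =>
    hvB (mem_union_left _ (mem_tls.2 ⟨e, he, rfl⟩))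
  have hXh : ∀ e ∈ X, e.2 ∈ B := fun e he =>
    hvB (mem_union_right _ (mem_hds.2 ⟨e, he, rfl⟩))
  obtain ⟨Pi, hPi⟩ : ∃ Pi : Finset (Fin n × Fin n), Pi =
      (range L).image (fun x => (w x, w (x + 1))) := ⟨_, rfl⟩
  have hmem : ∀ e, e ∈ Pi ↔ ∃ x < L, (w x, w (x + 1)) = e := by
    intro e
    rw [hPi, mem_image]
    exact ⟨fun ⟨x, h1, h2⟩ => ⟨x, mem_range.1 h1, h2⟩, fun ⟨x, h1, h2⟩ => ⟨x, mem_range.2 h1, h2⟩⟩
  have howP : ∀ x < L, o (w x) = i (w (x + 1)) := by
    intro x hx
    rcases harc x hx with ⟨j, hj, rfl⟩ | h1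
    · obtain ⟨a1, a2, a3⟩ := hs j hj
      rw [a2, a3]
      exact (hB j hj).2.2
    · exact hown _ h1
  -- the linear forest
  have hLF : LF (Pi ∪ X) := by
    refine ⟨?_, ?_, ?_⟩
    · intro e he e' he' h
      rcases mem_union.1 he with h1 | h1 <;> rcases mem_union.1 he' with h2 | h2
      · obtain ⟨x, hx, rfl⟩ := (hmem e).1 h1
        obtain ⟨y, hy, rfl⟩ := (hmem e').1 h2
        have := hinj x hx.le y hy.le h
        rw [this]
      · obtain ⟨x, hx, rfl⟩ := (hmem e).1 h1
        exact absurd (by have := hXt e' h2; rw [← h] at this; exact this) (hwB x hx.le)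
      · obtain ⟨x, hx, rfl⟩ := (hmem e').1 h2
        exact absurd (by have := hXt e h1; rw [h] at this; exact this) (hwB x hx.le)
      · by_contra hne
        exact (hVD.1 e h1 e' h2 hne).1 h
    · intro e he e' he' h
      rcases mem_union.1 he with h1 | h1 <;> rcases mem_union.1 he' with h2 | h2
      · obtain ⟨x, hx, rfl⟩ := (hmem e).1 h1
        obtain ⟨y, hy, rfl⟩ := (hmem e').1 h2
        have := hinj (x + 1) hx (y + 1) hy h
        rw [Nat.succ_injective this]
      · obtain ⟨x, hx, rfl⟩ := (hmem e).1 h1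
        exact absurd (by have := hXh e' h2; rw [← h] at this; exact this) (hwB (x + 1) hx)
      · obtain ⟨x, hx, rfl⟩ := (hmem e').1 h2
        exact absurd (by have := hXh e h1; rw [h] at this; exact this) (hwB (x + 1) hx)
      · by_contra hne
        exact (hVD.1 e h1 e' h2 hne).2 h
    · obtain ⟨rk0, hrk0⟩ : ∃ rk0 : Fin n → ℕ, ∀ x ≤ L, rk0 (w x) = x := by
        refine ⟨fun v => if h : ∃ x, x ≤ L ∧ w x = v then h.choose else 0, ?_⟩
        intro x hx
        have h1 : ∃ y, y ≤ L ∧ w y = w x := ⟨x, hx, rfl⟩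
        simp only [dif_pos h1]
        exact hinj _ h1.choose_spec.1 x hx h1.choose_spec.2
      refine ⟨fun v => if v ∈ B then (if v ∈ hds X then 1 else 0) else rk0 v, ?_⟩
      intro e he
      show (if e.1 ∈ B then (if e.1 ∈ hds X then 1 else 0) else rk0 e.1) <
        (if e.2 ∈ B then (if e.2 ∈ hds X then 1 else 0) else rk0 e.2)
      rcases mem_union.1 he with h1 | h1
      · obtain ⟨x, hx, rfl⟩ := (hmem e).1 h1
        rw [if_neg (hwB x hx.le), if_neg (hwB (x + 1) hx), hrk0 x hx.le, hrk0 (x + 1) hx]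
        exact Nat.lt_succ_self x
      · have h2 : e.1 ∉ hds X := by
          intro h3
          obtain ⟨e', he', h4⟩ := mem_hds.1 h3
          exact hVD.2 e h1 e' he' h4.symm
        rw [if_pos (hXt e h1), if_neg h2, if_pos (hXh e h1), if_pos (mem_hds.2 ⟨e, h1, rfl⟩)]
        exact Nat.one_pos
  have hcard : (((Pi ∪ X).card : ℕ) : ℝ) ≤ g * n := by
    refine le_trans ?_ hg
    rw [Nat.cast_le]
    have h1 := card_union_le Pi X
    have h2 : Pi.card ≤ L := by
      rw [hPi]
      exact card_image_le.trans (card_range L).le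
    omega
  have htls : tls (Pi ∪ X) = (range L).image w ∪ tls X := by
    unfold tls
    rw [image_union, hPi, image_image]
    rfl
  have hhds : hds (Pi ∪ X) = (range L).image (fun x => w (x + 1)) ∪ hds X := by
    unfold hds
    rw [image_union, hPi, image_image]
    rfl
  have hBalP : Bal o i (Pi ∪ X) := by
    intro a
    rw [htls, hhds]
    have h1 := ptn_sd (Cl o a) ((range L).image w) (tls X) (by
      rw [disjoint_left]
      intro v h1 h2
      obtain ⟨x, hx, rfl⟩ := mem_image.1 h1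
      exact hwB x (mem_range.1 hx).le (hvB (mem_union_left _ h2)))
    have h2 := ptn_sd (Cl i a) ((range L).image (fun x => w (x + 1))) (hds X) (by
      rw [disjoint_left]
      intro v h1 h2
      obtain ⟨x, hx, rfl⟩ := mem_image.1 h1
      exact hwB (x + 1) (mem_range.1 hx) (hvB (mem_union_right _ h2)))
    rw [ptn_cnt (fun x hx y hy h => hinj x hx.le y hy.le h) o a] at h1
    rw [ptn_cnt (w := fun x => w (x + 1))
      (fun x hx y hy h => Nat.succ_injective (hinj (x + 1) hx (y + 1) hy h)) i a] at h2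
    have h3 : (range L).filter (fun x => o (w x) = a) =
        (range L).filter (fun x => i (w (x + 1)) = a) := by
      apply filter_congr
      intro x hx
      rw [howP x (mem_range.1 hx)]
    rw [h3] at h1
    have h4 := hBal a
    omega
  obtain ⟨π, hπ, hπP, hπS⟩ := hHam (Pi ∪ X) hLF hcard hBalP
  have hπw : ∀ x < L, π (w x) = w (x + 1) := fun x hx =>
    hπP (w x, w (x + 1)) (mem_union_left _ ((hmem _).2 ⟨x, hx, rfl⟩))
  have hπs : ∀ x ≤ L, (π ^ x) (w 0) = w x := by
    intro x
    induction x with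
    | zero => intro _; rfl
    | succ x ih =>
      intro hx
      rw [pow_succ', Equiv.Perm.mul_apply, ih (by omega), hπw x (by omega)]
  have hLn : L < n := by
    have h1 : ((range (L + 1)).image w).card = L + 1 := by
      rw [card_image_of_injOn, card_range]
      intro x hx y hy he
      exact hinj x (Nat.lt_succ_iff.1 (mem_range.1 (mem_coe.1 hx))) y
        (Nat.lt_succ_iff.1 (mem_range.1 (mem_coe.1 hy))) he
    have h2 := card_le_univ ((range (L + 1)).image w)
    rw [Fintype.card_fin] at h2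
    omega
  refine ⟨π, hπ, fun e he => hπP e (mem_union_right _ he), ?_, ?_, ?_⟩
  · intro j hj
    obtain ⟨a1, a2, a3⟩ := hs j hj
    rw [← a2, ← a3]
    exact hπw _ a1
  · intro v hv hvc
    by_cases h1 : v ∈ tls (Pi ∪ X)
    · rw [htls, mem_union] at h1
      rcases h1 with h1 | h1
      · obtain ⟨x, hx, rfl⟩ := mem_image.1 h1
        have hx' := mem_range.1 hx
        rcases harc x hx' with ⟨j, hj, rfl⟩ | h2
        · exact absurd (hs j hj).2.1 (hvc j hj)
        · rw [hπw x hx']
          exact h2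
      · exact absurd h1 hv
    · exact hπS v h1
  · intro E τ hE hEv hT
    have hpos : ∀ j < 2 * M, (π ^ (s j)) (w 0) = c j := by
      intro j hj
      obtain ⟨a1, a2, -⟩ := hs j hj
      rw [hπs _ (by omega), a2]
    refine hPar n M π τ (w 0) s E hπ hsm (fun j hj => ?_) hE hEv ?_ ?_
    · have := (hs j hj).1
      omega
    · intro j hj
      have h1 := hE j hj
      rw [hpos j (by omega), hpos (M + j) (by omega)]
      exact hT.1 (c j, c (M + j)) (mem_image.2 ⟨j, hj, rfl⟩)
    · intro v hv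
      refine hT.2 v fun q hq => ?_
      obtain ⟨j, hj, rfl⟩ := mem_image.1 hq
      have h1 := hE j hj
      have h2 := hv j hj
      rw [hpos j (by omega), hpos (M + j) (by omega)] at h2
      exact h2

end Pool.Agent.MPd266dbE
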