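import Pool.Agent.Lib.MP_d266db_co.E.Defs

/-!
# MP_d266db_co, E, SpecB: paths, switches, partner cycles

Every `S_...` is a statement to be proved in its own file `Pool/Agent/Lib/MP_d266db_co/E/....lean`;
the docstring contains the complete proof.
-/

set_option autoImplicit false

namespace Pool.Agent.MPd266dbE

open Finset Pool.Agent.MPd266db Pool.Agent.MPd266dbH

/-- (about 150 lines) **Short paths.**

Proof.  `ζ = η θ²/24` (`≤ θ/8`, as `η ≤ ...`: take `ζ = min (η θ²/24) (θ/8)`), `ℓ = ⌊8/(η θ²)⌋₊ + 3`.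
Let `B, u, v` be given, `B' = B ∪ {u, v}`, `|B'| ≤ 2 ζ n` (`2 ≤ ζ n`).  Let `A_1` be the set of the
out-neighbours of `u` (in `S`) outside `B'` and `A_(j+1) = A_j ∪ (out-neighbours of A_j outside B')`; let
`C` be the set of the in-neighbours of `v` outside `B'`; `|A_1|, |C| ≥ θ n - 2 ζ n ≥ (θ/2) n`.  Suppose
`A_j ∩ C = ∅`.  Then `W = A_j` has `|W| ≥ (θ/2) n`, `|W^c| ≥ |C| ≥ (θ/2) n`, so at least `η (θ²/4) n²` arcs of
`R` go from `W` to `W^c`; at most `ζ n²` of them are not in `S` and at most `|B'| n ≤ 2 ζ n²` of them have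
their head in `B'`; so at least `(η θ²/4 - 3 ζ) n² ≥ (η θ²/8) n²` arcs of `S` go from `A_j` to
`A_(j+1) \ A_j`, hence `|A_(j+1) \ A_j| ≥ (η θ²/8) n`.  So `A_j ∩ C ≠ ∅` for some `j ≤ ⌊8/(η θ²)⌋ + 1`, and
there is a walk from `u` to `v` with at most `j + 1 ≤ ℓ` arcs in `S` and inner vertices outside `B'`.
A walk of this kind with the least number `k` of arcs has distinct vertices: if `w a = w b`, `a < b`, one
could leave out the part between `a` and `b` (the inner vertices are different from `u`, `v`, and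
`u ≠ v`, so at least one arc remains). -/
def S_Con : Prop :=
  ∀ η θ : ℝ, 0 < η → 0 < θ → θ ≤ 1 → ∃ (ζ : ℝ) (ℓ : ℕ), 0 < ζ ∧ 1 ≤ ℓ ∧
    ∀ (n b : ℕ) (R S : Finset (Fin n × Fin n)), S ⊆ R → ((R \ S).card : ℝ) ≤ ζ * (n : ℝ) ^ 2 →
      (b : ℝ) ≤ ζ * n → 2 ≤ ζ * n → (∀ v, θ * n ≤ od S v) → (∀ v, θ * n ≤ idg S v) →
      (∀ W : Finset (Fin n), η * W.card * Wᶜ.card ≤ eb R W Wᶜ) → Con S b ℓ

/-- (about 200 lines) **A path through given arcs.**

Proof.  Claim for `1 ≤ p ≤ m` by induction on `p`: there are `L, w, s` with the properties of the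
statement for the indices `i < p` instead of `i < m`, with `L ≤ p (ℓ + 1)`, `s (p-1) + 1 = L` (so
`w L = d (p-1)`), such that moreover no `c j, d j`, `p ≤ j < m`, is on the path.  `p = 1`: `w 0 = c 0`,
`w 1 = d 0`, `L = 1`, `s 0 = 0`.  Step `p → p + 1 ≤ m`: let `B'` be the union of `B`, of the set of the
`w a`, `a ≤ L`, and of the set of all `c j, d j`, `j < m`.  The inner vertices of the connecting
paths are at most `(p - 1) ℓ`, all other vertices of the path are some `c j`, `d j`; so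
`|B'| ≤ |B| + 2 m + m ℓ ≤ b`.  (It is convenient to keep `#{w a : a ≤ L} ≤ 2p + (p-1) ℓ` as part of the
claim, or to use `L + 1 ≤ p (ℓ+1) + 1` and `2 (m - p)` for the other `c j, d j`; both fit into
`m (ℓ + 2)`.)  `Con S b ℓ` for `B'`, `u = d (p-1)`, `v = c p` (different) gives a path with `k ≤ ℓ` arcs;
append it and the vertex `d p`.  The new length is `L + k + 1 ≤ (p + 1)(ℓ + 1)`; all vertices are
distinct. -/
def S_Pth : Prop :=
  ∀ (n m ℓ b : ℕ) (S : Finset (Fin n × Fin n)) (B : Finset (Fin n)) (c d : ℕ → Fin n), 1 ≤ m →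
    Con S b ℓ → B.card + m * (ℓ + 2) ≤ b → (∀ j < m, ∀ j' < m, c j ≠ d j') →
    (∀ j < m, ∀ j' < m, j ≠ j' → c j ≠ c j' ∧ d j ≠ d j') → (∀ j < m, c j ∉ B ∧ d j ∉ B) →
    ∃ (L : ℕ) (w : ℕ → Fin n) (s : ℕ → ℕ), L ≤ m * (ℓ + 1) ∧
      (∀ x ≤ L, ∀ y ≤ L, w x = w y → x = y) ∧
      (∀ j < m, s j + 1 ≤ L ∧ w (s j) = c j ∧ w (s j + 1) = d j) ∧
      (∀ j j', j < j' → j' < m → s j < s j') ∧ (∀ x ≤ L, w x ∉ B) ∧
      ∀ x < L, (∃ j < m, x = s j) ∨ (w x, w (x + 1)) ∈ S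

/-- (about 250 lines) **An even number of crossing switches.**

Proof.  Let `m = |E|`.  If `m = 0` then `τ = 1`.  Let `m ≥ 2`.  `π` has one cycle, so `t ↦ π^t v₀` is a
bijection from `{0, ..., n-1}` to the vertices and `π^n v₀ = v₀`; call `t` the position.  Let
`e_0 < ... < e_(m-1)` be the elements of `E` and `p_j = s e_j` for `j < m`, `p_(m+j) = s (M + e_j)` for
`j < m`; these are `2m` positions, increasing in the index, all `< n`.  Let `q_j = π^(p_j) v₀`; read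
indices modulo `2m`.  `τ` exchanges `q_j` and `q_(j+m)` and fixes all other vertices.  Let `π' = π τ`.
From a vertex whose position is not one of the `p_j`, `π'` goes to the next position (modulo `n`);
from `q_j` it goes to the position `p_(j+m) + 1`.  Let the segment `j` consist of the positions
`p_(j-1) + 1, ..., p_j` (for `j = 0`: `p_(2m-1) + 1, ..., n - 1, 0, ..., p_0`).  Every position is in exactly
one segment, and every vertex in the segment `j` is in the `π'`-cycle of `q_j` (go forward).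
`π' q_j` is the first vertex of the segment `j + m + 1`, so `q_j` and `q_(j+m+1)` are in the same cycle.
Applying this twice, `q_j` and `q_(j+2)` are in the same cycle (`2m + 2 ≡ 2`), and as `m + 1` is odd all
`q_j` are in the same cycle. -/
def S_Par : Prop :=
  ∀ (n M : ℕ) (π τ : Equiv.Perm (Fin n)) (v₀ : Fin n) (s : ℕ → ℕ) (E : Finset ℕ), Ham π →
    (∀ j j', j < j' → j' < 2 * M → s j < s j') → (∀ j < 2 * M, s j < n) → (∀ j ∈ E, j < M) →
    Even E.card →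
    (∀ j ∈ E, τ ((π ^ (s j)) v₀) = (π ^ (s (M + j))) v₀ ∧
      τ ((π ^ (s (M + j))) v₀) = (π ^ (s j)) v₀) →
    (∀ v, (∀ j ∈ E, v ≠ (π ^ (s j)) v₀ ∧ v ≠ (π ^ (s (M + j))) v₀) → τ v = v) → Ham (π * τ)

/-- (about 200 lines; uses `S_Pth`, `S_Par`) **Partner cycles.**

Proof.  `S_Pth` for the `2M` arcs `(c j, d j)` gives `L, w, s`.  Let `Π` be the set of the arcs
`(w x, w (x+1))`, `x < L`, and `P = Π ∪ X`.  All vertices of `X` are in `B`, the `w x` are not, so `P` has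
distinct tails and heads; rank: `rk (w x) = x`, `rk` of the tails of `X` is `0` and of the heads of `X`
is `1` (`VD`: no tail of `X` is a head of `X`).  So `LF P`.  `|P| ≤ 2M (ℓ+1) + |X| ≤ g n`.  `Bal o i P`: the
arcs of `Π` are own (arcs of `S` or `(c j, d j)`), so for each class `a` the number of the tails of `Π` in
`Cl o a` is the number of the heads of `Π` in `Cl i a`; these are disjoint from the tails and heads of `X`;
subtract from `Bal o i X`.  `HamP` gives `π`.  If `v` is not a tail of `X` and no `c j`, then `v ∉ tls P` and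
`(v, π v) ∈ S`, or `v = w x`, `x < L`, `x ≠ s j` for all `j`, and `(v, π v) = (w x, w (x+1)) ∈ S`.
Switches: `v₀ = w 0`, `π^x v₀ = w x` for `x ≤ L`, `L < n`; `S_Par` with the positions `s`
(`c j = π^(s j) v₀`). -/
def S_Ptn : Prop :=
  ∀ (n K M ℓ b : ℕ) (S X : Finset (Fin n × Fin n)) (o i : Fin n → Fin K) (B : Finset (Fin n))
    (c d : ℕ → Fin n) (g : ℝ), 1 ≤ M → HamP S o i g → Con S b ℓ → (∀ e ∈ S, o e.1 = i e.2) →
    VD X → vts X ⊆ B → Bal o i X → B.card + 2 * M * (ℓ + 2) ≤ b →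
    ((2 * M * (ℓ + 1) + X.card : ℕ) : ℝ) ≤ g * n →
    (∀ j < 2 * M, ∀ j' < 2 * M, c j ≠ d j') →
    (∀ j < 2 * M, ∀ j' < 2 * M, j ≠ j' → c j ≠ c j' ∧ d j ≠ d j') →
    (∀ j < 2 * M, c j ∉ B ∧ d j ∉ B ∧ o (c j) = i (d j)) →
    ∃ π : Equiv.Perm (Fin n), Ham π ∧ (∀ e ∈ X, π e.1 = e.2) ∧ (∀ j < 2 * M, π (c j) = d j) ∧
      (∀ v, v ∉ tls X → (∀ j < 2 * M, v ≠ c j) → (v, π v) ∈ S) ∧
      ∀ (E : Finset ℕ) (τ : Equiv.Perm (Fin n)), (∀ j ∈ E, j < M) → Even E.card →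
        Tog (E.image (fun j => (c j, c (M + j)))) τ → Ham (π * τ)

/-- (about 100 lines) **Two vertices with three common out-neighbours.**

Proof.  `ζ = θ/2`, `m = ⌈4/θ⌉₊ ≥ 4`, `n0 = 3 m³ + ⌈2 m⌉₊ + 1` (large enough for the following).
Choose `m` vertices `x_1, ..., x_m` outside `B` (`n - |B| ≥ n/2 ≥ m`; `θ ≤ 1` as `θ n ≤ od S v ≤ n`).  Let `A_j` be
the set of the out-neighbours of `x_j` outside `B`, `|A_j| ≥ (θ/2) n`; `∑ |A_j| ≥ 2 n`.  For a vertex `y` let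
`t(y) ≤ m` be the number of the `j` with `y ∈ A_j`; `∑_y t(y) ≥ 2n`, so at least `n/m` vertices `y` have
`t(y) ≥ 2` (`2n ≤ n + m · #{y : t(y) ≥ 2}`).  For each of them choose a pair `j < j'` with
`y ∈ A_j ∩ A_j'`; as there are at most `m²` pairs, some pair occurs for at least `n/m³ ≥ 3` of the `y`.
These `y` are different from `x_j`, `x_j'`, as `S` has no loops. -/
def S_K23 : Prop :=
  ∀ θ : ℝ, 0 < θ → ∃ (ζ : ℝ) (n0 : ℕ), 0 < ζ ∧ ∀ n : ℕ, n0 ≤ n →
    ∀ (S : Finset (Fin n × Fin n)) (B : Finset (Fin n)), (∀ e ∈ S, e.1 ≠ e.2) →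
      (∀ v, θ * n ≤ od S v) → (B.card : ℝ) ≤ ζ * n →
      ∃ x x' y₁ y₂ y₃ : Fin n, x ≠ x' ∧ y₁ ≠ y₂ ∧ y₁ ≠ y₃ ∧ y₂ ≠ y₃ ∧ x ∉ B ∧ x' ∉ B ∧ y₁ ∉ B ∧
        y₂ ∉ B ∧ y₃ ∉ B ∧ (x, y₁) ∈ S ∧ (x, y₂) ∈ S ∧ (x, y₃) ∈ S ∧ (x', y₁) ∈ S ∧ (x', y₂) ∈ S ∧
        (x', y₃) ∈ S

end Pool.Agent.MPd266dbE
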