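import Pool.Agent.Lib.MP_d266db_co.E.SpecD

/-!
# MP_d266db_co, E, SpecE: the levels

Every `S_...` is a statement to be proved in its own file `Pool/Agent/Lib/MP_d266db_co/E/....lean`;
the docstring contains the complete proof.
-/

set_option autoImplicit false

namespace Pool.Agent.MPd266dbE

open Finset Pool.Agent.MPd266db Pool.Agent.MPd266dbH

/-- (about 200 lines; uses `S_Chf`, `S_ChB`; see `H/Slc.lean`) **A random map.**

Proof.  Fix `F ∈ 𝓕` with `θ n ≤ |F|` and `j : Fin k`.  `S_Chf` with `ι = Fin n`, `Λ = k`, `A v = {j}`, `δ = ε`: at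
most `k^n exp(-ε² |F|/(2k))` functions `c` have `#{v ∈ F : c v = j} ≤ (1 - ε) |F|/k`.  `S_Chf` with
`A v = {j}ᶜ` (`k - 1` elements), `δ = ε/(k - 1)`: at most `k^n exp(-ε² |F|/(2 k (k - 1)))` functions have
`#{v ∈ F : c v ≠ j} ≤ (1 - ε/(k-1)) |F| (k-1)/k`, and otherwise
`k #{v ∈ F : c v = j} = k |F| - k #{v ∈ F : c v ≠ j} ≤ (1 + ε) |F|`.  Both bounds are at most
`k^n exp(-ε² θ n/(2 k²))`; together for all `F, j` at most `2 k n² exp(-ε² θ n/(2 k²)) k^n < k^n/2` for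
large `n`.  If `L` is empty the last statement is trivial.  Otherwise `S_ChB` with `M = k`, `B1 = {s0}`,
`B2 = {s1}`, `t = |L|/(2 k²)`: at most `k^n 4 Δ |L|/t² = k^n 16 k⁴ Δ/|L| ≤ k^n/4` functions have
`#{a ∈ L : c a.1 = s0, c a.2 = s1} < |L|/k² - t`.  So some `c` has all properties. -/
def S_Rnd : Prop :=
  ∀ (k : ℕ) (ε θ : ℝ), 2 ≤ k → 0 < ε → ε ≤ 1 → 0 < θ → ∃ n0 : ℕ, ∀ n, n0 ≤ n →
    ∀ (𝓕 : Finset (Finset (Fin n))) (L : Finset (Fin n × Fin n)) (Δ : ℕ) (s0 s1 : Fin k),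
      𝓕.card ≤ n ^ 2 → (∀ a ∈ L, a.1 ≠ a.2) → Dg L Δ → 64 * k ^ 4 * Δ ≤ L.card →
      ∃ c : Fin n → Fin k,
        (∀ F ∈ 𝓕, θ * n ≤ F.card → ∀ j,
          (1 - ε) * F.card ≤ k * ((F.filter (fun v => c v = j)).card : ℝ) ∧
          k * ((F.filter (fun v => c v = j)).card : ℝ) ≤ (1 + ε) * F.card) ∧
        L.card ≤ 2 * k ^ 2 * (L.filter (fun a => c a.1 = s0 ∧ c a.2 = s1)).card

/-- (about 60 lines) **A subset of small weight.**

Proof by induction on `|M| - x`: for `x = |M|` take `M`.  Otherwise take a set `R'` with `x + 1` elements and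
remove an element `v` of `R'` of maximal weight: `(x + 1) w v ≥ ∑_{R'} w`, so
`(x + 1) ∑_{R' \ v} w ≤ x ∑_{R'} w`, and `|M| ∑_{R'} w ≤ (x + 1) ∑_M w`; multiply. -/
def S_LoW : Prop :=
  ∀ (n x : ℕ) (M : Finset (Fin n)) (w : Fin n → ℕ), x ≤ M.card →
    ∃ R ⊆ M, R.card = x ∧ M.card * ∑ v ∈ R, w v ≤ x * ∑ v ∈ M, w v

/-- the vertices of the types `(a, a)`, `(a, b)`, `(b, a)` (as tail, as head), `b ≠ a`, are abundant in all
levels -/
def Typ {n K : ℕ} (k : ℕ) (o i : Fin n → Fin K) (lv : Fin n → ℕ) (m : ℝ) (a : Fin K) : Prop :=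
  ∀ l < k, m ≤ (univ.filter (fun v => lv v = l ∧ o v = a ∧ i v = a)).card ∧
    ∀ b, b ≠ a → m ≤ (univ.filter (fun v => lv v = l ∧ o v = a ∧ i v = b)).card ∧
      m ≤ (univ.filter (fun v => lv v = l ∧ o v = b ∧ i v = a)).card

/-- (about 250 lines; uses `S_LoW`) **Levels of exactly the same composition.**

Proof.  Let `N = n/(e+1)`, `A = |Cl o a|/(e+1)` (natural divisions) with `a` from `Typ`, `N' = N - 3t`,
`A' = A - 2t`.  (`N ≥ 3t` and `A ≥ 2t`, because `16 t ≤ m ≤ #{c v = l, o v = a, i v = a} ≤ N + D, A + D`.)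
Case `K = 2`, `b` the other class.  For a level `l` let `n_l, o_l, i_l` be the numbers of the `v` with
`c v = l`, with moreover `o v = a`, with moreover `i v = a`.  `ΔN = n_l - N'`, `ΔO = o_l - A'`,
`ΔI = i_l - A'` are in `[3t - D, 3t + D]`, `[2t - D, 2t + D]`, `[2t - D, 2t + D]`.  Let
`x_ab = ΔN - ΔI`, `x_ba = ΔN - ΔO`, `x_aa = ΔO + ΔI - ΔN`; as `3 D ≤ t` they are between `0` and `2t ≤ m`.
Remove from the level `l` `x_ab` vertices of type `(o, i) = (a, b)`, `x_ba` of type `(b, a)`, `x_aa` of type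
`(a, a)`; then `N'` vertices remain, `A'` with `o = a` and `A'` with `i = a`, hence `N' - A'` with `o = b` and
`N' - A'` with `i = b`.  Case `K = 1`: remove `ΔN ≤ 4t` vertices.  In total at most `4t` vertices are
removed from every level.  The removed vertices get the level `e + 1`, for the others `lv v = c v`.
The choice of the removed vertices: in the level `e` use `S_LoW` for each type with the weight
`w v = #{q ∈ L0 : q.1 = v}`, in the level `0` with the weight `w v = #{q ∈ L0 : q.2 = v}`, where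
`L0 = {q ∈ L : c q.1 = e, c q.2 = 0}`; arbitrary in the other levels.  Every type has at least
`m ≥ 16 t` vertices and at most `4t` are removed; the types are disjoint; so in the level `e` we lose at most
`(4t/m) |L0| ≤ |L0|/4` arcs of `L0`, in the level `0` also at most `|L0|/4`.  `Lv.typ` and `Typ`: at least
`m - 4t ≥ m/2` vertices of every type remain. -/
def S_Adj : Prop :=
  ∀ (n K e t m D : ℕ) (o i : Fin n → Fin K) (c : Fin n → Fin (e + 1))
    (L : Finset (Fin n × Fin n)) (a : Fin K), K ≤ 2 → 1 ≤ e → 1 ≤ t → 3 * D ≤ t → 16 * t ≤ m →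
    Typ (e + 1) o i (fun v => (c v : ℕ)) m a →
    (∀ l, (univ.filter (fun v => c v = l)).card ≤ n / (e + 1) + D ∧
      n / (e + 1) ≤ (univ.filter (fun v => c v = l)).card + D) →
    (∀ l, (univ.filter (fun v => c v = l ∧ o v = a)).card ≤ (Cl o a).card / (e + 1) + D ∧
      (Cl o a).card / (e + 1) ≤ (univ.filter (fun v => c v = l ∧ o v = a)).card + D) →
    (∀ l, (univ.filter (fun v => c v = l ∧ i v = a)).card ≤ (Cl o a).card / (e + 1) + D ∧
      (Cl o a).card / (e + 1) ≤ (univ.filter (fun v => c v = l ∧ i v = a)).card + D) →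
    ∃ lv : Fin n → ℕ, Lv e o i lv ∧ (∀ v, lv v = c v ∨ lv v = e + 1) ∧
      (univ.filter (fun v => lv v = e + 1)).card ≤ 4 * t * (e + 1) ∧
      Typ (e + 1) o i lv (m / 2) a ∧
      (L.filter (fun q => (c q.1 : ℕ) = e ∧ (c q.2 : ℕ) = 0)).card ≤
        2 * (L.filter (fun q => lv q.1 = e ∧ lv q.2 = 0)).card

/-- (about 300 lines) **Robustness of the boxes.**  `Vt`, `Vh` are the levels of the tails and of the heads of
a gap, `Uo`, `Ui` the boxes of the class `a`.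

Proof.  Let `κ = βt/16` (so `Rob` holds with `κ`), `X' = Uo \ X`, `Y' = Ui \ Y`.  For a cluster `p` with `ct p = a`
let `x_p = |X ∩ T p ∩ Vt|`, `x'_p = |X' ∩ T p ∩ Vt|`; as `T p ∩ Vt ⊆ Uo`, `x_p + x'_p = |T p ∩ Vt|
≥ (1-ε) s/k ≥ 2 κ s/k`.  In the same way `y_q`, `y'_q` for `H q`, `ch q = a`.  Call `(p, q) ∈ D`, `ct p = a`
(so `ch q = a`) bad if `x_p, y_q ≥ κ s/k` or `x'_p, y'_q ≥ κ s/k`.  As `β1 s ≤ κ s/k`, `den` gives at least
`d (κ s/k)²` arcs from `X ∩ T p ∩ Vt` to `Y ∩ H q ∩ Vh` in the first case, and from the primed sets in the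
second case.  For different pairs these sets of arcs are disjoint; so it is enough to find
`c (n/s)²` bad pairs with `c = min (ν/2) (θ βt/8)`: `c (n/s)² d (κ s/k)² = (d κ² c/4) (2n/k)²`.
Let `X̂` be the union of the `T p`, `ct p = a`, `x'_p ≤ x_p`, and `Ŷ` the union of the `H q`, `ch q = a`,
`y'_q ≤ y_q`.
(A) If `κ n ≤ |X̂| + |Cl i a \ Ŷ|` and `κ n ≤ |Cl o a \ X̂| + |Ŷ|` then `Rob` gives
`ν n² ≤ eb S X̂ Ŷ + eb S (Cl o a \ X̂) (Cl i a \ Ŷ)`.  Here at most `τ n²` arcs are in pairs `(p, q) ∉ D`, at most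
`2 τ n²` have their tail in no `T p` or their head in no `H q`; all others are in pairs `(p, q) ∈ D` which
are bad (if `x'_p ≤ x_p` then `x_p ≥ κ s/k`; otherwise `x'_p ≥ κ s/k`; same for `y`), at most `s²` in each.  So
the number of the bad pairs is at least `(ν - 3τ)(n/s)² ≥ (ν/2)(n/s)²`.
(B) `|X̂| + |Cl i a \ Ŷ| < κ n`.  As `|X| + |Y'| ≥ βt 2n/k`, `|X| ≥ βt n/k` or `|Y'| ≥ βt n/k`.  Suppose
`|X| ≥ βt n/k`.  Elements of `X` which are not in `Vt`: at most `δ n`; in `Vt` but in no `T p`: at most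
`|Vt| - ∑_p |T p ∩ Vt| ≤ (1+ε) n/k - (1-ε)(1-τ) n/k ≤ (2ε + τ) n/k`; in `T p ∩ Vt` with `x'_p ≤ x_p`: these
are at most `κ n/s` clusters, with at most `(1+ε) s/k ≤ 2 s/k` elements each, together `2 κ n/k`; in
`T p ∩ Vt` with `x_p < κ s/k`: at most `κ n/k` (`kt s ≤ n`).  As `δ k ≤ βt/64`, `ε ≤ βt/64`, `τ ≤ βt/64` the
other elements are at least `(βt - 4 βt/64 - 3 βt/16) n/k ≥ (βt/2) n/k`; they are in clusters with
`κ s/k ≤ x_p < x'_p`, call them flexible; there are `m_f` of them, `m_f 2 s/k ≥ (βt/2) n/k`, so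
`m_f s ≥ (βt/4) n`.  Every `(p, q) ∈ D` with `p` flexible is bad (`y_q` or `y'_q` is at least `κ s/k`).  The arcs
with tail in a flexible cluster are at least `m_f s θ n ≥ (θ βt/4) n²`; at most `τ n²` of them are in pairs
`∉ D`, at most `τ n²` have their head in no `H q`, the others are in bad pairs, at most `s²` in each.  So
there are at least `(θ βt/4 - 2τ)(n/s)² ≥ (θ βt/8)(n/s)²` bad pairs.  If `|Y'| ≥ βt n/k` argue in the same way
with the heads: `q` with `y_q < y'_q` are at most `κ n/s`; `κ s/k ≤ y'_q ≤ y_q` is flexible; in-degrees.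
(C) `|Cl o a \ X̂| + |Ŷ| < κ n`: the same with `|X'| + |Y| ≥ βt 2n/k`. -/
def S_BxR : Prop :=
  ∀ (n K kt kh s k : ℕ) (S : Finset (Fin n × Fin n)) (o i : Fin n → Fin K)
    (T : Fin kt → Finset (Fin n)) (H : Fin kh → Finset (Fin n)) (ct : Fin kt → Fin K)
    (ch : Fin kh → Fin K) (D : Finset (Fin kt × Fin kh)) (β1 d τ θ ν ε δ βt : ℝ) (a : Fin K)
    (Vt Vh Uo Ui : Finset (Fin n)), CSys S o i T H ct ch D s β1 d τ →
    (∀ q ∈ S, o q.1 = i q.2) → 1 ≤ n → 1 ≤ s → 1 ≤ k → Rob o i S (βt / 16) ν → 0 < θ →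
    0 < ν → 0 < d → 0 < βt → βt ≤ 1 → (∀ v, θ * n ≤ od S v) → (∀ v, θ * n ≤ idg S v) →
    (∀ p, (1 - ε) * s ≤ k * ((T p ∩ Vt).card : ℝ) ∧ k * ((T p ∩ Vt).card : ℝ) ≤ (1 + ε) * s) →
    (∀ q, (1 - ε) * s ≤ k * ((H q ∩ Vh).card : ℝ) ∧ k * ((H q ∩ Vh).card : ℝ) ≤ (1 + ε) * s) →
    k * (Vt.card : ℝ) ≤ (1 + ε) * n → k * (Vh.card : ℝ) ≤ (1 + ε) * n →
    Cl o a ∩ Vt ⊆ Uo → Uo ⊆ Cl o a → ((Uo \ Vt).card : ℝ) ≤ δ * n →
    Cl i a ∩ Vh ⊆ Ui → Ui ⊆ Cl i a → ((Ui \ Vh).card : ℝ) ≤ δ * n →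
    0 < ε → 64 * ε ≤ βt → 64 * τ ≤ βt → 0 < τ → 6 * τ ≤ ν → 16 * τ ≤ θ * βt → 0 ≤ δ →
    64 * (δ * k) ≤ βt → 16 * (k * β1) ≤ βt →
    ∀ X Y : Finset (Fin n), X ⊆ Uo → Y ⊆ Ui → βt * (2 * n / k) ≤ (X.card : ℝ) + (Ui \ Y).card →
      βt * (2 * n / k) ≤ ((Uo \ X).card : ℝ) + Y.card →
      d * (βt / 16) ^ 2 * min (ν / 2) (θ * βt / 8) / 4 * (2 * n / k) ^ 2 ≤
        (eb S (X ∩ Vt) (Y ∩ Vh) : ℝ) + eb S ((Uo \ X) ∩ Vt) ((Ui \ Y) ∩ Vh)

/-- the set `F` is divided evenly into the `k` levels -/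
def Evn {n : ℕ} (k : ℕ) (lv : Fin n → ℕ) (ε : ℝ) (F : Finset (Fin n)) : Prop :=
  ∀ l < k, (1 - ε) * F.card ≤ k * ((F.filter (fun v => lv v = l)).card : ℝ) ∧
    k * ((F.filter (fun v => lv v = l)).card : ℝ) ≤ (1 + ε) * F.card

/-- the out-neighbours of `v` -/
def Nout {n : ℕ} (S : Finset (Fin n × Fin n)) (v : Fin n) : Finset (Fin n) :=
  univ.filter (fun w => (v, w) ∈ S)

/-- the in-neighbours of `v` -/
def Nin {n : ℕ} (S : Finset (Fin n × Fin n)) (v : Fin n) : Finset (Fin n) :=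
  univ.filter (fun w => (w, v) ∈ S)

/-- (about 250 lines) **The boxes form a system with small classes.**

Proof.  Let `k = e + 1`, `N = 2n/k`.  `own`: `bxo_eq_bxi` (the classes agree and `Wd`).  Out-degrees: let
`l = tgp v`; the heads of the winding arcs at `v` are the `w ∈ Nout S v` with `hgp w = l` (and not both levels
`e + 1`): if `l < e` these are those with `lv w = l + 1`; if `l = e` those with `lv w = 0`, and, if `lv v = e`,
those with `lv w = e + 1` (at most `δ n`).  So `(1-ε) od/k ≤ od (wnd) v ≤ (1+ε) od/k + δ n` (`od = |Nout S v|`).  As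
`ε ≤ 1/2`, `od (wnd) v ≥ θ n/(2k) = (θ/4) N`.  If `|od - r| ≤ g1 n` then
`|od (wnd) v - r/k| ≤ g1 n/k + ε n/k + δ n ≤ g N` (`g1 + ε + δ k ≤ 2 g`), and there are at most
`g1 n ≤ g N` exceptions (`k g1 ≤ 2 g`).  In the same way for in-degrees (`Nin S v`: if `hgp v = l < e` the tails
with `lv w = l`; if `lv v = 0` those with `lv w = e` or `e + 1`; if `lv v = e + 1` those with `lv w = e`).
Sizes: a box has at most `#{lv = l} + δ n ≤ (1+ε) n/k + δ n ≤ N` elements.  `rge`: `(θ/4) N = θ n/(2k) ≤ r/k`.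
`rob`: the box `finProdFinEquiv (l, a)` of tails is `{v : tgp v = l, o v = a}`, of heads
`{v : hgp v = l, i v = a}`; all arcs of `S` from level `l` to the level `l + 1` (to `0` if `l = e`) are winding;
so `eb (wnd) X Y ≥ eb S (X.filter ..) (Y.filter ..)` and the hypothesis `hrob` gives the claim. -/
def S_Bxh : Prop :=
  ∀ (n K e r : ℕ) (S : Finset (Fin n × Fin n)) (o i : Fin n → Fin K) (lv : Fin n → ℕ)
    (θ ε δ g1 g βt νt : ℝ), 1 ≤ e → (∀ q ∈ S, o q.1 = i q.2) → 1 ≤ n → 0 < θ →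
    (∀ v, lv v ≤ e + 1) → ((univ.filter (fun v => lv v = e + 1)).card : ℝ) ≤ δ * n →
    (∀ v, θ * n ≤ od S v) → (∀ v, θ * n ≤ idg S v) → θ * n ≤ r → r ≤ n →
    ((univ.filter (fun v => g1 * n < |(od S v : ℝ) - r|)).card : ℝ) ≤ g1 * n →
    ((univ.filter (fun v => g1 * n < |(idg S v : ℝ) - r|)).card : ℝ) ≤ g1 * n →
    Evn (e + 1) lv ε univ → (∀ v, Evn (e + 1) lv ε (Nout S v)) →
    (∀ v, Evn (e + 1) lv ε (Nin S v)) → 0 < ε → 2 * ε ≤ 1 → 0 ≤ δ → 0 ≤ g1 →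
    2 * ((e + 1) * δ) ≤ 1 → g1 + ε + (e + 1) * δ ≤ 2 * g → (e + 1) * g1 ≤ 2 * g →
    (∀ l ≤ e, ∀ (a : Fin K) (X Y : Finset (Fin n)),
      X ⊆ univ.filter (fun v => tgp e lv v = l ∧ o v = a) →
      Y ⊆ univ.filter (fun v => hgp e lv v = l ∧ i v = a) →
      βt * (2 * n / (e + 1)) ≤ (X.card : ℝ) +
        (univ.filter (fun v => hgp e lv v = l ∧ i v = a) \ Y).card →
      βt * (2 * n / (e + 1)) ≤ ((univ.filter (fun v => tgp e lv v = l ∧ o v = a) \ X).card : ℝ) +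
        Y.card →
      νt * (2 * n / (e + 1)) ^ 2 ≤
        (eb S (X.filter (fun v => lv v = l))
          (Y.filter (fun v => lv v = if l = e then 0 else l + 1)) : ℝ) +
        eb S ((univ.filter (fun v => tgp e lv v = l ∧ o v = a) \ X).filter (fun v => lv v = l))
          ((univ.filter (fun v => hgp e lv v = l ∧ i v = a) \ Y).filter
            (fun v => lv v = if l = e then 0 else l + 1))) →
    BHyp (wnd e lv S) (bxo e lv o) (bxi e lv i) (2 * n / (e + 1)) (θ / 4) (r / (e + 1)) g βt νt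

/-- (about 150 lines) **The boxes are linked.**

Proof.  Let `J` be a set of boxes, nonempty and not `univ`, and suppose that the claim is false.  For a
level `l ≤ e` let `l'` be `l - 1` if `l ≥ 1` and `e` if `l = 0`.  A vertex `v` with `lv v = l`, `o v = y`, `i v = x` is
in `Cl bxo (l, y) ∩ Cl bxi (l', x)`.  So if the type `(o, i) = (y, x)` is abundant then `(l', x) ∈ J`
implies `(l, y) ∈ J`.  By `Typ`: `(l', x) ∈ J` implies `(l, a) ∈ J` for every `x` (types `(a, a)`, `(a, b)`), and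
`(l', a) ∈ J` implies `(l, b) ∈ J` (type `(b, a)`).  Starting with an element of `J` and going around we
get all `(l, a) ∈ J`, and then all `(l, b) ∈ J`; so `J = univ`, a contradiction. -/
def S_LnB : Prop :=
  ∀ (n K e : ℕ) (o i : Fin n → Fin K) (lv : Fin n → ℕ) (lam : ℝ) (a : Fin K), K ≤ 2 →
    (∀ v, lv v ≤ e + 1) → Typ (e + 1) o i lv (lam * n) a →
    Lin (bxo e lv o) (bxi e lv i) lam

/-- the level structure: everything that is used later -/
structure LvD {n K : ℕ} (R : Finset (Fin n × Fin n)) (o i : Fin n → Fin K) (r e : ℕ)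
    (XL : Finset (Fin n × Fin n)) (lv : Fin n → ℕ) (θ lam δ g βt νt : ℝ) : Prop where
  lev : Lv e o i lv
  exc : ((univ.filter (fun v => lv v = e + 1)).card : ℝ) ≤ δ * n
  bx : BHyp (wnd e lv (own o i R)) (bxo e lv o) (bxi e lv i) (2 * n / (e + 1)) (θ / 4)
    (r / (e + 1)) g βt νt
  sz : ∀ l ≤ e, (n : ℝ) ≤ 2 * (e + 1) * (univ.filter (fun v => lv v = l)).card ∧
    (e + 1) * ((univ.filter (fun v => lv v = l)).card : ℝ) ≤ 2 * n
  xe : XL.card ≤ 4 * (e + 1) ^ 2 * (XL.filter (fun q => lv q.1 = e ∧ lv q.2 = 0)).card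
  typ : ∃ a, Typ (e + 1) o i lv (lam / (4 * (e + 1)) * n) a
  deg : ∀ v, ∀ l ≤ e, θ * n ≤ 2 * (e + 1) *
      (((Nout (own o i R) v).filter (fun w => lv w = l)).card : ℝ) ∧
    θ * n ≤ 2 * (e + 1) * (((Nin (own o i R) v).filter (fun w => lv w = l)).card : ℝ)

/-- (about 300 lines; uses `S_Clu`, `S_Rnd`, `S_Adj`, `S_BxR`, `S_Bxh`) **The level structure.**

Proof.  `τ = min (βt/64) (min (ν/8) (θ βt/16))`, `d` from `S_Clu` for `K0 = 2`, `τ`;
`νt = d (βt/16)² min (ν/2) (θ βt/8)/4`.  Given `e ≥ 1`, `g, δ > 0`, let `k = e + 1`, `β1 = βt/(16 k)`,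
`kmax, n1` from `S_Clu`, `θ1 = min (min θ lam) (1/(kmax + 1))/2`, `ε3 = min (βt/64) (g/2)`, `g1 = g/k`,
`δ' = min (min δ (min (g/(2k)) (1/(2k)))) (min (βt/(64k)) (min (lam/16) (ε3 θ1/(2k))))`,
`ε1 = min (ε3/2) (δ'/100)`, `γ = min (g1²) (δ'/100)`.
Given `R` etc., let `S = own o i R`.  `S_Clu` gives a `CSys` for `S` (`K ≤ 2`).  The family `𝓕`: `univ`, all
`Cl o c`, `Cl i c`, the type sets `{o v = x, i v = y}`, all `Nout S v`, `Nin S v`, all `T p`, `H q`; at most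
`1 + 2 K + K² + 2n + 2 kmax ≤ n²` sets for large `n` (the `T p` are disjoint with `s ≥ n/kmax` elements, so
there are at most `kmax` of them; the same for the `H q`).  `S_Rnd` for `k, ε1, θ1`, `L = XL`, `s0 = e`,
`s1 = 0` gives `c`.
`S_Adj`: `t = ⌊δ' n/(4k)⌋`, `D = ⌊t/3⌋`, `m = ⌊lam n/(2k)⌋`.  `16 t ≤ 4 δ' n/k ≤ lam n/(4k) ≤ m`.  The numbers
`#{c = l}`, `#{c = l, o = a}`, `#{c = l, i = a}` differ from `n/k`, `|Cl o a|/k`, `|Cl i a|/k` by at most
`ε1 n/k`, and `||Cl o a| - |Cl i a||/k ≤ p/k ≤ γ n/k`; so with the rounding errors all deviations are at most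
`ε1 n/k + γ n/k + 2 ≤ δ' n/(50 k) + 2 ≤ δ' n/(12 k) - 2 ≤ D` for large `n`.  `Typ` for `c` with `m`: the three
type sets have at least `lam n` elements, so at least `(1-ε1) lam n/k ≥ m` in each level.  `S_Adj` gives
`lv`; the exceptional level has at most `4 t k ≤ δ' n` elements.
`Evn`: for `F ∈ 𝓕` with `|F| ≥ θ1 n`, `#{v ∈ F : lv v = l}` is between `#{v ∈ F : c v = l} - δ' n` and
`#{v ∈ F : c v = l}`, so `k #{v ∈ F : lv v = l} ≥ (1-ε1) |F| - k δ' n ≥ (1 - ε3) |F|` (`k δ' ≤ ε3 θ1/2`).  So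
`Evn k lv ε3 F`.
`S_BxR` for every `l ≤ e` and class: `Vt = {lv = l}`, `Vh = {lv = l + 1}` (`{lv = 0}` if `l = e`), `ε = ε3`,
`δ = δ'`; the boxes are contained in these levels up to the exceptional level.  `S_Bxh` with `ε = ε3`,
`δ = δ'`, `g1`: the number of the `v` with `|od S v - r| > g1 n` is at most `γ n²/(g1 n) ≤ g1 n`
(`r - od S v = od (crs o i R) v`).  `Rob o i S (βt/16) ν`: for `X ⊆ Cl o a`, `Y ⊆ Cl i a` all arcs of `R` from
`X` to `Y` are own.  `θ n ≤ r` because own degrees are at most `r`.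
`sz`: `Evn` for `univ`.  `xe`: `|XL| ≤ 2k² |L0| ≤ 4k² |{q ∈ XL : lv q.1 = e, lv q.2 = 0}|`.  `typ`:
`m/2 ≥ lam n/(4k) - 1 ≥ lam n/(8k)`.  `deg`: `Evn` for `Nout S v`, `Nin S v`.
(All constants may be chosen smaller; only `νt` has to be independent of `e, g, δ`.) -/
def S_Lev : Prop :=
  ∀ (θ lam βt ν : ℝ), 0 < θ → θ ≤ 1 → 0 < lam → lam ≤ 1 → 0 < βt → βt ≤ 1 → 0 < ν →
    ∃ νt : ℝ, 0 < νt ∧ ∀ (e : ℕ) (g δ : ℝ), 1 ≤ e → 0 < g → 0 < δ → ∃ (γ : ℝ) (n0 : ℕ), 0 < γ ∧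
      ∀ n, n0 ≤ n → ∀ (K r p Δ : ℕ) (R XL : Finset (Fin n × Fin n)) (o i : Fin n → Fin K)
        (a : Fin K), K ≤ 2 → Reg R r → ((crs o i R).card : ℝ) ≤ γ * (n : ℝ) ^ 2 →
        Rob o i R (βt / 16) ν → (∀ v, θ * n ≤ od (own o i R) v) →
        (∀ v, θ * n ≤ idg (own o i R) v) →
        lam * n ≤ (Cl o a ∩ Cl i a).card →
        (∀ b, b ≠ a → lam * n ≤ (Cl o a ∩ Cl i b).card ∧ lam * n ≤ (Cl o b ∩ Cl i a).card) →
        (p : ℝ) ≤ γ * n → (∀ c, (Cl o c).card ≤ (Cl i c).card + p ∧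
          (Cl i c).card ≤ (Cl o c).card + p) →
        (∀ q ∈ XL, q.1 ≠ q.2) → Dg XL Δ → 64 * (e + 1) ^ 4 * Δ ≤ XL.card →
        ∃ lv : Fin n → ℕ, LvD R o i r e XL lv θ (lam / 2) δ g βt νt

end Pool.Agent.MPd266dbE
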