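import Pool.Agent.Lib.MP_d266db_co.E.SpecE

/-!
# MP_d266db_co, E, SpecF: the set `W` and the covering of the rest

Every `S_...` is a statement to be proved in its own file `Pool/Agent/Lib/MP_d266db_co/E/....lean`;
the docstring contains the complete proof.
-/

set_option autoImplicit false

namespace Pool.Agent.MPd266dbE

open Finset Pool.Agent.MPd266db Pool.Agent.MPd266dbH

/-! ## Factors with prescribed degrees -/

/-- (about 60 lines) **Bounded degrees, exact size.**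

Proof.  Among all `P ⊆ X` with `Dg P Δ`, `|P| ≤ m` take one with the most elements, suppose `|P| < m`.  Every
arc of `X \ P` has a tail `v` with `od P v = Δ` or a head `v` with `idg P v = Δ` (otherwise add it).  The
number `t` of such tails satisfies `Δ t ≤ |P|`, the same for the heads; so
`Δ (|X| - |P|) ≤ 2 Δ0 |P|` and `Δ |X| ≤ (Δ + 2 Δ0) |P| < m Δ + 2 m Δ0`, a contradiction. -/
def S_Grd : Prop :=
  ∀ (n m Δ Δ0 : ℕ) (X : Finset (Fin n × Fin n)), Dg X Δ0 → 1 ≤ Δ →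
    m * Δ + 2 * m * Δ0 ≤ Δ * X.card → ∃ P ⊆ X, P.card = m ∧ Dg P Δ

/-- (about 200 lines; uses `S_Fac`) **A factor with degrees close to `ρ'`.**

Proof.  `S_Fac`.  The sums of `f` and `g` are equal class by class.  Let `X, Y` be given; the sums and
`eb H X Y` split into the classes `a`, so it is enough to show, for `A = Cl O a \ Et`, `B = Cl I a \ Eh`,
`X ⊆ A`, `Y ⊆ B`, `B' = B \ Y`: `∑_X f ≤ eb H X Y + ∑_{B'} g` (`f = 0` on `Et`, `g = 0` on `Eh`).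
(i) `2 |X| ≤ ρ'`: `∑_X f ≤ ρ' |X| ≤ ∑_X od H = eb H X Y + eb H X B' ≤ eb H X Y + |X| |B'|` and
`|X| |B'| ≤ (ρ'/2) |B'| ≤ ∑_{B'} g`.
(ii) `2 |Y| ≤ ρ'`: because `∑_A f = ∑_B g` the claim is equivalent to
`∑_Y g ≤ eb H X Y + ∑_{A \ X} f`, which follows in the same way.
(iii) Otherwise both sums in the robustness hypothesis are at least `ρ'/2 ≥ β N`.  Let `E = eb H X Y`,
`F = eb H (A \ X) B'`, `t = |X| - |B'|`.  `E + F ≥ ν N²` and
`E - F = ∑_X od - ∑_{B'} idg ≥ (ρ - m) |X| - (ρ + m) |B'| ≥ ρ t - 2 m N`.  We need `E ≥ ρ' t + σ`, since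
`∑_X f - ∑_{B'} g ≤ ρ' |X| - ρ' |B'| + σ`.  If `t ≤ 0`: `2 E ≥ ν N² + ρ t - 2 m N ≥ 2 ρ' t + 2 σ`, because
`ν N² - 2 m N - 2 σ ≥ 0 ≥ (2 ρ' - ρ) t`.  If `t > 0` and `(ρ - ρ') t ≥ 2 m N + σ`:
`E ≥ ρ t - 2 m N ≥ ρ' t + σ`.  Otherwise `ρ t (ρ - ρ') ≤ ρ (2 m N + σ) ≤ (ρ - ρ') ν N²/4`, so
`(2 ρ' - ρ) t ≤ ρ t ≤ ν N²/4 ≤ ν N² - 2 m N - 2 σ`, and again `2 E ≥ 2 ρ' t + 2 σ`. -/
def S_WFa : Prop :=
  ∀ (n K : ℕ) (H : Finset (Fin n × Fin n)) (O I : Fin n → Fin K) (Et Eh : Finset (Fin n))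
    (f g : Fin n → ℕ) (N ρ ρ' m β ν σ : ℝ),
    (∀ q ∈ H, O q.1 = I q.2 ∧ q.1 ∉ Et ∧ q.2 ∉ Eh) →
    (∀ v, v ∉ Et → |(od H v : ℝ) - ρ| ≤ m) → (∀ v, v ∉ Eh → |(idg H v : ℝ) - ρ| ≤ m) →
    (∀ v ∈ Et, f v = 0) → (∀ v ∈ Eh, g v = 0) →
    (∀ v, v ∉ Et → ρ' ≤ 2 * f v ∧ (f v : ℝ) ≤ ρ') → (∀ v, v ∉ Eh → ρ' ≤ 2 * g v ∧ (g v : ℝ) ≤ ρ') →
    (∀ a, ∑ v ∈ Cl O a, f v = ∑ v ∈ Cl I a, g v) →
    (∑ v ∈ univ \ Et, (ρ' - f v) ≤ σ) → (∑ v ∈ univ \ Eh, (ρ' - g v) ≤ σ) →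
    (∀ a, ((Cl O a).card : ℝ) ≤ N) → (∀ a, ((Cl I a).card : ℝ) ≤ N) →
    (∀ (a : Fin K) (X Y : Finset (Fin n)), X ⊆ Cl O a \ Et → Y ⊆ Cl I a \ Eh →
      β * N ≤ (X.card : ℝ) + ((Cl I a \ Eh) \ Y).card →
      β * N ≤ (((Cl O a \ Et) \ X).card : ℝ) + Y.card →
      ν * N ^ 2 ≤ (eb H X Y : ℝ) + eb H ((Cl O a \ Et) \ X) ((Cl I a \ Eh) \ Y)) →
    0 < ρ' → 0 ≤ m → 0 ≤ σ → ρ ≤ 2 * ρ' → ρ' + m ≤ ρ → ρ' < ρ → 2 * (β * N) ≤ ρ' →
    4 * (ρ * (2 * m * N + σ)) ≤ (ρ - ρ') * (ν * N ^ 2) → 4 * (m * N) + 4 * σ ≤ ν * N ^ 2 →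
    ∃ H₁ ⊆ H, ∀ v, od H₁ v = f v ∧ idg H₁ v = g v

/-- (about 60 lines; uses `S_HfX`) **Iterated halving.**

Proof by induction on `j`.  For `j + 1` all degrees of `H` are even; `S_HfX` gives `H'` with degrees
`2^j f v`, `2^j g v` and `eb H X Y ≤ 2 eb H' X Y + 8 n √n`; the induction hypothesis for `H'` gives
`eb H X Y ≤ 2 (2^j eb W X Y + (2^j - 1) 8 n √n) + 8 n √n`.  (Prove the bound with `2^j - 1`.) -/
def S_Hvs : Prop :=
  ∀ (n j : ℕ) (H : Finset (Fin n × Fin n)) (f g : Fin n → ℕ),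
    (∀ v, od H v = 2 ^ j * f v ∧ idg H v = 2 ^ j * g v) →
    ∃ W ⊆ H, (∀ v, od W v = f v ∧ idg W v = g v) ∧ ∀ X Y : Finset (Fin n),
      (eb H X Y : ℝ) ≤ 2 ^ j * eb W X Y + 2 ^ j * (8 * (n * Real.sqrt n))

/-- (about 60 lines) **The arcs at the exceptional vertices.**

Proof.  For `v ∈ Et` choose `f v` heads among the out-neighbours outside `Eh` (at least
`od S v - |Eh| ≥ f v`), for `v ∈ Eh` choose `g v` tails among the in-neighbours outside `Et`.  The first kind of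
arcs has its head outside `Eh`, the second kind its tail outside `Et`.  A vertex `v ∉ Et` is the tail of
chosen arcs of the second kind only, at most one for every element of `Eh`. -/
def S_Y0 : Prop :=
  ∀ (n : ℕ) (S : Finset (Fin n × Fin n)) (Et Eh : Finset (Fin n)) (f g : Fin n → ℕ),
    (∀ v ∈ Et, f v + Eh.card ≤ od S v) → (∀ v ∈ Eh, g v + Et.card ≤ idg S v) →
    ∃ Y ⊆ S, (∀ q ∈ Y, (q.1 ∈ Et ∧ q.2 ∉ Eh) ∨ (q.1 ∉ Et ∧ q.2 ∈ Eh)) ∧
      (∀ v ∈ Et, od Y v = f v) ∧ (∀ v ∈ Eh, idg Y v = g v) ∧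
      (∀ v, v ∉ Et → od Y v ≤ Eh.card) ∧ ∀ v, v ∉ Eh → idg Y v ≤ Et.card

/-- (about 300 lines; uses `S_WFa`, `S_Hvs`, `S_Y0`) **The factor `W`.**

Proof.  Let `J = 2^j`, `Et = {v : g N < |od S v - ρ|}`, `Eh` the same for in-degrees (`≤ g N` elements), `Y` from
`S_Y0` (`f v + |Eh| ≤ w + g N ≤ θ N ≤ od S v`); `|Y| ≤ 2 g N w`.  Let `H0` be the set of the `q ∈ S` with
`q.1 ∉ Et`, `q.2 ∉ Eh`; for `v ∉ Et`, `|od H0 v - ρ| ≤ 2 g N =: m`.  `f' v = J (f v - od Y v)` for `v ∉ Et` and `0` on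
`Et`; `g'` in the same way from `h` and `idg Y`.  `ρ' = J w`.  `S_WFa` for `H0, f', g', ρ', m`, `ν/2`,
`σ' = J σ + 2 g N²`: `od Y v ≤ g N ≤ w/8`, so `f' v ≥ J (9w/10 - w/8) ≥ ρ'/2`.  `∑_{Cl O a} f' = ∑_{Cl I a} g'`:
`∑_{Cl O a} f' = J (∑_{Cl O a} f - #{q ∈ Y : O q.1 = a})`: for `v ∈ Et` `f v = od Y v`; the same for the heads
and the arcs of `Y` are own.  `∑ (ρ' - f') ≤ J σ + J |Y| ≤ J σ + 2 g N²` (`J w ≤ ρ ≤ N`).  Robustness: `S` has
`ν N²` arcs for `X, Y'`; those with tail in `Et` or head in `Eh` are at most `2 g N² ≤ (ν/2) N²`.  Numbers: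
`ρ ≤ 2 J w`, `ρ' + m ≤ (1-ε1) ρ + 2 g N ≤ ρ`, `2 β N ≤ ρ/4 ≤ ρ'`,
`4 ρ (4 g N² + σ') ≤ ε1 ρ (ν/2) N²` because `6 g ≤ ε1 ν/8`... precisely `4 (6 g N² + J σ) ≤ ε1 (ν/2) N²` follows
from `96 g ≤ ε1 ν` and `16 J σ ≤ ε1 ν N²`; `4 m N + 4 σ' ≤ (ν/2) N²`.
We get `H ⊆ H0`; `S_Hvs` for `f v - od Y v` (`0` on `Et`) gives `W0 ⊆ H`; `W = W0 ∪ Y` (disjoint).
Degrees: clear.
Robustness of `W`: let `X ⊆ Cl O a`, `Y' ⊆ Cl I a`, `X^c = Cl O a \ X`, `Y^c = Cl I a \ Y'`,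
`e_G = eb G X Y' + eb G X^c Y^c`.  `e_W ≥ e_H/J - 16 n √n`.
(1) If `β N ≤ |X| + |Y^c|` and `β N ≤ |X^c| + |Y'|`: `e_S ≥ ν N²`, and
`e_S - e_H ≤ ∑_{v ∈ Cl O a} (od S v - od H v) ≤ g N · N + N (ρ + g N - J w) + J σ + 2 g N²
≤ N (ρ - J w) + 4 g N² + J σ ≤ (ν/2) N²`.  So `e_W ≥ ν N²/(2J) - 16 n √n ≥ ν N²/(4J) ≥ κ`.
(2) If `|X| + |Y^c| < β N`: for `v ∉ Et` `od H v ≥ J (9w/10 - w/8) ≥ (3/4) J w ≥ (3/8) ρ`, and at most
`|Y^c| ≤ β N ≤ ρ/8` of these arcs go to `Y^c`; so `eb H X Y' ≥ (ρ/4) |X \ Et|`, in the same way (in-degrees)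
`eb H X^c Y^c ≥ (ρ/4) |Y^c \ Eh|`; together `e_H ≥ (ρ/4)(s0 - 2 g N) ≥ ρ s0/8`, so
`e_W ≥ w s0/8 - 16 n √n ≥ w s0/16 ≥ κ` (`ρ ≥ J w`).
(3) If `|X^c| + |Y'| < β N`: in the same way. -/
def S_WOw : Prop :=
  ∀ (n K j w : ℕ) (S : Finset (Fin n × Fin n)) (O I : Fin n → Fin K)
    (N θ ρ g β ν ε1 σ s0 κ : ℝ) (f h : Fin n → ℕ), BHyp S O I N θ ρ g β ν → 0 < N → 0 ≤ g →
    0 < ε1 → ε1 ≤ 1 / 2 → 0 < ν → (2 : ℝ) ^ j * w ≤ (1 - ε1) * ρ → 1 ≤ w →
    ρ ≤ 2 * ((2 : ℝ) ^ j * w) → ρ - (2 : ℝ) ^ j * w ≤ ν * N / 8 → 8 * (β * N) ≤ ρ →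
    w + g * N ≤ θ * N → 8 * (g * N) ≤ w → 2 * (g * N) ≤ ε1 * ρ → 96 * g ≤ ε1 * ν → 0 ≤ σ →
    16 * ((2 : ℝ) ^ j * σ) ≤ ε1 * ν * N ^ 2 → (∀ v, 9 * w ≤ 10 * f v ∧ f v ≤ w) →
    (∀ v, 9 * w ≤ 10 * h v ∧ h v ≤ w) → (∀ a, ∑ v ∈ Cl O a, f v = ∑ v ∈ Cl I a, h v) →
    (∑ v, ((w : ℝ) - f v) ≤ σ) → (∑ v, ((w : ℝ) - h v) ≤ σ) → 4 * (g * N) ≤ s0 →
    κ ≤ w * s0 / 16 → κ ≤ ν * N ^ 2 / (4 * 2 ^ j) →
    256 * (n * Real.sqrt n) ≤ w * s0 → 64 * ((2 : ℝ) ^ j * (n * Real.sqrt n)) ≤ ν * N ^ 2 →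
    ∃ W ⊆ S, (∀ v, od W v = f v ∧ idg W v = h v) ∧
      ∀ (a : Fin K) (X Y : Finset (Fin n)), X ⊆ Cl O a → Y ⊆ Cl I a →
        s0 ≤ (X.card : ℝ) + (Cl I a \ Y).card → s0 ≤ ((Cl O a \ X).card : ℝ) + Y.card →
        κ ≤ (eb W X Y : ℝ) + eb W (Cl O a \ X) (Cl I a \ Y)

/-- (about 150 lines; uses `S_HAM`) **Hamilton cycles with arcs of `W`.**

Proof.  `g, n0` from `S_HAM` for `K0, θ, lam, κ/2`; take `gW = g`.  Let `Dg Z h`, `S = W \ Z`.
`MHyp S O I θ w g (θ/128) (κ/2)`: `odl`: `2 θ n - h ≥ θ n`.  `nr`: `|od S v - w| ≤ (w - od W v) + h`, and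
`h ≤ g n/2`; so if it is `> g n` then `w - od W v > g n/2`; as the sum of these numbers is at most
`g² n²/2` there are at most `g n` such `v`.  `rge`, `rle`: `2 θ n ≤ od W v ≤ w ≤ n`.  `rob`: at most
`|Z| ≤ h n ≤ (κ/2) n²` of the arcs are in `Z`. -/
def S_WHm : Prop :=
  ∀ (K0 : ℕ) (θ lam κ : ℝ), 1 ≤ K0 → 0 < θ → θ ≤ 1 → 0 < lam → 0 < κ →
    ∃ (gW : ℝ) (n0 : ℕ), 0 < gW ∧ ∀ n, n0 ≤ n → ∀ (K w h : ℕ) (W : Finset (Fin n × Fin n))
      (O I : Fin n → Fin K), K ≤ K0 → (∀ q ∈ W, O q.1 = I q.2) → w ≤ n →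
      (∀ v, 2 * θ * n ≤ od W v ∧ od W v ≤ w) → (∀ v, 2 * θ * n ≤ idg W v ∧ idg W v ≤ w) →
      2 * (∑ v, ((w : ℝ) - od W v)) ≤ gW ^ 2 * (n : ℝ) ^ 2 →
      2 * (∑ v, ((w : ℝ) - idg W v)) ≤ gW ^ 2 * (n : ℝ) ^ 2 →
      2 * (h : ℝ) ≤ gW * n → (h : ℝ) ≤ θ * n → 2 * (h : ℝ) ≤ κ * n → Lin O I lam →
      (∀ (a : Fin K) (X Y : Finset (Fin n)), X ⊆ Cl O a → Y ⊆ Cl I a →
        θ / 128 * n ≤ (X.card : ℝ) + (Cl I a \ Y).card →
        θ / 128 * n ≤ ((Cl O a \ X).card : ℝ) + Y.card →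
        κ * (n : ℝ) ^ 2 ≤ (eb W X Y : ℝ) + eb W (Cl O a \ X) (Cl I a \ Y)) →
      HmP W O I gW h

/-! ## Hubs and units -/

/-- hubs: `H1 m a` from the level `e` to the level `m + 1`, `H2 m a` from the level `m` to the level `0`,
class `a`, `m < e` -/
structure Hub {n K : ℕ} (S : Finset (Fin n × Fin n)) (o : Fin n → Fin K) (lv : Fin n → ℕ)
    (e Nh Δ : ℕ) (H1 H2 : ℕ → Fin K → Finset (Fin n × Fin n)) : Prop where
  s1 : ∀ m < e, ∀ a, H1 m a ⊆ S ∧ (H1 m a).card = Nh ∧ Dg (H1 m a) Δ ∧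
    ∀ q ∈ H1 m a, lv q.1 = e ∧ lv q.2 = m + 1 ∧ o q.1 = a
  s2 : ∀ m < e, ∀ a, H2 m a ⊆ S ∧ (H2 m a).card = Nh ∧ Dg (H2 m a) Δ ∧
    ∀ q ∈ H2 m a, lv q.1 = m ∧ lv q.2 = 0 ∧ o q.1 = a

/-- all hubs -/
def hbU {n K : ℕ} (e : ℕ) (H1 H2 : ℕ → Fin K → Finset (Fin n × Fin n)) :
    Finset (Fin n × Fin n) :=
  (range e).biUnion (fun m => univ.biUnion (fun a => H1 m a ∪ H2 m a))

/-- (about 150 lines; uses `S_Grd`) **Hubs exist.**

Proof.  `S_Grd` with `Δ0 = n`, `Δ`, `m = Nh` for each of the sets of arcs of the second hypothesis.  Degrees of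
`hbU`: a vertex of level `e` is the tail of arcs of `H1 m (o v)`, `m < e`, only; a vertex of level `m < e` of
arcs of `H2 m (o v)` only; other vertices are no tails; a vertex of level `0` is the head of arcs of
`H2 m (i v)`, `m < e`, only (the arcs are own: `a = o q.1 = i q.2`); a vertex of level `m + 1`, `m < e`, of
arcs of `H1 m (i v)` only.  So all degrees are at most `e Δ`.  No hub is winding: from `e` to `m + 1 ≤ e`:
`tgp = e ≠ m = hgp`; from `m < e` to `0`: `tgp = m ≠ e = hgp`. -/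
def S_HbX : Prop :=
  ∀ (n K e Nh Δ M0 : ℕ) (S : Finset (Fin n × Fin n)) (o i : Fin n → Fin K) (lv : Fin n → ℕ),
    (∀ q ∈ S, o q.1 = i q.2) → 1 ≤ Δ → Nh * Δ + 2 * Nh * n ≤ Δ * M0 →
    (∀ m < e, ∀ a, M0 ≤ (S.filter (fun q => lv q.1 = e ∧ lv q.2 = m + 1 ∧ o q.1 = a)).card ∧
      M0 ≤ (S.filter (fun q => lv q.1 = m ∧ lv q.2 = 0 ∧ o q.1 = a)).card) →
    ∃ H1 H2 : ℕ → Fin K → Finset (Fin n × Fin n), Hub S o lv e Nh Δ H1 H2 ∧
      hbU e H1 H2 ⊆ S ∧ Dg (hbU e H1 H2) (e * Δ) ∧ (hbU e H1 H2).card ≤ 2 * e * K * Nh ∧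
      Disjoint (hbU e H1 H2) (wnd e lv S)

/-- The two classes: at most two, `c0` has `p` more tails than heads, `d0` has `p` more heads than tails
(`c0 = d0`, `p = 0` if there is only one class). -/
structure CD {n K : ℕ} (o i : Fin n → Fin K) (c0 d0 : Fin K) (p : ℕ) : Prop where
  two : ∀ x y : Fin K, x ≠ y → (x = c0 ∧ y = d0) ∨ (x = d0 ∧ y = c0)
  sc : (Cl o c0).card = (Cl i c0).card + p
  sd : (Cl i d0).card = (Cl o d0).card + p

/-- (about 80 lines) Proof.  `sz`: every class is `c0` or `d0` (if `a ≠ c0` then `two a c0`); if `c0 ≠ d0`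
these are `sc` and `sd`; if `c0 = d0` then both sides are `|Cl o c0| + p`, as `sc` and `sd` give `p = 0`. -/
def S_PXc : Prop :=
  ∀ (n K p : ℕ) (o i : Fin n → Fin K) (c0 d0 : Fin K) (XL : Finset (Fin n × Fin n)),
    CD o i c0 d0 p → (∀ q ∈ XL, o q.1 = c0 ∧ i q.2 = d0 ∧ c0 ≠ d0) →
    PX o i p (fun a => if c0 = a then 1 else 0) (fun a => if d0 = a then 1 else 0) XL

/-- the box of gap `e` and class `a` -/
def bxe {K : ℕ} (e : ℕ) (a : Fin K) : Fin ((e + 1) * K) := finProdFinEquiv (Fin.last e, a)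

/-- (about 100 lines) **Sizes of the boxes.**

Proof.  Box `finProdFinEquiv (l, a)`, `l < e`: by `Lv.bal` (levels `l` and `l + 1`) as many tails as heads,
and the box is not of the form `bxe`.  `l = e`: `|Cl o a| - e c_a` tails and `|Cl i a| - e c_a` heads (`c_a` the common
number of `Lv.bal`; see `S_PXb`); `CD` (every class is `c0` or `d0`; if `c0 = d0` then `p = 0`). -/
def S_SzB : Prop :=
  ∀ (n K e p : ℕ) (o i : Fin n → Fin K) (c0 d0 : Fin K) (lv : Fin n → ℕ), CD o i c0 d0 p →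
    Lv e o i lv → 1 ≤ e → ∀ A : Fin ((e + 1) * K),
      (Cl (bxo e lv o) A).card + (if A = bxe e d0 then p else 0) =
        (Cl (bxi e lv i) A).card + (if A = bxe e c0 then p else 0)

/-- (about 150 lines; uses `S_SzB`) **The sums of the prescribed degrees.**

Proof.  For a box `A` both sides are `w |Cl bxo A|` minus the number of the arcs of `XW` and of `hbU` with
tail in `A`, resp. `w |Cl bxi A|` minus the number of the arcs with head in `A`.  `A = (l, a)`, `l < e`: the arcs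
of `XW` have tail and head in gap `e`; the hubs with tail in `A` are `H2 l a`, those with head in `A` are
`H1 l a` (`Nh` each); `S_SzB`.  `A = (e, a)`: the tails of `XW` are in `bxe e c0` (`w p` arcs), the heads in
`bxe e d0`; the hubs with tail in `A` are the `H1 m a`, `m < e`, those with head in `A` the `H2 m a`
(`e Nh` each); `S_SzB` multiplied by `w`. -/
def S_SmB : Prop :=
  ∀ (n K e p w Nh Δ : ℕ) (S XW : Finset (Fin n × Fin n)) (o i : Fin n → Fin K) (c0 d0 : Fin K)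
    (lv : Fin n → ℕ) (H1 H2 : ℕ → Fin K → Finset (Fin n × Fin n)), CD o i c0 d0 p →
    Lv e o i lv → 1 ≤ e → (∀ q ∈ S, o q.1 = i q.2) → Hub S o lv e Nh Δ H1 H2 →
    (∀ q ∈ XW, lv q.1 = e ∧ lv q.2 = 0 ∧ o q.1 = c0 ∧ i q.2 = d0) → XW.card = w * p →
    (∀ v, od XW v + od (hbU e H1 H2) v ≤ w ∧ idg XW v + idg (hbU e H1 H2) v ≤ w) →
    ∀ A : Fin ((e + 1) * K),
      ∑ v ∈ Cl (bxo e lv o) A, (w - (od XW v + od (hbU e H1 H2) v)) =
        ∑ v ∈ Cl (bxi e lv i) A, (w - (idg XW v + idg (hbU e H1 H2) v))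

/-- (about 120 lines) **Choosing hubs for slots.**

Proof by induction on `A`: let `s` be a new slot.  A hub of `Hub (ty s)` is forbidden if it is already used by
a slot of the same type (fewer than the number of the slots of this type) or if one of its two
vertices is in `Fv s` or is a vertex of `hb s'`, `s' ∈ nb s` (at most `4 + 6` vertices, each in at most `2 Δ`
hubs of this type).  So some hub is allowed. -/
def S_Slt : Prop :=
  ∀ (n : ℕ) (α τ : Type) [DecidableEq α] [DecidableEq τ] (A : Finset α) (ty : α → τ)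
    (Hb : τ → Finset (Fin n × Fin n)) (nb : α → Finset α) (Fv : α → Finset (Fin n)) (Δ : ℕ),
    1 ≤ n → (∀ s, (nb s).card ≤ 3) → (∀ s s', s' ∈ nb s → s ∈ nb s') → (∀ s ∈ A, (Fv s).card ≤ 4) →
    (∀ t, Dg (Hb t) Δ) →
    (∀ s ∈ A, (A.filter (fun s' => ty s' = ty s)).card + 20 * Δ ≤ (Hb (ty s)).card) →
    ∃ hb : α → Fin n × Fin n,
      (∀ s ∈ A, hb s ∈ Hb (ty s) ∧ (hb s).1 ∉ Fv s ∧ (hb s).2 ∉ Fv s) ∧
      (∀ s ∈ A, ∀ s' ∈ A, s ≠ s' → ty s = ty s' → hb s ≠ hb s') ∧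
      ∀ s ∈ A, ∀ s' ∈ A, s ≠ s' → s' ∈ nb s → PD (hb s) (hb s')

/-- (about 120 lines) **Pairing the cross arcs.**

Proof.  If `c0 = d0` there are no cross arcs (a cross arc has `o q.1 ≠ i q.2`, so `{c0, d0}` has two
elements by `two`) and `p = 0`; `mt = id`.  Let `c0 ≠ d0`, `Dp` the set of the `q ∈ D` with `o q.1 = c0`,
`i q.2 = d0`, and `Dm` that of the `q ∈ D` with `o q.1 = d0`, `i q.2 = c0`; all cross arcs are in
`Dp ∪ Dm`.  Counting the arcs with tail in `Cl o c0` and those with head in `Cl i c0`: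
`d |Cl o c0| - |Dp| = d |Cl i c0| - |Dm|`, so `|Dp| = |Dm| + d p`.  Let `φ` be an injection from `Dm` into
`Dp`; `mt q = φ q` for `q ∈ Dm`, `mt (φ q) = q`, `mt q = q` otherwise. -/
def S_Bas : Prop :=
  ∀ (n K d p : ℕ) (D : Finset (Fin n × Fin n)) (o i : Fin n → Fin K) (c0 d0 : Fin K), Reg D d →
    CD o i c0 d0 p →
    ∃ mt : Fin n × Fin n → Fin n × Fin n, (∀ q, mt (mt q) = q) ∧ (∀ q ∈ D, mt q ∈ D) ∧
      (∀ q ∈ D, mt q ≠ q → o q.1 ≠ i q.2 ∧ o (mt q).1 = i q.2 ∧ i (mt q).2 = o q.1) ∧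
      (∀ q ∈ D, mt q = q → o q.1 ≠ i q.2 → o q.1 = c0 ∧ i q.2 = d0) ∧
      (D.filter (fun q => mt q = q ∧ o q.1 ≠ i q.2)).card = d * p

/-- A unit: a linear forest with at most 6 arcs whose tails and heads are balanced with respect to the
boxes, up to `b` arcs from the box `(e, c0)` to the box `(e, d0)`. -/
structure Un {n K : ℕ} (e : ℕ) (lv : Fin n → ℕ) (o i : Fin n → Fin K) (c0 d0 : Fin K)
    (u : Finset (Fin n × Fin n)) (b : ℕ) : Prop where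
  ne : u.Nonempty
  cd : u.card ≤ 6
  lf : LF u
  b1 : b ≤ 1
  bl : ∀ A : Fin ((e + 1) * K),
    (u.filter (fun q => bxo e lv o q.1 = A)).card + (if A = bxe e d0 then b else 0) =
      (u.filter (fun q => bxi e lv i q.2 = A)).card + (if A = bxe e c0 then b else 0)

/-- (about 150 lines) **The unit of an arc and its mate.**  `h1`, `h2` are the hubs of the arc `q` (they exist
iff `tgp q.1 < e`, resp. `hgp q.2 < e`), `h1'`, `h2'` those of `q'`.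

Proof.  Balance of a part `{q} ∪ hubs`: tails in the boxes `(tgp q.1, o q.1)`, `(e, o q.1)` (of `h1`),
`(hgp q.2, i q.2)` (of `h2`), heads in the boxes `(hgp q.2, i q.2)`, `(tgp q.1, o q.1)` (of `h1`),
`(e, i q.2)` (of `h2`); so after cancellation one tail in `(e, o q.1)` and one head in `(e, i q.2)` remain
(also if `h1` or `h2` is missing, because then `tgp q.1 = e` resp. `hgp q.2 = e`).  If `q' = q` the parts are
equal; `o q.1 = i q.2`: balanced, `b = 0`; otherwise `o q.1 = c0`, `i q.2 = d0`, `b = 1`.  If `q' ≠ q` the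
remaining tail and head of the second part are in `(e, i q.2)` and `(e, o q.1)`: together balanced,
`b = 0`.
`LF`: the hubs are vertex-disjoint from each other and from `q`, `q'`.  `q`, `q'` have different tails
(`o q.1 ≠ o q'.1 = i q.2`) and different heads, no loops, and not both `q.2 = q'.1` and `q'.2 = q.1`
(oriented).  Rank: for `q' = q`: `0` for the tails, `1` for the heads.  If `q' ≠ q` and `q.2 = q'.1`: `rk q.1 = 0`,
`rk q.2 = 1`, `rk q'.2 = 2` and for the hubs `0, 1` (choose values by vertices; all these vertices are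
different); similarly if `q'.2 = q.1`; otherwise all four vertices are different (tails are
different, heads are different, `q.1 ≠ q'.2`, `q.2 ≠ q'.1`) and `0, 1` works. -/
def S_Un1 : Prop :=
  ∀ (n K e : ℕ) (lv : Fin n → ℕ) (o i : Fin n → Fin K) (c0 d0 : Fin K)
    (q q' : Fin n × Fin n) (h1 h2 h1' h2' : Finset (Fin n × Fin n)), (∀ v, lv v ≤ e + 1) →
    1 ≤ e → q.1 ≠ q.2 → q'.1 ≠ q'.2 → ¬ (q.2 = q'.1 ∧ q'.2 = q.1) →
    (q' ≠ q → o q.1 ≠ i q.2 ∧ o q'.1 = i q.2 ∧ i q'.2 = o q.1) →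
    (q' = q → h1' = h1 ∧ h2' = h2) → (q' = q → o q.1 ≠ i q.2 → o q.1 = c0 ∧ i q.2 = d0) →
    h1.card = (if tgp e lv q.1 < e then 1 else 0) → h2.card = (if hgp e lv q.2 < e then 1 else 0) →
    h1'.card = (if tgp e lv q'.1 < e then 1 else 0) →
    h2'.card = (if hgp e lv q'.2 < e then 1 else 0) →
    (∀ a ∈ h1, lv a.1 = e ∧ lv a.2 = tgp e lv q.1 + 1 ∧ o a.1 = o q.1 ∧ i a.2 = o q.1) →
    (∀ a ∈ h2, lv a.1 = hgp e lv q.2 ∧ lv a.2 = 0 ∧ o a.1 = i q.2 ∧ i a.2 = i q.2) →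
    (∀ a ∈ h1', lv a.1 = e ∧ lv a.2 = tgp e lv q'.1 + 1 ∧ o a.1 = o q'.1 ∧ i a.2 = o q'.1) →
    (∀ a ∈ h2', lv a.1 = hgp e lv q'.2 ∧ lv a.2 = 0 ∧ o a.1 = i q'.2 ∧ i a.2 = i q'.2) →
    (∀ a ∈ h1 ∪ h2 ∪ (h1' ∪ h2'), a.1 ≠ a.2 ∧ PD a q ∧ PD a q') →
    (∀ a ∈ h1, ∀ a' ∈ h2, PD a a') → (∀ a ∈ h1', ∀ a' ∈ h2', PD a a') →
    (q' ≠ q → ∀ a ∈ h1 ∪ h2, ∀ a' ∈ h1' ∪ h2', PD a a') →
    Un e lv o i c0 d0 ({q, q'} ∪ (h1 ∪ h2 ∪ (h1' ∪ h2')))
      (if q' = q ∧ o q.1 ≠ i q.2 then 1 else 0)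

/-- (about 300 lines; uses `S_Slt`, `S_Bas`, `S_Un1`) **The units of the arcs of `D`.**

Proof.  `mt` from `S_Bas`.  Slots: `α = (Fin n × Fin n) × Bool`; `A` is the set of the `(q, true)`, `q ∈ D`,
`tgp q.1 < e`, and of the `(q, false)`, `q ∈ D`, `hgp q.2 < e`.  The type of `(q, true)` is
`(tgp q.1, o q.1, true)` with the hubs `H1 m a`, that of `(q, false)` is `(hgp q.2, i q.2, false)` with the hubs
`H2 m a` (`∅` if `m ≥ e`).  `nb (q, b) = {(q, !b), (mt q, b), (mt q, !b)}`, `Fv (q, b) = {q.1, q.2, (mt q).1,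
(mt q).2}`.  The number of the slots of the type `(m, a, true)`, `m < e`, is
`#{q ∈ D : lv q.1 = m, o q.1 = a} = d #{v : lv v = m, o v = a}`, that of the type `(m, a, false)` is
`d #{v : lv v = m + 1, i v = a}`; both are at most `d n`.  `S_Slt` gives `hb`.  `U1 m a` is the set of the `hb s`,
`s` of type `(m, a, true)`, `U2 m a` in the same way; as `hb` is injective on the slots of one type, these
sets have as many elements as there are slots.  For `q ∈ D` let `u q` be the set consisting of `q`, `mt q`,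
and the hubs of the slots of `q` and `mt q`; `u (mt q) = u q`, and `u q` is a unit by `S_Un1` (its vertex
conditions: `Fv`, and `nb` for the hubs of the same pair; for `mt q = q` the two slots `(q, true)`,
`(q, false)` are neighbours).  `𝓤` is the set of the `u q`, `q ∈ D`.  Different units are disjoint: the hubs
of different slots are different (different types: `H1 m a`, `H2 m a` are disjoint for different
`(m, a, b)` because of the levels and classes), hubs are not in `D`.  `b u` is `1` if `u = u q` with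
`mt q = q`, `o q.1 ≠ i q.2`, and `0` otherwise (well defined as `u q ∩ D = {q, mt q}`); the sum of the `b u` is
`d p` by `S_Bas`. -/
def S_UnD : Prop :=
  ∀ (n K e d p Nh Δ : ℕ) (D S : Finset (Fin n × Fin n)) (o i : Fin n → Fin K) (c0 d0 : Fin K)
    (lv : Fin n → ℕ) (H1 H2 : ℕ → Fin K → Finset (Fin n × Fin n)), Reg D d → Ori D →
    CD o i c0 d0 p → Lv e o i lv → 1 ≤ e → (∀ q ∈ S, o q.1 = i q.2 ∧ q.1 ≠ q.2) →
    Hub S o lv e Nh Δ H1 H2 → Disjoint D (hbU e H1 H2) → d * n + 20 * Δ ≤ Nh →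
    ∃ (𝓤 : Finset (Finset (Fin n × Fin n))) (b : Finset (Fin n × Fin n) → ℕ)
      (U1 U2 : ℕ → Fin K → Finset (Fin n × Fin n)),
      (∀ u ∈ 𝓤, Un e lv o i c0 d0 u (b u)) ∧ (∀ u ∈ 𝓤, ∀ u' ∈ 𝓤, u ≠ u' → Disjoint u u') ∧
      𝓤.biUnion id = D ∪ hbU e U1 U2 ∧ ∑ u ∈ 𝓤, b u = d * p ∧
      ∀ m < e, ∀ a, U1 m a ⊆ H1 m a ∧ U2 m a ⊆ H2 m a ∧
        (U1 m a).card = d * (univ.filter (fun v => lv v = m ∧ o v = a)).card ∧
        (U2 m a).card = d * (univ.filter (fun v => lv v = m + 1 ∧ i v = a)).card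

/-- (about 250 lines; uses `S_UnD`) **All units.**

Proof.  Take `𝓤, b, U1, U2` from `S_UnD`.  For `m < e` and a class `a`, `|U1 m a| = |U2 m a|` (`Lv.bal`), so
`H1 m a \ U1 m a` and `H2 m a \ U2 m a` have the same number of elements; let `φ` be a bijection and add
the units `{x, φ x}`, `x ∈ H1 m a \ U1 m a`, with `b = 0`.  They are units: the tail of `x` is in the box
`(e, a)`, its head in `(m, a)`, the tail of `φ x` is in `(m, a)` and its head in `(e, a)` (own arcs).  The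
levels of `x.1, x.2, (φ x).1, (φ x).2` are `e, m + 1, m, 0` with `m < e`, and `x.1 ≠ x.2`, `(φ x).1 ≠ (φ x).2`
(no loops in `S`); so all four vertices are different, except possibly `x.1 ≠ x.2` of the same level, and
`{x, φ x}` is a linear forest (rank `0` on tails, `1` on heads).
The new units are disjoint from each other (bijections; `H1 m a`, `H2 m a` are disjoint for different
`m, a` and from each other because of the levels and classes) and from the old ones.  The union of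
everything is `D ∪ hbU e H1 H2`. -/
def S_Unt : Prop :=
  ∀ (n K e d p Nh Δ : ℕ) (D S : Finset (Fin n × Fin n)) (o i : Fin n → Fin K) (c0 d0 : Fin K)
    (lv : Fin n → ℕ) (H1 H2 : ℕ → Fin K → Finset (Fin n × Fin n)), Reg D d → Ori D →
    CD o i c0 d0 p → Lv e o i lv → 1 ≤ e → (∀ q ∈ S, o q.1 = i q.2 ∧ q.1 ≠ q.2) →
    Hub S o lv e Nh Δ H1 H2 → Disjoint D (hbU e H1 H2) → d * n + 20 * Δ ≤ Nh →
    ∃ (𝓤 : Finset (Finset (Fin n × Fin n))) (b : Finset (Fin n × Fin n) → ℕ),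
      (∀ u ∈ 𝓤, Un e lv o i c0 d0 u (b u)) ∧ (∀ u ∈ 𝓤, ∀ u' ∈ 𝓤, u ≠ u' → Disjoint u u') ∧
      𝓤.biUnion id = D ∪ hbU e H1 H2 ∧ ∑ u ∈ 𝓤, b u = d * p

/-- (about 60 lines) **Unions of vertex-disjoint linear forests.**

Proof.  Distinct tails and heads: clear.  Rank: for `v ∈ vts (Q u)` take the rank of `Q u`, and `0` for the
other vertices. -/
def S_LFu : Prop :=
  ∀ (n : ℕ) (α : Type) [DecidableEq α] (A : Finset α) (Q : α → Finset (Fin n × Fin n)),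
    (∀ u ∈ A, LF (Q u)) → (∀ u ∈ A, ∀ u' ∈ A, u ≠ u' → Disjoint (vts (Q u)) (vts (Q u'))) →
    LF (A.biUnion Q)

/-- (about 200 lines; uses `S_Gdy`, `S_LFu`) **Colouring the units.**

Proof.  `S_Gdy` for `U = 𝓤`, `Cf u u'` iff `vts u`, `vts u'` are not disjoint.  A unit has at most `12` vertices and
every vertex is in at most `2 (d + hd)` arcs of `D ∪ Hb`, hence in at most as many units: `24 (d + hd)`
conflicts.  Three loads: `|u| ≤ 6` with `C = C0`, `t = t0`, total `|D ∪ Hb| ≤ n (d + hd)`; `b u ≤ 1` with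
`C = p`, `t = max p 1` (if `p = 0` then all `b u = 0`), total `d p`; the number
`∑_{v ∈ vts u} (od XW v + idg XW v) ≤ 24 Δx` with `C = C2`, `t = t2`, total at most
`∑_v 2 (d + hd) (od XW v + idg XW v) = 4 (d + hd) |XW|`.  `(d p)/(max p 1) ≤ d`.
`Q c` is the union of the units of colour `c`, `b c` the sum of their `b u`; the balance of `Q c` is the sum of
the balances of the units; `LF` by `S_LFu`; the load of `vts (Q c)` is at most the sum of the loads. -/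
def S_Col : Prop :=
  ∀ (n K e d p hd h Δx C0 t0 C2 t2 : ℕ) (D Hb XW : Finset (Fin n × Fin n))
    (o i : Fin n → Fin K) (c0 d0 : Fin K) (lv : Fin n → ℕ)
    (𝓤 : Finset (Finset (Fin n × Fin n))) (b : Finset (Fin n × Fin n) → ℕ),
    (∀ u ∈ 𝓤, Un e lv o i c0 d0 u (b u)) → (∀ u ∈ 𝓤, ∀ u' ∈ 𝓤, u ≠ u' → Disjoint u u') →
    𝓤.biUnion id = D ∪ Hb → ∑ u ∈ 𝓤, b u = d * p → Dg D d → Dg Hb hd → Dg XW Δx → 1 ≤ t0 →
    t0 + 6 ≤ C0 + 1 → 1 ≤ t2 → t2 + 24 * Δx ≤ C2 + 1 →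
    24 * (d + hd) + (n * (d + hd)) / t0 + d + (4 * (d + hd) * XW.card) / t2 < h →
    ∃ (Q : Fin h → Finset (Fin n × Fin n)) (b' : Fin h → ℕ),
      (∀ c c', c ≠ c' → Disjoint (Q c) (Q c')) ∧ univ.biUnion Q = D ∪ Hb ∧
      ∀ c, LF (Q c) ∧ (Q c).card ≤ C0 ∧ b' c ≤ p ∧
        ∑ v ∈ vts (Q c), (od XW v + idg XW v) ≤ C2 ∧
        ∀ A : Fin ((e + 1) * K),
          ((Q c).filter (fun q => bxo e lv o q.1 = A)).card +
            (if A = bxe e d0 then b' c else 0) =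
          ((Q c).filter (fun q => bxi e lv i q.2 = A)).card + (if A = bxe e c0 then b' c else 0)

/-- (about 300 lines; uses `S_XPk`, `S_LFu`) **The covering.**

Proof.  One after the other for `c : Fin h` (induction on the number of the treated colours): let `Z` be the
set of the arcs of the cycles `C c'` which we have already (`Dg Z h`), `UX = XW ∩ Z` (at most `p` arcs for
each `c'`; so `|UX| ≤ h p`).  `S_XPk` for `XW`, `UX`, `V = vts (Q c)`, `p - b' c ≤ p` gives `X ⊆ XW \ UX`, vertex-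
disjoint, no vertex in `vts (Q c)`.  `P = Q c ∪ X` is a linear forest (`S_LFu`; `LF X` because `VD X`: rank `0` on
tails, `1` on heads), `|P| ≤ C0 + p ≤ gW n`.  `Bal`: for a box `A` the number of the tails of `P` in `A` is
`#{q ∈ Q c : bxo q.1 = A} + (p - b') [A = bxe c0]` (distinct tails), of the heads
`#{q ∈ Q c : bxi q.2 = A} + (p - b') [A = bxe d0]`; by the balance of `Q c` the first plus `p [A = bxe d0]`
is the second plus `p [A = bxe c0]`; compare with the hypothesis on the sizes of the boxes.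
`HmP` gives `C c` with `P` and all other arcs in `Wo \ Z`.  It uses exactly `p - b'` arcs of `XW`.
The arcs of `C c` are not in `Z`: those of `Q c` are in no other `Q c'` and not in `Wo ∪ XW`; those of `X` are
not in `UX`, and `XW` is disjoint from `D ∪ Hb` and `Wo`.
At the end let `L` be the set of all arcs of `D ∪ Hb ∪ XW ∪ Wo` which are in no `C c`.  As every arc of
`D ∪ Hb` is in some `Q c`, `L ⊆ Wo ∪ XW`; every vertex has out-degree `s + h - h` in `L` (the `C c v` are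
different for different `c`), the same for in-degrees. -/
def S_Cvr : Prop :=
  ∀ (n K e h p s Δx C0 C2 : ℕ) (D Hb XW Wo : Finset (Fin n × Fin n)) (o i : Fin n → Fin K)
    (c0 d0 : Fin K) (lv : Fin n → ℕ) (Q : Fin h → Finset (Fin n × Fin n)) (b' : Fin h → ℕ)
    (gW : ℝ), HmP Wo (bxo e lv o) (bxi e lv i) gW h →
    (∀ A : Fin ((e + 1) * K), (Cl (bxo e lv o) A).card + (if A = bxe e d0 then p else 0) =
      (Cl (bxi e lv i) A).card + (if A = bxe e c0 then p else 0)) →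
    (∀ q ∈ XW, q.1 ≠ q.2 ∧ bxo e lv o q.1 = bxe e c0 ∧ bxi e lv i q.2 = bxe e d0) →
    Dg XW Δx → 1 ≤ Δx → (∀ c c', c ≠ c' → Disjoint (Q c) (Q c')) →
    univ.biUnion Q = D ∪ Hb →
    (∀ c, LF (Q c) ∧ (Q c).card ≤ C0 ∧ b' c ≤ p ∧
      ∑ v ∈ vts (Q c), (od XW v + idg XW v) ≤ C2 ∧
      ∀ A : Fin ((e + 1) * K),
        ((Q c).filter (fun q => bxo e lv o q.1 = A)).card +
          (if A = bxe e d0 then b' c else 0) =
        ((Q c).filter (fun q => bxi e lv i q.2 = A)).card + (if A = bxe e c0 then b' c else 0)) →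
    Disjoint D Hb → Disjoint (D ∪ Hb) Wo → Disjoint (D ∪ Hb) XW → Disjoint Wo XW →
    h * p + C2 + 4 * Δx * p ≤ XW.card → ((C0 + p : ℕ) : ℝ) ≤ gW * n →
    (∀ v, od D v + od Hb v + od XW v + od Wo v = s + h ∧
      idg D v + idg Hb v + idg XW v + idg Wo v = s + h) →
    ∃ (C : Fin h → Equiv.Perm (Fin n)) (L : Finset (Fin n × Fin n)), (∀ c, Ham (C c)) ∧
      L ⊆ Wo ∪ XW ∧ Reg L s ∧ (∀ c v, (v, C c v) ∈ D ∪ Hb ∪ (XW ∪ Wo) ∧ (v, C c v) ∉ L) ∧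
      ∀ c c', c ≠ c' → ∀ v, C c v ≠ C c' v

end Pool.Agent.MPd266dbE
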