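import Pool.Agent.Lib.MP_d266db_co.E.SpecF
import Pool.Agent.Lib.MP_d266db_co.E.SpecA
import Pool.Agent.Lib.MP_d266db_co.E.SpecI

/-!
# MP_d266db_co, E, SpecG: the assembly

Every `S_...` is a statement to be proved in its own file `Pool/Agent/Lib/MP_d266db_co/E/....lean`;
the docstring contains the complete proof.
-/

set_option autoImplicit false

namespace Pool.Agent.MPd266dbE

open Finset Pool.Agent.MPd266db Pool.Agent.MPd266dbH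

/-- `R` contains `r` pairwise arc-disjoint Hamilton cycles -/
def Dcm {n : ℕ} (R : Finset (Fin n × Fin n)) (r : ℕ) : Prop :=
  ∃ σ : Fin r → Equiv.Perm (Fin n), (∀ j, Ham (σ j)) ∧ (∀ j v, (v, σ j v) ∈ R) ∧
    ∀ j j', j ≠ j' → ∀ v, σ j v ≠ σ j' v

/-- the arcs of `XL` from the level `e` to the level `0` -/
def XeL {n : ℕ} (e : ℕ) (lv : Fin n → ℕ) (XL : Finset (Fin n × Fin n)) : Finset (Fin n × Fin n) :=
  XL.filter (fun q => lv q.1 = e ∧ lv q.2 = 0)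

/-! ## The set `W` -/

/-- (about 300 lines; uses `S_WOw`, `S_WHm`, `S_LnB`) **`W` for given hubs and cross arcs.**

Proof.  `k = e + 1`, `θb = θ/4`, `ε1 = min (νt/16) (1/4)`, `j` so large that `J = 2^j` satisfies
`1/(k J) ≤ min ω (θ/(8k))`; `ω0 = α/(2 k J)`, `θW = ω0/4`, `κW = min (ω0 θW/4096) (νt/(k² J))`;
`gW, n1` from `S_WHm` for `K0 = 2k`, `θW`, `lam/(4k)`, `κW`;
`x = min (min (gW²/2) (min (gW/2) (min θW (κW/2)))) (ε1 νt/(4 J k²))`;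
`g = min (min (k ω0/16) (ε1 α/4)) (min (ε1 νt/96) (min (k θW/1024) (θ/8)))`.
Given `R` etc., let `ρ = r/k`, `N = 2n/k`, `w = ⌊(1 - ε1) ρ/J⌋`.  `w ≤ n/(k J) ≤ ω n`, and
`w ≥ (3/4) α n/(k J) - 1 ≥ ω0 n` for large `n`.  Given `XW, HbA, h` let `f v = w - (od XW v + od HbA v)`,
`f' v = w - (idg XW v + idg HbA v)`, `σ = x n²`, `s0 = (θW/128) n`, `κ = κW n²`.  `S_WOw` for
`S = wnd e lv (own o i R)`, `O = bxo`, `I = bxi`, `θb`, `βt`, `νt`, `g` (`LvD.bx`); its numerical hypotheses: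
`2^j w ≤ (1-ε1) ρ`; `ρ ≤ 2 J w` as `J w ≥ (3/4) ρ - J ≥ ρ/2`; `ρ - J w ≤ ε1 N + J ≤ νt N/8`;
`8 βt N = 16 βt n/k ≤ α n/k ≤ ρ`; `w + g N ≤ θ n/(8k) + (θ/8) 2n/k ≤ θ n/(2k) = θb N`;
`8 g N = 16 g n/k ≤ ω0 n ≤ w`; `2 g N = 4 g n/k ≤ ε1 α n/k ≤ ε1 ρ`; `16 J σ = 16 J x n² ≤ ε1 νt 4 n²/k² = ε1 νt N²`;
`9 w ≤ 10 f v`: `10 (od XW v + od HbA v) ≤ w`; `∑ (w - f v) = |XW| + |HbA| ≤ x n²`;
`4 g N = 8 g n/k ≤ s0`; `κ ≤ w s0/16` (`w s0/16 ≥ ω0 θW n²/2048`), `κ ≤ νt N²/(4 J) = νt n²/(k² J)`; the last two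
hold for large `n`.  We get `Wo`.  `S_WHm` for `K' = (e+1) K ≤ 2k` boxes: `2 θW n ≤ (9/10) w ≤ od Wo v`,
`∑ (w - od Wo v) ≤ x n² ≤ gW² n²/2`, `h ≤ x n`; `Lin` by `S_LnB` (`LvD.typ`). -/
def S_Wst : Prop :=
  ∀ (α θ lam βt νt ω : ℝ) (e : ℕ), 0 < α → α ≤ 1 → 0 < θ → θ ≤ 1 → 0 < lam → 0 < βt →
    16 * βt ≤ α → 0 < νt → 0 < ω → 1 ≤ e →
    ∃ (ω0 gW x g : ℝ) (n0 : ℕ), 0 < ω0 ∧ 0 < gW ∧ 0 < x ∧ 0 < g ∧ ∀ n, n0 ≤ n →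
      ∀ (K r : ℕ) (R XL : Finset (Fin n × Fin n)) (o i : Fin n → Fin K) (lv : Fin n → ℕ)
        (δ : ℝ), K ≤ 2 → α * n ≤ r → r ≤ n → LvD R o i r e XL lv θ lam δ g βt νt →
        ∃ w : ℕ, ω0 * n ≤ w ∧ (w : ℝ) ≤ ω * n ∧ ∀ (XW HbA : Finset (Fin n × Fin n)) (h : ℕ),
          (∀ v, 10 * (od XW v + od HbA v) ≤ w ∧ 10 * (idg XW v + idg HbA v) ≤ w) →
          ((XW.card : ℝ) + HbA.card ≤ x * (n : ℝ) ^ 2) →
          (∀ A : Fin ((e + 1) * K), ∑ v ∈ Cl (bxo e lv o) A, (w - (od XW v + od HbA v)) =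
            ∑ v ∈ Cl (bxi e lv i) A, (w - (idg XW v + idg HbA v))) → (h : ℝ) ≤ x * n →
          ∃ Wo ⊆ wnd e lv (own o i R), (∀ v, od Wo v + (od XW v + od HbA v) = w ∧
            idg Wo v + (idg XW v + idg HbA v) = w) ∧
            HmP Wo (bxo e lv o) (bxi e lv i) gW h

/-- `W = Wo ∪ XW ∪ HbA` is `w`-regular and can be used to cover every `d`-regular set `D` by `h` Hamilton
cycles, such that an `s`-regular subset of `Wo ∪ XW` remains. -/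
structure WC {n K : ℕ} (R : Finset (Fin n × Fin n)) (o i : Fin n → Fin K) (e : ℕ)
    (lv : Fin n → ℕ) (Xe : Finset (Fin n × Fin n)) (p w d h s : ℕ)
    (Wo XW HbA : Finset (Fin n × Fin n)) : Prop where
  wo : Wo ⊆ wnd e lv (own o i R)
  xw : XW ⊆ Xe
  xc : XW.card = w * p
  hb : HbA ⊆ own o i R
  dj : Disjoint HbA Wo
  dg : ∀ v, od Wo v + (od XW v + od HbA v) = w ∧ idg Wo v + (idg XW v + idg HbA v) = w
  nm : s + h = w + d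
  s1 : 1 ≤ s
  sw : s ≤ w
  dw : d ≤ w
  cv : ∀ D : Finset (Fin n × Fin n), D ⊆ R → Disjoint D (Wo ∪ XW ∪ HbA) → Reg D d →
    ∃ (C : Fin h → Equiv.Perm (Fin n)) (L : Finset (Fin n × Fin n)), (∀ c, Ham (C c)) ∧
      L ⊆ Wo ∪ XW ∧ Reg L s ∧
      (∀ c v, (v, C c v) ∈ D ∪ HbA ∪ (XW ∪ Wo) ∧ (v, C c v) ∉ L) ∧
      ∀ c c', c ≠ c' → ∀ v, C c v ≠ C c' v

/-- (about 150 lines; uses `S_Unt`, `S_Col`, `S_Cvr`, `S_SzB`) **The covering property.**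

Proof.  Let `D` be given; `D` is oriented.  `S_Unt` for `S = own o i R` gives the units of
`D ∪ hbU e H1 H2`, `S_Col` the colouring (`Dg D d`), and `S_Cvr` (sizes of the boxes: `S_SzB`; the arcs of
`XW` go from `bxe e c0` to `bxe e d0` as their levels are `e` and `0`: `tgp = e = hgp`) the cycles.  The total
degrees are `d + w = s + h`.  If `p = 0` then `XW` is empty: use `S_Col` with `Δx = 0`, `t2 = 1`, `C2 = 0` and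
`S_Cvr` with `Δx = 1`, `C2 = 0`; if `p ≥ 1` use the given numbers. -/
def S_CvP : Prop :=
  ∀ (n K e p w d h s hd Nh Δ1 Δx C0 t0 C2 t2 : ℕ) (R XW Wo : Finset (Fin n × Fin n))
    (o i : Fin n → Fin K) (c0 d0 : Fin K) (lv : Fin n → ℕ)
    (H1 H2 : ℕ → Fin K → Finset (Fin n × Fin n)) (gW : ℝ), Ori R → CD o i c0 d0 p →
    Lv e o i lv → 1 ≤ e → Hub (own o i R) o lv e Nh Δ1 H1 H2 → hbU e H1 H2 ⊆ own o i R →
    Dg (hbU e H1 H2) hd → d * n + 20 * Δ1 ≤ Nh → Wo ⊆ own o i R → Disjoint (hbU e H1 H2) Wo →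
    XW ⊆ R → XW.card = w * p → Dg XW Δx →
    (∀ q ∈ XW, lv q.1 = e ∧ lv q.2 = 0 ∧ o q.1 = c0 ∧ i q.2 = d0 ∧ c0 ≠ d0) →
    (∀ v, od Wo v + (od XW v + od (hbU e H1 H2) v) = w ∧
      idg Wo v + (idg XW v + idg (hbU e H1 H2) v) = w) →
    HmP Wo (bxo e lv o) (bxi e lv i) gW h → s + h = w + d → 1 ≤ t0 → t0 + 6 ≤ C0 + 1 →
    ((C0 + p : ℕ) : ℝ) ≤ gW * n →
    24 * (d + hd) + (n * (d + hd)) / t0 + d < h →
    (1 ≤ p → 1 ≤ Δx ∧ 1 ≤ t2 ∧ t2 + 24 * Δx ≤ C2 + 1 ∧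
      24 * (d + hd) + (n * (d + hd)) / t0 + d + (4 * (d + hd) * XW.card) / t2 < h ∧
      h * p + C2 + 4 * Δx * p ≤ XW.card) →
    ∀ D : Finset (Fin n × Fin n), D ⊆ R → Disjoint D (Wo ∪ XW ∪ hbU e H1 H2) → Reg D d →
      ∃ (C : Fin h → Equiv.Perm (Fin n)) (L : Finset (Fin n × Fin n)), (∀ c, Ham (C c)) ∧
        L ⊆ Wo ∪ XW ∧ Reg L s ∧
        (∀ c v, (v, C c v) ∈ D ∪ hbU e H1 H2 ∪ (XW ∪ Wo) ∧ (v, C c v) ∉ L) ∧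
        ∀ c c', c ≠ c' → ∀ v, C c v ≠ C c' v

/-- (about 350 lines; uses `S_Wst`, `S_Grd`, `S_HbX`, `S_SmB`, `S_CvP`) **`W` exists.**

Proof.  `k = e + 1`.  `S_Wst` for `ω' = min ω (ξ/(32 k²))` gives `ω0, gW, x, g, n1`.
`C1 = ⌈128 k²/(lam θ)⌉₊ + 1`, `C3 = 1 + e C1`, `C4 = ⌈C3 (90 + 8/gW)⌉₊ + 1`,
`κd = min (min (lam θ/(64 k²)) (x/(16 e))) (min (ω0/(20 e C1)) (min (x/C4) (ω0/(4 C4))))`,
`κ = min (ω0/2) (κd/2)`, `γ = min (x/2) (gW/4)`, `ζ = ξ/(51200 k²)`.  Let `n` be large.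
`d = ⌊κd n⌋`, `Δ1 = C1 d`, `Nh = 2 d n`, `hd = e Δ1`, `h = C4 d`, `M0 = ⌊lam θ n²/(8 k²)⌋`.  `w` from `S_Wst`;
`s = w + d - h`; `h ≤ w/4`, so `s ≥ w/2 ≥ κ n`, and `s ≤ w` (`C4 ≥ 1`), `d ≤ h ≤ w`.
Hubs: `S_HbX` for `own o i R`.  The number of own arcs from `{lv = e, o = a}` to `{lv = m + 1}` is at least
`#{lv v = e, o v = a} θ n/(2k) ≥ (lam n/(4k)) (θ n/(2k)) ≥ M0` (`LvD.deg`; `LvD.typ`: every class `a` of tails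
occurs in one of the three types, in every level; the head of such an own arc has `i q.2 = a`); the same
for the arcs from `{lv = m, o = a}` to `{lv = 0}`.  `Nh Δ1 + 2 Nh n = 2 d n Δ1 + 4 d n² ≤ Δ1 M0`: as
`M0 ≥ lam θ n²/(16 k²)`, `2 d n ≤ M0/2` and `4 d n² ≤ C1 d M0/2`.  So `H1, H2`; `HbA = hbU e H1 H2`, degrees `≤ hd`,
`|HbA| ≤ 2 e K Nh ≤ 8 e d n ≤ (x/2) n²`.
`XW`: if `p = 0`, `XW = ∅`.  If `p ≥ 1`: `Δx = ⌊w/400⌋` (`w/800 ≤ Δx`, `1 ≤ Δx`); `S_Grd` for `XeL e lv XL`,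
`m = w p`, `Δx`, `Δ0 = Δ`: `4k² |XeL| ≥ |XL| ≥ ξ n p`, `w p Δx + 2 w p Δ ≤ Δx |XeL|` because
`w ≤ ξ n/(32 k²)` and `2 w Δ ≤ 1600 Δx ζ n ≤ Δx ξ n/(32 k²)`.  `|XW| = w p ≤ γ n² ≤ (x/2) n²`.
`10 (od XW v + od HbA v) ≤ w/40 + 10 e C1 κd n ≤ w/40 + w/2 ≤ w`.  The sums: `S_SmB`.  `S_Wst` gives `Wo` for
`h ≤ x n`.  `HbA` is disjoint from `Wo` (`S_HbX`).
`S_CvP` with `C0 = ⌊gW n/2⌋`, `t0 = ⌊gW n/4⌋` (`t0 ≥ gW n/8`), and for `p ≥ 1` `C2 = ⌊w p/4⌋`,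
`t2 = ⌊w p/8⌋` (`t2 ≥ w p/16`): `t2 + 24 Δx ≤ w p/8 + 24 w/400 ≤ C2 + 1`;
`d + hd = C3 d`; `24 C3 d + 8 C3 d/gW + d + 64 C3 d < C4 d` (and `1 ≤ d`);
`h p + C2 + 4 Δx p ≤ (1/4 + 1/4 + 1/100) w p`; `d n + 20 Δ1 ≤ 2 d n` for `n ≥ 20 C1`.
The arcs of `XeL` are in `R` and cross, so disjoint from the own arcs. -/
def S_WCx : Prop :=
  ∀ (α θ lam βt νt ξ ω : ℝ) (e : ℕ), 0 < α → α ≤ 1 → 0 < θ → θ ≤ 1 → 0 < lam → lam ≤ 1 →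
    0 < βt → 16 * βt ≤ α → 0 < νt → 0 < ξ → 0 < ω → 1 ≤ e →
    ∃ (κ g γ ζ : ℝ) (n0 : ℕ), 0 < κ ∧ 0 < g ∧ 0 < γ ∧ 0 < ζ ∧ ∀ n, n0 ≤ n →
      ∀ (K r p Δ : ℕ) (R XL : Finset (Fin n × Fin n)) (o i : Fin n → Fin K) (c0 d0 : Fin K)
        (lv : Fin n → ℕ) (δ : ℝ), K ≤ 2 → Ori R → Reg R r → α * n ≤ r →
        CD o i c0 d0 p → (p : ℝ) ≤ γ * n → LvD R o i r e XL lv θ lam δ g βt νt → XL ⊆ R →
        (∀ q ∈ XL, o q.1 = c0 ∧ i q.2 = d0 ∧ c0 ≠ d0) → Dg XL Δ → (Δ : ℝ) ≤ ζ * n →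
        ξ * n * p ≤ XL.card →
        ∃ (w d h s : ℕ) (Wo XW HbA : Finset (Fin n × Fin n)),
          WC R o i e lv (XeL e lv XL) p w d h s Wo XW HbA ∧ (w : ℝ) ≤ ω * n ∧ κ * n ≤ s ∧
          κ * n ≤ d

/-! ## The absorber -/

/-- the gap of the object `f`: `s` objects for every gap -/
def jjf (e s : ℕ) (f : Fin ((e + 1) * s)) : ℕ := ((finProdFinEquiv.symm f).1 : ℕ)

/-- (about 350 lines; uses `S_FbP`, `S_HmQ`, `S_CnQ`, `S_K2Q`, `S_PXc`, `S_PXb`, `S_AbX`) **The absorber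
exists.**

Proof.  `mt, c, N0` from `S_FbP` for `K0 = 2`, `θ/4`, `νt`; `gP, κP, γP, nP` from `S_HmQ` for `2, θ, lam, ν`;
`ζC, ℓ` from `S_CnQ` for `η, θ`; `ζK, nK` from `S_K2Q` for `θ`; `κB = min (min ζC ζK) 1`;
`e = 2 mt + 3 + ⌈32/κB⌉₊`, `k = e + 1`; `δ = κB/8`;
`κM = min (κB/(16 (ℓ + 2))) (min (κB/96) (gP/(16 (ℓ + 1))))`, `q = ⌈1/κM⌉₊ + 6`;
`κz = min (min κP ζC) (min ζK (min (νt/(32 k)) (θ/(4 k))))`;
`ω = min (κz/(2 (1 + 2k + 3kq))) (ξ/(16 k² (1 + k + kq)))`; `g = νt/64`; `ζ = ξ/(64 k²)`;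
`γ = min (min γP ζC) (min (c/k) (gP/2))`.  Let `n` be large, `z = ⌊κz n⌋`, `b = ⌊κB n⌋`, `Mx = ⌊κM n⌋`,
`mF = (e+1) s`, `Xe = XeL e lv XL`, `Δ' = max Δ 1`, `N = 2n/k`.
`ObjP e lv (wnd e lv (own o i R)) Xe p z` by `S_FbP`: `LvD.bx`, `64 z ≤ νt 2n/k`, `2 z ≤ (θ/4) 2n/k`,
`8 βt ≤ (θ/4)²`, `64 g ≤ νt`, `N0 ≤ N`, `p ≤ γ n ≤ c N`; `PX` by `S_PXc` (for `Xe ⊆ XL`).
`HmP (own o i R) o i gP z`, `CnP (own o i R) b ℓ z`, `K2P (own o i R) b z` by `S_HmQ`, `S_CnQ`, `S_K2Q`.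
`S_AbX` for `S = own o i R`, `Z0 = Wo ∪ HbA` (`Dg Z0 w`), `U0 = XW`, `jj = jjf e s`:
`w + 2 mF + 3 mF q + 3 ≤ ω n (1 + 2k + 3kq) + 3 ≤ κz n/2 + 3 ≤ z`;
`Disjoint (own o i R) Xe`: the arcs of `XL` are cross; `Bal` by `S_PXb`;
`|XW| + (mF + mF q) p + 4 Δ' p ≤ |Xe|`: clear if `p = 0`; if `p ≥ 1`,
`w + k w + k q w ≤ ξ n/(16 k²)`, `4 Δ' ≤ ξ n/(16 k²)` and `4 k² |Xe| ≥ |XL| ≥ ξ n p`;
`3 ≤ mF q`; `4 + n/(2 Mx) < q` as `Mx ≥ κM n/2`; the number of the vertices of the levels `0`, `e`, `e + 1` is at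
most `4n/k + δ n ≤ κB n/4` (`LvD.sz`, `LvD.exc`, `k ≥ 32/κB`);
`2 (Mx + 3)(ℓ + 2) ≤ κB n/8 + 6 (ℓ + 2)`, `12 Mx + 9 ≤ κB n/8 + 9`;
`2 (Mx + 3)(ℓ + 1) + p ≤ gP n/8 + 6 (ℓ + 1) + gP n/2 ≤ gP n`. -/
def S_Aex : Prop :=
  ∀ (η θ lam ν βt νt ξ : ℝ), 0 < η → 0 < θ → θ ≤ 1 → 0 < lam → 0 < ν → 0 < βt →
    8 * βt ≤ (θ / 4) ^ 2 → 0 < νt → 0 < ξ →
    ∃ (e q : ℕ) (ω g δ γ ζ : ℝ) (n0 : ℕ), 1 ≤ e ∧ 1 ≤ q ∧ 0 < ω ∧ 0 < g ∧ 0 < δ ∧ 0 < γ ∧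
      0 < ζ ∧ ∀ n, n0 ≤ n →
      ∀ (K r p Δ w s : ℕ) (R XL : Finset (Fin n × Fin n)) (o i : Fin n → Fin K)
        (c0 d0 : Fin K) (lv : Fin n → ℕ) (lam' : ℝ) (Wo XW HbA : Finset (Fin n × Fin n)),
        K ≤ 2 → Ori R → Reg R r → ((crs o i R).card : ℝ) ≤ γ * (n : ℝ) ^ 2 →
        Rob o i R (θ / 256) ν → (∀ v, θ * n ≤ od (own o i R) v) →
        (∀ v, θ * n ≤ idg (own o i R) v) → Lin o i lam →
        (∀ W : Finset (Fin n), η * W.card * Wᶜ.card ≤ eb R W Wᶜ) →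
        CD o i c0 d0 p → (p : ℝ) ≤ γ * n → LvD R o i r e XL lv θ lam' δ g βt νt → XL ⊆ R →
        (∀ a ∈ XL, o a.1 = c0 ∧ i a.2 = d0 ∧ c0 ≠ d0) → Dg XL Δ → (Δ : ℝ) ≤ ζ * n →
        ξ * n * p ≤ XL.card → (w : ℝ) ≤ ω * n → 1 ≤ s → s ≤ w → Dg (Wo ∪ HbA) w →
        XW ⊆ XeL e lv XL → XW.card = w * p →
        ∃ (σ : Fin ((e + 1) * s) → Equiv.Perm (Fin n))
          (π : Fin ((e + 1) * s * q) → Equiv.Perm (Fin n)),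
          Abs e lv ((e + 1) * s) ((e + 1) * s * q) (jjf e s)
            ((own o i R \ (Wo ∪ HbA)) ∪ (XeL e lv XL \ XW)) σ π

/-! ## The last step -/

/-- all arcs of an absorber -/
def abA {n mF G : ℕ} (e : ℕ) (lv : Fin n → ℕ) (jj : Fin mF → ℕ)
    (σ : Fin mF → Equiv.Perm (Fin n)) (π : Fin G → Equiv.Perm (Fin n)) :
    Finset (Fin n × Fin n) :=
  univ.biUnion (fun f => (univ.filter (fun v => tgp e lv v ≠ jj f)).image (fun v => (v, σ f v))) ∪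
    univ.biUnion (fun g => arcs (π g))

/-- (about 120 lines) **The degrees of an absorber.**

Proof.  For every `j ≤ e` exactly `s` indices `f` have `jjf e s f = j` (`finProdFinEquiv`).  The out-neighbours
of `v` in `abA` are the `σ f v` with `tgp v ≠ jj f` (`e s` of them) and the `π g v`, all different (`dF, dG,
dFG`).  The in-neighbours of `u`: for each `f` the vertex `v = (σ f)⁻¹ u` counts iff `tgp v ≠ jj f`, and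
`tgp v = hgp u` (`Abs.wd`); so again `e s` of them (different by `dF`), and the `(π g)⁻¹ u`. -/
def S_AbR : Prop :=
  ∀ (n e s G : ℕ) (lv : Fin n → ℕ) (S' : Finset (Fin n × Fin n))
    (σ : Fin ((e + 1) * s) → Equiv.Perm (Fin n)) (π : Fin G → Equiv.Perm (Fin n)),
    Abs e lv ((e + 1) * s) G (jjf e s) S' σ π → (∀ v, lv v ≤ e + 1) →
    Reg (abA e lv (jjf e s) σ π) (e * s + G) ∧ abA e lv (jjf e s) σ π ⊆ S'

/-- (about 250 lines; uses `S_Dec1`) **The decomposition.**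

Proof.  `S_Dec1` for `L` gives `μ' : Fin s → Perm`, all arcs in `L`, hence winding; different for different
indices; since `L` is `s`-regular, at every `v` the `μ' c v` are exactly the out-neighbours in `L`.  Put
`μ f = μ' c` for `f = finProdFinEquiv (j, c)`.  `Abs.ab` gives `Φ`.  The Hamilton cycles are: `τ j` (`t` of them),
`C c` (`h`), `Φ x` (`(e+1) s + G`); together `r` (enumerate the disjoint union of the index types).  At a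
vertex `v` the values `Φ x v` are, up to a permutation `ψ` of the indices, `μ' c v` for the `f = (tgp v, c)`,
`σ f v` for the `f` with `jj f ≠ tgp v`, and `π g v`: all different: the first are in `L`, the others in
`abA`, which is disjoint from `L` (`L ⊆ W`, `abA ⊆ S'`, disjoint from `W`), and `dF`, `dG`, `dFG`.  The `τ j v`
are not in `abA ∪ W`, the `C c v` are in `D ∪ W` and not in `L`, not in `abA` and different from the `τ j v`,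
which are not in `D`. -/
def S_Fin : Prop :=
  ∀ (n e s G t h r : ℕ) (lv : Fin n → ℕ) (R W D L S' : Finset (Fin n × Fin n))
    (σ : Fin ((e + 1) * s) → Equiv.Perm (Fin n)) (π : Fin G → Equiv.Perm (Fin n))
    (τ : Fin t → Equiv.Perm (Fin n)) (C : Fin h → Equiv.Perm (Fin n)),
    Abs e lv ((e + 1) * s) G (jjf e s) S' σ π → (∀ v, lv v ≤ e + 1) → S' ⊆ R → W ⊆ R →
    D ⊆ R → Disjoint S' W → (∀ j, Ham (τ j)) → (∀ j v, (v, τ j v) ∈ R) →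
    (∀ j v, (v, τ j v) ∉ abA e lv (jjf e s) σ π ∧ (v, τ j v) ∉ W ∧ (v, τ j v) ∉ D) →
    (∀ j j', j ≠ j' → ∀ v, τ j v ≠ τ j' v) → Disjoint D (abA e lv (jjf e s) σ π) →
    (∀ c, Ham (C c)) → (∀ c v, (v, C c v) ∈ D ∪ W ∧ (v, C c v) ∉ L) →
    (∀ c c', c ≠ c' → ∀ v, C c v ≠ C c' v) → L ⊆ W → Reg L s →
    (∀ q ∈ L, Wd e lv q.1 q.2) → t + h + (e + 1) * s + G = r → Dcm R r

/-- (about 40 lines) Proof.  `K ≤ 2`: a nonempty `J ≠ univ` is `{a}` or `{b}`, where `a ≠ b` are the two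
classes.  `J = {a}`: `|Cl o b ∩ Cl i a| ≥ lam n`; `J = {b}`: `|Cl o a ∩ Cl i b| ≥ lam n`. -/
def S_LnQ : Prop :=
  ∀ (n K : ℕ) (o i : Fin n → Fin K) (a : Fin K) (lam : ℝ), K ≤ 2 →
    (∀ b, b ≠ a → lam * n ≤ (Cl o a ∩ Cl i b).card ∧ lam * n ≤ (Cl o b ∩ Cl i a).card) →
    Lin o i lam

/-- (about 350 lines; uses `S_Lev`, `S_WCx`, `S_Aex`, `S_AbR`, `S_Fin`, `S_LnQ`, `S_Thm`) **Theorem.**

Proof.  `α' = min α 1`, `βt = min (min (θ²/128) (α'/16)) 1`, `β = min (βt/16) (θ/256)`.  Given `ν`: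
`νt` from `S_Lev` for `θ, lam, βt, ν`.  `e, q, ωA, gA, δA, γA, ζA` from `S_Aex` for
`η, θ, lam, ν, βt, νt, ξ`.  `ω = min ωA (min (α'/4) (η/8)/((e+1)(q+2)))`.  `κ, gW, γW, ζW` from `S_WCx` for
`α', θ, lam/2, βt, νt, ξ, ω, e`.  `γL` from `S_Lev` for `e`, `min gA gW`, `δA`.  `n1` from `S_Thm` for
`α'/2, η/2, κ/2`.  `ζ = min (min ζA ζW) (ξ/(64 (e+1)^4))`, `γ` the minimum of `γA, γW, γL`.
Given `R` etc.; if `p = 0` replace `XL` by `∅` and `Δ` by `0`.  (`LvD` is monotone in `g`; `Rob` with `β` implies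
`Rob` with larger numbers.)  `S_Lev` gives `lv` (`64 (e+1)^4 Δ ≤ 64 (e+1)^4 ζ n ≤ ξ n ≤ |XL|` if `p ≥ 1`); its
hypothesis on `|Cl o c|`, `|Cl i c|` follows from `CD`; `XL ⊆ R` has no loops.  `S_WCx` gives `w, d, h, s,
Wo, XW, HbA`; let `W = Wo ∪ XW ∪ HbA`, a disjoint union, `w`-regular.  `S_Aex` gives `σ, π`
(`Lin` by `S_LnQ`), `S' = (own o i R \ (Wo ∪ HbA)) ∪ (XeL \ XW)`, which is disjoint from `W` (own and cross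
arcs).  `S_AbR`: `A = abA` is regular of degree `a = e s + G`, `G = (e+1) s q`.  Let `R' = R \ (A ∪ W)`, regular
of degree `r' = r - a - w`; `a + w ≤ w (e + 1)(q + 2) ≤ min (α'/4) (η/8) n`; so `r' ≥ (α'/2) n` and
`eb R' Y Yᶜ ≥ eb R Y Yᶜ - (a + w) min(|Y|, |Yᶜ|) ≥ (η - 2 (a + w)/n) |Y| |Yᶜ| ≥ (η/2) |Y| |Yᶜ|`.  `S_Thm` gives
`t0 ≥ (1 - κ/2) r'` Hamilton cycles; `d ≤ w ≤ (α'/4) n ≤ r'` and `d ≥ κ n ≥ (κ/2) r'`, so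
`t := r' - d ≤ t0`.  Let `D` be `R'` without the arcs of the first `t` cycles:
`d`-regular.  `WC.cv` gives `C, L`.  `L ⊆ Wo ∪ XW` consists of winding arcs (`XW` goes from level `e` to level
`0`).  `S_Fin`: `t + h + (e+1) s + G = r' - d + h + (e+1) s + G = r - e s - w - d + h + (e + 1) s = r`. -/
def S_Ex : Prop :=
  ∀ (α η lam θ ξ : ℝ), 0 < α → 0 < η → 0 < lam → lam ≤ 1 → 0 < θ → θ ≤ 1 → 0 < ξ →
    ∃ β : ℝ, 0 < β ∧ ∀ ν : ℝ, 0 < ν → ∃ (ζ γ : ℝ) (n0 : ℕ), 0 < ζ ∧ 0 < γ ∧ ∀ n, n0 ≤ n →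
      ∀ (K r p Δ : ℕ) (R XL : Finset (Fin n × Fin n)) (o i : Fin n → Fin K) (a c0 d0 : Fin K),
        K ≤ 2 → Ori R → Reg R r → α * n ≤ r →
        (∀ W : Finset (Fin n), η * W.card * Wᶜ.card ≤ eb R W Wᶜ) →
        ((crs o i R).card : ℝ) ≤ γ * (n : ℝ) ^ 2 → Rob o i R β ν →
        (∀ v, θ * n ≤ od (own o i R) v) → (∀ v, θ * n ≤ idg (own o i R) v) →
        lam * n ≤ (Cl o a ∩ Cl i a).card →
        (∀ b, b ≠ a → lam * n ≤ (Cl o a ∩ Cl i b).card ∧ lam * n ≤ (Cl o b ∩ Cl i a).card) →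
        CD o i c0 d0 p → (p : ℝ) ≤ γ * n → XL ⊆ R →
        (∀ q ∈ XL, o q.1 = c0 ∧ i q.2 = d0 ∧ c0 ≠ d0) → Dg XL Δ → (Δ : ℝ) ≤ ζ * n →
        ξ * n * p ≤ XL.card → Dcm R r

end Pool.Agent.MPd266dbE
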