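import Pool.Agent.Lib.MP_d266db_co.E.SpecG

/-!
# MP_d266db_co, E, SpecH: from the structure theorem to the decomposition

Every `S_...` is a statement to be proved in its own file `Pool/Agent/Lib/MP_d266db_co/E/....lean`;
the docstring contains the complete proof.
-/

set_option autoImplicit false

namespace Pool.Agent.MPd266dbE

open Finset Pool.Agent.MPd266db Pool.Agent.MPd266dbH

/-- (about 150 lines) **Robustness at a smaller scale.**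

Proof.  Let `a`, `X ⊆ O_a`, `Y ⊆ I_a` with `β' n ≤ |X| + |I_a \ Y|`, `β' n ≤ |O_a \ X| + |Y|`.  If both numbers are
`≥ β n` use `Rob o i R β ν`.  (1) Let `|X| + |I_a \ Y| < β n`.  A tail `v ∈ X` with at least `θ0 n` own arcs has its
own out-neighbours in `I_a`, at most `|I_a \ Y| < β n ≤ θ0 n/2` of them outside `Y`; so
`eb R X Y ≥ (θ0/2) n (|X| - B)`.  A head `w ∈ I_a \ Y` with at least `θ0 n` own arcs has its own
in-neighbours in `O_a`, at most `|X| < β n` of them in `X`; so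
`eb R (O_a \ X) (I_a \ Y) ≥ (θ0/2) n (|I_a \ Y| - B)`.  The sum is at least
`(θ0/2) n (β' n - 2 B) ≥ (θ0/2) n (β' n/2)`.  (2) Let `|O_a \ X| + |Y| < β n`.  In the same way: the heads
`w ∈ Y` give `eb R X Y ≥ (θ0/2) n (|Y| - B)`, the tails `v ∈ O_a \ X` give
`eb R (O_a \ X) (I_a \ Y) ≥ (θ0/2) n (|O_a \ X| - B)`. -/
def S_RbS : Prop :=
  ∀ (n K B : ℕ) (R : Finset (Fin n × Fin n)) (o i : Fin n → Fin K) (β ν θ0 β' : ℝ),
    Rob o i R β ν → 0 < θ0 → 0 < β' → 2 * β ≤ θ0 → 4 * (B : ℝ) ≤ β' * n →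
    (univ.filter (fun v => (od (own o i R) v : ℝ) < θ0 * n)).card ≤ B →
    (univ.filter (fun v => (idg (own o i R) v : ℝ) < θ0 * n)).card ≤ B →
    Rob o i R β' (min ν (θ0 * β' / 4))

/-- (about 50 lines) Proof.  `K = 1`: `c0 = d0 = 0`, `p = 0`, all four sets `Cl` are `univ`.  `K = 2`: if
`|Cl i 0| ≤ |Cl o 0|` then `c0 = 0`, `d0 = 1`, otherwise `c0 = 1`, `d0 = 0`; `p = |Cl o c0| - |Cl i c0|`;
`|Cl o 0| + |Cl o 1| = n = |Cl i 0| + |Cl i 1|`. -/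
def S_Imb : Prop :=
  ∀ (n K : ℕ) (o i : Fin n → Fin K), 1 ≤ K → K ≤ 2 →
    ∃ (c0 d0 : Fin K) (p : ℕ), CD o i c0 d0 p ∧ (p ≠ 0 → c0 ≠ d0)

/-- the arcs from the tails of class `c0` to the heads of class `d0` -/
def Xcd {n K : ℕ} (R : Finset (Fin n × Fin n)) (o i : Fin n → Fin K) (c0 d0 : Fin K) :
    Finset (Fin n × Fin n) := R.filter (fun q => o q.1 = c0 ∧ i q.2 = d0)

/-- the arcs of `Xcd` both of whose ends have low degree in `Xcd` -/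
def XLo {n K : ℕ} (R : Finset (Fin n × Fin n)) (o i : Fin n → Fin K) (c0 d0 : Fin K) (L : ℕ) :
    Finset (Fin n × Fin n) :=
  (Xcd R o i c0 d0).filter (fun q => od (Xcd R o i c0 d0) q.1 ≤ L ∧ idg (Xcd R o i c0 d0) q.2 ≤ L)

/-- the tails of high degree in `Xcd` -/
def HiT {n K : ℕ} (R : Finset (Fin n × Fin n)) (o i : Fin n → Fin K) (c0 d0 : Fin K) (L : ℕ) :
    Finset (Fin n) := univ.filter (fun v => L < od (Xcd R o i c0 d0) v)

/-- the heads of high degree in `Xcd` -/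
def HiH {n K : ℕ} (R : Finset (Fin n × Fin n)) (o i : Fin n → Fin K) (c0 d0 : Fin K) (L : ℕ) :
    Finset (Fin n) := univ.filter (fun v => L < idg (Xcd R o i c0 d0) v)

/-- (about 150 lines) **Low cross arcs or many high roles.**

Proof.  Every class is `c0` or `d0` (`CD.two`).  The `r |Cl o c0|` arcs with tail in `Cl o c0` are the own arcs of the
class `c0` and the arcs of `Xcd c0 d0`; the `r |Cl i c0|` arcs with head in `Cl i c0` are the own arcs of the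
class `c0` and the arcs of `Xcd d0 c0`.  So `|Xcd c0 d0| = |Xcd d0 c0| + r p ≥ r p`.  `Xcd c0 d0 ⊆ crs`:
first claim.  Every arc of `X \ XLo`, `X = Xcd c0 d0`, has its tail in `HiT` or its head in `HiH`.  For every
`v`, `2 od X v ≤ r`: `od X v + od own v ≤ od R v = r` (disjoint subsets of `R`) and `r ≤ 2 od own v`; the same
for `idg`.  So `2 |X \ XLo| ≤ r (|HiT| + |HiH|)`.  If `4 |XLo| < r p` then
`2 |X \ XLo| > 2 r p - r p/2 ≥ r p`, so `|HiT| + |HiH| > p`. -/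
def S_Dch : Prop :=
  ∀ (n K r p L : ℕ) (R : Finset (Fin n × Fin n)) (o i : Fin n → Fin K) (c0 d0 : Fin K),
    Reg R r → CD o i c0 d0 p → c0 ≠ d0 → (∀ v, r ≤ 2 * od (own o i R) v) →
    (∀ v, r ≤ 2 * idg (own o i R) v) → r * p ≤ (crs o i R).card ∧
      (r * p ≤ 4 * (XLo R o i c0 d0 L).card ∨
        p ≤ (HiT R o i c0 d0 L).card + (HiH R o i c0 d0 L).card)

/-- (about 300 lines) **Moving high roles.**

Proof.  Choose `A ⊆ HiT`, `B ⊆ HiH` with `|A| + |B| = p`; `v ∈ A` has `o v = c0` and `v ∈ B` has `i v = d0` (the degree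
in `Xcd` is positive).  `o' v = d0` for `v ∈ A`, `o' v = o v` otherwise; `i' v = c0` for `v ∈ B`, `i' v = i v`
otherwise.  `CD`: `|Cl o' c0| = |Cl o c0| - |A| = |Cl i c0| + p - |A| = |Cl i c0| + |B| = |Cl i' c0|`,
`|Cl i' d0| = |Cl i d0| - |B| = |Cl o d0| + p - |B| = |Cl o d0| + |A| = |Cl o' d0|`.
`crs`: an arc of `crs o' i' R` which is not in `crs o i R` has its tail in `A` or its head in `B`: at most
`r (|A| + |B|)` arcs.
`Rob`: let `X ⊆ Cl o' a`, `Y ⊆ Cl i' a` with `2 β n ≤ |X| + |Cl i' a \ Y|`, `2 β n ≤ |Cl o' a \ X| + |Y|`;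
`X0 = X ∩ Cl o a`, `Y0 = Y ∩ Cl i a`.  `|X \ X0| ≤ |A|`, and `(Cl i' a \ Y) \ (Cl i a \ Y0) ⊆ B`; so
`|X0| + |Cl i a \ Y0| ≥ 2 β n - p ≥ β n`, in the same way `|Cl o a \ X0| + |Y0| ≥ β n`.  So
`ν n² ≤ eb R X0 Y0 + eb R (Cl o a \ X0) (Cl i a \ Y0)`; `X0 ⊆ X`, `Y0 ⊆ Y`,
`Cl o a \ X0 ⊆ (Cl o' a \ X) ∪ A`, `Cl i a \ Y0 ⊆ (Cl i' a \ Y) ∪ B`, so this is at most
`eb R X Y + eb R (Cl o' a \ X) (Cl i' a \ Y) + (|A| + |B|) n`, and `p n ≤ (ν/2) n²`.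
Degrees: let `v ∉ A`.  The own arcs `(v, w)` with `w ∉ B` are still own: `od own' v + p ≥ od own v ≥ r/2`.  Let
`v ∈ A`: the arcs `(v, w)` of `Xcd` with `w ∉ B` are own for `o', i'` (`o' v = d0 = i w = i' w`), so
`od own' v + |B| ≥ od Xcd v ≥ L + 1`.  The same for the heads.  The exceptional tails are in `A`, the
exceptional heads in `B`.
Types: `Cl o x ∩ Cl i y \ (A ∪ B) ⊆ Cl o' x ∩ Cl i' y`. -/
def S_Mov : Prop :=
  ∀ (n K r p L : ℕ) (R : Finset (Fin n × Fin n)) (o i : Fin n → Fin K) (c0 d0 : Fin K)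
    (β ν : ℝ), Reg R r → CD o i c0 d0 p → c0 ≠ d0 → (∀ v, r ≤ 2 * od (own o i R) v) →
    (∀ v, r ≤ 2 * idg (own o i R) v) →
    p ≤ (HiT R o i c0 d0 L).card + (HiH R o i c0 d0 L).card → Rob o i R β ν →
    (p : ℝ) ≤ β * n → 2 * (p : ℝ) ≤ ν * n →
    ∃ o' i' : Fin n → Fin K, CD o' i' c0 d0 0 ∧
      (crs o' i' R).card ≤ (crs o i R).card + r * p ∧ Rob o' i' R (2 * β) (ν / 2) ∧
      (∀ v, L + 1 ≤ od (own o' i' R) v + p ∨ r ≤ 2 * (od (own o' i' R) v + p)) ∧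
      (∀ v, L + 1 ≤ idg (own o' i' R) v + p ∨ r ≤ 2 * (idg (own o' i' R) v + p)) ∧
      (univ.filter (fun v => 2 * (od (own o' i' R) v + p) < r)).card ≤ p ∧
      (univ.filter (fun v => 2 * (idg (own o' i' R) v + p) < r)).card ≤ p ∧
      ∀ x y, (Cl o x ∩ Cl i y).card ≤ (Cl o' x ∩ Cl i' y).card + p

/-- (about 250 lines; uses `S_Ex`, `S_LnC`, `S_RbS`, `S_Imb`, `S_Dch`, `S_Mov`) **The decomposition of a graph with
at most two classes.**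

Proof.  `lam = min (η/2048) (1/100000)`; `S_Ex` for `1/8, η, lam, 1/16, 1/32` gives `β1`; `β = min β1 (1/128)`.
Given `ν`, `S_Ex` gives `ζ1, γ1, n1`; `ζ = min ζ1 (1/16)`.  `S_Ex` for `1/8, η, lam/2, ζ/2, 1` gives `β2`, and for
`ν2 = min (ν/2) (1/32 * β2/4)` it gives `ζ2, γ2, n2`.  `γ` is `1/1000` times the minimum of `γ1, γ2, ζ, lam,
β, ν, β2, 1`; `n0 = max (max n1 n2) 16`.  Let `R` etc. be given.  `n/8 ≤ r` as `n ≥ 16`; `r ≤ n`.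
`r ≤ K od own ≤ 2 od own`, so the own degrees are at least `n/16`.
Types: `|Cl o a ∩ Cl i a| ≥ n/100000 ≥ lam n`.  If `b ≠ a` then all classes are `a` or `b` (`K ≤ 2`);
`S_LnC` for `1/8, η, γ, lam` (`K² lam + γ ≤ η/512 + η/2048000 < η/256`; sizes: `StC.sz`) and `J = {a}`, resp.
`J = {b}` gives `lam n ≤ |Cl o b ∩ Cl i a|`, resp. `lam n ≤ |Cl o a ∩ Cl i b|`.
`S_Imb` gives `c0, d0, p`.  If `p = 0`: `S_Ex` (first) with `XL = ∅`, `Δ = 0`; `Rob` with `β ≤ β1` implies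
`Rob` with `β1`.  Let `p ≥ 1`, `c0 ≠ d0`, `L = ⌊ζ n⌋₊`.  By `S_Dch` `r p ≤ |crs| ≤ γ n²`, so `p ≤ 8 γ n`.
(A) `r p ≤ 4 |XLo|`: `S_Ex` (first) with `XL = XLo`, `Δ = L`; `Dg XLo L`: if `v` is a tail of `XLo` then
`od XLo v ≤ od Xcd v ≤ L`; `L ≤ ζ n ≤ ζ1 n`; `(1/32) n p ≤ r p/4 ≤ |XLo|`.
(B) Otherwise `S_Mov` (`p ≤ 8 γ n ≤ β n`, `2 p ≤ 16 γ n ≤ ν n`) gives `o', i'`.  `S_Ex` (second) with `p = 0`,
`XL = ∅`, `Δ = 0`: `|crs o' i' R| ≤ γ n² + r p ≤ 9 γ n² ≤ γ2 n²`.  `Rob o' i' R β2 ν2` by `S_RbS` for `2 β`, `ν/2`,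
`θ0 = 1/32`, `β' = β2`, `B = p` (`4 p ≤ 32 γ n ≤ β2 n`; if `od own' v < n/32` then
`2 (od own' v + p) < n/16 + 16 γ n ≤ n/8 ≤ r`).  Own degrees: `L + 1 > ζ n`, so they are at least
`ζ n - p ≥ (ζ/2) n` or at least `r/2 - p ≥ n/16 - 8 γ n ≥ n/32 ≥ (ζ/2) n`.  Types: `lam n - p ≥ (lam/2) n`. -/
def S_Pre : Prop :=
  ∀ η : ℝ, 0 < η → ∃ β : ℝ, 0 < β ∧ ∀ ν : ℝ, 0 < ν → ∃ (γ : ℝ) (n0 : ℕ), 0 < γ ∧ ∀ n, n0 ≤ n →
    ∀ (K r : ℕ) (R : Finset (Fin n × Fin n)) (o i : Fin n → Fin K), 1 ≤ K → K ≤ 2 → Ori R →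
      Reg R r → 3 * n < 16 * (r + 1) →
      (∀ W : Finset (Fin n), η * W.card * Wᶜ.card ≤ eb R W Wᶜ) → StC R r o i γ β ν →
      (∃ a, n ≤ 100000 * (Cl o a ∩ Cl i a).card) → Dcm R r

/-- (about 60 lines; uses `S_Str`, `S_Pre`) **Maximal degree.**

Proof.  `η0` from `S_Str`, `β` from `S_Pre` for `η0`, `f ν` and `n1 ν` the numbers `γ` and `n0` of `S_Pre` for `ν > 0`
(`f ν = 1`, `n1 ν = 0` for `ν ≤ 0`).  `S_Str` for `β`, `f` gives `V` and `n2`; `n0` is the maximum of `n2` and the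
`n1 ν`, `ν ∈ V` (`V.sup n1`).  Given `E`, `r`: `S_Str` gives `R ⊆ E`, `K`, `o`, `i`, `ν`; `R` is oriented; `S_Pre`
gives `Dcm R r`, which implies `Dcm E r`. -/
def S_Mai : Prop :=
  ∃ n0 : ℕ, ∀ n, n0 ≤ n → ∀ E : Finset (Fin n × Fin n), Ori E → Semi E → ∀ r : ℕ,
    3 * n < 16 * (r + 1) → (∃ R ⊆ E, Reg R r) → Dcm E r

/-- (about 30 lines; uses `S_Mai`, `S_RegA`) **The theorem.**

Proof.  If `3 n < 16 (r + 1)` use `S_Mai`.  Otherwise let `r' = 3 * n / 16`; `16 r' ≤ 3 n < 16 (r' + 1)`, `r ≤ r'`.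
`S_RegA` gives an `r'`-regular subset of `E`, `S_Mai` gives `r'` cycles; take the first `r`
(`Fin.castLE`). -/
def S_Fnl : Prop :=
  ∃ n0 : ℕ, ∀ n, n0 ≤ n → ∀ E : Finset (Fin n × Fin n), Ori E → Semi E → ∀ r : ℕ,
    (∃ R ⊆ E, Reg R r) → Dcm E r

/-- (about 40 lines; uses `S_Fnl`) **The frozen form.**

Proof.  `S_Fnl`; `N = max n0 2`.  If `Ham σ` and `n ≥ 2` then `σ v ≠ v` for all `v` (otherwise `SameCycle v w`
implies `w = v`); so `σ.support = univ` and `σ.IsCycle`. -/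
def S_Frz : Prop :=
  ∃ N : ℕ, ∀ n : ℕ, N ≤ n →
    ∀ E : Finset (Fin n × Fin n), (∀ u v : Fin n, (u, v) ∈ E → (v, u) ∉ E) →
      (∀ v : Fin n, 3 * n ≤ 8 * (E.filter (fun e => e.1 = v)).card ∧
                    3 * n ≤ 8 * (E.filter (fun e => e.2 = v)).card) →
      ∀ r : ℕ,
        (∃ H : Finset (Fin n × Fin n), H ⊆ E ∧
          ∀ v : Fin n, (H.filter (fun e => e.1 = v)).card = r ∧
                       (H.filter (fun e => e.2 = v)).card = r) →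
        ∃ σ : Fin r → Equiv.Perm (Fin n),
          (∀ i : Fin r, (σ i).IsCycle ∧ (σ i).support = Finset.univ ∧
              ∀ v : Fin n, (v, σ i v) ∈ E) ∧
          ∀ i j : Fin r, i ≠ j → ∀ v : Fin n, σ i v ≠ σ j v

end Pool.Agent.MPd266dbE
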