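import Pool.Agent.Lib.MP_d266db_co.E.SpecI

/-!
# MP_d266db_co, E: proof of `S_St2` (one step)
-/

set_option autoImplicit false

namespace Pool.Agent.MPd266dbE

open Finset Pool.Agent.MPd266db Pool.Agent.MPd266dbH

private theorem st2_min (V : Finset ℝ) (hV : ∀ x ∈ V, 0 < x) : ∃ m : ℝ, 0 < m ∧ ∀ x ∈ V, m ≤ x := by
  rcases V.eq_empty_or_nonempty with h | h
  · exact ⟨1, one_pos, fun x hx => by rw [h] at hx; exact absurd hx (notMem_empty _)⟩
  · obtain ⟨m, hm, hmin⟩ := exists_min_image V id h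
    exact ⟨m, hV m hm, hmin⟩

private theorem st2_sqrt {c : ℝ} (hc : 0 < c) {n : ℕ} (hn : (8 / c) ^ 2 ≤ n) :
    8 * ((n : ℝ) * Real.sqrt n) ≤ c * (n : ℝ) ^ 2 := by
  have h1 : 8 / c ≤ Real.sqrt n := Real.le_sqrt_of_sq_le hn
  have h2 : 8 ≤ c * Real.sqrt n := by
    rw [div_le_iff₀ hc] at h1
    linarith
  have h3 : Real.sqrt n * Real.sqrt n = n := Real.mul_self_sqrt (Nat.cast_nonneg _)
  have h4 : (0 : ℝ) ≤ n * Real.sqrt n := by positivity
  have h5 : c * (n : ℝ) ^ 2 = (c * Real.sqrt n) * (n * Real.sqrt n) := by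
    calc c * (n : ℝ) ^ 2 = c * n * (Real.sqrt n * Real.sqrt n) := by rw [h3]; ring
      _ = _ := by ring
  rw [h5]
  exact mul_le_mul_of_nonneg_right h2 h4

/-- cuts of the average, smaller side first -/
private theorem st2_cut (hSmall : S_Small) {n r : ℕ} {R R' R'' : Finset (Fin n × Fin n)} {η : ℝ}
    (hη : 0 < η) (hη4 : η ≤ 1 / 4) (hn : 100 ≤ n) (hn2 : (8 / (η / 400)) ^ 2 ≤ (n : ℝ))
    (hr : 3 * n < 16 * (r + 1)) (hO : Ori R'') (hR'' : Reg R'' r)
    (hcut : ∀ W : Finset (Fin n), η * W.card * Wᶜ.card ≤ eb R W Wᶜ)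
    (hav : ∀ X Y : Finset (Fin n),
      (eb R X Y : ℝ) + eb R' X Y ≤ 2 * eb R'' X Y + 8 * (n * Real.sqrt n))
    (W : Finset (Fin n)) (hW : W.card ≤ Wᶜ.card) : η / 4 * W.card * Wᶜ.card ≤ eb R'' W Wᶜ := by
  have hsum : W.card + Wᶜ.card = n := by rw [card_add_card_compl, Fintype.card_fin]
  have hsumR : (W.card : ℝ) + Wᶜ.card = n := by exact_mod_cast hsum
  have hn0 : (100 : ℝ) ≤ n := by exact_mod_cast hn
  have hw0 : (0 : ℝ) ≤ W.card := Nat.cast_nonneg _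
  have hw0' : (0 : ℝ) ≤ Wᶜ.card := Nat.cast_nonneg _
  have hWR : (W.card : ℝ) ≤ Wᶜ.card := by exact_mod_cast hW
  have hrR : 3 * (n : ℝ) < 16 * (r + 1) := by exact_mod_cast hr
  by_cases h1 : 100 * W.card ≤ n
  · have h2 := hSmall n r R'' hO hR'' W
    have h2R : 2 * (r : ℝ) * W.card + W.card ≤ 2 * (eb R'' W Wᶜ : ℝ) + (W.card : ℝ) ^ 2 := by
      exact_mod_cast h2
    have h1R : 100 * (W.card : ℝ) ≤ n := by exact_mod_cast h1
    have h3 : (W.card : ℝ) * (n / 4) ≤ 2 * (eb R'' W Wᶜ : ℝ) := by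
      have h4 : (n : ℝ) / 4 ≤ 2 * r + 1 - W.card := by linarith
      have h5 := mul_le_mul_of_nonneg_left h4 hw0
      nlinarith
    have h6 : η / 4 * W.card * Wᶜ.card ≤ (1 / 4) / 4 * W.card * n := by
      have h7 : (Wᶜ.card : ℝ) ≤ n := by linarith
      gcongr
    have h8 : 0 ≤ (W.card : ℝ) * n := by positivity
    nlinarith
  · have h1R : (n : ℝ) < 100 * W.card := by
      rw [not_le] at h1
      exact_mod_cast h1
    have h2 : (n : ℝ) ^ 2 / 200 ≤ (W.card : ℝ) * Wᶜ.card := by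
      have h3 : (n : ℝ) / 2 ≤ Wᶜ.card := by linarith
      have h4 : (n : ℝ) / 100 ≤ W.card := by linarith
      calc (n : ℝ) ^ 2 / 200 = (n / 100) * (n / 2) := by ring
        _ ≤ (W.card : ℝ) * Wᶜ.card := mul_le_mul h4 h3 (by positivity) hw0
    have h3 := hav W Wᶜ
    have h4 := hcut W
    have h5 : (0 : ℝ) ≤ eb R' W Wᶜ := Nat.cast_nonneg _
    have h6 := st2_sqrt (c := η / 400) (by positivity) hn2
    have h7 : η / 400 * (n : ℝ) ^ 2 ≤ η / 2 * ((W.card : ℝ) * Wᶜ.card) := by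
      have := mul_le_mul_of_nonneg_left h2 (by positivity : (0 : ℝ) ≤ η / 2)
      nlinarith
    nlinarith

theorem tSt2 (hAvX : S_AvX) (hSmall : S_Small) (hCls : S_Cls) (hPhi : S_Phi) : S_St2 := by
  classical
  intro β η f hβ hη hη4 hf V hV
  obtain ⟨m, hm0, hm⟩ := st2_min V hV
  set c : ℝ := min (m / 1000) (1 / 10 ^ 16) with hc
  have hc0 : 0 < c := lt_min (by positivity) (by positivity)
  have hcm : c ≤ m / 1000 := min_le_left _ _
  have hc16 : c ≤ 1 / 10 ^ 16 := min_le_right _ _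
  set β' : ℝ := min β (1 / 1000) with hβ'
  have hβ0 : 0 < β' := lt_min hβ (by norm_num)
  have hβ1 : β' ≤ 1 / 1000 := min_le_right _ _
  obtain ⟨νs, hνs, hcls⟩ := hCls (1 / 8) β' (by norm_num) (by norm_num) hβ0 (fun x => min (f x) c)
    (fun x hx => lt_min (hf x hx) hc0)
  refine ⟨(range 17).image νs, ?_, ?_⟩
  · intro x hx
    rw [mem_image] at hx
    obtain ⟨K, -, rfl⟩ := hx
    exact hνs K
  refine ⟨100 + ⌈(8 / c) ^ 2⌉₊ + ⌈(8 / (η / 400)) ^ 2⌉₊, ?_⟩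
  intro n hn E R R' r K o i ν hO hr hRE hRE' hR hR' hcut hK16 hK1 hν hst hcrs
  have hn100 : 100 ≤ n := by omega
  have hnR : (100 : ℝ) ≤ n := by exact_mod_cast hn100
  have hnc : (8 / c) ^ 2 ≤ (n : ℝ) := by
    refine (Nat.le_ceil _).trans ?_
    exact_mod_cast (by omega : ⌈(8 / c) ^ 2⌉₊ ≤ n)
  have hnη : (8 / (η / 400)) ^ 2 ≤ (n : ℝ) := by
    refine (Nat.le_ceil _).trans ?_
    exact_mod_cast (by omega : ⌈(8 / (η / 400)) ^ 2⌉₊ ≤ n)
  have hrR : 3 * (n : ℝ) < 16 * (r + 1) := by exact_mod_cast hr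
  have hαr : (1 / 8 : ℝ) * n ≤ r := by linarith
  obtain ⟨R'', hR''sub, hR''reg, hav⟩ := hAvX n r R R' hR hR'
  have hR''E : R'' ⊆ E := hR''sub.trans (union_subset hRE hRE')
  have hOR : Ori R'' := fun u v huv hvu => hO u v (hR''E huv) (hR''E hvu)
  have hsq := st2_sqrt hc0 hnc
  obtain ⟨K', hK'1, hK'2, o', i', hfew, hrob, hodo, hido, hsz⟩ :=
    hcls n r R'' (by linarith) hR''reg hαr
  have hK'16 : K' ≤ 16 := by
    have : (K' : ℝ) ≤ 16 := by linarith
    exact_mod_cast this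
  have hn2 : (0 : ℝ) ≤ (n : ℝ) ^ 2 := by positivity
  have hlt : K' < K := by
    refine hPhi n r K K' 16 R R' R'' o i o' i' (1 / 8) β' ν c (1 / 10 ^ 10) (by omega) (by norm_num)
      hβ0 hc0 ?_ ?_ ?_ hK16 hK'16 hK1 hR hR' hR''reg hαr ?_ ?_ hst.rob hst.odo hst.ido hst.sz ?_ hsz ?_
    · push_cast
      linarith
    · push_cast
      have := hm ν hν
      linarith
    · push_cast
      have h1 : (16 ^ 2 + 2) * c * (1 / 8 + 4 * 16) ≤ (16 ^ 2 + 2) * (1 / 10 ^ 16) * (1 / 8 + 4 * 16) := by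
        gcongr
      refine lt_of_le_of_lt h1 ?_
      norm_num
    · intro X Y
      have h1 := hav X Y
      have h2 : (0 : ℝ) ≤ eb R' X Y := Nat.cast_nonneg _
      linarith
    · intro X Y
      have h1 := hav X Y
      have h2 : (0 : ℝ) ≤ eb R X Y := Nat.cast_nonneg _
      linarith
    · exact hfew.trans (mul_le_mul_of_nonneg_right (min_le_right _ _) hn2)
    · have h1 : (n : ℝ) ^ 2 ≤ 10000000000 * ((crs o i R').card : ℝ) := by exact_mod_cast hcrs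
      linarith
  refine ⟨R'', hR''E, hR''reg, ?_, K', hlt, hK'1, o', i', νs K', ?_, ?_⟩
  · intro W
    rcases le_total W.card Wᶜ.card with h | h
    · exact st2_cut hSmall hη hη4 hn100 hnη hr hOR hR''reg hcut hav W h
    · have h1 := st2_cut hSmall hη hη4 hn100 hnη hr hOR hR''reg hcut hav Wᶜ (by rwa [compl_compl])
      rw [compl_compl] at h1
      rw [hR''reg.bal W]
      linarith
  · rw [mem_image]
    exact ⟨K', mem_range.2 (by omega), rfl⟩
  · exact ⟨hfew.trans (mul_le_mul_of_nonneg_right (min_le_left _ _) hn2), hrob, hodo, hido, hsz⟩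

end Pool.Agent.MPd266dbE
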