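import Pool.Agent.Lib.MP_d266db_co.E.SpecF

/-!
# MP_d266db_co, E, UnD: the units of the arcs of `D`
-/

set_option autoImplicit false

namespace Pool.Agent.MPd266dbE

open Finset Pool.Agent.MPd266db Pool.Agent.MPd266dbH

private def und_gp {n : ℕ} (e : ℕ) (lv : Fin n → ℕ) (s : (Fin n × Fin n) × Bool) : ℕ :=
  if s.2 = true then tgp e lv s.1.1 else hgp e lv s.1.2

private def und_cl {n K : ℕ} (o i : Fin n → Fin K) (s : (Fin n × Fin n) × Bool) : Fin K :=
  if s.2 = true then o s.1.1 else i s.1.2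

private def und_ty {n K : ℕ} (e : ℕ) (lv : Fin n → ℕ) (o i : Fin n → Fin K)
    (s : (Fin n × Fin n) × Bool) : ℕ × Fin K × Bool := (und_gp e lv s, und_cl o i s, s.2)

private def und_A {n : ℕ} (e : ℕ) (lv : Fin n → ℕ) (D : Finset (Fin n × Fin n)) :
    Finset ((Fin n × Fin n) × Bool) := (D ×ˢ univ).filter (fun s => und_gp e lv s < e)

private def und_Hb {n K : ℕ} (e : ℕ) (H1 H2 : ℕ → Fin K → Finset (Fin n × Fin n))
    (t : ℕ × Fin K × Bool) : Finset (Fin n × Fin n) :=
  if t.1 < e then (if t.2.2 = true then H1 t.1 t.2.1 else H2 t.1 t.2.1) else ∅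

private def und_rc {n K : ℕ} (e : ℕ) (lv : Fin n → ℕ) (o : Fin n → Fin K) (a : Fin n × Fin n) :
    ℕ × Fin K × Bool :=
  if lv a.1 = e then (lv a.2 - 1, o a.1, true) else (lv a.1, o a.1, false)

private theorem und_mA {n : ℕ} {e : ℕ} {lv : Fin n → ℕ} {D : Finset (Fin n × Fin n)}
    {s : (Fin n × Fin n) × Bool} : s ∈ und_A e lv D ↔ s.1 ∈ D ∧ und_gp e lv s < e := by
  unfold und_A
  rw [mem_filter, mem_product]
  simp only [mem_univ, and_true]

private theorem und_rec {n K e Nh Δ : ℕ} {S : Finset (Fin n × Fin n)} {o : Fin n → Fin K}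
    {lv : Fin n → ℕ} {H1 H2 : ℕ → Fin K → Finset (Fin n × Fin n)} (hH : Hub S o lv e Nh Δ H1 H2)
    {t : ℕ × Fin K × Bool} {a : Fin n × Fin n} (ha : a ∈ und_Hb e H1 H2 t) :
    und_rc e lv o a = t ∧ t.1 < e := by
  obtain ⟨m, x, b⟩ := t
  unfold und_Hb at ha
  by_cases hm : m < e
  · rw [if_pos hm] at ha
    refine ⟨?_, hm⟩
    cases b with
    | true =>
      rw [if_pos rfl] at ha
      obtain ⟨-, -, -, h4⟩ := hH.s1 m hm x
      obtain ⟨l1, l2, l3⟩ := h4 a ha
      unfold und_rc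
      rw [if_pos l1, l2, l3]
      rfl
    | false =>
      rw [if_neg (by simp)] at ha
      obtain ⟨-, -, -, h4⟩ := hH.s2 m hm x
      obtain ⟨l1, l2, l3⟩ := h4 a ha
      unfold und_rc
      rw [if_neg (by rw [l1]; exact hm.ne), l1, l3]
  · rw [if_neg hm] at ha
    exact absurd ha (notMem_empty _)

private theorem und_c1 {n : ℕ} {d : ℕ} {D : Finset (Fin n × Fin n)} (hD : Reg D d)
    (p : Fin n → Prop) [DecidablePred p] :
    (D.filter (fun q => p q.1)).card = d * (univ.filter p).card := by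
  have h := eb_univ_right D (univ.filter p)
  unfold eb at h
  rw [sum_congr rfl (fun v _ => (hD v).1), sum_const, smul_eq_mul, mul_comm] at h
  rw [← h]
  congr 1
  ext q
  simp only [mem_filter, mem_univ, and_true, true_and]

private theorem und_c2 {n : ℕ} {d : ℕ} {D : Finset (Fin n × Fin n)} (hD : Reg D d)
    (p : Fin n → Prop) [DecidablePred p] :
    (D.filter (fun q => p q.2)).card = d * (univ.filter p).card := by
  have h := eb_univ_left D (univ.filter p)
  unfold eb at h
  rw [sum_congr rfl (fun v _ => (hD v).2), sum_const, smul_eq_mul, mul_comm] at h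
  rw [← h]
  congr 1
  ext q
  simp only [mem_filter, mem_univ, true_and]

private theorem und_n1 {n K e d : ℕ} {D : Finset (Fin n × Fin n)} (hD : Reg D d)
    (lv : Fin n → ℕ) (o i : Fin n → Fin K) (m : ℕ) (hm : m < e) (a : Fin K) :
    ((und_A e lv D).filter (fun s => und_ty e lv o i s = (m, a, true))).card =
      d * (univ.filter (fun v => lv v = m ∧ o v = a)).card := by
  rw [← und_c1 hD (fun v => lv v = m ∧ o v = a)]
  rw [← card_image_of_injective (D.filter (fun q => lv q.1 = m ∧ o q.1 = a))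
    (f := fun q => (q, true)) (fun x y h => (Prod.ext_iff.1 h).1)]
  congr 1
  ext ⟨q, b⟩
  simp only [mem_filter, und_mA, und_ty, und_gp, und_cl, mem_image, Prod.mk.injEq]
  constructor
  · rintro ⟨⟨h1, h2⟩, h3, h4, h5⟩
    subst h5
    rw [if_pos rfl] at h2 h3 h4
    refine ⟨q, ⟨h1, ?_, h4⟩, rfl, rfl⟩
    unfold tgp at h3
    omega
  · rintro ⟨q', ⟨h1, h2, h3⟩, rfl, rfl⟩
    rw [if_pos rfl, if_pos rfl]
    have : tgp e lv q'.1 = m := by unfold tgp; omega
    exact ⟨⟨h1, by rw [this]; exact hm⟩, this, h3, rfl⟩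

private theorem und_n2 {n K e d : ℕ} {D : Finset (Fin n × Fin n)} (hD : Reg D d)
    (lv : Fin n → ℕ) (o i : Fin n → Fin K) (m : ℕ) (hm : m < e) (a : Fin K) :
    ((und_A e lv D).filter (fun s => und_ty e lv o i s = (m, a, false))).card =
      d * (univ.filter (fun v => lv v = m + 1 ∧ i v = a)).card := by
  rw [← und_c2 hD (fun v => lv v = m + 1 ∧ i v = a)]
  rw [← card_image_of_injective (D.filter (fun q => lv q.2 = m + 1 ∧ i q.2 = a))
    (f := fun q => (q, false)) (fun x y h => (Prod.ext_iff.1 h).1)]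
  congr 1
  ext ⟨q, b⟩
  simp only [mem_filter, und_mA, und_ty, und_gp, und_cl, mem_image, Prod.mk.injEq]
  constructor
  · rintro ⟨⟨h1, h2⟩, h3, h4, h5⟩
    subst h5
    rw [if_neg (by simp)] at h2 h3 h4
    refine ⟨q, ⟨h1, ?_, h4⟩, rfl, rfl⟩
    unfold hgp at h3 h2
    split_ifs at h3 h2 <;> omega
  · rintro ⟨q', ⟨h1, h2, h3⟩, rfl, rfl⟩
    rw [if_neg (by simp), if_neg (by simp)]
    have : hgp e lv q'.2 = m := by
      unfold hgp
      rw [h2, if_neg (Nat.succ_ne_zero _)]
      rfl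
    exact ⟨⟨h1, by rw [this]; exact hm⟩, this, h3, rfl⟩

/-- the hub of a slot (empty if it does not exist) -/
private def und_hs {n : ℕ} (A : Finset ((Fin n × Fin n) × Bool))
    (hb : (Fin n × Fin n) × Bool → Fin n × Fin n) (s : (Fin n × Fin n) × Bool) :
    Finset (Fin n × Fin n) := if s ∈ A then {hb s} else ∅

private theorem und_mhs {n : ℕ} {A : Finset ((Fin n × Fin n) × Bool)}
    {hb : (Fin n × Fin n) × Bool → Fin n × Fin n} {s : (Fin n × Fin n) × Bool}
    {a : Fin n × Fin n} : a ∈ und_hs A hb s ↔ s ∈ A ∧ a = hb s := by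
  unfold und_hs
  by_cases h : s ∈ A
  · rw [if_pos h, mem_singleton]
    exact ⟨fun h' => ⟨h, h'⟩, fun h' => h'.2⟩
  · rw [if_neg h]
    exact ⟨fun h' => absurd h' (notMem_empty _), fun h' => absurd h'.1 h⟩

private def und_u {n : ℕ} (A : Finset ((Fin n × Fin n) × Bool))
    (hb : (Fin n × Fin n) × Bool → Fin n × Fin n) (mt : Fin n × Fin n → Fin n × Fin n)
    (q : Fin n × Fin n) : Finset (Fin n × Fin n) :=
  {q, mt q} ∪ (und_hs A hb (q, true) ∪ und_hs A hb (q, false) ∪
    (und_hs A hb (mt q, true) ∪ und_hs A hb (mt q, false)))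

private theorem und_mu {n : ℕ} {A : Finset ((Fin n × Fin n) × Bool)}
    {hb : (Fin n × Fin n) × Bool → Fin n × Fin n} {mt : Fin n × Fin n → Fin n × Fin n}
    {q a : Fin n × Fin n} : a ∈ und_u A hb mt q ↔
      (a = q ∨ a = mt q) ∨ ∃ s ∈ A, (s.1 = q ∨ s.1 = mt q) ∧ a = hb s := by
  unfold und_u
  simp only [mem_union, und_mhs, mem_insert, mem_singleton]
  constructor
  · rintro (h | ((h | h) | (h | h)))
    · exact Or.inl h
    · exact Or.inr ⟨_, h.1, Or.inl rfl, h.2⟩
    · exact Or.inr ⟨_, h.1, Or.inl rfl, h.2⟩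
    · exact Or.inr ⟨_, h.1, Or.inr rfl, h.2⟩
    · exact Or.inr ⟨_, h.1, Or.inr rfl, h.2⟩
  · rintro (h | ⟨⟨r, b⟩, h1, h2, h3⟩)
    · exact Or.inl h
    · refine Or.inr ?_
      cases b with
      | true =>
        rcases h2 with h2 | h2
        · exact Or.inl (Or.inl (by simp only at h2; rw [← h2]; exact ⟨h1, h3⟩))
        · exact Or.inr (Or.inl (by simp only at h2; rw [← h2]; exact ⟨h1, h3⟩))
      | false =>
        rcases h2 with h2 | h2
        · exact Or.inl (Or.inr (by simp only at h2; rw [← h2]; exact ⟨h1, h3⟩))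
        · exact Or.inr (Or.inr (by simp only at h2; rw [← h2]; exact ⟨h1, h3⟩))

private theorem und_dgE {n : ℕ} (z : ℕ) : Dg (∅ : Finset (Fin n × Fin n)) z := by
  intro v
  unfold od idg
  simp

theorem tUnD (hSlt : S_Slt) (hBas : S_Bas) (hUn1 : S_Un1) : S_UnD := by
  intro n K e d p Nh Δ D S o i c0 d0 lv H1 H2 hD hOri hCD hLv he hS hHub hDis hNh
  have hn : 1 ≤ n := by
    obtain ⟨a, ha⟩ := hLv.typ
    obtain ⟨v, -⟩ := ha 0 (Nat.zero_le _) a
    exact Nat.one_le_iff_ne_zero.2 (fun h => by subst h; exact v.elim0)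
  obtain ⟨mt, hmt, hmtD, hmt1, hmt2, hmt3⟩ := hBas n K d p D o i c0 d0 hD hCD
  -- hubs
  obtain ⟨hb, hba, hbb, hbc⟩ := hSlt n ((Fin n × Fin n) × Bool) (ℕ × Fin K × Bool) (und_A e lv D)
    (und_ty e lv o i) (und_Hb e H1 H2)
    (fun s => {(s.1, !s.2), (mt s.1, s.2), (mt s.1, !s.2)})
    (fun s => {s.1.1, s.1.2, (mt s.1).1, (mt s.1).2}) Δ hn
    (fun s => card_le_three)
    (by
      rintro ⟨q, b⟩ ⟨q', b'⟩ h
      simp only [mem_insert, mem_singleton, Prod.mk.injEq] at h ⊢
      rcases h with ⟨h1, h2⟩ | ⟨h1, h2⟩ | ⟨h1, h2⟩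
      · exact Or.inl ⟨h1.symm, by rw [h2, Bool.not_not]⟩
      · exact Or.inr (Or.inl ⟨by rw [h1, hmt], h2.symm⟩)
      · exact Or.inr (Or.inr ⟨by rw [h1, hmt], by rw [h2, Bool.not_not]⟩))
    (fun s _ => card_le_four)
    (by
      rintro ⟨m, x, b⟩
      unfold und_Hb
      by_cases hm : m < e
      · rw [if_pos hm]
        cases b with
        | true => rw [if_pos rfl]; exact (hHub.s1 m hm x).2.2.1
        | false => rw [if_neg (by simp)]; exact (hHub.s2 m hm x).2.2.1
      · rw [if_neg hm]; exact und_dgE Δ)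
    (by
      rintro ⟨q, b⟩ hs
      rw [und_mA] at hs
      have hle : ∀ P : Fin n → Prop, ∀ [DecidablePred P],
          d * (univ.filter P).card ≤ d * n := fun P _ => Nat.mul_le_mul_left _ (by
            have := card_filter_le (univ : Finset (Fin n)) P
            rwa [card_univ, Fintype.card_fin] at this)
      cases b with
      | true =>
        have e1 := und_n1 hD lv o i (und_gp e lv (q, true)) hs.2 (und_cl o i (q, true))
        have e2 := hle (fun v => lv v = und_gp e lv (q, true) ∧ o v = und_cl o i (q, true))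
        have e3 : (und_Hb e H1 H2 (und_ty e lv o i (q, true))).card = Nh := by
          unfold und_Hb und_ty
          rw [if_pos hs.2, if_pos rfl]
          exact (hHub.s1 _ hs.2 _).2.1
        rw [e3]
        have e4 : (und_A e lv D).filter (fun s' => und_ty e lv o i s' = und_ty e lv o i (q, true)) =
          (und_A e lv D).filter (fun s => und_ty e lv o i s =
            (und_gp e lv (q, true), und_cl o i (q, true), true)) := rfl
        rw [e4, e1]
        omega
      | false =>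
        have e1 := und_n2 hD lv o i (und_gp e lv (q, false)) hs.2 (und_cl o i (q, false))
        have e2 := hle (fun v => lv v = und_gp e lv (q, false) + 1 ∧ i v = und_cl o i (q, false))
        have e3 : (und_Hb e H1 H2 (und_ty e lv o i (q, false))).card = Nh := by
          unfold und_Hb und_ty
          rw [if_pos hs.2, if_neg (by simp)]
          exact (hHub.s2 _ hs.2 _).2.1
        rw [e3]
        have e4 : (und_A e lv D).filter (fun s' => und_ty e lv o i s' = und_ty e lv o i (q, false)) =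
          (und_A e lv D).filter (fun s => und_ty e lv o i s =
            (und_gp e lv (q, false), und_cl o i (q, false), false)) := rfl
        rw [e4, e1]
        omega)
  -- the type is determined by the hub
  have hrec : ∀ s ∈ und_A e lv D, und_rc e lv o (hb s) = und_ty e lv o i s := fun s hs =>
    (und_rec hHub (hba s hs).1).1
  have hinj : ∀ s ∈ und_A e lv D, ∀ s' ∈ und_A e lv D, hb s = hb s' → s = s' := by
    intro s hs s' hs' h
    by_contra hne
    refine hbb s hs s' hs' hne ?_ h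
    rw [← hrec s hs, ← hrec s' hs', h]
  -- the hubs are in hbU, not in D
  have hbm : ∀ s ∈ und_A e lv D, und_gp e lv s < e ∧
      ((s.2 = true → hb s ∈ H1 (und_gp e lv s) (und_cl o i s)) ∧
       (s.2 = false → hb s ∈ H2 (und_gp e lv s) (und_cl o i s))) := by
    intro s hs
    have h1 := (und_mA.1 hs).2
    have h2 := (hba s hs).1
    unfold und_Hb at h2
    rw [show (und_ty e lv o i s).1 = und_gp e lv s from rfl, if_pos h1] at h2
    refine ⟨h1, fun h => ?_, fun h => ?_⟩
    · rw [show (und_ty e lv o i s).2.2 = s.2 from rfl, if_pos h] at h2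
      exact h2
    · rw [show (und_ty e lv o i s).2.2 = s.2 from rfl, if_neg (by rw [h]; simp)] at h2
      exact h2
  have hbD : ∀ s ∈ und_A e lv D, hb s ∉ D := by
    intro s hs hDm
    refine (Finset.disjoint_left.1 hDis hDm) ?_
    obtain ⟨h1, h2, h3⟩ := hbm s hs
    unfold hbU
    rw [mem_biUnion]
    refine ⟨und_gp e lv s, mem_range.2 h1, ?_⟩
    rw [mem_biUnion]
    refine ⟨und_cl o i s, mem_univ _, ?_⟩
    rw [mem_union]
    by_cases h : s.2 = true
    · exact Or.inl (h2 h)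
    · exact Or.inr (h3 (by simpa using h))
  have hbS : ∀ s ∈ und_A e lv D, hb s ∈ S := by
    intro s hs
    obtain ⟨h1, h2, h3⟩ := hbm s hs
    by_cases h : s.2 = true
    · exact (hHub.s1 _ h1 _).1 (h2 h)
    · exact (hHub.s2 _ h1 _).1 (h3 (by simpa using h))
  have hloop : ∀ q ∈ D, q.1 ≠ q.2 := by
    rintro ⟨x, y⟩ hq h
    simp only at h
    subst h
    exact hOri x x hq hq
  -- the units
  have hA1 : ∀ q ∈ D, ((q, true) ∈ und_A e lv D ↔ tgp e lv q.1 < e) := by
    intro q hq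
    rw [und_mA]
    unfold und_gp
    rw [if_pos rfl]
    exact ⟨fun h => h.2, fun h => ⟨hq, h⟩⟩
  have hA2 : ∀ q ∈ D, ((q, false) ∈ und_A e lv D ↔ hgp e lv q.2 < e) := by
    intro q hq
    rw [und_mA]
    unfold und_gp
    rw [if_neg (by simp)]
    exact ⟨fun h => h.2, fun h => ⟨hq, h⟩⟩
  have hcard1 : ∀ q ∈ D, (und_hs (und_A e lv D) hb (q, true)).card =
      (if tgp e lv q.1 < e then 1 else 0) := by
    intro q hq
    unfold und_hs
    by_cases h : tgp e lv q.1 < e
    · rw [if_pos ((hA1 q hq).2 h), if_pos h, card_singleton]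
    · rw [if_neg (fun h' => h ((hA1 q hq).1 h')), if_neg h, card_empty]
  have hcard2 : ∀ q ∈ D, (und_hs (und_A e lv D) hb (q, false)).card =
      (if hgp e lv q.2 < e then 1 else 0) := by
    intro q hq
    unfold und_hs
    by_cases h : hgp e lv q.2 < e
    · rw [if_pos ((hA2 q hq).2 h), if_pos h, card_singleton]
    · rw [if_neg (fun h' => h ((hA2 q hq).1 h')), if_neg h, card_empty]
  have hpr1 : ∀ q ∈ D, ∀ a ∈ und_hs (und_A e lv D) hb (q, true),
      lv a.1 = e ∧ lv a.2 = tgp e lv q.1 + 1 ∧ o a.1 = o q.1 ∧ i a.2 = o q.1 := by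
    intro q hq a ha
    obtain ⟨hs, rfl⟩ := und_mhs.1 ha
    obtain ⟨h1, h2, -⟩ := hbm _ hs
    obtain ⟨l1, l2, l3⟩ := (hHub.s1 _ h1 _).2.2.2 _ (h2 rfl)
    refine ⟨l1, l2, l3, ?_⟩
    rw [← (hS _ (hbS _ hs)).1]
    exact l3
  have hpr2 : ∀ q ∈ D, ∀ a ∈ und_hs (und_A e lv D) hb (q, false),
      lv a.1 = hgp e lv q.2 ∧ lv a.2 = 0 ∧ o a.1 = i q.2 ∧ i a.2 = i q.2 := by
    intro q hq a ha
    obtain ⟨hs, rfl⟩ := und_mhs.1 ha
    obtain ⟨h1, -, h2⟩ := hbm _ hs
    obtain ⟨l1, l2, l3⟩ := (hHub.s2 _ h1 _).2.2.2 _ (h2 rfl)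
    refine ⟨l1, l2, l3, ?_⟩
    rw [← (hS _ (hbS _ hs)).1]
    exact l3
  have hFv : ∀ s ∈ und_A e lv D, (hb s).1 ≠ (hb s).2 ∧ PD (hb s) s.1 ∧ PD (hb s) (mt s.1) := by
    intro s hs
    obtain ⟨-, h1, h2⟩ := hba s hs
    simp only [mem_insert, mem_singleton, not_or] at h1 h2
    exact ⟨(hS _ (hbS s hs)).2, ⟨h1.1, h1.2.1, h2.1, h2.2.1⟩,
      ⟨h1.2.2.1, h1.2.2.2, h2.2.2.1, h2.2.2.2⟩⟩
  have hUn : ∀ q ∈ D, Un e lv o i c0 d0 (und_u (und_A e lv D) hb mt q)
      (if mt q = q ∧ o q.1 ≠ i q.2 then 1 else 0) := by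
    intro q hq
    have hq' := hmtD q hq
    refine hUn1 n K e lv o i c0 d0 q (mt q) (und_hs (und_A e lv D) hb (q, true))
      (und_hs (und_A e lv D) hb (q, false)) (und_hs (und_A e lv D) hb (mt q, true))
      (und_hs (und_A e lv D) hb (mt q, false)) hLv.le he (hloop q hq) (hloop _ hq') ?_
      (hmt1 q hq) ?_ (hmt2 q hq) (hcard1 q hq) (hcard2 q hq) (hcard1 _ hq') (hcard2 _ hq')
      (hpr1 q hq) (hpr2 q hq) (hpr1 _ hq') (hpr2 _ hq') ?_ ?_ ?_ ?_
    · rintro ⟨h1, h2⟩
      refine hOri q.1 q.2 hq ?_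
      have : mt q = (q.2, q.1) := Prod.ext h1.symm h2
      rw [← this]
      exact hq'
    · intro h
      rw [h]
      exact ⟨rfl, rfl⟩
    · intro a ha
      rw [mem_union, mem_union, mem_union] at ha
      rcases ha with (ha | ha) | (ha | ha)
      · obtain ⟨hs, rfl⟩ := und_mhs.1 ha
        exact hFv _ hs
      · obtain ⟨hs, rfl⟩ := und_mhs.1 ha
        exact hFv _ hs
      · obtain ⟨hs, rfl⟩ := und_mhs.1 ha
        obtain ⟨x1, x2, x3⟩ := hFv _ hs
        rw [show mt ((mt q, true) : (Fin n × Fin n) × Bool).1 = q from hmt q] at x3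
        exact ⟨x1, x3, x2⟩
      · obtain ⟨hs, rfl⟩ := und_mhs.1 ha
        obtain ⟨x1, x2, x3⟩ := hFv _ hs
        rw [show mt ((mt q, false) : (Fin n × Fin n) × Bool).1 = q from hmt q] at x3
        exact ⟨x1, x3, x2⟩
    · intro a ha a' ha'
      obtain ⟨hs, rfl⟩ := und_mhs.1 ha
      obtain ⟨hs', rfl⟩ := und_mhs.1 ha'
      refine hbc _ hs _ hs' (by simp) (by simp)
    · intro a ha a' ha'
      obtain ⟨hs, rfl⟩ := und_mhs.1 ha
      obtain ⟨hs', rfl⟩ := und_mhs.1 ha'
      refine hbc _ hs _ hs' (by simp) (by simp)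
    · intro hne a ha a' ha'
      have hne' : q ≠ mt q := fun h => hne h.symm
      rcases mem_union.1 ha with ha | ha
      · obtain ⟨hs, rfl⟩ := und_mhs.1 ha
        rcases mem_union.1 ha' with ha' | ha'
        · obtain ⟨hs', rfl⟩ := und_mhs.1 ha'
          exact hbc _ hs _ hs' (fun h => hne' (Prod.ext_iff.1 h).1) (by simp)
        · obtain ⟨hs', rfl⟩ := und_mhs.1 ha'
          exact hbc _ hs _ hs' (fun h => hne' (Prod.ext_iff.1 h).1) (by simp)
      · obtain ⟨hs, rfl⟩ := und_mhs.1 ha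
        rcases mem_union.1 ha' with ha' | ha'
        · obtain ⟨hs', rfl⟩ := und_mhs.1 ha'
          exact hbc _ hs _ hs' (fun h => hne' (Prod.ext_iff.1 h).1) (by simp)
        · obtain ⟨hs', rfl⟩ := und_mhs.1 ha'
          exact hbc _ hs _ hs' (fun h => hne' (Prod.ext_iff.1 h).1) (by simp)
  -- u (mt q) = u q
  have humt : ∀ q, und_u (und_A e lv D) hb mt (mt q) = und_u (und_A e lv D) hb mt q := by
    intro q
    ext a
    rw [und_mu, und_mu, hmt]
    constructor
    · rintro (h | ⟨s, h1, h2, h3⟩)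
      · exact Or.inl h.symm
      · exact Or.inr ⟨s, h1, h2.symm, h3⟩
    · rintro (h | ⟨s, h1, h2, h3⟩)
      · exact Or.inl h.symm
      · exact Or.inr ⟨s, h1, h2.symm, h3⟩
  -- common elements
  have hcom : ∀ r q q' : Fin n × Fin n, (r = q ∨ r = mt q) → (r = q' ∨ r = mt q') →
      und_u (und_A e lv D) hb mt q = und_u (und_A e lv D) hb mt q' := by
    intro r q q' h h'
    have h1 : und_u (und_A e lv D) hb mt r = und_u (und_A e lv D) hb mt q := by
      rcases h with h | h
      · rw [h]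
      · rw [h, humt]
    have h2 : und_u (und_A e lv D) hb mt r = und_u (und_A e lv D) hb mt q' := by
      rcases h' with h' | h'
      · rw [h']
      · rw [h', humt]
    rw [← h1, h2]
  have hint : ∀ q ∈ D, ∀ a ∈ und_u (und_A e lv D) hb mt q, a ∈ D → (a = q ∨ a = mt q) := by
    intro q hq a ha haD
    rcases und_mu.1 ha with h | ⟨s, h1, -, h3⟩
    · exact h
    · exact absurd (h3 ▸ haD) (hbD s h1)
  have hdis : ∀ q ∈ D, ∀ q' ∈ D, und_u (und_A e lv D) hb mt q ≠ und_u (und_A e lv D) hb mt q' →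
      Disjoint (und_u (und_A e lv D) hb mt q) (und_u (und_A e lv D) hb mt q') := by
    intro q hq q' hq' hne
    rw [Finset.disjoint_left]
    intro a ha ha'
    apply hne
    rcases und_mu.1 ha with h | ⟨s, h1, h2, h3⟩
    · have haD : a ∈ D := by
        rcases h with h | h
        · rw [h]; exact hq
        · rw [h]; exact hmtD q hq
      exact hcom a q q' h (hint q' hq' a ha' haD)
    · rcases und_mu.1 ha' with h | ⟨s', h1', h2', h3'⟩
      · have haD : a ∈ D := by
          rcases h with h | h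
          · rw [h]; exact hq'
          · rw [h]; exact hmtD q' hq'
        exact absurd (h3 ▸ haD) (hbD s h1)
      · have : s = s' := hinj s h1 s' h1' (h3.symm.trans h3')
        subst this
        exact hcom s.1 q q' h2 h2'
  have hbq : ∀ q ∈ D, ((und_u (und_A e lv D) hb mt q).filter
      (fun r => r ∈ D ∧ mt r = r ∧ o r.1 ≠ i r.2)).card =
      (if mt q = q ∧ o q.1 ≠ i q.2 then 1 else 0) := by
    intro q hq
    by_cases h : mt q = q ∧ o q.1 ≠ i q.2
    · rw [if_pos h, card_eq_one]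
      refine ⟨q, ?_⟩
      ext r
      rw [mem_filter, mem_singleton]
      constructor
      · rintro ⟨h1, h2, h3, h4⟩
        rcases hint q hq r h1 h2 with h5 | h5
        · exact h5
        · rw [h5, h.1]
      · rintro rfl
        exact ⟨und_mu.2 (Or.inl (Or.inl rfl)), hq, h.1, h.2⟩
    · rw [if_neg h, card_eq_zero, filter_eq_empty_iff]
      rintro r h1 ⟨h2, h3, h4⟩
      apply h
      rcases hint q hq r h1 h2 with h5 | h5
      · rw [← h5]
        exact ⟨h3, h4⟩
      · have h6 : r = q := by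
          have := h3
          rw [h5, hmt] at this
          rw [h5, ← this]
        rw [← h6]
        exact ⟨h3, h4⟩
  have hmemU : ∀ w, w ∈ D.image (und_u (und_A e lv D) hb mt) →
      ∃ q ∈ D, und_u (und_A e lv D) hb mt q = w := fun w hw => mem_image.1 hw
  have hbU : hbU e (fun m a => ((und_A e lv D).filter
        (fun s => und_ty e lv o i s = (m, a, true))).image hb)
      (fun m a => ((und_A e lv D).filter (fun s => und_ty e lv o i s = (m, a, false))).image hb) =
      (und_A e lv D).image hb := by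
    ext a
    unfold hbU
    simp only [mem_biUnion, mem_range, mem_univ, true_and, mem_union, mem_image, mem_filter]
    constructor
    · rintro ⟨m, hm, x, (⟨s, ⟨h1, -⟩, h2⟩ | ⟨s, ⟨h1, -⟩, h2⟩)⟩
      · exact ⟨s, h1, h2⟩
      · exact ⟨s, h1, h2⟩
    · rintro ⟨s, h1, h2⟩
      refine ⟨und_gp e lv s, (und_mA.1 h1).2, und_cl o i s, ?_⟩
      obtain ⟨q, b⟩ := s
      cases b with
      | true => exact Or.inl ⟨(q, true), ⟨h1, rfl⟩, h2⟩
      | false => exact Or.inr ⟨(q, false), ⟨h1, rfl⟩, h2⟩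
  have hUall : (D.image (und_u (und_A e lv D) hb mt)).biUnion id =
      D ∪ (und_A e lv D).image hb := by
    ext a
    simp only [mem_biUnion, mem_image, id, mem_union]
    constructor
    · rintro ⟨w, ⟨q, hq, rfl⟩, ha⟩
      rcases und_mu.1 ha with h | ⟨s, h1, h2, h3⟩
      · left
        rcases h with h | h
        · rw [h]; exact hq
        · rw [h]; exact hmtD q hq
      · exact Or.inr ⟨s, h1, h3.symm⟩
    · rintro (h | ⟨s, h1, h2⟩)
      · exact ⟨_, ⟨a, h, rfl⟩, und_mu.2 (Or.inl (Or.inl rfl))⟩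
      · exact ⟨_, ⟨s.1, (und_mA.1 h1).1, rfl⟩, und_mu.2 (Or.inr ⟨s, h1, Or.inl rfl, h2.symm⟩)⟩
  refine ⟨D.image (und_u (und_A e lv D) hb mt),
    fun w => (w.filter (fun r => r ∈ D ∧ mt r = r ∧ o r.1 ≠ i r.2)).card,
    fun m a => ((und_A e lv D).filter (fun s => und_ty e lv o i s = (m, a, true))).image hb,
    fun m a => ((und_A e lv D).filter (fun s => und_ty e lv o i s = (m, a, false))).image hb,
    ?_, ?_, ?_, ?_, ?_⟩
  · intro w hw
    obtain ⟨q, hq, rfl⟩ := hmemU w hw
    simp only [hbq q hq]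
    exact hUn q hq
  · intro w hw w' hw' hne
    obtain ⟨q, hq, rfl⟩ := hmemU w hw
    obtain ⟨q', hq', rfl⟩ := hmemU w' hw'
    exact hdis q hq q' hq' hne
  · rw [hbU]
    exact hUall
  · rw [← card_biUnion]
    · rw [← hmt3]
      congr 1
      ext r
      simp only [mem_biUnion, mem_filter]
      constructor
      · rintro ⟨w, -, -, h1, h2⟩
        exact ⟨h1, h2⟩
      · rintro ⟨h1, h2⟩
        exact ⟨_, mem_image_of_mem _ h1, und_mu.2 (Or.inl (Or.inl rfl)), h1, h2⟩
    · intro w hw w' hw' hne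
      obtain ⟨q, hq, rfl⟩ := hmemU w hw
      obtain ⟨q', hq', rfl⟩ := hmemU w' hw'
      exact disjoint_filter_filter (hdis q hq q' hq' hne)
  · intro m hm a
    refine ⟨?_, ?_, ?_, ?_⟩
    · intro x hx
      obtain ⟨s, hs, rfl⟩ := mem_image.1 hx
      obtain ⟨hsA, hty⟩ := mem_filter.1 hs
      obtain ⟨h1, h2, -⟩ := hbm s hsA
      have e1 : und_gp e lv s = m := (Prod.ext_iff.1 hty).1
      have e2 : und_cl o i s = a := (Prod.ext_iff.1 (Prod.ext_iff.1 hty).2).1
      have e3 : s.2 = true := (Prod.ext_iff.1 (Prod.ext_iff.1 hty).2).2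
      have := h2 e3
      rw [e1, e2] at this
      exact this
    · intro x hx
      obtain ⟨s, hs, rfl⟩ := mem_image.1 hx
      obtain ⟨hsA, hty⟩ := mem_filter.1 hs
      obtain ⟨h1, -, h2⟩ := hbm s hsA
      have e1 : und_gp e lv s = m := (Prod.ext_iff.1 hty).1
      have e2 : und_cl o i s = a := (Prod.ext_iff.1 (Prod.ext_iff.1 hty).2).1
      have e3 : s.2 = false := (Prod.ext_iff.1 (Prod.ext_iff.1 hty).2).2
      have := h2 e3
      rw [e1, e2] at this
      exact this
    · rw [card_image_of_injOn, und_n1 hD lv o i m hm a]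
      intro s hs s' hs' h
      exact hinj s (mem_filter.1 hs).1 s' (mem_filter.1 hs').1 h
    · rw [card_image_of_injOn, und_n2 hD lv o i m hm a]
      intro s hs s' hs' h
      exact hinj s (mem_filter.1 hs).1 s' (mem_filter.1 hs').1 h

end Pool.Agent.MPd266dbE
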